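import Pool.Agent.H39.NonBorel
import Pool.Agent.H8.Analytic

/-! Two analytic sets covering the Cantor space that cannot be reduced by a Borel set; measurable
selection almost everywhere; a rigidity lemma. -/

namespace Pool.Agent.H39.AB

open Set Filter Topology MeasureTheory NonBorel

def Cl (S T : List ℕ → Bool) (R : List ℕ → List ℕ → Prop) : Prop :=
  ∀ s t, R s t → ∀ m, S (m :: s) = true → ∃ k, T (k :: t) = true ∧ R (m :: s) (k :: t)

def Sim (S T : List ℕ → Bool) : Prop := ∃ R, Cl S T R ∧ R [] []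

def Br (S : List ℕ → Bool) : Prop := ∃ y : ℕ → ℕ, ∀ n, S (res y (n + 1)) = true

theorem sim_total (S T : List ℕ → Bool) : Sim S T ∨ Sim T S := by
  refine or_iff_not_imp_left.2 fun h => ⟨fun t s => ¬∃ R, Cl S T R ∧ R s t, fun t s h1 k hk => ?_, h⟩
  by_contra! h2
  refine h1 ⟨fun s' t' => (s' = s ∧ t' = t) ∨ ∃ R, Cl S T R ∧ R s' t', ?_, Or.inl ⟨rfl, rfl⟩⟩
  rintro s' t' (⟨rfl, rfl⟩ | ⟨R, h3, h4⟩) m hm
  · exact ⟨k, hk, Or.inr (h2 m hm)⟩
  · exact (h3 _ _ h4 m hm).imp fun k h5 => ⟨h5.1, Or.inr ⟨R, h3, h5.2⟩⟩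

theorem Sim.br {S T : List ℕ → Bool} (h : Sim S T) (hS : Br S) : Br T := by
  obtain ⟨R, h1, h2⟩ := h
  obtain ⟨y, hy⟩ := hS
  obtain ⟨z, hz⟩ := exists_branch (P := fun t => R (res y t.length) t ∧ (t ≠ [] → T t = true))
    ⟨h2, fun h => (h rfl).elim⟩ fun t ht => by
      obtain ⟨k, h3, h4⟩ := h1 _ _ ht.1 _ (hy t.length)
      exact ⟨k, h4, fun _ => h3⟩
  exact ⟨z, fun n => (hz (n + 1)).2 (by simp)⟩

theorem ana_sim {X : Type} [TopologicalSpace X] [PolishSpace X] {S T : X → List ℕ → Bool}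
    (hS : Continuous S) (hT : Continuous T) : AnalyticSet {x | Sim (S x) (T x)} := by
  classical
  have h0 : PolishSpace (List ℕ × List ℕ × ℕ → ℕ) := PolishSpace.mk
  have h1 : IsClosed {p : X × (List ℕ × List ℕ → Bool) × (List ℕ × List ℕ × ℕ → ℕ) |
      p.2.1 ([], []) = true ∧ ∀ s t m k, (p.2.1 (s, t) && S p.1 (m :: s) &&
        decide (p.2.2 (s, t, m) = k) && !(T p.1 (k :: t) && p.2.1 (m :: s, k :: t))) = false} := by
    simp only [ofPred_and, ofPred_forall]
    refine (isClosed_eq (by fun_prop) continuous_const).inter ?_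
    refine isClosed_iInter fun s => isClosed_iInter fun t => isClosed_iInter fun m =>
      isClosed_iInter fun k => isClosed_eq ?_ continuous_const
    exact (continuous_of_discreteTopology (f := fun q : Bool × Bool × ℕ × Bool × Bool =>
      (q.1 && q.2.1 && decide (q.2.2.1 = k) && !(q.2.2.2.1 && q.2.2.2.2)))).comp
      (f := fun p : X × (List ℕ × List ℕ → Bool) × (List ℕ × List ℕ × ℕ → ℕ) =>
        (p.2.1 (s, t), S p.1 (m :: s), p.2.2 (s, t, m), T p.1 (k :: t), p.2.1 (m :: s, k :: t)))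
      (by fun_prop)
  convert h1.analyticSet.image_of_continuous continuous_fst using 1
  ext x
  constructor
  · rintro ⟨R, h2, h3⟩
    choose! κ h4 using h2
    refine ⟨(x, fun q => decide (R q.1 q.2), fun q => κ q.1 q.2.1 q.2.2),
      ⟨by simpa using h3, fun s t m k => ?_⟩, rfl⟩
    simpa using fun a b c => c ▸ h4 s t a m b
  · rintro ⟨⟨x, R, κ⟩, ⟨h2, h3⟩, rfl⟩
    exact ⟨fun s t => R (s, t) = true, fun s t a m b => ⟨κ (s, t, m), by
      simpa [a, b] using h3 s t m (κ (s, t, m))⟩, h2⟩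

theorem code {B : Set (ℕ → Bool)} (hB : AnalyticSet B) : ∃ τ : List Bool × List ℕ → Bool,
    ∀ x, x ∈ B ↔ Br fun t => τ (res x t.length, t) := by
  classical
  rw [AnalyticSet] at hB
  obtain rfl | ⟨g, hg, rfl⟩ := hB
  · exact ⟨fun _ => false, fun x => ⟨fun h => h.elim, fun ⟨z, hz⟩ => by simpa using hz 0⟩⟩
  refine ⟨fun q => decide (∃ z, res z q.2.length = q.2 ∧ res (g z) q.2.length = q.1), fun x => ⟨?_, ?_⟩⟩
  · rintro ⟨z, rfl⟩
    exact ⟨z, fun n => decide_eq_true ⟨z, by rw [length_res], rfl⟩⟩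
  · rintro ⟨z, hz⟩
    choose w h2 h3 using fun n => of_decide_eq_true (hz n)
    simp only [length_res] at h2 h3
    simp only [res_succ, List.cons.injEq] at h2 h3
    exact ⟨z, tendsto_nhds_unique ((hg.tendsto _).comp (tendsto_of_res fun n => (h2 n).2))
      (tendsto_of_res fun n => (h3 n).2)⟩

theorem insep : ∃ f : (ℕ → ℕ) → ℕ → Bool, Continuous f ∧ Function.Surjective f ∧
    ∀ B, MeasurableSet B → (∀ a ∈ B, ∃ w, w 0 = 0 ∧ f w = a) →
      (∀ a ∉ B, ∃ w, w 0 ≠ 0 ∧ f w = a) → False := by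
  obtain ⟨e⟩ : Nonempty (Bool × List Bool × List ℕ ≃ ℕ) := nonempty_equiv_of_countable
  let Φ : Bool → (ℕ → Bool) → List ℕ → Bool := fun i x t => x (e (i, res x t.length, t))
  have hΦ : ∀ i, Continuous (Φ i) := fun i => continuous_pi fun t => by
    let _ : TopologicalSpace (List Bool) := ⊥
    have : DiscreteTopology (List Bool) := ⟨rfl⟩
    exact (continuous_prod_of_discrete_right (f := fun q : (ℕ → Bool) × List Bool =>
      q.1 (e (i, q.2, t))) |>.2 fun σ => continuous_apply (e (i, σ, t))).comp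
      (f := fun x : ℕ → Bool => (x, res x t.length))
      (continuous_id.prodMk (continuous_res t.length id))
  have h1 : ∀ i, ∃ g : (ℕ → ℕ) → ℕ → Bool, Continuous g ∧
      range g = {x | Sim (Φ i x) (Φ (!i) x)} := fun i => by
    have h1 := ana_sim (hΦ i) (hΦ (!i))
    rw [AnalyticSet] at h1
    refine h1.resolve_left (Nonempty.ne_empty ⟨fun _ => false, fun _ _ => True, ?_, trivial⟩)
    simp [Cl, Φ]
  choose g g1 g2 using h1
  refine ⟨fun w => g (decide (w 0 = 0)) fun n => w (n + 1), ?_, fun a => ?_, fun B hB b1 b2 => ?_⟩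
  · exact (continuous_prod_of_discrete_left (f := fun q : ℕ × (ℕ → ℕ) =>
      g (decide (q.1 = 0)) q.2) |>.2 fun k => g1 (decide (k = 0))).comp
      (f := fun w : ℕ → ℕ => (w 0, fun n => w (n + 1))) (by fun_prop)
  · obtain h | h := sim_total (Φ true a) (Φ false a)
    · obtain ⟨w, hw⟩ := (g2 true).ge h
      exact ⟨fun n => Nat.casesOn (motive := fun _ => ℕ) n 0 w, hw⟩
    · obtain ⟨w, hw⟩ := (g2 false).ge h
      exact ⟨fun n => Nat.casesOn (motive := fun _ => ℕ) n 1 w, hw⟩
  obtain ⟨τ, h1⟩ := code hB.analyticSet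
  obtain ⟨τ', h2⟩ := code hB.compl.analyticSet
  let z : ℕ → Bool := fun n => bif (e.symm n).1 then τ (e.symm n).2 else τ' (e.symm n).2
  have h3 : z ∈ B ↔ Br (Φ true z) := by simpa [Φ, z] using h1 z
  have h4 : z ∉ B ↔ Br (Φ false z) := by simpa [Φ, z] using h2 z
  by_cases hz : z ∈ B
  · obtain ⟨w, h5, h6⟩ := b1 z hz
    exact h4.2 (Sim.br ((g2 true).le ⟨_, by simpa [h5] using h6⟩) (h3.1 hz)) hz
  · obtain ⟨w, h5, h6⟩ := b2 z hz
    exact hz (h3.2 (Sim.br ((g2 false).le ⟨_, by simpa [h5] using h6⟩) (h4.1 hz)))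

theorem jvn {X : Type} [TopologicalSpace X] [PolishSpace X] [MeasurableSpace X] [BorelSpace X]
    {f : (ℕ → ℕ) → X} (hf : Continuous f) (hs : Function.Surjective f) (μ : Measure X)
    [IsFiniteMeasure μ] : ∃ b : X → ℕ → ℕ, Measurable b ∧ ∀ᵐ a ∂μ, f (b a) = a := by
  classical
  let _ := TopologicalSpace.upgradeIsCompletelyMetrizable X
  let P : List ℕ → X → Prop := fun s a => ∃ w, res w s.length = s ∧ f w = a
  have p1 : ∀ s, NullMeasurableSet {a | P s a} μ := fun s => by
    let _ : TopologicalSpace (List ℕ) := ⊥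
    have : DiscreteTopology (List ℕ) := ⟨rfl⟩
    exact H8.Ana.nullMeasurable μ ((isClosed_eq (continuous_res s.length id)
      continuous_const).analyticSet.image_of_continuous hf)
  have p2 : ∀ s a, ∃ m, P s a → P (m :: s) a := fun s a => by
    by_cases h : P s a
    · obtain ⟨w, h1, h2⟩ := h
      exact ⟨w s.length, fun _ => ⟨w, by simp [h1], h2⟩⟩
    · exact ⟨0, fun h' => (h h').elim⟩
  let nx : List ℕ → X → ℕ := fun s a => Nat.find (p2 s a)
  let t : ℕ → X → List ℕ := fun n a => Nat.rec [] (fun _ s => nx s a :: s) n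
  let b : X → ℕ → ℕ := fun a n => nx (t n a) a
  have t1 : ∀ a n, res (b a) n = t n a := fun a n => by
    induction n with
    | zero => rfl
    | succ n ih => rw [res_succ, ih]
  have t2 : ∀ a n, P (t n a) a := fun a n => by
    induction n with
    | zero => exact (hs a).imp fun w hw => ⟨rfl, hw⟩
    | succ n ih =>
      have : ∀ s, P s a → P (nx s a :: s) a := fun s => Nat.find_spec (p2 s a)
      exact this _ ih
  have t3 : ∀ a, f (b a) = a := fun a => by
    choose w h1 h2 using t2 a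
    simp only [← t1, length_res] at h1
    have h3 := (hf.tendsto _).comp (tendsto_of_res h1)
    simp only [Function.comp_def, h2] at h3
    exact tendsto_nhds_unique h3 tendsto_const_nhds
  let _ : MeasurableSpace (List ℕ) := ⊤
  have m1 : Measurable fun q : NullMeasurableSpace X μ × List ℕ => nx q.2 q.1 :=
    measurable_from_prod_countable_left fun s => measurable_find _ fun m =>
      MeasurableSet.imp (p1 s) (p1 (m :: s))
  have m2 : ∀ n, Measurable fun a : NullMeasurableSpace X μ => t n a := fun n => by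
    induction n with
    | zero => exact measurable_const
    | succ n ih =>
      exact (Measurable.of_discrete (f := fun q : ℕ × List ℕ => q.1 :: q.2)).comp
        ((m1.comp (measurable_id.prodMk ih)).prodMk ih)
  have m3 : AEMeasurable b μ := NullMeasurable.aemeasurable
    (measurable_pi_lambda (fun a : NullMeasurableSpace X μ => b a) fun n =>
      m1.comp (measurable_id.prodMk (m2 n)))
  exact ⟨m3.mk, m3.measurable_mk, m3.ae_eq_mk.mono fun a ha => ha ▸ t3 a⟩

theorem rigid {Ω Z : Type} [MeasurableSpace Ω] [TopologicalSpace Z]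
    [TopologicalSpace.MetrizableSpace Z] [MeasurableSpace Z] [BorelSpace Z] {μ : Measure Ω}
    [IsFiniteMeasure μ] {R : ℕ → Ω → Ω} (hR : ∀ j, MeasurePreserving (R j) μ μ) {π : Ω → Z}
    (hπ : Measurable π) (h : ∀ᵐ x ∂μ, Tendsto (fun j => π (R j x)) atTop (𝓝 (π x))) {F : Z → ℂ}
    (hF : Measurable F) (h1 : ∀ z, ‖F z‖ = 1) {c : ℂ} (hc : c ≠ 1)
    (h2 : ∀ j, ∀ᵐ x ∂μ, F (π (R j x)) = c * F (π x)) : μ = 0 := by
  have i1 : Integrable F (μ.map π) :=
    Integrable.of_bound hF.aestronglyMeasurable 1 (Eventually.of_forall fun z => (h1 z).le)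
  have key : ∀ ε > 0, ‖c - 1‖ * μ.real univ ≤ 2 * ε := fun ε hε => by
    obtain ⟨G, g1, g2⟩ := i1.exists_boundedContinuous_integral_sub_le hε
    have g3 : ∀ {S : Ω → Ω}, MeasurePreserving S μ μ →
        Integrable (fun x => ‖F (π (S x)) - G (π (S x))‖) μ ∧
        ∫ x, ‖F (π (S x)) - G (π (S x))‖ ∂μ ≤ ε := fun {S} hS => by
      have a1 : MeasurePreserving (π ∘ S) μ (μ.map π) := MeasurePreserving.comp ⟨hπ, rfl⟩ hS
      refine ⟨a1.integrable_comp_of_integrable (i1.sub g2).norm, ?_⟩
      rwa [← a1.map_eq, integral_map (f := fun z => ‖F z - G z‖) a1.measurable.aemeasurable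
        (hF.sub G.continuous.measurable).norm.aestronglyMeasurable] at g1
    have g4 : ∀ j, Measurable fun x => ‖G (π (R j x)) - G (π x)‖ := fun j =>
      ((G.continuous.measurable.comp (hπ.comp (hR j).measurable)).sub
        (G.continuous.measurable.comp hπ)).norm
    have g5 : ∀ j x, ‖‖G (π (R j x)) - G (π x)‖‖ ≤ ‖G‖ + ‖G‖ := fun j x => by
      rw [norm_norm]
      exact norm_sub_le_of_le (G.norm_coe_le_norm _) (G.norm_coe_le_norm _)
    have g6 := tendsto_integral_of_dominated_convergence (μ := μ) (f := fun _ => 0) _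
      (fun j => (g4 j).aestronglyMeasurable) (integrable_const _)
      (fun j => Eventually.of_forall (g5 j)) (h.mono fun x hx => by
        simpa using (((G.continuous.tendsto _).comp hx).sub_const (G (π x))).norm)
    rw [integral_zero] at g6
    have g7 := ge_of_tendsto' (g6.const_add (2 * ε)) (b := ‖c - 1‖ * μ.real univ) fun j => by
      have a1 := g3 (hR j)
      have a2 := g3 (MeasurePreserving.id μ)
      have a3 := Integrable.of_bound (μ := μ) (g4 j).aestronglyMeasurable _
        (Eventually.of_forall (g5 j))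
      have a4 := integral_mono_ae (integrable_const ‖c - 1‖) ((a1.1.add a2.1).add a3)
        ((h2 j).mono fun x hx => by
          have a4 : ‖c - 1‖ = ‖F (π (R j x)) - F (π x)‖ := by
            rw [hx, ← sub_one_mul, norm_mul, h1, mul_one]
          simp only [Pi.add_apply, id, a4, ← dist_eq_norm]
          linarith [dist_triangle4 (F (π (R j x))) (G (π (R j x))) (G (π x)) (F (π x)),
            dist_comm (F (π x)) (G (π x))])
      rw [integral_add' (a1.1.add a2.1) a3, integral_add' a1.1 a2.1, integral_const, smul_eq_mul,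
        mul_comm] at a4
      linarith [a1.2, a2.2]
    simpa using g7
  have h3 : ‖c - 1‖ * μ.real univ ≤ 0 := le_of_forall_pos_le_add fun ε hε => by
    linarith [key (ε / 2) (half_pos hε)]
  have h4 := nonpos_of_mul_nonpos_right h3 (norm_pos_iff.2 (sub_ne_zero.2 hc))
  exact Measure.measure_univ_eq_zero.1 ((measureReal_eq_zero_iff (measure_ne_top _ _)).1
    (h4.antisymm measureReal_nonneg))

end Pool.Agent.H39.AB
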