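import Mathlib

/-! The arithmetical hierarchy and a simple set at level three. -/

namespace Pool.Agent.H39.AH

open Nat.Partrec (Code)
open Nat.Partrec.Code Denumerable Encodable

/-- `Sig n P`: the predicate `P` is in the class Sigma-0-n -/
def Sig : ℕ → ∀ {α : Type} [Primcodable α], (α → Prop) → Prop
  | 0, _, _, P => ComputablePred P
  | n + 1, α, _, P => ∃ Q : α × ℕ → Prop, Sig n Q ∧ ∀ x, P x ↔ ∃ y, ¬Q (x, y)

variable {α β : Type} [Primcodable α] [Primcodable β] {n : ℕ} {P Q : α → Prop}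

theorem Sig.of_eq (h : Sig n P) (e : ∀ x, P x ↔ Q x) : Sig n Q :=
  (funext fun x => propext (e x) : P = Q) ▸ h

theorem Sig.comp {P : β → Prop} (h : Sig n P) {f : α → β} (hf : Computable f) :
    Sig n fun x => P (f x) := by
  induction n generalizing α β with
  | zero => exact ComputablePred.computable_of_manyOneReducible ⟨f, hf, fun _ => Iff.rfl⟩ h
  | succ n ih =>
    obtain ⟨Q, h1, h2⟩ := h
    exact ⟨_, ih h1 ((hf.comp Computable.fst).pair Computable.snd), fun x => h2 _⟩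

theorem Sig.pc {P : β → Prop} (h : Sig n P) {f : α → β} (hf : Primrec f) :
    Sig n fun x => P (f x) := h.comp hf.to_comp

theorem Sig.compl (h : Sig n P) : Sig (n + 1) fun x => ¬P x :=
  ⟨_, h.comp Computable.fst, fun _ => ⟨fun h => ⟨0, h⟩, fun ⟨_, h⟩ => h⟩⟩

theorem Sig.succ (h : Sig n P) : Sig (n + 1) P := by
  induction n generalizing α with
  | zero => exact (Sig.compl (n := 0) (ComputablePred.not h)).of_eq fun _ => not_not
  | succ n ih =>
    obtain ⟨Q, h1, h2⟩ := h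
    exact ⟨Q, ih h1, h2⟩

theorem Sig.prim (h : PrimrecPred P) : Sig n P := by
  induction n with
  | zero => exact h.computablePred
  | succ n ih => exact ih.succ

theorem u1 : Primrec fun x : ℕ => x.unpair.1 := Primrec.fst.comp Primrec.unpair
theorem u2 : Primrec fun x : ℕ => x.unpair.2 := Primrec.snd.comp Primrec.unpair

theorem and_or (h1 : Sig n P) (h2 : Sig n Q) :
    (Sig n fun x => P x ∧ Q x) ∧ Sig n fun x => P x ∨ Q x := by
  classical
  induction n generalizing α with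
  | zero =>
    exact ⟨Computable.computablePred ((Primrec.and.to_comp.comp h1.decide h2.decide).of_eq
      fun _ => by simp), Computable.computablePred
        ((Primrec.or.to_comp.comp h1.decide h2.decide).of_eq fun _ => by simp)⟩
  | succ n ih =>
    obtain ⟨P', a1, a2⟩ := h1
    obtain ⟨Q', b1, b2⟩ := h2
    refine ⟨⟨_, (ih (a1.pc (Primrec.fst.pair (u1.comp Primrec.snd)))
      (b1.pc (Primrec.fst.pair (u2.comp Primrec.snd)))).2, fun x => ?_⟩,
      ⟨_, (ih a1 b1).1, fun x => by simp only [a2, b2, not_and_or, exists_or]⟩⟩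
    simp only [a2, b2, not_or]
    exact ⟨fun ⟨⟨y, a⟩, z, b⟩ => ⟨y.pair z, by simpa using ⟨a, b⟩⟩, fun ⟨w, a, b⟩ => ⟨⟨_, a⟩, _, b⟩⟩

theorem Sig.and (h1 : Sig n P) (h2 : Sig n Q) : Sig n fun x => P x ∧ Q x := (and_or h1 h2).1
theorem Sig.or (h1 : Sig n P) (h2 : Sig n Q) : Sig n fun x => P x ∨ Q x := (and_or h1 h2).2

theorem Sig.ex {P : α → ℕ → Prop} (h : Sig (n + 1) fun x : α × ℕ => P x.1 x.2) :
    Sig (n + 1) fun x => ∃ y, P x y := by
  obtain ⟨Q, h1, h2⟩ := h
  refine ⟨_, h1.pc ((Primrec.fst.pair (u1.comp Primrec.snd)).pair (u2.comp Primrec.snd)),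
    fun x => ⟨fun ⟨y, a⟩ => ?_, fun ⟨w, a⟩ => ⟨_, (h2 (x, _)).2 ⟨_, a⟩⟩⟩⟩
  obtain ⟨z, b⟩ := (h2 (x, y)).1 a
  exact ⟨y.pair z, by simpa using b⟩

theorem Sig.exl {P : α → List ℕ → Prop} (h : Sig (n + 1) fun x : α × List ℕ => P x.1 x.2) :
    Sig (n + 1) fun x => ∃ y, P x y := by
  have h1 : Primrec fun x : α × ℕ => (x.1, (decode (α := List ℕ) x.2).getD []) :=
    Primrec.fst.pair (Primrec.option_getD.comp (Primrec.decode.comp Primrec.snd) (Primrec.const _))
  exact (Sig.ex (P := fun x y => P x ((decode (α := List ℕ) y).getD [])) (h.pc h1)).of_eq fun x =>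
    ⟨fun ⟨_, a⟩ => ⟨_, a⟩, fun ⟨l, a⟩ => ⟨encode l, by simpa using a⟩⟩

theorem Sig.all {P : α → ℕ → Prop} (h : Sig (n + 1) fun x : α × ℕ => P x.1 x.2) :
    Sig (n + 1) fun x => ¬∀ y, ¬P x y := h.ex.of_eq fun _ => by simp

theorem Sig.ball {P : α → ℕ → Prop} (h : Sig (n + 2) fun x : α × ℕ => P x.1 x.2) {k : α → ℕ}
    (hk : Primrec k) : Sig (n + 2) fun x => ∀ i < k x, P x i := by
  obtain ⟨Q, h1, h2⟩ := h
  have h3 : Sig (n + 1) fun x : α × List ℕ => ∃ i, i < k x.1 ∧ Q ((x.1, i), x.2.getD i 0) :=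
    Sig.ex ((Sig.prim (Primrec.nat_lt.comp Primrec.snd (hk.comp (Primrec.fst.comp Primrec.fst)))).and
      (h1.pc (((Primrec.fst.comp Primrec.fst).pair Primrec.snd).pair
        ((Primrec.list_getD 0).comp (Primrec.snd.comp Primrec.fst) Primrec.snd))))
  refine (Sig.exl (P := fun x l => ¬∃ i, i < k x ∧ Q ((x, i), l.getD i 0)) h3.compl).of_eq fun x =>
    ⟨fun ⟨l, a⟩ i hi => (h2 (x, i)).2 ⟨_, fun b => a ⟨i, hi, b⟩⟩, fun a => ?_⟩
  choose! y hy using fun i hi => (h2 (x, i)).1 (a i hi)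
  exact ⟨(List.range (k x)).map y, fun ⟨i, hi, b⟩ => hy i hi (by simpa [List.getD, hi] using b)⟩

/-- the `a`-th program outputs `r` on input `m` -/
def V (a m r : ℕ) : Prop := r ∈ (ofNat Code a).eval m

theorem V.uniq {a m r s : ℕ} (h : V a m r) (h' : V a m s) : r = s := Part.mem_unique h h'

theorem sig_V {a m r : α → ℕ} (ha : Primrec a) (hm : Primrec m) (hr : Primrec r) :
    Sig (n + 1) fun x => V (a x) (m x) (r x) :=
  (Sig.ex (P := fun x k => evaln k (ofNat Code (a x)) (m x) = some (r x)) (Sig.prim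
    (Primrec.eq.comp (primrec_evaln.comp ((Primrec.snd.pair ((Primrec.ofNat Code).comp
      (ha.comp Primrec.fst))).pair (hm.comp Primrec.fst)))
        (Primrec.option_some.comp (hr.comp Primrec.fst))))).of_eq fun _ => evaln_complete.symm

theorem exists_V {f : α → ℕ} (hf : Computable f) : ∃ e, ∀ x r, V e (encode x) r ↔ r = f x := by
  obtain ⟨c, hc⟩ := exists_code.1 hf.partrec
  exact ⟨encode c, fun x r => by simp [V, hc]⟩

/-- universal sets -/
def U : ℕ → ℕ → ℕ → Prop
  | 0, e, x => ∃ r, V e x r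
  | n + 1, e, x => ∃ y, ¬U n e (x.pair y)

theorem sig_U (n : ℕ) : Sig (n + 1) fun p : ℕ × ℕ => U n p.1 p.2 := by
  induction n with
  | zero => exact Sig.ex (sig_V (Primrec.fst.comp Primrec.fst) (Primrec.snd.comp Primrec.fst) Primrec.snd)
  | succ n ih =>
    exact ⟨_, ih.pc ((Primrec.fst.comp Primrec.fst).pair
      (Primrec₂.natPair.comp (Primrec.snd.comp Primrec.fst) Primrec.snd)), fun _ => Iff.rfl⟩

theorem Sig.univ (h : Sig (n + 1) P) : ∃ e, ∀ x, P x ↔ U n e (encode x) := by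
  classical
  induction n generalizing α with
  | zero =>
    obtain ⟨Q, h1, h2⟩ := h
    have h3 : Partrec fun x => Nat.rfind fun y => (Part.some (decide (¬Q (x, y))) : Part Bool) :=
      Partrec.rfind (ComputablePred.not h1).decide.partrec.to₂
    obtain ⟨c, hc⟩ := exists_code.1 h3
    refine ⟨encode c, fun x => (h2 x).trans ?_⟩
    simp only [U, V, ofNat_encode, hc, encodek, Part.coe_some, Part.bind_some, Part.mem_map_iff]
    constructor
    · intro h
      exact ⟨_, Nat.find h, Nat.mem_rfind.2 ⟨by simpa using Nat.find_spec h,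
        fun hm => by simpa using Nat.find_min h hm⟩, rfl⟩
    · rintro ⟨_, y, hy, -⟩
      exact ⟨y, by simpa using Nat.rfind_spec hy⟩
  | succ n ih =>
    obtain ⟨Q, h1, h2⟩ := h
    obtain ⟨e, he⟩ := ih h1
    exact ⟨e, fun x => (h2 x).trans (exists_congr fun y => not_congr (he (x, y)))⟩

def R (e w : ℕ) : Prop := 2 * e < w.unpair.1 ∧ ¬U 1 e w

/-- a simple set relative to the second jump -/
def S (x : ℕ) : Prop := ∃ e w, w.unpair.1 = x ∧ R e w ∧ ∀ v < w, ¬R e v

theorem sig_S : Sig 3 S := by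
  have h1 : Sig 2 fun p : ℕ × ℕ => ¬R p.1 p.2 :=
    ((Sig.prim (Primrec.nat_lt.comp (Primrec.nat_mul.comp (Primrec.const 2) Primrec.fst)
      (u1.comp Primrec.snd)).not).or (sig_U 1)).of_eq fun _ => by simp only [R]; tauto
  have h2 : Primrec fun p : (ℕ × ℕ) × ℕ => (p.1.2, p.2) := (Primrec.snd.comp Primrec.fst).pair Primrec.snd
  exact Sig.ex (Sig.ex ((Sig.prim (Primrec.eq.comp (u1.comp Primrec.snd)
    (Primrec.fst.comp Primrec.fst))).and (((h1.compl.pc h2).of_eq fun _ => not_not).and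
      (Sig.ball (h1.succ.pc ((Primrec.snd.comp (Primrec.fst.comp Primrec.fst)).pair Primrec.snd))
        Primrec.snd))))

theorem S_pos {x : ℕ} (h : S x) : 0 < x := by
  obtain ⟨e, w, rfl, h, -⟩ := h
  exact (Nat.zero_le _).trans_lt h.1

theorem S_meets {W : ℕ → Prop} (h : Sig 3 W) (hW : {x | W x}.Infinite) : ∃ x, W x ∧ S x := by
  classical
  obtain ⟨e, he⟩ := h.univ
  obtain ⟨x, h1, h2⟩ := hW.exists_gt (2 * e)
  obtain ⟨y, hy⟩ := (he x).1 h1
  have h3 : ∃ w, R e w := ⟨x.pair y, by simpa using h2, hy⟩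
  exact ⟨_, (he _).2 ⟨(Nat.find h3).unpair.2, by simpa using (Nat.find_spec h3).2⟩,
    e, _, rfl, Nat.find_spec h3, fun v => Nat.find_min h3⟩

theorem S_coinf : {x | ¬S x}.Infinite := by
  classical
  intro h
  have h1 : Finset.range (2 * h.toFinset.card + 1) ⊆ h.toFinset ∪
      (Finset.range h.toFinset.card).image fun e => (sInf {w | R e w}).unpair.1 := by
    intro x hx
    by_cases h2 : S x
    · obtain ⟨e, w, rfl, h3, h4⟩ := h2
      refine Finset.mem_union_right _ (Finset.mem_image.2 ⟨e, Finset.mem_range.2 ?_, ?_⟩)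
      · have := h3.1
        have := Finset.mem_range.1 hx
        omega
      · rw [(Nat.sInf_le h3).antisymm (not_lt.1 fun h5 => h4 _ h5 (Nat.sInf_mem (s := {w | R e w}) ⟨w, h3⟩))]
    · exact Finset.mem_union_left _ (h.mem_toFinset.2 h2)
  have h2 := (Finset.card_le_card h1).trans ((Finset.card_union_le _ _).trans
    (Nat.add_le_add_left Finset.card_image_le _))
  simp only [Finset.card_range] at h2
  omega

theorem not_sig_S : ¬Sig 3 fun x => ¬S x := fun h =>
  let ⟨_, a, b⟩ := S_meets h S_coinf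
  a b

theorem prim_mem : PrimrecRel fun (l : List ℕ) (x : ℕ) => x ∈ l :=
  (PrimrecRel.exists_mem_list Primrec.eq).of_eq fun _ => by simp

theorem no_prod {G : List ℕ → ℕ → Prop} (hG : Sig 3 fun p : List ℕ × ℕ => G p.1 p.2)
    (h1 : ∀ l, ∃ x, G l x) (h2 : ∀ l x, G l x → (x ∈ l ↔ S x)) : False := by
  choose p hp using h1
  let Ok : List ℕ → Prop := fun l => ∀ i < l.length, G (l.drop (i + 1)) (l.getD i 0)
  have c1 : ∀ x l, Ok (x :: l) ↔ G l x ∧ Ok l := fun x l => by
    simp only [Ok, List.length_cons, Nat.forall_lt_succ_left]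
    rfl
  have c2 : ∀ l, Ok l → ∀ x ∈ l, ¬S x := fun l => by
    induction l with
    | nil => simp
    | cons y l ih =>
      intro h x hx hs
      rw [c1] at h
      rcases List.mem_cons.1 hx with rfl | hx
      · exact ih h.2 x ((h2 _ _ h.1).2 hs) hs
      · exact ih h.2 x hx hs
  let L : ℕ → List ℕ := fun k => Nat.rec [] (fun _ l => p l :: l) k
  have c3 : ∀ k, Ok (L k) := fun k => by
    induction k with
    | zero => simp [Ok, L]
    | succ k ih => exact (c1 _ _).2 ⟨hp _, ih⟩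
  have c4 : ∀ j k, j < k → p (L j) ∈ L k := fun j k h => by
    induction k, h using Nat.le_induction with
    | base => exact List.mem_cons_self
    | succ k _ ih => exact List.mem_cons_of_mem _ ih
  have c5 : ∀ k, p (L k) ∉ L k := fun k h => c2 _ (c3 k) _ h ((h2 _ _ (hp _)).1 h)
  have d1 : Sig 3 fun q : (ℕ × List ℕ) × ℕ => G (q.1.2.drop (q.2 + 1)) (q.1.2.getD q.2 0) :=
    hG.pc ((Primrec.list_drop.comp (Primrec.succ.comp Primrec.snd)
      (Primrec.snd.comp Primrec.fst)).pair ((Primrec.list_getD 0).comp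
        (Primrec.snd.comp Primrec.fst) Primrec.snd))
  have d2 : Sig 3 fun q : ℕ × List ℕ => Ok q.2 ∧ q.1 ∈ q.2 :=
    (Sig.ball (P := fun (q : ℕ × List ℕ) i => G (q.2.drop (i + 1)) (q.2.getD i 0)) d1
      (Primrec.list_length.comp Primrec.snd)).and
        (Sig.prim (prim_mem.comp Primrec.snd Primrec.fst))
  obtain ⟨x, ⟨l, a, b⟩, c⟩ := S_meets (W := fun x => ∃ l, Ok l ∧ x ∈ l) (Sig.exl d2)
    (Set.infinite_of_injective_forall_mem (f := fun k => p (L k)) (fun j k (h : p _ = p _) => by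
      rcases lt_trichotomy j k with e | e | e
      · exact (c5 k (h ▸ c4 j k e)).elim
      · exact e
      · exact (c5 j (h ▸ c4 k j e)).elim) fun k => ⟨_, c3 (k + 1), List.mem_cons_self⟩)
  exact c2 l a x b c

end Pool.Agent.H39.AH
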