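import Mathlib

/-! Fourier analysis on a countable power of the circle. -/

namespace Pool.Agent.H39.Aff

open Set Filter Topology MeasureTheory

set_option linter.unusedSectionVars false

abbrev K (S : Type) : Type := S → UnitAddCircle

variable {S : Type} [Countable S]

noncomputable def hm (S : Type) [Countable S] : Measure (K S) := Measure.addHaarMeasure ⊤

instance : (hm S).IsAddHaarMeasure := by unfold hm; infer_instance

instance : IsProbabilityMeasure (hm S) := ⟨by
  have := Measure.addHaarMeasure_self (G := K S) (K₀ := ⊤)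
  simpa [hm] using this⟩

noncomputable def pr (γ : S →₀ ℤ) (x : K S) : UnitAddCircle := Finsupp.linearCombination ℤ x γ

theorem pr_add_left (γ δ : S →₀ ℤ) (x : K S) : pr (γ + δ) x = pr γ x + pr δ x := map_add _ _ _
theorem pr_neg_left (γ : S →₀ ℤ) (x : K S) : pr (-γ) x = - pr γ x := map_neg _ _
theorem pr_zero_left (x : K S) : pr 0 x = 0 := map_zero _
theorem pr_single (s : S) (n : ℤ) (x : K S) : pr (Finsupp.single s n) x = n • x s := by
  simp [pr]
theorem pr_add_right (γ : S →₀ ℤ) (x y : K S) : pr γ (x + y) = pr γ x + pr γ y := by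
  simp [pr, Finsupp.linearCombination_apply, Finsupp.sum, Finset.sum_add_distrib]

theorem continuous_pr (γ : S →₀ ℤ) : Continuous (pr γ : K S → UnitAddCircle) := by
  unfold pr
  simp only [Finsupp.linearCombination_apply, Finsupp.sum]
  fun_prop

noncomputable def ch (γ : S →₀ ℤ) : C(K S, ℂ) :=
  (fourier 1).comp ⟨pr γ, continuous_pr γ⟩

theorem ch_apply (γ : S →₀ ℤ) (x : K S) : ch γ x = (AddCircle.toCircle (pr γ x) : ℂ) :=
  fourier_one

theorem ch_add (γ δ : S →₀ ℤ) (x : K S) : ch (γ + δ) x = ch γ x * ch δ x := by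
  simp only [ch_apply, pr_add_left, AddCircle.toCircle_add, Circle.coe_mul]
theorem ch_add' (γ : S →₀ ℤ) (x y : K S) : ch γ (x + y) = ch γ x * ch γ y := by
  simp only [ch_apply, pr_add_right, AddCircle.toCircle_add, Circle.coe_mul]
theorem ch_zero (x : K S) : ch (0 : S →₀ ℤ) x = 1 := by
  simp [ch_apply, pr_zero_left]
theorem norm_ch (γ : S →₀ ℤ) (x : K S) : ‖ch γ x‖ = 1 := by
  rw [ch_apply]; exact Circle.norm_coe _
theorem ch_neg (γ : S →₀ ℤ) (x : K S) : ch (-γ) x = (starRingEnd ℂ) (ch γ x) := by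
  rw [ch_apply, ch_apply, pr_neg_left, AddCircle.toCircle_neg, Circle.coe_inv_eq_conj]
theorem ch_neg_mul (γ : S →₀ ℤ) (x : K S) : ch (-γ) x * ch γ x = 1 := by
  rw [← ch_add, neg_add_cancel, ch_zero]
theorem ch_inj {γ δ : S →₀ ℤ} {x y : K S} (h : ch γ x = ch δ y) : pr γ x = pr δ y := by
  rw [ch_apply, ch_apply] at h
  exact AddCircle.injective_toCircle one_ne_zero (Circle.ext h)

theorem exists_ne {γ : S →₀ ℤ} (h : γ ≠ 0) : ∃ g : K S, ch γ g ≠ 1 := by
  classical
  obtain ⟨s, hs⟩ := Finsupp.ne_iff.1 h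
  simp only [Finsupp.coe_zero, Pi.zero_apply] at hs
  refine ⟨Pi.single s ((1 / (2 * (γ s : ℝ)) : ℝ) : UnitAddCircle), fun e => ?_⟩
  have h1 := ch_inj (e.trans (ch_zero (0 : K S)).symm)
  rw [pr_zero_left, pr, Finsupp.linearCombination_apply, Finsupp.sum,
    Finset.sum_eq_single s (fun b _ hb => by rw [Pi.single_eq_of_ne hb, smul_zero])
      (fun hs' => by rw [Finsupp.notMem_support_iff.1 hs', zero_smul]),
    Pi.single_eq_same, ← AddCircle.coe_zsmul, AddCircle.coe_eq_zero_iff] at h1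
  obtain ⟨n, hn⟩ := h1
  have hs' : (γ s : ℝ) ≠ 0 := by exact_mod_cast hs
  simp only [zsmul_eq_mul, mul_one] at hn
  field_simp at hn
  have : n * 2 = 1 := by exact_mod_cast hn
  omega

theorem int_ch {γ : S →₀ ℤ} (h : γ ≠ 0) : ∫ x, ch γ x ∂hm S = 0 := by
  obtain ⟨g, hg⟩ := exists_ne h
  have h1 := integral_add_left_eq_self (μ := hm S) (fun x => ch γ x) g
  simp only [ch_add', integral_const_mul] at h1
  exact by_contra fun h6 => hg ((mul_eq_right₀ h6).1 h1)

noncomputable def chA (S : Type) [Countable S] : StarSubalgebra ℂ C(K S, ℂ) where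
  toSubalgebra := Algebra.adjoin ℂ (range ch)
  star_mem' := by
    change Algebra.adjoin ℂ (range (ch (S := S))) ≤ star (Algebra.adjoin ℂ (range (ch (S := S))))
    refine Algebra.adjoin_le ?_
    rintro - ⟨n, rfl⟩
    exact Algebra.subset_adjoin ⟨-n, ContinuousMap.ext fun _ => ch_neg _ _⟩

theorem span_ch : (Submodule.span ℂ (range (ch (S := S)))).topologicalClosure = ⊤ := by
  have h1 : Subalgebra.toSubmodule (chA S).toSubalgebra = Submodule.span ℂ (range ch) := by
    apply Algebra.adjoin_eq_span_of_subset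
    refine Subset.trans ?_ Submodule.subset_span
    intro x hx
    refine Submonoid.closure_induction (fun _ => id) ⟨0, ?_⟩ ?_ hx
    · ext1 z; exact ch_zero z
    · rintro - - - - ⟨m, rfl⟩ ⟨n, rfl⟩
      refine ⟨m + n, ?_⟩
      ext1 z
      exact ch_add _ _ _
  have h2 : (chA S).SeparatesPoints := by
    intro x y hxy
    obtain ⟨s, hs⟩ := Function.ne_iff.1 hxy
    refine ⟨_, ⟨ch (Finsupp.single s 1), Algebra.subset_adjoin ⟨_, rfl⟩, rfl⟩, fun e => hs ?_⟩
    simpa [pr_single] using ch_inj e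
  rw [← h1]
  exact congr_arg (Subalgebra.toSubmodule <| StarSubalgebra.toSubalgebra ·)
    (ContinuousMap.starSubalgebra_topologicalClosure_eq_top_of_separatesPoints (chA S) h2)

noncomputable abbrev chL (γ : S →₀ ℤ) : Lp ℂ 2 (hm S) := ContinuousMap.toLp (E := ℂ) 2 (hm S) ℂ (ch γ)

theorem span_chL : (Submodule.span ℂ (range (chL (S := S)))).topologicalClosure = ⊤ := by
  have := (ContinuousMap.toLp_denseRange ℂ (hm S) ℂ
    (p := 2) (by simp)).topologicalClosure_map_submodule span_ch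
  rw [Submodule.map_span, ← range_comp] at this
  exact this

/-- Fourier coefficient -/
noncomputable def cf (F : K S → ℂ) (γ : S →₀ ℤ) : ℂ := ∫ x, ch (-γ) x * F x ∂hm S

theorem inner_chL {F : K S → ℂ} (hF : MemLp F 2 (hm S)) (γ : S →₀ ℤ) :
    inner ℂ (chL γ) (hF.toLp F) = cf F γ := by
  rw [L2.inner_def, cf]
  refine integral_congr_ae ?_
  filter_upwards [ContinuousMap.coeFn_toLp (p := 2) (𝕜 := ℂ) (hm S) (ch γ), hF.coeFn_toLp] with x h1 h2
  rw [h1, h2, ch_neg]
  simp [mul_comm]

theorem memLp_ch (γ : S →₀ ℤ) : MemLp (ch γ) 2 (hm S) :=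
  MemLp.of_bound (ch γ).continuous.aestronglyMeasurable 1 (Eventually.of_forall fun x => (norm_ch γ x).le)

theorem cf_ch (γ δ : S →₀ ℤ) [Decidable (δ = γ)] : cf (ch γ) δ = if δ = γ then 1 else 0 := by
  unfold cf
  simp only [← ch_add]
  split_ifs with h
  · simp [h, ch_zero]
  · exact int_ch fun e => h (neg_add_eq_zero.1 e)

theorem ortho : Orthonormal ℂ (chL (S := S)) := by
  classical
  rw [orthonormal_iff_ite]
  intro i j
  rw [← cf_ch, ← inner_chL (memLp_ch j)]
  rfl

theorem fin_cf {F : K S → ℂ} (hF : MemLp F 2 (hm S)) {ε : ℝ} (hε : 0 < ε) :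
    {γ | ε ≤ ‖cf F γ‖}.Finite := by
  have h1 := (ortho.inner_products_summable (hF.toLp F)).tendsto_cofinite_zero
  simp only [inner_chL] at h1
  have := h1.eventually (gt_mem_nhds (pow_pos hε 2))
  refine (eventually_cofinite.1 this).subset fun γ hγ => not_lt.2 ?_
  exact pow_le_pow_left₀ hε.le hγ 2

theorem zero_of_cf {F : K S → ℂ} (hF : MemLp F 2 (hm S)) (h : ∀ γ, cf F γ = 0) :
    F =ᵐ[hm S] 0 := by
  have h1 : hF.toLp F ∈ (Submodule.span ℂ (range (chL (S := S))))ᗮ := by
    rw [Submodule.mem_orthogonal]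
    intro u hu
    induction hu using Submodule.span_induction with
    | mem f hf =>
      obtain ⟨γ, rfl⟩ := hf
      rw [inner_chL, h]
    | zero => simp
    | add f g _ _ a b => rw [inner_add_left, a, b, add_zero]
    | smul c f _ a => rw [inner_smul_left, a, mul_zero]
  rw [Submodule.topologicalClosure_eq_top_iff.1 span_chL, Submodule.mem_bot] at h1
  filter_upwards [hF.coeFn_toLp, Lp.coeFn_zero ℂ 2 (hm S)] with x h2 h3
  rw [← h2, h1, h3]

theorem eq_of_cf {F : K S → ℂ} (hF : MemLp F 2 (hm S)) {η : S →₀ ℤ} (h : ∀ γ, γ ≠ η → cf F γ = 0) :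
    ∀ᵐ x ∂hm S, F x = cf F η * ch η x := by
  classical
  have h1 : MemLp (fun x => F x - cf F η * ch η x) 2 (hm S) := hF.sub ((memLp_ch η).const_mul _)
  have hi : ∀ (G : K S → ℂ), MemLp G 2 (hm S) → ∀ γ : S →₀ ℤ,
      Integrable (fun x => ch (-γ) x * G x) (hm S) := fun G hG γ =>
    (memLp_ch (-γ)).integrable_mul hG
  have := zero_of_cf h1 fun γ => by
    have e : cf (fun x => F x - cf F η * ch η x) γ = cf F γ - cf F η * cf (ch η) γ := by
      unfold cf
      rw [← integral_const_mul, ← integral_sub (hi F hF γ) ((hi _ (memLp_ch η) γ).const_mul _)]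
      exact integral_congr_ae (Eventually.of_forall fun x => by simp only; ring)
    rw [e, cf_ch]
    split_ifs with h2
    · rw [h2, mul_one, sub_self]
    · rw [h γ h2, mul_zero, sub_zero]
  filter_upwards [this] with x hx
  exact sub_eq_zero.1 hx

end Pool.Agent.H39.Aff
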