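import Pool.Agent.H39.Aff1

/-! Affine unipotent maps of the torus attached to a forest. -/

namespace Pool.Agent.H39.Aff

open Set Filter Topology MeasureTheory

set_option linter.unusedSectionVars false

variable {S : Type} [Countable S]

/-- the linear part -/
noncomputable def lin (p : S → Option S) : K S →+ K S where
  toFun x := fun s => x s + (p s).elim 0 x
  map_zero' := funext fun s => by cases p s <;> simp
  map_add' x y := funext fun s => by
    cases h : p s <;> simp [h]
    abel

theorem lin_apply (p : S → Option S) (x : K S) (s : S) : lin p x s = x s + (p s).elim 0 x := rfl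

theorem continuous_lin (p : S → Option S) : Continuous (lin p) :=
  continuous_pi fun s => by
    simp only [lin_apply]
    cases p s <;> simp only [Option.elim] <;> fun_prop

/-- the affine map -/
noncomputable def aff (p : S → Option S) (α : K S) (x : K S) : K S := lin p x + α

theorem continuous_aff (p : S → Option S) (α : K S) : Continuous (aff p α) :=
  (continuous_lin p).add continuous_const

/-- depth condition -/
def Dp (p : S → Option S) (d : S → ℕ) : Prop := ∀ s t, p s = some t → d t < d s

variable {p : S → Option S} {d : S → ℕ}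

theorem Dp.inj (h : Dp p d) : Function.Injective (lin p) := by
  rw [injective_iff_map_eq_zero]
  intro x hx
  funext s
  induction hs : d s using Nat.strong_induction_on generalizing s with
  | _ n ih =>
    have := congrFun hx s
    rw [lin_apply] at this
    cases hp : p s with
    | none => simpa [hp] using this
    | some t =>
      have h1 : x t = 0 := ih _ (hs ▸ h s t hp) t rfl
      simpa [hp, h1] using this

theorem Dp.surj (h : Dp p d) : Function.Surjective (lin p) := by
  intro y
  let F : ℕ → K S := fun n => Nat.rec y (fun _ z s => y s - (p s).elim 0 z) n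
  have hF : ∀ n s, d s ≤ n → F (n + 1 + 1) s = F (n + 1) s := by
    intro n
    induction n with
    | zero =>
      intro s hs
      cases hp : p s with
      | none =>
        change y s - (p s).elim 0 (F (0 + 1)) = y s - (p s).elim 0 (F 0)
        rw [hp]; rfl
      | some t => exact absurd (h s t hp) (by omega)
    | succ n ih =>
      intro s hs
      cases hp : p s with
      | none =>
        change y s - (p s).elim 0 (F (n + 1 + 1)) = y s - (p s).elim 0 (F (n + 1))
        rw [hp]; rfl
      | some t =>
        change y s - (p s).elim 0 (F (n + 1 + 1)) = y s - (p s).elim 0 (F (n + 1))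
        rw [hp]
        exact congrArg _ (ih t (by have := h s t hp; omega))
  have hF' : ∀ s n, d s ≤ n → F (n + 1) s = F (d s + 1) s := fun s n hn => by
    induction n, hn using Nat.le_induction with
    | base => rfl
    | succ n hn ih => rw [hF n s hn, ih]
  refine ⟨fun s => F (d s + 1) s, funext fun s => ?_⟩
  rw [lin_apply, ← hF' s (d s + 1) (Nat.le_succ _)]
  change y s - (p s).elim 0 (F (d s + 1)) + _ = _
  cases hp : p s with
  | none => simp
  | some t =>
    simp only [Option.elim]
    rw [hF' t (d s) (h s t hp).le, sub_add_cancel]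

theorem Dp.bij (h : Dp p d) (α : K S) : Function.Bijective (aff p α) :=
  (Equiv.addRight α).bijective.comp ⟨h.inj, h.surj⟩

theorem Dp.mp (h : Dp p d) (α : K S) : MeasurePreserving (aff p α) (hm S) (hm S) :=
  (measurePreserving_add_right (hm S) α).comp
    (AddMonoidHom.measurePreserving (continuous_lin p) h.surj rfl)

/-- the dual nilpotent part -/
noncomputable def nil (p : S → Option S) : (S →₀ ℤ) →ₗ[ℤ] (S →₀ ℤ) :=
  Finsupp.linearCombination ℤ fun s => (p s).elim 0 fun t => Finsupp.single t 1

theorem nil_single (s : S) : nil p (Finsupp.single s 1) = (p s).elim 0 fun t => Finsupp.single t 1 := by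
  simp [nil]

theorem pr_lin (γ : S →₀ ℤ) (x : K S) : pr γ (lin p x) = pr (γ + nil p γ) x := by
  induction γ using Finsupp.induction_linear with
  | zero => simp [pr_zero_left]
  | add a b ha hb => rw [pr_add_left, ha, hb, map_add, ← pr_add_left]; congr 1; abel
  | single s n =>
    rw [pr_add_left, pr_single, pr_single, lin_apply, smul_add]
    congr 1
    cases hp : p s <;> simp [nil, hp, pr_zero_left, pr_single]

theorem ch_aff (γ : S →₀ ℤ) (α x : K S) : ch γ (aff p α x) = ch (γ + nil p γ) x * ch γ α := by
  rw [aff, ch_add', ch_apply, pr_lin, ← ch_apply]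

theorem nil_ne {γ : S →₀ ℤ} {t : S} (h : nil p γ t ≠ 0) : ∃ s, p s = some t ∧ γ s ≠ 0 := by
  classical
  by_contra hc
  push Not at hc
  apply h
  rw [nil, Finsupp.linearCombination_apply, Finsupp.sum, Finsupp.finsetSum_apply]
  refine Finset.sum_eq_zero fun s hs => ?_
  cases hp : p s with
  | none => simp
  | some u =>
    have : t ≠ u := fun e => Finsupp.mem_support_iff.1 hs (hc s (e ▸ hp))
    simp [Finsupp.single_eq_of_ne this]

theorem Dp.key (h : Dp p d) {α : K S} {F : K S → ℂ} (hF : MemLp F 2 (hm S)) {γ : S →₀ ℤ} {c : ℂ}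
    (hc : ‖c‖ = 1) (he : ∀ᵐ x ∂hm S, F (aff p α x) = c * ch γ x * F x) {η : S →₀ ℤ}
    (hη : cf F η ≠ 0) : nil p η = γ ∧ ch η α = c := by
  have h1 : ∀ η, cf F η = c * ch (-η) α * cf F (η + nil p η - γ) := fun η => by
    have h2 : cf F η = ∫ x, ch (-η) (aff p α x) * F (aff p α x) ∂hm S := by
      unfold cf
      conv_lhs => rw [← (h.mp α).map_eq]
      refine integral_map (h.mp α).measurable.aemeasurable ?_
      rw [(h.mp α).map_eq]
      exact (ch (-η)).continuous.aestronglyMeasurable.mul hF.1
    rw [h2, cf, ← integral_const_mul]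
    refine integral_congr_ae ?_
    filter_upwards [he] with x hx
    rw [hx, ch_aff, show -(η + nil p η - γ) = (-η + nil p (-η)) + γ by rw [map_neg]; abel,
      ch_add _ γ]
    ring
  have h3 : nil p η = γ := by
    by_contra hne
    set δ := nil p η - γ with hδ
    have hδ0 : δ ≠ 0 := sub_ne_zero.2 hne
    obtain ⟨s, hs, hmax⟩ := δ.support.exists_max_image d (Finsupp.support_nonempty_iff.2 hδ0)
    let u : ℕ → (S →₀ ℤ) := fun n => Nat.rec η (fun _ z => z + nil p z - γ) n
    have hu : ∀ n, u (n + 1) = u n + nil p (u n) - γ := fun _ => rfl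
    have h4 : ∀ n, ‖cf F (u n)‖ = ‖cf F η‖ := fun n => by
      induction n with
      | zero => rfl
      | succ n ih => rw [← ih, h1 (u n), norm_mul, norm_mul, hc, norm_ch, one_mul, one_mul]
    have h5 : ∀ n, (∀ t, d s < d t → (u (n + 1) - u n) t = 0) ∧ (u (n + 1) - u n) s = δ s := by
      intro n
      induction n with
      | zero =>
        have : u (0 + 1) - u 0 = δ := by
          change η + nil p η - γ - η = _
          rw [hδ]; abel
        rw [this]
        exact ⟨fun t ht => by_contra fun hc =>
          absurd (hmax t (Finsupp.mem_support_iff.2 hc)) (not_le.2 ht), rfl⟩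
      | succ n ih =>
        have : u (n + 1 + 1) - u (n + 1) = (u (n + 1) - u n) + nil p (u (n + 1) - u n) := by
          rw [map_sub, hu (n + 1)]
          nth_rewrite 4 [hu n]
          abel
        have h6 : ∀ t, d s ≤ d t → nil p (u (n + 1) - u n) t = 0 := fun t ht => by
          by_contra hc
          obtain ⟨w, hw, hw'⟩ := nil_ne hc
          exact hw' (ih.1 w (ht.trans_lt (h w t hw)))
        rw [this]
        exact ⟨fun t ht => by rw [Finsupp.add_apply, ih.1 t ht, h6 t ht.le, add_zero],
          by rw [Finsupp.add_apply, ih.2, h6 s le_rfl, add_zero]⟩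
    have h7 : ∀ n : ℕ, u n s = η s + n * δ s := fun n => by
      induction n with
      | zero => simp [u]
      | succ n ih =>
        have := (h5 n).2
        rw [Finsupp.sub_apply, ih] at this
        push_cast
        linarith
    refine infinite_of_injective_forall_mem (f := u) (fun a b hab => ?_) (fun n => (h4 n).ge)
      (fin_cf hF (norm_pos_iff.2 hη))
    have := congrArg (fun z => z s) hab
    simp only [h7, add_right_inj, mul_eq_mul_right_iff, Nat.cast_inj] at this
    exact this.resolve_right (Finsupp.mem_support_iff.1 hs)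
  refine ⟨h3, ?_⟩
  have h8 := h1 η
  rw [h3, add_sub_cancel_right] at h8
  have h9 : c * ch (-η) α = 1 := mul_right_cancel₀ hη (by rw [← h8, one_mul])
  calc ch η α = c * ch (-η) α * ch η α := by rw [h9, one_mul]
    _ = c := by rw [mul_assoc, ch_neg_mul, mul_one]

/-- independence -/
def Ind (α : K S) : Prop := ∀ η : S →₀ ℤ, pr η α = 0 → η = 0

theorem Ind.eq {α : K S} (hα : Ind α) {η δ : S →₀ ℤ} (h : ch η α = ch δ α) : η = δ :=
  sub_eq_zero.1 (hα _ (by rw [sub_eq_add_neg, pr_add_left, pr_neg_left, ch_inj h, add_neg_cancel]))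

theorem Dp.rig (h : Dp p d) {α : K S} (hα : Ind α) {F : K S → ℂ} (hF : Measurable F)
    (hF' : ∀ x, ‖F x‖ = 1) {γ : S →₀ ℤ} {c : ℂ}
    (hc : ‖c‖ = 1) (he : ∀ᵐ x ∂hm S, F (aff p α x) = c * ch γ x * F x) :
    ∃ η, nil p η = γ ∧ ch η α = c ∧ ∃ c' : ℂ, ‖c'‖ = 1 ∧ ∀ᵐ x ∂hm S, F x = c' * ch η x := by
  have h1 : MemLp F 2 (hm S) :=
    MemLp.of_bound hF.aestronglyMeasurable 1 (Eventually.of_forall fun x => (hF' x).le)
  have h2 : ∃ η, cf F η ≠ 0 := by
    by_contra hc
    push Not at hc
    obtain ⟨x, hx⟩ := (zero_of_cf h1 hc).exists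
    have := hF' x
    rw [hx] at this
    simp at this
  obtain ⟨η, hη⟩ := h2
  obtain ⟨h3, h4⟩ := h.key h1 hc he hη
  have h5 := eq_of_cf h1 (η := η) fun δ hδ => by_contra fun h6 =>
    hδ (hα.eq ((h.key h1 hc he h6).2.trans h4.symm))
  refine ⟨η, h3, h4, cf F η, ?_, h5⟩
  obtain ⟨x, hx⟩ := h5.exists
  have := hF' x
  rwa [hx, norm_mul, norm_ch, mul_one] at this

theorem Dp.ergodic (h : Dp p d) {α : K S} (hα : Ind α) : Ergodic (aff p α) (hm S) := by
  classical
  refine ⟨h.mp α, ⟨fun s hs h1 => ?_⟩⟩
  have h2 : MemLp (s.indicator fun _ => (1 : ℂ)) 2 (hm S) := (memLp_const 1).indicator hs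
  have he : ∀ᵐ x ∂hm S, s.indicator (fun _ => (1 : ℂ)) (aff p α x) =
      1 * ch 0 x * s.indicator (fun _ => (1 : ℂ)) x := Eventually.of_forall fun x => by
    rw [ch_zero, one_mul, one_mul]
    have : aff p α x ∈ s ↔ x ∈ s := by rw [← mem_preimage, h1]
    simp only [indicator, this]
  have h3 := eq_of_cf h2 (η := 0) fun δ hδ => by_contra fun h6 =>
    hδ (hα.eq ((h.key h2 norm_one he h6).2.trans (ch_zero α).symm))
  rw [eventuallyConst_set]
  by_cases h4 : cf (s.indicator fun _ => (1 : ℂ)) 0 = 0
  · right
    filter_upwards [h3] with x hx hxs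
    rw [h4, indicator_of_mem hxs] at hx
    simp at hx
  · left
    filter_upwards [h3] with x hx
    by_contra hxs
    rw [indicator_of_notMem hxs, ch_zero, mul_one] at hx
    exact h4 hx.symm

theorem Dp.trans (h : Dp p d) {α : K S} (hα : Ind α) :
    ∃ x, Dense (range fun n : ℕ => (aff p α)^[n] x) := by
  obtain ⟨B, hB, hB', hB''⟩ := TopologicalSpace.exists_countable_basis (K S)
  have : ∀ᵐ x ∂hm S, ∀ U ∈ B, ∃ n : ℕ, (aff p α)^[n] x ∈ U := by
    rw [ae_ball_iff hB]
    intro U hU
    have hO : IsOpen (⋃ n : ℕ, (aff p α)^[n] ⁻¹' U) :=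
      isOpen_iUnion fun n => (hB''.isOpen hU).preimage ((continuous_aff p α).iterate n)
    have hne : (⋃ n : ℕ, (aff p α)^[n] ⁻¹' U).Nonempty := by
      obtain ⟨x, hx⟩ := nonempty_iff_ne_empty.2 (fun e : U = ∅ => hB' (e ▸ hU))
      exact ⟨x, mem_iUnion.2 ⟨0, hx⟩⟩
    rcases (h.ergodic hα).ae_empty_or_univ_of_preimage_ae_le hO.measurableSet.nullMeasurableSet
      (Eventually.of_forall fun x hx => by
        obtain ⟨n, hn⟩ := mem_iUnion.1 hx
        exact mem_iUnion.2 ⟨n + 1, hn⟩) with h1 | h1
    · exact absurd (ae_eq_empty.1 h1) (hO.measure_pos _ hne).ne'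
    · filter_upwards [h1] with x hx
      exact mem_iUnion.1 (hx.mpr trivial)
  obtain ⟨x, hx⟩ := this.exists
  refine ⟨x, hB''.dense_iff.2 fun U hU _ => ?_⟩
  obtain ⟨n, hn⟩ := hx U hU
  exact ⟨_, hn, n, rfl⟩

theorem Dp.iter (h : Dp p d) (α : K S) {x y : K S} {k : ℕ} (hxy : ∀ s, d s < k → y s = x s)
    (n : ℕ) : ∀ s, d s ≤ k → (aff p α)^[n] y s = (aff p α)^[n] x s + (if d s = k then y s - x s else 0) := by
  induction n with
  | zero =>
    intro s hs
    split_ifs with h1
    · simp
    · simp [hxy s (by omega)]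
  | succ n ih =>
    intro s hs
    simp only [Function.iterate_succ_apply', aff, Pi.add_apply, lin_apply]
    rw [ih s hs]
    cases hp : p s with
    | none => simp only [Option.elim]; abel
    | some t =>
      have h1 := h s t hp
      simp only [Option.elim]
      rw [ih t (by omega), if_neg (show ¬ d t = k by omega)]
      abel

theorem Dp.minimal (h : Dp p d) {α : K S} (hα : Ind α) {M : Set (K S)} (hM : IsClosed M)
    (hne : M.Nonempty) (hinv : MapsTo (aff p α) M M) : M = univ := by
  obtain ⟨x0, hx0⟩ := h.trans hα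
  have key : ∀ k : ℕ, ∀ x : K S, ∃ y ∈ M, ∀ s, d s < k → y s = x s := by
    intro k
    induction k with
    | zero => exact fun x => hne.imp fun y hy => ⟨hy, fun s hs => by omega⟩
    | succ k ih =>
      intro x
      obtain ⟨y, hy, hy'⟩ := ih x0
      let z : K S := fun s => if d s = k then y s - x0 s else 0
      let π : K S → K S := fun w s => if d s ≤ k then w s else 0
      have hπ : Continuous π := continuous_pi fun s => by
        simp only [π]; split_ifs <;> fun_prop
      have h1 : IsClosed (π '' M) := (hM.isCompact.image hπ).isClosed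
      have h2 : IsClosed {w | π (w + z) ∈ π '' M} := h1.preimage (hπ.comp (by fun_prop))
      have h3 : range (fun n : ℕ => (aff p α)^[n] x0) ⊆ {w | π (w + z) ∈ π '' M} := by
        rintro _ ⟨n, rfl⟩
        refine ⟨(aff p α)^[n] y, hinv.iterate n hy, funext fun s => ?_⟩
        simp only [π]
        split_ifs with h4
        · exact h.iter α hy' n s h4
        · rfl
      obtain ⟨w, hw, hw'⟩ := h2.closure_subset_iff.2 h3 (hx0 (x - z))
      refine ⟨w, hw, fun s hs => ?_⟩
      have := congrFun hw' s
      simpa [π, show d s ≤ k by omega] using this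
  refine eq_univ_of_forall fun x => ?_
  choose y hy hy' using fun k => key k x
  exact hM.mem_of_tendsto (f := y) (b := atTop) (tendsto_pi_nhds.2 fun s => tendsto_const_nhds.congr'
    ((eventually_gt_atTop (d s)).mono fun k hk => (hy' k s hk).symm)) (Eventually.of_forall hy)

/-- pairs agreeing below level `k` with difference `c` at `s` -/
def Dk (d : S → ℕ) (s : S) (c : UnitAddCircle) : Set (K S × K S) :=
  {q | (∀ t, d t < d s → q.2 t = q.1 t) ∧ q.2 s - q.1 s = c}

theorem isClosed_Dk (d : S → ℕ) (s : S) (c : UnitAddCircle) : IsClosed (Dk d s c) := by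
  refine IsClosed.inter ?_ (isClosed_eq (by fun_prop) continuous_const)
  change IsClosed {q : K S × K S | ∀ t, d t < d s → q.2 t = q.1 t}
  simp only [ofPred_forall]
  exact isClosed_iInter fun t => isClosed_iInter fun _ => isClosed_eq (by fun_prop) (by fun_prop)

theorem exists_Dk (d : S → ℕ) {x y : K S} (hxy : x ≠ y) : ∃ s c, c ≠ 0 ∧ (x, y) ∈ Dk d s c := by
  classical
  have : ∃ k, ∃ s, d s = k ∧ y s ≠ x s := by
    obtain ⟨s, hs⟩ := Function.ne_iff.1 hxy
    exact ⟨_, s, rfl, hs.symm⟩
  obtain ⟨s, hs, hs'⟩ := Nat.find_spec this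
  exact ⟨s, _, sub_ne_zero.2 hs',
    fun t ht => by_contra fun hc => Nat.find_min this (hs ▸ ht) ⟨t, rfl, hc⟩, rfl⟩

theorem Dp.Dk_iff (h : Dp p d) (α : K S) {x y : K S} {s : S} {c : UnitAddCircle} :
    (aff p α x, aff p α y) ∈ Dk d s c ↔ (x, y) ∈ Dk d s c := by
  have h1 : (∀ t, d t < d s → y t = x t) → ∀ t, d t ≤ d s →
      aff p α y t - aff p α x t = y t - x t := fun h2 t ht => by
    have := h.iter α h2 1 t ht
    simp only [Function.iterate_one] at this
    rw [this]
    split_ifs with h3
    · abel
    · rw [h2 t (by omega)]; abel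
  constructor
  · rintro ⟨h2, h3⟩
    have h4 : ∀ t, d t < d s → y t = x t := by
      intro t
      induction ht : d t using Nat.strong_induction_on generalizing t with
      | _ n ih =>
        intro hn
        have := h2 t (ht ▸ hn)
        simp only [aff, Pi.add_apply, lin_apply, add_left_inj] at this
        cases hp : p t with
        | none => simpa [hp] using this
        | some u =>
          have h5 := h t u hp
          rw [hp] at this
          simp only [Option.elim] at this
          rwa [ih _ (ht ▸ h5) u rfl (by omega), add_left_inj] at this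
    exact ⟨h4, (h1 h4 s le_rfl).symm.trans h3⟩
  · rintro ⟨h2, h3⟩
    exact ⟨fun t ht => sub_eq_zero.1 ((h1 h2 t ht.le).trans (sub_eq_zero.2 (h2 t ht))),
      (h1 h2 s le_rfl).trans h3⟩

end Pool.Agent.H39.Aff
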