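import Mathlib

set_option autoImplicit false

namespace Pool.Agent.H39.NonBorel

open Set Filter Topology MeasureTheory

instance polishBool {ι : Type*} [Countable ι] : PolishSpace (ι → Bool) := PolishSpace.mk

theorem ev_eq {X α : Type*} [TopologicalSpace X] [TopologicalSpace α] [DiscreteTopology α]
    {f : X → α} (hf : Continuous f) (x : X) : ∀ᶠ y in 𝓝 x, f y = f x :=
  ((IsLocallyConstant.iff_continuous f).2 hf).eventually_eq x

/-- The initial segment of length `n` of `y`, written in reverse order. -/
def res {α : Type*} (y : ℕ → α) : ℕ → List α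
  | 0 => []
  | n + 1 => y n :: res y n

@[simp] theorem res_zero {α : Type*} (y : ℕ → α) : res y 0 = [] := rfl

@[simp] theorem res_succ {α : Type*} (y : ℕ → α) (n : ℕ) : res y (n + 1) = y n :: res y n := rfl

@[simp] theorem length_res {α : Type*} (y : ℕ → α) (n : ℕ) : (res y n).length = n := by
  induction n with
  | zero => rfl
  | succ n ih => simp [ih]

theorem res_eq_iff {α : Type*} {y y' : ℕ → α} {n : ℕ} :
    res y n = res y' n ↔ ∀ i < n, y i = y' i := by
  induction n with
  | zero => simp
  | succ n ih =>
    simp only [res_succ, List.cons.injEq, ih]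
    refine ⟨fun h i hi => ?_, fun h => ⟨h n (Nat.lt_succ_self n), fun i hi =>
      h i (hi.trans (Nat.lt_succ_self n))⟩⟩
    rcases Nat.lt_succ_iff_lt_or_eq.1 hi with hi | rfl
    · exact h.2 i hi
    · exact h.1

theorem continuous_res {α : Type*} [TopologicalSpace α] [DiscreteTopology α] (n : ℕ)
    {β : Type*} [TopologicalSpace β] (g : List α → β) :
    Continuous fun y : ℕ → α => g (res y n) := by
  refine IsLocallyConstant.continuous ?_
  rw [IsLocallyConstant.iff_eventually_eq]
  intro y
  have : ∀ᶠ y' in 𝓝 y, ∀ i ∈ Finset.range n, y' i = y i := by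
    rw [eventually_all_finset]
    intro i _
    exact ev_eq (continuous_apply i) y
  filter_upwards [this] with y' hy'
  rw [res_eq_iff.2 fun i hi => hy' i (Finset.mem_range.2 hi)]

theorem tendsto_of_res {α : Type*} [TopologicalSpace α] {y : ℕ → ℕ → α} {z : ℕ → α}
    (h : ∀ n, res (y n) n = res z n) : Tendsto y atTop (𝓝 z) := by
  rw [tendsto_pi_nhds]
  intro i
  refine tendsto_const_nhds.congr' ?_
  filter_upwards [eventually_gt_atTop i] with n hn
  exact (res_eq_iff.1 (h n) i hn).symm

/-- The set of codes with an infinite branch. -/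
def IF : Set (List ℕ → Bool) := {T | ∃ y : ℕ → ℕ, ∀ n, T (res y n) = true}

theorem not_analytic_compl_IF : ¬ AnalyticSet IFᶜ := by
  classical
  intro h
  let J := List Bool × List ℕ
  obtain ⟨e, he⟩ := exists_surjective_nat J
  let Φ : (J → Bool) → List ℕ → Bool := fun x t => x (res (fun i => x (e i)) t.length, t)
  have hΦ : Continuous Φ := by
    refine continuous_pi fun t => IsLocallyConstant.continuous ?_
    rw [IsLocallyConstant.iff_eventually_eq]
    intro x
    have h0 : ∀ j, ∀ᶠ x' in 𝓝 x, x' j = x j := fun j =>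
      ev_eq (continuous_apply j) x
    have h1 : ∀ᶠ x' in 𝓝 x, ∀ i ∈ Finset.range t.length, x' (e i) = x (e i) :=
      (eventually_all_finset _).2 fun i _ => h0 _
    filter_upwards [h1, h0 (res (fun i => x (e i)) t.length, t)] with x' h2 h3
    simp only [Φ]
    rw [res_eq_iff.2 fun i hi => h2 i (Finset.mem_range.2 hi), h3]
  have h1 : AnalyticSet (Φ ⁻¹' IFᶜ) := h.preimage hΦ
  rw [AnalyticSet] at h1
  rcases h1 with h1 | ⟨f, hf, h1⟩
  · have : (fun _ => false) ∈ Φ ⁻¹' IFᶜ := by
      rintro ⟨y, hy⟩
      simpa [Φ] using hy 0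
    rw [h1] at this
    exact this
  · let z : J → Bool := fun j => decide (∃ y : ℕ → ℕ, res y j.2.length = j.2 ∧
      res (fun i => f y (e i)) j.2.length = j.1)
    have key : Φ z ∈ IF ↔ z ∈ range f := by
      constructor
      · rintro ⟨y, hy⟩
        simp only [Φ, z, length_res, decide_eq_true_eq] at hy
        choose y' hy1 hy2 using hy
        refine ⟨y, funext fun j => ?_⟩
        obtain ⟨i, rfl⟩ := he j
        have h2 := (hf.tendsto y).comp (tendsto_of_res hy1)
        have h3 := tendsto_pi_nhds.1 h2 (e i)
        have h4 := tendsto_pi_nhds.1 (tendsto_of_res (y := fun n i => f (y' n) (e i)) hy2) i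
        exact tendsto_nhds_unique h3 h4
      · rintro ⟨y, hy⟩
        refine ⟨y, fun n => ?_⟩
        simp only [Φ, length_res]
        have : ∃ y' : ℕ → ℕ, res y' n = res y n ∧
            res (fun i => f y' (e i)) n = res (fun i => z (e i)) n := ⟨y, rfl, by rw [hy]⟩
        simpa only [z, length_res, decide_eq_true_eq] using this
    rw [h1] at key
    exact iff_not_self key

theorem not_measurableSet_IF : ¬ MeasurableSet IF := fun h =>
  not_analytic_compl_IF h.compl.analyticSet

theorem analyticSet_IF : AnalyticSet IF := by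
  have h1 : IsClosed {p : (List ℕ → Bool) × (ℕ → ℕ) | ∀ n, p.1 (res p.2 n) = true} := by
    rw [ofPred_forall]
    refine isClosed_iInter fun n => isClosed_eq ?_ continuous_const
    refine IsLocallyConstant.continuous ?_
    rw [IsLocallyConstant.iff_eventually_eq]
    intro p
    have h2 : ∀ᶠ q in 𝓝 p, res q.2 n = res p.2 n := by
      let _ : TopologicalSpace (List ℕ) := ⊥
      have : DiscreteTopology (List ℕ) := ⟨rfl⟩
      exact ev_eq ((continuous_res n id).comp continuous_snd) p
    have h3 : ∀ᶠ q in 𝓝 p, q.1 (res p.2 n) = p.1 (res p.2 n) :=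
      ev_eq ((continuous_apply (res p.2 n)).comp continuous_fst) p
    filter_upwards [h2, h3] with q h2 h3
    rw [h2, h3]
  have h2 := h1.analyticSet.image_of_continuous continuous_fst
  convert h2 using 1
  ext T
  simp [IF]

/-- A branch can be built from a child-closed family of nodes. -/
theorem exists_branch {P : List ℕ → Prop} (h0 : P []) (h : ∀ s, P s → ∃ m, P (m :: s)) :
    ∃ y : ℕ → ℕ, ∀ n, P (res y n) := by
  classical
  let nx : List ℕ → ℕ := fun s => if hs : P s then (h s hs).choose else 0
  let t : ℕ → List ℕ := fun n => Nat.rec [] (fun _ s => nx s :: s) n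
  have h1 : ∀ n, res (fun n => nx (t n)) n = t n := by
    intro n
    induction n with
    | zero => rfl
    | succ n ih => rw [res_succ, ih]
  refine ⟨fun n => nx (t n), fun n => ?_⟩
  rw [h1]
  induction n with
  | zero => exact h0
  | succ n ih =>
    change P (nx (t n) :: t n)
    simp only [nx, dif_pos ih]
    exact (h _ ih).choose_spec

end Pool.Agent.H39.NonBorel
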