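import Mathlib
import Pool.Agent.H39.NonBorel

set_option autoImplicit false

namespace Pool.Agent.H39.BaireLoc

open Set Filter Topology MeasureTheory Pool.Agent.H39.NonBorel

/-- Overwrite the first `n` coordinates of `p` by those of `p0`. -/
def ovw {α : Type*} (p0 : ℕ → α) (n : ℕ) (p : ℕ → α) : ℕ → α :=
  fun i => if i < n then p0 i else p i

section
variable {α : Type*} [TopologicalSpace α] [DiscreteTopology α]

omit [DiscreteTopology α] in
theorem continuous_over (p0 : ℕ → α) (n : ℕ) : Continuous (ovw p0 n) := by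
  refine continuous_pi fun i => ?_
  simp only [ovw]
  split_ifs
  · exact continuous_const
  · exact continuous_apply i

theorem isOpenMap_over (p0 : ℕ → α) (n : ℕ) : IsOpenMap (ovw p0 n) := by
  have : ovw p0 n = Pi.map fun i (a : α) => if i < n then p0 i else a := rfl
  rw [this]
  refine IsOpenMap.piMap (fun i _ _ => isOpen_discrete _) ?_
  rw [Nat.cofinite_eq_atTop]
  filter_upwards [eventually_ge_atTop n] with i hi a
  exact ⟨a, if_neg (not_lt.2 hi)⟩

theorem residual_over (p0 : ℕ → α) (n : ℕ) {P : Set (ℕ → α)} (h : P ∈ residual (ℕ → α)) :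
    {p | ovw p0 n p ∈ P} ∈ residual (ℕ → α) :=
  tendsto_residual_of_isOpenMap (continuous_over p0 n) (isOpenMap_over p0 n) h

omit [DiscreteTopology α] in
theorem exists_cyl {U : Set (ℕ → α)} {p0 : ℕ → α} (hU : U ∈ 𝓝 p0) :
    ∃ n, ∀ p : ℕ → α, (∀ i < n, p i = p0 i) → p ∈ U := by
  obtain ⟨V, hVU, hV, hp⟩ := mem_nhds_iff.1 hU
  obtain ⟨I, u, hu, hI⟩ := isOpen_pi_iff.1 hV p0 hp
  obtain ⟨l, hl⟩ := I.bddAbove
  refine ⟨l + 1, fun p hp => hVU (hI fun j hj => ?_)⟩
  rw [hp j (Nat.lt_succ_of_le (hl hj))]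
  exact (hu j hj).2

theorem isOpen_cyl (p0 : ℕ → α) (n : ℕ) : IsOpen {p : ℕ → α | ∀ i < n, p i = p0 i} := by
  have : {p : ℕ → α | ∀ i < n, p i = p0 i} = ⋂ i ∈ Finset.range n, {p | p i = p0 i} := by
    ext v
    simp
  rw [this]
  exact isOpen_biInter_finset fun i _ =>
    (isOpen_discrete ({p0 i} : Set α)).preimage (continuous_apply (A := fun _ => α) i)

omit [DiscreteTopology α] in
theorem dense_of_cyl {O : Set (ℕ → α)}
    (h : ∀ (p0 : ℕ → α) (n : ℕ), ∃ p ∈ O, ∀ i < n, p i = p0 i) : Dense O := by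
  rw [dense_iff_inter_open]
  rintro U hU ⟨p0, hp0⟩
  obtain ⟨n, hn⟩ := exists_cyl (hU.mem_nhds hp0)
  obtain ⟨p, hp, hp'⟩ := h p0 n
  exact ⟨p, hn p hp', hp⟩

theorem localize {P : Set (ℕ → α)} (hP : BaireMeasurableSet P) (h : ¬ IsMeagre P) :
    ∃ p0 n0, ∀ n, n0 ≤ n → {p | ovw p0 n p ∈ P} ∈ residual (ℕ → α) := by
  obtain ⟨U, hU, hPU⟩ := hP.residualEq_isOpen
  have hPU' : {x | x ∈ P ↔ x ∈ U} ∈ residual (ℕ → α) := by
    filter_upwards [hPU] with x hx
    exact Iff.of_eq hx
  rcases U.eq_empty_or_nonempty with rfl | ⟨p0, hp0⟩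
  · refine absurd ?_ h
    filter_upwards [hPU'] with x hx
    exact fun h => hx.1 h
  · obtain ⟨n0, hn0⟩ := exists_cyl (hU.mem_nhds hp0)
    refine ⟨p0, n0, fun n hn => ?_⟩
    filter_upwards [residual_over p0 n hPU'] with p hp
    exact hp.2 (hn0 _ fun i hi => if_pos (hi.trans_le hn))

theorem residual_invol {φ : α → α} (hφ : ∀ a, φ (φ a) = a) {P : Set (ℕ → α)}
    (h : P ∈ residual (ℕ → α)) : {p : ℕ → α | (fun i => φ (p i)) ∈ P} ∈ residual (ℕ → α) := by
  have hc : Continuous fun (p : ℕ → α) i => φ (p i) :=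
    continuous_pi fun i => continuous_of_discreteTopology.comp (continuous_apply i)
  have hi : ∀ p : ℕ → α, (fun i => φ (φ (p i))) = p := fun p => funext fun i => hφ _
  exact tendsto_residual_of_isOpenMap hc (IsOpenMap.of_inverse hc hi hi) h

end

structure IsIdeal (I : Set (Set ℕ)) : Prop where
  down : ∀ A ∈ I, ∀ B : Set ℕ, B ⊆ A → B ∈ I
  union : ∀ A ∈ I, ∀ B ∈ I, A ∪ B ∈ I
  fin : ∀ A : Set ℕ, A.Finite → A ∈ I

theorem IsIdeal.biUnion_lt {I : Set (Set ℕ)} (hI : IsIdeal I) {D : ℕ → Set ℕ} (n : ℕ)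
    (h : ∀ m < n, D m ∈ I) : (⋃ m < n, D m) ∈ I := by
  induction n with
  | zero => exact hI.fin _ (by simp)
  | succ n ih =>
    rw [biUnion_lt_succ]
    exact hI.union _ (ih fun m hm => h m (hm.trans (Nat.lt_succ_self n))) _
      (h n (Nat.lt_succ_self n))

abbrev Ω := ℕ → Bool × ℕ × Bool

instance : PolishSpace Ω := PolishSpace.mk

open Classical in
noncomputable def E (D : Set ℕ) (col : ℕ → ℕ) (p : Ω) (n : ℕ) : Bool :=
  decide (n ∈ D ∧ (p n).2.2 = true ∧ ((p (col n)).1 = true ∨ n < (p (col n)).2.1))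

theorem continuous_E (D : Set ℕ) (col : ℕ → ℕ) : Continuous (E D col) := by
  classical
  refine continuous_pi fun n => ?_
  have h1 : Continuous fun p : Ω => (p n, p (col n)) := by fun_prop
  exact (continuous_of_discreteTopology (f := fun q : (Bool × ℕ × Bool) × (Bool × ℕ × Bool) =>
    decide (n ∈ D ∧ q.1.2.2 = true ∧ (q.2.1 = true ∨ n < q.2.2.1)))).comp h1

theorem noFin2 {I : Set (Set ℕ)} (hI : IsIdeal I) (C : ℕ → ℕ → ℕ → Set (ℕ → Bool))
    (hC : ∀ i j k, IsClosed (C i j k))
    (hIC : ∀ f : ℕ → Bool, {n | f n = true} ∉ I ↔ ∃ i, ∀ j, ∃ k, f ∈ C i j k)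
    (D : Set ℕ) (col : ℕ → ℕ) (h1 : ∀ m, {n | n ∈ D ∧ col n = m} ∈ I)
    (h2 : ∀ A ⊆ D, (∀ m, {n | n ∈ A ∧ col n = m}.Finite) → A ∈ I) : D ∈ I := by
  classical
  by_contra hD
  have hE := continuous_E D col
  have hmem : ∀ p n, E D col p n = true ↔
      n ∈ D ∧ (p n).2.2 = true ∧ ((p (col n)).1 = true ∨ n < (p (col n)).2.1) := by
    intro p n
    simp only [E, decide_eq_true_eq]
  obtain ⟨i, hi⟩ : ∃ i, ¬ IsMeagre (E D col ⁻¹' ⋂ j, ⋃ k, C i j k) := by
    by_contra h
    push Not at h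
    have h3 : {p | {n | E D col p n = true} ∈ I} ∈ residual Ω := by
      filter_upwards [isMeagre_iUnion h] with p hp
      by_contra h4
      obtain ⟨i, hi⟩ := (hIC _).1 h4
      exact hp (mem_iUnion.2 ⟨i, mem_iInter.2 fun j => mem_iUnion.2 (hi j)⟩)
    have h4 := residual_invol (φ := fun a : Bool × ℕ × Bool => (!a.1, a.2.1, a.2.2))
      (by simp) h3
    have h5 := residual_invol (φ := fun a : Bool × ℕ × Bool => (a.1, a.2.1, !a.2.2))
      (by simp) (inter_mem h3 h4)
    obtain ⟨p, ⟨h6, h7⟩, h8, h9⟩ := (dense_of_mem_residual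
      (inter_mem (inter_mem h3 h4) h5)).nonempty
    refine hD (hI.down _ (hI.union _ (hI.union _ h6 _ h7) _ (hI.union _ h8 _ h9)) _ ?_)
    intro n hn
    simp only [mem_union, mem_ofPred_eq, hmem, hn, true_and]
    cases (p n).2.2 <;> cases (p (col n)).1 <;> simp
  obtain ⟨p0, n0, h3⟩ := localize (MeasurableSet.baireMeasurableSet (hE.measurable
    (MeasurableSet.iInter fun j => MeasurableSet.iUnion fun k => (hC i j k).measurableSet))) hi
  have h4 := h3 n0 le_rfl
  let ι : Ω → Ω := fun p => ovw p0 n0 fun m => (false, (p m).2)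
  have hdense : ∀ j, Dense (⋃ k, interior {p | E D col (ι p) ∈ C i j k}) := by
    intro j
    obtain ⟨t, ht, ht1, ht2⟩ := mem_residual.1 h4
    have h5 : Dense (⋃ k, interior {p | E D col (ovw p0 n0 p) ∈ C i j k}) := by
      refine ht1.dense_iUnion_interior_of_closed ht2
        (fun k => (hC i j k).preimage (hE.comp (continuous_over p0 n0))) fun p hp => ?_
      obtain ⟨k, hk⟩ := mem_iUnion.1 (mem_iInter.1 (ht hp) j)
      exact mem_iUnion.2 ⟨k, hk⟩
    refine dense_of_cyl fun p1 N' => ?_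
    obtain ⟨N, hN1, hN2⟩ : ∃ N, N' ≤ N ∧ n0 ≤ N := ⟨max N' n0, le_max_left _ _, le_max_right _ _⟩
    obtain ⟨p2, hp2, hp2'⟩ := h5.inter_open_nonempty _
      (isOpen_cyl (fun m => (false, (p1 m).2)) N) ⟨_, fun _ _ => rfl⟩
    obtain ⟨k, hk⟩ := mem_iUnion.1 hp2'
    obtain ⟨N3, hN3⟩ := exists_cyl (mem_interior_iff_mem_nhds.1 hk)
    obtain ⟨N2, hN4, hN5⟩ : ∃ N2, N3 ≤ N2 ∧ N ≤ N2 := ⟨max N3 N, le_max_left _ _, le_max_right _ _⟩
    let p3 : Ω := fun m => if m < N then p1 m else
      (false, if (p2 m).1 = true then N2 else (p2 m).2.1, (p2 m).2.2)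
    refine ⟨p3, mem_iUnion.2 ⟨k, mem_interior_iff_mem_nhds.2 ?_⟩,
      fun m hm => if_pos (hm.trans_le hN1)⟩
    filter_upwards [(isOpen_cyl p3 N2).mem_nhds fun _ _ => rfl] with p hp
    let p' : Ω := fun m => if m < N2 then p2 m else (false, (p m).2.1,
      if N ≤ col m ∧ col m < N2 ∧ (p2 (col m)).1 = true then false else (p m).2.2)
    have h6 := hN3 p' fun m hm => if_pos (hm.trans_le hN4)
    have h7 : E D col (ι p) = E D col (ovw p0 n0 p') := by
      have hA : ∀ m < N, p m = p1 m ∧ p2 m = (false, (p1 m).2) := fun m hm =>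
        ⟨(hp m (hm.trans_le hN5)).trans (if_pos hm), hp2 m hm⟩
      have hB : ∀ m, N ≤ m → m < N2 →
          p m = (false, if (p2 m).1 = true then N2 else (p2 m).2.1, (p2 m).2.2) :=
        fun m hm hm' => (hp m hm').trans (if_neg (not_lt.2 hm))
      have hh : ∀ n < N2, (p n).2.2 = (p2 n).2.2 := by
        intro n hn
        by_cases h : n < N
        · rw [(hA n h).1, (hA n h).2]
        · rw [hB n (not_lt.1 h) hn]
      funext n
      rw [Bool.eq_iff_iff, hmem, hmem]
      refine and_congr_right fun _ => ?_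
      by_cases hc : N ≤ col n ∧ col n < N2 ∧ (p2 (col n)).1 = true
      · have e1 : ι p (col n) = (false, N2, (p2 (col n)).2.2) := by
          simp only [ι, ovw]
          rw [if_neg (by omega), hB _ hc.1 hc.2.1, if_pos hc.2.2]
        have e2 : (ovw p0 n0 p' (col n)).1 = true := by
          simp only [ovw, p']
          rw [if_neg (by omega), if_pos hc.2.1]
          exact hc.2.2
        rw [e1, e2]
        by_cases hn : n < N2
        · have e3 : (ι p n).2.2 = (ovw p0 n0 p' n).2.2 := by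
            simp only [ι, ovw, p']
            split_ifs
            · rfl
            · exact hh n hn
          simp [e3, hn]
        · have e3 : (ovw p0 n0 p' n).2.2 = false := by
            simp only [ovw, p']
            rw [if_neg (by omega), if_neg hn, if_pos hc]
          simp [e3, hn]
      · have e3 : (ι p n).2.2 = (ovw p0 n0 p' n).2.2 := by
          simp only [ι, ovw, p']
          rw [if_neg hc]
          split_ifs with h h'
          · rfl
          · exact hh n h'
          · rfl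
        have e4 : (ι p (col n)).1 = (ovw p0 n0 p' (col n)).1 ∧
            (ι p (col n)).2.1 = (ovw p0 n0 p' (col n)).2.1 := by
          simp only [ι, ovw, p']
          by_cases h : col n < n0
          · simp [h]
          · by_cases h' : col n < N2
            · simp only [if_neg h, if_pos h']
              by_cases h'' : col n < N
              · rw [(hA _ h'').1, (hA _ h'').2]
                simp
              · have h8 : ¬ (p2 (col n)).1 = true := fun h8 => hc ⟨not_lt.1 h'', h', h8⟩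
                rw [hB _ (not_lt.1 h'') h', if_neg h8]
                simpa using h8
            · simp [h, h']
        rw [e3, e4.1, e4.2]
    change E D col (ι p) ∈ C i j k
    rw [h7]
    exact h6
  obtain ⟨p, hp⟩ := (dense_iInter_of_isOpen
    (fun j => isOpen_iUnion fun k => isOpen_interior) hdense).nonempty
  refine (hIC (E D col (ι p))).2 ⟨i, fun j => ?_⟩ ?_
  · obtain ⟨k, hk⟩ := mem_iUnion.1 (mem_iInter.1 hp j)
    have hk' := interior_subset hk
    exact ⟨k, hk'⟩
  · refine hI.down _ (hI.union _ (hI.biUnion_lt n0 fun m _ => h1 m) _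
      (h2 {n | n ∈ D ∧ n < (p (col n)).2.1} (fun n hn => hn.1) fun m => ?_)) _ ?_
    · refine (finite_lt_nat (p m).2.1).subset ?_
      rintro n ⟨⟨-, hn⟩, rfl⟩
      exact hn
    · intro n hn
      have h5 := (hmem _ _).1 hn
      by_cases h : col n < n0
      · exact Or.inl (mem_iUnion₂.2 ⟨col n, h, h5.1, rfl⟩)
      · refine Or.inr ⟨h5.1, ?_⟩
        have h6 := h5.2.2
        simp only [ι, ovw, if_neg h] at h6
        simpa using h6

end Pool.Agent.H39.BaireLoc
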