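import Mathlib

set_option autoImplicit false

namespace Pool.Agent.H39.FG

open Set Filter Topology MeasureTheory SetRel
open scoped ENNReal

variable {X : Type} [MeasurableSpace X]

/-- The measure preserving bimeasurable bijections of `X`. -/
def Aut (μ : Measure X) : Subgroup (Equiv.Perm X) where
  carrier := {T | MeasurePreserving T μ μ ∧ MeasurePreserving T.symm μ μ}
  mul_mem' ha hb := ⟨ha.1.comp hb.1, hb.2.comp ha.2⟩
  one_mem' := ⟨MeasurePreserving.id μ, MeasurePreserving.id μ⟩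
  inv_mem' ha := ⟨ha.2, ha.1⟩

variable {μ : Measure X}

/-- The bimeasurable bijections that move every point inside its `T`-orbit. -/
def Full (T : Aut μ) : Subgroup (Equiv.Perm X) where
  carrier := {U | Measurable U ∧ Measurable U.symm ∧ ∀ x, ∃ n : ℤ, U x = (T.1 ^ n) x}
  mul_mem' {a b} ha hb := ⟨ha.1.comp hb.1, hb.2.1.comp ha.2.1, fun x => by
    obtain ⟨n, hn⟩ := hb.2.2 x
    obtain ⟨m, hm⟩ := ha.2.2 (b x)
    exact ⟨m + n, by rw [Equiv.Perm.mul_apply, hm, hn, zpow_add, Equiv.Perm.mul_apply]⟩⟩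
  one_mem' := ⟨measurable_id, measurable_id, fun x => ⟨0, rfl⟩⟩
  inv_mem' {a} ha := ⟨ha.2.1, ha.1, fun x => by
    obtain ⟨n, hn⟩ := ha.2.2 (a⁻¹ x)
    exact ⟨-n, by rw [zpow_neg, Equiv.Perm.eq_inv_iff_eq, ← hn]; simp⟩⟩

variable {T0 : Aut μ}

/-- The uniform distance. -/
noncomputable instance unif : PseudoEMetricSpace (Full T0) where
  edist S T := μ {x | S.1 x ≠ T.1 x}
  edist_self S := by simp
  edist_comm S T := by simp only [ne_comm]
  edist_triangle S T U := (measure_mono fun x hx => by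
    by_contra h
    simp only [mem_union, mem_ofPred_eq, not_or, not_not] at h
    exact hx (h.1.trans h.2)).trans (measure_union_le _ _)

theorem edist_def (S T : Full T0) : edist S T = μ {x | S.1 x ≠ T.1 x} := rfl

theorem mp (n : ℤ) : MeasurePreserving (T0.1 ^ n : Equiv.Perm X) μ μ := (zpow_mem T0.2 n).1

variable (T0) in
/-- Borel partial bijections inside the orbit relation. -/
structure PB (Γ : SetRel X X) : Prop where
  meas : MeasurableSet Γ
  orb : ∀ x y, (x, y) ∈ Γ → ∃ n : ℤ, y = (T0.1 ^ n) x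
  fn : ∀ x y z, (x, y) ∈ Γ → (x, z) ∈ Γ → y = z
  inj : ∀ x y z, (x, z) ∈ Γ → (y, z) ∈ Γ → x = y

variable {Γ Δ : SetRel X X}

theorem PB.inv (h : PB T0 Γ) : PB T0 Γ.inv :=
  ⟨measurable_swap h.meas, fun x y hp => by
    obtain ⟨n, hn⟩ := h.orb y x hp
    exact ⟨-n, by rw [zpow_neg, Equiv.Perm.eq_inv_iff_eq, ← hn]⟩,
    fun x y z => h.inj y z x, fun x y z => h.fn z x y⟩

theorem PB.sec (h : PB T0 Γ) (n : ℤ) : MeasurableSet {x | (x, (T0.1 ^ n) x) ∈ Γ} :=
  (measurable_id.prodMk (mp n).measurable) h.meas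

theorem PB.dom_eq (h : PB T0 Γ) : Γ.dom = ⋃ n : ℤ, {x | (x, (T0.1 ^ n) x) ∈ Γ} := by
  ext x
  simp only [mem_dom, mem_iUnion, mem_ofPred_eq]
  exact ⟨fun ⟨y, hy⟩ => (h.orb x y hy).imp fun n hn => by rwa [← hn], fun ⟨n, hn⟩ => ⟨_, hn⟩⟩

theorem PB.dom (h : PB T0 Γ) : MeasurableSet Γ.dom := h.dom_eq ▸ MeasurableSet.iUnion h.sec

theorem PB.cod (h : PB T0 Γ) : MeasurableSet Γ.cod := h.inv.dom

theorem PB.comp (h : PB T0 Γ) (h' : PB T0 Δ) : PB T0 (Γ ○ Δ) := by
  refine ⟨?_, ?_, ?_, ?_⟩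
  · have : Γ ○ Δ = ⋃ n : ℤ, {p | (p.1, (T0.1 ^ n) p.1) ∈ Γ} ∩ {p | ((T0.1 ^ n) p.1, p.2) ∈ Δ} := by
      ext ⟨x, z⟩
      simp only [mem_comp, mem_iUnion, mem_inter_iff, mem_ofPred_eq]
      exact ⟨fun ⟨y, hy⟩ => (h.orb x y hy.1).imp fun n hn => by rwa [← hn],
        fun ⟨n, hn⟩ => ⟨_, hn⟩⟩
    rw [this]
    exact MeasurableSet.iUnion fun n => (measurable_fst (h.sec n)).inter
      ((((mp n).measurable.comp measurable_fst).prodMk measurable_snd) h'.meas)
  · rintro x z ⟨y, h1, h2⟩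
    obtain ⟨n, rfl⟩ := h.orb _ _ h1
    obtain ⟨m, rfl⟩ := h'.orb _ _ h2
    exact ⟨m + n, by rw [zpow_add, Equiv.Perm.mul_apply]⟩
  · rintro x y z ⟨a, h1, h2⟩ ⟨b, h3, h4⟩
    exact h'.fn _ _ _ (h.fn _ _ _ h1 h3 ▸ h2) h4
  · rintro x y z ⟨a, h1, h2⟩ ⟨b, h3, h4⟩
    exact h.inj _ _ _ (h'.inj _ _ _ h2 h4 ▸ h1) h3

theorem PB.inter (h : PB T0 Γ) (h' : MeasurableSet Δ) : PB T0 (Γ ∩ Δ) :=
  ⟨h.meas.inter h', fun x y a => h.orb x y a.1, fun x y z a b => h.fn x y z a.1 b.1,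
    fun x y z a b => h.inj x y z a.1 b.1⟩

theorem PB.le (h : PB T0 Γ) : μ Γ.cod ≤ μ Γ.dom := by
  obtain ⟨e, he⟩ := exists_surjective_nat ℤ
  let D := disjointed fun n => {x | (x, (T0.1 ^ e n) x) ∈ Γ}
  have h1 : ∀ n, MeasurableSet (D n) := MeasurableSet.disjointed fun n => h.sec _
  have h2 : Γ.dom = ⋃ n, D n := by
    rw [iUnion_disjointed, h.dom_eq, he.iUnion_comp fun n => {x | (x, (T0.1 ^ n) x) ∈ Γ}]
  rw [h2, measure_iUnion (disjoint_disjointed _) h1]
  refine (measure_mono (t := ⋃ n, (T0.1 ^ (-e n) : Equiv.Perm X) ⁻¹' D n) ?_).trans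
    ((measure_iUnion_le _).trans (le_of_eq (tsum_congr fun n =>
      (mp _).measure_preimage (h1 n).nullMeasurableSet)))
  rintro y ⟨x, hx⟩
  obtain ⟨n, hn⟩ := mem_iUnion.1 (h2.subset ⟨y, hx⟩)
  refine mem_iUnion.2 ⟨n, ?_⟩
  rw [h.fn _ _ _ hx (disjointed_subset (fun n => {x | (x, (T0.1 ^ e n) x) ∈ Γ}) n hn)]
  simpa using hn

theorem PB.eq (h : PB T0 Γ) : μ Γ.cod = μ Γ.dom := h.le.antisymm h.inv.le

theorem PB.func (h : PB T0 Γ) (h' : ∀ x, x ∈ Γ.dom) :
    ∃ f : X → X, Measurable f ∧ ∀ x, (x, f x) ∈ Γ := by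
  classical
  obtain ⟨e, he⟩ := exists_surjective_nat ℤ
  have h1 : ∀ x, ∃ n, (x, (T0.1 ^ e n) x) ∈ Γ := fun x => by
    obtain ⟨n, hn⟩ := mem_iUnion.1 (h.dom_eq ▸ h' x)
    obtain ⟨m, rfl⟩ := he n
    exact ⟨m, hn⟩
  exact ⟨_, Measurable.find (fun n => (mp (e n)).measurable) (fun n => h.sec _) h1,
    fun x => Nat.find_spec (h1 x)⟩

variable [StandardBorelSpace X]

theorem pb_graph (U : Full T0) : PB T0 {p | U.1 p.1 = p.2} :=
  ⟨measurableSet_eq_fun (U.2.1.comp measurable_fst) measurable_snd,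
    fun x y (h : U.1 x = y) => h ▸ U.2.2.2 x, fun _ _ _ a b => Eq.trans (Eq.symm a) b,
    fun _ _ _ a b => U.1.injective (Eq.trans a (Eq.symm b))⟩

theorem mp_full (U : Full T0) : MeasurePreserving U.1 μ μ := by
  refine ⟨U.2.1, Measure.ext fun A hA => ?_⟩
  rw [Measure.map_apply U.2.1 hA]
  have h := ((pb_graph U).inter (measurable_snd hA)).eq
  rw [show SetRel.dom ({p | U.1 p.1 = p.2} ∩ Prod.snd ⁻¹' A) = U.1 ⁻¹' A by ext; simp,
    show SetRel.cod ({p | U.1 p.1 = p.2} ∩ Prod.snd ⁻¹' A) = A by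
      ext y; simpa using fun _ => U.1.surjective y] at h
  exact h.symm

omit [StandardBorelSpace X] in
theorem edist_left (U S T : Full T0) : edist (U * S) (U * T) = edist S T := by
  simp [edist_def]

theorem meas_ne (S T : Full T0) : MeasurableSet {x | S.1 x ≠ T.1 x} :=
  (measurableSet_eq_fun S.2.1 T.2.1).compl

theorem edist_right (U S T : Full T0) : edist (S * U) (T * U) = edist S T :=
  (mp_full U).measure_preimage (meas_ne S T).nullMeasurableSet

instance topGroup : IsTopologicalGroup (Full T0) where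
  continuous_mul := by
    refine (LipschitzWith.continuous (K := 2) fun p q => ?_)
    refine (edist_triangle _ (q.1 * p.2) _).trans ?_
    rw [edist_left, edist_right, Prod.edist_eq, ENNReal.coe_ofNat, two_mul]
    exact add_le_add (le_max_left _ _) (le_max_right _ _)
  continuous_inv := Isometry.continuous fun S T => by
    rw [← edist_left S, ← edist_right T, edist_comm]
    simp

/-- The full group, with maps that agree almost everywhere identified. -/
abbrev FullGroup (T : Aut μ) : Type := SeparationQuotient (Full T)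

variable [IsProbabilityMeasure μ]

theorem second : SecondCountableTopology (Full T0) := by
  obtain ⟨𝒜, h1, h2⟩ := exists_countable_measureDense μ
  obtain ⟨e, he⟩ := exists_surjective_nat ℤ
  have := h1.to_subtype
  refine EMetric.secondCountable_of_almost_dense_set fun ε hε => ?_
  have h3 : 0 < ε / 3 := ENNReal.div_pos hε.ne' (by simp)
  obtain ⟨δ, h4, h5⟩ := ENNReal.exists_pos_sum_of_countable' h3.ne' ℕ
  let A : Full T0 → ℕ → Set X := fun U n => {x | U.1 x = (T0.1 ^ e n) x}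
  have h6 : ∀ U n, MeasurableSet (A U n) := fun U n => measurableSet_eq_fun U.2.1 (mp _).measurable
  have h7 : ∀ U n, ∃ B : 𝒜, μ (symmDiff (A U n) B) ≤ δ n := fun U n => by
    obtain ⟨r, h7, h8⟩ := ENNReal.lt_iff_exists_nnreal_btwn.1 (h4 n)
    obtain ⟨B, h9, h10⟩ := h2.approx _ (h6 U n) (measure_ne_top _ _) r (by exact_mod_cast h7)
    exact ⟨⟨B, h9⟩, h10.le.trans (by simpa using h8.le)⟩
  choose B hB using h7
  have h8 : ∀ U, ∃ N, μ (⋂ n < N, (A U n)ᶜ) ≤ ε / 3 := fun U => by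
    have h8 := tendsto_measure_iInter_atTop (μ := μ) (s := fun N => ⋂ n < N, (A U n)ᶜ)
      (fun N => (MeasurableSet.biInter (to_countable _) fun n _ => (h6 U n).compl).nullMeasurableSet)
      (fun a b h => biInter_subset_biInter_left fun n (hn : n < a) => hn.trans_le h)
      ⟨0, measure_ne_top _ _⟩
    rw [show ⋂ N, ⋂ n < N, (A U n)ᶜ = ∅ from eq_empty_of_forall_notMem fun x hx => by
      obtain ⟨n, hn⟩ := U.2.2.2 x
      obtain ⟨m, rfl⟩ := he n
      exact mem_iInter₂.1 (mem_iInter.1 hx (m + 1)) m m.lt_succ_self hn, measure_empty] at h8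
    exact (h8.eventually (ge_mem_nhds h3)).exists
  choose N hN using h8
  let F : Full T0 → List 𝒜 := fun U => (List.range (N U)).map (B U)
  refine ⟨range (rangeSplitting F), countable_range _, iUnion₂_eq_univ_iff.2 fun U =>
    ⟨_, ⟨⟨F U, mem_range_self _⟩, rfl⟩, ?_⟩⟩
  have h9 := apply_rangeSplitting F ⟨F U, mem_range_self _⟩
  generalize rangeSplitting F ⟨F U, mem_range_self _⟩ = V at h9
  have h10 : N V = N U := by simpa [F] using congrArg List.length h9
  simp only [F, h10, List.map_inj_left, List.mem_range] at h9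
  refine (measure_mono (t := ((⋂ n < N U, (A U n)ᶜ) ∪ ⋃ n, symmDiff (A U n) (B U n)) ∪
    ⋃ n, symmDiff (A V n) (B V n)) fun x hx => ?_).trans ((measure_union_le _ _).trans ?_)
  · by_contra h
    simp only [mem_union, mem_iInter, mem_iUnion, not_or, not_forall, not_exists, mem_compl_iff,
      not_not, mem_symmDiff, not_and] at h
    obtain ⟨⟨⟨n, h11, h12⟩, h13⟩, h14⟩ := h
    exact hx (Eq.trans h12 (Eq.symm ((h14 n).2 (h9 n h11 ▸ (h13 n).1 h12))))
  · have h11 : ∀ U, μ (⋃ n, symmDiff (A U n) (B U n)) ≤ ε / 3 := fun U =>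
      (measure_iUnion_le _).trans ((ENNReal.tsum_le_tsum (hB U)).trans h5.le)
    rw [← ENNReal.add_thirds ε]
    exact add_le_add ((measure_union_le _ _).trans (add_le_add (hN U) (h11 U))) (h11 V)

end Pool.Agent.H39.FG
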