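import Mathlib
import Pool.Agent.H39.FG1

set_option autoImplicit false

namespace Pool.Agent.H39.FG

open Set Filter Topology MeasureTheory SetRel
open scoped ENNReal

theorem hilb {H : Type} [NormedAddCommGroup H] [InnerProductSpace ℝ H] [CompleteSpace H]
    {K : ℕ → Set H} (h1 : Antitone K) (h2 : ∀ i, (K i).Nonempty)
    (h3 : ∀ i, ∀ x ∈ K i, ∀ y ∈ K i, (1 / 2 : ℝ) • (x + y) ∈ K i) (h4 : ∀ i, ∀ x ∈ K i, ‖x‖ ≤ 1) :
    ∃ x : ℕ → H, (∀ i, x i ∈ K i) ∧ ∃ c, Tendsto x atTop (𝓝 c) := by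
  let m : ℕ → ℝ := fun i => sInf ((fun x => ‖x‖ ^ 2) '' K i)
  have h5 : ∀ i, BddBelow ((fun x => ‖x‖ ^ 2) '' K i) := fun i =>
    ⟨0, by rintro _ ⟨x, -, rfl⟩; positivity⟩
  have h6 : ∀ i, ∀ x ∈ K i, m i ≤ ‖x‖ ^ 2 := fun i x hx => csInf_le (h5 i) ⟨x, hx, rfl⟩
  have h7 : Monotone m := fun i j h => csInf_le_csInf (h5 i) ((h2 j).image _) (image_mono (h1 h))
  have h8 : BddAbove (range m) := ⟨1, by
    rintro _ ⟨i, rfl⟩
    obtain ⟨x, hx⟩ := h2 i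
    exact (h6 i x hx).trans (pow_le_one₀ (norm_nonneg _) (h4 i x hx))⟩
  have h9 : ∀ i, ∃ x ∈ K i, ‖x‖ ^ 2 < m i + 1 / (i + 1) := fun i => by
    obtain ⟨_, ⟨x, hx, rfl⟩, h⟩ := exists_lt_of_csInf_lt ((h2 i).image fun x => ‖x‖ ^ 2)
      (lt_add_of_pos_right (m i) (by positivity : (0 : ℝ) < 1 / (i + 1)))
    exact ⟨x, hx, h⟩
  choose x h9 h10 using h9
  refine ⟨x, h9, cauchySeq_tendsto_of_complete (cauchySeq_of_le_tendsto_0
    (fun N : ℕ => √(4 * ((⨆ i, m i) + 1 / (N + 1) - m N))) (fun a b N ha hb => ?_) ?_)⟩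
  · refine Real.le_sqrt_of_sq_le ?_
    have h11 := h6 N _ (h3 N _ (h1 ha (h9 a)) _ (h1 hb (h9 b)))
    have h12 := parallelogram_law_with_norm ℝ (x a) (x b)
    have h13 : ∀ a, N ≤ a → ‖x a‖ ^ 2 ≤ (⨆ i, m i) + 1 / (N + 1) := fun a ha =>
      (h10 a).le.trans (add_le_add (le_ciSup h8 a) (Nat.one_div_le_one_div ha))
    rw [norm_smul] at h11
    norm_num at h11
    rw [dist_eq_norm]
    nlinarith [h13 a ha, h13 b hb]
  · have := (((tendsto_const_nhds (x := ⨆ i, m i)).add tendsto_one_div_add_atTop_nhds_zero_nat).sub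
      (tendsto_atTop_ciSup h7 h8)).const_mul 4
    simpa using this.sqrt

variable {X : Type} [MeasurableSpace X] {μ : Measure X} [IsProbabilityMeasure μ]

theorem komlos {C : ℕ → Set (X → ℝ)} (h1 : Antitone C) (h2 : ∀ i, (C i).Nonempty)
    (h3 : ∀ i, ∀ f ∈ C i, ∀ g ∈ C i, (fun x => (f x + g x) / 2) ∈ C i)
    (h4 : ∀ i, ∀ f ∈ C i, Measurable f ∧ ∀ x, ‖f x‖ ≤ 1) :
    ∃ f : ℕ → X → ℝ, (∀ i, f i ∈ C i) ∧ ∀ᵐ x ∂μ, ∃ c, Tendsto (fun i => f i x) atTop (𝓝 c) := by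
  obtain ⟨ξ, h5, c, h6⟩ := hilb (K := fun i => {ξ : Lp ℝ 2 μ | ∃ f ∈ C i, ξ =ᵐ[μ] f})
    (fun i j h ξ ⟨f, a, b⟩ => ⟨f, h1 h a, b⟩) (fun i => by
      obtain ⟨f, hf⟩ := h2 i
      exact ⟨_, f, hf, (MemLp.of_bound (h4 i f hf).1.aestronglyMeasurable 1
        (ae_of_all _ (h4 i f hf).2)).coeFn_toLp⟩) (by
      rintro i ξ ⟨f, a, b⟩ ζ ⟨g, c, d⟩
      refine ⟨_, h3 i f a g c, ?_⟩
      filter_upwards [b, d, Lp.coeFn_smul (1 / 2 : ℝ) (ξ + ζ), Lp.coeFn_add ξ ζ] with x e1 e2 e3 e4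
      rw [e3, Pi.smul_apply, e4, Pi.add_apply, e1, e2, smul_eq_mul]
      ring) (by
      rintro i ξ ⟨f, a, b⟩
      simpa [measureUnivNNReal] using Lp.norm_le_of_ae_bound (f := ξ) zero_le_one
        (b.mono fun x hx => hx ▸ (h4 i f a).2 x))
  obtain ⟨ns, h7, h8⟩ := (tendstoInMeasure_of_tendsto_Lp h6).exists_seq_tendsto_ae
  choose f h9 h10 using h5
  refine ⟨fun i => f (ns i), fun i => h1 (h7.id_le i) (h9 _), ?_⟩
  filter_upwards [h8, ae_all_iff.2 h10] with x a b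
  exact ⟨_, a.congr fun i => b _⟩

variable [StandardBorelSpace X] {T0 : Aut μ} {Γ Δ : SetRel X X} {A B C : Equiv.Perm X}

/-- Relations that intertwine `A` and `B`. -/
def Iv (A B : Equiv.Perm X) (Γ : SetRel X X) : Prop := ∀ x y, (x, y) ∈ Γ ↔ (A x, B y) ∈ Γ

section
omit [MeasurableSpace X] [StandardBorelSpace X]

theorem Iv.inv (h : Iv A B Γ) : Iv B A Γ.inv := fun x y => h y x

theorem Iv.comp (h : Iv A B Γ) (h' : Iv B C Δ) : Iv A C (Γ ○ Δ) := fun x z =>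
  ⟨fun ⟨y, a, b⟩ => ⟨B y, (h _ _).1 a, (h' _ _).1 b⟩, fun ⟨y, a, b⟩ => by
    obtain ⟨y, rfl⟩ := B.surjective y
    exact ⟨y, (h _ _).2 a, (h' _ _).2 b⟩⟩

theorem Iv.dom (h : Iv A B Γ) (x : X) : x ∈ Γ.dom ↔ A x ∈ Γ.dom :=
  ⟨fun ⟨y, a⟩ => ⟨B y, (h _ _).1 a⟩, fun ⟨y, a⟩ => by
    obtain ⟨y, rfl⟩ := B.surjective y
    exact ⟨y, (h _ _).2 a⟩⟩

/-- Iterates of a relation. -/
def it (Q : SetRel X X) : ℕ → SetRel X X
  | 0 => SetRel.id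
  | n + 1 => it Q n ○ Q

theorem it_add (Q : SetRel X X) (n k : ℕ) : it Q (n + k) = it Q n ○ it Q k := by
  induction k with
  | zero => simp [it]
  | succ k ih => rw [← add_assoc, it, ih, it, comp_assoc]

theorem Iv.it (h : Iv A A Γ) (n : ℕ) : Iv A A (it Γ n) := by
  induction n with
  | zero => exact fun x y => by simp [FG.it]
  | succ n ih => exact ih.comp h

end

omit [IsProbabilityMeasure μ] in
theorem PB.it (h : PB T0 Γ) (n : ℕ) : PB T0 (it Γ n) := by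
  induction n with
  | zero => exact pb_graph 1
  | succ n ih => exact ih.comp h

omit [IsProbabilityMeasure μ] in
theorem PB.back (h : PB T0 Γ) {n m : ℕ} {x y a : X} (h1 : (x, a) ∈ FG.it Γ n)
    (h2 : (y, a) ∈ FG.it Γ m) (hx : x ∉ Γ.cod) (hy : y ∉ Γ.cod) : n = m ∧ x = y := by
  have h3 : ∀ {n m : ℕ} {x y : X}, (x, a) ∈ FG.it Γ n → (y, a) ∈ FG.it Γ m → x ∉ Γ.cod →
      ¬n < m := fun {n m x y} h1 h2 hx h3 => by
    rw [show m = (m - n - 1 + 1) + n by omega, it_add] at h2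
    obtain ⟨c, ⟨d, -, h4⟩, h5⟩ := h2
    exact hx ⟨d, (h.it n).inj _ _ _ h5 h1 ▸ h4⟩
  obtain rfl : n = m := le_antisymm (not_lt.1 (h3 h2 h1 hy)) (not_lt.1 (h3 h1 h2 hx))
  exact ⟨rfl, (h.it n).inj _ _ _ h1 h2⟩

omit [IsProbabilityMeasure μ] in
theorem PB.forth (h : PB T0 Γ) {n m : ℕ} {x a b : X} (h1 : (x, a) ∈ FG.it Γ n)
    (h2 : (x, b) ∈ FG.it Γ m) (ha : a ∉ Γ.dom) (hb : b ∉ Γ.dom) : a = b := by
  have h3 : ∀ {n m : ℕ} {a b : X}, (x, a) ∈ FG.it Γ n → (x, b) ∈ FG.it Γ m → a ∉ Γ.dom →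
      ¬n < m := fun {n m a b} h1 h2 ha h3 => by
    rw [show m = n + (1 + (m - n - 1)) by omega, it_add, it_add] at h2
    obtain ⟨c, h4, d, ⟨e, h5, h6⟩, -⟩ := h2
    obtain rfl : c = e := h5
    exact ha ⟨d, (h.it n).fn _ _ _ h4 h1 ▸ h6⟩
  obtain rfl : n = m := le_antisymm (not_lt.1 (h3 h2 h1 hb)) (not_lt.1 (h3 h1 h2 ha))
  exact (h.it n).fn _ _ _ h1 h2

theorem merge (h1 : PB T0 Γ) (h2 : PB T0 Δ) (i1 : Iv A B Γ) (i2 : Iv A B Δ) :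
    ∃ Θ, PB T0 Θ ∧ Iv A B Θ ∧ Γ ⊆ Θ ∧ μ Θ.domᶜ ≤ μ Δ.domᶜ := by
  have hQ := h2.comp h1.inv
  set Q := Δ ○ Γ.inv with hQd
  have q1 : ∀ x, x ∉ Γ.dom → x ∉ Q.cod := fun x hx ⟨_, y, _, h⟩ => hx ⟨y, h⟩
  have q2 : ∀ a y, (a, y) ∈ Δ → y ∉ Γ.cod → a ∉ Q.dom := fun a y h hy ⟨c, z, h3, h4⟩ =>
    hy ⟨c, h2.fn _ _ _ h3 h ▸ h4⟩
  refine ⟨Γ ∪ (⋃ n, it Q n ○ Δ) ∩ Γ.domᶜ ×ˢ Γ.codᶜ, ⟨h1.meas.union ((MeasurableSet.iUnion fun n =>
    ((hQ.it n).comp h2).meas).inter (h1.dom.compl.prod h1.cod.compl)), ?_, ?_, ?_⟩, fun x y => ?_,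
    subset_union_left, ?_⟩
  · rintro x y (h | ⟨⟨_, ⟨n, rfl⟩, h⟩, -⟩)
    exacts [h1.orb x y h, ((hQ.it n).comp h2).orb x y h]
  · rintro x y z (h | ⟨⟨_, ⟨n, rfl⟩, a, h, h3⟩, h4, h5⟩) (h' | ⟨⟨_, ⟨m, rfl⟩, b, h', h6⟩, h7, h8⟩)
    exacts [h1.fn _ _ _ h h', (h7 ⟨_, h⟩).elim, (h4 ⟨_, h'⟩).elim,
      h2.fn _ _ _ (hQ.forth h h' (q2 _ _ h3 h5) (q2 _ _ h6 h8) ▸ h3) h6]
  · rintro x y z (h | ⟨⟨_, ⟨n, rfl⟩, a, h, h3⟩, h4, h5⟩) (h' | ⟨⟨_, ⟨m, rfl⟩, b, h', h6⟩, h7, h8⟩)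
    exacts [h1.inj _ _ _ h h', (h8 ⟨_, h⟩).elim, (h5 ⟨_, h'⟩).elim,
      (hQ.back (h2.inj _ _ _ h3 h6 ▸ h) h' (q1 _ h4) (q1 _ h7)).2]
  · simp only [mem_union, mem_inter_iff, mem_iUnion, mem_prod, mem_compl_iff]
    exact or_congr (i1 x y) (and_congr (exists_congr fun n =>
      (((i2.comp i1.inv).it n).comp i2) x y) (and_congr (i1.dom x).not (i1.inv.dom y).not))
  have h3 : PB T0 ((⋃ n, it Q n) ∩ Γ.domᶜ ×ˢ Δ.domᶜ) := by
    refine ⟨(MeasurableSet.iUnion fun n => (hQ.it n).meas).inter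
      (h1.dom.compl.prod h2.dom.compl), ?_, ?_, ?_⟩
    · rintro x y ⟨⟨_, ⟨n, rfl⟩, h⟩, -⟩
      exact (hQ.it n).orb x y h
    · rintro x y z ⟨⟨_, ⟨n, rfl⟩, h⟩, -, h5⟩ ⟨⟨_, ⟨m, rfl⟩, h'⟩, -, h8⟩
      exact hQ.forth h h' (fun ⟨_, a, b, _⟩ => h5 ⟨a, b⟩) fun ⟨_, a, b, _⟩ => h8 ⟨a, b⟩
    · rintro x y z ⟨⟨_, ⟨n, rfl⟩, h⟩, h5, -⟩ ⟨⟨_, ⟨m, rfl⟩, h'⟩, h8, -⟩
      exact (hQ.back h h' (q1 _ h5) (q1 _ h8)).2
  let I := Γ.domᶜ ∩ ⋂ n, (it Q n).dom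
  have h4 : ∀ n, PB T0 (it Q n ∩ Prod.fst ⁻¹' I) := fun n => (hQ.it n).inter
    (measurable_fst (h1.dom.compl.inter (MeasurableSet.iInter fun n => (hQ.it n).dom)))
  have h5 : μ I = 0 := by
    by_contra h5
    have h6 := measure_iUnion (μ := μ) (f := fun n => SetRel.cod (it Q n ∩ Prod.fst ⁻¹' I))
      (fun n m h => disjoint_left.2 fun y ⟨a, h6, h7⟩ ⟨b, h8, h9⟩ =>
        h (hQ.back h6 h8 (q1 _ h7.1) (q1 _ h9.1)).1) fun n => (h4 n).cod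
    have h7 : ∀ n, SetRel.dom (it Q n ∩ Prod.fst ⁻¹' I) = I := fun n => Set.ext fun x =>
      ⟨fun ⟨_, h⟩ => h.2, fun h => (mem_iInter.1 h.2 n).imp fun _ h' => ⟨h', h⟩⟩
    simp only [(h4 _).eq, h7, ENNReal.tsum_const_eq_top_of_ne_zero h5] at h6
    exact measure_ne_top _ _ h6
  refine (measure_mono (t := SetRel.dom ((⋃ n, it Q n) ∩ Γ.domᶜ ×ˢ Δ.domᶜ) ∪ I) fun x hx => ?_).trans
    ((measure_union_le _ _).trans ?_)
  · by_contra h6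
    have h7 : x ∉ Γ.dom := fun ⟨y, h⟩ => hx ⟨y, Or.inl h⟩
    refine h6 (Or.inr ⟨h7, mem_iInter.2 fun n => ?_⟩)
    induction n with
    | zero => exact ⟨x, rfl⟩
    | succ n ih =>
      obtain ⟨a, ha⟩ := ih
      by_contra h8
      refine h6 (Or.inl ⟨a, mem_iUnion.2 ⟨n, ha⟩, h7, fun ⟨y, hy⟩ => ?_⟩)
      exact hx ⟨y, Or.inr ⟨mem_iUnion.2 ⟨n, a, ha, hy⟩, h7, fun ⟨c, hc⟩ => h8 ⟨c, a, ha, y, hy, hc⟩⟩⟩
  · rw [h5, add_zero, ← h3.eq]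
    exact measure_mono fun y ⟨_, h⟩ => h.2.2

theorem conj_of_pb {S T : Full T0}
    (h : ∀ ε : ℝ≥0∞, 0 < ε → ∃ Δ, PB T0 Δ ∧ Iv T.1 S.1 Δ ∧ μ Δ.domᶜ ≤ ε) :
    ∃ U : Full T0, edist (U * T) (S * U) = 0 := by
  choose Δ h1 h2 h3 using fun n : ℕ => h ((n : ℝ≥0∞)⁻¹) (by simp)
  choose! G g1 g2 g3 g4 using fun n Γ (a : PB T0 Γ ∧ Iv T.1 S.1 Γ) => merge a.1 (h1 n) a.2 (h2 n)
  let Γ : ℕ → SetRel X X := fun n => n.rec (Δ 0) G
  have h4 : ∀ n, PB T0 (Γ n) ∧ Iv T.1 S.1 (Γ n) := fun n => by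
    induction n with
    | zero => exact ⟨h1 0, h2 0⟩
    | succ n ih => exact ⟨g1 n _ ih, g2 n _ ih⟩
  have h5 : Monotone Γ := monotone_nat_of_le_succ fun n => g3 n _ (h4 n)
  have h6 : PB T0 (⋃ n, Γ n) := by
    refine ⟨MeasurableSet.iUnion fun n => (h4 n).1.meas, ?_, ?_, ?_⟩
    · rintro x y ⟨_, ⟨n, rfl⟩, h⟩
      exact (h4 n).1.orb x y h
    · rintro x y z ⟨_, ⟨n, rfl⟩, h⟩ ⟨_, ⟨m, rfl⟩, h'⟩
      exact (h4 (max n m)).1.fn _ _ _ (h5 (le_max_left _ _) h) (h5 (le_max_right _ _) h')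
    · rintro x y z ⟨_, ⟨n, rfl⟩, h⟩ ⟨_, ⟨m, rfl⟩, h'⟩
      exact (h4 (max n m)).1.inj _ _ _ (h5 (le_max_left _ _) h) (h5 (le_max_right _ _) h')
  have h7 : Iv T.1 S.1 (⋃ n, Γ n) := fun x y => by
    simp only [mem_iUnion]
    exact exists_congr fun n => (h4 n).2 x y
  have h8 : μ (SetRel.dom (⋃ n, Γ n))ᶜ = 0 := le_zero_iff.1 (ge_of_tendsto'
    ENNReal.tendsto_inv_nat_nhds_zero fun n => (measure_mono (compl_subset_compl.2
      (dom_mono (subset_iUnion Γ (n + 1))))).trans ((g4 n _ (h4 n)).trans (h3 n)))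
  obtain ⟨Θ, hΘ⟩ : ∃ Θ : SetRel X X, ⋃ n, Γ n = Θ := ⟨_, rfl⟩
  rw [hΘ] at h6 h7 h8
  have h9 : μ Θ.codᶜ = 0 := by
    rw [prob_compl_eq_zero_iff h6.cod, h6.eq, ← prob_compl_eq_zero_iff h6.dom, h8]
  let N := ⋃ n : ℤ, (T0.1 ^ n : Equiv.Perm X) ⁻¹' (Θ.domᶜ ∪ Θ.codᶜ)
  have n0 := h6.dom.compl.union h6.cod.compl
  have n1 : MeasurableSet N := MeasurableSet.iUnion fun n => (mp n).measurable n0
  have n2 : μ N = 0 := measure_iUnion_null fun n =>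
    ((mp n).measure_preimage n0.nullMeasurableSet).trans (measure_union_null h8 h9)
  have n3 : ∀ x y, (∃ n : ℤ, y = (T0.1 ^ n) x) → (x ∈ N ↔ y ∈ N) := by
    rintro x _ ⟨n, rfl⟩
    simp only [N, mem_iUnion, Set.mem_preimage, ← Equiv.Perm.mul_apply, ← zpow_add]
    exact ⟨fun ⟨m, h⟩ => ⟨m - n, by rwa [sub_add_cancel]⟩, fun ⟨m, h⟩ => ⟨_, h⟩⟩
  have n4 : ∀ x, x ∉ N → x ∈ Θ.dom ∧ x ∈ Θ.cod := fun x hx => by
    simpa using fun h => hx (mem_iUnion.2 ⟨0, h⟩)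
  have p1 : PB T0 (Θ ∩ Prod.fst ⁻¹' Nᶜ ∪ SetRel.id ∩ Prod.fst ⁻¹' N) := by
    refine ⟨(h6.meas.inter (measurable_fst n1.compl)).union
      ((pb_graph (T0 := T0) 1).meas.inter (measurable_fst n1)), ?_, ?_, ?_⟩
    · rintro x y (h | ⟨h, -⟩)
      exacts [h6.orb x y h.1, ⟨0, Eq.symm h⟩]
    · rintro x y z (h | h) (h' | h')
      exacts [h6.fn _ _ _ h.1 h'.1, (h.2 h'.2).elim, (h'.2 h.2).elim,
        Eq.trans (Eq.symm h.1) h'.1]
    · rintro x y z (h | ⟨h, a⟩) (h' | ⟨h', b⟩)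
      · exact h6.inj _ _ _ h.1 h'.1
      · obtain rfl : y = z := h'
        exact (h.2 ((n3 _ _ (h6.orb _ _ h.1)).2 b)).elim
      · obtain rfl : x = z := h
        exact (h'.2 ((n3 _ _ (h6.orb _ _ h'.1)).2 a)).elim
      · exact Eq.trans h (Eq.symm h')
  obtain ⟨f, f1, f2⟩ := p1.func fun x => by
    by_cases h : x ∈ N
    exacts [⟨x, Or.inr ⟨rfl, h⟩⟩, (n4 x h).1.imp fun _ h' => Or.inl ⟨h', h⟩]
  obtain ⟨g, g1, g2⟩ := p1.inv.func fun x => by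
    by_cases h : x ∈ N
    exacts [⟨x, Or.inr ⟨rfl, h⟩⟩, (n4 x h).2.imp fun _ h' =>
      Or.inl ⟨h', fun a => h ((n3 _ _ (h6.orb _ _ h')).1 a)⟩]
  refine ⟨⟨⟨f, g, fun x => p1.inj _ _ _ (g2 _) (f2 x), fun x => p1.fn _ _ _ (f2 _) (g2 x)⟩, f1, g1,
    fun x => p1.orb _ _ (f2 x)⟩, measure_mono_null (fun x hx => ?_) n2⟩
  by_contra h
  have f3 : ∀ x, x ∉ N → (x, f x) ∈ Θ := fun x hx => ((f2 x).resolve_right fun h => hx h.2).1
  exact hx (h6.fn _ _ _ (f3 _ fun a => h ((n3 _ _ (T.2.2.2 x)).2 a)) ((h7 _ _).1 (f3 x h)))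

theorem pb_of_orbit {S T V : Full T0} {ε : ℝ} (hε : 0 ≤ ε)
    (h : ∀ k : ℕ, edist ((S ^ k)⁻¹ * V * T ^ k) V ≤ ENNReal.ofReal ε) :
    ∃ Δ, PB T0 Δ ∧ Iv T.1 S.1 Δ ∧ μ Δ.domᶜ ≤ ENNReal.ofReal (4 * ε) := by
  classical
  let 𝒞 : ℕ → Set (X × X → ℝ) := fun i => {φ | Measurable φ ∧ (∀ p, 0 ≤ φ p ∧ φ p ≤ 1) ∧
    (∀ x y z, y ≠ z → φ (x, y) + φ (x, z) ≤ 1) ∧ (∀ x y z, x ≠ y → φ (x, z) + φ (y, z) ≤ 1) ∧
    (∀ x y, (¬∃ n : ℤ, y = (T0.1 ^ n) x) → φ (x, y) = 0) ∧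
    (∀ x y, |φ (T.1 x, S.1 y) - φ (x, y)| ≤ 1 / (i + 1)) ∧ ∫ x, 1 - φ (x, V.1 x) ∂μ ≤ ε}
  have c1 : ∀ i, ∀ φ ∈ 𝒞 i, Measurable (fun x => 1 - φ (x, V.1 x)) ∧
      ∀ x, ‖1 - φ (x, V.1 x)‖ ≤ 1 := fun i φ hφ =>
    ⟨(hφ.1.comp (measurable_id.prodMk V.2.1)).const_sub 1, fun x => abs_le.2
      ⟨by linarith [(hφ.2.1 (x, V.1 x)).2], by linarith [(hφ.2.1 (x, V.1 x)).1]⟩⟩
  have c2 : ∀ i, ∀ φ ∈ 𝒞 i, Integrable (fun x => 1 - φ (x, V.1 x)) μ := fun i φ hφ =>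
    Integrable.of_bound (c1 i φ hφ).1.aestronglyMeasurable 1 (ae_of_all _ (c1 i φ hφ).2)
  obtain ⟨f, h1, h2⟩ := komlos (μ := μ) (C := fun i => (fun φ x => 1 - φ (x, V.1 x)) '' 𝒞 i)
    (fun i j hij => Set.image_mono (by
      rintro φ ⟨a1, a2, a3, a4, a5, a6, a7⟩
      exact ⟨a1, a2, a3, a4, a5, fun x y => (a6 x y).trans (Nat.one_div_le_one_div hij), a7⟩)) (fun n => by
      let W : ℕ → Full T0 := fun k => (S ^ k)⁻¹ * V * T ^ k
      let u : ℕ → X × X → ℝ := fun k p => if (W k).1 p.1 = p.2 then 1 else 0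
      have u0 : ∀ k p, 0 ≤ u k p ∧ u k p ≤ 1 := fun k p => by
        simp only [u]; split_ifs <;> simp
      have u1 : ∀ k, Measurable (u k) := fun k =>
        Measurable.ite (pb_graph (W k)).meas measurable_const measurable_const
      have u2 : ∀ {a : ℕ → ℝ} {c : ℝ}, (∀ k, a k ≤ c) →
          (∑ k ∈ Finset.range (n + 1), a k) / (n + 1) ≤ c := fun {a c} ha => by
        rw [div_le_iff₀ (by positivity)]
        simpa [mul_comm] using Finset.sum_le_card_nsmul (Finset.range (n + 1)) a c fun k _ => ha k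
      refine ⟨_, fun p => (∑ k ∈ Finset.range (n + 1), u k p) / (n + 1), ⟨by fun_prop, fun p =>
        ⟨div_nonneg (Finset.sum_nonneg fun k _ => (u0 k p).1) (by positivity),
          u2 fun k => (u0 k p).2⟩, fun x y z hyz => ?_, fun x y z hxy => ?_, fun x y hxy => ?_,
          fun x y => ?_, ?_⟩, rfl⟩
      · rw [← add_div, ← Finset.sum_add_distrib]
        refine u2 fun k => ?_
        simp only [u]
        split_ifs with a b <;> first | exact (hyz (a.symm.trans b)).elim | simp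
      · rw [← add_div, ← Finset.sum_add_distrib]
        refine u2 fun k => ?_
        simp only [u]
        split_ifs with a b <;> first | exact (hxy ((W k).1.injective (a.trans b.symm))).elim | simp
      · refine div_eq_zero_iff.2 (Or.inl (Finset.sum_eq_zero fun k _ => if_neg fun a => hxy ?_))
        obtain ⟨m, hm⟩ := (W k).2.2.2 x
        exact ⟨m, a.symm.trans hm⟩
      · have u3 : ∀ k, u k (T.1 x, S.1 y) = u (k + 1) (x, y) := fun k => by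
          simp only [u, W, pow_succ, mul_assoc, Subgroup.coe_mul, Subgroup.coe_inv,
            Equiv.Perm.mul_apply, Equiv.Perm.inv_eq_iff_eq]
        simp only [u3]
        rw [← sub_div, ← Finset.sum_sub_distrib, Finset.sum_range_sub fun k => u k (x, y), abs_div,
          abs_of_pos (by positivity : (0 : ℝ) < n + 1)]
        gcongr
        exact abs_le.2 ⟨by linarith [u0 0 (x, y), u0 (n + 1) (x, y)],
          by linarith [u0 0 (x, y), u0 (n + 1) (x, y)]⟩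
      · have u3 : ∀ k x, 1 - u k (x, V.1 x) = {x | (W k).1 x ≠ V.1 x}.indicator 1 x := fun k x => by
          by_cases a : (W k).1 x = V.1 x <;> simp [u, a]
        have u4 : ∀ x, 1 - (∑ k ∈ Finset.range (n + 1), u k (x, V.1 x)) / (n + 1) =
            (∑ k ∈ Finset.range (n + 1), {x | (W k).1 x ≠ V.1 x}.indicator 1 x) / (n + 1) := by
          intro x
          simp only [← u3, Finset.sum_sub_distrib]
          simp [sub_div, div_self (by positivity : (n + 1 : ℝ) ≠ 0)]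
        simp only [u4]
        rw [integral_div, integral_finsetSum _ fun k _ =>
          (integrable_const 1).indicator (meas_ne _ _)]
        refine u2 fun k => ?_
        rw [integral_indicator_one (meas_ne _ _)]
        exact ENNReal.toReal_le_of_le_ofReal hε (h k)) (by
      rintro i _ ⟨φ, a, rfl⟩ _ ⟨ψ, b, rfl⟩
      have e1 := c2 i φ a
      have e2 := c2 i ψ b
      obtain ⟨a1, a2, a3, a4, a5, a6, a7⟩ := a
      obtain ⟨b1, b2, b3, b4, b5, b6, b7⟩ := b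
      have e3 : (fun x => 1 - (φ (x, V.1 x) + ψ (x, V.1 x)) / 2) =
        fun x => (1 - φ (x, V.1 x) + (1 - ψ (x, V.1 x))) / 2 := funext fun x => by ring
      refine ⟨fun p => (φ p + ψ p) / 2, ⟨by fun_prop, fun p => ⟨by linarith [a2 p, b2 p],
        by linarith [a2 p, b2 p]⟩, fun x y z h => by linarith [a3 x y z h, b3 x y z h],
        fun x y z h => by linarith [a4 x y z h, b4 x y z h], fun x y h => by
          simp [a5 x y h, b5 x y h], fun x y => ?_, ?_⟩, e3⟩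
      · have := abs_le.1 (a6 x y)
        have := abs_le.1 (b6 x y)
        exact abs_le.2 ⟨by linarith, by linarith⟩
      · simp only [e3]
        rw [integral_div, integral_add e1 e2]
        linarith) (by
      rintro i _ ⟨φ, a, rfl⟩
      exact c1 i φ a)
  choose φ h3 h4 using h1
  have h5 : ∀ p q : X × X, (∀ i, φ i p + φ i q ≤ 1) →
      (∃ r : ℚ, 1 / 2 < (r : ℝ) ∧ ∀ᶠ i in atTop, (r : ℝ) ≤ φ i p) →
      ¬∃ r : ℚ, 1 / 2 < (r : ℝ) ∧ ∀ᶠ i in atTop, (r : ℝ) ≤ φ i q := fun p q h ⟨r, a, b⟩ ⟨s, c, d⟩ => by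
    obtain ⟨i, e1, e2⟩ := (b.and d).exists
    linarith [h i]
  have h6 : ∀ p q : X × X, (∀ i : ℕ, φ i p - φ i q ≤ 1 / (i + 1)) →
      (∃ r : ℚ, 1 / 2 < (r : ℝ) ∧ ∀ᶠ i in atTop, (r : ℝ) ≤ φ i p) →
      ∃ r : ℚ, 1 / 2 < (r : ℝ) ∧ ∀ᶠ i in atTop, (r : ℝ) ≤ φ i q := fun p q h ⟨r, a, b⟩ => by
    obtain ⟨s, c, d⟩ := exists_rat_btwn a
    refine ⟨s, c, ?_⟩
    filter_upwards [b, tendsto_one_div_add_atTop_nhds_zero_nat.eventually
      (ge_mem_nhds (sub_pos.2 d))] with i e1 e2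
    linarith [h i]
  refine ⟨{p | ∃ r : ℚ, 1 / 2 < (r : ℝ) ∧ ∀ᶠ i in atTop, (r : ℝ) ≤ φ i p}, ⟨?_, fun x y a => ?_,
    fun x y z a b => by_contra fun c => h5 _ _ (fun i => (h3 i).2.2.1 x y z c) a b,
    fun x y z a b => by_contra fun c => h5 _ _ (fun i => (h3 i).2.2.2.1 x y z c) a b⟩, fun x y =>
    ⟨h6 _ _ fun i => by linarith [(abs_le.1 ((h3 i).2.2.2.2.2.1 x y)).1],
      h6 _ _ fun i => (abs_le.1 ((h3 i).2.2.2.2.2.1 x y)).2⟩, ?_⟩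
  · simp only [eventually_atTop, ofPred_exists, ofPred_and, ofPred_forall]
    exact MeasurableSet.iUnion fun r => (MeasurableSet.const _).inter
      (MeasurableSet.iUnion fun N => MeasurableSet.iInter fun i => MeasurableSet.iInter fun _ =>
        measurableSet_le measurable_const (h3 i).1)
  · by_contra b
    obtain ⟨r, c, d⟩ := a
    obtain ⟨i, hi⟩ := d.exists
    rw [(h3 i).2.2.2.2.1 x y b] at hi
    linarith
  · refine (measure_mono_ae (t := ⋃ N, ⋂ i ≥ N, {x | 1 / 4 ≤ f i x}) ?_).trans ?_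
    · filter_upwards [h2] with x ⟨c, hc⟩ hx
      have h7 : 1 / 4 < c := by
        by_contra h7
        refine hx ⟨V.1 x, 3 / 5, by norm_num, ?_⟩
        filter_upwards [hc.eventually (ge_mem_nhds (show c < 2 / 5 by linarith))] with i hi
        rw [← h4 i] at hi
        push_cast
        linarith
      obtain ⟨N, hN⟩ := eventually_atTop.1 (hc.eventually (le_mem_nhds h7))
      exact mem_iUnion.2 ⟨N, mem_iInter₂.2 hN⟩
    · rw [Monotone.measure_iUnion fun a b hab => biInter_subset_biInter_left fun i hi =>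
        hab.trans hi]
      refine iSup_le fun N => (measure_mono (biInter_subset_of_mem (le_refl N))).trans ?_
      have h7 := mul_meas_ge_le_integral_of_nonneg (μ := μ) (f := f N) (ae_of_all _ fun x => by
        rw [← h4 N]
        exact sub_nonneg.2 ((h3 N).2.1 _).2) (h4 N ▸ c2 N _ (h3 N)) (1 / 4)
      have h8 : ∫ x, f N x ∂μ ≤ ε := h4 N ▸ (h3 N).2.2.2.2.2.2
      rw [← ofReal_measureReal]
      exact ENNReal.ofReal_le_ofReal (by linarith)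

/-- Conjugacy in the full group follows from approximate conjugacy of all powers. -/
theorem conj_of_orbit {S T : Full T0} (h : ∀ ε : ℝ≥0∞, 0 < ε →
    ∃ V : Full T0, ∀ k : ℕ, edist ((S ^ k)⁻¹ * V * T ^ k) V ≤ ε) :
    ∃ U : Full T0, edist (U * T) (S * U) = 0 := conj_of_pb fun ε hε => by
  obtain ⟨r, h1, h2⟩ := ENNReal.lt_iff_exists_nnreal_btwn.1 hε
  have h3 : (0 : ℝ) < r / 4 := by have : (0 : ℝ) < r := by exact_mod_cast h1
                                  positivity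
  obtain ⟨V, hV⟩ := h _ (ENNReal.ofReal_pos.2 h3)
  obtain ⟨Δ, a, b, c⟩ := pb_of_orbit h3.le hV
  exact ⟨Δ, a, b, c.trans (by rw [mul_div_cancel₀ _ (by norm_num)]; simpa using h2.le)⟩

theorem sep : TopologicalSpace.SeparableSpace (FullGroup T0) :=
  have := second (T0 := T0)
  SeparationQuotient.surjective_mk.denseRange.separableSpace SeparationQuotient.continuous_mk

open SeparationQuotient in
theorem conj_of {s t : FullGroup T0} (h : ∀ ε : ℝ≥0∞, 0 < ε →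
    ∃ v, ∀ k : ℕ, edist ((s ^ k)⁻¹ * v * t ^ k) v ≤ ε) : IsConj t s := by
  obtain ⟨S, rfl⟩ := surjective_mk s
  obtain ⟨T, rfl⟩ := surjective_mk t
  obtain ⟨U, hU⟩ := conj_of_orbit (S := S) (T := T) fun ε hε => by
    obtain ⟨v, hv⟩ := h ε hε
    obtain ⟨W, rfl⟩ := surjective_mk v
    exact ⟨W, fun k => by simpa only [← mk_pow, ← mk_inv, ← mk_mul, edist_mk] using hv k⟩
  refine isConj_iff.2 ⟨mk U, mul_inv_eq_iff_eq_mul.2 ?_⟩
  rw [← mk_mul, ← mk_mul, ← edist_eq_zero, edist_mk, hU]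

open SeparationQuotient in
/-- Conjugacy in the full group described with a dense sequence. -/
theorem conj_iff {V : ℕ → FullGroup T0} (hV : DenseRange V) (s t : FullGroup T0) :
    IsConj t s ↔ ∀ n : ℕ, ∃ m, ∀ k : ℕ,
      edist ((s ^ k)⁻¹ * V m * t ^ k) (V m) ≤ (n : ℝ≥0∞)⁻¹ := by
  constructor
  · intro h n
    obtain ⟨u, rfl⟩ := isConj_iff.1 h
    obtain ⟨_, ⟨m, rfl⟩, hm⟩ := EMetric.mem_closure_iff.1 (hV u) ((n : ℝ≥0∞)⁻¹ / 2)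
      (ENNReal.div_pos (by simp) (by simp))
    refine ⟨m, fun k => (edist_triangle _ u _).trans ?_⟩
    have h1 : ∀ a b c d : FullGroup T0, edist (a * b * c) (a * d * c) = edist b d := by
      simp only [surjective_mk.forall, ← mk_mul, edist_mk, edist_right, edist_left, implies_true]
    have h2 := h1 ((u * t * u⁻¹) ^ k)⁻¹ (V m) (t ^ k) u
    rw [show ((u * t * u⁻¹) ^ k)⁻¹ * u * t ^ k = u by rw [conj_pow]; group] at h2
    rw [h2, edist_comm, ← ENNReal.add_halves (n : ℝ≥0∞)⁻¹]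
    exact add_le_add hm.le hm.le
  · refine fun h => conj_of fun ε hε => ?_
    obtain ⟨n, hn⟩ := ENNReal.exists_inv_nat_lt hε.ne'
    obtain ⟨m, hm⟩ := h n
    exact ⟨_, fun k => (hm k).trans hn.le⟩

end Pool.Agent.H39.FG
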