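import Mathlib
import Pool.Agent.H39.FG2
import Pool.Agent.H39.BaireLoc

set_option autoImplicit false

namespace Pool.Agent.H39.FG

open Set Filter Topology MeasureTheory Pool.Agent.H39.BaireLoc TopologicalSpace
open scoped ENNReal

theorem cont_residual {Ω Z : Type} [TopologicalSpace Ω] [MeasurableSpace Ω] [BorelSpace Ω]
    [TopologicalSpace Z] [SecondCountableTopology Z] {F : Ω → Z}
    (hF : ∀ U, IsOpen U → MeasurableSet (F ⁻¹' U)) : ∃ C ∈ residual Ω, ContinuousOn F C := by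
  choose! O h1 h2 using fun U hU => (hF U hU).residualEq_isOpen
  refine ⟨⋂ U ∈ countableBasis Z, {x | (F ⁻¹' U) x = O U x},
    (countable_bInter_mem (countable_countableBasis Z)).2 fun U hU =>
      h2 U (isOpen_of_mem_countableBasis hU), (isBasis_countableBasis Z).continuousOn_iff.2
      fun U hU => ⟨O U, h1 U (isOpen_of_mem_countableBasis hU), Set.ext fun x =>
        and_congr_left fun hx => Iff.of_eq (mem_iInter₂.1 hx U hU)⟩⟩

section
variable {P : Type} [TopologicalSpace P] [DiscreteTopology P]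

theorem res_hit (m l : ℕ) {g : (ℕ → ℕ → P) → P} (hg : Continuous g) :
    {u : ℕ → ℕ → P | ∃ j, l ≤ j ∧ u m j = g u} ∈ residual (ℕ → ℕ → P) := by
  refine residual_of_dense_open ?_ fun u => ?_
  · simp only [ofPred_exists, ofPred_and]
    exact isOpen_iUnion fun j => isOpen_const.inter ((isOpen_discrete {p : P × P | p.1 = p.2}).preimage
      (f := fun u : ℕ → ℕ → P => (u m j, g u)) (by fun_prop))
  · have h : Tendsto (fun j => Function.update u m (Function.update (u m) j (g u))) atTop (𝓝 u) := by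
      refine tendsto_pi_nhds.2 fun n => tendsto_pi_nhds.2 fun i => tendsto_const_nhds.congr' ?_
      filter_upwards [eventually_gt_atTop i] with j hj
      by_cases h : n = m
      · simp [h, hj.ne]
      · simp [h]
    refine mem_closure_of_tendsto h ?_
    filter_upwards [eventually_ge_atTop l, ((hg.tendsto u).comp h).eventually
      (p := fun a => a = g u) (by simp)] with j h1 h2
    exact ⟨j, h1, by simpa using h2.symm⟩

theorem res_rows {C : Set (ℕ → P)} (hC : C ∈ residual (ℕ → P)) (w : ℕ → P) (l : ℕ → ℕ) (a : P) :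
    {u : ℕ → ℕ → P | ∀ n, ovw w (l n) (u n) ∈ C ∧ a ∈ range (ovw w (l n) (u n)) ∧
      ∀ m, range (ovw w (l n) (u n)) = range (ovw w (l m) (u m))} ∈ residual (ℕ → ℕ → P) := by
  have h1 : ∀ᶠ u : ℕ → ℕ → P in residual _, ∀ n, ovw w (l n) (u n) ∈ C :=
    eventually_countable_forall.2 fun n => (tendsto_residual_of_isOpenMap
      (continuous_apply (A := fun _ : ℕ => ℕ → P) n) (isOpenMap_eval n)).eventually
        (residual_over w (l n) hC)
  have h2 : ∀ᶠ u : ℕ → ℕ → P in residual _, ∀ n, ∃ j, l n ≤ j ∧ u n j = a :=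
    eventually_countable_forall.2 fun n => res_hit n (l n) continuous_const
  have h3 : ∀ᶠ u : ℕ → ℕ → P in residual _, ∀ n m i, ∃ j, l m ≤ j ∧ u m j = ovw w (l n) (u n) i :=
    eventually_countable_forall.2 fun n => eventually_countable_forall.2 fun m =>
      eventually_countable_forall.2 fun i => res_hit m (l m) ((continuous_apply i).comp
        ((continuous_over w (l n)).comp (continuous_apply n)))
  filter_upwards [h1, h2, h3] with u h1 h2 h3 n
  have h4 : ∀ {m b}, (∃ j, l m ≤ j ∧ u m j = b) → b ∈ range (ovw w (l m) (u m)) :=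
    fun ⟨j, h, h'⟩ => ⟨j, (if_neg h.not_gt).trans h'⟩
  exact ⟨h1 n, h4 (h2 n), fun m => (range_subset_iff.2 fun i => h4 (h3 n m i)).antisymm
    (range_subset_iff.2 fun i => h4 (h3 m n i))⟩

variable {X : Type} [MeasurableSpace X] {μ : Measure X} [IsProbabilityMeasure μ]
  [StandardBorelSpace X] {T0 : Aut μ}

open SeparationQuotient in
omit [IsProbabilityMeasure μ] in
theorem edist_both (a b c d : FullGroup T0) : edist (a * b * c) (a * d * c) = edist b d := by
  revert a b c d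
  simp only [surjective_mk.forall, ← mk_mul, edist_mk, edist_right, edist_left, implies_true]

theorem no_red [Nonempty P] {F : (ℕ → P) → FullGroup T0} {C : Set (ℕ → P)}
    (hC : C ∈ residual (ℕ → P)) (hF : ContinuousOn F C)
    (h1 : ∀ x ∈ C, ∀ y ∈ C, range x = range y → IsConj (F x) (F y))
    (h2 : ∀ x ∈ C, ∃ a, ∀ y ∈ C, a ∈ range y → ¬IsConj (F y) (F x)) : False := by
  have := sep (T0 := T0)
  obtain ⟨V, hV⟩ := exists_dense_seq (FullGroup T0)
  have h3 : ∀ n : ℕ, {w | ∃ O ∈ 𝓝 w, ∀ y ∈ O ∩ C, ∀ z ∈ O ∩ C, ∀ k : ℕ,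
      edist (F y ^ k)⁻¹ (F z ^ k)⁻¹ ≤ (n : ℝ≥0∞)⁻¹ + (n : ℝ≥0∞)⁻¹} ∈ residual (ℕ → P) := by
    intro n
    refine residual_of_dense_open (isOpen_iff_mem_nhds.2 fun w ⟨O, a, b⟩ =>
      (eventually_mem_nhds_iff.2 a).mono fun _ h => ⟨O, h, b⟩) (dense_iff_inter_open.2
        fun W hW ⟨w, hw⟩ => ?_)
    let K : ℕ → Set (FullGroup T0 × FullGroup T0) := fun m =>
      ⋂ k : ℕ, {p | edist ((p.2 ^ k)⁻¹ * V m * p.1 ^ k) (V m) ≤ (n : ℝ≥0∞)⁻¹}
    have k1 : ∀ m, IsClosed (K m) := fun m =>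
      isClosed_iInter fun k => isClosed_le (by fun_prop) continuous_const
    let A : ℕ → Set (ℕ → ℕ → P) := fun m =>
      {u | (u 0 ∈ C ∧ u 1 ∈ C) ∧ u 1 ∈ W ∧ (F (u 0), F (u 1)) ∈ K m}
    obtain ⟨m, hm⟩ : ∃ m, ¬IsNowhereDense (A m) := by
      by_contra h
      push Not at h
      refine not_isMeagre_of_isOpen (hW.preimage (continuous_apply (A := fun _ : ℕ => ℕ → P) 1))
        ⟨fun _ => w, hw⟩ ?_
      filter_upwards [isMeagre_iUnion fun m => (h m).isMeagre, res_rows hC w (fun _ => 0) (w 0)]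
        with u a b c
      obtain ⟨m, hm⟩ := (conj_iff hV _ _).1 (h1 _ (b 0).1 _ (b 1).1 ((b 0).2.2 1)) n
      exact a (mem_iUnion.2 ⟨m, ⟨(b 0).1, (b 1).1⟩, c, mem_iInter.2 hm⟩)
    obtain ⟨u', hu'⟩ := nonempty_iff_ne_empty.2 hm
    obtain ⟨u, a1, a2⟩ := mem_closure_iff.1 (interior_subset hu') _ isOpen_interior hu'
    have a3 : Continuous fun y => Function.update u 1 y := by fun_prop
    have a4 : ∀ y ∈ (fun y => Function.update u 1 y) ⁻¹' interior (closure (A m)) ∩ C,
        (F (u 0), F y) ∈ K m := fun y hy => by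
      have a4 : ContinuousOn (fun u : ℕ → ℕ → P => (F (u 0), F (u 1))) {u | u 0 ∈ C ∧ u 1 ∈ C} :=
        (hF.comp (continuous_apply 0).continuousOn fun _ h => h.1).prodMk
          (hF.comp (continuous_apply 1).continuousOn fun _ h => h.2)
      simpa using (k1 m).closure_subset (((a4 (Function.update u 1 y)
        ⟨by simpa using a2.1.1, by simpa using hy.2⟩).mono fun _ h => h.1).mem_closure
          (interior_subset hy.1) fun _ h => h.2.2)
    refine ⟨u 1, a2.2.1, _, (isOpen_interior.preimage a3).mem_nhds (by simpa using a1),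
      fun y hy z hz k => ?_⟩
    rw [← edist_both 1 _ (V m * F (u 0) ^ k), one_mul, one_mul, ← mul_assoc, ← mul_assoc]
    exact (edist_triangle_right _ _ _).trans
      (add_le_add (mem_iInter.1 (a4 y hy) k) (mem_iInter.1 (a4 z hz) k))
  obtain ⟨w, hw, h4⟩ := (dense_of_mem_residual
    (inter_mem hC (countable_iInter_mem.2 h3))).nonempty
  choose O h4 h5 using mem_iInter.1 h4
  choose l hl using fun n => exists_cyl (h4 n)
  obtain ⟨a, ha⟩ := h2 w hw
  obtain ⟨u, hu⟩ := (dense_of_mem_residual (res_rows hC w l a)).nonempty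
  refine ha _ (hu 0).1 (hu 0).2.1 (conj_of fun ε hε => ?_)
  obtain ⟨n, hn⟩ := ENNReal.exists_inv_nat_lt (ENNReal.half_pos hε.ne').ne'
  obtain ⟨v, hv⟩ := isConj_iff.1 (h1 _ (hu 0).1 _ (hu n).1 ((hu 0).2.2 n))
  refine ⟨v, fun k => ?_⟩
  have h6 := h5 n w ⟨mem_of_mem_nhds (h4 n), hw⟩ (ovw w (l n) (u n))
    ⟨hl n _ fun i hi => if_pos hi, (hu n).1⟩ k
  rw [← edist_both 1 _ (v * F (ovw w (l 0) (u 0)) ^ k), ← hv, conj_pow] at h6
  simp only [one_mul, mul_inv_rev, inv_inv, mul_assoc, inv_mul_cancel_left, inv_mul_cancel,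
    mul_one] at h6
  rw [mul_assoc, ← ENNReal.add_halves ε]
  exact h6.trans (add_le_add hn.le hn.le)

end

end Pool.Agent.H39.FG
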