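import Mathlib
import Pool.Agent.H39.FG3

set_option autoImplicit false

namespace Pool.Agent.H39.FG

open Set Filter Topology MeasureTheory ProbabilityTheory
open scoped ENNReal

theorem pit (ν : Measure ℝ) [IsProbabilityMeasure ν] [NullSingletonClass ν] :
    MeasurePreserving (cdf ν) ν (volume.restrict (Icc 0 1)) := by
  have h1 : Continuous (cdf ν) := continuous_iff_continuousAt.2 fun x => by
    have h := (cdf ν).measure_singleton x
    rw [measure_cdf, measure_singleton, eq_comm, ENNReal.ofReal_eq_zero, sub_nonpos] at h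
    rw [(monotone_cdf ν).continuousAt_iff_leftLim_eq_rightLim, (cdf ν).rightLim_eq]
    exact ((monotone_cdf ν).leftLim_le le_rfl).antisymm h
  have := Measure.isProbabilityMeasure_map (μ := ν) h1.aemeasurable
  refine ⟨h1.measurable, Measure.ext_of_Iic _ _ fun s => ?_⟩
  rw [Measure.map_apply h1.measurable measurableSet_Iic, Measure.restrict_apply measurableSet_Iic]
  by_cases h2 : 1 ≤ s
  · rw [eq_univ_of_forall (s := cdf ν ⁻¹' Iic s) fun x => (cdf_le_one ν x).trans h2,
      inter_eq_right.2 fun x hx => hx.2.trans h2]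
    simp
  rw [show Iic s ∩ Icc 0 1 = Icc 0 s from Set.ext fun x => ⟨fun h => ⟨h.2.1, h.1⟩,
    fun h => ⟨h.2, h.1, h.2.trans (not_le.1 h2).le⟩⟩, Real.volume_Icc, sub_zero]
  rcases (cdf ν ⁻¹' Iic s).eq_empty_or_nonempty with h3 | h3
  · rw [h3, measure_empty, eq_comm, ENNReal.ofReal_eq_zero]
    exact ge_of_tendsto' (tendsto_cdf_atBot ν) fun x => (not_le.1 fun h => h3.subset h).le
  obtain ⟨b, hb⟩ := eventually_atTop.1 ((tendsto_cdf_atTop ν).eventually
    (lt_mem_nhds (not_le.1 h2)))
  have h4 : BddAbove (cdf ν ⁻¹' Iic s) := ⟨b, fun x hx => not_lt.1 fun h => (hb x h.le).not_ge hx⟩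
  have h5 := (isClosed_Iic.preimage h1).csSup_mem h3 h4
  set c := sSup (cdf ν ⁻¹' Iic s) with hc
  have h6 : cdf ν ⁻¹' Iic s = Iic c := Set.ext fun x =>
    ⟨fun h => le_csSup h4 h, fun h => (monotone_cdf ν h).trans h5⟩
  rw [h6, ← ofReal_cdf]
  refine congrArg _ (le_antisymm h5 (ge_of_tendsto (x := 𝓝[>] c)
    (h1.continuousAt.tendsto.mono_left nhdsWithin_le_nhds) ?_))
  filter_upwards [self_mem_nhdsWithin] with x hx
  exact (not_le.1 fun h => (mem_Iic.1 (h6.subset h)).not_gt hx).le

variable {X Y : Type} [MeasurableSpace X] [MeasurableSpace Y]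

/-- Inverse isomorphisms modulo null sets. -/
structure AeIso (μ : Measure X) (ν : Measure Y) (φ : X → Y) (ψ : Y → X) : Prop where
  m1 : MeasurePreserving φ μ ν
  m2 : MeasurePreserving ψ ν μ
  e1 : ∀ᵐ x ∂μ, ψ (φ x) = x
  e2 : ∀ᵐ y ∂ν, φ (ψ y) = y

theorem iso_unit [StandardBorelSpace X] (μ : Measure X) [IsProbabilityMeasure μ]
    [NullSingletonClass μ] : ∃ φ ψ, AeIso μ (volume.restrict (Icc (0 : ℝ) 1)) φ ψ := by
  have hb := measurableEmbedding_embeddingReal X
  have := Measure.isProbabilityMeasure_map (μ := μ) hb.measurable.aemeasurable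
  have : NullSingletonClass (μ.map (embeddingReal X)) := ⟨fun r => by
    rw [hb.map_apply]
    exact (subsingleton_singleton.preimage hb.injective).measure_zero μ⟩
  have h1 := (pit (μ.map (embeddingReal X))).comp ⟨hb.measurable, rfl⟩
  set F := cdf (μ.map (embeddingReal X)) with hF
  let N := (F ∘ embeddingReal X) ⁻¹' range fun q : ℚ => F q
  have h2 : MeasurableSet N := h1.measurable (countable_range _).measurableSet
  have h3 : μ N = 0 := (h1.measure_preimage (countable_range _).measurableSet.nullMeasurableSet).trans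
    ((countable_range _).measure_zero _)
  have h4 : ∀ x y, x ∉ N → F (embeddingReal X x) = F y → ¬embeddingReal X x < y :=
    fun x y hx h h' => by
      obtain ⟨q, a, b⟩ := exists_rat_btwn h'
      exact hx ⟨q, ((monotone_cdf _ b.le).trans h.ge).antisymm (monotone_cdf _ a.le)⟩
  have := h2.compl.standardBorel
  have h5 : MeasurableEmbedding fun x : ↥Nᶜ => F (embeddingReal X x) :=
    (h1.measurable.comp measurable_subtype_coe).measurableEmbedding fun x y h => Subtype.ext
      (hb.injective (le_antisymm (not_lt.1 (h4 _ _ y.2 h.symm)) (not_lt.1 (h4 _ _ x.2 h))))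
  have := μ.nonempty_of_neZero
  let ψ : ℝ → X := Function.extend (fun x : ↥Nᶜ => F (embeddingReal X x)) (↑)
    fun _ => Classical.arbitrary X
  have h6 : Measurable ψ := h5.measurable_extend measurable_subtype_coe measurable_const
  have h7 : ∀ᵐ x ∂μ, ψ (F (embeddingReal X x)) = x := measure_mono_null
    (fun x hx => by_contra fun h => hx (h5.injective.extend_apply _ _ ⟨x, h⟩)) h3
  refine ⟨_, ψ, h1, ⟨h6, ?_⟩, h7, ?_⟩
  · rw [← h1.map_eq, Measure.map_map h6 h1.measurable]
    exact (Measure.map_congr h7).trans Measure.map_id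
  · rw [← h1.map_eq]
    exact (ae_map_iff h1.measurable.aemeasurable
      (measurableSet_eq_fun (h1.measurable.comp h6) measurable_id)).2
      (h7.mono fun x hx => by simp only [Function.comp, hx, id])

variable {μ : Measure X} {ν : Measure Y} {φ : X → Y} {ψ : Y → X}

theorem iso_any [StandardBorelSpace X] [StandardBorelSpace Y] (μ : Measure X) (ν : Measure Y)
    [IsProbabilityMeasure μ] [NullSingletonClass μ] [IsProbabilityMeasure ν]
    [NullSingletonClass ν] : ∃ φ ψ, AeIso μ ν φ ψ := by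
  obtain ⟨a, b, h⟩ := iso_unit μ
  obtain ⟨c, d, h'⟩ := iso_unit ν
  refine ⟨d ∘ a, b ∘ c, h'.m2.comp h.m1, h.m2.comp h'.m1, ?_, ?_⟩
  · filter_upwards [h.e1, h.m1.quasiMeasurePreserving.ae h'.e2] with x h1 h2
    simp only [Function.comp, h1, h2]
  · filter_upwards [h'.e1, h'.m1.quasiMeasurePreserving.ae h.e2] with x h1 h2
    simp only [Function.comp, h1, h2]

theorem genuine [StandardBorelSpace X] {f g : X → X} (h : AeIso μ μ f g) :
    ∃ T : Aut μ, ∀ᵐ x ∂μ, T.1 x = f x := by
  classical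
  let A := {x | g (f x) = x ∧ f (g x) = x}
  have h1 : MeasurableSet A := (measurableSet_eq_fun (h.m2.comp h.m1).measurable measurable_id).inter
    (measurableSet_eq_fun (h.m1.comp h.m2).measurable measurable_id)
  let G := {x | ∀ n, f^[n] x ∈ A ∧ g^[n] x ∈ A}
  have h2 : MeasurableSet G := by
    simp only [G, ofPred_forall]
    exact MeasurableSet.iInter fun n =>
      ((h.m1.iterate n).measurable h1).inter ((h.m2.iterate n).measurable h1)
  have h3 : ∀ᵐ x ∂μ, x ∈ G := ae_all_iff.2 fun n =>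
    ((h.m1.iterate n).quasiMeasurePreserving.ae (h.e1.and h.e2)).and
      ((h.m2.iterate n).quasiMeasurePreserving.ae (h.e1.and h.e2))
  have h0 : ∀ x ∈ G, g (f x) = x ∧ f (g x) = x := fun x hx => (hx 0).1
  have h4 : ∀ x ∈ G, f x ∈ G := fun x hx n => ⟨(hx (n + 1)).1, by
    cases n with
    | zero => exact (hx 1).1
    | succ n => rw [Function.iterate_succ_apply, (h0 x hx).1]; exact (hx n).2⟩
  have h5 : ∀ x ∈ G, g x ∈ G := fun x hx n => ⟨by
    cases n with
    | zero => exact (hx 1).2
    | succ n => rw [Function.iterate_succ_apply, (h0 x hx).2]; exact (hx n).1, (hx (n + 1)).2⟩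
  have h6 : G.piecewise f id =ᵐ[μ] f := h3.mono fun x hx => piecewise_eq_of_mem _ _ _ hx
  have h7 : G.piecewise g id =ᵐ[μ] g := h3.mono fun x hx => piecewise_eq_of_mem _ _ _ hx
  refine ⟨⟨⟨G.piecewise f id, G.piecewise g id, fun x => ?_, fun x => ?_⟩,
    h.m1.congr (h.m1.measurable.piecewise h2 measurable_id) h6.symm,
    h.m2.congr (h.m2.measurable.piecewise h2 measurable_id) h7.symm⟩, h6⟩
  · by_cases hx : x ∈ G
    · rw [piecewise_eq_of_mem _ _ _ hx, piecewise_eq_of_mem _ _ _ (h4 x hx), (h0 x hx).1]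
    · simp [hx]
  · by_cases hx : x ∈ G
    · rw [piecewise_eq_of_mem _ _ _ hx, piecewise_eq_of_mem _ _ _ (h5 x hx), (h0 x hx).2]
    · simp [hx]

theorem AeIso.lift [StandardBorelSpace X] (h : AeIso μ ν φ ψ) (R : Aut ν) :
    ∃ T : Aut μ, ∀ᵐ x ∂μ, φ (T.1 x) = R.1 (φ x) := by
  obtain ⟨T, hT⟩ := genuine (μ := μ) (f := ψ ∘ R.1 ∘ φ) (g := ψ ∘ R.1.symm ∘ φ)
    ⟨h.m2.comp (R.2.1.comp h.m1), h.m2.comp (R.2.2.comp h.m1), by
      filter_upwards [h.e1, (R.2.1.comp h.m1).quasiMeasurePreserving.ae h.e2] with x a b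
      simp only [Function.comp] at b ⊢
      rw [b, Equiv.symm_apply_apply, a], by
      filter_upwards [h.e1, (R.2.2.comp h.m1).quasiMeasurePreserving.ae h.e2] with x a b
      simp only [Function.comp] at b ⊢
      rw [b, Equiv.apply_symm_apply, a]⟩
  refine ⟨T, ?_⟩
  filter_upwards [hT, (R.2.1.comp h.m1).quasiMeasurePreserving.ae h.e2] with x a b
  rw [a]
  exact b

theorem AeIso.pre (h : AeIso μ ν φ ψ) {T : X → X} {R : Y → Y} (hT : MeasurePreserving T μ μ)
    (h1 : ∀ᵐ x ∂μ, φ (T x) = R (φ x)) (A : Set X) : T ⁻¹' A =ᵐ[μ] φ ⁻¹' (R ⁻¹' (ψ ⁻¹' A)) := by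
  filter_upwards [h1, hT.quasiMeasurePreserving.ae h.e1] with x a b
  change (T x ∈ A) = (ψ (R (φ x)) ∈ A)
  rw [← a, b]

theorem AeIso.ergodic (h : AeIso μ ν φ ψ) {T : X → X} {R : Y → Y} (hT : MeasurePreserving T μ μ)
    (h1 : ∀ᵐ x ∂μ, φ (T x) = R (φ x)) (hR : Ergodic R ν) : Ergodic T μ := by
  refine ⟨hT, ⟨fun s hs h2 => ?_⟩⟩
  have h3 := h.pre hT h1 s
  rw [h2] at h3
  rw [← h.m2.aeconst_preimage hs.nullMeasurableSet]
  refine hR.quasiErgodic.aeconst_set₀ (h.m2.measurable hs).nullMeasurableSet ?_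
  filter_upwards [h.m2.quasiMeasurePreserving.ae h3, h.e2] with y a b
  change (ψ y ∈ s) = (ψ (R (φ (ψ y))) ∈ s) at a
  rw [b] at a
  exact a.symm

/-- Eigenvalues. -/
def Eig (μ : Measure X) (T : X → X) (c : ℂ) : Prop :=
  ∃ f : X → ℂ, Measurable f ∧ (∀ x, ‖f x‖ = 1) ∧ ∀ᵐ x ∂μ, f (T x) = c * f x

theorem eig_countable [StandardBorelSpace X] [IsProbabilityMeasure μ] {T : X → X}
    (hT : MeasurePreserving T μ μ) : {c | ‖c‖ = 1 ∧ Eig μ T c}.Countable := by
  choose! f h1 h2 h3 using fun c (hc : c ∈ {c | ‖c‖ = 1 ∧ Eig μ T c}) => hc.2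
  have h4 : ∀ c : {c | ‖c‖ = 1 ∧ Eig μ T c}, MemLp (f c) 2 μ := fun c =>
    MemLp.of_bound (h1 _ c.2).aestronglyMeasurable 1 (ae_of_all _ fun x => (h2 _ c.2 x).le)
  have h5 : ∀ c d : {c | ‖c‖ = 1 ∧ Eig μ T c}, inner ℂ ((h4 c).toLp _) ((h4 d).toLp _) =
      ∫ x, f d x * starRingEnd ℂ (f c x) ∂μ := fun c d => by
    rw [L2.inner_def]
    refine integral_congr_ae ?_
    filter_upwards [(h4 c).coeFn_toLp, (h4 d).coeFn_toLp] with x a b
    rw [a, b, RCLike.inner_apply]
  have h6 : Orthonormal ℂ fun c => (h4 c).toLp _ := by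
    classical
    refine orthonormal_iff_ite.2 fun c d => ?_
    rw [h5]
    split_ifs with h
    · simp [h, Complex.mul_conj, Complex.normSq_eq_norm_sq, h2 _ d.2]
    · have h6 : ∫ x, f d (T x) * starRingEnd ℂ (f c (T x)) ∂μ =
          ∫ x, f d x * starRingEnd ℂ (f c x) ∂μ := by
        have h6 := integral_map (μ := μ) hT.measurable.aemeasurable (((h1 _ d.2).mul
          (Complex.continuous_conj.measurable.comp (h1 _ c.2))).aestronglyMeasurable)
        rw [hT.map_eq] at h6
        exact h6.symm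
      rw [integral_congr_ae (g := fun x => (d * starRingEnd ℂ c) *
        (f d x * starRingEnd ℂ (f c x))) (by
          filter_upwards [h3 _ c.2, h3 _ d.2] with x a b
          rw [a, b, map_mul]
          ring), integral_const_mul] at h6
      by_contra h7
      have h8 := congrArg (· * (c : ℂ)) ((mul_eq_right₀ h7).1 h6)
      simp only [mul_assoc, ← Complex.normSq_eq_conj_mul_self, Complex.normSq_eq_norm_sq,
        c.2.1] at h8
      exact h (Subtype.ext (by simpa using h8.symm))
  have : Fact ((2 : ℝ≥0∞) ≠ ∞) := ⟨by simp⟩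
  refine Pairwise.countable_of_isOpen_disjoint
    (s := fun c => Metric.ball ((h4 c).toLp _) (1 / 2)) (fun c d h => Metric.ball_disjoint_ball ?_)
    (fun _ => Metric.isOpen_ball) fun _ => Metric.nonempty_ball.2 (by norm_num)
  have h7 := norm_sub_sq (𝕜 := ℂ) ((h4 c).toLp _) ((h4 d).toLp _)
  rw [h6.2 h, h6.1, h6.1] at h7
  rw [dist_eq_norm]
  refine le_of_sq_le_sq ?_ (norm_nonneg _)
  rw [h7]
  norm_num

open UnitAddTorus in
theorem torus_fin {d : Type} [Fintype d] {θ : UnitAddTorus d} (h : ∀ k ≠ 0, mFourier k θ ≠ 1)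
    {ρ ρ' : Measure (UnitAddTorus d)} [IsFiniteMeasure ρ] [IsFiniteMeasure ρ']
    (h1 : MeasurePreserving (· + θ) ρ ρ) (h2 : MeasurePreserving (· + θ) ρ' ρ')
    (h3 : ρ univ = ρ' univ) : ρ = ρ' := by
  have h4 : ∀ (ρ : Measure (UnitAddTorus d)), MeasurePreserving (· + θ) ρ ρ → ∀ k ≠ 0,
      ∫ x, mFourier k x ∂ρ = 0 := fun ρ h1 k hk => by
    have h4 : ∫ x, mFourier k (x + θ) ∂ρ = ∫ x, mFourier k x ∂ρ := by
      conv_rhs => rw [← h1.map_eq]
      rw [integral_map h1.measurable.aemeasurable (mFourier k).continuous.aestronglyMeasurable]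
    have h5 : ∀ x, mFourier k (x + θ) = mFourier k θ * mFourier k x := fun x => by
      simp [mFourier, fourier_apply, AddCircle.toCircle_add, Finset.prod_mul_distrib, mul_comm]
    simp only [h5, integral_const_mul] at h4
    exact by_contra fun h6 => h k hk ((mul_eq_right₀ h6).1 h4)
  have h5 : ∀ (ρ : Measure (UnitAddTorus d)) [IsFiniteMeasure ρ],
      Continuous fun f : C(UnitAddTorus d, ℂ) => ∫ x, f x ∂ρ := fun ρ _ =>
    (continuous_integral.comp (ContinuousMap.toLp 1 ρ ℂ).continuous).congr fun f =>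
      integral_congr_ae (ContinuousMap.coeFn_toLp ρ f)
  have h6 : ∀ (ρ : Measure (UnitAddTorus d)) [IsFiniteMeasure ρ] (f : C(UnitAddTorus d, ℂ)),
      Integrable f ρ := fun ρ _ f => f.continuous.integrable_of_hasCompactSupport
        (HasCompactSupport.of_compactSpace f)
  have h7 : ∀ f : C(UnitAddTorus d, ℂ), ∫ x, f x ∂ρ = ∫ x, f x ∂ρ' := fun f => by
    have h7 : f ∈ closure (Submodule.span ℂ (range (mFourier (d := d))) : Set _) := by
      rw [← Submodule.topologicalClosure_coe, span_mFourier_closure_eq_top]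
      trivial
    refine (isClosed_eq (h5 ρ) (h5 ρ')).closure_subset_iff.2 (fun f hf => ?_) h7
    induction hf using Submodule.span_induction with
    | mem f hf =>
      obtain ⟨k, rfl⟩ := hf
      by_cases hk : k = 0
      · simp [hk, mFourier_zero, Measure.real, h3]
      · exact (h4 ρ h1 k hk).trans (h4 ρ' h2 k hk).symm
    | zero => simp
    | add f g _ _ a b =>
      simp only [mem_ofPred_eq, ContinuousMap.add_apply] at a b ⊢
      rw [integral_add (h6 _ f) (h6 _ g), integral_add (h6 _ f) (h6 _ g), a, b]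
    | smul c f _ a =>
      simp only [mem_ofPred_eq, ContinuousMap.smul_apply] at a ⊢
      rw [integral_smul, integral_smul, a]
  refine ext_of_forall_integral_eq_of_IsFiniteMeasure fun f => ?_
  have h8 := h7 ⟨fun x => f x, by fun_prop⟩
  simp only [ContinuousMap.coe_mk, integral_complex_ofReal] at h8
  exact_mod_cast h8

/-- Haar measure of the infinite torus. -/
noncomputable def haar : Measure (ℕ → UnitAddCircle) :=
  Measure.infinitePi fun _ => AddCircle.haarAddCircle

instance haarProb : IsProbabilityMeasure haar := by unfold haar; infer_instance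

theorem mp_rot (θ : ℕ → UnitAddCircle) : MeasurePreserving (· + θ) haar haar :=
  ⟨by fun_prop, (Measure.infinitePi_map_pi (fun _ => AddCircle.haarAddCircle)
    (f := fun i x => x + θ i) fun i => by fun_prop).trans (by simp only [map_add_right_eq_self, haar])⟩

theorem mp_perm (π : Equiv.Perm ℕ) : MeasurePreserving (· ∘ π) haar haar := by
  have h := Measure.infinitePi_map_piCongrLeft (X := fun _ => UnitAddCircle)
    (fun _ => AddCircle.haarAddCircle) π.symm
  refine ⟨by fun_prop, Eq.trans (congrArg (Measure.map · haar) ?_) h⟩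
  funext x i
  simp [MeasurableEquiv.piCongrLeft, Equiv.piCongrLeft_apply_eq_cast]

instance haarNull : NullSingletonClass haar := ⟨fun x => by
  refine measure_mono_null (t := Function.eval 0 ⁻¹' {x 0}) (fun y hy => congrFun hy 0)
    (((measurePreserving_eval_infinitePi (fun _ : ℕ => AddCircle.haarAddCircle) 0).measure_preimage
      (measurableSet_singleton _).nullMeasurableSet).trans ?_)
  have h := AddCircle.volume_closedBall (T := 1) (x := x 0) 0
  simpa [AddCircle.volume_eq_smul_haarAddCircle] using h⟩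

open UnitAddTorus in
theorem erg_rot {θ : ℕ → UnitAddCircle}
    (h : ∀ I : Finset ℕ, ∀ k ≠ 0, mFourier k (I.restrict θ) ≠ 1) : Ergodic (· + θ) haar := by
  refine ⟨mp_rot θ, ⟨fun s hs h1 => ?_⟩⟩
  have h2 : ∀ ρ : Measure (ℕ → UnitAddCircle), MeasurePreserving (· + θ) ρ ρ → ∀ I : Finset ℕ,
      MeasurePreserving (· + I.restrict θ) (ρ.map I.restrict) (ρ.map I.restrict) := fun ρ a I =>
    MeasurePreserving.of_semiconj ⟨I.measurable_restrict, rfl⟩ a (fun _ => rfl) (by fun_prop)
  have h3 : haar.restrict s = haar s • haar := by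
    have : IsFiniteMeasure (haar s • haar) := haar.smul_finite (measure_ne_top _ _)
    refine IsProjectiveLimit.unique (P := fun I => (haar.restrict s).map I.restrict) (fun _ => rfl)
      fun I => torus_fin (h I) (h2 _ ((mp_rot θ).smul_measure _) I) (h2 _ ?_ I) ?_
    · simpa only [h1] using (mp_rot θ).restrict_preimage hs
    · simp [Measure.map_apply I.measurable_restrict]
  have h4 := congrArg (· sᶜ) h3
  simp only [Measure.restrict_apply hs.compl, compl_inter_self, measure_empty, Measure.smul_apply,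
    smul_eq_mul, zero_eq_mul] at h4
  exact eventuallyConst_set.2 (h4.symm.imp id measure_eq_zero_iff_ae_notMem.1)

open UnitAddTorus in
theorem exists_indep : ∃ P : Set ℝ, ¬P.Countable ∧ ∀ (d : Type) [Fintype d] (r : d → P),
    Function.Injective r → ∀ k ≠ 0, mFourier k (fun i => ((r i : ℝ) : UnitAddCircle)) ≠ 1 := by
  obtain ⟨B, -, h1, h2, h3⟩ := exists_linearIndepOn_id_extension
    (K := ℚ) (s := {(1 : ℝ)}) (by simp) (subset_univ _)
  refine ⟨B \ {1}, fun h => ?_, fun d _ r hr k hk h => hk ?_⟩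
  · have := ((h.insert 1).mono (subset_insert_sdiff_singleton 1 B)).to_subtype
    refine not_countable_univ (α := ℝ) (Countable.mono h2 ?_)
    rw [← Subtype.range_coe (s := B), ← Finsupp.range_linearCombination]
    exact countable_range _
  · simp only [mFourier, ContinuousMap.coe_mk, fourier_coe_apply, ← Complex.exp_sum,
      Complex.exp_eq_one_iff] at h
    obtain ⟨n, hn⟩ := h
    have h4 : ∑ i, (k i : ℝ) * r i = n := by
      have h4 : (2 * Real.pi * Complex.I : ℂ) ≠ 0 := by simp
      refine Complex.ofReal_injective (mul_left_cancel₀ h4 ?_)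
      push_cast
      rw [mul_comm _ (n : ℂ), ← hn, Finset.mul_sum]
      exact Finset.sum_congr rfl fun i _ => by simp [mul_assoc]
    have h5 := h3.linearIndependent.comp (fun o : Option d => o.elim ⟨1, h1 rfl⟩ fun i => ⟨r i, (r i).2.1⟩)
      (by
        rintro (_ | i) (_ | j) h
        exacts [rfl, ((r j).2.2 (congrArg Subtype.val h).symm).elim,
          ((r i).2.2 (congrArg Subtype.val h)).elim,
          congrArg some (hr (Subtype.ext (congrArg (fun x : B => x.1) h)))])
    funext i
    have h6 := Fintype.linearIndependent_iff.1 h5 (fun o => o.elim (-n) fun i => k i)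
      (by simp [Fintype.sum_option, Rat.smul_def, h4]) (some i)
    simpa using h6

end Pool.Agent.H39.FG
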