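import Pool.Agent.H39.Aff2
import Pool.Agent.H39.FG4
import Pool.Agent.H39.NonBorel

/-! Pairs of affine maps conjugate exactly over trees with a branch. -/

namespace Pool.Agent.H39.Aff

open Set Filter Topology MeasureTheory Pool.Agent.H39.NonBorel

noncomputable def Dp.homeo {S : Type} [Countable S] {p : S → Option S} {d : S → ℕ} (h : Dp p d)
    (α : K S) : K S ≃ₜ K S :=
  Continuous.homeoOfEquivCompactToT2 (f := Equiv.ofBijective _ (h.bij α)) (continuous_aff p α)

theorem Dp.homeo_apply {S : Type} [Countable S] {p : S → Option S} {d : S → ℕ} (h : Dp p d)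
    (α x : K S) : h.homeo α x = aff p α x := rfl

theorem exists_ind (S : Type) [Countable S] : ∃ α : K S, Ind α := by
  classical
  obtain ⟨P, h1, h2⟩ := Pool.Agent.H39.FG.exists_indep
  have : Infinite P := (Set.Infinite.to_subtype fun h => h1 h.countable)
  obtain ⟨e, he⟩ := exists_injective_nat S
  let r : S → P := fun s => Infinite.natEmbedding P (e s)
  have hr : Function.Injective r := (Infinite.natEmbedding P).injective.comp he
  refine ⟨fun s => ((r s : ℝ) : UnitAddCircle), fun η hη => by_contra fun hne => ?_⟩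
  refine h2 η.support (fun i => r i) (hr.comp Subtype.val_injective) (fun i => η i) (fun h => ?_) ?_
  · obtain ⟨s, hs⟩ := Finsupp.support_nonempty_iff.2 hne
    exact Finsupp.mem_support_iff.1 hs (congrFun h ⟨s, hs⟩)
  · have h3 : ∀ (t : Finset S) (f : S → UnitAddCircle),
        ∏ i ∈ t, (AddCircle.toCircle (f i) : ℂ) = AddCircle.toCircle (∑ i ∈ t, f i) := fun t f => by
      induction t using Finset.induction_on with
      | empty => simp
      | insert a t ha ih =>
        rw [Finset.prod_insert ha, Finset.sum_insert ha, ih, AddCircle.toCircle_add, Circle.coe_mul]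
    simp only [UnitAddTorus.mFourier, ContinuousMap.coe_mk, fourier_apply]
    rw [Finset.prod_coe_sort η.support
      (fun i => (AddCircle.toCircle (η i • ((r i : ℝ) : UnitAddCircle)) : ℂ)), h3]
    rw [pr, Finsupp.linearCombination_apply, Finsupp.sum] at hη
    rw [hη]
    simp

abbrev S0 : Type := List ℕ ⊕ ℕ

def par (τ : List ℕ → Bool) : S0 → Option S0
  | .inl [] => none
  | .inl (a :: t) => if τ (a :: t) then some (.inl t) else none
  | .inr 0 => none
  | .inr (k + 1) => some (.inr k)

def dep : S0 → ℕ := Sum.elim List.length id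

theorem dp_par (τ : List ℕ → Bool) : Dp (par τ) dep := by
  rintro ((_ | ⟨a, t⟩) | (_ | k)) u h
  · simp [par] at h
  · simp only [par, Option.ite_none_right_eq_some, Option.some.injEq] at h
    rw [← h.2]; simp [dep]
  · simp [par] at h
  · simp only [par, Option.some.injEq] at h
    rw [← h]; simp [dep]

noncomputable def alt (α : K S0) : K S0 := α + Pi.single (.inr 0) (α (.inl []))

theorem pr_alt (η : S0 →₀ ℤ) (α : K S0) :
    pr η (alt α) = pr (η + Finsupp.single (.inl []) (η (.inr 0))) α := by
  rw [alt, pr_add_right, pr_add_left, pr_single, add_right_inj, pr, Finsupp.linearCombination_apply,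
    Finsupp.sum, Finset.sum_eq_single (.inr 0)
      (fun b _ hb => by rw [Pi.single_eq_of_ne hb, smul_zero])
      (fun hs' => by rw [Finsupp.notMem_support_iff.1 hs', zero_smul]), Pi.single_eq_same]

theorem Ind.alt {α : K S0} (h : Ind α) : Ind (alt α) := fun η hη => by
  have h1 := h _ (pr_alt η α ▸ hη)
  have h2 : η (.inr 0) = 0 := by simpa using congrArg (fun z => z (.inr 0)) h1
  simpa [h2] using h1

/-- codes with a branch (the root is not tested) -/
def IF' : Set (List ℕ → Bool) := {τ | ∃ y : ℕ → ℕ, ∀ n, τ (res y (n + 1)) = true}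

theorem not_meas_IF' : ¬ MeasurableSet IF' := fun h => not_measurableSet_IF (by
  have : IF = IF' ∩ {τ | τ [] = true} := by
    ext τ
    constructor
    · rintro ⟨y, hy⟩
      exact ⟨⟨y, fun n => hy _⟩, hy 0⟩
    · rintro ⟨⟨y, hy⟩, h0⟩
      exact ⟨y, fun n => by cases n; exacts [h0, hy _]⟩
  rw [this]
  exact h.inter ((measurable_pi_apply (X := fun _ : List ℕ => Bool) []) (measurableSet_singleton true)))

theorem conj_of_branch {τ : List ℕ → Bool} (h : τ ∈ IF') (α : K S0) :
    ∃ (q : S0 → Option S0) (d : S0 → ℕ) (β : K S0), Dp q d ∧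
      ∀ x, aff q β (aff (par τ) α x) = aff (par τ) (alt α) (aff q β x) := by
  obtain ⟨y, hy⟩ := h
  refine ⟨Sum.elim (fun _ => none) fun k => some (.inl (res y k)), Sum.elim (fun _ => 0) fun _ => 1,
    Sum.elim (fun _ => 0) fun k => α (.inl (res y (k + 1))), ?_, fun x => funext ?_⟩
  · rintro (t | k) u hu
    · simp at hu
    · simp only [Sum.elim_inr, Option.some.injEq] at hu
      rw [← hu]; simp
  · rintro ((_ | ⟨a, t⟩) | (_ | k))
    · simp [aff, lin_apply, par, alt]
    · by_cases h1 : τ (a :: t) <;> simp [aff, lin_apply, par, alt, h1]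
    · simp only [aff, lin_apply, par, alt, Pi.add_apply, Sum.elim_inr, Option.elim, res_zero,
        Pi.single_eq_same]
      abel
    · have h1 := hy k
      rw [res_succ] at h1
      simp [aff, lin_apply, par, alt, h1]
      abel

theorem branch_of_conj {τ : List ℕ → Bool} {α : K S0} (hα : Ind α) {h : K S0 → K S0}
    (hh : Measurable h)
    (he : ∀ᵐ x ∂hm S0, h (aff (par τ) α x) = aff (par τ) (alt α) (h x)) : τ ∈ IF' := by
  let F : ℕ → K S0 → ℂ := fun k x => ch (Finsupp.single (.inr k) 1) (h x)
  have hF : ∀ k, Measurable (F k) := fun k => (ch _).continuous.measurable.comp hh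
  have hF' : ∀ k x, ‖F k x‖ = 1 := fun k x => norm_ch _ _
  have step : ∀ k (η : S0 →₀ ℤ), (∃ c : ℂ, ‖c‖ = 1 ∧ ∀ᵐ x ∂hm S0, F k x = c * ch η x) →
      ∃ η', nil (par τ) η' = η ∧ ∃ c : ℂ, ‖c‖ = 1 ∧ ∀ᵐ x ∂hm S0, F (k + 1) x = c * ch η' x := by
    rintro k η ⟨c, hc, hη⟩
    obtain ⟨η', h1, -, h2⟩ := (dp_par τ).rig hα (hF (k + 1)) (hF' _) (γ := η)
      (c := c * ch (Finsupp.single (.inr (k + 1)) 1) (alt α)) (by rw [norm_mul, hc, norm_ch, one_mul])
      (by
        filter_upwards [he, hη] with x h3 h4
        simp only [F] at h4 ⊢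
        rw [h3, ch_aff, nil_single, ch_add]
        simp only [par, Option.elim]
        rw [h4]
        ring)
    exact ⟨η', h1, h2⟩
  obtain ⟨η0, -, h1, h2⟩ := (dp_par τ).rig hα (hF 0) (hF' _) (γ := 0)
    (c := ch (Finsupp.single (.inr 0) 1) (alt α)) (norm_ch _ _) (by
      filter_upwards [he] with x h3
      simp only [F]
      rw [h3, ch_aff, nil_single, ch_zero]
      simp only [par, Option.elim, add_zero]
      ring)
  have h3 : η0 (.inl []) ≠ 0 := by
    rw [ch_apply _ (alt α), pr_alt, ← ch_apply] at h1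
    rw [hα.eq h1]
    simp
  choose! nx hnx hnx' using step
  let η : ℕ → (S0 →₀ ℤ) := fun k => Nat.rec η0 nx k
  have h4 : ∀ k, ∃ c : ℂ, ‖c‖ = 1 ∧ ∀ᵐ x ∂hm S0, F k x = c * ch (η k) x := fun k => by
    induction k with
    | zero => exact h2
    | succ k ih => exact hnx' k _ ih
  obtain ⟨y, hy⟩ := exists_branch (P := fun t => η t.length (.inl t) ≠ 0 ∧ (t ≠ [] → τ t = true))
    ⟨h3, fun h => (h rfl).elim⟩ (fun t ht => by
      have h5 := ht.1
      rw [← hnx t.length _ (h4 _)] at h5
      obtain ⟨s, hs, hs'⟩ := nil_ne h5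
      rcases s with (_ | ⟨a, u⟩) | (_ | k)
      · simp [par] at hs
      · simp only [par, Option.ite_none_right_eq_some, Option.some.injEq, Sum.inl.injEq] at hs
        obtain ⟨h6, rfl⟩ := hs
        exact ⟨a, hs', fun _ => h6⟩
      · simp [par] at hs
      · simp [par] at hs)
  exact ⟨y, fun n => (hy (n + 1)).2 (by simp)⟩

theorem cont_aff (α : K S0) :
    Continuous fun q : (List ℕ → Bool) × K S0 => aff (par q.1) α q.2 := by
  refine Continuous.add (continuous_pi ?_) continuous_const
  rintro ((_ | ⟨a, t⟩) | (_ | k))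
  · simp only [lin_apply, par, Option.elim]; fun_prop
  · simp only [lin_apply, par]
    refine Continuous.add (by fun_prop) ?_
    have h1 : Continuous fun q : Bool × K S0 =>
        (if q.1 then some (.inl t) else none : Option S0).elim 0 q.2 :=
      continuous_prod_of_discrete_left.2 fun b => by cases b <;> simp <;> fun_prop
    have h2 : Continuous fun q : (List ℕ → Bool) × K S0 => (q.1 (a :: t), q.2) := by fun_prop
    exact h1.comp h2
  · simp only [lin_apply, par, Option.elim]; fun_prop
  · simp only [lin_apply, par, Option.elim]; fun_prop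

theorem cont_inv (α : K S0) :
    Continuous fun q : (List ℕ → Bool) × K S0 => ((dp_par q.1).homeo α).symm q.2 := by
  let e : (List ℕ → Bool) × K S0 ≃ (List ℕ → Bool) × K S0 :=
    Equiv.prodCongrRight fun τ => ((dp_par τ).homeo α).toEquiv
  have he : Continuous e := continuous_fst.prodMk (cont_aff α)
  exact continuous_snd.comp (Continuous.homeoOfEquivCompactToT2 he).symm.continuous

end Pool.Agent.H39.Aff
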