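import Mathlib

set_option autoImplicit false

namespace Pool.Agent.H39.Ana

open Set Filter Topology MeasureTheory

theorem analytic_preimage {α β : Type*} [t : TopologicalSpace α] [PolishSpace α]
    [MeasurableSpace α] [BorelSpace α] [TopologicalSpace β] [T2Space β]
    [SecondCountableTopology β] [MeasurableSpace β] [OpensMeasurableSpace β] {f : α → β}
    (hf : Measurable f) {s : Set β} (hs : AnalyticSet s) : AnalyticSet (f ⁻¹' s) := by
  obtain ⟨t', ht', hc, hp⟩ := hf.exists_continuous
  have h1 : @AnalyticSet α t' (f ⁻¹' s) := @AnalyticSet.preimage α β t' _ hp _ s hs f hc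
  have h2 := @AnalyticSet.image_of_continuous α t' α t (f ⁻¹' s) h1 id (continuous_id_of_le ht')
  rwa [image_id] at h2

end Pool.Agent.H39.Ana
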