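import Mathlib

set_option autoImplicit false

namespace H39.Aut

abbrev F := ZMod 7
abbrev V := F × F

instance fact7 : Fact (Nat.Prime 7) := ⟨by norm_num⟩

/-- Two by two matrices over the field with seven elements whose determinant squares to one. -/
structure L where
  a : F
  b : F
  c : F
  d : F
  h : (a * d - b * c) ^ 2 = 1

namespace L

theorem ext' {g k : L} (h1 : g.a = k.a) (h2 : g.b = k.b) (h3 : g.c = k.c) (h4 : g.d = k.d) :
    g = k := by
  cases g; cases k; simp_all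

def det (g : L) : F := g.a * g.d - g.b * g.c

theorem det_sq (g : L) : g.det ^ 2 = 1 := g.h

instance : Mul L := ⟨fun g k => ⟨g.a * k.a + g.b * k.c, g.a * k.b + g.b * k.d,
  g.c * k.a + g.d * k.c, g.c * k.b + g.d * k.d, by
    have h1 := g.h
    have h2 := k.h
    linear_combination (k.a * k.d - k.b * k.c) ^ 2 * h1 + h2⟩⟩

instance : One L := ⟨⟨1, 0, 0, 1, by simp⟩⟩

instance : Inv L := ⟨fun g => ⟨(g.a * g.d - g.b * g.c) * g.d, -((g.a * g.d - g.b * g.c) * g.b),
  -((g.a * g.d - g.b * g.c) * g.c), (g.a * g.d - g.b * g.c) * g.a, by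
    have h1 := g.h
    linear_combination ((g.a * g.d - g.b * g.c) ^ 4 + (g.a * g.d - g.b * g.c) ^ 2 + 1) * h1⟩⟩

@[simp] theorem mul_a (g k : L) : (g * k).a = g.a * k.a + g.b * k.c := rfl
@[simp] theorem mul_b (g k : L) : (g * k).b = g.a * k.b + g.b * k.d := rfl
@[simp] theorem mul_c (g k : L) : (g * k).c = g.c * k.a + g.d * k.c := rfl
@[simp] theorem mul_d (g k : L) : (g * k).d = g.c * k.b + g.d * k.d := rfl
@[simp] theorem one_a : (1 : L).a = 1 := rfl
@[simp] theorem one_b : (1 : L).b = 0 := rfl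
@[simp] theorem one_c : (1 : L).c = 0 := rfl
@[simp] theorem one_d : (1 : L).d = 1 := rfl
@[simp] theorem inv_a (g : L) : (g⁻¹).a = (g.a * g.d - g.b * g.c) * g.d := rfl
@[simp] theorem inv_b (g : L) : (g⁻¹).b = -((g.a * g.d - g.b * g.c) * g.b) := rfl
@[simp] theorem inv_c (g : L) : (g⁻¹).c = -((g.a * g.d - g.b * g.c) * g.c) := rfl
@[simp] theorem inv_d (g : L) : (g⁻¹).d = (g.a * g.d - g.b * g.c) * g.a := rfl

instance : Group L := Group.ofLeftAxioms
  (fun x y z => by apply ext' <;> simp <;> ring)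
  (fun x => by apply ext' <;> simp)
  (fun x => by
    have h := x.h
    apply ext' <;> simp
    · linear_combination h
    · ring
    · ring
    · linear_combination h)

instance : DecidableEq L := fun g k =>
  decidable_of_iff (g.a = k.a ∧ g.b = k.b ∧ g.c = k.c ∧ g.d = k.d)
    ⟨fun h => ext' h.1 h.2.1 h.2.2.1 h.2.2.2, fun h => by subst h; simp⟩

def equivSub : L ≃ {q : F × F × F × F // (q.1 * q.2.2.2 - q.2.1 * q.2.2.1) ^ 2 = 1} where
  toFun g := ⟨(g.a, g.b, g.c, g.d), g.h⟩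
  invFun q := ⟨q.1.1, q.1.2.1, q.1.2.2.1, q.1.2.2.2, q.2⟩
  left_inv _ := rfl
  right_inv _ := rfl

instance : Finite L := Finite.of_equiv _ equivSub.symm

theorem card : Nat.card L = 672 := by
  rw [Nat.card_congr equivSub, Nat.card_eq_fintype_card, Fintype.card_subtype]
  decide +kernel

/-- The action on vectors. -/
def app (g : L) (v : V) : V := (g.a * v.1 + g.b * v.2, g.c * v.1 + g.d * v.2)

@[simp] theorem app_fst (g : L) (v : V) : (g.app v).1 = g.a * v.1 + g.b * v.2 := rfl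
@[simp] theorem app_snd (g : L) (v : V) : (g.app v).2 = g.c * v.1 + g.d * v.2 := rfl

theorem app_mul (g k : L) (v : V) : (g * k).app v = g.app (k.app v) := by
  ext <;> simp <;> ring
@[simp] theorem app_one (v : V) : (1 : L).app v = v := by ext <;> simp
theorem app_add (g : L) (v w : V) : g.app (v + w) = g.app v + g.app w := by
  ext <;> simp <;> ring
theorem app_smul (g : L) (n : F) (v : V) : g.app (n • v) = n • g.app v := by
  ext <;> simp <;> ring
@[simp] theorem app_zero (g : L) : g.app 0 = 0 := by ext <;> simp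
theorem app_neg (g : L) (v : V) : g.app (-v) = - g.app v := by
  ext <;> simp <;> ring

theorem eq_of_app {g k : L} (h : ∀ v, g.app v = k.app v) : g = k := by
  have h1 := h (1, 0)
  have h2 := h (0, 1)
  simp only [Prod.ext_iff, app_fst, app_snd] at h1 h2
  apply ext'
  · simpa using h1.1
  · simpa using h2.1
  · simpa using h1.2
  · simpa using h2.2

def m1 : L := ⟨-1, 0, 0, -1, by simp⟩
def u : L := ⟨1, 1, 0, 1, by simp⟩
def w : L := ⟨0, 6, 1, 0, by decide⟩
def dg : L := ⟨3, 0, 0, 5, by decide⟩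
def h1 : L := ⟨0, 1, 1, 1, by decide⟩
def h2 : L := ⟨1, 1, 1, 2, by decide⟩
def h3 : L := ⟨0, 1, 1, 0, by decide⟩

theorem m1_app (v : V) : m1.app v = -v := by ext <;> simp [m1]
theorem m1_comm (g : L) : g * m1 = m1 * g := by apply ext' <;> simp [m1]
theorem m1_sq : m1 * m1 = 1 := by decide
theorem u_pow : u ^ 7 = 1 := by decide
theorem u_ne : u ≠ 1 := by decide
theorem dg_eq : dg = u * (w * u * w⁻¹) ^ 5 * u ^ 2 * (w * u * w⁻¹) ^ 6 := by decide
theorem dg_conj : dg * u * dg⁻¹ = u ^ 2 := by decide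

theorem norm_aux : ∀ a b c d : F, ∀ h : (a * d - b * c) ^ 2 = 1,
    (⟨a, b, c, d, h⟩ : L) = 1 ∨ (⟨a, b, c, d, h⟩ : L) = m1 ∨
    ∃ x ∈ [h1, h2, h3], ∃ k ∈ [1, 2, 3, 4, 7],
      ((⟨a, b, c, d, h⟩ : L) * x * (⟨a, b, c, d, h⟩ : L)⁻¹ * x⁻¹) ^ k = m1 := by
  decide +kernel

theorem normal_cases (R : Subgroup L) [hR : R.Normal] : R = ⊥ ∨ m1 ∈ R := by
  by_cases h : R = ⊥
  · exact Or.inl h
  · right
    obtain ⟨⟨g, hg⟩, hg1⟩ := Subgroup.ne_bot_iff_exists_ne_one.mp h
    have hg1' : g ≠ 1 := fun h => hg1 (Subtype.ext h)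
    rcases norm_aux g.a g.b g.c g.d g.h with h | h | ⟨x, -, k, -, h⟩
    · exact absurd h hg1'
    · have : g = m1 := h
      exact this ▸ hg
    · rw [← h]
      apply R.pow_mem
      have : g * x * g⁻¹ * x⁻¹ = g * (x * g⁻¹ * x⁻¹) := by group
      change g * x * g⁻¹ * x⁻¹ ∈ R
      rw [this]
      exact R.mul_mem hg (hR.conj_mem _ (R.inv_mem hg) x)

theorem not_two (g : L) : ¬ ∀ v : V, g.app v = (2 : F) • v := by
  intro h
  have h1 := h (1, 0)
  have h2 := h (0, 1)
  simp only [Prod.ext_iff, app_fst, app_snd] at h1 h2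
  have hh := g.h
  simp at h1 h2
  rw [h1.1, h1.2, h2.1, h2.2] at hh
  revert hh
  decide

theorem trans (v : V) (hv : v ≠ 0) (x : V) (hx : x ≠ 0) : ∃ g : L, g.app v = x := by
  have key : ∀ v : V, v ≠ 0 → ∃ g : L, g.app (1, 0) = v := by
    rintro ⟨p, q⟩ hv
    by_cases hp : p = 0
    · have hq : q ≠ 0 := fun hq => hv (by simp [hp, hq])
      refine ⟨⟨0, -q⁻¹, q, 0, by field_simp; ring⟩, ?_⟩
      ext <;> simp [hp]
    · refine ⟨⟨p, 0, q, p⁻¹, by field_simp; ring⟩, ?_⟩
      ext <;> simp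
  obtain ⟨g, hg⟩ := key v hv
  obtain ⟨k, hk⟩ := key x hx
  refine ⟨k * g⁻¹, ?_⟩
  rw [← hg, ← app_mul, inv_mul_cancel_right, hk]

end L

/-- The affine group of the plane with linear part in `L`. -/
structure A where
  g : L
  v : V

namespace A

theorem ext' {x y : A} (h1 : x.g = y.g) (h2 : x.v = y.v) : x = y := by
  cases x; cases y; simp_all

instance : Mul A := ⟨fun x y => ⟨x.g * y.g, x.v + x.g.app y.v⟩⟩
instance : One A := ⟨⟨1, 0⟩⟩
instance : Inv A := ⟨fun x => ⟨x.g⁻¹, - x.g⁻¹.app x.v⟩⟩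

@[simp] theorem mul_g (x y : A) : (x * y).g = x.g * y.g := rfl
@[simp] theorem mul_v (x y : A) : (x * y).v = x.v + x.g.app y.v := rfl
@[simp] theorem one_g : (1 : A).g = 1 := rfl
@[simp] theorem one_v : (1 : A).v = 0 := rfl
@[simp] theorem inv_g (x : A) : (x⁻¹).g = x.g⁻¹ := rfl
@[simp] theorem inv_v (x : A) : (x⁻¹).v = - x.g⁻¹.app x.v := rfl

instance : Group A := Group.ofLeftAxioms
  (fun x y z => by
    apply ext'
    · simp [mul_assoc]
    · simp [L.app_add, L.app_mul, add_assoc])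
  (fun x => by apply ext' <;> simp)
  (fun x => by apply ext' <;> simp)

instance : Finite A := Finite.of_injective (fun x : A => (x.g, x.v))
  (fun _ _ h => ext' (congrArg Prod.fst h) (congrArg Prod.snd h))

def lin : A →* L where
  toFun x := x.g
  map_one' := rfl
  map_mul' _ _ := rfl

@[simp] theorem lin_apply (x : A) : lin x = x.g := rfl

/-- Translations. -/
def tr (v : V) : A := ⟨1, v⟩
/-- Linear maps. -/
def ln (g : L) : A := ⟨g, 0⟩

@[simp] theorem tr_g (v : V) : (tr v).g = 1 := rfl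
@[simp] theorem tr_v (v : V) : (tr v).v = v := rfl
@[simp] theorem ln_g (g : L) : (ln g).g = g := rfl
@[simp] theorem ln_v (g : L) : (ln g).v = 0 := rfl

theorem tr_add (v x : V) : tr (v + x) = tr v * tr x := by apply ext' <;> simp
@[simp] theorem tr_zero : tr 0 = 1 := rfl
theorem tr_neg (v : V) : tr (-v) = (tr v)⁻¹ := by apply ext' <;> simp
theorem tr_pow (v : V) (n : ℕ) : tr v ^ n = tr ((n : F) • v) := by
  induction n with
  | zero => simp
  | succ n ih => rw [pow_succ, ih, ← tr_add]; congr 1; push_cast; rw [add_smul, one_smul]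
theorem tr_pow7 (v : V) : tr v ^ 7 = 1 := by
  rw [tr_pow]
  have : ((7 : ℕ) : F) = 0 := by decide
  rw [this, zero_smul, tr_zero]
theorem tr_inj {v x : V} (h : tr v = tr x) : v = x := congrArg A.v h
theorem conj_tr (x : A) (v : V) : x * tr v * x⁻¹ = tr (x.g.app v) := by
  apply ext'
  · simp
  · simp [L.app_neg, ← L.app_mul]
theorem ln_mul (g k : L) : ln (g * k) = ln g * ln k := by apply ext' <;> simp
@[simp] theorem ln_one : ln 1 = 1 := rfl
theorem ln_inv (g : L) : ln g⁻¹ = (ln g)⁻¹ := by apply ext' <;> simp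
theorem eq_tr_ln (x : A) : x = tr x.v * ln x.g := by apply ext' <;> simp
theorem eq_tr {x : A} (h : x.g = 1) : x = tr x.v := by apply ext' <;> simp [h]
theorem eq_ln {x : A} (h : x.v = 0) : x = ln x.g := by apply ext' <;> simp [h]

def lnHom : L →* A where
  toFun := ln
  map_one' := rfl
  map_mul' := ln_mul

theorem ln_pow (g : L) (n : ℕ) : ln (g ^ n) = ln g ^ n := map_pow lnHom g n

theorem cent_tr {x : A} (h : ∀ v, x * tr v * x⁻¹ = tr v) : x.g = 1 := by
  apply L.eq_of_app
  intro v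
  have := h v
  rw [conj_tr] at this
  rw [tr_inj this, L.app_one]

theorem center_triv {x : A} (h : ∀ y, x * y = y * x) : x = 1 := by
  have hg : x.g = 1 := cent_tr (fun v => by rw [h]; group)
  have h2 := congrArg A.v (h (ln L.m1))
  simp [L.m1_app] at h2
  apply ext' hg
  have h3 : (2 : F) • x.v = 0 := by rw [two_smul]; nth_rewrite 1 [h2]; simp
  rcases smul_eq_zero.mp h3 with h | h
  · exact absurd h (by decide)
  · exact h

theorem normal_cases (N : Subgroup A) [hN : N.Normal] : N = ⊥ ∨ ∀ v, tr v ∈ N := by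
  by_cases h : N = ⊥
  · exact Or.inl h
  · right
    obtain ⟨⟨x, hx⟩, hx1⟩ := Subgroup.ne_bot_iff_exists_ne_one.mp h
    have hx1' : x ≠ 1 := fun h => hx1 (Subtype.ext h)
    have key : ∃ v, v ≠ 0 ∧ tr v ∈ N := by
      by_cases hg : x.g = 1
      · refine ⟨x.v, fun h0 => hx1' (ext' hg h0), ?_⟩
        rw [← eq_tr hg]; exact hx
      · have : ¬ ∀ v, x.g.app v = (1 : L).app v := fun h => hg (L.eq_of_app h)
        push Not at this
        obtain ⟨v, hv⟩ := this
        refine ⟨x.g.app v + -v, fun h0 => hv (by simpa using add_neg_eq_zero.mp h0), ?_⟩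
        rw [tr_add, ← conj_tr, tr_neg]
        have : x * tr v * x⁻¹ * (tr v)⁻¹ = x * (tr v * x⁻¹ * (tr v)⁻¹) := by group
        rw [this]
        exact N.mul_mem hx (hN.conj_mem _ (N.inv_mem hx) _)
    obtain ⟨v, hv, hvN⟩ := key
    intro y
    by_cases hy : y = 0
    · rw [hy, tr_zero]; exact N.one_mem
    · obtain ⟨g, hg⟩ := L.trans v hv y hy
      have := hN.conj_mem _ hvN (ln g)
      rwa [conj_tr, ln_g, hg] at this

end A

end H39.Aut
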