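import Mathlib
import Pool.Agent.H39.AutA

set_option autoImplicit false

namespace H39.Aut

abbrev T := UnitAddCircle

theorem circle_hom (σ : T →+ T) (hc : Continuous σ) (hi : Function.Injective σ) :
    ∃ ε : ℤ, (ε = 1 ∨ ε = -1) ∧ ∀ s, σ s = ε • s := by
  have cov := AddCircle.isCoveringMap_coe (1 : ℝ)
  have hcoe : Continuous ((↑) : ℝ → T) := cov.continuous
  obtain ⟨Φ, ⟨h0, hΦ⟩, -⟩ := cov.existsUnique_continuousMap_lifts
    (⟨fun r : ℝ => σ (r : T), hc.comp hcoe⟩ : C(ℝ, T)) 0 0 (by simp)
  have hΦ' : ∀ r : ℝ, ((Φ r : ℝ) : T) = σ (r : T) := fun r => congrFun hΦ r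
  have hadd : ∀ y x : ℝ, Φ (x + y) = Φ x + Φ y := by
    intro y
    have := cov.eq_of_comp_eq (g₁ := fun x : ℝ => Φ (x + y)) (g₂ := fun x : ℝ => Φ x + Φ y)
      (by fun_prop) (by fun_prop) (by
        funext x
        simp only [Function.comp]
        rw [AddCircle.coe_add, hΦ', hΦ', hΦ', AddCircle.coe_add, map_add]) 0 (by simp [h0])
    exact fun x => congrFun this x
  let Ψ : ℝ →+ ℝ := { toFun := Φ, map_zero' := h0, map_add' := fun x y => hadd y x }
  have hlin : ∀ r : ℝ, Φ r = r * Φ 1 := by
    intro r
    have := map_real_smul Ψ (by exact Φ.continuous) r 1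
    simpa [Ψ] using this
  have h1 : ((Φ 1 : ℝ) : T) = 0 := by
    rw [hΦ', AddCircle.coe_period, map_zero]
  obtain ⟨n, hn⟩ := (AddCircle.coe_eq_zero_iff _).mp h1
  have hn' : Φ 1 = n := by rw [← hn]; simp
  have hσ : ∀ s, σ s = n • s := by
    intro s
    induction s using QuotientAddGroup.induction_on with
    | H r =>
      change σ (r : T) = n • (r : T)
      rw [← hΦ', hlin, hn', ← AddCircle.coe_zsmul]
      congr 1
      simp [mul_comm]
  refine ⟨n, ?_, hσ⟩
  have hn0 : n ≠ 0 := by
    intro h
    have : σ (((1 / 2 : ℝ)) : T) = σ 0 := by rw [hσ, hσ, h]; simp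
    obtain ⟨m, hm⟩ := (AddCircle.coe_eq_zero_iff _).mp (hi this)
    have h2 : ((2 * m : ℤ) : ℝ) = (1 : ℤ) := by
      simp at hm ⊢
      rw [hm]; norm_num
    have := Int.cast_injective h2
    omega
  have hnR : (n : ℝ) ≠ 0 := by exact_mod_cast hn0
  have : σ (((1 / n : ℝ)) : T) = σ 0 := by
    rw [hσ, hσ, ← AddCircle.coe_zsmul]
    simp [hnR]
  obtain ⟨m, hm⟩ := (AddCircle.coe_eq_zero_iff _).mp (hi this)
  have h2 : ((n * m : ℤ) : ℝ) = (1 : ℤ) := by
    simp at hm ⊢
    rw [hm]; field_simp
  exact Int.eq_one_or_neg_one_of_mul_eq_one (Int.cast_injective h2)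

noncomputable def chi : F →+ T := ZMod.toAddCircle

theorem chi_inj : Function.Injective chi := ZMod.toAddCircle_injective 7

theorem tors (s : T) (h : (7 : ℕ) • s = 0) : ∃ z, chi z = s := by
  induction s using QuotientAddGroup.induction_on with
  | H r =>
    change (7 : ℕ) • (r : T) = 0 at h
    rw [← AddCircle.coe_nsmul] at h
    obtain ⟨n, hn⟩ := (AddCircle.coe_eq_zero_iff _).mp h
    refine ⟨(n : F), ?_⟩
    change ZMod.toAddCircle _ = (r : T)
    rw [ZMod.toAddCircle_intCast]
    congr 1
    simp at hn
    rw [hn]; field_simp; ring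

def om (v w : V) : F := v.1 * w.2 - v.2 * w.1

theorem om_app (g : L) (v w : V) : om (g.app v) (g.app w) = g.det * om v w := by
  simp [om, L.det]; ring

def sg (g : L) : ℤ := if g.det = 1 then 1 else -1

theorem det_cases (g : L) : g.det = 1 ∨ g.det = -1 := sq_eq_one_iff_of_ne_zero_aux g.det g.det_sq
where
  sq_eq_one_iff_of_ne_zero_aux : ∀ x : F, x ^ 2 = 1 → x = 1 ∨ x = -1 := by decide

theorem sg_cast (g : L) : ((sg g : ℤ) : F) = g.det := by
  unfold sg
  split_ifs with h
  · simp [h]
  · rcases det_cases g with h1 | h1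
    · exact absurd h1 h
    · simp [h1]

theorem sg_cases (g : L) : sg g = 1 ∨ sg g = -1 := by
  unfold sg; split_ifs <;> simp

theorem sign_inj {a b : ℤ} (ha : a = 1 ∨ a = -1) (hb : b = 1 ∨ b = -1) (h : (a : F) = b) :
    a = b := by
  rcases ha with rfl | rfl <;> rcases hb with rfl | rfl <;> first | rfl | exact absurd h (by decide)

theorem det_mul (g k : L) : (g * k).det = g.det * k.det := by simp [L.det]; ring

theorem sg_mul (g k : L) : sg (g * k) = sg g * sg k := by
  apply sign_inj (sg_cases _)
  · rcases sg_cases g with h | h <;> rcases sg_cases k with h' | h' <;> simp [h, h']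
  · push_cast
    rw [sg_cast, sg_cast, sg_cast, det_mul]

theorem sg_one : sg 1 = 1 := by simp [sg, L.det]

theorem chi_zmul (n : ℤ) (z : F) : chi ((n : F) * z) = n • chi z := by
  rw [← map_zsmul, zsmul_eq_mul]

theorem chi_det (g : L) (z : F) : chi (g.det * z) = sg g • chi z := by
  rw [← sg_cast, chi_zmul]

/-- A central product of an extraspecial group of order 343 with the circle. -/
def G : Type := V × T

namespace G

instance : TopologicalSpace G := inferInstanceAs (TopologicalSpace (V × T))
instance : CompactSpace G := inferInstanceAs (CompactSpace (V × T))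
instance : T2Space G := inferInstanceAs (T2Space (V × T))

def mk (v : V) (s : T) : G := (v, s)
def v (x : G) : V := Prod.fst x
def s (x : G) : T := Prod.snd x

@[simp] theorem mk_v (a : V) (b : T) : (mk a b).v = a := rfl
@[simp] theorem mk_s (a : V) (b : T) : (mk a b).s = b := rfl
theorem ext' {x y : G} (h1 : x.v = y.v) (h2 : x.s = y.s) : x = y := Prod.ext h1 h2

theorem cont_v : Continuous v := continuous_fst
theorem cont_s : Continuous s := continuous_snd
theorem cont_mk {X : Type} [TopologicalSpace X] {a : X → V} {b : X → T} (ha : Continuous a)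
    (hb : Continuous b) : Continuous fun x => mk (a x) (b x) := ha.prodMk hb

noncomputable instance : Mul G := ⟨fun x y => mk (x.v + y.v) (x.s + y.s + chi (om x.v y.v))⟩
instance : One G := ⟨mk 0 0⟩
instance : Inv G := ⟨fun x => mk (-x.v) (-x.s)⟩

@[simp] theorem mul_v (x y : G) : (x * y).v = x.v + y.v := rfl
@[simp] theorem mul_s (x y : G) : (x * y).s = x.s + y.s + chi (om x.v y.v) := rfl
@[simp] theorem one_v : (1 : G).v = 0 := rfl
@[simp] theorem one_s : (1 : G).s = 0 := rfl
@[simp] theorem inv_v (x : G) : (x⁻¹).v = -x.v := rfl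
@[simp] theorem inv_s (x : G) : (x⁻¹).s = -x.s := rfl

noncomputable instance : Group G := Group.ofLeftAxioms
  (fun x y z => by
    apply ext'
    · simp [add_assoc]
    · have : chi (om x.v y.v) + chi (om (x.v + y.v) z.v)
          = chi (om y.v z.v) + chi (om x.v (y.v + z.v)) := by
        rw [← map_add, ← map_add]; congr 1; simp [om]; ring
      simp only [mul_s, mul_v]
      calc x.s + y.s + chi (om x.v y.v) + z.s + chi (om (x.v + y.v) z.v)
          = x.s + y.s + z.s + (chi (om x.v y.v) + chi (om (x.v + y.v) z.v)) := by abel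
        _ = _ := by rw [this]; abel)
  (fun x => by apply ext' <;> simp [om])
  (fun x => by
    apply ext'
    · simp
    · have : om (-x.v) x.v = 0 := by simp [om]; ring
      simp [this])

instance : IsTopologicalGroup G where
  continuous_mul := by
    have h : Continuous fun p : V × V => chi (om p.1 p.2) := continuous_of_discreteTopology
    have h1 : Continuous fun p : G × G => p.1.v := cont_v.comp continuous_fst
    have h2 : Continuous fun p : G × G => p.2.v := cont_v.comp continuous_snd
    have h3 : Continuous fun p : G × G => p.1.s := cont_s.comp continuous_fst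
    have h4 : Continuous fun p : G × G => p.2.s := cont_s.comp continuous_snd
    have h5 : Continuous fun p : G × G => chi (om p.1.v p.2.v) := by
      have := h.comp (h1.prodMk h2)
      simpa only [Function.comp_def] using this
    have h6 : Continuous fun p : G × G => p.1.s + p.2.s + chi (om p.1.v p.2.v) :=
      (h3.add h4).add h5
    have h7 : Continuous fun p : G × G => p.1.v + p.2.v := h1.add h2
    exact cont_mk h7 h6
  continuous_inv := cont_mk cont_v.neg cont_s.neg

noncomputable def act (x : A) (p : G) : G :=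
  mk (x.g.app p.v) (chi (om x.v (x.g.app p.v)) + sg x.g • p.s)

theorem act_one (p : G) : act 1 p = p := by
  apply ext' <;> simp [act, sg_one, om]

theorem act_mul (x y : A) (p : G) : act (x * y) p = act x (act y p) := by
  apply ext'
  · simp [act, L.app_mul]
  · simp only [act, mk_s, mk_v, A.mul_g, A.mul_v, L.app_mul, sg_mul, smul_add, mul_smul]
    rw [← chi_det, ← om_app, ← add_assoc, ← map_add]
    congr 2
    simp [om]; ring

theorem act_hom (x : A) (p q : G) : act x (p * q) = act x p * act x q := by
  apply ext'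
  · simp [act, L.app_add]
  · simp only [act, mk_s, mk_v, mul_s, mul_v, smul_add, L.app_add]
    rw [← chi_det, ← om_app]
    have : chi (om x.v (x.g.app p.v + x.g.app q.v))
        = chi (om x.v (x.g.app p.v)) + chi (om x.v (x.g.app q.v)) := by
      rw [← map_add]; congr 1; simp [om]; ring
    rw [this]; abel

theorem act_cont (x : A) : Continuous (act x) := by
  have h : Continuous fun v : V => x.g.app v := continuous_of_discreteTopology
  have h' : Continuous fun v : V => chi (om x.v (x.g.app v)) := continuous_of_discreteTopology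
  exact cont_mk (h.comp cont_v) ((h'.comp cont_v).add (cont_s.zsmul _))

noncomputable def aut (x : A) : G ≃ₜ* G where
  toFun := act x
  invFun := act x⁻¹
  left_inv p := by rw [← act_mul, inv_mul_cancel, act_one]
  right_inv p := by rw [← act_mul, mul_inv_cancel, act_one]
  map_mul' := act_hom x
  continuous_toFun := act_cont x
  continuous_invFun := act_cont x⁻¹

theorem aut_apply (x : A) (p : G) : aut x p = act x p := rfl

theorem aut_inj : Function.Injective aut := by
  intro x y h
  have h' : ∀ p, act x p = act y p := fun p => by rw [← aut_apply, h, aut_apply]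
  have hg : x.g = y.g := L.eq_of_app (fun v => by simpa [act] using congrArg G.v (h' (mk v 0)))
  have hv : ∀ v, om x.v v = om y.v v := by
    intro v
    have := congrArg G.s (h' (mk (y.g⁻¹.app v) 0))
    simp only [act, mk_s, mk_v, hg, ← L.app_mul, mul_inv_cancel, L.app_one, smul_zero,
      add_zero] at this
    exact chi_inj this
  apply A.ext' hg
  have h1 := hv (1, 0)
  have h2 := hv (0, 1)
  simp [om] at h1 h2
  exact Prod.ext h2 h1

theorem central_iff (p : G) : (∀ q, p * q = q * p) ↔ p.v = 0 := by
  constructor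
  · intro h
    have key : ∀ w, om p.v w = 0 := by
      intro w
      have := congrArg G.s (h (mk w 0))
      simp only [mul_s, mk_s, mk_v, add_zero, zero_add, add_right_inj] at this
      have h2 := chi_inj this
      have h3 : (2 : F) * om p.v w = 0 := by
        simp only [om] at h2 ⊢; linear_combination h2
      rcases mul_eq_zero.mp h3 with h | h
      · exact absurd h (by decide)
      · exact h
    have h1 := key (1, 0)
    have h2 := key (0, 1)
    simp [om] at h1 h2
    exact Prod.ext h2 h1
  · intro h q
    apply ext'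
    · simp [h]
    · simp [h, om, add_comm]

theorem aut_surj : Function.Surjective aut := by
  intro φ
  have hz : ∀ s, (φ (mk 0 s)).v = 0 := by
    intro s
    rw [← central_iff]
    intro q
    obtain ⟨q, rfl⟩ := φ.surjective q
    rw [← map_mul, ← map_mul, (central_iff _).mpr rfl]
  let σ : T →+ T :=
    { toFun := fun s => (φ (mk 0 s)).s
      map_zero' := by
        have : mk 0 0 = (1 : G) := rfl
        rw [this, map_one, one_s]
      map_add' := fun s t => by
        have : mk 0 (s + t) = mk 0 s * mk 0 t := by apply ext' <;> simp [om]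
        rw [this, map_mul, mul_s, hz, hz]
        simp [om] }
  have hσc : Continuous σ :=
    cont_s.comp (φ.continuous.comp (cont_mk continuous_const continuous_id))
  have hσi : Function.Injective σ := by
    intro s t h
    have : φ (mk 0 s) = φ (mk 0 t) := ext' (by rw [hz, hz]) h
    exact congrArg G.s (φ.injective this)
  obtain ⟨ε, hε, hσ⟩ := circle_hom σ hσc hσi
  have hσ' : ∀ s, (φ (mk 0 s)).s = ε • s := hσ
  set g : V → V := fun v => (φ (mk v 0)).v with hg
  set h : V → T := fun v => (φ (mk v 0)).s with hh
  have hφ : ∀ v s, φ (mk v s) = mk (g v) (h v + ε • s) := by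
    intro v s
    have : mk v s = mk v 0 * mk 0 s := by apply ext' <;> simp [om]
    rw [this, map_mul]
    apply ext'
    · simp [hz, hg]
    · simp [hz, hh, hσ', om]
  have hmul : ∀ v w, g (v + w) = g v + g w ∧
      h (v + w) + ε • chi (om v w) = h v + h w + chi (om (g v) (g w)) := by
    intro v w
    have : mk (v + w) (chi (om v w)) = mk v 0 * mk w 0 := by apply ext' <;> simp
    have h2 := congrArg φ this
    rw [map_mul, hφ, hφ, hφ] at h2
    exact ⟨by simpa using congrArg G.v h2, by simpa using congrArg G.s h2⟩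
  have hom : ∀ v w, om (g v) (g w) = ε * om v w := by
    intro v w
    have h1 := (hmul v w).2
    have h2 := (hmul w v).2
    rw [add_comm w v, ← chi_zmul] at h2
    rw [← chi_zmul] at h1
    have h3 : chi (ε * om v w - ε * om w v) = chi (om (g v) (g w) - om (g w) (g v)) := by
      rw [map_sub, map_sub]
      calc chi (ε * om v w) - chi (ε * om w v)
          = (h (v + w) + chi (ε * om v w)) - (h (v + w) + chi (ε * om w v)) := by abel
        _ = _ := by rw [h1, h2]; abel
    have h4 := chi_inj h3
    have h5 : (2 : F) * (om (g v) (g w) - ε * om v w) = 0 := by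
      simp only [om] at h4 ⊢; linear_combination -h4
    rcases mul_eq_zero.mp h5 with h | h
    · exact absurd h (by decide)
    · exact sub_eq_zero.mp h
  have hadd : ∀ v w, h (v + w) = h v + h w := by
    intro v w
    have h1 := (hmul v w).2
    rw [hom, chi_zmul] at h1
    exact add_right_cancel h1
  let g' : V →+ V := AddMonoidHom.mk' g (fun v w => (hmul v w).1)
  let h' : V →+ T := AddMonoidHom.mk' h hadd
  have hdec : ∀ v : V, v = v.1 • ((1, 0) : V) + v.2 • ((0, 1) : V) := by intro v; ext <;> simp
  have hglin : ∀ v, g v = v.1 • g (1, 0) + v.2 • g (0, 1) := by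
    intro v
    change g' v = v.1 • g' (1, 0) + v.2 • g' (0, 1)
    rw [← ZMod.map_smul, ← ZMod.map_smul, ← map_add, ← hdec]
  have hdet : (g (1, 0)).1 * (g (0, 1)).2 - (g (0, 1)).1 * (g (1, 0)).2 = ε := by
    have := hom (1, 0) (0, 1)
    simp only [om] at this
    linear_combination this
  let M : L := ⟨(g (1, 0)).1, (g (0, 1)).1, (g (1, 0)).2, (g (0, 1)).2, by
    rw [hdet]; rcases hε with h | h <;> simp [h]⟩
  have hM : ∀ v, M.app v = g v := by
    intro v
    rw [hglin v]
    ext <;> simp [M] <;> ring
  have hMdet : M.det = ε := hdet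
  have hsg : sg M = ε := sign_inj (sg_cases _) hε (by rw [sg_cast, hMdet])
  have h7 : ∀ v : V, (7 : ℕ) • h v = 0 := by
    intro v
    change (7 : ℕ) • h' v = 0
    rw [← map_nsmul]
    have : (7 : ℕ) • v = 0 := by
      rw [← Nat.cast_smul_eq_nsmul F]
      have : ((7 : ℕ) : F) = 0 := by decide
      rw [this, zero_smul]
    rw [this, map_zero]
  obtain ⟨α, hα⟩ := tors _ (h7 (1, 0))
  obtain ⟨β, hβ⟩ := tors _ (h7 (0, 1))
  have hsm : ∀ (z : F) (v : V) (a : F), chi a = h v → h' (z • v) = chi (z * a) := by
    intro z v a ha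
    obtain ⟨n, rfl⟩ := ZMod.intCast_surjective z
    rw [chi_zmul, Int.cast_smul_eq_zsmul, map_zsmul, ha]
    rfl
  have hhv : ∀ v : V, h v = chi (v.1 * α + v.2 * β) := by
    intro v
    change h' v = _
    rw [map_add, ← hsm _ _ _ hα, ← hsm _ _ _ hβ, ← map_add, ← hdec]
  refine ⟨⟨M, M.app (M.det * β, -(M.det * α))⟩, ?_⟩
  ext p
  have hp : p = mk p.v p.s := rfl
  rw [aut_apply, hp, hφ]
  apply ext'
  · simp [act, hM]
  · simp only [act, mk_s, mk_v, hsg, om_app, hhv]
    congr 2
    have := M.det_sq
    simp only [om]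
    linear_combination (p.v.1 * α + p.v.2 * β) * this

end G

theorem lc_real : ∃ (G : Type) (_ : Group G) (_ : TopologicalSpace G) (_ : IsTopologicalGroup G)
    (_ : LocallyCompactSpace G) (_ : T2Space G) (e : A ≃ ContinuousMulEquiv G G),
    ∀ a b : A, e (a * b) = (e b).trans (e a) := by
  refine ⟨G, inferInstance, inferInstance, inferInstance, inferInstance, inferInstance,
    Equiv.ofBijective G.aut ⟨G.aut_inj, G.aut_surj⟩, ?_⟩
  intro a b
  ext p
  exact G.act_mul a b p

end H39.Aut
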