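import Mathlib

set_option autoImplicit false
set_option linter.unusedSectionVars false

namespace H39.Aut

section pw
variable {H : Type} [Group H] {p : ℕ} [Fact p.Prime]

/-- Powers indexed by residues. -/
def pw (t : H) (z : ZMod p) : H := t ^ z.val

theorem pw_natCast {t : H} (ht : t ^ p = 1) (n : ℕ) : pw t (n : ZMod p) = t ^ n := by
  unfold pw
  rw [ZMod.val_natCast, ← pow_eq_pow_mod n ht]

theorem pw_add {t : H} (ht : t ^ p = 1) (a b : ZMod p) : pw t (a + b) = pw t a * pw t b := by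
  unfold pw
  rw [ZMod.val_add, ← pow_eq_pow_mod _ ht, pow_add]

@[simp] theorem pw_zero (t : H) : pw t (0 : ZMod p) = 1 := by simp [pw]

@[simp] theorem pw_one (t : H) : pw t (1 : ZMod p) = t := by simp [pw, ZMod.val_one]

@[simp] theorem one_pw (a : ZMod p) : pw (1 : H) a = 1 := by simp [pw]

theorem pw_mul {t : H} (ht : t ^ p = 1) (a b : ZMod p) : pw t (a * b) = pw (pw t a) b := by
  unfold pw
  rw [ZMod.val_mul, ← pow_eq_pow_mod _ ht, pow_mul]

theorem pw_pow {t : H} (ht : t ^ p = 1) (a : ZMod p) (n : ℕ) : pw t a ^ n = pw t ((n : ZMod p) * a) := by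
  rw [mul_comm, pw_mul ht, pw_natCast]
  unfold pw
  rw [← pow_mul, mul_comm, pow_mul, ht, one_pow]

theorem pw_neg {t : H} (ht : t ^ p = 1) (a : ZMod p) : pw t (-a) = (pw t a)⁻¹ := by
  rw [eq_inv_iff_mul_eq_one, ← pw_add ht, neg_add_cancel, pw_zero]

theorem inv_pw {t : H} (ht : t ^ p = 1) (a : ZMod p) : pw t⁻¹ a = pw t (-a) := by
  rw [pw_neg ht]; simp [pw]

theorem map_pw {K M : Type} [Group K] [FunLike M H K] [MonoidHomClass M H K] (f : M) (t : H)
    (a : ZMod p) : f (pw t a) = pw (f t) a := by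
  simp [pw]

theorem pw_mem {S : Subgroup H} {t : H} (h : t ∈ S) (a : ZMod p) : pw t a ∈ S := S.pow_mem h _

theorem mul_pw {s t : H} (h : Commute s t) (a : ZMod p) : pw (s * t) a = pw s a * pw t a :=
  h.mul_pow _

theorem eq_one_of_pw {t : H} (ht : t ^ p = 1) {a : ZMod p} (ha : a ≠ 0) (h : pw t a = 1) :
    t = 1 := by
  have : pw t (a * a⁻¹) = 1 := by rw [pw_mul ht, h, one_pw]
  rwa [mul_inv_cancel₀ ha, pw_one] at this

/-- The power homomorphism. -/
def zp {t : H} (ht : t ^ p = 1) : Multiplicative (ZMod p) →* H where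
  toFun z := pw t z.toAdd
  map_one' := by simp
  map_mul' a b := by simp [pw_add ht]

@[simp] theorem zp_apply {t : H} (ht : t ^ p = 1) (z : Multiplicative (ZMod p)) :
    zp ht z = pw t z.toAdd := rfl

end pw

theorem vs_fun (p : ℕ) [Fact p.Prime] {W : Type} [AddCommGroup W] [Module (ZMod p) W] (x : W)
    (hx : x ≠ 0) : ∃ f : W →+ ZMod p, f x = 1 := by
  obtain ⟨f, hf⟩ := Module.Projective.exists_dual_eq_one (ZMod p) hx
  exact ⟨f.toAddMonoidHom, hf⟩

theorem add_fun (p : ℕ) [Fact p.Prime] {M : Type} [AddCommGroup M] (S : AddSubgroup M)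
    (hS : ∀ b, p • b ∈ S) (b0 : M) (h : b0 ∉ S) :
    ∃ f : M →+ ZMod p, f b0 = 1 ∧ ∀ s ∈ S, f s = 0 := by
  have hne : (QuotientAddGroup.mk b0 : M ⧸ S) ≠ 0 := by
    intro h0
    exact h ((QuotientAddGroup.eq_zero_iff _).mp h0)
  obtain ⟨f, hf⟩ := @vs_fun p _ (M ⧸ S) _ (QuotientAddGroup.zmodModule (n := p) hS) _ hne
  refine ⟨f.comp (QuotientAddGroup.mk' S), hf, ?_⟩
  intro s hs
  have : (QuotientAddGroup.mk s : M ⧸ S) = 0 := (QuotientAddGroup.eq_zero_iff _).mpr hs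
  simp [this]

theorem exists_fun {B : Type} [Group B] (hc : ∀ a b : B, a * b = b * a) (p : ℕ) [Fact p.Prime]
    (S : Subgroup B) (hS : ∀ b, b ^ p ∈ S) (b0 : B) (h : b0 ∉ S) :
    ∃ f : B →* Multiplicative (ZMod p), (f b0).toAdd = 1 ∧ ∀ s ∈ S, f s = 1 := by
  let _ : CommGroup B := { (inferInstance : Group B) with mul_comm := hc }
  obtain ⟨f, hf, hf0⟩ := add_fun p (M := Additive B) S.toAddSubgroup (fun x => hS x.toMul)
    (Additive.ofMul b0) h
  refine ⟨{ toFun := fun b => Multiplicative.ofAdd (f (Additive.ofMul b))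
            map_one' := by simp
            map_mul' := fun a b => by simp }, by simpa using hf, ?_⟩
  intro s hs
  have := hf0 (Additive.ofMul s) hs
  simp [this]

theorem relIndex_dvd {L : Type} [Group L] [Finite L] (U R : Subgroup L) [R.Normal] :
    U.relIndex R ∣ U.index := by
  have h1 : (U ⊓ R).relIndex U * U.relIndex (U ⊔ R) = (U ⊓ R).relIndex (U ⊔ R) :=
    Subgroup.relIndex_mul_relIndex _ _ _ inf_le_left le_sup_left
  have h2 : (U ⊓ R).relIndex R * R.relIndex (U ⊔ R) = (U ⊓ R).relIndex (U ⊔ R) :=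
    Subgroup.relIndex_mul_relIndex _ _ _ inf_le_right le_sup_right
  rw [Subgroup.inf_relIndex_left] at h1
  rw [Subgroup.inf_relIndex_right, Subgroup.relIndex_sup_right, ← h1, mul_comm] at h2
  have h3 : R.relIndex U ≠ 0 := Subgroup.index_ne_zero_of_finite
  rw [Nat.eq_of_mul_eq_mul_left (Nat.pos_of_ne_zero h3) h2]
  exact Subgroup.relIndex_dvd_index_of_le le_sup_left

theorem root_of_coprime {H : Type} [Group H] {d : H} {j k : ℕ} (hd : d ^ (7 ^ j) = 1)
    (hk : Nat.Coprime k 7) : ∃ m : ℕ, (d ^ m) ^ k = d := by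
  have h1 : orderOf d ∣ 7 ^ j := orderOf_dvd_of_pow_eq_one hd
  have h2 : Nat.Coprime k (orderOf d) := Nat.Coprime.coprime_dvd_right h1 (hk.pow_right j)
  obtain ⟨m, hm⟩ := exists_pow_eq_self_of_coprime h2
  exact ⟨m, by rw [← pow_mul, mul_comm, pow_mul, hm]⟩

/-- Twisting by a central homomorphism is bijective. -/
theorem twist_bij {H : Type} [Group H] (C D : Subgroup H) (hDC : D ≤ C)
    (hDc : D ≤ Subgroup.center H) (ψ : C →* H) (hψ : ∀ c, ψ c ∈ D) (k : ℕ)
    (hk : Nat.Coprime (k + 1) 7) (hD : ∀ d ∈ D, ∃ j, d ^ (7 ^ j) = 1)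
    (hψD : ∀ d (hd : d ∈ D), ψ ⟨d, hDC hd⟩ = d ^ k) :
    (∀ c : C, (c : H) * ψ c = 1 → c = 1) ∧ ∀ c : C, ∃ c' : C, (c' : H) * ψ c' = c := by
  constructor
  · intro c hc
    have hcD : (c : H) ∈ D := by
      rw [mul_eq_one_iff_eq_inv.mp hc]
      exact D.inv_mem (hψ c)
    have h1 : ψ c = (c : H) ^ k := hψD c hcD
    rw [h1, ← pow_succ'] at hc
    obtain ⟨j, hj⟩ := hD c hcD
    obtain ⟨m, hm⟩ := root_of_coprime hj hk
    apply Subtype.ext
    rw [← hm, ← pow_mul, mul_comm, pow_mul, hc, one_pow]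
    rfl
  · intro c
    have hd : (ψ c)⁻¹ ∈ D := D.inv_mem (hψ c)
    obtain ⟨j, hj⟩ := hD _ hd
    obtain ⟨m, hm⟩ := root_of_coprime hj hk
    set d := ((ψ c)⁻¹) ^ m with hdd
    have hdD : d ∈ D := D.pow_mem hd m
    refine ⟨c * ⟨d, hDC hdD⟩, ?_⟩
    rw [map_mul, hψD d hdD]
    have hcm : d * ψ c = ψ c * d := (Subgroup.mem_center_iff.mp (hDc hdD) _).symm
    change (c : H) * d * (ψ c * d ^ k) = c
    calc (c : H) * d * (ψ c * d ^ k) = c * ((d * ψ c) * d ^ k) := by group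
      _ = c * (ψ c * d ^ (k + 1)) := by rw [hcm, pow_succ']; group
      _ = c := by rw [hm]; group

/-- The seven-primary part of a commutative group. -/
def prim (Z : Type) [CommGroup Z] : Subgroup Z where
  carrier := {z | ∃ j, z ^ (7 ^ j) = 1}
  mul_mem' := by
    rintro a b ⟨i, hi⟩ ⟨j, hj⟩
    refine ⟨i + j, ?_⟩
    rw [mul_pow, pow_add, pow_mul, hi, mul_comm (7 ^ i), pow_mul, hj]
    simp
  one_mem' := ⟨0, by simp⟩
  inv_mem' := by
    rintro a ⟨i, hi⟩
    exact ⟨i, by rw [inv_pow, hi, inv_one]⟩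

theorem prim_root {Z : Type} [CommGroup Z] (h7 : ∀ z : Z, ∃ y, y ^ 7 = z) (n : ℕ) (hn : n ≠ 0)
    (d : Z) (hd : d ∈ prim Z) : ∃ e ∈ prim Z, e ^ n = d := by
  obtain ⟨a, n', hn', rfl⟩ := Nat.exists_eq_pow_mul_and_not_dvd hn 7 (by norm_num)
  have key : ∀ a : ℕ, ∀ d ∈ prim Z, ∃ e ∈ prim Z, e ^ (7 ^ a) = d := by
    intro a
    induction a with
    | zero => intro d hd; exact ⟨d, hd, by simp⟩
    | succ a ih =>
      intro d hd
      obtain ⟨e, ⟨j, hj⟩, rfl⟩ := ih d hd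
      obtain ⟨y, rfl⟩ := h7 e
      refine ⟨y, ⟨j + 1, ?_⟩, ?_⟩
      · rw [pow_succ', pow_mul, hj]
      · rw [pow_succ', pow_mul]
  obtain ⟨j, hj⟩ := hd
  have hcop : Nat.Coprime n' 7 :=
    ((Nat.Prime.coprime_iff_not_dvd (by norm_num : Nat.Prime 7)).mpr hn').symm
  obtain ⟨m, hm⟩ := root_of_coprime hj hcop
  obtain ⟨e, he, hed⟩ := key a (d ^ m) ((prim Z).pow_mem ⟨j, hj⟩ m)
  exact ⟨e, he, by rw [pow_mul, hed, hm]⟩

theorem prim_retr {Z : Type} [CommGroup Z] (h7 : ∀ z : Z, ∃ y, y ^ 7 = z) :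
    ∃ r : Z →* Z, (∀ z, r z ∈ prim Z) ∧ ∀ d ∈ prim Z, r d = d := by
  let _ : DivisibleBy (Additive (prim Z)) ℕ := divisibleByOfSMulRightSurj _ _ (fun {n} hn d => by
    obtain ⟨e, he, hed⟩ := prim_root h7 n hn _ d.toMul.2
    exact ⟨Additive.ofMul ⟨e, he⟩, Additive.toMul.injective (Subtype.ext hed)⟩)
  let _ : DivisibleBy (Additive (prim Z)) ℤ := AddGroup.divisibleByIntOfDivisibleByNat _
  obtain ⟨r, hr⟩ := (Module.Baer.of_divisible (Additive (prim Z))).extension_property_addMonoidHom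
    (MonoidHom.toAdditive (prim Z).subtype) (fun a b h => Additive.toMul.injective (Subtype.ext h))
    (AddMonoidHom.id _)
  refine ⟨(prim Z).subtype.comp (MonoidHom.toAdditive.symm r), fun z => Subtype.mem _, ?_⟩
  intro d hd
  have := congrArg (fun f => ((f (Additive.ofMul ⟨d, hd⟩)).toMul : Z)) hr
  exact this

theorem unip {M : Type} [AddCommGroup M] (U : M →+ M) (h7 : ∀ b, U (U (U (U (U (U (U b)))))) = b)
    (h2 : ∀ b, ∃ c, U (U b) - U b - U b + b = 7 • c) (b : M) :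
    ∃ c, 7 • (U b - b + 7 • c) = 0 := by
  let n : M →+ M := U - AddMonoidHom.id M
  have hU : ∀ x, U x = x + n x := fun x => by simp [n]
  have hn : ∀ b, ∃ c, n (n b) = 7 • c := by
    intro b
    obtain ⟨c, hc⟩ := h2 b
    refine ⟨c, ?_⟩
    rw [← hc]
    simp only [n, AddMonoidHom.sub_apply, AddMonoidHom.id_apply, map_sub]
    abel
  obtain ⟨b1, h1⟩ := hn b
  obtain ⟨b2, h2⟩ := hn b1
  obtain ⟨b3, h3⟩ := hn b2
  have e7 := h7 b
  simp only [hU, map_add, h1, map_nsmul, h2, h3] at e7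
  refine ⟨3 • b1 + 5 • n b1 + 35 • b2 + 21 • n b2 + 49 • b3 + 7 • n b3, ?_⟩
  rw [hU b]
  linear_combination (norm := module) e7

theorem transv {H : Type} [Group H] (hc : ∀ a b : H, a * b = b * a)
    (f g : H →* Multiplicative (ZMod 2)) (u w : H) (hu : u ^ 2 = 1) (hw : w ^ 2 = 1)
    (hf : f u = 1) (hg : g w = 1) (T1 T2 : MulAut H)
    (h1 : ∀ h, T1 h = h * pw u (f h).toAdd) (h2 : ∀ h, T2 h = h * pw w (g h).toAdd) :
    (T2 * T1) ^ 12 = 1 := by
  let _ : CommGroup H := { (inferInstance : Group H) with mul_comm := hc }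
  have hpw : ∀ (x : Multiplicative (ZMod 2)) (a : ZMod 2), (pw x a).toAdd = a * x.toAdd := by
    decide
  ext h
  let σ : ZMod 2 → ZMod 2 → ZMod 2 → ZMod 2 → ZMod 2 × ZMod 2 → ZMod 2 × ZMod 2 :=
    fun φ α γ β q => (q.1 + (φ + q.2 * α), q.2 + (γ + (q.1 + (φ + q.2 * α)) * β))
  let X : ZMod 2 × ZMod 2 → H := fun q => h * pw u q.1 * pw w q.2
  have step : ∀ q, (T2 * T1) (X q) =
      X (σ (f h).toAdd (f w).toAdd (g h).toAdd (g u).toAdd q) := by
    intro q
    have e1 : T1 (X q) = X (q.1 + ((f h).toAdd + q.2 * (f w).toAdd), q.2) := by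
      rw [h1]
      simp only [X, map_mul, map_pw, hf, one_pw, mul_one, toAdd_mul, hpw, pw_add hu]
      simp only [mul_assoc, mul_comm, mul_left_comm]
    rw [MulAut.mul_apply, e1, h2]
    simp only [X, σ, map_mul, map_pw, hg, one_pw, mul_one, toAdd_mul, hpw, pw_add hw]
    simp only [mul_assoc]
  have iter : ∀ n q, ((T2 * T1) ^ n) (X q) =
      X ((σ (f h).toAdd (f w).toAdd (g h).toAdd (g u).toAdd)^[n] q) := by
    intro n
    induction n with
    | zero => intro q; rfl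
    | succ n ih => intro q; rw [pow_succ, MulAut.mul_apply, step, ih]; rfl
  have fin : ∀ φ α γ β, (σ φ α γ β)^[12] (0, 0) = (0, 0) := by decide
  have := iter 12 (0, 0)
  rw [fin] at this
  simpa [X] using this

end H39.Aut
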