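import Mathlib
import Pool.Agent.H39.AutA
import Pool.Agent.H39.AutB
import Pool.Agent.H39.AutC

set_option autoImplicit false

namespace H39.Aut

open A

variable {H : Type} [Group H] (θ : MulAut H ≃* A)

/-- The inner automorphism map, read in `A`. -/
def io : H →* A := θ.toMonoidHom.comp MulAut.conj

theorem io_def (h : H) : io θ h = θ (MulAut.conj h) := rfl

theorem io_eq_one {h : H} : io θ h = 1 ↔ h ∈ Subgroup.center H := by
  rw [io_def, map_eq_one_iff _ θ.injective, Subgroup.mem_center_iff]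
  constructor
  · intro hh g
    have := congrArg (fun f : MulAut H => f g) hh
    simp only [MulAut.conj_apply, MulAut.one_apply] at this
    rw [mul_inv_eq_iff_eq_mul] at this
    exact this.symm
  · intro hh
    ext g
    simp [← hh g]

theorem io_act (β : MulAut H) (h : H) : io θ (β h) = θ β * io θ h * (θ β)⁻¹ := by
  rw [io_def, io_def, ← map_inv, ← map_mul, ← map_mul]
  congr 1
  ext g
  simp

theorem central_of_io {a b : H} (h : io θ a = io θ b) : b⁻¹ * a ∈ Subgroup.center H := by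
  rw [← io_eq_one θ, map_mul, map_inv, h, inv_mul_cancel]

theorem inner_fix (hV : ∀ v, ∃ h, io θ h = tr v) (β : MulAut H)
    (hβ : ∀ v, ∃ h, io θ h = tr v ∧ io θ (β h) = tr v) {z : H} (hz : z ∈ Subgroup.center H) :
    β z = z := by
  have hg : (θ β).g = 1 := by
    apply cent_tr
    intro v
    obtain ⟨h, h1, h2⟩ := hβ v
    rw [← h1, ← io_act, h2, h1]
  obtain ⟨h0, hh0⟩ := hV (θ β).v
  have : β = MulAut.conj h0 := by
    apply θ.injective
    rw [← io_def, hh0]
    exact eq_tr hg
  rw [this, MulAut.conj_apply, Subgroup.mem_center_iff.mp hz h0]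
  group

theorem no_scal (β : MulAut H)
    (hβ : ∀ v, ∃ h, io θ h = tr v ∧ io θ (β h) = tr ((2 : F) • v)) : False := by
  apply L.not_two (θ β).g
  intro v
  obtain ⟨h, h1, h2⟩ := hβ v
  rw [io_act, h1, conj_tr] at h2
  exact tr_inj h2

theorem cent_triv (hV : ∀ v, ∃ h, io θ h = tr v) (D : Subgroup H)
    (hDc : D ≤ Subgroup.center H) (ψ : H →* H) (hψ : ∀ c, ψ c ∈ D) (k : ℕ)
    (hk : Nat.Coprime (k + 1) 7) (hD : ∀ d ∈ D, ∃ j, d ^ (7 ^ j) = 1)
    (hψD : ∀ d ∈ D, ψ d = d ^ k) {z : H} (hz : z ∈ Subgroup.center H) : ψ z = 1 := by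
  obtain ⟨hi, hs⟩ := twist_bij ⊤ D le_top hDc (ψ.comp (⊤ : Subgroup H).subtype)
    (fun c => hψ c) k hk hD (fun d hd => hψD d hd)
  let b : H →* H :=
    { toFun := fun h => h * ψ h
      map_one' := by simp
      map_mul' := fun x y => by
        rw [map_mul]
        have := Subgroup.mem_center_iff.mp (hDc (hψ x)) y
        calc x * y * (ψ x * ψ y) = x * (y * ψ x) * ψ y := by group
          _ = _ := by rw [this]; group }
  have hb : Function.Bijective b := by
    constructor
    · rw [injective_iff_map_eq_one]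
      intro a ha
      exact congrArg Subtype.val (hi ⟨a, trivial⟩ ha)
    · intro a
      obtain ⟨c, hc⟩ := hs ⟨a, trivial⟩
      exact ⟨c, hc⟩
  have := inner_fix θ hV (MulEquiv.ofBijective b hb) (fun v => by
    obtain ⟨h, hh⟩ := hV v
    refine ⟨h, hh, ?_⟩
    change io θ (h * ψ h) = _
    rw [map_mul, (io_eq_one θ).mpr (hDc (hψ h)), mul_one, hh]) hz
  change z * ψ z = z at this
  simpa using this

/-- Elements whose image fixes the origin. -/
def CC : Subgroup H where
  carrier := {h | (io θ h).v = 0}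
  mul_mem' := by
    intro a b ha hb
    simp only [Set.mem_ofPred_eq] at ha hb ⊢
    simp [ha, hb]
  one_mem' := by simp
  inv_mem' := by
    intro a ha
    simp only [Set.mem_ofPred_eq] at ha ⊢
    simp [ha]

theorem mem_CC {h : H} : h ∈ CC θ ↔ (io θ h).v = 0 := Iff.rfl

theorem center_le_CC : Subgroup.center H ≤ CC θ := by
  intro z hz
  rw [mem_CC, (io_eq_one θ).mpr hz, one_v]

/-- An equivariant section over the translations. -/
structure Lift where
  s : V → H
  t : H
  ht : t ^ 7 = 1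
  htc : t ∈ Subgroup.center H
  io_s : ∀ v, io θ (s v) = tr v
  s_mul : ∀ v w, s v * s w = s (v + w) * pw t (om v w)
  s_conj : ∀ c ∈ CC θ, ∀ v, c * s v * c⁻¹ = s ((io θ c).g.app v)

theorem s_zero_aux {s : V → H} {t : H} (h : ∀ v w, s v * s w = s (v + w) * pw t (om v w)) :
    s 0 = 1 := by
  have := h 0 0
  simpa [om] using this

theorem build (X : Lift θ) (n : F) (hn : n ≠ 0) (D : Subgroup H)
    (hDc : D ≤ Subgroup.center H) (ψ : CC θ →* H) (hψ : ∀ c, ψ c ∈ D) (k : ℕ)
    (hk : Nat.Coprime (k + 1) 7) (hD : ∀ d ∈ D, ∃ j, d ^ (7 ^ j) = 1)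
    (hψD : ∀ d (hd : d ∈ D), ψ ⟨d, center_le_CC θ (hDc hd)⟩ = d ^ k)
    (hψt : X.t * ψ ⟨X.t, center_le_CC θ X.htc⟩ = pw X.t (n ^ 2)) :
    ∃ β : MulAut H, (∀ v, β (X.s v) = X.s (n • v)) ∧ ∀ c : CC θ, β c = c * ψ c := by
  obtain ⟨hi, hs⟩ := twist_bij (CC θ) D (hDc.trans (center_le_CC θ)) hDc ψ hψ k hk hD hψD
  have s0 : X.s 0 = 1 := s_zero_aux X.s_mul
  have hmem : ∀ h, (X.s (io θ h).v)⁻¹ * h ∈ CC θ := by
    intro h
    rw [mem_CC, map_mul, map_inv, X.io_s]
    simp
  let cp : H → CC θ := fun h => ⟨_, hmem h⟩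
  let b0 : H → H := fun h => X.s (n • (io θ h).v) * (cp h * ψ (cp h))
  have hb0 : ∀ (v : V) (c : CC θ), b0 (X.s v * c) = X.s (n • v) * (c * ψ c) := by
    intro v c
    have hv : (io θ (X.s v * c)).v = v := by
      rw [map_mul, X.io_s]
      simp [(mem_CC θ).mp c.2]
    have hc : cp (X.s v * c) = c := by
      apply Subtype.ext
      change (X.s (io θ (X.s v * c)).v)⁻¹ * (X.s v * c) = c
      rw [hv]; group
    change X.s (n • (io θ (X.s v * c)).v) * (cp (X.s v * c) * ψ (cp (X.s v * c))) = _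
    rw [hv, hc]
  have hdec : ∀ h, ∃ (v : V) (c : CC θ), h = X.s v * c := by
    intro h
    refine ⟨(io θ h).v, cp h, ?_⟩
    change h = _ * ((X.s (io θ h).v)⁻¹ * h)
    group
  have hψc : ∀ c y, y * ψ c = ψ c * y := fun c y => Subgroup.mem_center_iff.mp (hDc (hψ c)) y
  let t' : CC θ := ⟨X.t, center_le_CC θ X.htc⟩
  have hmul : ∀ x y, b0 (x * y) = b0 x * b0 y := by
    intro x y
    obtain ⟨v, c, rfl⟩ := hdec x
    obtain ⟨w, d, rfl⟩ := hdec y
    set g := (io θ (c : H)).g with hg
    have e1 : X.s v * c * (X.s w * d)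
        = X.s (v + g.app w) * ((pw t' (om v (g.app w)) * c * d : CC θ) : H) := by
      have : ((pw t' (om v (g.app w)) : CC θ) : H) = pw X.t (om v (g.app w)) :=
        map_pw (CC θ).subtype t' _
      rw [Subgroup.coe_mul, Subgroup.coe_mul, this, ← mul_assoc (X.s (v + g.app w)),
        ← mul_assoc (X.s (v + g.app w)), ← X.s_mul, ← X.s_conj c c.2]
      group
    rw [e1, hb0, hb0, hb0]
    have e2 : (c : H) * X.s (n • w) = X.s (n • g.app w) * c := by
      rw [← L.app_smul, ← X.s_conj c c.2]; group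
    have e3 : X.s (n • v) * X.s (n • g.app w)
        = X.s (n • (v + g.app w)) * (pw X.t (om v (g.app w)) * ψ (pw t' (om v (g.app w)))) := by
      rw [X.s_mul, smul_add, map_pw, ← mul_pw (hψc t' X.t), hψt, ← pw_mul X.ht]
      congr 2
      simp [om]; ring
    have e4 : ((pw t' (om v (g.app w)) : CC θ) : H) = pw X.t (om v (g.app w)) :=
        map_pw (CC θ).subtype t' _
    rw [Subgroup.coe_mul, Subgroup.coe_mul, e4, map_mul, map_mul]
    calc X.s (n • (v + g.app w)) * (pw X.t (om v (g.app w)) * c * d *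
          (ψ (pw t' (om v (g.app w))) * ψ c * ψ d))
        = X.s (n • (v + g.app w)) * (pw X.t (om v (g.app w)) * ((c * d) *
          ψ (pw t' (om v (g.app w)))) * ψ c * ψ d) := by group
      _ = (X.s (n • (v + g.app w)) * (pw X.t (om v (g.app w)) * ψ (pw t' (om v (g.app w))))) *
          c * (ψ c * d) * ψ d := by rw [hψc _ (c * d : H), ← hψc c d]; group
      _ = X.s (n • v) * (X.s (n • g.app w) * c * ψ c) * d * ψ d := by rw [← e3]; group
      _ = X.s (n • v) * (c * (X.s (n • w) * ψ c)) * d * ψ d := by rw [← e2]; group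
      _ = _ := by rw [hψc c (X.s (n • w))]; group
  let b : H →* H := MonoidHom.mk' b0 hmul
  have hb : Function.Bijective b := by
    constructor
    · rw [injective_iff_map_eq_one]
      intro a ha
      obtain ⟨v, c, rfl⟩ := hdec a
      change b0 _ = 1 at ha
      rw [hb0] at ha
      have h1 := congrArg (fun h => (io θ h).v) ha
      simp only [map_mul, X.io_s, (io_eq_one θ).mpr (hDc (hψ c)), mul_one, mul_v, tr_v, tr_g,
        (mem_CC θ).mp c.2, L.app_zero, add_zero, map_one, one_v] at h1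
      have hv : v = 0 := (smul_eq_zero.mp h1).resolve_left hn
      rw [hv, smul_zero, s0, one_mul] at ha
      rw [hv, s0, hi c ha]
      simp
    · intro a
      obtain ⟨v, c, rfl⟩ := hdec a
      obtain ⟨c', hc'⟩ := hs c
      refine ⟨X.s (n⁻¹ • v) * c', ?_⟩
      change b0 _ = _
      rw [hb0, hc', smul_smul, mul_inv_cancel₀ hn, one_smul]
  refine ⟨MulEquiv.ofBijective b hb, fun v => ?_, fun c => ?_⟩
  · have := hb0 v 1
    simp only [OneMemClass.coe_one, mul_one, map_one] at this
    exact this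
  · have := hb0 0 c
    rw [smul_zero, s0, one_mul, one_mul] at this
    exact this

theorem comm_pow {x y t : H} (htc : t ∈ Subgroup.center H) (h : y * x = x * y * t) (m n : ℕ) :
    y ^ m * x ^ n = x ^ n * y ^ m * t ^ (m * n) := by
  have hc : ∀ (k : ℕ) (g : H), g * t ^ k = t ^ k * g := fun k g =>
    Subgroup.mem_center_iff.mp ((Subgroup.center H).pow_mem htc k) g
  have h1 : ∀ n : ℕ, y * x ^ n = x ^ n * y * t ^ n := by
    intro n
    induction n with
    | zero => simp
    | succ n ih =>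
      calc y * x ^ (n + 1) = (y * x ^ n) * x := by rw [pow_succ]; group
        _ = x ^ n * y * (t ^ n * x) := by rw [ih]; group
        _ = x ^ n * (y * x) * t ^ n := by rw [← hc]; group
        _ = _ := by rw [h]; group
  induction m with
  | zero => simp
  | succ m ih =>
    calc y ^ (m + 1) * x ^ n = y * (y ^ m * x ^ n) := by rw [pow_succ']; group
      _ = (y * x ^ n) * y ^ m * t ^ (m * n) := by rw [ih]; group
      _ = x ^ n * y * (t ^ n * y ^ m) * t ^ (m * n) := by rw [h1]; group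
      _ = _ := by rw [← hc]; group

theorem lift_of_gens {x y : H} (hx : io θ x = tr (1, 0)) (hy : io θ y = tr (0, 1))
    (hx7 : x ^ 7 = 1) (hy7 : y ^ 7 = 1) :
    ∃ (s : V → H) (t : H), t ^ 7 = 1 ∧ t ∈ Subgroup.center H ∧ (∀ v, io θ (s v) = tr v) ∧
      (∀ v w, s v * s w = s (v + w) * pw t (om v w)) ∧
      ∀ ρ : MulAut H, ρ x = x⁻¹ → ρ y = y⁻¹ → (∀ z ∈ Subgroup.center H, ρ z = z) →
        ∀ v, ρ (s v) = s (-v) := by
  set t := (x * y)⁻¹ * (y * x) with ht
  have htc : t ∈ Subgroup.center H := by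
    apply central_of_io θ
    rw [map_mul, map_mul, hx, hy, ← tr_add, ← tr_add, add_comm]
  have h : y * x = x * y * t := by rw [ht]; group
  have ht7 : t ^ 7 = 1 := by
    have := comm_pow htc h 1 7
    simpa [hx7] using this
  have hcp : ∀ a b : F, pw y b * pw x a = pw x a * pw y b * pw t (b * a) := by
    intro a b
    rw [pw_mul ht7]
    unfold pw
    rw [comm_pow htc h, pow_mul]
  have hc : ∀ (a : F) (g : H), g * pw t a = pw t a * g := fun a g =>
    Subgroup.mem_center_iff.mp (pw_mem htc a) g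
  refine ⟨fun v => pw x v.1 * pw y v.2 * pw t (4 * v.1 * v.2), pw t (3 : F), ?_, pw_mem htc _,
    ?_, ?_, ?_⟩
  · rw [pw_pow ht7]
    have : ((7 : ℕ) : F) * 3 = 0 := by decide
    rw [this, pw_zero]
  · intro v
    rw [map_mul, map_mul, (io_eq_one θ).mpr (pw_mem htc _), mul_one, map_pw, map_pw, hx, hy]
    unfold pw
    rw [tr_pow, tr_pow, ← tr_add]
    congr 1
    ext <;> simp
  · intro v w
    simp only [Prod.fst_add, Prod.snd_add, pw_add hx7, pw_add hy7]
    rw [← pw_mul ht7]
    have e : pw t (v.2 * w.1) * (pw t (4 * v.1 * v.2) * pw t (4 * w.1 * w.2))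
        = pw t (4 * (v.1 + w.1) * (v.2 + w.2)) * pw t (3 * om v w) := by
      rw [← pw_add ht7, ← pw_add ht7, ← pw_add ht7]
      congr 1
      have : (7 : F) = 0 := by decide
      simp only [om]
      linear_combination (-v.1 * w.2) * this
    calc pw x v.1 * pw y v.2 * pw t (4 * v.1 * v.2) * (pw x w.1 * pw y w.2 * pw t (4 * w.1 * w.2))
        = pw x v.1 * pw y v.2 * (pw t (4 * v.1 * v.2) * (pw x w.1 * pw y w.2)) *
          pw t (4 * w.1 * w.2) := by group
      _ = pw x v.1 * (pw y v.2 * pw x w.1) * pw y w.2 * pw t (4 * v.1 * v.2) *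
          pw t (4 * w.1 * w.2) := by rw [← hc]; group
      _ = pw x v.1 * pw x w.1 * pw y v.2 * (pw t (v.2 * w.1) * pw y w.2) * pw t (4 * v.1 * v.2) *
          pw t (4 * w.1 * w.2) := by rw [hcp]; group
      _ = pw x v.1 * pw x w.1 * (pw y v.2 * pw y w.2) * (pw t (v.2 * w.1) *
          (pw t (4 * v.1 * v.2) * pw t (4 * w.1 * w.2))) := by rw [← hc]; group
      _ = _ := by rw [e]; group
  · intro ρ h1 h2 h3 v
    simp only [map_mul, map_pw, h1, h2, h3 t htc, inv_pw hx7, inv_pw hy7, Prod.fst_neg,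
      Prod.snd_neg]
    congr 2
    ring

theorem s_pow_aux {s : V → H} {t : H} (h : ∀ v w, s v * s w = s (v + w) * pw t (om v w))
    (v : V) (n : ℕ) : s v ^ n = s ((n : F) • v) := by
  induction n with
  | zero => simp [s_zero_aux h]
  | succ n ih =>
    rw [pow_succ, ih, h]
    have : om ((n : F) • v) v = 0 := by simp [om]; ring
    rw [this, pw_zero, mul_one]
    congr 1
    push_cast
    rw [add_smul, one_smul]

theorem s_neg_aux {s : V → H} {t : H} (h : ∀ v w, s v * s w = s (v + w) * pw t (om v w))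
    (v : V) : s (-v) = (s v)⁻¹ := by
  rw [eq_inv_iff_mul_eq_one, h]
  have : om (-v) v = 0 := by simp [om]; ring
  rw [this, pw_zero, mul_one, neg_add_cancel, s_zero_aux h]

end H39.Aut
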