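import Mathlib
import Pool.Agent.H39.AutD

set_option autoImplicit false

namespace H39.Aut

open A

variable {H : Type} [Group H] (θ : MulAut H ≃* A)

/-- The automorphism attached to minus the identity. -/
def rho : MulAut H := θ.symm (ln L.m1)

theorem th_rho : θ (rho θ) = ln L.m1 := by simp [rho]

theorem rho_rho (h : H) : rho θ (rho θ h) = h := by
  have : rho θ * rho θ = 1 := by
    apply θ.injective
    rw [map_mul, th_rho, ← ln_mul, L.m1_sq, map_one, ln_one]
  rw [← MulAut.mul_apply, this, MulAut.one_apply]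

theorem io_rho {m : H} {v : V} (hm : io θ m = tr v) : io θ (rho θ m) = tr (-v) := by
  rw [io_act, th_rho, hm, conj_tr, ln_g, L.m1_app]

theorem rho_eq {m : H} {v : V} (hm : io θ m = tr v) :
    ∃ z ∈ Subgroup.center H, rho θ m = m⁻¹ * z := by
  refine ⟨m * rho θ m, ?_, by group⟩
  rw [← io_eq_one θ, map_mul, io_rho θ hm, hm, ← tr_add, add_neg_cancel, tr_zero]

theorem good_lift {m : H} {v : V} (hm : io θ m = tr v) (h7 : rho θ (m ^ 7) = m ^ 7) :
    ∃ x, io θ x = tr v ∧ x ^ 7 = 1 ∧ rho θ x = x⁻¹ := by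
  obtain ⟨z, hz, hρ⟩ := rho_eq θ hm
  have hcomm : Commute m (rho θ m)⁻¹ := by
    apply Commute.inv_right
    rw [hρ]
    exact (Commute.refl m).inv_right.mul_right (Subgroup.mem_center_iff.mp hz m)
  set e := m * (rho θ m)⁻¹ with he
  have e7 : e ^ 7 = 1 := by
    rw [he, hcomm.mul_pow, inv_pow, ← map_pow, h7, mul_inv_cancel]
  have eρ : rho θ e = e⁻¹ := by
    rw [he, map_mul, map_inv, rho_rho]; group
  refine ⟨e ^ 4, ?_, ?_, ?_⟩
  · rw [map_pow, he, map_mul, map_inv, io_rho θ hm, hm, ← tr_neg, neg_neg, ← tr_add, tr_pow]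
    congr 1
    rw [← two_smul F v, smul_smul]
    have : ((4 : ℕ) : F) * 2 = 1 := by decide
    rw [this, one_smul]
  · rw [← pow_mul, mul_comm, pow_mul, e7, one_pow]
  · rw [map_pow, eρ, inv_pow]

theorem lift_uniq (hρ : ∀ z ∈ Subgroup.center H, rho θ z = z) {a b : H} (h : io θ a = io θ b)
    (ha : a ^ 7 = 1) (hb : b ^ 7 = 1) (ha' : rho θ a = a⁻¹) (hb' : rho θ b = b⁻¹) : a = b := by
  have hz := central_of_io θ h
  set z := b⁻¹ * a with hzd
  have e : a = b * z := by rw [hzd]; group
  have hc : Commute b z := Subgroup.mem_center_iff.mp hz b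
  have z7 : z ^ 7 = 1 := by rw [e, hc.mul_pow, hb, one_mul] at ha; exact ha
  have z2 : z ^ 2 = 1 := by
    rw [e, map_mul, hb', hρ z hz, hc.eq, mul_inv_rev, mul_right_inj] at ha'
    rw [pow_two]
    nth_rewrite 1 [ha']
    exact inv_mul_cancel z
  have : z = 1 := by
    calc z = z ^ 7 * ((z ^ 2) ^ 3)⁻¹ := by group
      _ = 1 := by rw [z7, z2]; simp
  rw [e, this, mul_one]

theorem lift_case1 (hV : ∀ v, ∃ h, io θ h = tr v) (z0 : H) (hz0 : io θ z0 = ln L.m1) :
    Nonempty (Lift θ) := by
  have hρ : ∀ z ∈ Subgroup.center H, rho θ z = z := by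
    intro z hz
    have : rho θ = MulAut.conj z0 := by
      apply θ.injective
      rw [th_rho, ← io_def, hz0]
    rw [this, MulAut.conj_apply, Subgroup.mem_center_iff.mp hz z0]
    group
  have key : ∀ v, ∃ x, io θ x = tr v ∧ x ^ 7 = 1 ∧ rho θ x = x⁻¹ := by
    intro v
    obtain ⟨m, hm⟩ := hV v
    apply good_lift θ hm
    apply hρ
    rw [← io_eq_one θ, map_pow, hm, tr_pow7]
  obtain ⟨x, hx, hx7, hxρ⟩ := key (1, 0)
  obtain ⟨y, hy, hy7, hyρ⟩ := key (0, 1)
  obtain ⟨s, t, ht7, htc, hs, hmul, hinv⟩ := lift_of_gens θ hx hy hx7 hy7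
  have s7 : ∀ v, s v ^ 7 = 1 := by
    intro v
    rw [s_pow_aux hmul]
    have : ((7 : ℕ) : F) = 0 := by decide
    rw [this, zero_smul, s_zero_aux hmul]
  have sρ : ∀ v, rho θ (s v) = (s v)⁻¹ := fun v => by
    rw [hinv _ hxρ hyρ hρ, s_neg_aux hmul]
  refine ⟨⟨s, t, ht7, htc, hs, hmul, ?_⟩⟩
  intro c hc v
  apply lift_uniq θ hρ _ _ (s7 _) _ (sρ _)
  · rw [map_mul, map_mul, map_inv, hs, hs, conj_tr]
  · rw [conj_pow, s7]; group
  · have : rho θ * MulAut.conj c = MulAut.conj c * rho θ := by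
      apply θ.injective
      rw [map_mul, map_mul, th_rho, ← io_def, eq_ln ((mem_CC θ).mp hc), ← ln_mul, ← ln_mul,
        L.m1_comm]
    have h2 := congrArg (fun f : MulAut H => f (s v)) this
    simp only [MulAut.mul_apply, MulAut.conj_apply] at h2
    rw [h2, sρ]; group

theorem lift_case2 (hV : ∀ v, ∃ h, io θ h = tr v) (hN : ∀ h, (io θ h).g = 1) :
    Nonempty (Lift θ) := by
  have htr : ∀ h, io θ h = tr (io θ h).v := fun h => eq_tr (hN h)
  have hcomm : ∀ a b : H, a * b * a⁻¹ * b⁻¹ ∈ Subgroup.center H := by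
    intro a b
    rw [← io_eq_one θ, map_mul, map_mul, map_mul, map_inv, map_inv, htr a, htr b, ← tr_neg,
      ← tr_neg, ← tr_add, ← tr_add, ← tr_add]
    have : (io θ a).v + (io θ b).v + -(io θ a).v + -(io θ b).v = 0 := by abel
    rw [this, tr_zero]
  obtain ⟨x0, hx0⟩ := hV (1, 0)
  obtain ⟨y0, hy0⟩ := hV (0, 1)
  have hnc : x0 ∉ Subgroup.center H := by
    rw [← io_eq_one θ, hx0]
    intro h
    have := tr_inj (h.trans tr_zero.symm)
    simp at this
  rw [Subgroup.mem_center_iff] at hnc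
  push Not at hnc
  obtain ⟨g, hg⟩ := hnc
  set t := (x0 * g)⁻¹ * (g * x0) with ht
  have ht1 : t ≠ 1 := by
    intro h
    rw [ht, inv_mul_eq_one] at h
    exact hg h.symm
  have hte : t = g⁻¹ * x0⁻¹ * g⁻¹⁻¹ * x0⁻¹⁻¹ := by rw [ht]; group
  have htc : t ∈ Subgroup.center H := hte ▸ hcomm _ _
  have ht7 : t ^ 7 = 1 := by
    have h1 := comm_pow htc (show g * x0 = x0 * g * t by rw [ht]; group) 1 7
    have h2 : x0 ^ 7 ∈ Subgroup.center H := by rw [← io_eq_one θ, map_pow, hx0, tr_pow7]
    rw [pow_one, Subgroup.mem_center_iff.mp h2 g] at h1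
    simpa using h1
  have hof : Abelianization.of t = 1 := by
    rw [hte]
    simp only [map_mul, map_inv, inv_inv]
    rw [mul_comm (Abelianization.of g)⁻¹]
    group
  have hZ : ∀ z ∈ Subgroup.center H, ∃ c : Abelianization H, c ^ 7 = Abelianization.of z := by
    intro z hz
    by_contra hcon
    obtain ⟨f, hf1, hf0⟩ := exists_fun (B := Abelianization H) mul_comm 7
      (powMonoidHom 7 : Abelianization H →* Abelianization H).range (fun b => ⟨b, rfl⟩)
      (Abelianization.of z) hcon
    have := cent_triv θ hV (Subgroup.zpowers t) (by simpa using htc)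
      ((zp ht7).comp (f.comp Abelianization.of))
      (fun c => pw_mem (Subgroup.mem_zpowers t) _) 0 (by norm_num)
      (by
        rintro d ⟨j, rfl⟩
        exact ⟨1, by rw [pow_one, ← zpow_natCast, ← zpow_mul, mul_comm, zpow_mul, zpow_natCast,
          ht7, one_zpow]⟩)
      (by
        rintro d ⟨j, rfl⟩
        simp only [map_zpow, MonoidHom.comp_apply, hof, map_one, one_zpow, pow_zero]) hz
    simp only [MonoidHom.comp_apply, zp_apply, hf1, pw_one] at this
    exact ht1 this
  let U : MulAut H := θ.symm (ln L.u)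
  have hU : θ U = ln L.u := by simp [U]
  have hU7 : U ^ 7 = 1 := by
    apply θ.injective
    rw [map_pow, hU, ← ln_pow, L.u_pow, map_one, ln_one]
  have hioU : ∀ h v, io θ h = tr v → io θ (U h) = tr (L.u.app v) := by
    intro h v hh
    rw [io_act, hU, hh, conj_tr, ln_g]
  let U' : Additive (Abelianization H) →+ Additive (Abelianization H) :=
    MonoidHom.toAdditive (Abelianization.map U.toMonoidHom)
  have hU' : ∀ h, U' (Additive.ofMul (Abelianization.of h))
      = Additive.ofMul (Abelianization.of (U h)) := fun h => rfl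
  have hsurj : ∀ b : Additive (Abelianization H), ∃ h, b = Additive.ofMul (Abelianization.of h) := by
    intro b
    obtain ⟨h, hh⟩ := QuotientGroup.mk_surjective b.toMul
    exact ⟨h, congrArg Additive.ofMul hh.symm⟩
  obtain ⟨c, hc⟩ := unip U' (by
      intro b
      obtain ⟨h, rfl⟩ := hsurj b
      simp only [hU']
      have := congrArg (fun f : MulAut H => f h) hU7
      simp only [pow_succ, pow_zero, one_mul, MulAut.mul_apply, MulAut.one_apply] at this
      rw [this])
    (by
      intro b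
      obtain ⟨h, rfl⟩ := hsurj b
      have hz : U (U h) * (U h)⁻¹ * (U h)⁻¹ * h ∈ Subgroup.center H := by
        have e1 := hioU _ _ (htr h)
        have e2 := hioU _ _ e1
        rw [← io_eq_one θ, map_mul, map_mul, map_mul, map_inv, e2, e1, htr h, ← tr_neg,
          ← tr_add, ← tr_add, ← tr_add, ← tr_zero]
        congr 1
        ext <;> simp [L.u]
      obtain ⟨c, hc⟩ := hZ _ hz
      refine ⟨Additive.ofMul c, ?_⟩
      rw [← ofMul_pow, hc]
      simp only [hU', map_mul, map_inv, ofMul_mul, ofMul_inv, sub_eq_add_neg])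
    (Additive.ofMul (Abelianization.of y0))
  obtain ⟨h', rfl⟩ := hsurj c
  set m := U y0 * y0⁻¹ * h' ^ 7 with hm
  have hiom : io θ m = tr (1, 0) := by
    rw [hm, map_mul, map_mul, map_inv, map_pow, hioU _ _ hy0, hy0, htr h', tr_pow7, mul_one,
      ← tr_neg, ← tr_add]
    congr 1
  have hm7 : m ^ 7 ∈ commutator H := by
    rw [← Abelianization.ker_of, MonoidHom.mem_ker]
    apply Additive.ofMul.injective
    rw [ofMul_one, ← hc, hm]
    simp only [hU', map_mul, map_inv, map_pow, ofMul_mul, ofMul_inv, ofMul_pow, sub_eq_add_neg]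
  have hfix : ∀ k ∈ commutator H, rho θ k = k := by
    have : commutator H ≤ MonoidHom.eqLocus (rho θ).toMonoidHom (MonoidHom.id H) := by
      rw [commutator_def, Subgroup.commutator_le]
      intro a _ b _
      change rho θ (a * b * a⁻¹ * b⁻¹) = a * b * a⁻¹ * b⁻¹
      obtain ⟨z, hz, ha⟩ := rho_eq θ (htr a)
      obtain ⟨w, hw, hb⟩ := rho_eq θ (htr b)
      have hz' := Subgroup.mem_center_iff.mp hz
      have hw' := Subgroup.mem_center_iff.mp hw
      have hk := Subgroup.mem_center_iff.mp (hcomm a b) ((b * a)⁻¹)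
      rw [map_mul, map_mul, map_mul, map_inv, map_inv, ha, hb]
      calc a⁻¹ * z * (b⁻¹ * w) * (a⁻¹ * z)⁻¹ * (b⁻¹ * w)⁻¹
          = a⁻¹ * (z * (b⁻¹ * w)) * z⁻¹ * a * w⁻¹ * b := by group
        _ = a⁻¹ * b⁻¹ * (w * a) * w⁻¹ * b := by rw [← hz']; group
        _ = (b * a)⁻¹ * (a * b * a⁻¹ * b⁻¹) * (b * a) := by rw [← hw']; group
        _ = _ := by rw [hk]; group
    exact fun k hk => this hk
  obtain ⟨x, hx, hx7, -⟩ := good_lift θ hiom (hfix _ hm7)
  have hy : io θ (θ.symm (ln L.w) x) = tr (0, 1) := by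
    rw [io_act, MulEquiv.apply_symm_apply, hx, conj_tr, ln_g]
    congr 1
  obtain ⟨s, t, ht7, htc, hs, hmul, -⟩ := lift_of_gens θ hx hy hx7
    (by rw [← map_pow, hx7, map_one])
  refine ⟨⟨s, t, ht7, htc, hs, hmul, ?_⟩⟩
  intro c hc v
  have : c ∈ Subgroup.center H := by
    rw [← io_eq_one θ, htr c, (mem_CC θ).mp hc, tr_zero]
  rw [hN, L.app_one, ← Subgroup.mem_center_iff.mp this]
  group

theorem range_normal : (io θ).range.Normal := by
  constructor
  rintro _ ⟨h, rfl⟩ x
  exact ⟨θ.symm x h, by rw [io_act, MulEquiv.apply_symm_apply]⟩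

theorem exists_lift (hV : ∀ v, ∃ h, io θ h = tr v) : Nonempty (Lift θ) := by
  have := range_normal θ
  rcases L.normal_cases ((io θ).range.comap lnHom) with h | h
  · apply lift_case2 θ hV
    intro a
    have : (io θ a).g ∈ (io θ).range.comap lnHom := by
      obtain ⟨b, hb⟩ := hV (io θ a).v
      refine ⟨b⁻¹ * a, ?_⟩
      rw [map_mul, map_inv, hb]
      nth_rewrite 2 [eq_tr_ln (io θ a)]
      rw [inv_mul_cancel_left]
      rfl
    rw [h] at this
    exact this
  · obtain ⟨z, hz⟩ := h
    exact lift_case1 θ hV z hz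

theorem abelian_case (h1 : ∀ h, io θ h = 1) : False := by
  have hc : ∀ a b : H, a * b = b * a := fun a b =>
    Subgroup.mem_center_iff.mp ((io_eq_one θ).mp (h1 b)) a
  let I : MulAut H :=
    { toFun := fun h => h⁻¹
      invFun := fun h => h⁻¹
      left_inv := fun h => inv_inv h
      right_inv := fun h => inv_inv h
      map_mul' := fun a b => by rw [mul_inv_rev, hc] }
  have hI : I = 1 := by
    apply θ.injective
    rw [map_one]
    apply center_triv
    intro y
    obtain ⟨β, rfl⟩ := θ.surjective y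
    rw [← map_mul, ← map_mul]
    congr 1
    ext h
    exact (map_inv β h).symm
  have h2 : ∀ h : H, h ^ 2 = 1 := by
    intro h
    have : h⁻¹ = h := congrArg (fun f : MulAut H => f h) hI
    rw [pow_two]
    nth_rewrite 1 [← this]
    exact inv_mul_cancel h
  have hex : ∃ u x : H, u ≠ 1 ∧ x ∉ Subgroup.zpowers u := by
    by_contra hcon
    push Not at hcon
    have htriv : θ.symm (tr (1, 0)) = 1 := by
      ext u
      by_cases hu : u = 1
      · simp [hu]
      · obtain ⟨j, hj⟩ := hcon u (θ.symm (tr (1, 0)) u) hu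
        have hu2 : u ^ (2 : ℤ) = 1 := by exact_mod_cast h2 u
        simp only at hj
        rcases Int.even_or_odd' j with ⟨i, rfl | rfl⟩
        · rw [zpow_mul, hu2, one_zpow] at hj
          exact absurd ((map_eq_one_iff _ (MulEquiv.injective _)).mp hj.symm) hu
        · rw [zpow_add, zpow_mul, hu2, one_zpow, one_mul, zpow_one] at hj
          exact hj.symm
    rw [map_eq_one_iff _ θ.symm.injective] at htriv
    have := tr_inj (htriv.trans tr_zero.symm)
    simp at this
  obtain ⟨u, x, hu, hx⟩ := hex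
  obtain ⟨f, hfx, hf0⟩ := exists_fun hc 2 (Subgroup.zpowers u)
    (fun b => by rw [h2]; exact one_mem _) x hx
  have hfu : f u = 1 := hf0 u (Subgroup.mem_zpowers u)
  have hTT : ∀ h, (h * pw u (f h).toAdd) * pw u (f (h * pw u (f h).toAdd)).toAdd = h := by
    intro h
    rw [map_mul, map_pw, hfu, one_pw, mul_one, mul_assoc, ← pow_two, h2, mul_one]
  let Tv : MulAut H :=
    { toFun := fun h => h * pw u (f h).toAdd
      invFun := fun h => h * pw u (f h).toAdd
      left_inv := hTT
      right_inv := hTT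
      map_mul' := fun a b => by
        rw [map_mul, toAdd_mul, pw_add (h2 u)]
        calc a * b * (pw u (f a).toAdd * pw u (f b).toAdd)
            = a * (b * pw u (f a).toAdd) * pw u (f b).toAdd := by group
          _ = _ := by rw [hc b]; group }
  have hT2 : θ Tv * θ Tv = 1 := by
    rw [← map_mul, map_eq_one_iff _ θ.injective]
    ext h
    exact hTT h
  have hg : (θ Tv).g = 1 := by
    apply L.eq_of_app
    intro v
    set τ : MulAut H := θ.symm (tr v) with hτ
    have := transv hc f (f.comp (τ⁻¹ : MulAut H).toMonoidHom) u (τ u) (h2 _) (h2 _) hfu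
      (by simp [hfu]) Tv (τ * Tv * τ⁻¹) (fun h => rfl) (fun h => by
        change τ ((τ⁻¹ : MulAut H) h * pw u (f ((τ⁻¹ : MulAut H) h)).toAdd) = _
        rw [map_mul, map_pw]
        simp)
    have h3 := congrArg θ this
    have h4 : θ Tv = (θ Tv)⁻¹ := eq_inv_of_mul_eq_one_left hT2
    rw [map_pow, map_mul, map_mul, map_mul, map_inv, hτ, MulEquiv.apply_symm_apply, map_one] at h3
    have h5 : tr v * θ Tv * (tr v)⁻¹ * θ Tv = tr (v + -(θ Tv).g.app v) := by
      rw [tr_add, ← L.app_neg, ← conj_tr, tr_neg, ← h4]; group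
    rw [h5, tr_pow] at h3
    have h6 := tr_inj (h3.trans tr_zero.symm)
    rcases smul_eq_zero.mp h6 with h | h
    · exact absurd h (by decide)
    · rw [L.app_one]; exact (add_neg_eq_zero.mp h).symm
  have hv : (θ Tv).v = 0 := by
    have := congrArg A.v hT2
    rw [mul_v, hg, L.app_one, one_v, ← two_smul F] at this
    rcases smul_eq_zero.mp this with h | h
    · exact absurd h (by decide)
    · exact h
  have hT1 : Tv = 1 := by
    rw [← map_eq_one_iff _ θ.injective]
    exact A.ext' hg hv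
  have : x * pw u (f x).toAdd = x := congrArg (fun f : MulAut H => f x) hT1
  rw [hfx, pw_one] at this
  exact hu (by simpa using this)

end H39.Aut
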