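import Mathlib
import Pool.Agent.H39.AutE

set_option autoImplicit false

namespace H39.Aut

open A
open scoped IsMulCommutative

variable {H : Type} [Group H] (θ : MulAut H ≃* A)

theorem u_order : orderOf L.u = 7 := orderOf_eq_prime L.u_pow L.u_ne

theorem u_index : (Subgroup.zpowers L.u).index = 96 := by
  have := (Subgroup.zpowers L.u).card_mul_index
  rw [Nat.card_zpowers, u_order, L.card] at this
  omega

theorem u_gen {g : L} (hg : g ∈ Subgroup.zpowers L.u) (h1 : g ≠ 1) : ∃ k : ℕ, g ^ k = L.u := by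
  have hp : (Nat.card (Subgroup.zpowers L.u)).Prime := by
    rw [Nat.card_zpowers, u_order]; norm_num
  have : Fact (Nat.card (Subgroup.zpowers L.u)).Prime := ⟨hp⟩
  obtain ⟨k, hk⟩ := mem_powers_of_prime_card (G := Subgroup.zpowers L.u) rfl
    (g := ⟨g, hg⟩) (g' := ⟨L.u, Subgroup.mem_zpowers _⟩) (fun h => h1 (congrArg Subtype.val h))
  exact ⟨k, congrArg Subtype.val hk⟩

def piC : CC θ →* L := lin.comp ((io θ).comp (CC θ).subtype)

theorem piC_apply (c : CC θ) : piC θ c = (io θ c).g := rfl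

theorem io_CC (c : CC θ) : io θ c = ln (piC θ c) := eq_ln ((mem_CC θ).mp c.2)

theorem piC_normal : (piC θ).range.Normal := by
  constructor
  rintro _ ⟨c, rfl⟩ g
  refine ⟨⟨θ.symm (ln g) c, ?_⟩, ?_⟩
  · rw [mem_CC, io_act, MulEquiv.apply_symm_apply, io_CC, ← ln_inv, ← ln_mul, ← ln_mul, ln_v]
  · rw [piC_apply, io_act, MulEquiv.apply_symm_apply, io_CC, ← ln_inv, ← ln_mul, ← ln_mul, ln_g]

def BB : Subgroup (CC θ) := (Subgroup.zpowers L.u).comap (piC θ)

theorem BB_index : (BB θ).index ∣ 96 := by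
  have := piC_normal θ
  rw [BB, Subgroup.index_comap, ← u_index]
  exact relIndex_dvd _ _

theorem BB_comm (a b : BB θ) : a * b = b * a := by
  let f : BB θ →* Subgroup.zpowers L.u :=
    ((piC θ).comp (BB θ).subtype).codRestrict _ (fun b => b.2)
  refine (f.isMulCommutative_of_isCyclic_of_ker_le_center ?_).is_comm.comm a b
  intro x hx
  have h1 : piC θ x = 1 := congrArg Subtype.val hx
  have h2 : ((x : CC θ) : H) ∈ Subgroup.center H := by
    rw [← io_eq_one θ, io_CC, h1, ln_one]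
  rw [Subgroup.mem_center_iff]
  intro y
  exact Subtype.ext (Subtype.ext (Subgroup.mem_center_iff.mp h2 _))

theorem cen_BB {z : H} (hz : z ∈ Subgroup.center H) : (⟨z, center_le_CC θ hz⟩ : CC θ) ∈ BB θ := by
  change (io θ z).g ∈ Subgroup.zpowers L.u
  rw [(io_eq_one θ).mpr hz]
  exact one_mem _

theorem exists_tr (f : BB θ →* Multiplicative F) :
    ∃ f' : CC θ →* Multiplicative F, ∃ m : F, m ≠ 0 ∧ ∀ z (hz : z ∈ Subgroup.center H),
      (f' ⟨z, center_le_CC θ hz⟩).toAdd = m * (f ⟨_, cen_BB θ hz⟩).toAdd := by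
  have hi := BB_index θ
  have : (BB θ).FiniteIndex := ⟨fun h => by rw [h] at hi; norm_num at hi⟩
  refine ⟨MonoidHom.transfer f, ((BB θ).index : F), ?_, ?_⟩
  · intro h
    rw [ZMod.natCast_eq_zero_iff] at h
    have := h.trans hi
    norm_num at this
  · intro z hz
    rw [MonoidHom.transfer_eq_pow f _ (by
      intro k g _
      apply Subtype.ext
      have := Subgroup.mem_center_iff.mp ((Subgroup.center H).pow_mem hz k) g
      simp only [Subgroup.coe_mul, Subgroup.coe_inv, Subgroup.coe_pow]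
      rw [mul_assoc, ← this]; group)]
    rw [← nsmul_eq_mul, ← toAdd_pow, ← map_pow]
    rfl

theorem zpow7 {t : H} (ht7 : t ^ 7 = 1) : ∀ d ∈ Subgroup.zpowers t, ∃ j, d ^ (7 ^ j) = 1 := by
  rintro d ⟨j, rfl⟩
  exact ⟨1, by rw [pow_one, ← zpow_natCast, ← zpow_mul, mul_comm, zpow_mul, zpow_natCast,
    ht7, one_zpow]⟩

/-- Twisting by a scaled character of `C`. -/
theorem build_char (X : Lift θ) (n : F) (hn : n ≠ 0) (f' : CC θ →* Multiplicative F) (κ : F)
    (k : ℕ) (hk : Nat.Coprime (k + 1) 7) (hnk : n ^ 2 = 1 + k)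
    (hf : κ * (f' ⟨X.t, center_le_CC θ X.htc⟩).toAdd = k) :
    ∃ β : MulAut H, (∀ v, β (X.s v) = X.s (n • v)) ∧
      ∀ c : CC θ, β c = c * pw X.t (κ * (f' c).toAdd) := by
  let ψ : CC θ →* H :=
    { toFun := fun c => pw X.t (κ * (f' c).toAdd)
      map_one' := by simp
      map_mul' := fun a b => by rw [map_mul, toAdd_mul, mul_add, pw_add X.ht] }
  have hψt : ψ ⟨X.t, center_le_CC θ X.htc⟩ = X.t ^ k := by
    change pw X.t _ = _
    rw [hf, pw_natCast X.ht]
  refine build θ X n hn (Subgroup.zpowers X.t) (by simpa using X.htc) ψ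
    (fun c => pw_mem (Subgroup.mem_zpowers _) _) k hk (zpow7 X.ht) ?_ ?_
  · rintro d ⟨j, rfl⟩
    have : ψ (⟨X.t, center_le_CC θ X.htc⟩ ^ j) = (X.t ^ k) ^ j := by rw [map_zpow, hψt]
    refine this.trans ?_
    simp only
    rw [← zpow_natCast, ← zpow_natCast, ← zpow_mul, ← zpow_mul, mul_comm]
  · rw [hψt, hnk, pw_add X.ht, pw_one, pw_natCast X.ht]

theorem no_lift (hV : ∀ v, ∃ h, io θ h = tr v) (X : Lift θ) : False := by
  have scal : ∀ β : MulAut H, (∀ v, β (X.s v) = X.s ((2 : F) • v)) → False := fun β hβ =>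
    no_scal θ β (fun v => ⟨X.s v, X.io_s v, by rw [hβ, X.io_s]⟩)
  by_cases ht1 : X.t = 1
  · obtain ⟨β, hβ, -⟩ := build θ X 2 (by decide) ⊥ bot_le 1 (fun c => one_mem _) 0 (by norm_num)
      (fun d hd => ⟨0, by simpa using hd⟩) (fun d hd => by simp) (by simp [ht1])
    exact scal β hβ
  let S : Subgroup (BB θ) :=
    { carrier := {b | ∃ c, c ^ 7 = b}
      mul_mem' := by
        rintro _ _ ⟨a, rfl⟩ ⟨b, rfl⟩
        exact ⟨a * b, Commute.mul_pow (BB_comm θ a b) 7⟩
      one_mem' := ⟨1, one_pow 7⟩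
      inv_mem' := by
        rintro _ ⟨a, rfl⟩
        exact ⟨a⁻¹, inv_pow a 7⟩ }
  have hS : ∀ b, b ^ 7 ∈ S := fun b => ⟨b, rfl⟩
  have htS : (⟨_, cen_BB θ X.htc⟩ : BB θ) ∈ S := by
    by_contra hcon
    obtain ⟨f, hf1, -⟩ := exists_fun (BB_comm θ) 7 S hS _ hcon
    obtain ⟨f', m, hm, hf'⟩ := exists_tr θ f
    obtain ⟨β, hβ, -⟩ := build_char θ X 2 (by decide) f' (3 * m⁻¹) 3 (by norm_num) (by decide)
      (by rw [hf' _ X.htc, hf1]; field_simp; rfl)
    exact scal β hβ
  have hZB : ∀ z (hz : z ∈ Subgroup.center H), (⟨_, cen_BB θ hz⟩ : BB θ) ∈ S := by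
    intro z hz
    by_contra hcon
    obtain ⟨f, hf1, hf0⟩ := exists_fun (BB_comm θ) 7 S hS _ hcon
    obtain ⟨f', m, hm, hf'⟩ := exists_tr θ f
    obtain ⟨β, hβ, hβ'⟩ := build_char θ X 1 (by decide) f' 1 0 (by norm_num) (by decide)
      (by rw [hf' _ X.htc, hf0 _ htS]; simp)
    have h1 := inner_fix θ hV β (fun v => ⟨X.s v, X.io_s v, by rw [hβ, X.io_s, one_smul]⟩) hz
    have h2 := hβ' ⟨z, center_le_CC θ hz⟩
    rw [hf' z hz, hf1, one_mul, mul_one] at h2
    simp only at h2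
    rw [h1] at h2
    exact ht1 (eq_one_of_pw X.ht hm (by simpa using h2))
  have hZ : ∀ z : Subgroup.center H, ∃ y, y ^ 7 = z := by
    rintro ⟨z, hz⟩
    obtain ⟨⟨b, hb⟩, hb7⟩ := hZB z hz
    have hb7' : (b : H) ^ 7 = z := congrArg (fun x : BB θ => ((x : CC θ) : H)) hb7
    by_cases h1 : piC θ b = 1
    · refine ⟨⟨b, ?_⟩, Subtype.ext hb7'⟩
      rw [← io_eq_one θ, io_CC, h1, ln_one]
    · have hN := piC_normal θ
      obtain ⟨k, hk⟩ := u_gen hb h1
      have hu : L.u ∈ (piC θ).range := by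
        rw [← hk]
        exact Subgroup.pow_mem _ (MonoidHom.mem_range.mpr ⟨b, rfl⟩) k
      have hd : L.dg ∈ (piC θ).range := by
        rw [L.dg_eq]
        have hl := hN.conj_mem _ hu L.w
        exact mul_mem (mul_mem (mul_mem hu (pow_mem hl 5)) (pow_mem hu 2)) (pow_mem hl 6)
      obtain ⟨δ, hδ⟩ := hd
      have hconj : L.dg * piC θ b * L.dg⁻¹ = piC θ b ^ 2 := by
        obtain ⟨j, hj⟩ := hb
        simp only at hj
        rw [← hj, ← conj_zpow, L.dg_conj, ← zpow_natCast, ← zpow_natCast, ← zpow_mul, ← zpow_mul,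
          mul_comm]
      have hc : ((b : H) ^ 2)⁻¹ * (δ * b * (δ : H)⁻¹) ∈ Subgroup.center H := by
        apply central_of_io θ
        rw [map_mul, map_mul, map_inv, map_pow, io_CC, io_CC, hδ, ← ln_inv, ← ln_mul, ← ln_mul,
          hconj, ln_pow]
      set z' := ((b : H) ^ 2)⁻¹ * (δ * b * (δ : H)⁻¹) with hz'
      have e : (δ : H) * b * (δ : H)⁻¹ = (b : H) ^ 2 * z' := by rw [hz']; group
      have e7 : ((δ : H) * b * (δ : H)⁻¹) ^ 7 = ((b : H) ^ 2 * z') ^ 7 := by rw [e]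
      rw [conj_pow, hb7', Commute.mul_pow (Subgroup.mem_center_iff.mp hc _), ← pow_mul, mul_comm 2,
        pow_mul, hb7', Subgroup.mem_center_iff.mp hz δ] at e7
      refine ⟨⟨z'⁻¹, inv_mem hc⟩, Subtype.ext ?_⟩
      change z'⁻¹ ^ 7 = z
      rw [inv_pow, inv_eq_iff_mul_eq_one, Subgroup.mem_center_iff.mp hz]
      have : z * (z * z' ^ 7) = z * 1 := by
        rw [← mul_assoc, ← pow_two, ← e7]; group
      exact mul_left_cancel this
  have hker : (io θ).ker = Subgroup.center H := by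
    ext h
    rw [MonoidHom.mem_ker, io_eq_one]
  have hfi : (Subgroup.center H).FiniteIndex := by
    rw [← hker]; infer_instance
  obtain ⟨r, hr1, hr2⟩ := prim_retr hZ
  set n := (Subgroup.center H).index with hn
  have hn0 : n ≠ 0 := hfi.index_ne_zero
  let ψ : H →* H := (Subgroup.center H).subtype.comp
    ((powMonoidHom 7).comp (r.comp (MonoidHom.transferCenterPow H)))
  have hψD : ∀ d : Subgroup.center H, d ∈ prim (Subgroup.center H) → ψ d = (d : H) ^ (n * 7) := by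
    intro d hd
    have h1 : MonoidHom.transferCenterPow H d = d ^ n := Subtype.ext rfl
    change ((r (MonoidHom.transferCenterPow H d)) ^ 7 : Subgroup.center H).1 = _
    rw [h1, hr2 _ (pow_mem hd n), ← pow_mul]
    rfl
  obtain ⟨e, he, hen⟩ := prim_root hZ (n * 7) (by omega) ⟨X.t, X.htc⟩
    ⟨1, Subtype.ext (by simpa using X.ht)⟩
  have := cent_triv θ hV ((prim (Subgroup.center H)).map (Subgroup.center H).subtype)
    (Subgroup.map_subtype_le _) ψ (fun c => ⟨_, pow_mem (hr1 _) 7, rfl⟩) (n * 7)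
    (by simp)
    (by
      rintro _ ⟨d, ⟨j, hj⟩, rfl⟩
      exact ⟨j, congrArg Subtype.val hj⟩)
    (by
      rintro _ ⟨d, hd, rfl⟩
      exact hψD d hd) e.2
  rw [hψD e he] at this
  apply ht1
  rw [← this]
  exact (congrArg Subtype.val hen).symm

theorem not_real (θ : MulAut H ≃* A) : False := by
  have := range_normal θ
  rcases A.normal_cases (io θ).range with h | h
  · apply abelian_case θ
    intro a
    have : io θ a ∈ (io θ).range := ⟨a, rfl⟩
    rw [h] at this
    exact this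
  · obtain ⟨X⟩ := exists_lift θ h
    exact no_lift θ h X

end H39.Aut
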