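import Mathlib

set_option autoImplicit false

namespace Pool.Agent.H39.Equi

open Set Filter Topology MeasureTheory

def UD (x : ℕ → ℝ) : Prop :=
  ∀ a b : ℝ, 0 ≤ a → a ≤ b → b ≤ 1 →
    Tendsto (fun N : ℕ => (((Finset.range N).filter
      (fun n => a ≤ Int.fract (x n) ∧ Int.fract (x n) < b)).card : ℝ) / (N : ℝ))
      atTop (𝓝 (b - a))

open Classical in
noncomputable def cnt (P : ℕ → Prop) (N : ℕ) : ℝ := ((Finset.range N).filter P).card

theorem cnt_eq (P : ℕ → Prop) [DecidablePred P] (N : ℕ) :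
    (((Finset.range N).filter P).card : ℝ) = cnt P N := by
  unfold cnt
  congr

open Classical in
theorem cnt_sum (P : ℕ → Prop) (N : ℕ) :
    cnt P N = ∑ n ∈ Finset.range N, if P n then (1 : ℝ) else 0 := by
  simp [cnt]

theorem cnt_mono {P Q : ℕ → Prop} (h : ∀ n, P n → Q n) (N : ℕ) : cnt P N ≤ cnt Q N := by
  classical
  unfold cnt
  exact_mod_cast Finset.card_le_card (Finset.monotone_filter_right _ fun n _ => h n)

theorem cnt_or (P Q : ℕ → Prop) (N : ℕ) : cnt (fun n => P n ∨ Q n) N ≤ cnt P N + cnt Q N := by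
  classical
  simp only [cnt_sum, ← Finset.sum_add_distrib]
  refine Finset.sum_le_sum fun n _ => ?_
  by_cases h1 : P n <;> by_cases h2 : Q n <;> simp [h1, h2]

theorem cnt_not (P : ℕ → Prop) (N : ℕ) : cnt P N + cnt (fun n => ¬ P n) N = N := by
  classical
  simp only [cnt_sum, ← Finset.sum_add_distrib]
  rw [Finset.sum_congr rfl (g := fun _ => (1 : ℝ)) fun n _ => by by_cases h1 : P n <;> simp [h1]]
  simp

theorem cnt_nonneg (P : ℕ → Prop) (N : ℕ) : 0 ≤ cnt P N := Nat.cast_nonneg _

theorem cnt_le (P : ℕ → Prop) (N : ℕ) : cnt P N ≤ N := by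
  linarith [cnt_not P N, cnt_nonneg (fun n => ¬ P n) N]

def Arc (c r t : ℝ) : Prop := ∃ z : ℤ, |t + z - c| < r

def ArcUp (x : ℕ → ℝ) : Prop :=
  ∀ c r ε : ℝ, 0 < r → 0 < ε → ∀ᶠ N : ℕ in atTop, cnt (fun n => Arc c r (x n)) N ≤ (2 * r + ε) * N

theorem UD.ev {x : ℕ → ℝ} (h : UD x) {a b : ℝ} (h1 : 0 ≤ a) (h2 : a ≤ b) (h3 : b ≤ 1) {ε : ℝ}
    (hε : 0 < ε) : ∀ᶠ N : ℕ in atTop,
      |cnt (fun n => a ≤ Int.fract (x n) ∧ Int.fract (x n) < b) N - (b - a) * N| ≤ ε * N := by
  have h4 := Metric.tendsto_nhds.1 (h a b h1 h2 h3) ε hε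
  filter_upwards [h4, eventually_gt_atTop 0] with N h5 hN
  have hN' : (0 : ℝ) < N := by exact_mod_cast hN
  rw [cnt_eq, Real.dist_eq] at h5
  have : cnt (fun n => a ≤ Int.fract (x n) ∧ Int.fract (x n) < b) N - (b - a) * N =
      (cnt (fun n => a ≤ Int.fract (x n) ∧ Int.fract (x n) < b) N / N - (b - a)) * N := by
    field_simp
  rw [this, abs_mul, abs_of_pos hN']
  exact mul_le_mul_of_nonneg_right h5.le hN'.le

theorem ud_of_arcUp {x : ℕ → ℝ} (h : ArcUp x) : UD x := by
  intro a b h1 h2 h3
  rw [Metric.tendsto_nhds]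
  intro ε hε
  filter_upwards [h ((a + b) / 2) ((b - a) / 2 + ε / 8) (ε / 4) (by linarith) (by linarith),
    h ((b + 1 + a) / 2) ((1 + a - b) / 2 + ε / 8) (ε / 4) (by linarith) (by linarith),
    eventually_gt_atTop 0] with N h4 h5 hN
  have hN' : (0 : ℝ) < N := by exact_mod_cast hN
  rw [cnt_eq, Real.dist_eq]
  have h6 := cnt_mono (P := fun n => a ≤ Int.fract (x n) ∧ Int.fract (x n) < b)
    (Q := fun n => Arc ((a + b) / 2) ((b - a) / 2 + ε / 8) (x n)) (fun n hn => ⟨-⌊x n⌋, by
      have := Int.fract_add_floor (x n)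
      push_cast
      rw [abs_lt]
      constructor <;> linarith [hn.1, hn.2]⟩) N
  have h7 := cnt_mono (P := fun n => ¬ (a ≤ Int.fract (x n) ∧ Int.fract (x n) < b))
    (Q := fun n => Arc ((b + 1 + a) / 2) ((1 + a - b) / 2 + ε / 8) (x n)) (fun n hn => by
      have h8 := Int.fract_add_floor (x n)
      have h9 := Int.fract_nonneg (x n)
      have h10 := Int.fract_lt_one (x n)
      by_cases h11 : a ≤ Int.fract (x n)
      · have h12 : b ≤ Int.fract (x n) := not_lt.1 fun h => hn ⟨h11, h⟩
        refine ⟨-⌊x n⌋, ?_⟩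
        push_cast
        rw [abs_lt]
        constructor <;> linarith
      · refine ⟨-⌊x n⌋ + 1, ?_⟩
        push_cast
        rw [abs_lt]
        constructor <;> linarith [not_le.1 h11]) N
  have h8 := cnt_not (fun n => a ≤ Int.fract (x n) ∧ Int.fract (x n) < b) N
  rw [abs_lt, lt_sub_iff_add_lt, lt_div_iff₀ hN', sub_lt_iff_lt_add, div_lt_iff₀ hN']
  constructor <;> nlinarith

theorem arcUp_of_ud {x : ℕ → ℝ} (h : UD x) : ArcUp x := by
  intro c r ε hr hε
  by_cases h0 : 1 ≤ 2 * r
  · refine Eventually.of_forall fun N => (cnt_le _ _).trans ?_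
    have : (0 : ℝ) ≤ N := Nat.cast_nonneg N
    nlinarith
  set a := Int.fract (c - r) with ha
  have ha0 : 0 ≤ a := Int.fract_nonneg _
  have ha1 : a < 1 := Int.fract_lt_one _
  filter_upwards [h.ev ha0 (le_min (by linarith) ha1.le) (min_le_right (a + 2 * r) 1)
      (half_pos hε),
    h.ev le_rfl (le_max_right (a + 2 * r - 1) 0) (max_le (by linarith) zero_le_one)
      (half_pos hε)] with N h1 h2
  refine (cnt_mono (Q := fun n => (a ≤ Int.fract (x n) ∧ Int.fract (x n) < min (a + 2 * r) 1) ∨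
    (0 ≤ Int.fract (x n) ∧ Int.fract (x n) < max (a + 2 * r - 1) 0)) ?_ N).trans
    ((cnt_or _ _ _).trans ?_)
  · rintro n ⟨z, hz⟩
    rw [abs_lt] at hz
    have h3 := Int.fract_add_floor (c - r)
    by_cases h4 : x n + z - ⌊c - r⌋ < 1
    · have h5 : Int.fract (x n) = x n + z - ⌊c - r⌋ := by
        rw [Int.fract_eq_iff]
        exact ⟨by linarith, h4, ⌊c - r⌋ - z, by push_cast; ring⟩
      exact Or.inl ⟨by linarith, lt_min (by linarith) (by linarith)⟩
    · have h5 : Int.fract (x n) = x n + z - ⌊c - r⌋ - 1 := by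
        rw [Int.fract_eq_iff]
        exact ⟨by linarith, by linarith, ⌊c - r⌋ - z + 1, by push_cast; ring⟩
      exact Or.inr ⟨by linarith, lt_max_of_lt_left (by linarith)⟩
  · have h3 : min (a + 2 * r) 1 - a + (max (a + 2 * r - 1) 0 - 0) = 2 * r := by
      rcases le_total (a + 2 * r) 1 with h | h
      · rw [min_eq_left h, max_eq_right (by linarith)]; ring
      · rw [min_eq_right h, max_eq_left (by linarith)]; ring
    have h4 := (abs_le.1 h1).2
    have h5 := (abs_le.1 h2).2
    have h6 : (min (a + 2 * r) 1 - a) * N + (max (a + 2 * r - 1) 0 - 0) * N = 2 * r * N := by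
      rw [← add_mul, h3]
    linarith

theorem arcUp_iff_rat {x : ℕ → ℝ} : ArcUp x ↔ ∀ p : ℚ × ℚ × ℕ, ∃ M : ℕ, ∀ N, M ≤ N →
    cnt (fun n => Arc p.1 p.2.1 (x n)) N ≤ (2 * |(p.2.1 : ℝ)| + 1 / (p.2.2 + 1)) * N := by
  constructor
  · rintro h ⟨c, r, j⟩
    by_cases hr : (0 : ℝ) < r
    · simpa only [abs_of_pos hr] using eventually_atTop.1 (h c r (1 / (j + 1)) hr (by positivity))
    · refine ⟨0, fun N _ => ?_⟩
      refine (cnt_mono (Q := fun _ => False) ?_ N).trans ?_
      · rintro n ⟨z, hz⟩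
        exact hr ((abs_nonneg _).trans_lt hz)
      · simp only [cnt_sum, if_false, Finset.sum_const_zero]
        positivity
  · intro h c r ε hr hε
    obtain ⟨c', h1, h2⟩ := exists_rat_btwn (show c < c + ε / 8 by linarith)
    obtain ⟨r', h3, h4⟩ := exists_rat_btwn (show r + ε / 8 < r + ε / 4 by linarith)
    obtain ⟨j, hj⟩ := exists_nat_one_div_lt (half_pos hε)
    obtain ⟨M, hM⟩ := h (c', r', j)
    filter_upwards [eventually_ge_atTop M] with N hN
    refine (cnt_mono ?_ N).trans ((hM N hN).trans ?_)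
    · rintro n ⟨z, hz⟩
      refine ⟨z, ?_⟩
      rw [abs_lt] at hz ⊢
      constructor <;> simp only <;> linarith [hz.1, hz.2]
    · simp only
      rw [abs_of_pos (by linarith)]
      exact mul_le_mul_of_nonneg_right (by linarith) (Nat.cast_nonneg N)

theorem isClosed_cnt {X : Type} [TopologicalSpace X] {x : X → ℕ → ℝ}
    (hx : ∀ n, Continuous fun ξ => x ξ n) (c r K : ℝ) (N : ℕ) :
    IsClosed {ξ | cnt (fun n => Arc c r (x ξ n)) N ≤ K} := by
  rw [← isOpen_compl_iff, isOpen_iff_mem_nhds]
  intro ξ hξ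
  have h1 : ∀ᶠ ξ' in 𝓝 ξ, ∀ n ∈ Finset.range N, Arc c r (x ξ n) → Arc c r (x ξ' n) := by
    rw [eventually_all_finset]
    intro n _
    by_cases h : Arc c r (x ξ n)
    · obtain ⟨z, hz⟩ := h
      have : ∀ᶠ ξ' in 𝓝 ξ, |x ξ' n + z - c| < r :=
        (isOpen_lt (by have := hx n; fun_prop) continuous_const).mem_nhds hz
      exact this.mono fun ξ' h _ => ⟨z, h⟩
    · exact Eventually.of_forall fun _ h' => absurd h' h
  filter_upwards [h1] with ξ' h2 h3
  refine hξ (show cnt (fun n => Arc c r (x ξ n)) N ≤ K from le_trans ?_ h3)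
  classical
  unfold cnt
  exact_mod_cast Finset.card_le_card (Finset.monotone_filter_right _ h2)

/-- A countable intersection of uniform distribution conditions is a countable intersection
of countable unions of closed sets. -/
theorem pi03 {X ι : Type} [TopologicalSpace X] [Countable ι] [Nonempty ι] {x : ι → X → ℕ → ℝ}
    (hx : ∀ i n, Continuous fun ξ => x i ξ n) :
    ∃ F : ℕ → ℕ → Set X, (∀ i j, IsClosed (F i j)) ∧ {ξ | ∀ i, UD (x i ξ)} = ⋂ i, ⋃ j, F i j := by
  obtain ⟨e, he⟩ := exists_surjective_nat (ι × ℚ × ℚ × ℕ)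
  refine ⟨fun i M => {ξ | ∀ N, M ≤ N → cnt (fun n => Arc (e i).2.1 (e i).2.2.1 (x (e i).1 ξ n)) N
    ≤ (2 * |((e i).2.2.1 : ℝ)| + 1 / ((e i).2.2.2 + 1)) * N}, fun i M => ?_, ?_⟩
  · dsimp only
    rw [ofPred_forall]
    refine isClosed_iInter fun N => ?_
    rw [ofPred_forall]
    exact isClosed_iInter fun _ => isClosed_cnt (hx _) _ _ _ _
  · ext ξ
    simp only [mem_ofPred_eq, mem_iInter, mem_iUnion]
    constructor
    · intro h i
      exact arcUp_iff_rat.1 (arcUp_of_ud (h _)) (e i).2
    · intro h i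
      refine ud_of_arcUp (arcUp_iff_rat.2 fun p => ?_)
      obtain ⟨k, hk⟩ := he (i, p)
      have := h k
      rwa [hk] at this

noncomputable def e (t : ℝ) : ℂ := Complex.exp (2 * Real.pi * Complex.I * t)

theorem norm_e (t : ℝ) : ‖e t‖ = 1 := by
  rw [e, show 2 * Real.pi * Complex.I * t = ((2 * Real.pi * t : ℝ) : ℂ) * Complex.I by
    push_cast; ring]
  exact Complex.norm_exp_ofReal_mul_I _

theorem e_add (s t : ℝ) : e (s + t) = e s * e t := by
  rw [e, e, e, ← Complex.exp_add]
  congr 1
  push_cast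
  ring

theorem e_neg (t : ℝ) : e (-t) = (starRingEnd ℂ) (e t) := by
  rw [e, e, ← Complex.exp_conj]
  congr 1
  simp only [map_mul, Complex.conj_ofReal, Complex.conj_I, map_ofNat]
  push_cast
  ring

theorem fourier_eq (h : ℤ) (t : ℝ) : fourier h (t : UnitAddCircle) = e (h * t) := by
  rw [fourier_coe_apply, e]
  congr 1
  push_cast
  ring

theorem weyl_cont {ι : Type} {l : Filter ι} {x : ι → ℕ → ℝ} {N : ι → ℕ}
    (hN : ∀ᶠ i in l, 0 < N i)
    (h : ∀ k : ℕ, 0 < k →
      Tendsto (fun i => (∑ n ∈ Finset.range (N i), e (k * x i n)) / N i) l (𝓝 0))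
    (f : C(UnitAddCircle, ℂ)) :
    Tendsto (fun i => (∑ n ∈ Finset.range (N i), f (x i n)) / N i) l (𝓝 (∫ t, f t)) := by
  have hint : ∀ g : C(UnitAddCircle, ℂ), Integrable g := fun g =>
    g.continuous.integrable_of_hasCompactSupport (HasCompactSupport.of_compactSpace _)
  have h1 : ∀ g ∈ Submodule.span ℂ (range (fourier (T := 1))),
      Tendsto (fun i => (∑ n ∈ Finset.range (N i), g (x i n)) / N i) l (𝓝 (∫ t, g t)) := by
    intro g hg
    induction hg using Submodule.span_induction with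
    | mem g hg =>
      obtain ⟨k, rfl⟩ := hg
      by_cases hk : k = 0
      · subst hk
        simp only [fourier_zero, integral_const, Finset.sum_const, Finset.card_range,
          nsmul_eq_mul, mul_one]
        have : (volume : Measure UnitAddCircle).real univ = 1 := by simp [Measure.real]
        rw [this, one_smul]
        refine tendsto_const_nhds.congr' ?_
        filter_upwards [hN] with i hi
        rw [div_self (by exact_mod_cast hi.ne')]
      · rw [integral_eq_zero_of_add_right_eq_neg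
          (fourier_add_half_inv_index hk zero_lt_one)]
        simp only [fourier_eq]
        obtain ⟨m, rfl | rfl⟩ := Int.eq_nat_or_neg k
        · exact h m (by omega)
        · have h2 := (Complex.continuous_conj.tendsto 0).comp (h m (by omega))
          rw [map_zero] at h2
          refine h2.congr fun i => ?_
          simp only [Function.comp, map_div₀, map_sum, ← e_neg]
          simp
    | zero => simpa using tendsto_const_nhds
    | add f g _ _ h1 h2 =>
      simp only [ContinuousMap.add_apply, Finset.sum_add_distrib, add_div]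
      rw [integral_add (hint f) (hint g)]
      exact h1.add h2
    | smul c g _ h1 =>
      simp only [ContinuousMap.smul_apply, smul_eq_mul, ← Finset.mul_sum, mul_div_assoc]
      rw [integral_const_mul]
      exact h1.const_mul c
  rw [Metric.tendsto_nhds]
  intro ε hε
  have h2 : f ∈ closure (Submodule.span ℂ (range (fourier (T := 1))) :
      Set C(UnitAddCircle, ℂ)) := by
    rw [← Submodule.topologicalClosure_coe, span_fourier_closure_eq_top]
    trivial
  obtain ⟨g, hg, hfg⟩ := Metric.mem_closure_iff.1 h2 (ε / 3) (by positivity)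
  have h3 : ∀ t, ‖f t - g t‖ ≤ dist f g := fun t => by
    rw [← dist_eq_norm]; exact ContinuousMap.dist_apply_le_dist t
  filter_upwards [Metric.tendsto_nhds.1 (h1 g hg) (ε / 3) (by positivity), hN] with i h4 hi
  have hi' : (0 : ℝ) < N i := by exact_mod_cast hi
  have h5 : dist ((∑ n ∈ Finset.range (N i), f (x i n)) / N i)
      ((∑ n ∈ Finset.range (N i), g (x i n)) / N i) ≤ dist f g := by
    rw [dist_eq_norm, ← sub_div, ← Finset.sum_sub_distrib, norm_div, Complex.norm_natCast,
      div_le_iff₀ hi']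
    refine (norm_sum_le _ _).trans ((Finset.sum_le_sum fun n _ => h3 _).trans ?_)
    simp [mul_comm]
  have h6 : dist (∫ t, g t) (∫ t, f t) ≤ dist f g := by
    rw [dist_comm, dist_eq_norm, ← integral_sub (hint f) (hint g)]
    refine (norm_integral_le_of_norm_le_const (Eventually.of_forall h3)).trans ?_
    simp [Measure.real]
  linarith [dist_triangle4 ((∑ n ∈ Finset.range (N i), f (x i n)) / N i)
    ((∑ n ∈ Finset.range (N i), g (x i n)) / N i) (∫ t, g t) (∫ t, f t)]

theorem weyl_real {ι : Type} {l : Filter ι} {x : ι → ℕ → ℝ} {N : ι → ℕ}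
    (hN : ∀ᶠ i in l, 0 < N i)
    (h : ∀ k : ℕ, 0 < k →
      Tendsto (fun i => (∑ n ∈ Finset.range (N i), e (k * x i n)) / N i) l (𝓝 0))
    (f : UnitAddCircle → ℝ) (hf : Continuous f) :
    Tendsto (fun i => (∑ n ∈ Finset.range (N i), f (x i n)) / N i) l (𝓝 (∫ t, f t)) := by
  have h1 := weyl_cont hN h ⟨fun t => (f t : ℂ), by fun_prop⟩
  simp only [ContinuousMap.coe_mk, integral_complex_ofReal] at h1
  have h2 := (Complex.continuous_re.tendsto _).comp h1
  rw [Complex.ofReal_re] at h2
  refine h2.congr fun i => ?_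
  simp only [Function.comp]
  rw [← Complex.ofReal_sum, ← Complex.ofReal_natCast, ← Complex.ofReal_div, Complex.ofReal_re]

theorem ud_of_weyl {x : ℕ → ℝ} (h : ∀ k : ℕ, 0 < k →
    Tendsto (fun N : ℕ => (∑ n ∈ Finset.range N, e (k * x n)) / N) atTop (𝓝 0)) : UD x := by
  classical
  refine ud_of_arcUp fun c r ε hr hε => ?_
  let f : UnitAddCircle → ℝ := fun t =>
    min 1 (max 0 ((r + ε / 4 - dist t (c : UnitAddCircle)) / (ε / 4)))
  have hf : Continuous f := by fun_prop
  have h1 := weyl_real (x := fun _ => x) (N := id) (eventually_gt_atTop 0) h f hf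
  have h2 : ∫ t, f t ≤ 2 * r + ε / 2 := by
    have h3 : ∫ t, f t ≤ ∫ t, (Metric.closedBall (c : UnitAddCircle) (r + ε / 4)).indicator
        (fun _ => (1 : ℝ)) t := by
      refine integral_mono
        (hf.integrable_of_hasCompactSupport (HasCompactSupport.of_compactSpace _))
        ((integrable_const _).indicator measurableSet_closedBall) fun t => ?_
      by_cases ht : t ∈ Metric.closedBall (c : UnitAddCircle) (r + ε / 4)
      · rw [indicator_of_mem ht]
        exact min_le_left _ _
      · rw [indicator_of_notMem ht]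
        refine (min_le_right _ _).trans (max_le le_rfl ?_)
        rw [Metric.mem_closedBall, not_le] at ht
        exact div_nonpos_of_nonpos_of_nonneg (by linarith) (by positivity)
    rw [integral_indicator measurableSet_closedBall, setIntegral_const, Measure.real,
      AddCircle.volume_closedBall, ENNReal.toReal_ofReal (by positivity), smul_eq_mul,
      mul_one] at h3
    exact h3.trans ((min_le_right _ _).trans (by linarith))
  filter_upwards [h1.eventually (gt_mem_nhds (show ∫ t, f t < 2 * r + ε by linarith)),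
    eventually_gt_atTop 0] with N h3 hN
  have hN' : (0 : ℝ) < N := by exact_mod_cast hN
  simp only [id] at h3
  rw [div_lt_iff₀ hN'] at h3
  refine le_trans ?_ h3.le
  rw [cnt_sum]
  refine Finset.sum_le_sum fun n _ => ?_
  split_ifs with h4
  · obtain ⟨z, hz⟩ := h4
    refine le_min le_rfl (le_max_of_le_right ?_)
    have h5 : dist ((x n : ℝ) : UnitAddCircle) (c : UnitAddCircle) < r := by
      rw [dist_eq_norm, ← AddCircle.coe_sub, UnitAddCircle.norm_eq]
      refine lt_of_le_of_lt (round_le _ (-z)) ?_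
      rwa [show x n - c - ((-z : ℤ) : ℝ) = x n + z - c by push_cast; ring]
    rw [le_div_iff₀ (by positivity)]
    linarith
  · exact le_min zero_le_one (le_max_left _ _)

end Pool.Agent.H39.Equi
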