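import Mathlib
import Pool.Agent.H39.Equi

set_option autoImplicit false

namespace Pool.Agent.H39.Blocks

open Set Filter Topology MeasureTheory Pool.Agent.H39.Equi

noncomputable def ρ (A α : ℝ) : ℝ := Real.log A / Real.log |α|

noncomputable def ν (A α : ℝ) (n : ℕ) : ℕ := ⌈n * ρ A α⌉₊

section
variable {A α : ℝ}

theorem ρ_pos (hA : 1 < A) (hα : 1 < |α|) : 0 < ρ A α :=
  div_pos (Real.log_pos hA) (Real.log_pos hα)

theorem le_ν (n : ℕ) : n * ρ A α ≤ ν A α n := Nat.le_ceil _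

theorem ν_lt (hA : 1 < A) (hα : 1 < |α|) (n : ℕ) : (ν A α n : ℝ) < n * ρ A α + 1 :=
  Nat.ceil_lt_add_one (by have := ρ_pos hA hα; positivity)

theorem ν_zero : ν A α 0 = 0 := by simp [ν]

theorem ν_mono (hA : 1 < A) (hα : 1 < |α|) : Monotone (ν A α) := fun _ _ h =>
  Nat.ceil_mono (mul_le_mul_of_nonneg_right (by exact_mod_cast h) (ρ_pos hA hα).le)

theorem rpow_ρ (hA : 1 < A) (hα : 1 < |α|) (n : ℕ) : |α| ^ (n * ρ A α) = A ^ n := by
  have h1 := Real.log_pos hα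
  rw [Real.rpow_def_of_pos (by linarith), ρ,
    show Real.log |α| * (n * (Real.log A / Real.log |α|)) = n * Real.log A by field_simp,
    Real.exp_nat_mul, Real.exp_log (by linarith)]

theorem pow_le_ν (hA : 1 < A) (hα : 1 < |α|) (n : ℕ) : A ^ n ≤ |α| ^ ν A α n := by
  rw [← rpow_ρ hA hα, ← Real.rpow_natCast]
  exact Real.rpow_le_rpow_of_exponent_le hα.le (le_ν n)

theorem pow_ν_le (hA : 1 < A) (hα : 1 < |α|) (n : ℕ) : |α| ^ ν A α n ≤ |α| * A ^ n := by
  rw [← rpow_ρ hA hα, ← Real.rpow_natCast, mul_comm, ← Real.rpow_add_one (by linarith)]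
  exact Real.rpow_le_rpow_of_exponent_le hα.le (ν_lt hA hα n).le

theorem ν_diff_le (hA : 1 < A) (hα : 1 < |α|) (n T : ℕ) :
    (ν A α (n + T) : ℝ) - ν A α n ≤ T * ρ A α + 1 := by
  have h1 := ν_lt hA hα (n + T)
  have h2 := le_ν (A := A) (α := α) n
  push_cast at h1
  linarith

theorem le_ν_diff (hA : 1 < A) (hα : 1 < |α|) (n T : ℕ) :
    T * ρ A α - 1 ≤ (ν A α (n + T) : ℝ) - ν A α n := by
  have h1 := ν_lt hA hα n
  have h2 := le_ν (A := A) (α := α) (n + T)
  push_cast at h2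
  linarith

end

noncomputable def S (α : ℝ) (h : ℕ) (ξ : ℝ) (k1 k2 : ℕ) : ℂ :=
  ∑ m ∈ Finset.Ico k1 k2, e (h * (ξ * α ^ m))

theorem norm_S_le (α : ℝ) (h : ℕ) (ξ : ℝ) {k1 k2 : ℕ} (hk : k1 ≤ k2) :
    ‖S α h ξ k1 k2‖ ≤ (k2 : ℝ) - k1 := by
  refine (norm_sum_le _ _).trans ?_
  simp [norm_e, Nat.cast_sub hk]

theorem S_add (α : ℝ) (h : ℕ) (ξ : ℝ) {k1 k2 k3 : ℕ} (h1 : k1 ≤ k2) (h2 : k2 ≤ k3) :
    S α h ξ k1 k3 = S α h ξ k1 k2 + S α h ξ k2 k3 :=
  (Finset.sum_Ico_consecutive _ h1 h2).symm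

def GoodB (A α : ℝ) (j n T : ℕ) (ξ : ℝ) : Prop :=
  ∀ h : ℕ, 0 < h → h ≤ j → ‖S α h ξ (ν A α n) (ν A α (n + T))‖ ≤ T / j

def Frc (α η ξ : ℝ) (m : ℕ) : Prop := 0 ≤ Int.fract (ξ * α ^ m) ∧ Int.fract (ξ * α ^ m) < η

def ForcedB (A α η κ : ℝ) (n T : ℕ) (ξ : ℝ) : Prop :=
  (η + κ) * ((ν A α (n + T) : ℝ) - ν A α n) ≤
    cnt (Frc α η ξ) (ν A α (n + T)) - cnt (Frc α η ξ) (ν A α n)

theorem exists_between' {φ : ℕ → ℕ} (hφ : Tendsto φ atTop atTop) {b0 N : ℕ} (h : φ b0 ≤ N) :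
    ∃ b, b0 ≤ b ∧ φ b ≤ N ∧ N < φ (b + 1) := by
  have h1 : ∃ t, N < φ (b0 + t + 1) := by
    obtain ⟨M, hM⟩ := eventually_atTop.1 (hφ.eventually (eventually_gt_atTop N))
    exact ⟨M, hM _ (by omega)⟩
  refine ⟨b0 + Nat.find h1, by omega, ?_, Nat.find_spec h1⟩
  rcases h2 : Nat.find h1 with _ | t
  · exact h
  · exact not_lt.1 (Nat.find_min h1 (m := t) (by omega))

structure Pos (T pos lev : ℕ → ℕ) : Prop where
  one : ∀ j, 1 ≤ T j
  zero : pos 0 = 0
  succ : ∀ b, pos (b + 1) = pos b + T (lev b)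
  top : Tendsto lev atTop atTop
  le : ∀ b, lev b * T (lev b) ≤ pos b

theorem exists_pos {T : ℕ → ℕ} (hT : ∀ j, 1 ≤ T j) : ∃ pos lev, Pos T pos lev := by
  let L : ℕ → ℕ := fun n => Nat.findGreatest (fun j => j * T j ≤ n) n
  let pos : ℕ → ℕ := fun b => Nat.rec 0 (fun _ n => n + T (L n)) b
  have h1 : ∀ b, pos (b + 1) = pos b + T (L (pos b)) := fun _ => rfl
  have h2 : StrictMono pos := strictMono_nat_of_lt_succ fun b => by
    rw [h1]; have := hT (L (pos b)); omega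
  refine ⟨pos, fun b => L (pos b), hT, rfl, h1, ?_, fun b => ?_⟩
  · refine Tendsto.comp (g := L) ?_ h2.tendsto_atTop
    rw [tendsto_atTop]
    intro j
    filter_upwards [eventually_ge_atTop j, eventually_ge_atTop (j * T j)] with n h3 h4
    exact Nat.le_findGreatest h3 h4
  · exact @Nat.findGreatest_spec 0 (fun j => j * T j ≤ pos b) (fun _ => Nat.decLe _ _) (pos b)
      (Nat.zero_le _) (by simp)

section
variable {T pos lev : ℕ → ℕ}

theorem Pos.strictMono (h : Pos T pos lev) : StrictMono pos :=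
  strictMono_nat_of_lt_succ fun b => by rw [h.succ]; have := h.one (lev b); omega

theorem Pos.small (h : Pos T pos lev) {ε : ℝ} (hε : 0 < ε) :
    ∀ᶠ b in atTop, (T (lev b) : ℝ) ≤ ε * pos b := by
  obtain ⟨K, hK⟩ := exists_nat_ge (1 / ε)
  filter_upwards [h.top.eventually (eventually_ge_atTop K)] with b hb
  have h1 : ((lev b : ℝ)) * T (lev b) ≤ pos b := by exact_mod_cast h.le b
  have h2 : (K : ℝ) ≤ lev b := by exact_mod_cast hb
  rw [div_le_iff₀ hε] at hK
  have h3 : (0 : ℝ) ≤ T (lev b) := Nat.cast_nonneg _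
  calc (T (lev b) : ℝ) = 1 * T (lev b) := by ring
    _ ≤ (lev b * ε) * T (lev b) := by gcongr; nlinarith
    _ = ε * (lev b * T (lev b)) := by ring
    _ ≤ ε * pos b := by gcongr

open Classical in
noncomputable def Wt (T lev : ℕ → ℕ) (Bd : ℕ → Prop) (b : ℕ) : ℝ :=
  ∑ b' ∈ Finset.range b, if Bd b' then (T (lev b') : ℝ) else 0

theorem Wt_nonneg (Bd : ℕ → Prop) (b : ℕ) : 0 ≤ Wt T lev Bd b :=
  Finset.sum_nonneg fun _ _ => by split_ifs <;> positivity

theorem Wt_succ_pos {Bd : ℕ → Prop} {b : ℕ} (h : Bd b) :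
    Wt T lev Bd (b + 1) = Wt T lev Bd b + T (lev b) := by
  simp [Wt, Finset.sum_range_succ, h]

theorem Wt_succ_neg {Bd : ℕ → Prop} {b : ℕ} (h : ¬ Bd b) :
    Wt T lev Bd (b + 1) = Wt T lev Bd b := by
  simp [Wt, Finset.sum_range_succ, h]

theorem Wt_or (P Q R : ℕ → Prop) (h : ∀ b, R b → P b ∨ Q b) (b : ℕ) :
    Wt T lev R b ≤ Wt T lev P b + Wt T lev Q b := by
  simp only [Wt, ← Finset.sum_add_distrib]
  refine Finset.sum_le_sum fun b' _ => ?_
  have := h b'
  by_cases h1 : P b' <;> by_cases h2 : Q b' <;> by_cases h3 : R b' <;> simp_all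

theorem normal_of (hP : Pos T pos lev) {A α : ℝ} (hA : 1 < A) (hα : 1 < |α|) {ξ : ℝ}
    {Bd : ℕ → Prop}
    (h1 : ∀ᶠ b in atTop, ¬ Bd b → GoodB A α (lev b) (pos b) (T (lev b)) ξ)
    (h2 : ∀ ε > 0, ∀ᶠ b in atTop, Wt T lev Bd b ≤ ε * pos b) : UD fun n => ξ * α ^ n := by
  refine ud_of_weyl fun h hh => ?_
  have hρ := ρ_pos hA hα
  have hν := ν_mono hA hα
  have hblock : ∀ b, (ν A α (pos (b + 1)) : ℝ) - ν A α (pos b) ≤ (ρ A α + 1) * T (lev b) := by
    intro b
    rw [hP.succ]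
    have h3 : (1 : ℝ) ≤ T (lev b) := by exact_mod_cast hP.one _
    linarith [ν_diff_le hA hα (pos b) (T (lev b))]
  have key : ∀ ε > 0, ∀ᶠ b in atTop, ∀ N, ν A α (pos b) ≤ N → N ≤ ν A α (pos (b + 1)) →
      ‖S α h ξ 0 N‖ ≤ ε * pos b := by
    intro ε hε
    set δ := ε / (4 * (ρ A α + 1)) with hδ
    have hδ0 : 0 < δ := by positivity
    obtain ⟨K, hK⟩ := exists_nat_ge (4 / ε)
    obtain ⟨b0, hb0⟩ := eventually_atTop.1 (h1.and ((hP.top.eventually
      (eventually_ge_atTop K)).and (hP.top.eventually (eventually_ge_atTop h))))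
    have h3 : ∀ b, b0 ≤ b → ‖S α h ξ 0 (ν A α (pos b))‖ ≤
        ν A α (pos b0) + ε / 4 * pos b + (ρ A α + 1) * Wt T lev Bd b := by
      intro b hb
      induction b, hb using Nat.le_induction with
      | base =>
        have := norm_S_le α h ξ (Nat.zero_le (ν A α (pos b0)))
        have h4 := Wt_nonneg (T := T) (lev := lev) Bd b0
        have h5 : 0 ≤ ε / 4 * pos b0 := by positivity
        have h6 : 0 ≤ (ρ A α + 1) * Wt T lev Bd b0 := by positivity
        push_cast at this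
        linarith
      | succ b hb ih =>
        have h4 := hν (hP.strictMono.monotone (Nat.le_succ b))
        rw [S_add α h ξ (Nat.zero_le _) h4]
        refine (norm_add_le _ _).trans ?_
        have h5 : (pos (b + 1) : ℝ) = pos b + T (lev b) := by exact_mod_cast hP.succ b
        have h6 : (0 : ℝ) ≤ T (lev b) := Nat.cast_nonneg _
        by_cases h7 : Bd b
        · rw [Wt_succ_pos h7, h5]
          have := (norm_S_le α h ξ h4).trans (hblock b)
          have : 0 ≤ ε / 4 * T (lev b) := by positivity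
          linarith
        · rw [Wt_succ_neg h7, h5]
          obtain ⟨h8, h9, h10⟩ := hb0 b hb
          have h11 := h8 h7 h hh h10
          rw [← hP.succ] at h11
          have h12 : (T (lev b) : ℝ) / lev b ≤ ε / 4 * T (lev b) := by
            have h13 : (K : ℝ) ≤ lev b := by exact_mod_cast h9
            have h14 : (0 : ℝ) < lev b := by exact_mod_cast hh.trans_le h10
            rw [div_le_iff₀ hε] at hK
            rw [div_le_iff₀ h14]
            have : 1 ≤ ε / 4 * lev b := by nlinarith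
            nlinarith
          linarith
    have h4 : Tendsto (fun b => (pos b : ℝ)) atTop atTop :=
      tendsto_natCast_atTop_atTop.comp hP.strictMono.tendsto_atTop
    filter_upwards [eventually_ge_atTop b0, h2 δ hδ0, hP.small hδ0,
      h4.eventually (eventually_ge_atTop (ν A α (pos b0) / (ε / 4)))] with b h5 h6 h7 h8 N h9 h10
    rw [S_add α h ξ (Nat.zero_le _) h9]
    refine (norm_add_le _ _).trans ?_
    have h11 := norm_S_le α h ξ h9
    have h12 : (N : ℝ) ≤ ν A α (pos (b + 1)) := by exact_mod_cast h10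
    have h13 : (ρ A α + 1) * (δ * pos b) = ε / 4 * pos b := by rw [hδ]; field_simp
    have h14 := mul_le_mul_of_nonneg_left h6 (show 0 ≤ ρ A α + 1 by positivity)
    have h15 := mul_le_mul_of_nonneg_left h7 (show 0 ≤ ρ A α + 1 by positivity)
    rw [div_le_iff₀ (by positivity)] at h8
    linarith [h3 b h5, hblock b]
  have htop : Tendsto (fun b => ν A α (pos b)) atTop atTop := by
    rw [← tendsto_natCast_atTop_iff (R := ℝ)]
    exact tendsto_atTop_mono (fun b => le_ν (pos b)) ((tendsto_natCast_atTop_atTop.comp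
      hP.strictMono.tendsto_atTop).atTop_mul_const hρ)
  rw [Metric.tendsto_nhds]
  intro ε hε
  obtain ⟨b0, hb0⟩ := eventually_atTop.1 (key (ε / 2 * ρ A α) (by positivity))
  filter_upwards [eventually_ge_atTop (ν A α (pos b0)), eventually_gt_atTop 0] with N h3 hN
  obtain ⟨b, h4, h5, h6⟩ := exists_between' htop h3
  have hN' : (0 : ℝ) < N := by exact_mod_cast hN
  have h7 := hb0 b h4 N h5 h6.le
  rw [S, ← Finset.range_eq_Ico] at h7
  rw [dist_zero_right, norm_div, Complex.norm_natCast, div_lt_iff₀ hN']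
  have h8 : (ν A α (pos b) : ℝ) ≤ N := by exact_mod_cast h5
  have h9 := mul_le_mul_of_nonneg_left ((le_ν (pos b)).trans h8) (half_pos hε).le
  nlinarith

theorem not_normal_of (hP : Pos T pos lev) {A α : ℝ} (hA : 1 < A) (hα : 1 < |α|)
    {ξ η κ δ : ℝ} (hη : 0 ≤ η) (hη' : η ≤ 1) (hκ : 0 < κ) (hδ : 0 < δ)
    (h : ∀ b0, ∃ b1 b2, b0 ≤ b1 ∧ b1 ≤ b2 ∧ δ * pos b2 ≤ (pos b2 : ℝ) - pos b1 ∧
      ∀ b, b1 ≤ b → b < b2 → ForcedB A α η κ (pos b) (T (lev b)) ξ) :
    ¬ UD fun n => ξ * α ^ n := by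
  intro hU
  have hρ := ρ_pos hA hα
  obtain ⟨N0, hN0⟩ := eventually_atTop.1 (hU.ev le_rfl hη hη' (ε := κ * δ / 4) (by positivity))
  have h4 : Tendsto (fun b => (pos b : ℝ) * ρ A α) atTop atTop :=
    (tendsto_natCast_atTop_atTop.comp hP.strictMono.tendsto_atTop).atTop_mul_const hρ
  obtain ⟨b0, hb0⟩ := eventually_atTop.1 ((h4.eventually (eventually_ge_atTop (N0 : ℝ))).and
    (h4.eventually (eventually_gt_atTop ((2 + δ) / δ))))
  obtain ⟨b1, b2, h1, h2, h3, h5⟩ := h b0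
  have h6 : ∀ b, b1 ≤ b → b ≤ b2 → (η + κ) * ((ν A α (pos b) : ℝ) - ν A α (pos b1)) ≤
      cnt (Frc α η ξ) (ν A α (pos b)) - cnt (Frc α η ξ) (ν A α (pos b1)) := by
    intro b hb
    induction b, hb using Nat.le_induction with
    | base => simp
    | succ b hb ih =>
      intro h7
      have h8 := h5 b hb (by omega)
      rw [ForcedB, ← hP.succ] at h8
      linarith [ih (by omega)]
  have h7 : ∀ b, b0 ≤ b → |cnt (Frc α η ξ) (ν A α (pos b)) - (η - 0) * ν A α (pos b)| ≤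
      κ * δ / 4 * ν A α (pos b) := fun b hb =>
    hN0 _ (by exact_mod_cast (hb0 b hb).1.trans (le_ν _))
  have h8 := (abs_le.1 (h7 b1 h1)).1
  have h9 := (abs_le.1 (h7 b2 (h1.trans h2))).2
  have h10 := h6 b2 h2 le_rfl
  have h11 : (ν A α (pos b1) : ℝ) ≤ ν A α (pos b2) := by
    exact_mod_cast ν_mono hA hα (hP.strictMono.monotone h2)
  have h12 := ν_lt hA hα (pos b1)
  have h13 := ν_lt hA hα (pos b2)
  have h14 := le_ν (A := A) (α := α) (pos b2)
  have h15 := (hb0 b2 (h1.trans h2)).2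
  rw [div_lt_iff₀ hδ] at h15
  have h16 := mul_le_mul_of_nonneg_right h3 hρ.le
  have h17 : κ * ((ν A α (pos b2) : ℝ) - ν A α (pos b1)) ≤ κ * (δ / 2 * ν A α (pos b2)) := by
    have : κ * δ / 4 * ν A α (pos b1) ≤ κ * δ / 4 * ν A α (pos b2) :=
      mul_le_mul_of_nonneg_left h11 (by positivity)
    nlinarith
  have h18 := le_of_mul_le_mul_left h17 hκ
  nlinarith

def Bad (pos z : ℕ → ℕ) (b : ℕ) : Prop :=
  2 ^ Nat.log 2 (pos b) ≤ pos b ∧
    (z (Nat.log 2 (pos b)) + 1) * (pos (b + 1) - 2 ^ Nat.log 2 (pos b)) ≤ 2 ^ Nat.log 2 (pos b)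

theorem bad_small (hP : Pos T pos lev) {z : ℕ → ℕ} (hz : Tendsto z atTop atTop) :
    ∀ ε > 0, ∀ᶠ b in atTop, Wt T lev (Bad pos z) b ≤ ε * pos b := by
  intro ε hε
  obtain ⟨K, hK⟩ := exists_nat_ge (3 / ε)
  have hlog : Tendsto (fun b => Nat.log 2 (pos b)) atTop atTop := by
    refine Tendsto.comp (g := Nat.log 2) ?_ hP.strictMono.tendsto_atTop
    rw [tendsto_atTop]
    intro j
    filter_upwards [eventually_ge_atTop (2 ^ j)] with n hn
    exact Nat.le_log_of_pow_le (by norm_num) hn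
  obtain ⟨b0, hb0⟩ := eventually_atTop.1 (((hz.comp hlog).eventually
    (eventually_ge_atTop (K + 1))).and
      (hP.strictMono.tendsto_atTop.eventually (eventually_gt_atTop 0)))
  have h0 : ∀ b, b0 ≤ b → (2 : ℝ) ^ Nat.log 2 (pos b) ≤ pos b := fun b hb => by
    exact_mod_cast Nat.pow_log_le_self 2 (hb0 b hb).2.ne'
  have h1 : ∀ b, b0 ≤ b → Wt T lev (Bad pos z) b ≤ Wt T lev (Bad pos z) b0 +
      ε / 3 * 2 ^ Nat.log 2 (pos b) +
      min ((pos b : ℝ) - 2 ^ Nat.log 2 (pos b)) (ε / 3 * 2 ^ Nat.log 2 (pos b)) := by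
    intro b hb
    induction b, hb using Nat.le_induction with
    | base =>
      have h2 : 0 ≤ ε / 3 * 2 ^ Nat.log 2 (pos b0) := by positivity
      have := le_min (sub_nonneg.2 (h0 b0 le_rfl)) h2
      linarith
    | succ b hb ih =>
      have h2 : (pos (b + 1) : ℝ) = pos b + T (lev b) := by exact_mod_cast hP.succ b
      have h3 : pos b < pos (b + 1) := hP.strictMono (Nat.lt_succ_self b)
      by_cases h4 : Bad pos z b
      · obtain ⟨h5, h6⟩ := h4
        have h7 : K + 1 ≤ z (Nat.log 2 (pos b)) := (hb0 b hb).1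
        have h8 : (K + 2) * (pos (b + 1) - 2 ^ Nat.log 2 (pos b)) ≤ 2 ^ Nat.log 2 (pos b) :=
          le_trans (Nat.mul_le_mul_right _ (by omega)) h6
        have h9 : Nat.log 2 (pos (b + 1)) = Nat.log 2 (pos b) := by
          refine Nat.log_eq_of_pow_le_of_lt_pow (by omega) ?_
          have : 2 * (pos (b + 1) - 2 ^ Nat.log 2 (pos b)) ≤ 2 ^ Nat.log 2 (pos b) :=
            le_trans (Nat.mul_le_mul_right _ (by omega)) h8
          have : 0 < 2 ^ Nat.log 2 (pos b) := by positivity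
          rw [pow_succ]
          omega
        have h10 : ((K : ℝ) + 2) * (pos (b + 1) - 2 ^ Nat.log 2 (pos b)) ≤
            2 ^ Nat.log 2 (pos b) := by
          have : ((pos (b + 1) - 2 ^ Nat.log 2 (pos b) : ℕ) : ℝ) =
              pos (b + 1) - 2 ^ Nat.log 2 (pos b) := by
            rw [Nat.cast_sub (by omega)]; push_cast; ring
          rw [← this]
          exact_mod_cast h8
        rw [Wt_succ_pos ⟨h5, h6⟩, h9, min_eq_left]
        · linarith [min_le_left ((pos b : ℝ) - 2 ^ Nat.log 2 (pos b))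
            (ε / 3 * 2 ^ Nat.log 2 (pos b))]
        · rw [div_le_iff₀ hε] at hK
          have h11 : 0 ≤ (pos (b + 1) : ℝ) - 2 ^ Nat.log 2 (pos b) := by
            have := h0 b hb
            have : (0 : ℝ) ≤ T (lev b) := Nat.cast_nonneg _
            linarith
          have h12 := mul_le_mul_of_nonneg_left h10 (show 0 ≤ ε / 3 by positivity)
          nlinarith
      · rw [Wt_succ_neg h4]
        refine ih.trans ?_
        rcases (Nat.log_mono_right (b := 2) h3.le).eq_or_lt with h5 | h5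
        · rw [← h5]
          have : (pos b : ℝ) ≤ pos (b + 1) := by exact_mod_cast h3.le
          gcongr
        · have h6 : (2 : ℝ) ^ (Nat.log 2 (pos b) + 1) ≤ 2 ^ Nat.log 2 (pos (b + 1)) :=
            pow_le_pow_right₀ (by norm_num) h5
          have h7 : 0 ≤ ε / 3 * 2 ^ Nat.log 2 (pos (b + 1)) := by positivity
          have h8 := le_min (sub_nonneg.2 (h0 (b + 1) (by omega))) h7
          have h9 := mul_le_mul_of_nonneg_left h6 (show 0 ≤ ε / 3 by positivity)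
          rw [pow_succ] at h9
          linarith [min_le_right ((pos b : ℝ) - 2 ^ Nat.log 2 (pos b))
            (ε / 3 * 2 ^ Nat.log 2 (pos b))]
  have h4 : Tendsto (fun b => (pos b : ℝ)) atTop atTop :=
    tendsto_natCast_atTop_atTop.comp hP.strictMono.tendsto_atTop
  filter_upwards [eventually_ge_atTop b0,
    h4.eventually (eventually_ge_atTop (Wt T lev (Bad pos z) b0 / (ε / 3)))] with b h5 h6
  rw [div_le_iff₀ (by positivity)] at h6
  have h7 := mul_le_mul_of_nonneg_left (h0 b h5) (show 0 ≤ ε / 3 by positivity)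
  linarith [h1 b h5, min_le_right ((pos b : ℝ) - 2 ^ Nat.log 2 (pos b))
    (ε / 3 * 2 ^ Nat.log 2 (pos b))]

theorem bad_run (hP : Pos T pos lev) {z : ℕ → ℕ} {i : ℕ} {R : ℕ → Prop}
    (hz : ∃ᶠ s in atTop, z s ≤ i ∧ R s) (b0 : ℕ) :
    ∃ b1 b2, b0 ≤ b1 ∧ b1 ≤ b2 ∧ 1 / (4 * (i + 1)) * (pos b2 : ℝ) ≤ (pos b2 : ℝ) - pos b1 ∧
      ∀ b, b1 ≤ b → b < b2 → Bad pos z b ∧ R (Nat.log 2 (pos b)) := by
  obtain ⟨b3, hb3⟩ := eventually_atTop.1 ((hP.small (ε := 1 / (8 * (i + 1))) (by positivity)).and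
    (eventually_ge_atTop b0))
  obtain ⟨s, ⟨h1, h2⟩, h3⟩ := (hz.and_eventually (eventually_ge_atTop (pos b3 + 1))).exists
  have h4 : pos b3 ≤ 2 ^ s - 1 := by
    have := Nat.lt_two_pow_self (n := s)
    omega
  have htop := hP.strictMono.tendsto_atTop
  obtain ⟨b1, h5, h6, h7⟩ := exists_between' htop h4
  have hpos : 0 < 2 ^ s := by positivity
  have hdiv : 2 ^ s / (i + 1) ≤ 2 ^ s := Nat.div_le_self _ _
  have hi : (0 : ℝ) < i + 1 := by positivity
  have h8 : (pos (b1 + 1) : ℝ) ≤ 2 ^ s - 1 + 1 / (8 * (i + 1)) * 2 ^ s := by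
    have h9 : (pos b1 : ℝ) ≤ 2 ^ s - 1 := by
      have : pos b1 + 1 ≤ 2 ^ s := by omega
      have : (pos b1 : ℝ) + 1 ≤ 2 ^ s := by exact_mod_cast this
      linarith
    have h10 := mul_le_mul_of_nonneg_left (show (pos b1 : ℝ) ≤ 2 ^ s by linarith)
      (show (0 : ℝ) ≤ 1 / (8 * (i + 1)) by positivity)
    rw [hP.succ]
    push_cast
    linarith [(hb3 b1 h5).1]
  have h9 : (2 : ℝ) ^ s / (i + 1) - 1 ≤ (2 ^ s / (i + 1) : ℕ) := by
    have := Nat.lt_floor_add_one ((2 : ℝ) ^ s / (i + 1))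
    rw [show ((i : ℝ) + 1) = ((i + 1 : ℕ) : ℝ) by push_cast; ring,
      show ((2 : ℝ) ^ s) = ((2 ^ s : ℕ) : ℝ) by push_cast; ring, Nat.floor_div_eq_div] at this
    push_cast at this ⊢
    linarith
  have h10 : (2 : ℝ) ^ s / (i + 1) = 8 * (1 / (8 * (i + 1)) * 2 ^ s) := by field_simp
  have h11 : 0 ≤ 1 / (8 * (i + 1)) * (2 : ℝ) ^ s := by positivity
  have h12 : pos (b1 + 1) ≤ 2 ^ s + 2 ^ s / (i + 1) := by
    have : (pos (b1 + 1) : ℝ) ≤ 2 ^ s + (2 ^ s / (i + 1) : ℕ) := by linarith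
    exact_mod_cast this
  obtain ⟨b2, h13, h14, h15⟩ := exists_between' htop h12
  refine ⟨b1 + 1, b2, by have := (hb3 b1 h5).2; omega, h13, ?_, fun b h16 h17 => ?_⟩
  · have h16 : (pos b2 : ℝ) ≤ 2 * 2 ^ s := by
      have : pos b2 ≤ 2 * 2 ^ s := by omega
      exact_mod_cast this
    have h17 : (2 : ℝ) ^ s + (2 ^ s / (i + 1) : ℕ) + 1 ≤ pos b2 + T (lev b2) := by
      rw [hP.succ] at h15
      exact_mod_cast h15
    have h18 := mul_le_mul_of_nonneg_left h16 (show (0 : ℝ) ≤ 1 / (8 * (i + 1)) by positivity)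
    have h19 : 1 / (4 * (i + 1)) * (pos b2 : ℝ) = 2 * (1 / (8 * (i + 1)) * pos b2) := by
      field_simp; ring
    linarith [(hb3 b2 (by omega)).1]
  · have h18 : 2 ^ s ≤ pos b := le_trans (by omega) (hP.strictMono.monotone h16)
    have h19 : pos (b + 1) ≤ 2 ^ s + 2 ^ s / (i + 1) :=
      (hP.strictMono.monotone (Nat.succ_le_of_lt h17)).trans h14
    have h20 : Nat.log 2 (pos b) = s := by
      refine Nat.log_eq_of_pow_le_of_lt_pow h18 ?_
      have : pos b < pos (b + 1) := hP.strictMono (Nat.lt_succ_self b)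
      rw [pow_succ]
      omega
    rw [Bad, h20]
    refine ⟨⟨h18, ?_⟩, h2⟩
    calc _ ≤ (i + 1) * (2 ^ s / (i + 1)) := Nat.mul_le_mul (by omega) (by omega)
      _ ≤ _ := Nat.mul_div_le _ _

theorem build (hP : Pos T pos lev) {A : ℝ} (hA : 1 < A) {Y σ : Type} [TopologicalSpace Y]
    (τ : Y → ℕ → σ) (hτ : ∀ b, IsLocallyConstant fun y => τ y b) (Q : σ → ℕ → ℝ → Prop)
    (hQ : ∀ t b (u : ℝ), ∃ u', u ≤ u' ∧ u' + 1 / A ^ (pos b + T (lev b)) ≤ u + 1 / A ^ pos b ∧
      ∀ ξ, u' ≤ ξ → ξ ≤ u' + 1 / A ^ (pos b + T (lev b)) → Q t b ξ) :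
    ∃ f : Y → ℝ, Continuous f ∧ ∀ y b, Q (τ y b) b (f y) := by
  choose F h1 h2 h3 using hQ
  let u : Y → ℕ → ℝ := fun y b => Nat.rec 0 (fun b u => F (τ y b) b u) b
  have hu : ∀ y b, u y (b + 1) = F (τ y b) b (u y b) := fun _ _ => rfl
  have h4 : ∀ y, Monotone (u y) := fun y => monotone_nat_of_le_succ fun b => h1 _ _ _
  have h5 : ∀ y, Antitone fun b => u y b + 1 / A ^ pos b := fun y =>
    antitone_nat_of_succ_le fun b => by rw [hP.succ]; exact h2 _ _ _
  have h6 : ∀ y b b', u y b' ≤ u y b + 1 / A ^ pos b := by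
    intro y b b'
    have h7 := h4 y (le_max_left b' b)
    have h8 := h5 y (le_max_right b' b)
    have h9 : 0 ≤ 1 / A ^ pos (max b' b) := by positivity
    simp only at h8
    linarith
  have h7 : ∀ y b, u y b ≤ ⨆ b, u y b := fun y b =>
    le_ciSup ⟨_, by rintro _ ⟨b', rfl⟩; exact h6 y 0 b'⟩ b
  have h8 : ∀ y b, ⨆ b, u y b ≤ u y b + 1 / A ^ pos b := fun y b => ciSup_le (h6 y b)
  have h9 : ∀ b, IsLocallyConstant fun y => u y b := by
    intro b
    induction b with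
    | zero => exact IsLocallyConstant.const _
    | succ b ih =>
      rw [IsLocallyConstant.iff_eventually_eq]
      intro y
      filter_upwards [ih.eventually_eq y, (hτ b).eventually_eq y] with y' h10 h11
      rw [hu, hu, h10, h11]
  refine ⟨fun y => ⨆ b, u y b, ?_, fun y b => h3 _ _ (u y b) _ (h7 y (b + 1)) ?_⟩
  · rw [continuous_iff_continuousAt]
    intro y
    rw [ContinuousAt, Metric.tendsto_nhds]
    intro ε hε
    have h10 : Tendsto (fun b => 1 / A ^ pos b) atTop (𝓝 0) :=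
      tendsto_const_nhds.div_atTop
        ((tendsto_pow_atTop_atTop_of_one_lt hA).comp hP.strictMono.tendsto_atTop)
    obtain ⟨b, hb⟩ := (h10.eventually (gt_mem_nhds hε)).exists
    filter_upwards [(h9 b).eventually_eq y] with y' h11
    rw [Real.dist_eq, abs_lt]
    constructor <;> linarith [h7 y b, h8 y b, h7 y' b, h8 y' b]
  · have := h8 y (b + 1)
    rwa [hP.succ] at this

end

end Pool.Agent.H39.Blocks
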