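import Mathlib
import Pool.Agent.H39.NonBorel
import Pool.Agent.H39.BaireLoc

set_option autoImplicit false

namespace Pool.Agent.H39.Red03

open Set Filter Topology

open Classical in
noncomputable def mc (P : ℕ → Prop) (s : ℕ) : ℕ :=
  ((Finset.range s).filter fun j => ∀ j' ≤ j, P j').card

theorem mc_le {P : ℕ → Prop} {j : ℕ} (h : ¬ P j) (s : ℕ) : mc P s ≤ j := by
  classical
  refine (Finset.card_le_card (t := Finset.range j) fun k hk => ?_).trans (by simp)
  rw [Finset.mem_range]
  by_contra h1
  exact h ((Finset.mem_filter.1 hk).2 j (not_lt.1 h1))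

theorem le_mc {P : ℕ → Prop} {K s : ℕ} (h : K ≤ s) (h' : ∀ j < K, P j) : K ≤ mc P s := by
  classical
  refine le_trans (by simp) (Finset.card_le_card (s := Finset.range K) fun k hk => ?_)
  rw [Finset.mem_range] at hk
  exact Finset.mem_filter.2 ⟨Finset.mem_range.2 (by omega), fun j hj => h' j (by omega)⟩

theorem mc_congr {P Q : ℕ → Prop} {s : ℕ} (h : ∀ j < s, P j ↔ Q j) : mc P s = mc Q s := by
  classical
  unfold mc
  congr 1
  refine Finset.filter_congr fun j hj => forall₂_congr fun j' hj' => h j' ?_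
  have := Finset.mem_range.1 hj
  omega

theorem mc_mono {P Q : ℕ → Prop} {s s' : ℕ} (h : s ≤ s') (h' : ∀ j, P j → Q j) :
    mc P s ≤ mc Q s' := by
  classical
  refine Finset.card_le_card fun k hk => ?_
  rw [Finset.mem_filter, Finset.mem_range] at hk ⊢
  exact ⟨by omega, fun j hj => h' j (hk.2 j hj)⟩

theorem reduce' {Y : Type} [TopologicalSpace Y] (O : ℕ → ℕ → ℕ → Set Y)
    (hO : ∀ i j s, IsClopen (O i j s)) :
    ∃ x : Y → ℕ → ℕ, (∀ s, IsLocallyConstant fun y => x y s) ∧
      ∀ y, y ∈ ⋂ i, ⋃ j, ⋂ s, O i j s ↔ Tendsto (x y) atTop atTop := by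
  let D : Y → ℕ → ℕ → ℕ := fun y i s => mc (fun j => ∃ s' ≤ s, y ∉ O i j s') s
  have hD : ∀ i s, IsLocallyConstant fun y => D y i s := by
    intro i s
    rw [IsLocallyConstant.iff_eventually_eq]
    intro y
    have : ∀ᶠ y' in 𝓝 y, ∀ j ∈ Finset.range s, ∀ s' ∈ Finset.range (s + 1),
        (y' ∈ O i j s' ↔ y ∈ O i j s') := by
      simp only [eventually_all_finset]
      intro j _ s' _
      by_cases h : y ∈ O i j s'
      · filter_upwards [(hO i j s').isOpen.mem_nhds h] with y' h'
        simp [h, h']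
      · filter_upwards [(hO i j s').compl.isOpen.mem_nhds h] with y' h'
        simp only [h, iff_false]
        exact h'
    filter_upwards [this] with y' h
    refine mc_congr fun j hj => exists_congr fun s' => and_congr_right fun hs => ?_
    rw [h j (Finset.mem_range.2 hj) s' (Finset.mem_range.2 (by omega))]
  have hmono : ∀ y i, Monotone (D y i) := fun y i s s' h =>
    mc_mono h fun j ⟨t, h1, h2⟩ => ⟨t, h1.trans h, h2⟩
  refine ⟨fun y s => mc (fun i => D y i (s + 1) = D y i s) s, fun s => ?_, fun y => ?_⟩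
  · rw [IsLocallyConstant.iff_eventually_eq]
    intro y
    have : ∀ᶠ y' in 𝓝 y, ∀ i ∈ Finset.range s,
        D y' i (s + 1) = D y i (s + 1) ∧ D y' i s = D y i s :=
      (eventually_all_finset _).2 fun i _ =>
        ((hD i (s + 1)).eventually_eq y).and ((hD i s).eventually_eq y)
    filter_upwards [this] with y' h
    refine mc_congr fun i hi => ?_
    rw [(h i (Finset.mem_range.2 hi)).1, (h i (Finset.mem_range.2 hi)).2]
  · simp only [mem_iInter, mem_iUnion]
    constructor
    · intro h
      have h1 : ∀ i, ∀ᶠ s in atTop, D y i (s + 1) = D y i s := by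
        intro i
        obtain ⟨j, hj⟩ := h i
        have h2 : ∀ s, D y i s ≤ j := fun s => mc_le (fun ⟨t, _, h2⟩ => h2 (hj t)) s
        obtain ⟨b, N, hN⟩ := converges_of_monotone_of_bounded (hmono y i) h2
        filter_upwards [eventually_ge_atTop N] with s hs
        rw [hN s hs, hN (s + 1) (by omega)]
      rw [tendsto_atTop]
      intro K
      filter_upwards [eventually_ge_atTop K,
        (eventually_all_finset (Finset.range K)).2 fun i _ => h1 i] with s h2 h3
      exact le_mc h2 fun i hi => h3 i (Finset.mem_range.2 hi)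
    · intro h i
      by_contra h1
      push Not at h1
      obtain ⟨N, hN⟩ := eventually_atTop.1 (tendsto_atTop.1 h (i + 1))
      have h2 : ∀ s, N ≤ s → D y i s = D y i N := by
        intro s hs
        induction s, hs using Nat.le_induction with
        | base => rfl
        | succ s hs ih =>
          rw [← ih]
          by_contra h3
          have := (hN s hs).trans (mc_le (P := fun i => D y i (s + 1) = D y i s) h3 s)
          omega
      have h3 : ∀ᶠ s in atTop, ∀ j ∈ Finset.range (D y i N + 1), ∃ s' ≤ s, y ∉ O i j s' := by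
        rw [eventually_all_finset]
        intro j _
        obtain ⟨t, ht⟩ := h1 j
        filter_upwards [eventually_ge_atTop t] with s hs
        exact ⟨t, hs, ht⟩
      obtain ⟨s, h4, h5, h6⟩ := (h3.and ((eventually_ge_atTop N).and
        (eventually_ge_atTop (D y i N + 1)))).exists
      have h7 : D y i N + 1 ≤ D y i s := le_mc h6 fun j hj => h4 j (Finset.mem_range.2 hj)
      rw [h2 s h5] at h7
      omega

theorem reduce {Y : Type} [TopologicalSpace Y] [SecondCountableTopology Y]
    (hY : TopologicalSpace.IsTopologicalBasis {s : Set Y | IsClopen s}) (G : ℕ → ℕ → Set Y)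
    (hG : ∀ i j, IsClosed (G i j)) :
    ∃ x : Y → ℕ → ℕ, (∀ s, IsLocallyConstant fun y => x y s) ∧
      ∀ y, y ∈ ⋂ i, ⋃ j, G i j ↔ Tendsto (x y) atTop atTop := by
  have h1 : ∀ i j, ∃ O : ℕ → Set Y, (∀ s, IsClopen (O s)) ∧ G i j = ⋂ s, O s := by
    intro i j
    obtain ⟨T, h1, h2, h3⟩ := TopologicalSpace.isOpen_sUnion_countable
      {s : Set Y | IsClopen s ∧ s ⊆ (G i j)ᶜ} fun s hs => hs.1.isOpen
    obtain ⟨f, hf⟩ := (h1.insert ∅).exists_eq_range (insert_nonempty _ _)
    have h4 : ∀ s, IsClopen (f s) := fun s => by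
      have : f s ∈ insert ∅ T := hf ▸ mem_range_self s
      rcases this with h | h
      · rw [h]; exact isClopen_empty
      · exact (h2 h).1
    refine ⟨fun s => (f s)ᶜ, fun s => (h4 s).compl, ?_⟩
    rw [← compl_iUnion, ← sUnion_range, ← hf, sUnion_insert, empty_union, h3, eq_compl_comm]
    exact (hY.open_eq_sUnion' (hG i j).isOpen_compl).symm
  choose O h2 h3 using h1
  simp only [h3]
  exact reduce' O h2

theorem basis_baire : TopologicalSpace.IsTopologicalBasis {s : Set (ℕ → ℕ) | IsClopen s} := by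
  refine TopologicalSpace.isTopologicalBasis_of_isOpen_of_nhds (fun _ h => h.isOpen)
    fun y U hy hU => ?_
  obtain ⟨n, hn⟩ := BaireLoc.exists_cyl (hU.mem_nhds hy)
  refine ⟨{p | ∀ i < n, p i = y i}, ⟨?_, BaireLoc.isOpen_cyl y n⟩, fun _ _ => rfl, hn⟩
  rw [ofPred_forall]
  refine isClosed_iInter fun i => ?_
  rw [ofPred_forall]
  exact isClosed_iInter fun _ => isClosed_eq (continuous_apply i) continuous_const

end Pool.Agent.H39.Red03
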