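import Mathlib
import Pool.Agent.H39.Blocks
import Pool.Agent.H39.Red03

set_option autoImplicit false

namespace Pool.Agent.H39.Blocks

open Set Filter Topology MeasureTheory Pool.Agent.H39.Equi

theorem e_zero : e 0 = 1 := by simp [e]

theorem norm_sq_sum (M : Finset ℕ) (t : ℕ → ℝ) :
    ‖∑ m ∈ M, e (t m)‖ ^ 2 = ∑ m ∈ M, ∑ m' ∈ M, (e (t m - t m')).re := by
  rw [← Complex.normSq_eq_norm_sq, ← Complex.ofReal_re (Complex.normSq _), ← Complex.mul_conj,
    map_sum, Finset.sum_mul_sum, Complex.re_sum]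
  refine Finset.sum_congr rfl fun m _ => ?_
  rw [Complex.re_sum]
  refine Finset.sum_congr rfl fun m' _ => ?_
  rw [sub_eq_add_neg, e_add, e_neg]

theorem e_re (t : ℝ) : (e t).re = Real.cos (2 * Real.pi * t) := by
  rw [e, show 2 * Real.pi * Complex.I * t = ((2 * Real.pi * t : ℝ) : ℂ) * Complex.I by
    push_cast; ring, Complex.exp_ofReal_mul_I_re]

theorem norm_e_sub (s t : ℝ) : ‖e s - e t‖ ≤ 2 * Real.pi * |s - t| := by
  have h1 : e s - e t = e t * (e (s - t) - 1) := by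
    rw [mul_sub, ← e_add, mul_one]
    congr 2
    ring
  rw [h1, norm_mul, norm_e, one_mul, e, show 2 * Real.pi * Complex.I * ((s - t : ℝ) : ℂ) =
    Complex.I * ((2 * Real.pi * (s - t) : ℝ) : ℂ) by push_cast; ring]
  refine Real.norm_exp_I_mul_ofReal_sub_one_le.trans (le_of_eq ?_)
  rw [Real.norm_eq_abs, abs_mul, abs_of_pos (by positivity)]

theorem continuous_e : Continuous e := by
  unfold e
  fun_prop

theorem integral_cos_le (t u v : ℝ) (ht : t ≠ 0) :
    ∫ ξ in u..v, Real.cos (2 * Real.pi * (t * ξ)) ≤ 1 / |t| := by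
  have h1 : 2 * Real.pi * t ≠ 0 := by positivity
  simp only [← mul_assoc]
  rw [intervalIntegral.integral_comp_mul_left (fun x => Real.cos x) h1, integral_cos, smul_eq_mul]
  refine (le_abs_self _).trans ?_
  rw [abs_mul, abs_inv, abs_mul, abs_of_pos (show 0 < 2 * Real.pi by positivity)]
  have h2 : |Real.sin (2 * Real.pi * t * v) - Real.sin (2 * Real.pi * t * u)| ≤ 2 := by
    rw [abs_le]
    constructor <;> linarith [Real.sin_le_one (2 * Real.pi * t * v),
      Real.neg_one_le_sin (2 * Real.pi * t * v), Real.sin_le_one (2 * Real.pi * t * u),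
      Real.neg_one_le_sin (2 * Real.pi * t * u)]
  have h3 : 0 < |t| := abs_pos.2 ht
  rw [inv_mul_le_iff₀ (by positivity)]
  have : 2 * Real.pi * |t| * (1 / |t|) = 2 * Real.pi := by field_simp
  linarith [Real.pi_gt_three]

theorem exists_le_of_integral {f : ℝ → ℝ} (hf : Continuous f) {u v C : ℝ} (huv : u < v)
    (h : ∫ ξ in u..v, f ξ ≤ (v - u) * C) : ∃ ξ, u ≤ ξ ∧ ξ ≤ v ∧ f ξ ≤ C := by
  by_contra h1
  push Not at h1
  have h2 := intervalIntegral.intervalIntegral_pos_of_pos_on (f := fun ξ => f ξ - C)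
    ((hf.sub continuous_const).intervalIntegrable u v)
    (fun ξ hξ => sub_pos.2 (h1 ξ hξ.1.le hξ.2.le)) huv
  rw [intervalIntegral.integral_sub (hf.intervalIntegrable u v) intervalIntegrable_const] at h2
  simp only [intervalIntegral.integral_const, smul_eq_mul] at h2
  linarith

section
variable {A α : ℝ}

theorem pow_sub_ge (hα : 1 < |α|) {k m m' : ℕ} (h1 : k ≤ m) (h2 : m < m') :
    |α| ^ k * (|α| - 1) ≤ |α ^ m - α ^ m'| := by
  have h3 : |α| ^ k ≤ |α| ^ m := pow_le_pow_right₀ hα.le h1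
  have h4 : |α| ^ (m + 1) ≤ |α| ^ m' := pow_le_pow_right₀ hα.le h2
  have h5 := abs_sub_abs_le_abs_sub (α ^ m') (α ^ m)
  rw [abs_sub_comm, abs_pow, abs_pow] at h5
  rw [pow_succ] at h4
  nlinarith

theorem card_le (hA : 1 < A) (hα : 1 < |α|) (n T g : ℕ) (hT : 1 ≤ T) :
    ((Finset.Ico (ν A α n + g) (ν A α (n + T) - g)).card : ℝ) ≤ (ρ A α + 1) * T := by
  have h1 : (Finset.Ico (ν A α n + g) (ν A α (n + T) - g)).card ≤ ν A α (n + T) - ν A α n := by
    rw [Nat.card_Ico]; omega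
  have h2 : ((ν A α (n + T) - ν A α n : ℕ) : ℝ) = ν A α (n + T) - ν A α n :=
    Nat.cast_sub (ν_mono hA hα (Nat.le_add_right _ _))
  have h3 : (1 : ℝ) ≤ T := by exact_mod_cast hT
  have h4 : ((Finset.Ico (ν A α n + g) (ν A α (n + T) - g)).card : ℝ) ≤
    ((ν A α (n + T) - ν A α n : ℕ) : ℝ) := by exact_mod_cast h1
  linarith [ν_diff_le hA hα n T]

theorem robust (hA : 1 < A) (hα : 1 < |α|) (j : ℕ) :
    ∀ᶠ g : ℕ in atTop, ∀ᶠ T : ℕ in atTop, ∀ (n : ℕ) (ξ0 ξ : ℝ) (h : ℕ), 0 < h → h ≤ j →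
      |ξ - ξ0| ≤ 1 / A ^ (n + T) →
      ‖S α h ξ0 (ν A α n + g) (ν A α (n + T) - g)‖ ≤ T / (3 * j) →
      ‖S α h ξ (ν A α n) (ν A α (n + T))‖ ≤ T / j := by
  rcases Nat.eq_zero_or_pos j with rfl | hj
  · exact Eventually.of_forall fun _ => Eventually.of_forall fun _ _ _ _ h h1 h2 => by omega
  have hj' : (0 : ℝ) < j := by exact_mod_cast hj
  have hρ := ρ_pos hA hα
  have h1 : Tendsto (fun g : ℕ => 2 * Real.pi * j * |α| / |α| ^ g) atTop (𝓝 0) :=
    tendsto_const_nhds.div_atTop (tendsto_pow_atTop_atTop_of_one_lt hα)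
  filter_upwards [h1.eventually (ge_mem_nhds (show 0 < 1 / (3 * j * (ρ A α + 1)) by positivity))]
    with g hg
  filter_upwards [eventually_ge_atTop 1, eventually_ge_atTop (6 * g * j),
    (tendsto_natCast_atTop_atTop.atTop_mul_const hρ).eventually
      (eventually_ge_atTop (2 * g + 1 : ℝ))] with T hT1 hT2 hT3 n ξ0 ξ h hh hhj hξ hS
  have h2 : ν A α n + g ≤ ν A α (n + T) - g := by
    have := le_ν_diff hA hα n T
    have : (ν A α n : ℝ) + 2 * g ≤ ν A α (n + T) := by linarith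
    have : ν A α n + 2 * g ≤ ν A α (n + T) := by exact_mod_cast this
    omega
  have h3 : ‖S α h ξ (ν A α n + g) (ν A α (n + T) - g) -
      S α h ξ0 (ν A α n + g) (ν A α (n + T) - g)‖ ≤ T / (3 * j) := by
    rw [S, S, ← Finset.sum_sub_distrib]
    refine (norm_sum_le _ _).trans ((Finset.sum_le_card_nsmul _ _ (1 / (3 * j * (ρ A α + 1)))
      fun m hm => ?_).trans ?_)
    · refine (norm_e_sub _ _).trans (le_trans ?_ hg)
      rw [Finset.mem_Ico] at hm
      have h4 : |α| ^ m * |α| ^ g ≤ |α| * A ^ (n + T) := by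
        rw [← pow_add]
        exact (pow_le_pow_right₀ hα.le (by omega)).trans (pow_ν_le hA hα _)
      have h5 : (h : ℝ) ≤ j := by exact_mod_cast hhj
      rw [← mul_sub, ← sub_mul, abs_mul, abs_mul, abs_pow, Nat.abs_cast,
        le_div_iff₀ (by positivity)]
      rw [le_div_iff₀ (by positivity)] at hξ
      calc 2 * Real.pi * (h * (|ξ - ξ0| * |α| ^ m)) * |α| ^ g
          = 2 * Real.pi * h * (|ξ - ξ0| * (|α| ^ m * |α| ^ g)) := by ring
        _ ≤ 2 * Real.pi * j * (|ξ - ξ0| * (|α| * A ^ (n + T))) := by gcongr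
        _ = 2 * Real.pi * j * |α| * (|ξ - ξ0| * A ^ (n + T)) := by ring
        _ ≤ 2 * Real.pi * j * |α| * 1 := by gcongr
        _ = _ := mul_one _
    · rw [nsmul_eq_mul]
      refine (mul_le_mul_of_nonneg_right (card_le hA hα n T g hT1) (by positivity)).trans
        (le_of_eq ?_)
      field_simp
  have h4 : ν A α (n + T) - g ≤ ν A α (n + T) := Nat.sub_le _ _
  rw [S_add α h ξ (Nat.le_add_right _ g) (h2.trans h4), S_add α h ξ h2 h4]
  have h5 := norm_S_le α h ξ (Nat.le_add_right (ν A α n) g)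
  have h6 := norm_S_le α h ξ h4
  rw [Nat.cast_sub (by omega)] at h6
  push_cast at h5
  have h7 : (2 * g : ℝ) ≤ T / (3 * j) := by
    rw [le_div_iff₀ (by positivity)]
    have : ((6 * g * j : ℕ) : ℝ) ≤ T := by exact_mod_cast hT2
    push_cast at this
    linarith
  have h8 : (T : ℝ) / j = 3 * (T / (3 * j)) := by field_simp
  have h9 := norm_le_insert' (S α h ξ (ν A α n + g) (ν A α (n + T) - g))
    (S α h ξ0 (ν A α n + g) (ν A α (n + T) - g))
  linarith [norm_add_le (S α h ξ (ν A α n) (ν A α n + g))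
    (S α h ξ (ν A α n + g) (ν A α (n + T) - g) + S α h ξ (ν A α (n + T) - g) (ν A α (n + T))),
    norm_add_le (S α h ξ (ν A α n + g) (ν A α (n + T) - g))
      (S α h ξ (ν A α (n + T) - g) (ν A α (n + T)))]

theorem continuous_S (α : ℝ) (h k1 k2 : ℕ) : Continuous fun ξ => S α h ξ k1 k2 :=
  continuous_finsetSum _ fun _ _ => continuous_e.comp (by fun_prop)

theorem moment (hA : 1 < A) (hα : 1 < |α|) {c : ℝ} (hc : 0 < c) :
    ∀ᶠ g : ℕ in atTop, ∀ᶠ T : ℕ in atTop, ∀ (n : ℕ) (u : ℝ) (h : ℕ), 0 < h →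
      ∫ ξ in u..(u + 1 / A ^ n / 2), ‖S α h ξ (ν A α n + g) (ν A α (n + T) - g)‖ ^ 2 ≤
        1 / A ^ n / 2 * (c * T ^ 2) := by
  have hρ := ρ_pos hA hα
  have hα' : 0 < |α| - 1 := by linarith
  have h1 : Tendsto (fun g : ℕ => 2 / (|α| - 1) / |α| ^ g) atTop (𝓝 0) :=
    tendsto_const_nhds.div_atTop (tendsto_pow_atTop_atTop_of_one_lt hα)
  filter_upwards [h1.eventually (ge_mem_nhds (show 0 < c / (2 * (ρ A α + 1) ^ 2) by positivity))]
    with g hg
  filter_upwards [eventually_ge_atTop 1, tendsto_natCast_atTop_atTop.eventually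
      (eventually_ge_atTop (2 * (ρ A α + 1) / c))] with T hT1 hT2 n u h hh
  set M := Finset.Ico (ν A α n + g) (ν A α (n + T) - g) with hM
  set l := 1 / A ^ n / 2 with hl
  have hl0 : 0 < l := by positivity
  simp only [S, norm_sq_sum, e_re, ← hM]
  rw [intervalIntegral.integral_finsetSum fun m _ =>
    (by fun_prop : Continuous _).intervalIntegrable _ _]
  have h2 : ∀ m ∈ M, ∫ ξ in u..(u + l), ∑ m' ∈ M,
      Real.cos (2 * Real.pi * (h * (ξ * α ^ m) - h * (ξ * α ^ m'))) ≤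
      l + M.card * (l * (c / (2 * (ρ A α + 1) ^ 2))) := by
    intro m hm
    rw [intervalIntegral.integral_finsetSum fun m _ =>
      (by fun_prop : Continuous _).intervalIntegrable _ _]
    have h3 : ∀ m' ∈ M, ∫ ξ in u..(u + l),
        Real.cos (2 * Real.pi * (h * (ξ * α ^ m) - h * (ξ * α ^ m'))) ≤
        (if m' = m then l else 0) + l * (c / (2 * (ρ A α + 1) ^ 2)) := by
      intro m' hm'
      split_ifs with h4
      · subst h4
        simp only [sub_self, mul_zero, Real.cos_zero, intervalIntegral.integral_const,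
          add_sub_cancel_left, smul_eq_mul, mul_one, le_add_iff_nonneg_right]
        positivity
      · have h5 : |α| ^ (ν A α n + g) * (|α| - 1) ≤ |α ^ m - α ^ m'| := by
          rcases lt_or_gt_of_ne h4 with h6 | h6
          · rw [abs_sub_comm]
            exact pow_sub_ge hα (Finset.mem_Ico.1 hm').1 h6
          · exact pow_sub_ge hα (Finset.mem_Ico.1 hm).1 h6
        have h6 : A ^ n * |α| ^ g * (|α| - 1) ≤ |h * (α ^ m - α ^ m')| := by
          rw [abs_mul, Nat.abs_cast]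
          have h7 : (1 : ℝ) ≤ h := by exact_mod_cast hh
          calc _ ≤ |α| ^ ν A α n * |α| ^ g * (|α| - 1) := by gcongr; exact pow_le_ν hA hα n
            _ ≤ 1 * |α ^ m - α ^ m'| := by rw [← pow_add, one_mul]; exact h5
            _ ≤ _ := by gcongr
        have h7 : 0 < A ^ n * |α| ^ g * (|α| - 1) := by positivity
        have h8 := integral_cos_le (h * (α ^ m - α ^ m')) u (u + l) (abs_pos.1 (h7.trans_le h6))
        simp only [show ∀ ξ : ℝ, h * (ξ * α ^ m) - h * (ξ * α ^ m') = h * (α ^ m - α ^ m') * ξ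
          from fun ξ => by ring, zero_add]
        refine h8.trans ((one_div_le_one_div_of_le h7 h6).trans
          (le_trans (le_of_eq ?_) (mul_le_mul_of_nonneg_left hg hl0.le)))
        rw [hl]
        field_simp
    refine (Finset.sum_le_sum h3).trans (le_of_eq ?_)
    rw [Finset.sum_add_distrib, Finset.sum_ite_eq', if_pos hm, Finset.sum_const, nsmul_eq_mul]
  refine (Finset.sum_le_card_nsmul _ _ _ h2).trans ?_
  rw [nsmul_eq_mul]
  have h3 : (M.card : ℝ) ≤ (ρ A α + 1) * T := card_le hA hα n T g hT1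
  rw [div_le_iff₀ hc] at hT2
  have h4 : (0 : ℝ) ≤ T := Nat.cast_nonneg _
  calc _ ≤ (ρ A α + 1) * T * (l + (ρ A α + 1) * T * (l * (c / (2 * (ρ A α + 1) ^ 2)))) := by
        gcongr
    _ = l * ((2 * (ρ A α + 1)) * T / 2 + c * T ^ 2 / 2) := by field_simp
    _ ≤ l * ((T * c) * T / 2 + c * T ^ 2 / 2) := by gcongr
    _ = _ := by ring

theorem good_block (hA : 1 < A) {α : ℕ → ℝ} (hα : ∀ i, 1 < |α i|) (j : ℕ) :
    ∀ᶠ T : ℕ in atTop, ∀ (n : ℕ) (u : ℝ), ∃ u', u ≤ u' ∧ u' + 1 / A ^ (n + T) ≤ u + 1 / A ^ n ∧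
      ∀ ξ, u' ≤ ξ → ξ ≤ u' + 1 / A ^ (n + T) → ∀ i < j, GoodB A (α i) j n T ξ := by
  rcases Nat.eq_zero_or_pos j with rfl | hj
  · refine Eventually.of_forall fun T n u => ⟨u, le_rfl, ?_, fun _ _ _ i hi => by omega⟩
    gcongr
    · exact hA.le
    · omega
  have hj' : (0 : ℝ) < j := by exact_mod_cast hj
  obtain ⟨g, h1, h2⟩ := (((eventually_all_finset (Finset.range j)).2 fun i _ =>
    robust hA (hα i) j).and ((eventually_all_finset (Finset.range j)).2 fun i _ =>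
    moment hA (hα i) (c := 1 / (9 * j ^ 4)) (by positivity))).exists
  filter_upwards [(eventually_all_finset (Finset.range j)).2 h1,
    (eventually_all_finset (Finset.range j)).2 h2,
    (tendsto_pow_atTop_atTop_of_one_lt hA).eventually (eventually_ge_atTop 2)]
    with T h3 h4 h5 n u
  have hl : 0 < 1 / A ^ n / 2 := by positivity
  obtain ⟨ξ0, h6, h7, h8⟩ := exists_le_of_integral
    (f := fun ξ => ∑ p ∈ Finset.range j ×ˢ Finset.Icc 1 j,
      ‖S (α p.1) p.2 ξ (ν A (α p.1) n + g) (ν A (α p.1) (n + T) - g)‖ ^ 2)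
    (continuous_finsetSum _ fun p _ => (continuous_S _ _ _ _).norm.pow 2)
    (u := u) (v := u + 1 / A ^ n / 2) (C := (T / (3 * j)) ^ 2) (by linarith) (by
      rw [intervalIntegral.integral_finsetSum fun p _ =>
        ((continuous_S _ _ _ _).norm.fun_pow 2).intervalIntegrable _ _]
      refine (Finset.sum_le_card_nsmul _ _ _ fun p hp => h4 p.1 (Finset.mem_product.1 hp).1 n u
        p.2 (Finset.mem_Icc.1 (Finset.mem_product.1 hp).2).1).trans (le_of_eq ?_)
      simp only [Finset.card_product, Finset.card_range, Nat.card_Icc, add_tsub_cancel_right,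
        nsmul_eq_mul]
      push_cast
      field_simp
      ring)
  refine ⟨ξ0, h6, ?_, fun ξ h9 h10 i hi h hh hhj => ?_⟩
  · have : 1 / A ^ (n + T) ≤ 1 / A ^ n / 2 := by
      rw [pow_add, div_div]
      gcongr
    linarith
  · refine h3 i (Finset.mem_range.2 hi) n ξ0 ξ h hh hhj (by rw [abs_le]; constructor <;> linarith)
      (le_of_sq_le_sq ?_ (by positivity))
    exact (Finset.single_le_sum (f := fun p : ℕ × ℕ =>
      ‖S (α p.1) p.2 ξ0 (ν A (α p.1) n + g) (ν A (α p.1) (n + T) - g)‖ ^ 2)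
      (fun _ _ => by positivity) (a := (i, h))
      (Finset.mem_product.2 ⟨Finset.mem_range.2 hi, Finset.mem_Icc.2 ⟨hh, hhj⟩⟩)).trans h8

theorem cnt_succ_le (P : ℕ → Prop) {k k' : ℕ} (h : k ≤ k') : cnt P k ≤ cnt P k' := by
  classical
  unfold cnt
  exact_mod_cast Finset.card_le_card (Finset.filter_subset_filter _ (Finset.range_mono h))

theorem cnt_step {P : ℕ → Prop} {k m k' : ℕ} (h1 : k ≤ m) (h2 : m < k') (h3 : P m) :
    cnt P k + 1 ≤ cnt P k' := by
  classical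
  have h4 : cnt P (m + 1) = cnt P m + 1 := by
    simp only [cnt_sum, Finset.sum_range_succ, if_pos h3]
  linarith [cnt_succ_le P h1, cnt_succ_le P (show m + 1 ≤ k' from h2)]

theorem force_one (hα : 1 < |α|) {m0 m' : ℕ} (h0 : 2 ≤ |α| ^ m0) {η : ℝ}
    (h1 : 1 / |α| ^ m' < η) (hm' : 1 ≤ m') (k : ℕ) (u : ℝ) :
    ∃ u', u ≤ u' ∧ u' + 1 / |α| ^ (k + (m0 + m')) ≤ u + 1 / |α| ^ k ∧
      ∀ ξ, u' ≤ ξ → ξ ≤ u' + 1 / |α| ^ (k + (m0 + m')) → Frc α η ξ (k + m0) := by
  set β := |α| ^ (k + m0) with hβ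
  set η0 := 1 / |α| ^ m' with hη0
  have hβ0 : 0 < β := by positivity
  have h2 : 0 < η0 := by positivity
  have h3 : η0 < 1 := by
    rw [hη0, div_lt_one (by positivity)]
    exact one_lt_pow₀ hα (by omega)
  have h4 : 1 / |α| ^ (k + (m0 + m')) = η0 / β := by
    rw [hη0, hβ, ← add_assoc, pow_add _ (k + m0)]
    field_simp
  have h5 : 2 / β ≤ 1 / |α| ^ k := by
    rw [hβ, pow_add, div_le_div_iff₀ (by positivity) (by positivity)]
    have : 0 < |α| ^ k := by positivity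
    nlinarith
  have h6 : ∀ (ξ : ℝ) (z : ℤ), (z : ℝ) ≤ ξ * α ^ (k + m0) → ξ * α ^ (k + m0) ≤ z + η0 →
      Frc α η ξ (k + m0) := by
    intro ξ z h7 h8
    have : Int.fract (ξ * α ^ (k + m0)) = ξ * α ^ (k + m0) - z := by
      rw [Int.fract_eq_iff]
      exact ⟨by linarith, by linarith, z, by ring⟩
    exact ⟨Int.fract_nonneg _, by rw [this]; linarith⟩
  rw [h4]
  rcases abs_choice (α ^ (k + m0)) with h7 | h7 <;> rw [abs_pow, ← hβ] at h7
  · refine ⟨⌈u * β⌉ / β, ?_, ?_, fun ξ h8 h9 => h6 ξ ⌈u * β⌉ ?_ ?_⟩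
    · rw [le_div_iff₀ hβ0]; exact Int.le_ceil _
    · refine le_trans ?_ (add_le_add_right h5 u)
      rw [← add_div, div_le_iff₀ hβ0, add_mul, div_mul_cancel₀ _ hβ0.ne']
      linarith [Int.ceil_lt_add_one (u * β)]
    · rw [← h7]; rwa [div_le_iff₀ hβ0] at h8
    · rw [← h7]; rwa [← add_div, le_div_iff₀ hβ0] at h9
  · refine ⟨(⌈u * β + η0⌉ - η0) / β, ?_, ?_, fun ξ h8 h9 => h6 ξ (-⌈u * β + η0⌉) ?_ ?_⟩
    · rw [le_div_iff₀ hβ0]; linarith [Int.le_ceil (u * β + η0)]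
    · refine le_trans ?_ (add_le_add_right h5 u)
      rw [← add_div, div_le_iff₀ hβ0, add_mul, div_mul_cancel₀ _ hβ0.ne']
      linarith [Int.ceil_lt_add_one (u * β + η0)]
    · rw [← add_div, le_div_iff₀ hβ0] at h9
      rw [show α ^ (k + m0) = -β by linarith]
      push_cast
      linarith
    · rw [div_le_iff₀ hβ0] at h8
      rw [show α ^ (k + m0) = -β by linarith]
      push_cast
      linarith

theorem forced_block (hA : 1 < A) (hα : 1 < |α|) :
    ∃ η κ : ℝ, 0 ≤ η ∧ η ≤ 1 ∧ 0 < κ ∧ ∀ᶠ T : ℕ in atTop, ∀ (n : ℕ) (u : ℝ), ∃ u', u ≤ u' ∧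
      u' + 1 / A ^ (n + T) ≤ u + 1 / A ^ n ∧
      ∀ ξ, u' ≤ ξ → ξ ≤ u' + 1 / A ^ (n + T) → ForcedB A α η κ n T ξ := by
  obtain ⟨m0, h0⟩ := ((tendsto_pow_atTop_atTop_of_one_lt hα).eventually
    (eventually_ge_atTop 2)).exists
  have h1 : Tendsto (fun m' : ℕ => (m0 : ℝ) / |α| ^ m' + (m' : ℝ) ^ 1 / |α| ^ m') atTop
      (𝓝 (0 + 0)) :=
    (tendsto_const_nhds.div_atTop (tendsto_pow_atTop_atTop_of_one_lt hα)).add
      (tendsto_pow_const_div_const_pow_of_one_lt 1 hα)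
  obtain ⟨m', h2, hm'⟩ := ((h1.eventually (gt_mem_nhds (show (0 : ℝ) + 0 < 1 / 2 by norm_num))).and
    (eventually_ge_atTop 1)).exists
  set p := m0 + m' with hp
  have hp1 : (1 : ℝ) ≤ p := by exact_mod_cast (show 1 ≤ p by omega)
  have h3 : 1 / |α| ^ m' < 1 / (2 * p) := by
    rw [← add_div, div_lt_iff₀ (by positivity), pow_one] at h2
    refine one_div_lt_one_div_of_lt (by positivity) ?_
    rw [hp]
    push_cast
    linarith
  have h4 : ∀ q k u, ∃ u', u ≤ u' ∧ u' + 1 / |α| ^ (k + q * p) ≤ u + 1 / |α| ^ k ∧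
      ∀ ξ, u' ≤ ξ → ξ ≤ u' + 1 / |α| ^ (k + q * p) →
        cnt (Frc α (1 / (2 * p)) ξ) k + q ≤ cnt (Frc α (1 / (2 * p)) ξ) (k + q * p) := by
    intro q k u
    induction q with
    | zero => exact ⟨u, le_rfl, by simp, fun ξ _ _ => by simp⟩
    | succ q ih =>
      obtain ⟨u', h5, h6, h7⟩ := ih
      obtain ⟨u'', h8, h9, h10⟩ := force_one hα h0 h3 hm' (k + q * p) u'
      rw [show k + (q + 1) * p = k + q * p + (m0 + m') by rw [hp]; ring]
      refine ⟨u'', h5.trans h8, h9.trans h6, fun ξ h11 h12 => ?_⟩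
      have h13 := cnt_step (Nat.le_add_right (k + q * p) m0)
        (show k + q * p + m0 < k + q * p + (m0 + m') by omega) (h10 ξ h11 h12)
      push_cast
      linarith [h7 ξ (h8.trans h11) (h12.trans h9)]
  refine ⟨1 / (2 * p), 1 / (4 * p), by positivity, ?_, by positivity, ?_⟩
  · rw [div_le_one (by positivity)]; linarith
  filter_upwards [(tendsto_natCast_atTop_atTop.atTop_mul_const (ρ_pos hA hα)).eventually
      (eventually_ge_atTop (4 * p + 5 : ℝ))] with T hT n u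
  have h5 : (ν A α n : ℝ) + (4 * p + 4) ≤ ν A α (n + T) := by linarith [le_ν_diff hA hα n T]
  have h6 : ν A α n + (4 * p + 4) ≤ ν A α (n + T) := by exact_mod_cast h5
  set q := (ν A α (n + T) - 1 - ν A α n) / p with hq
  have h7 : q * p ≤ ν A α (n + T) - 1 - ν A α n := Nat.div_mul_le_self _ _
  have h8 : ν A α (n + T) - 1 - ν A α n < q * p + p := Nat.lt_div_mul_add (by omega)
  obtain ⟨u', h9, h10, h11⟩ := h4 q (ν A α n) u
  have h12 : 1 / A ^ (n + T) ≤ 1 / |α| ^ (ν A α n + q * p) := by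
    refine one_div_le_one_div_of_le (by positivity) ?_
    have h13 : |α| ^ (ν A α n + q * p + 1) ≤ |α| * A ^ (n + T) :=
      (pow_le_pow_right₀ hα.le (by omega)).trans (pow_ν_le hA hα _)
    rw [pow_succ, mul_comm] at h13
    exact le_of_mul_le_mul_left h13 (by linarith)
  have h13 : 1 / |α| ^ ν A α n ≤ 1 / A ^ n :=
    one_div_le_one_div_of_le (by positivity) (pow_le_ν hA hα n)
  refine ⟨u', h9, by linarith, fun ξ h14 h15 => ?_⟩
  have h16 := h11 ξ h14 (by linarith)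
  have h17 := cnt_succ_le (Frc α (1 / (2 * p)) ξ)
    (show ν A α n + q * p ≤ ν A α (n + T) by omega)
  have h18 : (ν A α (n + T) : ℝ) ≤ ν A α n + q * p + p := by
    exact_mod_cast (show ν A α (n + T) ≤ ν A α n + q * p + p by omega)
  rw [ForcedB]
  refine le_trans ?_ (show (q : ℝ) ≤ _ by linarith)
  rw [show (1 : ℝ) / (2 * p) + 1 / (4 * p) = 3 / (4 * p) by field_simp; ring, div_mul_eq_mul_div,
    div_le_iff₀ (by positivity)]
  nlinarith

end

theorem exists_T {Q : ℕ → ℕ → Prop} (h : ∀ j, ∀ᶠ T in atTop, Q j T) :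
    ∃ T : ℕ → ℕ, (∀ j, 1 ≤ T j) ∧ ∀ j, Q j (T j) := by
  choose T h1 h2 using fun j => ((eventually_ge_atTop 1).and (h j)).exists
  exact ⟨T, h1, h2⟩

theorem hard {α : ℕ → ℝ} (hα : ∀ i, 1 < |α i|) {Y : Type} [TopologicalSpace Y] (x : Y → ℕ → ℕ)
    (hx : ∀ s, IsLocallyConstant fun y => x y s) :
    ∃ f : Y → ℝ, Continuous f ∧
      ∀ y, (∀ i, UD fun n => f y * α i ^ n) ↔ Tendsto (x y) atTop atTop := by
  classical
  have hA : (1 : ℝ) < 2 := by norm_num
  obtain ⟨η, κ, h1, h2, h3, h4⟩ := forced_block hA (hα 0)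
  obtain ⟨T, h5, h6⟩ := exists_T fun j => h4.and (good_block hA hα j)
  obtain ⟨pos, lev, hP⟩ := exists_pos h5
  obtain ⟨f, hf, h7⟩ := build hP hA (σ := Prop) (fun y b => Bad pos (x y) b)
    (fun b => by
      rw [IsLocallyConstant.iff_eventually_eq]
      intro y
      filter_upwards [(hx (Nat.log 2 (pos b))).eventually_eq y] with y' h
      simp only [Bad, h])
    (fun t b ξ => (t → ForcedB 2 (α 0) η κ (pos b) (T (lev b)) ξ) ∧
      (¬ t → ∀ i < lev b, GoodB 2 (α i) (lev b) (pos b) (T (lev b)) ξ))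
    (fun t b u => by
      by_cases ht : t
      · obtain ⟨u', h7, h8, h9⟩ := (h6 (lev b)).1 (pos b) u
        exact ⟨u', h7, h8, fun ξ h10 h11 => ⟨fun _ => h9 ξ h10 h11, fun h => absurd ht h⟩⟩
      · obtain ⟨u', h7, h8, h9⟩ := (h6 (lev b)).2 (pos b) u
        exact ⟨u', h7, h8, fun ξ h10 h11 => ⟨fun h => absurd h ht, fun _ => h9 ξ h10 h11⟩⟩)
  refine ⟨f, hf, fun y => ⟨fun h => ?_, fun h i => ?_⟩⟩
  · by_contra h8
    rw [tendsto_atTop] at h8
    push Not at h8
    obtain ⟨i, hi⟩ := h8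
    refine not_normal_of hP hA (hα 0) h1 h2 h3 (δ := 1 / (4 * (i + 1))) (by positivity)
      (fun b0 => ?_) (h 0)
    obtain ⟨b1, b2, h9, h10, h11, h12⟩ := bad_run hP (z := x y) (i := i) (R := fun _ => True)
      (hi.mono fun s hs => ⟨hs.le, trivial⟩) b0
    exact ⟨b1, b2, h9, h10, h11, fun b h13 h14 => (h7 y b).1 (h12 b h13 h14).1⟩
  · refine normal_of hP hA (hα i) ?_ (bad_small hP h)
    filter_upwards [hP.top.eventually (eventually_gt_atTop i)] with b hb h8
    exact (h7 y b).2 h8 i hb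

end Pool.Agent.H39.Blocks
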