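import Mathlib
import Pool.Agent.H39.Blocks2

set_option autoImplicit false

namespace Pool.Agent.H39.Blocks

open Set Filter Topology MeasureTheory Pool.Agent.H39.Equi

noncomputable def φ (s : ℝ) : ℝ := ‖1 + e s‖ / 2

theorem φ_nonneg (s : ℝ) : 0 ≤ φ s := by unfold φ; positivity

theorem φ_le_one (s : ℝ) : φ s ≤ 1 := by
  have := norm_add_le 1 (e s)
  rw [norm_one, norm_e] at this
  unfold φ
  linarith

theorem continuous_φ : Continuous φ :=
  ((continuous_const.add continuous_e).norm).div_const _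

theorem e_int (z : ℤ) : e z = 1 := by
  rw [e, show 2 * Real.pi * Complex.I * ((z : ℝ) : ℂ) = z * (2 * Real.pi * Complex.I) by
    push_cast; ring]
  exact Complex.exp_int_mul_two_pi_mul_I z

theorem φ_nat (z : ℕ) : φ z = 1 := by
  have := e_int z
  rw [Int.cast_natCast] at this
  rw [φ, this]
  norm_num

theorem φ_neg (s : ℝ) : φ (-s) = φ s := by
  rw [φ, φ, e_neg, ← Complex.norm_conj (1 + e s), map_add, map_one]

theorem φ_sq (s : ℝ) : φ s ^ 2 ≤ 1 - 4 * (s - round s) ^ 2 := by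
  have h1 : e s = e (s - round s) := by
    rw [sub_eq_add_neg, e_add, ← Int.cast_neg, e_int, mul_one]
  have h2 : ‖1 + e s‖ ^ 2 = 2 + 2 * (e s).re := by
    have h3 : Complex.normSq (e s) = 1 := by rw [Complex.normSq_eq_norm_sq, norm_e]; norm_num
    rw [← Complex.normSq_eq_norm_sq, Complex.normSq_add, h3]
    simp
    ring
  have h3 := abs_sub_round s
  have h4 := Real.cos_le_one_sub_mul_cos_sq (x := 2 * Real.pi * (s - round s)) (by
    rw [abs_mul, abs_of_pos (by positivity)]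
    nlinarith [Real.pi_pos])
  have h5 : 2 / Real.pi ^ 2 * (2 * Real.pi * (s - round s)) ^ 2 = 8 * (s - round s) ^ 2 := by
    field_simp
    ring
  rw [φ, div_pow, h2, h1, e_re]
  linarith

theorem freq_far {x : ℝ} (hx : Irrational x) {B : ℕ} (hB : 2 ≤ B) :
    ∃ᶠ l : ℕ in atTop, 1 / (2 * (B : ℝ)) ≤ |x * B ^ l - round (x * B ^ l)| := by
  by_contra h
  rw [not_frequently] at h
  obtain ⟨l0, h1⟩ := eventually_atTop.1 h
  have hB' : (2 : ℝ) ≤ B := by exact_mod_cast hB
  have h2 : ∀ k, x * B ^ (l0 + k) - round (x * B ^ (l0 + k)) =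
      B ^ k * (x * B ^ l0 - round (x * B ^ l0)) := by
    intro k
    induction k with
    | zero => simp
    | succ k ih =>
      have h3 := not_le.1 (h1 (l0 + k) (by omega))
      have h4 := not_le.1 (h1 (l0 + (k + 1)) (by omega))
      have h5 : |((B * round (x * B ^ (l0 + k)) - round (x * B ^ (l0 + (k + 1))) : ℤ) : ℝ)| < 1 := by
        have h6 : ((B * round (x * B ^ (l0 + k)) - round (x * B ^ (l0 + (k + 1))) : ℤ) : ℝ) =
            (x * B ^ (l0 + (k + 1)) - round (x * B ^ (l0 + (k + 1)))) -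
              B * (x * B ^ (l0 + k) - round (x * B ^ (l0 + k))) := by
          push_cast
          ring
        rw [h6]
        refine (abs_sub _ _).trans_lt ?_
        rw [abs_mul, Nat.abs_cast]
        have h7 : (B : ℝ) * |x * B ^ (l0 + k) - round (x * B ^ (l0 + k))| ≤ B * (1 / (2 * B)) := by
          gcongr
        have h8 : (B : ℝ) * (1 / (2 * B)) = 1 / 2 := by field_simp
        have h9 : 1 / (2 * (B : ℝ)) ≤ 1 / 2 := by gcongr; linarith
        linarith
      have h6 : B * round (x * B ^ (l0 + k)) - round (x * B ^ (l0 + (k + 1))) = 0 := by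
        rw [← Int.abs_lt_one_iff]
        exact_mod_cast h5
      have h7 : (round (x * B ^ (l0 + (k + 1))) : ℝ) = B * round (x * B ^ (l0 + k)) := by
        exact_mod_cast (sub_eq_zero.1 h6).symm
      rw [h7, pow_succ' _ k, mul_assoc, ← ih]
      ring
  have h3 : 0 < |x * B ^ l0 - round (x * B ^ l0)| := by
    rw [abs_pos, sub_ne_zero]
    have := hx.mul_natCast (m := B ^ l0) (by positivity)
    push_cast at this
    exact this.ne_int _
  obtain ⟨k, hk⟩ := (((tendsto_pow_atTop_atTop_of_one_lt (show (1 : ℝ) < B by linarith)).atTop_mul_const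
    h3).eventually (eventually_ge_atTop (1 / (2 * (B : ℝ))))).exists
  refine h1 (l0 + k) (by omega) ?_
  rwa [h2, abs_mul, abs_of_pos (by positivity)]

theorem prod_tendsto {x : ℝ} (hx : Irrational x) {B : ℕ} (hB : 2 ≤ B) :
    Tendsto (fun L => ∏ l ∈ Finset.range L, φ (x * B ^ l)) atTop (𝓝 0) := by
  set P := fun L => ∏ l ∈ Finset.range L, φ (x * B ^ l) with hP
  have h0 : ∀ L, 0 ≤ P L := fun L => Finset.prod_nonneg fun _ _ => φ_nonneg _
  have h1 : ∀ L, P (L + 1) = P L * φ (x * B ^ L) := fun L => Finset.prod_range_succ _ _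
  have h2 : Antitone P := antitone_nat_of_succ_le fun L => by
    rw [h1]; exact mul_le_of_le_one_right (h0 L) (φ_le_one _)
  have h3 := tendsto_atTop_ciInf h2 ⟨0, by rintro _ ⟨L, rfl⟩; exact h0 L⟩
  have hB' : (2 : ℝ) ≤ B := by exact_mod_cast hB
  have h4 : (⨅ L, P L) ^ 2 ≤ (⨅ L, P L) ^ 2 * (1 - 4 * (1 / (2 * (B : ℝ))) ^ 2) := by
    refine le_of_tendsto_of_tendsto_of_frequently ((h3.comp (tendsto_add_atTop_nat 1)).pow 2)
      ((h3.pow 2).mul_const _) ((freq_far hx hB).mono fun l hl => ?_)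
    simp only [Function.comp, h1, mul_pow]
    refine mul_le_mul_of_nonneg_left ((φ_sq _).trans ?_) (by positivity)
    have := pow_le_pow_left₀ (by positivity) hl 2
    rw [sq_abs] at this
    linarith
  have h5 : (⨅ L, P L) = 0 := by
    have h6 : 0 < (1 / (2 * (B : ℝ))) ^ 2 := by positivity
    have h7 : (⨅ L, P L) ^ 2 ≤ 0 := by nlinarith
    exact pow_eq_zero_iff two_ne_zero |>.1 (le_antisymm h7 (by positivity))
  rwa [h5] at h3

noncomputable def G (B L : ℕ) : UnitAddCircle → ℝ :=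
  AddCircle.liftIco 1 0 fun θ : ℝ => ∏ l ∈ Finset.range L, φ ((B : ℝ) ^ θ * B ^ l)

theorem G_coe (B L : ℕ) (θ : ℝ) :
    G B L θ = ∏ l ∈ Finset.range L, φ ((B : ℝ) ^ Int.fract θ * B ^ l) := by
  rw [← AddCircle.coe_fract θ, G,
    AddCircle.liftIco_zero_coe_apply ⟨Int.fract_nonneg θ, Int.fract_lt_one θ⟩]

theorem G_nonneg (B L : ℕ) (θ : ℝ) : 0 ≤ G B L θ := by
  rw [G_coe]; exact Finset.prod_nonneg fun _ _ => φ_nonneg _

theorem G_le_one (B L : ℕ) (θ : ℝ) : G B L θ ≤ 1 := by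
  rw [G_coe]; exact Finset.prod_le_one (fun _ _ => φ_nonneg _) fun _ _ => φ_le_one _

theorem continuous_G {B : ℕ} (hB : 2 ≤ B) (L : ℕ) : Continuous (G B L) := by
  refine AddCircle.liftIco_zero_continuous ?_ (Continuous.continuousOn ?_)
  · refine Finset.prod_congr rfl fun l _ => ?_
    rw [Real.rpow_zero, Real.rpow_one, one_mul, ← Nat.cast_pow, ← Nat.cast_mul, φ_nat, φ_nat]
  · refine continuous_finsetProd _ fun l _ => continuous_φ.comp (Continuous.mul ?_ continuous_const)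
    exact Real.continuous_const_rpow (by positivity)

theorem integral_G {B : ℕ} (hB : 2 ≤ B) : Tendsto (fun L => ∫ t, G B L t) atTop (𝓝 0) := by
  have hB' : (1 : ℝ) < B := by exact_mod_cast hB
  simp only [← UnitAddCircle.integral_preimage 0]
  have h1 := tendsto_integral_of_dominated_convergence (μ := volume.restrict (Ioc (0 : ℝ) (0 + 1)))
    (F := fun L (θ : ℝ) => G B L θ) (f := fun _ => 0) (fun _ => 1)
    (fun L => ((continuous_G hB L).comp (AddCircle.continuous_mk' 1)).aestronglyMeasurable)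
    (integrable_const _) (fun L => Eventually.of_forall fun θ => by
      rw [Real.norm_eq_abs, abs_of_nonneg (G_nonneg _ _ _)]; exact G_le_one _ _ _) ?_
  · simpa using h1
  have h2 : {θ : ℝ | ¬ Irrational ((B : ℝ) ^ Int.fract θ)}.Countable := by
    refine (countable_range fun p : ℚ × ℤ => Real.logb B p.1 + p.2).mono fun θ hθ => ?_
    obtain ⟨q, hq⟩ := not_not.1 hθ
    refine ⟨(q, ⌊θ⌋), ?_⟩
    simp only [hq]
    rw [Real.logb_rpow (by linarith) hB'.ne', Int.fract_add_floor]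
  refine ae_restrict_of_ae ?_
  filter_upwards [h2.ae_notMem volume] with θ hθ
  simp only [G_coe]
  exact prod_tendsto (not_not.1 hθ) hB

theorem rot_avg {γ : ℝ} (hγ : Irrational γ) {g : UnitAddCircle → ℝ} (hg : Continuous g)
    (h1 : ∀ θ : ℝ, g θ ≤ 1) {ε : ℝ} (hε : 0 ≤ ε) (h2 : ∫ t, g t < ε) :
    ∃ N0 : ℕ, ∀ (N : ℕ) (θ : ℝ), ∑ i ∈ Finset.range N, g ((θ + i * γ : ℝ)) ≤ ε * N + N0 := by
  have h3 := weyl_real (ι := ℝ × ℕ) (l := comap Prod.snd atTop) (x := fun p i => p.1 + i * γ)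
    (N := Prod.snd) (tendsto_comap.eventually (eventually_gt_atTop 0)) (fun k hk => ?_) g hg
  · obtain ⟨N0, h4⟩ := eventually_atTop.1 (eventually_comap.1 (h3.eventually (gt_mem_nhds h2)))
    refine ⟨N0 + 1, fun N θ => ?_⟩
    by_cases hN : N0 + 1 ≤ N
    · have h5 := h4 N (by omega) (θ, N) rfl
      rw [div_lt_iff₀ (by exact_mod_cast (show 0 < N by omega))] at h5
      have : (0 : ℝ) ≤ ((N0 + 1 : ℕ) : ℝ) := Nat.cast_nonneg _
      simp only at h5
      linarith
    · refine (Finset.sum_le_card_nsmul _ _ 1 fun i _ => h1 _).trans ?_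
      have h5 : (N : ℝ) ≤ ((N0 + 1 : ℕ) : ℝ) := by exact_mod_cast (by omega)
      have : 0 ≤ ε * N := by positivity
      simp only [Finset.card_range, nsmul_eq_mul, mul_one]
      linarith
  · have h4 : e (k * γ) ≠ 1 := by
      intro h
      rw [e, Complex.exp_eq_one_iff] at h
      obtain ⟨z, hz⟩ := h
      have h5 : ((k * γ : ℝ) : ℂ) = z := by
        have h6 : (2 * Real.pi * Complex.I : ℂ) ≠ 0 := Complex.two_pi_I_ne_zero
        exact mul_left_cancel₀ h6 (by rw [hz]; ring)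
      exact (hγ.natCast_mul hk.ne').ne_int z (by exact_mod_cast h5)
    have h5 : ∀ (θ : ℝ) (i : ℕ), e (k * (θ + i * γ)) = e (k * θ) * e (k * γ) ^ i := by
      intro θ i
      induction i with
      | zero => simp
      | succ i ih =>
        rw [pow_succ, ← mul_assoc, ← ih, ← e_add]
        congr 1
        push_cast
        ring
    refine squeeze_zero_norm (a := fun p : ℝ × ℕ => 2 / ‖e (k * γ) - 1‖ / (p.2 : ℝ)) (fun p => ?_)
      (tendsto_const_nhds.div_atTop (g := fun p : ℝ × ℕ => (p.2 : ℝ))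
        (tendsto_natCast_atTop_atTop.comp tendsto_comap))
    simp only [h5, ← Finset.mul_sum, geom_sum_eq h4, norm_div, norm_mul, norm_e, one_mul,
      Complex.norm_natCast]
    gcongr
    refine (norm_sub_le _ _).trans ?_
    rw [norm_pow, norm_e]
    norm_num

theorem prod_le_G {B : ℕ} (hB : 2 ≤ B) {p q L : ℕ} {t : ℝ} (h1 : (B : ℝ) ^ (p + L) ≤ t)
    (h2 : t < (B : ℝ) ^ q) :
    ∏ k ∈ Finset.Ico p q, φ (t / B ^ k) ≤ G B L (Real.logb B t) := by
  have hB' : (1 : ℝ) < B := by exact_mod_cast hB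
  have ht : 0 < t := lt_of_lt_of_le (by positivity) h1
  have h3 : ((p + L : ℕ) : ℝ) ≤ Real.logb B t := by
    rwa [Real.le_logb_iff_rpow_le hB' ht, Real.rpow_natCast]
  have h4 : Real.logb B t < q := by rwa [Real.logb_lt_iff_lt_rpow hB' ht, Real.rpow_natCast]
  have h0 : 0 ≤ Real.logb B t := le_trans (Nat.cast_nonneg _) h3
  set r := ⌊Real.logb B t⌋₊ with hr
  have h5 : p + L ≤ r := Nat.le_floor h3
  have h6 : r < q := (Nat.floor_lt h0).2 h4
  have h7 : (B : ℝ) ^ Int.fract (Real.logb B t) = t / B ^ r := by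
    rw [Int.fract, ← natCast_floor_eq_intCast_floor h0, Real.rpow_sub (by linarith),
      Real.rpow_logb (by linarith) hB'.ne' ht, Real.rpow_natCast]
  rw [G_coe, h7]
  calc _ ≤ ∏ k ∈ (Finset.range L).image (r - ·), φ (t / B ^ k) := by
        refine Finset.prod_le_prod_of_subset_of_le_one (fun k hk => ?_) (fun _ _ => φ_nonneg _)
          fun _ _ _ => φ_le_one _
        obtain ⟨l, hl, rfl⟩ := Finset.mem_image.1 hk
        rw [Finset.mem_range] at hl
        rw [Finset.mem_Ico]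
        omega
    _ = _ := by
        rw [Finset.prod_image fun l hl l' hl' h => by
          simp only [Finset.coe_range, mem_Iio] at hl hl' h; omega]
        refine Finset.prod_congr rfl fun l hl => ?_
        rw [Finset.mem_range] at hl
        rw [pow_sub₀ _ (by positivity) (by omega)]
        congr 1
        field_simp

theorem e_sum (D : Finset ℕ) (t : ℕ → ℝ) : e (∑ k ∈ D, t k) = ∏ k ∈ D, e (t k) := by
  induction D using Finset.induction_on with
  | empty => simp [e_zero]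
  | insert k D hk ih => rw [Finset.sum_insert hk, Finset.prod_insert hk, e_add, ih]

theorem avg_le (K : Finset ℕ) (B u t : ℝ) :
    ∑ D ∈ K.powerset, (e (t * (u + ∑ k ∈ D, 1 / B ^ k))).re ≤
      2 ^ K.card * ∏ k ∈ K, φ (t / B ^ k) := by
  rw [← Complex.re_sum]
  refine (Complex.re_le_norm _).trans (le_of_eq ?_)
  simp only [mul_add, e_add, Finset.mul_sum, e_sum, mul_one_div]
  rw [← Finset.mul_sum, ← Finset.prod_one_add, norm_mul, norm_e, one_mul, norm_prod,
    ← Finset.prod_const, ← Finset.prod_mul_distrib]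
  refine Finset.prod_congr rfl fun k _ => ?_
  rw [φ]
  ring

theorem sum_shift_le (k1 k2 m' : ℕ) (h : k1 ≤ m') {w : ℕ → ℝ} (hw : ∀ d, 0 ≤ w d) :
    ∑ m ∈ Finset.Ico k1 k2, (if m' < m then w (m - m') else 0) ≤
      ∑ d ∈ Finset.range (k2 - k1), w d := by
  rw [← Finset.sum_filter, ← Finset.sum_image (g := (· - m')) (f := w) fun m hm l hl h => by
    simp only [Finset.coe_filter, mem_ofPred_eq] at hm hl h; omega]
  refine Finset.sum_le_sum_of_subset_of_nonneg (fun d hd => ?_) fun _ _ _ => hw _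
  obtain ⟨m, hm, rfl⟩ := Finset.mem_image.1 hd
  simp only [Finset.mem_filter, Finset.mem_Ico] at hm
  rw [Finset.mem_range]
  omega

theorem moment2 {a B : ℕ} (ha : 2 ≤ a) (hB : 2 ≤ B) (hγ : Irrational (Real.logb B a)) (j : ℕ)
    {c : ℝ} (hc : 0 < c) :
    ∀ᶠ g : ℕ in atTop, ∀ᶠ T : ℕ in atTop, ∀ (n : ℕ) (u : ℝ) (h : ℕ), 0 < h → h ≤ j →
      ∑ D ∈ (Finset.Ico (n + 2) (n + T)).powerset,
        ‖S a h (u + ∑ k ∈ D, 1 / (B : ℝ) ^ k) (ν B a n + g) (ν B a (n + T) - g)‖ ^ 2 ≤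
        2 ^ (Finset.Ico (n + 2) (n + T)).card * (c * T ^ 2) := by
  have hA : (1 : ℝ) < B := by exact_mod_cast hB
  have ha' : (2 : ℝ) ≤ a := by exact_mod_cast ha
  have hα : 1 < |(a : ℝ)| := by rw [Nat.abs_cast]; linarith
  have hρ := ρ_pos hA hα
  have hε : 0 < c / (4 * (ρ B a + 1) ^ 2) := by positivity
  obtain ⟨L, hL⟩ := ((integral_G hB).eventually (gt_mem_nhds hε)).exists
  obtain ⟨N0, hN0⟩ := rot_avg hγ (continuous_G hB L) (G_le_one B L) hε.le hL
  have h1 := tendsto_pow_atTop_atTop_of_one_lt (show (1 : ℝ) < a by linarith)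
  filter_upwards [h1.eventually (eventually_ge_atTop ((B : ℝ) ^ (2 + L))),
    h1.eventually (eventually_gt_atTop (j * a : ℝ))] with g hg1 hg2
  filter_upwards [eventually_ge_atTop 1, tendsto_natCast_atTop_atTop.eventually
      (eventually_ge_atTop (2 * ((ρ B a + 1) * (1 + 2 * N0)) / c))] with T hT1 hT2 n u h hh hhj
  set K := Finset.Ico (n + 2) (n + T) with hK
  set k1 := ν B a n + g with hk1
  set k2 := ν B a (n + T) - g with hk2
  set W : ℕ → ℕ → ℝ := fun d m' =>
    G B L (Real.logb B (h * ((a : ℝ) ^ d - 1)) + m' * Real.logb B a : ℝ) with hW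
  have hW0 : ∀ d m', 0 ≤ W d m' := fun _ _ => G_nonneg _ _ _
  have hh' : (1 : ℝ) ≤ h := by exact_mod_cast hh
  have h2 : ∀ m ∈ Finset.Ico k1 k2, ∀ m' ∈ Finset.Ico k1 k2, m' < m →
      ∏ k ∈ K, φ (h * ((a : ℝ) ^ m - a ^ m') / B ^ k) ≤ W (m - m') m' := by
    intro m hm m' hm' hlt
    rw [Finset.mem_Ico] at hm hm'
    have h3 : (2 : ℝ) ≤ a ^ (m - m') :=
      ha'.trans (le_self_pow₀ (by linarith) (by omega))
    have h4 : (h : ℝ) * (a ^ m - a ^ m') = h * (a ^ (m - m') - 1) * a ^ m' := by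
      rw [mul_assoc, sub_mul, ← pow_add, Nat.sub_add_cancel hlt.le, one_mul]
    have h5 : Real.logb B (h * ((a : ℝ) ^ m - a ^ m')) =
        Real.logb B (h * ((a : ℝ) ^ (m - m') - 1)) + m' * Real.logb B a := by
      rw [h4, Real.logb_mul (mul_pos (by linarith) (by linarith)).ne' (by positivity),
        Real.logb_pow]
    simp only [hW]
    rw [← h5]
    refine prod_le_G hB ?_ ?_
    · have h6 := pow_le_ν hA hα n
      rw [Nat.abs_cast] at h6
      calc (B : ℝ) ^ (n + 2 + L) = B ^ n * B ^ (2 + L) := by ring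
        _ ≤ a ^ ν B a n * a ^ g := by gcongr
        _ ≤ a ^ m' := by rw [← pow_add]; exact pow_le_pow_right₀ (by linarith) hm'.1
        _ = 1 * 1 * a ^ m' := by ring
        _ ≤ _ := by rw [h4]; gcongr; linarith
    · have h6 := pow_ν_le hA hα (n + T)
      rw [Nat.abs_cast] at h6
      have h7 : (a : ℝ) ^ m * a ^ g ≤ a * B ^ (n + T) := by
        rw [← pow_add]
        exact (pow_le_pow_right₀ (by linarith) (by omega)).trans h6
      have h8 : (h : ℝ) ≤ j := by exact_mod_cast hhj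
      have h9 : (0 : ℝ) < a ^ m' := by positivity
      refine lt_of_mul_lt_mul_right (a := (a : ℝ) ^ g) ?_ (by positivity)
      have h10 : (a : ℝ) ^ m' ≤ a ^ m := pow_le_pow_right₀ (by linarith) hlt.le
      calc h * ((a : ℝ) ^ m - a ^ m') * a ^ g ≤ j * a ^ m * a ^ g := by gcongr; linarith
        _ ≤ j * (a * B ^ (n + T)) := by rw [mul_assoc]; gcongr
        _ = B ^ (n + T) * (j * a) := by ring
        _ < _ := by gcongr
  have h3 : ∀ m ∈ Finset.Ico k1 k2, ∀ m' ∈ Finset.Ico k1 k2,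
      ∏ k ∈ K, φ (h * ((a : ℝ) ^ m - a ^ m') / B ^ k) ≤ (if m' = m then 1 else 0) +
        ((if m' < m then W (m - m') m' else 0) + if m < m' then W (m' - m) m else 0) := by
    intro m hm m' hm'
    rcases lt_trichotomy m' m with h4 | h4 | h4
    · rw [if_neg h4.ne, if_pos h4, if_neg h4.not_gt]
      linarith [h2 m hm m' hm' h4]
    · rw [if_pos h4, if_neg h4.not_lt, if_neg h4.not_gt]
      simpa using Finset.prod_le_one (fun _ _ => φ_nonneg _) fun _ _ => φ_le_one _
    · rw [if_neg h4.ne', if_neg h4.not_gt, if_pos h4, zero_add, zero_add]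
      refine le_trans (le_of_eq (Finset.prod_congr rfl fun k _ => ?_)) (h2 m' hm' m hm h4)
      rw [← φ_neg]
      congr 1
      ring
  have h4 : ∑ m ∈ Finset.Ico k1 k2, ∑ m' ∈ Finset.Ico k1 k2,
      (if m' < m then W (m - m') m' else 0) ≤
      (k2 - k1 : ℕ) * (c / (4 * (ρ B a + 1) ^ 2) * (k2 - k1 : ℕ) + N0) := by
    rw [Finset.sum_comm]
    refine (Finset.sum_le_sum fun m' hm' => sum_shift_le k1 k2 m' (Finset.mem_Ico.1 hm').1
      (w := fun d => W d m') fun d => hW0 _ _).trans ?_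
    rw [Finset.sum_comm]
    refine (Finset.sum_le_card_nsmul _ _ _ fun d _ => ?_).trans
      (by rw [Finset.card_range, nsmul_eq_mul])
    rw [Finset.sum_Ico_eq_sum_range]
    refine le_trans (le_of_eq (Finset.sum_congr rfl fun i _ => ?_))
      (hN0 _ (Real.logb B (h * ((a : ℝ) ^ d - 1)) + k1 * Real.logb B a))
    simp only [hW]
    congr 2
    push_cast
    ring
  simp only [S, norm_sq_sum]
  rw [Finset.sum_comm]
  refine (Finset.sum_le_sum fun m hm => ?_ : _ ≤ ∑ m ∈ Finset.Ico k1 k2, ∑ m' ∈ Finset.Ico k1 k2,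
    2 ^ K.card * ((if m' = m then 1 else 0) +
        ((if m' < m then W (m - m') m' else 0) + if m < m' then W (m' - m) m else 0))).trans ?_
  · rw [Finset.sum_comm]
    refine Finset.sum_le_sum fun m' hm' => le_trans (le_of_eq (Finset.sum_congr rfl fun D _ => ?_))
      ((avg_le K B u (h * (a ^ m - a ^ m'))).trans
        (mul_le_mul_of_nonneg_left (h3 m hm m' hm') (by positivity)))
    congr 2
    ring
  simp only [← Finset.mul_sum]
  refine mul_le_mul_of_nonneg_left ?_ (by positivity)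
  simp only [Finset.sum_add_distrib]
  rw [Finset.sum_comm (f := fun m m' => if m < m' then W (m' - m) m else 0),
    Finset.sum_congr rfl (g := fun _ => (1 : ℝ)) fun m hm => by
      rw [Finset.sum_ite_eq', if_pos hm]]
  have h5 : ((k2 - k1 : ℕ) : ℝ) ≤ (ρ B a + 1) * T := by
    have := card_le hA hα n T g hT1
    rwa [Nat.card_Ico] at this
  simp only [Finset.sum_const, Nat.card_Ico, nsmul_eq_mul, mul_one]
  rw [div_le_iff₀ hc] at hT2
  have h6 : ((k2 - k1 : ℕ) : ℝ) * (c / (4 * (ρ B a + 1) ^ 2) * (k2 - k1 : ℕ) + N0) ≤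
      (ρ B a + 1) * T * (c / (4 * (ρ B a + 1) ^ 2) * ((ρ B a + 1) * T) + N0) := by gcongr
  have h7 : (ρ B a + 1) * T * (c / (4 * (ρ B a + 1) ^ 2) * ((ρ B a + 1) * T) + N0) =
      c * T ^ 2 / 4 + (ρ B a + 1) * T * N0 := by field_simp
  have h8 := mul_le_mul_of_nonneg_left hT2 (Nat.cast_nonneg (α := ℝ) T)
  nlinarith

theorem geom_le {B : ℝ} (hB : 2 ≤ B) (p q : ℕ) {D : Finset ℕ} (hD : D ⊆ Finset.Ico (p + 1) q)
    (hq : p + 1 ≤ q) : ∑ k ∈ D, 1 / B ^ k + 1 / B ^ q ≤ 2 / B ^ (p + 1) := by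
  have h1 : ∀ q, p + 1 ≤ q → ∑ k ∈ Finset.Ico (p + 1) q, 1 / B ^ k + 2 / B ^ q ≤
      2 / B ^ (p + 1) := by
    intro q hq
    induction q, hq using Nat.le_induction with
    | base => simp
    | succ q hq ih =>
      rw [Finset.sum_Ico_succ_top hq]
      have h2 : 2 / B ^ (q + 1) ≤ 1 / B ^ q := by
        rw [pow_succ, div_le_div_iff₀ (by positivity) (by positivity)]
        have : 0 < B ^ q := by positivity
        nlinarith
      have h3 : 2 / B ^ q = 1 / B ^ q + 1 / B ^ q := by ring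
      linarith
  have h2 := Finset.sum_le_sum_of_subset_of_nonneg (f := fun k => 1 / B ^ k) hD
    fun _ _ _ => by positivity
  have h3 : 1 / B ^ q ≤ 2 / B ^ q := by gcongr; norm_num
  linarith [h1 q hq]

theorem ν_five {b : ℕ} (hb : 2 ≤ b) (n : ℕ) : ν ((b ^ 5 : ℕ) : ℝ) b n = 5 * n := by
  have h1 : (0 : ℝ) < Real.log b := Real.log_pos (by exact_mod_cast hb)
  rw [ν, ρ, Nat.abs_cast, Nat.cast_pow, Real.log_pow, mul_div_assoc, div_self h1.ne',
    show (n : ℝ) * ((5 : ℕ) * 1) = ((5 * n : ℕ) : ℝ) by push_cast; ring, Nat.ceil_natCast]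

theorem mixed_block {a b : ℕ} (ha : 2 ≤ a) (hb : 2 ≤ b)
    (hγ : Irrational (Real.logb ((b ^ 5 : ℕ) : ℝ) a)) (j : ℕ) :
    ∀ᶠ T : ℕ in atTop, ∀ (n : ℕ) (u : ℝ), ∃ u', u ≤ u' ∧
      u' + 1 / ((b ^ 5 : ℕ) : ℝ) ^ (n + T) ≤ u + 1 / ((b ^ 5 : ℕ) : ℝ) ^ n ∧
      ∀ ξ, u' ≤ ξ → ξ ≤ u' + 1 / ((b ^ 5 : ℕ) : ℝ) ^ (n + T) →
        GoodB ((b ^ 5 : ℕ) : ℝ) a j n T ξ ∧ ForcedB ((b ^ 5 : ℕ) : ℝ) b (1 / 10) (1 / 20) n T ξ := by
  have hν := ν_five hb
  set B := b ^ 5 with hBdef
  have hB : 32 ≤ B := (by norm_num : 32 ≤ 2 ^ 5).trans (Nat.pow_le_pow_left hb 5)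
  have hB' : (32 : ℝ) ≤ B := by exact_mod_cast hB
  have hA : (1 : ℝ) < B := by linarith
  have hα : 1 < |(a : ℝ)| := by rw [Nat.abs_cast]; exact_mod_cast ha
  obtain ⟨g, h1, h2⟩ := ((robust hA hα j).and (moment2 ha (by omega) hγ j
    (c := 1 / (9 * (j + 1) ^ 3)) (by positivity))).exists
  filter_upwards [h1, h2, eventually_ge_atTop 4] with T h3 h4 hT n u
  set u0 : ℝ := ⌈u * B ^ (n + 1)⌉ / B ^ (n + 1) with hu0
  obtain ⟨D, hD, h5⟩ := Finset.exists_le_of_sum_le (s := (Finset.Ico (n + 2) (n + T)).powerset)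
    (f := fun D => ∑ h ∈ Finset.Icc 1 j,
      ‖S a h (u0 + ∑ k ∈ D, 1 / (B : ℝ) ^ k) (ν B a n + g) (ν B a (n + T) - g)‖ ^ 2)
    (g := fun _ => j * (1 / (9 * (j + 1) ^ 3) * T ^ 2)) (Finset.powerset_nonempty _) (by
      rw [Finset.sum_comm]
      refine (Finset.sum_le_card_nsmul _ _ _ fun h hh => h4 n u0 h (Finset.mem_Icc.1 hh).1
        (Finset.mem_Icc.1 hh).2).trans (le_of_eq ?_)
      simp only [Nat.card_Icc, add_tsub_cancel_right, nsmul_eq_mul, Finset.sum_const,
        Finset.card_powerset]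
      push_cast
      ring)
  rw [Finset.mem_powerset] at hD
  have h6 : u ≤ u0 := by rw [hu0, le_div_iff₀ (by positivity)]; exact Int.le_ceil _
  have h7 : u0 ≤ u + 1 / B ^ (n + 1) := by
    rw [hu0, div_le_iff₀ (by positivity), add_mul, one_div_mul_cancel (by positivity)]
    exact (Int.ceil_lt_add_one _).le
  refine ⟨u0 + ∑ k ∈ D, 1 / (B : ℝ) ^ k, le_add_of_le_of_nonneg h6 (by positivity), ?_,
    fun ξ h8 h9 => ⟨fun h hh hhj => ?_, ?_⟩⟩
  · have h8 := geom_le (show (2 : ℝ) ≤ B by linarith) (n + 1) (n + T) hD (by omega)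
    have h9 : 1 / (B : ℝ) ^ (n + 1) + 2 / B ^ (n + 1 + 1) ≤ 1 / B ^ n := by
      have : (1 : ℝ) / B ^ n = (B * B) / B ^ (n + 1 + 1) := by field_simp; ring
      rw [this, show (1 : ℝ) / B ^ (n + 1) = B / B ^ (n + 1 + 1) by field_simp; ring, ← add_div]
      gcongr
      nlinarith
    linarith
  · have h10 : 0 ≤ 1 / (B : ℝ) ^ (n + T) := by positivity
    refine h3 n (u0 + ∑ k ∈ D, 1 / (B : ℝ) ^ k) ξ h hh hhj
      (by rw [abs_le]; constructor <;> linarith) (le_of_sq_le_sq ?_ (by positivity))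
    refine (Finset.single_le_sum (f := fun h =>
      ‖S a h (u0 + ∑ k ∈ D, 1 / (B : ℝ) ^ k) (ν B a n + g) (ν B a (n + T) - g)‖ ^ 2)
      (fun _ _ => by positivity) (Finset.mem_Icc.2 ⟨hh, hhj⟩)).trans (h5.trans ?_)
    have hj : (0 : ℝ) < j := by exact_mod_cast hh.trans_le hhj
    calc (j : ℝ) * (1 / (9 * (j + 1) ^ 3) * T ^ 2) ≤ j * (1 / (9 * j ^ 3) * T ^ 2) := by
          gcongr; linarith
      _ = _ := by field_simp; ring
  · have h10 : ∀ k, n + 1 ≤ k → k < n + T → Frc b (1 / 10) ξ (5 * k) := by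
      intro k h10 h11
      refine ⟨Int.fract_nonneg _, ?_⟩
      rw [pow_mul, ← Nat.cast_pow, ← hBdef]
      set z : ℤ := ⌈u * B ^ (n + 1)⌉ * B ^ (k - (n + 1)) + ∑ l ∈ D.filter (· ≤ k), B ^ (k - l)
        with hz
      have h12 : (u0 + ∑ l ∈ D.filter (· ≤ k), 1 / (B : ℝ) ^ l) * B ^ k = z := by
        rw [hz, add_mul, Finset.sum_mul, hu0]
        push_cast
        congr 1
        · rw [pow_sub₀ _ (by positivity) h10]
          field_simp
        · refine Finset.sum_congr rfl fun l hl => ?_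
          rw [pow_sub₀ _ (by positivity) (Finset.mem_filter.1 hl).2]
          field_simp
      have h13 := geom_le (show (2 : ℝ) ≤ B by linarith) k (n + T)
        (D := D.filter fun l => ¬ l ≤ k) (fun l hl => by
          have := Finset.mem_Ico.1 (hD (Finset.mem_filter.1 hl).1)
          have := (Finset.mem_filter.1 hl).2
          rw [Finset.mem_Ico]
          omega) h11
      rw [← Finset.sum_filter_add_sum_filter_not D (· ≤ k)] at h8 h9
      have h14 : 0 ≤ ∑ l ∈ D.filter fun l => ¬ l ≤ k, 1 / (B : ℝ) ^ l := by positivity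
      have h15 : (z : ℝ) ≤ ξ * B ^ k := by rw [← h12]; gcongr; linarith
      have h16 : ξ * B ^ k ≤ z + 2 / B := by
        rw [← h12, show (2 : ℝ) / B = 2 / B ^ (k + 1) * B ^ k by field_simp; ring, ← add_mul]
        gcongr
        linarith
      have h17 : (2 : ℝ) / B ≤ 2 / 32 := by gcongr
      have : Int.fract (ξ * B ^ k) = ξ * B ^ k - z := by
        rw [Int.fract_eq_iff]
        exact ⟨by linarith, by linarith, z, by ring⟩
      rw [this]
      linarith
    have h11 : ∀ q, q + 1 ≤ T → cnt (Frc b (1 / 10) ξ) (5 * n) + q ≤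
        cnt (Frc b (1 / 10) ξ) (5 * (n + q + 1)) := by
      intro q
      induction q with
      | zero => intro _; simpa using cnt_succ_le _ (by omega)
      | succ q ih =>
        intro hq
        have := cnt_step le_rfl (show 5 * (n + q + 1) < 5 * (n + (q + 1) + 1) by omega)
          (h10 (n + q + 1) (by omega) (by omega))
        push_cast
        linarith [ih (by omega)]
    have h12 := h11 (T - 1) (by omega)
    rw [show n + (T - 1) + 1 = n + T by omega, Nat.cast_sub (by omega)] at h12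
    have h13 : (4 : ℝ) ≤ T := by exact_mod_cast hT
    rw [ForcedB, hν, hν]
    push_cast at h12 ⊢
    linarith

theorem irrational_logb {a b : ℕ} (ha : 2 ≤ a) (hb : 2 ≤ b)
    (h : ∀ m n : ℕ, 0 < m → 0 < n → a ^ m ≠ b ^ n) :
    Irrational (Real.logb ((b ^ 5 : ℕ) : ℝ) a) := by
  rintro ⟨q, hq⟩
  have hB : (1 : ℝ) < ((b ^ 5 : ℕ) : ℝ) := by
    exact_mod_cast Nat.one_lt_pow (by norm_num) hb
  have ha' : (1 : ℝ) < a := by exact_mod_cast ha
  have h1 : 0 < q := by exact_mod_cast (hq ▸ Real.logb_pos hB ha' : (0 : ℝ) < q)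
  have h2 : ((b ^ 5 : ℕ) : ℝ) ^ (q : ℝ) = a := by
    rw [hq, Real.rpow_logb (by linarith) hB.ne' (by linarith)]
  obtain ⟨p, hp⟩ := Int.eq_ofNat_of_zero_le (Rat.num_pos.2 h1).le
  have h3 : (q : ℝ) * q.den = p := by
    have := Rat.mul_den_eq_num q
    rw [hp] at this
    exact_mod_cast this
  refine h q.den (5 * p) q.den_pos (by have := Rat.num_pos.2 h1; omega) ?_
  have h4 : (a : ℝ) ^ q.den = ((b ^ 5 : ℕ) : ℝ) ^ p := by
    rw [← h2, ← Real.rpow_mul_natCast (by linarith), h3, Real.rpow_natCast]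
  rw [pow_mul]
  exact_mod_cast h4

theorem hard2 {a b : ℕ} (ha : 2 ≤ a) (hb : 2 ≤ b)
    (h : ∀ m n : ℕ, 0 < m → 0 < n → a ^ m ≠ b ^ n) {Y : Type} [TopologicalSpace Y]
    (x y : Y → ℕ → ℕ) (hx : ∀ s, IsLocallyConstant fun w => x w s)
    (hy : ∀ s, IsLocallyConstant fun w => y w s) :
    ∃ f : Y → ℝ, Continuous f ∧ ∀ w,
      ((UD fun n => f w * (a : ℝ) ^ n) ∧ ¬ UD fun n => f w * (b : ℝ) ^ n) ↔
        (Tendsto (x w) atTop atTop ∧ ¬ Tendsto (y w) atTop atTop) := by
  classical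
  have hA : (1 : ℝ) < ((b ^ 5 : ℕ) : ℝ) := by
    exact_mod_cast Nat.one_lt_pow (by norm_num) hb
  have hα : 1 < |(a : ℝ)| := by rw [Nat.abs_cast]; exact_mod_cast ha
  have hβ : 1 < |(b : ℝ)| := by rw [Nat.abs_cast]; exact_mod_cast hb
  have hm := mixed_block ha hb (irrational_logb ha hb h)
  generalize ((b ^ 5 : ℕ) : ℝ) = A at hA hm
  obtain ⟨η, κ, h1, h2, h3, h4⟩ := forced_block hA hα
  obtain ⟨T, h5, h6⟩ := exists_T fun j => h4.and ((hm j).and ((good_block hA
    (α := fun i => if i = 0 then a else b) (fun i => by split_ifs <;> assumption) j)))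
  obtain ⟨pos, lev, hP⟩ := exists_pos h5
  let z : Y → ℕ → ℕ := fun w s => if Even s then x w (s / 2) else y w (s / 2)
  obtain ⟨f, hf, h7⟩ := build hP hA (σ := Prop) (fun w b => Bad pos (z w) b)
    (fun b => by
      rw [IsLocallyConstant.iff_eventually_eq]
      intro w
      filter_upwards [(hx (Nat.log 2 (pos b) / 2)).eventually_eq w,
        (hy (Nat.log 2 (pos b) / 2)).eventually_eq w] with w' h h'
      simp only [Bad, z, h, h'])
    (fun t k ξ => (t → Even (Nat.log 2 (pos k)) → ForcedB A a η κ (pos k) (T (lev k)) ξ) ∧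
      (t → ¬ Even (Nat.log 2 (pos k)) → GoodB A a (lev k) (pos k) (T (lev k)) ξ ∧
        ForcedB A b (1 / 10) (1 / 20) (pos k) (T (lev k)) ξ) ∧
      (¬ t → ∀ i < lev k, GoodB A (if i = 0 then a else b) (lev k) (pos k) (T (lev k)) ξ))
    (fun t k u => by
      by_cases ht : t
      · by_cases hk : Even (Nat.log 2 (pos k))
        · obtain ⟨u', h7, h8, h9⟩ := (h6 (lev k)).1 (pos k) u
          exact ⟨u', h7, h8, fun ξ h10 h11 => ⟨fun _ _ => h9 ξ h10 h11, fun _ h => absurd hk h,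
            fun h => absurd ht h⟩⟩
        · obtain ⟨u', h7, h8, h9⟩ := (h6 (lev k)).2.1 (pos k) u
          exact ⟨u', h7, h8, fun ξ h10 h11 => ⟨fun _ h => absurd h hk, fun _ _ => h9 ξ h10 h11,
            fun h => absurd ht h⟩⟩
      · obtain ⟨u', h7, h8, h9⟩ := (h6 (lev k)).2.2 (pos k) u
        exact ⟨u', h7, h8, fun ξ h10 h11 => ⟨fun h => absurd h ht, fun h => absurd h ht,
          fun _ => h9 ξ h10 h11⟩⟩)
  have hhalf : Tendsto (fun s : ℕ => s / 2) atTop atTop :=
    Nat.tendsto_div_const_atTop (by norm_num)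
  have hfr : ∀ (v : ℕ → ℕ) (r : ℕ), r < 2 → ¬ Tendsto v atTop atTop →
      ∃ i, ∃ᶠ s in atTop, v (s / 2) ≤ i ∧ s % 2 = r := by
    intro v r hr h8
    rw [tendsto_atTop] at h8
    push Not at h8
    obtain ⟨i, hi⟩ := h8
    refine ⟨i, frequently_atTop.2 fun N => ?_⟩
    obtain ⟨s, h9, h10⟩ := frequently_atTop.1 hi N
    exact ⟨2 * s + r, by omega, by rw [show (2 * s + r) / 2 = s by omega]; exact h10.le, by omega⟩
  have ha1 : ∀ w, (UD fun n => f w * (a : ℝ) ^ n) → Tendsto (x w) atTop atTop := by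
    intro w hw
    by_contra h8
    obtain ⟨i, hi⟩ := hfr _ 0 (by norm_num) h8
    refine not_normal_of hP hA hα h1 h2 h3 (δ := 1 / (4 * (i + 1))) (by positivity)
      (fun b0 => ?_) hw
    obtain ⟨b1, b2, h9, h10, h11, h12⟩ := bad_run hP (z := z w) (i := i) (R := Even)
      (hi.mono fun s hs => by
        have := Nat.even_iff.2 hs.2
        exact ⟨by simpa only [z, if_pos this] using hs.1, this⟩) b0
    exact ⟨b1, b2, h9, h10, h11, fun k h13 h14 => (h7 w k).1 (h12 k h13 h14).1 (h12 k h13 h14).2⟩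
  refine ⟨f, hf, fun w => ⟨fun hw => ⟨ha1 w hw.1, fun h8 => hw.2 ?_⟩, fun hw => ⟨?_, ?_⟩⟩⟩
  · refine normal_of hP hA hβ ?_ (bad_small hP (z := z w)
      (((ha1 w hw.1).comp hhalf).if' (h8.comp hhalf)))
    filter_upwards [hP.top.eventually (eventually_gt_atTop 1)] with k hk h9
    simpa using (h7 w k).2.2 h9 1 hk
  · refine normal_of hP hA hα ?_ (bad_small hP (z := fun s => if Even s then x w (s / 2) else s)
      ((hw.1.comp hhalf).if' tendsto_id))
    filter_upwards [hP.top.eventually (eventually_gt_atTop 0)] with k hk h9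
    by_cases h10 : Bad pos (z w) k
    · refine ((h7 w k).2.1 h10 fun h11 => h9 ?_).1
      simpa only [Bad, z, if_pos h11] using h10
    · simpa using (h7 w k).2.2 h10 0 hk
  · obtain ⟨i, hi⟩ := hfr _ 1 (by norm_num) hw.2
    refine not_normal_of hP hA hβ (η := 1 / 10) (κ := 1 / 20) (δ := 1 / (4 * (i + 1)))
      (by norm_num) (by norm_num) (by norm_num) (by positivity) fun b0 => ?_
    obtain ⟨b1, b2, h9, h10, h11, h12⟩ := bad_run hP (z := z w) (i := i) (R := fun s => ¬ Even s)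
      (hi.mono fun s hs => by
        have : ¬ Even s := by rw [Nat.even_iff]; omega
        exact ⟨by simpa only [z, if_neg this] using hs.1, this⟩) b0
    exact ⟨b1, b2, h9, h10, h11, fun k h13 h14 =>
      ((h7 w k).2.1 (h12 k h13 h14).1 (h12 k h13 h14).2).2⟩

/-- Diagonal argument: a set to which the pair problem reduces has a complement that is not a
difference of two countable intersections of countable unions of closed sets. -/
theorem not_diff {X : Type} [TopologicalSpace X] {D : Set X}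
    (h : ∀ x y : (ℕ → ℕ) → ℕ → ℕ, (∀ s, IsLocallyConstant fun w => x w s) →
      (∀ s, IsLocallyConstant fun w => y w s) → ∃ f : (ℕ → ℕ) → X, Continuous f ∧ ∀ w,
        f w ∈ D ↔ (Tendsto (x w) atTop atTop ∧ ¬ Tendsto (y w) atTop atTop))
    (F : Bool → ℕ → ℕ → Set X) (hF : ∀ c i j, IsClosed (F c i j)) :
    Dᶜ ≠ (⋂ i, ⋃ j, F true i j) \ ⋂ i, ⋃ j, F false i j := by
  classical
  intro hD
  let code : Bool → ℕ → ℕ → ℕ → (ℕ → ℕ) → ℕ := fun c i j s w =>
    Encodable.encode (c, i, j, List.ofFn fun t : Fin s => w t)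
  let O : Bool → ℕ → ℕ → ℕ → Set (ℕ → ℕ) := fun c i j s => {w | w (code c i j s w) = 0}
  have hO : ∀ c i j s, IsClopen (O c i j s) := by
    intro c i j s
    have h1 : IsLocallyConstant fun w : ℕ → ℕ => w (code c i j s w) := by
      rw [IsLocallyConstant.iff_eventually_eq]
      intro w
      have h2 : ∀ t, ∀ᶠ w' in 𝓝 w, w' t = w t := fun t =>
        ((IsLocallyConstant.iff_continuous _).2 (continuous_apply t)).eventually_eq w
      filter_upwards [h2 (code c i j s w), eventually_all.2 fun t : Fin s => h2 t] with w' h3 h4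
      rwa [show code c i j s w' = code c i j s w by simp only [code, h4]]
    exact h1.isClopen_fiber 0
  choose x h1 h2 using fun c => Red03.reduce' (O c) (hO c)
  obtain ⟨f, hf, h3⟩ := h (x true) (x false) (h1 true) (h1 false)
  let w : ℕ → ℕ := fun n => if ∃ c i j s w', n = code c i j s w' ∧ f w' ∈ F c i j then 0 else 1
  have h4 : ∀ c i j, (∀ s, w ∈ O c i j s) ↔ f w ∈ F c i j := by
    intro c i j
    refine ⟨fun h4 => ?_, fun h4 s => if_pos ⟨c, i, j, s, w, rfl, h4⟩⟩
    have h5 : ∀ s, ∃ w', (∀ t < s, w' t = w t) ∧ f w' ∈ F c i j := by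
      intro s
      have h6 : ∃ c' i' j' s' w', code c i j s w = code c' i' j' s' w' ∧ f w' ∈ F c' i' j' := by
        by_contra h7
        exact one_ne_zero ((if_neg h7).symm.trans (h4 s))
      obtain ⟨c', i', j', s', w', h7, h8⟩ := h6
      simp only [code, Encodable.encode_inj, Prod.mk.injEq] at h7
      obtain ⟨rfl, rfl, rfl, h7⟩ := h7
      obtain rfl : s = s' := by simpa using congrArg List.length h7
      exact ⟨w', fun t ht => (congrFun (List.ofFn_injective h7) ⟨t, ht⟩).symm, h8⟩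
    choose g h6 h7 using h5
    refine (hF c i j).mem_of_tendsto ((hf.tendsto w).comp (f := g) (x := atTop) ?_)
      (Eventually.of_forall h7)
    refine tendsto_pi_nhds.2 fun t => tendsto_const_nhds.congr' ?_
    filter_upwards [eventually_gt_atTop t] with s hs
    exact (h6 s t hs).symm
  have h5 : ∀ c, Tendsto (x c w) atTop atTop ↔ f w ∈ ⋂ i, ⋃ j, F c i j := by
    intro c
    simp only [← h2, mem_iInter, mem_iUnion, h4]
  have h6 := h3 w
  rw [h5, h5, ← Set.mem_sdiff, ← hD] at h6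
  exact iff_not_self h6

end Pool.Agent.H39.Blocks
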