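import Mathlib

namespace Pool.Agent.H39.CC1

open Set TopologicalSpace Topology

/-- `V ≪ U`: every family of open sets whose union contains `U` has a finite subfamily whose
union contains `V`. -/
def WayBelow {Y : Type*} [TopologicalSpace Y] (V U : Set Y) : Prop :=
  ∀ S : Set (Set Y), (∀ W ∈ S, IsOpen W) → U ⊆ ⋃₀ S → ∃ T ⊆ S, T.Finite ∧ V ⊆ ⋃₀ T

/-- Core-compactness. -/
def CoreCompact (Y : Type*) [TopologicalSpace Y] : Prop :=
  ∀ U : Set Y, IsOpen U → ∀ y ∈ U, ∃ V : Set Y, IsOpen V ∧ y ∈ V ∧ WayBelow V U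

section general
variable {Y : Type*} [TopologicalSpace Y]

lemma wb_mono {V V' U U' : Set Y} (h : WayBelow V U) (hV : V' ⊆ V) (hU : U ⊆ U') :
    WayBelow V' U' := by
  intro S hS hc
  obtain ⟨T, hT, hf, hv⟩ := h S hS (hU.trans hc)
  exact ⟨T, hT, hf, hV.trans hv⟩

lemma wb_empty (U : Set Y) : WayBelow ∅ U := fun _ _ _ => ⟨∅, empty_subset _, finite_empty, by simp⟩

lemma wb_union {V V' U : Set Y} (h : WayBelow V U) (h' : WayBelow V' U) :
    WayBelow (V ∪ V') U := by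
  intro S hS hc
  obtain ⟨T, hT, hf, hv⟩ := h S hS hc
  obtain ⟨T', hT', hf', hv'⟩ := h' S hS hc
  refine ⟨T ∪ T', union_subset hT hT', hf.union hf', ?_⟩
  rw [sUnion_union]
  exact union_subset_union hv hv'

lemma wb_biUnion {ι : Type*} {t : Set ι} (ht : t.Finite) {V : ι → Set Y} {U : Set Y}
    (h : ∀ i ∈ t, WayBelow (V i) U) : WayBelow (⋃ i ∈ t, V i) U := by
  induction t, ht using Set.Finite.induction_on with
  | empty => simpa using wb_empty U
  | insert _ _ ih =>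
    rw [biUnion_insert]
    exact wb_union (h _ (mem_insert _ _)) (ih fun i hi => h i (mem_insert_of_mem _ hi))

lemma wb_subset {V U : Set Y} (h : WayBelow V U) (hU : IsOpen U) : V ⊆ U := by
  obtain ⟨T, hT, -, hv⟩ := h {U} (by simpa using hU) (by simp)
  refine hv.trans ?_
  intro y ⟨W, hW, hy⟩
  have := hT hW
  rw [mem_singleton_iff] at this
  exact this ▸ hy

lemma wb_cover {ι : Type*} {V U : Set Y} (h : WayBelow V U) (I : Set ι) (W : ι → Set Y)
    (hW : ∀ i ∈ I, IsOpen (W i)) (hc : U ⊆ ⋃ i ∈ I, W i) :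
    ∃ t ⊆ I, t.Finite ∧ V ⊆ ⋃ i ∈ t, W i := by
  obtain ⟨T, hT, hf, hv⟩ := h (W '' I) (by rintro _ ⟨i, hi, rfl⟩; exact hW i hi)
    (by rwa [sUnion_image])
  obtain ⟨t, ht, htf, rfl⟩ := (exists_subset_image_finite_and (p := fun s => s = T)).1
    ⟨T, hT, hf, rfl⟩
  exact ⟨t, ht, htf, by rwa [sUnion_image] at hv⟩

lemma wb_interp (hY : CoreCompact Y) {V U : Set Y} (hU : IsOpen U) (h : WayBelow V U) :
    ∃ W, IsOpen W ∧ WayBelow V W ∧ WayBelow W U := by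
  choose! A hAo hAm hAw using hY U hU
  have : ∀ y ∈ U, ∃ B : Set Y, IsOpen B ∧ y ∈ B ∧ WayBelow B (A y) :=
    fun y hy => hY (A y) (hAo y hy) y (hAm y hy)
  choose! B hBo hBm hBw using this
  obtain ⟨t, ht, htf, hv⟩ := wb_cover h U B hBo (fun y hy => mem_biUnion hy (hBm y hy))
  refine ⟨⋃ y ∈ t, A y, isOpen_biUnion fun y hy => hAo y (ht hy), ?_,
    wb_biUnion htf fun y hy => hAw y (ht hy)⟩
  refine wb_mono (wb_biUnion htf (V := B) fun y hy => ?_) hv Subset.rfl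
  exact wb_mono (hBw y (ht hy)) Subset.rfl (subset_biUnion_of_mem (u := A) hy)

end general

section scott
variable {X : Type*} [TopologicalSpace X] [TopologicalSpace (Closeds X)]
  [IsScott (Closeds X) univ]

lemma open_iff (𝒰 : Set (Closeds X)) : IsOpen 𝒰 ↔ IsUpperSet 𝒰 ∧
    ∀ D : Set (Closeds X), D.Nonempty → DirectedOn (· ≤ ·) D → ∀ a, IsLUB D a → a ∈ 𝒰 →
      (D ∩ 𝒰).Nonempty := by
  rw [IsScott.isOpen_iff_isUpperSet_and_dirSupInaccOn (D := univ)]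
  constructor
  · rintro ⟨h1, h2⟩
    exact ⟨h1, fun D hD hd a ha hau => h2 (mem_univ _) hD hd ha hau⟩
  · rintro ⟨h1, h2⟩
    exact ⟨h1, fun D _ hD hd a ha hau => h2 D hD hd a ha hau⟩

lemma open_sharp (c : Closeds X) : IsOpen (Iic c)ᶜ := isClosed_Iic.isOpen_compl

lemma open_sdiff (s : Closeds X) {𝒰 : Set (Closeds X)} (h : IsOpen 𝒰) :
    IsOpen ((fun F => F \ s) ⁻¹' 𝒰) := by
  rw [open_iff] at h ⊢
  obtain ⟨h1, h2⟩ := h
  refine ⟨fun a b hab ha => h1 (sdiff_le_sdiff_right hab) ha, ?_⟩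
  intro D hD hd a ha hau
  have hl : IsLUB ((fun F => F \ s) '' D) (a \ s) := (gc_sdiff_sup (a := s)).isLUB_l_image ha
  obtain ⟨_, ⟨F, hF, rfl⟩, hFU⟩ := h2 _ (hD.image _)
    (DirectedOn.mono_comp (fun a b hab => sdiff_le_sdiff_right hab) hd) _ hl hau
  exact ⟨F, hF, hFU⟩

lemma sub_sharp {𝒰 : Set (Closeds X)} (h : IsOpen 𝒰) {c : Closeds X} (hc : c ∉ 𝒰) :
    𝒰 ⊆ (Iic c)ᶜ := fun _ hF hFc => hc (((open_iff 𝒰).1 h).1 hFc hF)

lemma fin_of_closure {𝒰 : Set (Closeds X)} (h : IsOpen 𝒰) {A : Set X}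
    (hA : Closeds.closure A ∈ 𝒰) : ∃ t ⊆ A, t.Finite ∧ Closeds.closure t ∈ 𝒰 := by
  have hm : ∀ s t : Set X, s ⊆ t → Closeds.closure s ≤ Closeds.closure t :=
    fun s t hst => closure_mono hst
  have h1 : DirectedOn (· ≤ ·) (Closeds.closure '' {t | t ⊆ A ∧ t.Finite}) := by
    rintro _ ⟨s, ⟨hs, hsf⟩, rfl⟩ _ ⟨t, ⟨ht, htf⟩, rfl⟩
    exact ⟨_, ⟨s ∪ t, ⟨union_subset hs ht, hsf.union htf⟩, rfl⟩, hm _ _ subset_union_left,
      hm _ _ subset_union_right⟩
  have h2 : IsLUB (Closeds.closure '' {t | t ⊆ A ∧ t.Finite}) (Closeds.closure A) := by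
    constructor
    · rintro _ ⟨s, ⟨hs, -⟩, rfl⟩
      exact hm _ _ hs
    · intro b hb
      refine closure_minimal (fun y hy => ?_) b.isClosed
      exact hb ⟨{y}, ⟨singleton_subset_iff.2 hy, finite_singleton y⟩, rfl⟩
        (subset_closure (mem_singleton y))
  obtain ⟨_, ⟨t, ⟨ht, htf⟩, rfl⟩, hU⟩ := ((open_iff 𝒰).1 h).2
    (Closeds.closure '' {t | t ⊆ A ∧ t.Finite})
    ⟨_, ∅, ⟨empty_subset _, finite_empty⟩, rfl⟩ h1 (Closeds.closure A) h2 hA
  exact ⟨t, ht, htf, hU⟩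

/-- separate continuity of the join for the co-compact topology. -/
lemma sep_cont (hL : CoreCompact (Closeds X)) {f s : Closeds X} (hfs : f ≤ s)
    {𝒰 : Set (Closeds X)} (hs : WayBelow 𝒰 (Iic s)ᶜ) :
    ∃ 𝒱, IsOpen 𝒱 ∧ WayBelow 𝒱 (Iic f)ᶜ ∧ ∀ c ∉ 𝒱, WayBelow 𝒰 (Iic (s ⊔ c))ᶜ := by
  obtain ⟨𝒲, -, h1, h2⟩ := wb_interp hL (open_sharp s) hs
  obtain ⟨t, ht, htf, hv⟩ := wb_cover h2 {𝒱 | IsOpen 𝒱 ∧ WayBelow 𝒱 (Iic f)ᶜ}
    (fun 𝒱 => (fun F => F \ s) ⁻¹' 𝒱) (fun 𝒱 h => open_sdiff s h.1) (by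
      intro F hF
      have : F \ s ∈ (Iic f)ᶜ := by
        intro h
        rw [mem_Iic, sdiff_le_iff, sup_eq_left.2 hfs] at h
        exact hF h
      obtain ⟨𝒱, h1, h2, h3⟩ := hL _ (open_sharp f) _ this
      exact mem_biUnion (x := 𝒱) ⟨h1, h3⟩ h2)
  refine ⟨⋃ 𝒱 ∈ t, 𝒱, isOpen_biUnion fun 𝒱 h => (ht h).1,
    wb_biUnion htf fun 𝒱 h => (ht h).2, fun c hc => wb_mono h1 Subset.rfl ?_⟩
  intro F hF hFc
  obtain ⟨𝒱, h𝒱, hF𝒱⟩ := mem_iUnion₂.1 (hv hF)
  refine sub_sharp (ht h𝒱).1 (c := c) (fun h => hc (mem_biUnion h𝒱 h)) hF𝒱 ?_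
  rw [mem_Iic, sdiff_le_iff]
  exact hFc

lemma closed_T (g : Closeds X) (z : ℕ → Closeds X)
    (hg : ∀ d, {n | d ≤ z n}.Infinite → d ≤ g) (m : ℕ) :
    IsOpen {F | ¬ F ≤ g ∧ ∀ n, m ≤ n → ¬ F ≤ z n} := by
  rw [open_iff]
  refine ⟨fun a b hab ha => ⟨fun h => ha.1 (hab.trans h), fun n hn h => ha.2 n hn (hab.trans h)⟩,
    ?_⟩
  intro D hD hd a ha hau
  have key : ∀ c, ¬ a ≤ c → ∃ d ∈ D, ¬ d ≤ c := by
    intro c hc
    by_contra hn
    push Not at hn
    exact hc (ha.2 hn)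
  obtain ⟨d0, hd0, hd0g⟩ := key g hau.1
  have hfin : {n | d0 ≤ z n}.Finite := by
    by_contra h
    exact hd0g (hg d0 h)
  have : ∀ t : Set ℕ, t.Finite → ∃ e ∈ D, d0 ≤ e ∧ ∀ n ∈ t, m ≤ n → ¬ e ≤ z n := by
    intro t ht
    induction t, ht using Set.Finite.induction_on with
    | empty => exact ⟨d0, hd0, le_rfl, by simp⟩
    | @insert k s _ _ ih =>
      obtain ⟨e, he, hde, hez⟩ := ih
      by_cases hk : m ≤ k
      · obtain ⟨d, hdD, hdz⟩ := key (z k) (hau.2 k hk)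
        obtain ⟨e', he', h1, h2⟩ := hd e he d hdD
        refine ⟨e', he', hde.trans h1, ?_⟩
        rintro n (rfl | hn) hmn h
        · exact hdz (h2.trans h)
        · exact hez n hn hmn (h1.trans h)
      · refine ⟨e, he, hde, ?_⟩
        rintro n (rfl | hn) hmn h
        · exact hk hmn
        · exact hez n hn hmn h
  obtain ⟨e, he, hde, hez⟩ := this _ hfin
  exact ⟨e, he, fun h => hd0g (hde.trans h), fun n hn h => hez n (hde.trans h) hn h⟩

theorem main (hL : CoreCompact (Closeds X)) : CoreCompact X := by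
  intro U hU x hx
  by_contra hcon
  push Not at hcon
  set f : Closeds X := ⟨Uᶜ, hU.isClosed_compl⟩ with hf
  have hxf : Closeds.closure {x} ∈ (Iic f)ᶜ := fun h => h (subset_closure (mem_singleton x)) hx
  obtain ⟨𝒰0, h0o, h0x, h0w⟩ := hL _ (open_sharp f) _ hxf
  obtain ⟨𝒰, hUo, h01, h1w⟩ := wb_interp hL (open_sharp f) h0w
  -- finite sets of small points whose closure is in `𝒰0`
  have hQ : ∀ 𝒱, IsOpen 𝒱 → WayBelow 𝒱 (Iic f)ᶜ →
      ∃ Q : Set X, Q.Finite ∧ Closeds.closure Q ∈ 𝒰0 ∧ ∀ y ∈ Q, Closeds.closure {y} ∉ 𝒱 := by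
    intro 𝒱 _ hw
    have hxc : x ∈ closure {y | Closeds.closure {y} ∉ 𝒱} := by
      by_contra hxc
      refine hcon _ isClosed_closure.isOpen_compl hxc ?_
      intro S hS hc
      obtain ⟨t, ht, htf, hv⟩ := wb_cover hw S (fun W => (Iic (Closeds.closure Wᶜ))ᶜ)
        (fun W _ => open_sharp _) (by
          intro F hF
          obtain ⟨y, hyF, hyU⟩ := not_subset.1 hF
          obtain ⟨W, hW, hyW⟩ := hc (not_not.1 hyU)
          refine mem_biUnion hW fun h => ?_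
          have := h hyF
          change y ∈ closure Wᶜ at this
          rw [(hS W hW).isClosed_compl.closure_eq] at this
          exact this hyW)
      refine ⟨t, ht, htf, fun y hy => ?_⟩
      have hy' : Closeds.closure {y} ∈ 𝒱 := by
        by_contra h
        exact hy (subset_closure h)
      obtain ⟨W, hW, hyW⟩ := mem_iUnion₂.1 (hv hy')
      refine ⟨W, hW, ?_⟩
      by_contra h
      exact hyW (closure_mono (singleton_subset_iff.2 h))
    have : Closeds.closure {y | Closeds.closure {y} ∉ 𝒱} ∈ 𝒰0 :=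
      ((open_iff 𝒰0).1 h0o).1 (closure_minimal (singleton_subset_iff.2 hxc) isClosed_closure) h0x
    obtain ⟨t, ht, htf, h⟩ := fin_of_closure h0o this
    exact ⟨t, htf, h, ht⟩
  -- one step of the recursion
  let Good : Set (Closeds X) → Prop := fun S =>
    S.Finite ∧ ∀ s ∈ S, f ≤ s ∧ WayBelow 𝒰 (Iic s)ᶜ
  have step : ∀ S, Good S → ∃ Q : Set X, Q.Finite ∧ Closeds.closure Q ∈ 𝒰0 ∧
      Good (S ∪ image2 (fun s y => s ⊔ Closeds.closure {y}) S Q) := by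
    intro S hS
    choose! 𝒱 h1 h2 h3 using fun s (hs : s ∈ S) => sep_cont hL (hS.2 s hs).1 (hS.2 s hs).2
    obtain ⟨Q, hQf, hQ0, hQv⟩ := hQ (⋃ s ∈ S, 𝒱 s) (isOpen_biUnion h1) (wb_biUnion hS.1 h2)
    refine ⟨Q, hQf, hQ0, hS.1.union (hS.1.image2 _ hQf), ?_⟩
    rintro _ (hs | ⟨s, hs, y, hy, rfl⟩)
    · exact hS.2 _ hs
    · exact ⟨(hS.2 s hs).1.trans le_sup_left,
        h3 s hs _ fun h => hQv y hy (mem_biUnion hs h)⟩
  choose! Qf hQf hQ0 hQg using step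
  let Sg : ℕ → Set (Closeds X) := fun n => Nat.rec {f}
    (fun _ S => S ∪ image2 (fun s y => s ⊔ Closeds.closure {y}) S (Qf S)) n
  have hSs : ∀ n, Sg (n + 1) =
      Sg n ∪ image2 (fun s y => s ⊔ Closeds.closure {y}) (Sg n) (Qf (Sg n)) := fun _ => rfl
  have hgood : ∀ n, Good (Sg n) := by
    intro n
    induction n with
    | zero => exact ⟨finite_singleton f, by rintro _ rfl; exact ⟨le_rfl, h1w⟩⟩
    | succ n ih => exact hQg _ ih
  have hmono : Monotone Sg := monotone_nat_of_le_succ fun n => by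
    rw [hSs]; exact subset_union_left
  let z : ℕ → Closeds X := fun n => Closeds.closure (Qf (Sg n))
  let G : Set X := {y | {n | y ∈ z n}.Infinite}
  have hG : ∀ t : Set X, t.Finite → t ⊆ G → ∃ n, ∃ s ∈ Sg n, t ⊆ s := by
    intro t ht
    induction t, ht using Set.Finite.induction_on with
    | empty => exact fun _ => ⟨0, f, rfl, empty_subset _⟩
    | @insert y t _ _ ih =>
      intro h
      obtain ⟨n, s, hs, hts⟩ := ih ((subset_insert _ _).trans h)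
      obtain ⟨m, hm, hnm⟩ := (h (mem_insert _ _)).exists_gt n
      have hm' : y ∈ closure (⋃ a ∈ Qf (Sg m), ({a} : Set X)) := by
        rw [biUnion_of_singleton]; exact hm
      rw [(hQf _ (hgood m)).closure_biUnion] at hm'
      obtain ⟨a, ha, hya⟩ := mem_iUnion₂.1 hm'
      refine ⟨m + 1, s ⊔ Closeds.closure {a}, ?_, ?_⟩
      · rw [hSs]
        exact Or.inr ⟨s, hmono hnm.le hs, a, ha, rfl⟩
      · rintro w (rfl | hw)
        · exact (le_sup_right : Closeds.closure {a} ≤ s ⊔ Closeds.closure {a}) hya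
        · exact (le_sup_left : s ≤ s ⊔ Closeds.closure {a}) (hts hw)
  have hgU : Closeds.closure G ∉ 𝒰 := by
    intro h
    obtain ⟨t, ht, htf, h⟩ := fin_of_closure hUo h
    obtain ⟨n, s, hs, hts⟩ := hG t htf ht
    exact wb_subset ((hgood n).2 s hs).2 (open_sharp s) h (closure_minimal hts s.isClosed)
  have hg : ∀ d, {n | d ≤ z n}.Infinite → d ≤ Closeds.closure G := by
    intro d hd y hy
    have : y ∈ G := Set.Infinite.mono (fun n (hn : d ≤ z n) => hn hy) hd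
    exact subset_closure this
  obtain ⟨t, -, htf, hv⟩ := wb_cover h01 univ
    (fun m => {F | ¬ F ≤ Closeds.closure G ∧ ∀ n, m ≤ n → ¬ F ≤ z n})
    (fun m _ => closed_T _ z hg m) (by
      intro F hF
      have h1 : ¬ F ≤ Closeds.closure G := sub_sharp hUo hgU hF
      have h2 : {n | F ≤ z n}.Finite := by
        by_contra h
        exact h1 (hg F h)
      obtain ⟨b, hb⟩ := h2.bddAbove
      refine mem_biUnion (mem_univ (b + 1)) ⟨h1, fun n hn h => ?_⟩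
      have := hb h
      omega)
  obtain ⟨b, hb⟩ := htf.bddAbove
  obtain ⟨m, hm, hz⟩ := mem_iUnion₂.1 (hv (hQ0 _ (hgood b)))
  exact hz.2 b (hb hm) le_rfl

end scott

end Pool.Agent.H39.CC1
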