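import Mathlib

/-! A space with a dense Lindelof subspace, a regular G-delta diagonal and many points. -/

set_option autoImplicit false

namespace Pool.Agent.H39.CL
open Cardinal Set Filter Topology

theorem inj_choice {X I : Type} [Infinite X] (hI : #I ≤ #X) (F : I → Set X)
    (hF : ∀ i, #(F i) = #X) : ∃ x : I → X, Function.Injective x ∧ ∀ i, x i ∈ F i := by
  classical
  obtain ⟨e⟩ : Nonempty (I ↪ (#X).ord.ToType) := by
    rw [← Cardinal.le_def, mk_ord_toType]; exact hI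
  let _ : LinearOrder I := LinearOrder.lift' e e.injective
  have hlt : ∀ a b : I, a < b ↔ e a < e b := fun _ _ => Iff.rfl
  have wf : WellFounded (fun a b : I => a < b) := (wellFounded_lt.onFun (f := e))
  have key : ∀ (i : I) (g : ∀ j, j < i → X), ∃ y ∈ F i, ∀ j h, g j h ≠ y := by
    intro i g
    by_contra h
    push Not at h
    have h1 : F i ⊆ range (fun j : Iio i => g j.1 j.2) := fun y hy => by
      obtain ⟨j, hj, rfl⟩ := h y hy
      exact ⟨⟨j, hj⟩, rfl⟩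
    have h2 : #(Iio i) ≤ #(Iio (e i)) :=
      mk_le_of_injective (f := fun j => ⟨e j.1, j.2⟩) fun a b h =>
        Subtype.ext (e.injective (congrArg Subtype.val h))
    have h3 := mk_Iio_lt (e i) (by simp)
    rw [mk_ord_toType] at h3
    exact absurd ((hF i).symm.le.trans ((mk_le_mk_of_subset h1).trans (mk_range_le.trans h2)))
      h3.not_ge
  choose G hG hG' using key
  let x : I → X := wf.fix G
  have hx : ∀ i, x i = G i (fun j _ => x j) := wf.fix_eq G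
  refine ⟨x, fun a b h => ?_, fun i => hx i ▸ hG _ _⟩
  rcases lt_trichotomy a b with hab | hab | hab
  · exact absurd (h.trans (hx b)) (hG' b (fun j _ => x j) a hab)
  · exact hab
  · exact absurd (h.symm.trans (hx a)) (hG' a (fun j _ => x j) b hab)

theorem mk_closed : #{s : Set ℝ | IsClosed s} ≤ 𝔠 := by
  have := MeasurableSpace.cardinal_measurableSet_le_continuum
    (s := ⋃ a : ℚ, {Iio (a : ℝ)}) (by
      refine le_trans (le_aleph0_iff_set_countable.2 ?_) aleph0_le_continuum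
      exact countable_iUnion fun a => countable_singleton _)
  rw [← Real.borel_eq_generateFrom_Iio_rat, ← BorelSpace.measurable_eq (α := ℝ)] at this
  exact le_trans (mk_le_mk_of_subset fun s hs => IsClosed.measurableSet hs) this

theorem mk_unc {s : Set ℝ} (hs : IsClosed s) (hc : ¬ s.Countable) : #s = #ℝ := by
  obtain ⟨f, h1, -, h2⟩ := hs.exists_nat_bool_injection_of_not_countable hc
  refine le_antisymm (mk_set_le s) ?_
  have := mk_le_of_injective (f := fun x => (⟨f x, h1 ⟨x, rfl⟩⟩ : s))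
    fun a b h => h2 (congrArg Subtype.val h)
  simpa [mk_real] using this

/-- Finite graphs of two-valued functions. -/
abbrev T := Finset (ℝ × Bool)

/-- An injection whose range contains no uncountable closed set. -/
theorem exists_e : ∃ e : T → ℝ, Function.Injective e ∧
    ∀ s : Set ℝ, IsClosed s → s ⊆ range e → s.Countable := by
  let ι := {s : Set ℝ // IsClosed s ∧ ¬ s.Countable}
  have h1 : #ι ≤ 𝔠 := le_trans (mk_le_mk_of_subset (s := {s | IsClosed s ∧ ¬ s.Countable})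
    fun s hs => hs.1) mk_closed
  have h2 : #T = 𝔠 := by simp [mk_finset_of_infinite, mk_real]
  obtain ⟨x, hx, hx'⟩ := inj_choice (X := ℝ) (I := ι ⊕ T) (by
      rw [mk_sum, lift_id, lift_id, h2, mk_real]
      exact (add_le_add h1 le_rfl).trans (add_eq_self aleph0_le_continuum).le)
    (Sum.elim (fun s => s.1) fun _ => univ) (by
      rintro (s | t)
      · exact mk_unc s.2.1 s.2.2
      · simp)
  refine ⟨fun t => x (.inr t), fun a b h => by simpa using hx h, fun s hs h => ?_⟩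
  by_contra hc
  obtain ⟨t, ht⟩ := h (hx' (.inl ⟨s, hs, hc⟩))
  simpa using hx ht

theorem exists_d : ∃ d : ℕ → ℝ → Bool, ∀ (x : ℝ → Bool) (s : Finset ℝ) (m : ℕ),
    ∃ n, m ≤ n ∧ ∀ a ∈ s, d n a = x a := by
  classical
  obtain ⟨f, hf⟩ := TopologicalSpace.exists_dense_seq C(ℝ, ℝ)
  refine ⟨fun n a => decide (0 < f n.unpair.1 a), fun x s m => ?_⟩
  let y : ℝ → ℝ := fun a => if x a then 1 else -1
  let p := Lagrange.interpolate s id y
  have hO : IsOpen {g : C(ℝ, ℝ) | ∀ a ∈ s, |g a - y a| < 1} := by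
    have : {g : C(ℝ, ℝ) | ∀ a ∈ s, |g a - y a| < 1} = ⋂ a ∈ s, {g | |g a - y a| < 1} := by
      ext g; simp
    rw [this]
    exact isOpen_biInter_finset fun a _ => isOpen_lt (by fun_prop) continuous_const
  obtain ⟨i, hi⟩ := hf.exists_mem_open hO ⟨⟨fun u => p.eval u, p.continuous⟩, fun a ha => by
    have := Lagrange.eval_interpolate_at_node (s := s) (v := id) y (injOn_id _) ha
    simp only [id] at this
    simp only [ContinuousMap.coe_mk, p]
    rw [this]; simp⟩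
  refine ⟨Nat.pair i m, Nat.right_le_pair _ _, fun a ha => ?_⟩
  have := abs_lt.1 (hi a ha)
  simp only [Nat.unpair_pair]
  cases h : x a <;> simp [y, h] at this ⊢ <;> linarith [this.1, this.2]

open Classical in
/-- Restriction of a function to a finite set. -/
noncomputable def rs (x : ℝ → Bool) (s : Finset ℝ) : T := s.image fun a => (a, x a)

theorem rs_eq {x z : ℝ → Bool} {s s' : Finset ℝ} (h : rs x s = rs z s') {a : ℝ} (ha : a ∈ s) :
    z a = x a := by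
  classical
  have : (a, x a) ∈ rs z s' := h ▸ Finset.mem_image_of_mem _ ha
  obtain ⟨b, -, hb⟩ := Finset.mem_image.1 this
  obtain ⟨rfl, h2⟩ := Prod.mk.inj hb
  exact h2

/-- The underlying set. -/
inductive XX
  | br (x : ℝ → Bool)
  | pt (n : ℕ) (r : ℝ)

noncomputable def ee : T → ℝ := exists_e.choose
noncomputable def dd : ℕ → ℝ → Bool := exists_d.choose

theorem ee_inj : Function.Injective ee := exists_e.choose_spec.1

/-- Basic neighbourhoods of a branch point. -/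
def NB (x : ℝ → Bool) (s : Finset ℝ) (m : ℕ) : Set XX :=
  {p | p = .br x ∨ ∃ s' n, s ⊆ s' ∧ m ≤ n ∧ (∀ a ∈ s, dd n a = x a) ∧ p = .pt n (ee (rs x s'))}

theorem NB_mono (x : ℝ → Bool) {s s' : Finset ℝ} {m m' : ℕ} (hs : s ⊆ s') (hm : m ≤ m') :
    NB x s' m' ⊆ NB x s m := by
  rintro p (h | ⟨t, n, h1, h2, h3, h4⟩)
  · exact Or.inl h
  · exact Or.inr ⟨t, n, hs.trans h1, hm.trans h2, fun a ha => h3 a (hs ha), h4⟩

instance : TopologicalSpace XX where
  IsOpen U := (∀ n r, r ∉ range ee → XX.pt n r ∈ U → {r' | XX.pt n r' ∈ U} ∈ 𝓝 r) ∧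
    ∀ x, XX.br x ∈ U → ∃ s m, NB x s m ⊆ U
  isOpen_univ := ⟨fun _ _ _ _ => by simp, fun _ _ => ⟨∅, 0, subset_univ _⟩⟩
  isOpen_inter U V hU hV := by
    classical
    refine ⟨fun n r hr h => inter_mem (hU.1 n r hr h.1) (hV.1 n r hr h.2), fun x h => ?_⟩
    obtain ⟨s, m, h1⟩ := hU.2 x h.1
    obtain ⟨s', m', h2⟩ := hV.2 x h.2
    exact ⟨s ∪ s', max m m', subset_inter
      ((NB_mono x Finset.subset_union_left (le_max_left _ _)).trans h1)
      ((NB_mono x Finset.subset_union_right (le_max_right _ _)).trans h2)⟩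
  isOpen_sUnion S hS := by
    refine ⟨fun n r hr ⟨U, h1, h2⟩ => mem_of_superset ((hS U h1).1 n r hr h2)
      fun r' h => ⟨U, h1, h⟩, fun x ⟨U, h1, h2⟩ => ?_⟩
    obtain ⟨s, m, h⟩ := (hS U h1).2 x h2
    exact ⟨s, m, h.trans (subset_sUnion_of_mem h1)⟩

theorem open_iff {U : Set XX} : IsOpen U ↔
    (∀ n r, r ∉ range ee → XX.pt n r ∈ U → {r' | XX.pt n r' ∈ U} ∈ 𝓝 r) ∧
    ∀ x, XX.br x ∈ U → ∃ s m, NB x s m ⊆ U := Iff.rfl

theorem open_NB (x : ℝ → Bool) (s : Finset ℝ) (m : ℕ) : IsOpen (NB x s m) := by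
  refine open_iff.2 ⟨fun n r hr h => ?_, fun y h => ?_⟩
  · rcases h with h | ⟨t, n, -, -, -, h⟩
    · cases h
    · cases h; exact absurd ⟨_, rfl⟩ hr
  · rcases h with h | ⟨t, n, -, -, -, h⟩
    · cases h; exact ⟨s, m, subset_rfl⟩
    · cases h

/-- Balls in a slice. -/
def BL (n : ℕ) (r ε : ℝ) : Set XX := {p | ∃ t, |t - r| < ε ∧ p = .pt n t}

theorem open_BL (n : ℕ) (r ε : ℝ) : IsOpen (BL n r ε) := by
  refine open_iff.2 ⟨fun k u _ ⟨t, h1, h2⟩ => ?_, fun y ⟨t, _, h⟩ => by cases h⟩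
  cases h2
  have : IsOpen {t : ℝ | |t - r| < ε} := isOpen_lt (by fun_prop) continuous_const
  exact mem_of_superset (this.mem_nhds h1) fun t ht => ⟨t, ht, rfl⟩

theorem lind_slice (n : ℕ) : IsLindelof (range (XX.pt n)) := by
  refine isLindelof_of_countable_subcover fun {ι} U hU hc => ?_
  obtain ⟨S, hS, h1⟩ := TopologicalSpace.isOpen_iUnion_countable
    (fun i => interior {r | XX.pt n r ∈ U i}) fun _ => isOpen_interior
  have h2 : (⋃ i, interior {r | XX.pt n r ∈ U i})ᶜ.Countable := by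
    refine exists_e.choose_spec.2 _ (isOpen_iUnion fun _ => isOpen_interior).isClosed_compl
      fun r hr => ?_
    by_contra h
    obtain ⟨i, hi⟩ := mem_iUnion.1 (hc ⟨r, rfl⟩)
    exact hr (mem_iUnion.2 ⟨i, mem_interior_iff_mem_nhds.2 ((open_iff.1 (hU i)).1 n r h hi)⟩)
  choose g hg using fun r => mem_iUnion.1 (hc ⟨r, rfl⟩)
  refine ⟨S ∪ g '' _, hS.union (h2.image g), ?_⟩
  rintro _ ⟨r, rfl⟩
  by_cases h : r ∈ ⋃ i, interior {r | XX.pt n r ∈ U i}
  · rw [← h1] at h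
    obtain ⟨i, hi, h⟩ := mem_iUnion₂.1 h
    exact mem_iUnion₂.2 ⟨i, Or.inl hi, (interior_subset h : r ∈ {r | XX.pt n r ∈ U i})⟩
  · exact mem_iUnion₂.2 ⟨g r, Or.inr ⟨r, h, rfl⟩, hg r⟩

theorem lind : IsLindelof (⋃ n, range (XX.pt n)) := isLindelof_iUnion lind_slice

theorem dense {U : Set XX} (hU : IsOpen U) (h : U.Nonempty) :
    ((⋃ n, range (XX.pt n)) ∩ U).Nonempty := by
  obtain ⟨x | ⟨n, r⟩, hp⟩ := h
  · obtain ⟨s, m, h⟩ := (open_iff.1 hU).2 x hp
    obtain ⟨n, h1, h2⟩ := exists_d.choose_spec x s m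
    exact ⟨_, mem_iUnion.2 ⟨n, _, rfl⟩, h (Or.inr ⟨s, n, subset_rfl, h1, h2, rfl⟩)⟩
  · exact ⟨_, mem_iUnion.2 ⟨n, _, rfl⟩, hp⟩

/-- The covers. -/
def GG (m : ℕ) : XX → Set XX
  | .br x => NB x ∅ m
  | .pt n r => BL n r (1 / ((m : ℝ) + 1))

theorem open_GG (m : ℕ) : ∀ z, IsOpen (GG m z)
  | .br _ => open_NB _ _ _
  | .pt _ _ => open_BL _ _ _

theorem mem_GG (m : ℕ) : ∀ z, z ∈ GG m z
  | .br _ => Or.inl rfl
  | .pt _ r => ⟨r, by simpa using Nat.cast_add_one_pos m, rfl⟩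

theorem NB_NB {x z : ℝ → Bool} {a : ℝ} {m m' : ℕ} {p : XX} (h : p ∈ NB x {a} m)
    (h' : p ∈ NB z ∅ m') : z a = x a := by
  rcases h with rfl | ⟨s, n, h1, -, -, rfl⟩
  · rcases h' with h | ⟨t, n, -, -, -, h⟩ <;> cases h
    rfl
  · rcases h' with h | ⟨t, k, -, -, -, h⟩
    · cases h
    · exact rs_eq (ee_inj (XX.pt.inj h).2) (h1 (Finset.mem_singleton_self a))

theorem NB_BL {x : ℝ → Bool} {s : Finset ℝ} {m n : ℕ} {r ε : ℝ} {p : XX} (h : p ∈ NB x s m)
    (h' : p ∈ BL n r ε) : m ≤ n ∧ ∀ a ∈ s, dd n a = x a := by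
  obtain ⟨t, -, rfl⟩ := h'
  rcases h with h | ⟨s', k, -, h1, h2, h⟩
  · cases h
  · cases h; exact ⟨h1, h2⟩

theorem BL_BL {n k : ℕ} {r u ε δ : ℝ} {p : XX} (h : p ∈ BL n r ε) (h' : p ∈ BL k u δ) :
    n = k ∧ |r - u| < ε + δ := by
  obtain ⟨t, h1, rfl⟩ := h
  obtain ⟨t', h2, h⟩ := h'
  cases h
  rw [abs_lt] at *
  exact ⟨rfl, by linarith, by linarith⟩

/-- Separation of two points at a level. -/
def Sep (p q : XX) : Prop := ∃ m U V, IsOpen U ∧ IsOpen V ∧ p ∈ U ∧ q ∈ V ∧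
  ∀ z, ∀ a ∈ U, ∀ b ∈ V, a ∈ GG m z → b ∈ GG m z → False

theorem Sep.symm {p q : XX} : Sep p q → Sep q p
  | ⟨m, U, V, h1, h2, h3, h4, h5⟩ =>
    ⟨m, V, U, h2, h1, h4, h3, fun z a ha b hb h h' => h5 z b hb a ha h' h⟩

theorem sep_bp (x : ℝ → Bool) (n : ℕ) (r : ℝ) : Sep (.br x) (.pt n r) := by
  refine ⟨n + 1, NB x ∅ (n + 1), BL n r 1, open_NB _ _ _, open_BL _ _ _, Or.inl rfl,
    ⟨r, by simp, rfl⟩, ?_⟩
  rintro (z | ⟨k, u⟩) a ha b hb h h'
  · have := (NB_BL h' hb).1; omega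
  · have := (NB_BL ha h).1; have := (BL_BL hb h').1; omega

theorem sep : ∀ p q : XX, p ≠ q → Sep p q
  | .br x, .pt n r, _ => sep_bp x n r
  | .pt n r, .br x, _ => (sep_bp x n r).symm
  | .br x, .br y, h => by
    obtain ⟨c, hc⟩ := Function.ne_iff.1 fun h' : x = y => h (h' ▸ rfl)
    refine ⟨0, NB x {c} 0, NB y {c} 0, open_NB _ _ _, open_NB _ _ _, Or.inl rfl, Or.inl rfl, ?_⟩
    rintro (z | ⟨k, u⟩) a ha b hb h h'
    · exact hc ((NB_NB ha h).symm.trans (NB_NB hb h'))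
    · exact hc (((NB_BL ha h).2 c (by simp)).symm.trans ((NB_BL hb h').2 c (by simp)))
  | .pt n r, .pt n' r', h => by
    obtain ⟨δ, hδ, h1⟩ : ∃ δ : ℝ, 0 < δ ∧ (n = n' → 4 * δ ≤ |r - r'|) := by
      by_cases hn : n = n'
      · have : r - r' ≠ 0 := fun h' => h (by rw [hn, sub_eq_zero.1 h'])
        exact ⟨|r - r'| / 4, by positivity, fun _ => by linarith⟩
      · exact ⟨1, one_pos, fun h => absurd h hn⟩
    obtain ⟨m, hm⟩ := exists_nat_one_div_lt hδ
    have hm' : 1 / (((m + n + 1 : ℕ) : ℝ) + 1) < δ := by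
      refine lt_of_le_of_lt (one_div_le_one_div_of_le (by positivity) ?_) hm
      push_cast
      linarith [(Nat.cast_nonneg n : (0 : ℝ) ≤ n)]
    refine ⟨m + n + 1, BL n r δ, BL n' r' δ, open_BL _ _ _, open_BL _ _ _,
      ⟨r, by simpa, rfl⟩, ⟨r', by simpa, rfl⟩, ?_⟩
    rintro (z | ⟨k, u⟩) a ha b hb h h'
    · have := (NB_BL h ha).1; omega
    · have h2 := BL_BL ha h
      have h3 := BL_BL hb h'
      have h4 := h1 (h2.1.trans h3.1.symm)
      have h5 := abs_lt.1 h2.2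
      have h6 := abs_lt.1 h3.2
      have : |r - r'| < 4 * δ := abs_lt.2 ⟨by linarith, by linarith⟩
      linarith

theorem diag : ∃ W : ℕ → Set (XX × XX), (∀ n, IsOpen (W n) ∧ Set.diagonal XX ⊆ W n) ∧
    (⋂ n, closure (W n)) = Set.diagonal XX := by
  have h1 : ∀ m, Set.diagonal XX ⊆ ⋃ z, GG m z ×ˢ GG m z := by
    rintro m ⟨p, q⟩ h
    cases (h : p = q)
    exact mem_iUnion.2 ⟨p, mem_GG m p, mem_GG m p⟩
  refine ⟨fun m => ⋃ z, GG m z ×ˢ GG m z, fun m =>
    ⟨isOpen_iUnion fun z => (open_GG m z).prod (open_GG m z), h1 m⟩,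
    subset_antisymm ?_ (subset_iInter fun m => (h1 m).trans subset_closure)⟩
  rintro ⟨p, q⟩ h
  by_contra hne
  obtain ⟨m, U, V, h2, h3, h4, h5, h6⟩ := sep p q hne
  obtain ⟨⟨a, b⟩, ⟨ha, hb⟩, h7⟩ := mem_closure_iff.1 (mem_iInter.1 h m) _ (h2.prod h3) ⟨h4, h5⟩
  obtain ⟨z, h8, h9⟩ := mem_iUnion.1 h7
  exact h6 z a ha b hb h8 h9

theorem big : 𝔠 < #XX := by
  have := mk_le_of_injective (f := XX.br) fun a b h => XX.br.inj h
  refine lt_of_lt_of_le ?_ this
  simpa [mk_real] using cantor 𝔠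

end Pool.Agent.H39.CL
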