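import Mathlib

set_option autoImplicit false

namespace Pool.Agent.H39.CW
open Finset

abbrev L1 (V : Type) := lp (fun _ : V => ℝ) 1

variable {V : Type}

noncomputable def push {E : Type} [NormedAddCommGroup E] [NormedSpace ℝ E] (e : V → E)
    (f : L1 V) : E := ∑' v, f v • e v

theorem hasSum_abs (f : L1 V) : HasSum (fun v => |f v|) ‖f‖ := by
  have := lp.hasSum_norm (p := 1) (by simp) f
  simpa using this

theorem sum_abs_le (f : L1 V) (s : Finset V) : ∑ v ∈ s, |f v| ≤ ‖f‖ :=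
  sum_le_hasSum s (fun _ _ => abs_nonneg _) (hasSum_abs f)

theorem push_cont {E : Type} [NormedAddCommGroup E] [NormedSpace ℝ E] [CompleteSpace E]
    (e : V → E) (L : ℝ) (hL : 0 ≤ L) (he : ∀ v, ‖e v‖ ≤ L) : Continuous (push e) := by
  have hb : ∀ (f : L1 V) v, ‖f v • e v‖ ≤ L * |f v| := fun f v => by
    rw [norm_smul, Real.norm_eq_abs, mul_comm]
    exact mul_le_mul_of_nonneg_right (he v) (abs_nonneg _)
  have hs : ∀ f : L1 V, Summable (fun v => f v • e v) := fun f =>
    Summable.of_norm_bounded ((hasSum_abs f).summable.mul_left L) (hb f)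
  refine (LipschitzWith.of_dist_le_mul (K := ⟨L, hL⟩) (fun f g => ?_)).continuous
  rw [dist_eq_norm, dist_eq_norm, push, push, ← (hs f).tsum_sub (hs g)]
  refine tsum_of_norm_bounded ((hasSum_abs (f - g)).mul_left L) (fun v => ?_)
  have := hb (f - g) v
  rw [← sub_smul]
  exact this

theorem push_eq {E : Type} [NormedAddCommGroup E] [NormedSpace ℝ E] (e : V → E) (f : L1 V)
    (s : Finset V) (hs : ∀ v, v ∉ s → f v = 0) : push e f = ∑ v ∈ s, f v • e v :=
  tsum_eq_sum (fun v hv => by rw [hs v hv, zero_smul])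

open Classical in
noncomputable def dl (v : V) : L1 V := lp.single 1 v 1

theorem norm_dl (v : V) : ‖dl v‖ = 1 := by
  classical
  rw [dl, lp.norm_single (by norm_num)]; simp

open Classical in
theorem dl_apply (v w : V) : dl v w = if w = v then 1 else 0 := by
  rw [dl, lp.single_apply, Pi.single_apply]

/-- `g` is a point of the closed simplex on `t`. -/
def On (t : Finset V) (g : L1 V) : Prop :=
  (∀ v, 0 ≤ g v) ∧ (∀ v, v ∉ t → g v = 0) ∧ ∑ v ∈ t, g v = 1

theorem sum_apply' {ι : Type} (s : Finset ι) (w : ι → ℝ) (ρ : ι → V) (v : V) :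
    (∑ i ∈ s, w i • dl (ρ i) : L1 V) v = ∑ i ∈ s, w i * dl (ρ i) v := by
  rw [lp.coeFn_sum, Finset.sum_apply]
  rfl

theorem on_comb {ι : Type} (s : Finset ι) (w : ι → ℝ) (hw : ∀ i ∈ s, 0 ≤ w i)
    (h1 : ∑ i ∈ s, w i = 1) (ρ : ι → V) (t : Finset V) (ht : ∀ i ∈ s, w i ≠ 0 → ρ i ∈ t) :
    On t (∑ i ∈ s, w i • dl (ρ i)) := by
  classical
  refine ⟨fun v => ?_, fun v hv => ?_, ?_⟩
  · rw [sum_apply']
    refine sum_nonneg fun i hi => mul_nonneg (hw i hi) ?_
    rw [dl_apply]; split_ifs <;> norm_num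
  · rw [sum_apply']
    refine sum_eq_zero fun i hi => ?_
    by_cases h : w i = 0
    · rw [h, zero_mul]
    · rw [dl_apply, if_neg, mul_zero]
      rintro rfl
      exact hv (ht i hi h)
  · simp only [sum_apply']
    rw [sum_comm, ← h1]
    refine sum_congr rfl fun i hi => ?_
    by_cases h : w i = 0
    · simp [h]
    · rw [← mul_sum]
      simp only [dl_apply]
      rw [sum_ite_eq' t (ρ i) (fun _ => (1 : ℝ)), if_pos (ht i hi h), mul_one]

theorem On.conv {t : Finset V} {f g : L1 V} (hf : On t f) (hg : On t g) (c : ℝ) (h0 : 0 ≤ c)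
    (h1 : c ≤ 1) : On t (f + c • (g - f)) := by
  have e : ∀ v, (f + c • (g - f) : L1 V) v = (1 - c) * f v + c * g v := fun v => by
    change f v + c * (g v - f v) = _
    ring
  refine ⟨fun v => ?_, fun v hv => ?_, ?_⟩
  · rw [e]; exact add_nonneg (mul_nonneg (by linarith) (hf.1 v)) (mul_nonneg h0 (hg.1 v))
  · rw [e, hf.2.1 v hv, hg.2.1 v hv]; ring
  · simp only [e]
    rw [sum_add_distrib, ← mul_sum, ← mul_sum, hf.2.2, hg.2.2]; ring

theorem eq_sum_dl (f : L1 V) (s : Finset V) (hs : ∀ v, v ∉ s → f v = 0) :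
    ∑ v ∈ s, f v • dl v = f := by
  classical
  ext w
  rw [sum_apply' s (fun v => f v) (fun v => v)]
  simp only [dl_apply, mul_ite, mul_one, mul_zero]
  rw [sum_ite_eq]
  split_ifs with h
  · rfl
  · exact (hs w h).symm

noncomputable def rho (r : V → ℕ) (p : V → V) (hp : ∀ v, 0 < r v → r (p v) < r v) (n : ℕ)
    (v : V) : V := if r v ≤ n then v else rho r p hp n (p v)
termination_by r v
decreasing_by exact hp v (by omega)

theorem exists_rho (r : V → ℕ) (p : V → V) (hp : ∀ v, 0 < r v → r (p v) < r v) :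
    ∃ ρ : ℕ → V → V, (∀ n v, r v ≤ n → ρ n v = v) ∧ (∀ n v, r (ρ n v) ≤ n) ∧
      ∀ n v, ρ n v = if r (ρ (n + 1) v) ≤ n then ρ (n + 1) v else p (ρ (n + 1) v) := by
  have ha : ∀ n v, r v ≤ n → rho r p hp n v = v := fun n v h => by rw [rho, if_pos h]
  have hb : ∀ n v, ¬ r v ≤ n → rho r p hp n v = rho r p hp n (p v) := fun n v h => by
    rw [rho, if_neg h]
  refine ⟨rho r p hp, ha, fun n v => ?_, fun n v => ?_⟩
  · induction hk : r v using Nat.strong_induction_on generalizing v with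
    | _ k ih =>
      by_cases h : r v ≤ n
      · rw [ha n v h]; exact h
      · rw [hb n v h]
        exact ih _ (hk ▸ hp v (by omega)) _ rfl
  · induction hk : r v using Nat.strong_induction_on generalizing v with
    | _ k ih =>
      by_cases h : r v ≤ n
      · rw [ha n v h, ha (n + 1) v (by omega), if_pos h]
      · by_cases h' : r v ≤ n + 1
        · rw [ha (n + 1) v h', if_neg h, hb n v h, ha]
          have := hp v (by omega)
          omega
        · rw [hb n v h, hb (n + 1) v h']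
          exact ih _ (hk ▸ hp v (by omega)) _ rfl

noncomputable def cc (n : ℕ) (t : ℝ) : ℝ := max 0 (min 1 (2 - 2 ^ (n + 1) * (1 - t)))

theorem cc_step (n : ℕ) (t : ℝ) (h : cc (n + 1) t ≠ 0) : cc n t = 1 := by
  unfold cc at *
  have h1 : 0 < 2 - 2 ^ (n + 1 + 1) * (1 - t) := by
    by_contra h2
    exact h (max_eq_left (min_le_of_right_le (not_lt.1 h2)))
  rw [pow_succ] at h1
  rw [min_eq_left (by nlinarith), max_eq_right zero_le_one]

theorem cc_zero (n : ℕ) : cc n 0 = 0 := by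
  unfold cc
  have : (1 : ℝ) ≤ 2 ^ n := one_le_pow₀ (by norm_num)
  exact max_eq_left (min_le_of_right_le (by rw [pow_succ]; linarith))

theorem cc_one (n : ℕ) : cc n 1 = 1 := by
  unfold cc
  rw [min_eq_left (by linarith), max_eq_right zero_le_one]

def Rz (S : Set (Finset V)) : Set (L1 V) :=
  {f | (∀ v, 0 ≤ f v) ∧ ∃ s ∈ S, (∀ v, v ∉ s → f v = 0) ∧ ∑ v ∈ s, f v = 1}

/-- A locally bounded complex that is dismantled along a rank function is contractible. -/
theorem contractible (S : Set (Finset V)) (hne : ∀ s ∈ S, s.Nonempty)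
    (hdown : ∀ s ∈ S, ∀ t : Finset V, t ⊆ s → t.Nonempty → t ∈ S)
    (r : V → ℕ) (p : V → V) (o : V) (ho : ({o} : Finset V) ∈ S) (C : ℕ)
    (h0 : ∀ v, r v = 0 → v = o) (hp : ∀ v, 0 < r v → r (p v) < r v)
    (hdom : ∀ s ∈ S, ∀ v ∈ s, 0 < r v → (∀ w ∈ s, r w ≤ r v) → ∃ t ∈ S, s ⊆ t ∧ p v ∈ t)
    (hinj : ∀ s ∈ S, ∀ v ∈ s, ∀ w ∈ s, r v = r w → v = w)
    (hC : ∀ s ∈ S, ∀ v ∈ s, ∀ w ∈ s, r v ≤ r w + C) :
    ContractibleSpace {f : lp (fun _ : V => ℝ) 1 //
      (∀ v, 0 ≤ f v) ∧ ∃ s ∈ S, (∀ v, v ∉ s → f v = 0) ∧ ∑ v ∈ s, f v = 1} := by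
  classical
  obtain ⟨ρ, ha, hb, hc⟩ := exists_rho r p hp
  have step : ∀ s ∈ S, ∀ n, (∃ t ∈ S, ∀ v ∈ s, ρ (n + 1) v ∈ t) →
      ∃ t ∈ S, (∀ v ∈ s, ρ n v ∈ t) ∧ ∀ v ∈ s, ρ (n + 1) v ∈ t := by
    rintro s hs n ⟨t0, ht0, h⟩
    have hs' : s.image (ρ (n + 1)) ∈ S :=
      hdown t0 ht0 _ (image_subset_iff.2 h) ((hne s hs).image _)
    by_cases hu : ∃ u ∈ s.image (ρ (n + 1)), r u = n + 1
    · obtain ⟨u, hu, hru⟩ := hu
      obtain ⟨t, ht, h1, h2⟩ := hdom _ hs' u hu (by omega) (fun w hw => by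
        obtain ⟨v, -, rfl⟩ := mem_image.1 hw
        rw [hru]; exact hb _ _)
      refine ⟨t, ht, fun v hv => ?_, fun v hv => h1 (mem_image_of_mem _ hv)⟩
      rw [hc]
      split_ifs with h3
      · exact h1 (mem_image_of_mem _ hv)
      · have := hb (n + 1) v
        rw [hinj _ hs' _ (mem_image_of_mem _ hv) u hu (by omega)]
        exact h2
    · refine ⟨_, hs', fun v hv => ?_, fun v hv => mem_image_of_mem _ hv⟩
      rw [hc, if_pos]
      · exact mem_image_of_mem _ hv
      · have h4 := hb (n + 1) v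
        have h5 : r (ρ (n + 1) v) ≠ n + 1 := fun h => hu ⟨_, mem_image_of_mem _ hv, h⟩
        omega
  have hQ : ∀ s ∈ S, ∀ n, ∃ t ∈ S, ∀ v ∈ s, ρ n v ∈ t := by
    intro s hs
    have : ∀ d n, s.sup r ≤ n + d → ∃ t ∈ S, ∀ v ∈ s, ρ n v ∈ t := by
      intro d
      induction d with
      | zero =>
        intro n hn
        exact ⟨s, hs, fun v hv => by rw [ha n v ((le_sup hv).trans hn)]; exact hv⟩
      | succ d ih =>
        intro n hn
        obtain ⟨t, ht, h, -⟩ := step s hs n (ih (n + 1) (by omega))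
        exact ⟨t, ht, h⟩
    exact fun n => this (s.sup r) n (by omega)
  let P : ℕ → L1 V → L1 V := fun n => push (fun v => dl (ρ n v))
  have hPc : ∀ n, Continuous (P n) := fun n =>
    push_cont _ 1 zero_le_one (fun v => (norm_dl _).le)
  let X : ℕ → ℝ → L1 V → L1 V := fun M t f =>
    P 0 f + ∑ n ∈ range M, cc n t • (P (n + 1) f - P n f)
  have hXs : ∀ M t f, X (M + 1) t f = X M t f + cc M t • (P (M + 1) f - P M f) := fun M t f => by
    simp only [X]; rw [sum_range_succ, add_assoc]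
  have hXc : ∀ M, Continuous (fun z : ℝ × L1 V => X M z.1 z.2) := fun M => by
    refine ((hPc 0).comp continuous_snd).add (continuous_finsetSum _ fun n _ => ?_)
    have h1 : Continuous (fun z : ℝ × L1 V => cc n z.1) := by
      unfold cc
      fun_prop
    exact h1.smul (((hPc _).comp continuous_snd).sub ((hPc _).comp continuous_snd))
  have hPon : ∀ s f n t, On s f → (∀ v ∈ s, ρ n v ∈ t) → On t (P n f) := by
    intro s f n t hf h
    simp only [P]
    rw [push_eq _ f s hf.2.1]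
    exact on_comb s (fun v => f v) (fun v _ => hf.1 v) hf.2.2 _ t (fun v hv _ => h v hv)
  have hA : ∀ M t f, cc M t ≠ 0 → X M t f = P M f := by
    intro M t f
    induction M with
    | zero => intro _; simp [X]
    | succ M ih =>
      intro h
      have h1 := cc_step M t h
      rw [hXs, ih (by rw [h1]; norm_num), h1, one_smul]; abel
  have hB : ∀ s ∈ S, ∀ f, On s f → ∀ M t, ∃ u ∈ S, On u (X M t f) := by
    intro s hs f hf M t
    induction M with
    | zero =>
      obtain ⟨u, hu, h⟩ := hQ s hs 0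
      refine ⟨u, hu, ?_⟩
      simpa [X] using hPon s f 0 u hf h
    | succ M ih =>
      rw [hXs]
      by_cases h : cc M t = 0
      · rw [h, zero_smul, add_zero]; exact ih
      · obtain ⟨u, hu, h1, h2⟩ := step s hs M (hQ s hs _)
        rw [hA M t f h]
        exact ⟨u, hu, (hPon s f _ u hf h1).conv (hPon s f _ u hf h2) _ (le_max_left _ _)
          (max_le zero_le_one (min_le_left _ _))⟩
  have hfix : ∀ s f n, On s f → (∀ v ∈ s, r v ≤ n) → P n f = f := by
    intro s f n hf h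
    simp only [P]
    rw [push_eq _ f s hf.2.1]
    conv_rhs => rw [← eq_sum_dl f s hf.2.1]
    exact sum_congr rfl fun v hv => by rw [ha n v (h v hv)]
  have hstab : ∀ s f M, On s f → (∀ v ∈ s, r v ≤ M) → ∀ t M', M ≤ M' → X M' t f = X M t f := by
    intro s f M hf h t M' hM
    induction M', hM using Nat.le_induction with
    | base => rfl
    | succ M' hM ih =>
      rw [hXs, ih, hfix s f _ hf (fun v hv => (h v hv).trans (by omega)),
        hfix s f _ hf (fun v hv => (h v hv).trans hM), sub_self, smul_zero, add_zero]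
  change ContractibleSpace (Rz S)
  have hex : ∀ f : Rz S, ∃ s ∈ S, On s f.1 := fun f => by
    obtain ⟨h1, s, hs, h2⟩ := f.2
    exact ⟨s, hs, h1, h2⟩
  choose σ hσ hσ' using hex
  have hmem : ∀ g : L1 V, (∃ u ∈ S, On u g) → g ∈ Rz S := by
    rintro g ⟨u, hu, h⟩
    exact ⟨h.1, u, hu, h.2⟩
  let H : unitInterval × Rz S → Rz S := fun z =>
    ⟨X ((σ z.2).sup r) z.1 z.2.1, hmem _ (hB _ (hσ z.2) _ (hσ' z.2) _ _)⟩
  have hH : Continuous H := by
    refine Continuous.subtype_mk (continuous_iff_continuousAt.2 fun z0 => ?_) _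
    have hc1 : Continuous (fun z : unitInterval × Rz S => X ((σ z0.2).sup r + C) z.1 z.2.1) :=
      (hXc _).comp (f := fun z : unitInterval × Rz S => ((z.1 : ℝ), (z.2.1 : L1 V)))
        ((continuous_subtype_val.comp continuous_fst).prodMk
          (continuous_subtype_val.comp continuous_snd))
    refine hc1.continuousAt.congr ?_
    have hU : {z : unitInterval × Rz S | ‖z0.2.1 - z.2.1‖ < 1} ∈ nhds z0 :=
      (isOpen_lt (continuous_const.sub (continuous_subtype_val.comp continuous_snd)).norm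
        continuous_const).mem_nhds (by simp)
    filter_upwards [hU] with z hz
    have hcom : ∃ w ∈ σ z0.2, w ∈ σ z.2 := by
      by_contra hn
      push Not at hn
      have h1 := sum_abs_le (z0.2.1 - z.2.1) (σ z0.2)
      have h2 : ∑ v ∈ σ z0.2, |(z0.2.1 - z.2.1 : L1 V) v| = 1 := by
        refine Eq.trans (sum_congr rfl fun v hv => ?_) (hσ' z0.2).2.2
        change |z0.2.1 v - z.2.1 v| = _
        rw [(hσ' z.2).2.1 v (hn v hv), sub_zero, abs_of_nonneg ((hσ' z0.2).1 v)]
      linarith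
    obtain ⟨w, hw0, hw⟩ := hcom
    refine hstab _ _ _ (hσ' z.2) (fun v hv => le_sup hv) _ _ (Finset.sup_le fun v hv => ?_)
    have h3 := hC _ (hσ z.2) v hv w hw
    have h4 : r w ≤ (σ z0.2).sup r := le_sup hw0
    omega
  have hoK : On {o} (dl o) := by
    have := on_comb {o} (fun _ => (1 : ℝ)) (fun _ _ => zero_le_one) (by simp) (fun v => v) {o}
      (fun i hi _ => hi)
    simpa using this
  rw [contractible_iff_id_nullhomotopic]
  refine ⟨⟨dl o, hmem _ ⟨_, ho, hoK⟩⟩, ContinuousMap.Homotopic.symm ⟨⟨⟨H, hH⟩, fun f => ?_, fun f => ?_⟩⟩⟩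
  · apply Subtype.ext
    change X _ 0 f.1 = dl o
    simp only [X, cc_zero, zero_smul, sum_const_zero, add_zero, P]
    rw [push_eq _ _ _ (hσ' f).2.1]
    have : ∀ v, ρ 0 v = o := fun v => h0 _ (by have := hb 0 v; omega)
    simp only [this]
    rw [← sum_smul, (hσ' f).2.2, one_smul]
  · apply Subtype.ext
    change X _ 1 f.1 = f.1
    rw [hA _ _ _ (by rw [cc_one]; norm_num)]
    exact hfix _ _ _ (hσ' f) (fun v hv => le_sup hv)

end Pool.Agent.H39.CW
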