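import Mathlib
import Pool.Agent.H39.CW1

set_option autoImplicit false

namespace Pool.Agent.H39.CW
open Finset

abbrev FG := FreeGroup Bool
abbrev VV := FG × ℤ

def xx (l : Bool) : FG := FreeGroup.of l
def nn (g : FG) : ℕ := g.toWord.length
def par (g : FG) : FG := FreeGroup.mk g.toWord.tail
def sg (g : FG) : Bool := (g.toWord.head?.map Prod.snd).getD true

theorem key (g : FG) (l : Bool) :
    (nn (xx l * g) = nn g + 1 ∧ par (xx l * g) = g ∧ sg (xx l * g) = true) ∨
    (nn g = nn (xx l * g) + 1 ∧ par g = xx l * g ∧ sg g = false) := by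
  have h : (xx l * g).toWord = FreeGroup.reduce ((l, true) :: g.toWord) := by
    rw [FreeGroup.toWord_mul, xx, FreeGroup.toWord_of]; rfl
  rw [FreeGroup.reduce.cons, FreeGroup.reduce_toWord] at h
  rcases hw : g.toWord with _ | ⟨hd, tl⟩
  · left
    rw [hw] at h
    have hg : g = 1 := FreeGroup.toWord_eq_nil_iff.1 hw
    simp only [nn, par, sg, h, hw]
    exact ⟨rfl, by rw [hg]; rfl, rfl⟩
  · rw [hw] at h
    simp only at h
    split_ifs at h with h1
    · right
      simp only [nn, par, sg, h, hw]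
      refine ⟨rfl, ?_, ?_⟩
      · rw [List.tail_cons, ← h, FreeGroup.mk_toWord]
      · simpa using h1.2
    · left
      simp only [nn, par, sg, h, hw]
      refine ⟨rfl, ?_, rfl⟩
      rw [List.tail_cons, ← hw, FreeGroup.mk_toWord]

theorem nn_zero (g : FG) (h : nn g = 0) : g = 1 :=
  FreeGroup.toWord_eq_nil_iff.1 (List.length_eq_zero_iff.1 h)

theorem key2 (g : FG) (hg : nn g ≠ 0) : nn g = nn (par g) + 1 ∧
    ∃ l, (g = xx l * par g ∧ sg g = true) ∨ (par g = xx l * g ∧ sg g = false) := by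
  rcases hw : g.toWord with _ | ⟨⟨l, b⟩, tl⟩
  · exact absurd (by rw [nn, hw]; rfl) hg
  have e1 : par g = FreeGroup.mk tl := by rw [par, hw]; rfl
  have e2 : sg g = b := by rw [sg, hw]; rfl
  have e3 : g = FreeGroup.mk [(l, b)] * par g := by
    rw [e1, FreeGroup.mul_mk, List.singleton_append, ← hw, FreeGroup.mk_toWord]
  have e4 : nn (par g) ≤ tl.length := by rw [e1]; exact FreeGroup.norm_mk_le
  have e5 : nn g = tl.length + 1 := by rw [nn, hw]; rfl
  cases b
  · have e6 : par g = xx l * g := by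
      conv_rhs => rw [e3]
      rw [← mul_assoc, xx, FreeGroup.of, FreeGroup.mul_mk]
      have : FreeGroup.mk ([(l, true)] ++ [(l, false)]) = (1 : FG) := by
        have := mul_inv_cancel (FreeGroup.mk [(l, true)] : FG)
        rw [FreeGroup.inv_mk, FreeGroup.mul_mk] at this
        exact this
      rw [this, one_mul]
    refine ⟨?_, l, Or.inr ⟨e6, e2⟩⟩
    rcases key g l with h | h
    · rw [← e6] at h; omega
    · rw [← e6] at h; exact h.1
  · have e6 : g = xx l * par g := e3
    refine ⟨?_, l, Or.inl ⟨e6, e2⟩⟩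
    rcases key (par g) l with h | h
    · rw [← e6] at h; exact h.1
    · rw [← e6] at h; omega

/-- The triangles of the triangulation of (tree) × (line). -/
def InT (g : FG) (k : ℤ) (l up : Bool) (v : VV) : Prop :=
  v = (g, k) ∨ v = (xx l * g, k + 1) ∨ v = (if up then (g, k + 1) else (xx l * g, k))

def SS : Set (Finset VV) := {s | s.Nonempty ∧ ∃ g k l up, ∀ v ∈ s, InT g k l up v}

def rk (v : VV) : ℕ := 2 * nn v.1 + v.2.natAbs

def dn (k : ℤ) : ℤ := if 0 < k then k - 1 else if k < 0 then k + 1 else k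

def pp (v : VV) : VV := if nn v.1 = 0 then (v.1, dn v.2) else
  (par v.1, if sg v.1 then (if 0 < v.2 then v.2 - 1 else v.2) else
    (if v.2 < 0 then v.2 + 1 else v.2))

theorem rk_pp (v : VV) (h : 0 < rk v) : rk (pp v) < rk v := by
  obtain ⟨g, k⟩ := v
  unfold pp
  by_cases hg : nn g = 0
  · simp only [hg, if_true, rk, dn] at h ⊢
    split_ifs <;> omega
  · have := (key2 g hg).1
    simp only [hg, if_false, rk]
    split_ifs <;> omega

theorem help1 (g : FG) (k : ℤ) (h : 0 < rk (g, k)) : ∃ g' k' l up, InT g' k' l up (g, k) ∧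
    InT g' k' l up (pp (g, k)) ∧ InT g' k' l up (g, dn k) := by
  by_cases hg : nn g = 0
  · simp only [rk, hg] at h
    have hp : pp (g, k) = (g, dn k) := by simp [pp, hg]
    rw [hp]
    by_cases hk : 0 < k
    · exact ⟨g, k - 1, true, true, by simp [InT], by simp [InT, dn, hk], by simp [InT, dn, hk]⟩
    · have hk' : k < 0 := by omega
      exact ⟨g, k, true, true, by simp [InT], by simp [InT, dn, hk, hk'], by simp [InT, dn, hk, hk']⟩
  · obtain ⟨-, l, ⟨e, hs⟩ | ⟨e, hs⟩⟩ := key2 g hg
    · by_cases hk : 0 < k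
      · exact ⟨par g, k - 1, l, false, by simp [InT, ← e], by simp [InT, pp, hg, hs, hk],
          by simp [InT, dn, hk, ← e]⟩
      · refine ⟨par g, k, l, false, by simp [InT, ← e], by simp [InT, pp, hg, hs, hk], ?_⟩
        by_cases hk' : k < 0 <;> simp [InT, dn, hk, hk', ← e]
    · by_cases hk : k < 0
      · have hk' : ¬ 0 < k := by omega
        exact ⟨g, k, l, true, by simp [InT], by simp [InT, pp, hg, hs, hk, e],
          by simp [InT, dn, hk, hk']⟩
      · refine ⟨g, k - 1, l, true, by simp [InT], by simp [InT, pp, hg, hs, hk, e], ?_⟩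
        by_cases hk' : 0 < k <;> simp [InT, dn, hk, hk']

theorem help2 (g : FG) (k : ℤ) (l up : Bool) (v : VV) (hv : InT g k l up v) (h : 0 < rk v) :
    ∃ g' k' l' up', InT g' k' l' up' (pp v) ∧
      ∀ w, InT g k l up w → rk w ≤ rk v → InT g' k' l' up' w := by
  have par_side : (∀ w, InT g k l up w → rk w ≤ rk v → w = v ∨ w = (v.1, dn v.2)) →
      ∃ g' k' l' up', InT g' k' l' up' (pp v) ∧
        ∀ w, InT g k l up w → rk w ≤ rk v → InT g' k' l' up' w := by
    intro hh
    obtain ⟨g', k', l', up', h1, h2, h3⟩ := help1 v.1 v.2 h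
    refine ⟨g', k', l', up', h2, fun w hw hr => ?_⟩
    rcases hh w hw hr with rfl | rfl
    · exact h1
    · exact h3
  rcases key g l with ⟨e1, e2, e3⟩ | ⟨e1, e2, e3⟩
  · have hn : nn (xx l * g) ≠ 0 := by omega
    cases up
    · rcases hv with rfl | rfl | rfl
      · refine par_side ?_
        rintro w (rfl | rfl | rfl) hr <;> simp [rk, e1] at hr ⊢ <;> omega
      · by_cases hk : 0 < k + 1
        · exact ⟨g, k, l, false, by simp [InT, pp, hn, e2, e3, hk], fun w hw _ => hw⟩
        · refine ⟨g, k, l, true, by simp [InT, pp, hn, e2, e3, hk], ?_⟩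
          rintro w (rfl | rfl | rfl) hr <;> simp [rk, e1, InT] at hr ⊢
          omega
      · by_cases hk : 0 < k
        · refine ⟨g, k - 1, l, true, by simp [InT, pp, hn, e2, e3, hk], ?_⟩
          rintro w (rfl | rfl | rfl) hr <;> simp [rk, e1, InT] at hr ⊢
          omega
        · exact ⟨g, k, l, false, by simp [InT, pp, hn, e2, e3, hk], fun w hw _ => hw⟩
    · rcases hv with rfl | rfl | rfl
      · refine par_side ?_
        rintro w (rfl | rfl | rfl) hr <;> simp [rk, e1, dn] at hr ⊢ <;> omega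
      · refine ⟨g, k, l, true, ?_, fun w hw _ => hw⟩
        by_cases hk : 0 < k + 1 <;> simp [InT, pp, hn, e2, e3, hk]
      · refine par_side ?_
        rintro w (rfl | rfl | rfl) hr <;> simp [rk, e1, dn] at hr ⊢ <;> omega
  · have hn : nn g ≠ 0 := by omega
    cases up
    · rcases hv with rfl | rfl | rfl
      · refine ⟨g, k, l, false, ?_, fun w hw _ => hw⟩
        by_cases hk : k < 0 <;> simp [InT, pp, hn, e2, e3, hk]
      · refine par_side ?_
        rintro w (rfl | rfl | rfl) hr <;> simp [rk, e1, dn] at hr ⊢ <;> omega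
      · refine par_side ?_
        rintro w (rfl | rfl | rfl) hr <;> simp [rk, e1, dn] at hr ⊢ <;> omega
    · rcases hv with rfl | rfl | rfl
      · by_cases hk : k < 0
        · exact ⟨g, k, l, true, by simp [InT, pp, hn, e2, e3, hk], fun w hw _ => hw⟩
        · refine ⟨g, k, l, false, by simp [InT, pp, hn, e2, e3, hk], ?_⟩
          rintro w (rfl | rfl | rfl) hr <;> simp [rk, e1, InT] at hr ⊢
          omega
      · refine par_side ?_
        rintro w (rfl | rfl | rfl) hr <;> simp [rk, e1, dn] at hr ⊢ <;> omega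
      · by_cases hk : k + 1 < 0
        · refine ⟨g, k + 1, l, false, by simp [InT, pp, hn, e2, e3, hk], ?_⟩
          rintro w (rfl | rfl | rfl) hr <;> simp [rk, e1, InT] at hr ⊢
          omega
        · exact ⟨g, k, l, true, by simp [InT, pp, hn, e2, e3, hk], fun w hw _ => hw⟩

theorem nn_step (g : FG) (l : Bool) : nn (xx l * g) = nn g + 1 ∨ nn g = nn (xx l * g) + 1 :=
  (key g l).imp (fun h => h.1) (fun h => h.1)

theorem SS_contr : ContractibleSpace {f : lp (fun _ : VV => ℝ) 1 //
    (∀ v, 0 ≤ f v) ∧ ∃ s ∈ SS, (∀ v, v ∉ s → f v = 0) ∧ ∑ v ∈ s, f v = 1} := by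
  classical
  refine contractible SS (fun s hs => hs.1) ?_ rk pp (1, 0) ?_ 3 ?_ rk_pp ?_ ?_ ?_
  · rintro s ⟨-, g, k, l, up, h⟩ t hts ht
    exact ⟨ht, g, k, l, up, fun v hv => h v (hts hv)⟩
  · exact ⟨by simp, 1, 0, true, true, by simp [InT]⟩
  · rintro ⟨g, k⟩ h
    simp only [rk] at h
    rw [nn_zero g (by omega), show k = 0 by omega]
  · rintro s ⟨hs, g, k, l, up, h⟩ v hv hr hmax
    obtain ⟨g', k', l', up', h1, h2⟩ := help2 g k l up v (h v hv) hr
    refine ⟨insert (pp v) s, ⟨by simp, g', k', l', up', fun w hw => ?_⟩, subset_insert _ _,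
      mem_insert_self _ _⟩
    rcases mem_insert.1 hw with rfl | hw
    · exact h1
    · exact h2 w (h w hw) (hmax w hw)
  · rintro s ⟨hs, g, k, l, up, h⟩ v hv w hw hr
    have := nn_step g l
    cases up <;> rcases h v hv with rfl | rfl | rfl <;> rcases h w hw with rfl | rfl | rfl <;>
      simp [rk] at hr ⊢ <;> omega
  · rintro s ⟨hs, g, k, l, up, h⟩ v hv w hw
    have := nn_step g l
    cases up <;> rcases h v hv with rfl | rfl | rfl <;> rcases h w hw with rfl | rfl | rfl <;>
      simp [rk] <;> omega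

abbrev GG := FG × Multiplicative ℤ

@[reducible] def act : MulAction GG VV where
  smul h v := (v.1 * h.1⁻¹, v.2 + Multiplicative.toAdd h.2)
  one_smul v := by
    change (v.1 * (1 : FG)⁻¹, v.2 + 0) = v
    simp
  mul_smul a b v := by
    change (v.1 * (a.1 * b.1)⁻¹, v.2 + (Multiplicative.toAdd a.2 + Multiplicative.toAdd b.2)) =
      (v.1 * b.1⁻¹ * a.1⁻¹, v.2 + Multiplicative.toAdd b.2 + Multiplicative.toAdd a.2)
    rw [mul_inv_rev, mul_assoc, add_assoc, add_comm (Multiplicative.toAdd a.2)]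

attribute [local instance] act

theorem smul_def' (h : GG) (v : VV) :
    h • v = (v.1 * h.1⁻¹, v.2 + Multiplicative.toAdd h.2) := rfl

theorem InT_smul (h : GG) (g : FG) (k : ℤ) (l up : Bool) (v : VV) (hv : InT g k l up v) :
    InT (g * h.1⁻¹) (k + Multiplicative.toAdd h.2) l up (h • v) := by
  cases up <;> rcases hv with rfl | rfl | rfl <;>
    simp [InT, smul_def', mul_assoc, add_right_comm]

theorem SS_inv (h : GG) (s : Finset VV) (hs : s ∈ SS) :
    ∃ t ∈ SS, (t : Set VV) = (fun v => h • v) '' (s : Set VV) := by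
  classical
  obtain ⟨hne, g, k, l, up, hh⟩ := hs
  refine ⟨s.image (fun v => h • v), ⟨hne.image _, g * h.1⁻¹,
    k + Multiplicative.toAdd h.2, l, up, fun v hv => ?_⟩, coe_image⟩
  obtain ⟨w, hw, rfl⟩ := mem_image.1 hv
  exact InT_smul h g k l up w (hh w hw)

theorem act_free (h : GG) (v : VV) (e : h • v = v) : h = 1 := by
  rw [smul_def', Prod.ext_iff] at e
  have h1 : h.1 = 1 := by simpa using e.1
  have h2 : Multiplicative.toAdd h.2 = 0 := by simpa using e.2
  exact Prod.ext h1 h2

theorem SS_free (h : GG) (hh : h ≠ 1) (s : Finset VV) (hs : s ∈ SS) :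
    (fun v => h • v) '' (s : Set VV) ≠ (s : Set VV) := by
  intro e
  obtain ⟨v, hv⟩ := hs.1
  have h1 : ∀ n : ℕ, h ^ n • v ∈ s := by
    intro n
    induction n with
    | zero => simpa using hv
    | succ n ih =>
      rw [pow_succ', mul_smul]
      have : h • h ^ n • v ∈ (fun v => h • v) '' (s : Set VV) := ⟨_, ih, rfl⟩
      rw [e] at this
      exact this
  obtain ⟨a, b, hab, he⟩ := Finite.exists_ne_map_eq_of_infinite
    (fun n : ℕ => (⟨h ^ n • v, h1 n⟩ : s))
  have he' : h ^ a • v = h ^ b • v := congrArg Subtype.val he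
  have h2 : ∀ a b : ℕ, a < b → h ^ a • v = h ^ b • v → False := by
    intro a b hab he
    obtain ⟨d, rfl⟩ := Nat.exists_eq_add_of_lt hab
    rw [add_assoc, pow_add, mul_smul] at he
    have h3 := act_free _ _ (MulAction.injective _ he).symm
    exact hh ((pow_eq_one_iff_left (by omega)).1 h3)
  rcases lt_or_gt_of_ne hab with h4 | h4
  · exact h2 _ _ h4 he'
  · exact h2 _ _ h4 he'.symm

theorem SS_cocompact : ∃ F : Finset (Finset VV), ∀ s ∈ SS, ∃ h : GG, ∃ t ∈ F,
    (s : Set VV) = (fun v => h • v) '' (t : Set VV) := by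
  classical
  refine ⟨(({1, xx true, xx false} : Finset FG) ×ˢ ({0, 1} : Finset ℤ)).powerset, ?_⟩
  rintro s ⟨hne, g, k, l, up, hh⟩
  let h : GG := (g, Multiplicative.ofAdd (-k))
  refine ⟨h⁻¹, s.image (fun v => h • v), mem_powerset.2 fun v hv => ?_, ?_⟩
  · obtain ⟨w, hw, rfl⟩ := mem_image.1 hv
    have := InT_smul h g k l up w (hh w hw)
    simp only [h, mul_inv_cancel, toAdd_ofAdd, add_neg_cancel] at this
    cases up <;> cases l <;> rcases this with e | e | e <;> rw [e] <;> simp
  · rw [coe_image, Set.image_image]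
    simp

theorem SS_card (s : Finset VV) (hs : s ∈ SS) : s.Nonempty ∧ s.card ≤ 3 := by
  classical
  obtain ⟨hne, g, k, l, up, hh⟩ := hs
  refine ⟨hne, (card_le_card (t := {(g, k), (xx l * g, k + 1),
    (if up then (g, k + 1) else (xx l * g, k))}) fun v hv => ?_).trans card_le_three⟩
  simpa [InT] using hh v hv

end Pool.Agent.H39.CW
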