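import Mathlib
import Pool.Agent.H39.CW2

set_option autoImplicit false

namespace Pool.Agent.H39.CW
open Finset

def nd (e i k : ℤ) : VV := (xx false ^ e * xx true ^ i, k)

def alf (g : FG) : ℤ := Multiplicative.toAdd
  (FreeGroup.lift (fun l : Bool => if l then Multiplicative.ofAdd (1 : ℤ) else 1) g)
def bet (g : FG) : ℤ := Multiplicative.toAdd
  (FreeGroup.lift (fun l : Bool => if l then 1 else Multiplicative.ofAdd (1 : ℤ)) g)

theorem alf_nd (e i k : ℤ) : alf (nd e i k).1 = i := by simp [alf, nd, xx]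
theorem bet_nd (e i k : ℤ) : bet (nd e i k).1 = e := by simp [bet, nd, xx]
theorem snd_nd (e i k : ℤ) : (nd e i k).2 = k := rfl

theorem nd_inj {e i k e' i' k' : ℤ} (h : nd e i k = nd e' i' k') : e = e' ∧ i = i' ∧ k = k' := by
  refine ⟨?_, ?_, ?_⟩
  · rw [← bet_nd e i k, h, bet_nd]
  · rw [← alf_nd e i k, h, alf_nd]
  · rw [← snd_nd e i k, h, snd_nd]

def WW (i k : ℤ) : Prop := (∃ n : ℕ, i = n ^ 2 + n) ∨ (∃ n : ℕ, k = n ^ 2 + n)
def pr (k : ℤ) : ℤ := if k % 2 = 0 then 1 else -1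

def EE (u v : VV) : Prop := ∃ i k, (u = nd 0 i k ∧ v = nd 0 (i + 1) k) ∨
  ∃ e, (e = 1 ∨ e = -1) ∧ ((u = nd e i k ∧ v = nd e i (k + 1)) ∨
    ((e = pr k ∨ WW i k) ∧ u = nd 0 i k ∧ v = nd e i k))

abbrev GX : SimpleGraph VV := SimpleGraph.fromRel (fun u v : VV => ∃ s ∈ SS, u ∈ s ∧ v ∈ s)

theorem adj_of_InT {g : FG} {k : ℤ} {l up : Bool} {u v : VV} (hu : InT g k l up u)
    (hv : InT g k l up v) (hne : u ≠ v) : GX.Adj u v := by
  classical
  refine (SimpleGraph.fromRel_adj _ _ _).2 ⟨hne, Or.inl ⟨{u, v}, ⟨by simp, g, k, l, up, ?_⟩,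
    by simp, by simp⟩⟩
  intro w hw
  rcases mem_insert.1 hw with rfl | hw
  · exact hu
  · rw [mem_singleton.1 hw]; exact hv

theorem EE_adj {u v : VV} (h : EE u v) : GX.Adj u v := by
  obtain ⟨i, k, ⟨rfl, rfl⟩ | ⟨e, he, ⟨rfl, rfl⟩ | ⟨-, rfl, rfl⟩⟩⟩ := h
  · refine adj_of_InT (g := xx true ^ i) (k := k) (l := true) (up := false) (by simp [InT, nd])
      (by simp [InT, nd, add_comm i 1, zpow_one_add]) (fun h => ?_)
    have := nd_inj h; omega
  · refine adj_of_InT (g := xx false ^ e * xx true ^ i) (k := k) (l := true) (up := true)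
      (by simp [InT, nd]) (by simp [InT, nd]) (fun h => ?_)
    have := nd_inj h; omega
  · rcases he with rfl | rfl
    · refine adj_of_InT (g := xx true ^ i) (k := k) (l := false) (up := false) (by simp [InT, nd])
        (by simp [InT, nd]) (fun h => ?_)
      have := nd_inj h; omega
    · refine adj_of_InT (g := (xx false)⁻¹ * xx true ^ i) (k := k) (l := false) (up := false)
        (by simp [InT, nd]) (by simp [InT, nd]) (fun h => ?_)
      have := nd_inj h; omega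

def YV : Set VV := {v | ∃ e i k, (e = 0 ∨ e = 1 ∨ e = -1) ∧ v = nd e i k}

theorem EE_mem {u v : VV} (h : EE u v) : u ∈ YV ∧ v ∈ YV := by
  obtain ⟨i, k, ⟨rfl, rfl⟩ | ⟨e, he, ⟨rfl, rfl⟩ | ⟨-, rfl, rfl⟩⟩⟩ := h
  · exact ⟨⟨_, _, _, Or.inl rfl, rfl⟩, ⟨_, _, _, Or.inl rfl, rfl⟩⟩
  · exact ⟨⟨_, _, _, Or.inr he, rfl⟩, ⟨_, _, _, Or.inr he, rfl⟩⟩
  · exact ⟨⟨_, _, _, Or.inl rfl, rfl⟩, ⟨_, _, _, Or.inr he, rfl⟩⟩

def YY : GX.Subgraph where
  verts := YV
  Adj u v := EE u v ∨ EE v u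
  adj_sub h := h.elim EE_adj (fun h => (EE_adj h).symm)
  edge_vert h := h.elim (fun h => (EE_mem h).1) (fun h => (EE_mem h).2)
  symm := ⟨fun _ _ h => h.symm⟩

def Near (n : ℕ) (u v : VV) : Prop := ∃ (hu : u ∈ YY.verts) (hv : v ∈ YY.verts),
  ∃ p : YY.coe.Walk ⟨u, hu⟩ ⟨v, hv⟩, p.length ≤ n

theorem Near.rfl' {u : VV} (hu : u ∈ YV) : Near 0 u u := ⟨hu, hu, .nil, le_rfl⟩
theorem Near.symm {n : ℕ} {u v : VV} (h : Near n u v) : Near n v u := by
  obtain ⟨hu, hv, p, hp⟩ := h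
  exact ⟨hv, hu, p.reverse, by simpa using hp⟩
theorem Near.trans {n m : ℕ} {u v w : VV} (h : Near n u v) (h' : Near m v w) :
    Near (n + m) u w := by
  obtain ⟨hu, hv, p, hp⟩ := h
  obtain ⟨hv', hw, q, hq⟩ := h'
  exact ⟨hu, hw, p.append q, by rw [SimpleGraph.Walk.length_append]; omega⟩
theorem Near.mono {n m : ℕ} {u v : VV} (h : Near n u v) (hm : n ≤ m) : Near m u v := by
  obtain ⟨hu, hv, p, hp⟩ := h
  exact ⟨hu, hv, p, hp.trans hm⟩
theorem Near.of_EE {u v : VV} (h : EE u v) : Near 1 u v :=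
  ⟨(EE_mem h).1, (EE_mem h).2, .cons (Or.inl h) .nil, le_rfl⟩

theorem near_line (f : ℤ → VV) (h0 : ∀ i, f i ∈ YV) (h : ∀ i, EE (f i) (f (i + 1))) (i j : ℤ) :
    Near (i - j).natAbs (f i) (f j) := by
  have h1 : ∀ (m : ℕ) (i : ℤ), Near m (f i) (f (i + m)) := by
    intro m i
    induction m with
    | zero => simpa using Near.rfl' (h0 i)
    | succ m ih =>
      have := ih.trans (Near.of_EE (h _))
      rwa [add_assoc] at this
  rcases le_total i j with hij | hij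
  · have := h1 (i - j).natAbs i
    rwa [show i + ((i - j).natAbs : ℤ) = j by omega] at this
  · have := h1 (i - j).natAbs j
    rw [show j + ((i - j).natAbs : ℤ) = i by omega] at this
    exact this.symm

theorem near_h (i j k : ℤ) : Near (i - j).natAbs (nd 0 i k) (nd 0 j k) :=
  near_line (fun i => nd 0 i k) (fun _ => ⟨_, _, _, Or.inl rfl, rfl⟩)
    (fun i => ⟨i, k, Or.inl ⟨rfl, rfl⟩⟩) i j

theorem near_v {e : ℤ} (he : e = 1 ∨ e = -1) (i k j : ℤ) :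
    Near (k - j).natAbs (nd e i k) (nd e i j) :=
  near_line (fun k => nd e i k) (fun _ => ⟨_, _, _, Or.inr he, rfl⟩)
    (fun k => ⟨i, k, Or.inr ⟨e, he, Or.inl ⟨rfl, rfl⟩⟩⟩) k j

theorem near_c {e : ℤ} (he : e = 1 ∨ e = -1) (i k : ℤ) (h : e = pr k ∨ WW i k) :
    Near 1 (nd 0 i k) (nd e i k) :=
  Near.of_EE ⟨i, k, Or.inr ⟨e, he, Or.inr ⟨h, rfl, rfl⟩⟩⟩

theorem near_sheet {e : ℤ} (he : e = 1 ∨ e = -1) (i k i' k' : ℤ) :
    Near ((i - i').natAbs + (k - k').natAbs + 4) (nd e i k) (nd e i' k') := by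
  obtain ⟨k0, h1, h2⟩ : ∃ k0, e = pr k0 ∧ (k - k0).natAbs ≤ 1 := by
    by_cases h : e = pr k
    · exact ⟨k, h, by omega⟩
    · refine ⟨k + 1, ?_, by omega⟩
      unfold pr at h ⊢
      split_ifs at h ⊢ <;> omega
  refine (((((near_v he i k k0).trans (near_c he i k0 (Or.inl h1)).symm).trans
    (near_h i i' k0)).trans (near_c he i' k0 (Or.inl h1))).trans (near_v he i' k0 k')).mono ?_
  omega

theorem pr_pm (k : ℤ) : pr k = 1 ∨ pr k = -1 := by
  unfold pr; split_ifs <;> simp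

theorem YY_conn : YY.Connected := by
  have hW : WW 0 0 := Or.inl ⟨0, by simp⟩
  have h : ∀ v ∈ YV, ∃ n, Near n v (nd 0 0 0) := by
    have h1 : ∀ e i k, (e = 1 ∨ e = -1) → ∃ n, Near n (nd e i k) (nd 0 0 0) := fun e i k he =>
      ⟨_, (near_sheet he i k 0 0).trans (near_c he 0 0 (Or.inr hW)).symm⟩
    rintro v ⟨e, i, k, rfl | he, rfl⟩
    · obtain ⟨n, hn⟩ := h1 _ i k (pr_pm k)
      exact ⟨_, (near_c (pr_pm k) i k (Or.inl rfl)).trans hn⟩
    · exact h1 e i k he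
  have hne : Nonempty YY.verts := ⟨⟨nd 0 0 0, _, _, _, Or.inl rfl, rfl⟩⟩
  refine ⟨⟨fun u v => ?_⟩⟩
  obtain ⟨n, hn⟩ := h u.1 u.2
  obtain ⟨m, hm⟩ := h v.1 v.2
  obtain ⟨_, _, p, -⟩ := hn.trans hm.symm
  exact ⟨p⟩

theorem Near.dist_le {n : ℕ} {u v : YY.verts} (h : Near n u.1 v.1) : YY.coe.dist u v ≤ n := by
  obtain ⟨_, _, p, hp⟩ := h
  exact (SimpleGraph.dist_le p).trans hp

def hh (N : ℕ) (i k : ℤ) : ℤ := max 0 (N - max |i| |k|)
def cl (N : ℕ) (t : ℤ) : ℤ := max (-N) (min N t)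

def phi (N : ℕ) (c : Fin 3) (v : VV) : ℤ :=
  if c = 0 then cl N (alf v.1 - N ^ 2) else if c = 1 then cl N (v.2 - N ^ 2) else
    (if bet v.1 = 0 then pr v.2 else bet v.1) * hh N (alf v.1 - N ^ 2) (v.2 - N ^ 2)

theorem phi0 (N : ℕ) (e i k : ℤ) : phi N 0 (nd e i k) = cl N (i - N ^ 2) := by
  simp [phi, alf_nd]
theorem phi1 (N : ℕ) (e i k : ℤ) : phi N 1 (nd e i k) = cl N (k - N ^ 2) := by
  simp [phi, snd_nd]
theorem phi2 (N : ℕ) (e i k : ℤ) : phi N 2 (nd e i k) =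
    (if e = 0 then pr k else e) * hh N (i - N ^ 2) (k - N ^ 2) := by
  unfold phi
  rw [if_neg (by decide), if_neg (by decide), alf_nd, bet_nd, snd_nd]

theorem gap (N n : ℕ) : (N : ℤ) ≤ |(n : ℤ) ^ 2 + n - N ^ 2| := by
  rcases le_or_gt N n with h | h
  · have : (N : ℤ) ≤ n := by exact_mod_cast h
    exact le_abs.2 (Or.inl (by nlinarith [Int.natCast_nonneg N]))
  · have : (n : ℤ) + 1 ≤ N := by exact_mod_cast h
    exact le_abs.2 (Or.inr (by nlinarith [Int.natCast_nonneg n]))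

theorem hh_W (N : ℕ) {i k : ℤ} (h : WW i k) : hh N (i - N ^ 2) (k - N ^ 2) = 0 := by
  unfold hh
  rcases h with ⟨n, rfl⟩ | ⟨n, rfl⟩
  · exact max_eq_left (by have := gap N n; omega)
  · exact max_eq_left (by have := gap N n; omega)

theorem phi_EE (N : ℕ) (c : Fin 3) {u v : VV} (h : EE u v) : |phi N c u - phi N c v| ≤ 1 := by
  have hc : c = 0 ∨ c = 1 ∨ c = 2 := by omega
  obtain ⟨i, k, ⟨rfl, rfl⟩ | ⟨e, he, ⟨rfl, rfl⟩ | ⟨hW, rfl, rfl⟩⟩⟩ := h
  · rcases hc with rfl | rfl | rfl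
    · rw [phi0, phi0]; unfold cl; generalize (N : ℤ) ^ 2 = q; rw [abs_le]; omega
    · rw [phi1, phi1]; simp
    · rw [phi2, phi2]; unfold hh; generalize (N : ℤ) ^ 2 = q
      rcases pr_pm k with h | h <;> simp only [h, if_true, abs_eq_max_neg] <;> omega
  · rcases hc with rfl | rfl | rfl
    · rw [phi0, phi0]; simp
    · rw [phi1, phi1]; unfold cl; generalize (N : ℤ) ^ 2 = q; rw [abs_le]; omega
    · rw [phi2, phi2, if_neg (by omega), if_neg (by omega)]; unfold hh; generalize (N : ℤ) ^ 2 = q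
      rcases he with h | h <;> simp only [h, abs_eq_max_neg] <;> omega
  · rcases hc with rfl | rfl | rfl
    · rw [phi0, phi0]; simp
    · rw [phi1, phi1]; simp
    · rw [phi2, phi2, if_pos rfl, if_neg (by omega)]
      rcases hW with h | h
      · rw [h]; simp
      · rw [hh_W N h]; simp

theorem phi_lip (N : ℕ) (c : Fin 3) (u v : YY.verts) :
    |phi N c u.1 - phi N c v.1| ≤ YY.coe.dist u v := by
  obtain ⟨p, hp⟩ := YY_conn.coe.exists_walk_length_eq_dist u v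
  rw [← hp]
  clear hp
  induction p with
  | nil => simp
  | @cons a b d hab p ih =>
    have h1 : |phi N c a.1 - phi N c b.1| ≤ 1 := by
      rcases hab with h | h
      · exact phi_EE N c h
      · rw [abs_sub_comm]; exact phi_EE N c h
    have := abs_sub_le (phi N c a.1) (phi N c b.1) (phi N c d.1)
    rw [SimpleGraph.Walk.length_cons]
    push_cast
    linarith

theorem phi_size (N : ℕ) {v : VV} (hv : v ∈ YV) :
    (∀ c, |phi N c v| ≤ N) ∧ (N : ℤ) ≤ |phi N 0 v| + |phi N 1 v| + |phi N 2 v| := by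
  obtain ⟨e, i, k, he, rfl⟩ := hv
  obtain ⟨ε, h1, h2⟩ : ∃ ε : ℤ, (ε = 1 ∨ ε = -1) ∧ (if e = 0 then pr k else e) = ε := by
    refine ⟨_, ?_, rfl⟩
    split_ifs
    · exact pr_pm k
    · omega
  refine ⟨fun c => ?_, ?_⟩
  · have hc : c = 0 ∨ c = 1 ∨ c = 2 := by omega
    rcases hc with rfl | rfl | rfl
    · rw [phi0]; unfold cl; rw [abs_le]; omega
    · rw [phi1]; unfold cl; rw [abs_le]; omega
    · rw [phi2, h2]; unfold hh; generalize (N : ℤ) ^ 2 = q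
      rcases h1 with rfl | rfl <;> simp only [abs_eq_max_neg] <;> omega
  · rw [phi0, phi1, phi2, h2]; unfold hh cl; generalize (N : ℤ) ^ 2 = q
    rcases h1 with rfl | rfl <;> simp only [abs_eq_max_neg] <;> omega

theorem near_pos (N : ℕ) (hN : 0 < N) {e e' i k i' k' : ℤ} (he : e = 1 ∨ e = -1)
    (he' : e' = 1 ∨ e' = -1) (hi : |i| ≤ N) (hk : |k| ≤ N) (hi' : |i'| ≤ N) (hk' : |k'| ≤ N)
    (h0 : |i - i'| ≤ 3) (h1 : |k - k'| ≤ 3)
    (h2 : |e * (N - max |i| |k|) - e' * (N - max |i'| |k'|)| ≤ 3) :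
    Near 40 (nd e (N ^ 2 + i) (N ^ 2 + k)) (nd e' (N ^ 2 + i') (N ^ 2 + k')) := by
  by_cases hee : e = e'
  · subst hee
    refine (near_sheet he _ _ _ _).mono ?_
    rw [abs_le] at h0 h1
    omega
  have hA : ∀ t : ℤ, (t = N ∨ t = -N) → ∃ n : ℕ, (N : ℤ) ^ 2 + t = n ^ 2 + n := by
    rintro t (rfl | rfl)
    · exact ⟨N, rfl⟩
    · obtain ⟨n, rfl⟩ := Nat.exists_eq_add_one_of_ne_zero hN.ne'
      exact ⟨n, by push_cast; ring⟩
  obtain ⟨i0, k0, hW, hd⟩ : ∃ i0 k0 : ℤ, WW (N ^ 2 + i0) (N ^ 2 + k0) ∧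
      (i - i0).natAbs + (k - k0).natAbs ≤ 3 := by
    have h3 : N - max |i| |k| ≤ 3 := by
      rcases he with rfl | rfl <;> rcases he' with rfl | rfl <;>
        simp only [abs_eq_max_neg] at h2 hi hk hi' hk' ⊢ <;> omega
    simp only [abs_eq_max_neg] at h3 hi hk
    by_cases h4 : N - 3 ≤ i
    · exact ⟨N, k, Or.inl (hA _ (Or.inl rfl)), by omega⟩
    by_cases h5 : i ≤ 3 - N
    · exact ⟨-N, k, Or.inl (hA _ (Or.inr rfl)), by omega⟩
    by_cases h6 : N - 3 ≤ k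
    · exact ⟨i, N, Or.inr (hA _ (Or.inl rfl)), by omega⟩
    · exact ⟨i, -N, Or.inr (hA _ (Or.inr rfl)), by omega⟩
  refine ((((near_sheet he _ _ _ _).trans (near_c he _ _ (Or.inr hW)).symm).trans
    (near_c he' _ _ (Or.inr hW))).trans (near_sheet he' _ _ _ _)).mono ?_
  rw [abs_le] at h0 h1
  omega

theorem On.avg {V : Type} {s : Finset V} {f : L1 V} (hf : On s f) (e : V → ℝ) (y B : ℝ)
    (h : ∀ a ∈ s, |e a - y| ≤ B) : |push e f - y| ≤ B := by
  rw [push_eq e f s hf.2.1]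
  have h1 : ∑ v ∈ s, f v • e v - y = ∑ v ∈ s, f v * (e v - y) := by
    simp only [mul_sub, sum_sub_distrib, ← sum_mul, hf.2.2, one_mul, smul_eq_mul]
  rw [h1]
  refine (abs_sum_le_sum_abs _ _).trans ?_
  calc _ ≤ ∑ v ∈ s, f v * B := sum_le_sum fun v hv => by
        rw [abs_mul, abs_of_nonneg (hf.1 v)]
        exact mul_le_mul_of_nonneg_left (h v hv) (hf.1 v)
    _ = B := by rw [← sum_mul, hf.2.2, one_mul]

end Pool.Agent.H39.CW
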