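import Mathlib
import Pool.Agent.H39.CW3
import Pool.Agent.H15.Brouwer

set_option autoImplicit false

namespace Pool.Agent.H39.CW
open Finset Metric

abbrev E3 := EuclideanSpace ℝ (Fin (2 + 1))

noncomputable def nu (x : E3) : ℝ := max |x 0| |x 1| + |x 2|

theorem nu_pos (x : E3) (hx : x ∈ sphere (0 : E3) 1) : 0 < nu x := by
  by_contra h
  have h0 := abs_nonneg (x 0)
  have h1 := abs_nonneg (x 1)
  have h2 := abs_nonneg (x 2)
  have h3 := le_max_left |x 0| |x 1|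
  have h4 := le_max_right |x 0| |x 1|
  unfold nu at h
  have : x = 0 := by
    ext c
    fin_cases c
    · exact abs_eq_zero.1 (show |x 0| = 0 by linarith)
    · exact abs_eq_zero.1 (show |x 1| = 0 by linarith)
    · exact abs_eq_zero.1 (show |x 2| = 0 by linarith)
  rw [this] at hx
  simp at hx

def Rips (R : ℝ) : Set (L1 YY.verts) := {f | (∀ a, 0 ≤ f a) ∧
  ∃ s : Finset YY.verts, (∀ a, a ∉ s → f a = 0) ∧ ∑ a ∈ s, f a = 1 ∧
    ∀ a ∈ s, ∀ b ∈ s, (YY.coe.dist a b : ℝ) ≤ R}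

def sgn (b : Bool) : ℤ := if b then 1 else -1
theorem sgn_pm (b : Bool) : sgn b = 1 ∨ sgn b = -1 := by cases b <;> simp [sgn]

def node (N : ℕ) (a : Bool × ℤ × ℤ) : YY.verts :=
  ⟨nd (sgn a.1) (N ^ 2 + a.2.1) (N ^ 2 + a.2.2), _, _, _, Or.inr (sgn_pm _), rfl⟩

theorem phi_node (N : ℕ) (a : Bool × ℤ × ℤ) (h1 : |a.2.1| ≤ N) (h2 : |a.2.2| ≤ N) :
    phi N 0 (node N a).1 = a.2.1 ∧ phi N 1 (node N a).1 = a.2.2 ∧
      phi N 2 (node N a).1 = sgn a.1 * (N - max |a.2.1| |a.2.2|) := by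
  have := sgn_pm a.1
  simp only [node, phi0, phi1, phi2, add_sub_cancel_left]
  rw [if_neg (by omega)]
  unfold cl hh
  refine ⟨?_, ?_, ?_⟩
  · rw [abs_le] at h1; omega
  · rw [abs_le] at h2; omega
  · rw [max_eq_right (by omega)]

theorem cover (N : ℕ) (p0 p1 p2 : ℝ) (h : max |p0| |p1| + |p2| = N) : ∃ a : Bool × ℤ × ℤ,
    |a.2.1| ≤ N ∧ |a.2.2| ≤ N ∧ |(a.2.1 : ℝ) - p0| < 2 ∧ |(a.2.2 : ℝ) - p1| < 2 ∧
      |((sgn a.1 * (N - max |a.2.1| |a.2.2|) : ℤ) : ℝ) - p2| < 2 := by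
  have hfl : ∀ p : ℝ, |p| ≤ N → |⌊p⌋| ≤ N ∧ |(⌊p⌋ : ℝ) - p| < 1 := by
    intro p hp
    rw [abs_le] at hp
    have h1 := Int.floor_le p
    have h2 := Int.lt_floor_add_one p
    refine ⟨abs_le.2 ⟨Int.le_floor.2 (by push_cast; linarith), ?_⟩, abs_lt.2 ⟨by linarith, by linarith⟩⟩
    have : (⌊p⌋ : ℝ) ≤ N := by linarith
    exact_mod_cast this
  have h2 := abs_nonneg p2
  obtain ⟨a0, b0⟩ := hfl p0 (by linarith [le_max_left |p0| |p1|])
  obtain ⟨a1, b1⟩ := hfl p1 (by linarith [le_max_right |p0| |p1|])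
  have c0 := (abs_abs_sub_abs_le_abs_sub _ _).trans_lt b0
  have c1 := (abs_abs_sub_abs_le_abs_sub _ _).trans_lt b1
  have c2 : abs (max |(⌊p0⌋ : ℝ)| |(⌊p1⌋ : ℝ)| - max |p0| |p1|) < 1 :=
    (abs_max_sub_max_le_max _ _ _ _).trans_lt (max_lt c0 c1)
  rw [abs_lt] at c2
  rcases le_total 0 p2 with hp | hp
  · refine ⟨(true, ⌊p0⌋, ⌊p1⌋), a0, a1, by linarith, by linarith, ?_⟩
    rw [abs_of_nonneg hp] at h
    simp only [sgn, if_true]
    push_cast
    rw [abs_lt]; constructor <;> linarith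
  · refine ⟨(false, ⌊p0⌋, ⌊p1⌋), a0, a1, by linarith, by linarith, ?_⟩
    rw [abs_of_nonpos hp] at h
    simp only [sgn, Bool.false_eq_true, if_false]
    push_cast
    rw [abs_lt]; constructor <;> linarith

theorem exists_gamma (N : ℕ) (hN : 0 < N) : ∃ γ : E3 → L1 YY.verts,
    ContinuousOn γ (sphere 0 1) ∧ Set.MapsTo γ (sphere 0 1) (Rips 40) ∧
    ∀ x ∈ sphere (0 : E3) 1, ∀ c : Fin 3,
      |push (fun a : YY.verts => (phi N c a.1 : ℝ)) (γ x) - N / nu x * x c| ≤ 2 := by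
  classical
  let D : Finset (Bool × ℤ × ℤ) := univ ×ˢ (Icc (-N : ℤ) N ×ˢ Icc (-N : ℤ) N)
  have hD : ∀ a, a ∈ D ↔ |a.2.1| ≤ N ∧ |a.2.2| ≤ N := fun a => by simp [D, abs_le]
  let u : Bool × ℤ × ℤ → E3 → ℝ := fun a x => max 0 (2 - max |phi N 0 (node N a).1 - N / nu x * x 0|
    (max |phi N 1 (node N a).1 - N / nu x * x 1| |phi N 2 (node N a).1 - N / nu x * x 2|))
  have hnu : Continuous nu := by unfold nu; fun_prop
  have hq : ∀ c : Fin 3, ContinuousOn (fun x : E3 => N / nu x * x c) (sphere 0 1) := fun c =>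
    (continuousOn_const.div hnu.continuousOn (fun x hx => (nu_pos x hx).ne')).mul
      (by fun_prop)
  have huc : ∀ a, ContinuousOn (u a) (sphere 0 1) := fun a =>
    continuousOn_const.sup (continuousOn_const.sub ((continuousOn_const.sub (hq 0)).abs.sup
      ((continuousOn_const.sub (hq 1)).abs.sup (continuousOn_const.sub (hq 2)).abs)))
  have hu0 : ∀ a x, 0 ≤ u a x := fun a x => le_max_left _ _
  have hune : ∀ a x, u a x ≠ 0 → ∀ c : Fin 3, |phi N c (node N a).1 - N / nu x * x c| < 2 := by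
    intro a x h c
    have h1 : max |phi N 0 (node N a).1 - N / nu x * x 0|
        (max |phi N 1 (node N a).1 - N / nu x * x 1| |phi N 2 (node N a).1 - N / nu x * x 2|) < 2 := by
      by_contra h2
      exact h (max_eq_left (by linarith))
    simp only [max_lt_iff] at h1
    have hc : c = 0 ∨ c = 1 ∨ c = 2 := by omega
    rcases hc with rfl | rfl | rfl
    exacts [h1.1, h1.2.1, h1.2.2]
  have hZ : ∀ x ∈ sphere (0 : E3) 1, 0 < ∑ a ∈ D, u a x := by
    intro x hx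
    have hn := nu_pos x hx
    have hN' : (0 : ℝ) < N := by exact_mod_cast hN
    have hl0 : 0 < N / nu x := div_pos hN' hn
    have h1 : max |N / nu x * x 0| |N / nu x * x 1| + |N / nu x * x 2| = N := by
      simp only [abs_mul, abs_of_pos hl0]
      rw [← mul_max_of_nonneg _ _ hl0.le, ← mul_add]
      exact div_mul_cancel₀ _ hn.ne'
    obtain ⟨a, a1, a2, a3, a4, a5⟩ := cover N _ _ _ h1
    obtain ⟨e0, e1, e2⟩ := phi_node N a a1 a2
    refine sum_pos' (fun a _ => hu0 a x) ⟨a, (hD a).2 ⟨a1, a2⟩, ?_⟩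
    simp only [u, e0, e1, e2]
    exact lt_max_of_lt_right (sub_pos.2 (max_lt a3 (max_lt a4 a5)))
  clear_value u D
  have hon : ∀ x ∈ sphere (0 : E3) 1, On ((D.filter (fun a => u a x ≠ 0)).image (node N))
      (∑ a ∈ D, (u a x / ∑ b ∈ D, u b x) • dl (node N a)) := by
    intro x hx
    refine on_comb D _ (fun a _ => div_nonneg (hu0 a x) (hZ x hx).le) ?_ _ _ (fun a ha h => ?_)
    · rw [← sum_div, div_self (hZ x hx).ne']
    · exact mem_image_of_mem _ (mem_filter.2 ⟨ha, fun h1 => h (by rw [h1, zero_div])⟩)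
  refine ⟨fun x => ∑ a ∈ D, (u a x / ∑ b ∈ D, u b x) • dl (node N a), ?_, fun x hx => ?_,
    fun x hx c => ?_⟩
  · exact continuousOn_finsetSum _ fun a _ => ((huc a).div
      (continuousOn_finsetSum _ fun b _ => huc b) (fun x hx => (hZ x hx).ne')).smul
      continuousOn_const
  · obtain ⟨o1, o2, o3⟩ := hon x hx
    refine ⟨o1, (D.filter (fun a => u a x ≠ 0)).image (node N), o2, o3, fun a' ha' b' hb' => ?_⟩
    obtain ⟨a, ha, rfl⟩ := mem_image.1 ha'
    obtain ⟨b, hb, rfl⟩ := mem_image.1 hb'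
    obtain ⟨ha1, ha2⟩ := mem_filter.1 ha
    obtain ⟨hb1, hb2⟩ := mem_filter.1 hb
    have h3 : ∀ c : Fin 3, |phi N c (node N a).1 - phi N c (node N b).1| ≤ 3 := by
      intro c
      have h4 := abs_lt.1 (hune a x ha2 c)
      have h5 := abs_lt.1 (hune b x hb2 c)
      have h6 : |(phi N c (node N a).1 : ℝ) - phi N c (node N b).1| < 4 :=
        abs_lt.2 ⟨by linarith, by linarith⟩
      have h7 : |phi N c (node N a).1 - phi N c (node N b).1| < 4 := by exact_mod_cast h6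
      omega
    rw [hD] at ha1 hb1
    obtain ⟨e0, e1, e2⟩ := phi_node N a ha1.1 ha1.2
    obtain ⟨f0, f1, f2⟩ := phi_node N b hb1.1 hb1.2
    have g0 := h3 0
    have g1 := h3 1
    have g2 := h3 2
    rw [e0, f0] at g0
    rw [e1, f1] at g1
    rw [e2, f2] at g2
    have := (near_pos N hN (sgn_pm a.1) (sgn_pm b.1) ha1.1 ha1.2 hb1.1 hb1.2 g0 g1 g2).dist_le
      (u := node N a) (v := node N b)
    exact_mod_cast this
  · refine (hon x hx).avg _ _ _ (fun a' ha' => ?_)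
    obtain ⟨a, ha, rfl⟩ := mem_image.1 ha'
    exact (hune a x (mem_filter.1 ha).2 c).le

theorem no_fill (R' : ℝ) : ∃ γ : E3 → L1 YY.verts,
    ContinuousOn γ (sphere 0 1) ∧ Set.MapsTo γ (sphere 0 1) (Rips 40) ∧
    ¬ ∃ Γ : E3 → L1 YY.verts, ContinuousOn Γ (closedBall 0 1) ∧
      Set.MapsTo Γ (closedBall 0 1) (Rips R') ∧ Set.EqOn Γ γ (sphere 0 1) := by
  obtain ⟨N, hN⟩ := exists_nat_gt (max 4 (3 * R'))
  have hN4 : (4 : ℝ) < N := (le_max_left _ _).trans_lt hN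
  have hN3 : 3 * R' < N := (le_max_right _ _).trans_lt hN
  have hN0 : 0 < N := by exact_mod_cast (show (0 : ℝ) < N by linarith)
  obtain ⟨γ, h1, h2, h3⟩ := exists_gamma N hN0
  refine ⟨γ, h1, h2, ?_⟩
  rintro ⟨Γ, hc, hm, he⟩
  let F : E3 → E3 := fun y =>
    WithLp.toLp 2 (fun c : Fin 3 => push (fun a : YY.verts => (phi N c a.1 : ℝ)) (Γ y))
  have hFc : ContinuousOn F (closedBall 0 1) := by
    refine (PiLp.continuous_toLp 2 _).comp_continuousOn (continuousOn_pi.2 fun c => ?_)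
    refine (push_cont _ N (by positivity) (fun a => ?_)).comp_continuousOn hc
    have := (phi_size N a.2).1 c
    rw [Real.norm_eq_abs]
    exact_mod_cast this
  have hF0 : ∀ y ∈ closedBall (0 : E3) 1, F y ≠ 0 := by
    intro y hy h0
    obtain ⟨g1, s, g2, g3, g4⟩ := hm hy
    obtain ⟨a, ha⟩ : s.Nonempty := by
      rw [nonempty_iff_ne_empty]; rintro rfl; simp at g3
    have g5 : ∀ c : Fin 3, |(phi N c a.1 : ℝ)| ≤ R' := by
      intro c
      have g6 := On.avg (s := s) ⟨g1, g2, g3⟩ (fun a : YY.verts => (phi N c a.1 : ℝ))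
        (phi N c a.1) R' (fun b hb => by
          have g7 := phi_lip N c b a
          have g8 : |(phi N c b.1 : ℝ) - phi N c a.1| ≤ YY.coe.dist b a := by exact_mod_cast g7
          exact g8.trans (g4 b hb a ha))
      have g9 : push (fun a : YY.verts => (phi N c a.1 : ℝ)) (Γ y) = 0 :=
        congrArg (fun z : E3 => z c) h0
      rwa [g9, zero_sub, abs_neg] at g6
    have g10 := (phi_size N a.2).2
    have g11 : (N : ℝ) ≤ |(phi N 0 a.1 : ℝ)| + |(phi N 1 a.1 : ℝ)| + |(phi N 2 a.1 : ℝ)| := by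
      exact_mod_cast g10
    linarith [g5 0, g5 1, g5 2]
  have hnorm : ∀ y ∈ closedBall (0 : E3) 1, ‖-(‖F y‖⁻¹ • F y)‖ = 1 := fun y hy => by
    rw [norm_neg]; exact norm_smul_inv_norm (hF0 y hy)
  obtain ⟨x, hx, hfx⟩ := Pool.Agent.H15.Brouwer.brouwer (isCompact_closedBall (0 : E3) 1)
    (convex_closedBall _ _) ⟨0, by simp⟩ (fun y => -(‖F y‖⁻¹ • F y))
    ((hFc.norm.inv₀ (fun y hy => norm_ne_zero_iff.2 (hF0 y hy))).smul hFc).neg
    (fun y hy => by simpa using (hnorm y hy).le)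
  have hxs : x ∈ sphere (0 : E3) 1 := by
    have := hnorm x hx
    rw [hfx] at this
    simpa using this
  have hl : 0 < ‖F x‖ := norm_pos_iff.2 (hF0 x hx)
  have hn := nu_pos x hxs
  have hq : 0 < N / nu x := div_pos (by linarith) hn
  have hb : ∀ c : Fin 3, N / nu x * |x c| ≤ 2 := by
    intro c
    have k1 := h3 x hxs c
    rw [← he hxs] at k1
    have k2 : -(‖F x‖⁻¹ * F x c) = x c := congrArg (fun z : E3 => z c) hfx
    have k3 : F x c = -(‖F x‖ * x c) := by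
      rw [← k2]; field_simp
    change |F x c - _| ≤ 2 at k1
    rw [k3, ← neg_add', ← add_mul, abs_neg, abs_mul, abs_of_pos (by positivity)] at k1
    nlinarith [abs_nonneg (x c)]
  have k4 : N / nu x * nu x = N := div_mul_cancel₀ _ hn.ne'
  have k5 : N / nu x * nu x = max (N / nu x * |x 0|) (N / nu x * |x 1|) + N / nu x * |x 2| := by
    rw [← mul_max_of_nonneg _ _ hq.le, ← mul_add]; rfl
  have k6 := max_le (hb 0) (hb 1)
  linarith [hb 2]

end Pool.Agent.H39.CW
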