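import Mathlib

set_option autoImplicit false

namespace Pool.Agent.H39.Can

open Set Filter Topology MeasureTheory

/-- A lamplighter-type locally compact group times the integers. -/
def G : Type := (ℤ → ZMod 5) × ℤ × ℤ

instance : TopologicalSpace G := inferInstanceAs (TopologicalSpace ((ℤ → ZMod 5) × ℤ × ℤ))
instance : T2Space G := inferInstanceAs (T2Space ((ℤ → ZMod 5) × ℤ × ℤ))
instance : LocallyCompactSpace G := inferInstanceAs (LocallyCompactSpace ((ℤ → ZMod 5) × ℤ × ℤ))
instance : SecondCountableTopology G :=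
  inferInstanceAs (SecondCountableTopology ((ℤ → ZMod 5) × ℤ × ℤ))
instance : MeasurableSpace G := inferInstanceAs (MeasurableSpace ((ℤ → ZMod 5) × ℤ × ℤ))
instance : BorelSpace G := inferInstanceAs (BorelSpace ((ℤ → ZMod 5) × ℤ × ℤ))

def G.mk (y : ℤ → ZMod 5) (k l : ℤ) : G := (y, k, l)
def G.y (g : G) : ℤ → ZMod 5 := g.1
def G.k (g : G) : ℤ := g.2.1
def G.l (g : G) : ℤ := g.2.2

@[simp] theorem G.mk_y (y : ℤ → ZMod 5) (k l : ℤ) : (G.mk y k l).y = y := rfl
@[simp] theorem G.mk_k (y : ℤ → ZMod 5) (k l : ℤ) : (G.mk y k l).k = k := rfl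
@[simp] theorem G.mk_l (y : ℤ → ZMod 5) (k l : ℤ) : (G.mk y k l).l = l := rfl

theorem G.ext' {a b : G} (h1 : ∀ p, a.y p = b.y p) (h2 : a.k = b.k) (h3 : a.l = b.l) : a = b :=
  Prod.ext (funext h1) (Prod.ext h2 h3)

instance : Mul G := ⟨fun a b => G.mk (fun p => a.y p + b.y (p + a.k)) (a.k + b.k) (a.l + b.l)⟩
instance : One G := ⟨G.mk 0 0 0⟩
instance : Inv G := ⟨fun a => G.mk (fun p => - a.y (p - a.k)) (-a.k) (-a.l)⟩

@[simp] theorem G.mul_y (a b : G) (p : ℤ) : (a * b).y p = a.y p + b.y (p + a.k) := rfl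
@[simp] theorem G.mul_k (a b : G) : (a * b).k = a.k + b.k := rfl
@[simp] theorem G.mul_l (a b : G) : (a * b).l = a.l + b.l := rfl
@[simp] theorem G.inv_y (a : G) (p : ℤ) : (a⁻¹).y p = - a.y (p - a.k) := rfl
@[simp] theorem G.inv_k (a : G) : (a⁻¹).k = -a.k := rfl
@[simp] theorem G.inv_l (a : G) : (a⁻¹).l = -a.l := rfl
@[simp] theorem G.one_y (p : ℤ) : (1 : G).y p = 0 := rfl
@[simp] theorem G.one_k : (1 : G).k = 0 := rfl
@[simp] theorem G.one_l : (1 : G).l = 0 := rfl

instance : Group G := Group.ofLeftAxioms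
  (fun a b c => G.ext' (fun p => by simp [add_assoc]) (by simp [add_assoc]) (by simp [add_assoc]))
  (fun a => G.ext' (fun p => by simp) (by simp) (by simp))
  (fun a => G.ext' (fun p => by simp [sub_eq_add_neg]) (by simp) (by simp))

theorem G.continuous_y : Continuous G.y := continuous_fst
theorem G.continuous_k : Continuous G.k := continuous_fst.comp continuous_snd
theorem G.continuous_l : Continuous G.l := continuous_snd.comp continuous_snd

theorem cont_ev : Continuous fun q : (ℤ → ZMod 5) × ℤ => q.1 q.2 :=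
  continuous_prod_of_discrete_right.2 fun k => continuous_apply k

theorem G.continuous_mk {X : Type} [TopologicalSpace X] {y : X → ℤ → ZMod 5} {k l : X → ℤ}
    (hy : ∀ p, Continuous fun x => y x p) (hk : Continuous k) (hl : Continuous l) :
    Continuous fun x => G.mk (y x) (k x) (l x) :=
  (continuous_pi hy).prodMk (hk.prodMk hl)

theorem G.measurable_mk {X : Type} [MeasurableSpace X] {y : X → ℤ → ZMod 5} {k l : X → ℤ}
    (hy : ∀ p, Measurable fun x => y x p) (hk : Measurable k) (hl : Measurable l) :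
    Measurable fun x => G.mk (y x) (k x) (l x) :=
  (measurable_pi_lambda _ hy).prodMk (hk.prodMk hl)

instance : IsTopologicalGroup G where
  continuous_mul := by
    have hy := G.continuous_y
    have hk := G.continuous_k
    have hl := G.continuous_l
    refine G.continuous_mk (fun p => ?_) (by fun_prop) (by fun_prop)
    refine ((continuous_apply p).comp (hy.comp continuous_fst)).add ?_
    exact cont_ev.comp ((hy.comp continuous_snd).prodMk
      (continuous_const.add (hk.comp continuous_fst)))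
  continuous_inv := by
    have hy := G.continuous_y
    have hk := G.continuous_k
    have hl := G.continuous_l
    refine G.continuous_mk (fun p => ?_) (by fun_prop) (by fun_prop)
    exact (cont_ev.comp (hy.prodMk (continuous_const.sub hk))).neg

theorem finite_ball : {g : G | |g.k| ≤ 1 ∧ |g.l| ≤ 1 ∧ ∀ p, 1 < |p| → g.y p = 0}.Finite := by
  refine Finite.of_injOn (f := fun g : G => ((g.y (-1), g.y 0, g.y 1), g.k, g.l))
    (t := univ ×ˢ Icc (-1) 1 ×ˢ Icc (-1) 1) ?_ ?_
    (finite_univ.prod ((finite_Icc _ _).prod (finite_Icc _ _)))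
  · rintro g ⟨h1, h2, -⟩
    exact ⟨trivial, abs_le.1 h1, abs_le.1 h2⟩
  · rintro a ⟨-, -, ha⟩ b ⟨-, -, hb⟩ h
    simp only [Prod.mk.injEq] at h
    refine G.ext' (fun p => ?_) h.2.1 h.2.2
    by_cases hp : 1 < |p|
    · rw [ha p hp, hb p hp]
    · have := abs_le.1 (not_lt.1 hp)
      obtain rfl | rfl | rfl : p = -1 ∨ p = 0 ∨ p = 1 := by omega
      exacts [h.1.1, h.1.2.1, h.1.2.2]

open Classical in
/-- Flux of a matching of the integers across the cut just before `0`. -/
noncomputable def flux (K : ℕ) (μ : ℤ → ℤ → Prop) (e : ℤ → ℤ) : ℤ :=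
  ∑ i ∈ Finset.Ico (-(K : ℤ)) 0, if ∃ j, 0 ≤ j ∧ μ i j then e i else 0

theorem flux_spec {K : ℕ} {μ : ℤ → ℤ → Prop} {e : ℤ → ℤ} (hs : ∀ i j, μ i j → μ j i)
    (hu : ∀ i, ∃! j, μ i j) (hK : ∀ i j, μ i j → |i - j| ≤ K) (he : ∀ i j, μ i j → e j = - e i)
    (h0 : e 0 ≠ 0) :
    flux K (fun i j => μ (i + 1) (j + 1)) (fun i => e (i + 1)) = flux K μ e + e 0 ∧
    flux K (fun i j => μ (-i) (-j)) (fun i => e (-i)) = - flux K μ e - e 0 := by
  classical
  choose κ h1 h2 using hu
  have h3 : ∀ i, κ (κ i) = i := fun i => (h2 _ _ (hs _ _ (h1 i))).symm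
  have h4 : ∀ i, -(K : ℤ) ≤ i - κ i ∧ i - κ i ≤ K := fun i => abs_le.1 (hK _ _ (h1 i))
  have h5 : ∀ i, e (κ i) = - e i := fun i => he _ _ (h1 i)
  have h6 : κ 0 ≠ 0 := fun h => by
    have := h5 0
    rw [h] at this
    omega
  have h7 : ∀ i j, μ i j ↔ j = κ i := fun i j => ⟨h2 i j, fun h => h ▸ h1 i⟩
  let S : ℤ → Finset ℤ := fun n => (Finset.Ico (n - K) n).filter fun i => n ≤ κ i
  have hS : ∀ n i, i ∈ S n ↔ i < n ∧ n ≤ κ i := fun n i => by
    have := h4 i
    simp only [S, Finset.mem_filter, Finset.mem_Ico]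
    omega
  have e0 : flux K μ e = ∑ i ∈ S 0, e i := by
    simp only [flux, S, Finset.sum_filter, h7, zero_sub, exists_eq_right]
  have e1 : flux K (fun i j => μ (i + 1) (j + 1)) (fun i => e (i + 1)) = ∑ i ∈ S 1, e i := by
    unfold flux
    rw [← Finset.sum_filter]
    refine Finset.sum_bij' (fun i _ => i + 1) (fun i _ => i - 1) ?_ ?_ (by simp) (by simp)
      (by simp)
    · intro i hi
      simp only [Finset.mem_filter, Finset.mem_Ico, h7] at hi
      obtain ⟨hi, j, hj, hj'⟩ := hi
      rw [hS]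
      omega
    · intro i hi
      have := h4 i
      rw [hS] at hi
      simp only [Finset.mem_filter, Finset.mem_Ico, h7, sub_add_cancel]
      exact ⟨by omega, κ i - 1, by omega, by omega⟩
  have e2 : flux K (fun i j => μ (-i) (-j)) (fun i => e (-i)) = - ∑ i ∈ S 1, e i := by
    unfold flux
    rw [← Finset.sum_filter, ← Finset.sum_neg_distrib]
    refine Finset.sum_bij' (fun i _ => κ (-i)) (fun i _ => - κ i) ?_ ?_ (by simp [h3])
      (by simp [h3]) (by simp [h5])
    · intro i hi
      simp only [Finset.mem_filter, Finset.mem_Ico, h7] at hi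
      obtain ⟨hi, j, hj, hj'⟩ := hi
      rw [hS, h3]
      omega
    · intro i hi
      have := h4 i
      rw [hS] at hi
      simp only [Finset.mem_filter, Finset.mem_Ico, h7, neg_neg, h3]
      exact ⟨by omega, -i, by omega, by omega⟩
  have e3 : ∑ i ∈ S 1, e i = ∑ i ∈ S 0, e i + e 0 := by
    rcases lt_or_gt_of_ne h6 with h | h
    · have : S 0 = insert (κ 0) (S 1) := by
        ext i
        simp only [Finset.mem_insert, hS]
        constructor
        · intro hi
          by_cases h' : κ i = 0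
          · left
            rw [← h', h3]
          · omega
        · rintro (rfl | hi)
          · rw [h3]
            omega
          · have : i ≠ 0 := by
              rintro rfl
              omega
            omega
      rw [this, Finset.sum_insert (by rw [hS, h3]; omega), h5]
      ring
    · have : S 1 = insert 0 (S 0) := by
        ext i
        simp only [Finset.mem_insert, hS]
        constructor
        · omega
        · rintro (rfl | hi)
          · omega
          · have : κ i ≠ 0 := fun h' => by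
              have := h3 i
              rw [h'] at this
              omega
            omega
      rw [this, Finset.sum_insert (by rw [hS]; omega), add_comm]
  rw [e0, e1, e2, e3]
  exact ⟨rfl, by ring⟩

theorem measurable_flux {X : Type} [MeasurableSpace X] (K : ℕ) {μ : X → ℤ → ℤ → Prop}
    {e : X → ℤ → ℤ} (hμ : ∀ i j, MeasurableSet {x | μ x i j})
    (he : ∀ i, Measurable fun x => e x i) : Measurable fun x => flux K (μ x) (e x) := by
  classical
  unfold flux
  refine Finset.measurable_sum _ fun i _ => Measurable.ite ?_ (he i) measurable_const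
  rw [ofPred_exists]
  exact MeasurableSet.iUnion fun j => (MeasurableSet.const _).inter (hμ i j)

theorem equidec {Ω I : Type} [MeasurableSpace Ω] [StandardBorelSpace Ω] [Fintype I]
    {S : Set Ω} (hS : MeasurableSet S) {Ψ Ψ' : Ω → G × ℕ} (hΨ : Measurable Ψ)
    (h1 : InjOn Ψ S) (h2 : InjOn Ψ' S) (ι : Ω → I) (hι : ∀ i, MeasurableSet (ι ⁻¹' {i}))
    (g : I → G) (σ : I → Equiv.Perm ℕ)
    (h : ∀ w ∈ S, Ψ' w = (g (ι w) * (Ψ w).1, σ (ι w) (Ψ w).2)) :
    ∃ (k : ℕ) (P : Fin k → Set (G × ℕ)) (g : Fin k → G) (σ : Fin k → Equiv.Perm ℕ),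
      (∀ i, MeasurableSet (P i)) ∧
      Pairwise (fun i j => Disjoint (P i) (P j)) ∧
      (⋃ i, P i) = Ψ '' S ∧
      Pairwise (fun i j =>
        Disjoint ((fun p : G × ℕ => (g i * p.1, σ i p.2)) '' P i)
                 ((fun p : G × ℕ => (g j * p.1, σ j p.2)) '' P j)) ∧
      (⋃ i, (fun p : G × ℕ => (g i * p.1, σ i p.2)) '' P i) = Ψ' '' S := by
  let e := (Fintype.equivFin I).symm
  have h3 : ∀ i, (fun p : G × ℕ => (g (e i) * p.1, σ (e i) p.2)) '' (Ψ '' (S ∩ ι ⁻¹' {e i})) =
      Ψ' '' (S ∩ ι ⁻¹' {e i}) := by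
    intro i
    rw [image_image]
    refine image_congr fun w hw => ?_
    rw [h w hw.1, show ι w = e i from hw.2]
  have h4 : ⋃ i, S ∩ ι ⁻¹' {e i} = S := by
    ext w
    simp only [mem_iUnion, mem_inter_iff, mem_preimage, mem_singleton_iff]
    exact ⟨fun ⟨_, h, _⟩ => h, fun h => ⟨e.symm (ι w), h, by simp⟩⟩
  have h5 : ∀ Φ : Ω → G × ℕ, InjOn Φ S →
      Pairwise fun i j => Disjoint (Φ '' (S ∩ ι ⁻¹' {e i})) (Φ '' (S ∩ ι ⁻¹' {e j})) := by
    intro Φ hΦ i j hij
    rw [disjoint_left]
    rintro _ ⟨w, hw, rfl⟩ ⟨w', hw', h'⟩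
    obtain rfl := hΦ hw'.1 hw.1 h'
    exact hij (e.injective ((show ι w' = e i from hw.2).symm.trans hw'.2))
  refine ⟨_, fun i => Ψ '' (S ∩ ι ⁻¹' {e i}), fun i => g (e i), fun i => σ (e i), fun i => ?_,
    h5 Ψ h1, ?_, ?_, ?_⟩
  · exact (hS.inter (hι _)).image_of_measurable_injOn hΨ (h1.mono inter_subset_left)
  · rw [← image_iUnion, h4]
  · simp only [h3]
    exact h5 Ψ' h2
  · simp only [h3]
    rw [← image_iUnion, h4]

end Pool.Agent.H39.Can
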