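import Mathlib
import Pool.Agent.H39.Can1

set_option autoImplicit false

namespace Pool.Agent.H39.Can

open Set Filter Topology MeasureTheory

def NE (x : ℕ → Bool) : Prop := ∀ n b, ∃ i, n ≤ i ∧ x i = b

abbrev X := {x : ℕ → Bool // NE x}

theorem X.ex (x : X) : ∃ i, x.1 i = false := (x.2 0 false).imp fun _ h => h.2

noncomputable def mm (x : X) : ℕ := Nat.find x.ex

theorem mm_f (x : X) : x.1 (mm x) = false := Nat.find_spec x.ex

theorem mm_t (x : X) {i : ℕ} (h : i < mm x) : x.1 i = true := by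
  simpa using Nat.find_min x.ex h

theorem mm_eq {x : X} {n : ℕ} (h1 : x.1 n = false) (h2 : ∀ i < n, x.1 i = true) : mm x = n :=
  (Nat.find_eq_iff _).2 ⟨h1, fun i hi => by simp [h2 i hi]⟩

theorem NE.of_tail {x y : ℕ → Bool} (h : NE x) {n : ℕ} (hn : ∀ i, n ≤ i → y i = x i) : NE y := by
  intro k b
  obtain ⟨i, hi, hb⟩ := h (max k n) b
  exact ⟨i, le_of_max_le_left hi, (hn i (le_of_max_le_right hi)).trans hb⟩

def neg (x : X) : X := ⟨fun i => !x.1 i, fun n b => by
  obtain ⟨i, hi, hb⟩ := x.2 n (!b)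
  exact ⟨i, hi, by simp [hb]⟩⟩

noncomputable def succ (x : X) : X :=
  ⟨fun i => if i < mm x then false else if i = mm x then true else x.1 i,
    x.2.of_tail (n := mm x + 1) fun i hi => by rw [if_neg (by omega), if_neg (by omega)]⟩

theorem succ_gt (x : X) {i : ℕ} (h : mm x < i) : (succ x).1 i = x.1 i := by
  simp only [succ]
  rw [if_neg (by omega), if_neg (by omega)]

theorem succ_lt (x : X) {i : ℕ} (h : i < mm x) : (succ x).1 i = false := if_pos h

theorem succ_eq (x : X) : (succ x).1 (mm x) = true := by simp [succ]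

@[simp] theorem neg_apply (x : X) (i : ℕ) : (neg x).1 i = !x.1 i := rfl

@[simp] theorem neg_neg' (x : X) : neg (neg x) = x := Subtype.ext (funext fun i => by simp)

theorem mm_ns (x : X) : mm (neg (succ x)) = mm x :=
  mm_eq (by simp [succ_eq]) fun i hi => by simp [succ_lt x hi]

theorem succ_ns (x : X) : succ (neg (succ x)) = neg x := by
  refine Subtype.ext (funext fun i => ?_)
  rcases lt_trichotomy i (mm x) with h | rfl | h
  · rw [succ_lt _ (by rwa [mm_ns]), neg_apply, mm_t x h]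
    rfl
  · have := succ_eq (neg (succ x))
    rw [mm_ns] at this
    rw [this, neg_apply, mm_f]
    rfl
  · rw [succ_gt _ (by rwa [mm_ns]), neg_apply, neg_apply, succ_gt x h]

theorem mm_succ (x : X) : mm x = 0 ↔ mm (succ x) ≠ 0 := by
  constructor
  · intro h h'
    have h1 := succ_eq x
    have h2 := mm_f (succ x)
    rw [h] at h1
    rw [h', h1] at h2
    simp at h2
  · intro h
    by_contra h'
    exact h (mm_eq (succ_lt x (by omega)) (by simp))

def c (m : ℕ) : ℤ := ((m : ℤ) + 1) ^ 2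

theorem c_pos (m : ℕ) : (m : ℤ) < c m := by
  unfold c
  nlinarith [Int.natCast_nonneg m]

theorem c_gap {m n : ℕ} (h : m < n) : c m + n < c n := by
  unfold c
  have : (m : ℤ) + 1 ≤ n := by exact_mod_cast h
  nlinarith [Int.natCast_nonneg m]

theorem c_mono {m n : ℕ} (h : m ≤ n) : c m ≤ c n := by
  rcases h.eq_or_lt with rfl | h
  · rfl
  · have := c_gap h
    omega

theorem c_inj : Function.Injective c := fun m n h => by
  rcases lt_trichotomy m n with h' | h' | h'
  · have := c_gap h'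
    omega
  · exact h'
  · have := c_gap h'
    omega

abbrev Om := {w : X × ℤ // -(2 * c (mm w.1)) ≤ w.2 ∧ w.2 ≤ 2 * c (mm w.1)}

noncomputable def start (x : X) : Om :=
  ⟨(x, -(2 * c (mm x))), le_rfl, by have := c_pos (mm x); simp only; omega⟩

noncomputable def rho (w : Om) : Om :=
  ⟨(neg (succ w.1.1), -w.1.2), by have := w.2; simp only [mm_ns]; omega⟩

noncomputable def step (w : Om) : Om :=
  if h : w.1.2 < 2 * c (mm w.1.1) then ⟨(w.1.1, w.1.2 + 1), by have := w.2; simp only; omega⟩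
  else start (succ w.1.1)

theorem Om.ext' {w w' : Om} (h1 : w.1.1 = w'.1.1) (h2 : w.1.2 = w'.1.2) : w = w' :=
  Subtype.ext (Prod.ext h1 h2)

theorem step_lt {w : Om} (h : w.1.2 < 2 * c (mm w.1.1)) :
    (step w).1.1 = w.1.1 ∧ (step w).1.2 = w.1.2 + 1 := by
  simp [step, h]

theorem step_eq {w : Om} (h : ¬ w.1.2 < 2 * c (mm w.1.1)) : step w = start (succ w.1.1) := by
  simp [step, h]

theorem rho_rho (w : Om) : rho (rho w) = w :=
  Om.ext' (by simp [rho, succ_ns]) (by simp [rho])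

theorem rho_step (w : Om) : rho (step (rho (step w))) = w := by
  have hw := w.2
  by_cases h : w.1.2 < 2 * c (mm w.1.1)
  · obtain ⟨h1, h2⟩ := step_lt h
    have h3 : (rho (step w)).1.2 < 2 * c (mm (rho (step w)).1.1) := by
      simp only [rho, mm_ns, h1, h2]
      omega
    obtain ⟨h4, h5⟩ := step_lt h3
    refine Om.ext' ?_ ?_
    · change neg (succ (step (rho (step w))).1.1) = _
      rw [h4]
      simp [rho, h1, succ_ns]
    · change -(step (rho (step w))).1.2 = _
      rw [h5]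
      simp [rho, h2]
  · rw [step_eq h, step_eq (by simp [rho, start, mm_ns])]
    refine Om.ext' (by simp [rho, start, succ_ns]) ?_
    simp only [rho, start, succ_ns, mm_ns]
    omega

noncomputable def T : Equiv.Perm Om where
  toFun := step
  invFun := fun w => rho (step (rho w))
  left_inv := rho_step
  right_inv := fun w => by
    have := congrArg rho (rho_step (rho w))
    rwa [rho_rho, rho_rho] at this

theorem T_apply (w : Om) : T w = step w := rfl

theorem T_inv (w : Om) : T⁻¹ w = rho (T (rho w)) := rfl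

theorem zpow_succ' (i : ℤ) (w : Om) : (T ^ (i + 1)) w = T ((T ^ i) w) := by
  rw [add_comm, zpow_add, zpow_one]
  rfl

theorem zpow_pred' (i : ℤ) (w : Om) : (T ^ (i - 1)) w = T⁻¹ ((T ^ i) w) := by
  rw [sub_eq_neg_add, zpow_add, zpow_neg_one]
  rfl

theorem zpow_rho (i : ℤ) (w : Om) : (T ^ i) (rho w) = rho ((T ^ (-i)) w) := by
  induction i using Int.induction_on with
  | zero => simp
  | succ i ih =>
    rw [zpow_succ', ih, neg_add, ← sub_eq_add_neg, zpow_pred', T_inv, rho_rho]
  | pred i ih =>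
    rw [zpow_pred', ih, T_inv, rho_rho, neg_neg,
      show -(-(i : ℤ) - 1) = i + 1 by ring, zpow_succ']

def Lt (w w' : Om) : Prop :=
  (∃ n, w.1.1.1 n = false ∧ w'.1.1.1 n = true ∧ ∀ i, n < i → w.1.1.1 i = w'.1.1.1 i) ∨
    (w.1.1 = w'.1.1 ∧ w.1.2 < w'.1.2)

theorem Lt.trans {a b d : Om} (h1 : Lt a b) (h2 : Lt b d) : Lt a d := by
  rcases h1 with ⟨n, h1, h1', h1''⟩ | ⟨h1, h1'⟩ <;>
    rcases h2 with ⟨n', h2, h2', h2''⟩ | ⟨h2, h2'⟩
  · left
    rcases lt_trichotomy n n' with h | rfl | h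
    · exact ⟨n', (h1'' _ h).trans h2, h2', fun i hi => (h1'' i (h.trans hi)).trans (h2'' i hi)⟩
    · simp [h1'] at h2
    · exact ⟨n, h1, (h2'' _ h).symm.trans h1',
        fun i hi => (h1'' i hi).trans (h2'' i (h.trans hi))⟩
  · exact Or.inl ⟨n, h1, h2 ▸ h1', h2 ▸ h1''⟩
  · exact Or.inl ⟨n', h1 ▸ h2, h2', h1 ▸ h2''⟩
  · exact Or.inr ⟨h1.trans h2, h1'.trans h2'⟩

theorem Lt.irrefl (a : Om) : ¬ Lt a a := by
  rintro (⟨n, h1, h2, -⟩ | ⟨-, h⟩)
  · simp [h1] at h2
  · exact lt_irrefl _ h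

theorem lt_T (w : Om) : Lt w (T w) := by
  rw [T_apply]
  by_cases h : w.1.2 < 2 * c (mm w.1.1)
  · obtain ⟨h1, h2⟩ := step_lt h
    exact Or.inr ⟨h1.symm, by omega⟩
  · rw [step_eq h]
    exact Or.inl ⟨_, mm_f _, succ_eq _, fun i hi => (succ_gt _ hi).symm⟩

theorem lt_pow (w : Om) (n : ℕ) : Lt w ((T ^ ((n : ℤ) + 1)) w) := by
  induction n with
  | zero => simpa using lt_T w
  | succ n ih =>
    rw [zpow_succ']
    exact ih.trans (lt_T _)

def TE (x y : X) : Prop := ∃ n, ∀ i, n ≤ i → x.1 i = y.1 i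

theorem TE.refl (x : X) : TE x x := ⟨0, fun _ _ => rfl⟩

theorem TE.symm {x y : X} (h : TE x y) : TE y x := h.imp fun _ h i hi => (h i hi).symm

theorem TE.trans {x y z : X} (h : TE x y) (h' : TE y z) : TE x z := by
  obtain ⟨n, h⟩ := h
  obtain ⟨n', h'⟩ := h'
  exact ⟨max n n', fun i hi => (h i (le_of_max_le_left hi)).trans (h' i (le_of_max_le_right hi))⟩

theorem TE.not_neg {x : X} : ¬ TE x (neg x) := by
  rintro ⟨n, h⟩
  simpa using h n le_rfl

theorem TE.neg {x y : X} (h : TE x y) : TE (neg x) (neg y) :=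
  h.imp fun _ h i hi => by simp [h i hi]

theorem te_succ (x : X) : TE (succ x) x := ⟨mm x + 1, fun _ hi => succ_gt x hi⟩

theorem te_rho (w : Om) : TE (rho w).1.1 (neg w.1.1) := (te_succ _).neg

theorem Lt.te {a b : Om} (h : Lt a b) : TE a.1.1 b.1.1 := by
  rcases h with ⟨n, -, -, h⟩ | ⟨h, -⟩
  · exact ⟨n + 1, h⟩
  · exact h ▸ TE.refl _

theorem te_zpow (i : ℤ) (w : Om) : TE ((T ^ i) w).1.1 w.1.1 := by
  induction i using Int.induction_on with
  | zero => simpa using TE.refl _
  | succ i ih =>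
    rw [zpow_succ']
    exact (lt_T _).te.symm.trans ih
  | pred i ih =>
    have := (lt_T ((T ^ (-(i : ℤ) - 1)) w)).te
    rw [← zpow_succ', sub_add_cancel] at this
    exact this.trans ih

theorem zpow_inj {i j : ℤ} {w : Om} (h : (T ^ i) w = (T ^ j) w) : i = j := by
  wlog hij : i < j generalizing i j
  · rcases (not_lt.1 hij).eq_or_lt with h' | h'
    · exact h'.symm
    · exact (this h.symm h').symm
  obtain ⟨n, rfl⟩ : ∃ n : ℕ, j = (n : ℤ) + 1 + i := ⟨(j - i - 1).toNat, by omega⟩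
  have := lt_pow ((T ^ i) w) n
  rw [zpow_add, Equiv.Perm.mul_apply] at h
  rw [← h] at this
  exact (Lt.irrefl _ this).elim

def Conn (K : ℤ) (w w' : Om) : Prop := ∃ j : ℤ, |j| ≤ K ∧ (T ^ j) w = w'

theorem Conn.symm {K : ℤ} {w w' : Om} (h : Conn K w w') : Conn K w' w := by
  obtain ⟨j, h1, rfl⟩ := h
  exact ⟨-j, by simpa using h1, by simp⟩

theorem Conn.trans {K K' : ℤ} {a b d : Om} (h : Conn K a b) (h' : Conn K' b d) :
    Conn (K + K') a d := by
  obtain ⟨j, h1, rfl⟩ := h
  obtain ⟨j', h1', rfl⟩ := h'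
  refine ⟨j' + j, (abs_add_le _ _).trans (by omega), by rw [zpow_add]; rfl⟩

theorem Conn.mono {K K' : ℤ} {a b : Om} (h : Conn K a b) (h' : K ≤ K') : Conn K' a b :=
  h.imp fun _ h => ⟨h.1.trans h', h.2⟩

theorem conn_seg {w w' : Om} (h : w.1.1 = w'.1.1) {K : ℤ} (h1 : w.1.2 - w'.1.2 ≤ K)
    (h2 : w'.1.2 - w.1.2 ≤ K) : Conn K w w' := by
  wlog hs : w.1.2 ≤ w'.1.2 generalizing w w'
  · exact (this h.symm h2 h1 (by omega)).symm
  obtain ⟨n, hn⟩ : ∃ n : ℕ, w'.1.2 = w.1.2 + n := ⟨(w'.1.2 - w.1.2).toNat, by omega⟩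
  refine ⟨n, by rw [abs_le]; omega, ?_⟩
  clear h1 h2 hs
  induction n generalizing w' with
  | zero => exact Om.ext' h (by simpa using hn.symm)
  | succ n ih =>
    have h3 := w.2
    have h4 := w'.2
    rw [← h] at h4
    let v : Om := ⟨(w.1.1, w.1.2 + n), by simp only; omega⟩
    have h5 : v.1.2 < 2 * c (mm v.1.1) := by simp only [v]; omega
    obtain ⟨h6, h7⟩ := step_lt h5
    rw [Nat.cast_succ, zpow_succ', ih (w' := v) rfl rfl, T_apply]
    exact Om.ext' (h6.trans h) (by rw [h7, hn]; simp only [v]; omega)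

theorem conn_succ (w : Om) : Conn (2 * c (mm w.1.1) - w.1.2 + 1) w (start (succ w.1.1)) := by
  have h := w.2
  let v : Om := ⟨(w.1.1, 2 * c (mm w.1.1)), by simp only; omega⟩
  refine (conn_seg (w := w) (w' := v) rfl (by simp only [v]; omega) le_rfl).trans
    (K' := 1) ⟨1, by simp, ?_⟩
  rw [zpow_one, T_apply, step_eq (by simp [v])]

theorem conn_block (n : ℕ) : ∃ K : ℤ, ∀ x y : X, (∀ i, n ≤ i → x.1 i = y.1 i) →
    Conn K (start x) (start y) := by
  induction n with
  | zero =>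
    refine ⟨0, fun x y h => ⟨0, by simp, ?_⟩⟩
    rw [show x = y from Subtype.ext (funext fun i => h i (Nat.zero_le i))]
    simp
  | succ n ih =>
    obtain ⟨K, hK⟩ := ih
    have h0 : 0 ≤ K ∨ IsEmpty X := by
      rcases isEmpty_or_nonempty X with h | ⟨⟨x⟩⟩
      · exact Or.inr h
      · obtain ⟨j, hj, -⟩ := hK x x fun _ _ => rfl
        exact Or.inl ((abs_nonneg _).trans hj)
    have key : ∀ x y : X, (∀ i, n + 1 ≤ i → x.1 i = y.1 i) → x.1 n = false → y.1 n = true →
        Conn (K + (4 * c n + 1) + K) (start x) (start y) := by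
      intro x y h hx hy
      let z : X := ⟨fun i => if i < n then true else x.1 i,
        x.2.of_tail (n := n) fun i hi => if_neg (by omega)⟩
      have hz : mm z = n := mm_eq (by simp [z, hx]) fun i hi => if_pos hi
      refine ((hK x z fun i hi => (if_neg (by omega)).symm).trans
        ((conn_succ (start z)).mono (by simp only [start, hz]; omega))).trans
        (hK _ y fun i hi => ?_)
      rcases hi.eq_or_lt with rfl | hi
      · rw [hy]
        have := succ_eq z
        rwa [hz] at this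
      · exact (succ_gt z (by omega)).trans ((if_neg (by omega)).trans (h i hi))
    refine ⟨K + (4 * c n + 1) + K, fun x y h => ?_⟩
    have h1 : 0 ≤ K := h0.resolve_right fun h => h.elim x
    have h2 := c_pos n
    by_cases h3 : x.1 n = y.1 n
    · refine (hK x y fun i hi => ?_).mono (by omega)
      rcases hi.eq_or_lt with rfl | hi
      exacts [h3, h i hi]
    · cases hx : x.1 n <;> cases hy : y.1 n
      · exact absurd (hx.trans hy.symm) h3
      · exact key x y h hx hy
      · exact (key y x (fun i hi => (h i hi).symm) hy hx).symm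
      · exact absurd (hx.trans hy.symm) h3

end Pool.Agent.H39.Can
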