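import Mathlib
import Pool.Agent.H39.Can2

set_option autoImplicit false

namespace Pool.Agent.H39.Can

open Set Filter Topology MeasureTheory

def val (b : Bool) : ZMod 5 := if b then 2 else 0

theorem val_inj {a b : Bool} (h : val a = val b) : a = b := by
  revert a b
  decide

theorem val_ne (a : Bool) : val a ≠ 1 := by
  revert a
  decide

def gray (x : ℕ → Bool) (l : ℕ) : Bool := xor (x l) (x (l + 1))

theorem gray_up {x y : ℕ → Bool} {n : ℕ} (h : ∀ l, n ≤ l → gray x l = gray y l)
    (h0 : x n = y n) : ∀ i, n ≤ i → x i = y i := by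
  intro i hi
  induction i, hi using Nat.le_induction with
  | base => exact h0
  | succ i hi ih =>
    have := h i hi
    simp only [gray, ih] at this
    simpa using this

theorem gray_neg (x : X) (l : ℕ) : gray (neg x).1 l = gray x.1 l := by simp [gray]

theorem te_or {x y : X} {n : ℕ} (h : ∀ l, n ≤ l → gray x.1 l = gray y.1 l) :
    (∀ i, n ≤ i → x.1 i = y.1 i) ∨ TE x (neg y) := by
  by_cases h0 : x.1 n = y.1 n
  · exact Or.inl (gray_up h h0)
  · refine Or.inr ⟨n, gray_up (fun l hl => by rw [gray_neg, h l hl]) ?_⟩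
    rw [neg_apply]
    cases h1 : y.1 n <;> simpa [h1] using h0

theorem gray_tail {x y : X} {n : ℕ} (h : ∀ l, n ≤ l → gray x.1 l = gray y.1 l) (h' : TE x y) :
    ∀ i, n ≤ i → x.1 i = y.1 i :=
  (te_or h).resolve_right fun h'' => TE.not_neg (h'.symm.trans h'')

theorem gray_succ (x : X) {l : ℕ} (h : l ≠ mm x) : gray (succ x).1 l = gray x.1 l := by
  unfold gray
  rcases lt_or_gt_of_ne h with h | h
  · rw [succ_lt x h, mm_t x h]
    rcases (Nat.succ_le_of_lt h).eq_or_lt with h' | h'
    · rw [show l + 1 = mm x from h', succ_eq, mm_f]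
      rfl
    · rw [succ_lt x h', mm_t x h']
      rfl
  · rw [succ_gt x h, succ_gt x (by omega)]

noncomputable def conf (w : Om) (l : ℕ) : ZMod 5 :=
  if l = mm w.1.1 then (if w.1.2 = 0 then 1 else val (xor (w.1.1.1 (l + 1)) (decide (0 < w.1.2))))
  else val (gray w.1.1.1 l)

noncomputable def uu (w : Om) : ℤ := 2 * c (mm w.1.1) - max w.1.2 (-w.1.2)

noncomputable def h1 (w : Om) : ℤ := max (uu w - c (mm w.1.1)) 0

noncomputable def h2 (w : Om) : ℤ :=
  if mm w.1.1 = 0 then -1 - min (uu w) (c (mm w.1.1)) else min (uu w) (c (mm w.1.1))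

noncomputable def real (w : Om) : ℤ → ZMod 5 := Function.extend c (conf w) 0

noncomputable def th (w : Om) : G := G.mk (fun p => real w (p + h1 w)) (h1 w) (h2 w)

theorem real_c (w : Om) (l : ℕ) : real w (c l) = conf w l := c_inj.extend_apply _ _ l

theorem real_n (w : Om) {q : ℤ} (h : ¬ ∃ l, c l = q) : real w q = 0 :=
  Function.extend_apply' _ _ _ h

theorem conf_ne (w : Om) {l : ℕ} (h : l ≠ mm w.1.1) : conf w l = val (gray w.1.1.1 l) := if_neg h

theorem conf_rho (w : Om) : conf (rho w) = conf w := by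
  funext l
  unfold conf
  simp only [rho, mm_ns]
  by_cases h : l = mm w.1.1
  · rw [if_pos h, if_pos h, neg_apply, succ_gt _ (by omega)]
    rcases lt_trichotomy w.1.2 0 with h3 | h3 | h3
    · simp [h3, h3.ne, h3.not_gt]
    · simp [h3]
    · simp [h3, h3.ne', h3.not_gt]
  · rw [if_neg h, if_neg h, gray_neg, gray_succ _ h]

theorem uu_rho (w : Om) : uu (rho w) = uu w := by
  simp only [uu, rho, mm_ns]
  omega

theorem th_rho (w : Om) : th (rho w) = th w := by
  have e1 : h1 (rho w) = h1 w := by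
    simp only [h1, uu_rho]
    simp only [rho, mm_ns]
  have e2 : h2 (rho w) = h2 w := by
    simp only [h2, uu_rho]
    simp only [rho, mm_ns]
  simp only [th, real, conf_rho, e1, e2]

theorem th_k (w : Om) : (th w).k = h1 w := rfl
theorem th_l (w : Om) : (th w).l = h2 w := rfl

theorem real_mul {g : G} {w w' : Om} (h : th w' = g * th w) (q : ℤ) :
    real w' q = g.y (q - h1 w') + real w q := by
  have e1 : h1 w' = g.k + h1 w := congrArg G.k h
  have := congrFun (congrArg G.y h) (q - h1 w')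
  simp only [th, G.mk_y, G.mul_y, sub_add_cancel] at this
  rw [this]
  congr 2
  omega

def Near (R : ℤ) (w w' : Om) : Prop :=
  h1 w - h1 w' ≤ R ∧ h1 w' - h1 w ≤ R ∧ h2 w - h2 w' ≤ R ∧ h2 w' - h2 w ≤ R ∧
    ∀ l, conf w l ≠ conf w' l →
      c l - h1 w ≤ R ∧ h1 w - c l ≤ R ∧ c l - h1 w' ≤ R ∧ h1 w' - c l ≤ R

theorem Near.symm {R : ℤ} {w w' : Om} (h : Near R w w') : Near R w' w :=
  ⟨h.2.1, h.1, h.2.2.2.1, h.2.2.1, fun l hl => by have := h.2.2.2.2 l hl.symm; omega⟩

theorem near_of_mul {g : G} {w w' : Om} (h : th w' = g * th w) {R : ℤ} (hk : |g.k| ≤ R)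
    (hl : |g.l| ≤ R) (hy : ∀ p, g.y p ≠ 0 → |p| ≤ R) : Near (2 * R) w w' := by
  have e1 : h1 w' = g.k + h1 w := congrArg G.k h
  have e2 : h2 w' = g.l + h2 w := congrArg G.l h
  rw [abs_le] at hk hl
  refine ⟨by omega, by omega, by omega, by omega, fun l hl => ?_⟩
  have h3 := real_mul h (c l)
  rw [real_c, real_c] at h3
  have h4 := abs_le.1 (hy (c l - h1 w') fun h5 => hl (by rw [h3, h5, zero_add]))
  omega

theorem conf_low (w : Om) {l : ℕ} (h : l + 1 < mm w.1.1) : conf w l = 0 := by
  rw [conf_ne w (by omega), gray, mm_t _ h, mm_t _ (by omega)]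
  rfl

theorem conf_top (w : Om) {l : ℕ} (h : l + 1 = mm w.1.1) : conf w l = 2 := by
  rw [conf_ne w (by omega), gray, h, mm_f, mm_t _ (by omega)]
  rfl

theorem same_x {w w' : Om} (h : mm w.1.1 = mm w'.1.1) (ht : TE w.1.1 w'.1.1)
    (hc : ∀ l, mm w.1.1 < l → conf w l = conf w' l) : w.1.1 = w'.1.1 := by
  have h3 := gray_tail (n := mm w.1.1 + 1) (fun l hl => val_inj (by
    rw [← conf_ne w (by omega), ← conf_ne w' (by omega), hc l hl])) ht
  refine Subtype.ext (funext fun i => ?_)
  rcases lt_trichotomy i (mm w.1.1) with hi | rfl | hi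
  · rw [mm_t _ hi, mm_t _ (h ▸ hi)]
  · rw [mm_f, h, mm_f]
  · exact h3 i hi

theorem sign_eq {w w' : Om} (h : w.1.1 = w'.1.1) (hc : conf w (mm w.1.1) = conf w' (mm w.1.1)) :
    (w.1.2 = 0 ↔ w'.1.2 = 0) ∧ (0 < w.1.2 ↔ 0 < w'.1.2) := by
  unfold conf at hc
  rw [← h, if_pos rfl, if_pos rfl] at hc
  split_ifs at hc with h3 h4 h4
  · omega
  · exact absurd hc.symm (val_ne _)
  · exact absurd hc (val_ne _)
  · have := val_inj hc
    simp only [Bool.xor_right_inj, decide_eq_decide] at this
    omega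

theorem th_inj {w w' : Om} (h : th w = th w') (ht : TE w.1.1 w'.1.1) : w = w' := by
  have e1 : h1 w = h1 w' := congrArg G.k h
  have e2 : h2 w = h2 w' := congrArg G.l h
  have e3 : ∀ l, conf w l = conf w' l := fun l => by
    have := real_mul (g := 1) (w := w') (w' := w) (by rw [h, one_mul]) (c l)
    simpa [real_c] using this
  have e4 : ∀ w w' : Om, h2 w = h2 w' → (∀ l, conf w l = conf w' l) → ¬ mm w.1.1 < mm w'.1.1 := by
    intro w w' e2 e3 hm
    have := w.2
    have := w'.2
    rcases Nat.eq_zero_or_pos (mm w.1.1) with h0 | h0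
    · have := c_pos (mm w.1.1)
      have := c_pos (mm w'.1.1)
      simp only [h2, uu] at e2
      rw [if_pos h0, if_neg (by omega)] at e2
      omega
    · have := e3 (mm w.1.1 - 1)
      rw [conf_top w (by omega), conf_low w' (by omega)] at this
      exact absurd this (by decide)
  have e5 : mm w.1.1 = mm w'.1.1 := by
    have := e4 w w' e2 e3
    have := e4 w' w e2.symm fun l => (e3 l).symm
    omega
  have e6 := same_x e5 ht fun l _ => e3 l
  have e7 := sign_eq e6 (e3 _)
  refine Om.ext' e6 ?_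
  simp only [h1, h2, uu, ← e5] at e1 e2
  split_ifs at e2 <;> omega

theorem exists_hat (w : Om) {U : ℤ} (h : uu w ≤ U) : ∃ x : X, TE x w.1.1 ∧
    Conn (U + 1) w (start x) ∧ ∀ l : ℕ, U ≤ l → conf w l = val (gray x.1 l) := by
  have hw := w.2
  have hc := c_pos (mm w.1.1)
  unfold uu at h
  by_cases hs : 0 < w.1.2
  · refine ⟨succ w.1.1, te_succ _, (conn_succ w).mono (by omega), fun l _ => ?_⟩
    by_cases hl : l = mm w.1.1
    · subst hl
      simp [conf, hs, hs.ne', gray, succ_eq, succ_gt]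
    · rw [conf_ne w hl, gray_succ _ hl]
  · refine ⟨w.1.1, TE.refl _, conn_seg (w := w) (w' := start w.1.1) (K := U + 1) rfl
      (by simp only [start]; omega)
      (by simp only [start]; omega), fun l hl' => ?_⟩
    by_cases hl : l = mm w.1.1
    · subst hl
      have : w.1.2 ≠ 0 := by omega
      simp [conf, hs, this, gray, mm_f]
    · rw [conf_ne w hl]

theorem conn_small (U : ℕ) : ∃ K : ℤ, ∀ w w' : Om, uu w ≤ U → uu w' ≤ U → TE w.1.1 w'.1.1 →
    (∀ l, U ≤ l → conf w l = conf w' l) → Conn K w w' := by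
  obtain ⟨K, hK⟩ := conn_block U
  refine ⟨U + 1 + K + (U + 1), fun w w' hw hw' ht hc => ?_⟩
  obtain ⟨x, x1, x2, x3⟩ := exists_hat w hw
  obtain ⟨y, y1, y2, y3⟩ := exists_hat w' hw'
  refine (x2.trans (hK x y (gray_tail (fun l hl => val_inj ?_)
    (x1.trans (ht.trans y1.symm))))).trans y2.symm
  rw [← x3 l (by exact_mod_cast hl), ← y3 l (by exact_mod_cast hl), hc l hl]

theorem proper (R : ℕ) : ∃ K : ℤ, ∀ w w' : Om, Near R w w' → TE w.1.1 w'.1.1 → Conn K w w' := by
  obtain ⟨U, hU⟩ : ∃ U : ℕ, (U : ℤ) = 2 * c (2 * R) + 2 * R :=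
    ⟨(2 * c (2 * R) + 2 * R).toNat, by have := c_pos (2 * R); omega⟩
  obtain ⟨K, hK⟩ := conn_small U
  have hR := c_pos (2 * R)
  refine ⟨max K (4 * R), fun w w' hn ht => ?_⟩
  wlog hm : mm w.1.1 ≤ mm w'.1.1 generalizing w w'
  · exact (this w' w hn.symm ht.symm (by omega)).symm
  have hw := w.2
  have hw' := w'.2
  have hc := c_pos (mm w.1.1)
  have hc' := c_pos (mm w'.1.1)
  obtain ⟨n1, n2, n3, n4, n5⟩ := hn
  by_cases hs : mm w'.1.1 ≤ R
  · have := c_mono (show mm w'.1.1 ≤ 2 * R by omega)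
    have := c_mono hm
    refine (hK w w' (by unfold uu; omega) (by unfold uu; omega) ht fun l hl => ?_).mono
      (le_max_left _ _)
    by_contra h
    have := n5 l h
    have := c_pos l
    simp only [h1, uu] at *
    omega
  rcases hm.eq_or_lt with hm | hm
  · have e6 := same_x hm ht fun l hl => by
      by_contra h
      have := n5 l h
      have := c_gap hl
      simp only [h1, uu] at *
      omega
    refine (conn_seg e6 (K := 4 * R) ?_ ?_).mono (le_max_right _ _) <;>
    · simp only [h1, h2, uu, ← hm] at n1 n2 n3 n4 n5 hw'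
      rw [if_neg (by omega), if_neg (by omega)] at n3 n4
      by_cases h : conf w (mm w.1.1) = conf w' (mm w.1.1)
      · have := sign_eq e6 h
        omega
      · have := n5 _ h
        omega
  · have hg := c_gap hm
    have h3 : h2 w ≤ c (mm w.1.1) := by
      simp only [h2, uu]
      split_ifs <;> omega
    have h4 : h2 w' = uu w' ∧ h1 w' = 0 := by
      have h5 : h2 w' = min (uu w') (c (mm w'.1.1)) := if_neg (by omega)
      simp only [h1]
      omega
    have h5 : mm w.1.1 ≤ 2 * R := by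
      by_contra h
      have := n5 (mm w.1.1 - 1) (by
        rw [conf_top w (by omega), conf_low w' (by omega)]
        decide)
      have := c_pos (mm w.1.1 - 1)
      omega
    have := c_mono h5
    refine (hK w w' (by unfold uu; omega) (by omega) ht fun l hl => ?_).mono (le_max_left _ _)
    by_contra h
    have := n5 l h
    have := c_pos l
    omega

theorem near_te {R : ℤ} {w w' : Om} (h : Near R w w') :
    TE w.1.1 w'.1.1 ∨ TE w.1.1 (rho w').1.1 := by
  have := te_or (x := w.1.1) (y := w'.1.1)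
    (n := max (max (mm w.1.1) (mm w'.1.1) + 1) (h1 w + R).toNat) fun l hl => val_inj (by
      rw [← conf_ne w (by omega), ← conf_ne w' (by omega)]
      by_contra h'
      have := h.2.2.2.2 l h'
      have := c_pos l
      omega)
  exact this.imp (fun h => ⟨_, h⟩) fun h => h.trans (te_rho w').symm

theorem proper' (R : ℕ) : ∃ K : ℕ, ∀ w w' : Om, Near R w w' →
    ∃ j : ℤ, |j| ≤ K ∧ th ((T ^ j) w) = th w' := by
  obtain ⟨K, hK⟩ := proper R
  refine ⟨K.toNat, fun w w' h => ?_⟩
  rcases near_te h with h' | h'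
  · obtain ⟨j, hj, rfl⟩ := hK w w' h h'
    exact ⟨j, by omega, rfl⟩
  · have e1 : h1 (rho w') = h1 w' := congrArg G.k (th_rho w')
    have e2 : h2 (rho w') = h2 w' := congrArg G.l (th_rho w')
    obtain ⟨j, hj, hj'⟩ := hK w (rho w') (by simpa only [Near, e1, e2, conf_rho] using h) h'
    exact ⟨j, by omega, by rw [hj', th_rho]⟩

theorem th_two {w w' : Om} (h : th w = th w') : w' = w ∨ w' = rho w := by
  have := near_of_mul (g := 1) (w := w') (w' := w) (R := 0) (by rw [h, one_mul]) (by simp)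
    (by simp) (by simp)
  rcases near_te this with h' | h'
  · exact Or.inl (th_inj h.symm h')
  · exact Or.inr (th_inj (by rw [th_rho, h]) h')

theorem th_line {i j : ℤ} {w : Om} (h : th ((T ^ i) w) = th ((T ^ j) w)) : i = j :=
  zpow_inj (th_inj h ((te_zpow i w).trans (te_zpow j w).symm))

theorem near_T (w : Om) : Near 1 w (T w) ∧
    (h1 (T w) + h2 (T w) = h1 w + h2 w + 1 ∨ h1 (T w) + h2 (T w) = h1 w + h2 w - 1) := by
  have hw := w.2
  have hc := c_pos (mm w.1.1)
  rw [T_apply]
  by_cases h : w.1.2 < 2 * c (mm w.1.1)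
  · obtain ⟨e1, e2⟩ := step_lt h
    have e3 : ∀ l, conf w l ≠ conf (step w) l → l = mm w.1.1 ∧ -1 ≤ w.1.2 ∧ w.1.2 ≤ 0 := by
      intro l hl
      by_contra h'
      refine hl ?_
      unfold conf
      rw [e1, e2]
      split_ifs with h3 h4 h5 h5
      · rfl
      · omega
      · omega
      · rw [show decide (0 < w.1.2) = decide (0 < w.1.2 + 1) from
          decide_eq_decide.2 (by omega)]
      · rfl
    simp only [Near, h1, h2, uu, e1, e2]
    refine ⟨⟨by omega, by omega, by split_ifs <;> omega, by split_ifs <;> omega, fun l hl => ?_⟩,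
      by split_ifs <;> omega⟩
    obtain ⟨rfl, h3⟩ := e3 l hl
    omega
  · rw [step_eq h]
    have hc' := c_pos (mm (succ w.1.1))
    have hm := mm_succ w.1.1
    have e3 : ∀ l, conf w l = conf (start (succ w.1.1)) l := by
      intro l
      have e4 : conf w l = val (gray (succ w.1.1).1 l) := by
        by_cases hl : l = mm w.1.1
        · subst hl
          have hs : 0 < w.1.2 := by omega
          simp [conf, hs, hs.ne', gray, succ_eq, succ_gt]
        · rw [conf_ne w hl, gray_succ _ hl]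
      rw [e4]
      by_cases hl : l = mm (succ w.1.1)
      · subst hl
        have h3 : ¬ 2 * c (mm (succ w.1.1)) < 0 := by omega
        have h4 : c (mm (succ w.1.1)) ≠ 0 := by omega
        simp [conf, start, gray, mm_f, h3, h4]
      · rw [conf_ne _ hl]
        rfl
    simp only [Near, h1, h2, uu, start]
    refine ⟨⟨by omega, by omega, by split_ifs <;> omega, by split_ifs <;> omega,
      fun l hl => (hl (e3 l)).elim⟩, by split_ifs <;> omega⟩

theorem cocycle_mem (w : Om) :
    th (T w) * (th w)⁻¹ ∈ {g : G | |g.k| ≤ 1 ∧ |g.l| ≤ 1 ∧ ∀ p, 1 < |p| → g.y p = 0} := by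
  obtain ⟨⟨n1, n2, n3, n4, n5⟩, -⟩ := near_T w
  refine ⟨?_, ?_, fun p hp => ?_⟩
  · simp only [G.mul_k, G.inv_k, th_k, abs_le]
    omega
  · simp only [G.mul_l, G.inv_l, th_l, abs_le]
    omega
  · have := real_mul (g := th (T w) * (th w)⁻¹) (w := w) (w' := T w) (by simp) (p + h1 (T w))
    rw [add_sub_cancel_right] at this
    have h3 : real (T w) (p + h1 (T w)) = real w (p + h1 (T w)) := by
      by_cases h : ∃ l, c l = p + h1 (T w)
      · obtain ⟨l, hl⟩ := h
        rw [← hl, real_c, real_c]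
        by_contra h
        have := n5 l (Ne.symm h)
        rw [lt_abs] at hp
        omega
      · rw [real_n _ h, real_n _ h]
    rw [h3] at this
    simpa using this

end Pool.Agent.H39.Can
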