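import Mathlib
import Pool.Agent.H39.Can3
import Pool.Agent.H39.BaireLoc

set_option autoImplicit false

namespace Pool.Agent.H39.Can

open Set Filter Topology MeasureTheory Pool.Agent.H39.BaireLoc

theorem measurableSet_NE : MeasurableSet {x : ℕ → Bool | NE x} := by
  unfold NE
  measurability

instance : StandardBorelSpace X := measurableSet_NE.standardBorel

theorem meas_ev (i : ℕ) : Measurable fun x : X => x.1 i :=
  (measurable_pi_apply i).comp measurable_subtype_coe

theorem measurable_mm : Measurable mm :=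
  measurable_find _ fun k => meas_ev k (measurableSet_singleton false)

theorem meas_mm {β : Type} [MeasurableSpace β] (f : ℕ → β) : Measurable fun x => f (mm x) :=
  Measurable.of_discrete.comp measurable_mm

theorem meas_x : Measurable fun w : Om => w.1.1 := measurable_fst.comp measurable_subtype_coe

theorem meas_s : Measurable fun w : Om => w.1.2 := measurable_snd.comp measurable_subtype_coe

theorem meas_ms {β : Type} [MeasurableSpace β] (f : ℕ × ℤ → β) :
    Measurable fun w : Om => f (mm w.1.1, w.1.2) :=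
  Measurable.of_discrete.comp ((measurable_mm.comp meas_x).prodMk meas_s)

instance : StandardBorelSpace Om := by
  refine MeasurableSet.standardBorel
    (s := {w : X × ℤ | -(2 * c (mm w.1)) ≤ w.2 ∧ w.2 ≤ 2 * c (mm w.1)}) ?_
  exact ((measurable_mm.comp measurable_fst).prodMk measurable_snd)
    (MeasurableSet.of_discrete (s := {q : ℕ × ℤ | -(2 * c q.1) ≤ q.2 ∧ q.2 ≤ 2 * c q.1}))

theorem measurable_neg' : Measurable neg :=
  Measurable.subtype_mk (measurable_pi_lambda _ fun i =>
    (Measurable.of_discrete (f := fun b : Bool => !b)).comp (meas_ev i))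

theorem measurable_succ : Measurable succ :=
  Measurable.subtype_mk (measurable_pi_lambda _ fun i => (Measurable.of_discrete
    (f := fun q : ℕ × Bool => if i < q.1 then false else if i = q.1 then true else q.2)).comp
    (measurable_mm.prodMk (meas_ev i)))

theorem measurable_start : Measurable start :=
  Measurable.subtype_mk (measurable_id.prodMk (meas_mm fun m => -(2 * c m)))

theorem measurable_rho : Measurable rho :=
  Measurable.subtype_mk ((measurable_neg'.comp (measurable_succ.comp meas_x)).prodMk meas_s.neg)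

theorem measurable_T : Measurable T := by
  have : (fun w => (step w).1) = fun w : Om => if w.1.2 < 2 * c (mm w.1.1) then (w.1.1, w.1.2 + 1)
      else (start (succ w.1.1)).1 := by
    funext w
    unfold step
    split_ifs <;> rfl
  refine Measurable.subtype_mk (f := fun w => (step w).1) (h := fun w => (step w).2) ?_
  rw [this]
  refine Measurable.ite ?_ (meas_x.prodMk (meas_s.add_const 1))
    (measurable_subtype_coe.comp (measurable_start.comp (measurable_succ.comp meas_x)))
  exact meas_ms (fun q => q) (MeasurableSet.of_discrete (s := {q : ℕ × ℤ | q.2 < 2 * c q.1}))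

theorem measurable_zpow (i : ℤ) : Measurable (T ^ i : Equiv.Perm Om) := by
  induction i using Int.induction_on with
  | zero => exact measurable_id
  | succ i ih =>
    rw [funext (zpow_succ' i)]
    exact measurable_T.comp ih
  | pred i ih =>
    rw [funext (zpow_pred' (-i))]
    exact measurable_rho.comp (measurable_T.comp (measurable_rho.comp ih))

theorem measurable_h1 : Measurable h1 :=
  meas_ms fun q => max (2 * c q.1 - max q.2 (-q.2) - c q.1) 0

theorem measurable_h2 : Measurable h2 :=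
  meas_ms fun q => if q.1 = 0 then -1 - min (2 * c q.1 - max q.2 (-q.2)) (c q.1)
    else min (2 * c q.1 - max q.2 (-q.2)) (c q.1)

theorem measurable_conf (l : ℕ) : Measurable fun w => conf w l :=
  (Measurable.of_discrete (f := fun q : (ℕ × ℤ) × Bool × Bool =>
    if l = q.1.1 then (if q.1.2 = 0 then 1 else val (xor q.2.2 (decide (0 < q.1.2))))
    else val (xor q.2.1 q.2.2))).comp
    ((meas_ms fun q => q).prodMk (((meas_ev l).comp meas_x).prodMk ((meas_ev (l + 1)).comp meas_x)))

theorem measurable_th : Measurable th := by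
  refine G.measurable_mk (fun p => ?_) measurable_h1 measurable_h2
  refine cont_ev.measurable.comp (f := fun w => (real w, p + h1 w))
    ((measurable_pi_lambda _ fun q => ?_).prodMk (measurable_h1.const_add p))
  by_cases h : ∃ l, c l = q
  · obtain ⟨l, rfl⟩ := h
    simpa only [real_c] using measurable_conf l
  · simpa only [real_n _ h] using measurable_const

noncomputable def lev (w : Om) : ℕ := if w.1.1.1 (mm w.1.1 + 1) then 1 else 0

theorem measurable_lev : Measurable lev := by
  have : Measurable fun q : X × ℕ => q.1.1 (q.2 + 1) :=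
    measurable_from_prod_countable_left fun m => meas_ev (m + 1)
  exact (Measurable.of_discrete (f := fun b : Bool => if b then 1 else 0)).comp
    (this.comp (meas_x.prodMk (measurable_mm.comp meas_x)))

theorem lev_rho (w : Om) : lev (rho w) + lev w = 1 := by
  simp only [lev, rho, mm_ns, neg_apply]
  rw [succ_gt _ (Nat.lt_succ_self _)]
  cases w.1.1.1 (mm w.1.1 + 1) <;> simp

def Ev (g : G) : Prop := Even (g.k + g.l)

theorem ev_T (w : Om) : Ev (th (T w)) ↔ ¬ Ev (th w) := by
  have := (near_T w).2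
  simp only [Ev, th_k, th_l, Int.even_iff]
  omega

theorem measurableSet_ev : MeasurableSet {w | Ev (th w)} :=
  (measurable_h1.add measurable_h2) (MeasurableSet.of_discrete (s := {n : ℤ | Even n}))

theorem psi_inj : Function.Injective fun w => (th w, lev w) := by
  intro w w' h
  simp only [Prod.mk.injEq] at h
  rcases th_two h.1 with h' | rfl
  · exact h'.symm
  · have := lev_rho w
    omega

theorem psi_image {p : G → Prop} :
    (fun w => (th w, lev w)) '' {w | p (th w)} = (th '' {w | p (th w)}) ×ˢ Iio 2 := by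
  ext ⟨g, n⟩
  constructor
  · rintro ⟨w, hw, h⟩
    simp only [Prod.mk.injEq] at h
    have := lev_rho w
    exact ⟨⟨w, hw, h.1⟩, show n < 2 by omega⟩
  · rintro ⟨⟨w, hw, h⟩, hn⟩
    have h3 : n < 2 := hn
    have := lev_rho w
    by_cases h4 : lev w = n
    · exact ⟨w, hw, Prod.ext h h4⟩
    · exact ⟨rho w, by simpa only [mem_ofPred_eq, th_rho] using hw,
        Prod.ext ((th_rho w).trans h) (show lev (rho w) = n by omega)⟩

theorem two_copies :
    ∃ (k : ℕ) (P : Fin k → Set (G × ℕ)) (g : Fin k → G) (σ : Fin k → Equiv.Perm ℕ),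
      (∀ i, MeasurableSet (P i)) ∧
      Pairwise (fun i j => Disjoint (P i) (P j)) ∧
      (⋃ i, P i) = (th '' {w | Ev (th w)}) ×ˢ Iio 2 ∧
      Pairwise (fun i j =>
        Disjoint ((fun p : G × ℕ => (g i * p.1, σ i p.2)) '' P i)
                 ((fun p : G × ℕ => (g j * p.1, σ j p.2)) '' P j)) ∧
      (⋃ i, (fun p : G × ℕ => (g i * p.1, σ i p.2)) '' P i) =
        (th '' {w | ¬ Ev (th w)}) ×ˢ Iio 2 := by
  classical
  let F := {g : G | |g.k| ≤ 1 ∧ |g.l| ≤ 1 ∧ ∀ p, 1 < |p| → g.y p = 0}
  have : Fintype F := finite_ball.fintype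
  have hl : ∀ w, lev w < 2 := fun w => by have := lev_rho w; omega
  have := equidec (I := F × Fin 2 × Fin 2) measurableSet_ev (Ψ := fun w => (th w, lev w))
    (Ψ' := fun w => (th (T w), lev (T w))) (measurable_th.prodMk measurable_lev) psi_inj.injOn
    (psi_inj.comp T.injective).injOn
    (fun w => (⟨_, cocycle_mem w⟩, ⟨lev w, hl w⟩, ⟨lev (T w), hl _⟩)) (fun i => ?_)
    (fun i => i.1.1) (fun i => Equiv.swap i.2.1.1 i.2.2.1) (fun w _ => by simp)
  · rw [psi_image] at this
    rw [← psi_image (p := fun g => ¬ Ev g)]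
    have e : {w | ¬ Ev (th w)} = T '' {w | Ev (th w)} := by
      ext w
      constructor
      · intro hw
        refine ⟨T⁻¹ w, ?_, by simp⟩
        by_contra h
        exact hw (by simpa using (ev_T (T⁻¹ w)).2 h)
      · rintro ⟨w, hw, rfl⟩ h
        exact (ev_T w).1 h hw
    rw [e, image_image]
    exact this
  · have : (fun w => ((⟨_, cocycle_mem w⟩, ⟨lev w, hl w⟩, ⟨lev (T w), hl _⟩) : F × Fin 2 × Fin 2))
        ⁻¹' {i} = (fun w => (th (T w) * (th w)⁻¹, lev w, lev (T w))) ⁻¹'
          {(i.1.1, i.2.1.1, i.2.2.1)} := by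
      ext w
      simp [Prod.ext_iff, Subtype.ext_iff, Fin.ext_iff]
    rw [this]
    exact (((measurable_th.comp measurable_T).mul measurable_th.inv).prodMk
      (measurable_lev.prodMk (measurable_lev.comp measurable_T))) (measurableSet_singleton _)

def Gen (y : ℤ → ZMod 5) (x : ℕ → Bool) : Prop :=
  ∀ (h : ℤ) (n : ℕ), ∃ q, y (q - h) ≠ 0 ∧ ∀ l, c l = q →
    n ≤ l ∧ ∀ a ∈ ({0, 1, 2} : Finset (ZMod 5)), y (q - h) + val (gray x l) ≠ a

theorem Gen.congr {y : ℤ → ZMod 5} {x x' : ℕ → Bool} (h : Gen y x) {n : ℕ}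
    (hn : ∀ l, n ≤ l → gray x l = gray x' l) : Gen y x' := by
  intro k m
  obtain ⟨q, h3, h4⟩ := h k (max m n)
  refine ⟨q, h3, fun l hl => ⟨le_of_max_le_left (h4 l hl).1, ?_⟩⟩
  rw [← hn l (le_of_max_le_right (h4 l hl).1)]
  exact (h4 l hl).2

theorem Gen.te {y : ℤ → ZMod 5} {x x' : X} (h : Gen y x.1) (ht : TE x' x) : Gen y x'.1 := by
  obtain ⟨n, hn⟩ := ht
  exact h.congr (n := n) fun l hl => by simp only [gray, hn l hl, hn (l + 1) (by omega)]

theorem Gen.kill {g : G} {w w' : Om} (h : Gen g.y w.1.1.1) : th w' ≠ g * th w := by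
  intro h3
  obtain ⟨q, h4, h5⟩ := h (h1 w') (mm w.1.1 + 1)
  have h6 := real_mul h3 q
  by_cases hq : ∃ l, c l = q
  · obtain ⟨l, hl⟩ := hq
    obtain ⟨h7, h8⟩ := h5 l hl
    rw [← hl, real_c, real_c, conf_ne w (by omega), hl] at h6
    refine h8 (conf w' l) ?_ h6.symm
    have : ∀ b, val b ∈ ({0, 1, 2} : Finset (ZMod 5)) := by decide
    unfold conf
    split_ifs
    · decide
    · exact this _
    · exact this _
  · rw [real_n _ hq, real_n _ hq, add_zero] at h6
    exact h4 h6.symm

theorem residual_gen {y : ℤ → ZMod 5} (hy : {p | y p ≠ 0}.Infinite) :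
    ∀ᶠ x in residual (ℕ → Bool), Gen y x := by
  refine eventually_countable_forall.2 fun h => eventually_countable_forall.2 fun n => ?_
  let O : Set (ℕ → Bool) := {x | ∃ q, y (q - h) ≠ 0 ∧ ∀ l, c l = q →
    n ≤ l ∧ ∀ a ∈ ({0, 1, 2} : Finset (ZMod 5)), y (q - h) + val (gray x l) ≠ a}
  refine residual_of_dense_open (s := O) (isOpen_iff_mem_nhds.2 ?_) (dense_of_cyl fun p0 N => ?_)
  · rintro x ⟨q, h3, h4⟩
    filter_upwards [(isOpen_cyl x (q.toNat + 2)).mem_nhds fun _ _ => rfl] with z hz
    refine ⟨q, h3, fun l hl => ?_⟩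
    have := c_pos l
    simp only [gray, hz l (by omega), hz (l + 1) (by omega)]
    exact h4 l hl
  · obtain ⟨p, hp, hp'⟩ := hy.exists_notMem_finset (Finset.Icc (-h) (c (max n N) - h))
    by_cases hq : ∃ l, c l = p + h
    · obtain ⟨l, hl⟩ := hq
      have h3 : max n N ≤ l := by
        by_contra h3
        have := c_mono (not_le.1 h3).le
        have := c_pos l
        exact hp' (Finset.mem_Icc.2 (by omega))
      have : ∀ a : ZMod 5, a ≠ 0 → ∀ b : Bool, ∃ b', ∀ a' ∈ ({0, 1, 2} : Finset (ZMod 5)),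
        a + val (xor b b') ≠ a' := by decide
      obtain ⟨b, hb⟩ := this _ hp (p0 l)
      refine ⟨Function.update p0 (l + 1) b, ⟨p + h, by simpa using hp, fun l' hl' => ?_⟩,
        fun i hi => Function.update_of_ne (by omega) _ _⟩
      obtain rfl := c_inj (hl.trans hl'.symm)
      refine ⟨by omega, ?_⟩
      simpa [gray] using hb
    · exact ⟨p0, ⟨p + h, by simpa using hp, fun l hl => (hq ⟨l, hl⟩).elim⟩, fun _ _ => rfl⟩

theorem residual_NE : ∀ᶠ x in residual (ℕ → Bool), NE x := by
  refine eventually_countable_forall.2 fun n => eventually_countable_forall.2 fun b => ?_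
  refine residual_of_dense_open (s := {x | ∃ i, n ≤ i ∧ x i = b}) (isOpen_iff_mem_nhds.2 ?_)
    (dense_of_cyl fun p0 N => ?_)
  · rintro x ⟨i, h3, h4⟩
    filter_upwards [(isOpen_cyl x (i + 1)).mem_nhds fun _ _ => rfl] with z hz
    exact ⟨i, h3, (hz i (by omega)).trans h4⟩
  · exact ⟨Function.update p0 (max n N) b, ⟨max n N, le_max_left _ _, by simp⟩,
      fun i hi => Function.update_of_ne (by omega) _ _⟩

theorem no_orient {d : Om → ℤ} (hd : Measurable d) {good : (ℕ → Bool) → Prop}
    (hg : ∀ᶠ x in residual (ℕ → Bool), good x) (hg' : ∀ x x' : X, good x.1 → TE x' x → good x'.1)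
    (hT : ∀ w, good w.1.1.1 → d (T w) = d w) (hr : ∀ w, good w.1.1.1 → d (rho w) = - d w)
    (h0 : ∀ w, d w ≠ 0) : False := by
  have e1 : ∀ K w w', Conn K w w' → good w.1.1.1 → d w' = d w := by
    rintro K w _ ⟨j, -, rfl⟩ hw
    induction j using Int.induction_on with
    | zero => simp
    | succ i ih => rw [zpow_succ', hT _ (hg' _ _ hw (te_zpow _ _)), ih]
    | pred i ih => rw [← hT _ (hg' _ _ hw (te_zpow _ _)), ← zpow_succ', sub_add_cancel, ih]
  have e2 : ∀ x : X, good x.1 → good (neg x).1 → d (start (neg x)) = - d (start x) := by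
    intro x hx hx'
    have := e1 _ _ _ (conn_succ (rho (start x))) (hg' _ _ hx' (te_rho _))
    rw [hr _ hx] at this
    rw [← this]
    simp only [rho, start, succ_ns]
  have e3 : ∀ x y : X, good x.1 → TE x y → d (start y) = d (start x) := by
    rintro x y hx ⟨n, hn⟩
    obtain ⟨K, hK⟩ := conn_block n
    exact e1 _ _ _ (hK x y hn) hx
  let S : Set (ℕ → Bool) := Subtype.val '' {x : X | 0 < d (start x)}
  have hS : MeasurableSet S := measurableSet_NE.subtype_image
    ((hd.comp measurable_start) (MeasurableSet.of_discrete (s := {n : ℤ | 0 < n})))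
  have key : ∀ P : Set (ℕ → Bool), P ∈ residual (ℕ → Bool) →
      ∃ x : X, x.1 ∈ P ∧ (neg x).1 ∈ P ∧ d (start (neg x)) = - d (start x) := by
    intro P hP
    have h3 := inter_mem hP hg
    obtain ⟨x, ⟨h4, h5⟩, h6⟩ := (dense_of_mem_residual (inter_mem (inter_mem h3
      (residual_invol (φ := fun b => !b) (by simp) h3)) residual_NE)).nonempty
    exact ⟨⟨x, h6⟩, h4.1, h5.1, e2 ⟨x, h6⟩ h4.2 h5.2⟩
  by_cases hm : IsMeagre S
  · obtain ⟨x, h3, h4, h5⟩ := key _ hm
    have h6 : ¬ 0 < d (start x) := fun h => h3 ⟨x, h, rfl⟩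
    have h7 : ¬ 0 < d (start (neg x)) := fun h => h4 ⟨neg x, h, rfl⟩
    have := h0 (start x)
    omega
  · obtain ⟨p0, n0, h⟩ := localize hS.baireMeasurableSet hm
    have h8 : ∀ x : X, x.1 ∈ {p | ovw p0 n0 p ∈ S} ∩ {x | good x} → 0 < d (start x) := by
      rintro x ⟨⟨y, hy, hy'⟩, hx⟩
      rw [← e3 x y hx ⟨n0, fun i hi => by rw [hy']; exact (if_neg (by omega)).symm⟩]
      exact hy
    obtain ⟨x, h3, h4, h5⟩ := key _ (inter_mem (h n0 le_rfl) hg)
    have := h8 x h3
    have := h8 _ h4
    omega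

theorem no_match {M : G → G → Prop} (hM : MeasurableSet {q : G × G | M q.1 q.2})
    (hs : ∀ p q, M p q → M q p) (hu : ∀ p q q', M p q → M p q' → q = q')
    (hex : ∀ w, ∃ w', M (th w) (th w')) (hp : ∀ p q, M p q → (Ev q ↔ ¬ Ev p))
    {Γ : Set G} (hΓ : Γ.Finite) (hg : ∀ p q, M p q → ∃ g ∈ Γ, q = g * p) : False := by
  classical
  obtain ⟨R, hR⟩ : ∃ R : ℕ, ∀ g ∈ Γ, {p | g.y p ≠ 0}.Finite →
      |g.k| ≤ R ∧ |g.l| ≤ R ∧ ∀ p, g.y p ≠ 0 → |p| ≤ R := by
    have : ∀ᶠ R : ℕ in atTop, ∀ g ∈ Γ, {p | g.y p ≠ 0}.Finite →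
        |g.k| ≤ R ∧ |g.l| ≤ R ∧ ∀ p, g.y p ≠ 0 → |p| ≤ R := by
      have h3 : ∀ a : ℤ, ∀ᶠ R : ℕ in atTop, a ≤ R := fun a => by
        filter_upwards [eventually_ge_atTop a.toNat] with R hR
        omega
      refine (eventually_all_finite hΓ).2 fun g _ => ?_
      by_cases h : {p | g.y p ≠ 0}.Finite
      · filter_upwards [h3 |g.k|, h3 |g.l|, (eventually_all_finite h).2 fun p _ => h3 |p|]
          with R h4 h5 h6 _ using ⟨h4, h5, h6⟩
      · exact Eventually.of_forall fun _ h' => (h h').elim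
    exact this.exists
  obtain ⟨K, hK⟩ := proper' (2 * R)
  let good : (ℕ → Bool) → Prop := fun x => ∀ g ∈ Γ, {p | g.y p ≠ 0}.Infinite → Gen g.y x
  have hg' : ∀ x x' : X, good x.1 → TE x' x → good x'.1 :=
    fun x x' hx ht g h3 h4 => (hx g h3 h4).te ht
  let μ : Om → ℤ → ℤ → Prop := fun w i j => M (th ((T ^ i) w)) (th ((T ^ j) w))
  let ε : G → ℤ := fun g => if Ev g then 1 else -1
  let e : Om → ℤ → ℤ := fun w i => ε (th ((T ^ i) w))
  have e1 : ∀ w, good w.1.1.1 → ∀ i, ∃ j, μ w i j ∧ |i - j| ≤ K := by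
    intro w hw i
    obtain ⟨w', h3⟩ := hex ((T ^ i) w)
    obtain ⟨g, h4, h5⟩ := hg _ _ h3
    have h6 : {p | g.y p ≠ 0}.Finite := by
      by_contra h
      exact (hg' _ _ hw (te_zpow i w) g h4 h).kill h5
    obtain ⟨h7, h8, h9⟩ := hR g h4 h6
    obtain ⟨j, hj, hj'⟩ := hK _ w' (by push_cast; exact near_of_mul h5 h7 h8 h9)
    refine ⟨j + i, ?_, by simpa using hj⟩
    simp only [μ]
    rwa [zpow_add, Equiv.Perm.mul_apply, hj']
  have e2 : ∀ w, good w.1.1.1 →
      flux K (μ (T w)) (e (T w)) = flux K (μ w) (e w) + ε (th w) ∧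
      flux K (μ (rho w)) (e (rho w)) = - flux K (μ w) (e w) - ε (th w) := by
    intro w hw
    have h3 : ∀ i j j', μ w i j → μ w i j' → j = j' := fun i j j' h h' => th_line (hu _ _ _ h h')
    have := flux_spec (K := K) (μ := μ w) (e := e w) (fun i j => hs _ _)
      (fun i => (e1 w hw i).imp fun j hj => ⟨hj.1, fun j' hj' => h3 _ _ _ hj' hj.1⟩)
      (fun i j h => by
        obtain ⟨j', h4, h5⟩ := e1 w hw i
        rwa [h3 _ _ _ h h4])
      (fun i j h => by
        simp only [e, ε, hp _ _ h]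
        split_ifs <;> simp)
      (by simp only [e, ε]; split_ifs <;> simp)
    have h4 : ∀ i : ℤ, (T ^ i) (T w) = (T ^ (i + 1)) w := fun i => by rw [zpow_add_one]; rfl
    simpa only [μ, e, h4, zpow_rho, th_rho, zpow_zero, Equiv.Perm.one_apply] using this
  have hε : Measurable fun w => ε (th w) :=
    Measurable.ite measurableSet_ev measurable_const measurable_const
  refine no_orient (d := fun w => 2 * flux K (μ w) (e w) + ε (th w)) ?_ (good := good) ?_ hg'
    (fun w hw => ?_) (fun w hw => ?_) (fun w => ?_)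
  · refine ((measurable_flux K (fun i j => ?_) fun i => hε.comp (measurable_zpow i)).const_mul
      2).add hε
    exact ((measurable_th.comp (measurable_zpow i)).prodMk
      (measurable_th.comp (measurable_zpow j))) hM
  · refine (eventually_all_finite hΓ).2 fun g _ => ?_
    by_cases h : {p | g.y p ≠ 0}.Infinite
    · exact (residual_gen h).mono fun x hx _ => hx
    · exact Eventually.of_forall fun _ h' => (h h').elim
  · simp only [(e2 w hw).1, ε, ev_T]
    split_ifs <;> ring
  · simp only [(e2 w hw).2, th_rho]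
    ring
  · simp only [ε]
    split_ifs <;> omega

end Pool.Agent.H39.Can
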