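import Mathlib

/-! Formulas, `FL_ew`-algebras, MTL-algebras, axiomatic extensions, deductive interpolation. -/

namespace Pool.Agent.H39.DIP

/-- Formulas in the language `∧, ∨, ·, →, 0, 1` over countably many variables. -/
inductive Fm : Type
  | var (n : ℕ) : Fm
  | bot : Fm
  | top : Fm
  | and (φ ψ : Fm) : Fm
  | or (φ ψ : Fm) : Fm
  | mul (φ ψ : Fm) : Fm
  | imp (φ ψ : Fm) : Fm

/-- Bounded commutative integral residuated lattices. -/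
class FLew (A : Type) extends Lattice A, BoundedOrder A where
  mul : A → A → A
  imp : A → A → A
  mul_comm : ∀ x y, mul x y = mul y x
  mul_assoc : ∀ x y z, mul (mul x y) z = mul x (mul y z)
  mul_top : ∀ x, mul x ⊤ = x
  res : ∀ x y z, mul x y ≤ z ↔ x ≤ imp y z

/-- Prelinearity. -/
def Prelin (A : Type) [FLew A] : Prop := ∀ x y : A, FLew.imp x y ⊔ FLew.imp y x = ⊤

/-- The value of a formula under a valuation. -/
def Fm.eval {A : Type} [FLew A] (v : ℕ → A) : Fm → A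
  | .var n => v n
  | .bot => ⊥
  | .top => ⊤
  | .and φ ψ => φ.eval v ⊓ ψ.eval v
  | .or φ ψ => φ.eval v ⊔ ψ.eval v
  | .mul φ ψ => FLew.mul (φ.eval v) (ψ.eval v)
  | .imp φ ψ => FLew.imp (φ.eval v) (ψ.eval v)

/-- The variables of a formula. -/
def Fm.vars : Fm → Set ℕ
  | .var n => {n}
  | .bot => ∅
  | .top => ∅
  | .and φ ψ => φ.vars ∪ ψ.vars
  | .or φ ψ => φ.vars ∪ ψ.vars
  | .mul φ ψ => φ.vars ∪ ψ.vars
  | .imp φ ψ => φ.vars ∪ ψ.vars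

/-- Substitution. -/
def Fm.subst (σ : ℕ → Fm) : Fm → Fm
  | .var n => σ n
  | .bot => .bot
  | .top => .top
  | .and φ ψ => .and (φ.subst σ) (ψ.subst σ)
  | .or φ ψ => .or (φ.subst σ) (ψ.subst σ)
  | .mul φ ψ => .mul (φ.subst σ) (ψ.subst σ)
  | .imp φ ψ => .imp (φ.subst σ) (ψ.subst σ)

/-- The consequence relation of `FL_ew`. -/
def ConsFL (Γ : Set Fm) (φ : Fm) : Prop :=
  ∀ (A : Type) [FLew A] (v : ℕ → A), (∀ γ ∈ Γ, γ.eval v = ⊤) → φ.eval v = ⊤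

/-- The consequence relation of MTL. -/
def ConsMTL (Γ : Set Fm) (φ : Fm) : Prop :=
  ∀ (A : Type) [FLew A], Prelin A → ∀ v : ℕ → A, (∀ γ ∈ Γ, γ.eval v = ⊤) → φ.eval v = ⊤

/-- `L` is an axiomatic extension of `B`. -/
def AxExt (B L : Set Fm → Fm → Prop) : Prop :=
  ∃ Ax : Set Fm, (∀ σ, ∀ ψ ∈ Ax, ψ.subst σ ∈ Ax) ∧ ∀ Γ φ, L Γ φ ↔ B (Ax ∪ Γ) φ

/-- The deductive interpolation property. -/
def HasDIP (L : Set Fm → Fm → Prop) : Prop :=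
  ∀ Γ φ, L Γ φ → ∃ Δ : Set Fm,
    (∀ δ ∈ Δ, δ.vars ⊆ (⋃ γ ∈ Γ, γ.vars) ∩ φ.vars ∧ L Γ δ) ∧ L Δ φ

end Pool.Agent.H39.DIP
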