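import Pool.Agent.H39.DIP1

/-! Interpolation from compactness and amalgamation for classes of simple nilpotent algebras. -/

namespace Pool.Agent.H39.DIP

open Set FLew

section
variable {A : Type} [FLew A] {x y z : A}

theorem top_mul (x : A) : mul ⊤ x = x := by rw [FLew.mul_comm, FLew.mul_top]

theorem imp_top_iff : imp x y = ⊤ ↔ x ≤ y := by rw [← top_le_iff, ← res, top_mul]

theorem top_imp (x : A) : imp ⊤ x = x :=
  eq_of_forall_le_iff fun c => by rw [← res, FLew.mul_top]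

theorem mp (x y : A) : mul (imp x y) x ≤ y := (res _ _ _).2 le_rfl

theorem mono_l (h : x ≤ y) (z : A) : mul x z ≤ mul y z :=
  (res _ _ _).2 (h.trans ((res _ _ _).1 le_rfl))

theorem mono_r (h : x ≤ y) (z : A) : mul z x ≤ mul z y := by
  rw [FLew.mul_comm z, FLew.mul_comm z]
  exact mono_l h z

theorem mul_le_l (x y : A) : mul x y ≤ x := (mono_r le_top x).trans_eq (FLew.mul_top x)

theorem mul_bot (x : A) : mul x ⊥ = ⊥ := le_bot_iff.1 (FLew.mul_comm x ⊥ ▸ mul_le_l _ _)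

theorem eval_subst (v : ℕ → A) (σ : ℕ → Fm) (φ : Fm) :
    (φ.subst σ).eval v = φ.eval fun n => (σ n).eval v := by
  induction φ <;> simp [Fm.subst, Fm.eval, *]

theorem eval_congr {v w : ℕ → A} {φ : Fm} (h : ∀ n ∈ φ.vars, v n = w n) :
    φ.eval v = φ.eval w := by
  induction φ with
  | var n => exact h n rfl
  | bot => rfl
  | top => rfl
  | _ φ ψ a b => simp only [Fm.eval, a fun n hn => h n (Or.inl hn), b fun n hn => h n (Or.inr hn)]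

end

def Fm.pw (φ : Fm) : Fm := (φ.mul φ).mul (φ.mul φ)

theorem pw_top {A : Type} [FLew A] {v : ℕ → A} {φ : Fm} (h : φ.eval v = ⊤) : φ.pw.eval v = ⊤ := by
  simp [Fm.pw, Fm.eval, h, FLew.mul_top]

theorem exists_conj (F : Finset Fm) : ∃ χ : Fm, (∀ X, (∀ ψ ∈ F, ψ.vars ⊆ X) → χ.vars ⊆ X) ∧
    ∀ (A : Type) [FLew A] (v : ℕ → A), χ.eval v = ⊤ ↔ ∀ ψ ∈ F, ψ.eval v = ⊤ := by
  classical
  induction F using Finset.induction_on with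
  | empty => exact ⟨.top, fun X _ => empty_subset X, fun A _ v => by simp [Fm.eval]⟩
  | insert ψ F _ ih =>
    obtain ⟨χ, h1, h2⟩ := ih
    exact ⟨ψ.and χ, fun X h => union_subset (h ψ (by simp)) (h1 X fun a ha => h a (by simp [ha])),
      fun A _ v => by simp [Fm.eval, h2]⟩

structure Good (M : Set (Set Fm)) : Prop where
  sem : ∀ T ∈ M, ∃ (A : Type) (_ : FLew A) (v : ℕ → A), Prelin A ∧ (⊥ : A) ≠ ⊤ ∧
    (∀ x : A, x ≠ ⊤ → mul (mul x x) (mul x x) = ⊥) ∧ ∀ ψ, ψ ∈ T ↔ ψ.eval v = ⊤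
  sub : ∀ T ∈ M, ∀ σ, Fm.subst σ ⁻¹' T ∈ M
  cpt : ∀ S : Set Fm, (∀ F : Finset Fm, ↑F ⊆ S → ∃ T ∈ M, ↑F ⊆ T) → ∃ T ∈ M, S ⊆ T
  am : ∀ T1 ∈ M, ∀ T2 ∈ M, ∀ X1 X2 : Set ℕ, (∀ ψ : Fm, ψ.vars ⊆ X1 ∩ X2 → (ψ ∈ T1 ↔ ψ ∈ T2)) →
    ∃ T ∈ M, (∀ ψ : Fm, ψ.vars ⊆ X1 → (ψ ∈ T ↔ ψ ∈ T1)) ∧ ∀ ψ : Fm, ψ.vars ⊆ X2 → (ψ ∈ T ↔ ψ ∈ T2)

def Lg (M : Set (Set Fm)) (Γ : Set Fm) (φ : Fm) : Prop := ∀ T ∈ M, Γ ⊆ T → φ ∈ T

variable {M : Set (Set Fm)}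

theorem Good.disc (h : Good M) {T : Set Fm} (hT : T ∈ M) (χ φ : Fm) :
    χ.pw.imp φ ∈ T ↔ (χ ∈ T → φ ∈ T) := by
  obtain ⟨A, _, v, -, -, h1, h2⟩ := h.sem T hT
  simp only [h2]
  by_cases h3 : χ.eval v = ⊤
  · simp [Fm.eval, pw_top h3, top_imp, h3]
  · simp [Fm.eval, Fm.pw, h1 _ h3, h3, imp_top_iff]

theorem Good.nb (h : Good M) {T : Set Fm} (hT : T ∈ M) : Fm.bot ∉ T := by
  obtain ⟨A, _, v, -, h1, -, h2⟩ := h.sem T hT
  exact fun h3 => h1 ((h2 _).1 h3)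

theorem Good.neg (h : Good M) {T : Set Fm} (hT : T ∈ M) (χ : Fm) : χ.pw.imp .bot ∈ T ↔ χ ∉ T :=
  (h.disc hT _ _).trans ⟨fun a b => h.nb hT (a b), fun a b => (a b).elim⟩

theorem Good.fin (h : Good M) {Γ S : Set Fm} (h0 : ¬∃ T ∈ M, Γ ∪ S ⊆ T) :
    ∃ χ : Fm, (∀ X, (∀ ψ ∈ S, ψ.vars ⊆ X) → χ.vars ⊆ X) ∧
      (∀ (A : Type) [FLew A] (v : ℕ → A), (∀ ψ ∈ S, ψ.eval v = ⊤) → χ.eval v = ⊤) ∧
      ∀ T ∈ M, Γ ⊆ T → χ ∉ T := by
  classical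
  obtain ⟨F, h1, h2⟩ : ∃ F : Finset Fm, ↑F ⊆ Γ ∪ S ∧ ¬∃ T ∈ M, ↑F ⊆ T := by
    by_contra! h1
    exact h0 (h.cpt _ h1)
  obtain ⟨χ, h3, h4⟩ := exists_conj (F.filter (· ∈ S))
  refine ⟨χ, fun X a => h3 X fun ψ b => a ψ (Finset.mem_filter.1 b).2, fun A _ v a =>
    (h4 A v).2 fun ψ b => a ψ (Finset.mem_filter.1 b).2, fun T hT a b => h2 ⟨T, hT, fun ψ c => ?_⟩⟩
  obtain ⟨A, _, v, -, -, -, h5⟩ := h.sem T hT
  exact (h1 c).elim (a ·) fun d => (h5 _).2 ((h4 A v).1 ((h5 _).1 b) ψ (Finset.mem_filter.2 ⟨c, d⟩))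

theorem Good.compl (h : Good M) {Γ : Set Fm} {φ : Fm} (h0 : Lg M Γ φ) : ConsFL (⋂₀ M ∪ Γ) φ := by
  obtain ⟨χ, -, h1, h2⟩ := h.fin (Γ := {φ.pw.imp .bot}) (S := Γ) fun ⟨T, hT, a⟩ =>
    (h.neg hT φ).1 (a (Or.inl rfl)) (h0 T hT (subset_union_right.trans a))
  intro A _ v hv
  have h3 := hv (χ.pw.imp φ) (Or.inl fun T hT => (h.disc hT _ _).2 fun a => by_contra fun b =>
    h2 T hT (singleton_subset_iff.2 ((h.neg hT φ).2 b)) a)
  rwa [Fm.eval, pw_top (h1 A v fun ψ a => hv ψ (Or.inr a)), top_imp] at h3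

theorem Good.sound (h : Good M) {Γ : Set Fm} {φ : Fm} (h0 : ConsMTL (⋂₀ M ∪ Γ) φ) : Lg M Γ φ := by
  intro T hT a
  obtain ⟨A, _, v, h1, -, -, h2⟩ := h.sem T hT
  exact (h2 _).2 (h0 A h1 v fun γ b => (h2 _).1 (b.elim (· T hT) (a ·)))

theorem Good.axFL (h : Good M) : AxExt ConsFL (Lg M) :=
  ⟨⋂₀ M, fun σ _ a T hT => a _ (h.sub T hT σ), fun _ _ =>
    ⟨h.compl, fun a => h.sound fun A _ _ => a A⟩⟩

theorem Good.axMTL (h : Good M) : AxExt ConsMTL (Lg M) :=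
  ⟨⋂₀ M, fun σ _ a T hT => a _ (h.sub T hT σ), fun _ _ =>
    ⟨fun a A _ _ => h.compl a A, h.sound⟩⟩

theorem Good.dip (h : Good M) : HasDIP (Lg M) := by
  intro Γ φ h0
  refine ⟨{δ | δ.vars ⊆ (⋃ γ ∈ Γ, γ.vars) ∩ φ.vars ∧ Lg M Γ δ}, fun _ a => a, fun T2 h2 h3 => ?_⟩
  obtain ⟨T1, h1, h4⟩ : ∃ T ∈ M, Γ ∪ {ψ | ψ.vars ⊆ (⋃ γ ∈ Γ, γ.vars) ∩ φ.vars ∧ ψ ∈ T2} ⊆ T := by
    by_contra h4
    obtain ⟨χ, a, b, c⟩ := h.fin h4
    obtain ⟨A, _, v, -, -, -, h5⟩ := h.sem T2 h2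
    refine (h.neg h2 χ).1 (h3 ⟨?_, fun T hT d => (h.neg hT χ).2 (c T hT d)⟩)
      ((h5 _).2 (b A v fun ψ d => (h5 _).1 d.2))
    simpa [Fm.vars, Fm.pw] using a _ fun ψ d => d.1
  obtain ⟨T, hT, a, b⟩ := h.am T1 h1 T2 h2 _ _ fun ψ a => ⟨fun b => by_contra fun c =>
    (h.neg h1 ψ).1 (h4 (Or.inr ⟨by simpa [Fm.vars, Fm.pw] using a, (h.neg h2 ψ).2 c⟩)) b,
      fun b => h4 (Or.inr ⟨a, b⟩)⟩
  exact (b φ Subset.rfl).1 (h0 T hT fun γ c =>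
    (a γ (subset_biUnion_of_mem (u := Fm.vars) c)).2 (h4 (Or.inl c)))

theorem Good.mem (h : Good M) {M' : Set (Set Fm)} (h' : Good M') (e : Lg M = Lg M') {T : Set Fm}
    (hT : T ∈ M) : T ∈ M' := by
  obtain ⟨T', h1, h2⟩ : ∃ T' ∈ M', T ⊆ T' := by
    by_contra! h1
    have : Lg M' T .bot := fun T' a b => (h1 T' a b).elim
    exact h.nb hT ((e ▸ this : Lg M T .bot) T hT Subset.rfl)
  rwa [h2.antisymm fun ψ a => by_contra fun b => (h'.neg h1 ψ).1 (h2 ((h.neg hT ψ).2 b)) a]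

/-- A finite rigid algebra. -/
theorem good_fin (A : Type) [FLew A] [Finite A] (h1 : Prelin A) (h2 : (⊥ : A) ≠ ⊤)
    (h3 : ∀ x : A, x ≠ ⊤ → mul (mul x x) (mul x x) = ⊥)
    (h4 : ∀ x y : A, (∀ ψ : Fm, ψ.eval (fun _ => x) = ⊤ ↔ ψ.eval (fun _ => y) = ⊤) → x = y) :
    Good (range fun v : ℕ → A => {ψ | ψ.eval v = ⊤}) := by
  refine ⟨?_, ?_, fun S hS => ?_, ?_⟩
  · rintro _ ⟨v, rfl⟩
    exact ⟨A, _, v, h1, h2, h3, fun _ => Iff.rfl⟩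
  · rintro _ ⟨v, rfl⟩ σ
    exact ⟨fun n => (σ n).eval v, by ext; simp [eval_subst]⟩
  · let _ : TopologicalSpace A := ⊥
    have : DiscreteTopology A := ⟨rfl⟩
    have h6 : ∀ (f : A → A → A) {a b : (ℕ → A) → A}, Continuous a → Continuous b →
        Continuous fun v => f (a v) (b v) := fun f _ _ a b =>
      (continuous_of_discreteTopology (f := Function.uncurry f)).comp₂ a b
    have h5 : ∀ ψ : Fm, Continuous fun v : ℕ → A => ψ.eval v := fun ψ => by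
      induction ψ with
      | var n => exact continuous_apply n
      | bot => exact continuous_const
      | top => exact continuous_const
      | _ φ ψ a b => exact h6 _ a b
    obtain ⟨v, hv⟩ := isCompact_univ.inter_iInter_nonempty (fun ψ : S => {v | ψ.1.eval v = ⊤})
      (fun ψ => isClosed_eq (h5 ψ) continuous_const) fun F => by
        obtain ⟨_, ⟨v, rfl⟩, hv⟩ := hS (F.map (.subtype _)) (by
          intro ψ a
          obtain ⟨b, -, rfl⟩ := Finset.mem_map.1 a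
          exact b.2)
        exact ⟨v, trivial, mem_iInter₂.2 fun ψ a => hv (Finset.mem_map_of_mem _ a)⟩
    exact ⟨_, ⟨v, rfl⟩, fun ψ a => mem_iInter.1 hv.2 ⟨ψ, a⟩⟩
  · classical
    rintro _ ⟨v, rfl⟩ _ ⟨w, rfl⟩ X1 X2 h
    refine ⟨_, ⟨fun n => if n ∈ X1 then v n else w n, rfl⟩, fun ψ a => ?_, fun ψ a => ?_⟩
    · exact iff_of_eq (congrArg (· = ⊤) (eval_congr fun n b => if_pos (a b)))
    · refine iff_of_eq (congrArg (· = ⊤) (eval_congr fun n b => ?_))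
      split_ifs with c
      · refine h4 _ _ fun χ => ?_
        have := h (χ.subst fun _ => .var n) (by
          induction χ with
          | var k => exact singleton_subset_iff.2 ⟨c, a b⟩
          | bot => exact empty_subset _
          | top => exact empty_subset _
          | _ φ ψ a b => exact union_subset a b)
        simpa only [mem_ofPred_eq, eval_subst, Fm.eval] using this
      · rfl

end Pool.Agent.H39.DIP
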