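import Pool.Agent.H39.DIP2

/-! MTL-chains `{0} ∪ [a, b]` inside ordered abelian groups. -/

namespace Pool.Agent.H39.DIP

open Set Filter

/-- Ordering a quotient by a total cone. -/
theorem ord_quot {H : Type} [AddCommGroup H] {Q : Set H} (h1 : ∀ x ∈ Q, ∀ y ∈ Q, x + y ∈ Q)
    (h2 : ∀ x, x ∈ Q ∨ -x ∈ Q) : ∃ (G : Type) (_ : AddCommGroup G) (_ : LinearOrder G)
      (_ : IsOrderedAddMonoid G) (q : H →+ G), ∀ x y, q x ≤ q y ↔ y - x ∈ Q := by
  classical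
  have h0 : (0 : H) ∈ Q := by simpa using h2 0
  let K : AddSubgroup H := ⟨⟨⟨{x | x ∈ Q ∧ -x ∈ Q}, fun a b => ⟨h1 _ a.1 _ b.1, by
    rw [neg_add]; exact h1 _ a.2 _ b.2⟩⟩, by simp [h0]⟩, fun a => ⟨a.2, by simpa using a.1⟩⟩
  have h3 : ∀ x, (QuotientAddGroup.mk' K) x ∈ (QuotientAddGroup.mk' K) '' Q ↔ x ∈ Q := fun x =>
    ⟨fun ⟨y, a, b⟩ => by simpa using h1 _ a _ (QuotientAddGroup.eq.1 b).1, mem_image_of_mem _⟩
  let C : AddGroupCone (H ⧸ K) := ⟨⟨⟨(QuotientAddGroup.mk' K) '' Q, by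
    rintro _ _ ⟨x, a, rfl⟩ ⟨y, b, rfl⟩
    exact ⟨_, h1 _ a _ b, rfl⟩⟩, ⟨0, h0, rfl⟩⟩, by
    rintro _ ⟨x, a, rfl⟩ b
    exact (QuotientAddGroup.eq_zero_iff x).2 ⟨a, (h3 (-x)).1 b⟩⟩
  have : HasMemOrNegMem C := ⟨fun g => by
    obtain ⟨x, rfl⟩ := QuotientAddGroup.mk'_surjective K g
    exact (h2 x).imp (h3 x).2 (h3 (-x)).2⟩
  exact ⟨H ⧸ K, _, LinearOrder.mkOfAddGroupCone C, IsOrderedAddMonoid.mkOfCone C,
    QuotientAddGroup.mk' K, fun x y => h3 (y - x)⟩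

section
variable {G G' : Type} [AddCommGroup G] [LinearOrder G] [IsOrderedAddMonoid G] [AddCommGroup G']
  [LinearOrder G'] [IsOrderedAddMonoid G']

/-- Amalgamation of ordered abelian groups. -/
theorem amalg (N : AddSubgroup (G × G')) (hN : ∀ p ∈ N, 0 ≤ p.1 ↔ 0 ≤ p.2) :
    ∃ (H : Type) (_ : AddCommGroup H) (_ : LinearOrder H) (_ : IsOrderedAddMonoid H) (i : G →+ H)
      (j : G' →+ H), (∀ x y, i x ≤ i y ↔ x ≤ y) ∧ (∀ x y, j x ≤ j y ↔ x ≤ y) ∧
      ∀ p ∈ N, i p.1 = j p.2 := by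
  obtain ⟨P, h1, h2⟩ := zorn_subset_nonempty
    {P : Set (G × G') | (∀ x ∈ P, ∀ y ∈ P, x + y ∈ P) ∧ ∀ x ∈ P, x ∉ N} (fun c hc h _ =>
      ⟨⋃₀ c, ⟨by
        rintro x ⟨s, a, b⟩ y ⟨t, a', b'⟩
        rcases h.total a a' with e | e
        exacts [⟨t, a', (hc a').1 _ (e b) _ b'⟩, ⟨s, a, (hc a).1 _ b _ (e b')⟩],
        fun x ⟨s, a, b⟩ => (hc a).2 x b⟩, fun s a => subset_sUnion_of_mem a⟩)
    {p | 0 ≤ p.1 ∧ p.2 ≤ 0 ∧ (0 < p.1 ∨ p.2 < 0)}
    ⟨fun x a y b => by simp only [mem_ofPred_eq, Prod.fst_add, Prod.snd_add] at *; grind,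
      fun x a b => by
        have c := hN x b
        have d := hN _ (N.neg_mem b)
        simp only [mem_ofPred_eq, Prod.fst_neg, Prod.snd_neg] at *
        grind⟩
  have h3 : ∀ n : ℕ, ∀ x ∈ P, (n + 1) • x ∈ P := fun n x a => by
    induction n with
    | zero => simpa using a
    | succ n ih => rw [succ_nsmul]; exact h2.1.1 _ ih _ a
  have h4 : ∀ x, x ∉ P ↔ ∃ n : ℕ, (n + 1) • x ∈ N ∨ ∃ p ∈ P, (n + 1) • x + p ∈ N := fun x => by
    refine ⟨fun a => by_contra fun b => a (h2.2 (y := {y | y ∈ P ∨ ∃ n : ℕ, y = (n + 1) • x ∨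
      ∃ p ∈ P, y = (n + 1) • x + p}) ⟨?_, ?_⟩ (fun _ => Or.inl) (Or.inr ⟨0, by simp⟩)), ?_⟩
    · rintro y (c | ⟨n, rfl | ⟨p, c, rfl⟩⟩) z (d | ⟨m, rfl | ⟨q, d, rfl⟩⟩)
      · exact Or.inl (h2.1.1 _ c _ d)
      · exact Or.inr ⟨m, Or.inr ⟨_, c, add_comm _ _⟩⟩
      · exact Or.inr ⟨m, Or.inr ⟨_, h2.1.1 _ c _ d, by abel⟩⟩
      · exact Or.inr ⟨n, Or.inr ⟨_, d, rfl⟩⟩
      · exact Or.inr ⟨n + m + 1, Or.inl (by module)⟩
      · exact Or.inr ⟨n + m + 1, Or.inr ⟨_, d, by module⟩⟩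
      · exact Or.inr ⟨n, Or.inr ⟨_, h2.1.1 _ c _ d, by abel⟩⟩
      · exact Or.inr ⟨n + m + 1, Or.inr ⟨_, c, by module⟩⟩
      · exact Or.inr ⟨n + m + 1, Or.inr ⟨_, h2.1.1 _ c _ d, by module⟩⟩
    · rintro y (c | ⟨n, rfl | ⟨p, c, rfl⟩⟩)
      exacts [h2.1.2 _ c, fun d => b ⟨n, Or.inl d⟩, fun d => b ⟨n, Or.inr ⟨p, c, d⟩⟩]
    · rintro ⟨n, a | ⟨p, a, b⟩⟩ c
      exacts [h2.1.2 _ (h3 n x c) a, h2.1.2 _ (h2.1.1 _ (h3 n x c) _ a) b]
  have h5 : ∀ x, x ∉ P → ∀ y, y ∉ P → x + y ∉ P := fun x a y b c => by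
    have e := h3
    obtain ⟨n, a⟩ := (h4 x).1 a
    obtain ⟨m, b⟩ := (h4 y).1 b
    have c' := h3 (n * m + n + m) _ c
    rcases a with a | ⟨p, p1, a⟩ <;> rcases b with b | ⟨q, q1, b⟩ <;>
      have d := N.add_mem (N.nsmul_mem a (m + 1)) (N.nsmul_mem b (n + 1))
    · exact h2.1.2 _ c' (by convert d using 1; module)
    · exact h2.1.2 _ (h2.1.1 _ c' _ (h3 n _ q1)) (by convert d using 1; module)
    · exact h2.1.2 _ (h2.1.1 _ c' _ (h3 m _ p1)) (by convert d using 1; module)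
    · exact h2.1.2 _ (h2.1.1 _ (h2.1.1 _ c' _ (h3 m _ p1)) _ (h3 n _ q1))
        (by convert d using 1; module)
  have h6 : ∀ x ∈ P, -x ∉ P := fun x a b => h2.1.2 _ (h2.1.1 _ a _ b) (by simp)
  obtain ⟨H, _, _, _, q, hq⟩ := ord_quot (Q := {x | -x ∉ P})
    (fun x a y b => by simpa only [mem_ofPred_eq, neg_add] using h5 _ a _ b)
    fun x => or_iff_not_imp_left.2 fun a => h6 _ (not_not.1 a)
  have h7 : ∀ x : G × G', (0 ≤ x.1 ∧ x.2 ≤ 0) → -x ∉ P := fun x a => by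
    by_cases b : x = 0
    · exact fun c => h2.1.2 _ c (by simp [b])
    · exact h6 _ (h1 ⟨a.1, a.2, by_contra fun c => b (Prod.ext
        (a.1.antisymm' (not_lt.1 fun d => c (Or.inl d))) (a.2.antisymm (not_lt.1 fun d => c (Or.inr d))))⟩)
  refine ⟨H, _, _, inferInstance, q.comp (.inl _ _), -q.comp (.inr _ _), fun x y => ?_,
    fun x y => ?_, fun p a => ?_⟩
  · exact (hq _ _).trans ⟨fun a => not_lt.1 fun b => a (h1 (by simpa using ⟨b.le, b⟩)),
      fun a => h7 _ (by simpa using a)⟩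
  · exact neg_le_neg_iff.trans ((hq _ _).trans ⟨fun a => not_lt.1 fun b =>
      a (h1 (by simpa using ⟨b.le, b⟩)), fun a => h7 _ (by simpa using a)⟩)
  · refine eq_neg_of_add_eq_zero_left ((q.map_add _ _).symm.trans (q.map_zero ▸ le_antisymm
      ((hq _ _).2 fun b => h2.1.2 _ b (by simpa using a))
      ((hq _ _).2 fun b => h2.1.2 _ b (by simpa using N.neg_mem a))))

def In (a b x : G) : Prop := a ≤ x ∧ (x ≤ b ∨ x = 0)

def ev (a b : G) (v : ℕ → G) : Fm → G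
  | .var n => v n
  | .bot => a
  | .top => 0
  | .and φ ψ => min (ev a b v φ) (ev a b v ψ)
  | .or φ ψ => max (ev a b v φ) (ev a b v ψ)
  | .mul φ ψ => max (ev a b v φ + ev a b v ψ) a
  | .imp φ ψ => if ev a b v φ ≤ ev a b v ψ then 0 else min (ev a b v ψ - ev a b v φ) b

def Ty (r : ℝ) (a b : G) : Prop := ∀ m k : ℤ, m • a + k • b ≤ 0 ↔ 0 ≤ m + k * r

theorem Ty.lt {r : ℝ} (hr : r ∈ Ioo (1 / 4 : ℝ) (1 / 3)) {a b : G} (h : Ty r a b) :
    a < b + b + b ∧ b + b + b + b < a := by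
  have h1 := (h (-1) 3).not.2 (by push_cast; linarith [hr.2])
  have h2 := (h 1 (-4)).not.2 (by push_cast; linarith [hr.1])
  grind

/-- The chain `{0} ∪ [a, b]`. -/
abbrev alg {a b : G} (h : a < b + b + b ∧ b + b + b + b < a) : FLew {x // In a b x} where
  top := ⟨0, by unfold In; grind⟩
  bot := ⟨a, by unfold In; grind⟩
  le_top x := by have := x.2; unfold In at this; change x.1 ≤ 0; grind
  bot_le x := x.2.1
  mul x y := ⟨max (x.1 + y.1) a, by have := x.2; have := y.2; unfold In at *; grind⟩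
  imp x y := ⟨if x.1 ≤ y.1 then 0 else min (y.1 - x.1) b, by
    have := x.2; have := y.2; unfold In at *; grind⟩
  mul_comm x y := Subtype.ext (by simp only [add_comm])
  mul_assoc x y z := Subtype.ext (by have := x.2; have := z.2; unfold In at *; grind)
  mul_top x := Subtype.ext (by have := x.2.1; grind)
  res x y z := by
    have := x.2; have := z.2; unfold In at *
    change max _ _ ≤ z.1 ↔ x.1 ≤ ite _ _ _
    grind

theorem ev_alg {a b : G} (h : a < b + b + b ∧ b + b + b + b < a) (v : ℕ → {x // In a b x})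
    (φ : Fm) : (@Fm.eval _ (alg h) v φ).1 = ev a b (fun n => (v n).1) φ := by
  induction φ with
  | var n => rfl
  | bot => rfl
  | top => rfl
  | and φ ψ p q => exact (Subtype.mono_coe _).map_min.trans (congrArg₂ min p q)
  | or φ ψ p q => exact (Subtype.mono_coe _).map_max.trans (congrArg₂ max p q)
  | mul φ ψ p q => exact congrArg₂ (fun x y => max (x + y) a) p q
  | imp φ ψ p q => exact congrArg₂ (fun x y => if x ≤ y then 0 else min (y - x) b) p q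

theorem ev_in {a b : G} (h : a < b + b + b ∧ b + b + b + b < a) {v : ℕ → G}
    (hv : ∀ n, In a b (v n)) (φ : Fm) : In a b (ev a b v φ) :=
  ev_alg h (fun n => ⟨v n, hv n⟩) φ ▸ Subtype.property _

omit [IsOrderedAddMonoid G] in
theorem ev_subst (a b : G) (v : ℕ → G) (σ : ℕ → Fm) (φ : Fm) :
    ev a b v (φ.subst σ) = ev a b (fun n => ev a b v (σ n)) φ := by
  induction φ <;> simp [Fm.subst, ev, *]

omit [IsOrderedAddMonoid G] [IsOrderedAddMonoid G'] in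
theorem ev_map {i : G →+ G'} (hi : ∀ x y, i x ≤ i y ↔ x ≤ y) (a b : G) {v : ℕ → G} {w : ℕ → G'}
    {φ : Fm} (h : ∀ n ∈ φ.vars, w n = i (v n)) : ev (i a) (i b) w φ = i (ev a b v φ) := by
  have h1 : Monotone i := fun x y => (hi x y).2
  induction φ with
  | var n => exact h n rfl
  | bot => rfl
  | top => exact i.map_zero.symm
  | _ φ ψ p q => simp only [ev, p fun n c => h n (Or.inl c), q fun n c => h n (Or.inr c),
      h1.map_min, h1.map_max, map_add, hi, apply_ite i, map_zero, map_sub]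

structure Sub (a b : G) (a' b' : G') (T : Set (G × G')) : Prop where
  t0 : (a, a') ∈ T
  t1 : ∀ p ∈ T, In a b p.1 ∧ In a' b' p.2
  t2 : ∀ p ∈ T, ∀ q ∈ T, p.1 ≤ q.1 ↔ p.2 ≤ q.2
  t3 : ∀ p ∈ T, ∀ q ∈ T, (max (p.1 + q.1) a, max (p.2 + q.2) a') ∈ T
  t4 : ∀ p ∈ T, ∀ q ∈ T, (if p.1 ≤ q.1 then 0 else min (q.1 - p.1) b,
    if p.2 ≤ q.2 then 0 else min (q.2 - p.2) b') ∈ T

variable {a b : G} {a' b' : G'} {T : Set (G × G')}

omit [IsOrderedAddMonoid G] [IsOrderedAddMonoid G'] in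
theorem Sub.swap (t : Sub a b a' b' T) : Sub a' b' a b (Prod.swap ⁻¹' T) :=
  ⟨t.t0, fun _ h => (t.t1 _ h).symm, fun _ h _ h' => (t.t2 _ h _ h').symm,
    fun _ h _ h' => t.t3 _ h _ h', fun _ h _ h' => t.t4 _ h _ h'⟩

theorem Sub.fix (t : Sub a b a' b' T) (h : a < b + b + b ∧ b + b + b + b < a) {y : G'}
    (hy : (b, y) ∈ T) : y = b' := by
  have h1 := t.t3 _ hy _ hy
  obtain ⟨z, h2⟩ : ∃ z, (a - (b + b), z) ∈ T := ⟨_, by
    convert t.t4 _ h1 _ t.t0 using 2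
    grind⟩
  have h3 := t.t4 _ hy _ h2
  have h4 := t.t2 _ hy _ h2
  have h5 := t.t2 _ h2 _ h1
  have h6 := t.t2 _ hy _ h3
  have h7 := t.t2 _ h3 _ hy
  grind

omit [IsOrderedAddMonoid G] [IsOrderedAddMonoid G'] in
theorem Sub.add (t : Sub a b a' b' T) {p q : G × G'} (c : p ∈ T) (d : q ∈ T) (e : a ≤ p.1 + q.1)
    (f : a' ≤ p.2 + q.2) : p + q ∈ T := by
  have := t.t3 p c q d
  rwa [max_eq_left e, max_eq_left f] at this

omit [IsOrderedAddMonoid G] [IsOrderedAddMonoid G'] in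
theorem Sub.sub (t : Sub a b a' b' T) {p q : G × G'} (c : p ∈ T) (d : q ∈ T) (e : ¬p.1 ≤ q.1)
    (f : q.1 - p.1 ≤ b) (g : q.2 - p.2 ≤ b') : q - p ∈ T := by
  have := t.t4 p c q d
  rwa [if_neg e, if_neg (mt (t.t2 p c q d).2 e), min_eq_left f, min_eq_left g] at this

theorem Sub.one (t : Sub a b a' b' T) (h : a < b + b + b ∧ b + b + b + b < a)
    (h' : a' < b' + b' + b' ∧ b' + b' + b' + b' < a') (hb : (b, b') ∈ T) :
    ∃ N : AddSubgroup (G × G'), (∀ p ∈ N, 0 ≤ p.1 ↔ 0 ≤ p.2) ∧ (b, b') ∈ N ∧ ∀ p ∈ T, p ∈ N := by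
  have b2 : (b + b, b' + b') ∈ T := t.add hb hb (by grind) (by grind)
  have b3 : (b + b + b, b' + b' + b') ∈ T := t.add b2 hb (by grind) (by grind)
  have b0 : (0, 0) ∈ T := by simpa using t.t4 _ hb _ hb
  let N : Set (G × G') := {p | ∃ n : ℤ, ∃ δ, δ + (b, b') ∈ T ∧ b < δ.1 ∧ δ.1 ≤ 0 ∧
    p = δ + n • (b, b')}
  have n0 : ∀ δ : G × G', δ + (b, b') ∈ T → b < δ.1 → δ.1 ≤ 0 →
      b' < δ.2 ∧ δ.2 ≤ 0 ∧ (0 ≤ δ.1 ↔ 0 ≤ δ.2) := fun δ c d e => by
    have h1 := t.t2 _ c _ hb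
    have h2 := t.t2 _ hb _ c
    have h3 := t.t2 _ c _ b2
    simp only [Prod.fst_add, Prod.snd_add] at h1 h2 h3
    clear * - h1 h2 h3 d e
    grind
  have n1 : ∀ p (k : ℤ), p + k • (b, b') ∈ N → p ∈ N := by
    rintro p k ⟨n, δ, c, d, e, f⟩
    exact ⟨n - k, δ, c, d, e, by rw [sub_smul, ← add_sub_assoc, ← f, add_sub_cancel_right]⟩
  have n2 : ∀ p ∈ T, p.1 ≤ b + b → p - (b, b') ∈ T := fun p c d => by
    have h1 := (t.t2 _ c _ b2).1 d
    refine t.sub hb c ?_ (sub_le_iff_le_add.2 d) (sub_le_iff_le_add.2 h1)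
    clear * - h d
    grind
  have n3 : ∀ p ∈ T, b + b < p.1 → p ∈ N := fun p c d => by
    obtain e | e := (t.t1 p c).1.2
    · exact ⟨1, p - (b, b'), by simpa using c, lt_sub_iff_add_lt.2 d, by simpa using e, by simp⟩
    · refine ⟨0, 0, by simpa using hb, ?_, le_rfl, Prod.ext (by simpa using e) (by
        simpa using ((t.t2 _ c _ b0).1 e.le).antisymm ((t.t2 _ b0 _ c).1 e.ge))⟩
      clear * - h
      simp only [Prod.fst_zero]
      grind
  have n4 : ∀ p ∈ T, p ∈ N := fun p c => by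
    by_cases d : b + b < p.1
    · exact n3 p c d
    have c1 := n2 p c (not_lt.1 d)
    refine n1 _ (-1) (by
      rw [neg_one_zsmul, ← sub_eq_add_neg]
      by_cases e : b + b < (p - (b, b')).1
      · exact n3 _ c1 e
      refine n1 _ (-1) ?_
      rw [neg_one_zsmul, ← sub_eq_add_neg]
      have := (t.t1 p c).1.1
      exact n3 _ (n2 _ c1 (not_lt.1 e)) (by
        clear * - h this
        simp only [Prod.fst_sub]
        grind))
  have n5 : ∀ p ∈ N, -p ∈ N := by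
    rintro _ ⟨n, δ, c, d, e, rfl⟩
    have h1 := n0 δ c d e
    refine n1 _ (n + 2) (n4 _ ?_)
    convert t.sub c b3 ?_ ?_ ?_ using 1
    · rw [← Prod.mk_add_mk, ← Prod.mk_add_mk]
      module
    all_goals
      clear * - h h' h1 d e
      simp only [Prod.fst_add, Prod.snd_add]
      grind
  have n6 : ∀ δ ε : G × G', δ + (b, b') ∈ T → b < δ.1 → δ.1 ≤ 0 → ε + (b, b') ∈ T → b < ε.1 →
      ε.1 ≤ 0 → δ.1 ≤ ε.1 → δ - ε ∈ N := fun δ ε c d e c' d' e' f => by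
    have h1 := n0 δ c d e
    have h2 := n0 ε c' d' e'
    have h3 := t.t2 _ c _ c'
    refine n1 _ 1 (n4 _ ?_)
    convert t.sub c' (t.add hb c ?_ ?_) ?_ ?_ ?_ using 1
    · module
    all_goals
      clear * - h h' h1 h2 h3 d e d' e' f
      simp only [Prod.fst_add, Prod.snd_add] at *
      grind
  refine ⟨AddSubgroup.ofSub N ⟨_, n4 _ hb⟩ ?_, ?_, n4 _ hb, n4⟩
  · rintro _ ⟨n, δ, c, d, e, rfl⟩ _ ⟨m, ε, c', d', e', rfl⟩
    refine n1 _ (m - n) ?_
    rcases le_total δ.1 ε.1 with f | f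
    · convert n6 _ _ c d e c' d' e' f using 1
      module
    · convert n5 _ (n6 _ _ c' d' e' c d e f) using 1
      module
  · rintro _ ⟨n, δ, c, d, e, rfl⟩
    have h1 := n0 δ c d e
    simp only [Prod.fst_add, Prod.snd_add, Prod.smul_fst, Prod.smul_snd]
    clear * - h h' h1 d e
    rcases lt_trichotomy n 0 with f | rfl | f
    · have h2 := zsmul_nonneg (x := -b) (by grind) (n := -n - 1) (by omega)
      have h3 := zsmul_nonneg (x := -b') (by grind) (n := -n - 1) (by omega)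
      simp only [sub_smul, smul_neg, neg_smul, one_smul] at h2 h3
      grind
    · simpa using h1.2.2
    · have h2 := zsmul_nonneg (x := -b) (by grind) (n := n - 1) (by omega)
      have h3 := zsmul_nonneg (x := -b') (by grind) (n := n - 1) (by omega)
      simp only [sub_smul, smul_neg, one_smul] at h2 h3
      grind

/-- A partial isomorphism of chains extends to the generated ordered groups. -/
theorem Sub.ext {r : ℝ} (hr : r ∈ Ioo (1 / 4 : ℝ) (1 / 3)) (h : Ty r a b) (h' : Ty r a' b')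
    (t : Sub a b a' b' T) :
    ∃ N : AddSubgroup (G × G'), (∀ p ∈ N, 0 ≤ p.1 ↔ 0 ≤ p.2) ∧ (b, b') ∈ N ∧ ∀ p ∈ T, p ∈ N := by
  have l := h.lt hr
  have l' := h'.lt hr
  by_cases hb : (b, b') ∈ T
  · exact t.one l l' hb
  have h1 : ∀ p ∈ T, p.1 ≠ b ∧ p.2 ≠ b' := fun ⟨x, y⟩ c =>
    ⟨by rintro rfl; exact hb (t.fix l c ▸ c), by rintro rfl; exact hb (t.swap.fix l' c ▸ c)⟩
  have h2 : ∀ p ∈ T, ∀ q ∈ T, q.1 < p.1 → q - p ∈ T ∧ q.1 - p.1 < b := fun p c q d e => by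
    have h2 := t.t4 p c q d
    have h3 := h1 _ h2
    have h4 := t.t2 p c q d
    refine ⟨?_, by grind⟩
    convert h2 using 1
    ext <;> simp only [Prod.fst_sub, Prod.snd_sub] <;> grind
  have h3 : ∀ p ∈ T, ∀ q ∈ T, p.1 = q.1 → p = q := fun p c q d e =>
    Prod.ext e (((t.t2 p c q d).1 e.le).antisymm ((t.t2 q d p c).1 e.ge))
  have h4 : ∀ p ∈ T, (a, a') - p ∈ T → p.1 < b → a - p.1 ≤ p.1 → ∃ m : ℤ, 6 • p = m • (a, a') :=
    fun p c d e f => by
      obtain g | g := f.eq_or_lt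
      · exact ⟨3, by rw [← sub_add_cancel (a, a') p, h3 _ d _ c g]; module⟩
      have h4 := h2 _ c _ d g
      rcases lt_trichotomy p.1 ((a, a') - p - p).1 with k | k | k
      · have := (h2 _ h4.1 _ c k).2
        simp only [Prod.fst_sub] at *
        grind
      · exact ⟨2, by rw [← sub_add_cancel (a, a') p, ← sub_add_cancel ((a, a') - p) p,
          ← h3 _ c _ h4.1 k]; module⟩
      · have := (h2 _ c _ h4.1 k).2
        simp only [Prod.fst_sub] at *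
        grind
  refine ⟨⟨⟨⟨{p | ∃ m k : ℤ, 6 • p = m • (a, a') + k • (b, b')}, ?_⟩, 0, 0, by simp⟩, ?_⟩, ?_,
    ⟨0, 6, by module⟩, fun p c => ?_⟩
  · rintro p q ⟨m, k, c⟩ ⟨m', k', c'⟩
    exact ⟨m + m', k + k', by rw [smul_add, c, c']; module⟩
  · rintro p ⟨m, k, c⟩
    exact ⟨-m, -k, by rw [smul_neg, c]; module⟩
  · rintro p ⟨m, k, c⟩
    have c1 := congrArg Prod.fst c
    have c2 := congrArg Prod.snd c
    have c3 := (h (-m) (-k)).trans (h' (-m) (-k)).symm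
    simp only [Prod.fst_add, Prod.snd_add, Prod.smul_fst, Prod.smul_snd, neg_smul] at c1 c2 c3
    grind
  suffices ∃ m : ℤ, 6 • p = m • (a, a') from this.imp fun m d => ⟨0, by simpa using d⟩
  obtain d | d := (t.t1 p c).1.1.eq_or_lt
  · exact ⟨6, by rw [h3 _ c _ t.t0 d.symm]; module⟩
  obtain e | e := (t.t1 p c).1.2
  · have h5 := h2 _ c _ t.t0 d
    rcases le_total (a - p.1) p.1 with f | f
    · exact h4 p c h5.1 (e.lt_of_ne (h1 p c).1) f
    · obtain ⟨m, hm⟩ := h4 _ h5.1 (by simpa using c) h5.2 (by simpa using f)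
      exact ⟨6 - m, by rw [sub_smul, ← hm]; module⟩
  · exact ⟨0, by rw [h3 _ c (0, 0) (by simpa using t.t4 _ c _ c) e]; simp⟩

end

def Md (r : ℝ) : Set (Set Fm) := {T | ∃ (G : Type) (_ : AddCommGroup G) (_ : LinearOrder G)
  (_ : IsOrderedAddMonoid G) (a b : G) (v : ℕ → G), Ty r a b ∧ (∀ n, In a b (v n)) ∧
    T = {ψ | ev a b v ψ = 0}}

theorem good_Md {r : ℝ} (hr : r ∈ Ioo (1 / 4 : ℝ) (1 / 3)) : Good (Md r) := by
  refine ⟨?_, ?_, fun S hS => ?_, ?_⟩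
  · rintro _ ⟨G, _, _, _, a, b, v, h, hv, rfl⟩
    have l := h.lt hr
    refine ⟨_, alg l, fun n => ⟨v n, hv n⟩, fun x y => Subtype.ext
      ((Subtype.mono_coe _).map_max.trans ?_), fun c => ?_, fun x c => Subtype.ext ?_, fun ψ => ?_⟩
    · change max (ite _ _ _) (ite _ _ _) = (0 : G)
      grind
    · have : a = 0 := congrArg Subtype.val c
      grind
    · have h1 : x.1 ≠ 0 := fun d => c (Subtype.ext d)
      have := x.2.2
      change max (max _ _ + max _ _) _ = a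
      grind
    · rw [Subtype.ext_iff, ev_alg]
      rfl
  · rintro _ ⟨G, _, _, _, a, b, v, h, hv, rfl⟩ σ
    exact ⟨G, _, _, inferInstance, a, b, fun n => ev a b v (σ n), h,
      fun n => ev_in (h.lt hr) hv _, by ext; simp [ev_subst]⟩
  · choose T h1 h2 using fun F : {F : Finset Fm // ↑F ⊆ S} => hS F.1 F.2
    choose G _ _ _ a b v h3 h4 h5 using h1
    have : Nonempty {F : Finset Fm // ↑F ⊆ S} := ⟨⟨∅, by simp⟩⟩
    have : IsDirectedOrder {F : Finset Fm // ↑F ⊆ S} := ⟨fun F F' => by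
      classical exact ⟨⟨F.1 ∪ F'.1, by simp [F.2, F'.2]⟩, Finset.subset_union_left,
        Finset.subset_union_right⟩⟩
    let U := Ultrafilter.of (atTop : Filter {F : Finset Fm // ↑F ⊆ S})
    obtain ⟨H, _, _, _, q, hq⟩ := ord_quot (H := ∀ F, G F) (Q := {x | ∀ᶠ F in U, 0 ≤ x F})
      (fun x c y d => (c.and d).mono fun F e => add_nonneg e.1 e.2) fun x =>
        Ultrafilter.eventually_or.1 (Eventually.of_forall fun F => by simpa using le_total 0 (x F))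
    simp only [mem_ofPred_eq, Pi.sub_apply, sub_nonneg] at hq
    have q1 : ∀ {x y}, (∀ᶠ F in U, x F = y F) → q x = q y := fun c =>
      ((hq _ _).2 (c.mono fun _ => Eq.le)).antisymm ((hq _ _).2 (c.mono fun _ => Eq.ge))
    have q2 : ∀ x y, q (fun F => max (x F) (y F)) = max (q x) (q y) ∧
        q (fun F => min (x F) (y F)) = min (q x) (q y) := fun x y => by
      obtain c | c := Ultrafilter.eventually_or.1 (Eventually.of_forall (f := (U : Filter _))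
        fun F => le_total (x F) (y F))
      · rw [max_eq_right ((hq _ _).2 c), min_eq_left ((hq _ _).2 c)]
        exact ⟨q1 (c.mono fun _ => max_eq_right), q1 (c.mono fun _ => min_eq_left)⟩
      · rw [max_eq_left ((hq _ _).2 c), min_eq_right ((hq _ _).2 c)]
        exact ⟨q1 (c.mono fun _ => max_eq_left), q1 (c.mono fun _ => min_eq_right)⟩
    have q3 : ∀ ψ, ev (q a) (q b) (fun n => q fun F => v F n) ψ =
        q fun F => ev (a F) (b F) (v F) ψ := fun ψ => by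
      induction ψ with
      | var n => rfl
      | bot => rfl
      | top => exact q.map_zero.symm
      | and φ ψ c d => simp only [ev, c, d, (q2 _ _).2]
      | or φ ψ c d => simp only [ev, c, d, (q2 _ _).1]
      | mul φ ψ c d => simp only [ev, c, d, (q2 _ _).1, ← map_add]; rfl
      | imp φ ψ c d =>
        simp only [ev]
        rw [c, d]
        split_ifs with e <;> rw [hq] at e
        · exact q.map_zero.symm.trans (q1 (e.mono fun F f => (if_pos f).symm))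
        · rw [← map_sub, ← (q2 _ _).2]
          exact q1 ((Ultrafilter.eventually_not.2 e).mono fun F f => (if_neg f).symm)
    refine ⟨_, ⟨H, _, _, inferInstance, q a, q b, fun n => q fun F => v F n, fun m k => ?_,
      fun n => ⟨(hq _ _).2 (Eventually.of_forall fun F => (h4 F n).1), ?_⟩, rfl⟩, fun ψ c => ?_⟩
    · rw [← map_zsmul, ← map_zsmul, ← map_add, ← q.map_zero, hq]
      simpa using (eventually_congr (Eventually.of_forall fun F => h3 F m k)).trans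
        eventually_const
    · exact (Ultrafilter.eventually_or.1 (Eventually.of_forall fun F => (h4 F n).2)).imp
        (hq _ _).2 fun c => (q1 c).trans q.map_zero
    · refine (q3 ψ).trans ((q1 ?_).trans q.map_zero)
      refine ((eventually_ge_atTop ⟨{ψ}, by simpa using c⟩).filter_mono
        (Ultrafilter.of_le _)).mono fun F d => ?_
      have := h2 F (d (Finset.mem_singleton_self ψ))
      rwa [h5] at this
  · rintro _ ⟨G, _, _, _, a, b, v, h, hv, rfl⟩ _ ⟨G', _, _, _, a', b', w, h', hw, rfl⟩ X1 X2 hX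
    have l := h.lt hr
    have l' := h'.lt hr
    obtain ⟨N, n1, n2, n3⟩ := Sub.ext hr h h'
      (T := {p | ∃ ψ : Fm, ψ.vars ⊆ X1 ∩ X2 ∧ p = (ev a b v ψ, ev a' b' w ψ)})
      ⟨⟨.bot, empty_subset _, rfl⟩, by
        rintro _ ⟨ψ, -, rfl⟩
        exact ⟨ev_in l hv ψ, ev_in l' hw ψ⟩, by
        rintro _ ⟨φ, c, rfl⟩ _ ⟨ψ, d, rfl⟩
        have := hX (φ.imp ψ) (union_subset c d)
        simp only [mem_ofPred_eq, ev] at this
        grind, by
        rintro _ ⟨φ, c, rfl⟩ _ ⟨ψ, d, rfl⟩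
        exact ⟨φ.mul ψ, union_subset c d, rfl⟩, by
        rintro _ ⟨φ, c, rfl⟩ _ ⟨ψ, d, rfl⟩
        exact ⟨φ.imp ψ, union_subset c d, rfl⟩⟩
    obtain ⟨H, _, _, _, i, j, i1, j1, e⟩ := amalg N n1
    have ea : i a = j a' := e _ (n3 _ ⟨.bot, empty_subset _, rfl⟩)
    have eb : i b = j b' := e _ n2
    have i2 : ∀ x, i x = 0 ↔ x = 0 := fun x => by
      simp only [le_antisymm_iff, ← i1, map_zero]
    have j2 : ∀ x, j x = 0 ↔ x = 0 := fun x => by
      simp only [le_antisymm_iff, ← j1, map_zero]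
    classical
    refine ⟨_, ⟨H, _, _, inferInstance, i a, i b, fun n => if n ∈ X1 then i (v n) else j (w n),
      fun m k => ?_, fun n => ?_, rfl⟩, fun ψ c => ?_, fun ψ c => ?_⟩
    · rw [← map_zsmul, ← map_zsmul, ← map_add, ← i.map_zero, i1, h]
    · dsimp only
      split_ifs
      · simpa only [In, i1, i2] using hv n
      · simpa only [In, ea, eb, j1, j2] using hw n
    · rw [mem_ofPred_eq, ev_map i1 a b fun n d => if_pos (c d), i2]
      rfl
    · rw [mem_ofPred_eq, ea, eb, ev_map j1 a' b' (v := w) fun n d => ?_, j2]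
      · rfl
      · split_ifs with f
        exacts [e _ (n3 _ ⟨.var n, singleton_subset_iff.2 ⟨f, c d⟩, rfl⟩), rfl]

theorem Md_inj {r s : ℝ} (hr : r ∈ Ioo (1 / 4 : ℝ) (1 / 3)) (hs : s ∈ Ioo (1 / 4 : ℝ) (1 / 3))
    (h : Lg (Md r) = Lg (Md s)) : s ≤ r := by
  have h1 : Ty r (-1 : ℝ) (-r) := fun m k => by
    simp only [zsmul_eq_mul]
    constructor <;> intro <;> linarith
  have hv : ∀ _n : ℕ, In (-1 : ℝ) (-r) (-r) := fun _ => ⟨by linarith [hr.2], Or.inl le_rfl⟩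
  obtain ⟨G, _, _, _, a, b, w, h', hw, e⟩ := (good_Md hr).mem (good_Md hs) h
    ⟨ℝ, _, _, inferInstance, -1, -r, fun _ => -r, h1, hv, rfl⟩
  have l := h1.lt hr
  have l' := h'.lt hs
  have t : Sub (-1 : ℝ) (-r) a b {p | ∃ ψ : Fm, p = (ev (-1) (-r) (fun _ => -r) ψ, ev a b w ψ)} :=
    ⟨⟨.bot, rfl⟩, by
      rintro _ ⟨ψ, rfl⟩
      exact ⟨ev_in l hv ψ, ev_in l' hw ψ⟩, by
      rintro _ ⟨φ, rfl⟩ _ ⟨ψ, rfl⟩
      have := Set.ext_iff.1 e (φ.imp ψ)
      simp only [mem_ofPred_eq, ev] at this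
      grind, by
      rintro _ ⟨φ, rfl⟩ _ ⟨ψ, rfl⟩
      exact ⟨φ.mul ψ, rfl⟩, by
      rintro _ ⟨φ, rfl⟩ _ ⟨ψ, rfl⟩
      exact ⟨φ.imp ψ, rfl⟩⟩
  obtain ⟨N, n1, n2, n3⟩ := t.one l l' ⟨.var 0, congrArg _ (t.fix l ⟨.var 0, rfl⟩).symm⟩
  refine not_lt.1 fun c => ?_
  obtain ⟨q, q1, q2⟩ := exists_rat_btwn c
  have h3 := n1 _ (N.add_mem (N.zsmul_mem (n3 _ t.t0) (-q.num)) (N.zsmul_mem n2 q.den))
  have h4 := h' q.num (-q.den)
  have h5 : (q.num : ℝ) = q.den * q := by exact_mod_cast (Rat.den_mul_eq_num q).symm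
  have h6 : (0 : ℝ) < q.den := by exact_mod_cast q.den_pos
  simp only [Prod.fst_add, Prod.snd_add, Prod.smul_fst, Prod.smul_snd, neg_smul, Prod.fst_neg,
    Prod.snd_neg] at h3 h4
  have h8 := h3.1 (by
    simp only [zsmul_eq_mul]
    push_cast
    nlinarith [mul_pos h6 (sub_pos.2 q1)])
  have h7 := h4.1 (by
    clear * - h8
    grind)
  push_cast at h7
  nlinarith [mul_pos h6 (sub_pos.2 q2)]

theorem many {B : Set Fm → Fm → Prop} (hB : ∀ M, Good M → AxExt B (Lg M)) :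
    Cardinal.continuum ≤ Cardinal.mk {L // AxExt B L ∧ HasDIP L} := by
  rw [← Cardinal.mk_Ioo_real (show (1 / 4 : ℝ) < 1 / 3 by norm_num)]
  exact Cardinal.mk_le_of_injective (f := fun r => ⟨Lg (Md r.1), hB _ (good_Md r.2),
    (good_Md r.2).dip⟩) fun r s h => Subtype.ext
      ((Md_inj s.2 r.2 (congrArg Subtype.val h).symm).antisymm (Md_inj r.2 s.2 (congrArg Subtype.val h)))

end Pool.Agent.H39.DIP
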