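import Mathlib

set_option autoImplicit false

namespace Pool.Agent.H39.CF

/-- Derivation trees of a context-free production relation. -/
inductive Der {N T : Type} (P : N → List (N ⊕ T) → Prop) : List (N ⊕ T) → List T → Prop
  | nil : Der P [] []
  | term (a : T) {α : List (N ⊕ T)} {w : List T} : Der P α w → Der P (Sum.inr a :: α) (a :: w)
  | nt (A : N) (β : List (N ⊕ T)) {α : List (N ⊕ T)} {u w : List T} :
      P A β → Der P β u → Der P α w → Der P (Sum.inl A :: α) (u ++ w)

variable {N T N' T' : Type} {P : N → List (N ⊕ T) → Prop}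

theorem Der.append {α β : List (N ⊕ T)} {u w : List T} (h1 : Der P α u) (h2 : Der P β w) :
    Der P (α ++ β) (u ++ w) := by
  induction h1 with
  | nil => exact h2
  | term a _ ih => exact Der.term a ih
  | nt A γ hP hγ _ _ ih => rw [List.append_assoc]; exact Der.nt A γ hP hγ ih

theorem Der.nil_inv {w : List T} (h : Der P [] w) : w = [] := by
  cases h; rfl

theorem Der.term_inv {a : T} {α : List (N ⊕ T)} {w : List T} (h : Der P (Sum.inr a :: α) w) :
    ∃ w', w = a :: w' ∧ Der P α w' := by
  cases h with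
  | term _ h => exact ⟨_, rfl, h⟩

theorem Der.nt_inv {A : N} {α : List (N ⊕ T)} {w : List T} (h : Der P (Sum.inl A :: α) w) :
    ∃ β u w', w = u ++ w' ∧ P A β ∧ Der P β u ∧ Der P α w' := by
  cases h with
  | nt _ β h1 h2 h3 => exact ⟨β, _, _, rfl, h1, h2, h3⟩

theorem Der.split {α β : List (N ⊕ T)} {w : List T} (h : Der P (α ++ β) w) :
    ∃ u v, w = u ++ v ∧ Der P α u ∧ Der P β v := by
  induction α generalizing w with
  | nil => exact ⟨[], w, rfl, Der.nil, h⟩
  | cons x α ih =>
    rcases x with A | a
    · obtain ⟨γ, u, w', rfl, h1, h2, h3⟩ := h.nt_inv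
      obtain ⟨u', v, rfl, h4, h5⟩ := ih h3
      exact ⟨u ++ u', v, by simp, Der.nt A γ h1 h2 h4, h5⟩
    · obtain ⟨w', rfl, h1⟩ := h.term_inv
      obtain ⟨u', v, rfl, h4, h5⟩ := ih h1
      exact ⟨a :: u', v, by simp, Der.term a h4, h5⟩

theorem der_terms (w : List T) : Der P (w.map Sum.inr) w := by
  induction w with
  | nil => exact Der.nil
  | cons a w ih => exact Der.term a ih

theorem Der.terms_inv {u w : List T} (h : Der P (u.map Sum.inr) w) : w = u := by
  induction u generalizing w with
  | nil => exact h.nil_inv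
  | cons a u ih =>
    obtain ⟨w', rfl, h1⟩ := h.term_inv
    rw [ih h1]

theorem der_single {A : N} {w : List T} : Der P [Sum.inl A] w ↔ ∃ β, P A β ∧ Der P β w := by
  constructor
  · intro h
    obtain ⟨β, u, w', rfl, h1, h2, h3⟩ := h.nt_inv
    rw [h3.nil_inv, List.append_nil]
    exact ⟨β, h1, h2⟩
  · rintro ⟨β, h1, h2⟩
    have := Der.nt A β h1 h2 Der.nil
    rwa [List.append_nil] at this

/-- One rewriting step. -/
def Step (P : N → List (N ⊕ T) → Prop) (u v : List (N ⊕ T)) : Prop :=
  ∃ A β x y, P A β ∧ u = x ++ Sum.inl A :: y ∧ v = x ++ β ++ y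

theorem steps_ctx {u v : List (N ⊕ T)} (x y : List (N ⊕ T))
    (h : Relation.ReflTransGen (Step P) u v) :
    Relation.ReflTransGen (Step P) (x ++ u ++ y) (x ++ v ++ y) := by
  induction h with
  | refl => exact Relation.ReflTransGen.refl
  | tail _ h2 ih =>
    obtain ⟨A, β, x', y', h3, rfl, rfl⟩ := h2
    exact ih.tail ⟨A, β, x ++ x', y' ++ y, h3, by simp, by simp⟩

theorem der_iff_steps {α : List (N ⊕ T)} {w : List T} :
    Der P α w ↔ Relation.ReflTransGen (Step P) α (w.map Sum.inr) := by
  constructor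
  · intro h
    induction h with
    | nil => exact Relation.ReflTransGen.refl
    | term a _ ih => simpa using steps_ctx [Sum.inr a] [] ih
    | @nt A β α u w hP _ _ ih1 ih2 =>
      refine Relation.ReflTransGen.head (b := β ++ α) ⟨A, β, [], α, hP, rfl, by simp⟩ ?_
      have h1 := steps_ctx [] α ih1
      have h2 := steps_ctx (u.map Sum.inr) [] ih2
      simp only [List.nil_append, List.append_nil] at h1 h2
      rw [List.map_append]
      exact h1.trans h2
  · intro h
    induction h using Relation.ReflTransGen.head_induction_on with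
    | refl => exact der_terms w
    | head h1 _ ih =>
      obtain ⟨A, β, x, y, h3, rfl, rfl⟩ := h1
      obtain ⟨u, v, rfl, h4, h5⟩ := ih.split
      obtain ⟨u1, u2, rfl, h6, h7⟩ := h4.split
      rw [List.append_assoc]
      exact h6.append (Der.nt A β h3 h7 h5)

/-- Forward simulation along a renaming of nonterminals. -/
theorem Der.map {P' : N' → List (N' ⊕ T) → Prop} (f : N → N')
    (hf : ∀ A β, P A β → P' (f A) (β.map (Sum.map f id))) {α : List (N ⊕ T)} {w : List T}
    (h : Der P α w) : Der P' (α.map (Sum.map f id)) w := by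
  induction h with
  | nil => exact Der.nil
  | term a _ ih => exact Der.term a ih
  | nt A β hP _ _ ih1 ih2 => exact Der.nt (f A) _ (hf _ _ hP) ih1 ih2

/-- Backward simulation along a renaming of nonterminals. -/
theorem Der.comap {P' : N' → List (N' ⊕ T) → Prop} (f : N → N')
    (hf : ∀ A β', P' (f A) β' → ∃ β, P A β ∧ β' = β.map (Sum.map f id))
    {α' : List (N' ⊕ T)} {w : List T} (h : Der P' α' w) :
    ∀ α : List (N ⊕ T), α' = α.map (Sum.map f id) → Der P α w := by
  induction h with
  | nil =>
    intro α h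
    rw [List.map_eq_nil_iff.1 h.symm]
    exact Der.nil
  | term a _ ih =>
    intro α h
    obtain ⟨x, α1, rfl, h1, h2⟩ := List.map_eq_cons_iff.1 h.symm
    rcases x with A | b
    · simp at h1
    · obtain rfl : b = a := by simpa using h1
      exact Der.term b (ih _ h2.symm)
  | nt A' β' hP _ _ ih1 ih2 =>
    intro α h
    obtain ⟨x, α1, rfl, h1, h2⟩ := List.map_eq_cons_iff.1 h.symm
    rcases x with A | b
    · obtain rfl : f A = A' := by simpa using h1
      obtain ⟨β, h3, h4⟩ := hf A β' hP
      exact Der.nt A β h3 (ih1 _ h4) (ih2 _ h2.symm)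
    · simp at h1

theorem Der.eq_nil (hP : ∀ A β, P A β → β ≠ []) {α : List (N ⊕ T)} {w : List T}
    (h : Der P α w) (hw : w = []) : α = [] := by
  induction h with
  | nil => rfl
  | term a _ _ => simp at hw
  | nt A β h1 _ _ ih1 _ =>
    exact absurd (ih1 (List.append_eq_nil_iff.1 hw).1) (hP _ _ h1)

theorem Der.mem_used {α : List (N ⊕ T)} {w : List T} (h : Der P α w) :
    ∀ c ∈ w, Sum.inr c ∈ α ∨ ∃ A β, P A β ∧ Sum.inr c ∈ β := by
  induction h with
  | nil => simp
  | term a _ ih =>
    intro c hc
    rcases List.mem_cons.1 hc with rfl | hc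
    · simp
    · rcases ih c hc with h | h
      · exact Or.inl (List.mem_cons_of_mem _ h)
      · exact Or.inr h
  | nt A β hP _ _ ih1 ih2 =>
    intro c hc
    rcases List.mem_append.1 hc with hc | hc
    · rcases ih1 c hc with h | h
      · exact Or.inr ⟨A, β, hP, h⟩
      · exact Or.inr h
    · rcases ih2 c hc with h | h
      · exact Or.inl (List.mem_cons_of_mem _ h)
      · exact Or.inr h

end Pool.Agent.H39.CF
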