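import Mathlib

/-! The Erdos-Tarski theorem: a singular supremum of sizes of cellular families is attained. -/

set_option autoImplicit false

namespace Pool.Agent.H39.ET
open Set Cardinal

variable {X : Type} [TopologicalSpace X]

def Cel (U : Set X) (μ : Cardinal.{0}) : Prop :=
  ∃ 𝒱 : Set (Set X), (∀ V ∈ 𝒱, IsOpen V ∧ V.Nonempty ∧ V ⊆ U) ∧ 𝒱.PairwiseDisjoint id ∧ μ ≤ #𝒱

theorem Cel.mono {U U' : Set X} {μ μ' : Cardinal.{0}} (h : Cel U μ) (h1 : U ⊆ U') (h2 : μ' ≤ μ) :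
    Cel U' μ' := by
  obtain ⟨𝒱, h3, h4, h5⟩ := h
  exact ⟨𝒱, fun V hV => ⟨(h3 V hV).1, (h3 V hV).2.1, (h3 V hV).2.2.trans h1⟩, h4, h2.trans h5⟩

noncomputable def sat (U : Set X) : Cardinal.{0} := sInf {μ | ¬ Cel U μ}

theorem lt_sat {U : Set X} {μ : Cardinal.{0}} : μ < sat U ↔ Cel U μ := by
  have hne : {μ | ¬ Cel U μ}.Nonempty := ⟨Order.succ #(Set X), fun ⟨𝒱, _, _, h⟩ =>
    absurd (h.trans (mk_set_le 𝒱)) (Order.lt_succ _).not_ge⟩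
  constructor
  · intro h
    by_contra hc
    exact absurd (csInf_le' (show μ ∈ {μ | ¬ Cel U μ} from hc)) h.not_ge
  · intro h
    by_contra hc
    exact csInf_mem hne (h.mono subset_rfl (not_lt.1 hc))

theorem sat_mono {U V : Set X} (h : V ⊆ U) : sat V ≤ sat U :=
  le_of_forall_lt fun _ hc => lt_sat.2 ((lt_sat.1 hc).mono h le_rfl)

def Stab (U : Set X) : Prop :=
  IsOpen U ∧ U.Nonempty ∧ ∀ V, IsOpen V → V.Nonempty → V ⊆ U → sat V = sat U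

theorem exists_stab {V : Set X} (h1 : IsOpen V) (h2 : V.Nonempty) : ∃ U ⊆ V, Stab U := by
  obtain ⟨c, ⟨U, ⟨h3, h4, h5⟩, rfl⟩, hm⟩ := wellFounded_lt.has_min
    (sat '' {U | IsOpen U ∧ U.Nonempty ∧ U ⊆ V}) ⟨_, V, ⟨h1, h2, subset_rfl⟩, rfl⟩
  exact ⟨U, h5, h3, h4, fun W h6 h7 h8 => le_antisymm (sat_mono h8)
    (not_lt.1 (hm _ ⟨W, ⟨h6, h7, h8.trans h5⟩, rfl⟩))⟩

theorem exists_max : ∃ 𝒮 : Set (Set X), (∀ U ∈ 𝒮, Stab U) ∧ 𝒮.PairwiseDisjoint id ∧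
    ∀ V, IsOpen V → V.Nonempty → ∃ U ∈ 𝒮, (V ∩ U).Nonempty := by
  obtain ⟨𝒮, h⟩ := zorn_subset {𝒮 : Set (Set X) | (∀ U ∈ 𝒮, Stab U) ∧ 𝒮.PairwiseDisjoint id}
    fun c hc hch => ⟨⋃₀ c, ⟨fun U ⟨s, h1, h2⟩ => (hc h1).1 U h2,
      (pairwiseDisjoint_sUnion hch.directedOn).2 fun s hs => (hc hs).2⟩,
      fun s hs => subset_sUnion_of_mem hs⟩
  refine ⟨𝒮, h.prop.1, h.prop.2, fun V h1 h2 => ?_⟩
  by_contra hc
  push Not at hc
  obtain ⟨U, h3, h4⟩ := exists_stab h1 h2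
  have hd : ∀ W ∈ 𝒮, Disjoint U W := fun W hW =>
    Set.disjoint_of_subset_left h3 (disjoint_iff_inter_eq_empty.2 (hc W hW))
  have : insert U 𝒮 ⊆ 𝒮 := h.2 ⟨fun W hW => hW.elim (fun h => h ▸ h4) (h.prop.1 W),
    h.prop.2.insert fun W hW _ => hd W hW⟩ (subset_insert _ _)
  obtain ⟨x, hx⟩ := h4.2.1
  exact (hd U (this (mem_insert _ _))).notMem_of_mem_left hx hx

theorem cel_of_fam {ι : Type} {U : Set X} {W : ι → Set X}
    (h1 : ∀ i, IsOpen (W i) ∧ (W i).Nonempty ∧ W i ⊆ U)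
    (h2 : ∀ i j, i ≠ j → Disjoint (W i) (W j)) : Cel U #ι := by
  have hi : Function.Injective W := fun i j h => by
    by_contra hc
    obtain ⟨x, hx⟩ := (h1 i).2.1
    exact (h2 i j hc).notMem_of_mem_left hx (h ▸ hx)
  refine ⟨range W, by rintro _ ⟨i, rfl⟩; exact h1 i, ?_, (mk_range_eq _ hi).ge⟩
  rintro _ ⟨i, rfl⟩ _ ⟨j, rfl⟩ h
  exact h2 i j fun e => h (by rw [e])

theorem fam_of_cel {ι : Type} {U : Set X} (h : Cel U #ι) : ∃ W : ι → Set X,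
    (∀ i, IsOpen (W i) ∧ (W i).Nonempty ∧ W i ⊆ U) ∧ ∀ i j, i ≠ j → Disjoint (W i) (W j) := by
  obtain ⟨𝒱, h1, h2, h3⟩ := h
  obtain ⟨e⟩ := (le_def _ _).1 h3
  exact ⟨fun i => (e i).1, fun i => h1 _ (e i).2, fun i j hij =>
    h2 (e i).2 (e j).2 fun he => hij (e.injective (Subtype.ext he))⟩

theorem et {κ : Cardinal.{0}} (hκ : κ.IsSingular) (h : ∀ μ < κ, Cel (Set.univ : Set X) μ) :
    Cel (Set.univ : Set X) κ := by
  obtain ⟨𝒮, h1, h2, h3⟩ := exists_max (X := X)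
  rcases le_or_gt κ #𝒮 with hS | hS
  · exact ⟨𝒮, fun V hV => ⟨(h1 V hV).1, (h1 V hV).2.1, subset_univ _⟩, h2, hS⟩
  have hℵ : ℵ₀ < κ := lt_of_le_of_ne hκ.aleph0_le fun e => not_isSingular_aleph0 (e ▸ hκ)
  have key : ∀ μ < κ, ∃ U ∈ 𝒮, μ < sat U := fun μ hμ => by
    have hν : Order.succ (max (max μ #𝒮) ℵ₀) < κ :=
      hκ.isSuccLimit.succ_lt (max_lt (max_lt hμ hS) hℵ)
    have hr := isRegular_succ (le_max_right (max μ #𝒮) ℵ₀)
    obtain ⟨𝒱, h4, h5, h6⟩ := h _ hν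
    choose f hf hf' using fun V : 𝒱 => h3 V.1 (h4 _ V.2).1 (h4 _ V.2).2.1
    obtain ⟨U, hU⟩ := infinite_pigeonhole_card (fun V : 𝒱 => (⟨f V, hf V⟩ : 𝒮)) _ h6 hr.aleph0_le
      (by rw [hr.cof_ord]; exact Order.lt_succ_of_le ((le_max_right _ _).trans (le_max_left _ _)))
    refine ⟨U.1, U.2, lt_sat.2 (Cel.mono (cel_of_fam (W := fun V : (fun V : 𝒱 =>
      (⟨f V, hf V⟩ : 𝒮)) ⁻¹' {U} => V.1.1 ∩ U.1) (fun V => ⟨(h4 _ V.1.2).1.inter (h1 _ U.2).1, ?_,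
        inter_subset_right⟩) fun V V' hne => ?_) subset_rfl ?_)⟩
    · have : f V.1 = U.1 := congrArg Subtype.val V.2
      rw [← this]; exact hf' _
    · exact Set.disjoint_of_subset inter_subset_left inter_subset_left
        (h5 V.1.2 V'.1.2 fun e => hne (Subtype.ext (Subtype.ext e)))
    · exact (((le_max_left _ _).trans (le_max_left _ _)).trans (Order.le_succ _)).trans hU
  obtain ⟨ι, g, hg, hι⟩ := Ordinal.exists_lsub_cof κ.ord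
  have hι' : #ι < κ := hι ▸ hκ.cof_ord_lt
  have hg' : ∀ i, (g i).card < κ := fun i => lt_ord.1 (hg ▸ Ordinal.lt_lsub g i)
  choose U hU hU' using fun i => key _ (max_lt (hg' i) hι')
  choose W hW hW' using fun i => fam_of_cel (lt_sat.1 ((le_max_right _ _).trans_lt (hU' i)))
  classical
  let r : ι → ι := fun i => (⟨i, rfl⟩ : ∃ j, U j = U i).choose
  have hr : ∀ i, U (r i) = U i := fun i => (⟨i, rfl⟩ : ∃ j, U j = U i).choose_spec
  have hr' : ∀ i j, U i = U j → r i = r j := fun i j e => by simp only [r, e]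
  have hc : ∀ i, Cel (W (r i) i) (g i).card := fun i => lt_sat.1 (by
    rw [(h1 _ (hU (r i))).2.2 _ (hW _ i).1 (hW _ i).2.1 (hW _ i).2.2, hr]
    exact (le_max_left _ _).trans_lt (hU' i))
  have hd : ∀ i j, i ≠ j → Disjoint (W (r i) i) (W (r j) j) := fun i j hij => by
    by_cases e : U i = U j
    · rw [hr' i j e]; exact hW' _ i j hij
    · exact Set.disjoint_of_subset (hW _ i).2.2 (hW _ j).2.2
        (h2 (hU _) (hU _) (by rwa [hr, hr]))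
  choose 𝒱 h4 h5 h6 using hc
  refine ⟨⋃ i, 𝒱 i, fun V hV => ?_, fun V hV V' hV' hne => ?_, ?_⟩
  · obtain ⟨i, hi⟩ := mem_iUnion.1 hV
    exact ⟨(h4 i V hi).1, (h4 i V hi).2.1, subset_univ _⟩
  · obtain ⟨i, hi⟩ := mem_iUnion.1 hV
    obtain ⟨j, hj⟩ := mem_iUnion.1 hV'
    by_cases e : i = j
    · subst e; exact h5 i hi hj hne
    · exact Set.disjoint_of_subset (h4 i V hi).2.2 (h4 j V' hj).2.2 (hd i j e)
  · by_contra hlt
    have h7 := hκ.isSuccLimit.succ_lt (not_le.1 hlt)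
    have h8 : (Order.succ #(⋃ i, 𝒱 i)).ord < Ordinal.lsub g := hg ▸ ord_lt_ord.2 h7
    obtain ⟨i, hi⟩ := Ordinal.lt_lsub_iff.1 h8
    exact absurd ((ord_le.1 hi).trans ((h6 i).trans (mk_le_mk_of_subset (subset_iUnion _ i))))
      (Order.lt_succ _).not_ge

end Pool.Agent.H39.ET
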