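import Pool.Agent.H39.Epi

set_option autoImplicit false

namespace Pool.Agent.H39.Elem

open Set Filter Topology MeasureTheory Pool.Agent.H39.Epi FirstOrder

abbrev Code := ∀ _ : ℕ, (Fin 2 → ℕ) → Bool

abbrev lang : FirstOrder.Language :=
  FirstOrder.Language.mk (fun _ => PEmpty.{1}) (fun n => {i : ℕ // (fun _ => 2) i = n})

abbrev St (u : Code) : lang.Structure ℕ :=
  @FirstOrder.Language.Structure.mk lang ℕ (fun f _ => PEmpty.elim f)
    (fun r xs => u (Subtype.val r) (xs ∘ Fin.cast (Subtype.property r)) = true)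

theorem term_inv (u : Code) {α : Type} (σ : ℕ → ℕ) (v : α → ℕ) (t : lang.Term α) :
    @Language.Term.realize lang ℕ (St u) α (σ ∘ v) t =
      σ (@Language.Term.realize lang ℕ (St u) α v t) := by
  cases t with
  | var a => rfl
  | func f _ => exact PEmpty.elim f

theorem inv (u : Code) (d : Empty → ℕ) : ∀ {n : ℕ} (φ : lang.BoundedFormula Empty n), ∃ K : ℕ,
    ∀ σ : Equiv.Perm ℕ, (∀ i < K, ∀ v, u i (σ ∘ v) = u i v) → ∀ xs : Fin n → ℕ,
      @Language.BoundedFormula.Realize lang ℕ (St u) Empty n φ d (σ ∘ xs) ↔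
        @Language.BoundedFormula.Realize lang ℕ (St u) Empty n φ d xs := by
  let := St u
  have hs : ∀ (σ : ℕ → ℕ) {n : ℕ} (xs : Fin n → ℕ),
      Sum.elim d (σ ∘ xs) = σ ∘ Sum.elim d xs := fun σ n xs =>
    funext fun z => by
      rcases z with z | z
      · exact z.elim
      · rfl
  intro n φ
  induction φ with
  | falsum => exact ⟨0, fun _ _ _ => Iff.rfl⟩
  | equal t1 t2 =>
    refine ⟨0, fun σ _ xs => ?_⟩
    simp only [Language.BoundedFormula.Realize, hs, term_inv u]
    exact σ.injective.eq_iff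
  | rel R ts =>
    refine ⟨R.1 + 1, fun σ h xs => ?_⟩
    simp only [Language.BoundedFormula.Realize, hs, term_inv u]
    have := h R.1 (Nat.lt_succ_self _)
      ((fun i => (ts i).realize (Sum.elim d xs)) ∘ Fin.cast R.2)
    exact iff_of_eq (congrArg (· = true) this)
  | imp f1 f2 ih1 ih2 =>
    obtain ⟨K1, h1⟩ := ih1
    obtain ⟨K2, h2⟩ := ih2
    refine ⟨max K1 K2, fun σ h xs => ?_⟩
    simp only [Language.BoundedFormula.Realize]
    rw [h1 σ (fun i hi => h i (lt_max_of_lt_left hi)), h2 σ (fun i hi => h i (lt_max_of_lt_right hi))]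
  | all f ih =>
    obtain ⟨K, h1⟩ := ih
    refine ⟨K, fun σ h xs => ?_⟩
    simp only [Language.BoundedFormula.Realize]
    rw [σ.surjective.forall]
    refine forall_congr' fun x => ?_
    rw [← h1 σ h (Fin.snoc xs x), Fin.comp_snoc]

abbrev N : Type := M × Option ℕ

instance : MeasurableSpace (Option ℕ) := ⊤
instance : DiscreteMeasurableSpace (Option ℕ) := ⟨fun _ => trivial⟩

def dec : ℕ → Option ℕ
  | 0 => none
  | k + 1 => some k

def enc : Option ℕ → ℕ
  | none => 0
  | some k => k + 1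

theorem dec_enc (o : Option ℕ) : dec (enc o) = o := by cases o <;> rfl

def Rl (i : ℕ) (z w : N) : Prop :=
  if i % 2 = 0 then rel (dec (i / 2)) z.1 w.1 else
    if i = 1 then z.1.1 = [] else z.2 = some (i / 2 - 1)

theorem Rl_rel (o : Option ℕ) (z w : N) : Rl (2 * enc o) z w ↔ rel o z.1 w.1 := by
  simp [Rl, dec_enc]

theorem Rl_root (z w : N) : Rl 1 z w ↔ z.1.1 = [] := by simp [Rl]

theorem Rl_col (c : ℕ) (z w : N) : Rl (2 * c + 3) z w ↔ z.2 = some c := by
  rw [Rl, if_neg (by omega), if_neg (by omega), show (2 * c + 3) / 2 - 1 = c by omega]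

open Classical in
noncomputable def str' (e : ℕ → N) : Code := fun i v => decide (Rl i (e (v 0)) (e (v 1)))

open Classical in
noncomputable def ν (P : Nd → Prop) (z : N) : ℕ∞ := if z.2 = none then μ P z.1 else 1

theorem one_le_ν (P : Nd → Prop) (z : N) : 1 ≤ ν P z := by
  unfold ν
  split_ifs
  · exact one_le_μ _ _
  · rfl

theorem induced' {e e' : ℕ → N} (he : e.Surjective) {h : ℕ → ℕ}
    (H : ∀ i v, str' e' i (h ∘ v) = str' e i v) :
    ∃ π : M → M, π.Injective ∧ (∀ a, e' (h a) = (π (e a).1, (e a).2)) ∧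
      (∀ i m m', rel i m m' ↔ rel i (π m) (π m')) ∧ (π ([], 0)).1 = [] := by
  have H0 : ∀ i a b, Rl i (e' (h a)) (e' (h b)) ↔ Rl i (e a) (e b) := fun i a b => by
    have := H i ![a, b]
    simp only [str', decide_eq_decide] at this
    exact this
  have H1 : ∀ i a b, rel i (e' (h a)).1 (e' (h b)).1 ↔ rel i (e a).1 (e b).1 := fun i a b => by
    rw [← Rl_rel, ← Rl_rel, H0]
  choose s hs using fun m : M => he (m, none)
  have hs1 : ∀ m, (e (s m)).1 = m := fun m => by rw [hs]
  have h1 : ∀ a, (e' (h a)).1 = (e' (h (s (e a).1))).1 := by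
    intro a
    refine rel_none_inj (d := (e' (h (s ((e a).1.1, (e a).1.2 + 1)))).1) ?_ ?_
    · rw [H1, hs1]; rfl
    · rw [H1, hs1, hs1]; rfl
  have h2 : ∀ i m m', rel i m m' ↔ rel i (e' (h (s m))).1 (e' (h (s m'))).1 := fun i m m' => by
    rw [H1, hs1, hs1]
  refine ⟨fun m => (e' (h (s m))).1, fun m m' hm => ?_, fun a => Prod.ext (h1 a) ?_, h2, ?_⟩
  · refine rel_none_inj (d := (m.1, m.2 + 1)) rfl ?_
    rw [h2, ← show (e' (h (s m))).1 = (e' (h (s m'))).1 from hm, ← h2]
    rfl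
  · refine Option.ext fun c => ?_
    have := H0 (2 * c + 3) a a
    rwa [Rl_col, Rl_col] at this
  · have := H0 1 (s ([], 0)) (s ([], 0))
    rw [Rl_root, Rl_root, hs1] at this
    exact this.2 rfl

theorem branch' {φ : (ℕ → ℕ) → (ℕ → ℕ) × (ℕ → ℕ)} {a b : ℕ → ℕ} {π : M → M}
    (hπ : (π ([], 0)).1 = [])
    (h : ∀ i m m', rel i m m' ↔ rel i (π m) (π m'))
    (hμ : ∀ m, μ (Re φ a) m ≤ μ (Re φ b) (π m)) : ∃ w, ∀ n, ∃ k, Ch φ n a k b w := by
  let p : ℕ → ℕ × ℕ := fun i => (a i, 2 * 0)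
  have h1 : ∀ n, ∃ i, (π (pre p (n + 1), 0)).1 = (π (pre p n, 0)).1 ++ [(a n, i)] := fun n =>
    (h (some (a n)) (pre p n, 0) (pre p (n + 1), 0)).1 ⟨_, pre_succ p n⟩
  choose v hv using h1
  have h2 : ∀ n, (π (pre p n, 0)).1 = pre (fun i => (a i, v i)) n := by
    intro n
    induction n with
    | zero => exact hπ
    | succ n ih => rw [hv, ih, pre_succ]
  refine ⟨fun i => v i / 2, fun n => ?_⟩
  have h3 := real_of_le (fun m m' => (h none m m').1) hμ (t := pre p n)
    ⟨n, a, fun _ => 0, rfl, 0, fun _ _ => ⟨rfl, rfl⟩⟩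
  rw [h2] at h3
  exact h3.ch

theorem root_iff {π : M → M} (hπ : π.Surjective)
    (h : ∀ i m m', rel i m m' ↔ rel i (π m) (π m')) (m : M) : (π m).1 = [] ↔ m.1 = [] := by
  have key : ∀ m : M, m.1 ≠ [] ↔ ∃ l m0, rel (some l) m0 m := fun m => by
    constructor
    · intro h1
      obtain ⟨s, p, hs⟩ := (List.eq_nil_or_concat' _).resolve_left h1
      exact ⟨p.1, (s, 0), p.2, hs⟩
    · rintro ⟨l, m0, i, hi⟩
      rw [hi]; simp
  rw [← not_iff_not]
  refine (key _).trans (Iff.trans (exists_congr fun l => ?_) (key m).symm)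
  rw [hπ.exists]
  exact exists_congr fun m0 => (h _ _ _).symm

theorem exists_elem {P P' : Nd → Prop} {e e' : ℕ → N} (he : ∀ z, (e ⁻¹' {z}).encard = ν P z)
    (he' : ∀ z, (e' ⁻¹' {z}).encard = ν P' z) {π : M → M} (hπ : π.Bijective)
    (h : ∀ i m m', rel i m m' ↔ rel i (π m) (π m')) (hμ : ∀ m, μ P m ≤ μ P' (π m)) :
    Nonempty (@Language.ElementaryEmbedding lang ℕ ℕ (St (str' e)) (St (str' e'))) := by
  classical
  have hsurj : e.Surjective := fun z => one_le_encard_iff_nonempty.1 ((one_le_ν _ z).trans (he z).ge)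
  have h1 : ∀ s t : Set ℕ, s.encard ≤ t.encard → ∃ f : ℕ → ℕ, s ⊆ f ⁻¹' t ∧ InjOn f s := by
    intro s t hst
    by_cases hs : s.Finite
    · exact hs.exists_injOn_of_encard_le hst
    · have ht : t.Infinite := by
        rw [← encard_eq_top_iff, ← top_le_iff, ← Infinite.encard_eq hs]
        exact hst
      exact ⟨fun n => ht.natEmbedding t n, fun n _ => (ht.natEmbedding t n).2, fun a _ b _ h =>
        (ht.natEmbedding t).injective (Subtype.ext h)⟩
  have hν : ∀ z : N, (e ⁻¹' {z}).encard ≤ (e' ⁻¹' {(π z.1, z.2)}).encard := fun z => by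
    rw [he, he', ν, ν]
    split_ifs
    · exact hμ _
    · rfl
  choose f h2 h3 using fun z => h1 _ _ (hν z)
  have h4 : ∀ n, e' (f (e n) n) = (π (e n).1, (e n).2) := fun n => h2 (e n) rfl
  have h5 : Function.Injective fun n => f (e n) n := fun a b hab => by
    have h6 : e' (f (e a) a) = e' (f (e b) b) := congrArg e' hab
    rw [h4, h4, Prod.mk.injEq] at h6
    have h7 : e a = e b := Prod.ext (hπ.1 h6.1) h6.2
    exact h3 (e b) h7 rfl (by simpa only [h7] using hab)
  have hRl : ∀ i z w, Rl i (π z.1, z.2) (π w.1, w.2) ↔ Rl i z w := fun i z w => by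
    unfold Rl
    split_ifs
    · exact (h _ _ _).symm
    · exact root_iff hπ.2 h _
    · rfl
  let F : @Language.Embedding lang ℕ ℕ (St (str' e)) (St (str' e')) :=
    @Language.Embedding.mk lang ℕ ℕ (St (str' e)) (St (str' e')) ⟨_, h5⟩
      (fun f _ => PEmpty.elim f) (fun r x => by
        change decide _ = true ↔ decide _ = true
        simp only [decide_eq_true_eq, Function.comp, Function.Embedding.coeFn_mk, h4]
        exact hRl _ _ _)
  have hF : ∀ n, F n = f (e n) n := fun _ => rfl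
  refine ⟨@Language.Embedding.toElementaryEmbedding lang ℕ ℕ (St (str' e)) (St (str' e')) F ?_⟩
  intro n φ x a ha
  by_cases hr : ∃ b, F b = a
  · obtain ⟨b, rfl⟩ := hr
    exact ⟨b, ha⟩
  obtain ⟨K, hK⟩ := inv (str' e') (@default _ Unique.instInhabited) φ
  obtain ⟨m, hm⟩ := hπ.2 (e' a).1
  have hnone : (e' a).2 = none := by
    by_contra hc
    obtain ⟨b, hb⟩ := hsurj (m, (e' a).2)
    have h6 := he' (e' a)
    rw [ν, if_neg hc, encard_eq_one] at h6
    obtain ⟨y, hy⟩ := h6
    have e1 : a ∈ e' ⁻¹' {e' a} := rfl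
    have e2 : F b ∈ e' ⁻¹' {e' a} := by
      rw [mem_preimage, hF, h4, hb, hm]; rfl
    rw [hy] at e1 e2
    exact hr ⟨b, e2.trans e1.symm⟩
  let c := K + Finset.univ.sup fun i => ((e (x i)).2.getD 0 + 1)
  obtain ⟨b, hb⟩ := hsurj (m, some c)
  have hbx : ∀ i, x i ≠ b := fun i hi => by
    have h6 := Finset.le_sup (f := fun i => ((e (x i)).2.getD 0 + 1)) (Finset.mem_univ i)
    simp only [hi, hb, Option.getD_some] at h6
    omega
  have hFb : e' (F b) = ((e' a).1, some c) := by rw [hF, h4, hb, hm]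
  refine ⟨b, ?_⟩
  have hσ : ∀ y, (e' (Equiv.swap a (F b) y)).1 = (e' y).1 ∧
      ∀ k < K, ((e' (Equiv.swap a (F b) y)).2 = some k ↔ (e' y).2 = some k) := fun y => by
    by_cases h6 : y = a
    · rw [h6, Equiv.swap_apply_left, hFb, hnone]
      exact ⟨rfl, fun k hk => by simp only [Option.some.injEq, reduceCtorEq, iff_false]; omega⟩
    by_cases h7 : y = F b
    · rw [h7, Equiv.swap_apply_right, hFb, hnone]
      exact ⟨rfl, fun k hk => by simp only [Option.some.injEq, reduceCtorEq, false_iff]; omega⟩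
    rw [Equiv.swap_apply_of_ne_of_ne h6 h7]
    exact ⟨rfl, fun _ _ => Iff.rfl⟩
  have := (hK (Equiv.swap a (F b)) (fun i hi v => by
    simp only [str', decide_eq_decide, Function.comp]
    unfold Rl
    rw [(hσ _).1, (hσ _).1]
    split_ifs
    · rfl
    · rfl
    · exact (hσ _).2 _ (by omega)) _).2 ha
  rw [Fin.comp_snoc, Equiv.swap_apply_left] at this
  have e3 : ⇑(Equiv.swap a (F b)) ∘ (F ∘ x) = F ∘ x := funext fun i =>
    Equiv.swap_apply_of_ne_of_ne (fun h6 => hr ⟨_, h6⟩) (fun h6 => hbx i (h5 h6))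
  rwa [e3] at this

theorem exists_enum' : ∃ q : ℕ → N × ℕ, ∀ (P : Nd → Prop) (m : N),
    ((fun n => if ((q n).2 : ℕ∞) < ν P (q n).1 then (q n).1 else ((([], 1), none) : N)) ⁻¹'
      {m}).encard = ν P m := by
  obtain ⟨q⟩ : Nonempty (ℕ ≃ N × ℕ) := nonempty_equiv_of_countable
  refine ⟨q, fun P m => ?_⟩
  have h1 : ((fun j => q.symm (m, j)) '' {j : ℕ | (j : ℕ∞) < ν P m}).encard = ν P m := by
    rw [Function.Injective.encard_image (fun _ _ h => by simpa using h), encard_lt]
  have h2 : (fun j => q.symm (m, j)) '' {j : ℕ | (j : ℕ∞) < ν P m} ⊆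
      (fun n => if ((q n).2 : ℕ∞) < ν P (q n).1 then (q n).1 else ((([], 1), none) : N)) ⁻¹' {m} := by
    rintro _ ⟨j, hj, rfl⟩
    simp only [mem_preimage, Equiv.apply_symm_apply]
    exact if_pos hj
  by_cases hm : m = (([], 1), none)
  · have h3 : ν P m = ⊤ := by rw [hm]; simp [ν, μ]
    rw [h3] at h1 ⊢
    rw [← top_le_iff, ← h1, ← h3]
    exact encard_le_encard h2
  · rw [← h1]
    congr 1
    refine Subset.antisymm (fun n hn => ?_) h2
    simp only [mem_preimage, mem_singleton_iff] at hn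
    split_ifs at hn with h3
    · subst hn
      exact ⟨_, h3, by simp⟩
    · exact absurd hn.symm hm

theorem measurable_str' : Measurable str' :=
  measurable_pi_lambda _ fun i => measurable_pi_lambda _ fun v => by
    classical
    exact (measurable_of_countable fun x : N × N => decide (Rl i x.1 x.2)).comp
      (f := fun e : ℕ → N => (e (v 0), e (v 1)))
      ((measurable_pi_apply _).prodMk (measurable_pi_apply _))

theorem main {X : Type} [MeasurableSpace X] [StandardBorelSpace X] (R : Set (X × X))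
    (h1 : ∀ x, (x, x) ∈ R) (h2 : ∀ x y z, (x, y) ∈ R → (y, z) ∈ R → (x, z) ∈ R)
    {c : X → ℕ → ℕ} (hc : Measurable c) (hc' : c.Injective)
    {φ : (ℕ → ℕ) → (ℕ → ℕ) × (ℕ → ℕ)} (hφ : Continuous φ)
    (hR : ∀ _ : X, range φ = Prod.map c c '' R) :
    ∃ B : Set Code, MeasurableSet B ∧
      (∀ (σ : Equiv.Perm ℕ) (u : Code), u ∈ B ↔ (fun i v => u i (σ ∘ v)) ∈ B) ∧
      (∃ f : X → Code, Measurable f ∧ (∀ x, f x ∈ B) ∧
        ∀ x y, (x, y) ∈ R ↔
          Nonempty (@Language.ElementaryEmbedding lang ℕ ℕ (St (f x)) (St (f y)))) ∧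
      (∃ g : B → X, Measurable g ∧ ∀ u v : B,
          Nonempty (@Language.ElementaryEmbedding lang ℕ ℕ (St u.1) (St v.1)) ↔
          (g u, g v) ∈ R) := by
  classical
  let W : Set (X × (ℕ → N)) := {z | ∀ m, (z.2 ⁻¹' {m}).encard = ν (Re φ (c z.1)) m}
  have hμ : ∀ m, Measurable fun x => ν (Re φ (c x)) m := fun m => by
    unfold ν μ
    split_ifs
    · exact Measurable.ite (hc (isOpen_re φ m.1.1).measurableSet) measurable_const measurable_const
    · exact measurable_const
    · exact measurable_const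
    · exact measurable_const
  have hW : MeasurableSet W := by
    simp only [W, ofPred_forall]
    refine MeasurableSet.iInter fun m => measurableSet_eq_fun ?_ ((hμ m).comp measurable_fst)
    refine measurable_encard.comp (measurable_set_iff.2 fun n => ?_)
    exact (measurable_of_countable fun x : N => x ∈ ({m} : Set N)).comp
      ((measurable_pi_apply n).comp measurable_snd)
  have hsurj : ∀ z ∈ W, z.2.Surjective := fun z hz m =>
    one_le_encard_iff_nonempty.1 ((one_le_ν _ m).trans (hz m).ge)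
  have hνμ : ∀ P m, ν P (m, none) = μ P m := fun P m => if_pos rfl
  have key : ∀ z ∈ W, ∀ z' ∈ W,
      Nonempty (@Language.ElementaryEmbedding lang ℕ ℕ (St (str' z.2)) (St (str' z'.2))) ↔
        (z.1, z'.1) ∈ R := by
    intro z hz z' hz'
    constructor
    · rintro ⟨F⟩
      have h3 := @Language.ElementaryEmbedding.injective lang ℕ ℕ (St (str' z.2)) (St (str' z'.2)) F
      obtain ⟨π, h5, h6, h7, h7'⟩ := induced' (e' := z'.2) (hsurj z hz) (h := F) fun i v =>
        Bool.eq_iff_iff.2 (@Language.ElementaryEmbedding.map_rel lang ℕ ℕ (St (str' z.2))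
          (St (str' z'.2)) F 2 ⟨i, rfl⟩ v)
      obtain ⟨w, hw⟩ := branch' (φ := φ) (a := c z.1) (b := c z'.1) h7' h7 fun m => by
        rw [← hνμ, ← hνμ, ← hz, ← hz', ← h3.encard_image]
        refine encard_le_encard ?_
        rintro _ ⟨a, ha, rfl⟩
        rw [mem_preimage, h6, show z.2 a = (m, none) from ha]
        rfl
      obtain ⟨y, h8, h9⟩ := Ch.limit hφ (Q := fun b => ∃ y, c y = b ∧ (z.1, y) ∈ R)
        ⟨_, rfl, h1 _⟩ (fun α ⟨y, h8, h9⟩ => by
          obtain ⟨⟨y1, y2⟩, h10, h11⟩ : φ α ∈ Prod.map c c '' R := hR y ▸ mem_range_self α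
          rw [← h11] at h8 ⊢
          obtain rfl := hc' h8
          exact ⟨y2, rfl, h2 _ _ _ h9 h10⟩) _ _ w rfl hw
      rwa [← hc' h8]
    · intro h
      obtain ⟨α, hα⟩ : (c z.1, c z'.1) ∈ range φ := hR z.1 ▸ ⟨_, h, rfl⟩
      obtain ⟨π, h3, h4, h5⟩ := exists_aut φ α
      rw [hα] at h5
      exact exists_elem hz hz' h3 h4 h5
  have hinj : InjOn (fun z : X × (ℕ → N) => str' z.2) W := by
    intro z hz z' hz' h
    obtain ⟨π, h3, h4, h5, -⟩ := induced' (e' := z'.2) (hsurj z hz) (h := id)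
      fun i v => (congrFun (congrFun h i) v).symm
    have h3' : π.Surjective := fun m => by
      obtain ⟨a, ha⟩ := hsurj z' hz' (m, none)
      exact ⟨_, (congrArg Prod.fst (ha.symm.trans (h4 a))).symm⟩
    have h6 : ∀ m, μ (Re φ (c z.1)) m = μ (Re φ (c z'.1)) (π m) := fun m => by
      rw [← hνμ, ← hνμ, ← hz, ← hz']
      congr 1
      ext n
      have := h4 n
      simp only [id] at this
      simp only [mem_preimage, mem_singleton_iff, this, Prod.ext_iff (x := z.2 n),
        Prod.mk.injEq, h3.eq_iff]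
    have h7 := rigid h3' h5 h6
    refine Prod.ext (hc' (funext fun i => ?_)) (funext fun n => ((h4 n).trans (by rw [h7])).symm)
    have h8 := real_of_le (fun m m' => (h5 none m m').1) (fun m => (h6 m).le)
      (t := pre (fun i => (c z.1 i, 2 * 0)) (i + 1))
      ⟨_, _, fun _ => 0, rfl, 0, fun _ _ => ⟨rfl, rfl⟩⟩
    rw [h7] at h8
    obtain ⟨_ | k, hk⟩ := h8.ch
    · exact (hk i (by omega)).1
    · exact absurd (by simp) (hk.1 i (by omega))
  have hm : Measurable fun z : X × (ℕ → N) => str' z.2 := measurable_str'.comp measurable_snd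
  obtain ⟨q, hq⟩ := exists_enum'
  have hinv : ∀ (σ : Equiv.Perm ℕ) (u : Code), u ∈ (fun z : X × (ℕ → N) => str' z.2) '' W →
      (fun i v => u i (σ ∘ v)) ∈ (fun z : X × (ℕ → N) => str' z.2) '' W := by
    rintro σ _ ⟨z, hz, rfl⟩
    refine ⟨(z.1, z.2 ∘ σ), fun m => ?_, rfl⟩
    rw [← hz, preimage_comp, encard_preimage_of_bijective σ.bijective]
  refine ⟨_, hW.image_of_measurable_injOn hm hinj, fun σ u => ⟨hinv σ u, fun h => ?_⟩,
    ⟨fun x => str' fun n =>
    if ((q n).2 : ℕ∞) < ν (Re φ (c x)) (q n).1 then (q n).1 else ((([], 1), none) : N), ?_,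
      fun x => ⟨(x, _), hq (Re φ (c x)), rfl⟩,
      fun x y => (key (x, _) (hq (Re φ (c x))) (y, _) (hq (Re φ (c y)))).symm⟩, ?_⟩
  · have := hinv σ.symm _ h
    simpa only [← Function.comp_assoc, Equiv.self_comp_symm, Function.id_comp] using this
  · refine measurable_str'.comp (measurable_pi_lambda _ fun n => ?_)
    exact Measurable.ite ((hμ _) (show MeasurableSet {k | ((q n).2 : ℕ∞) < k} from trivial))
      measurable_const measurable_const
  · choose G h3 h4 using fun u : (fun z : X × (ℕ → N) => str' z.2) '' W => u.2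
    refine ⟨fun u => (G u).1, fun A hA => ?_, fun u v => ?_⟩
    · have h5 := measurable_subtype_coe (p := (· ∈ (fun z : X × (ℕ → N) => str' z.2) '' W))
        ((hW.inter (measurable_fst hA)).image_of_measurable_injOn hm
          (hinj.mono inter_subset_left))
      convert h5 using 1
      ext u
      refine ⟨fun hu => ⟨G u, ⟨h3 u, hu⟩, h4 u⟩, fun ⟨z, hz, h6⟩ => ?_⟩
      rw [mem_preimage, hinj (h3 u) hz.1 ((h4 u).trans h6.symm)]
      exact hz.2
    · rw [← key _ (h3 u) _ (h3 v), ← h4 u, ← h4 v]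

end Pool.Agent.H39.Elem
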