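import Mathlib

set_option autoImplicit false

namespace Pool.Agent.H39.Epi

open Set Filter Topology MeasureTheory

/-! ### Approximate chains -/

def cA (m : ℕ) : ℕ := (Nat.unpair (Nat.unpair (m - 1)).1).1
def cZ (m : ℕ) : ℕ := (Nat.unpair (Nat.unpair (m - 1)).1).2
def cW (m : ℕ) : ℕ := (Nat.unpair (m - 1)).2
def mk (α z w : ℕ) : ℕ := Nat.pair (Nat.pair α z) w + 1

theorem cW_lt {m : ℕ} (h : m ≠ 0) : cW m < m := by
  have := Nat.unpair_right_le (m - 1)
  unfold cW
  omega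

section
variable (φ : (ℕ → ℕ) → (ℕ → ℕ) × (ℕ → ℕ))

def Ch (n : ℕ) (a : ℕ → ℕ) : ℕ → (ℕ → ℕ) → (ℕ → ℕ) → Prop
  | 0, b, w => ∀ i < n, a i = b i ∧ w i = 0
  | k + 1, b, w => (∀ i < n, w i ≠ 0) ∧ Ch n a k (fun i => cZ (w i)) (fun i => cW (w i)) ∧
      ∃ α : ℕ → ℕ, ∀ i < n, α i = cA (w i) ∧ (φ α).1 i = cZ (w i) ∧ (φ α).2 i = b i

variable {φ}

theorem Ch.congr {n : ℕ} {a a' : ℕ → ℕ} (ha : ∀ i < n, a i = a' i) :
    ∀ {k : ℕ} {b b' w w' : ℕ → ℕ}, (∀ i < n, b i = b' i) → (∀ i < n, w i = w' i) →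
      Ch φ n a k b w → Ch φ n a' k b' w'
  | 0, _, _, _, _, hb, hw, h => fun i hi => by
      rw [← ha i hi, ← hb i hi, ← hw i hi]; exact h i hi
  | _ + 1, _, _, _, _, hb, hw, ⟨h1, h2, α, h3⟩ =>
      ⟨fun i hi => hw i hi ▸ h1 i hi,
        Ch.congr ha (fun i hi => by rw [hw i hi]) (fun i hi => by rw [hw i hi]) h2,
        α, fun i hi => by rw [← hw i hi, ← hb i hi]; exact h3 i hi⟩

theorem Ch.step {n k : ℕ} {a w α : ℕ → ℕ} (h : Ch φ n a k (φ α).1 w) :
    Ch φ n a (k + 1) (φ α).2 fun i => mk (α i) ((φ α).1 i) (w i) := by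
  refine ⟨fun i _ => Nat.succ_ne_zero _, ?_, α, fun i _ => ?_⟩
  · simpa [cZ, cW, mk] using h
  · simp [cA, cZ, mk]

theorem Ch.limit (hφ : Continuous φ) {a : ℕ → ℕ} {Q : (ℕ → ℕ) → Prop} (h0 : Q a)
    (h1 : ∀ α, Q (φ α).1 → Q (φ α).2) :
    ∀ (m : ℕ) (b w : ℕ → ℕ), w 0 = m → (∀ n, ∃ k, Ch φ n a k b w) → Q b := by
  intro m
  induction m using Nat.strong_induction_on with
  | _ m ih =>
  intro b w hw h
  by_cases hm : w 0 = 0
  · have : a = b := funext fun i => by
      obtain ⟨_ | k, hk⟩ := h (i + 1)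
      · exact (hk i (by omega)).1
      · exact absurd hm (hk.1 0 (by omega))
    exact this ▸ h0
  · have h2 : ∀ n, ∃ k, Ch φ (n + 1) a (k + 1) b w := fun n => by
      obtain ⟨_ | k, hk⟩ := h (n + 1)
      · exact absurd (hk 0 (by omega)).2 hm
      · exact ⟨k, hk⟩
    have h3 := ih _ (hw ▸ cW_lt hm) (fun i => cZ (w i)) (fun i => cW (w i)) rfl fun n => by
      rcases n with _ | n
      · exact ⟨0, fun i hi => by omega⟩
      · exact (h2 n).imp fun k hk => hk.2.1
    choose k h4 using h2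
    choose α h5 using fun n => (h4 n).2.2
    have h6 : ∀ (g : ℕ → ℕ → ℕ) (v : ℕ → ℕ), (∀ n, ∀ i < n + 1, g n i = v i) →
        Tendsto g atTop (𝓝 v) := fun g v hg =>
      tendsto_pi_nhds.2 fun i => tendsto_const_nhds.congr' <|
        (eventually_ge_atTop i).mono fun n hn => (hg n i (by omega)).symm
    have h7 : φ (fun i => cA (w i)) = (fun i => cZ (w i), b) :=
      tendsto_nhds_unique ((hφ.tendsto _).comp (h6 α _ fun n i hi => (h5 n i hi).1))
        ((h6 _ _ fun n i hi => (h5 n i hi).2.1).prodMk_nhds (h6 _ _ fun n i hi => (h5 n i hi).2.2))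
    have := h1 (fun i => cA (w i))
    rw [h7] at this
    exact this h3

end

/-! ### The reduced structure -/

abbrev Nd := List (ℕ × ℕ)

def pre (p : ℕ → ℕ × ℕ) (n : ℕ) : Nd := (List.range n).map p

theorem pre_succ (p : ℕ → ℕ × ℕ) (n : ℕ) : pre p (n + 1) = pre p n ++ [p n] := by
  simp [pre, List.range_succ]

theorem pre_length (p : ℕ → ℕ × ℕ) (n : ℕ) : (pre p n).length = n := by simp [pre]

theorem pre_inj {p q : ℕ → ℕ × ℕ} {n m : ℕ} (h : pre p n = pre q m) :
    n = m ∧ ∀ i < n, p i = q i := by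
  obtain rfl : n = m := by simpa only [pre_length] using congrArg List.length h
  exact ⟨rfl, fun i hi => List.map_inj_left.1 h i (List.mem_range.2 hi)⟩

def Re (φ : (ℕ → ℕ) → (ℕ → ℕ) × (ℕ → ℕ)) (b : ℕ → ℕ) (t : Nd) : Prop :=
  ∃ (n : ℕ) (a w : ℕ → ℕ), t = pre (fun i => (a i, 2 * w i)) n ∧ ∃ k, Ch φ n a k b w

theorem Re.ch {φ : (ℕ → ℕ) → (ℕ → ℕ) × (ℕ → ℕ)} {b : ℕ → ℕ} {p : ℕ → ℕ × ℕ} {n : ℕ}
    (h : Re φ b (pre p n)) : ∃ k, Ch φ n (fun i => (p i).1) k b fun i => (p i).2 / 2 := by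
  obtain ⟨m, a, w, h1, k, h2⟩ := h
  obtain ⟨rfl, h3⟩ := pre_inj h1
  exact ⟨k, h2.congr (fun i hi => by rw [h3 i hi]) (fun _ _ => rfl)
    fun i hi => by rw [h3 i hi]; simp⟩

theorem isOpen_re (φ : (ℕ → ℕ) → (ℕ → ℕ) × (ℕ → ℕ)) (t : Nd) : IsOpen {b | Re φ b t} := by
  rw [isOpen_iff_mem_nhds]
  rintro b ⟨n, a, w, h1, k, h2⟩
  have : ∀ᶠ b' in 𝓝 b, ∀ i ∈ Finset.range n, b' i = b i :=
    (eventually_all_finset _).2 fun i _ =>
      ((IsLocallyConstant.iff_continuous _).2 (continuous_apply i)).eventually_eq b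
  filter_upwards [this] with b' h
  exact ⟨n, a, w, h1, k, h2.congr (fun _ _ => rfl)
    (fun i hi => (h i (Finset.mem_range.2 hi)).symm) fun _ _ => rfl⟩

abbrev M : Type := Nd × ℤ

instance : MeasurableSpace Nd := ⊤
instance : DiscreteMeasurableSpace Nd := ⟨fun _ => trivial⟩

def rel : Option ℕ → M → M → Prop
  | none, m, m' => m' = (m.1, m.2 + 1)
  | some l, m, m' => ∃ i, m'.1 = m.1 ++ [(l, i)]

def idx (t : Nd) : ℕ := (t.getLastD (0, 0)).2

theorem idx_concat (t : Nd) (p : ℕ × ℕ) : idx (t ++ [p]) = p.2 := by simp [idx]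

open Classical in
noncomputable def μ (P : Nd → Prop) (m : M) : ℕ∞ :=
  if m.2 < 0 then (if P m.1 then 2 else 1) else if m.2 = 0 then (idx m.1 + 3 : ℕ) else ⊤

theorem one_le_μ (P : Nd → Prop) (m : M) : 1 ≤ μ P m := by
  unfold μ
  split_ifs
  · norm_num
  · rfl
  · exact_mod_cast (by omega)
  · exact le_top

abbrev Idx := (Σ _ : Option ℕ, Fin 2 → ℕ)

open Classical in
noncomputable def str (e : ℕ → M) : Idx → Bool :=
  fun p => decide (rel p.1 (e (p.2 0)) (e (p.2 1)))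

theorem rel_none_inj {m m' d : M} (h : rel none m d) (h' : rel none m' d) : m = m' := by
  have h1 : (m.1, m.2 + 1) = (m'.1, m'.2 + 1) := h.symm.trans h'
  rw [Prod.mk.injEq] at h1
  exact Prod.ext h1.1 (by omega)

theorem induced {e e' : ℕ → M} (he : e.Surjective) (he' : e'.Surjective) {h : ℕ → ℕ}
    (hh : h.Surjective) (H : ∀ p : Idx, str e' p = str e ⟨p.1, h ∘ p.2⟩) :
    ∃ π : M → M, π.Bijective ∧ (∀ a, π (e (h a)) = e' a) ∧
      ∀ i m m', rel i m m' ↔ rel i (π m) (π m') := by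
  have H1 : ∀ i a b, rel i (e' a) (e' b) ↔ rel i (e (h a)) (e (h b)) := fun i a b => by
    have := H ⟨i, ![a, b]⟩
    simp only [str, decide_eq_decide] at this
    exact this
  choose s hs using he.comp hh
  have h1 : ∀ a, e' (s (e (h a))) = e' a := by
    intro a
    obtain ⟨d, hd⟩ := he' ((e' a).1, (e' a).2 + 1)
    refine rel_none_inj (d := e' d) ?_ hd
    rw [H1, show e (h (s (e (h a)))) = e (h a) from hs _, ← H1]
    exact hd
  have h2 : ∀ i m m', rel i m m' ↔ rel i (e' (s m)) (e' (s m')) := fun i m m' => by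
    rw [H1, show e (h (s m)) = m from hs _, show e (h (s m')) = m' from hs _]
  refine ⟨fun m => e' (s m), ⟨fun m m' hm => ?_, fun m => ?_⟩, h1, h2⟩
  · refine rel_none_inj (d := (m.1, m.2 + 1)) rfl ?_
    rw [h2, ← show e' (s m) = e' (s m') from hm, ← h2]
    rfl
  · obtain ⟨a, rfl⟩ := he' m
    exact ⟨_, h1 a⟩

theorem aut_shift {π : M → M} (h : ∀ m m', rel none m m' → rel none (π m) (π m')) (t : Nd)
    (n : ℤ) : π (t, n) = ((π (t, 0)).1, n + (π (t, 0)).2) := by
  induction n using Int.induction_on with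
  | zero => simp
  | succ n ih =>
    have : π (t, n + 1) = _ := h (t, n) (t, n + 1) rfl
    rw [this, ih]
    exact Prod.ext rfl (by simp only; ring)
  | pred n ih =>
    refine rel_none_inj (h (t, -n - 1) (t, -n) (Prod.ext rfl (by simp))) ?_
    rw [ih]
    exact Prod.ext rfl (by simp only; ring)

theorem aut_root {π : M → M} (hπ : π.Surjective)
    (h : ∀ i m m', rel i m m' ↔ rel i (π m) (π m')) : (π ([], 0)).1 = [] := by
  by_contra h1
  obtain ⟨s, p, hs⟩ := (List.eq_nil_or_concat' _).resolve_left h1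
  obtain ⟨m, hm⟩ := hπ (s, 0)
  obtain ⟨i, hi⟩ := (h (some p.1) m ([], 0)).2 ⟨p.2, by rw [hm]; exact hs⟩
  simp at hi

theorem real_of_le {P P' : Nd → Prop} {π : M → M}
    (h : ∀ m m', rel none m m' → rel none (π m) (π m')) (hμ : ∀ m, μ P m ≤ μ P' (π m))
    {t : Nd} (ht : P t) : P' (π (t, 0)).1 := by
  have h1 := hμ (t, min (-1) (-1 - (π (t, 0)).2))
  rw [aut_shift h t (min _ _), μ, μ, if_pos (by simp only; omega), if_pos ht,
    if_pos (by simp only; omega)] at h1
  by_contra h2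
  rw [if_neg h2] at h1
  exact absurd h1 (by norm_num)

theorem rigid {P P' : Nd → Prop} {π : M → M} (hπ : π.Surjective)
    (h : ∀ i m m', rel i m m' ↔ rel i (π m) (π m')) (hμ : ∀ m, μ P m = μ P' (π m)) :
    ∀ m, π m = m := by
  have h1 : ∀ t, (π (t, 0)).2 = 0 ∧ idx t = idx (π (t, 0)).1 := by
    intro t
    have h2 := hμ (t, 0)
    rw [μ, μ, if_neg (by simp), if_pos rfl] at h2
    split_ifs at h2 with h3 h4 h5
    · have : idx t + 3 = 2 := by exact_mod_cast h2
      omega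
    · have : idx t + 3 = 1 := by exact_mod_cast h2
      omega
    · have : idx t + 3 = idx (π (t, 0)).1 + 3 := by exact_mod_cast h2
      exact ⟨h5, by omega⟩
    · exact absurd h2 (ENat.natCast_ne_top _)
  have h2 : ∀ t, (π (t, 0)).1 = t := by
    intro t
    induction t using List.reverseRecOn with
    | nil => exact aut_root hπ h
    | append_singleton t p ih =>
      obtain ⟨i, hi⟩ := (h (some p.1) (t, 0) (t ++ [p], 0)).1 ⟨p.2, rfl⟩
      have h3 := (h1 (t ++ [p])).2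
      rw [hi, idx_concat, idx_concat] at h3
      rw [hi, ih, ← show p.2 = i from h3]
  rintro ⟨t, n⟩
  rw [aut_shift fun m m' => (h none m m').1, h2, (h1 t).1, add_zero]

theorem branch {φ : (ℕ → ℕ) → (ℕ → ℕ) × (ℕ → ℕ)} {a b : ℕ → ℕ} {π : M → M} (hπ : π.Surjective)
    (h : ∀ i m m', rel i m m' ↔ rel i (π m) (π m'))
    (hμ : ∀ m, μ (Re φ a) m ≤ μ (Re φ b) (π m)) : ∃ w, ∀ n, ∃ k, Ch φ n a k b w := by
  let p : ℕ → ℕ × ℕ := fun i => (a i, 2 * 0)
  have h1 : ∀ n, ∃ i, (π (pre p (n + 1), 0)).1 = (π (pre p n, 0)).1 ++ [(a n, i)] := fun n =>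
    (h (some (a n)) (pre p n, 0) (pre p (n + 1), 0)).1 ⟨_, pre_succ p n⟩
  choose v hv using h1
  have h2 : ∀ n, (π (pre p n, 0)).1 = pre (fun i => (a i, v i)) n := by
    intro n
    induction n with
    | zero => exact aut_root hπ h
    | succ n ih => rw [hv, ih, pre_succ]
  refine ⟨fun i => v i / 2, fun n => ?_⟩
  have h3 := real_of_le (fun m m' => (h none m m').1) hμ (t := pre p n)
    ⟨n, a, fun _ => 0, rfl, 0, fun _ _ => ⟨rfl, rfl⟩⟩
  rw [h2] at h3
  exact h3.ch

theorem exists_perm {j : ℕ → ℕ} (hj : j.Injective) :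
    ∃ β : ℕ ≃ ℕ, ∀ c, β (2 * c) = 2 * j c := by
  have h1 : ∀ j : ℕ → ℕ, Cardinal.mk ↥(range fun c => 2 * j c)ᶜ = Cardinal.aleph0 := fun j => by
    have : Infinite ↥(range fun c => 2 * j c)ᶜ :=
      (infinite_of_injective_forall_mem (f := fun n : ℕ => 2 * n + 1) (fun _ _ h => by
        simpa using h) (by rintro n ⟨c, hc⟩; simp only at hc; omega)).to_subtype
    exact Cardinal.mk_eq_aleph0 _
  have h2 : Function.Injective fun c => 2 * id c := fun _ _ h => by simpa using h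
  have h3 : Function.Injective fun c => 2 * j c := fun _ _ h => hj (by simpa using h)
  obtain ⟨g⟩ := Cardinal.eq.1 ((h1 id).trans (h1 j).symm)
  classical
  refine ⟨(Equiv.Set.sumCompl _).symm.trans ((Equiv.sumCongr
    ((Equiv.ofInjective _ h2).symm.trans (Equiv.ofInjective _ h3)) g).trans
      (Equiv.Set.sumCompl _)), fun c => ?_⟩
  rw [Equiv.trans_apply, Equiv.Set.sumCompl_symm_apply_of_mem (show 2 * c ∈ range fun c => 2 * id c from ⟨c, rfl⟩)]
  simp only [Equiv.trans_apply, Equiv.sumCongr_apply, Sum.map_inl, Equiv.Set.sumCompl_apply_inl]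
  exact congrArg (fun c => 2 * j c) ((Equiv.ofInjective _ h2).symm_apply_apply c)

theorem exists_aut (φ : (ℕ → ℕ) → (ℕ → ℕ) × (ℕ → ℕ)) (α : ℕ → ℕ) :
    ∃ π : M → M, π.Bijective ∧ (∀ i m m', rel i m m' ↔ rel i (π m) (π m')) ∧
      ∀ m, μ (Re φ (φ α).1) m ≤ μ (Re φ (φ α).2) (π m) := by
  choose β hβ using fun n => exists_perm (j := mk (α n) ((φ α).1 n)) fun _ _ h => by
    simpa [mk] using h
  let γ : (ℕ → ℕ ≃ ℕ) → Nd → Nd := fun β t => t.mapIdx fun n p => (p.1, β n p.2)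
  have h1 : ∀ β t, γ (fun n => (β n).symm) (γ β t) = t := fun β t => by
    simp only [γ, List.mapIdx_mapIdx]
    refine List.ext_getElem (by simp) fun i _ _ => by simp
  have h2 : ∀ β t l i, γ β (t ++ [(l, i)]) = γ β t ++ [(l, β t.length i)] := fun β t l i =>
    List.mapIdx_concat
  have h3 : (γ β).Bijective := Function.bijective_iff_has_inverse.2
    ⟨_, h1 β, h1 fun n => (β n).symm⟩
  refine ⟨fun m => (γ β m.1, m.2 + 1), h3.prodMap (Equiv.addRight (1 : ℤ)).bijective, ?_, ?_⟩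
  · rintro (_ | l) ⟨t, n⟩ ⟨t', n'⟩
    · simp only [rel]
      constructor
      · intro h
        obtain ⟨rfl, rfl⟩ := Prod.mk.inj h
        rfl
      · intro h
        obtain ⟨h4, h5⟩ := Prod.mk.inj h
        exact Prod.ext (h3.1 h4) (by simp only; omega)
    · simp only [rel]
      exact ⟨fun ⟨i, hi⟩ => ⟨_, by rw [hi, h2]⟩,
        fun ⟨i, hi⟩ => ⟨_, by rw [← h1 β t', hi, h2, h1]⟩⟩
  · rintro ⟨t, n⟩
    have h4 : Re φ (φ α).1 t → Re φ (φ α).2 (γ β t) := by
      rintro ⟨n, a, w, rfl, k, hk⟩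
      refine ⟨n, a, _, ?_, _, hk.step⟩
      refine List.ext_getElem (by simp [γ, pre]) fun i _ _ => by simp [γ, pre, hβ]
    unfold μ
    simp only
    rcases lt_trichotomy n (-1) with h5 | rfl | h5
    · rw [if_pos (by omega), if_pos (show n + 1 < 0 by omega)]
      by_cases h6 : Re φ (φ α).1 t
      · rw [if_pos h6, if_pos (h4 h6)]
      · rw [if_neg h6]
        split_ifs <;> norm_num
    · rw [if_pos (by omega), if_neg (show ¬ (-1 : ℤ) + 1 < 0 by omega), 
        if_pos (show (-1 : ℤ) + 1 = 0 by omega)]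
      split_ifs <;> exact_mod_cast (by omega)
    · rw [if_neg (show ¬ n + 1 < 0 by omega), if_neg (show ¬ n + 1 = 0 by omega)]
      exact le_top

theorem exists_epi {e e' : ℕ → M} (he : e.Surjective) {π : M → M} (hπ : π.Bijective)
    (h : ∀ i m m', rel i m m' ↔ rel i (π m) (π m'))
    (hμ : ∀ m, (e ⁻¹' {m}).encard ≤ (e' ⁻¹' {π m}).encard) :
    ∃ h : ℕ → ℕ, h.Surjective ∧ ∀ p : Idx, str e' p = str e ⟨p.1, h ∘ p.2⟩ := by
  classical
  have h1 : ∀ s t : Set ℕ, s.encard ≤ t.encard → ∃ f : ℕ → ℕ, s ⊆ f ⁻¹' t ∧ InjOn f s := by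
    intro s t hst
    by_cases hs : s.Finite
    · exact hs.exists_injOn_of_encard_le hst
    · have ht : t.Infinite := by
        rw [← encard_eq_top_iff, ← top_le_iff, ← Infinite.encard_eq hs]
        exact hst
      exact ⟨fun n => ht.natEmbedding t n, fun n _ => (ht.natEmbedding t n).2, fun a _ b _ h =>
        (ht.natEmbedding t).injective (Subtype.ext h)⟩
  choose f h2 h3 using fun m => h1 _ _ (hμ m)
  have h4 : ∀ n, e' (f (e n) n) = π (e n) := fun n => h2 (e n) rfl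
  have h5 : Function.Injective fun n => f (e n) n := fun a b hab => by
    have h6 : e a = e b := hπ.1 (by rw [← h4, ← h4]; exact congrArg e' hab)
    exact h3 (e b) h6 rfl (by simpa only [h6] using hab)
  choose s hs using hπ.2.comp he
  have h6 : ∀ a, π (e (Function.extend (fun n => f (e n) n) id (fun a => s (e' a)) a)) = e' a := by
    intro a
    by_cases ha : ∃ n, f (e n) n = a
    · obtain ⟨n, rfl⟩ := ha
      rw [h5.extend_apply, h4, id]
    · rw [Function.extend_apply' _ _ _ ha]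
      exact hs _
  refine ⟨Function.extend (fun n => f (e n) n) id fun a => s (e' a),
    fun n => ⟨_, h5.extend_apply _ _ n⟩, fun p => ?_⟩
  simp only [str, Function.comp, decide_eq_decide]
  rw [h _ (e _), h6, h6]

theorem encard_lt (k : ℕ∞) : {j : ℕ | (j : ℕ∞) < k}.encard = k := by
  induction k using ENat.recTopCoe with
  | top => simp
  | coe k =>
    rw [show {j : ℕ | (j : ℕ∞) < k} = ↑(Finset.range k) by ext; simp, encard_coe_eq_coe_finsetCard,
      Finset.card_range]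

theorem exists_enum : ∃ q : ℕ → M × ℕ, ∀ (P : Nd → Prop) (m : M),
    ((fun n => if ((q n).2 : ℕ∞) < μ P (q n).1 then (q n).1 else (([], 1) : M)) ⁻¹' {m}).encard =
      μ P m := by
  obtain ⟨q⟩ : Nonempty (ℕ ≃ M × ℕ) := nonempty_equiv_of_countable
  refine ⟨q, fun P m => ?_⟩
  have h1 : ((fun j => q.symm (m, j)) '' {j : ℕ | (j : ℕ∞) < μ P m}).encard = μ P m := by
    rw [Function.Injective.encard_image (fun _ _ h => by simpa using h), encard_lt]
  have h2 : (fun j => q.symm (m, j)) '' {j : ℕ | (j : ℕ∞) < μ P m} ⊆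
      (fun n => if ((q n).2 : ℕ∞) < μ P (q n).1 then (q n).1 else (([], 1) : M)) ⁻¹' {m} := by
    rintro _ ⟨j, hj, rfl⟩
    simp only [mem_preimage, Equiv.apply_symm_apply]
    exact if_pos hj
  by_cases hm : m = ([], 1)
  · have h3 : μ P m = ⊤ := by rw [hm]; simp [μ]
    rw [h3] at h1 ⊢
    rw [← top_le_iff, ← h1, ← h3]
    exact encard_le_encard h2
  · rw [← h1]
    congr 1
    refine Subset.antisymm (fun n hn => ?_) h2
    simp only [mem_preimage, mem_singleton_iff] at hn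
    split_ifs at hn with h3
    · subst hn
      exact ⟨_, h3, by simp⟩
    · exact absurd hn.symm hm

theorem measurable_str : Measurable str :=
  measurable_pi_lambda _ fun p => by
    classical
    exact (measurable_of_countable fun x : M × M => decide (rel p.1 x.1 x.2)).comp
      (f := fun e : ℕ → M => (e (p.2 0), e (p.2 1)))
      ((measurable_pi_apply _).prodMk (measurable_pi_apply _))

theorem main {X : Type} [MeasurableSpace X] [StandardBorelSpace X] (R : Set (X × X))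
    (h1 : ∀ x, (x, x) ∈ R) (h2 : ∀ x y z, (x, y) ∈ R → (y, z) ∈ R → (x, z) ∈ R)
    {c : X → ℕ → ℕ} (hc : Measurable c) (hc' : c.Injective)
    {φ : (ℕ → ℕ) → (ℕ → ℕ) × (ℕ → ℕ)} (hφ : Continuous φ)
    (hR : ∀ _ : X, range φ = Prod.map c c '' R) :
    ∃ B : Set (Idx → Bool), MeasurableSet B ∧
      (∀ σ : Equiv.Perm ℕ, ∀ x ∈ B, (fun p : Idx => x ⟨p.1, ⇑σ ∘ p.2⟩) ∈ B) ∧
      (∃ f : X → (Idx → Bool), Measurable f ∧ (∀ x, f x ∈ B) ∧
        ∀ x y, (x, y) ∈ R ↔
          ∃ h : ℕ → ℕ, Function.Surjective h ∧ ∀ p : Idx, f y p = f x ⟨p.1, h ∘ p.2⟩) ∧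
      (∃ g : B → X, Measurable g ∧ ∀ u v : B,
          (∃ h : ℕ → ℕ, Function.Surjective h ∧ ∀ p : Idx, v.1 p = u.1 ⟨p.1, h ∘ p.2⟩) ↔
          (g u, g v) ∈ R) := by
  classical
  let W : Set (X × (ℕ → M)) := {z | ∀ m, (z.2 ⁻¹' {m}).encard = μ (Re φ (c z.1)) m}
  have hμ : ∀ m, Measurable fun x => μ (Re φ (c x)) m := fun m => by
    unfold μ
    split_ifs
    · exact Measurable.ite (hc (isOpen_re φ m.1).measurableSet) measurable_const measurable_const
    · exact measurable_const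
    · exact measurable_const
  have hW : MeasurableSet W := by
    simp only [W, ofPred_forall]
    refine MeasurableSet.iInter fun m => measurableSet_eq_fun ?_ ((hμ m).comp measurable_fst)
    refine measurable_encard.comp (measurable_set_iff.2 fun n => ?_)
    exact (measurable_of_countable fun x : M => x ∈ ({m} : Set M)).comp
      ((measurable_pi_apply n).comp measurable_snd)
  have hsurj : ∀ z ∈ W, z.2.Surjective := fun z hz m =>
    one_le_encard_iff_nonempty.1 ((one_le_μ _ m).trans (hz m).ge)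
  have key : ∀ z ∈ W, ∀ z' ∈ W, (∃ h : ℕ → ℕ, Function.Surjective h ∧
      ∀ p : Idx, str z'.2 p = str z.2 ⟨p.1, h ∘ p.2⟩) ↔ (z.1, z'.1) ∈ R := by
    intro z hz z' hz'
    constructor
    · rintro ⟨h, h3, h4⟩
      obtain ⟨π, h5, h6, h7⟩ := induced (hsurj z hz) (hsurj z' hz') h3 h4
      obtain ⟨w, hw⟩ := branch (φ := φ) (a := c z.1) (b := c z'.1) h5.2 h7 fun m => by
        rw [← hz, ← hz']
        refine le_trans (encard_le_encard fun n hn => ?_) (encard_image_le h _)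
        obtain ⟨a, rfl⟩ := h3 n
        exact ⟨a, by rw [mem_preimage, ← h6, show z.2 (h a) = m from hn]; rfl, rfl⟩
      obtain ⟨y, h8, h9⟩ := Ch.limit hφ (Q := fun b => ∃ y, c y = b ∧ (z.1, y) ∈ R)
        ⟨_, rfl, h1 _⟩ (fun α ⟨y, h8, h9⟩ => by
          obtain ⟨⟨y1, y2⟩, h10, h11⟩ : φ α ∈ Prod.map c c '' R := hR y ▸ mem_range_self α
          rw [← h11] at h8 ⊢
          obtain rfl := hc' h8
          exact ⟨y2, rfl, h2 _ _ _ h9 h10⟩) _ _ w rfl hw
      rwa [← hc' h8]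
    · intro h
      obtain ⟨α, hα⟩ : (c z.1, c z'.1) ∈ range φ := hR z.1 ▸ ⟨_, h, rfl⟩
      obtain ⟨π, h3, h4, h5⟩ := exists_aut φ α
      rw [hα] at h5
      exact exists_epi (hsurj z hz) h3 h4 fun m => by rw [hz, hz']; exact h5 m
  have hinj : InjOn (fun z : X × (ℕ → M) => str z.2) W := by
    intro z hz z' hz' h
    obtain ⟨π, h3, h4, h5⟩ := induced (hsurj z hz) (hsurj z' hz') Function.surjective_id
      fun p => (congrFun h p).symm
    have h6 : ∀ m, μ (Re φ (c z.1)) m = μ (Re φ (c z'.1)) (π m) := fun m => by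
      rw [← hz, ← hz']
      congr 1
      ext n
      simp only [mem_preimage, mem_singleton_iff, ← h4, id, h3.1.eq_iff]
    have h7 := rigid h3.2 h5 h6
    refine Prod.ext (hc' (funext fun i => ?_)) (funext fun n => by rw [← h4, h7, id])
    have h8 := real_of_le (fun m m' => (h5 none m m').1) (fun m => (h6 m).le)
      (t := pre (fun i => (c z.1 i, 2 * 0)) (i + 1))
      ⟨_, _, fun _ => 0, rfl, 0, fun _ _ => ⟨rfl, rfl⟩⟩
    rw [h7] at h8
    obtain ⟨_ | k, hk⟩ := h8.ch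
    · exact (hk i (by omega)).1
    · exact absurd (by simp) (hk.1 i (by omega))
  have hm : Measurable fun z : X × (ℕ → M) => str z.2 := measurable_str.comp measurable_snd
  obtain ⟨q, hq⟩ := exists_enum
  refine ⟨_, hW.image_of_measurable_injOn hm hinj, ?_, ⟨fun x => str fun n =>
    if ((q n).2 : ℕ∞) < μ (Re φ (c x)) (q n).1 then (q n).1 else (([], 1) : M), ?_,
      fun x => ⟨(x, _), hq (Re φ (c x)), rfl⟩,
      fun x y => (key (x, _) (hq (Re φ (c x))) (y, _) (hq (Re φ (c y)))).symm⟩, ?_⟩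
  · rintro σ _ ⟨z, hz, rfl⟩
    refine ⟨(z.1, z.2 ∘ σ), fun m => ?_, rfl⟩
    rw [← hz, preimage_comp, encard_preimage_of_bijective σ.bijective]
  · refine measurable_str.comp (measurable_pi_lambda _ fun n => ?_)
    exact Measurable.ite ((hμ _) (show MeasurableSet {k | ((q n).2 : ℕ∞) < k} from trivial))
      measurable_const measurable_const
  · choose G h3 h4 using fun u : (fun z : X × (ℕ → M) => str z.2) '' W => u.2
    refine ⟨fun u => (G u).1, fun A hA => ?_, fun u v => ?_⟩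
    · have h5 := measurable_subtype_coe (p := (· ∈ (fun z : X × (ℕ → M) => str z.2) '' W))
        ((hW.inter (measurable_fst hA)).image_of_measurable_injOn hm
          (hinj.mono inter_subset_left))
      convert h5 using 1
      ext u
      refine ⟨fun hu => ⟨G u, ⟨h3 u, hu⟩, h4 u⟩, fun ⟨z, hz, h6⟩ => ?_⟩
      rw [mem_preimage, hinj (h3 u) hz.1 ((h4 u).trans h6.symm)]
      exact hz.2
    · rw [← key _ (h3 u) _ (h3 v), ← h4 u, ← h4 v]

theorem exists_code {X : Type} [TopologicalSpace X] [PolishSpace X] [MeasurableSpace X]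
    [BorelSpace X] {R : Set (X × X)} (hR : AnalyticSet R) (h1 : ∀ x, (x, x) ∈ R) :
    ∃ (c : X → ℕ → ℕ) (φ : (ℕ → ℕ) → (ℕ → ℕ) × (ℕ → ℕ)), Measurable c ∧ c.Injective ∧
      Continuous φ ∧ ∀ _ : X, range φ = Prod.map c c '' R := by
  obtain ⟨c0, h2, h3⟩ := MeasurableSpace.measurable_injection_nat_bool_of_countablySeparated X
  have h4 : Measurable fun x n => (c0 x n).toNat := measurable_pi_lambda _ fun n =>
    (measurable_of_countable Bool.toNat).comp ((measurable_pi_apply n).comp h2)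
  have h5 : AnalyticSet (Prod.map (fun x n => (c0 x n).toNat) (fun x n => (c0 x n).toNat) '' R) := by
    rw [AnalyticSet] at hR
    obtain rfl | ⟨f, h5, rfl⟩ := hR
    · rw [image_empty]; exact analyticSet_empty
    · rw [← image_univ, ← image_comp]
      exact MeasurableSet.univ.analyticSet_image ((h4.prodMap h4).comp h5.measurable)
  have h6 : Function.Injective fun x n => (c0 x n).toNat := fun x y h => h3 (funext fun n => by
    have : (c0 x n).toNat = (c0 y n).toNat := congrFun h n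
    revert this
    cases c0 x n <;> cases c0 y n <;> simp)
  rw [AnalyticSet] at h5
  obtain h5 | ⟨φ, h7, h8⟩ := h5
  · exact ⟨_, fun _ => default, h4, h6, continuous_const, fun x =>
      absurd (image_eq_empty.1 h5 ▸ h1 x) (notMem_empty _)⟩
  · exact ⟨_, φ, h4, h6, h7, fun _ => h8⟩

end Pool.Agent.H39.Epi
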