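import Mathlib
import Pool.Agent.H39.FG4

set_option autoImplicit false

namespace Pool.Agent.H39.FG

open Set Filter Topology MeasureTheory Pool.Agent.H39.BaireLoc
open scoped ENNReal

variable {X : Type} [MeasurableSpace X]

/-- The image of a measurable set, as an element of the measure algebra. -/
def img {μ : Measure X} (A : MeasuredSets μ) (T : Aut μ) : MeasuredSets μ :=
  ⟨T.1 '' A.1, T.1.image_eq_preimage_symm _ ▸ T.2.2.measurable A.2⟩

/-- The weak topology. -/
noncomputable instance weak (μ : Measure X) : TopologicalSpace (Aut μ) :=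
  ⨅ A : MeasuredSets μ, TopologicalSpace.induced (img A) inferInstance

/-- Equality almost everywhere. -/
def aeSetoid (μ : Measure X) : Setoid (Aut μ) :=
  ⟨fun S T => S.1 =ᵐ[μ] T.1, fun _ => .rfl, fun h => h.symm, fun h h' => h.trans h'⟩

/-- The automorphism group modulo null sets, with the quotient of the weak topology. -/
abbrev AutQ (μ : Measure X) : Type := Quotient (aeSetoid μ)

/-- Conjugacy in the automorphism group. -/
def ConjAut {μ : Measure X} (a b : AutQ μ) : Prop :=
  ∃ T U : Aut μ, a = ⟦U * T * U⁻¹⟧ ∧ b = ⟦T⟧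

/-- The ergodic elements of the automorphism group. -/
abbrev ErgAut (μ : Measure X) : Type := {a : AutQ μ // ∃ T : Aut μ, a = ⟦T⟧ ∧ Ergodic T.1 μ}

/-- The ergodic elements of the full group. -/
abbrev ErgFull {μ : Measure X} (T0 : Aut μ) : Type :=
  {t : FullGroup T0 // ∃ T : Full T0, t = SeparationQuotient.mk T ∧ Ergodic T.1 μ}

section
variable {P : Type}

open Classical in
/-- The values of a sequence in the order of first appearance. -/
noncomputable def ded (x : ℕ → P) (n : ℕ) : P := x (Nat.nth (fun m => ∀ i < m, x i ≠ x m) n)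

theorem ded_inj {x : ℕ → P} (h : {m | ∀ i < m, x i ≠ x m}.Infinite) :
    Function.Injective (ded x) := fun a b hab => by
  by_contra h1
  rcases lt_or_gt_of_ne h1 with h1 | h1
  · exact Nat.nth_mem_of_infinite h b _ (Nat.nth_strictMono h h1) hab
  · exact Nat.nth_mem_of_infinite h a _ (Nat.nth_strictMono h h1) hab.symm

theorem ded_range (x : ℕ → P) : range (ded x) = range x := by
  classical
  refine (range_comp_subset_range _ x).antisymm (range_subset_iff.2 fun n => ?_)
  have h : ∃ m, x m = x n := ⟨n, rfl⟩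
  refine ⟨Nat.count (fun m => ∀ i < m, x i ≠ x m) (Nat.find h), ?_⟩
  rw [Function.comp, Nat.nth_count fun i hi a => Nat.find_min h hi (a.trans (Nat.find_spec h)),
    Nat.find_spec h]

variable [TopologicalSpace P] [DiscreteTopology P]

theorem ded_cont {x : ℕ → P} (h : {m | ∀ i < m, x i ≠ x m}.Infinite) : ContinuousAt ded x := by
  classical
  refine continuousAt_pi.2 fun n => tendsto_const_nhds.congr' ?_
  set N := Nat.nth (fun m => ∀ i < m, x i ≠ x m) n with hN
  filter_upwards [(isOpen_cyl x (N + 1)).mem_nhds fun _ _ => rfl] with y hy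
  have h1 : ∀ m ≤ N, (∀ i < m, y i ≠ y m) ↔ ∀ i < m, x i ≠ x m := fun m hm =>
    forall₂_congr fun i hi => by rw [hy i (by omega), hy m (by omega)]
  have h2 : Nat.count (fun m => ∀ i < m, y i ≠ y m) N = n := by
    rw [← Nat.count_nth_of_infinite h n, Nat.count_eq_card_filter_range,
      Nat.count_eq_card_filter_range]
    exact congrArg _ (Finset.filter_congr fun m hm => h1 m (Finset.mem_range.1 hm).le)
  rw [ded, ded, ← hN, ← h2, Nat.nth_count ((h1 N le_rfl).2 (Nat.nth_mem_of_infinite h n)),
    hy N N.lt_succ_self]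

theorem open_new (N : ℕ) : IsOpen {x : ℕ → P | ∃ m, N ≤ m ∧ ∀ i < m, x i ≠ x m} := by
  refine isOpen_iff_mem_nhds.2 fun x ⟨m, h1, h2⟩ => ?_
  filter_upwards [(isOpen_cyl x (m + 1)).mem_nhds fun _ _ => rfl] with y hy
  exact ⟨m, h1, fun i hi => by rw [hy i (by omega), hy m (by omega)]; exact h2 i hi⟩

omit [TopologicalSpace P] [DiscreteTopology P] in
theorem inf_eq : {x : ℕ → P | {m | ∀ i < m, x i ≠ x m}.Infinite} =
    ⋂ N, {x : ℕ → P | ∃ m, N ≤ m ∧ ∀ i < m, x i ≠ x m} := by
  ext x
  simp only [mem_ofPred_eq, mem_iInter, ← Nat.frequently_atTop_iff_infinite, frequently_atTop]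

theorem res_new [Infinite P] :
    {x : ℕ → P | {m | ∀ i < m, x i ≠ x m}.Infinite} ∈ residual (ℕ → P) := by
  rw [inf_eq]
  refine countable_iInter_mem.2 fun N => residual_of_dense_open (open_new N)
    (dense_of_cyl fun p n => ?_)
  obtain ⟨a, ha⟩ := ((finite_Iio (max N n)).image p).exists_notMem
  refine ⟨Function.update p (max N n) a, ⟨max N n, le_max_left _ _, fun i hi => ?_⟩,
    fun i hi => Function.update_of_ne (by omega) _ _⟩
  rw [Function.update_self, Function.update_of_ne hi.ne]
  exact fun h => ha ⟨i, hi, h⟩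

end

/-- Rotations of the infinite torus. -/
def rot (θ : ℕ → UnitAddCircle) : Aut haar := ⟨Equiv.addRight θ, mp_rot θ, mp_rot (-θ)⟩

variable [StandardBorelSpace X] {μ : Measure X} [IsProbabilityMeasure μ]

open UnitAddTorus in
theorem no_red_erg [NullSingletonClass μ] (T0 : Aut μ) : ¬∃ f : ErgAut μ → FullGroup T0,
    @Measurable _ _ (borel _) (borel _) f ∧ ∀ a b, ConjAut a.1 b.1 ↔ IsConj (f b) (f a) := by
  classical
  rintro ⟨f, f1, f2⟩
  obtain ⟨P, c, p1, p2⟩ : ∃ (P : Type) (c : P → UnitAddCircle), Uncountable P ∧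
      ∀ (d : Type) [Fintype d] (r : d → P), Function.Injective r → ∀ k ≠ 0,
        mFourier k (c ∘ r) ≠ 1 := by
    obtain ⟨P, a, b⟩ := exists_indep
    exact ⟨P, fun r => (r : ℝ), ⟨fun h => a (countable_coe_iff.1 h)⟩, b⟩
  let : TopologicalSpace P := ⊥
  have : DiscreteTopology P := ⟨rfl⟩
  obtain ⟨φ, ψ, h⟩ := iso_any μ haar
  choose τ hτ using h.lift
  have t1 : ∀ R : Aut haar, ∀ᵐ x ∂μ, φ ((τ R).1.symm x) = R.1.symm (φ x) := fun R => by
    filter_upwards [(τ R).2.2.quasiMeasurePreserving.ae (hτ R)] with x hx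
    rw [Equiv.eq_symm_apply, ← hx, Equiv.apply_symm_apply]
  have t2 : Continuous fun r : ℕ → P => τ (rot (c ∘ r)) := by
    refine continuous_iInf_rng.2 fun A => continuous_induced_rng.2
      (continuous_iff_continuousAt.2 fun r => tendsto_iff_edist_tendsto_0.2 ?_)
    have hc : Continuous c := continuous_of_discreteTopology
    let g : C((ℕ → P) × (ℕ → UnitAddCircle), ℕ → UnitAddCircle) :=
      ⟨fun p => p.2 + -(c ∘ p.1), by fun_prop⟩
    have hA := h.m2.measurable A.2
    refine (tendsto_measure_symmDiff_preimage_nhds_zero (g.curry.continuous.tendsto r)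
      (Eventually.of_forall fun r => mp_rot (-(c ∘ r))) (mp_rot (-(c ∘ r))) hA.nullMeasurableSet
      (measure_ne_top _ _)).congr fun r' => ?_
    rw [← h.m1.measure_preimage (((g.curry r').continuous.measurable hA).symmDiff
      ((g.curry r).continuous.measurable hA)).nullMeasurableSet, preimage_symmDiff]
    change _ = μ (symmDiff ((τ (rot (c ∘ r'))).1 '' A.1) ((τ (rot (c ∘ r))).1 '' A.1))
    rw [Equiv.image_eq_preimage_symm, Equiv.image_eq_preimage_symm]
    exact (measure_congr ((h.pre (τ (rot (c ∘ r'))).2.2 (t1 (rot (c ∘ r'))) A.1).symmDiff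
      (h.pre (τ (rot (c ∘ r))).2.2 (t1 (rot (c ∘ r))) A.1))).symm
  let C0 := {x : ℕ → P | {m | ∀ i < m, x i ≠ x m}.Infinite}
  let D : (ℕ → P) → ℕ → P := C0.piecewise ded fun _ => Infinite.natEmbedding P
  have d1 : ∀ x, Function.Injective (D x) := fun x => by
    by_cases hx : x ∈ C0
    · simpa [D, hx] using ded_inj hx
    · simpa [D, hx] using (Infinite.natEmbedding P).injective
  have d2 : ∀ x ∈ C0, range (D x) = range x := fun x hx => by simpa [D, hx] using ded_range x
  borelize (ℕ → P) (AutQ μ) (FullGroup T0)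
  have d3 : Measurable D := ContinuousOn.measurable_piecewise
    (fun x hx => (ded_cont hx).continuousWithinAt) continuousOn_const
    (by simp only [C0, inf_eq]; exact MeasurableSet.iInter fun N => (open_new N).measurableSet)
  let Θ : (ℕ → P) → ErgAut μ := fun x => ⟨⟦τ (rot (c ∘ D x))⟧, _, rfl, h.ergodic (τ _).2.1 (hτ _)
    (erg_rot fun I => p2 I (D x ∘ (↑)) ((d1 x).comp Subtype.val_injective))⟩
  have h1 : Measurable Θ := ((continuous_quotient_mk'.comp t2).measurable.comp d3).subtype_mk
  rw [← BorelSpace.measurable_eq (α := ErgAut μ)] at f1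
  have := sep (T0 := T0)
  have := UniformSpace.secondCountable_of_separable (FullGroup T0)
  obtain ⟨C, c1, c2⟩ := cont_residual fun U (hU : IsOpen U) => (f1.comp h1) hU.measurableSet
  refine no_red (inter_mem c1 res_new) (c2.mono inter_subset_left) (fun x hx y hy hxy => ?_)
    fun x _ => ?_
  · let π : Equiv.Perm ℕ := (Equiv.ofInjective _ (d1 y)).trans ((Equiv.setCongr
      (by rw [d2 x hx.2, d2 y hy.2, hxy])).trans (Equiv.ofInjective _ (d1 x)).symm)
    have h2 : ∀ i, D x (π i) = D y i := fun i => Equiv.apply_ofInjective_symm (d1 x) _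
    let U : Aut haar := ⟨(Equiv.arrowCongr π.symm (Equiv.refl _)), mp_perm π, mp_perm π.symm⟩
    refine (f2 _ _).1 ⟨τ (rot (c ∘ D x)), τ U, Quotient.sound ?_, rfl⟩
    filter_upwards [hτ (rot (c ∘ D y)), t1 U, (τ U).2.2.quasiMeasurePreserving.ae
      (hτ (rot (c ∘ D x))), ((τ (rot (c ∘ D x))).2.1.comp (τ U).2.2).quasiMeasurePreserving.ae
      (hτ U), (τ (rot (c ∘ D y))).2.1.quasiMeasurePreserving.ae h.e1,
      (τ U * τ (rot (c ∘ D x)) * (τ U)⁻¹).2.1.quasiMeasurePreserving.ae h.e1]
      with z a1 a2 a3 a4 a5 a6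
    rw [← a5, ← a6, a1]
    refine congrArg ψ (Eq.trans ?_ a4.symm)
    rw [Function.comp, a3, a2]
    funext i
    simp [U, rot, h2]
  · have h2 : Function.Injective fun a => fourier 1 (c a) := fun a b hab => by
      by_contra h2
      refine p2 (Fin 2) ![a, b] (by
        intro i j
        fin_cases i <;> fin_cases j <;> simp [h2, Ne.symm h2]) ![1, -1]
        (fun h => by simpa using congrFun h 0) ?_
      simp only [mFourier, ContinuousMap.coe_mk, Fin.prod_univ_two, Function.comp,
        Matrix.cons_val_zero, Matrix.cons_val_one, show fourier 1 (c a) = fourier 1 (c b) from hab,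
        ← fourier_add, add_neg_cancel, fourier_zero]
    obtain ⟨a, ha⟩ : ∃ a, ¬Eig μ (τ (rot (c ∘ D x))).1 (fourier 1 (c a)) := by
      by_contra h3
      push Not at h3
      exact not_countable_univ (((eig_countable (τ (rot (c ∘ D x))).2.1).preimage h2).mono
        fun a _ => And.intro (Circle.norm_coe _) (h3 a))
    refine ⟨a, fun y hy h3 h4 => ha ?_⟩
    obtain ⟨T, U, h5, h6⟩ := (f2 _ _).2 h4.symm
    obtain ⟨i, hi⟩ := (d2 y hy.2).symm.subset h3
    refine ⟨fun z => fourier 1 (φ (U.1 z) i), (fourier 1).continuous.measurable.comp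
      ((measurable_pi_apply i).comp (h.m1.comp U.2.1).measurable), fun z => Circle.norm_coe _, ?_⟩
    filter_upwards [Quotient.exact h6, U.2.1.quasiMeasurePreserving.ae (Quotient.exact h5),
      U.2.1.quasiMeasurePreserving.ae (hτ (rot (c ∘ D y)))] with z a1 a2 a3
    rw [a1, show U.1 (T.1 z) = _ by simpa using a2.symm, a3]
    simp [rot, hi, mul_comm, AddCircle.toCircle_add]

end Pool.Agent.H39.FG
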