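import Mathlib
import Pool.Agent.H39.Der

set_option autoImplicit false

namespace Pool.Agent.H39.CF

variable {N T T' : Type}

/-- Position-aware letter-to-letter relation on sentential forms. -/
inductive Tg (ρ : Bool → Bool → T → T' → Prop) :
    Bool → Bool → List (N ⊕ T) → List ((N × Bool × Bool) ⊕ T') → Prop
  | nil (l r : Bool) : Tg ρ l r [] []
  | term {l r : Bool} {a : T} {a' : T'} {α : List (N ⊕ T)} {α' : List ((N × Bool × Bool) ⊕ T')} :
      ρ l (r && α.isEmpty) a a' → Tg ρ false r α α' → Tg ρ l r (Sum.inr a :: α) (Sum.inr a' :: α')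
  | nt {l r : Bool} (A : N) {α : List (N ⊕ T)} {α' : List ((N × Bool × Bool) ⊕ T')} :
      Tg ρ false r α α' → Tg ρ l r (Sum.inl A :: α) (Sum.inl (A, l, r && α.isEmpty) :: α')

/-- Position-aware letter-to-letter relation on words. -/
inductive Tw (ρ : Bool → Bool → T → T' → Prop) : Bool → Bool → List T → List T' → Prop
  | nil (l r : Bool) : Tw ρ l r [] []
  | cons {l r : Bool} {a : T} {a' : T'} {w : List T} {w' : List T'} :
      ρ l (r && w.isEmpty) a a' → Tw ρ false r w w' → Tw ρ l r (a :: w) (a' :: w')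

variable {ρ : Bool → Bool → T → T' → Prop} {P : N → List (N ⊕ T) → Prop}

theorem Tw.append {l r : Bool} {u v : List T} {u' v' : List T'} (hu : u ≠ [])
    (h1 : Tw ρ l (r && v.isEmpty) u u') (h2 : Tw ρ false r v v') :
    Tw ρ l r (u ++ v) (u' ++ v') := by
  induction u generalizing l u' with
  | nil => exact absurd rfl hu
  | cons a u ih =>
    cases h1 with
    | cons h3 h4 =>
      by_cases h : u = []
      · subst h
        cases h4
        exact Tw.cons (by simpa using h3) h2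
      · refine Tw.cons ?_ (ih h h4)
        have h5 : u.isEmpty = false := by simpa using h
        have h6 : (u.append v).isEmpty = false := by simp [h]
        rw [h6]
        simpa [h5] using h3

theorem Tw.split {l r : Bool} {u v : List T} {w' : List T'} (hu : u ≠ [])
    (h : Tw ρ l r (u ++ v) w') :
    ∃ u' v', w' = u' ++ v' ∧ Tw ρ l (r && v.isEmpty) u u' ∧ Tw ρ false r v v' := by
  induction u generalizing l w' with
  | nil => exact absurd rfl hu
  | cons a u ih =>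
    cases h with
    | @cons _ _ _ a' _ w'' h3 h4 =>
      by_cases h : u = []
      · subst h
        exact ⟨[a'], w'', rfl, Tw.cons (by simpa using h3) (Tw.nil _ _), h4⟩
      · obtain ⟨u', v', rfl, h5, h6⟩ := ih h h4
        refine ⟨a' :: u', v', rfl, Tw.cons ?_ h5, h6⟩
        have h7 : u.isEmpty = false := by simpa using h
        have h8 : (u.append v).isEmpty = false := by simp [h]
        rw [h8] at h3
        simpa [h7] using h3

theorem Der.isEmpty (hP : ∀ A β, P A β → β ≠ []) {α : List (N ⊕ T)} {w : List T}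
    (h : Der P α w) : w.isEmpty = α.isEmpty := by
  by_cases h1 : w = []
  · rw [h.eq_nil hP h1, h1]; rfl
  · have : α ≠ [] := fun h2 => h1 (by subst h2; exact h.nil_inv)
    rw [List.isEmpty_eq_false_iff.2 h1, List.isEmpty_eq_false_iff.2 this]

/-- The productions of the tagged grammar. -/
def TP (ρ : Bool → Bool → T → T' → Prop) (P : N → List (N ⊕ T) → Prop) (A : N × Bool × Bool)
    (β' : List ((N × Bool × Bool) ⊕ T')) : Prop :=
  ∃ β, P A.1 β ∧ Tg ρ A.2.1 A.2.2 β β'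

theorem tag_fwd (hP : ∀ A β, P A β → β ≠ []) {α : List (N ⊕ T)} {w : List T} (h : Der P α w) :
    ∀ (l r : Bool) (w' : List T'), Tw ρ l r w w' → ∃ α', Tg ρ l r α α' ∧ Der (TP ρ P) α' w' := by
  induction h with
  | nil =>
    intro l r w' h
    cases h
    exact ⟨[], Tg.nil _ _, Der.nil⟩
  | term a h1 ih =>
    intro l r w' h
    cases h with
    | @cons _ _ _ a' _ w'' h3 h4 =>
      obtain ⟨α', h5, h6⟩ := ih _ _ _ h4
      rw [h1.isEmpty hP] at h3
      exact ⟨_, Tg.term h3 h5, Der.term a' h6⟩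
  | nt A β h1 h2 h3 ih1 ih2 =>
    intro l r w' h
    obtain ⟨u', v', rfl, h4, h5⟩ := h.split fun h => hP _ _ h1 (h2.eq_nil hP h)
    obtain ⟨β', h6, h7⟩ := ih1 _ _ _ h4
    obtain ⟨α', h8, h9⟩ := ih2 _ _ _ h5
    rw [h3.isEmpty hP] at h6
    exact ⟨_, Tg.nt A h8, Der.nt _ β' ⟨β, h1, h6⟩ h7 h9⟩

theorem tag_bwd (hP : ∀ A β, P A β → β ≠ []) {α' : List ((N × Bool × Bool) ⊕ T')} {w' : List T'}
    (h : Der (TP ρ P) α' w') :
    ∀ (l r : Bool) (α : List (N ⊕ T)), Tg ρ l r α α' → ∃ w, Der P α w ∧ Tw ρ l r w w' := by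
  induction h with
  | nil =>
    intro l r α h
    cases h
    exact ⟨[], Der.nil, Tw.nil _ _⟩
  | term a' _ ih =>
    intro l r α h
    cases h with
    | @term _ _ a _ α1 _ h3 h4 =>
      obtain ⟨w, h5, h6⟩ := ih _ _ _ h4
      rw [← h5.isEmpty hP] at h3
      exact ⟨_, Der.term a h5, Tw.cons h3 h6⟩
  | nt A' β' h1 _ _ ih1 ih2 =>
    intro l r α h
    cases h with
    | @nt _ _ A α1 _ h4 =>
      obtain ⟨β, h5, h6⟩ := h1
      obtain ⟨u, h7, h8⟩ := ih1 _ _ _ h6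
      obtain ⟨v, h9, h10⟩ := ih2 _ _ _ h4
      dsimp only at h8
      rw [← h9.isEmpty hP] at h8
      exact ⟨_, Der.nt A β h5 h7 h9, h8.append (fun h => hP _ _ h5 (h7.eq_nil hP h)) h10⟩

theorem tag_iff (hP : ∀ A β, P A β → β ≠ []) (S : N) (w' : List T') :
    Der (TP ρ P) [Sum.inl (S, true, true)] w' ↔ ∃ w, Der P [Sum.inl S] w ∧ Tw ρ true true w w' := by
  constructor
  · intro h
    exact tag_bwd hP h _ _ _ (Tg.nt (l := true) (r := true) S (Tg.nil _ _))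
  · rintro ⟨w, h1, h2⟩
    obtain ⟨α', h3, h4⟩ := tag_fwd hP h1 _ _ _ h2
    cases h3 with
    | nt _ h5 => cases h5; exact h4

theorem Tg.mem {l r : Bool} {β : List (N ⊕ T)} {β' : List ((N × Bool × Bool) ⊕ T')}
    (h : Tg ρ l r β β') : ∀ x' ∈ β', (∃ A, x' = Sum.inl A ∧ Sum.inl A.1 ∈ β) ∨
      ∃ l r c c', x' = Sum.inr c' ∧ Sum.inr c ∈ β ∧ ρ l r c c' := by
  induction h with
  | nil => simp
  | term h1 _ ih =>
    intro x' hx
    rcases List.mem_cons.1 hx with rfl | hx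
    · exact Or.inr ⟨_, _, _, _, rfl, by simp, h1⟩
    · rcases ih x' hx with ⟨A, h2, h3⟩ | ⟨l, r, c, c', h2, h3, h4⟩
      · exact Or.inl ⟨A, h2, List.mem_cons_of_mem _ h3⟩
      · exact Or.inr ⟨l, r, c, c', h2, List.mem_cons_of_mem _ h3, h4⟩
  | nt A _ ih =>
    intro x' hx
    rcases List.mem_cons.1 hx with rfl | hx
    · exact Or.inl ⟨_, rfl, by simp⟩
    · rcases ih x' hx with ⟨A, h2, h3⟩ | ⟨l, r, c, c', h2, h3, h4⟩
      · exact Or.inl ⟨A, h2, List.mem_cons_of_mem _ h3⟩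
      · exact Or.inr ⟨l, r, c, c', h2, List.mem_cons_of_mem _ h3, h4⟩

theorem Tg.map_eq {l r : Bool} {β : List (N ⊕ T)} {β' : List ((N × Bool × Bool) ⊕ T')}
    (h : Tg ρ l r β β') (τN : N → ℕ) (τT : T → ℕ) (a : ℕ)
    (hρ : ∀ l r c c', Sum.inr c ∈ β → ρ l r c c' → τT c = a) :
    β'.map (Sum.map (fun A => τN A.1) fun _ => a) = β.map (Sum.map τN τT) := by
  induction h with
  | nil => rfl
  | term h1 _ ih =>
    simp only [List.map_cons, Sum.map_inr]
    rw [ih fun l r c c' hc => hρ l r c c' (List.mem_cons_of_mem _ hc), hρ _ _ _ _ (by simp) h1]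
  | nt A _ ih =>
    simp only [List.map_cons, Sum.map_inl]
    rw [ih fun l r c c' hc => hρ l r c c' (List.mem_cons_of_mem _ hc)]

/-- Languages generated by an interpretation with terminal colouring `τT`. -/
def FamT (Q : ℕ → List (ℕ ⊕ ℕ) → Prop) (S : ℕ) (τT : ℕ → ℕ) (L : Set (List ℕ)) : Prop :=
  ∃ (N : Type) (_ : Countable N) (P : N → List (N ⊕ ℕ) → Prop) (S' : N) (τN : N → ℕ)
    (F : Set (N ⊕ ℕ)), F.Finite ∧ τN S' = S ∧
    (∀ A β, P A β → Q (τN A) (β.map (Sum.map τN τT)) ∧ Sum.inl A ∈ F ∧ ∀ x ∈ β, x ∈ F) ∧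
    L = {w | Der P [Sum.inl S'] w}

/-- The productions that use only the terminal `a`. -/
def Res (Q : ℕ → List (ℕ ⊕ ℕ) → Prop) (a : ℕ) (A : ℕ) (β : List (ℕ ⊕ ℕ)) : Prop :=
  Q A β ∧ ∀ b, Sum.inr b ∈ β → b = a

variable {Q : ℕ → List (ℕ ⊕ ℕ) → Prop} {S : ℕ}

theorem FamT.tag (hQ : ∀ A β, Q A β → β ≠ []) {τT : ℕ → ℕ} {L : Set (List ℕ)}
    (h : FamT Q S τT L) (ρ : Bool → Bool → ℕ → ℕ → Prop) (a : ℕ)
    (hρ : ∀ l r c c', ρ l r c c' → τT c = a) (hf : ∀ c, {c' | ∃ l r, ρ l r c c'}.Finite) :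
    FamT (Res Q a) S (fun _ => a) {w' | ∃ w ∈ L, Tw ρ true true w w'} := by
  obtain ⟨N, _, P, S', τN, F, hF, hS, hP, rfl⟩ := h
  have hP0 : ∀ A β, P A β → β ≠ [] := fun A β h h' => hQ _ _ (hP A β h).1 (by simp [h'])
  refine ⟨N × Bool × Bool, inferInstance, TP ρ P, (S', true, true), fun A => τN A.1,
    Sum.inl '' ((Sum.inl ⁻¹' F) ×ˢ Set.univ) ∪
      Sum.inr '' (⋃ c ∈ Sum.inr ⁻¹' F, {c' | ∃ l r, ρ l r c c'}), ?_, hS, ?_, ?_⟩
  · refine (((hF.preimage Sum.inl_injective.injOn).prod Set.finite_univ).image _).union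
      (Set.Finite.image _ ?_)
    exact (hF.preimage Sum.inr_injective.injOn).biUnion fun c _ => hf c
  · rintro A β' ⟨β, h1, h2⟩
    obtain ⟨h3, h4, h5⟩ := hP _ _ h1
    refine ⟨⟨?_, ?_⟩, Or.inl ⟨A, ⟨h4, trivial⟩, rfl⟩, fun x hx => ?_⟩
    · rw [h2.map_eq τN τT a fun l r c c' _ => hρ l r c c']
      exact h3
    · intro b hb
      obtain ⟨x, -, hx⟩ := List.mem_map.1 hb
      rcases x with x | x
      · simp at hx
      · simpa using hx.symm
    · rcases h2.mem x hx with ⟨B, rfl, h6⟩ | ⟨l, r, c, c', rfl, h6, h7⟩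
      · exact Or.inl ⟨B, ⟨h5 _ h6, trivial⟩, rfl⟩
      · exact Or.inr ⟨c', Set.mem_biUnion (x := c) (h5 _ h6) ⟨l, r, h7⟩, rfl⟩
  · ext w'
    exact (tag_iff hP0 S' w').symm

theorem FamT.mono {Q' : ℕ → List (ℕ ⊕ ℕ) → Prop} (hQ : ∀ A β, Q A β → Q' A β) {τT : ℕ → ℕ}
    {L : Set (List ℕ)} (h : FamT Q S τT L) : FamT Q' S τT L := by
  obtain ⟨N, _, P, S', τN, F, hF, hS, hP, rfl⟩ := h
  exact ⟨N, inferInstance, P, S', τN, F, hF, hS,
    fun A β h => ⟨hQ _ _ (hP A β h).1, (hP A β h).2⟩, rfl⟩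

theorem FamT.unary {a : ℕ} (hQ : ∀ A β, Q A β → ∀ b, Sum.inr b ∈ β → b = a) {τT : ℕ → ℕ}
    {L : Set (List ℕ)} (h : FamT Q S τT L) : FamT Q S (fun _ => a) L := by
  obtain ⟨N, _, P, S', τN, F, hF, hS, hP, rfl⟩ := h
  refine ⟨N, inferInstance, P, S', τN, F, hF, hS, fun A β h => ⟨?_, (hP A β h).2⟩, rfl⟩
  have h1 := (hP A β h).1
  have h2 : β.map (Sum.map τN fun _ => a) = β.map (Sum.map τN τT) := by
    refine List.map_congr_left fun x hx => ?_
    rcases x with x | x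
    · rfl
    · simp only [Sum.map_inr, Sum.inr.injEq]
      exact (hQ _ _ h1 _ (List.mem_map.2 ⟨_, hx, rfl⟩)).symm
  rwa [h2]

theorem FamT.bounded {τT : ℕ → ℕ} {L : Set (List ℕ)} (h : FamT Q S τT L) :
    ∃ M, ∀ w ∈ L, ∀ c ∈ w, c < M := by
  obtain ⟨N, _, P, S', τN, F, hF, hS, hP, rfl⟩ := h
  obtain ⟨M, hM⟩ := (hF.preimage (f := Sum.inr) Sum.inr_injective.injOn).bddAbove
  refine ⟨M + 1, fun w hw c hc => Nat.lt_succ_of_le (hM ?_)⟩
  rcases Der.mem_used hw c hc with h | ⟨A, β, h1, h2⟩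
  · simp at h
  · exact (hP A β h1).2.2 _ h2

theorem FamT.empty (τT : ℕ → ℕ) : FamT Q S τT ∅ := by
  refine ⟨ℕ, inferInstance, fun _ _ => False, S, id, ∅, Set.finite_empty, rfl, by simp, ?_⟩
  ext w
  simp [der_single]

theorem FamT.union {τT : ℕ → ℕ} {L1 L2 : Set (List ℕ)} (h1 : FamT Q S τT L1)
    (h2 : FamT Q S τT L2) : FamT Q S τT (L1 ∪ L2) := by
  obtain ⟨N1, _, P1, S1, τ1, F1, hF1, hS1, hP1, rfl⟩ := h1
  obtain ⟨N2, _, P2, S2, τ2, F2, hF2, hS2, hP2, rfl⟩ := h2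
  let f1 : N1 → Option (N1 ⊕ N2) := fun A => some (Sum.inl A)
  let f2 : N2 → Option (N1 ⊕ N2) := fun A => some (Sum.inr A)
  let P : Option (N1 ⊕ N2) → List (Option (N1 ⊕ N2) ⊕ ℕ) → Prop := fun A β' =>
    (∃ B β, P1 B β ∧ (A = f1 B ∨ (A = none ∧ B = S1)) ∧ β' = β.map (Sum.map f1 id)) ∨
    (∃ B β, P2 B β ∧ (A = f2 B ∨ (A = none ∧ B = S2)) ∧ β' = β.map (Sum.map f2 id))
  let τ : Option (N1 ⊕ N2) → ℕ := fun A => A.elim S (Sum.elim τ1 τ2)
  refine ⟨Option (N1 ⊕ N2), inferInstance, P, none, τ,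
    insert (Sum.inl none) (Sum.map f1 id '' F1 ∪ Sum.map f2 id '' F2),
    ((hF1.image _).union (hF2.image _)).insert _, rfl, ?_, ?_⟩
  · rintro A β' (⟨B, β, h1, h2, rfl⟩ | ⟨B, β, h1, h2, rfl⟩)
    · obtain ⟨h3, h4, h5⟩ := hP1 _ _ h1
      refine ⟨?_, ?_, fun x hx => ?_⟩
      · have h6 : τ A = τ1 B := by
          rcases h2 with rfl | ⟨rfl, rfl⟩
          · rfl
          · exact hS1.symm
        rw [h6, List.map_map, Sum.map_comp_map]
        exact h3
      · rcases h2 with rfl | ⟨rfl, rfl⟩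
        · exact Or.inr (Or.inl ⟨_, h4, rfl⟩)
        · exact Or.inl rfl
      · obtain ⟨y, hy, rfl⟩ := List.mem_map.1 hx
        exact Or.inr (Or.inl ⟨_, h5 y hy, rfl⟩)
    · obtain ⟨h3, h4, h5⟩ := hP2 _ _ h1
      refine ⟨?_, ?_, fun x hx => ?_⟩
      · have h6 : τ A = τ2 B := by
          rcases h2 with rfl | ⟨rfl, rfl⟩
          · rfl
          · exact hS2.symm
        rw [h6, List.map_map, Sum.map_comp_map]
        exact h3
      · rcases h2 with rfl | ⟨rfl, rfl⟩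
        · exact Or.inr (Or.inr ⟨_, h4, rfl⟩)
        · exact Or.inl rfl
      · obtain ⟨y, hy, rfl⟩ := List.mem_map.1 hx
        exact Or.inr (Or.inr ⟨_, h5 y hy, rfl⟩)
  · have e1 : ∀ β w, Der P (β.map (Sum.map f1 id)) w ↔ Der P1 β w := fun β w =>
      ⟨fun h => h.comap f1 (by
          rintro A β' (⟨B, β, h1, h2, rfl⟩ | ⟨B, β, h1, h2, rfl⟩)
          · obtain rfl : A = B := by simpa [f1] using h2
            exact ⟨β, h1, rfl⟩
          · simp [f1, f2] at h2) β rfl,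
        fun h => h.map f1 fun A β h => Or.inl ⟨A, β, h, Or.inl rfl, rfl⟩⟩
    have e2 : ∀ β w, Der P (β.map (Sum.map f2 id)) w ↔ Der P2 β w := fun β w =>
      ⟨fun h => h.comap f2 (by
          rintro A β' (⟨B, β, h1, h2, rfl⟩ | ⟨B, β, h1, h2, rfl⟩)
          · simp [f1, f2] at h2
          · obtain rfl : A = B := by simpa [f2] using h2
            exact ⟨β, h1, rfl⟩) β rfl,
        fun h => h.map f2 fun A β h => Or.inr ⟨A, β, h, Or.inl rfl, rfl⟩⟩
    ext w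
    simp only [Set.mem_union, Set.mem_ofPred_eq, der_single]
    constructor
    · rintro (⟨β, h1, h2⟩ | ⟨β, h1, h2⟩)
      · exact ⟨_, Or.inl ⟨S1, β, h1, Or.inr ⟨rfl, rfl⟩, rfl⟩, (e1 _ _).2 h2⟩
      · exact ⟨_, Or.inr ⟨S2, β, h1, Or.inr ⟨rfl, rfl⟩, rfl⟩, (e2 _ _).2 h2⟩
    · rintro ⟨β', (⟨B, β, h1, h2, rfl⟩ | ⟨B, β, h1, h2, rfl⟩), h3⟩
      · obtain rfl : B = S1 := by simpa [f1] using h2
        exact Or.inl ⟨β, h1, (e1 _ _).1 h3⟩
      · obtain rfl : B = S2 := by simpa [f2] using h2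
        exact Or.inr ⟨β, h1, (e2 _ _).1 h3⟩

theorem FamT.iUnion {ι : Type} [Finite ι] {τT : ℕ → ℕ} {L : ι → Set (List ℕ)}
    (h : ∀ i, FamT Q S τT (L i)) : FamT Q S τT (⋃ i, L i) := by
  have : ∀ s : Set ι, s.Finite → FamT Q S τT (⋃ i ∈ s, L i) := by
    intro s hs
    induction s, hs using Set.Finite.induction_on with
    | empty => simpa using FamT.empty τT
    | insert _ _ ih => rw [Set.biUnion_insert]; exact (h _).union ih
  simpa using this Set.univ Set.finite_univ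

end Pool.Agent.H39.CF
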