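import Mathlib
import Pool.Agent.H39.Form

set_option autoImplicit false

namespace Pool.Agent.H39.CF

open Combinatorics

variable {Q : ℕ → List (ℕ ⊕ ℕ) → Prop} {S : ℕ}

theorem FamT.congr {τT τT' : ℕ → ℕ} (hτ : ∀ c A β, Q A β → Sum.inr (τT c) ∈ β → τT' c = τT c)
    {L : Set (List ℕ)} (h : FamT Q S τT L) : FamT Q S τT' L := by
  obtain ⟨N, _, P, S', τN, F, hF, hS, hP, rfl⟩ := h
  refine ⟨N, inferInstance, P, S', τN, F, hF, hS, fun A β h => ⟨?_, (hP A β h).2⟩, rfl⟩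
  have h1 := (hP A β h).1
  have h2 : β.map (Sum.map τN τT') = β.map (Sum.map τN τT) := by
    refine List.map_congr_left fun x hx => ?_
    rcases x with x | x
    · rfl
    · simp only [Sum.map_inr, Sum.inr.injEq]
      exact hτ _ _ _ h1 (List.mem_map.2 ⟨_, hx, rfl⟩)
  rwa [h2]

theorem FamT.nil_notMem (hQ : ∀ A β, Q A β → β ≠ []) {τT : ℕ → ℕ} {L : Set (List ℕ)}
    (h : FamT Q S τT L) : [] ∉ L := by
  obtain ⟨N, _, P, S', τN, F, hF, hS, hP, rfl⟩ := h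
  have hP0 : ∀ A β, P A β → β ≠ [] := fun A β h h' => hQ _ _ (hP A β h).1 (by simp [h'])
  intro h
  simpa using Der.eq_nil hP0 h rfl

theorem Tw.isEmpty {T T' : Type} {ρ : Bool → Bool → T → T' → Prop} {l r : Bool} {w : List T}
    {w' : List T'} (h : Tw ρ l r w w') : w'.isEmpty = w.isEmpty := by
  cases h <;> rfl

/-- Tagging along a line. -/
def ρ1 {κ ι : Type} {M : ℕ} (enc : (ι → κ × Fin M × Bool) → ℕ) (ℓ : Line (κ × Fin M × Bool) ι)
    (b : κ) (l _r : Bool) (c c' : ℕ) : Prop :=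
  ∃ h : c < M, c' = enc (ℓ (b, ⟨c, h⟩, l))

/-- Removing the tags. -/
def ρ2 {κ ι : Type} {M : ℕ} (enc : (ι → κ × Fin M × Bool) → ℕ) (ℓ : Line (κ × Fin M × Bool) ι)
    (b : κ) (L : Set (List ℕ)) (l r : Bool) (c' c : ℕ) : Prop :=
  ∃ h : c < M, c' = enc (ℓ (b, ⟨c, h⟩, l)) ∧ (l = true → r = true → [c] ∈ L)

section
variable {κ ι : Type} {M : ℕ} {enc : (ι → κ × Fin M × Bool) → ℕ}
  {ℓ ℓ0 : Line (κ × Fin M × Bool) ι} {b b0 : κ} {L : Set (List ℕ)}

theorem tw_there (w : List ℕ) (hw : ∀ c ∈ w, c < M) (l r : Bool)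
    (h : l = true → w ∈ L) :
    ∃ w', Tw (ρ1 enc ℓ b) l r w w' ∧ Tw (ρ2 enc ℓ b L) l r w' w := by
  induction w generalizing l with
  | nil => exact ⟨[], Tw.nil _ _, Tw.nil _ _⟩
  | cons c w ih =>
    obtain ⟨w', h1, h2⟩ := ih (fun c hc => hw c (List.mem_cons_of_mem _ hc)) false (by simp)
    have hc := hw c (by simp)
    refine ⟨enc (ℓ (b, ⟨c, hc⟩, l)) :: w', Tw.cons ⟨hc, rfl⟩ h1, Tw.cons ⟨hc, rfl, ?_⟩ h2⟩
    intro h3 h4
    rw [h1.isEmpty] at h4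
    obtain rfl : w = [] := by
      simp only [Bool.and_eq_true, List.isEmpty_iff] at h4
      exact h4.2
    exact h h3

theorem tw_same (he : Function.Injective enc) {i : ι} (h1 : ℓ.idxFun i = none)
    (h0 : ℓ0.idxFun i = none) {l r : Bool} {w0 w' w : List ℕ} (h2 : Tw (ρ1 enc ℓ b) l r w0 w')
    (h3 : Tw (ρ2 enc ℓ0 b0 L) l r w' w) : w0 = w ∧ (w ≠ [] → b = b0) := by
  induction h2 generalizing w with
  | nil => cases h3; simp
  | cons h4 _ ih =>
    cases h3 with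
    | cons h5 h6 =>
      obtain ⟨_, rfl⟩ := h4
      obtain ⟨_, h7, -⟩ := h5
      have h8 := congrFun (he h7) i
      rw [ℓ.apply_none _ _ h1, ℓ0.apply_none _ _ h0] at h8
      simp only [Prod.mk.injEq, Fin.mk.injEq] at h8
      rw [(ih h6).1, h8.2.1]
      exact ⟨rfl, fun _ => h8.1⟩

theorem tw_back (he : Function.Injective enc) {L' : κ → Set (List ℕ)} (hL : [] ∉ L' b)
    {w0 w' w : List ℕ} (hw : w0 ∈ L' b) (h2 : Tw (ρ1 enc ℓ b) true true w0 w')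
    (h3 : Tw (ρ2 enc ℓ0 b0 (L' b0)) true true w' w) : w ∈ L' b0 := by
  obtain ⟨i, h0⟩ := ℓ0.proper
  have key : ℓ.idxFun i = none → w ∈ L' b0 := fun h1 => by
    obtain ⟨rfl, h4⟩ := tw_same he h1 h0 h2 h3
    rw [← h4 fun h => hL (h ▸ hw)]
    exact hw
  cases h2 with
  | nil => exact absurd hw hL
  | cons h4 h5 =>
    cases h3 with
    | cons h6 h7 =>
      cases h5 with
      | nil =>
        cases h7
        obtain ⟨_, -, h8⟩ := h6
        exact h8 rfl rfl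
      | cons h8 h9 =>
        cases h7 with
        | cons h10 h11 =>
          refine key ?_
          obtain ⟨_, rfl⟩ := h4
          obtain ⟨_, h12, -⟩ := h6
          obtain ⟨_, rfl⟩ := h8
          obtain ⟨_, h13, -⟩ := h10
          have h14 := congrFun (he h12) i
          have h15 := congrFun (he h13) i
          rw [ℓ0.apply_none _ _ h0] at h14 h15
          cases h16 : ℓ.idxFun i with
          | none => rfl
          | some x =>
            rw [Line.apply_some h16] at h14 h15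
            simpa using congrArg (fun y => y.2.2) (h14.symm.trans h15)

end

theorem core {Q' : ℕ → List (ℕ ⊕ ℕ) → Prop} {S' a : ℕ} {T' : Finset ℕ} (hT : T'.Nonempty)
    (hQ : ∀ A β, Q A β → β ≠ [] ∧ ∀ b, Sum.inr b ∈ β → b = a)
    (hQ' : ∀ A β, Q' A β → β ≠ [] ∧ ∀ b, Sum.inr b ∈ β → b ∈ T')
    (h : ∀ L, (∃ τ, FamT Q S τ L) → ∃ τ, FamT Q' S' τ L) :
    ∃ a0 ∈ T', ∀ L, (∃ τ, FamT Q S τ L) → ∃ τ, FamT (Res Q' a0) S' τ L := by
  by_contra hc
  push Not at hc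
  choose L hL1 hL2 using hc
  have hL3 : ∀ b : T', FamT Q S (fun _ => a) (L b b.2) := fun b => by
    obtain ⟨τ, hτ⟩ := hL1 b b.2
    exact hτ.unary fun A β h => (hQ A β h).2
  choose M0 hM0 using fun b => (hL3 b).bounded
  obtain ⟨M, hM⟩ := (Set.finite_range M0).bddAbove
  obtain ⟨ι, _, hι⟩ := Line.exists_mono_in_high_dimension (T' × Fin M × Bool) T'
  obtain ⟨enc, he⟩ := exists_injective_nat (ι → T' × Fin M × Bool)
  have : Finite (Line (T' × Fin M × Bool) ι) :=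
    Finite.of_injective (fun ℓ => ℓ.idxFun) fun _ _ h => Line.ext h
  have h1 : FamT Q S (fun _ => a) (⋃ p : Line (T' × Fin M × Bool) ι × T',
      {w' | ∃ w ∈ L p.2 p.2.2, Tw (ρ1 enc p.1 p.2) true true w w'}) := by
    refine FamT.iUnion fun p => FamT.mono (fun A β h => h.1)
      ((hL3 p.2).tag (fun A β h => (hQ A β h).1) _ a (fun _ _ _ _ _ => rfl) fun c => ?_)
    refine (Set.finite_range enc).subset ?_
    rintro c' ⟨l, r, h, rfl⟩
    exact ⟨_, rfl⟩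
  obtain ⟨τ, hτ⟩ := h _ ⟨_, h1⟩
  obtain ⟨a1, ha1⟩ := hT
  let τ' : ℕ → T' := fun c => if h : τ c ∈ T' then ⟨τ c, h⟩ else ⟨a1, ha1⟩
  have h2 := hτ.congr (τT' := fun c => (τ' c : ℕ)) fun c A β h1 h2 => by
    simp only [τ', dif_pos ((hQ' A β h1).2 _ h2)]
  obtain ⟨ℓ0, a0, h3⟩ := hι fun x => τ' (enc x)
  have h4 := h2.tag (fun A β h => (hQ' A β h).1) (ρ2 enc ℓ0 a0 (L a0 a0.2)) a0
    (by rintro l r c c' ⟨h, rfl, -⟩; exact congrArg Subtype.val (h3 _))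
    (fun c => (Set.finite_Iio M).subset (by rintro c' ⟨l, r, h, -⟩; exact h))
  refine hL2 a0 a0.2 (fun _ => a0) ?_
  convert h4 using 1
  ext w
  constructor
  · intro hw
    obtain ⟨w', h5, h6⟩ := tw_there (enc := enc) (ℓ := ℓ0) (b := a0) (L := L a0 a0.2) w
      (fun c hc => (hM0 a0 w hw c hc).trans_le (hM ⟨a0, rfl⟩)) true true fun _ => hw
    exact ⟨w', Set.mem_iUnion.2 ⟨(ℓ0, a0), w, hw, h5⟩, h6⟩
  · rintro ⟨w', h5, h6⟩
    obtain ⟨p, w0, h7, h8⟩ := Set.mem_iUnion.1 h5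
    exact tw_back he (L' := fun b : T' => L b b.2)
      ((hL3 p.2).nil_notMem fun A β h => (hQ A β h).1) h7 h8 h6

end Pool.Agent.H39.CF
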