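import Mathlib

/-! Generic branches of the tree of finite sequences from a small family of meager sets. -/

set_option autoImplicit false

namespace Pool.Agent.H39.Free1
open Set Filter Topology Cardinal

theorem unpack {Y : Type} [TopologicalSpace Y] {R : Set Y} (h : IsMeagre R) :
    ∃ D : ℕ → Set Y, (∀ j, IsOpen (D j) ∧ Dense (D j)) ∧ ∀ y, (∀ j, y ∈ D j) → y ∉ R := by
  obtain ⟨S, h1, h2, h3, h4⟩ := mem_residual_iff.1 h
  obtain ⟨D, hD⟩ := (h3.insert Set.univ).exists_eq_range (insert_nonempty _ _)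
  refine ⟨D, fun j => ?_, fun y hy => h4 fun t ht => ?_⟩
  · have : D j ∈ insert Set.univ S := hD ▸ mem_range_self j
    rcases this with h | h
    · rw [h]; exact ⟨isOpen_univ, dense_univ⟩
    · exact ⟨h1 _ h, h2 _ h⟩
  · have : t ∈ range D := hD ▸ mem_insert_of_mem _ ht
    obtain ⟨j, rfl⟩ := this
    exact hy j

theorem meagre_compl {O : Set ℝ} (h1 : IsOpen O) (h2 : Dense O) : IsMeagre Oᶜ := by
  unfold IsMeagre
  rw [compl_compl]
  exact residual_of_dense_open h1 h2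

theorem gen {ι : Type} (H : ∀ M : ι → Set ℝ, (∀ i, IsMeagre (M i)) → (⋃ i, M i) ≠ Set.univ)
    (κ : Type) (hκ : #κ ≤ max #ι ℵ₀) (O : κ → Set ℝ) (h : ∀ k, IsOpen (O k) ∧ Dense (O k)) :
    ∃ r, ∀ k, r ∈ O k := by
  rcases le_total #ι ℵ₀ with h1 | h1
  · rw [max_eq_right h1] at hκ
    have : Countable κ := mk_le_aleph0_iff.1 hκ
    obtain ⟨r, hr⟩ := (dense_iInter_of_isOpen (fun k => (h k).1) fun k => (h k).2).nonempty
    exact ⟨r, mem_iInter.1 hr⟩
  · rw [max_eq_left h1] at hκ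
    obtain ⟨f⟩ := (le_def _ _).1 hκ
    classical
    have := H (fun i => if hi : ∃ k, f k = i then (O hi.choose)ᶜ else ∅) (fun i => by
      by_cases hi : ∃ k, f k = i
      · simp only [dif_pos hi]; exact meagre_compl (h _).1 (h _).2
      · simp only [dif_neg hi]; exact IsMeagre.empty)
    obtain ⟨r, hr⟩ := (ne_univ_iff_exists_notMem _).1 this
    refine ⟨r, fun k => ?_⟩
    by_contra hc
    apply hr
    refine mem_iUnion.2 ⟨f k, ?_⟩
    have hi : ∃ k', f k' = f k := ⟨k, rfl⟩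
    simp only [dif_pos hi]
    have : hi.choose = k := f.injective hi.choose_spec
    rw [this]; exact hc

noncomputable def len : List ℕ → ℝ
  | [] => 1
  | n :: p => len p / (((n : ℝ) + 1) * ((n : ℝ) + 2))

noncomputable def lo : List ℕ → ℝ
  | [] => 0
  | n :: p => lo p + len p / ((n : ℝ) + 2)

theorem len_pos : ∀ p, 0 < len p
  | [] => one_pos
  | n :: p => div_pos (len_pos p) (by positivity)

theorem hi_cons (n : ℕ) (p : List ℕ) :
    lo (n :: p) + len (n :: p) = lo p + len p / ((n : ℝ) + 1) := by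
  simp only [lo, len]
  field_simp
  ring

def J (z : ℤ) (p : List ℕ) : Set ℝ := Ioo (z + lo p) (z + (lo p + len p))

theorem J_cons (z : ℤ) (n : ℕ) (p : List ℕ) :
    J z (n :: p) = Ioo (z + (lo p + len p / ((n : ℝ) + 2))) (z + (lo p + len p / ((n : ℝ) + 1))) := by
  rw [J, hi_cons]; rfl

theorem J_sub (z : ℤ) (n : ℕ) (p : List ℕ) : J z (n :: p) ⊆ J z p := by
  rw [J_cons]
  have h := len_pos p
  have h1 : 0 < len p / ((n : ℝ) + 2) := by positivity
  have h2 : len p / ((n : ℝ) + 1) ≤ len p := div_le_self h.le (by linarith [Nat.cast_nonneg (α := ℝ) n])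
  exact Ioo_subset_Ioo (by linarith) (by linarith)

theorem J_app (z : ℤ) (p : List ℕ) : ∀ q : List ℕ, J z (q ++ p) ⊆ J z p
  | [] => subset_rfl
  | n :: q => (J_sub z n _).trans (J_app z p q)

theorem J_ne (z : ℤ) (p : List ℕ) : (J z p).Nonempty :=
  nonempty_Ioo.2 (by linarith [len_pos p])

theorem J_floor {z : ℤ} {p : List ℕ} {r : ℝ} (h : r ∈ J z p) : ⌊r⌋ = z := by
  have := J_app z [] p (by simpa using h)
  simp only [J, lo, len, mem_Ioo] at this
  exact Int.floor_eq_iff.2 ⟨by linarith [this.1], by linarith [this.2]⟩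

theorem J_uniq {z : ℤ} {r : ℝ} : ∀ p q : List ℕ, p.length = q.length → r ∈ J z p → r ∈ J z q → p = q
  | [], [], _, _, _ => rfl
  | [], _ :: _, h, _, _ => by simp at h
  | _ :: _, [], h, _, _ => by simp at h
  | n :: p, m :: q, h, h1, h2 => by
    obtain rfl : p = q := J_uniq p q (by simpa using h) (J_sub _ _ _ h1) (J_sub _ _ _ h2)
    rw [J_cons] at h1 h2
    have hp := len_pos p
    have key : ∀ a b : ℕ, a < b → len p / ((b : ℝ) + 1) ≤ len p / ((a : ℝ) + 2) := fun a b hab => by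
      have : (a : ℝ) + 1 ≤ b := by exact_mod_cast hab
      exact div_le_div_of_nonneg_left hp.le (by positivity) (by linarith)
    rcases lt_trichotomy n m with h | h | h
    · have := key _ _ h
      linarith [h1.1, h2.2]
    · rw [h]
    · have := key _ _ h
      linarith [h1.2, h2.1]

theorem len_le : ∀ p : List ℕ, len p ≤ (1 / 2) ^ p.length
  | [] => by simp [len]
  | n :: p => by
    simp only [len, List.length_cons, pow_succ]
    have h := len_le p
    have h0 : (0 : ℝ) ≤ n := Nat.cast_nonneg n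
    rw [div_le_iff₀ (by positivity)]
    have : (0 : ℝ) < (1 / 2) ^ p.length := by positivity
    nlinarith [mul_nonneg h0 h0]

theorem meet_child {z : ℤ} {p : List ℕ} {I : Set ℝ} (hI : IsOpen I) (h : (I ∩ J z p).Nonempty) :
    ∃ n, (I ∩ J z (n :: p)).Nonempty := by
  have ho : IsOpen (I ∩ J z p) := hI.inter isOpen_Ioo
  have hc : (range fun n : ℕ => z + (lo p + len p / ((n : ℝ) + 1))).Countable := countable_range _
  obtain ⟨r, ⟨hr, hr1⟩, hr2⟩ := (hc.dense_compl ℝ).inter_open_nonempty _ ho h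
  have hp := len_pos p
  have h1 : 0 < r - (z + lo p) := by linarith [hr1.1]
  have hex : ∃ n : ℕ, z + (lo p + len p / ((n : ℝ) + 2)) < r := by
    obtain ⟨n, hn⟩ := exists_nat_gt (len p / (r - (z + lo p)))
    refine ⟨n, ?_⟩
    rw [div_lt_iff₀ h1] at hn
    have : len p / ((n : ℝ) + 2) < r - (z + lo p) := by
      rw [div_lt_iff₀ (by positivity)]; nlinarith
    linarith
  classical
  refine ⟨Nat.find hex, r, hr, ?_⟩
  rw [J_cons]
  refine ⟨Nat.find_spec hex, lt_of_le_of_ne ?_ fun he => hr2 ⟨_, he.symm⟩⟩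
  rcases Nat.eq_zero_or_pos (Nat.find hex) with h0 | h0
  · rw [h0]; simpa using hr1.2.le
  · obtain ⟨m, hm⟩ := Nat.exists_eq_add_one_of_ne_zero h0.ne'
    have := Nat.find_min hex (m := m) (by omega)
    rw [hm]
    push_cast
    rw [show (m : ℝ) + 1 + 1 = m + 2 by ring]
    exact not_lt.1 this

theorem pibase {I : Set ℝ} (hI : IsOpen I) (h : I.Nonempty) : ∃ z p, J z p ⊆ I := by
  obtain ⟨x, hx⟩ := h
  obtain ⟨ε, hε, hb⟩ := Metric.isOpen_iff.1 hI x hx
  have h0 : ∃ z, (Metric.ball x (ε / 2) ∩ J z []).Nonempty := by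
    have hc : (range fun n : ℤ => (n : ℝ)).Countable := countable_range _
    obtain ⟨r, hr, hr2⟩ := (hc.dense_compl ℝ).inter_open_nonempty _ Metric.isOpen_ball
      ⟨x, Metric.mem_ball_self (half_pos hε)⟩
    refine ⟨⌊r⌋, r, hr, ?_⟩
    simp only [J, lo, len, mem_Ioo, add_zero, zero_add]
    exact ⟨lt_of_le_of_ne (Int.floor_le r) fun he => hr2 ⟨_, he⟩, Int.lt_floor_add_one r⟩
  obtain ⟨z, hz⟩ := h0
  have h1 : ∀ k : ℕ, ∃ p : List ℕ, p.length = k ∧ (Metric.ball x (ε / 2) ∩ J z p).Nonempty := by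
    intro k
    induction k with
    | zero => exact ⟨[], rfl, hz⟩
    | succ k ih =>
      obtain ⟨p, h1, h2⟩ := ih
      obtain ⟨n, hn⟩ := meet_child Metric.isOpen_ball h2
      exact ⟨n :: p, by simp [h1], hn⟩
  obtain ⟨k, hk⟩ := exists_pow_lt_of_lt_one (half_pos hε) (by norm_num : (1 / 2 : ℝ) < 1)
  obtain ⟨p, h1, r, hr, hr2⟩ := h1 k
  refine ⟨z, p, fun y hy => hb ?_⟩
  have h3 := len_le p
  rw [h1] at h3
  rw [Metric.mem_ball, Real.dist_eq, abs_lt] at hr ⊢
  simp only [J, mem_Ioo] at hy hr2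
  constructor <;> linarith [hy.1, hy.2, hr2.1, hr2.2, hr.1, hr.2]

/-- A branch meeting every member of a small family of dense sets of finite sequences. -/
theorem branch {ι : Type} (H : ∀ M : ι → Set ℝ, (∀ i, IsMeagre (M i)) → (⋃ i, M i) ≠ Set.univ)
    (κ : Type) (hκ : #κ ≤ max #ι ℵ₀) (E : κ → Set (List ℕ)) (hE : ∀ k p, ∃ q, q ++ p ∈ E k) :
    ∃ P : ℕ → List ℕ, P 0 = [] ∧ (∀ k, ∃ n, P (k + 1) = n :: P k) ∧ ∀ k, ∃ m, P m ∈ E k := by
  have hκ' : #(κ ⊕ ℕ) ≤ max #ι ℵ₀ := by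
    rw [mk_sum, lift_id, lift_id, mk_nat]
    exact add_le_of_le (le_max_right _ _) hκ (le_max_right _ _)
  let E' : κ ⊕ ℕ → Set (List ℕ) := Sum.elim E fun m => {p | m ≤ p.length}
  have hE' : ∀ k p, ∃ q, q ++ p ∈ E' k := by
    rintro (k | m) p
    · exact hE k p
    · exact ⟨List.replicate m 0, by simp [E']⟩
  obtain ⟨r, hr⟩ := gen H _ hκ' (fun k => ⋃ z, ⋃ p ∈ E' k, J z p) fun k => by
    refine ⟨isOpen_iUnion fun z => isOpen_biUnion fun p _ => isOpen_Ioo, ?_⟩
    refine dense_iff_inter_open.2 fun I hI hne => ?_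
    obtain ⟨z, p, hp⟩ := pibase hI hne
    obtain ⟨q, hq⟩ := hE' k p
    obtain ⟨y, hy⟩ := J_ne z (q ++ p)
    exact ⟨y, hp (J_app z p q hy), mem_iUnion.2 ⟨z, mem_biUnion hq hy⟩⟩
  have hr' : ∀ k, ∃ p ∈ E' k, r ∈ J ⌊r⌋ p := fun k => by
    obtain ⟨z, hz⟩ := mem_iUnion.1 (hr k)
    obtain ⟨p, h1, h2⟩ := mem_iUnion₂.1 hz
    exact ⟨p, h1, by rw [J_floor h2]; exact h2⟩
  have hl : ∀ m, ∃ p : List ℕ, p.length = m ∧ r ∈ J ⌊r⌋ p := fun m => by
    obtain ⟨p, h1, h2⟩ := hr' (Sum.inr m)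
    have h1' : m ≤ p.length := h1
    refine ⟨p.drop (p.length - m), by simp; omega, J_app _ _ (p.take (p.length - m)) ?_⟩
    rwa [List.take_append_drop]
  choose P h1 h2 using hl
  refine ⟨P, List.length_eq_zero_iff.1 (h1 0), fun k => ?_, fun k => ?_⟩
  · have h3 := h1 (k + 1)
    have h4 := h2 (k + 1)
    rcases hP : P (k + 1) with _ | ⟨n, q⟩
    · rw [hP] at h3; simp at h3
    · rw [hP] at h3 h4
      exact ⟨n, by rw [J_uniq q (P k) (by simpa [h1] using h3) (J_sub _ _ _ h4) (h2 k)]⟩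
  · obtain ⟨p, h3, h4⟩ := hr' (Sum.inl k)
    exact ⟨p.length, by rw [J_uniq _ p (h1 _) (h2 _) h4]; exact h3⟩

end Pool.Agent.H39.Free1
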