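import Pool.Agent.H39.Free1

/-! Nowhere meager free sets from an ultrafilter of good blocks. -/

set_option autoImplicit false

namespace Pool.Agent.H39.Free2
open Set Filter Topology Cardinal Pool.Agent.H39.Free1

theorem fuse {α β : Type} [Preorder α] {T : Set β} (hT : T.Finite) (P : β → α → Prop)
    (mono : ∀ b a a', a' ≤ a → P b a → P b a') (dn : ∀ b ∈ T, ∀ a, ∃ a' ≤ a, P b a') :
    ∀ a, ∃ a' ≤ a, ∀ b ∈ T, P b a' := by
  induction T, hT using Set.Finite.induction_on with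
  | empty => exact fun a => ⟨a, le_rfl, by simp⟩
  | insert _ _ ih =>
    intro a
    obtain ⟨a1, h1, h2⟩ := ih (fun b hb => dn b (mem_insert_of_mem _ hb)) a
    obtain ⟨a2, h3, h4⟩ := dn _ (mem_insert _ _) a1
    refine ⟨a2, h3.trans h1, fun b hb => ?_⟩
    rcases hb with rfl | hb
    · exact h4
    · exact mono _ _ _ h3 (h2 b hb)

variable {X : Type} [MetricSpace X]

abbrev St (X : Type) [MetricSpace X] : Type := {V : ℕ → Set X // ∀ m, IsOpen (V m) ∧ (V m).Nonempty}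

theorem shrink {n : ℕ} {D : Set (Fin n → X)} (hD : IsOpen D ∧ Dense D) {τ : Fin n → ℕ}
    (hτ : Function.Injective τ) (V : St X) :
    ∃ V' ≤ V, ∀ x : Fin n → X, (∀ t, x t ∈ V'.1 (τ t)) → x ∈ D := by
  have ho : IsOpen (Set.univ.pi fun t => V.1 (τ t)) :=
    isOpen_set_pi finite_univ fun t _ => (V.2 _).1
  obtain ⟨y, hy1, hy2⟩ := hD.2.inter_open_nonempty _ ho (univ_pi_nonempty_iff.2 fun t => (V.2 _).2)
  obtain ⟨u, hu1, hu2⟩ := isOpen_pi_iff'.1 hD.1 y hy2
  refine ⟨⟨fun m => V.1 m ∩ ⋂ t, ⋂ _ : τ t = m, u t, fun m => ⟨(V.2 m).1.inter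
    (isOpen_iInter_of_finite fun t => isOpen_iInter_of_finite fun _ => (hu1 t).1), ?_⟩⟩,
    fun m => inter_subset_left, fun x hx => hu2 fun t _ => ?_⟩
  · by_cases h : ∃ t, τ t = m
    · obtain ⟨t, rfl⟩ := h
      refine ⟨y t, hy1 t trivial, mem_iInter₂.2 fun t' h' => ?_⟩
      rw [← hτ h']; exact (hu1 t').2
    · obtain ⟨z, hz⟩ := (V.2 m).2
      exact ⟨z, hz, mem_iInter₂.2 fun t' h' => absurd ⟨t', h'⟩ h⟩
  · exact mem_iInter₂.1 (hx t).2 t rfl

structure Base (B : ℕ → Set X) : Prop where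
  op : ∀ m, IsOpen (B m)
  ne : ∀ m, (B m).Nonempty
  pi : ∀ V : Set X, IsOpen V → V.Nonempty → ∀ ε : ℝ, 0 < ε →
    ∃ m, closure (B m) ⊆ V ∧ ∀ x ∈ B m, ∀ y ∈ B m, dist x y < ε

theorem exists_base [TopologicalSpace.SeparableSpace X] [Nonempty X] : ∃ B : ℕ → Set X, Base B := by
  obtain ⟨d, hd⟩ := TopologicalSpace.exists_dense_seq X
  refine ⟨fun m => Metric.ball (d m.unpair.1) (1 / ((m.unpair.2 : ℝ) + 1)), fun m => Metric.isOpen_ball,
    fun m => ⟨_, Metric.mem_ball_self (by positivity)⟩, fun V hV hne ε hε => ?_⟩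
  obtain ⟨a, ha⟩ := hd.exists_mem_open hV hne
  obtain ⟨δ, hδ, hb⟩ := Metric.nhds_basis_closedBall.mem_iff.1 (hV.mem_nhds ha)
  obtain ⟨b, hb'⟩ := exists_nat_one_div_lt (lt_min hδ (half_pos hε))
  refine ⟨Nat.pair a b, ?_, fun x hx y hy => ?_⟩
  · simp only [Nat.unpair_pair]
    exact Metric.closure_ball_subset_closedBall.trans
      ((Metric.closedBall_subset_closedBall (hb'.trans_le (min_le_left _ _)).le).trans hb)
  · simp only [Nat.unpair_pair, Metric.mem_ball] at hx hy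
    have := hb'.trans_le (min_le_right _ _)
    linarith [dist_triangle_right x y (d a)]

def Val (B : ℕ → Set X) (F : Finset ℕ) (k : ℕ) (F' : Finset ℕ) : Prop :=
  (∀ w ∈ F', ∀ x ∈ B w, ∀ y ∈ B w, dist x y < 1 / ((k : ℝ) + 1)) ∧
    ∀ m, (m ∈ F ∨ m ≤ k) → ∃ w ∈ F', closure (B w) ⊆ B m

def Univ (B : ℕ → Set X) (F : Finset ℕ) {n : ℕ} (D : Set (Fin n → X)) : Prop :=
  ∀ τ : Fin n → ℕ, Function.Injective τ → (∀ t, τ t ∈ F) → ∀ x : Fin n → X, (∀ t, x t ∈ B (τ t)) → x ∈ D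

theorem exists_val {B : ℕ → Set X} (hB : Base B) {γ : Type} (n : γ → ℕ)
    (D : ∀ a, Set (Fin (n a) → X)) (hD : ∀ a, IsOpen (D a) ∧ Dense (D a)) (s : Finset γ)
    (F : Finset ℕ) (k : ℕ) : ∃ F', Val B F k F' ∧ ∀ a ∈ s, Univ B F' (D a) := by
  classical
  let F0 := F ∪ Finset.range (k + 1)
  obtain ⟨V, hV, h⟩ := fuse s.finite_toSet
    (fun a (V : St X) => ∀ τ ∈ {τ : Fin (n a) → ℕ | Function.Injective τ ∧ ∀ t, τ t ∈ F0},
      ∀ x : Fin (n a) → X, (∀ t, x t ∈ V.1 (τ t)) → x ∈ D a)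
    (fun a V V' h h' τ hτ x hx => h' τ hτ x fun t => (show V'.1 ≤ V.1 from h) _ (hx t))
    (fun a _ => fuse ((Fintype.piFinset fun _ : Fin (n a) => F0).finite_toSet.subset
        fun τ hτ => by simpa using hτ.2) _
      (fun τ V V' h h' x hx => h' x fun t => (show V'.1 ≤ V.1 from h) _ (hx t)) fun τ hτ V => shrink (hD a) hτ.1 V)
    ⟨B, fun m => ⟨hB.op m, hB.ne m⟩⟩
  choose w h1 h2 using fun m => hB.pi (V.1 m) (V.2 m).1 (V.2 m).2 (1 / ((k : ℝ) + 1)) (by positivity)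
  refine ⟨F0.image w, ⟨fun u hu => ?_, fun m hm => ⟨w m, Finset.mem_image_of_mem _ ?_,
    (h1 m).trans (hV m)⟩⟩, fun a ha τ hτ hF x hx => ?_⟩
  · obtain ⟨m, _, rfl⟩ := Finset.mem_image.1 hu
    exact h2 m
  · rcases hm with hm | hm
    · exact Finset.mem_union_left _ hm
    · exact Finset.mem_union_right _ (Finset.mem_range.2 (by omega))
  · choose σ h3 h4 using fun t => Finset.mem_image.1 (hF t)
    refine h a ha σ ⟨fun t t' ht => hτ (by rw [← h4, ← h4, ht]), h3⟩ x fun t => ?_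
    exact h1 _ (subset_closure (by rw [h4]; exact hx t))

theorem exists_seq {B : ℕ → Set X} (hB : Base B) {ι : Type}
    (H : ∀ M : ι → Set ℝ, (∀ i, IsMeagre (M i)) → (⋃ i, M i) ≠ Set.univ)
    {γ : Type} (hγ : #γ ≤ max #ι ℵ₀) (n : γ → ℕ)
    (D : ∀ a, Set (Fin (n a) → X)) (hD : ∀ a, IsOpen (D a) ∧ Dense (D a)) :
    ∃ W : ℕ → Finset ℕ, (∀ k, Val B (W k) k (W (k + 1))) ∧
      ∀ (s : Finset γ) (N : ℕ), ∃ k, N ≤ k ∧ ∀ a ∈ s, Univ B (W (k + 1)) (D a) := by
  classical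
  choose df hdf _ using fun F k => exists_val hB n D hD ∅ F k
  let W : List ℕ → Finset ℕ := fun l => l.rec ∅ fun m p F =>
    if Val B F p.length (Denumerable.ofNat (Finset ℕ) m) then Denumerable.ofNat (Finset ℕ) m
    else df F p.length
  have hW : ∀ m p, W (m :: p) = if Val B (W p) p.length (Denumerable.ofNat (Finset ℕ) m) then
    Denumerable.ofNat (Finset ℕ) m else df (W p) p.length := fun _ _ => rfl
  have hv : ∀ m p, Val B (W p) p.length (W (m :: p)) := fun m p => by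
    rw [hW]
    split_ifs with h
    · exact h
    · exact hdf _ _
  have hκ : #(Finset γ × ℕ) ≤ max #ι ℵ₀ := by
    rw [mk_prod, lift_id, lift_id, mk_nat]
    refine mul_le_of_le (le_max_right _ _) ?_ (le_max_right _ _)
    rcases finite_or_infinite γ with h | h
    · exact (lt_aleph0_of_finite _).le.trans (le_max_right _ _)
    · rw [mk_finset_of_infinite]; exact hγ
  obtain ⟨P, h0, h1, h2⟩ := branch H _ hκ
    (fun c => {l | c.2 < l.length ∧ ∀ a ∈ c.1, Univ B (W l) (D a)}) fun c p => by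
      obtain ⟨F', h3, h4⟩ := exists_val hB n D hD c.1 (W (List.replicate c.2 0 ++ p))
        (List.replicate c.2 0 ++ p).length
      obtain ⟨m, hm⟩ := (Denumerable.eqv (Finset ℕ)).symm.surjective F'
      have hm' : Denumerable.ofNat (Finset ℕ) m = F' := hm
      refine ⟨m :: List.replicate c.2 0, by simp, ?_⟩
      rw [List.cons_append, hW, hm', if_pos h3]
      exact h4
  have hl : ∀ k, (P k).length = k := fun k => by
    induction k with
    | zero => rw [h0]; rfl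
    | succ k ih =>
      obtain ⟨m, hm⟩ := h1 k
      rw [hm, List.length_cons, ih]
  refine ⟨fun k => W (P k), fun k => ?_, fun s N => ?_⟩
  · obtain ⟨m, hm⟩ := h1 k
    have := hv m (P k)
    rw [hl] at this
    simpa only [hm] using this
  · obtain ⟨m, h3, h4⟩ := h2 (s, N)
    rw [hl] at h3
    obtain ⟨k, rfl⟩ := Nat.exists_eq_add_one_of_ne_zero (by omega : m ≠ 0)
    exact ⟨k, by simpa using Nat.lt_succ_iff.1 h3, h4⟩

/-- Blocks at which the point lies in a member of the chosen finite family. -/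
def good (B : ℕ → Set X) (W : ℕ → Finset ℕ) (x : X) : Set ℕ := {k | ∃ w ∈ W (k + 1), x ∈ B w}

theorem follow {B : ℕ → Set X} {W : ℕ → Finset ℕ} (hW : ∀ k, Val B (W k) k (W (k + 1)))
    {a m : ℕ} (hm : m ≤ a) (d : ℕ) : ∃ w ∈ W (a + d + 1), closure (B w) ⊆ B m ∧
      ∀ k, a ≤ k → k ≤ a + d → ∀ x ∈ B w, k ∈ good B W x := by
  induction d with
  | zero =>
    obtain ⟨w, h1, h2⟩ := (hW a).2 m (Or.inr hm)
    refine ⟨w, h1, h2, fun k h3 h4 x hx => ?_⟩
    obtain rfl : k = a := by omega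
    exact ⟨w, h1, hx⟩
  | succ d ih =>
    obtain ⟨w, h1, h2, h3⟩ := ih
    obtain ⟨w', h4, h5⟩ := (hW (a + d + 1)).2 w (Or.inl h1)
    refine ⟨w', h4, h5.trans (subset_closure.trans h2), fun k h6 h7 x hx => ?_⟩
    rcases Nat.lt_or_ge k (a + d + 1) with h8 | h8
    · exact h3 k h6 (by omega) x (h5 (subset_closure hx))
    · obtain rfl : k = a + d + 1 := by omega
      exact ⟨w', h4, hx⟩

theorem sep {B : ℕ → Set X} {W : ℕ → Finset ℕ} (hW : ∀ k, Val B (W k) k (W (k + 1))) {n : ℕ}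
    {x : Fin n → X} (hx : Function.Injective x) (D : Set (Fin n → X)) :
    ∀ᶠ k in atTop, Univ B (W (k + 1)) D → (∀ t, k ∈ good B W (x t)) → x ∈ D := by
  have : ∀ᶠ k : ℕ in atTop, ∀ t t', t ≠ t' → 1 / ((k : ℝ) + 1) < dist (x t) (x t') := by
    refine eventually_all.2 fun t => eventually_all.2 fun t' => ?_
    by_cases h : t = t'
    · exact Eventually.of_forall fun _ h' => absurd h h'
    · have hp : 0 < dist (x t) (x t') := dist_pos.2 fun h' => h (hx h')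
      exact ((tendsto_one_div_add_atTop_nhds_zero_nat (𝕜 := ℝ)).eventually (gt_mem_nhds hp)).mono
        fun k hk _ => hk
  refine this.mono fun k hk hU hg => ?_
  choose τ h1 h2 using hg
  refine hU τ (fun t t' h => ?_) h1 x h2
  by_contra hc
  have := (hW k).1 _ (h1 t) _ (h2 t) _ (h ▸ h2 t')
  exact absurd (hk t t' hc) this.not_gt

theorem exists_lim [CompleteSpace X] {C : ℕ → Set X} (hne : ∀ l, (C l).Nonempty)
    (h1 : ∀ l, closure (C (l + 1)) ⊆ C l)
    (h2 : ∀ l, ∀ x ∈ C (l + 1), ∀ y ∈ C (l + 1), dist x y < 1 / ((l : ℝ) + 1)) :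
    ∃ x, ∀ l, x ∈ C l := by
  choose y hy using hne
  have han : Antitone C := antitone_nat_of_succ_le fun l => subset_closure.trans (h1 l)
  have hc : CauchySeq y := Metric.cauchySeq_iff'.2 fun ε hε => by
    obtain ⟨l, hl⟩ := exists_nat_one_div_lt hε
    exact ⟨l + 1, fun k hk => (h2 l _ (han hk (hy k)) _ (hy _)).trans hl⟩
  obtain ⟨x, hx⟩ := cauchySeq_tendsto_of_complete hc
  exact ⟨x, fun l => h1 l (mem_closure_of_tendsto hx
    (eventually_atTop.2 ⟨l + 1, fun k hk => han hk (hy k)⟩))⟩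

theorem hit [CompleteSpace X] {B : ℕ → Set X} (hB : Base B) {W : ℕ → Finset ℕ}
    (hW : ∀ k, Val B (W k) k (W (k + 1))) {V : Set X} (hV : IsOpen V) (hne : V.Nonempty)
    {O : ℕ → Set X} (hO : ∀ j, IsOpen (O j) ∧ Dense (O j)) :
    ∃ p : ℕ → ℕ, StrictMono p ∧ ∀ q : ℕ → ℕ, StrictMono q →
      (∀ l, q l + 2 ≤ q (l + 1)) → ∃ x ∈ V, (∀ j, x ∈ O j) ∧
        ∀ l k, p (q l) ≤ k → k < p (q l + 1) → k ∈ good B W x := by
  obtain ⟨m0, hm0, _⟩ := hB.pi V hV hne 1 one_pos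
  have hs : ∀ w l, ∃ m, B m ⊆ B w ∩ ⋂ j ∈ Iic l, O j := fun w l => by
    have ho : IsOpen (⋂ j ∈ Iic l, O j) := (finite_Iic l).isOpen_biInter fun j _ => (hO j).1
    have hd : Dense (⋂ j ∈ Iic l, O j) :=
      dense_biInter_of_isOpen (fun j _ => (hO j).1) (to_countable _) fun j _ => (hO j).2
    obtain ⟨m, hm, _⟩ := hB.pi _ ((hB.op w).inter ho) (hd.inter_open_nonempty _ (hB.op w) (hB.ne w))
      1 one_pos
    exact ⟨m, subset_closure.trans hm⟩
  choose g hg using hs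
  let p : ℕ → ℕ := fun l => l.rec m0 fun _ a => max (a + 1) ((W a).sup fun w => g w a)
  have hp : ∀ l, p (l + 1) = max (p l + 1) ((W (p l)).sup fun w => g w (p l)) := fun _ => rfl
  have hmono : StrictMono p := strictMono_nat_of_lt_succ fun l => by
    rw [hp]; exact lt_max_of_lt_left (Nat.lt_succ_self _)
  refine ⟨p, hmono, fun q hq hq2 => ?_⟩
  have step : ∀ l, ∀ m ≤ p (q l), ∃ m' ≤ p (q (l + 1)), closure (B m') ⊆ B m ∧
      (∀ x ∈ B m', ∀ y ∈ B m', dist x y < 1 / ((l : ℝ) + 1)) ∧ B m' ⊆ O l ∧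
      ∀ k, p (q l) ≤ k → k < p (q l + 1) → ∀ x ∈ B m', k ∈ good B W x := by
    intro l m hm
    have h0 := hmono (Nat.lt_succ_self (q l))
    obtain ⟨d, hd⟩ : ∃ d, p (q l + 1) = p (q l) + d + 1 := Nat.exists_eq_add_of_lt h0
    obtain ⟨w, h1, h2, h3⟩ := follow hW hm d
    have hl : l ≤ p (q l) := hq.le_apply.trans hmono.le_apply
    have h4 := (hW _).1 w h1
    rw [← hd] at h1
    have h5 := hg w (p (q l + 1))
    refine ⟨g w (p (q l + 1)), ?_, (closure_mono (h5.trans inter_subset_left)).trans h2,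
      fun x hx y hy => (h4 x (h5 hx).1 y (h5 hy).1).trans_le ?_, fun x hx => ?_,
      fun k h6 h7 x hx => h3 k h6 (by omega) x (h5 hx).1⟩
    · refine le_trans ?_ (hmono.monotone (hq2 l))
      rw [hp (q l + 1)]
      exact le_max_of_le_right (Finset.le_sup (f := fun w => g w (p (q l + 1))) h1)
    · refine one_div_le_one_div_of_le (by positivity) ?_
      have : l ≤ p (q l) + d := by omega
      exact_mod_cast Nat.add_le_add_right this 1
    · exact mem_iInter₂.1 (h5 hx).2 l (show l ≤ p (q l + 1) by omega)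
  choose! f hf using step
  let u : ℕ → ℕ := fun l => l.rec m0 fun l a => f l a
  have hu : ∀ l, u l ≤ p (q l) := fun l => by
    induction l with
    | zero => exact hmono.monotone (Nat.zero_le (q 0))
    | succ l ih => exact (hf l _ ih).1
  obtain ⟨x, hx⟩ := exists_lim (C := fun l => B (u l)) (fun l => hB.ne _)
    (fun l => (hf l _ (hu l)).2.1) fun l => (hf l _ (hu l)).2.2.1
  exact ⟨x, hm0 (subset_closure (hx 0)), fun j => (hf j _ (hu j)).2.2.2.1 (hx (j + 1)),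
    fun l k h1 h2 => (hf l _ (hu l)).2.2.2.2 k h1 h2 x (hx (l + 1))⟩

theorem parity (U : Ultrafilter ℕ) (hU : (U : Filter ℕ) ≤ atTop) {p : ℕ → ℕ} (hp : StrictMono p) :
    ∃ b, {k | ∃ l, p (2 * l + b) ≤ k ∧ k < p (2 * l + b + 1)} ∈ U := by
  have h : {k | ∃ l, p (2 * l + 0) ≤ k ∧ k < p (2 * l + 0 + 1)} ∪
      {k | ∃ l, p (2 * l + 1) ≤ k ∧ k < p (2 * l + 1 + 1)} ∈ U := by
    refine mem_of_superset (hU (Ici_mem_atTop (p 0))) fun k hk => ?_
    classical
    have hex : ∃ l, k < p (l + 1) := ⟨k, hp.le_apply⟩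
    have h1 := Nat.find_spec hex
    have h2 : p (Nat.find hex) ≤ k := by
      rcases Nat.eq_zero_or_pos (Nat.find hex) with h0 | h0
      · rw [h0]; exact hk
      · have := Nat.find_min hex (m := Nat.find hex - 1) (by omega)
        rw [Nat.sub_add_cancel h0] at this
        exact not_lt.1 this
    rcases Nat.even_or_odd' (Nat.find hex) with ⟨l, hl | hl⟩
    · rw [hl] at h1 h2; exact Or.inl ⟨l, h2, h1⟩
    · rw [hl] at h1 h2; exact Or.inr ⟨l, h2, h1⟩
  rcases Ultrafilter.union_mem_iff.1 h with h | h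
  exacts [⟨0, h⟩, ⟨1, h⟩]

theorem main [CompleteSpace X] [TopologicalSpace.SeparableSpace X] [Nonempty X] {ι : Type}
    (n : ι → ℕ) (R : ∀ i, Set (Fin (n i) → X)) (hR : ∀ i, IsMeagre (R i))
    (H : ∀ M : ι → Set ℝ, (∀ i, IsMeagre (M i)) → (⋃ i, M i) ≠ Set.univ) :
    ∃ A : Set X, (∀ U : Set X, IsOpen U → U.Nonempty → ¬ IsMeagre (A ∩ U)) ∧
      ∀ (i : ι) (x : Fin (n i) → X), Function.Injective x → (∀ k, x k ∈ A) → x ∉ R i := by
  classical
  obtain ⟨B, hB⟩ := exists_base (X := X)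
  choose D hD hD' using fun i => unpack (hR i)
  have hγ : #(ι × ℕ) ≤ max #ι ℵ₀ := by
    rw [mk_prod, lift_id, lift_id, mk_nat]
    exact mul_le_of_le (le_max_right _ _) (le_max_left _ _) (le_max_right _ _)
  obtain ⟨W, hW, hs⟩ := exists_seq hB H hγ (fun a => n a.1) (fun a => D a.1 a.2)
    fun a => hD a.1 a.2
  let S : Finset (ι × ℕ) × ℕ → Set ℕ := fun c =>
    {k | c.2 ≤ k ∧ ∀ a ∈ c.1, Univ B (W (k + 1)) (D a.1 a.2)}
  have : NeBot (⨅ c, 𝓟 (S c)) := iInf_neBot_of_directed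
    (fun c c' => ⟨(c.1 ∪ c'.1, max c.2 c'.2),
      principal_mono.2 fun k hk => ⟨le_of_max_le_left hk.1,
        fun a ha => hk.2 a (Finset.mem_union_left _ ha)⟩,
      principal_mono.2 fun k hk => ⟨le_of_max_le_right hk.1,
        fun a ha => hk.2 a (Finset.mem_union_right _ ha)⟩⟩)
    fun c => principal_neBot_iff.2 (hs c.1 c.2)
  let U := Ultrafilter.of (⨅ c, 𝓟 (S c))
  have hU : ∀ c, S c ∈ U := fun c =>
    Ultrafilter.of_le _ (mem_iInf_of_mem c (mem_principal_self _))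
  have hU' : (U : Filter ℕ) ≤ atTop := atTop_basis.ge_iff.2 fun N _ =>
    mem_of_superset (hU (∅, N)) fun k hk => hk.1
  refine ⟨{x | good B W x ∈ U}, fun V hV hne hm => ?_, fun i x hx hA => hD' i x fun j => ?_⟩
  · obtain ⟨O, hO, hO'⟩ := unpack hm
    obtain ⟨p, hp, h⟩ := hit hB hW hV hne hO
    obtain ⟨b, hb⟩ := parity U hU' hp
    obtain ⟨x, h1, h2, h3⟩ := h (fun l => 2 * l + b) (fun a c h => by beta_reduce; omega)
      fun l => by omega
    exact hO' x h2 ⟨mem_of_superset hb fun k ⟨l, h4, h5⟩ => h3 l k h4 h5, h1⟩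
  · have h1 : ∀ᶠ k in (U : Filter ℕ), ∀ t, k ∈ good B W (x t) := eventually_all.2 hA
    obtain ⟨k, h2, h3, h4⟩ := ((sep hW hx (D i j)).filter_mono hU').and
      (h1.and (hU ({(i, j)}, 0))) |>.exists
    exact h2 (h4.2 (i, j) (Finset.mem_singleton_self _)) h3

end Pool.Agent.H39.Free2
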