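import Mathlib

set_option autoImplicit false

namespace H39.GSC
open FreeGroup

/-- A folded labelled graph. -/
structure Gr (L V : Type) where
  E : V → L → V → Prop
  det : ∀ {u : V} {s : L} {v v' : V}, E u s v → E u s v' → v = v'
  inj : ∀ {u u' : V} {s : L} {v : V}, E u s v → E u' s v → u = u'

variable {L V : Type}

def Gr.St (Γ : Gr L V) (u : V) (a : L × Bool) (v : V) : Prop :=
  cond a.2 (Γ.E u a.1 v) (Γ.E v a.1 u)

def Gr.Rd (Γ : Gr L V) : V → List (L × Bool) → V → Prop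
  | u, [], v => u = v
  | u, a :: w, v => ∃ m, Γ.St u a m ∧ Γ.Rd m w v

namespace Gr
variable {Γ : Gr L V}

theorem St_det {u v v' : V} {a : L × Bool} (h : Γ.St u a v) (h' : Γ.St u a v') : v = v' := by
  obtain ⟨s, b⟩ := a
  cases b
  · exact Γ.inj h h'
  · exact Γ.det h h'

theorem St_inv {u v : V} {s : L} {b : Bool} : Γ.St u (s, !b) v ↔ Γ.St v (s, b) u := by
  cases b <;> simp [St]

@[simp] theorem Rd_nil {u v : V} : Γ.Rd u [] v ↔ u = v := Iff.rfl

theorem Rd_cons {u v : V} {a : L × Bool} {w : List (L × Bool)} :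
    Γ.Rd u (a :: w) v ↔ ∃ m, Γ.St u a m ∧ Γ.Rd m w v := Iff.rfl

theorem Rd_append {w w' : List (L × Bool)} {u v : V} :
    Γ.Rd u (w ++ w') v ↔ ∃ m, Γ.Rd u w m ∧ Γ.Rd m w' v := by
  induction w generalizing u with
  | nil => simp
  | cons a w ih =>
    simp only [List.cons_append, Rd_cons, ih]
    constructor
    · rintro ⟨m, h1, k, h2, h3⟩; exact ⟨k, ⟨m, h1, h2⟩, h3⟩
    · rintro ⟨k, ⟨m, h1, h2⟩, h3⟩; exact ⟨m, h1, k, h2, h3⟩

theorem Rd_det {w : List (L × Bool)} {u v v' : V} (h : Γ.Rd u w v) (h' : Γ.Rd u w v') :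
    v = v' := by
  induction w generalizing u with
  | nil => exact h.symm.trans h'
  | cons a w ih =>
    obtain ⟨m, h1, h2⟩ := h
    obtain ⟨m', h1', h2'⟩ := h'
    obtain rfl := St_det h1 h1'
    exact ih h2 h2'

theorem Rd_invRev {w : List (L × Bool)} {u v : V} (h : Γ.Rd u w v) : Γ.Rd v (invRev w) u := by
  induction w generalizing u with
  | nil => exact h.symm
  | cons a w ih =>
    obtain ⟨m, h1, h2⟩ := h
    rw [invRev_cons, Rd_append]
    refine ⟨m, ih h2, ?_⟩
    obtain ⟨s, b⟩ := a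
    exact ⟨u, St_inv.2 h1, rfl⟩

theorem Rd_inj {w : List (L × Bool)} {u u' v : V} (h : Γ.Rd u w v) (h' : Γ.Rd u' w v) :
    u = u' := Rd_det (Rd_invRev h) (Rd_invRev h')

theorem Rd_step {w w' : List (L × Bool)} (hs : Red.Step w w') {u v : V} (h : Γ.Rd u w v) :
    Γ.Rd u w' v := by
  cases hs with
  | @not L₁ L₂ x b =>
    rw [Rd_append] at h ⊢
    obtain ⟨m, h1, k, h2, k', h3, h4⟩ := h
    obtain rfl : m = k' := St_det (St_inv.2 h2) h3
    exact ⟨_, h1, h4⟩

theorem Rd_red {w w' : List (L × Bool)} (hs : Red w w') {u v : V} (h : Γ.Rd u w v) :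
    Γ.Rd u w' v := by
  induction hs with
  | refl => exact h
  | tail _ h2 ih => exact Rd_step h2 ih

variable [DecidableEq L]

def R (Γ : Gr L V) (u : V) (g : FreeGroup L) (v : V) : Prop := Γ.Rd u g.toWord v

theorem R_mk {w : List (L × Bool)} {u v : V} (h : Γ.Rd u w v) : Γ.R u (FreeGroup.mk w) v := by
  unfold R; rw [toWord_mk]; exact Rd_red reduce.red h

theorem R_one (u : V) : Γ.R u 1 u := by unfold R; rw [toWord_one]; rfl

theorem R_symm {u v : V} {g : FreeGroup L} (h : Γ.R u g v) : Γ.R v g⁻¹ u := by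
  unfold R; rw [toWord_inv]; exact Rd_invRev h

theorem R_trans {u v x : V} {g g' : FreeGroup L} (h : Γ.R u g v) (h' : Γ.R v g' x) :
    Γ.R u (g * g') x := by
  have : g * g' = FreeGroup.mk (g.toWord ++ g'.toWord) := by
    rw [← mul_mk, mk_toWord, mk_toWord]
  rw [this]
  exact R_mk (Rd_append.2 ⟨v, h, h'⟩)

theorem R_det {u v v' : V} {g : FreeGroup L} (h : Γ.R u g v) (h' : Γ.R u g v') : v = v' :=
  Rd_det h h'

theorem R_inj {u u' v : V} {g : FreeGroup L} (h : Γ.R u g v) (h' : Γ.R u' g v) : u = u' :=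
  Rd_inj h h'

theorem R_of {u v : V} {s : L} (h : Γ.E u s v) : Γ.R u (of s) v := by
  unfold R; rw [toWord_of]; exact ⟨v, h, rfl⟩

theorem R_hom {V' : Type} {Γ' : Gr L V'} (φ : V → V')
    (hφ : ∀ u s v, Γ.E u s v → Γ'.E (φ u) s (φ v)) {u v : V} {g : FreeGroup L}
    (h : Γ.R u g v) : Γ'.R (φ u) g (φ v) := by
  unfold R at h ⊢
  generalize g.toWord = w at h ⊢
  induction w generalizing u with
  | nil => exact congrArg φ h
  | cons a w ih =>
    obtain ⟨m, h1, h2⟩ := h
    refine ⟨φ m, ?_, ih h2⟩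
    obtain ⟨s, b⟩ := a
    cases b
    · exact hφ _ _ _ h1
    · exact hφ _ _ _ h1

end Gr

theorem red_sub {w w' : List (L × Bool)} (h : IsReduced w) (h' : w' <:+: w) : IsReduced w' := by
  obtain ⟨s, t, rfl⟩ := h'
  exact List.IsChain.right_of_append (List.IsChain.left_of_append h)

variable [DecidableEq L]

def d (a b : FreeGroup L) : ℕ := norm (a⁻¹ * b)

theorem d_symm (a b : FreeGroup L) : d a b = d b a := by
  unfold d; rw [← norm_inv_eq]; simp

theorem d_tri (a b c : FreeGroup L) : d a c ≤ d a b + d b c := by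
  unfold d
  have := norm_mul_le (a⁻¹ * b) (b⁻¹ * c)
  simpa [mul_assoc] using this

def Btw (a m b : FreeGroup L) : Prop := d a b = d a m + d m b

theorem Btw.symm {a m b : FreeGroup L} (h : Btw a m b) : Btw b m a := by
  unfold Btw at *; rw [d_symm b a, d_symm b m, d_symm m a]; omega

theorem btw_word {a m b : FreeGroup L} (h : Btw a m b) :
    (a⁻¹ * b).toWord = (a⁻¹ * m).toWord ++ (m⁻¹ * b).toWord := by
  have h1 := toWord_mul_sublist (a⁻¹ * m) (m⁻¹ * b)
  have h2 : a⁻¹ * m * (m⁻¹ * b) = a⁻¹ * b := by group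
  rw [h2] at h1
  refine h1.eq_of_length ?_
  rw [List.length_append]; exact h

theorem R_conv {Γ : Gr L V} {a m b : FreeGroup L} (h : Btw a m b) {u v : V}
    (hr : Γ.R u (a⁻¹ * b) v) : ∃ z, Γ.R u (a⁻¹ * m) z := by
  unfold Gr.R at hr
  rw [btw_word h, Gr.Rd_append] at hr
  obtain ⟨z, h1, _⟩ := hr
  exact ⟨z, h1⟩

theorem norm_mk_red {w : List (L × Bool)} (h : IsReduced w) : norm (FreeGroup.mk w) = w.length := by
  unfold FreeGroup.norm; rw [toWord_mk, h.reduce_eq]

theorem red_invRev {w : List (L × Bool)} (h : IsReduced w) : IsReduced (invRev w) := by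
  rw [isReduced_iff_reduce_eq, reduce_invRev, h.reduce_eq]

theorem split_red (w1 : List (L × Bool)) : ∀ w2 : List (L × Bool), IsReduced w1 → IsReduced w2 →
    ∃ p u1 u2, w1 = p ++ u1 ∧ w2 = p ++ u2 ∧ IsReduced (invRev u1 ++ u2) := by
  induction w1 with
  | nil => intro w2 _ h2; exact ⟨[], [], w2, rfl, rfl, by simpa using h2⟩
  | cons a t1 ih =>
    intro w2 h1 h2
    cases w2 with
    | nil => exact ⟨[], a :: t1, [], rfl, rfl, by simpa using red_invRev h1⟩
    | cons b t2 =>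
      by_cases hab : a = b
      · subst hab
        obtain ⟨p, u1, u2, e1, e2, h⟩ := ih t2 (red_sub h1 ⟨[a], [], by simp⟩)
          (red_sub h2 ⟨[a], [], by simp⟩)
        exact ⟨a :: p, u1, u2, by simp [e1], by simp [e2], h⟩
      · refine ⟨[], a :: t1, b :: t2, rfl, rfl, ?_⟩
        have h3 := red_invRev h1
        rw [invRev_cons] at h3 ⊢
        refine IsReduced.append_overlap h3 ?_ (by simp [invRev])
        have : invRev [a] = [(a.1, !a.2)] := by simp [invRev]
        rw [this, List.singleton_append, isReduced_cons_cons]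
        refine ⟨fun h => ?_, h2⟩
        obtain ⟨s, c⟩ := a
        obtain ⟨s', c'⟩ := b
        simp only at h ⊢
        subst h
        cases c <;> cases c' <;> simp_all

theorem median (g1 g2 : FreeGroup L) : ∃ m, Btw 1 m g1 ∧ Btw 1 m g2 ∧ Btw g1 m g2 := by
  obtain ⟨p, u1, u2, e1, e2, h⟩ := split_red g1.toWord g2.toWord isReduced_toWord isReduced_toWord
  have r1 : IsReduced (p ++ u1) := e1 ▸ isReduced_toWord
  have r2 : IsReduced (p ++ u2) := e2 ▸ isReduced_toWord
  have rp : IsReduced p := red_sub r1 ⟨[], u1, by simp⟩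
  have ru1 : IsReduced u1 := red_sub r1 ⟨p, [], by simp⟩
  have ru2 : IsReduced u2 := red_sub r2 ⟨p, [], by simp⟩
  have f1 : g1 = FreeGroup.mk p * FreeGroup.mk u1 := by rw [mul_mk, ← e1, mk_toWord]
  have f2 : g2 = FreeGroup.mk p * FreeGroup.mk u2 := by rw [mul_mk, ← e2, mk_toWord]
  have n1 : norm g1 = p.length + u1.length := by
    unfold FreeGroup.norm; rw [e1, List.length_append]
  have n2 : norm g2 = p.length + u2.length := by
    unfold FreeGroup.norm; rw [e2, List.length_append]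
  have k1 : (FreeGroup.mk p)⁻¹ * g1 = FreeGroup.mk u1 := by rw [f1]; group
  have k2 : (FreeGroup.mk p)⁻¹ * g2 = FreeGroup.mk u2 := by rw [f2]; group
  have k3 : g1⁻¹ * FreeGroup.mk p = (FreeGroup.mk u1)⁻¹ := by rw [f1]; group
  have k4 : g1⁻¹ * g2 = FreeGroup.mk (invRev u1 ++ u2) := by
    rw [← mul_mk, ← inv_mk, f1, f2]; group
  refine ⟨FreeGroup.mk p, ?_, ?_, ?_⟩ <;> unfold Btw d
  · rw [k1, inv_one, one_mul, one_mul, n1, norm_mk_red rp, norm_mk_red ru1]
  · rw [k2, inv_one, one_mul, one_mul, n2, norm_mk_red rp, norm_mk_red ru2]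
  · rw [k2, k3, k4, norm_inv_eq, norm_mk_red h, norm_mk_red ru1, norm_mk_red ru2]
    simp

theorem btw_pre {m1 m2 : FreeGroup L} (h : m1.toWord <+: m2.toWord) : Btw 1 m1 m2 := by
  obtain ⟨t, ht⟩ := h
  have r : IsReduced (m1.toWord ++ t) := ht ▸ isReduced_toWord
  have rt : IsReduced t := red_sub r ⟨m1.toWord, [], by simp⟩
  have f : m2 = m1 * FreeGroup.mk t := by
    rw [← mk_toWord (x := m1), mul_mk, ht, mk_toWord]
  have k : m1⁻¹ * m2 = FreeGroup.mk t := by rw [f]; group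
  unfold Btw d
  rw [k, norm_mk_red rt, inv_one, one_mul, one_mul]
  unfold FreeGroup.norm
  rw [← ht, List.length_append]

theorem btw_lin {m1 m2 z : FreeGroup L} (h1 : Btw 1 m1 z) (h2 : Btw 1 m2 z) :
    Btw 1 m1 m2 ∨ Btw 1 m2 m1 := by
  have e1 := btw_word h1
  have e2 := btw_word h2
  simp only [inv_one, one_mul] at e1 e2
  rcases List.prefix_or_prefix_of_prefix (l₃ := z.toWord) ⟨_, e1.symm⟩ ⟨_, e2.symm⟩ with h | h
  · exact Or.inl (btw_pre h)
  · exact Or.inr (btw_pre h)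

theorem quad (f e z : FreeGroup L) :
    (∃ m, Btw f m z ∧ Btw 1 m e) ∨ (∃ m, Btw 1 m f ∧ Btw f m z ∧ Btw e m z) := by
  obtain ⟨m1, a1, a2, a3⟩ := median f z
  obtain ⟨m2, b1, b2, b3⟩ := median e z
  rcases btw_lin a2 b2 with h | h
  · refine Or.inl ⟨m1, a3, ?_⟩
    have t1 := d_tri 1 m1 e
    have t2 := d_tri m1 m2 e
    unfold Btw at *; omega
  · refine Or.inr ⟨m1, a1, a3, ?_⟩
    have t1 := d_tri e m1 z
    have t2 := d_tri e m2 m1
    unfold Btw at *; omega

end H39.GSC
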