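import Pool.Agent.H39.GSC1

set_option autoImplicit false

namespace H39.GSC
open FreeGroup Gr

variable {L V0 : Type} [DecidableEq L]

/-- Small cancellation hypotheses on a folded labelled graph. -/
structure Good (H : Gr L V0) (P : ℕ) : Prop where
  girth : ∀ h f, H.R h f h → FreeGroup.norm f ≤ 5 * P → f = 1
  piece : ∀ h h' f k k', h ≠ h' → H.R h f k → H.R h' f k' → FreeGroup.norm f ≤ P
  conn : ∀ h h', ∃ f, H.R h f h'
  surj : ∀ s, ∃ h h', H.E h s h'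

section step
variable {V : Type} (H : Gr L V0) (Ω : Gr L V)

def Cp (c y : V × V0) : Prop := ∃ f, Ω.R c.1 f y.1 ∧ H.R c.2 f y.2

def Full (c : V × V0) : Prop :=
  ∃ φ : V0 → V, φ c.2 = c.1 ∧ ∀ h s h', H.E h s h' → Ω.E (φ h) s (φ h')

def Small (P : ℕ) (c : V × V0) : Prop :=
  ∀ y y', Cp H Ω c y → Cp H Ω c y' → ∃ f, FreeGroup.norm f ≤ 2 * P ∧ Ω.R y.1 f y'.1 ∧ H.R y.2 f y'.2

def Inv (P : ℕ) : Prop := ∀ c, Full H Ω c ∨ Small H Ω P c

def Rel (t t' : (V × V0) × V0) : Prop :=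
  ∃ y a a' f, Cp H Ω t.1 (y, a) ∧ Cp H Ω t'.1 (y, a') ∧ H.R a f t.2 ∧ H.R a' f t'.2

variable {H Ω}

theorem Cp.refl (c : V × V0) : Cp H Ω c c := ⟨1, R_one _, R_one _⟩

theorem Cp.ext {c : V × V0} {y y' : V} {a a' : V0} {f : FreeGroup L} (h : Cp H Ω c (y, a))
    (h1 : Ω.R y f y') (h2 : H.R a f a') : Cp H Ω c (y', a') := by
  obtain ⟨g, g1, g2⟩ := h
  exact ⟨g * f, R_trans g1 h1, R_trans g2 h2⟩

theorem Cp.symm {c y : V × V0} (h : Cp H Ω c y) : Cp H Ω y c := by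
  obtain ⟨g, g1, g2⟩ := h
  exact ⟨g⁻¹, R_symm g1, R_symm g2⟩

theorem Cp.trans {c y z : V × V0} (h : Cp H Ω c y) (h' : Cp H Ω y z) : Cp H Ω c z := by
  obtain ⟨g, g1, g2⟩ := h'
  exact Cp.ext (y := y.1) (a := y.2) h g1 g2

theorem full_val {c : V × V0} {φ : V0 → V} (h0 : φ c.2 = c.1)
    (hφ : ∀ h s h', H.E h s h' → Ω.E (φ h) s (φ h')) {y : V} {a : V0} (h : Cp H Ω c (y, a)) :
    φ a = y := by
  obtain ⟨g, g1, g2⟩ := h
  have := R_hom φ hφ g2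
  rw [h0] at this
  exact R_det this g1

variable {P : ℕ}

theorem loop_eq (hG : Good H P) {a b : V0} {f g : FreeGroup L} (h1 : H.R a f b) (h2 : H.R a g b)
    (hn : FreeGroup.norm f + FreeGroup.norm g ≤ 5 * P) : f = g := by
  have h := hG.girth a (f * g⁻¹) (R_trans h1 (R_symm h2))
    ((FreeGroup.norm_mul_le _ _).trans (by rw [FreeGroup.norm_inv_eq]; exact hn))
  exact mul_inv_eq_one.1 h

theorem readable (hG : Good H P) (hI : Inv H Ω P) {c : V × V0} {y x : V} {a h : V0}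
    {f : FreeGroup L} (h1 : Cp H Ω c (y, a)) (h2 : Cp H Ω c (x, h)) (h3 : H.R a f h)
    (hn : FreeGroup.norm f ≤ 3 * P) : Ω.R y f x := by
  rcases hI c with ⟨φ, h0, hφ⟩ | hS
  · rw [← full_val h0 hφ h1, ← full_val h0 hφ h2]; exact R_hom φ hφ h3
  · obtain ⟨e, e1, e2, e3⟩ := hS _ _ h1 h2
    rw [loop_eq hG h3 e3 (by omega)]; exact e2

theorem Rel.ext {c c' : V × V0} {h h' k k' : V0} {f : FreeGroup L} (hr : Rel H Ω (c, h) (c', h'))
    (h1 : H.R h f k) (h2 : H.R h' f k') : Rel H Ω (c, k) (c', k') := by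
  obtain ⟨y, a, a', g, c1, c2, g1, g2⟩ := hr
  exact ⟨y, a, a', g * f, c1, c2, R_trans g1 h1, R_trans g2 h2⟩

theorem Rel.symm {t t' : (V × V0) × V0} (h : Rel H Ω t t') : Rel H Ω t' t := by
  obtain ⟨y, a, a', g, c1, c2, g1, g2⟩ := h
  exact ⟨y, a', a, g, c2, c1, g2, g1⟩

theorem Rel.refl (hG : Good H P) (t : (V × V0) × V0) : Rel H Ω t t := by
  obtain ⟨f, hf⟩ := hG.conn t.1.2 t.2
  exact ⟨t.1.1, t.1.2, t.1.2, f, Cp.refl _, Cp.refl _, hf, hf⟩

theorem Rel.trans (hG : Good H P) (hI : Inv H Ω P) {t t' t'' : (V × V0) × V0}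
    (h1 : Rel H Ω t t') (h2 : Rel H Ω t' t'') : Rel H Ω t t'' := by
  obtain ⟨y, a, a', f, c1, c2, f1, f2⟩ := h1
  obtain ⟨y2, b', b'', g, c3, c4, g1, g2⟩ := h2
  by_cases ha : a = a'
  · subst ha
    refine ⟨y2, b', b'', g, c1.trans (c2.symm.trans c3), c4, ?_, g2⟩
    rw [R_det f1 f2]; exact g1
  by_cases hb : b' = b''
  · subst hb
    refine ⟨y, a, a', f, c1, c4.trans (c3.symm.trans c2), f1, ?_⟩
    rw [← R_det g1 g2]; exact f2
  have nf := hG.piece _ _ _ _ _ ha f1 f2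
  have ng := hG.piece _ _ _ _ _ hb g1 g2
  rcases hI t'.1 with ⟨φ, h0, hφ⟩ | hS
  · have k1 := R_hom φ hφ f2
    have k2 := R_hom φ hφ g1
    rw [full_val h0 hφ c2] at k1
    rw [full_val h0 hφ c3] at k2
    exact ⟨φ t'.2, t.2, t''.2, 1, c1.ext k1 f1, c4.ext k2 g2, R_one _, R_one _⟩
  · obtain ⟨e, e1, e2, e3⟩ := hS _ _ c2 c3
    have hf : e * g = f := loop_eq hG (R_trans e3 g1) f2 (by have := FreeGroup.norm_mul_le e g; omega)
    obtain ⟨m, m1, m2, m3⟩ := median e f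
    obtain ⟨y3, hy3⟩ := R_conv (Γ := Ω) m1 (u := y) (v := y2) (by simpa using e2)
    obtain ⟨a3, ha3⟩ := R_conv (Γ := H) m2 (u := a) (v := t.2) (by simpa using f1)
    obtain ⟨b3, hb3⟩ := R_conv (Γ := H) m3 (u := b'') (v := t''.2)
      (by rw [← hf]; simpa using g2)
    simp only [inv_one, one_mul] at hy3 ha3
    refine ⟨y3, a3, b3, m⁻¹ * f, c1.ext hy3 ha3, c4.ext (R_trans (R_symm e2) hy3) hb3,
      R_trans (R_symm ha3) f1, ?_⟩
    have := R_trans (R_symm hb3) g2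
    rwa [show (e⁻¹ * m)⁻¹ * g = m⁻¹ * f by rw [← hf]; group] at this

def sto (hG : Good H P) (hI : Inv H Ω P) : Setoid ((V × V0) × V0) :=
  ⟨Rel H Ω, Rel.refl hG, Rel.symm, Rel.trans hG hI⟩

def nx (hG : Good H P) (hI : Inv H Ω P) : Gr L (Quotient (sto hG hI)) where
  E u s v := ∃ c h h', u = Quotient.mk _ (c, h) ∧ v = Quotient.mk _ (c, h') ∧ H.E h s h'
  det := by
    rintro u s v v' ⟨c, h, k, rfl, rfl, e1⟩ ⟨c', h', k', e, rfl, e2⟩
    exact Quotient.sound (Rel.ext (Quotient.exact e) (R_of e1) (R_of e2))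
  inj := by
    rintro u u' s v ⟨c, h, k, rfl, rfl, e1⟩ ⟨c', h', k', rfl, e, e2⟩
    exact Quotient.sound (Rel.ext (Quotient.exact e) (R_symm (R_of e1)) (R_symm (R_of e2)))

variable (hG : Good H P) (hI : Inv H Ω P)

def cl (c : V × V0) (h : V0) : Quotient (sto hG hI) := Quotient.mk _ (c, h)

theorem cl_eq {c c' : V × V0} {h h' : V0} :
    cl hG hI c h = cl hG hI c' h' ↔ Rel H Ω (c, h) (c', h') :=
  ⟨fun e => Quotient.exact e, fun e => Quotient.sound e⟩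

theorem cl_E (c : V × V0) (h : V0) (s : L) (h' : V0) (e : H.E h s h') :
    (nx hG hI).E (cl hG hI c h) s (cl hG hI c h') := ⟨c, h, h', rfl, rfl, e⟩

theorem cl_R (c : V × V0) {h h' : V0} {f : FreeGroup L} (e : H.R h f h') :
    (nx hG hI).R (cl hG hI c h) f (cl hG hI c h') := R_hom (cl hG hI c) (cl_E hG hI c) e

def io (h0 : V0) (x : V) : Quotient (sto hG hI) := cl hG hI (x, h0) h0

theorem cl_old (h0 : V0) {c : V × V0} {y : V} {a : V0} (h : Cp H Ω c (y, a)) :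
    cl hG hI c a = io hG hI h0 y :=
  (cl_eq hG hI).2 ⟨y, a, h0, 1, h, Cp.refl _, R_one _, R_one _⟩

theorem io_inj (h0 : V0) : Function.Injective (io hG hI h0) := by
  intro x x' e
  obtain ⟨y, a, a', f, c1, c2, f1, f2⟩ := (cl_eq hG hI).1 e
  by_cases ha : a = a'
  · subst ha
    have k := readable hG hI (f := 1) (Cp.refl (x, h0)) (c1.trans c2.symm) (R_one h0) (by simp)
    exact R_det (R_one x) k
  · have nf := hG.piece _ _ _ _ _ ha f1 f2
    have k1 := readable hG hI c1 (Cp.refl (x, h0)) f1 (by omega)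
    have k2 := readable hG hI c2 (Cp.refl (x', h0)) f2 (by omega)
    exact R_det k1 k2

theorem io_E (h0 : V0) (x : V) (s : L) (y : V) (e : Ω.E x s y) :
    (nx hG hI).E (io hG hI h0 x) s (io hG hI h0 y) := by
  obtain ⟨h, h', e'⟩ := hG.surj s
  rw [← cl_old hG hI h0 (Cp.refl (x, h)),
    ← cl_old hG hI h0 ((Cp.refl (x, h)).ext (R_of e) (R_of e'))]
  exact cl_E hG hI _ _ _ _ e'

theorem io_full (h0 : V0) (x : V) (h : V0) : Full H (nx hG hI) (io hG hI h0 x, h) :=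
  ⟨cl hG hI (x, h), cl_old hG hI h0 (Cp.refl (x, h)), cl_E hG hI _⟩

theorem Full.of_cp {V' : Type} {Ω' : Gr L V'} {c y : V' × V0} (h : Cp H Ω' c y)
    (hf : Full H Ω' y) : Full H Ω' c := by
  obtain ⟨φ, h0, hφ⟩ := hf
  exact ⟨φ, full_val h0 hφ (a := c.2) (y := c.1) h.symm, hφ⟩

/-- Two pieces of the new component meet. -/
def Meet (c1 : V × V0) (h1 a1 : V0) (c2 : V × V0) (h2 a2 : V0) : Prop :=
  ∃ f1 f2 b k1 k2, H.R a1 f1 b ∧ H.R h1 f1 k1 ∧ H.R a2 f2 b ∧ H.R h2 f2 k2 ∧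
    cl hG hI c1 k1 = cl hG hI c2 k2

theorem ne_of_new (h0 : V0) {D : Quotient (sto hG hI) × V0}
    (hD : ∀ y a, ¬ Cp H (nx hG hI) D (io hG hI h0 y, a)) {c : V × V0} {h a : V0}
    (hc : Cp H (nx hG hI) D (cl hG hI c h, a)) : a ≠ h := by
  rintro rfl
  obtain ⟨f, hf⟩ := hG.conn a c.2
  have := hc.ext (cl_R hG hI c hf) hf
  rw [cl_old hG hI h0 (Cp.refl c)] at this
  exact hD _ _ this

theorem Meet.trans (h0 : V0) {D : Quotient (sto hG hI) × V0}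
    (hD : ∀ y a, ¬ Cp H (nx hG hI) D (io hG hI h0 y, a)) {c1 c c3 : V × V0}
    {h1 a1 h a h3 a3 : V0} (hc : Cp H (nx hG hI) D (cl hG hI c h, a))
    (m1 : Meet hG hI c1 h1 a1 c h a) (m2 : Meet hG hI c h a c3 h3 a3) :
    Meet hG hI c1 h1 a1 c3 h3 a3 := by
  obtain ⟨f1, f2, b1, k1, l1, p1, p2, p3, p4, p5⟩ := m1
  obtain ⟨g2, g3, b3, l3, k3, q1, q2, q3, q4, q5⟩ := m2
  have hc1 : Cp H (nx hG hI) D (cl hG hI c l1, b1) := hc.ext (cl_R hG hI c p4) p3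
  have hc3 : Cp H (nx hG hI) D (cl hG hI c l3, b3) := hc.ext (cl_R hG hI c q2) q1
  have el : H.R l1 (f2⁻¹ * g2) l3 := R_trans (R_symm p4) q2
  have eb : H.R b1 (f2⁻¹ * g2) b3 := R_trans (R_symm p3) q1
  generalize f2⁻¹ * g2 = e at el eb
  have ne : FreeGroup.norm e ≤ P := hG.piece _ _ _ _ _ (ne_of_new hG hI h0 hD hc1) eb el
  have r5 := (cl_eq hG hI).1 p5
  have s5 := (cl_eq hG hI).1 q5
  obtain ⟨y, α1, α, f, c1a, c1b, u1, u2⟩ := (cl_eq hG hI).1 p5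
  obtain ⟨y', β, β3, f', c3a, c3b, v1, v2⟩ := (cl_eq hG hI).1 q5
  simp only at c1a c1b u1 u2 c3a c3b v1 v2
  by_cases hα : α1 = α
  · subst hα
    obtain rfl : k1 = l1 := R_det u1 u2
    refine ⟨f1 * e, g3, b3, l3, k3, R_trans p1 eb, R_trans p2 el, q3, q4, ?_⟩
    exact ((cl_eq hG hI).2 (r5.ext el el)).trans q5
  by_cases hβ : β = β3
  · subst hβ
    obtain rfl : l3 = k3 := R_det v1 v2
    refine ⟨f1, g3 * e⁻¹, b1, k1, l1, p1, p2, R_trans q3 (R_symm eb), R_trans q4 (R_symm el), ?_⟩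
    exact p5.trans ((cl_eq hG hI).2 (s5.ext (R_symm el) (R_symm el)))
  have nf := hG.piece _ _ _ _ _ hα u1 u2
  have nf' := hG.piece _ _ _ _ _ hβ v1 v2
  rcases hI c with ⟨φ, z0, hφ⟩ | hS
  · exfalso
    have k := R_hom φ hφ u2
    rw [full_val z0 hφ c1b] at k
    rw [cl_old hG hI h0 (c1b.ext k u2)] at hc1
    exact hD _ _ hc1
  obtain ⟨e0, n0, w1, w2⟩ := hS _ _ c1b c3a
  simp only at w1 w2
  have hz : f * e = e0 * f' := loop_eq hG (R_trans u2 el) (R_trans w2 v1) (by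
    have := FreeGroup.norm_mul_le f e; have := FreeGroup.norm_mul_le e0 f'; omega)
  rcases quad f e0 (f * e) with ⟨m, m1, m2⟩ | ⟨m, m1, m2, m3⟩
  · exfalso
    obtain ⟨z, hz1⟩ := R_conv (Γ := Ω) m2 (u := y) (v := y') (by simpa using w1)
    obtain ⟨γ, hγ⟩ := R_conv (Γ := H) m2 (u := α) (v := β) (by simpa using w2)
    obtain ⟨b', hb'⟩ := R_conv (Γ := H) m1 (u := b1) (v := b3) (by simpa using eb)
    simp only [inv_one, one_mul] at hz1 hγ
    have k := hc1.ext (cl_R hG hI c (R_trans (R_symm u2) hγ)) hb'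
    rw [cl_old hG hI h0 (c1b.ext hz1 hγ)] at k
    exact hD _ _ k
  · obtain ⟨γ, hγ⟩ := R_conv (Γ := H) m1 (u := α) (v := l1) (by simpa using u2)
    obtain ⟨γ1, hγ1⟩ := R_conv (Γ := H) m1 (u := α1) (v := k1) (by simpa using u1)
    obtain ⟨b', hb'⟩ := R_conv (Γ := H) m2 (u := b1) (v := b3) (by simpa using eb)
    obtain ⟨γ3, hγ3⟩ := R_conv (Γ := H) m3 (u := β3) (v := k3) (by rw [hz]; simpa using v2)
    simp only [inv_one, one_mul] at hγ hγ1
    have x1 : cl hG hI c1 γ1 = cl hG hI c γ :=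
      (cl_eq hG hI).2 ⟨y, α1, α, m, c1a, c1b, hγ1, hγ⟩
    have x2 : cl hG hI c γ = cl hG hI c3 γ3 :=
      (cl_eq hG hI).2 ⟨y', β, β3, e0⁻¹ * m, c3a, c3b, R_trans (R_symm w2) hγ, hγ3⟩
    refine ⟨f1 * (f⁻¹ * m), g3 * (f'⁻¹ * (e0⁻¹ * m)), b', γ1, γ3, R_trans p1 hb',
      R_trans p2 (R_trans (R_symm u1) hγ1), R_trans q3 ?_, R_trans q4 (R_trans (R_symm v2) hγ3),
      x1.trans x2⟩
    have := R_trans (R_symm eb) hb'
    rwa [show e⁻¹ * (f⁻¹ * m) = f'⁻¹ * (e0⁻¹ * m) by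
      rw [← mul_assoc, ← mul_assoc, ← mul_inv_rev, ← mul_inv_rev, hz]] at this

theorem meet_all (h0 : V0) {D : Quotient (sto hG hI) × V0}
    (hD : ∀ y a, ¬ Cp H (nx hG hI) D (io hG hI h0 y, a)) (c2 : V × V0) (h2 a2 : V0)
    (w : List (L × Bool)) : ∀ (c1 : V × V0) (h1 a1 : V0),
    Cp H (nx hG hI) D (cl hG hI c1 h1, a1) →
    (nx hG hI).Rd (cl hG hI c1 h1) w (cl hG hI c2 h2) → H.Rd a1 w a2 →
    Meet hG hI c1 h1 a1 c2 h2 a2 := by
  induction w with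
  | nil =>
    intro c1 h1 a1 _ e1 e2
    obtain rfl : a1 = a2 := e2
    exact ⟨1, 1, a1, h1, h2, R_one _, R_one _, R_one _, R_one _, e1⟩
  | cons s w ih =>
    rintro c1 h1 a1 hc ⟨u, e1, e2⟩ ⟨a, e3, e4⟩
    have : ∃ c h h' g, cl hG hI c1 h1 = cl hG hI c h ∧ u = cl hG hI c h' ∧ H.R h g h' ∧
        H.R a1 g a := by
      obtain ⟨s, b⟩ := s
      cases b
      · obtain ⟨c, h, h', x1, x2, x3⟩ := e1
        exact ⟨c, h', h, (of s)⁻¹, x2, x1, R_symm (R_of x3), R_symm (R_of e3)⟩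
      · obtain ⟨c, h, h', x1, x2, x3⟩ := e1
        exact ⟨c, h, h', of s, x1, x2, R_of x3, R_of e3⟩
    obtain ⟨c, h, h', g, x1, rfl, x3, x4⟩ := this
    have hc' : Cp H (nx hG hI) D (cl hG hI c h', a) := by
      rw [x1] at hc; exact hc.ext (cl_R hG hI c x3) x4
    refine Meet.trans hG hI h0 hD hc' ?_ (ih c h' a hc' e2 e4)
    exact ⟨1, g⁻¹, a1, h1, h, R_one _, R_one _, R_symm x4, R_symm x3, x1⟩

theorem nx_inv (h0 : V0) : Inv H (nx hG hI) P := by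
  intro D
  by_cases hD : ∃ y a, Cp H (nx hG hI) D (io hG hI h0 y, a)
  · obtain ⟨y, a, h⟩ := hD
    exact Or.inl (Full.of_cp h (io_full hG hI h0 y a))
  · push Not at hD
    refine Or.inr ?_
    rintro ⟨u1, a1⟩ ⟨u2, a2⟩ x1 x2
    obtain ⟨⟨c1, h1⟩, rfl⟩ := Quotient.exists_rep u1
    obtain ⟨⟨c2, h2⟩, rfl⟩ := Quotient.exists_rep u2
    obtain ⟨g, g1, g2⟩ := x1.symm.trans x2
    obtain ⟨f1, f2, b, k1, k2, p1, p2, p3, p4, p5⟩ :=
      meet_all hG hI h0 hD c2 h2 a2 g.toWord c1 h1 a1 x1 g1 g2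
    have n1 := hG.piece _ _ _ _ _ (ne_of_new hG hI h0 hD x1) p1 p2
    have n2 := hG.piece _ _ _ _ _ (ne_of_new hG hI h0 hD x2) p3 p4
    refine ⟨f1 * f2⁻¹, ?_, ?_, R_trans p1 (R_symm p3)⟩
    · have := FreeGroup.norm_mul_le f1 f2⁻¹; rw [FreeGroup.norm_inv_eq] at this; omega
    · have k := cl_R hG hI c1 p2
      rw [p5] at k
      exact R_trans k (R_symm (cl_R hG hI c2 p4))

end step

theorem base_inv {H : Gr L V0} {P : ℕ} (hG : Good H P) : Inv H H P := by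
  rintro ⟨x, h⟩
  by_cases hx : x = h
  · exact Or.inl ⟨id, hx.symm, fun _ _ _ e => e⟩
  · refine Or.inr ?_
    rintro ⟨y, a⟩ ⟨y', a'⟩ ⟨f, f1, f2⟩ ⟨g, g1, g2⟩
    have hy : y ≠ a := by rintro rfl; exact hx (R_inj f1 f2)
    have k1 := R_trans (R_symm f1) g1
    have k2 := R_trans (R_symm f2) g2
    exact ⟨f⁻¹ * g, (hG.piece _ _ _ _ _ hy k1 k2).trans (by omega), k1, k2⟩

structure Stg (H : Gr L V0) (P : ℕ) where
  V : Type
  Ω : Gr L V
  inv : Inv H Ω P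
  j : V0 → V
  jinj : Function.Injective j
  jE : ∀ h s h', H.E h s h' → Ω.E (j h) s (j h')

def stg {H : Gr L V0} {P : ℕ} (hG : Good H P) (h0 : V0) : ℕ → Stg H P
  | 0 => ⟨V0, H, base_inv hG, id, Function.injective_id, fun _ _ _ e => e⟩
  | n + 1 =>
    ⟨_, nx hG (stg hG h0 n).inv, nx_inv hG _ h0, io hG (stg hG h0 n).inv h0 ∘ (stg hG h0 n).j,
      (io_inj hG _ h0).comp (stg hG h0 n).jinj,
      fun h s h' e => io_E hG _ h0 _ _ _ ((stg hG h0 n).jE h s h' e)⟩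

/-- Graphical small cancellation: the graph embeds in a Cayley graph. -/
theorem embed {H : Gr L V0} {P : ℕ} (hG : Good H P) (h0 : V0) :
    ∃ (N : Subgroup (FreeGroup L)) (_ : N.Normal), (∀ h f, H.R h f h → f ∈ N) ∧
      ∀ f g h k, H.R h0 f h → H.R h0 g k → f * g⁻¹ ∈ N → h = k := by
  let S := stg hG h0
  have up : ∀ n f x, (S n).Ω.R ((S n).j h0) f x →
      (S (n + 1)).Ω.R ((S (n + 1)).j h0) f (io hG (S n).inv h0 x) := fun n f x h =>
    R_hom (io hG (S n).inv h0) (io_E hG _ h0) h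
  have mono : ∀ n f, (S n).Ω.R ((S n).j h0) f ((S n).j h0) → ∀ m, n ≤ m →
      (S m).Ω.R ((S m).j h0) f ((S m).j h0) := by
    intro n f h m hm
    induction m, hm using Nat.le_induction with
    | base => exact h
    | succ m _ ih => exact up m f _ ih
  let N0 : Subgroup (FreeGroup L) :=
    { carrier := {f | ∃ n, (S n).Ω.R ((S n).j h0) f ((S n).j h0)}
      one_mem' := ⟨0, R_one _⟩
      inv_mem' := by rintro f ⟨n, h⟩; exact ⟨n, R_symm h⟩
      mul_mem' := by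
        rintro f g ⟨n, h⟩ ⟨m, h'⟩
        exact ⟨max n m, R_trans (mono n f h _ (le_max_left _ _)) (mono m g h' _ (le_max_right _ _))⟩ }
  have ext : ∀ n f x h g h', (S n).Ω.R ((S n).j h0) f x → H.R h g h' →
      (S (n + 1)).Ω.R ((S (n + 1)).j h0) (f * g) (cl hG (S n).inv (x, h) h') := by
    intro n f x h g h' h1 h2
    have k := cl_R hG (S n).inv (x, h) h2
    rw [cl_old hG (S n).inv h0 (Cp.refl (x, h))] at k
    exact R_trans (up n f x h1) k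
  have all : ∀ g f : FreeGroup L, (∃ n x, (S n).Ω.R ((S n).j h0) f x) →
      ∃ n x, (S n).Ω.R ((S n).j h0) (f * g) x := by
    intro g
    induction g using FreeGroup.induction_on with
    | C1 => intro f h; simpa using h
    | of s =>
      rintro f ⟨n, x, h⟩
      obtain ⟨k, k', e⟩ := hG.surj s
      exact ⟨n + 1, _, ext n f x k _ k' h (R_of e)⟩
    | inv_of s _ =>
      rintro f ⟨n, x, h⟩
      obtain ⟨k, k', e⟩ := hG.surj s
      exact ⟨n + 1, _, ext n f x k' _ k h (R_symm (R_of e))⟩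
    | mul g g' ih ih' => intro f h; rw [← mul_assoc]; exact ih' _ (ih _ h)
  refine ⟨N0.normalCore, inferInstance, ?_, ?_⟩
  · intro h f hf b
    obtain ⟨n, x, hx⟩ := all b 1 ⟨0, _, R_one _⟩
    rw [one_mul] at hx
    have k := ext n b x h f h hx hf
    rw [cl_old hG (S n).inv h0 (Cp.refl (x, h))] at k
    exact ⟨n + 1, R_trans k (R_symm (up n b x hx))⟩
  · intro f g h k hf hg hN
    obtain ⟨n, hn⟩ := N0.normalCore_le hN
    have k1 := R_trans hn (R_hom (S n).j (S n).jE hg)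
    rw [inv_mul_cancel_right] at k1
    exact (S n).jinj (R_det (R_hom (S n).j (S n).jE hf) k1)

theorem embed_group {H : Gr L V0} {P : ℕ} (hG : Good H P) (h0 : V0) :
    ∃ (G : Type) (_ : Group G) (π : L → G) (p : V0 → G), Function.Injective p ∧ p h0 = 1 ∧
      ∀ u s v, H.E u s v → p v = p u * π s := by
  obtain ⟨N, hN, h1, h2⟩ := embed hG h0
  choose f hf using hG.conn h0
  refine ⟨FreeGroup L ⧸ N, inferInstance, fun s => ((of s : FreeGroup L) : FreeGroup L ⧸ N),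
    fun h => ((f h : FreeGroup L) : FreeGroup L ⧸ N), ?_, ?_, ?_⟩
  · intro u v e
    have e' : (f u)⁻¹ * f v ∈ N := QuotientGroup.eq.1 e
    exact (h2 _ _ _ _ (hf v) (hf u) (hN.mem_comm e')).symm
  · exact (QuotientGroup.eq_one_iff _).2 (h1 _ _ (hf h0))
  · intro u s v e
    rw [← QuotientGroup.mk_mul, QuotientGroup.eq]
    have := h1 _ _ (R_trans (R_symm (hf v)) (R_trans (hf u) (R_of e)))
    exact this

end H39.GSC
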