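import Pool.Agent.H39.GSC1

set_option autoImplicit false

namespace H39.GSC
open FreeGroup Gr

variable {L V : Type}

def Girth (Γ : Gr L V) (g : ℕ) : Prop :=
  ∀ x w, IsReduced w → w.length ≤ g → Γ.Rd x w x → w = []

def addE (Γ : Gr L V) (u0 : V) (s0 : L) (v0 : V) (ho : ∀ v, ¬ Γ.E u0 s0 v)
    (hi : ∀ u, ¬ Γ.E u s0 v0) : Gr L V where
  E u s v := Γ.E u s v ∨ (u = u0 ∧ s = s0 ∧ v = v0)
  det := by
    rintro u s v v' (h | ⟨rfl, rfl, rfl⟩) (h' | ⟨h1, h2, h3⟩)
    · exact Γ.det h h'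
    · subst h1 h2; exact absurd h (ho _)
    · exact absurd h' (ho _)
    · exact h3.symm
  inj := by
    rintro u u' s v (h | ⟨rfl, rfl, rfl⟩) (h' | ⟨h1, h2, h3⟩)
    · exact Γ.inj h h'
    · subst h2 h3; exact absurd h (hi _)
    · exact absurd h' (hi _)
    · exact h1.symm

section add
variable {Γ : Gr L V} {u0 : V} {s0 : L} {v0 : V} {ho : ∀ v, ¬ Γ.E u0 s0 v}
  {hi : ∀ u, ¬ Γ.E u s0 v0}

theorem add_dec {w : List (L × Bool)} {x y : V} (h : (addE Γ u0 s0 v0 ho hi).Rd x w y) :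
    Γ.Rd x w y ∨ ∃ w1 b w2, w = w1 ++ (s0, b) :: w2 ∧ Γ.Rd x w1 (cond b u0 v0) ∧
      (addE Γ u0 s0 v0 ho hi).Rd (cond b v0 u0) w2 y := by
  induction w generalizing x with
  | nil => exact Or.inl h
  | cons a w ih =>
    obtain ⟨m, h1, h2⟩ := h
    by_cases hs : Γ.St x a m
    · rcases ih h2 with h3 | ⟨w1, b, w2, rfl, h3, h4⟩
      · exact Or.inl ⟨m, hs, h3⟩
      · exact Or.inr ⟨a :: w1, b, w2, rfl, ⟨m, hs, h3⟩, h4⟩
    · obtain ⟨s, b⟩ := a
      cases b
      · rcases h1 with h1 | ⟨rfl, h3, rfl⟩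
        · exact absurd h1 hs
        · simp only at h3; subst h3
          exact Or.inr ⟨[], false, w, rfl, rfl, h2⟩
      · rcases h1 with h1 | ⟨rfl, h3, rfl⟩
        · exact absurd h1 hs
        · simp only at h3; subst h3
          exact Or.inr ⟨[], true, w, rfl, rfl, h2⟩

theorem add_girth {g : ℕ} (hg : Girth Γ g) (far : ∀ w, w.length ≤ g → ¬ Γ.Rd u0 w v0) :
    Girth (addE Γ u0 s0 v0 ho hi) g := by
  have far' : ∀ (b : Bool) w, w.length ≤ g → ¬ Γ.Rd (cond b v0 u0) w (cond b u0 v0) := by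
    intro b w hw h
    cases b
    · exact far w hw h
    · exact far (invRev w) (by simpa using hw) (Rd_invRev h)
  intro x w hr hl h
  rcases add_dec h with h1 | ⟨w1, b, w2, rfl, h1, h2⟩
  · exact hg x w hr hl h1
  exfalso
  simp only [List.length_append, List.length_cons] at hl
  have hr2 : IsReduced ((s0, b) :: w2) := red_sub hr ⟨w1, [], by simp⟩
  rcases add_dec h2 with h3 | ⟨w3, b', w4, rfl, h3, -⟩
  · exact far' b (w2 ++ w1) (by simp; omega) (Rd_append.2 ⟨x, h3, h1⟩)
  · simp only [List.length_append, List.length_cons] at hl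
    by_cases hb : b' = b
    · subst hb; exact far' b' w3 (by omega) h3
    · have e : (cond b' u0 v0) = (cond b v0 u0) := by cases b <;> cases b' <;> simp_all
      rw [e] at h3
      have := hg _ w3 (red_sub hr2 ⟨[(s0, b)], (s0, b') :: w4, by simp⟩) (by omega) h3
      subst this
      rw [List.nil_append, isReduced_cons_cons] at hr2
      exact hb (hr2.1 rfl).symm

end add

noncomputable def NB (g : ℕ) : ℕ := {w : List (Bool × Bool) | w.length ≤ g}.ncard

structure Pr {n : ℕ} (g j : ℕ) (Γ : Gr Bool (Fin n)) : Prop where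
  path : ∀ u v, Γ.E u false v ↔ v.val = u.val + 1
  lt : ∀ u v, Γ.E u true v → u.val < j
  ex : ∀ u, u.val < j → ∃ v, Γ.E u true v
  girth : Girth Γ g

def pathG (n : ℕ) : Gr Bool (Fin n) where
  E u t v := t = false ∧ v.val = u.val + 1
  det := by rintro u s v v' ⟨_, h⟩ ⟨_, h'⟩; exact Fin.ext (by omega)
  inj := by rintro u s v v' ⟨_, h⟩ ⟨_, h'⟩; exact Fin.ext (by omega)

theorem path_mono {n : ℕ} (b : Bool) (w : List (Bool × Bool)) : ∀ x y : Fin n,
    IsReduced ((false, b) :: w) → (pathG n).Rd x w y → cond b (x.val ≤ y.val) (y.val ≤ x.val) := by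
  induction w with
  | nil => intro x y _ h; obtain rfl : x = y := h; cases b <;> simp
  | cons a w ih =>
    rintro x y hr ⟨m, h1, h2⟩
    obtain ⟨s, c⟩ := a
    rw [isReduced_cons_cons] at hr
    have hs : s = false := by cases c <;> exact h1.1
    subst hs
    obtain rfl : b = c := hr.1 rfl
    have := ih m y hr.2 h2
    cases b
    · have h3 : x.val = m.val + 1 := h1.2
      simp at this ⊢; omega
    · have h3 : m.val = x.val + 1 := h1.2
      simp at this ⊢; omega

theorem pathG_pr (n g : ℕ) : Pr g 0 (pathG n) := by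
  refine ⟨fun u v => by simp [pathG], fun u v h => by simp [pathG] at h, fun u h => by omega, ?_⟩
  intro x w hr _ h
  cases w with
  | nil => rfl
  | cons a w =>
    exfalso
    obtain ⟨m, h1, h2⟩ := h
    obtain ⟨s, c⟩ := a
    have hs : s = false := by cases c <;> exact h1.1
    subst hs
    have := path_mono c w m x hr h2
    cases c
    · have h3 : x.val = m.val + 1 := h1.2
      simp at this; omega
    · have h3 : m.val = x.val + 1 := h1.2
      simp at this; omega

theorem ncard_le_of_rel {α β : Type} [Nonempty β] {A : Set α} {I : Set β} (hI : I.Finite) (r : β → α → Prop)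
    (hr : ∀ i a a', r i a → r i a' → a = a') (h : ∀ a ∈ A, ∃ i ∈ I, r i a) :
    A.ncard ≤ I.ncard := by
  choose! f hf1 hf2 using h
  · exact Set.ncard_le_ncard_of_injOn f hf1
      (fun a ha a' ha' e => hr (f a) a a' (hf2 a ha) (e ▸ hf2 a' ha')) hI

theorem step_ex {n g j m : ℕ} (hn : j + NB g + m ≤ n) (hj : j < n) {Γ : Gr Bool (Fin n)}
    (h : Pr g j Γ) : ∃ Δ : Fin m → Gr Bool (Fin n), (∀ i, Pr g (j + 1) (Δ i)) ∧
      (∀ i u v, u.val < j → ((Δ i).E u true v ↔ Γ.E u true v)) ∧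
      ∀ i i', (∀ v, (Δ i).E ⟨j, hj⟩ true v ↔ (Δ i').E ⟨j, hj⟩ true v) → i = i' := by
  classical
  set A : Set (Fin n) := {v | ∃ u, Γ.E u true v}
  set B : Set (Fin n) := {v | ∃ w : List (Bool × Bool), w.length ≤ g ∧ Γ.Rd ⟨j, hj⟩ w v}
  have hA : A.ncard ≤ j := by
    have := ncard_le_of_rel (A := A) (I := Set.Iio j) (Set.finite_Iio j)
      (fun i v => ∃ u : Fin n, u.val = i ∧ Γ.E u true v)
      (by
        rintro i a a' ⟨u, rfl, h1⟩ ⟨u', h2, h3⟩
        obtain rfl : u' = u := Fin.ext h2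
        exact Γ.det h1 h3)
      (by rintro v ⟨u, hu⟩; exact ⟨u.val, h.lt u v hu, u, rfl, hu⟩)
    simpa using this
  have hB : B.ncard ≤ NB g :=
    ncard_le_of_rel (List.finite_length_le _ g) (fun w v => Γ.Rd ⟨j, hj⟩ w v)
      (fun _ _ _ h1 h2 => Rd_det h1 h2) (by rintro v ⟨w, h1, h2⟩; exact ⟨w, h1, h2⟩)
  have hC : m ≤ (A ∪ B)ᶜ.ncard := by
    have h1 := Set.ncard_add_ncard_compl (A ∪ B)
    have h2 := Set.ncard_union_le A B
    simp only [Nat.card_eq_fintype_card, Fintype.card_fin] at h1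
    omega
  obtain ⟨e, he⟩ := Function.Embedding.exists_of_card_le_finset (α := Fin m)
    (s := ((A ∪ B)ᶜ).toFinset) (by rw [← Set.ncard_eq_toFinset_card']; simpa using hC)
  have he' : ∀ i, e i ∉ A ∧ e i ∉ B := fun i => by
    have := he ⟨i, rfl⟩
    simpa [not_or] using this
  have ho : ∀ v, ¬ Γ.E ⟨j, hj⟩ true v := fun v hv => lt_irrefl _ (h.lt _ _ hv)
  refine ⟨fun i => addE Γ ⟨j, hj⟩ true (e i) ho (fun u hu => (he' i).1 ⟨u, hu⟩), ?_, ?_, ?_⟩
  · intro i
    refine ⟨fun u v => ?_, ?_, ?_, add_girth h.girth (fun w hw hr => (he' i).2 ⟨w, hw, hr⟩)⟩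
    · simp [addE, h.path]
    · rintro u v (h1 | ⟨rfl, -, -⟩)
      · have := h.lt u v h1; omega
      · simp
    · intro u hu
      by_cases hu' : u.val < j
      · obtain ⟨v, hv⟩ := h.ex u hu'; exact ⟨v, Or.inl hv⟩
      · exact ⟨e i, Or.inr ⟨Fin.ext (by simp; omega), rfl, rfl⟩⟩
  · intro i u v hu
    refine ⟨?_, Or.inl⟩
    rintro (h1 | ⟨rfl, -, -⟩)
    · exact h1
    · simp at hu
  · intro i i' hi
    rcases (hi (e i)).1 (Or.inr ⟨rfl, rfl, rfl⟩) with h1 | ⟨-, -, h1⟩
    · exact absurd h1 (ho _)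
    · exact e.injective h1

theorem family (n g m : ℕ) (j : ℕ) (hn : j + NB g + m + 1 ≤ n) :
    ∃ (ι : Type) (_ : Fintype ι), Fintype.card ι = m ^ j ∧ ∃ Γ : ι → Gr Bool (Fin n),
      (∀ i, Pr g j (Γ i)) ∧
      ∀ i i', (∀ u v, u.val < j → ((Γ i).E u true v ↔ (Γ i').E u true v)) → i = i' := by
  induction j with
  | zero => exact ⟨Unit, inferInstance, by simp, fun _ => pathG n, fun _ => pathG_pr n g,
      fun _ _ _ => rfl⟩
  | succ j ih =>
    obtain ⟨ι, _, hc, Γ, h1, h2⟩ := ih (by omega)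
    have hj : j < n := by omega
    choose Δ d1 d2 d3 using fun i => step_ex (m := m) (by omega) hj (h1 i)
    refine ⟨ι × Fin m, inferInstance, by simp [hc, pow_succ], fun p => Δ p.1 p.2,
      fun p => d1 p.1 p.2, ?_⟩
    rintro ⟨i, k⟩ ⟨i', k'⟩ h
    obtain rfl : i = i' := h2 i i' (fun u v hu => by
      rw [← d2 i k u v hu, ← d2 i' k' u v hu]; exact h u v (by omega))
    rw [d3 i k k' (fun v => h _ v (by simp))]

theorem indep {α : Type} (x x' : ℕ → α) (r : ℕ) : ∀ I : Finset ℕ, 3 * r ≤ I.card →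
    Set.InjOn x I → Set.InjOn x' I → (∀ i ∈ I, x i ≠ x' i) →
    ∃ J ⊆ I, J.card = r ∧ ∀ i ∈ J, ∀ j ∈ J, x j ≠ x' i := by
  classical
  induction r with
  | zero => intro I _ _ _ _; exact ⟨∅, by simp, rfl, by simp⟩
  | succ r ih =>
    intro I hI h1 h2 h3
    obtain ⟨k, hk⟩ : I.Nonempty := Finset.card_pos.1 (by omega)
    have c1 : (I.filter fun i => x i = x' k).card ≤ 1 := Finset.card_le_one.2 (by
      intro a ha b hb
      simp only [Finset.mem_filter] at ha hb
      exact h1 ha.1 hb.1 (ha.2.trans hb.2.symm))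
    have c2 : (I.filter fun i => x k = x' i).card ≤ 1 := Finset.card_le_one.2 (by
      intro a ha b hb
      simp only [Finset.mem_filter] at ha hb
      exact h2 ha.1 hb.1 (ha.2.symm.trans hb.2))
    set T := insert k ((I.filter fun i => x i = x' k) ∪ (I.filter fun i => x k = x' i))
    have c3 : T.card ≤ 3 := (Finset.card_insert_le _ _).trans (by
      have := Finset.card_union_le (I.filter fun i => x i = x' k) (I.filter fun i => x k = x' i)
      omega)
    have c4 := Finset.le_card_sdiff T I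
    obtain ⟨J, j1, j2, j3⟩ := ih (I \ T) (by omega) (h1.mono (by simp)) (h2.mono (by simp))
      (fun i hi => h3 i (Finset.mem_sdiff.1 hi).1)
    have hJ : ∀ i ∈ J, i ∈ I ∧ i ≠ k ∧ x i ≠ x' k ∧ x k ≠ x' i := by
      intro i hi
      have := Finset.mem_sdiff.1 (j1 hi)
      simp only [T, Finset.mem_insert, Finset.mem_union, Finset.mem_filter] at this
      tauto
    refine ⟨insert k J, ?_, ?_, ?_⟩
    · intro i hi
      rcases Finset.mem_insert.1 hi with rfl | hi
      · exact hk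
      · exact (hJ i hi).1
    · rw [Finset.card_insert_of_notMem (fun h => (hJ k h).2.1 rfl), j2]
    · intro i hi j hj
      rcases Finset.mem_insert.1 hi with hi' | hi' <;> rcases Finset.mem_insert.1 hj with hj' | hj'
      · rw [hi', hj']; exact h3 _ hk
      · rw [hi']; exact (hJ j hj').2.2.1
      · rw [hj']; exact (hJ i hi').2.2.2
      · exact j3 i hi' j hj'

theorem take_inj {Γ : Gr L V} {g : ℕ} (hg : Girth Γ g) {w : List (L × Bool)} (hr : IsReduced w)
    (hl : w.length ≤ g) {h y : V} {i j : ℕ} (hij : i < j) (hj : j < w.length)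
    (h1 : Γ.Rd h (w.take (i + 1)) y) (h2 : Γ.Rd h (w.take (j + 1)) y) : False := by
  have e : w.take (j + 1) = w.take (i + 1) ++ (w.take (j + 1)).drop (i + 1) := by
    conv_lhs => rw [← List.take_append_drop (i + 1) (w.take (j + 1))]
    rw [List.take_take, min_eq_left (by omega)]
  rw [e, Rd_append] at h2
  obtain ⟨z, h3, h4⟩ := h2
  obtain rfl := Rd_det h1 h3
  have := hg _ _ (red_sub hr ((List.drop_suffix _ _).isInfix.trans (List.take_prefix _ _).isInfix))
    (by simp; omega) h4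
  have := congrArg List.length this
  simp at this; omega

def BadC {n : ℕ} {K : Type} (Γ : Gr Bool (Fin n)) (r : ℕ) (c : Fin n → K) (h h' : Fin n)
    (w : List (Bool × Bool)) : Prop :=
  h ≠ h' ∧ IsReduced w ∧ w.length = 3 * r ∧ ∀ j < 3 * r, ∃ x x', Γ.Rd h (w.take (j + 1)) x ∧
    Γ.Rd h' (w.take (j + 1)) x' ∧ c x = c x'

theorem bad_card {n g r : ℕ} {K : Type} [Fintype K] {Γ : Gr Bool (Fin n)} (hg : Girth Γ g)
    (hr : 3 * r ≤ g) (h h' : Fin n) (w : List (Bool × Bool)) :
    {c : Fin n → K | BadC Γ r c h h' w}.ncard * Fintype.card K ^ r ≤ Fintype.card K ^ n := by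
  classical
  rcases Set.eq_empty_or_nonempty {c : Fin n → K | BadC Γ r c h h' w} with he | ⟨c0, hc0⟩
  · rw [he]; simp
  obtain ⟨hne, hw, hl, h0⟩ := hc0
  have : Nonempty (Fin n) := ⟨h⟩
  choose! x x' hx hx' _ using h0
  have inj : ∀ (k : Fin n) (y : ℕ → Fin n), (∀ j < 3 * r, Γ.Rd k (w.take (j + 1)) (y j)) →
      Set.InjOn y (Finset.range (3 * r)) := by
    intro k y hy i hi j hj e
    simp only [Finset.coe_range, Set.mem_Iio] at hi hj
    rcases lt_trichotomy i j with hij | hij | hij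
    · exact (take_inj hg hw (by omega) hij (by omega) (hy i hi) (e ▸ hy j hj)).elim
    · exact hij
    · exact (take_inj hg hw (by omega) hij (by omega) (hy j hj) (e ▸ hy i hi)).elim
  obtain ⟨J, j1, j2, j3⟩ := indep x x' r (Finset.range (3 * r)) (by simp) (inj h x hx)
    (inj h' x' hx') (fun i hi e => hne (Rd_inj (hx i (Finset.mem_range.1 hi))
      (e ▸ hx' i (Finset.mem_range.1 hi))))
  set T := J.image x'
  have hT : T.card = r := by
    rw [Finset.card_image_of_injOn ((inj h' x' hx').mono (by exact_mod_cast j1)), j2]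
  have hle : {c : Fin n → K | BadC Γ r c h h' w}.ncard ≤
      (Set.univ : Set ({v // v ∉ T} → K)).ncard := by
    refine Set.ncard_le_ncard_of_injOn (fun c v => c v.1) (fun _ _ => Set.mem_univ _) ?_
    intro c hc c' hc' e
    have key : ∀ c : Fin n → K, BadC Γ r c h h' w → ∀ i ∈ J, c (x' i) = c (x i) := by
      intro c hc i hi
      have hi' := Finset.mem_range.1 (j1 hi)
      obtain ⟨y, y', a1, a2, a3⟩ := hc.2.2.2 i hi'
      rw [Rd_det (hx i hi') a1, Rd_det (hx' i hi') a2, a3]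
    funext v
    by_cases hv : v ∈ T
    · obtain ⟨i, hi, rfl⟩ := Finset.mem_image.1 hv
      rw [key c hc i hi, key c' hc' i hi]
      refine congrFun e ⟨x i, fun hx => ?_⟩
      obtain ⟨k, hk, ek⟩ := Finset.mem_image.1 hx
      exact j3 k hk i hi ek.symm
    · exact congrFun e ⟨v, hv⟩
  have hr' : r ≤ n := by
    have := Finset.card_le_univ T
    simpa [hT] using this
  rw [Set.ncard_univ, Nat.card_eq_fintype_card, Fintype.card_fun, Fintype.card_subtype_compl,
    Fintype.card_coe, hT, Fintype.card_fin] at hle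
  calc _ ≤ Fintype.card K ^ (n - r) * Fintype.card K ^ r := Nat.mul_le_mul_right _ hle
    _ = _ := by rw [← pow_add, Nat.sub_add_cancel hr']

theorem color_ex {n g r : ℕ} {K : Type} [Fintype K] {Γ : Gr Bool (Fin n)} (hg : Girth Γ g)
    (hr : 3 * r ≤ g) (hK : n * (n * NB g) < Fintype.card K ^ r) (hK0 : 0 < Fintype.card K) :
    ∃ c : Fin n → K, ∀ h h' w, ¬ BadC Γ r c h h' w := by
  classical
  by_contra hc
  push Not at hc
  set W := (List.finite_length_le (Bool × Bool) g).toFinset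
  have hW : W.card = NB g := (Set.ncard_eq_toFinset_card _ _).symm
  set I : Finset (Fin n × Fin n × List (Bool × Bool)) := Finset.univ ×ˢ Finset.univ ×ˢ W
  have hI : I.card = n * (n * NB g) := by simp [I, hW]
  have hsub : (Finset.univ : Finset (Fin n → K)) ⊆
      I.biUnion fun t => Finset.univ.filter fun c => BadC Γ r c t.1 t.2.1 t.2.2 := by
    intro c _
    obtain ⟨h, h', w, hb⟩ := hc c
    refine Finset.mem_biUnion.2 ⟨(h, h', w), ?_, by simpa using hb⟩
    have := hb.2.2.1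
    simp [I, W]; omega
  have h1 := (Finset.card_le_card hsub).trans Finset.card_biUnion_le
  have h2 : (∑ t ∈ I, (Finset.univ.filter fun c : Fin n → K =>
      BadC Γ r c t.1 t.2.1 t.2.2).card) * Fintype.card K ^ r ≤ I.card * Fintype.card K ^ n := by
    rw [Finset.sum_mul, ← smul_eq_mul]
    refine Finset.sum_le_card_nsmul _ _ _ (fun t _ => ?_)
    have := bad_card (K := K) hg hr t.1 t.2.1 t.2.2
    rwa [Set.ncard_eq_toFinset_card', Set.toFinset_ofPred] at this
  rw [Finset.card_univ, Fintype.card_fun, Fintype.card_fin] at h1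
  have h3 := (Nat.mul_le_mul_right (Fintype.card K ^ r) h1).trans h2
  rw [hI, mul_comm] at h3
  exact absurd (Nat.le_of_mul_le_mul_right h3 (pow_pos hK0 n)) (by omega)

end H39.GSC
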