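import Pool.Agent.H39.GSC2
import Pool.Agent.H39.GSC3

set_option autoImplicit false

namespace H39.GSC
open FreeGroup Gr

section lab
variable {V K : Type} (Γ : Gr Bool V) (c : V → K)

def Lab : Type := {s : Bool × K × K // ∃ u v, Γ.E u s.1 v ∧ c u = s.2.1 ∧ c v = s.2.2}

def labG : Gr (Lab Γ c) V where
  E u s v := Γ.E u s.1.1 v ∧ c u = s.1.2.1 ∧ c v = s.1.2.2
  det h h' := Γ.det h.1 h'.1
  inj h h' := Γ.inj h.1 h'.1

def prj (w : List (Lab Γ c × Bool)) : List (Bool × Bool) := w.map fun a => (a.1.1.1, a.2)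

variable {Γ c}

theorem St_prj {u v : V} {a : Lab Γ c × Bool} (h : (labG Γ c).St u a v) :
    Γ.St u (a.1.1.1, a.2) v := by
  obtain ⟨s, b⟩ := a
  cases b
  · exact h.1
  · exact h.1

theorem Rd_prj {w : List (Lab Γ c × Bool)} {u v : V} (h : (labG Γ c).Rd u w v) :
    Γ.Rd u (prj Γ c w) v := by
  induction w generalizing u with
  | nil => exact h
  | cons a w ih =>
    obtain ⟨m, h1, h2⟩ := h
    exact ⟨m, St_prj h1, ih h2⟩

theorem red_prj {w : List (Lab Γ c × Bool)} {u v : V} (h : (labG Γ c).Rd u w v)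
    (hr : IsReduced w) : IsReduced (prj Γ c w) := by
  induction w generalizing u with
  | nil => exact IsReduced.nil
  | cons a w ih =>
    cases w with
    | nil => exact IsReduced.singleton
    | cons b w =>
      obtain ⟨m, h1, h2⟩ := h
      rw [isReduced_cons_cons] at hr
      refine isReduced_cons_cons.2 ⟨fun e => ?_, ih h2 hr.2⟩
      by_contra hne
      refine hne (hr.1 ?_)
      obtain ⟨m', h3, -⟩ := h2
      obtain ⟨⟨⟨t, c1, c2⟩, hs⟩, β⟩ := a
      obtain ⟨⟨⟨t', c1', c2'⟩, hs'⟩, β'⟩ := b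
      simp only at e hne
      subst e
      refine Subtype.ext ?_
      cases β <;> cases β'
      · exact absurd rfl hne
      · obtain ⟨a1, a2, a3⟩ := h1
        obtain ⟨b1, b2, b3⟩ := h3
        obtain rfl := Γ.det a1 b1
        exact Prod.ext rfl (Prod.ext (a2.symm.trans b2) (a3.symm.trans b3))
      · obtain ⟨a1, a2, a3⟩ := h1
        obtain ⟨b1, b2, b3⟩ := h3
        obtain rfl := Γ.inj a1 b1
        exact Prod.ext rfl (Prod.ext (a2.symm.trans b2) (a3.symm.trans b3))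
      · exact absurd rfl hne

theorem col_last {w : List (Lab Γ c × Bool)} {a : Lab Γ c × Bool} {u u' x x' : V}
    (h : (labG Γ c).Rd u (w ++ [a]) x) (h' : (labG Γ c).Rd u' (w ++ [a]) x') : c x = c x' := by
  obtain ⟨m, -, k, h1, h2⟩ := Rd_append.1 h
  obtain ⟨m', -, k', h1', h2'⟩ := Rd_append.1 h'
  obtain rfl : k = x := h2
  obtain rfl : k' = x' := h2'
  obtain ⟨s, b⟩ := a
  cases b
  · exact h1.2.1.trans h1'.2.1.symm
  · exact h1.2.2.trans h1'.2.2.symm

end lab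

theorem lab_good {n j r : ℕ} {K : Type} {Γ : Gr Bool (Fin n)} (h : Pr (15 * r) j Γ)
    {c : Fin n → K} (hc : ∀ h h' w, ¬ BadC Γ r c h h' w) [DecidableEq (Lab Γ c)] :
    Good (labG Γ c) (3 * r) := by
  refine ⟨?_, ?_, ?_, ?_⟩
  · intro x f hf hn
    have := h.girth x _ (red_prj hf isReduced_toWord)
      (by unfold FreeGroup.norm at hn; simp only [prj, List.length_map]; omega) (Rd_prj hf)
    rw [← toWord_eq_nil_iff]
    simpa [prj] using this
  · intro x x' f k k' hne h1 h2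
    by_contra hn
    unfold FreeGroup.norm at hn
    unfold Gr.R at h1 h2
    have hr := red_prj h1 isReduced_toWord
    generalize f.toWord = w at *
    refine hc x x' ((prj Γ c w).take (3 * r))
      ⟨hne, red_sub hr (List.take_prefix _ _).isInfix, by simp [prj]; omega, fun i hi => ?_⟩
    rw [← List.take_append_drop (i + 1) w, Rd_append] at h1 h2
    obtain ⟨y, a1, -⟩ := h1
    obtain ⟨y', a2, -⟩ := h2
    have e : ((prj Γ c w).take (3 * r)).take (i + 1) = prj Γ c (w.take (i + 1)) := by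
      rw [List.take_take, min_eq_left (by omega)]; simp [prj]
    rw [e]
    refine ⟨y, y', Rd_prj a1, Rd_prj a2, ?_⟩
    rw [List.take_succ_eq_append_getElem (by omega)] at a1 a2
    exact col_last a1 a2
  · have key : ∀ k (u v : Fin n), v.val = u.val + k → ∃ f, (labG Γ c).R u f v := by
      intro k
      induction k with
      | zero => intro u v e; obtain rfl : v = u := Fin.ext e; exact ⟨1, R_one _⟩
      | succ k ih =>
        intro u v e
        obtain ⟨f, hf⟩ := ih u ⟨u.val + k, by omega⟩ rfl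
        have e1 : Γ.E ⟨u.val + k, by omega⟩ false v := (h.path _ _).2 (by simp; omega)
        let s : Lab Γ c := ⟨(false, _, _), _, _, e1, rfl, rfl⟩
        have e2 : (labG Γ c).E ⟨u.val + k, by omega⟩ s v := ⟨e1, rfl, rfl⟩
        exact ⟨_, R_trans hf (R_of e2)⟩
    intro u v
    rcases le_total u.val v.val with h | h
    · exact key (v.val - u.val) u v (by omega)
    · obtain ⟨f, hf⟩ := key (u.val - v.val) v u (by omega)
      exact ⟨f⁻¹, R_symm hf⟩
  · rintro ⟨s, u, v, h⟩; exact ⟨u, v, h⟩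

structure Dat (n m : ℕ) (K : Type) where
  G : Type
  [grp : Group G]
  π : Bool × K × K → G
  p : Fin n → G
  σ : Fin n → Fin n
  pinj : Function.Injective p
  p0 : ∀ u, u.val = 0 → p u = 1
  path : ∀ u v, v.val = u.val + 1 → ∃ s, p v = p u * π s
  chord : ∀ u, u.val < m → ∃ s, p (σ u) = p u * π s

attribute [instance] Dat.grp

theorem dat_family (n m r : ℕ) (K : Type) [Fintype K] (hn : m + NB (15 * r) + m + 1 ≤ n)
    (hK : n * (n * NB (15 * r)) < Fintype.card K ^ r) (hK0 : 0 < Fintype.card K) :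
    ∃ (ι : Type) (_ : Fintype ι), Fintype.card ι = m ^ m ∧ ∃ D : ι → Dat n m K,
      ∀ i i', (∀ u, u.val < m → (D i).σ u = (D i').σ u) → i = i' := by
  classical
  obtain ⟨ι, _, hc, Γ, h1, h2⟩ := family n (15 * r) m m hn
  have key : ∀ i, ∃ D : Dat n m K, ∀ u, u.val < m → (Γ i).E u true (D.σ u) := by
    intro i
    obtain ⟨c, hc⟩ := color_ex (h1 i).girth (by omega) hK hK0
    obtain ⟨G, _, π, p, p1, p2, p3⟩ := embed_group (lab_good (h1 i) hc) (⟨0, by omega⟩ : Fin n)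
    have : Nonempty (Fin n) := ⟨⟨0, by omega⟩⟩
    choose! σ hσ using (h1 i).ex
    have e : ∀ u t v, (Γ i).E u t v → ∃ s : Bool × K × K, p v = p u *
        (if h : ∃ u v, (Γ i).E u s.1 v ∧ c u = s.2.1 ∧ c v = s.2.2 then π ⟨s, h⟩ else 1) := by
      intro u t v h
      refine ⟨(t, c u, c v), ?_⟩
      rw [dif_pos ⟨u, v, h, rfl, rfl⟩]
      exact p3 _ _ _ ⟨h, rfl, rfl⟩
    exact ⟨⟨G, fun s => if h : ∃ u v, (Γ i).E u s.1 v ∧ c u = s.2.1 ∧ c v = s.2.2
      then π ⟨s, h⟩ else 1, p, σ, p1, fun u hu => by rw [← p2]; congr 1; exact Fin.ext hu,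
      fun u v h => e u false v (((h1 i).path u v).2 h), fun u hu => e u true _ (hσ u hu)⟩, hσ⟩
  choose D hD using key
  refine ⟨ι, inferInstance, hc, D, fun i i' h => h2 i i' (fun u v hu => ⟨fun e => ?_, fun e => ?_⟩)⟩
  · rw [(Γ i).det e (hD i u hu), h u hu]; exact hD i' u hu
  · rw [(Γ i').det e (hD i' u hu), ← h u hu]; exact hD i u hu

section code
variable {S : Type} [Group S]

def Mv (U : Set S) (Z : Finset S) (a : S) : Prop := ∀ x ∈ U, ∃ z ∈ Z, z⁻¹ * x * a ∈ U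

open Pointwise in
theorem Mv.mul [DecidableEq S] {U : Set S} {Z Z' : Finset S} {a b : S} (h : Mv U Z a)
    (h' : Mv U Z' b) : Mv U (Z * Z') (a * b) := by
  intro x hx
  obtain ⟨z, hz, h1⟩ := h x hx
  obtain ⟨z', hz', h2⟩ := h' _ h1
  refine ⟨z * z', Finset.mul_mem_mul hz hz', ?_⟩
  rwa [show (z * z')⁻¹ * x * (a * b) = z'⁻¹ * (z⁻¹ * x * a) * b by group]

def Rl (U : Set S) (Z : Finset S) {n : ℕ} (m : ℕ) (σ : Fin n → Fin n) : Prop :=
  ∃ q : Fin n → S, (∀ u, u.val = 0 → q u = 1) ∧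
    (∀ u v, v.val = u.val + 1 → Mv U Z ((q u)⁻¹ * q v)) ∧
    (∀ u, u.val < m → Mv U Z ((q u)⁻¹ * q (σ u))) ∧
    ∀ u v, ∀ a ∈ U, ∀ b ∈ U, ∀ c ∈ U, ∀ d ∈ U, (q u)⁻¹ * q v = a⁻¹ * b * c⁻¹ * d → u = v

def nu {Z : Finset S} {n : ℕ} (y : Fin n → Z) : ℕ → S
  | 0 => 1
  | k + 1 => nu y k * (if h : k < n then (y ⟨k, h⟩ : S) else 1)

theorem code_ex {U : Set S} (h1 : (1 : S) ∈ U) {Z : Finset S} (z0 : Z) {n : ℕ} (q : Fin n → S)
    (q0 : ∀ u, u.val = 0 → q u = 1) (hq : ∀ u v, v.val = u.val + 1 → Mv U Z ((q u)⁻¹ * q v)) :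
    ∃ y : Fin n → Z, ∀ u : Fin n, (nu y u)⁻¹ * q u ∈ U := by
  have step : ∀ (k : ℕ) (a : S), ∃ z : Z, ∀ (h : k + 1 < n), a⁻¹ * q ⟨k, by omega⟩ ∈ U →
      (a * z)⁻¹ * q ⟨k + 1, h⟩ ∈ U := by
    intro k a
    by_cases h : ∃ h : k + 1 < n, a⁻¹ * q ⟨k, by omega⟩ ∈ U
    · obtain ⟨h, h'⟩ := h
      obtain ⟨z, hz, e⟩ := hq ⟨k, by omega⟩ ⟨k + 1, h⟩ rfl _ h'
      refine ⟨⟨z, hz⟩, fun _ _ => ?_⟩
      rwa [show z⁻¹ * (a⁻¹ * q ⟨k, by omega⟩) * ((q ⟨k, by omega⟩)⁻¹ * q ⟨k + 1, h⟩) =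
        (a * z)⁻¹ * q ⟨k + 1, h⟩ by group] at e
    · exact ⟨z0, fun h' h'' => absurd ⟨h', h''⟩ h⟩
  choose F hF using step
  let ν : ℕ → S := fun k => Nat.rec 1 (fun k a => a * F k a) k
  have e : ∀ k, k ≤ n → nu (fun u : Fin n => F u (ν u)) k = ν k := by
    intro k
    induction k with
    | zero => intro _; rfl
    | succ k ih =>
      intro hk
      rw [nu, ih (by omega), dif_pos (by omega)]
  refine ⟨fun u => F u (ν u), ?_⟩
  rintro ⟨k, hk⟩
  rw [e k hk.le]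
  induction k with
  | zero => rw [q0 _ rfl]; simpa [ν] using h1
  | succ k ih => exact hF k (ν k) hk (ih (by omega))

theorem real_card {U : Set S} (h1 : (1 : S) ∈ U) {Z : Finset S} {n m : ℕ} (hm : 0 < m) (hn : 0 < n)
    {ι : Type} [Fintype ι] (σ : ι → Fin n → Fin n)
    (hσ : ∀ i i', (∀ u, u.val < m → σ i u = σ i' u) → i = i') (hr : ∀ i, Rl U Z m (σ i)) :
    Fintype.card ι ≤ Z.card ^ n * Z.card ^ n := by
  classical
  rcases isEmpty_or_nonempty ι with hι | ⟨⟨i0⟩⟩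
  · simp
  choose q q0 q1 q2 q3 using hr
  obtain ⟨z0, hz0, -⟩ := q2 i0 ⟨0, hn⟩ hm 1 h1
  choose y hy using fun i => code_ex h1 ⟨z0, hz0⟩ (q i) (q0 i) (q1 i)
  have k : ∀ i (u : Fin n), ∃ z : Z, u.val < m → (nu (y i) u * z)⁻¹ * q i (σ i u) ∈ U := by
    intro i u
    by_cases hu : u.val < m
    · obtain ⟨z, hz, e⟩ := q2 i u hu _ (hy i u)
      refine ⟨⟨z, hz⟩, fun _ => ?_⟩
      rwa [show z⁻¹ * ((nu (y i) u)⁻¹ * q i u) * ((q i u)⁻¹ * q i (σ i u)) =
        (nu (y i) u * z)⁻¹ * q i (σ i u) by group] at e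
    · exact ⟨⟨z0, hz0⟩, fun h => absurd h hu⟩
  choose y' hy' using k
  have inj : Function.Injective fun i => (y i, y' i) := by
    intro i i' e
    simp only [Prod.mk.injEq] at e
    refine hσ i i' (fun u hu => ?_)
    have a1 := hy i' (σ i u)
    have a2 := hy i (σ i u)
    have a3 := hy' i u hu
    have a4 := hy' i' u hu
    rw [← e.1] at a1
    rw [← e.1, ← e.2] at a4
    exact q3 i' _ _ _ a1 _ a2 _ a3 _ a4 (by group)
  simpa using Fintype.card_le_of_injective _ inj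

end code

theorem params (D n0 : ℕ) : ∃ b r m n : ℕ, 0 < m ∧ m + NB (15 * r) + m + 1 ≤ n ∧
    n * (n * NB (15 * r)) < (2 ^ b) ^ r ∧
    (D ^ (4 * (n0 + 2 + 2 * b) + 4)) ^ n * (D ^ (4 * (n0 + 2 + 2 * b) + 4)) ^ n < m ^ m := by
  set r := 200 * D + 1 with hr
  set B := NB (15 * r)
  set y := 4 * n0 + 20 + 16 * B + 1 with hy
  set m := 2 ^ (r * y) with hm
  have h1 : y ≤ m := (Nat.le_mul_of_pos_left y (by omega)).trans Nat.lt_two_pow_self.le
  refine ⟨3 * y + 1, r, m, 4 * m, by omega, by omega, ?_, ?_⟩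
  · have e : (2 ^ (3 * y + 1)) ^ r = m * m * m * 2 ^ r := by
      rw [hm, ← pow_mul, ← pow_add, ← pow_add, ← pow_add]; congr 1; ring
    have h2 : 1 < 2 ^ r := Nat.one_lt_two_pow (by omega)
    rw [e]
    calc 4 * m * (4 * m * B) = m * m * (16 * B) := by ring
      _ ≤ m * m * m := Nat.mul_le_mul_left _ (by omega)
      _ < m * m * m * 2 ^ r := by
        have : 0 < m * m * m := by positivity
        nlinarith
  · set Λ := 4 * (n0 + 2 + 2 * (3 * y + 1)) + 4 with hΛ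
    have h2 : Λ ≤ 25 * y := by omega
    have h3 : D ≤ 2 ^ D := Nat.lt_two_pow_self.le
    calc (D ^ Λ) ^ (4 * m) * (D ^ Λ) ^ (4 * m) = D ^ (Λ * (8 * m)) := by
          rw [← pow_add, ← pow_mul]; congr 1; ring
      _ ≤ (2 ^ D) ^ (Λ * (8 * m)) := Nat.pow_le_pow_left h3 _
      _ = 2 ^ (D * (Λ * 8) * m) := by rw [← pow_mul]; congr 1; ring
      _ < 2 ^ (r * y * m) := by
          refine Nat.pow_lt_pow_right (by omega) (Nat.mul_lt_mul_of_pos_right ?_ (by omega))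
          have : D * (Λ * 8) ≤ D * (25 * y * 8) := Nat.mul_le_mul_left _ (by omega)
          rw [hr]; nlinarith
      _ = m ^ m := by rw [pow_mul]

end H39.GSC
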