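import Pool.Agent.H39.GSC4

set_option autoImplicit false

namespace H39.GSC
open FreeGroup

abbrev Q := FreeGroup Bool

def pw (l : List Bool) : Q := (l.map FreeGroup.of).prod

theorem pw_mk (l : List Bool) : pw l = FreeGroup.mk (l.map fun x => (x, true)) := by
  induction l with
  | nil => rfl
  | cons a l ih =>
    have : pw (a :: l) = FreeGroup.of a * pw l := by simp [pw]
    rw [this, ih, FreeGroup.of, mul_mk]; rfl

theorem pw_inj : Function.Injective pw := by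
  have red : ∀ l : List Bool, IsReduced (l.map fun x => (x, true)) := by
    intro l
    induction l with
    | nil => exact IsReduced.nil
    | cons a l ih =>
      cases l with
      | nil => exact IsReduced.singleton
      | cons b l => exact isReduced_cons_cons.2 ⟨fun _ => rfl, ih⟩
  intro l l' e
  have := congrArg toWord e
  rw [pw_mk, pw_mk, toWord_mk, toWord_mk, (red l).reduce_eq, (red l').reduce_eq] at this
  exact List.map_injective_iff.2 (fun x y h => (Prod.ext_iff.1 h).1) this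

theorem rep_inj (n : ℕ) : ∀ (n' : ℕ) (l l' : List Bool),
    List.replicate n true ++ false :: l = List.replicate n' true ++ false :: l' →
    n = n' ∧ l = l' := by
  induction n with
  | zero => intro n' l l' h; cases n' <;> simp_all [List.replicate_succ]
  | succ n ih =>
    intro n' l l' h
    cases n' with
    | zero => simp [List.replicate_succ] at h
    | succ n' =>
      simp only [List.replicate_succ, List.cons_append, List.cons.injEq, true_and] at h
      obtain ⟨h1, h2⟩ := ih n' l l' h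
      exact ⟨by omega, h2⟩

section perm
variable {G : Type} [Group G]
open Classical

abbrev X (G : Type) := G × ℤ × Q × Fin 3

noncomputable def pF (γ : Q → G) : Equiv.Perm (X G) where
  toFun x := (if 0 ≤ x.2.1 then γ x.2.2.1 * x.1 else x.1, x.2)
  invFun x := (if 0 ≤ x.2.1 then (γ x.2.2.1)⁻¹ * x.1 else x.1, x.2)
  left_inv := by rintro ⟨g, z, q, i⟩; by_cases h : 0 ≤ z <;> simp [h]
  right_inv := by rintro ⟨g, z, q, i⟩; by_cases h : 0 ≤ z <;> simp [h]

noncomputable def pT : Equiv.Perm (X G) where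
  toFun x := (x.1, if x.2.2.1 = 1 then x.2.1 + 1 else x.2.1, x.2.2)
  invFun x := (x.1, if x.2.2.1 = 1 then x.2.1 - 1 else x.2.1, x.2.2)
  left_inv := by rintro ⟨g, z, q, i⟩; by_cases h : q = 1 <;> simp [h]
  right_inv := by rintro ⟨g, z, q, i⟩; by_cases h : q = 1 <;> simp [h]

def pA0 (s : Q) : Equiv.Perm (X G) where
  toFun x := (x.1, x.2.1, s * x.2.2.1, x.2.2.2)
  invFun x := (x.1, x.2.1, s⁻¹ * x.2.2.1, x.2.2.2)
  left_inv := by rintro ⟨g, z, q, i⟩; simp
  right_inv := by rintro ⟨g, z, q, i⟩; simp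

def pA : Q →* Equiv.Perm (X G) where
  toFun := pA0
  map_one' := by ext1 ⟨g, z, q, i⟩; simp [pA0]
  map_mul' s t := by ext1 ⟨g, z, q, i⟩; simp [pA0, mul_assoc]

noncomputable def ps0 (h : G) : Equiv.Perm (X G) where
  toFun x := (if x.2.1 = 0 ∧ x.2.2.1 = 1 then h * x.1 else x.1, x.2)
  invFun x := (if x.2.1 = 0 ∧ x.2.2.1 = 1 then h⁻¹ * x.1 else x.1, x.2)
  left_inv := by rintro ⟨g, z, q, i⟩; by_cases h : z = 0 ∧ q = 1 <;> simp [h]
  right_inv := by rintro ⟨g, z, q, i⟩; by_cases h : z = 0 ∧ q = 1 <;> simp [h]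

noncomputable def ps : G →* Equiv.Perm (X G) where
  toFun := ps0
  map_one' := by ext1 ⟨g, z, q, i⟩; simp [ps0]
  map_mul' s t := by
    ext1 ⟨g, z, q, i⟩; by_cases h : z = 0 ∧ q = 1 <;> simp [ps0, h, mul_assoc]

noncomputable def pB (e : Equiv.Perm (Fin 3)) : Equiv.Perm (X G) where
  toFun x := (x.1, x.2.1, x.2.2.1, if x.1 = 1 ∧ x.2.1 = 0 ∧ x.2.2.1 = 1 then e x.2.2.2 else x.2.2.2)
  invFun x :=
    (x.1, x.2.1, x.2.2.1, if x.1 = 1 ∧ x.2.1 = 0 ∧ x.2.2.1 = 1 then e.symm x.2.2.2 else x.2.2.2)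
  left_inv := by rintro ⟨g, z, q, i⟩; by_cases h : g = 1 ∧ z = 0 ∧ q = 1 <;> simp [h]
  right_inv := by rintro ⟨g, z, q, i⟩; by_cases h : g = 1 ∧ z = 0 ∧ q = 1 <;> simp [h]

theorem ps_eq (γ : Q → G) (s : Q) : ps (γ s) =
    ((pA s)⁻¹ * pF γ * pA s) * pT * ((pA s)⁻¹ * (pF γ)⁻¹ * pA s) * (pT : Equiv.Perm (X G))⁻¹ := by
  ext1 ⟨g, z, q, i⟩
  simp only [ps, ps0, pA, pA0, pF, pT, Equiv.Perm.inv_def, Equiv.Perm.mul_apply, MonoidHom.coe_mk,
    OneHom.coe_mk, Equiv.coe_fn_mk, Equiv.coe_fn_symm_mk, inv_mul_cancel_left]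
  by_cases hq : q = 1
  · subst hq
    rcases lt_trichotomy z 0 with h | h | h
    · have h1 : ¬ 0 ≤ z := by omega
      have h2 : ¬ 1 ≤ z := by omega
      have h3 : z ≠ 0 := by omega
      simp [h1, h2, h3]
    · subst h; simp
    · have h1 : 0 ≤ z := by omega
      have h2 : 1 ≤ z := by omega
      have h3 : z ≠ 0 := by omega
      simp [h1, h2, h3]
  · by_cases h : 0 ≤ z <;> simp [hq, h]

theorem pB_comm (e e' : Equiv.Perm (Fin 3)) {h : G} (hh : h ≠ 1) :
    pB e * (ps h * pB e' * (ps h)⁻¹) = (ps h * pB e' * (ps h)⁻¹) * pB e := by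
  ext1 ⟨g, z, q, i⟩
  simp only [ps, ps0, pB, Equiv.Perm.inv_def, Equiv.Perm.mul_apply, MonoidHom.coe_mk,
    OneHom.coe_mk, Equiv.coe_fn_mk, Equiv.coe_fn_symm_mk]
  by_cases hq : z = 0 ∧ q = 1
  · by_cases hg : g = 1
    · simp [hq, hg, hh]
    · simp [hq, hg]
  · simp [hq]

theorem pB_ncomm : (pB (Equiv.swap 0 1) : Equiv.Perm (X G)) * pB (Equiv.swap 1 2) ≠
    pB (Equiv.swap 1 2) * pB (Equiv.swap 0 1) := by
  intro e
  have := congrArg (fun f : Equiv.Perm (X G) => (f (1, 0, 1, 0)).2.2.2) e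
  simp [pB, Equiv.swap_apply_def] at this

end perm

open Pointwise TopologicalSpace in
theorem no_universal (S : Type) [Group S] [TopologicalSpace S] [IsTopologicalGroup S] [T2Space S]
    [LocallyCompactSpace S] [SecondCountableTopology S] :
    ∃ (G : Type) (_ : Group G) (_ : Countable G), ∀ f : G →* S, ¬ Function.Injective f := by
  classical
  obtain ⟨Dn, hDc, hDd⟩ := exists_countable_dense S
  have := hDc.to_subtype
  have := (countable_countableBasis S).to_subtype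
  let T := countableBasis S × Finset Dn
  obtain ⟨code, hcode⟩ := exists_injective_nat T
  let Y : T → Finset S := fun t => t.2.image Subtype.val
  have key : ∀ t : T, ∃ (b m n : ℕ) (D : Dat n m (Fin b → Bool)), (1 : S) ∈ t.1.1 →
      ¬ Rl t.1.1 (Y t ^ (4 * (code t + 2 + 2 * b) + 4)) m D.σ := by
    intro t
    obtain ⟨b, r, m, n, h0, h1, h2, h3⟩ := params (Y t).card (code t)
    obtain ⟨ι, _, hc, D, hD⟩ := dat_family n m r (Fin b → Bool) h1 (by simpa using h2) (by simp)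
    by_contra hn
    push Not at hn
    have hne : Nonempty ι := Fintype.card_pos_iff.1 (by rw [hc]; positivity)
    have h4 := real_card (hn b m n (D hne.some)).1 h0 (by omega) (fun i => (D i).σ) hD
      (fun i => (hn b m n (D i)).2)
    have h5 : (Y t ^ (4 * (code t + 2 + 2 * b) + 4)).card ≤ _ := Finset.card_pow_le
    have h6 := Nat.pow_le_pow_left h5 n
    have h7 := Nat.mul_le_mul h6 h6
    omega
  choose b m n D hD using key
  let G := ∀ t, (D t).G
  let wd : (Σ t, Bool × (Fin (b t) → Bool) × (Fin (b t) → Bool)) → List Bool := fun x =>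
    List.replicate (code x.1) true ++ false :: x.2.1 :: (List.ofFn x.2.2.1 ++ List.ofFn x.2.2.2)
  have wdi : Function.Injective wd := by
    rintro ⟨t, a, c1, c2⟩ ⟨t', a', c1', c2'⟩ e
    obtain ⟨e1, e2⟩ := rep_inj _ _ _ _ e
    obtain rfl := hcode e1
    simp only [List.cons.injEq] at e2
    obtain ⟨e3, e4⟩ := List.append_inj e2.2 (by simp)
    rw [e2.1, List.ofFn_injective e3, List.ofFn_injective e4]
  let γ : Q → G := Function.extend (pw ∘ wd) (fun x => Pi.mulSingle x.1 ((D x.1).π x.2)) 1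
  have hγ : ∀ x, γ (pw (wd x)) = Pi.mulSingle x.1 ((D x.1).π x.2) := fun x =>
    (pw_inj.comp wdi).extend_apply _ _ x
  let β : Equiv.Perm (X G) := pB (Equiv.swap 0 1)
  let β' : Equiv.Perm (X G) := pB (Equiv.swap 1 2)
  let gen : Fin 6 → Equiv.Perm (X G) := ![pF γ, pT, pA (of true), pA (of false), β, β']
  let Gs := (FreeGroup.lift gen).range
  have hgen : ∀ i, gen i ∈ Gs := fun i => ⟨of i, by simp⟩
  refine ⟨Gs, inferInstance, (FreeGroup.lift gen).rangeRestrict_surjective.countable,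
    fun φ hφ => ?_⟩
  let B : S := φ ⟨β, hgen 4⟩
  let B' : S := φ ⟨β', hgen 5⟩
  let W : Set S := {x | B * (x * B' * x⁻¹) ≠ (x * B' * x⁻¹) * B}
  have hWo : IsOpen W := isOpen_ne_fun (by fun_prop) (by fun_prop)
  have hW1 : (1 : S) ∈ W := by
    intro e
    simp only [one_mul, inv_one, mul_one, B, B', ← _root_.map_mul] at e
    exact pB_ncomm (congrArg Subtype.val (hφ e))
  have hWd : ∀ (h : G) (hm : ps h ∈ Gs), φ ⟨ps h, hm⟩ ∈ W → h = 1 := by
    intro h hm hw
    by_contra hh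
    refine hw ?_
    simp only [B, B', ← _root_.map_inv, ← _root_.map_mul]
    exact congrArg φ (Subtype.ext (pB_comm _ _ hh))
  have hc4 : Continuous fun p : S × S × S × S => p.1⁻¹ * p.2.1 * p.2.2.1⁻¹ * p.2.2.2 := by fun_prop
  have hn4 : (fun p : S × S × S × S => p.1⁻¹ * p.2.1 * p.2.2.1⁻¹ * p.2.2.2) ⁻¹' W ∈
      nhds ((1 : S), (1 : S), (1 : S), (1 : S)) :=
    (hWo.preimage hc4).mem_nhds (by simpa using hW1)
  obtain ⟨U1, h1, V1, h2, s1⟩ := mem_nhds_prod_iff.1 hn4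
  obtain ⟨U2, h3, V2, h4, s2⟩ := mem_nhds_prod_iff.1 h2
  obtain ⟨U3, h5, U4, h6, s3⟩ := mem_nhds_prod_iff.1 h4
  obtain ⟨K0, k1, k2, k3⟩ := local_compact_nhds
    (Filter.inter_mem (Filter.inter_mem h1 h3) (Filter.inter_mem h5 h6))
  obtain ⟨U, u1, u2, u3⟩ := (isBasis_countableBasis S).mem_nhds_iff.1 k1
  have hUo : IsOpen U := (isBasis_countableBasis S).isOpen u1
  have hUW : ∀ a ∈ U, ∀ b ∈ U, ∀ c ∈ U, ∀ d ∈ U, a⁻¹ * b * c⁻¹ * d ∈ W := by
    intro a ha b hb c hc d hd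
    exact s1 (a := (a, b, c, d)) ⟨(k2 (u3 ha)).1.1, s2 ⟨(k2 (u3 hb)).1.2,
      s3 ⟨(k2 (u3 hc)).2.1, (k2 (u3 hd)).2.2⟩⟩⟩
  let a : Fin 6 × Bool → S := fun i => cond i.2 (φ ⟨gen i.1, hgen i.1⟩) (φ ⟨gen i.1, hgen i.1⟩)⁻¹
  have hC : IsCompact (⋃ i, (fun x => x * a i) '' K0) :=
    isCompact_iUnion fun i => k3.image (by fun_prop)
  obtain ⟨F, hF⟩ := hC.elim_finite_subcover (fun y : Dn => {s | (y : S)⁻¹ * s ∈ U})
    (fun y => hUo.preimage (by fun_prop)) (by
      intro s _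
      obtain ⟨y, y1, y2⟩ := hDd.exists_mem_open (U := {y : S | y⁻¹ * s ∈ U})
        (hUo.preimage (by fun_prop)) ⟨s, by simpa using u2⟩
      exact Set.mem_iUnion.2 ⟨⟨y, y1⟩, y2⟩)
  let t : T := (⟨U, u1⟩, F)
  have ha : ∀ i, Mv U (Y t) (a i) := by
    intro i x hx
    have := hF (Set.mem_iUnion.2 ⟨i, x, u3 hx, rfl⟩)
    simp only [Set.mem_iUnion] at this
    obtain ⟨y, y1, y2⟩ := this
    exact ⟨y, Finset.mem_image_of_mem _ y1, by simpa [mul_assoc] using y2⟩
  let Len : ℕ → Equiv.Perm (X G) → Prop := fun k x => ∃ h : x ∈ Gs, Mv U (Y t ^ k) (φ ⟨x, h⟩)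
  have Lmul : ∀ {j k x y}, Len j x → Len k y → Len (j + k) (x * y) := by
    rintro j k x y ⟨hx, mx⟩ ⟨hy, my⟩
    refine ⟨Gs.mul_mem hx hy, ?_⟩
    have := mx.mul my
    rwa [← pow_add, ← _root_.map_mul] at this
  have L1 : ∀ i, Len 1 (gen i) := fun i => ⟨hgen i, by rw [pow_one]; exact ha (i, true)⟩
  have L2 : ∀ i, Len 1 (gen i)⁻¹ := fun i => ⟨Gs.inv_mem (hgen i), by
    rw [pow_one]
    have := ha (i, false)
    simp only [a, cond_false, ← _root_.map_inv] at this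
    exact this⟩
  have L0 : Len 0 1 := ⟨Gs.one_mem, fun x hx => ⟨1, by simp, by
    have : φ ⟨1, Gs.one_mem⟩ = 1 := _root_.map_one φ
    simpa [this] using hx⟩⟩
  have LA : ∀ l : List Bool, Len l.length (pA (pw l)) ∧ Len l.length (pA (pw l))⁻¹ := by
    intro l
    induction l with
    | nil => simpa [pw] using L0
    | cons c l ih =>
      have e : pw (c :: l) = FreeGroup.of c * pw l := by simp [pw]
      have k : Len 1 (pA (of c)) ∧ Len 1 (pA (of c))⁻¹ := by
        cases c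
        · exact ⟨L1 3, L2 3⟩
        · exact ⟨L1 2, L2 2⟩
      rw [e, _root_.map_mul, mul_inv_rev, List.length_cons]
      exact ⟨add_comm 1 l.length ▸ Lmul k.1 ih.1, Lmul ih.2 k.2⟩
  let Ψ : (D t).G →* Equiv.Perm (X G) := ps.comp (MonoidHom.mulSingle (fun t => (D t).G) t)
  have LS : ∀ s, Len (4 * (code t + 2 + 2 * b t) + 4) (Ψ ((D t).π s)) := by
    intro s
    have e : Ψ ((D t).π s) = ps (γ (pw (wd ⟨t, s⟩))) := by rw [hγ]; rfl
    have l : (wd ⟨t, s⟩).length = code t + 2 + 2 * b t := by simp [wd]; omega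
    obtain ⟨A1, A2⟩ := LA (wd ⟨t, s⟩)
    rw [l] at A1 A2
    have := Lmul (Lmul (Lmul (Lmul (Lmul A2 (L1 0)) A1) (L1 1)) (Lmul (Lmul A2 (L2 0)) A1)) (L2 1)
    rw [e, ps_eq]
    have e2 : 4 * (code t + 2 + 2 * b t) + 4 = code t + 2 + 2 * b t + 1 + (code t + 2 + 2 * b t) + 1 +
      (code t + 2 + 2 * b t + 1 + (code t + 2 + 2 * b t)) + 1 := by omega
    rw [e2]
    exact this
  have mem : ∀ u, Ψ ((D t).p u) ∈ Gs := by
    rintro ⟨k, hk⟩
    induction k with
    | zero => rw [(D t).p0 _ rfl, _root_.map_one]; exact Gs.one_mem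
    | succ k ih =>
      obtain ⟨s, hs⟩ := (D t).path ⟨k, by omega⟩ ⟨k + 1, hk⟩ rfl
      rw [hs, _root_.map_mul]
      exact Gs.mul_mem (ih _) (LS s).1
  have mv : ∀ u v s, (D t).p v = (D t).p u * (D t).π s →
      Mv U (Y t ^ (4 * (code t + 2 + 2 * b t) + 4)) ((φ ⟨_, mem u⟩)⁻¹ * φ ⟨_, mem v⟩) := by
    intro u v s hs
    obtain ⟨h, hm⟩ := LS s
    have : (φ ⟨_, mem u⟩)⁻¹ * φ ⟨_, mem v⟩ = φ ⟨_, h⟩ := by
      rw [← _root_.map_inv, ← _root_.map_mul]
      refine congrArg φ (Subtype.ext ?_)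
      simp [hs]
    rwa [this]
  refine hD t u2 ⟨fun u => φ ⟨_, mem u⟩, ?_, ?_, ?_, ?_⟩
  · intro u hu
    rw [← _root_.map_one φ]
    refine congrArg φ (Subtype.ext ?_)
    simp [(D t).p0 u hu]
  · intro u v h
    obtain ⟨s, hs⟩ := (D t).path u v h
    exact mv u v s hs
  · intro u h
    obtain ⟨s, hs⟩ := (D t).chord u h
    exact mv u _ s hs
  · intro u v a ha b hb c hc d hd e
    have w := hUW a ha b hb c hc d hd
    have hm : Ψ (((D t).p u)⁻¹ * (D t).p v) ∈ Gs := by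
      rw [_root_.map_mul, _root_.map_inv]; exact Gs.mul_mem (Gs.inv_mem (mem u)) (mem v)
    have e2 : φ ⟨_, hm⟩ = a⁻¹ * b * c⁻¹ * d := by
      rw [← e, ← _root_.map_inv, ← _root_.map_mul]
      refine congrArg φ (Subtype.ext ?_)
      simp
    rw [← e2] at w
    have h1 : (Pi.mulSingle t (((D t).p u)⁻¹ * (D t).p v) : G) = 1 := hWd _ hm w
    have h2 : ((D t).p u)⁻¹ * (D t).p v = 1 := by
      have := congrFun h1 t
      rw [Pi.mulSingle_eq_same] at this
      exact this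
    exact (D t).pinj (inv_mul_eq_one.1 h2)

end H39.GSC
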