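import Mathlib

/-! A countable homogeneous structure universal for finitely many relations of a fixed arity. -/

namespace Pool.Agent.H39.Gen1

open Set

set_option linter.unusedSectionVars false

variable {C ι : Type} [Finite C] [Fintype ι]

theorem exists_code (C ι : Type) [Finite C] [Fintype ι] :
    ∃ code : ℕ → Set (C × (ι → Option ℕ)), ∀ P : Set (C × (ι → Option ℕ)), P.Finite →
      ∀ k, ∃ b, k < b ∧ code b = P := by
  obtain ⟨c, hc⟩ := exists_surjective_nat (Finset (C × (ι → Option ℕ)))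
  refine ⟨fun m => c (Nat.unpair m).1, fun P hP k => ?_⟩
  obtain ⟨m, hm⟩ := hc hP.toFinset
  refine ⟨Nat.pair m (k + 1), (Nat.lt_succ_self k).trans_le (Nat.right_le_pair _ _), ?_⟩
  simp [hm]

noncomputable def code (C ι : Type) [Finite C] [Fintype ι] : ℕ → Set (C × (ι → Option ℕ)) :=
  (exists_code C ι).choose

theorem code_spec (P : Set (C × (ι → Option ℕ))) (hP : P.Finite) (k : ℕ) :
    ∃ b, k < b ∧ code C ι b = P := (exists_code C ι).choose_spec P hP k

/-- the generic relations -/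
def R (c : C) (y : ι → ℕ) : Prop :=
  (c, fun i => if y i = Finset.univ.sup y then none else some (y i)) ∈
    code C ι (Finset.univ.sup y)

/-- finite isomorphisms between substructures -/
def PI {A B : Type} (Q : C → (ι → A) → Prop) (Q' : C → (ι → B) → Prop) (s : Finset (A × B)) : Prop :=
  (∀ p ∈ s, ∀ q ∈ s, p.1 = q.1 ↔ p.2 = q.2) ∧
    ∀ c (t : ι → A × B), (∀ i, t i ∈ s) → (Q c (fun i => (t i).1) ↔ Q' c (fun i => (t i).2))

theorem PI.swap {A B : Type} [DecidableEq A] [DecidableEq B] {Q : C → (ι → A) → Prop}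
    {Q' : C → (ι → B) → Prop} {s : Finset (A × B)} (h : PI Q Q' s) :
    PI Q' Q (s.image Prod.swap) := by
  constructor
  · intro p hp q hq
    obtain ⟨p', hp', rfl⟩ := Finset.mem_image.1 hp
    obtain ⟨q', hq', rfl⟩ := Finset.mem_image.1 hq
    exact (h.1 p' hp' q' hq').symm
  · intro c t ht
    refine (h.2 c (fun i => (t i).swap) fun i => ?_).symm
    obtain ⟨p', hp', e⟩ := Finset.mem_image.1 (ht i)
    rw [← e]
    exact hp'

theorem forth {A : Type} (Q : C → (ι → A) → Prop) {s : Finset (A × ℕ)} (h : PI Q R s) (a : A) :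
    ∃ b s', s ⊆ s' ∧ (a, b) ∈ s' ∧ PI Q R s' := by
  classical
  by_cases ha : ∃ b, (a, b) ∈ s
  · obtain ⟨b, hb⟩ := ha
    exact ⟨b, s, subset_rfl, hb, h⟩
  let g : ℕ → A := fun m => if hm : ∃ x, (x, m) ∈ s then hm.choose else a
  have hg : ∀ p ∈ s, g p.2 = p.1 := fun p hp => by
    have hm : ∃ x, (x, p.2) ∈ s := ⟨p.1, hp⟩
    simp only [g, dif_pos hm]
    exact (h.1 _ hm.choose_spec _ hp).2 rfl
  let P : Set (C × (ι → Option ℕ)) := {z | (∀ i, z.2 i ∈ insert none ((fun p => some p.2) '' (s : Set (A × ℕ)))) ∧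
    Q z.1 (fun i => (z.2 i).elim a g)}
  have hP : P.Finite := by
    have h1 : {π : ι → Option ℕ | ∀ i, π i ∈ insert none ((fun p => some p.2) '' (s : Set (A × ℕ)))}.Finite :=
      Set.Finite.pi' fun _ => ((s.finite_toSet.image _).insert _)
    exact ((finite_univ (α := C)).prod h1).subset fun z hz => ⟨trivial, hz.1⟩
  obtain ⟨b, hb, hcode⟩ := code_spec P hP (s.sup Prod.snd)
  have hlt : ∀ p ∈ s, p.2 < b := fun p hp => (Finset.le_sup (f := Prod.snd) hp).trans_lt hb
  refine ⟨b, insert (a, b) s, Finset.subset_insert _ _, Finset.mem_insert_self _ _, ?_, ?_⟩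
  · intro p hp q hq
    rcases Finset.mem_insert.1 hp with rfl | hp <;> rcases Finset.mem_insert.1 hq with rfl | hq
    · simp
    · exact ⟨fun e => (ha ⟨q.2, by rw [show a = q.1 from e]; exact hq⟩).elim,
        fun e => ((hlt q hq).ne' e).elim⟩
    · exact ⟨fun e => (ha ⟨p.2, by rw [show a = p.1 from e.symm]; exact hp⟩).elim,
        fun e => ((hlt p hp).ne e).elim⟩
    · exact h.1 p hp q hq
  · intro c t ht
    by_cases hin : ∀ i, t i ∈ s
    · exact h.2 c t hin
    push Not at hin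
    obtain ⟨i0, hi0⟩ := hin
    have e0 : t i0 = (a, b) := (Finset.mem_insert.1 (ht i0)).resolve_right hi0
    have hM : Finset.univ.sup (fun i => (t i).2) = b := by
      apply le_antisymm
      · refine Finset.sup_le fun i _ => ?_
        rcases Finset.mem_insert.1 (ht i) with e | e
        · rw [e]
        · exact (hlt _ e).le
      · have := Finset.le_sup (f := fun i => (t i).2) (Finset.mem_univ i0)
        rwa [e0] at this
    unfold R
    rw [hM, hcode]
    have e1 : (fun i => (if (t i).2 = b then none else some (t i).2 : Option ℕ).elim a g) =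
        fun i => (t i).1 := by
      funext i
      rcases Finset.mem_insert.1 (ht i) with e | e
      · rw [e]; simp
      · rw [if_neg (hlt _ e).ne]
        exact hg _ e
    constructor
    · intro hQ
      refine ⟨fun i => ?_, ?_⟩
      · rcases Finset.mem_insert.1 (ht i) with e | e
        · left; simp [e]
        · right
          exact ⟨t i, e, (if_neg (hlt _ e).ne).symm⟩
      · rw [← e1] at hQ
        exact hQ
    · intro hz
      have := hz.2
      rw [← e1]
      exact this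

theorem back {s : Finset (ℕ × ℕ)} (h : PI (R : C → (ι → ℕ) → Prop) R s) (b : ℕ) :
    ∃ a s', s ⊆ s' ∧ (a, b) ∈ s' ∧ PI (R : C → (ι → ℕ) → Prop) R s' := by
  obtain ⟨a, s', h1, h2, h3⟩ := forth R h.swap b
  refine ⟨a, s'.image Prod.swap, fun p hp => ?_, Finset.mem_image.2 ⟨_, h2, rfl⟩, h3.swap⟩
  exact Finset.mem_image.2 ⟨p.swap, h1 (Finset.mem_image.2 ⟨p, hp, rfl⟩), Prod.swap_swap p⟩

theorem ideal {A B D : Type} [Countable D] {Q : C → (ι → A) → Prop} {Q' : C → (ι → B) → Prop}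
    (T : D → Set (A × B))
    (hT : ∀ d s, PI Q Q' s → ∃ p ∈ T d, ∃ s', s ⊆ s' ∧ p ∈ s' ∧ PI Q Q' s')
    (s₀ : Finset (A × B)) (h₀ : PI Q Q' s₀) :
    ∃ Γ : Set (A × B), (↑s₀ ⊆ Γ) ∧ (∀ d, ∃ p ∈ T d, p ∈ Γ) ∧
      (∀ p ∈ Γ, ∀ q ∈ Γ, p.1 = q.1 ↔ p.2 = q.2) ∧
      ∀ c (t : ι → A × B), (∀ i, t i ∈ Γ) → (Q c (fun i => (t i).1) ↔ Q' c (fun i => (t i).2)) := by
  classical
  let S := {s : Finset (A × B) // PI Q Q' s}
  have := Encodable.ofCountable D
  let E : D → Order.Cofinal S := fun d => ⟨{s | ∃ p ∈ T d, p ∈ s.1}, fun s => by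
    obtain ⟨p, hp, s', h1, h2, h3⟩ := hT d s.1 s.2
    exact ⟨⟨s', h3⟩, ⟨p, hp, h2⟩, h1⟩⟩
  let I := Order.idealOfCofinals (⟨s₀, h₀⟩ : S) E
  have h0I : (⟨s₀, h₀⟩ : S) ∈ I := Order.mem_idealOfCofinals _ E
  have key : ∀ u : Finset (A × B), (∀ p ∈ u, ∃ s ∈ I, p ∈ s.1) → ∃ s ∈ I, u ⊆ s.1 := by
    intro u
    induction u using Finset.induction_on with
    | empty => exact fun _ => ⟨_, h0I, Finset.empty_subset _⟩
    | insert p u _ ih =>
      intro h
      obtain ⟨s, hs, hp⟩ := h p (Finset.mem_insert_self _ _)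
      obtain ⟨t, ht, hu⟩ := ih fun q hq => h q (Finset.mem_insert_of_mem hq)
      obtain ⟨w, hw, h1, h2⟩ := I.directed s hs t ht
      exact ⟨w, hw, Finset.insert_subset (h1 hp) (hu.trans h2)⟩
  refine ⟨{p | ∃ s ∈ I, p ∈ s.1}, fun p hp => ⟨_, h0I, hp⟩, fun d => ?_, fun p hp q hq => ?_,
    fun c t ht => ?_⟩
  · obtain ⟨s, ⟨p, hp, hps⟩, hs⟩ := Order.cofinal_meets_idealOfCofinals (⟨s₀, h₀⟩ : S) E d
    exact ⟨p, hp, s, hs, hps⟩
  · obtain ⟨s, -, hs⟩ := key {p, q} (by
      intro z hz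
      rcases Finset.mem_insert.1 hz with rfl | hz
      · exact hp
      · rw [Finset.mem_singleton.1 hz]; exact hq)
    exact s.2.1 p (hs (by simp)) q (hs (by simp))
  · obtain ⟨s, -, hs⟩ := key (Finset.univ.image t) (by
      intro z hz
      obtain ⟨i, -, rfl⟩ := Finset.mem_image.1 hz
      exact ht i)
    exact s.2.2 c t fun i => hs (Finset.mem_image_of_mem _ (Finset.mem_univ i))

theorem universal [Nonempty ι] {A : Type} [Countable A] (Q : C → (ι → A) → Prop) :
    ∃ f : A → ℕ, ∀ c (x : ι → A), Q c x ↔ R c (fun i => f (x i)) := by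
  obtain ⟨Γ, -, h1, -, h3⟩ := ideal (Q := Q) (Q' := R) (fun a : A => {p | p.1 = a})
    (fun a s hs => by
      obtain ⟨b, s', h⟩ := forth Q hs a
      exact ⟨(a, b), rfl, s', h⟩) ∅
    ⟨by simp, fun c t ht => by simpa using ht (Classical.arbitrary ι)⟩
  choose F hF hF' using h1
  refine ⟨fun a => (F a).2, fun c x => ?_⟩
  have := h3 c (fun i => F (x i)) fun i => hF' _
  have e : (fun i => (F (x i)).1) = x := funext fun i => hF (x i)
  rwa [e] at this

theorem homog {s : Finset (ℕ × ℕ)} (h : PI (R : C → (ι → ℕ) → Prop) R s) :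
    ∃ σ : Equiv.Perm ℕ, (∀ p ∈ s, σ p.1 = p.2) ∧
      ∀ (c : C) (y : ι → ℕ), R c y ↔ R c (fun i => σ (y i)) := by
  obtain ⟨Γ, h0, h1, h2, h3⟩ := ideal (Q := (R : C → (ι → ℕ) → Prop)) (Q' := R)
    (fun d : ℕ ⊕ ℕ => Sum.elim (fun a => {p : ℕ × ℕ | p.1 = a}) (fun b => {p | p.2 = b}) d)
    (fun d s hs => by
      rcases d with a | b
      · obtain ⟨b, s', h⟩ := forth R hs a
        exact ⟨(a, b), rfl, s', h⟩
      · obtain ⟨a, s', h⟩ := back hs b
        exact ⟨(a, b), rfl, s', h⟩) s h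
  have hF : ∀ a, ∃ b, (a, b) ∈ Γ := fun a => by
    obtain ⟨p, hp, hp'⟩ := h1 (Sum.inl a)
    exact ⟨p.2, by rw [← show p.1 = a from hp]; exact hp'⟩
  have hG : ∀ b, ∃ a, (a, b) ∈ Γ := fun b => by
    obtain ⟨p, hp, hp'⟩ := h1 (Sum.inr b)
    exact ⟨p.1, by rw [← show p.2 = b from hp]; exact hp'⟩
  choose F hF using hF
  choose G hG using hG
  refine ⟨⟨F, G, fun a => (h2 _ (hG (F a)) _ (hF a)).2 rfl,
    fun b => (h2 _ (hF (G b)) _ (hG b)).1 rfl⟩, fun p hp => (h2 _ (hF p.1) p (h0 hp)).1 rfl,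
    fun c y => h3 c (fun i => (y i, F (y i))) fun i => hF _⟩

/-- the automorphism group -/
def Aut (C ι : Type) [Finite C] [Fintype ι] : Subgroup (Equiv.Perm ℕ) where
  carrier := {σ | ∀ (c : C) (y : ι → ℕ), R c y ↔ R c (fun i => σ (y i))}
  mul_mem' := fun {a b} ha hb c y => (hb c y).trans (ha c _)
  one_mem' := fun _ _ => Iff.rfl
  inv_mem' := fun {a} ha c y => by
    have := ha c (fun i => a⁻¹ (y i))
    simpa using this.symm

theorem oligo (k : ℕ) : Finite (MulAction.orbitRel.Quotient (Aut C ι) (Fin k → ℕ)) := by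
  classical
  let τ : (Fin k → ℕ) → (Fin k → Fin k → Prop) × (C → (ι → Fin k) → Prop) := fun u =>
    (fun i j => u i = u j, fun c j => R c (fun i => u (j i)))
  have key : ∀ u v, τ u = τ v → ∃ σ : Aut C ι, σ • u = v := by
    intro u v huv
    have h1 : ∀ i j, u i = u j ↔ v i = v j := fun i j =>
      iff_of_eq (congrFun (congrFun (congrArg Prod.fst huv) i) j)
    have h2 : ∀ (c : C) (j : ι → Fin k), R c (fun i => u (j i)) ↔ R c (fun i => v (j i)) := fun c j =>
      iff_of_eq (congrFun (congrFun (congrArg Prod.snd huv) c) j)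
    obtain ⟨σ, hσ, hσ'⟩ := homog (C := C) (ι := ι) (s := Finset.univ.image fun i => (u i, v i)) ⟨by
      intro p hp q hq
      obtain ⟨i, -, rfl⟩ := Finset.mem_image.1 hp
      obtain ⟨j, -, rfl⟩ := Finset.mem_image.1 hq
      exact h1 i j, by
      intro c t ht
      have : ∀ i, ∃ j, (u j, v j) = t i := fun i => by
        obtain ⟨j, -, hj⟩ := Finset.mem_image.1 (ht i)
        exact ⟨j, hj⟩
      choose j hj using this
      simp only [← hj]
      exact h2 c j⟩
    exact ⟨⟨σ, hσ'⟩, funext fun i => hσ _ (Finset.mem_image_of_mem _ (Finset.mem_univ i))⟩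
  refine Finite.of_surjective
    (fun r : range τ => (Quotient.mk'' r.2.choose : MulAction.orbitRel.Quotient (Aut C ι) _)) ?_
  intro q
  induction q using Quotient.inductionOn' with
  | h u =>
    refine ⟨⟨τ u, u, rfl⟩, Quotient.sound' ?_⟩
    obtain ⟨σ, hσ⟩ := key u _ (Exists.choose_spec (⟨u, rfl⟩ : τ u ∈ range τ)).symm
    exact MulAction.orbitRel_apply.2 ⟨σ, hσ⟩

end Pool.Agent.H39.Gen1
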