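import Mathlib

/-! A generic colouring of all finite subsets of `ℕ`, with twisted back-and-forth. -/

namespace Pool.Agent.H39.Gen2

open Set

theorem exists_code : ∃ code : ℕ → Finset (Finset ℕ), ∀ P k, ∃ b, k < b ∧ code b = P := by
  obtain ⟨c, hc⟩ := exists_surjective_nat (Finset (Finset ℕ))
  refine ⟨fun m => c (Nat.unpair m).1, fun P k => ?_⟩
  obtain ⟨m, hm⟩ := hc P
  exact ⟨Nat.pair m (k + 1), (Nat.lt_succ_self k).trans_le (Nat.right_le_pair _ _), by simp [hm]⟩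

/-- the generic colouring -/
def c (s : Finset ℕ) : Prop := s.erase (s.sup id) ∈ exists_code.choose (s.sup id)

def PI (ε : ℕ → Prop) (s : Finset (ℕ × ℕ)) : Prop :=
  (∀ p ∈ s, ∀ q ∈ s, p.1 = q.1 ↔ p.2 = q.2) ∧
    ∀ t ⊆ s, (c (t.image Prod.fst) ↔ (c (t.image Prod.snd) ↔ ε t.card))

variable {ε : ℕ → Prop} {s : Finset (ℕ × ℕ)}

theorem PI.swap (h : PI ε s) : PI ε (s.image Prod.swap) := by
  constructor
  · intro p hp q hq
    obtain ⟨p', hp', rfl⟩ := Finset.mem_image.1 hp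
    obtain ⟨q', hq', rfl⟩ := Finset.mem_image.1 hq
    exact (h.1 p' hp' q' hq').symm
  · intro t ht
    obtain ⟨u, hu, rfl⟩ := Finset.subset_image_iff.1 ht
    have := h.2 u hu
    rw [Finset.image_image, Finset.image_image, Finset.card_image_of_injective _ Prod.swap_injective]
    change c (u.image Prod.snd) ↔ (c (u.image Prod.fst) ↔ _)
    tauto

theorem forth (h : PI ε s) (a : ℕ) : ∃ b s', s ⊆ s' ∧ (a, b) ∈ s' ∧ PI ε s' := by
  classical
  by_cases ha : ∃ b, (a, b) ∈ s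
  · obtain ⟨b, hb⟩ := ha
    exact ⟨b, s, subset_rfl, hb, h⟩
  obtain ⟨b, hb, hcode⟩ := exists_code.choose_spec ((s.powerset.filter fun t =>
    (c (insert a (t.image Prod.fst)) ↔ ε (t.card + 1))).image fun t => t.image Prod.snd)
    (s.sup Prod.snd)
  have hlt : ∀ p ∈ s, p.2 < b := fun p hp => (Finset.le_sup (f := Prod.snd) hp).trans_lt hb
  refine ⟨b, insert (a, b) s, Finset.subset_insert _ _, Finset.mem_insert_self _ _, ?_, ?_⟩
  · intro p hp q hq
    rcases Finset.mem_insert.1 hp with rfl | hp <;> rcases Finset.mem_insert.1 hq with rfl | hq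
    · simp
    · exact ⟨fun e => (ha ⟨q.2, by rw [show a = q.1 from e]; exact hq⟩).elim,
        fun e => ((hlt q hq).ne' e).elim⟩
    · exact ⟨fun e => (ha ⟨p.2, by rw [show a = p.1 from e.symm]; exact hp⟩).elim,
        fun e => ((hlt p hp).ne e).elim⟩
    · exact h.1 p hp q hq
  · intro t ht
    by_cases hin : (a, b) ∈ t
    swap
    · exact h.2 t ((Finset.subset_insert_iff_of_notMem hin).1 ht)
    obtain ⟨u, hu, rfl⟩ : ∃ u, (a, b) ∉ u ∧ t = insert (a, b) u :=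
      ⟨t.erase (a, b), Finset.notMem_erase _ _, (Finset.insert_erase hin).symm⟩
    have h1 : u ⊆ s := (Finset.subset_insert_iff_of_notMem hu).1 ((Finset.subset_insert _ _).trans ht)
    have h2 : b ∉ u.image Prod.snd := fun hb => by
      obtain ⟨p, hp, e⟩ := Finset.mem_image.1 hb
      exact (hlt p (h1 hp)).ne e
    have h3 : (insert b (u.image Prod.snd)).sup id = b := by
      rw [Finset.sup_insert, id, sup_eq_left, Finset.sup_image]
      exact Finset.sup_le fun p hp => (hlt p (h1 hp)).le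
    have h4 : c (insert b (u.image Prod.snd)) ↔
        (c (insert a (u.image Prod.fst)) ↔ ε (u.card + 1)) := by
      rw [c, h3, Finset.erase_insert h2, hcode, Finset.mem_image]
      refine ⟨fun ⟨v, hv, e⟩ => ?_, fun h5 => ⟨u, Finset.mem_filter.2 ⟨Finset.mem_powerset.2 h1, h5⟩, rfl⟩⟩
      obtain ⟨h5, h6⟩ := Finset.mem_filter.1 hv
      have h7 : InjOn Prod.snd (s : Set (ℕ × ℕ)) := fun p hp q hq e =>
        Prod.ext ((h.1 p hp q hq).2 e) e
      rwa [← (Finset.image_eq_image_iff_of_injOn h7 (Finset.mem_powerset.1 h5) h1).1 e]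
    rw [Finset.image_insert, Finset.image_insert, Finset.card_insert_of_notMem hu, h4]
    tauto

theorem back (h : PI ε s) (b : ℕ) : ∃ a s', s ⊆ s' ∧ (a, b) ∈ s' ∧ PI ε s' := by
  obtain ⟨a, s', h1, h2, h3⟩ := forth h.swap b
  refine ⟨a, s'.image Prod.swap, fun p hp => ?_, Finset.mem_image.2 ⟨_, h2, rfl⟩, h3.swap⟩
  exact Finset.mem_image.2 ⟨p.swap, h1 (Finset.mem_image.2 ⟨p, hp, rfl⟩), Prod.swap_swap p⟩

theorem homog (h₀ : PI ε s) : ∃ σ : Equiv.Perm ℕ, (∀ p ∈ s, σ p.1 = p.2) ∧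
    ∀ t : Finset ℕ, (c t ↔ (c (t.image σ) ↔ ε t.card)) := by
  classical
  let S := {s : Finset (ℕ × ℕ) // PI ε s}
  let E : ℕ ⊕ ℕ → Order.Cofinal S := fun d =>
    ⟨{s | ∃ p ∈ s.1, d = .inl p.1 ∨ d = .inr p.2}, fun s => by
      rcases d with a | b
      · obtain ⟨b, s', h1, h2, h3⟩ := forth s.2 a
        exact ⟨⟨s', h3⟩, ⟨_, h2, .inl rfl⟩, h1⟩
      · obtain ⟨a, s', h1, h2, h3⟩ := back s.2 b
        exact ⟨⟨s', h3⟩, ⟨_, h2, .inr rfl⟩, h1⟩⟩
  let I := Order.idealOfCofinals (⟨s, h₀⟩ : S) E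
  have h0I : (⟨s, h₀⟩ : S) ∈ I := Order.mem_idealOfCofinals _ E
  have key : ∀ u : Finset (ℕ × ℕ), (∀ p ∈ u, ∃ s ∈ I, p ∈ s.1) → ∃ s ∈ I, u ⊆ s.1 := by
    intro u
    induction u using Finset.induction_on with
    | empty => exact fun _ => ⟨_, h0I, Finset.empty_subset _⟩
    | insert p u _ ih =>
      intro h
      obtain ⟨s, hs, hp⟩ := h p (Finset.mem_insert_self _ _)
      obtain ⟨t, ht, hu⟩ := ih fun q hq => h q (Finset.mem_insert_of_mem hq)
      obtain ⟨w, hw, h1, h2⟩ := I.directed s hs t ht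
      exact ⟨w, hw, Finset.insert_subset (h1 hp) (hu.trans h2)⟩
  have h2 : ∀ p q : ℕ × ℕ, (∃ s ∈ I, p ∈ s.1) → (∃ s ∈ I, q ∈ s.1) → (p.1 = q.1 ↔ p.2 = q.2) :=
    fun p q hp hq => by
      obtain ⟨s, -, hs⟩ := key {p, q} (by simpa using ⟨by simpa using hp, by simpa using hq⟩)
      exact s.2.1 p (hs (by simp)) q (hs (by simp))
  have hF : ∀ a, ∃ b, ∃ s ∈ I, (a, b) ∈ s.1 := fun a => by
    obtain ⟨s, ⟨p, hp, e⟩, hs⟩ := Order.cofinal_meets_idealOfCofinals (⟨s, h₀⟩ : S) E (.inl a)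
    obtain rfl : a = p.1 := by simpa using e
    exact ⟨p.2, s, hs, hp⟩
  have hG : ∀ b, ∃ a, ∃ s ∈ I, (a, b) ∈ s.1 := fun b => by
    obtain ⟨s, ⟨p, hp, e⟩, hs⟩ := Order.cofinal_meets_idealOfCofinals (⟨s, h₀⟩ : S) E (.inr b)
    obtain rfl : b = p.2 := by simpa using e
    exact ⟨p.1, s, hs, hp⟩
  choose F hF using hF
  choose G hG using hG
  refine ⟨⟨F, G, fun a => (h2 _ _ (hG (F a)) (hF a)).2 rfl, fun b => (h2 _ _ (hF (G b)) (hG b)).1 rfl⟩,
    fun p hp => (h2 _ p (hF p.1) ⟨_, h0I, hp⟩).1 rfl, fun t => ?_⟩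
  obtain ⟨s, -, hs⟩ := key (t.image fun a => (a, F a)) fun z hz => by
    obtain ⟨i, -, rfl⟩ := Finset.mem_image.1 hz
    exact hF i
  have := s.2.2 _ hs
  rwa [Finset.image_image, Finset.image_image, Finset.card_image_of_injective _
    fun a b e => congrArg Prod.fst e, show Prod.fst ∘ (fun a => (a, F a)) = id from rfl,
    Finset.image_id] at this

end Pool.Agent.H39.Gen2
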