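import Mathlib

set_option autoImplicit false

namespace Pool.Agent.H39.HaarSplit

open Set Filter Topology MeasureTheory

variable {G : Type} [TopologicalSpace G] [AddCommGroup G] [IsTopologicalAddGroup G]
  [PolishSpace G]

theorem exists_marker [MeasurableSpace G] [BorelSpace G] {ι : Type} [Finite ι] [Nonempty ι]
    (a : ι → G) : ∃ V : Set G, MeasurableSet V ∧
      (∀ v ∈ V, ∀ w ∈ V, ∀ i j, v - w = a i - a j → v = w) ∧ ∀ g, ∃ i j, g + (a i - a j) ∈ V := by
  have h1 : {x : G | ∀ i j, x = a i - a j → x = 0} ∈ 𝓝 (0 : G) := by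
    simp only [ofPred_forall]
    refine iInter_mem.2 fun i => iInter_mem.2 fun j => ?_
    by_cases h : a i - a j = 0
    · exact univ_mem' fun x => by simp [h]
    · filter_upwards [isOpen_compl_singleton.mem_nhds (Ne.symm h)] with x hx
      exact fun h => absurd h hx
  have h2 : ∀ g : G, ∃ U ∈ 𝓝 g, ∀ x ∈ U, ∀ y ∈ U, ∀ i j, x - y = a i - a j → x - y = 0 := by
    intro g
    have h3 : (fun p : G × G => p.1 - p.2) ⁻¹' {x : G | ∀ i j, x = a i - a j → x = 0} ∈
        𝓝 (g, g) := (continuous_sub.tendsto' (g, g) 0 (sub_self g)) h1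
    obtain ⟨U, h4, U', h5, h6⟩ := mem_nhds_prod_iff.1 h3
    exact ⟨U ∩ U', inter_mem h4 h5, fun x hx y hy => h6 (mk_mem_prod hx.1 hy.2)⟩
  choose U hU1 hU2 using h2
  obtain ⟨s, h3, h4⟩ := TopologicalSpace.countable_cover_nhds
    fun g => interior_mem_nhds.2 (hU1 g)
  obtain ⟨c, rfl⟩ := h3.exists_eq_range (by
    obtain ⟨x, hx, -⟩ := mem_iUnion₂.1 (h4 ▸ mem_univ (0 : G))
    exact ⟨x, hx⟩)
  let V : ℕ → Set G := fun n => n.rec ∅ fun n V =>
    V ∪ (interior (U (c n)) \ ⋃ i, ⋃ j, (fun x => x + (a i - a j)) ⁻¹' V)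
  have hV : ∀ n, V (n + 1) =
    V n ∪ (interior (U (c n)) \ ⋃ i, ⋃ j, (fun x => x + (a i - a j)) ⁻¹' V n) := fun _ => rfl
  have hm : Monotone V := monotone_nat_of_le_succ fun n => subset_union_left
  refine ⟨⋃ n, V n, MeasurableSet.iUnion fun n => ?_, ?_, fun g => ?_⟩
  · induction n with
    | zero => exact MeasurableSet.empty
    | succ n ih =>
      exact ih.union (isOpen_interior.measurableSet.diff (MeasurableSet.iUnion fun i =>
        MeasurableSet.iUnion fun j => (measurable_add_const _) ih))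
  · have h5 : ∀ n, ∀ v ∈ V n, ∀ w ∈ V n, ∀ i j, v - w = a i - a j → v = w := by
      intro n
      induction n with
      | zero => intro v hv; exact hv.elim
      | succ n ih =>
        rintro v (hv | hv) w (hw | hw) i j h
        · exact ih v hv w hw i j h
        · exact (hw.2 (mem_iUnion₂.2 ⟨i, j, by simpa [← h] using hv⟩)).elim
        · refine (hv.2 (mem_iUnion₂.2 ⟨j, i, ?_⟩)).elim
          rw [mem_preimage, ← neg_sub, ← h]
          simpa using hw
        · exact sub_eq_zero.1 (hU2 _ v (interior_subset hv.1) w (interior_subset hw.1) i j h)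
    intro v hv w hw
    obtain ⟨n, hn⟩ := mem_iUnion.1 hv
    obtain ⟨m, hm'⟩ := mem_iUnion.1 hw
    exact h5 (max n m) v (hm (le_max_left _ _) hn) w (hm (le_max_right _ _) hm')
  · obtain ⟨_, ⟨n, rfl⟩, hn⟩ := mem_iUnion₂.1 (h4 ▸ mem_univ g)
    by_cases h : g ∈ ⋃ i, ⋃ j, (fun x => x + (a i - a j)) ⁻¹' V n
    · obtain ⟨i, j, h⟩ := mem_iUnion₂.1 h
      exact ⟨i, j, mem_iUnion.2 ⟨n, h⟩⟩
    · obtain ⟨i⟩ := ‹Nonempty ι›
      exact ⟨i, i, mem_iUnion.2 ⟨n + 1, Or.inr ⟨by simpa using hn, by simpa using h⟩⟩⟩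

theorem exists_small [Uncountable G] {W : Set G} (hW : W ∈ 𝓝 (0 : G)) (ι : Type) [Finite ι] :
    ∃ a : ι → G, Function.Injective a ∧ ∀ i j, a i - a j ∈ W := by
  have h3 : (fun p : G × G => p.1 - p.2) ⁻¹' W ∈ 𝓝 ((0 : G), (0 : G)) :=
    (continuous_sub.tendsto' (0, 0) 0 (sub_self 0)) hW
  obtain ⟨U, h4, U', h5, h6⟩ := mem_nhds_prod_iff.1 h3
  have h7 : (U ∩ U').Infinite := by
    intro h
    have h8 : DiscreteTopology G := by
      rw [discreteTopology_iff_isOpen_singleton_zero]
      exact isOpen_singleton_of_finite_mem_nhds 0 (inter_mem h4 h5) h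
    exact not_countable (α := G) (TopologicalSpace.separableSpace_iff_countable.1 inferInstance)
  obtain ⟨e, he⟩ := exists_injective_nat ι
  exact ⟨fun i => h7.natEmbedding _ (e i),
    Subtype.val_injective.comp ((h7.natEmbedding _).injective.comp he),
    fun i j => h6 (mk_mem_prod (h7.natEmbedding _ (e i)).2.1 (h7.natEmbedding _ (e j)).2.2)⟩

/-- The parameter space. -/
abbrev K : Type := ∀ n : ℕ, ZMod (2 ^ n) × ZMod (2 ^ n)

theorem exists_f [Uncountable G] : ∃ (a : ∀ n : ℕ, ZMod (2 ^ n) → G) (f : K → G),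
    (∀ n, Function.Injective (a n)) ∧ Continuous f ∧
    ∀ x n y, f (Function.update x n y) =
      f x - (a n (x n).1 - a n (x n).2) + (a n y.1 - a n y.2) := by
  let := TopologicalSpace.upgradeIsCompletelyMetrizable G
  have h1 : ∀ (n : ℕ) (S : {S : Set G // S.Finite}), ∃ a : ZMod (2 ^ n) → G,
      Function.Injective a ∧ ∀ i j, ∀ s ∈ S.1, dist s (s + (a i - a j)) ≤ (1 / 2) ^ n := by
    intro n S
    refine exists_small (W := {x | ∀ s ∈ S.1, dist s (s + x) ≤ (1 / 2) ^ n}) ?_ _
    simp only [ofPred_forall]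
    refine (biInter_mem S.2).2 fun s _ => ?_
    have : Continuous fun x : G => dist s (s + x) := by fun_prop
    exact this.continuousAt.eventually (Iic_mem_nhds (by simp))
  choose c hc1 hc2 using h1
  let S : ℕ → {S : Set G // S.Finite} := fun n => n.rec ⟨{0}, finite_singleton 0⟩ fun n S =>
    ⟨(fun p : G × ZMod (2 ^ n) × ZMod (2 ^ n) => p.1 + (c n S p.2.1 - c n S p.2.2)) ''
      (S.1 ×ˢ univ), (S.2.prod finite_univ).image _⟩
  let p : ℕ → K → G := fun N x => ∑ n ∈ Finset.range N, (c n (S n) (x n).1 - c n (S n) (x n).2)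
  have hp : ∀ N x, p N x ∈ (S N).1 := by
    intro N x
    induction N with
    | zero => rfl
    | succ N ih => exact ⟨(p N x, x N), ⟨ih, trivial⟩, (Finset.sum_range_succ _ _).symm⟩
  have hd : ∀ x N, dist (p N x) (p (N + 1) x) ≤ 1 * (1 / 2) ^ N := fun x N => by
    rw [one_mul]
    simpa only [p, Finset.sum_range_succ] using hc2 N (S N) _ _ _ (hp N x)
  choose f hf using fun x => cauchySeq_tendsto_of_complete
    (cauchySeq_of_le_geometric (1 / 2) 1 (by norm_num) (hd x))
  refine ⟨fun n => c n (S n), f, fun n => hc1 _ _, ?_, fun x n y => ?_⟩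
  · have h2 : TendstoUniformly p f atTop := by
      rw [Metric.tendstoUniformly_iff]
      intro ε hε
      have h3 : Tendsto (fun N : ℕ => 1 * (1 / 2 : ℝ) ^ N / (1 - 1 / 2)) atTop (𝓝 0) := by
        simpa using ((tendsto_pow_atTop_nhds_zero_of_lt_one (r := (1 / 2 : ℝ)) (by norm_num)
          (by norm_num)).const_mul 1).div_const (1 - 1 / 2)
      filter_upwards [h3.eventually (Iio_mem_nhds hε)] with N hN x
      rw [dist_comm]
      exact (dist_le_of_le_geometric_of_tendsto (1 / 2) 1 (by norm_num) (hd x) (hf x) N).trans_lt hN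
    refine h2.continuous (Eventually.of_forall fun N => ?_).frequently
    exact continuous_finsetSum _ fun n _ => (continuous_of_discreteTopology
      (f := fun y : ZMod (2 ^ n) × ZMod (2 ^ n) => c n (S n) y.1 - c n (S n) y.2)).comp
        (continuous_apply n)
  · refine tendsto_nhds_unique (hf _) ((((hf x).sub_const _).add_const _).congr' ?_)
    filter_upwards [eventually_gt_atTop n] with N hN
    simp only [p]
    have h2 : ∑ k ∈ (Finset.range N).erase n, (c k (S k) (Function.update x n y k).1 -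
        c k (S k) (Function.update x n y k).2) =
        ∑ k ∈ (Finset.range N).erase n, (c k (S k) (x k).1 - c k (S k) (x k).2) :=
      Finset.sum_congr rfl fun k hk => by rw [Function.update_of_ne (Finset.ne_of_mem_erase hk)]
    rw [← Finset.add_sum_erase _ _ (Finset.mem_range.2 hN),
      ← Finset.add_sum_erase _ _ (Finset.mem_range.2 hN), Function.update_self, h2]
    abel

theorem add_single (x : K) (n : ℕ) (t : ZMod (2 ^ n) × ZMod (2 ^ n)) :
    x + Pi.single n t = Function.update x n (x n + t) := by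
  funext k
  by_cases h : k = n
  · subst h; simp
  · simp [h]

theorem main [MeasurableSpace G] [BorelSpace G] [Uncountable G] :
    ∃ (B : Set G) (f : K → G) (μ : Measure G), MeasurableSet B ∧ Continuous f ∧
      IsProbabilityMeasure μ ∧ (∀ g, IsMeagre (f ⁻¹' ((fun x => x + g) ⁻¹' Bᶜ))) ∧
      ∀ g, μ ((fun x => x + g) ⁻¹' B) = 0 := by
  obtain ⟨a, f, h1, h2, h3⟩ := exists_f (G := G)
  choose V h4 h5 h6 using fun n => exists_marker (a n)
  borelize K
  let ν : Measure K := Measure.addHaarMeasure ⊤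
  have : IsProbabilityMeasure ν := ⟨Measure.addHaarMeasure_self (K₀ := ⊤)⟩
  have hB : MeasurableSet (limsup V atTop) := MeasurableSet.measurableSet_limsup h4
  have hA : ∀ g n, MeasurableSet {x | f x + g ∈ V n} := fun g n =>
    (h2.add continuous_const).measurable (h4 n)
  refine ⟨limsup V atTop, f, ν.map f, hB, h2, Measure.isProbabilityMeasure_map
    h2.measurable.aemeasurable, fun g => ?_, fun g => ?_⟩
  · have h7 : f ⁻¹' ((fun x => x + g) ⁻¹' (limsup V atTop)ᶜ) =
        ⋃ N, ⋂ n, ⋂ (_ : N ≤ n), {x | f x + g ∈ V n}ᶜ := by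
      ext x
      simp [mem_limsup_iff_frequently_mem]
    rw [h7]
    refine isMeagre_iUnion fun N => ?_
    obtain ⟨U, hU, h8⟩ := (MeasurableSet.iInter fun n => MeasurableSet.iInter fun (_ : N ≤ n) =>
      (hA g n).compl).baireMeasurableSet.residualEq_isOpen
    rcases U.eq_empty_or_nonempty with rfl | ⟨x0, hx0⟩
    · filter_upwards [h8] with x hx h
      exact (iff_of_eq hx).1 h
    obtain ⟨I, u, h9, h10⟩ := isOpen_pi_iff.1 hU x0 hx0
    obtain ⟨n, h11, h12⟩ := (I.finite_toSet.infinite_compl).exists_gt N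
    have h13 : ∀ᶠ x in residual K, ∀ t, x + Pi.single n t ∈ U →
        f (x + Pi.single n t) + g ∉ V n := by
      refine eventually_all.2 fun t => ?_
      have h14 := tendsto_residual_of_isOpenMap (continuous_add_const (Pi.single n t : K))
        (isOpenMap_add_right _)
      filter_upwards [h14.eventually h8] with x hx h
      exact mem_iInter₂.1 ((iff_of_eq hx).2 h) n h12.le
    obtain ⟨x, h14, h15⟩ := (dense_of_mem_residual h13).inter_open_nonempty _
      (isOpen_set_pi I.finite_toSet fun k hk => (h9 k hk).1) ⟨x0, fun k hk => (h9 k hk).2⟩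
    obtain ⟨i, j, h16⟩ := h6 n (f x - (a n (x n).1 - a n (x n).2) + g)
    refine (h15 ((i, j) - x n) (h10 fun k hk => ?_) ?_).elim
    · rw [add_single, Function.update_of_ne (by rintro rfl; exact h11 hk)]
      exact h14 k hk
    · rw [add_single, h3, add_sub_cancel, add_right_comm]
      exact h16
  · rw [Measure.map_apply h2.measurable (measurable_add_const g hB)]
    have h7 : f ⁻¹' ((fun x => x + g) ⁻¹' limsup V atTop) =
        limsup (fun n => {x | f x + g ∈ V n}) atTop := by
      ext x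
      simp [mem_limsup_iff_frequently_mem]
    rw [h7]
    refine measure_limsup_atTop_eq_zero (ne_top_of_le_ne_top (b := ∑' n : ℕ, 2⁻¹ ^ n)
      (by simp [ENNReal.tsum_geometric]) (ENNReal.tsum_le_tsum fun n => ?_))
    have h8 := measure_iUnion (μ := ν) (f := fun t : ZMod (2 ^ n) =>
      (fun x : K => x + Pi.single n (t, 0)) ⁻¹' {x | f x + g ∈ V n}) (by
        intro t t' h
        refine disjoint_left.2 fun x hx hx' => h ?_
        simp only [mem_preimage, mem_ofPred_eq, add_single, h3] at hx hx'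
        have h9 := h5 n _ hx _ hx' ((x n).1 + t) ((x n).1 + t') (by simp)
        simpa [(h1 n).eq_iff] using h9) fun t => measurable_add_const _ (hA g n)
    simp only [measure_preimage_add_right, tsum_fintype, Finset.sum_const, Finset.card_univ,
      ZMod.card, nsmul_eq_mul] at h8
    rw [← ENNReal.inv_pow, ENNReal.le_inv_iff_mul_le, mul_comm]
    have h9 := h8 ▸ prob_le_one (μ := ν)
    simpa using h9

end Pool.Agent.H39.HaarSplit
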