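import Mathlib

/-! Finitely supported rational sequences in lexicographic order: cuts of uncountable type. -/

namespace Pool.Agent.H39.Hahn1

open Set

set_option linter.unusedSectionVars false

abbrev H (I : Type) : Type := Lex (I →₀ ℚ)

section basic
variable {I : Type} [LinearOrder I]

/-- coefficient -/
def co (x : H I) (i : I) : ℚ := ofLex x i

/-- monomial -/
noncomputable def mo (i : I) (r : ℚ) : H I := toLex (Finsupp.single i r)

@[simp] theorem co_add (x y : H I) (i : I) : co (x + y) i = co x i + co y i := rfl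
@[simp] theorem co_sub (x y : H I) (i : I) : co (x - y) i = co x i - co y i := rfl
@[simp] theorem co_neg (x : H I) (i : I) : co (-x) i = - co x i := rfl
@[simp] theorem co_zero (i : I) : co (0 : H I) i = 0 := rfl
@[simp] theorem co_mo_self (i : I) (r : ℚ) : co (mo i r) i = r := by simp [co, mo]
theorem co_mo_ne {i j : I} (h : j ≠ i) (r : ℚ) : co (mo i r) j = 0 := by
  simp [co, mo, Finsupp.single_eq_of_ne h]
theorem co_mo_lt {i j : I} (h : j < i) (r : ℚ) : co (mo i r) j = 0 := co_mo_ne h.ne r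
theorem co_mo_gt {i j : I} (h : i < j) (r : ℚ) : co (mo i r) j = 0 := co_mo_ne h.ne' r

theorem lt_iff {x y : H I} : x < y ↔ ∃ i, (∀ j, j < i → co x j = co y j) ∧ co x i < co y i :=
  Finsupp.Lex.lt_iff

theorem lt_of {x y : H I} (i : I) (h : ∀ j, j < i → co x j = co y j) (h' : co x i < co y i) :
    x < y := lt_iff.2 ⟨i, h, h'⟩

theorem co_le_of_le {x y : H I} (hxy : x ≤ y) {i : I} (h : ∀ j, j < i → co x j = co y j) :
    co x i ≤ co y i := by
  by_contra hc
  push Not at hc
  exact absurd (lt_of i (fun j hj => (h j hj).symm) hc) (not_lt.2 hxy)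

/-- vanishing below `g` -/
def Van (x : H I) (g : I) : Prop := ∀ j, j < g → co x j = 0

/-- convexity -/
theorem Van.of_le {x y : H I} {g : I} (hy : Van y g) (h0 : 0 ≤ x) (hxy : x ≤ y) : Van x g := by
  rcases h0.eq_or_lt with h | h
  · subst h; intro j _; rfl
  obtain ⟨i, hi, hi'⟩ := lt_iff.1 h
  have : g ≤ i := by
    by_contra hc
    push Not at hc
    have h1 := co_le_of_le hxy (i := i) (fun j hj => by
      rw [← hi j hj, hy j (hj.trans hc)]; rfl)
    rw [hy i hc] at h1
    simp at hi'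
    linarith
  intro j hj
  rw [← hi j (hj.trans_le this)]; rfl

/-- leading index of a positive element -/
theorem exists_lead {x : H I} (h : 0 < x) : ∃ g, Van x g ∧ 0 < co x g := by
  obtain ⟨i, hi, hi'⟩ := lt_iff.1 h
  exact ⟨i, fun j hj => (hi j hj).symm, hi'⟩

theorem lead_anti {x y : H I} {g k : I} (hy : Van y k) (h0 : 0 ≤ x) (hxy : x ≤ y)
    (hx : co x g ≠ 0) : k ≤ g := by
  by_contra hc
  push Not at hc
  exact hx (hy.of_le h0 hxy g hc)

theorem mo_pos (i : I) {r : ℚ} (hr : 0 < r) : (0 : H I) < mo i r :=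
  lt_of i (fun j hj => by rw [co_mo_lt hj]; rfl) (by simpa using hr)

theorem van_mo (i : I) (r : ℚ) : Van (mo i r) i := fun _ hj => co_mo_lt hj r

theorem mo_ne (i : I) {r s : ℚ} (h : r ≠ s) : (mo i r : H I) ≠ mo i s := by
  intro e
  have := congrArg (fun x => co x i) e
  simp at this
  exact h this

end basic

section seqs
variable {W : Type} [LinearOrder W]

/-- every countable family is bounded -/
def Unc (W : Type) [LinearOrder W] : Prop := Nonempty W ∧ ∀ s : ℕ → W, ∃ b, ∀ n, s n ≤ b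

theorem Unc.const (hW : Unc W) {α : Type} [LinearOrder α] [Countable α] {f : W → α}
    (hf : Monotone f) : ∃ i0, ∀ i, i0 ≤ i → f i = f i0 := by
  obtain ⟨⟨w⟩, hb⟩ := hW
  have hc : (range f).Countable := to_countable _
  obtain ⟨e, he⟩ := hc.exists_eq_range ⟨f w, w, rfl⟩
  have : ∀ n, ∃ i, f i = e n := fun n => by
    have : e n ∈ range f := he ▸ ⟨n, rfl⟩
    exact this
  choose s hs using this
  obtain ⟨b, hb⟩ := hb s
  refine ⟨b, fun i hi => le_antisymm ?_ (hf hi)⟩
  have : f i ∈ range e := he ▸ ⟨i, rfl⟩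
  obtain ⟨n, hn⟩ := this
  rw [← hn, ← hs n]
  exact hf (hb n)

theorem Unc.const' (hW : Unc W) {f : W → ℚ}
    (hf : Antitone f) : ∃ i0, ∀ i, i0 ≤ i → f i = f i0 := by
  obtain ⟨i0, h⟩ := hW.const (f := fun i => - f i) (fun a b hab => neg_le_neg (hf hab))
  exact ⟨i0, fun i hi => neg_injective (h i hi)⟩

variable {T : Type} [LinearOrder T]

def Up (x : W → T) : Prop := Monotone x ∧ ∀ i, ∃ j, x i < x j
def Dn (y : W → T) : Prop := Antitone y ∧ ∀ i, ∃ j, y j < y i

/-- a pair of sequences with at most one point between -/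
def Gap1 (W T : Type) [LinearOrder W] [LinearOrder T] : Prop :=
  ∃ x y : W → T, Up x ∧ Dn y ∧ (∀ i j, x i < y j) ∧
    ∀ u v, (∀ i, x i < u ∧ u < y i) → (∀ i, x i < v ∧ v < y i) → u = v

/-- a pair of sequences with no point between -/
def Gap0 (W T : Type) [LinearOrder W] [LinearOrder T] : Prop :=
  ∃ x y : W → T, Up x ∧ Dn y ∧ (∀ i j, x i < y j) ∧ ∀ u, ¬ (∀ i, x i < u ∧ u < y i)

def Top (W T : Type) [LinearOrder W] [LinearOrder T] : Prop :=
  ∃ x : W → T, Up x ∧ ∀ u, ∃ i, u ≤ x i

def Bot (W T : Type) [LinearOrder W] [LinearOrder T] : Prop :=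
  ∃ y : W → T, Dn y ∧ ∀ u, ∃ i, y i ≤ u

theorem Gap0.gap1 (h : Gap0 W T) : Gap1 W T := by
  obtain ⟨x, y, hx, hy, hxy, h⟩ := h
  exact ⟨x, y, hx, hy, hxy, fun u _ hu _ => (h u hu).elim⟩

theorem Up.tail {x : W → T} (h : Up x) (i0 : W) : Up (fun i => x (max i i0)) := by
  refine ⟨fun a b hab => h.1 (max_le_max hab le_rfl), fun i => ?_⟩
  obtain ⟨j, hj⟩ := h.2 (max i i0)
  exact ⟨j, hj.trans_le (h.1 (le_max_left _ _))⟩

theorem Dn.tail {x : W → T} (h : Dn x) (i0 : W) : Dn (fun i => x (max i i0)) := by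
  refine ⟨fun a b hab => h.1 (max_le_max hab le_rfl), fun i => ?_⟩
  obtain ⟨j, hj⟩ := h.2 (max i i0)
  exact ⟨j, (h.1 (le_max_left _ _)).trans_lt hj⟩

variable {I : Type} [LinearOrder I]

theorem Gap0.up (hW : Nonempty W) (h : Gap0 W I) : Gap0 W (H I) := by
  obtain ⟨x, y, hx, hy, hxy, h⟩ := h
  have key : ∀ a b : I, a < b → (mo b 1 : H I) < mo a 1 := fun a b hab =>
    lt_of a (fun j hj => by rw [co_mo_lt hj, co_mo_lt (hj.trans hab)])
      (by rw [co_mo_lt hab]; simp)
  have key' : ∀ a b : I, a ≤ b → (mo b 1 : H I) ≤ mo a 1 := fun a b hab => by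
    rcases hab.eq_or_lt with e | e
    · rw [e]
    · exact (key a b e).le
  refine ⟨fun i => mo (y i) 1, fun i => mo (x i) 1, ⟨fun a b hab => key' _ _ (hy.1 hab), fun i => ?_⟩,
    ⟨fun a b hab => key' _ _ (hx.1 hab), fun i => ?_⟩, fun i j => key _ _ (hxy j i), fun u hu => ?_⟩
  · obtain ⟨j, hj⟩ := hy.2 i
    exact ⟨j, key _ _ hj⟩
  · obtain ⟨j, hj⟩ := hx.2 i
    exact ⟨j, key _ _ hj⟩
  · obtain ⟨w⟩ := hW
    have hpos : 0 < u := (mo_pos _ one_pos).trans (hu w).1
    obtain ⟨g, hg, hg'⟩ := exists_lead hpos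
    refine h g fun i => ⟨?_, ?_⟩
    · obtain ⟨j, hj⟩ := hx.2 i
      exact hj.trans_le (lead_anti (van_mo _ _) hpos.le (hu j).2.le hg'.ne')
    · obtain ⟨j, hj⟩ := hy.2 i
      refine lt_of_le_of_lt ?_ hj
      exact lead_anti hg (mo_pos _ one_pos).le (hu j).1.le (by simp)

theorem Top.bot (hW : Unc W) (h : Top W (H I)) : Bot W I := by
  obtain ⟨x, hx, hc⟩ := h
  obtain ⟨i1, h1⟩ := hc 0
  obtain ⟨i0, h0⟩ := hx.2 i1
  have hx' := hx.tail i0
  set z : W → H I := fun i => x (max i i0) with hz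
  have hpos : ∀ i, 0 < z i := fun i => (h1.trans_lt h0).trans_le (hx.1 (le_max_right _ _))
  have hc' : ∀ u, ∃ i, u ≤ z i := fun u => by
    obtain ⟨i, hi⟩ := hc u
    exact ⟨i, hi.trans (hx.1 (le_max_left _ _))⟩
  choose v hv hv' using fun i => exists_lead (hpos i)
  have hanti : Antitone v := fun a b hab => lead_anti (hv b) (hpos a).le (hx'.1 hab) (hv' a).ne'
  refine ⟨v, ⟨hanti, fun i => ?_⟩, fun g => ?_⟩
  · by_contra hcon
    push Not at hcon
    have hvan : ∀ j, Van (z j) (v i) := fun j k hk => hv j k (hk.trans_le (hcon j))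
    have hm : Monotone fun j => co (z j) (v i) := fun a b hab =>
      co_le_of_le (hx'.1 hab) fun k hk => by rw [hvan a k hk, hvan b k hk]
    obtain ⟨j0, hj0⟩ := hW.const hm
    obtain ⟨j, hj⟩ := hc' (mo (v i) (co (z j0) (v i) + 1))
    have h2 := co_le_of_le (hj.trans (hx'.1 (le_max_left j j0))) (i := v i)
      fun k hk => by rw [co_mo_lt hk, hvan _ k hk]
    have h3 := hj0 (max j j0) (le_max_right _ _)
    simp only [co_mo_self] at h2 h3
    change co (z (max j j0)) (v i) = _ at h3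
    change _ ≤ co (z (max j j0)) (v i) at h2
    linarith
  · obtain ⟨i, hi⟩ := hc' (mo g 1)
    exact ⟨i, lead_anti (hv i) (mo_pos _ one_pos).le hi (by simp)⟩

/-- the core case: a positive left sequence -/
theorem core_pos (hW : Unc W) {a b : W → H I} {v : W → I} (ha : Up a) (hv : Up v)
    (hab : ∀ i j, a i < b j) (hpos : ∀ i, 0 < a i) (hbv : ∀ i, Van (b i) (v i))
    (hlead : ∀ i, co (a i) (v i) < co (b i) (v i))
    (huniq : ∀ u w, (∀ i, a i < u ∧ u < b i) → (∀ i, a i < w ∧ w < b i) → u = w) :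
    Gap0 W I := by
  choose y hy hy' using fun i => exists_lead (hpos i)
  have hanti : Antitone y := fun s t hst => lead_anti (hy t) (hpos s).le (ha.1 hst) (hy' s).ne'
  have hvy : ∀ i j, v i < y j := fun i j => by
    obtain ⟨k, hk⟩ := hv.2 i
    exact hk.trans_le (lead_anti (hbv k) (hpos j).le (hab j k).le (hy' j).ne')
  have hbpos : ∀ i, 0 < co (b i) (v i) := fun i => by
    have := hlead i
    rwa [hy i _ (hvy i i)] at this
  have hmob : ∀ g r, (∀ i, v i < g) → ∀ i, (mo g r : H I) < b i := fun g r hg i =>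
    lt_of (v i) (fun k hk => by rw [co_mo_lt (hk.trans (hg i)), hbv i k hk])
      (by rw [co_mo_lt (hg i)]; exact hbpos i)
  refine ⟨v, y, hv, ⟨hanti, fun i => ?_⟩, hvy, fun g hg => ?_⟩
  · by_contra hcon
    push Not at hcon
    have hvan : ∀ j, Van (a j) (y i) := fun j k hk => hy j k (hk.trans_le (hcon j))
    have hm : Monotone fun j => co (a j) (y i) := fun s t hst =>
      co_le_of_le (ha.1 hst) fun k hk => by rw [hvan s k hk, hvan t k hk]
    obtain ⟨j0, hj0⟩ := hW.const hm
    have hle : ∀ j, co (a j) (y i) ≤ co (a j0) (y i) := fun j =>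
      (hm (le_max_left j j0)).trans (hj0 _ (le_max_right _ _)).le
    have hbt : ∀ r : ℚ, 0 < r → ∀ j, a j < mo (y i) (co (a j0) (y i) + r) ∧
        mo (y i) (co (a j0) (y i) + r) < b j := fun r hr j =>
      ⟨lt_of (y i) (fun k hk => by rw [co_mo_lt hk, hvan _ k hk])
        (by rw [co_mo_self]; linarith [hle j]), hmob _ _ (fun k => hvy k i) j⟩
    exact mo_ne (y i) (by linarith) (huniq _ _ (hbt 1 one_pos) (hbt 2 two_pos))
  · have hbt : ∀ r : ℚ, 0 < r → ∀ j, a j < mo g r ∧ mo g r < b j := fun r hr j =>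
      ⟨lt_of g (fun k hk => by rw [co_mo_lt hk, hy j k (hk.trans (hg j).2)])
        (by rw [co_mo_self, hy j g (hg j).2]; exact hr), hmob _ _ (fun k => (hg k).1) j⟩
    exact mo_ne g (by norm_num) (huniq _ _ (hbt 1 one_pos) (hbt 2 two_pos))

theorem core (hW : Unc W) {a b : W → H I} {v : W → I} (ha : Up a) (hb : Dn b) (hv : Up v)
    (hab : ∀ i j, a i < b j) (hav : ∀ i, Van (a i) (v i)) (hbv : ∀ i, Van (b i) (v i))
    (hlead : ∀ i, co (a i) (v i) < co (b i) (v i))
    (huniq : ∀ u w, (∀ i, a i < u ∧ u < b i) → (∀ i, a i < w ∧ w < b i) → u = w) :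
    Gap0 W I ∨ Top W I := by
  by_cases h1 : ∃ i, 0 ≤ a i
  · obtain ⟨i1, h1⟩ := h1
    obtain ⟨i0, h0⟩ := ha.2 i1
    left
    refine core_pos hW (ha.tail i0) (hv.tail i0) (b := fun i => b (max i i0))
      (fun i j => hab _ _) (fun i => (h1.trans_lt h0).trans_le (ha.1 (le_max_right _ _)))
      (fun i => hbv _) (fun i => hlead _) fun u w hu hw => huniq u w (fun i => ?_) (fun i => ?_)
    · exact ⟨(ha.1 (le_max_left i i0)).trans_lt (hu i).1, (hu i).2.trans_le (hb.1 (le_max_left i i0))⟩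
    · exact ⟨(ha.1 (le_max_left i i0)).trans_lt (hw i).1, (hw i).2.trans_le (hb.1 (le_max_left i i0))⟩
  by_cases h2 : ∃ i, b i ≤ 0
  · obtain ⟨i1, h2⟩ := h2
    obtain ⟨i0, h0⟩ := hb.2 i1
    left
    have hb' := hb.tail i0
    refine core_pos hW (a := fun i => - b (max i i0)) (b := fun i => - a (max i i0))
      ⟨fun s t hst => neg_le_neg (hb'.1 hst), fun i => ?_⟩ (hv.tail i0)
      (fun i j => neg_lt_neg (hab _ _))
      (fun i => neg_pos.2 ((hb.1 (le_max_right _ _)).trans_lt (h0.trans_le h2)))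
      (fun i k hk => by rw [co_neg, hav _ k hk, neg_zero])
      (fun i => by rw [co_neg, co_neg]; exact neg_lt_neg (hlead _))
      fun u w hu hw => neg_injective (huniq (-u) (-w) (fun i => ?_) (fun i => ?_))
    · obtain ⟨j, hj⟩ := hb'.2 i
      exact ⟨j, neg_lt_neg hj⟩
    · exact ⟨(ha.1 (le_max_left i i0)).trans_lt (lt_neg.1 (hu i).2),
        (neg_lt.1 (hu i).1).trans_le (hb.1 (le_max_left i i0))⟩
    · exact ⟨(ha.1 (le_max_left i i0)).trans_lt (lt_neg.1 (hw i).2),
        (neg_lt.1 (hw i).1).trans_le (hb.1 (le_max_left i i0))⟩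
  push Not at h1 h2
  right
  refine ⟨v, hv, fun g => ?_⟩
  by_contra hcon
  push Not at hcon
  have h0 : ∀ i, a i < 0 ∧ 0 < b i := fun i => ⟨h1 i, h2 i⟩
  by_cases h3 : ∀ i, (mo g 1 : H I) < b i
  · have := huniq _ _ h0 (fun i => ⟨(h1 i).trans (mo_pos g one_pos), h3 i⟩)
    exact (mo_pos g one_pos).ne this
  push Not at h3
  obtain ⟨j, hj⟩ := h3
  have hneg : (mo g (-1) : H I) < 0 :=
    lt_of g (fun k hk => by rw [co_mo_lt hk]; rfl) (by simp)
  have h4 : ∀ i, a i < mo g (-1) := fun i => by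
    refine (ha.1 (le_max_left i j)).trans_lt ?_
    set k := max i j
    have hbk : Van (b k) g := (van_mo g 1).of_le (h2 k).le ((hb.1 (le_max_right i j)).trans hj)
    refine lt_of (v k) (fun l hl => by rw [hav k l hl, co_mo_lt (hl.trans (hcon k))]) ?_
    have := hlead k
    rw [hbk _ (hcon k)] at this
    rw [co_mo_lt (hcon k)]
    exact this
  exact hneg.ne' (huniq _ _ h0 (fun i => ⟨h4 i, hneg.trans (h2 i)⟩))

theorem Gap1.down (hW : Unc W) (h : Gap1 W (H I)) : Gap0 W I ∨ Top W I := by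
  classical
  obtain ⟨a, b, ha, hb, hab, huniq⟩ := h
  choose v hv hv' using fun i => exists_lead (sub_pos.2 (hab i i))
  have hvm : Monotone v := fun s t hst =>
    lead_anti (hv s) (sub_pos.2 (hab t t)).le (sub_le_sub (hb.1 hst) (ha.1 hst)) (hv' t).ne'
  have hagree : ∀ s t, s ≤ t → ∀ k, k < v s → co (a t) k = co (a s) k := fun s t hst k hk => by
    have := (hv s).of_le (sub_nonneg.2 (ha.1 hst)) (sub_le_sub_right (hab t s).le _) k hk
    rw [co_sub] at this
    linarith
  have hagree' : ∀ s k, k < v s → co (b s) k = co (a s) k := fun s k hk => by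
    have := hv s k hk
    rw [co_sub] at this
    linarith
  by_cases hnec : ∀ i, ∃ j, v i < v j
  · have hvu : Up v := ⟨hvm, hnec⟩
    let F : W → Finset I := fun i => (ofLex (a i)).support.filter (· < v i)
    have hF : ∀ i k, k ∈ F i ↔ co (a i) k ≠ 0 ∧ k < v i := fun i k => by
      simp [F, co]
    have hFm : Monotone F := fun s t hst k hk => by
      rw [hF] at hk ⊢
      exact ⟨by rw [hagree s t hst k hk.2]; exact hk.1, hk.2.trans_le (hvm hst)⟩
    obtain ⟨i0, hi0⟩ := hW.const (f := fun i => (F i).card)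
      fun s t hst => Finset.card_le_card (hFm hst)
    have hFe : ∀ i, i0 ≤ i → F i = F i0 := fun i hi =>
      (Finset.eq_of_subset_of_card_le (hFm hi) (hi0 i hi).le).symm
    let c : H I := toLex ((ofLex (a i0)).filter (· < v i0))
    have hc : ∀ k, co c k = if k < v i0 then co (a i0) k else 0 := fun k => by
      simp [c, co, Finsupp.filter_apply]
    have hac : ∀ i, i0 ≤ i → ∀ k, k < v i → co (a i) k = co c k := fun i hi k hk => by
      rw [hc]
      split_ifs with h
      · exact hagree i0 i hi k h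
      · by_contra hne
        have : k ∈ F i0 := hFe i hi ▸ (hF i k).2 ⟨hne, hk⟩
        exact h ((hF i0 k).1 this).2
    have ha' := ha.tail i0
    have hb' := hb.tail i0
    refine core hW (a := fun i => a (max i i0) - c) (b := fun i => b (max i i0) - c)
      ⟨fun s t hst => sub_le_sub_right (ha'.1 hst) _, fun i => ?_⟩
      ⟨fun s t hst => sub_le_sub_right (hb'.1 hst) _, fun i => ?_⟩ (hvu.tail i0)
      (fun i j => sub_lt_sub_right (hab _ _) _)
      (fun i k hk => by rw [co_sub, hac _ (le_max_right _ _) k hk, sub_self])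
      (fun i k hk => by rw [co_sub, hagree' _ k hk, hac _ (le_max_right _ _) k hk, sub_self])
      (fun i => by
        have := hv' (max i i0)
        simp only [co_sub] at this ⊢
        linarith)
      fun u w hu hw => add_right_cancel (b := c) (huniq (u + c) (w + c) (fun i => ?_) (fun i => ?_))
    · obtain ⟨j, hj⟩ := ha'.2 i
      exact ⟨j, sub_lt_sub_right hj _⟩
    · obtain ⟨j, hj⟩ := hb'.2 i
      exact ⟨j, sub_lt_sub_right hj _⟩
    · exact ⟨(ha.1 (le_max_left i i0)).trans_lt (sub_lt_iff_lt_add.1 (hu i).1),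
        (lt_sub_iff_add_lt.1 (hu i).2).trans_le (hb.1 (le_max_left i i0))⟩
    · exact ⟨(ha.1 (le_max_left i i0)).trans_lt (sub_lt_iff_lt_add.1 (hw i).1),
        (lt_sub_iff_add_lt.1 (hw i).2).trans_le (hb.1 (le_max_left i i0))⟩
  · exfalso
    push Not at hnec
    obtain ⟨i0, hi0⟩ := hnec
    set g := v i0 with hg
    have hve : ∀ i, v (max i i0) = g := fun i => le_antisymm (hi0 _) (hvm (le_max_right _ _))
    have haa : ∀ i k, k < g → co (a (max i i0)) k = co (a i0) k := fun i k hk =>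
      hagree i0 _ (le_max_right _ _) k hk
    have hbb : ∀ i k, k < g → co (b (max i i0)) k = co (a i0) k := fun i k hk => by
      rw [hagree' _ k (by rw [hve]; exact hk), haa i k hk]
    have hma : Monotone fun i => co (a (max i i0)) g := fun s t hst =>
      co_le_of_le (ha.1 (max_le_max hst le_rfl)) fun k hk => by rw [haa s k hk, haa t k hk]
    have hmb : Antitone fun i => co (b (max i i0)) g := fun s t hst =>
      co_le_of_le (hb.1 (max_le_max hst le_rfl)) fun k hk => by rw [hbb s k hk, hbb t k hk]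
    obtain ⟨j1, hj1⟩ := hW.const hma
    obtain ⟨j2, hj2⟩ := hW.const' hmb
    set p := co (a (max j1 i0)) g with hp
    set q := co (b (max j2 i0)) g with hq
    have hple : ∀ i, co (a (max i i0)) g ≤ p := fun i =>
      (hma (le_max_left i j1)).trans (hj1 _ (le_max_right _ _)).le
    have hqle : ∀ i, q ≤ co (b (max i i0)) g := fun i =>
      (hj2 _ (le_max_right i j2)).ge.trans (hmb (le_max_left i j2))
    have hpq : p < q := by
      have h1 := hv' (max (max j1 j2) i0)
      rw [hve, co_sub] at h1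
      have h2 := hj1 (max j1 j2) (le_max_left _ _)
      have h3 := hj2 (max j1 j2) (le_max_right _ _)
      linarith
    have hbt : ∀ r : ℚ, 0 < r → p + r < q → ∀ i, a i < a (max j1 i0) + mo g r ∧
        a (max j1 i0) + mo g r < b i := fun r hr hr' i => by
      constructor
      · refine (ha.1 (le_max_left i i0)).trans_lt (lt_of g (fun k hk => ?_) ?_)
        · rw [co_add, co_mo_lt hk, haa _ k hk, haa _ k hk, add_zero]
        · rw [co_add, co_mo_self]; linarith [hple i]
      · refine lt_of_lt_of_le (lt_of g (fun k hk => ?_) ?_) (hb.1 (le_max_left i i0))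
        · rw [co_add, co_mo_lt hk, haa _ k hk, hbb _ k hk, add_zero]
        · rw [co_add, co_mo_self]; linarith [hqle i]
    have := huniq _ _ (hbt ((q - p) / 3) (by linarith) (by linarith))
      (hbt (2 * (q - p) / 3) (by linarith) (by linarith))
    exact mo_ne g (by intro e; linarith) (add_left_cancel this)

end seqs

end Pool.Agent.H39.Hahn1
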