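import Pool.Agent.H39.Hahn1

/-! Two-point homogeneity and density of lexicographic sums over an ordered group. -/

namespace Pool.Agent.H39.Hahn2

open Set Pool.Agent.H39.Hahn1

set_option linter.unusedSectionVars false

section gen
variable {T : Type} [LinearOrder T]

theorem iso_of {a b c d : T} (f : T → T) (hf : StrictMonoOn f (Icc a b))
    (him : f '' Icc a b = Icc c d) : Nonempty (Icc a b ≃o Icc c d) :=
  ⟨(hf.orderIso f _).trans (OrderIso.setCongr _ _ him)⟩

theorem iso_of_orderIso (e : T ≃o T) (a b : T) : Nonempty (Icc a b ≃o Icc (e a) (e b)) :=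
  iso_of e (e.strictMono.strictMonoOn _) (e.image_Icc a b)

end gen

section scal
variable {I : Type} [LinearOrder I]

noncomputable def sc (r : ℚ) (x : H I) : H I := toLex (r • ofLex x)

@[simp] theorem co_sc (r : ℚ) (x : H I) (i : I) : co (sc r x) i = r * co x i := by
  simp [sc, co]

theorem ext_co {x y : H I} (h : ∀ i, co x i = co y i) : x = y :=
  ofLex.injective (Finsupp.ext h)

theorem sc_strictMono {r : ℚ} (hr : 0 < r) : StrictMono (sc r : H I → H I) := by
  intro x y h
  obtain ⟨i, hi, hi'⟩ := lt_iff.1 h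
  exact lt_of i (fun j hj => by rw [co_sc, co_sc, hi j hj])
    (by rw [co_sc, co_sc]; exact mul_lt_mul_of_pos_left hi' hr)

noncomputable def scIso {r : ℚ} (hr : 0 < r) : H I ≃o H I :=
  (sc_strictMono hr).orderIsoOfSurjective _ fun y => ⟨sc r⁻¹ y, ext_co fun i => by
    rw [co_sc, co_sc, ← mul_assoc, mul_inv_cancel₀ hr.ne', one_mul]⟩

theorem scIso_apply {r : ℚ} (hr : 0 < r) (x : H I) : scIso hr x = sc r x := rfl

instance : DenselyOrdered (H I) := ⟨fun a b hab => by
  obtain ⟨i, hi, hi'⟩ := lt_iff.1 hab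
  refine ⟨a + mo i ((co b i - co a i) / 2), lt_add_of_pos_right _ (mo_pos _ (by linarith)), ?_⟩
  refine lt_of i (fun j hj => by rw [co_add, co_mo_lt hj, hi j hj, add_zero]) ?_
  rw [co_add, co_mo_self]
  linarith⟩

theorem iso_same {p q : H I} {g : I} (hp : Van p g) (hq : Van q g) (hr : 0 < co p g)
    (he : co p g = co q g) : Nonempty (Icc 0 p ≃o Icc 0 q) := by
  classical
  have main : ∀ p q : H I, Van p g → Van q g → 0 < co p g → co p g = co q g → ∀ x ∈ Icc 0 p,
      (if co x g ≤ co p g / 2 then x else x + (q - p)) ∈ Icc 0 q := by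
    intro p q hp hq hr he x hx
    have hx' : Van x g := hp.of_le hx.1 hx.2
    split_ifs with h
    · exact ⟨hx.1, (lt_of g (fun j hj => by rw [hx' j hj, hq j hj]) (by linarith)).le⟩
    · refine ⟨(lt_of g (fun j hj => ?_) ?_).le, ?_⟩
      · rw [co_add, co_sub, hx' j hj, hp j hj, hq j hj]; simp
      · rw [co_add, co_sub, co_zero]; linarith
      · have := add_le_add_left hx.2 (q - p)
        simpa using this
  refine iso_of (fun x => if co x g ≤ co p g / 2 then x else x + (q - p)) ?_ ?_
  · intro x hx y hy hxy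
    have hx' : Van x g := hp.of_le hx.1 hx.2
    have hy' : Van y g := hp.of_le hy.1 hy.2
    have hle := co_le_of_le hxy.le (i := g) fun j hj => by rw [hx' j hj, hy' j hj]
    beta_reduce
    split_ifs with h1 h2 h2
    · exact hxy
    · refine lt_of g (fun j hj => ?_) ?_
      · rw [co_add, co_sub, hx' j hj, hy' j hj, hp j hj, hq j hj]; simp
      · rw [co_add, co_sub]; linarith
    · linarith
    · exact add_lt_add_left hxy _
  · apply Subset.antisymm
    · rintro _ ⟨x, hx, rfl⟩
      exact main p q hp hq hr he x hx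
    · intro y hy
      refine ⟨_, main q p hq hp (he ▸ hr) he.symm y hy, ?_⟩
      beta_reduce
      by_cases h : co y g ≤ co q g / 2
      · rw [if_pos h, if_pos (by rw [he]; exact h)]
      · rw [if_neg h, if_neg (by rw [co_add, co_sub, he]; simpa using h)]
        abel

end scal

section shift
variable {G : Type} [AddCommGroup G] [LinearOrder G] [IsOrderedAddMonoid G]

noncomputable def sh (t : G) (x : H G) : H G :=
  toLex (Finsupp.equivMapDomain (Equiv.addRight t) (ofLex x))

@[simp] theorem co_sh (t : G) (x : H G) (i : G) : co (sh t x) i = co x (i - t) := by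
  simp [sh, co, sub_eq_add_neg]

theorem sh_strictMono (t : G) : StrictMono (sh t : H G → H G) := by
  intro x y h
  obtain ⟨i, hi, hi'⟩ := lt_iff.1 h
  exact lt_of (i + t) (fun j hj => by rw [co_sh, co_sh, hi _ (sub_lt_iff_lt_add.2 hj)])
    (by rw [co_sh, co_sh, add_sub_cancel_right]; exact hi')

noncomputable def shIso (t : G) : H G ≃o H G :=
  (sh_strictMono t).orderIsoOfSurjective _ fun y => ⟨sh (-t) y, ext_co fun i => by
    rw [co_sh, co_sh]; simp⟩

theorem shIso_apply (t : G) (x : H G) : shIso t x = sh t x := rfl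

theorem iso_pos {p q : H G} (hp : 0 < p) (hq : 0 < q) : Nonempty (Icc 0 p ≃o Icc 0 q) := by
  obtain ⟨g, hg, hg'⟩ := exists_lead hp
  obtain ⟨k, hk, hk'⟩ := exists_lead hq
  have hr : 0 < co q k / co p g := div_pos hk' hg'
  let e : H G ≃o H G := (shIso (k - g)).trans (scIso hr)
  have he : ∀ x i, co (e x) i = co q k / co p g * co x (i - (k - g)) := fun x i => by
    change co (sc _ (sh _ x)) i = _
    rw [co_sc, co_sh]
  have h0 : e 0 = 0 := ext_co fun i => by rw [he]; simp
  obtain ⟨f1⟩ := iso_of_orderIso e 0 p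
  rw [h0] at f1
  have hlead : co (e p) k = co q k := by
    rw [he, sub_sub_cancel, div_mul_cancel₀ _ hg'.ne']
  obtain ⟨f2⟩ := iso_same (p := e p) (q := q) (g := k)
    (fun j hj => by
      rw [he, hg (j - (k - g)) (by rw [sub_lt_iff_lt_add]; simpa using hj), mul_zero])
    hk (hlead ▸ hk') hlead
  exact ⟨f1.trans f2⟩

theorem twoHom {a b c d : H G} (hab : a < b) (hcd : c < d) :
    Nonempty (Icc a b ≃o Icc c d) := by
  have f1 : Nonempty (Icc a b ≃o Icc (a - a) (b - a)) := iso_of_orderIso (OrderIso.subRight a) a b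
  have f2 : Nonempty (Icc c d ≃o Icc (c - c) (d - c)) := iso_of_orderIso (OrderIso.subRight c) c d
  rw [sub_self] at f1 f2
  obtain ⟨f1⟩ := f1
  obtain ⟨f2⟩ := f2
  obtain ⟨f3⟩ := iso_pos (sub_pos.2 hab) (sub_pos.2 hcd)
  exact ⟨f1.trans (f3.trans f2.symm)⟩

end shift

end Pool.Agent.H39.Hahn2
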