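import Pool.Agent.H39.Hahn2

/-! The index chains and the bridge to cofinalities. -/

namespace Pool.Agent.H39.Hahn3

open Set Cardinal Pool.Agent.H39.Hahn1

set_option linter.unusedSectionVars false

theorem cof_eq_of_up {A B : Type} [LinearOrder A] [LinearOrder B] {f : A → B} (hf : Up f)
    (hc : ∀ b, ∃ a, b ≤ f a) : Order.cof A = Order.cof B := by
  apply le_antisymm
  · rw [Order.le_cof_iff]
    intro s hs
    have : ∀ b, ∃ a, b < f a := fun b => by
      obtain ⟨a, ha⟩ := hc b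
      obtain ⟨a', ha'⟩ := hf.2 a
      exact ⟨a', ha.trans_lt ha'⟩
    choose g hg using this
    refine (Order.cof_le (s := g '' s) fun a => ?_).trans mk_image_le
    obtain ⟨b, hb, hab⟩ := hs (f a)
    refine ⟨g b, ⟨b, hb, rfl⟩, ?_⟩
    by_contra hcon
    push Not at hcon
    exact absurd (hab.trans_lt (hg b)) (not_lt.2 (hf.1 hcon.le))
  · rw [Order.le_cof_iff]
    intro s hs
    refine (Order.cof_le (s := f '' s) fun b => ?_).trans mk_image_le
    obtain ⟨a, ha⟩ := hc b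
    obtain ⟨a', ha', h⟩ := hs a
    exact ⟨f a', ⟨a', ha', rfl⟩, ha.trans (hf.1 h)⟩

theorem exists_seq (A : Type) [LinearOrder A] :
    ∃ f : (Order.cof A).ord.ToType → A, StrictMono f ∧ ∀ a, ∃ i, a ≤ f i := by
  let R : A → A → Prop := WellOrderingRel
  have hR : IsWellFounded A R := inferInstance
  have ht := isCofinal_setOfPred_imp_lt R
  set t : Set A := {a | ∀ b, R b a → b < a} with htdef
  have : WellFoundedLT t := by
    refine ⟨Subrelation.wf (r := InvImage R Subtype.val) (fun {x y} hxy => ?_)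
      (InvImage.wf _ hR.wf)⟩
    have htri : R x.1 y.1 ∨ x.1 = y.1 ∨ R y.1 x.1 := trichotomous_of WellOrderingRel x.1 y.1
    rcases htri with h | h | h
    · exact h
    · exact absurd (Subtype.ext h) hxy.ne
    · exact absurd (x.2 _ h) (not_lt.2 hxy.le)
  obtain ⟨s, hs, hs'⟩ := Ordinal.exists_ord_cof_eq t
  rw [Order.cof_eq_of_isCofinal ht, ← Ordinal.type_toType (Order.cof A).ord] at hs'
  obtain ⟨e⟩ := Ordinal.type_eq.1 hs'.symm
  refine ⟨fun i => (e i).1.1, fun i j hij => e.map_rel_iff.2 hij, fun a => ?_⟩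
  obtain ⟨b, hb, hab⟩ := ht a
  obtain ⟨c, hc, hbc⟩ := hs ⟨b, hb⟩
  refine ⟨e.symm ⟨c, hc⟩, ?_⟩
  simp only [RelIso.apply_symm_apply]
  exact hab.trans hbc

abbrev W (n : ℕ) : Type := (ℵ_ ((n + 1 : ℕ) : Ordinal.{0})).ord.ToType

theorem reg (n : ℕ) : (ℵ_ ((n + 1 : ℕ) : Ordinal.{0})).IsRegular := by
  push_cast
  exact isRegular_aleph_add_one _

theorem cof_W (n : ℕ) : Order.cof (W n) = ℵ_ ((n + 1 : ℕ) : Ordinal.{0}) := by
  rw [Ordinal.cof_toType, (reg n).cof_ord]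

theorem aleph0_lt (n : ℕ) : ℵ₀ < ℵ_ ((n + 1 : ℕ) : Ordinal.{0}) := by
  rw [← aleph_zero, aleph_lt_aleph]
  exact_mod_cast Nat.succ_pos n

theorem unc_W (n : ℕ) : Unc (W n) := by
  constructor
  · rw [← Order.cof_ne_zero_iff, cof_W]
    exact (aleph_pos _).ne'
  · intro s
    have : ¬ IsCofinal (range s) := fun h => by
      have h1 := Order.cof_le h
      rw [cof_W] at h1
      exact absurd (h1.trans (mk_range_le.trans_eq mk_nat)) (not_le.2 (aleph0_lt n))
    obtain ⟨b, hb⟩ := not_isCofinal_iff.1 this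
    exact ⟨b, fun k => (hb _ ⟨k, rfl⟩).le⟩

theorem nomax_W (n : ℕ) (i : W n) : ∃ j, i < j := by
  by_contra h
  push Not at h
  have : Order.cof (W n) = 1 := Order.cof_eq_one_iff.2 ⟨i, h⟩
  rw [cof_W] at this
  exact absurd (aleph0_lt n) (by rw [this]; exact not_lt.2 one_le_aleph0)

theorem up_of_strict {n : ℕ} {T : Type} [LinearOrder T] {f : W n → T} (h : StrictMono f) : Up f :=
  ⟨h.monotone, fun i => (nomax_W n i).imp fun _ hj => h hj⟩

theorem dn_of_strict {n : ℕ} {T : Type} [LinearOrder T] {f : W n → T} (h : StrictAnti f) : Dn f :=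
  ⟨h.antitone, fun i => (nomax_W n i).imp fun _ hj => h hj⟩

abbrev Blk (n : ℕ) : Type := W n ⊕ₗ (W n)ᵒᵈ

abbrev J (S : Set ℕ) : Type := Σₗ n : S, Blk n

def lf {S : Set ℕ} (n : S) (w : W n) : J S := toLex ⟨n, toLex (Sum.inl w)⟩
def rt {S : Set ℕ} (n : S) (w : W n) : J S := toLex ⟨n, toLex (Sum.inr (OrderDual.toDual w))⟩
def ix {S : Set ℕ} (x : J S) : S := (ofLex x).1

theorem cases_J {S : Set ℕ} (x : J S) : (∃ w, x = lf (ix x) w) ∨ ∃ w, x = rt (ix x) w := by
  obtain ⟨n, w | w⟩ := x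
  · exact Or.inl ⟨w, rfl⟩
  · exact Or.inr ⟨w, rfl⟩

theorem ix_mono {S : Set ℕ} : Monotone (ix : J S → S) := by
  intro x y h
  rcases Sigma.Lex.le_def.1 h with h | ⟨h, _⟩
  · exact h.le
  · exact h.le

theorem lt_of_ix {S : Set ℕ} {x y : J S} (h : ix x < ix y) : x < y :=
  Sigma.Lex.lt_def.2 (Or.inl h)

theorem same_lt {S : Set ℕ} {n : S} {a b : Blk n} :
    (toLex ⟨n, a⟩ : J S) < toLex ⟨n, b⟩ ↔ a < b := by
  constructor
  · intro h
    rcases Sigma.Lex.lt_def.1 h with h | ⟨h, h'⟩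
    · exact absurd h (lt_irrefl _)
    · exact h'
  · intro h
    exact Sigma.Lex.lt_def.2 (Or.inr ⟨rfl, h⟩)

theorem lf_lt_lf {S : Set ℕ} {n : S} {a b : W n} : lf n a < lf n b ↔ a < b :=
  same_lt.trans Sum.Lex.inl_lt_inl_iff
theorem rt_lt_rt {S : Set ℕ} {n : S} {a b : W n} : rt n a < rt n b ↔ b < a :=
  same_lt.trans Sum.Lex.inr_lt_inr_iff
theorem lf_lt_rt {S : Set ℕ} {n : S} (a b : W n) : lf n a < rt n b :=
  same_lt.2 (Sum.Lex.inl_lt_inr _ _)
theorem lf_le_lf {S : Set ℕ} {n : S} {a b : W n} : lf n a ≤ lf n b ↔ a ≤ b := by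
  rw [← not_lt, lf_lt_lf, not_lt]
theorem rt_le_rt {S : Set ℕ} {n : S} {a b : W n} : rt n a ≤ rt n b ↔ b ≤ a := by
  rw [← not_lt, rt_lt_rt, not_lt]

theorem gap0_J {S : Set ℕ} (n : S) : Gap0 (W n) (J S) := by
  refine ⟨lf n, rt n, up_of_strict fun a b h => lf_lt_lf.2 h,
    dn_of_strict fun a b h => rt_lt_rt.2 h, fun a b => lf_lt_rt a b, fun u hu => ?_⟩
  obtain ⟨w⟩ := (unc_W n).1
  have e : ix u = n := le_antisymm (ix_mono (hu w).2.le) (ix_mono (hu w).1.le)
  rcases cases_J u with ⟨a, ha⟩ | ⟨a, ha⟩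
  · subst e
    have := (hu a).1
    rw [← ha] at this
    exact lt_irrefl _ this
  · subst e
    have := (hu a).2
    rw [← ha] at this
    exact lt_irrefl _ this

variable {V : Type} [LinearOrder V]

theorem up_J (hV : Unc V) {S : Set ℕ} {x : V → J S} (hx : Up x) :
    ∃ (n : S) (i0 : V) (g : V → W n), ∀ i, x (max i i0) = lf n (g i) := by
  obtain ⟨i0, h0⟩ := hV.const (f := fun i => ix (x i)) fun a b h => ix_mono (hx.1 h)
  have hn : ∀ i, ix (x (max i i0)) = ix (x i0) := fun i => h0 _ (le_max_right _ _)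
  set n := ix (x i0) with hndef
  have hc : ∀ i, (∃ w, x (max i i0) = lf n w) ∨ ∃ w, x (max i i0) = rt n w := fun i => by
    have := cases_J (x (max i i0))
    rwa [hn i] at this
  have hl : ∀ i, ∃ w, x (max i i0) = lf n w := fun i => by
    by_contra hcon
    have hP : ∃ w, ∃ j, x (max j i0) = rt n w := by
      obtain ⟨w, hw⟩ := (hc i).resolve_left hcon
      exact ⟨w, i, hw⟩
    obtain ⟨w, ⟨j, hj⟩, hmin⟩ := (wellFounded_lt (α := W n)).has_min
      {w | ∃ j, x (max j i0) = rt n w} hP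
    obtain ⟨k, hk⟩ := (hx.tail i0).2 j
    beta_reduce at hk
    rcases hc k with ⟨u, hu⟩ | ⟨u, hu⟩
    · rw [hj, hu] at hk
      exact lt_asymm hk (lf_lt_rt _ _)
    · rw [hj, hu, rt_lt_rt] at hk
      exact hmin u ⟨k, hu⟩ hk
  choose g hg using hl
  exact ⟨n, i0, g, hg⟩

theorem dn_J (hV : Unc V) {S : Set ℕ} {x : V → J S} (hx : Dn x) :
    ∃ (n : S) (i0 : V) (g : V → W n), ∀ i, x (max i i0) = rt n (g i) := by
  have : Countable (S)ᵒᵈ := inferInstanceAs (Countable S)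
  obtain ⟨i0, h0⟩ := hV.const (f := fun i => OrderDual.toDual (ix (x i)))
    fun a b h => ix_mono (hx.1 h)
  have hn : ∀ i, ix (x (max i i0)) = ix (x i0) := fun i => h0 _ (le_max_right _ _)
  set n := ix (x i0) with hndef
  have hc : ∀ i, (∃ w, x (max i i0) = lf n w) ∨ ∃ w, x (max i i0) = rt n w := fun i => by
    have := cases_J (x (max i i0))
    rwa [hn i] at this
  have hl : ∀ i, ∃ w, x (max i i0) = rt n w := fun i => by
    by_contra hcon
    have hP : ∃ w, ∃ j, x (max j i0) = lf n w := by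
      obtain ⟨w, hw⟩ := (hc i).resolve_right hcon
      exact ⟨w, i, hw⟩
    obtain ⟨w, ⟨j, hj⟩, hmin⟩ := (wellFounded_lt (α := W n)).has_min
      {w | ∃ j, x (max j i0) = lf n w} hP
    obtain ⟨k, hk⟩ := (hx.tail i0).2 j
    beta_reduce at hk
    rcases hc k with ⟨u, hu⟩ | ⟨u, hu⟩
    · rw [hj, hu, lf_lt_lf] at hk
      exact hmin u ⟨k, hu⟩ hk
    · rw [hj, hu] at hk
      exact lt_asymm hk (lf_lt_rt _ _)
  choose g hg using hl
  exact ⟨n, i0, g, hg⟩

theorem not_top_J (hV : Unc V) (S : Set ℕ) : ¬ Top V (J S) := by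
  rintro ⟨x, hx, hc⟩
  obtain ⟨n, i0, g, hg⟩ := up_J hV hx
  obtain ⟨i, hi⟩ := hc (rt n (g i0))
  have := hi.trans (hx.1 (le_max_left i i0))
  rw [hg] at this
  exact absurd (lf_lt_rt _ _) (not_lt.2 this)

theorem not_bot_J (hV : Unc V) (S : Set ℕ) : ¬ Bot V (J S) := by
  rintro ⟨x, hx, hc⟩
  obtain ⟨n, i0, g, hg⟩ := dn_J hV hx
  obtain ⟨i, hi⟩ := hc (lf n (g i0))
  have := (hx.1 (le_max_left i i0)).trans hi
  rw [hg] at this
  exact absurd (lf_lt_rt _ _) (not_lt.2 this)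

theorem mem_of_gap0 {m : ℕ} {S : Set ℕ} (h : Gap0 (W m) (J S)) : m ∈ S := by
  obtain ⟨x, y, hx, hy, hxy, h⟩ := h
  obtain ⟨n, i0, g, hg⟩ := up_J (unc_W m) hx
  obtain ⟨k, j0, f, hf⟩ := dn_J (unc_W m) hy
  have hnk : n ≤ k := by
    have := ix_mono (hxy (max i0 i0) (max j0 j0)).le
    rw [hg, hf] at this
    exact this
  have hgu : Up g := by
    have := hx.tail i0
    refine ⟨fun a b hab => lf_le_lf.1 ?_, fun i => ?_⟩
    · rw [← hg, ← hg]; exact this.1 hab
    · obtain ⟨j, hj⟩ := this.2 i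
      beta_reduce at hj
      rw [hg, hg] at hj
      exact ⟨j, lf_lt_lf.1 hj⟩
  have hgc : ∀ w, ∃ i, w ≤ g i := fun w => by
    by_contra hcon
    push Not at hcon
    refine h (lf n w) fun i => ⟨(hx.1 (le_max_left i i0)).trans_lt ?_,
      lt_of_lt_of_le ?_ (hy.1 (le_max_left i j0))⟩
    · rw [hg]; exact lf_lt_lf.2 (hcon i)
    · rw [hf]
      rcases hnk.eq_or_lt with e | e
      · subst e; exact lf_lt_rt _ _
      · exact lt_of_ix e
  have := cof_eq_of_up hgu hgc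
  rw [cof_W, cof_W] at this
  have e : m + 1 = n + 1 := by exact_mod_cast aleph.injective this
  have e' : m = n := by omega
  rw [e']
  exact n.2

abbrev TT (S : Set ℕ) : Type := H (H (J S))

theorem gap1_TT {m : ℕ} {S : Set ℕ} (h : Gap1 (W m) (TT S)) : m ∈ S := by
  rcases h.down (unc_W m) with h | h
  · rcases h.gap1.down (unc_W m) with h | h
    · exact mem_of_gap0 h
    · exact (not_top_J (unc_W m) S h).elim
  · exact (not_bot_J (unc_W m) S (h.bot (unc_W m))).elim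

theorem gap0_TT {m : ℕ} {S : Set ℕ} (h : m ∈ S) : Gap0 (W m) (TT S) :=
  ((gap0_J ⟨m, h⟩).up (unc_W m).1).up (unc_W m).1

end Pool.Agent.H39.Hahn3
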