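import Mathlib
import Pool.Agent.H39.NonBorel

set_option autoImplicit false

namespace Pool.Agent.H39.Hall

open Set Filter Topology MeasureTheory Pool.Agent.H39.NonBorel
open scoped commutatorElement

noncomputable section

abbrev R := LaurentPolynomial ℤ

@[ext] structure H where
  u : Rˣ
  a : R
  b : R
  c : R

instance : Mul H := ⟨fun g h => ⟨g.u * h.u, h.a + g.a * h.u, g.b + g.u * h.b, g.c + h.c + g.a * h.b⟩⟩
instance : One H := ⟨⟨1, 0, 0, 0⟩⟩
instance : Inv H := ⟨fun g => ⟨g.u⁻¹, -(g.a * g.u⁻¹), -(g.u⁻¹ * g.b), -g.c + g.a * g.u⁻¹ * g.b⟩⟩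

@[simp] theorem mul_u (g h : H) : (g * h).u = g.u * h.u := rfl
@[simp] theorem mul_a (g h : H) : (g * h).a = h.a + g.a * h.u := rfl
@[simp] theorem mul_b (g h : H) : (g * h).b = g.b + g.u * h.b := rfl
@[simp] theorem mul_c (g h : H) : (g * h).c = g.c + h.c + g.a * h.b := rfl
@[simp] theorem one_u : (1 : H).u = 1 := rfl
@[simp] theorem one_a : (1 : H).a = 0 := rfl
@[simp] theorem one_b : (1 : H).b = 0 := rfl
@[simp] theorem one_c : (1 : H).c = 0 := rfl
@[simp] theorem inv_u (g : H) : g⁻¹.u = g.u⁻¹ := rfl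
@[simp] theorem inv_a (g : H) : g⁻¹.a = -(g.a * g.u⁻¹) := rfl
@[simp] theorem inv_b (g : H) : g⁻¹.b = -(g.u⁻¹ * g.b) := rfl
@[simp] theorem inv_c (g : H) : g⁻¹.c = -g.c + g.a * g.u⁻¹ * g.b := rfl

instance : Group H := Group.ofLeftAxioms
  (fun g h k => by ext1 <;> simp [mul_assoc] <;> ring)
  (fun g => by ext1 <;> simp)
  (fun g => by ext1 <;> simp)

def pr (s : List ℕ) : ℕ := Nat.nth Nat.Prime (Encodable.encode s)

theorem pr_prime (s : List ℕ) : (pr s).Prime := Nat.prime_nth_prime _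

theorem pr_inj : Function.Injective pr := fun _ _ h =>
  Encodable.encode_injective (Nat.nth_injective Nat.infinite_setOfPred_prime h)

def ex (s : List ℕ) : ℤ := 3 * (Encodable.encode s : ℕ)

theorem ex_inj : Function.Injective ex := fun _ _ h =>
  Encodable.encode_injective (by simp only [ex] at h; omega)

/-- Central elements whose distinguished coefficients are divisible by the attached primes. -/
def Z (x : Set (List ℕ)) : Subgroup H where
  carrier := {g | g.u = 1 ∧ g.a = 0 ∧ g.b = 0 ∧ ∀ s ∈ x, (pr s : ℤ) ∣ g.c.coeff (ex s)}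
  mul_mem' := by
    rintro g h ⟨h1, h2, h3, h4⟩ ⟨h5, h6, h7, h8⟩
    refine ⟨by simp [h1, h5], by simp [h2, h6], by simp [h3, h7], fun s hs => ?_⟩
    simpa [h2] using dvd_add (h4 s hs) (h8 s hs)
  one_mem' := ⟨rfl, rfl, rfl, fun _ _ => by simp⟩
  inv_mem' := by
    rintro g ⟨h1, h2, h3, h4⟩
    exact ⟨by simp [h1], by simp [h2], by simp [h3], fun s hs => by simpa [h2] using h4 s hs⟩

instance (x : Set (List ℕ)) : (Z x).Normal := ⟨by
  rintro g hg k
  have : k * g * k⁻¹ = g := by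
    obtain ⟨h1, h2, h3, -⟩ := hg
    ext1 <;> simp [h1, h2, h3, mul_assoc]
    ring
  rwa [this]⟩

theorem pow_c {g : H} (hg : g ∈ Z ∅) (n : ℕ) : (g ^ n).c = n • g.c := by
  induction n with
  | zero => simp
  | succ n ih => rw [pow_succ', mul_c, ih, hg.2.1, succ_nsmul']; simp

theorem derived_le : derivedSeries H 2 ≤ Z ∅ := by
  let U : Subgroup H := (MonoidHom.mk' H.u mul_u).ker
  have h1 : derivedSeries H 1 ≤ U := Subgroup.commutator_le.2 fun g _ h _ => by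
    simp [U, commutatorElement_def]
  refine Subgroup.commutator_le.2 fun g hg h hh => ?_
  have h2 : g.u = 1 := h1 hg
  have h3 : h.u = 1 := h1 hh
  refine ⟨?_, ?_, ?_, fun _ h => h.elim⟩ <;> simp [commutatorElement_def, h2, h3]

abbrev F := FreeGroup (Fin 3)

def t : Rˣ := (LaurentPolynomial.isUnit_T 1).unit

def ψ : F →* H := FreeGroup.lift ![⟨t, 0, 0, 0⟩, ⟨1, 1, 0, 0⟩, ⟨1, 0, 1, 0⟩]

theorem exists_w (k : ℕ) : ∃ w ∈ derivedSeries F 2, (ψ w).c = t ^ k * (t - 1) ^ 2 := by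
  have h1 : ∀ k : ℕ, ∃ v, ψ v = ⟨1, t ^ k, 0, 0⟩ := by
    intro k
    induction k with
    | zero => exact ⟨FreeGroup.of 1, by simp [ψ]⟩
    | succ k ih =>
      obtain ⟨v, hv⟩ := ih
      refine ⟨(FreeGroup.of 0)⁻¹ * v * FreeGroup.of 0, ?_⟩
      rw [map_mul, map_mul, map_inv, hv]
      ext1 <;> simp [ψ, pow_succ]
  obtain ⟨v, hv⟩ := h1 k
  refine ⟨⁅⁅(FreeGroup.of 0 : F)⁻¹, v⁆, ⁅(FreeGroup.of 0 : F), (FreeGroup.of 2 : F)⁆⁆,
    Subgroup.commutator_mem_commutator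
      (Subgroup.commutator_mem_commutator (Subgroup.mem_top _) (Subgroup.mem_top _))
      (Subgroup.commutator_mem_commutator (Subgroup.mem_top _) (Subgroup.mem_top _)), ?_⟩
  have h2 : ψ ⁅(FreeGroup.of 0 : F)⁻¹, v⁆ = ⟨1, t ^ k * (t - 1), 0, 0⟩ := by
    rw [map_commutatorElement, map_inv, hv, commutatorElement_def]
    ext1 <;> simp [ψ]
    ring
  have h3 : ψ ⁅(FreeGroup.of 0 : F), (FreeGroup.of 2 : F)⁆ = ⟨1, 0, t - 1, 0⟩ := by
    rw [map_commutatorElement, commutatorElement_def]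
    ext1 <;> simp [ψ]
    ring
  rw [map_commutatorElement, h2, h3, commutatorElement_def]
  simp
  ring

theorem coeff_w (s s' : List ℕ) :
    (((t : R) ^ (3 * Encodable.encode s) * (t - 1) ^ 2 : R)).coeff (ex s') =
      if s = s' then 1 else 0 := by
  have h1 : ((t : R) ^ (3 * Encodable.encode s) * (t - 1) ^ 2 : R) =
      LaurentPolynomial.T (ex s + 2) + (-2 : ℤ) • LaurentPolynomial.T (ex s + 1) +
        LaurentPolynomial.T (ex s) := by
    have h2 : (t : R) = LaurentPolynomial.T 1 := rfl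
    have h3 : (LaurentPolynomial.T 2 : R) = LaurentPolynomial.T 1 ^ 2 := by
      rw [LaurentPolynomial.T_pow]; rfl
    have h4 : (LaurentPolynomial.T (ex s) : R) = LaurentPolynomial.T 1 ^ (3 * Encodable.encode s) := by
      rw [LaurentPolynomial.T_pow]; simp [ex]
    rw [LaurentPolynomial.T_add, LaurentPolynomial.T_add, h2, h3, h4]
    simp only [zsmul_eq_mul]
    push_cast
    ring
  rw [h1]
  simp only [AddMonoidAlgebra.coeff_add, AddMonoidAlgebra.coeff_smul, Finsupp.add_apply,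
    Finsupp.smul_apply, LaurentPolynomial.T_apply, ex_inj.eq_iff]
  rw [if_neg (by simp only [ex]; omega), if_neg (by simp only [ex]; omega)]
  simp

def N (x : Set (List ℕ)) : Subgroup F := (Z x).comap ψ

instance (x : Set (List ℕ)) : (N x).Normal := inferInstanceAs ((Z x).comap ψ).Normal

def Tor (M : Subgroup F) : Set (List ℕ) :=
  {s | ∃ w ∈ derivedSeries F 2, w ∉ M ∧ w ^ pr s ∈ M}

theorem mem_Z {w : F} (hw : w ∈ derivedSeries F 2) : ψ w ∈ Z ∅ :=
  derived_le (map_derivedSeries_le_derivedSeries ψ 2 ⟨w, hw, rfl⟩)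

theorem tor_sub {x : Set (List ℕ)} {M : Subgroup F} (h : N x ≤ M) : Tor M ⊆ x := by
  classical
  rintro s ⟨w, h1, h2, h3⟩
  by_contra h4
  let A : Finset (List ℕ) :=
    (((ψ w).c.coeff.support.preimage ex ex_inj.injOn)).filter (· ∈ x)
  have h5 : w ^ ∏ s' ∈ A, pr s' ∈ N x := by
    have h6 := (Z ∅).pow_mem (mem_Z h1) (∏ s' ∈ A, pr s')
    change ψ _ ∈ Z x
    rw [map_pow]
    refine ⟨h6.1, h6.2.1, h6.2.2.1, fun s' hs' => ?_⟩
    rw [pow_c (mem_Z h1), AddMonoidAlgebra.coeff_smul, Finsupp.smul_apply, nsmul_eq_mul]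
    by_cases h7 : (ψ w).c.coeff (ex s') = 0
    · simp [h7]
    · refine Dvd.dvd.mul_right (Int.natCast_dvd_natCast.2 (Finset.dvd_prod_of_mem _ ?_)) _
      simp [A, h7, hs']
  have h6 : Nat.Coprime (pr s) (∏ s' ∈ A, pr s') := Nat.Coprime.prod_right fun s' hs' =>
    (Nat.coprime_primes (pr_prime s) (pr_prime s')).2 fun h7 =>
      h4 (pr_inj h7 ▸ (Finset.mem_filter.1 hs').2)
  have h7 := Nat.gcd_eq_gcd_ab (pr s) (∏ s' ∈ A, pr s')
  rw [h6] at h7
  refine h2 ?_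
  rw [← zpow_one w, ← Nat.cast_one, h7, zpow_add, zpow_mul, zpow_mul, zpow_natCast, zpow_natCast]
  exact M.mul_mem (M.zpow_mem h3 _) (M.zpow_mem (h h5) _)

theorem tor_N (x : Set (List ℕ)) : Tor (N x) = x := by
  refine Subset.antisymm (tor_sub le_rfl) fun s hs => ?_
  obtain ⟨w, h1, h2⟩ := exists_w (3 * Encodable.encode s)
  refine ⟨w, h1, fun h3 => ?_, ?_⟩
  · have h4 := h3.2.2.2 s hs
    rw [h2, coeff_w, if_pos rfl] at h4
    exact (pr_prime s).not_dvd_one (Int.natCast_dvd_natCast.1 h4)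
  · have h6 := (Z ∅).pow_mem (mem_Z h1) (pr s)
    change ψ _ ∈ Z x
    rw [map_pow]
    refine ⟨h6.1, h6.2.1, h6.2.2.1, fun s' _ => ?_⟩
    rw [pow_c (mem_Z h1), AddMonoidAlgebra.coeff_smul, Finsupp.smul_apply, h2, coeff_w]
    split_ifs with h7 <;> simp [h7]

theorem tor_iff (M : Subgroup F) [M.Normal] (s : List ℕ) :
    s ∈ Tor M ↔ ∃ g ∈ derivedSeries (F ⧸ M) 2, g ≠ 1 ∧ g ^ pr s = 1 := by
  rw [← map_derivedSeries_eq (QuotientGroup.mk'_surjective M)]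
  constructor
  · rintro ⟨w, h1, h2, h3⟩
    exact ⟨_, ⟨w, h1, rfl⟩, fun h => h2 ((QuotientGroup.eq_one_iff w).1 h),
      (QuotientGroup.eq_one_iff _).2 h3⟩
  · rintro ⟨_, ⟨w, h1, rfl⟩, h2, h3⟩
    exact ⟨w, h1, fun h => h2 ((QuotientGroup.eq_one_iff w).2 h),
      (QuotientGroup.eq_one_iff _).1 h3⟩

theorem tor_le {M M' : Subgroup F} [M.Normal] [M'.Normal] (e : F ⧸ M ≃* F ⧸ M') :
    Tor M ⊆ Tor M' := by
  intro s
  rw [tor_iff, tor_iff]
  rintro ⟨g, h1, h2, h3⟩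
  exact ⟨e g, map_derivedSeries_le_derivedSeries e.toMonoidHom 2 ⟨g, h1, rfl⟩, by simpa using h2,
    by rw [← map_pow, h3, map_one]⟩

def A (y : Set (List ℕ)) : Prop :=
  ∃ p : Option (List ℕ), ([] ∈ y ∧ some [] ≠ p) ∧
    ∀ s, s ∈ y ∧ some s ≠ p → ∃ m, m :: s ∈ y ∧ some (m :: s) ≠ p

theorem A_branch (z : ℕ → ℕ) (s : List ℕ) : A (insert s (range (res z))) := by
  by_cases h : s ∈ range (res z)
  · rw [insert_eq_of_mem h]
    refine ⟨none, ⟨⟨0, rfl⟩, by simp⟩, ?_⟩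
    rintro _ ⟨⟨n, rfl⟩, -⟩
    exact ⟨_, ⟨n + 1, rfl⟩, by simp⟩
  · refine ⟨some s, ⟨Or.inr ⟨0, rfl⟩, fun h1 => h ⟨0, Option.some.inj h1⟩⟩, ?_⟩
    rintro _ ⟨rfl | ⟨n, rfl⟩, h1⟩
    · exact absurd rfl h1
    · exact ⟨_, Or.inr ⟨n + 1, rfl⟩, fun h1 => h ⟨n + 1, Option.some.inj h1⟩⟩

theorem residual_iff (T : List ℕ → Bool) :
    (∀ g, g ∉ N {s | T s = true} → ∃ M : Subgroup F, M.Normal ∧ N {s | T s = true} ≤ M ∧ g ∉ M ∧
      A (Tor M)) ↔ T ∈ IF := by
  constructor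
  · intro h
    obtain ⟨w, h1, h2⟩ := exists_w 0
    obtain ⟨M, -, h3, -, p, h4, h5⟩ := h (FreeGroup.of 1) fun h => by simpa [ψ] using h.2.1
    obtain ⟨y, hy⟩ := exists_branch (P := fun s => s ∈ Tor M ∧ some s ≠ p) h4 h5
    exact ⟨y, fun n => tor_sub h3 (hy n).1⟩
  · rintro ⟨z, hz⟩ g hg
    have h1 : ∃ s, T s = true ∧ g ∉ N {s} := by
      by_contra h
      push Not at h
      have h2 := h _ (hz 0)
      exact hg ⟨h2.1, h2.2.1, h2.2.2.1, fun s hs => (h s hs).2.2.2 s rfl⟩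
    obtain ⟨s, h2, h3⟩ := h1
    refine ⟨N (insert s (range (res z))), inferInstance, fun w hw =>
      ⟨hw.1, hw.2.1, hw.2.2.1, fun s' hs' => hw.2.2.2 s' ?_⟩, fun h => h3
      ⟨h.1, h.2.1, h.2.2.1, fun s' hs' => h.2.2.2 s' (Or.inl hs')⟩, ?_⟩
    · rcases hs' with rfl | ⟨n, rfl⟩
      · exact h2
      · exact hz n
    · rw [tor_N]
      exact A_branch z s

theorem measurable_S : MeasurableSet {f : F → Bool | ∃ M : Subgroup F,
    M.Normal ∧ A (Tor M) ∧ ∀ g, f g = true ↔ g ∈ M} := by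
  have h1 : {f : F → Bool | ∃ M : Subgroup F, M.Normal ∧ A (Tor M) ∧ ∀ g, f g = true ↔ g ∈ M} =
      {f | f 1 = true ∧ (∀ g h, f g = true → f h = true → f (g * h) = true) ∧
        (∀ g, f g = true → f g⁻¹ = true) ∧ (∀ g h, f g = true → f (h * g * h⁻¹) = true) ∧
        A {s | ∃ w ∈ derivedSeries F 2, ¬ f w = true ∧ f (w ^ pr s) = true}} := by
    ext f
    constructor
    · rintro ⟨M, h1, h2, h3⟩
      simp only [mem_ofPred_eq, h3]
      exact ⟨M.one_mem, fun _ _ => M.mul_mem, fun _ => M.inv_mem, fun g h hg => h1.conj_mem g hg h,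
        h2⟩
    · rintro ⟨h1, h2, h3, h4, h5⟩
      exact ⟨⟨⟨⟨{g | f g = true}, fun ha hb => h2 _ _ ha hb⟩, h1⟩, fun ha => h3 _ ha⟩,
        ⟨fun g hg h => h4 g h hg⟩, h5, fun _ => Iff.rfl⟩
  rw [h1, measurableSet_setOfPred]
  simp only [A, mem_ofPred_eq]
  fun_prop

open Classical in
theorem measurable_N : Measurable fun (T : List ℕ → Bool) (g : F) =>
    decide (g ∈ N {s | T s = true}) := by
  refine measurable_pi_lambda _ fun g => ?_
  refine (measurable_of_countable fun p : Prop => decide p).comp ?_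
  change Measurable fun T : List ℕ → Bool => (ψ g).u = 1 ∧ (ψ g).a = 0 ∧ (ψ g).b = 0 ∧
    ∀ s, T s = true → (pr s : ℤ) ∣ (ψ g).c.coeff (ex s)
  fun_prop

end

end Pool.Agent.H39.Hall
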