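import Mathlib

set_option autoImplicit false

open Filter Topology

namespace H39.ITG

abbrev Om := ℕ → Bool

def agree (n : ℕ) (x y : Om) : Prop := ∀ i < n, x i = y i

theorem agree_refl (n : ℕ) (x : Om) : agree n x x := fun _ _ => rfl
theorem agree.symm {n : ℕ} {x y : Om} (h : agree n x y) : agree n y x := fun i hi => (h i hi).symm
theorem agree.trans {n : ℕ} {x y z : Om} (h : agree n x y) (h' : agree n y z) : agree n x z :=
  fun i hi => (h i hi).trans (h' i hi)
theorem agree.mono {n m : ℕ} {x y : Om} (h : agree n x y) (hm : m ≤ n) : agree m x y :=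
  fun i hi => h i (lt_of_lt_of_le hi hm)
theorem eq_of_agree {x y : Om} (h : ∀ n, agree n x y) : x = y :=
  funext fun i => h (i + 1) i (Nat.lt_succ_self i)

def Pres (g : Om → Om) : Prop := ∀ n x y, agree n x y → agree n (g x) (g y)

def XS : Subgroup (Equiv.Perm Om) where
  carrier := {g | Pres g ∧ Pres (g⁻¹ : Equiv.Perm Om)}
  mul_mem' := by
    rintro a b ⟨ha, ha'⟩ ⟨hb, hb'⟩
    exact ⟨fun n x y h => ha n _ _ (hb n x y h), fun n x y h => by
      rw [mul_inv_rev]; exact hb' n _ _ (ha' n x y h)⟩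
  one_mem' := ⟨fun _ _ _ h => h, fun _ _ _ h => h⟩
  inv_mem' := by
    rintro a ⟨ha, ha'⟩
    exact ⟨ha', by rw [inv_inv]; exact ha⟩

/-- The automorphism group of the rooted binary tree, acting on its boundary. -/
def X : Type := XS

instance : Group X := inferInstanceAs (Group XS)

def ap (g : X) (x : Om) : Om := (Subtype.val g : Equiv.Perm Om) x

theorem ap_mul (g h : X) (x : Om) : ap (g * h) x = ap g (ap h x) := rfl
@[simp] theorem ap_one (x : Om) : ap 1 x = x := rfl
@[simp] theorem ap_inv_ap (g : X) (x : Om) : ap g⁻¹ (ap g x) = x := by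
  rw [← ap_mul, inv_mul_cancel, ap_one]
@[simp] theorem ap_ap_inv (g : X) (x : Om) : ap g (ap g⁻¹ x) = x := by
  rw [← ap_mul, mul_inv_cancel, ap_one]
theorem ap_pres (g : X) : Pres (ap g) := (Subtype.prop g).1
theorem X.ext' {g h : X} (e : ∀ x, ap g x = ap h x) : g = h := Subtype.ext (Equiv.ext e)

def mkX (a b : Om → Om) (h1 : ∀ x, b (a x) = x) (h2 : ∀ x, a (b x) = x) (ha : Pres a)
    (hb : Pres b) : X := (⟨⟨a, b, h1, h2⟩, ha, hb⟩ : XS)

@[simp] theorem ap_mkX (a b : Om → Om) (h1 : ∀ x, b (a x) = x) (h2 : ∀ x, a (b x) = x)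
    (ha : Pres a) (hb : Pres b) (x : Om) : ap (mkX a b h1 h2 ha hb) x = a x := rfl

def KF (F : Finset Om) : Set X := {g | ∀ x ∈ F, ap g x = x}

open Pointwise Classical in
@[reducible] noncomputable def gfb : GroupFilterBasis X :=
  { sets := Set.range KF
    nonempty := ⟨_, ∅, rfl⟩
    inter_sets := by
      rintro _ _ ⟨F, rfl⟩ ⟨G, rfl⟩
      exact ⟨_, ⟨F ∪ G, rfl⟩, fun g hg => ⟨fun x hx => hg x (by simp [hx]),
        fun x hx => hg x (by simp [hx])⟩⟩
    one' := by
      rintro _ ⟨F, rfl⟩ x _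
      rfl
    mul' := by
      rintro _ ⟨F, rfl⟩
      refine ⟨_, ⟨F, rfl⟩, ?_⟩
      rintro _ ⟨a, ha, b, hb, rfl⟩ x hx
      simp only
      rw [ap_mul, hb x hx, ha x hx]
    inv' := by
      rintro _ ⟨F, rfl⟩
      refine ⟨_, ⟨F, rfl⟩, fun g hg x hx => ?_⟩
      nth_rewrite 1 [← hg x hx]
      exact ap_inv_ap g x
    conj' := by
      rintro k _ ⟨F, rfl⟩
      refine ⟨_, ⟨F.image (ap k⁻¹), rfl⟩, fun g hg x hx => ?_⟩
      simp only
      rw [ap_mul, ap_mul, hg _ (Finset.mem_image_of_mem _ hx), ap_ap_inv] }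

noncomputable instance : TopologicalSpace X := gfb.topology
instance : IsTopologicalGroup X := gfb.isTopologicalGroup

theorem mem_nhds_one {U : Set X} : U ∈ 𝓝 (1 : X) ↔ ∃ F, KF F ⊆ U := by
  rw [gfb.nhds_one_hasBasis.mem_iff]
  constructor
  · rintro ⟨_, ⟨F, rfl⟩, h⟩
    exact ⟨F, h⟩
  · rintro ⟨F, h⟩
    exact ⟨_, ⟨F, rfl⟩, h⟩

theorem KF_mem (F : Finset Om) : KF F ∈ 𝓝 (1 : X) := mem_nhds_one.mpr ⟨F, subset_rfl⟩

instance : T2Space X := by
  apply IsTopologicalGroup.t2Space_of_one_sep
  intro g hg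
  have : ∃ x, ap g x ≠ x := by
    by_contra h
    push Not at h
    exact hg (X.ext' h)
  obtain ⟨x, hx⟩ := this
  exact ⟨KF {x}, KF_mem _, fun h => hx (h x (by simp))⟩

theorem trans (x y : Om) : ∃ g : X, ap g x = y := by
  let a : Om → Om := fun z i => xor (z i) (xor (x i) (y i))
  have ha : Pres a := fun n z w h i hi => by simp only [a, h i hi]
  have h1 : ∀ z, a (a z) = z := fun z => by funext i; simp [a]
  refine ⟨mkX a a h1 h1 ha ha, ?_⟩
  funext i
  simp [a]

theorem not_compact : ¬ CompactSpace X := by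
  classical
  intro h
  obtain ⟨t, ht⟩ := CompactSpace.elim_nhds_subcover
    (fun g : X => {k | ap k (fun _ => false) = ap g (fun _ => false)}) (fun g => by
      have : Continuous fun k : X => g⁻¹ * k := by fun_prop
      have h2 := this.continuousAt (x := g)
      rw [ContinuousAt, inv_mul_cancel] at h2
      filter_upwards [h2 (KF_mem {fun _ => false})] with k hk
      have := congrArg (ap g) (hk _ (Finset.mem_singleton_self _))
      rwa [ap_mul, ap_ap_inv] at this)
  obtain ⟨y, hy⟩ := Infinite.exists_notMem_finset (t.image fun g => ap g (fun _ => false))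
  obtain ⟨k, hk⟩ := trans (fun _ => false) y
  have : k ∈ (⊤ : Set X) := trivial
  rw [← ht] at this
  simp only [Set.mem_iUnion] at this
  obtain ⟨g, hg, hkg⟩ := this
  exact hy (Finset.mem_image.mpr ⟨g, hg, by rw [← hk]; exact hkg.symm⟩)

def ext (n : ℕ) (a : Fin n → Bool) : Om := fun i => if h : i < n then a ⟨i, h⟩ else false
def res (n : ℕ) (x : Om) : Fin n → Bool := fun i => x i

theorem res_ext (n : ℕ) (a : Fin n → Bool) : res n (ext n a) = a := by
  funext i; simp [res, ext]
theorem agree_ext (n : ℕ) (x : Om) : agree n (ext n (res n x)) x := by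
  intro i hi; simp [res, ext, hi]
theorem res_eq {n : ℕ} {x y : Om} (h : agree n x y) : res n x = res n y := by
  funext i; exact h i i.2
theorem agree_of_res {n : ℕ} {x y : Om} (h : res n x = res n y) : agree n x y :=
  fun i hi => congrFun h ⟨i, hi⟩

def P (n : ℕ) : Type := Equiv.Perm (Fin n → Bool)
instance (n : ℕ) : Group (P n) := inferInstanceAs (Group (Equiv.Perm (Fin n → Bool)))
instance (n : ℕ) : Finite (P n) := inferInstanceAs (Finite (Equiv.Perm (Fin n → Bool)))
instance (n : ℕ) : TopologicalSpace (P n) := ⊥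
instance (n : ℕ) : DiscreteTopology (P n) := ⟨rfl⟩
instance (n : ℕ) : IsTopologicalGroup (P n) where
  continuous_mul := continuous_of_discreteTopology
  continuous_inv := continuous_of_discreteTopology

def levE (n : ℕ) : X →* Function.End (Fin n → Bool) where
  toFun g := fun a => res n (ap g (ext n a))
  map_one' := by funext a; exact res_ext n a
  map_mul' g h := by
    funext a
    exact res_eq (ap_pres g n _ _ (agree_ext n _).symm)

def lev (n : ℕ) : X →* P n := (levE n).toHomPerm

theorem lev_apply (n : ℕ) (g : X) (a : Fin n → Bool) :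
    (show Equiv.Perm (Fin n → Bool) from lev n g) a = res n (ap g (ext n a)) := rfl

theorem map_ex : ∃ (K : Type) (_ : Group K) (_ : TopologicalSpace K) (_ : IsTopologicalGroup K)
    (_ : CompactSpace K) (_ : T2Space K) (f : X →* K), Continuous f ∧ Function.Injective f := by
  classical
  refine ⟨∀ n, P n, inferInstance, inferInstance, inferInstance, inferInstance, inferInstance,
    MonoidHom.pi lev, ?_, ?_⟩
  · apply continuous_pi
    intro n
    apply continuous_of_continuousAt_one (lev n)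
    rw [ContinuousAt, map_one, nhds_discrete (P n), tendsto_pure]
    filter_upwards [KF_mem (Finset.univ.image (ext n))] with g hg
    apply Equiv.ext
    intro a
    rw [lev_apply, hg _ (Finset.mem_image_of_mem _ (Finset.mem_univ a)), res_ext]
    rfl
  · rw [injective_iff_map_eq_one]
    intro g hg
    apply X.ext'
    intro x
    apply eq_of_agree
    intro n
    have h1 : lev n g = 1 := congrFun hg n
    have h2 := lev_apply n g (res n x)
    rw [h1] at h2
    exact (ap_pres g n _ _ (agree_ext n x).symm).trans (agree_of_res h2.symm)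

theorem stab_inf {x y : Om} (h : y ≠ x) (F : Finset Om) : ∃ k : X, ap k x = x ∧ ap k y ∉ F := by
  classical
  obtain ⟨n, hn⟩ := Function.ne_iff.mp h
  let a : ℕ → Om → Om := fun j z =>
    if z n = y n then Function.update z (n + 1 + j) (!z (n + 1 + j)) else z
  have han : ∀ j z i, i ≤ n → a j z i = z i := by
    intro j z i hi
    simp only [a]
    split_ifs
    · rw [Function.update_of_ne (by omega)]
    · rfl
  have h1 : ∀ j z, a j (a j z) = z := by
    intro j z
    by_cases hz : z n = y n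
    · have h2 : a j z n = y n := by rw [han j z n le_rfl, hz]
      have h3 : a j z = Function.update z (n + 1 + j) (!z (n + 1 + j)) := if_pos hz
      have h4 : a j (a j z) = Function.update (a j z) (n + 1 + j) (!(a j z) (n + 1 + j)) :=
        if_pos h2
      rw [h4, h3]
      simp
    · have h3 : a j z = z := if_neg hz
      rw [h3, h3]
  have ha : ∀ j, Pres (a j) := by
    intro j m z w hzw i hi
    by_cases hin : i ≤ n
    · rw [han j z i hin, han j w i hin, hzw i hi]
    · have := hzw n (by omega)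
      simp only [a, this]
      split_ifs
      · by_cases hij : i = n + 1 + j
        · subst hij; simp [hzw _ hi]
        · rw [Function.update_of_ne hij, Function.update_of_ne hij, hzw i hi]
      · exact hzw i hi
  have hinj : Function.Injective fun j => a j y := by
    intro j j' hj
    by_contra hne
    have := congrFun hj (n + 1 + j)
    simp only [a, if_true] at this
    rw [Function.update_self, Function.update_of_ne (by omega)] at this
    simp at this
  obtain ⟨j, hj⟩ : ∃ j, a j y ∉ F := by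
    by_contra hc
    push Not at hc
    exact Set.infinite_of_injective_forall_mem (s := (F : Set Om)) hinj hc F.finite_toSet
  exact ⟨mkX (a j) (a j) (h1 j) (h1 j) (ha j) (ha j), if_neg (fun h => hn h.symm), hj⟩

theorem restr (n : ℕ) (g : X) (hg : ∀ x, agree n (ap g x) x) (p : Om → Prop)
    (hp : ∀ x y, agree n x y → p x → p y) :
    ∃ k : X, (∀ x, p x → ap k x = ap g x) ∧ ∀ x, ¬ p x → ap k x = x := by
  classical
  have hg' : ∀ x, agree n (ap g⁻¹ x) x := fun x => by
    have := (hg (ap g⁻¹ x)).symm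
    rwa [ap_ap_inv] at this
  have pres : ∀ g : X, (∀ x, agree n (ap g x) x) → Pres fun x => if p x then ap g x else x := by
    intro g hg m x y hxy
    by_cases hm : m ≤ n
    · have : ∀ z, agree m (if p z then ap g z else z) z := by
        intro z
        split_ifs
        · exact (hg z).mono hm
        · exact agree_refl _ _
      exact (this x).trans (hxy.trans (this y).symm)
    · have h1 := hxy.mono (show n ≤ m by omega)
      by_cases hx : p x
      · simp only [hx, hp x y h1 hx, if_true]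
        exact ap_pres g m x y hxy
      · have hy : ¬ p y := fun hy => hx (hp y x h1.symm hy)
        simp only [hx, hy, if_false]
        exact hxy
  refine ⟨mkX (fun x => if p x then ap g x else x) (fun x => if p x then ap g⁻¹ x else x) ?_ ?_
    (pres g hg) (pres g⁻¹ hg'), fun x hx => if_pos hx, fun x hx => if_neg hx⟩
  · intro x
    by_cases hx : p x
    · simp [hx, hp x _ (hg x).symm hx]
    · simp [hx]
  · intro x
    by_cases hx : p x
    · simp [hx, hp x _ (hg' x).symm hx]
    · simp [hx]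

theorem ulim_aux (U : Ultrafilter X) (φ : X → X) :
    ∃ L : Om → Om, ∀ x n, ∀ᶠ g in (U : Filter X), agree n (ap (φ g) x) (L x) := by
  have : ∀ (x : Om) (i : ℕ), ∃ b, ∀ᶠ g in (U : Filter X), ap (φ g) x i = b := by
    intro x i
    rcases U.mem_or_compl_mem {g | ap (φ g) x i = true} with h | h
    · exact ⟨true, h⟩
    · refine ⟨false, ?_⟩
      filter_upwards [h] with g hg
      simpa using hg
  choose L hL using this
  refine ⟨L, fun x n => ?_⟩
  have := (eventually_all_finset (Finset.range n)).mpr (fun i _ => hL x i)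
  filter_upwards [this] with g hg i hi
  exact hg i (Finset.mem_range.mpr hi)

theorem ulim (U : Ultrafilter X) :
    ∃ l : X, ∀ x n, ∀ᶠ g in (U : Filter X), agree n (ap g x) (ap l x) := by
  obtain ⟨L, hL⟩ := ulim_aux U id
  obtain ⟨L', hL'⟩ := ulim_aux U (fun g => g⁻¹)
  refine ⟨mkX L L' ?_ ?_ ?_ ?_, hL⟩
  · intro x
    apply eq_of_agree
    intro n
    obtain ⟨g, h1, h2⟩ := ((hL x n).and (hL' (L x) n)).exists
    have := ap_pres g⁻¹ n _ _ h1
    simp only [id, ap_inv_ap] at this
    exact (this.trans h2).symm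
  · intro x
    apply eq_of_agree
    intro n
    obtain ⟨g, h1, h2⟩ := ((hL' x n).and (hL (L' x) n)).exists
    have := ap_pres g n _ _ h1
    simp only [ap_ap_inv] at this
    exact (this.trans h2).symm
  · intro n x y h
    obtain ⟨g, h1, h2⟩ := ((hL x n).and (hL y n)).exists
    exact h1.symm.trans ((ap_pres g n _ _ h).trans h2)
  · intro n x y h
    obtain ⟨g, h1, h2⟩ := ((hL' x n).and (hL' y n)).exists
    exact h1.symm.trans ((ap_pres g⁻¹ n _ _ h).trans h2)

section
variable {Y : Type} [Group Y] [TopologicalSpace Y] [IsTopologicalGroup Y] (f : X →* Y)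

theorem conj_nhds (k : Y) {U : Set Y} (hU : U ∈ 𝓝 (1 : Y)) :
    {y | k * y * k⁻¹ ∈ U} ∈ 𝓝 (1 : Y) := by
  have : Continuous fun y : Y => k * y * k⁻¹ := by fun_prop
  have h2 := this.continuousAt (x := 1)
  rw [ContinuousAt, mul_one, mul_inv_cancel] at h2
  exact h2 hU

theorem base (hB : ∀ x, ∀ U ∈ 𝓝 (1 : Y), ∃ g, f g ∈ U ∧ ap g x ≠ x) (x : Om) {U : Set Y}
    (hU : U ∈ 𝓝 (1 : Y)) (F : Finset Om) : ∃ g, f g ∈ U ∧ ap g x ∉ F := by
  by_contra hc
  push Not at hc
  have key : ∀ y, y ≠ x → ∀ᶠ u in 𝓝 (1 : Y), ∀ g, f g = u → ap g x ≠ y := by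
    intro y hy
    obtain ⟨k, hk1, hk2⟩ := stab_inf hy F
    filter_upwards [conj_nhds (f k) hU] with u hu g hg hgx
    have := hc (k * g * k⁻¹) (by rw [map_mul, map_mul, map_inv, hg]; exact hu)
    apply hk2
    rw [← hgx, ← hk1]
    nth_rewrite 1 [← hk1] at this
    rw [ap_mul, ap_mul, ap_inv_ap] at this
    rwa [hk1]
  have h2 : ∀ᶠ u in 𝓝 (1 : Y), ∀ y ∈ F, y ≠ x → ∀ g, f g = u → ap g x ≠ y := by
    rw [eventually_all_finset]
    intro y _
    by_cases hy : y = x
    · simp [hy]
    · filter_upwards [key y hy] with u hu _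
      exact hu
  obtain ⟨g, ⟨hg1, hg2⟩, hg3⟩ := hB x _ (inter_mem hU h2)
  exact hg2 _ (hc g hg1) hg3 g rfl rfl

theorem neumann (hB : ∀ x, ∀ U ∈ 𝓝 (1 : Y), ∃ g, f g ∈ U ∧ ap g x ≠ x) (F : Finset Om) :
    ∀ U ∈ 𝓝 (1 : Y), ∀ F' : Finset Om, ∃ g, f g ∈ U ∧ ∀ x ∈ F, ap g x ∉ F' := by
  classical
  induction F using Finset.induction_on with
  | empty => intro U hU F'; exact ⟨1, by simpa using mem_of_mem_nhds hU, by simp⟩
  | insert x F0 _ ih =>
    intro U hU F'
    obtain ⟨W1, hW1, h1⟩ := exists_nhds_one_split hU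
    obtain ⟨W2, hW2, h2⟩ := exists_nhds_split_inv hW1
    obtain ⟨a, ha, hax⟩ := base f hB x hW2 F'
    have : ∀ y, ∃ b, (∃ c, f c ∈ W2 ∧ ap c x = y) → f b ∈ W2 ∧ ap b x = y := by
      intro y
      by_cases h : ∃ c, f c ∈ W2 ∧ ap c x = y
      · obtain ⟨c, hc⟩ := h
        exact ⟨c, fun _ => hc⟩
      · exact ⟨1, fun h' => absurd h' h⟩
    choose b hb using this
    obtain ⟨c, hc, hcF⟩ := ih (W1 ∩ W2) (inter_mem hW1 hW2)
      (F' ∪ F'.biUnion fun y => F'.image (ap (b y * a⁻¹)))
    have hW1U : W1 ⊆ U := fun u hu => by simpa using h1 u hu 1 (mem_of_mem_nhds hW1)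
    by_cases hcx : ap c x ∈ F'
    · obtain ⟨hb1, hb2⟩ := hb (ap c x) ⟨c, hc.2, rfl⟩
      refine ⟨a * (b (ap c x))⁻¹ * c, ?_, ?_⟩
      · rw [map_mul, map_mul, map_inv, ← div_eq_mul_inv]
        exact h1 _ (h2 _ ha _ hb1) _ hc.1
      · intro z hz
        rcases Finset.mem_insert.mp hz with rfl | hz
        · rw [ap_mul, ap_mul]
          nth_rewrite 2 [← hb2]
          rwa [ap_inv_ap]
        · intro hzz
          apply hcF z hz
          refine Finset.mem_union_right _ (Finset.mem_biUnion.mpr ⟨_, hcx,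
            Finset.mem_image.mpr ⟨_, hzz, ?_⟩⟩)
          simp [ap_mul]
    · refine ⟨c, hW1U hc.1, ?_⟩
      intro z hz
      rcases Finset.mem_insert.mp hz with rfl | hz
      · exact hcx
      · exact fun h => hcF z hz (Finset.mem_union_left _ h)

theorem level (hf : Continuous f) (hB : ∀ x, ∀ U ∈ 𝓝 (1 : Y), ∃ g, f g ∈ U ∧ ap g x ≠ x)
    {U : Set Y} (hU : U ∈ 𝓝 (1 : Y)) : ∃ n, ∀ g, (∀ x, agree n (ap g x) x) → f g ∈ U := by
  classical
  obtain ⟨W1, hW1, h1⟩ := exists_nhds_one_split hU
  obtain ⟨W2, hW2, h2⟩ := exists_nhds_split_inv hW1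
  obtain ⟨W3, hW3, h3⟩ := exists_nhds_one_split hW2
  have hc := hf.continuousAt (x := 1)
  rw [ContinuousAt, map_one] at hc
  obtain ⟨F, hF⟩ := mem_nhds_one.mp (hc (inter_mem hW1 hW3))
  obtain ⟨w, hw, hwF⟩ := neumann f hB F _ (inter_mem hW2 hW3) F
  have hsep : ∀ᶠ n in atTop, ∀ x ∈ F, ∀ y ∈ F, ¬ agree n (ap w x) y := by
    rw [eventually_all_finset]
    intro x hx
    rw [eventually_all_finset]
    intro y hy
    have : ap w x ≠ y := fun h => hwF x hx (h ▸ hy)
    obtain ⟨i, hi⟩ := Function.ne_iff.mp this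
    filter_upwards [eventually_gt_atTop i] with n hn h
    exact hi (h i hn)
  obtain ⟨n, hn⟩ := hsep.exists
  refine ⟨n, fun g hg => ?_⟩
  obtain ⟨k, hk1, hk2⟩ := restr n g hg (fun x => ∃ y ∈ F, agree n x y)
    (fun x y h ⟨z, hz, hxz⟩ => ⟨z, hz, h.symm.trans hxz⟩)
  have e1 : k⁻¹ * g ∈ KF F := by
    intro x hx
    rw [ap_mul, ← hk1 x ⟨x, hx, agree_refl _ _⟩, ap_inv_ap]
  have e2 : w⁻¹ * k * w ∈ KF F := by
    intro x hx
    rw [ap_mul, ap_mul, hk2 _ (fun ⟨y, hy, h⟩ => hn x hx y hy h), ap_inv_ap]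
  have : f g = (f w * f (w⁻¹ * k * w)) / f w * f (k⁻¹ * g) := by
    rw [div_eq_mul_inv, ← map_inv, ← map_mul, ← map_mul, ← map_mul]
    congr 1
    group
  rw [this]
  exact h1 _ (h2 _ (h3 _ hw.2 _ (hF e2).2) _ hw.1) _ (hF e1).1

theorem closed_range [T2Space Y] (hf : Continuous f) : IsClosed (Set.range f) := by
  classical
  rw [← closure_subset_iff_isClosed]
  intro y hy
  have hne : (comap f (𝓝 y)).NeBot := by
    apply Filter.comap_neBot
    intro t ht
    obtain ⟨_, h1, g, rfl⟩ := mem_closure_iff_nhds.mp hy t ht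
    exact ⟨g, h1⟩
  let U : Ultrafilter X := Ultrafilter.of (comap f (𝓝 y))
  have hUy : Tendsto f U (𝓝 y) := tendsto_iff_comap.mpr (Ultrafilter.of_le _)
  obtain ⟨l, hl⟩ := ulim U
  have key : ∀ V ∈ 𝓝 (1 : Y), ∀ᶠ g in (U : Filter X), f (l⁻¹ * g) ∈ V := by
    by_cases hB : ∀ x, ∀ U ∈ 𝓝 (1 : Y), ∃ g, f g ∈ U ∧ ap g x ≠ x
    · intro V hV
      obtain ⟨n, hn⟩ := level f hf hB hV
      have := eventually_all.mpr (fun a : Fin n → Bool => hl (ext n a) n)
      filter_upwards [this] with g hg
      apply hn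
      intro x
      have h1 := ap_pres l⁻¹ n _ _ (hg (res n x))
      rw [ap_inv_ap, ← ap_mul] at h1
      exact (ap_pres _ n _ _ (agree_ext n x).symm).trans (h1.trans (agree_ext n x))
    · push Not at hB
      obtain ⟨x0, U0, hU0, h0⟩ := hB
      have hpt : ∀ x, ∀ᶠ g in (U : Filter X), ap g x = ap l x := by
        intro x
        obtain ⟨k, hk⟩ := trans x x0
        obtain ⟨W, hW, hW'⟩ := exists_nhds_split_inv (conj_nhds (f k) hU0)
        have ht : Tendsto (fun g => (f g)⁻¹ * y) U (𝓝 1) := by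
          have := (hUy.inv).mul_const y
          rwa [inv_mul_cancel] at this
        have hS : ∀ᶠ g in (U : Filter X), (f g)⁻¹ * y ∈ W := ht hW
        have hconst : ∀ g g' : X, (f g)⁻¹ * y ∈ W → (f g')⁻¹ * y ∈ W → ap g' x = ap g x := by
          intro g g' hg hg'
          have h1 := hW' _ hg _ hg'
          have h2 := h0 (k * (g⁻¹ * g') * k⁻¹) (by
            have : f (k * (g⁻¹ * g') * k⁻¹)
                = f k * ((f g)⁻¹ * y / ((f g')⁻¹ * y)) * (f k)⁻¹ := by
              simp only [map_mul, map_inv, div_eq_mul_inv]; group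
            rw [this]; exact h1)
          rw [← hk, ap_mul, ap_mul, ap_inv_ap] at h2
          have h3 := congrArg (fun z => ap g (ap k⁻¹ z)) h2
          simpa [ap_mul] using h3
        filter_upwards [hS] with g hg
        apply eq_of_agree
        intro n
        obtain ⟨g', h1, h2⟩ := (hS.and (hl x n)).exists
        rwa [hconst g g' hg h1] at h2
      intro V hV
      have hc := hf.continuousAt (x := 1)
      rw [ContinuousAt, map_one] at hc
      obtain ⟨F, hF⟩ := mem_nhds_one.mp (hc hV)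
      filter_upwards [(eventually_all_finset F).mpr (fun x _ => hpt x)] with g hg
      apply hF
      intro x hx
      rw [ap_mul, hg x hx, ap_inv_ap]
  have h1 : Tendsto (fun g => f (l⁻¹ * g)) U (𝓝 1) := key
  have h2 := h1.const_mul (f l)
  simp only [← map_mul, mul_inv_cancel_left, mul_one] at h2
  exact ⟨l, tendsto_nhds_unique h2 hUy⟩

end

end H39.ITG
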