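import Mathlib
import Pool.Agent.H39.NonBorel
import Pool.Agent.H39.BaireLoc

set_option autoImplicit false

namespace Pool.Agent.H39.IdealLimit

open Set Filter Topology MeasureTheory Pool.Agent.H39.NonBorel Pool.Agent.H39.BaireLoc

open Classical in
noncomputable def glue (n : ℕ) (s : Finset ℕ) (S : Set ℕ) (h : ℕ → Bool) : ℕ → Bool :=
  fun i => if i < n then decide (i ∈ s) else (h i && decide (i ∈ S))

theorem continuous_glue (n : ℕ) (s : Finset ℕ) (S : Set ℕ) : Continuous (glue n s S) := by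
  classical
  refine continuous_pi fun i => ?_
  simp only [glue]
  split_ifs
  · exact continuous_const
  · exact (continuous_of_discreteTopology (f := fun b : Bool => (b && decide (i ∈ S)))).comp
      (continuous_apply i)

def Big (n : ℕ) (s : Finset ℕ) (S : Set ℕ) (A : Set (ℕ → Bool)) : Prop :=
  {h | glue n s S h ∈ A} ∈ residual (ℕ → Bool)

theorem big_base {I : Set (Set ℕ)} (hI : IsIdeal I)
    (hm : MeasurableSet {f : ℕ → Bool | {n | f n = true} ∈ I}) {S : Set ℕ} (hS : S ∉ I) :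
    Big 0 ∅ S {f : ℕ → Bool | {n | f n = true} ∉ I} := by
  by_contra h
  obtain ⟨p0, n0, h1⟩ := localize
    (MeasurableSet.baireMeasurableSet ((continuous_glue 0 ∅ S).measurable hm)) h
  have h2 := h1 n0 le_rfl
  have h3 := residual_invol (φ := fun b : Bool => !b) (by simp) h2
  obtain ⟨p, h4, h5⟩ := (dense_of_mem_residual (inter_mem h2 h3)).nonempty
  refine hS (hI.down _ (hI.union _ (hI.fin _ (finite_lt_nat n0)) _ (hI.union _ h4 _ h5)) _ ?_)
  intro a ha
  by_cases h6 : a < n0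
  · exact Or.inl h6
  · right
    simp only [mem_union, mem_ofPred_eq, glue, ovw, if_neg h6, ha]
    cases p a <;> simp

theorem big_down {n : ℕ} {s : Finset ℕ} {S : Set ℕ} {A : Set (ℕ → Bool)} (h : Big n s S A)
    {N : ℕ} (hN : n ≤ N) : Big N (s.filter (· < n)) S A := by
  have h1 : ∀ p, glue N (s.filter (· < n)) S p = glue n s S (ovw (fun _ => false) N p) := by
    intro p
    funext i
    simp only [glue, ovw, Finset.mem_filter]
    by_cases h2 : i < n
    · simp [h2, h2.trans_le hN]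
    · by_cases h3 : i < N <;> simp [h2, h3]
  simp only [Big, h1]
  exact residual_over _ _ h

theorem big_up {ι : Type} [Countable ι] {n : ℕ} {s : Finset ℕ} {S : Set ℕ}
    {A : ι → Set (ℕ → Bool)} (hA : ∀ k, MeasurableSet (A k)) (h : Big n s S (⋃ k, A k)) :
    ∃ k n' s', n ≤ n' ∧ (∀ a < n, a ∈ s' ↔ a ∈ s) ∧ (∀ a ∈ s', n ≤ a → a ∈ S) ∧
      Big n' s' S (A k) := by
  classical
  obtain ⟨k, hk⟩ : ∃ k, ¬ IsMeagre (glue n s S ⁻¹' A k) := by
    by_contra h1
    push Not at h1
    obtain ⟨p, h2, h3⟩ := (dense_of_mem_residual (inter_mem h (isMeagre_iUnion h1))).nonempty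
    obtain ⟨k, hk⟩ := mem_iUnion.1 h2
    exact h3 (mem_iUnion.2 ⟨k, hk⟩)
  obtain ⟨p0, n0, h1⟩ := localize
    (MeasurableSet.baireMeasurableSet ((continuous_glue n s S).measurable (hA k))) hk
  refine ⟨k, max n n0, (Finset.range (max n n0)).filter fun a => glue n s S p0 a = true,
    le_max_left _ _, fun a ha => ?_, fun a ha hna => ?_, ?_⟩
  · simp [glue, ha]
  · have := (Finset.mem_filter.1 ha).2
    simp only [glue, if_neg (not_lt.2 hna), Bool.and_eq_true, decide_eq_true_eq] at this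
    exact this.2
  · have h2 : ∀ p, glue (max n n0)
        ((Finset.range (max n n0)).filter fun a => glue n s S p0 a = true) S p
        = glue n s S (ovw p0 (max n n0) p) := by
      intro p
      funext i
      by_cases h3 : i < max n n0
      · have h4 : glue n s S (ovw p0 (max n n0) p) i = glue n s S p0 i := by
          simp only [glue, ovw, if_pos h3]
        rw [h4, glue, if_pos h3, Bool.eq_iff_iff]
        simp only [Finset.mem_filter, Finset.mem_range, h3, true_and, decide_eq_true_eq]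
      · have h4 : ¬ i < n := fun h => h3 (h.trans_le (le_max_left _ _))
        simp only [glue, ovw, if_neg h3, if_neg h4]
    simp only [Big, h2]
    exact h1 _ (le_max_right _ _)

theorem big_point {n : ℕ} {s : Finset ℕ} {S : Set ℕ} {A : Set (ℕ → Bool)} (h : Big n s S A) :
    ∃ z ∈ A, ∀ a < n, (z a = true ↔ a ∈ s) := by
  obtain ⟨p, hp⟩ := (dense_of_mem_residual h).nonempty
  exact ⟨_, hp, fun a ha => by simp [glue, ha]⟩

section
variable {X : Type} [MetricSpace X] [SecondCountableTopology X]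

def Small (L Y : Set X) : Prop :=
  ∃ F : Set (Set X), F.Countable ∧ (∀ D ∈ F, IsClosed D ∧ D ⊆ L) ∧ Y ⊆ ⋃₀ F

omit [SecondCountableTopology X] in
theorem Small.mono {L Y Z : Set X} (h : Small L Y) (hZ : Z ⊆ Y) : Small L Z := by
  obtain ⟨F, h1, h2, h3⟩ := h
  exact ⟨F, h1, h2, hZ.trans h3⟩

omit [SecondCountableTopology X] in
theorem small_iUnion {L : Set X} {ι : Type} [Countable ι] {Y : ι → Set X}
    (h : ∀ i, Small L (Y i)) : Small L (⋃ i, Y i) := by
  choose F h1 h2 h3 using h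
  refine ⟨⋃ i, F i, countable_iUnion h1, fun D hD => ?_, iUnion_subset fun i => (h3 i).trans ?_⟩
  · obtain ⟨i, hi⟩ := mem_iUnion.1 hD
    exact h2 i D hi
  · exact sUnion_mono (subset_iUnion F i)

theorem exists_point {L Y V : Set X} (hV : IsOpen V) (h : ¬ Small L (Y ∩ V)) :
    ∃ q ∈ V, q ∉ L ∧ ∀ W, IsOpen W → q ∈ W → ¬ Small L (Y ∩ W) := by
  let B := {O : Set X | O ∈ TopologicalSpace.countableBasis X ∧ Small L (Y ∩ O)}
  have hB : B.Countable := (TopologicalSpace.countable_countableBasis X).mono fun _ h => h.1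
  have := hB.to_subtype
  have h1 : Small L (⋃ O : B, Y ∩ O.1) := small_iUnion fun O => O.2.2
  let Y' := Y \ ⋃ O : B, O.1
  by_contra h2
  push Not at h2
  have h3 : closure Y' ∩ V ⊆ L := by
    rintro q ⟨hq, hqV⟩
    by_contra hqL
    obtain ⟨W, hW, hqW, hs⟩ := h2 q hqV hqL
    obtain ⟨y, hyW, hyY, hy⟩ := mem_closure_iff.1 hq W hW hqW
    obtain ⟨O, hO, hyO, hOW⟩ :=
      (TopologicalSpace.isBasis_countableBasis X).exists_subset_of_mem_open hyW hW
    exact hy (mem_iUnion.2 ⟨⟨O, hO, hs.mono (inter_subset_inter_right _ hOW)⟩, hyO⟩)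
  obtain ⟨F, hF1, hF2, hF3, -⟩ := hV.exists_iUnion_isClosed
  have h4 : Small L (closure Y' ∩ V) := by
    refine ⟨range fun n => closure Y' ∩ F n, countable_range _, ?_, ?_⟩
    · rintro _ ⟨n, rfl⟩
      exact ⟨isClosed_closure.inter (hF1 n), (inter_subset_inter_right _ (hF2 n)).trans h3⟩
    · rintro y ⟨hy, hyV⟩
      rw [← hF3] at hyV
      obtain ⟨n, hn⟩ := mem_iUnion.1 hyV
      exact ⟨_, ⟨n, rfl⟩, hy, hn⟩
  refine h ((small_iUnion (Y := fun b : Bool => if b then ⋃ O : B, Y ∩ O.1 else closure Y' ∩ V)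
    fun b => by cases b; exacts [h4, h1]).mono ?_)
  rintro y ⟨hy, hyV⟩
  by_cases h5 : y ∈ ⋃ O : B, O.1
  · obtain ⟨O, hO⟩ := mem_iUnion.1 h5
    exact mem_iUnion.2 ⟨true, mem_iUnion.2 ⟨O, hy, hO⟩⟩
  · exact mem_iUnion.2 ⟨false, subset_closure ⟨hy, h5⟩, hyV⟩

def Lam (x : ℕ → X) (n : ℕ) (s : Finset ℕ) (A : Set (ℕ → Bool)) : Set X :=
  {η | ∃ S, Tendsto x (atTop ⊓ 𝓟 S) (𝓝 η) ∧ Big n s S A}

theorem step (x : ℕ → X) (L : Set X) {n : ℕ} {s : Finset ℕ} {A : Set (ℕ → Bool)} {V : Set X}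
    {C : ℕ → Set (ℕ → Bool)} (hA : MeasurableSet A) (hC : ∀ k, MeasurableSet (C k))
    (hAC : A ⊆ ⋃ k, C k) (hV : IsOpen V) (h : ¬ Small L (Lam x n s A ∩ V)) :
    ∃ q, q ∉ L ∧ ∀ m : ℕ, ∃ (n' : ℕ) (s' : Finset ℕ) (k : ℕ), n < n' ∧ (∀ a < n, a ∈ s' ↔ a ∈ s) ∧
      (∀ a ∈ s', n ≤ a → x a ∈ V ∩ Metric.ball q (1 / (m + 1))) ∧
      ¬ Small L (Lam x n' s' (A ∩ C k) ∩ (V ∩ Metric.ball q (1 / (m + 1)))) := by
  obtain ⟨q, hqV, hqL, hq⟩ := exists_point hV h
  refine ⟨q, hqL, fun m => ?_⟩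
  set W := V ∩ Metric.ball q (1 / (m + 1)) with hW
  have hWo : IsOpen W := hV.inter Metric.isOpen_ball
  by_contra h1
  push Not at h1
  refine hq W hWo ⟨hqV, Metric.mem_ball_self (by positivity)⟩ ?_
  refine (small_iUnion (ι := {c : ℕ × Finset ℕ × ℕ // n < c.1 ∧ (∀ a < n, a ∈ c.2.1 ↔ a ∈ s) ∧
      (∀ a ∈ c.2.1, n ≤ a → x a ∈ W)})
    (Y := fun c => Lam x c.1.1 c.1.2.1 (A ∩ C c.1.2.2) ∩ W)
    fun c => h1 _ _ _ c.2.1 c.2.2.1 c.2.2.2).mono ?_
  rintro η ⟨⟨S, hS, hb⟩, hη⟩
  have h2 := hS (hWo.mem_nhds hη)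
  rw [mem_map, mem_inf_principal] at h2
  obtain ⟨N, hN⟩ := mem_atTop_sets.1 h2
  have h3 := big_down hb (N := max N (n + 1)) ((Nat.le_succ n).trans (le_max_right _ _))
  have h4 : A = ⋃ k, A ∩ C k := by
    rw [← inter_iUnion, inter_eq_left.2 hAC]
  rw [h4] at h3
  obtain ⟨k, n', s', h5, h6, h7, h8⟩ := big_up (fun k => hA.inter (hC k)) h3
  have h9 : n < max N (n + 1) := lt_of_lt_of_le (Nat.lt_succ_self n) (le_max_right _ _)
  refine mem_iUnion.2 ⟨⟨(n', s', k), h9.trans_le h5, fun a ha => ?_, fun a ha hna => ?_⟩,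
    ⟨S, hS, h8⟩, hη⟩
  · rw [h6 a (ha.trans h9)]
    simp [ha]
  · by_cases h10 : a < max N (n + 1)
    · have := (Finset.mem_filter.1 ((h6 a h10).1 ha)).2
      omega
    · exact hN a ((le_max_left _ _).trans (not_lt.1 h10)) (h7 a ha (not_lt.1 h10))

/-- The downward closure of a code. -/
def Tr (T : List ℕ → Bool) : List ℕ → Prop
  | [] => T [] = true
  | m :: t => T (m :: t) = true ∧ Tr T t

theorem Tr.self {T : List ℕ → Bool} {t : List ℕ} (h : Tr T t) : T t = true := by
  cases t with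
  | nil => exact h
  | cons m t => exact h.1

theorem Tr.of_append {T : List ℕ → Bool} {w t : List ℕ} (h : Tr T (w ++ t)) : Tr T t := by
  induction w with
  | nil => exact h
  | cons m w ih => exact ih h.2

theorem measurableSet_Tr (t : List ℕ) : MeasurableSet {T : List ℕ → Bool | Tr T t} := by
  induction t with
  | nil =>
    exact measurable_pi_apply (X := fun _ : List ℕ => Bool) [] (measurableSet_singleton true)
  | cons m t ih =>
    exact (measurable_pi_apply (X := fun _ : List ℕ => Bool) (m :: t)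
      (measurableSet_singleton true)).inter ih

theorem small_Lambda {I : Set (Set ℕ)} (hI : IsIdeal I) (C : ℕ → ℕ → ℕ → Set (ℕ → Bool))
    (hC : ∀ i j k, IsClosed (C i j k))
    (hIC : ∀ f : ℕ → Bool, {n | f n = true} ∉ I ↔ ∃ i, ∀ j, ∃ k, f ∈ C i j k) (x : ℕ → X) :
    Small {η | ∃ S, S ∉ I ∧ Tendsto x (atTop ⊓ 𝓟 S) (𝓝 η)}
      {η | ∃ S, S ∉ I ∧ Tendsto x (atTop ⊓ 𝓟 S) (𝓝 η)} := by
  classical
  set L := {η | ∃ S, S ∉ I ∧ Tendsto x (atTop ⊓ 𝓟 S) (𝓝 η)} with hL
  by_contra hs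
  let H : ℕ → Set (ℕ → Bool) := fun i => ⋂ j, ⋃ k, C i j k
  have hH : ∀ i, MeasurableSet (H i) := fun i =>
    MeasurableSet.iInter fun j => MeasurableSet.iUnion fun k => (hC i j k).measurableSet
  have hpos : {f : ℕ → Bool | {n | f n = true} ∉ I} = ⋃ i, H i := by
    ext f
    simp only [mem_ofPred_eq, hIC, H, mem_iUnion, mem_iInter]
  have hm : MeasurableSet {f : ℕ → Bool | {n | f n = true} ∈ I} := by
    refine MeasurableSet.of_compl ?_
    have : {f : ℕ → Bool | {n | f n = true} ∈ I}ᶜ = ⋃ i, H i := hpos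
    rw [this]
    exact MeasurableSet.iUnion hH
  obtain ⟨i, n0, s0, h0⟩ : ∃ i n0 s0, ¬ Small L (Lam x n0 s0 (H i) ∩ univ) := by
    by_contra h1
    push Not at h1
    refine hs ((small_iUnion (Y := fun c : ℕ × ℕ × Finset ℕ => Lam x c.2.1 c.2.2 (H c.1) ∩ univ)
      fun c => h1 _ _ _).mono ?_)
    rintro η ⟨S, hS, hη⟩
    have h2 := big_base hI hm hS
    rw [hpos] at h2
    obtain ⟨i, n', s', -, -, -, h3⟩ := big_up hH h2
    exact mem_iUnion.2 ⟨(i, n', s'), ⟨S, hη, h3⟩, mem_univ _⟩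
  let St := {c : ℕ × Finset ℕ × Set (ℕ → Bool) × Set X // MeasurableSet c.2.2.1 ∧
    c.2.2.1 ⊆ H i ∧ IsOpen c.2.2.2 ∧ ¬ Small L (Lam x c.1 c.2.1 c.2.2.1 ∩ c.2.2.2)}
  have hstep : ∀ (l : ℕ) (c : St), ∃ q, q ∉ L ∧ ∀ m : ℕ, ∃ c' : St, c.1.1 < c'.1.1 ∧
      (∀ a < c.1.1, a ∈ c'.1.2.1 ↔ a ∈ c.1.2.1) ∧
      (∀ a ∈ c'.1.2.1, c.1.1 ≤ a → x a ∈ c'.1.2.2.2) ∧
      (∃ k, c'.1.2.2.1 = c.1.2.2.1 ∩ C i l k) ∧
      c'.1.2.2.2 = c.1.2.2.2 ∩ Metric.ball q (1 / (m + 1)) := by
    rintro l ⟨⟨n, s, A, V⟩, h1, h2, h3, h4⟩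
    obtain ⟨q, hq, h5⟩ := step x L h1 (fun k => (hC i l k).measurableSet)
      (h2.trans (iInter_subset _ l)) h3 h4
    refine ⟨q, hq, fun m => ?_⟩
    obtain ⟨n', s', k, h6, h7, h8, h9⟩ := h5 m
    exact ⟨⟨(n', s', A ∩ C i l k, V ∩ Metric.ball q (1 / (m + 1))),
      h1.inter (hC i l k).measurableSet, inter_subset_left.trans h2,
      h3.inter Metric.isOpen_ball, h9⟩, h6, h7, h8, ⟨k, rfl⟩, rfl⟩
  choose q hq nx h1 h2 h3 h4 h5 using hstep
  let root : St := ⟨(n0, s0, H i, univ), hH i, Subset.rfl, isOpen_univ, h0⟩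
  let st : List ℕ → St := fun t => List.rec root (fun m t c => nx t.length c m) t
  have hst : ∀ m t, st (m :: t) = nx t.length (st t) m := fun _ _ => rfl
  let b : List ℕ → Set ℕ := fun t => List.casesOn t (st []).1.2.1
    fun m t => {a | a ∈ (st (m :: t)).1.2.1 ∧ (st t).1.1 ≤ a}
  have hbfin : ∀ t, (b t).Finite := by
    intro t
    cases t with
    | nil => exact Finset.finite_toSet _
    | cons m t => exact (Finset.finite_toSet (st (m :: t)).1.2.1).subset fun a ha => ha.1
  have hV : ∀ w t, (st (w ++ t)).1.2.2.2 ⊆ (st t).1.2.2.2 := by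
    intro w t
    induction w with
    | nil => exact Subset.rfl
    | cons m w ih =>
      rw [List.cons_append, hst, h5]
      exact inter_subset_left.trans ih
  have hbV : ∀ w m t, ∀ a ∈ b (w ++ m :: t),
      x a ∈ Metric.ball (q t.length (st t)) (1 / (m + 1)) := by
    intro w m t a ha
    have h6 : x a ∈ (st (w ++ m :: t)).1.2.2.2 := by
      cases w with
      | nil => exact h3 _ _ _ a ha.1 ha.2
      | cons m' w => exact h3 _ _ _ a ha.1 ha.2
    have h7 := hV w (m :: t) h6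
    rw [hst, h5] at h7
    exact h7.2
  let cone : (List ℕ → Bool) → List ℕ → Set ℕ := fun T t =>
    {a | ∃ w, Tr T (w ++ t) ∧ a ∈ b (w ++ t)}
  have key : ∀ T, T ∈ IF ↔ cone T [] ∉ I := by
    intro T
    constructor
    · rintro ⟨y, hy⟩ hT
      have hTr : ∀ l, Tr T (res y l) := by
        intro l
        induction l with
        | zero => exact hy 0
        | succ l ih => exact ⟨hy (l + 1), ih⟩
      let c : ℕ → St := fun l => st (res y l)
      have hc : ∀ l, c (l + 1) = nx l (c l) (y l) := fun l => by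
        simp only [c, res_succ, hst, length_res]
      have hn : ∀ l l', l ≤ l' → (c l).1.1 ≤ (c l').1.1 ∧ (c l').1.2.2.1 ⊆ (c l).1.2.2.1 ∧
          ∀ a < (c l).1.1, a ∈ (c l').1.2.1 ↔ a ∈ (c l).1.2.1 := by
        intro l l' hl
        induction l', hl using Nat.le_induction with
        | base => exact ⟨le_rfl, Subset.rfl, fun _ _ => Iff.rfl⟩
        | succ l' _ ih =>
          rw [hc]
          refine ⟨ih.1.trans (h1 _ _ _).le, ?_, fun a ha => ?_⟩
          · obtain ⟨k, hk⟩ := h4 l' (c l') (y l')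
            rw [hk]
            exact inter_subset_left.trans ih.2.1
          · rw [h2 _ _ _ a (ha.trans_le ih.1), ih.2.2 a ha]
      have hn' : ∀ l, l ≤ (c l).1.1 := by
        intro l
        induction l with
        | zero => exact Nat.zero_le _
        | succ l ih => rw [hc]; exact Nat.succ_le_of_lt (ih.trans_lt (h1 _ _ _))
      let f : ℕ → Bool := fun a => decide (a ∈ (c (a + 1)).1.2.1)
      have hf : ∀ l, ∀ a < (c l).1.1, (f a = true ↔ a ∈ (c l).1.2.1) := by
        intro l a ha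
        simp only [f, decide_eq_true_eq]
        rcases le_total l (a + 1) with h | h
        · exact (hn _ _ h).2.2 a ha
        · exact ((hn _ _ h).2.2 a (hn' (a + 1))).symm
      have hz : ∀ l, ∃ z ∈ (c l).1.2.2.1, ∀ a < l, z a = f a := by
        intro l
        have h6 : (Lam x (c l).1.1 (c l).1.2.1 (c l).1.2.2.1 ∩ (c l).1.2.2.2).Nonempty := by
          by_contra h7
          rw [not_nonempty_iff_eq_empty] at h7
          refine (c l).2.2.2.2 ?_
          rw [h7]
          exact ⟨∅, countable_empty, by simp, empty_subset _⟩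
        obtain ⟨η, ⟨S, -, h7⟩, -⟩ := h6
        obtain ⟨z, hz, hz'⟩ := big_point h7
        refine ⟨z, hz, fun a ha => ?_⟩
        rw [Bool.eq_iff_iff, hz' a (ha.trans_le (hn' l)), hf l a (ha.trans_le (hn' l))]
      choose z hz hz' using hz
      have hzf : Tendsto z atTop (𝓝 f) := tendsto_of_res fun l => res_eq_iff.2 (hz' l)
      refine (hIC f).2 ⟨i, fun j => ?_⟩ (hI.down _ hT _ fun a ha => ?_)
      · obtain ⟨k, hk⟩ := h4 j (c j) (y j)
        refine ⟨k, (hC i j k).mem_of_tendsto hzf ?_⟩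
        filter_upwards [eventually_ge_atTop (j + 1)] with l hl
        have := (hn _ _ hl).2.1 (hz l)
        rw [hc, hk] at this
        exact this.2
      · have h6 : ∃ l, a < (c l).1.1 := ⟨a + 1, hn' _⟩
        have h7 := (hf _ a (Nat.find_spec h6)).1 ha
        refine ⟨res y (Nat.find h6), by simpa using hTr _, ?_⟩
        rw [List.append_nil]
        rcases h8 : Nat.find h6 with _ | l
        · rw [h8] at h7
          exact h7
        · rw [h8] at h7
          exact ⟨h7, not_lt.1 (Nat.find_min h6 (by omega))⟩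
    · intro hT
      obtain ⟨y, hy⟩ := exists_branch (P := fun t => cone T t ∉ I) hT (by
        intro t ht
        by_contra h6
        push Not at h6
        let D : Set ℕ := {a | ∃ m, a ∈ cone T (m :: t)}
        let col : ℕ → ℕ := fun a => if h : ∃ m, a ∈ cone T (m :: t) then Nat.find h else 0
        have hcol : ∀ a ∈ D, a ∈ cone T (col a :: t) := by
          intro a ha
          have ha' : ∃ m, a ∈ cone T (m :: t) := ha
          simp only [col, dif_pos ha']
          exact Nat.find_spec ha'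
        have hD : D ∈ I := by
          refine noFin2 hI C hC hIC D col (fun m => hI.down _ (h6 m) _ ?_) fun A hA hA' => ?_
          · rintro a ⟨ha, rfl⟩
            exact hcol a ha
          · by_contra h7
            refine hq t.length (st t) ⟨A, h7, Metric.tendsto_nhds.2 fun ε hε => ?_⟩
            obtain ⟨m0, hm0⟩ := exists_nat_one_div_lt hε
            rw [eventually_inf_principal, ← Nat.cofinite_eq_atTop, eventually_cofinite]
            refine ((finite_lt_nat m0).biUnion fun m _ => hA' m).subset fun a ha => ?_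
            simp only [mem_ofPred_eq, Classical.not_imp] at ha
            refine mem_iUnion₂.2 ⟨col a, ?_, ha.1, rfl⟩
            by_contra h8
            obtain ⟨w, -, hw⟩ := hcol a (hA ha.1)
            refine ha.2 ((hbV w _ t a hw).trans_le (le_trans ?_ hm0.le))
            have : (m0 : ℝ) ≤ col a := by exact_mod_cast not_lt.1 h8
            gcongr
        refine ht (hI.down _ (hI.union _ (hI.fin _ (hbfin t)) _ hD) _ ?_)
        rintro a ⟨w, hw, ha⟩
        rcases List.eq_nil_or_concat w with rfl | ⟨w', m, rfl⟩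
        · exact Or.inl ha
        · refine Or.inr ⟨m, w', ?_⟩
          simpa using And.intro hw ha)
      refine ⟨y, fun n => ?_⟩
      have h6 : (cone T (res y n)).Nonempty := by
        by_contra h7
        rw [not_nonempty_iff_eq_empty] at h7
        exact hy n (by rw [h7]; exact hI.fin _ finite_empty)
      obtain ⟨a, w, hw, -⟩ := h6
      exact hw.of_append.self
  have hmeas : Measurable fun (T : List ℕ → Bool) (a : ℕ) =>
      @decide (a ∈ cone T []) (Classical.propDecidable _) := by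
    refine measurable_pi_lambda _ fun a => measurable_to_bool ?_
    have : (fun T : List ℕ → Bool =>
        @decide (a ∈ cone T []) (Classical.propDecidable _)) ⁻¹' {true} =
        ⋃ w, {T | Tr T (w ++ [])} ∩ {_T | a ∈ b (w ++ [])} := by
      ext T
      simp [cone]
    rw [this]
    exact MeasurableSet.iUnion fun w => (measurableSet_Tr _).inter (MeasurableSet.const _)
  refine not_measurableSet_IF ?_
  convert (hmeas hm).compl using 1
  ext T
  rw [key]
  simp

end

theorem fsigma {X : Type} [TopologicalSpace X] [PolishSpace X] {I : Set (Set ℕ)} (hI : IsIdeal I)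
    (C : ℕ → ℕ → ℕ → Set (ℕ → Bool)) (hC : ∀ i j k, IsClosed (C i j k))
    (hIC : ∀ f : ℕ → Bool, {n | f n = true} ∉ I ↔ ∃ i, ∀ j, ∃ k, f ∈ C i j k) (x : ℕ → X) :
    ∃ D : ℕ → Set X, (∀ j, IsClosed (D j)) ∧
      {η | ∃ S, S ∉ I ∧ Tendsto x (atTop ⊓ 𝓟 S) (𝓝 η)} = ⋃ j, D j := by
  let _ := TopologicalSpace.upgradeIsCompletelyMetrizable X
  obtain ⟨F, h1, h2, h3⟩ := small_Lambda hI C hC hIC x
  obtain ⟨D, hD⟩ := (h1.insert ∅).exists_eq_range (insert_nonempty _ _)
  have h4 : ∀ j, D j = ∅ ∨ D j ∈ F := fun j => by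
    have : D j ∈ insert ∅ F := hD ▸ mem_range_self j
    exact this
  refine ⟨D, fun j => ?_, Subset.antisymm (h3.trans ?_) (iUnion_subset fun j => ?_)⟩
  · rcases h4 j with h | h
    · rw [h]; exact isClosed_empty
    · exact (h2 _ h).1
  · rintro η ⟨A, hA, hη⟩
    have : A ∈ range D := hD ▸ mem_insert_of_mem _ hA
    obtain ⟨j, rfl⟩ := this
    exact mem_iUnion.2 ⟨j, hη⟩
  · rcases h4 j with h | h
    · rw [h]; exact empty_subset _
    · exact (h2 _ h).2

end Pool.Agent.H39.IdealLimit
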