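import Mathlib
import Pool.Agent.H39.IdealLimit

set_option autoImplicit false

namespace Pool.Agent.H39.IdealLimit

open Set Filter Topology MeasureTheory Pool.Agent.H39.NonBorel Pool.Agent.H39.BaireLoc

theorem exists_block {O : Set (ℕ → Bool)} (hO : IsOpen O) (hO' : O ∈ residual (ℕ → Bool))
    (n : ℕ) : ∃ n', n < n' ∧ ∃ a : ℕ → Bool, ∀ h : ℕ → Bool,
      (∀ i, n ≤ i → i < n' → h i = a i) → h ∈ O := by
  let ex : (Fin n → Bool) → ℕ → Bool := fun p i => if h : i < n then p ⟨i, h⟩ else false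
  have h1 : IsOpen (⋂ p : Fin n → Bool, {h | ovw (ex p) n h ∈ O}) :=
    isOpen_iInter_of_finite fun p => hO.preimage (continuous_over _ _)
  have h2 : (⋂ p : Fin n → Bool, {h | ovw (ex p) n h ∈ O}) ∈ residual (ℕ → Bool) :=
    countable_iInter_mem.2 fun p => residual_over _ _ hO'
  obtain ⟨a, ha⟩ := (dense_of_mem_residual h2).nonempty
  obtain ⟨N, hN⟩ := exists_cyl (h1.mem_nhds ha)
  refine ⟨max N (n + 1), lt_of_lt_of_le (Nat.lt_succ_self n) (le_max_right _ _), a,
    fun h hh => ?_⟩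
  have h3 := mem_iInter.1 (hN (ovw a n h) fun i hi => ?_) fun i => h i
  · have h4 : ovw (ex fun i => h i) n (ovw a n h) = h := by
      funext i
      simp only [ovw, ex]
      split_ifs <;> rfl
    rw [mem_ofPred_eq, h4] at h3
    exact h3
  · simp only [ovw]
    split_ifs with h5
    · rfl
    · exact hh i (not_lt.1 h5) (hi.trans_le (le_max_left _ _))

theorem jnt {I : Set (Set ℕ)} (hI : IsIdeal I)
    (hm : MeasurableSet {f : ℕ → Bool | {n | f n = true} ∈ I}) {S : Set ℕ} (hS : S ∉ I) :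
    ∃ c : ℕ → ℕ, (∀ k, {n | c n = k}.Finite) ∧
      ∀ K : Set ℕ, K.Infinite → {n | n ∈ S ∧ c n ∈ K} ∉ I := by
  classical
  obtain ⟨t, ht, ht1, ht2⟩ := mem_residual.1 (big_base hI hm hS)
  obtain ⟨O, hO, rfl⟩ := isGδ_iff_eq_iInter_nat.1 ht1
  have h1 : ∀ k n, ∃ n', n < n' ∧ ∃ a : ℕ → Bool, ∀ h : ℕ → Bool,
      (∀ i, n ≤ i → i < n' → h i = a i) → h ∈ ⋂ j ∈ Finset.range (k + 1), O j := fun k n =>
    exists_block (isOpen_biInter_finset fun j _ => hO j)
      ((biInter_finset_mem _).2 fun j _ =>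
        residual_of_dense_open (hO j) (ht2.mono (iInter_subset _ j))) n
  choose nx hnx a ha using h1
  let N : ℕ → ℕ := fun k => Nat.rec 0 (fun k n => nx k n) k
  have hN : ∀ k, N (k + 1) = nx k (N k) := fun _ => rfl
  have hmono : StrictMono N := strictMono_nat_of_lt_succ fun k => hnx k (N k)
  have hex : ∀ i, ∃ k, i < N (k + 1) := fun i => ⟨i, hmono.id_le (i + 1)⟩
  let c : ℕ → ℕ := fun i => Nat.find (hex i)
  have hc : ∀ k i, N k ≤ i → i < N (k + 1) → c i = k := by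
    intro k i h1 h2
    refine (Nat.find_eq_iff _).2 ⟨h2, fun j hj => not_lt.2 ?_⟩
    exact (hmono.monotone (Nat.succ_le_of_lt hj)).trans h1
  refine ⟨c, fun k => (finite_lt_nat (N (k + 1))).subset ?_, fun K hK hI' => ?_⟩
  · rintro i rfl
    exact Nat.find_spec (hex i)
  · let h : ℕ → Bool := fun i => decide (c i ∈ K) && a (c i) (N (c i)) i
    have h2 : h ∈ ⋂ j, O j := by
      refine mem_iInter.2 fun j => ?_
      obtain ⟨k, hk, hjk⟩ := hK.exists_gt j
      have h3 := ha k (N k) h fun i h1 h2 => by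
        simp only [h, hc k i h1 h2, hk, decide_true, Bool.true_and]
      exact mem_iInter₂.1 h3 j (Finset.mem_range.2 (by omega))
    refine ht h2 (hI.down _ hI' _ fun i hi => ?_)
    simp only [glue, h, mem_ofPred_eq, not_lt_zero, if_false, Bool.and_eq_true,
      decide_eq_true_eq] at hi
    exact ⟨hi.2, hi.1.1⟩

section
variable {X : Type} [MetricSpace X] [SecondCountableTopology X]

theorem realize {I : Set (Set ℕ)} (hI : IsIdeal I)
    (hm : MeasurableSet {f : ℕ → Bool | {n | f n = true} ∈ I}) (S : Set ℕ)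
    {F : Set X} (hF : F.Nonempty) :
    ∃ y : ℕ → X, (∀ n, y n ∈ F) ∧ (S ∉ I → ∀ η ∈ F, ∃ A ⊆ S, A ∉ I ∧
      Tendsto y (atTop ⊓ 𝓟 A) (𝓝 η)) := by
  by_cases hS : S ∈ I
  · obtain ⟨z, hz⟩ := hF
    exact ⟨fun _ => z, fun _ => hz, fun h => absurd hS h⟩
  obtain ⟨c, hc1, hc2⟩ := jnt hI hm hS
  have := hF.to_subtype
  obtain ⟨d, hd⟩ := TopologicalSpace.exists_dense_seq F
  refine ⟨fun n => d (c n).unpair.1, fun n => (d _).2, fun _ η hη => ?_⟩
  choose e he using fun j : ℕ => hd.exists_dist_lt ⟨η, hη⟩ (ε := 1 / (j + 1)) (by positivity)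
  have hinj : Function.Injective fun j => Nat.pair (e j) j := fun a b h => by
    simpa using (Nat.pair_eq_pair.1 h).2
  refine ⟨_, fun n hn => hn.1, hc2 _ (infinite_range_of_injective hinj),
    Metric.tendsto_nhds.2 fun ε hε => ?_⟩
  obtain ⟨m0, hm0⟩ := exists_nat_one_div_lt hε
  rw [eventually_inf_principal, ← Nat.cofinite_eq_atTop, eventually_cofinite]
  refine ((finite_lt_nat m0).biUnion fun j _ => hc1 (Nat.pair (e j) j)).subset fun n hn => ?_
  simp only [mem_ofPred_eq, Classical.not_imp] at hn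
  obtain ⟨⟨-, j, hj⟩, h2⟩ := hn
  refine mem_iUnion₂.2 ⟨j, ?_, hj.symm⟩
  by_contra h8
  refine h2 ?_
  rw [← hj, Nat.unpair_pair, dist_comm]
  refine (he j).trans_le (le_trans ?_ hm0.le)
  have : (m0 : ℝ) ≤ j := by exact_mod_cast not_lt.1 h8
  gcongr

omit [SecondCountableTopology X] in
theorem columns {I : Set (Set ℕ)} (hI : IsIdeal I) (x : ℕ → X)
    (h : ¬ IsClosed {η | ∃ S, S ∉ I ∧ Tendsto x (atTop ⊓ 𝓟 S) (𝓝 η)}) :
    ∃ col : ℕ → ℕ, {m | {n | col n = m} ∉ I}.Infinite ∧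
      ∀ A : Set ℕ, (∀ m, {n | n ∈ A ∧ col n = m}.Finite) → A ∈ I := by
  rw [← closure_subset_iff_isClosed, not_subset] at h
  obtain ⟨η, h1, h2⟩ := h
  refine ⟨fun n => ⌊1 / dist (x n) η⌋₊, infinite_of_forall_exists_gt fun m0 => ?_,
    fun A hA => ?_⟩
  · obtain ⟨η', ⟨S, hS, hT⟩, h3⟩ := Metric.mem_closure_iff.1 h1 (1 / (m0 + 1)) (by positivity)
    rw [dist_comm] at h3
    have h4 : 0 < dist η' η := dist_pos.2 fun h => h2 ⟨S, hS, h ▸ hT⟩
    have h5 := (hT.dist (tendsto_const_nhds (x := η))).eventually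
      (Ioo_mem_nhds (half_lt_self h4) h3)
    rw [eventually_inf_principal, ← Nat.cofinite_eq_atTop, eventually_cofinite] at h5
    by_contra h6
    push Not at h6
    refine hS (hI.down _ (hI.union _ (hI.fin _ h5) _
      (hI.biUnion_lt (D := fun m => {n | ⌊1 / dist (x n) η⌋₊ = m ∧ m0 < m})
        (⌊1 / (dist η' η / 2)⌋₊ + 1) fun m _ => ?_)) _ fun n hn => ?_)
    · by_cases h7 : m0 < m
      · refine hI.down {n | ⌊1 / dist (x n) η⌋₊ = m} ?_ _ fun n hn => hn.1
        by_contra h8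
        exact absurd h7 (not_lt.2 (h6 m h8))
      · exact hI.fin _ (finite_empty.subset fun n hn => h7 hn.2)
    · by_cases h7 : dist (x n) η ∈ Ioo (dist η' η / 2) (1 / (m0 + 1))
      · refine Or.inr (mem_iUnion₂.2 ⟨_, Nat.lt_succ_of_le (Nat.floor_le_floor ?_), rfl, ?_⟩)
        · exact one_div_le_one_div_of_le (half_pos h4) h7.1.le
        · refine Nat.lt_of_succ_le (Nat.le_floor ?_)
          have h8 : 0 < dist (x n) η := (half_pos h4).trans h7.1
          have h9 := h7.2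
          rw [lt_div_iff₀ (by positivity)] at h9
          rw [le_div_iff₀ h8]
          push_cast
          linarith
      · exact Or.inl fun h8 => h7 (h8 hn)
  · by_contra h3
    refine h2 ⟨A, h3, Metric.tendsto_nhds.2 fun ε hε => ?_⟩
    obtain ⟨m0, hm0⟩ := exists_nat_one_div_lt hε
    rw [eventually_inf_principal, ← Nat.cofinite_eq_atTop, eventually_cofinite]
    refine ((finite_lt_nat (m0 + 1)).biUnion fun m _ => hA m).subset fun n hn => ?_
    simp only [mem_ofPred_eq, Classical.not_imp] at hn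
    refine mem_iUnion₂.2 ⟨_, ?_, hn.1, rfl⟩
    by_contra h4
    refine hn.2 (lt_of_le_of_lt ?_ hm0)
    have h5 : ((m0 + 1 : ℕ) : ℝ) ≤ 1 / dist (x n) η :=
      (Nat.le_floor_iff (by positivity)).1 (not_lt.1 h4)
    rcases (dist_nonneg (x := x n) (y := η)).eq_or_lt with h6 | h6
    · rw [← h6]; positivity
    · rw [le_div_iff₀ h6] at h5
      rw [le_div_iff₀ (by positivity)]
      push_cast at h5
      linarith

omit [SecondCountableTopology X] in
theorem mem_of_infinite {y : ℕ → X} {A B : Set ℕ} {F : Set X} (hF : IsClosed F) {η : X}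
    (h : Tendsto y (atTop ⊓ 𝓟 A) (𝓝 η)) (hB : B.Infinite) (hBA : B ⊆ A)
    (hy : ∀ n ∈ B, y n ∈ F) : η ∈ F := by
  have : (atTop ⊓ 𝓟 B : Filter ℕ).NeBot := by
    rw [← Nat.cofinite_eq_atTop]
    exact cofinite_inf_principal_neBot_iff.2 hB
  refine hF.mem_of_tendsto (h.mono_left (inf_le_inf_left _ (principal_mono.2 hBA))) ?_
  exact eventually_inf_principal.2 (Eventually.of_forall hy)

theorem realize_closed {I : Set (Set ℕ)} (hI : IsIdeal I) (hu : univ ∉ I)
    (hm : MeasurableSet {f : ℕ → Bool | {n | f n = true} ∈ I}) {F : Set X} (hF : IsClosed F)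
    (hne : F.Nonempty) :
    ∃ y : ℕ → X, F = {η | ∃ S, S ∉ I ∧ Tendsto y (atTop ⊓ 𝓟 S) (𝓝 η)} := by
  obtain ⟨y, h1, h2⟩ := realize hI hm univ hne
  refine ⟨y, Subset.antisymm (fun η hη => ?_) ?_⟩
  · obtain ⟨A, -, h3, h4⟩ := h2 hu η hη
    exact ⟨A, h3, h4⟩
  · rintro η ⟨S, hS, hT⟩
    exact mem_of_infinite hF hT (fun h => hS (hI.fin _ h)) Subset.rfl fun n _ => h1 n

theorem realize_fsigma {I : Set (Set ℕ)} (hI : IsIdeal I)
    (hm : MeasurableSet {f : ℕ → Bool | {n | f n = true} ∈ I}) (x : ℕ → X)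
    (h : ¬ IsClosed {η | ∃ S, S ∉ I ∧ Tendsto x (atTop ⊓ 𝓟 S) (𝓝 η)})
    {F : ℕ → Set X} (hF : ∀ j, IsClosed (F j)) (hne : ∀ j, (F j).Nonempty) :
    ∃ y : ℕ → X, ⋃ j, F j = {η | ∃ S, S ∉ I ∧ Tendsto y (atTop ⊓ 𝓟 S) (𝓝 η)} := by
  obtain ⟨col, h1, h2⟩ := columns hI x h
  let emb : ℕ → ℕ := fun k => (h1.natEmbedding _ k).1
  have hinj : Function.Injective emb := Subtype.val_injective.comp (h1.natEmbedding _).injective
  let e := Function.invFun emb
  have he : ∀ k, e (emb k) = k := Function.leftInverse_invFun hinj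
  choose y hy1 hy2 using fun m => realize hI hm {n | col n = m} (hne (e m))
  refine ⟨fun n => y (col n) n, Subset.antisymm (iUnion_subset fun k η hη => ?_) ?_⟩
  · obtain ⟨A, h3, h4, h5⟩ := hy2 (emb k) (h1.natEmbedding _ k).2 η (by rwa [he])
    refine ⟨A, h4, h5.congr' (eventually_inf_principal.2 (Eventually.of_forall fun n hn => ?_))⟩
    have : col n = emb k := h3 hn
    simp only [this]
  · rintro η ⟨S, hS, hT⟩
    obtain ⟨m, hm'⟩ : ∃ m, {n | n ∈ S ∧ col n = m}.Infinite := by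
      by_contra h3
      push Not at h3
      exact hS (h2 S h3)
    refine mem_iUnion.2 ⟨e m, mem_of_infinite (hF _) hT hm' (fun n hn => hn.1) ?_⟩
    rintro n ⟨-, rfl⟩
    exact hy1 _ _

end

end Pool.Agent.H39.IdealLimit
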