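import Mathlib

namespace Pool.Agent.H39.JC1

open Set Topology Filter Cardinal

/-- Fewer than continuum many nowhere dense sets do not cover the Baire space. -/
def CovM : Prop :=
  ∀ 𝓕 : Set (Set (ℕ → ℕ)), #𝓕 < 𝔠 → (∀ F ∈ 𝓕, IsNowhereDense F) → ⋃₀ 𝓕 ≠ Set.univ

lemma covM_of_CH (h : (𝔠 : Cardinal.{0}) = ℵ₁) : CovM := by
  intro 𝓕 hc hn hu
  rw [h, ← countable_iff_lt_aleph_one] at hc
  have : IsMeagre (⋃₀ 𝓕) := by
    rw [sUnion_eq_biUnion]
    exact isMeagre_biUnion hc fun F hF => (hn F hF).isMeagre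
  rw [hu] at this
  exact not_isMeagre_of_isOpen isOpen_univ univ_nonempty this

def b (i : ℕ) : ℕ := (i + 3) ^ (i * (i + 1)) + 1

lemma b_pos (i : ℕ) : 0 < b i := Nat.succ_pos _

instance tF (n : ℕ) : TopologicalSpace (Finset (Fin n)) := ⊥
instance dF (n : ℕ) : DiscreteTopology (Finset (Fin n)) := ⟨rfl⟩
instance nG : Nonempty (∀ i, Fin (b i)) := ⟨fun i => ⟨0, b_pos i⟩⟩

abbrev X := (∀ i, Finset (Fin (b i))) × ℝ

noncomputable def h (c : ℝ) (i : ℕ) : ℝ := ((i : ℝ) + 3) ^ (c * (i + 1))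

def Val (x : X) : Prop := 0 ≤ x.2 ∧ ∀ i, ((x.1 i).card : ℝ) ≤ h x.2 i

def Le (x y : X) : Prop := (∀ i, y.1 i ⊆ x.1 i) ∧ y.2 ≤ x.2

def C (F : ∀ i, Finset (Fin (b i))) (m : ℕ) (s : ℝ) : Set X :=
  {x | (∀ i < m, x.1 i ⊆ F i) ∧ x.2 < s}

def B (p : X) (m : ℕ) : Set X := C p.1 m (p.2 + 1 / ((m : ℝ) + 1))

noncomputable def E (p : X) (z : ℕ → X) (g : ∀ i, Fin (b i)) (N : ℕ) : X :=
  (fun i => if N ≤ i then p.1 i ∪ insert (g i) ((Finset.Icc N i).biUnion fun n => (z n).1 i)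
    else p.1 i, p.2 + 2 / ((N : ℝ) + 1))

lemma Le.refl (x : X) : Le x x := ⟨fun _ => Finset.Subset.refl _, le_rfl⟩

lemma Le.trans {x y z : X} (h1 : Le x y) (h2 : Le y z) : Le x z :=
  ⟨fun i => (h2.1 i).trans (h1.1 i), h2.2.trans h1.2⟩

lemma Le.antisymm {x y : X} (h1 : Le x y) (h2 : Le y x) : x = y :=
  Prod.ext (funext fun i => Finset.Subset.antisymm (h2.1 i) (h1.1 i)) (le_antisymm h2.2 h1.2)

lemma h_mono {c c' : ℝ} (hc : c ≤ c') (i : ℕ) : h c i ≤ h c' i := by
  have : (0 : ℝ) ≤ i := Nat.cast_nonneg i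
  exact Real.rpow_le_rpow_of_exponent_le (by linarith)
    (mul_le_mul_of_nonneg_right hc (by linarith))

lemma one_le_h {c : ℝ} (hc : 0 ≤ c) (i : ℕ) : 1 ≤ h c i := by
  have : (0 : ℝ) ≤ i := Nat.cast_nonneg i
  exact Real.one_le_rpow (by linarith) (mul_nonneg hc (by linarith))

lemma h_step (c : ℝ) {N i : ℕ} (hN : N ≤ i) :
    ((i : ℝ) + 3) * h (c + 1 / ((N : ℝ) + 1)) i ≤ h (c + 2 / ((N : ℝ) + 1)) i := by
  have h0 : (0 : ℝ) ≤ i := Nat.cast_nonneg i
  have h1 : (0 : ℝ) ≤ N := Nat.cast_nonneg N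
  have h2 : (N : ℝ) ≤ i := by exact_mod_cast hN
  unfold h
  have h5 : ((i : ℝ) + 3) * ((i : ℝ) + 3) ^ ((c + 1 / ((N : ℝ) + 1)) * (i + 1)) =
      ((i : ℝ) + 3) ^ (1 + (c + 1 / ((N : ℝ) + 1)) * (i + 1)) := by
    rw [Real.rpow_add (by linarith), Real.rpow_one]
  rw [h5]
  refine Real.rpow_le_rpow_of_exponent_le (by linarith) ?_
  have h3 : 1 ≤ 1 / ((N : ℝ) + 1) * (i + 1) := by
    rw [one_div, inv_mul_eq_div, le_div_iff₀ (by linarith)]; linarith
  have h4 : 2 / ((N : ℝ) + 1) = 1 / ((N : ℝ) + 1) + 1 / ((N : ℝ) + 1) := by ring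
  rw [h4]
  nlinarith

lemma h_lt_b {c : ℝ} {i : ℕ} (hc : c ≤ i) : h c i < b i := by
  refine (h_mono hc i).trans_lt ?_
  unfold h b
  have : (i : ℝ) * (i + 1) = ((i * (i + 1) : ℕ) : ℝ) := by push_cast; ring
  rw [this, Real.rpow_natCast]
  push_cast
  linarith

lemma inv_anti {m n : ℕ} (h : m ≤ n) : 1 / ((n : ℝ) + 1) ≤ 1 / ((m : ℝ) + 1) :=
  Nat.one_div_le_one_div h

lemma self_mem_B (p : X) (m : ℕ) : p ∈ B p m :=
  ⟨fun _ _ => Finset.Subset.refl _, by have := @Nat.one_div_pos_of_nat ℝ _ _ _ m; linarith⟩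

lemma C_up {F : ∀ i, Finset (Fin (b i))} {m : ℕ} {s : ℝ} {x y : X} (hx : x ∈ C F m s)
    (h : Le x y) : y ∈ C F m s :=
  ⟨fun i hi => (h.1 i).trans (hx.1 i hi), h.2.trans_lt hx.2⟩

lemma B_sub {p q : X} (h : Le p q) {m n : ℕ} (hmn : m ≤ n) : B q n ⊆ B p m := fun x hx =>
  ⟨fun i hi => (hx.1 i (hi.trans_le hmn)).trans (h.1 i), by
    have h1 := hx.2
    have h2 := inv_anti hmn
    have h3 := h.2
    linarith⟩

lemma C_nb {F : ∀ i, Finset (Fin (b i))} {m : ℕ} {s : ℝ} {x : X} (hx : x ∈ C F m s) :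
    ∃ n, B x n ⊆ C F m s := by
  obtain ⟨k, hk⟩ := exists_nat_one_div_lt (sub_pos.2 hx.2)
  refine ⟨max m k, fun y hy => ⟨fun i hi => (hy.1 i (hi.trans_le (le_max_left _ _))).trans
    (hx.1 i hi), ?_⟩⟩
  have h1 := hy.2
  have h2 := inv_anti (le_max_right m k)
  linarith

lemma le_of_B {p u : X} (h : ∀ m, ∃ y ∈ B p m, Le y u) : Le p u := by
  refine ⟨fun i => ?_, ?_⟩
  · obtain ⟨y, hy, hyu⟩ := h (i + 1)
    exact (hyu.1 i).trans (hy.1 i (Nat.lt_succ_self i))
  · by_contra hn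
    obtain ⟨k, hk⟩ := exists_nat_one_div_lt (sub_pos.2 (not_le.1 hn))
    obtain ⟨y, hy, hyu⟩ := h k
    have h1 := hy.2
    have h2 := hyu.2
    linarith

lemma isOpen_C (F : ∀ i, Finset (Fin (b i))) (m : ℕ) (s : ℝ) : IsOpen (C F m s) := by
  have : C F m s = (⋂ i ∈ Iio m, (fun x : X => x.1 i) ⁻¹' {t | t ⊆ F i}) ∩ {x | x.2 < s} := by
    ext x; simp [C]
  rw [this]
  refine ((finite_Iio m).isOpen_biInter fun i _ => (isOpen_discrete _).preimage ?_).inter
    (isOpen_lt continuous_snd continuous_const)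
  exact (continuous_apply i).comp continuous_fst

lemma isCompact_K (F : ∀ i, Finset (Fin (b i))) (m : ℕ) (s : ℝ) :
    IsCompact {x : X | Val x ∧ (∀ i < m, x.1 i ⊆ F i) ∧ x.2 ≤ s} := by
  refine (isCompact_univ.prod (isCompact_Icc (a := 0) (b := s))).of_isClosed_subset ?_
    (fun x hx => ⟨mem_univ _, hx.1.1, hx.2.2⟩)
  have hi : ∀ i, Continuous fun x : X => x.1 i := fun i => (continuous_apply i).comp continuous_fst
  refine IsClosed.and (IsClosed.and (isClosed_le continuous_const continuous_snd) ?_)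
    (IsClosed.and ?_ (isClosed_le continuous_snd continuous_const))
  · rw [setOf_forall]
    refine isClosed_iInter fun i => isClosed_le ?_ ?_
    · exact (continuous_of_discreteTopology
        (f := fun t : Finset (Fin (b i)) => (t.card : ℝ))).comp (hi i)
    · have : (0 : ℝ) ≤ i := Nat.cast_nonneg i
      unfold h
      exact continuous_const.rpow (continuous_snd.mul continuous_const)
        fun _ => Or.inl (by linarith)
  · rw [setOf_forall]
    refine isClosed_iInter fun i => ?_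
    exact (isClosed_discrete {t : Finset (Fin (b i)) | i < m → t ⊆ F i}).preimage (hi i)

section chain
variable {p : X} {z : ℕ → X} (g : ∀ i, Fin (b i))

lemma two_div (N : ℕ) : 2 / ((N : ℝ) + 1) = 1 / ((N : ℝ) + 1) + 1 / ((N : ℝ) + 1) := by ring

lemma E_val (hp : Val p) (hz : ∀ n, Val (z n) ∧ z n ∈ B p n) (N : ℕ) : Val (E p z g N) := by
  have hpos := @Nat.one_div_pos_of_nat ℝ _ _ _ N
  have h2 := two_div N
  have hp0 := hp.1
  refine ⟨by simp only [E]; linarith, fun i => ?_⟩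
  simp only [E]
  split_ifs with hN
  · refine le_trans ?_ (h_step p.2 hN)
    set H := h (p.2 + 1 / ((N : ℝ) + 1)) i with hH
    have h1 : 1 ≤ H := one_le_h (by linarith) i
    have h3 : ((p.1 i).card : ℝ) ≤ H := (hp.2 i).trans (h_mono (by linarith) i)
    have h4 : (((Finset.Icc N i).biUnion fun n => (z n).1 i).card : ℝ) ≤ (i + 1) * H := by
      have h5 : (((Finset.Icc N i).biUnion fun n => (z n).1 i).card : ℝ) ≤
          ∑ n ∈ Finset.Icc N i, (((z n).1 i).card : ℝ) := by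
        exact_mod_cast Finset.card_biUnion_le
      have h6 : ∑ n ∈ Finset.Icc N i, (((z n).1 i).card : ℝ) ≤ (Finset.Icc N i).card • H := by
        refine Finset.sum_le_card_nsmul _ _ _ fun n hn => ((hz n).1.2 i).trans (h_mono ?_ i)
        have h7 := (hz n).2.2
        have h8 := inv_anti (Finset.mem_Icc.1 hn).1
        linarith
      have h7 : ((Finset.Icc N i).card : ℝ) ≤ i + 1 := by
        rw [Nat.card_Icc]
        exact_mod_cast Nat.sub_le _ _
      rw [nsmul_eq_mul] at h6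
      nlinarith
    have h5 : ((p.1 i ∪ insert (g i) ((Finset.Icc N i).biUnion fun n => (z n).1 i)).card : ℝ) ≤
        (p.1 i).card + ((((Finset.Icc N i).biUnion fun n => (z n).1 i).card : ℝ) + 1) := by
      exact_mod_cast (Finset.card_union_le _ _).trans
        (Nat.add_le_add_left (Finset.card_insert_le _ _) _)
    nlinarith
  · exact (hp.2 i).trans (h_mono (by linarith) i)

lemma E_le_p (N : ℕ) : Le (E p z g N) p := by
  have hpos := @Nat.one_div_pos_of_nat ℝ _ _ _ N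
  have h2 := two_div N
  refine ⟨fun i => ?_, by simp only [E]; linarith⟩
  simp only [E]
  split_ifs
  · exact Finset.subset_union_left
  · exact Finset.Subset.refl _

lemma E_mono {N N' : ℕ} (hN : N ≤ N') : Le (E p z g N) (E p z g N') := by
  have h1 := inv_anti hN
  have h2 := two_div N
  have h3 := two_div N'
  refine ⟨fun i => ?_, by simp only [E]; linarith⟩
  simp only [E]
  split_ifs with h4 h5 h5
  · refine Finset.union_subset_union (Finset.Subset.refl _) (Finset.insert_subset_insert _ ?_)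
    exact Finset.biUnion_subset_biUnion_of_subset_left _ (Finset.Icc_subset_Icc_left hN)
  · exact absurd (hN.trans h4) h5
  · exact Finset.subset_union_left
  · exact Finset.Subset.refl _

lemma E_le_z (hz : ∀ n, z n ∈ B p n) (N : ℕ) : Le (E p z g N) (z N) := by
  have hpos := @Nat.one_div_pos_of_nat ℝ _ _ _ N
  have h2 := two_div N
  have h3 := (hz N).2
  refine ⟨fun i => ?_, by simp only [E]; linarith⟩
  simp only [E]
  split_ifs with h4
  · intro a ha
    exact Finset.mem_union_right _ (Finset.mem_insert_of_mem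
      (Finset.mem_biUnion.2 ⟨N, Finset.mem_Icc.2 ⟨le_rfl, h4⟩, ha⟩))
  · exact (hz N).1 i (not_le.1 h4)

lemma E_mem_B {m N : ℕ} (hN : 2 * m + 2 ≤ N) : E p z g N ∈ B p m := by
  refine ⟨fun i hi => ?_, ?_⟩
  · simp only [E]
    rw [if_neg (by omega)]
  · simp only [E]
    have h0 : (0 : ℝ) ≤ m := Nat.cast_nonneg m
    have h1 : (2 * m + 2 : ℝ) ≤ N := by exact_mod_cast hN
    have : 2 / ((N : ℝ) + 1) < 1 / ((m : ℝ) + 1) := by
      rw [div_lt_div_iff₀ (by linarith) (by linarith)]; linarith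
    linarith

lemma g_mem_E {N i : ℕ} (hN : N ≤ i) : g i ∈ (E p z g N).1 i := by
  simp only [E]
  rw [if_pos hN]
  exact Finset.mem_union_right _ (Finset.mem_insert_self _ _)

end chain

lemma avoid (H : CovM) (O : Set X) (hO : #O < 𝔠) (hv : ∀ q ∈ O, Val q) :
    ∃ g : ∀ i, Fin (b i), ∀ q ∈ O, ∀ N, ∃ i, N ≤ i ∧ g i ∉ q.1 i := by
  classical
  let π : ∀ i, ℕ → Fin (b i) := fun i n => ⟨n % b i, Nat.mod_lt _ (b_pos i)⟩
  let F : O × ℕ → Set (ℕ → ℕ) := fun t => {g | ∀ i, t.2 ≤ i → π i (g i) ∈ t.1.1.1 i}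
  have h1 := H (range F) (lt_of_le_of_lt mk_range_le (by
    rw [mk_prod, lift_id, lift_id, mk_nat]
    exact mul_lt_of_lt aleph0_le_continuum hO aleph0_lt_continuum)) (by
    rintro _ ⟨⟨q, N⟩, rfl⟩
    have hc : IsClosed (F (q, N)) := by
      simp only [F]
      rw [setOf_forall]
      refine isClosed_iInter fun i => ?_
      have hci : Continuous fun g : ℕ → ℕ => g i := continuous_apply i
      exact (isClosed_discrete {n : ℕ | N ≤ i → π i n ∈ q.1.1 i}).preimage hci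
    rw [hc.isNowhereDense_iff, eq_empty_iff_forall_notMem]
    intro g hg
    have hex : ∀ i : ℕ, ∃ a : Fin (b i), q.1.2 ≤ i → a ∉ q.1.1 i := by
      intro i
      by_cases hi : q.1.2 ≤ i
      · have h2 : ((q.1.1 i).card : ℝ) < b i := ((hv q q.2).2 i).trans_lt (h_lt_b hi)
        have h3 : (q.1.1 i).card < (Finset.univ : Finset (Fin (b i))).card := by
          rw [Finset.card_univ, Fintype.card_fin]; exact_mod_cast h2
        obtain ⟨a, -, ha⟩ := Finset.exists_mem_notMem_of_card_lt_card h3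
        exact ⟨a, fun _ => ha⟩
      · exact ⟨⟨0, b_pos i⟩, fun h => absurd h hi⟩
    choose a ha using hex
    have ht : Tendsto (fun i => Function.update g i (a i : ℕ)) atTop (𝓝 g) := by
      refine tendsto_pi_nhds.2 fun j => tendsto_const_nhds.congr' ?_
      filter_upwards [eventually_gt_atTop j] with i hi
      rw [Function.update_of_ne hi.ne]
    have h4 := ht.eventually (mem_interior_iff_mem_nhds.1 hg)
    obtain ⟨i, hi1, hi2, hi3⟩ := (h4.and ((eventually_ge_atTop N).and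
      (eventually_ge_atTop ⌈q.1.2⌉₊))).exists
    have h5 := hi1 i hi2
    rw [Function.update_self] at h5
    have h6 : π i (a i) = a i := Fin.ext (Nat.mod_eq_of_lt (a i).2)
    rw [h6] at h5
    exact ha i ((Nat.le_ceil _).trans (by exact_mod_cast hi3)) h5)
  obtain ⟨g, hg⟩ := (ne_univ_iff_exists_notMem _).1 h1
  refine ⟨fun i => π i (g i), fun q hq N => ?_⟩
  by_contra hn
  push Not at hn
  exact hg ⟨F (⟨q, hq⟩, N), ⟨_, rfl⟩, hn⟩

/-- tasks -/
def T : Type := {t : X × (ℕ → X) × ℕ // Val t.1 ∧ ∀ n, Val (t.2.1 n) ∧ t.2.1 n ∈ B t.1 n}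

def top : X := (fun _ => ∅, 0)

lemma top_val : Val top := ⟨le_rfl, fun i => by
  simp only [top, Finset.card_empty, Nat.cast_zero]
  exact zero_le_one.trans (one_le_h le_rfl i)⟩

instance nT : Nonempty T := ⟨⟨(top, fun _ => top, 0), top_val, fun n => ⟨top_val, self_mem_B _ n⟩⟩⟩

lemma card_X : #X ≤ 𝔠 := by
  have h1 : #(∀ i, Finset (Fin (b i))) ≤ 𝔠 := by
    have : #(∀ i, Finset (Fin (b i))) ≤ #(ℕ → ℕ) :=
      mk_le_of_injective (f := fun S i => Encodable.encode (S i)) fun S S' h =>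
        funext fun i => Encodable.encode_injective (congrFun h i)
    simpa using this
  rw [mk_prod, lift_id, lift_id, mk_real]
  exact (mul_le_mul' h1 le_rfl).trans (by simp)

lemma card_T : #T ≤ 𝔠 := by
  refine (mk_subtype_le _).trans ?_
  have h1 : #(ℕ → X) ≤ 𝔠 := by
    rw [← power_def, mk_nat]
    exact (power_le_power_right card_X).trans (by simp)
  have h2 : #((ℕ → X) × ℕ) ≤ 𝔠 := by
    rw [mk_prod, lift_id, lift_id, mk_nat]
    exact (mul_le_mul' h1 aleph0_le_continuum).trans (by simp)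
  rw [mk_prod, lift_id, lift_id]
  exact (mul_le_mul' card_X h2).trans (by simp)

abbrev I : Type := (𝔠 : Cardinal.{0}).ord.ToType

lemma exists_e : ∃ e : I → T, ∀ t γ, ∃ α, γ < α ∧ e α = t := by
  have hI : #I = 𝔠 := mk_ord_toType _
  haveI : Nonempty I := by rw [← mk_ne_zero_iff, hI]; exact continuum_ne_zero
  have h1 : #(T × I) ≤ #I := by
    rw [mk_prod, lift_id, lift_id, hI]
    exact (mul_le_mul' card_T le_rfl).trans (by simp)
  obtain ⟨j⟩ := h1
  refine ⟨fun α => (Function.invFun j α).1, fun t γ => ?_⟩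
  by_contra hn
  push Not at hn
  have h2 : ∀ β, j (t, β) ∈ Iic γ := by
    intro β
    by_contra h
    exact hn _ (not_le.1 h) (by rw [Function.leftInverse_invFun j.injective])
  have h3 : #I ≤ #(Iic γ) := mk_le_of_injective (f := fun β => ⟨j (t, β), h2 β⟩) fun β β' h => by
    have := j.injective (congrArg Subtype.val h)
    exact (Prod.ext_iff.1 this).2
  have h4 : #(Iic γ) < 𝔠 := by
    rw [← Iio_insert]
    exact mk_insert_le.trans_lt (add_lt_of_lt aleph0_le_continuum (mk_Iio_ord_toType γ)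
      (one_lt_aleph0.trans aleph0_lt_continuum))
  exact absurd (h3.trans_lt h4) (by rw [hI]; exact lt_irrefl _)

end Pool.Agent.H39.JC1
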