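import Mathlib
import Pool.Agent.H39.CC1

namespace Pool.Agent.H39.QS1

open Set Topology Filter Cardinal
open Pool.Agent.H39.CC1 (WayBelow CoreCompact wb_mono wb_cover wb_subset)

/-- The pseudo-intersection number: the least size of a family of subsets of `ℕ` all of whose
finite intersections are infinite and which has no infinite pseudo-intersection. -/
noncomputable def pNum : Cardinal.{0} :=
  sInf {κ | ∃ 𝒜 : Set (Set ℕ), #𝒜 = κ ∧ (∀ t ⊆ 𝒜, t.Finite → (⋂₀ t).Infinite) ∧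
    ¬ ∃ X : Set ℕ, X.Infinite ∧ ∀ A ∈ 𝒜, (X \ A).Finite}

lemma pseudo_of_lt {𝒜 : Set (Set ℕ)} (h : #𝒜 < pNum)
    (hs : ∀ t ⊆ 𝒜, t.Finite → (⋂₀ t).Infinite) :
    ∃ X : Set ℕ, X.Infinite ∧ ∀ A ∈ 𝒜, (X \ A).Finite := by
  by_contra hn
  exact absurd h (not_lt.2 (csInf_le' ⟨𝒜, rfl, hs, hn⟩))

lemma pseudo_of_countable {𝒜 : Set (Set ℕ)} (h : 𝒜.Countable)
    (hs : ∀ t ⊆ 𝒜, t.Finite → (⋂₀ t).Infinite) :
    ∃ X : Set ℕ, X.Infinite ∧ ∀ A ∈ 𝒜, (X \ A).Finite := by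
  rcases 𝒜.eq_empty_or_nonempty with rfl | hne
  · exact ⟨univ, infinite_univ, by simp⟩
  obtain ⟨g, rfl⟩ := h.exists_eq_range hne
  have h1 : ∀ n : ℕ, ∃ k, n < k ∧ ∀ i ≤ n, k ∈ g i := by
    intro n
    have := hs (g '' Iic n) (image_subset_range _ _) ((finite_Iic n).image g)
    obtain ⟨k, hk, hnk⟩ := this.exists_gt n
    exact ⟨k, hnk, fun i hi => hk _ ⟨i, hi, rfl⟩⟩
  choose k hk1 hk2 using h1
  refine ⟨range k, ?_, ?_⟩
  · refine infinite_of_forall_exists_gt fun n => ⟨k n, ⟨n, rfl⟩, hk1 n⟩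
  · rintro _ ⟨i, rfl⟩
    refine ((finite_Iic i).image k).subset ?_
    rintro _ ⟨⟨n, rfl⟩, hn⟩
    refine ⟨n, ?_, rfl⟩
    by_contra hni
    exact hn (hk2 n i (le_of_lt (not_le.1 hni)))

lemma aleph0_lt_pNum : ℵ₀ < pNum := by
  have hne : {κ | ∃ 𝒜 : Set (Set ℕ), #𝒜 = κ ∧ (∀ t ⊆ 𝒜, t.Finite → (⋂₀ t).Infinite) ∧
      ¬ ∃ X : Set ℕ, X.Infinite ∧ ∀ A ∈ 𝒜, (X \ A).Finite}.Nonempty := by
    refine ⟨_, {A | A ∈ hyperfilter ℕ}, rfl, ?_, ?_⟩
    · intro t ht htf hfin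
      have : ⋂₀ t ∈ hyperfilter ℕ := (Filter.sInter_mem htf).2 fun A hA => ht hA
      exact hfin.notMem_hyperfilter this
    · rintro ⟨X, hX, h⟩
      obtain ⟨Y, hYX, hY, hY'⟩ : ∃ Y ⊆ X, Y.Infinite ∧ (X \ Y).Infinite := by
        let e := hX.natEmbedding
        have hinj : Function.Injective (fun n => (e n : ℕ)) :=
          Subtype.val_injective.comp e.injective
        refine ⟨range (fun n => (e (2 * n) : ℕ)), ?_, ?_, ?_⟩
        · rintro _ ⟨n, rfl⟩; exact (e _).2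
        · refine infinite_range_of_injective fun a b hab => ?_
          have := hinj hab; omega
        · refine (infinite_range_of_injective (f := fun n => (e (2 * n + 1) : ℕ))
            fun a b hab => ?_).mono ?_
          · have := hinj hab; omega
          · rintro _ ⟨n, rfl⟩
            refine ⟨(e _).2, ?_⟩
            rintro ⟨m, hm⟩
            have := hinj hm; omega
      rcases (hyperfilter ℕ).mem_or_compl_mem Y with hy | hy
      · exact hY' (h Y hy)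
      · refine hY ((h Yᶜ hy).subset fun a ha => ⟨hYX ha, fun h' => h' ha⟩)
  obtain ⟨𝒜, h1, h2, h3⟩ := csInf_mem hne
  by_contra hle
  refine h3 (pseudo_of_countable ?_ h2)
  rw [← Cardinal.le_aleph0_iff_set_countable, h1]
  exact not_lt.1 hle

variable {P : Type} [PartialOrder P] [TopologicalSpace P] [IsScott P univ]

lemma open_iff (U : Set P) : IsOpen U ↔ IsUpperSet U ∧
    ∀ D : Set P, D.Nonempty → DirectedOn (· ≤ ·) D → ∀ a, IsLUB D a → a ∈ U →
      (D ∩ U).Nonempty := by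
  rw [IsScott.isOpen_iff_isUpperSet_and_dirSupInaccOn (D := univ)]
  constructor
  · rintro ⟨h1, h2⟩
    exact ⟨h1, fun D hD hd a ha hau => h2 (mem_univ _) hD hd ha hau⟩
  · rintro ⟨h1, h2⟩
    exact ⟨h1, fun D _ hD hd a ha hau => h2 D hD hd a ha hau⟩

lemma closed_Iic (a : P) : IsClosed (Iic a) := by
  rw [← isOpen_compl_iff, open_iff]
  refine ⟨(isLowerSet_Iic a).compl, fun D _ _ b hb hba => ?_⟩
  by_contra hn
  refine hba (hb.2 fun d hd => ?_)
  by_contra hda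
  exact hn ⟨d, hd, hda⟩

lemma open_W {U : Set P} (hU : IsOpen U) (X : Set ℕ) (z : ℕ → P)
    (hg : ∀ d ∈ U, {n | n ∈ X ∧ d ≤ z n}.Finite) (m : ℕ) :
    IsOpen {F | F ∈ U ∧ ∀ n ∈ X, m ≤ n → ¬ F ≤ z n} := by
  have hU' := (open_iff U).1 hU
  rw [open_iff]
  refine ⟨fun a b hab ha => ⟨hU'.1 hab ha.1, fun n hx hn h => ha.2 n hx hn (hab.trans h)⟩, ?_⟩
  intro D hD hd a ha hau
  have key : ∀ c, ¬ a ≤ c → ∃ d ∈ D, ¬ d ≤ c := by
    intro c hc
    by_contra hn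
    push Not at hn
    exact hc (ha.2 hn)
  obtain ⟨d0, hd0, hd0g⟩ := hU'.2 D hD hd a ha hau.1
  have : ∀ t : Set ℕ, t.Finite → ∃ e ∈ D, d0 ≤ e ∧ ∀ n ∈ t, n ∈ X → m ≤ n → ¬ e ≤ z n := by
    intro t ht
    induction t, ht using Set.Finite.induction_on with
    | empty => exact ⟨d0, hd0, le_rfl, by simp⟩
    | @insert k s _ _ ih =>
      obtain ⟨e, he, hde, hez⟩ := ih
      by_cases hk : k ∈ X ∧ m ≤ k
      · obtain ⟨d, hdD, hdz⟩ := key (z k) (hau.2 k hk.1 hk.2)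
        obtain ⟨e', he', h1, h2⟩ := hd e he d hdD
        refine ⟨e', he', hde.trans h1, ?_⟩
        rintro n (rfl | hn) hx hmn h
        · exact hdz (h2.trans h)
        · exact hez n hn hx hmn (h1.trans h)
      · refine ⟨e, he, hde, ?_⟩
        rintro n (rfl | hn) hx hmn h
        · exact hk ⟨hx, hmn⟩
        · exact hez n hn hx hmn h
  obtain ⟨e, he, hde, hez⟩ := this _ (hg d0 hd0g)
  exact ⟨e, he, hU'.1 hde hd0g, fun n hx hn h => hez n ⟨hx, hde.trans h⟩ hx hn h⟩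

/-- A sequence in `V ≪ U` has infinitely many terms above one element of `U`. -/
lemma star {V U : Set P} (hU : IsOpen U) (h : WayBelow V U) (X : Set ℕ) (hX : X.Infinite)
    (z : ℕ → P) (hz : ∀ n, z n ∈ V) : ∃ d ∈ U, {n | n ∈ X ∧ d ≤ z n}.Infinite := by
  by_contra hn
  push Not at hn
  obtain ⟨t, -, htf, hv⟩ := wb_cover h univ
    (fun m => {F | F ∈ U ∧ ∀ n ∈ X, m ≤ n → ¬ F ≤ z n}) (fun m _ => open_W hU X z hn m) (by
      intro d hd
      obtain ⟨m, hm⟩ := (hn d hd).bddAbove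
      refine mem_biUnion (mem_univ (m + 1)) ⟨hd, fun n hx hmn hdn => ?_⟩
      have := hm (show n ∈ {n | n ∈ X ∧ d ≤ z n} from ⟨hx, hdn⟩)
      omega)
  obtain ⟨M, hM⟩ := htf.bddAbove
  obtain ⟨n, hnX, hnM⟩ := hX.exists_gt M
  obtain ⟨m, hm, hzm⟩ := mem_iUnion₂.1 (hv (hz n))
  exact hzm.2 n hnX ((hM hm).trans hnM.le) le_rfl

omit [PartialOrder P] [IsScott P univ] in
lemma ultra_lim {W U : Set P} (h : WayBelow W U) (𝒰 : Ultrafilter P) (hW : W ∈ 𝒰) :
    ∃ x ∈ U, ∀ O, IsOpen O → x ∈ O → O ∈ 𝒰 := by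
  by_contra hn
  push Not at hn
  choose! O hO hxO hOU using hn
  obtain ⟨t, ht, htf, hv⟩ := wb_cover h U O hO (fun x hx => mem_biUnion hx (hxO x hx))
  obtain ⟨x, hx, hxU⟩ := (Ultrafilter.finite_biUnion_mem_iff htf).1 (mem_of_superset hW hv)
  exact hOU x (ht hx) hxU

/-- If finite subsets of `V` are covered by boundedly many elements of `W ≪ U`, then `V` is
covered by finitely many elements of `U`. -/
lemma bounded_cover {V W U : Set P} (h : WayBelow W U) (n : ℕ)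
    (hn : ∀ Z : Finset P, (∀ z ∈ Z, z ∈ V) →
      ∃ f : Fin n → P, (∀ j, f j ∈ W) ∧ ∀ z ∈ Z, ∃ j, f j ≤ z) :
    ∃ F : Set P, F.Finite ∧ F ⊆ U ∧ V ⊆ upperClosure F := by
  classical
  have hn' : ∀ Z : Finset V, ∃ f : Fin n → P, (∀ j, f j ∈ W) ∧ ∀ z ∈ Z, ∃ j, f j ≤ z.1 := by
    intro Z
    obtain ⟨f, h1, h2⟩ := hn (Z.image Subtype.val) (by
      intro z hz
      obtain ⟨w, -, rfl⟩ := Finset.mem_image.1 hz
      exact w.2)
    exact ⟨f, h1, fun z hz => h2 _ (Finset.mem_image_of_mem _ hz)⟩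
  choose f hfW hfz using hn'
  let 𝒰 : Ultrafilter (Finset V) := Ultrafilter.of atTop
  have hle : (𝒰 : Filter (Finset V)) ≤ atTop := Ultrafilter.of_le _
  have : ∀ j, ∃ x ∈ U, ∀ O, IsOpen O → x ∈ O → O ∈ 𝒰.map (fun Z => f Z j) := fun j =>
    ultra_lim h _ (by
      rw [Ultrafilter.mem_map]
      exact univ_mem' fun Z => hfW Z j)
  choose x hxU hx using this
  refine ⟨range x, finite_range x, range_subset_iff.2 hxU, fun v hv => ?_⟩
  have h1 : (⋃ j ∈ (univ : Set (Fin n)), {Z : Finset V | f Z j ≤ v}) ∈ 𝒰 := by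
    refine mem_of_superset (hle (mem_atTop ({⟨v, hv⟩} : Finset V))) fun Z hZ => ?_
    obtain ⟨j, hj⟩ := hfz Z ⟨v, hv⟩ (Finset.singleton_subset_iff.1 hZ)
    exact mem_biUnion (mem_univ j) hj
  obtain ⟨j, -, hj⟩ := (Ultrafilter.finite_biUnion_mem_iff finite_univ).1 h1
  refine ⟨x j, ⟨j, rfl⟩, ?_⟩
  by_contra hxv
  have h2 := hx j (Iic v)ᶜ (closed_Iic v).isOpen_compl hxv
  rw [Ultrafilter.mem_map] at h2
  obtain ⟨Z, hZ1, hZ2⟩ := 𝒰.nonempty_of_mem (inter_mem hj h2)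
  exact hZ2 hZ1

/-- Locally generated by fewer than `pNum` points. -/
def LocGen (P : Type) [PartialOrder P] [TopologicalSpace P] (κ : Cardinal.{0}) : Prop :=
  ∀ (x : P) (U : Set P), IsOpen U → x ∈ U →
    ∃ B : Set P, #B < κ ∧ B ⊆ U ∧ x ∈ interior (upperClosure B : Set P)

theorem quasicont (hc : CoreCompact P) (hg : LocGen P pNum) : LocGen P ℵ₀ := by
  classical
  intro x U hU hx
  obtain ⟨W, hWo, hxW, hWU⟩ := hc U hU x hx
  obtain ⟨B, hB, hBW, hxB⟩ := hg x W hWo hxW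
  obtain ⟨V, hVo, hxV, hVO⟩ := hc _ isOpen_interior x hxB
  have hupW : (upperClosure B : Set P) ⊆ W := by
    rintro y ⟨b, hb, hby⟩
    exact ((open_iff W).1 hWo).1 hby (hBW hb)
  have hVW : V ⊆ W := (wb_subset hVO isOpen_interior).trans (interior_subset.trans hupW)
  suffices h : ∃ n : ℕ, ∀ Z : Finset P, (∀ z ∈ Z, z ∈ V) →
      ∃ f : Fin n → P, (∀ j, f j ∈ W) ∧ ∀ z ∈ Z, ∃ j, f j ≤ z by
    obtain ⟨n, hn⟩ := h
    obtain ⟨F, hF, hFU, hVF⟩ := bounded_cover hWU n hn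
    exact ⟨F, Cardinal.lt_aleph0_iff_set_finite.2 hF, hFU,
      interior_maximal hVF hVo hxV⟩
  by_contra hn
  push Not at hn
  choose Z hZV hZ using hn
  have hcount : (insert x (⋃ n, (Z n : Set P))).Countable :=
    (countable_iUnion fun n => (Z n).countable_toSet).insert x
  obtain ⟨z, hz⟩ := hcount.exists_eq_range (insert_nonempty _ _)
  have hzV : ∀ k, z k ∈ V := by
    intro k
    have : z k ∈ insert x (⋃ n, (Z n : Set P)) := hz ▸ mem_range_self k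
    rcases this with h | h
    · exact h ▸ hxV
    · obtain ⟨n, hn⟩ := mem_iUnion.1 h
      exact hZV n _ hn
  obtain ⟨X, hX, hXA⟩ := pseudo_of_lt (𝒜 := (fun b => {k | ¬ b ≤ z k}) '' B)
    (lt_of_le_of_lt Cardinal.mk_image_le hB) (by
      intro t ht htf hfin
      obtain ⟨s, hs, hsf, rfl⟩ := (exists_subset_image_finite_and (p := fun s => s = t)).1
        ⟨t, ht, htf, rfl⟩
      have hG : (s ∪ z '' (⋂₀ ((fun b => {k | ¬ b ≤ z k}) '' s))).Finite :=
        hsf.union (hfin.image z)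
      let e := hG.toFinset.equivFin
      obtain ⟨w, hw, hw'⟩ := hZ hG.toFinset.card (fun j => (e.symm j : P)) (by
        intro j
        have := hG.mem_toFinset.1 (e.symm j).2
        rcases this with h | ⟨k, -, h⟩
        · exact hBW (hs h)
        · exact h ▸ hVW (hzV k))
      have hw1 : w ∈ range z := hz ▸ Or.inr (mem_iUnion.2 ⟨_, hw⟩)
      obtain ⟨k, rfl⟩ := hw1
      have hnot : ∀ y ∈ s ∪ z '' (⋂₀ ((fun b => {k | ¬ b ≤ z k}) '' s)), ¬ y ≤ z k := by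
        intro y hy
        have := hw' (e ⟨y, hG.mem_toFinset.2 hy⟩)
        simpa using this
      refine hnot (z k) (Or.inr ⟨k, ?_, rfl⟩) le_rfl
      rintro _ ⟨b, hb, rfl⟩
      exact hnot b (Or.inl hb))
  obtain ⟨d, hd, hinf⟩ := star isOpen_interior hVO X hX z hzV
  obtain ⟨b, hb, hbd⟩ := interior_subset hd
  refine hinf ((hXA _ ⟨b, hb, rfl⟩).subset fun k hk => ⟨hk.1, fun h => h (hbd.trans hk.2)⟩)

theorem sober (hd : ∀ D : Set P, D.Nonempty → DirectedOn (· ≤ ·) D → ∃ s, IsLUB D s)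
    (hq : LocGen P ℵ₀) : QuasiSober P := by
  refine ⟨fun {A} hA hAc => ?_⟩
  have hAo := (open_iff Aᶜ).1 hAc.isOpen_compl
  have hAl : IsLowerSet A := isUpperSet_compl.1 hAo.1
  let 𝓕 : Set (Set P) := {F | F.Finite ∧ (A ∩ interior (upperClosure F : Set P)).Nonempty}
  have hq' : ∀ x ∈ A, ∀ U, IsOpen U → x ∈ U → ∃ F ∈ 𝓕, F ⊆ U := by
    intro x hx U hU hxU
    obtain ⟨F, hF, hFU, hxF⟩ := hq x U hU hxU
    exact ⟨F, ⟨Cardinal.lt_aleph0_iff_set_finite.1 hF, x, hx, hxF⟩, hFU⟩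
  have hfil : ∀ F ∈ 𝓕, ∀ G ∈ 𝓕, ∃ H ∈ 𝓕, H ⊆ upperClosure F ∧ H ⊆ upperClosure G := by
    intro F hF G hG
    obtain ⟨x, hxA, hx⟩ := hA.2 _ _ isOpen_interior isOpen_interior hF.2 hG.2
    obtain ⟨H, hH, hHU⟩ := hq' x hxA _ (isOpen_interior.inter isOpen_interior) hx
    exact ⟨H, hH, fun y hy => interior_subset (hHU hy).1, fun y hy => interior_subset (hHU hy).2⟩
  let 𝓔 : Set (Set P) := {E | E ⊆ A ∧ IsLowerSet E ∧ ∀ F ∈ 𝓕, (E ∩ F).Nonempty}
  have hA𝓔 : A ∈ 𝓔 := by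
    refine ⟨Subset.rfl, hAl, fun F hF => ?_⟩
    obtain ⟨x, hxA, hx⟩ := hF.2
    obtain ⟨f, hf, hfx⟩ := interior_subset hx
    exact ⟨f, hAl hfx hxA, hf⟩
  obtain ⟨E, -, hE⟩ := zorn_superset_nonempty 𝓔 (by
    intro c hc hch hne
    refine ⟨⋂₀ c, ⟨?_, isLowerSet_sInter fun s hs => (hc hs).2.1, fun F hF => ?_⟩,
      fun s hs => sInter_subset_of_mem hs⟩
    · obtain ⟨s, hs⟩ := hne
      exact (sInter_subset_of_mem hs).trans (hc hs).1
    · by_contra hn
      have h1 : ∀ f ∈ F, ∃ s ∈ c, f ∉ s := by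
        intro f hf
        by_contra h
        push Not at h
        exact hn ⟨f, h, hf⟩
      have h2 : ∀ G : Set P, G.Finite → G ⊆ F → ∃ s ∈ c, ∀ f ∈ G, f ∉ s := by
        intro G hG
        induction G, hG using Set.Finite.induction_on with
        | empty => exact fun _ => hne.imp fun s hs => ⟨hs, by simp⟩
        | @insert k G _ _ ih =>
          intro hsub
          obtain ⟨s, hs, hsG⟩ := ih ((subset_insert _ _).trans hsub)
          obtain ⟨s', hs', hk⟩ := h1 k (hsub (mem_insert _ _))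
          rcases hch.total hs hs' with h | h
          · refine ⟨s, hs, ?_⟩
            rintro f (rfl | hf)
            · exact fun h' => hk (h h')
            · exact hsG f hf
          · refine ⟨s', hs', ?_⟩
            rintro f (rfl | hf)
            · exact hk
            · exact fun h' => hsG f hf (h h')
      obtain ⟨s, hs, hsF⟩ := h2 F hF.1 Subset.rfl
      obtain ⟨f, hf1, hf2⟩ := (hc hs).2.2 F hF
      exact hsF f hf2 hf1) A hA𝓔
  obtain ⟨hEA, hEl, hEF⟩ := hE.prop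
  have hx : ∀ x ∈ E, ∃ F ∈ 𝓕, ∀ f ∈ F, f ∈ E → x ≤ f := by
    intro x hx
    by_contra hn
    push Not at hn
    have : E \ Ici x ∈ 𝓔 := by
      refine ⟨diff_subset.trans hEA, hEl.sdiff_of_isUpperSet (isUpperSet_Ici x), fun F hF => ?_⟩
      obtain ⟨f, hf, hfE, hxf⟩ := hn F hF
      exact ⟨f, ⟨hfE, hxf⟩, hf⟩
    exact (hE.le_of_le this diff_subset hx).2 le_rfl
  have hne : E.Nonempty := by
    obtain ⟨a, ha⟩ := hA.1
    obtain ⟨F, hF, -⟩ := hq' a ha univ isOpen_univ (mem_univ a)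
    exact (hEF F hF).mono inter_subset_left
  have hdir : DirectedOn (· ≤ ·) E := by
    intro x hxE y hyE
    obtain ⟨F, hF, hF'⟩ := hx x hxE
    obtain ⟨G, hG, hG'⟩ := hx y hyE
    obtain ⟨H, hH, h1, h2⟩ := hfil F hF G hG
    obtain ⟨w, hwE, hwH⟩ := hEF H hH
    obtain ⟨f, hf, hfw⟩ := h1 hwH
    obtain ⟨g, hg, hgw⟩ := h2 hwH
    exact ⟨w, hwE, (hF' f hf (hEl hfw hwE)).trans hfw, (hG' g hg (hEl hgw hwE)).trans hgw⟩
  obtain ⟨s, hs⟩ := hd E hne hdir
  have hsA : s ∈ A := by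
    by_contra h
    obtain ⟨e, he, he'⟩ := hAo.2 E hne hdir s hs h
    exact he' (hEA he)
  refine ⟨s, ?_⟩
  rw [isGenericPoint_def, IsScott.closure_singleton]
  refine Subset.antisymm (fun y hy => hAl hy hsA) fun a ha => ?_
  by_contra has
  obtain ⟨F, hF, hFU⟩ := hq' a ha (Iic s)ᶜ (closed_Iic s).isOpen_compl has
  obtain ⟨f, hfE, hf⟩ := hEF F hF
  exact hFU hf (hs.1 hfE)

lemma t0 : T0Space P := by
  refine (t0Space_iff_inseparable P).2 fun x y h => ?_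
  have h1 : x ≤ y := (h.mem_closed_iff (closed_Iic y)).2 le_rfl
  have h2 : y ≤ x := (h.mem_closed_iff (closed_Iic x)).1 le_rfl
  exact le_antisymm h1 h2

lemma locGen_of_card {κ : Cardinal.{0}} (h : #P < κ) : LocGen P κ := by
  intro x U hU hx
  refine ⟨U, lt_of_le_of_lt (Cardinal.mk_set_le U) h, Subset.rfl, ?_⟩
  exact interior_maximal subset_upperClosure hU hx

omit [PartialOrder P] [IsScott P univ] in
lemma cc_of_lc [LocallyCompactSpace P] : CoreCompact P := by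
  intro U hU y hy
  obtain ⟨K, hK, hKU, hKc⟩ := local_compact_nhds (hU.mem_nhds hy)
  refine ⟨interior K, isOpen_interior, mem_interior_iff_mem_nhds.2 hK, fun S hS hc => ?_⟩
  obtain ⟨T, hT, hTf, hKT⟩ := hKc.elim_finite_subcover_image (b := S) (c := id) hS
    (fun w hw => by
      obtain ⟨W, hW, hwW⟩ := hc (hKU hw)
      exact mem_biUnion hW hwW)
  refine ⟨T, hT, hTf, interior_subset.trans ?_⟩
  rw [sUnion_eq_biUnion]
  exact hKT

end Pool.Agent.H39.QS1
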