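import Mathlib
import Pool.Agent.H39.JC1
import Pool.Agent.H39.QS1

namespace Pool.Agent.H39.JC2

open Set Topology Filter Cardinal
open Pool.Agent.H39.JC1
open Pool.Agent.H39.QS1 (open_iff closed_Iic)

noncomputable def e : I → T := exists_e.choose

lemma e_spec (t : T) (γ : I) : ∃ α, γ < α ∧ e α = t := exists_e.choose_spec t γ

noncomputable def G (O : Set X) : ∀ i, Fin (b i) :=
  Classical.epsilon fun g => ∀ q ∈ O, ∀ N, ∃ i, N ≤ i ∧ g i ∉ q.1 i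

open Classical in
noncomputable def step (t : T) (O : Set X) : ℕ → X :=
  fun k => E t.1.1 t.1.2.1 (G O) (if t.1.1 ∈ O then k else t.1.2.2)

noncomputable def D : I → ℕ → X :=
  (wellFounded_lt (α := I)).fix fun α prev => step (e α) {x | ∃ β, ∃ h : β < α, ∃ k, prev β h k = x}

def Old (α : I) : Set X := {x | ∃ β, β < α ∧ ∃ k, D β k = x}

lemma D_eq (α : I) : D α = step (e α) (Old α) := by
  unfold D
  rw [WellFounded.fix_eq]
  congr 1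
  ext x
  simp only [Old, mem_setOf_eq, exists_prop]
  rfl

lemma D_E (α : I) (k : ℕ) : ∃ N, D α k = E (e α).1.1 (e α).1.2.1 (G (Old α)) N :=
  ⟨_, by rw [D_eq]; rfl⟩

lemma D_pos {α : I} (h : (e α).1.1 ∈ Old α) (k : ℕ) :
    D α k = E (e α).1.1 (e α).1.2.1 (G (Old α)) k := by
  rw [D_eq, step, if_pos h]

lemma D_neg {α : I} (h : (e α).1.1 ∉ Old α) (k : ℕ) :
    D α k = E (e α).1.1 (e α).1.2.1 (G (Old α)) (e α).1.2.2 := by
  rw [D_eq, step, if_neg h]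

lemma D_val (α : I) (k : ℕ) : Val (D α k) := by
  obtain ⟨N, h⟩ := D_E α k
  rw [h]
  exact E_val _ (e α).2.1 (e α).2.2 N

lemma card_Old (α : I) : #(Old α) < 𝔠 := by
  have : Old α ⊆ range fun t : Iio α × ℕ => D t.1 t.2 := by
    rintro _ ⟨β, hβ, k, rfl⟩
    exact ⟨(⟨β, hβ⟩, k), rfl⟩
  refine (mk_le_mk_of_subset this).trans_lt (mk_range_le.trans_lt ?_)
  rw [mk_prod, lift_id, lift_id, mk_nat]
  exact mul_lt_of_lt aleph0_le_continuum (mk_Iio_toType_ord_lt α) aleph0_lt_continuum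

lemma stage (H : CovM) {α β : I} (hβ : β < α) (k l : ℕ) : ¬ Le (D β k) (D α l) := by
  intro hle
  have h1 : ∀ q ∈ Old α, ∀ N, ∃ i, N ≤ i ∧ G (Old α) i ∉ q.1 i :=
    Classical.epsilon_spec (avoid H (Old α) (card_Old α) (by
      rintro _ ⟨γ, -, j, rfl⟩
      exact D_val γ j))
  obtain ⟨N, hN⟩ := D_E α l
  obtain ⟨i, hi, hi'⟩ := h1 _ ⟨β, hβ, k, rfl⟩ N
  refine hi' (hle.1 i ?_)
  rw [hN]
  exact g_mem_E _ hi

@[ext] structure Pt : Type where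
  val : X
  mem : ∃ α k, D α k = val

instance : PartialOrder Pt where
  le x y := Le x.val y.val
  le_refl x := Le.refl _
  le_trans _ _ _ := Le.trans
  le_antisymm _ _ h1 h2 := Pt.ext (h1.antisymm h2)

instance : TopologicalSpace Pt := Topology.scott Pt Set.univ

instance : IsScott Pt Set.univ := ⟨rfl⟩

lemma Pt.val_val (x : Pt) : Val x.val := by
  obtain ⟨α, k, h⟩ := x.mem
  exact h ▸ D_val α k

lemma dir (H : CovM) (S : Set Pt) (hne : S.Nonempty) (hd : DirectedOn (· ≤ ·) S) :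
    ∃ s : Pt, IsLUB S s ∧ ∀ m, ∃ d ∈ S, d.val ∈ B s.val m := by
  by_cases hmax : ∃ s ∈ S, ∀ d ∈ S, d ≤ s
  · obtain ⟨s, hs, hs'⟩ := hmax
    exact ⟨s, ⟨hs', fun u hu => hu hs⟩, fun m => ⟨s, hs, self_mem_B _ m⟩⟩
  obtain ⟨α, ⟨d0, hd0, k0, hk0⟩, hmin⟩ := (wellFounded_lt (α := I)).has_min
    {α | ∃ d ∈ S, ∃ k, D α k = d.val} (by
      obtain ⟨d, hd⟩ := hne
      obtain ⟨α, k, h⟩ := d.mem
      exact ⟨α, d, hd, k, h⟩)
  have hup : ∀ d ∈ S, ∃ d' ∈ S, d ≤ d' ∧ ∃ k, D α k = d'.val := by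
    intro d hdS
    obtain ⟨d', hd', h1, h2⟩ := hd d hdS d0 hd0
    obtain ⟨β, l, hl⟩ := d'.mem
    rcases lt_trichotomy α β with h | h | h
    · exact absurd (show Le (D α k0) (D β l) by rw [hk0, hl]; exact h2) (stage H h k0 l)
    · exact ⟨d', hd', h1, l, h ▸ hl⟩
    · exact absurd h (hmin β ⟨d', hd', l, hl⟩)
  by_cases hp : (e α).1.1 ∈ Old α
  swap
  · refine absurd ⟨d0, hd0, fun d hdS => ?_⟩ hmax
    obtain ⟨d', -, h1, k, hk⟩ := hup d hdS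
    have : d' = d0 := Pt.ext (by rw [← hk, ← hk0, D_neg hp, D_neg hp])
    exact this ▸ h1
  have hunb : ∀ N, ∃ d ∈ S, ∃ k, N ≤ k ∧ D α k = d.val := by
    intro N
    by_contra hn
    push Not at hn
    have hb : BddAbove {k | ∃ d ∈ S, D α k = d.val} := ⟨N, by
      rintro k ⟨d, hdS, hk⟩
      by_contra h
      exact hn d hdS k (not_le.1 h).le hk⟩
    obtain ⟨s, hs, hsk⟩ := Nat.sSup_mem (s := {k | ∃ d ∈ S, D α k = d.val})
      ⟨k0, d0, hd0, hk0⟩ hb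
    refine hmax ⟨s, hs, fun d hdS => ?_⟩
    obtain ⟨d', hd', h1, k, hk⟩ := hup d hdS
    refine h1.trans ?_
    change Le d'.val s.val
    rw [← hk, ← hsk, D_pos hp, D_pos hp]
    exact E_mono _ (le_csSup hb ⟨d', hd', hk⟩)
  have hp' : ∃ β k, D β k = (e α).1.1 := by
    obtain ⟨β, -, k, h⟩ := hp
    exact ⟨β, k, h⟩
  have hB : ∀ m, ∃ d ∈ S, d.val ∈ B (e α).1.1 m := by
    intro m
    obtain ⟨d, hdS, k, hk, hk'⟩ := hunb (2 * m + 2)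
    refine ⟨d, hdS, ?_⟩
    rw [← hk', D_pos hp]
    exact E_mem_B _ hk
  refine ⟨⟨_, hp'⟩, ⟨fun d hdS => ?_, fun u hu => ?_⟩, hB⟩
  · obtain ⟨d', -, h1, k, hk⟩ := hup d hdS
    refine h1.trans ?_
    change Le d'.val (e α).1.1
    rw [← hk, D_pos hp]
    exact E_le_p _ k
  · refine le_of_B fun m => ?_
    obtain ⟨d, hdS, hdB⟩ := hB m
    exact ⟨d.val, hdB, hu hdS⟩

lemma open_C (H : CovM) (F : ∀ i, Finset (Fin (b i))) (m : ℕ) (s : ℝ) :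
    IsOpen {x : Pt | x.val ∈ C F m s} := by
  rw [open_iff]
  refine ⟨fun x y hxy hx => C_up hx hxy, fun S hne hd a ha hx => ?_⟩
  obtain ⟨s', hs', hB⟩ := dir H S hne hd
  obtain rfl := ha.unique hs'
  obtain ⟨n, hn⟩ := C_nb hx
  obtain ⟨d, hdS, hdB⟩ := hB n
  exact ⟨d, hdS, hn hdB⟩

lemma chain (p : Pt) (z : ℕ → X) (hz : ∀ n, Val (z n) ∧ z n ∈ B p.val n) :
    ∃ c : ℕ → Pt, Monotone c ∧ IsLUB (range c) p ∧ ∀ k, Le (c k).val (z k) := by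
  obtain ⟨β, l, hl⟩ := p.mem
  obtain ⟨α, hα, he⟩ := e_spec ⟨(p.val, z, 0), p.val_val, hz⟩ β
  have hp : (e α).1.1 ∈ Old α := by rw [he]; exact ⟨β, hα, l, hl⟩
  have hD : ∀ k, D α k = E p.val z (G (Old α)) k := fun k => by rw [D_pos hp, he]
  refine ⟨fun k => ⟨D α k, α, k, rfl⟩, fun k k' hk => ?_, ⟨?_, fun u hu => ?_⟩, fun k => ?_⟩
  · change Le (D α k) (D α k')
    rw [hD, hD]; exact E_mono _ hk
  · rintro _ ⟨k, rfl⟩
    change Le (D α k) p.val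
    rw [hD]; exact E_le_p _ k
  · refine le_of_B fun m => ⟨D α (2 * m + 2), ?_, hu ⟨2 * m + 2, rfl⟩⟩
    rw [hD]; exact E_mem_B _ le_rfl
  · change Le (D α k) (z k)
    rw [hD]; exact E_le_z _ (fun n => (hz n).2) k

lemma sub_open {U : Set Pt} (hU : IsOpen U) {p : Pt} (hp : p ∈ U) :
    ∃ m, ∀ x : Pt, x.val ∈ B p.val m → x ∈ U := by
  by_contra hn
  push Not at hn
  choose z hz hzU using hn
  obtain ⟨c, hc, hl, hcz⟩ := chain p (fun n => (z n).val) fun n => ⟨(z n).val_val, hz n⟩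
  obtain ⟨_, ⟨k, rfl⟩, hk⟩ := ((open_iff U).1 hU).2 _ (range_nonempty c)
    hc.directed_le.directedOn_range p hl hp
  exact hzU k (((open_iff U).1 hU).1 (show c k ≤ z k from hcz k) hk)

lemma dense (η : X) (hη : Val η) (m : ℕ) : ∃ d : Pt, Le d.val η ∧ d.val ∈ B η m := by
  haveI : Nonempty I := by rw [← mk_ne_zero_iff, mk_ord_toType]; exact continuum_ne_zero
  obtain ⟨α, -, he⟩ := e_spec ⟨(η, fun _ => η, 2 * m + 2), hη, fun n => ⟨hη, self_mem_B _ n⟩⟩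
    (Classical.arbitrary I)
  have hD : D α (2 * m + 2) = E η (fun _ => η) (G (Old α)) (2 * m + 2) := by
    by_cases hp : (e α).1.1 ∈ Old α
    · rw [D_pos hp, he]
    · rw [D_neg hp, he]
  refine ⟨⟨D α (2 * m + 2), α, _, rfl⟩, ?_, ?_⟩
  · change Le (D α _) η
    rw [hD]; exact E_le_p _ _
  · change D α _ ∈ B η m
    rw [hD]; exact E_mem_B _ le_rfl

theorem meet_cont (H : CovM) (x : Pt) (S : Set Pt) (s : Pt) (hne : S.Nonempty)
    (hd : DirectedOn (· ≤ ·) S) (hs : IsLUB S s) (hx : x ≤ s) :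
    x ∈ closure {y : Pt | y ≤ x ∧ ∃ d ∈ S, y ≤ d} := by
  obtain ⟨s', hs', hB⟩ := dir H S hne hd
  obtain rfl := hs.unique hs'
  choose z hzS hz using hB
  obtain ⟨c, hc, hl, hcz⟩ := chain x (fun n => (z n).val)
    fun n => ⟨(z n).val_val, B_sub hx le_rfl (hz n)⟩
  rw [mem_closure_iff]
  intro U hU hxU
  obtain ⟨_, ⟨k, rfl⟩, hk⟩ := ((open_iff U).1 hU).2 _ (range_nonempty c)
    hc.directed_le.directedOn_range x hl hxU
  exact ⟨c k, hk, hl.1 ⟨k, rfl⟩, z k, hzS k, hcz k⟩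

theorem core (H : CovM) (x : Pt) (U : Set Pt) (hU : IsOpen U) (hx : x ∈ U) :
    ∃ V : Set Pt, IsOpen V ∧ x ∈ V ∧ V ⊆ U ∧
      ∀ 𝒲 : Set (Set Pt), (∀ W ∈ 𝒲, IsOpen W) → U ⊆ ⋃₀ 𝒲 →
        ∃ 𝒯 ⊆ 𝒲, 𝒯.Finite ∧ V ⊆ ⋃₀ 𝒯 := by
  obtain ⟨m, hm⟩ := sub_open hU hx
  have hpos := @Nat.one_div_pos_of_nat ℝ _ _ _ m
  set s : ℝ := x.val.2 + 1 / ((m : ℝ) + 1) / 2 with hs
  refine ⟨{y | y.val ∈ C x.val.1 m s}, open_C H _ _ _,
    ⟨fun _ _ => Finset.Subset.refl _, by linarith⟩,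
    fun y hy => hm y ⟨hy.1, by have := hy.2; linarith⟩, fun 𝒲 hW hc => ?_⟩
  have key : ∀ η : X, η ∈ {y : X | Val y ∧ (∀ i < m, y.1 i ⊆ x.val.1 i) ∧ y.2 ≤ s} →
      ∃ W ∈ 𝒲, ∃ O ∈ 𝓝 η, ∀ y : Pt, y.val ∈ O → y ∈ W := by
    intro η hη
    have h1 : η ∈ B x.val m := ⟨hη.2.1, by have := hη.2.2; linarith⟩
    obtain ⟨n, hn⟩ := C_nb h1
    obtain ⟨d, hd, hdB⟩ := dense η hη.1 n
    obtain ⟨W, hWm, hdW⟩ := hc (hm d (hn hdB))
    obtain ⟨k, hk⟩ := sub_open (hW W hWm) hdW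
    exact ⟨W, hWm, B d.val k, (isOpen_C _ _ _).mem_nhds (C_up (self_mem_B _ k) hd), hk⟩
  choose! W hW1 O hO hOW using key
  obtain ⟨t, ht, hcov⟩ := (isCompact_K x.val.1 m s).elim_nhds_subcover O hO
  refine ⟨W '' t, ?_, t.finite_toSet.image W, fun y hy => ?_⟩
  · rintro _ ⟨η, hη, rfl⟩
    exact hW1 η (ht η hη)
  · obtain ⟨η, hη, hyη⟩ := mem_iUnion₂.1 (hcov ⟨y.val_val, hy.1, hy.2.le⟩)
    exact ⟨W η, ⟨η, hη, rfl⟩, hOW η (ht η hη) y hyη⟩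

lemma le_top (x : Pt) : Le x.val top := ⟨fun _ => Finset.empty_subset _, x.val_val.1⟩

theorem not_sober : ¬ QuasiSober Pt := by
  intro hq
  have hirr : IsIrreducible (Set.univ : Set Pt) := by
    obtain ⟨d0, -, -⟩ := dense top top_val 0
    refine ⟨⟨d0, mem_univ _⟩, ?_⟩
    rintro U V hU hV ⟨p, -, hp⟩ ⟨q, -, hq⟩
    obtain ⟨m, hm⟩ := sub_open hU hp
    obtain ⟨n, hn⟩ := sub_open hV hq
    obtain ⟨d, -, hd⟩ := dense top top_val (max m n)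
    exact ⟨d, mem_univ _, hm d (B_sub (le_top p) (le_max_left _ _) hd),
      hn d (B_sub (le_top q) (le_max_right _ _) hd)⟩
  obtain ⟨t, ht⟩ := hq.sober hirr isClosed_univ
  rw [isGenericPoint_def, IsScott.closure_singleton] at ht
  obtain ⟨α, k, hk⟩ := t.mem
  obtain ⟨N, hN⟩ := D_E α k
  obtain ⟨d, -, hd⟩ := dense top top_val (N + 1)
  have h1 : d ≤ t := by
    have : d ∈ Iic t := ht ▸ mem_univ d
    exact this
  have h2 : G (Old α) N ∈ t.val.1 N := by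
    rw [← hk, hN]; exact g_mem_E _ le_rfl
  exact Finset.notMem_empty _ (hd.1 N (Nat.lt_succ_self N) (h1.1 N h2))

end Pool.Agent.H39.JC2
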