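import Mathlib
import Pool.Agent.H39.JC1

namespace Pool.Agent.H39.JC3

open Set Topology Filter Cardinal
open Pool.Agent.H39.JC1 (b b_pos h h_mono one_le_h h_step h_lt_b inv_anti two_div)

abbrev Sl := ∀ i, Finset (Fin (b i))

def J (c : ℝ) (η : Sl) : Prop := ∀ i, ((η i).card : ℝ) ≤ h c i

def Unb (c c' : ℝ) (F : Set Sl) : Prop :=
  (∀ f ∈ F, J c f) ∧ ¬ ∃ η, J c' η ∧ ∀ f ∈ F, ∀ᶠ i in atTop, f i ⊆ η i

lemma unb_exists : ∃ F, Unb 0 1 F := by
  refine ⟨{f | J 0 f}, fun f hf => hf, ?_⟩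
  rintro ⟨η, hη, hall⟩
  have hex : ∀ i : ℕ, ∃ a : Fin (b i), 1 ≤ i → a ∉ η i := by
    intro i
    by_cases hi : 1 ≤ i
    · have h2 : ((η i).card : ℝ) < b i := (hη i).trans_lt (h_lt_b (by exact_mod_cast hi))
      have h3 : (η i).card < (Finset.univ : Finset (Fin (b i))).card := by
        rw [Finset.card_univ, Fintype.card_fin]; exact_mod_cast h2
      obtain ⟨a, -, ha⟩ := Finset.exists_mem_notMem_of_card_lt_card h3
      exact ⟨a, fun _ => ha⟩
    · exact ⟨⟨0, b_pos i⟩, fun h => absurd h hi⟩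
  choose a ha using hex
  have h1 := hall (fun i => {a i}) (fun i => by
    simp only [Finset.card_singleton, Nat.cast_one]
    exact one_le_h le_rfl i)
  obtain ⟨i, hi1, hi2⟩ := (h1.and (eventually_ge_atTop 1)).exists
  exact ha i hi2 (hi1 (Finset.mem_singleton_self _))

lemma union_bd {c c' : ℝ} (hc0 : 0 ≤ c) (hc : c < c') {u v : Sl} (hu : J c u) (hv : J c v) :
    ∃ η, J c' η ∧ (∀ᶠ i in atTop, u i ⊆ η i) ∧ ∀ᶠ i in atTop, v i ⊆ η i := by
  obtain ⟨N, hN⟩ := exists_nat_one_div_lt (sub_pos.2 hc)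
  refine ⟨fun i => if N ≤ i then u i ∪ v i else ∅, fun i => ?_, ?_, ?_⟩
  · simp only
    split_ifs with hi
    · have h1 := h_step (c - 1 / ((N : ℝ) + 1)) hi
      have h2 := two_div N
      rw [sub_add_cancel] at h1
      have h3 : h (c - 1 / ((N : ℝ) + 1) + 2 / ((N : ℝ) + 1)) i ≤ h c' i := h_mono (by linarith) i
      have h4 : ((u i ∪ v i).card : ℝ) ≤ (u i).card + (v i).card := by
        exact_mod_cast Finset.card_union_le _ _
      have h5 := hu i
      have h6 := hv i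
      have h7 := one_le_h hc0 i
      have h8 : (0 : ℝ) ≤ i := Nat.cast_nonneg i
      nlinarith
    · simp only [Finset.card_empty, Nat.cast_zero]
      exact zero_le_one.trans (one_le_h (hc0.trans hc.le) i)
  · filter_upwards [eventually_ge_atTop N] with i hi
    rw [if_pos hi]; exact Finset.subset_union_left
  · filter_upwards [eventually_ge_atTop N] with i hi
    rw [if_pos hi]; exact Finset.subset_union_right

theorem luzin : ∃ (c1 c2 : ℝ) (ξ : Sl → Sl), 0 ≤ c1 ∧ c1 < c2 ∧ (∀ η, J c1 (ξ η)) ∧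
    WellFounded (fun η' η : Sl => J c2 η ∧ ∀ᶠ i in atTop, ξ η' i ⊆ η i) := by
  classical
  have hne : {κ : Cardinal.{0} | ∃ c c' F, 0 ≤ c ∧ c < c' ∧ Unb c c' F ∧ #F = κ}.Nonempty := by
    obtain ⟨F, hF⟩ := unb_exists
    exact ⟨_, 0, 1, F, le_rfl, zero_lt_one, hF, rfl⟩
  obtain ⟨c, c', F, hc0, hc, hF, hκ⟩ := csInf_mem hne
  set β := sInf {κ : Cardinal.{0} | ∃ c c' F, 0 ≤ c ∧ c < c' ∧ Unb c c' F ∧ #F = κ} with hβ
  obtain ⟨f⟩ : Nonempty (β.ord.ToType ≃ F) := Cardinal.eq.1 (by rw [mk_ord_toType, hκ])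
  have hc1 : c < (c + c') / 2 := by linarith
  have hc2 : (c + c') / 2 < c' := by linarith
  have hx : ∀ γ : β.ord.ToType, ∃ η, J ((c + c') / 2) η ∧
      ∀ δ < γ, ∀ᶠ i in atTop, (f δ).1 i ⊆ η i := by
    intro γ
    by_contra hn
    have h1 : Unb c ((c + c') / 2) ((fun δ => (f δ).1) '' Iio γ) := by
      refine ⟨?_, ?_⟩
      · rintro _ ⟨δ, -, rfl⟩
        exact hF.1 _ (f δ).2
      · rintro ⟨η, h1, h2⟩
        exact hn ⟨η, h1, fun δ hδ => h2 _ ⟨δ, hδ, rfl⟩⟩
    have h2 : β ≤ #((fun δ => (f δ).1) '' Iio γ) := csInf_le' ⟨c, _, _, hc0, hc1, h1, rfl⟩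
    exact absurd (h2.trans mk_image_le) (not_le.2 (mk_Iio_toType_ord_lt γ))
  choose x hxJ hx using hx
  have hr : ∀ η, J c' η → ∃ γ, ¬ ∀ᶠ i in atTop, (f γ).1 i ⊆ η i := by
    intro η hη
    by_contra hn
    push Not at hn
    refine hF.2 ⟨η, hη, fun g hg => ?_⟩
    have := hn (f.symm ⟨g, hg⟩)
    rwa [Equiv.apply_symm_apply] at this
  have hmax : ∀ γ : β.ord.ToType, ∃ γ', γ < γ' := by
    intro γ
    by_contra hn
    push Not at hn
    obtain ⟨η, h1, h2, h3⟩ := union_bd (hc0.trans hc1.le) hc2 (hxJ γ)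
      (fun i => (hF.1 _ (f γ).2 i).trans (h_mono hc1.le i))
    obtain ⟨δ, hδ⟩ := hr η h1
    rcases (hn δ).lt_or_eq with h4 | h4
    · exact hδ (((hx γ δ h4).and h2).mono fun i hi => hi.1.trans hi.2)
    · exact hδ (h4 ▸ h3)
  have hα : ∀ η, ∃ γ, J c' η → ∀ δ, (∀ᶠ i in atTop, x δ i ⊆ η i) → δ < γ := by
    intro η
    by_cases hη : J c' η
    · obtain ⟨γ, hγ⟩ := hr η hη
      obtain ⟨γ', hγ'⟩ := hmax γ
      refine ⟨γ', fun _ δ hδ => lt_of_le_of_lt ?_ hγ'⟩
      by_contra hlt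
      exact hγ (((hx δ γ (not_le.1 hlt)).and hδ).mono fun i hi => hi.1.trans hi.2)
    · obtain ⟨γ, -⟩ := hr (fun _ => ∅) (fun i => by
        simp only [Finset.card_empty, Nat.cast_zero]
        exact zero_le_one.trans (one_le_h (hc0.trans hc.le) i))
      exact ⟨γ, fun h => absurd h hη⟩
  choose α hα using hα
  refine ⟨(c + c') / 2, c', fun η => x (α η), hc0.trans hc1.le, hc2, fun η => hxJ _, ?_⟩
  exact Subrelation.wf (r := InvImage (· < ·) α) (fun {η' η} h => hα η h.1 _ h.2)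
    (InvImage.wf α wellFounded_lt)

noncomputable def c1 : ℝ := luzin.choose
noncomputable def c2 : ℝ := luzin.choose_spec.choose
noncomputable def ξ : Sl → Sl := luzin.choose_spec.choose_spec.choose
lemma c1_nonneg : 0 ≤ c1 := luzin.choose_spec.choose_spec.choose_spec.1
lemma c1_lt : c1 < c2 := luzin.choose_spec.choose_spec.choose_spec.2.1
lemma ξ_J (η : Sl) : J c1 (ξ η) := luzin.choose_spec.choose_spec.choose_spec.2.2.1 η
lemma ξ_wf : WellFounded (fun η' η : Sl => J c2 η ∧ ∀ᶠ i in atTop, ξ η' i ⊆ η i) :=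
  luzin.choose_spec.choose_spec.choose_spec.2.2.2

abbrev A (i : ℕ) : Type := Fin (b i) × (Fin i → Bool)

instance tF (i : ℕ) : TopologicalSpace (Finset (A i)) := ⊥
instance dF (i : ℕ) : DiscreteTopology (Finset (A i)) := ⟨rfl⟩

abbrev X := (∀ i, Finset (A i)) × ℝ

def Val (x : X) : Prop := c1 ≤ x.2 ∧ ∀ i, ((x.1 i).card : ℝ) ≤ h x.2 i

def Le (x y : X) : Prop := (∀ i, y.1 i ⊆ x.1 i) ∧ y.2 ≤ x.2

def C (F : ∀ i, Finset (A i)) (m : ℕ) (s : ℝ) : Set X :=
  {x | (∀ i < m, x.1 i ⊆ F i) ∧ x.2 < s}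

def B (p : X) (m : ℕ) : Set X := C p.1 m (p.2 + 1 / ((m : ℝ) + 1))

noncomputable def E (p : X) (z : ℕ → X) (g : ∀ i, Finset (A i)) (N : ℕ) : X :=
  (fun i => if N ≤ i then p.1 i ∪ (g i ∪ (Finset.Icc N i).biUnion fun n => (z n).1 i)
    else p.1 i, p.2 + 2 / ((N : ℝ) + 1))

lemma Le.refl (x : X) : Le x x := ⟨fun _ => Finset.Subset.refl _, le_rfl⟩

lemma Le.trans {x y z : X} (h1 : Le x y) (h2 : Le y z) : Le x z :=
  ⟨fun i => (h2.1 i).trans (h1.1 i), h2.2.trans h1.2⟩

lemma Le.antisymm {x y : X} (h1 : Le x y) (h2 : Le y x) : x = y :=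
  Prod.ext (funext fun i => Finset.Subset.antisymm (h2.1 i) (h1.1 i)) (le_antisymm h2.2 h1.2)

lemma self_mem_B (p : X) (m : ℕ) : p ∈ B p m :=
  ⟨fun _ _ => Finset.Subset.refl _, by have := @Nat.one_div_pos_of_nat ℝ _ _ _ m; linarith⟩

lemma C_up {F : ∀ i, Finset (A i)} {m : ℕ} {s : ℝ} {x y : X} (hx : x ∈ C F m s)
    (h : Le x y) : y ∈ C F m s :=
  ⟨fun i hi => (h.1 i).trans (hx.1 i hi), h.2.trans_lt hx.2⟩

lemma B_sub {p q : X} (h : Le p q) {m n : ℕ} (hmn : m ≤ n) : B q n ⊆ B p m := fun x hx =>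
  ⟨fun i hi => (hx.1 i (hi.trans_le hmn)).trans (h.1 i), by
    have h1 := hx.2
    have h2 := inv_anti hmn
    have h3 := h.2
    linarith⟩

lemma C_nb {F : ∀ i, Finset (A i)} {m : ℕ} {s : ℝ} {x : X} (hx : x ∈ C F m s) :
    ∃ n, B x n ⊆ C F m s := by
  obtain ⟨k, hk⟩ := exists_nat_one_div_lt (sub_pos.2 hx.2)
  refine ⟨max m k, fun y hy => ⟨fun i hi => (hy.1 i (hi.trans_le (le_max_left _ _))).trans
    (hx.1 i hi), ?_⟩⟩
  have h1 := hy.2
  have h2 := inv_anti (le_max_right m k)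
  linarith

lemma le_of_B {p u : X} (h : ∀ m, ∃ y ∈ B p m, Le y u) : Le p u := by
  refine ⟨fun i => ?_, ?_⟩
  · obtain ⟨y, hy, hyu⟩ := h (i + 1)
    exact (hyu.1 i).trans (hy.1 i (Nat.lt_succ_self i))
  · by_contra hn
    obtain ⟨k, hk⟩ := exists_nat_one_div_lt (sub_pos.2 (not_le.1 hn))
    obtain ⟨y, hy, hyu⟩ := h k
    have h1 := hy.2
    have h2 := hyu.2
    linarith

lemma isOpen_C (F : ∀ i, Finset (A i)) (m : ℕ) (s : ℝ) : IsOpen (C F m s) := by
  have : C F m s = (⋂ i ∈ Iio m, (fun x : X => x.1 i) ⁻¹' {t | t ⊆ F i}) ∩ {x | x.2 < s} := by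
    ext x; simp [C]
  rw [this]
  refine ((finite_Iio m).isOpen_biInter fun i _ => (isOpen_discrete _).preimage ?_).inter
    (isOpen_lt continuous_snd continuous_const)
  exact (continuous_apply i).comp continuous_fst

lemma isCompact_K (F : ∀ i, Finset (A i)) (m : ℕ) (s : ℝ) :
    IsCompact {x : X | Val x ∧ (∀ i < m, x.1 i ⊆ F i) ∧ x.2 ≤ s} := by
  refine (isCompact_univ.prod (isCompact_Icc (a := c1) (b := s))).of_isClosed_subset ?_
    (fun x hx => ⟨mem_univ _, hx.1.1, hx.2.2⟩)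
  have hi : ∀ i, Continuous fun x : X => x.1 i := fun i => (continuous_apply i).comp continuous_fst
  refine IsClosed.and (IsClosed.and (isClosed_le continuous_const continuous_snd) ?_)
    (IsClosed.and ?_ (isClosed_le continuous_snd continuous_const))
  · rw [setOf_forall]
    refine isClosed_iInter fun i => isClosed_le ?_ ?_
    · exact (continuous_of_discreteTopology
        (f := fun t : Finset (A i) => (t.card : ℝ))).comp (hi i)
    · have : (0 : ℝ) ≤ i := Nat.cast_nonneg i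
      unfold h
      exact continuous_const.rpow (continuous_snd.mul continuous_const)
        fun _ => Or.inl (by linarith)
  · rw [setOf_forall]
    refine isClosed_iInter fun i => ?_
    exact (isClosed_discrete {t : Finset (A i) | i < m → t ⊆ F i}).preimage (hi i)

section chain
variable {p : X} {z : ℕ → X} (g : ∀ i, Finset (A i))

lemma E_val (hp : Val p) (hz : ∀ n, Val (z n) ∧ z n ∈ B p n)
    (hg : ∀ i, ((g i).card : ℝ) ≤ h c1 i) (N : ℕ) : Val (E p z g N) := by
  have hc := c1_nonneg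
  have hpos := @Nat.one_div_pos_of_nat ℝ _ _ _ N
  have h2 := two_div N
  have hp0 := hp.1
  refine ⟨by simp only [E]; linarith, fun i => ?_⟩
  simp only [E]
  split_ifs with hN
  · refine le_trans ?_ (h_step p.2 hN)
    set H := h (p.2 + 1 / ((N : ℝ) + 1)) i with hH
    have h1 : 1 ≤ H := one_le_h (by linarith) i
    have h3 : ((p.1 i).card : ℝ) ≤ H := (hp.2 i).trans (h_mono (by linarith) i)
    have h4 : (((Finset.Icc N i).biUnion fun n => (z n).1 i).card : ℝ) ≤ (i + 1) * H := by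
      have h5 : (((Finset.Icc N i).biUnion fun n => (z n).1 i).card : ℝ) ≤
          ∑ n ∈ Finset.Icc N i, (((z n).1 i).card : ℝ) := by
        exact_mod_cast Finset.card_biUnion_le
      have h6 : ∑ n ∈ Finset.Icc N i, (((z n).1 i).card : ℝ) ≤ (Finset.Icc N i).card • H := by
        refine Finset.sum_le_card_nsmul _ _ _ fun n hn => ((hz n).1.2 i).trans (h_mono ?_ i)
        have h7 := (hz n).2.2
        have h8 := inv_anti (Finset.mem_Icc.1 hn).1
        linarith
      have h7 : ((Finset.Icc N i).card : ℝ) ≤ i + 1 := by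
        rw [Nat.card_Icc]
        exact_mod_cast Nat.sub_le _ _
      rw [nsmul_eq_mul] at h6
      nlinarith
    have h5 : ((p.1 i ∪ (g i ∪ (Finset.Icc N i).biUnion fun n => (z n).1 i)).card : ℝ) ≤
        (p.1 i).card + ((g i).card + (((Finset.Icc N i).biUnion fun n => (z n).1 i).card : ℝ)) := by
      exact_mod_cast (Finset.card_union_le _ _).trans
        (Nat.add_le_add_left (Finset.card_union_le _ _) _)
    have h9 : ((g i).card : ℝ) ≤ H := (hg i).trans (h_mono (by linarith) i)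
    nlinarith
  · exact (hp.2 i).trans (h_mono (by linarith) i)

lemma E_le_p (N : ℕ) : Le (E p z g N) p := by
  have hpos := @Nat.one_div_pos_of_nat ℝ _ _ _ N
  have h2 := two_div N
  refine ⟨fun i => ?_, by simp only [E]; linarith⟩
  simp only [E]
  split_ifs
  · exact Finset.subset_union_left
  · exact Finset.Subset.refl _

lemma E_mono {N N' : ℕ} (hN : N ≤ N') : Le (E p z g N) (E p z g N') := by
  have h1 := inv_anti hN
  have h2 := two_div N
  have h3 := two_div N'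
  refine ⟨fun i => ?_, by simp only [E]; linarith⟩
  simp only [E]
  split_ifs with h4 h5 h5
  · refine Finset.union_subset_union (Finset.Subset.refl _) (Finset.union_subset_union (Finset.Subset.refl _) ?_)
    exact Finset.biUnion_subset_biUnion_of_subset_left _ (Finset.Icc_subset_Icc_left hN)
  · exact absurd (hN.trans h4) h5
  · exact Finset.subset_union_left
  · exact Finset.Subset.refl _

lemma E_le_z (hz : ∀ n, z n ∈ B p n) (N : ℕ) : Le (E p z g N) (z N) := by
  have hpos := @Nat.one_div_pos_of_nat ℝ _ _ _ N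
  have h2 := two_div N
  have h3 := (hz N).2
  refine ⟨fun i => ?_, by simp only [E]; linarith⟩
  simp only [E]
  split_ifs with h4
  · intro a ha
    exact Finset.mem_union_right _ (Finset.mem_union_right _
      (Finset.mem_biUnion.2 ⟨N, Finset.mem_Icc.2 ⟨le_rfl, h4⟩, ha⟩))
  · exact (hz N).1 i (not_le.1 h4)

lemma E_mem_B {m N : ℕ} (hN : 2 * m + 2 ≤ N) : E p z g N ∈ B p m := by
  refine ⟨fun i hi => ?_, ?_⟩
  · simp only [E]
    rw [if_neg (by omega)]
  · simp only [E]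
    have h0 : (0 : ℝ) ≤ m := Nat.cast_nonneg m
    have h1 : (2 * m + 2 : ℝ) ≤ N := by exact_mod_cast hN
    have : 2 / ((N : ℝ) + 1) < 1 / ((m : ℝ) + 1) := by
      rw [div_lt_div_iff₀ (by linarith) (by linarith)]; linarith
    linarith

lemma g_sub_E {N i : ℕ} (hN : N ≤ i) : g i ⊆ (E p z g N).1 i := by
  simp only [E]
  rw [if_pos hN]
  exact Finset.subset_union_left.trans Finset.subset_union_right

lemma E_sub (N i : ℕ) : (E p z g N).1 i ⊆ (E p z (fun _ => ∅) N).1 i ∪ g i := by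
  simp only [E]
  split_ifs
  · intro a ha
    simp only [Finset.mem_union, Finset.empty_union] at ha ⊢
    tauto
  · exact Finset.subset_union_left

end chain

/-- tasks -/
def T : Type := {t : X × (ℕ → X) × ℕ × ℕ // Val t.1 ∧ (∀ n, Val (t.2.1 n) ∧ t.2.1 n ∈ B t.1 n) ∧
  t.1.2 + 2 / ((t.2.2.1 : ℝ) + 1) < c2}

noncomputable def top : X := (fun _ => ∅, c1)

lemma top_val : Val top := ⟨le_rfl, fun i => by
  simp only [top, Finset.card_empty, Nat.cast_zero]
  exact zero_le_one.trans (one_le_h c1_nonneg i)⟩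

lemma card_X : #X ≤ 𝔠 := by
  have h1 : #(∀ i, Finset (A i)) ≤ 𝔠 := by
    choose j hj using fun i => exists_injective_nat (Finset (A i))
    have : #(∀ i, Finset (A i)) ≤ #(ℕ → ℕ) :=
      mk_le_of_injective (f := fun S i => j i (S i)) fun S S' h =>
        funext fun i => hj i (congrFun h i)
    simpa using this
  rw [mk_prod, lift_id, lift_id, mk_real]
  exact (mul_le_mul' h1 le_rfl).trans (by simp)

lemma card_T : #T ≤ 𝔠 := by
  refine (mk_subtype_le _).trans ?_
  have h1 : #(ℕ → X) ≤ 𝔠 := by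
    rw [← power_def, mk_nat]
    exact (power_le_power_right card_X).trans (by simp)
  have h2 : #((ℕ → X) × ℕ × ℕ) ≤ 𝔠 := by
    rw [mk_prod, lift_id, lift_id]
    exact (mul_le_mul' h1 (mk_le_aleph0.trans aleph0_le_continuum)).trans (by simp)
  rw [mk_prod, lift_id, lift_id]
  exact (mul_le_mul' card_X h2).trans (by simp)

lemma exists_code : ∃ code : T → ℕ → Bool, Function.Injective code := by
  have : #T ≤ #(ℕ → Bool) := card_T.trans (by simp)
  obtain ⟨j⟩ := this
  exact ⟨j, j.injective⟩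

end Pool.Agent.H39.JC3
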