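import Mathlib
import Pool.Agent.H39.JC3
import Pool.Agent.H39.QS1

namespace Pool.Agent.H39.JC4

open Set Topology Filter Cardinal
open Pool.Agent.H39.JC1 (b b_pos h h_mono one_le_h inv_anti two_div)
open Pool.Agent.H39.JC3
open Pool.Agent.H39.QS1 (open_iff closed_Iic)

noncomputable def code : T → ℕ → Bool := exists_code.choose

lemma code_inj : Function.Injective code := exists_code.choose_spec

noncomputable def Y (τ : T) : X := E τ.1.1 τ.1.2.1 (fun _ => ∅) τ.1.2.2.1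

noncomputable def πY (τ : T) : Sl := fun i => ((Y τ).1 i).image Prod.fst

noncomputable def G (τ : T) : ∀ i, Finset (A i) :=
  fun i => (ξ (πY τ) i).image fun a => (a, fun j : Fin i => code τ j)

noncomputable def D (τ : T) (k : ℕ) : X := E τ.1.1 τ.1.2.1 (G τ) (τ.1.2.2.1 + k)

lemma G_card (τ : T) (i : ℕ) : ((G τ i).card : ℝ) ≤ h c1 i :=
  le_trans (by exact_mod_cast Finset.card_image_le) (ξ_J _ i)

lemma πY_J (τ : T) : J c2 (πY τ) := by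
  intro i
  have h1 : Val (Y τ) := E_val _ τ.2.1 τ.2.2.1 (fun i => by
    simp only [Finset.card_empty, Nat.cast_zero]
    exact zero_le_one.trans (one_le_h c1_nonneg i)) _
  have h2 : ((πY τ i).card : ℝ) ≤ ((Y τ).1 i).card := by exact_mod_cast Finset.card_image_le
  exact h2.trans ((h1.2 i).trans (h_mono τ.2.2.2.le i))

lemma D_val (τ : T) (k : ℕ) : Val (D τ k) := E_val _ τ.2.1 τ.2.2.1 (G_card τ) _

lemma D_lt (τ : T) (k : ℕ) : (D τ k).2 < c2 :=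
  lt_of_le_of_lt (E_mono (p := τ.1.1) (z := τ.1.2.1) (G τ) (Nat.le_add_right τ.1.2.2.1 k)).2
    τ.2.2.2

lemma stage {τ τ' : T} (hne : τ ≠ τ') {k l : ℕ} (hle : Le (D τ k) (D τ' l)) :
    J c2 (πY τ) ∧ ∀ᶠ i in atTop, ξ (πY τ') i ⊆ πY τ i := by
  refine ⟨πY_J τ, ?_⟩
  obtain ⟨j, hj⟩ := Function.ne_iff.1 (code_inj.ne hne)
  filter_upwards [eventually_gt_atTop j, eventually_ge_atTop (τ'.1.2.2.1 + l)] with i hi1 hi2
  intro a ha
  have h1 : (a, fun j : Fin i => code τ' j) ∈ G τ' i := Finset.mem_image_of_mem _ ha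
  have h2 := hle.1 i (g_sub_E (G τ') hi2 h1)
  have h3 := (E_mono (p := τ.1.1) (z := τ.1.2.1) (G τ) (Nat.le_add_right τ.1.2.2.1 k)).1 i h2
  rcases Finset.mem_union.1 (E_sub (G τ) _ i h3) with h4 | h4
  · exact Finset.mem_image.2 ⟨_, h4, rfl⟩
  · obtain ⟨a', -, h5⟩ := Finset.mem_image.1 h4
    exact absurd (congrFun (Prod.ext_iff.1 h5).2 ⟨j, hi1⟩) hj

inductive InP : X → Prop
  | base (τ : T) : InP (D τ τ.1.2.2.2)
  | chain (τ : T) (k : ℕ) : InP τ.1.1 → InP (D τ k)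

lemma InP.inv {x : X} (hx : InP x) : ∃ τ k, D τ k = x ∧ (InP τ.1.1 ∨ k = τ.1.2.2.2) := by
  cases hx with
  | base τ => exact ⟨τ, _, rfl, Or.inr rfl⟩
  | chain τ k hp => exact ⟨τ, k, rfl, Or.inl hp⟩

@[ext] structure Pt : Type where
  val : X
  mem : InP val

instance : PartialOrder Pt where
  le x y := Le x.val y.val
  le_refl x := Le.refl _
  le_trans _ _ _ := Le.trans
  le_antisymm _ _ h1 h2 := Pt.ext (h1.antisymm h2)

instance : TopologicalSpace Pt := Topology.scott Pt Set.univ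

instance : IsScott Pt Set.univ := ⟨rfl⟩

lemma Pt.val_val (x : Pt) : Val x.val := by
  obtain ⟨τ, k, h, -⟩ := x.mem.inv
  exact h ▸ D_val τ k

lemma Pt.val_lt (x : Pt) : x.val.2 < c2 := by
  obtain ⟨τ, k, h, -⟩ := x.mem.inv
  exact h ▸ D_lt τ k

lemma dir (S : Set Pt) (hne : S.Nonempty) (hd : DirectedOn (· ≤ ·) S) :
    ∃ s : Pt, IsLUB S s ∧ ∀ m, ∃ d ∈ S, d.val ∈ B s.val m := by
  by_cases hmax : ∃ s ∈ S, ∀ d ∈ S, d ≤ s
  · obtain ⟨s, hs, hs'⟩ := hmax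
    exact ⟨s, ⟨hs', fun u hu => hu hs⟩, fun m => ⟨s, hs, self_mem_B _ m⟩⟩
  obtain ⟨α, ⟨d0, hd0, k0, hk0, hk0'⟩, hmin⟩ := (InvImage.wf πY ξ_wf).has_min
    {α | ∃ d ∈ S, ∃ k, D α k = d.val ∧ (InP α.1.1 ∨ k = α.1.2.2.2)} (by
      obtain ⟨d, hd⟩ := hne
      obtain ⟨α, k, h⟩ := d.mem.inv
      exact ⟨α, d, hd, k, h⟩)
  have hup : ∀ d ∈ S, ∃ d' ∈ S, d ≤ d' ∧ ∃ k, D α k = d'.val ∧ (InP α.1.1 ∨ k = α.1.2.2.2) := by
    intro d hdS
    obtain ⟨d', hd', h1, h2⟩ := hd d hdS d0 hd0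
    obtain ⟨β, l, hl, hl'⟩ := d'.mem.inv
    by_cases h : α = β
    · subst h
      exact ⟨d', hd', h1, l, hl, hl'⟩
    · exact absurd (stage h (show Le (D α k0) (D β l) by rw [hk0, hl]; exact h2))
        (hmin β ⟨d', hd', l, hl, hl'⟩)
  by_cases hp : InP α.1.1
  swap
  · refine absurd ⟨d0, hd0, fun d hdS => ?_⟩ hmax
    obtain ⟨d', -, h1, k, hk, hk'⟩ := hup d hdS
    have : d' = d0 := Pt.ext (by rw [← hk, ← hk0, hk'.resolve_left hp, hk0'.resolve_left hp])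
    exact this ▸ h1
  have hunb : ∀ N, ∃ d ∈ S, ∃ k, N ≤ k ∧ D α k = d.val := by
    intro N
    by_contra hn
    push Not at hn
    have hb : BddAbove {k | ∃ d ∈ S, D α k = d.val} := ⟨N, by
      rintro k ⟨d, hdS, hk⟩
      by_contra h
      exact hn d hdS k (not_le.1 h).le hk⟩
    obtain ⟨s, hs, hsk⟩ := Nat.sSup_mem (s := {k | ∃ d ∈ S, D α k = d.val})
      ⟨k0, d0, hd0, hk0⟩ hb
    refine hmax ⟨s, hs, fun d hdS => ?_⟩
    obtain ⟨d', hd', h1, k, hk, -⟩ := hup d hdS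
    refine h1.trans ?_
    change Le d'.val s.val
    rw [← hk, ← hsk]
    exact E_mono _ (Nat.add_le_add_left (le_csSup hb ⟨d', hd', hk⟩) _)
  have hB : ∀ m, ∃ d ∈ S, d.val ∈ B α.1.1 m := by
    intro m
    obtain ⟨d, hdS, k, hk, hk'⟩ := hunb (2 * m + 2)
    refine ⟨d, hdS, ?_⟩
    rw [← hk']
    exact E_mem_B _ (hk.trans (Nat.le_add_left _ _))
  refine ⟨⟨_, hp⟩, ⟨fun d hdS => ?_, fun u hu => ?_⟩, hB⟩
  · obtain ⟨d', -, h1, k, hk, -⟩ := hup d hdS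
    refine h1.trans ?_
    change Le d'.val α.1.1
    rw [← hk]
    exact E_le_p _ _
  · refine le_of_B fun m => ?_
    obtain ⟨d, hdS, hdB⟩ := hB m
    exact ⟨d.val, hdB, hu hdS⟩

lemma open_C (F : ∀ i, Finset (A i)) (m : ℕ) (s : ℝ) :
    IsOpen {x : Pt | x.val ∈ C F m s} := by
  rw [open_iff]
  refine ⟨fun x y hxy hx => C_up hx hxy, fun S hne hd a ha hx => ?_⟩
  obtain ⟨s', hs', hB⟩ := dir S hne hd
  obtain rfl := ha.unique hs'
  obtain ⟨n, hn⟩ := C_nb hx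
  obtain ⟨d, hdS, hdB⟩ := hB n
  exact ⟨d, hdS, hn hdB⟩

lemma exists_N {c : ℝ} (hc : c < c2) : ∃ N : ℕ, c + 2 / ((N : ℝ) + 1) < c2 := by
  obtain ⟨N, hN⟩ := exists_nat_one_div_lt (half_pos (sub_pos.2 hc))
  exact ⟨N, by have := two_div N; linarith⟩

lemma chain (p : Pt) (z : ℕ → X) (hz : ∀ n, Val (z n) ∧ z n ∈ B p.val n) :
    ∃ c : ℕ → Pt, Monotone c ∧ IsLUB (range c) p ∧ ∀ k, ∃ n, Le (c k).val (z n) := by
  obtain ⟨N, hN⟩ := exists_N p.val_lt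
  let τ : T := ⟨(p.val, z, N, 0), p.val_val, hz, hN⟩
  refine ⟨fun k => ⟨D τ k, InP.chain τ k p.mem⟩, fun k k' hk => ?_, ⟨?_, fun u hu => ?_⟩,
    fun k => ⟨N + k, ?_⟩⟩
  · exact E_mono _ (Nat.add_le_add_left hk _)
  · rintro _ ⟨k, rfl⟩
    exact E_le_p _ _
  · exact le_of_B fun m => ⟨D τ (2 * m + 2), E_mem_B _ (Nat.le_add_left _ _),
      hu ⟨2 * m + 2, rfl⟩⟩
  · exact E_le_z _ (fun n => (hz n).2) _

lemma sub_open {U : Set Pt} (hU : IsOpen U) {p : Pt} (hp : p ∈ U) :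
    ∃ m, ∀ x : Pt, x.val ∈ B p.val m → x ∈ U := by
  by_contra hn
  push Not at hn
  choose z hz hzU using hn
  obtain ⟨c, hc, hl, hcz⟩ := chain p (fun n => (z n).val) fun n => ⟨(z n).val_val, hz n⟩
  obtain ⟨_, ⟨k, rfl⟩, hk⟩ := ((open_iff U).1 hU).2 _ (range_nonempty c)
    hc.directed_le.directedOn_range p hl hp
  obtain ⟨n, hn⟩ := hcz k
  exact hzU n (((open_iff U).1 hU).1 (show c k ≤ z n from hn) hk)

lemma dense (η : X) (hη : Val η) (hlt : η.2 < c2) (m : ℕ) :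
    ∃ d : Pt, Le d.val η ∧ d.val ∈ B η m := by
  obtain ⟨N, hN⟩ := exists_N hlt
  let τ : T := ⟨(η, fun _ => η, N, 2 * m + 2), hη, fun n => ⟨hη, self_mem_B _ n⟩, hN⟩
  exact ⟨⟨D τ (2 * m + 2), InP.base τ⟩, E_le_p _ _, E_mem_B _ (Nat.le_add_left _ _)⟩

theorem meet_cont (x : Pt) (S : Set Pt) (s : Pt) (hne : S.Nonempty)
    (hd : DirectedOn (· ≤ ·) S) (hs : IsLUB S s) (hx : x ≤ s) :
    x ∈ closure {y : Pt | y ≤ x ∧ ∃ d ∈ S, y ≤ d} := by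
  obtain ⟨s', hs', hB⟩ := dir S hne hd
  obtain rfl := hs.unique hs'
  choose z hzS hz using hB
  obtain ⟨c, hc, hl, hcz⟩ := chain x (fun n => (z n).val)
    fun n => ⟨(z n).val_val, B_sub hx le_rfl (hz n)⟩
  rw [mem_closure_iff]
  intro U hU hxU
  obtain ⟨_, ⟨k, rfl⟩, hk⟩ := ((open_iff U).1 hU).2 _ (range_nonempty c)
    hc.directed_le.directedOn_range x hl hxU
  obtain ⟨n, hn⟩ := hcz k
  exact ⟨c k, hk, hl.1 ⟨k, rfl⟩, z n, hzS n, hn⟩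

theorem core (x : Pt) (U : Set Pt) (hU : IsOpen U) (hx : x ∈ U) :
    ∃ V : Set Pt, IsOpen V ∧ x ∈ V ∧ V ⊆ U ∧
      ∀ 𝒲 : Set (Set Pt), (∀ W ∈ 𝒲, IsOpen W) → U ⊆ ⋃₀ 𝒲 →
        ∃ 𝒯 ⊆ 𝒲, 𝒯.Finite ∧ V ⊆ ⋃₀ 𝒯 := by
  obtain ⟨m0, hm0⟩ := sub_open hU hx
  obtain ⟨N, hN⟩ := exists_N x.val_lt
  set m := max m0 N with hmdef
  have hm : ∀ y : Pt, y.val ∈ B x.val m → y ∈ U :=
    fun y hy => hm0 y (B_sub (Le.refl _) (le_max_left _ _) hy)
  have hpos := @Nat.one_div_pos_of_nat ℝ _ _ _ m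
  have hN1 := inv_anti (show N ≤ m from le_max_right _ _)
  have hN2 := two_div N
  set s : ℝ := x.val.2 + 1 / ((m : ℝ) + 1) / 2 with hs
  refine ⟨{y | y.val ∈ C x.val.1 m s}, open_C _ _ _,
    ⟨fun _ _ => Finset.Subset.refl _, by linarith⟩,
    fun y hy => hm y ⟨hy.1, by have := hy.2; linarith⟩, fun 𝒲 hW hc => ?_⟩
  have key : ∀ η : X, η ∈ {y : X | Val y ∧ (∀ i < m, y.1 i ⊆ x.val.1 i) ∧ y.2 ≤ s} →
      ∃ W ∈ 𝒲, ∃ O ∈ 𝓝 η, ∀ y : Pt, y.val ∈ O → y ∈ W := by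
    intro η hη
    have h1 : η ∈ B x.val m := ⟨hη.2.1, by have := hη.2.2; linarith⟩
    obtain ⟨n, hn⟩ := C_nb h1
    obtain ⟨d, hd, hdB⟩ := dense η hη.1 (by have := hη.2.2; linarith) n
    obtain ⟨W, hWm, hdW⟩ := hc (hm d (hn hdB))
    obtain ⟨k, hk⟩ := sub_open (hW W hWm) hdW
    exact ⟨W, hWm, B d.val k, (isOpen_C _ _ _).mem_nhds (C_up (self_mem_B _ k) hd), hk⟩
  choose! W hW1 O hO hOW using key
  obtain ⟨t, ht, hcov⟩ := (isCompact_K x.val.1 m s).elim_nhds_subcover O hO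
  refine ⟨W '' t, ?_, t.finite_toSet.image W, fun y hy => ?_⟩
  · rintro _ ⟨η, hη, rfl⟩
    exact hW1 η (ht η hη)
  · obtain ⟨η, hη, hyη⟩ := mem_iUnion₂.1 (hcov ⟨y.val_val, hy.1, hy.2.le⟩)
    exact ⟨W η, ⟨η, hη, rfl⟩, hOW η (ht η hη) y hyη⟩

lemma le_top (x : Pt) : Le x.val top := ⟨fun _ => Finset.empty_subset _, x.val_val.1⟩

theorem not_sober : ¬ QuasiSober Pt := by
  intro hq
  have hirr : IsIrreducible (Set.univ : Set Pt) := by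
    obtain ⟨d0, -, -⟩ := dense top top_val c1_lt 0
    refine ⟨⟨d0, mem_univ _⟩, ?_⟩
    rintro U V hU hV ⟨p, -, hp⟩ ⟨q, -, hq⟩
    obtain ⟨m, hm⟩ := sub_open hU hp
    obtain ⟨n, hn⟩ := sub_open hV hq
    obtain ⟨d, -, hd⟩ := dense top top_val c1_lt (max m n)
    exact ⟨d, mem_univ _, hm d (B_sub (le_top p) (le_max_left _ _) hd),
      hn d (B_sub (le_top q) (le_max_right _ _) hd)⟩
  obtain ⟨t, ht⟩ := hq.sober hirr isClosed_univ
  rw [isGenericPoint_def, IsScott.closure_singleton] at ht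
  have h1 : Le top t.val := le_of_B fun m => by
    obtain ⟨d, -, hd⟩ := dense top top_val c1_lt m
    have : d ∈ Iic t := ht ▸ mem_univ d
    exact ⟨d.val, hd, this⟩
  obtain ⟨τ, k, hk, -⟩ := t.mem.inv
  have h2 := h1.2
  rw [← hk] at h2
  have h3 := τ.2.1.1
  have h4 := @Nat.one_div_pos_of_nat ℝ _ _ _ (τ.1.2.2.1 + k)
  have h5 := two_div (τ.1.2.2.1 + k)
  simp only [D, E, top] at h2
  linarith

end Pool.Agent.H39.JC4
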