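import Mathlib

set_option autoImplicit false

namespace Pool.Agent.H39.JDP

open Finset

theorem cube {J : Type} [Fintype J] [DecidableEq J] (ρ : ℝ) (q : (J → Bool) → ℝ)
    (hq : ∀ x, 0 ≤ q x)
    (hρ : ∀ j x, ρ * q (Function.update x j false) ≤ q (Function.update x j true))
    (φ : J → Bool → ℝ) (hφ : ∀ j b, 0 ≤ φ j b)
    (h : ∀ j pl ph, 0 ≤ pl → ρ * pl ≤ ph → φ j true * ph + φ j false * pl ≤ ph + pl) :
    ∑ x, q x * ∏ j, φ j (x j) ≤ ∑ x, q x := by
  have key : ∀ I : Finset J, ∑ x, q x * ∏ j ∈ I, φ j (x j) ≤ ∑ x, q x := by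
    intro I
    induction I using Finset.induction_on with
    | empty => simp
    | insert j I hj ih =>
      refine le_trans ?_ ih
      let fl : (J → Bool) → (J → Bool) := fun x => Function.update x j (!x j)
      have hfl : Function.Involutive fl := fun x => by simp [fl]
      have h1 : ∀ G : (J → Bool) → ℝ, ∑ x, G x = (∑ x, (G x + G (fl x))) / 2 := fun G => by
        rw [sum_add_distrib, hfl.bijective.sum_comp G]; ring
      rw [h1, h1 fun x => q x * ∏ j ∈ I, φ j (x j)]
      refine div_le_div_of_nonneg_right (sum_le_sum fun x _ => ?_) (by norm_num)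
      have h2 : ∀ b, ∏ i ∈ I, φ i (Function.update x j b i) = ∏ i ∈ I, φ i (x i) := fun b =>
        prod_congr rfl fun i hi => by rw [Function.update_of_ne (by rintro rfl; exact hj hi)]
      have h3 : 0 ≤ ∏ i ∈ I, φ i (x i) := prod_nonneg fun i _ => hφ _ _
      have h4 := mul_le_mul_of_nonneg_right (h j _ _ (hq _) (hρ j x)) h3
      simp only [prod_insert hj, fl, h2, Function.update_self]
      cases hx : x j
      · have h5 : Function.update x j false = x := by rw [← hx]; simp
        rw [h5] at h4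
        simp only [Bool.not_false]
        nlinarith
      · have h5 : Function.update x j true = x := by rw [← hx]; simp
        rw [h5] at h4
        simp only [Bool.not_true]
        nlinarith
  exact key univ

theorem hidden {J C Ω : Type} [Fintype J] [DecidableEq J] [Fintype C] [Nonempty C] [Fintype Ω]
    (x : J → Bool) (p : (J → C) → Ω → ℝ) (hp : ∀ W ω, 0 ≤ p W ω) (hp1 : ∀ W, ∑ ω, p W ω = 1)
    (hW : ∀ W W', (∀ j, x j = false → W j = W' j) → p W = p W')
    (g : Ω → Prop) [DecidablePred g] (ψ : Ω → J → C → ℝ) (κ : ℝ) (hκ : 1 ≤ κ)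
    (hψ0 : ∀ ω j c, 0 ≤ ψ ω j c)
    (hψ : ∀ ω j, g ω → ∑ c, ψ ω j c ≤ Fintype.card C * κ) :
    ∑ W, ∑ ω, p W ω * (if g ω then ∏ j, if x j then ψ ω j (W j) else 1 else 0) ≤
      Fintype.card (J → C) * κ ^ Fintype.card J := by
  let σ : (J → C) × (J → C) → (J → C) × (J → C) := fun W =>
    (fun j => if x j then W.2 j else W.1 j, fun j => if x j then W.1 j else W.2 j)
  have hσ : Function.Involutive σ := fun W => by
    ext j <;> by_cases h : x j <;> simp [σ, h]
  set F : (J → C) → ℝ := fun W =>
    ∑ ω, p W ω * (if g ω then ∏ j, if x j then ψ ω j (W j) else 1 else 0) with hF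
  have hc : (0 : ℝ) < Fintype.card (J → C) := by exact_mod_cast Fintype.card_pos
  refine le_of_mul_le_mul_left ?_ hc
  have h1 : (Fintype.card (J → C) : ℝ) * ∑ W, F W = ∑ W : (J → C) × (J → C), F (σ W).1 := by
    rw [hσ.bijective.sum_comp fun W : (J → C) × (J → C) => F W.1, Fintype.sum_prod_type, mul_sum]
    simp
  rw [h1, Fintype.sum_prod_type]
  have h2 : ∀ W, ∑ W', F (σ (W, W')).1 ≤ Fintype.card (J → C) * κ ^ Fintype.card J := by
    intro W
    have h3 : ∀ W', F (σ (W, W')).1 =
        ∑ ω, p W ω * (if g ω then ∏ j, if x j then ψ ω j (W' j) else 1 else 0) := by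
      intro W'
      rw [hF, hW W (σ (W, W')).1 fun j hj => by simp [σ, hj]]
      refine sum_congr rfl fun ω _ => ?_
      congr 2
      refine prod_congr rfl fun j _ => ?_
      by_cases h : x j <;> simp [σ, h]
    simp only [h3]
    rw [sum_comm]
    calc _ ≤ ∑ ω, p W ω * (Fintype.card (J → C) * κ ^ Fintype.card J) := ?_
      _ = _ := by rw [← sum_mul, hp1, one_mul]
    refine sum_le_sum fun ω _ => ?_
    rw [← mul_sum]
    refine mul_le_mul_of_nonneg_left ?_ (hp _ _)
    by_cases hg : g ω
    · simp only [hg, if_true]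
      rw [← Fintype.piFinset_univ,
        ← prod_univ_sum (fun _ => univ) fun j c => if x j then ψ ω j c else (1 : ℝ)]
      calc _ ≤ ∏ _j : J, (Fintype.card C * κ) := ?_
        _ = _ := by simp [mul_pow]
      refine prod_le_prod (fun j _ => sum_nonneg fun c _ => ?_) fun j _ => ?_
      · split_ifs
        · exact hψ0 _ _ _
        · norm_num
      · by_cases h : x j
        · simpa [h] using hψ ω j hg
        · simp only [h, Bool.false_eq_true, if_false, sum_const, card_univ, nsmul_eq_mul, mul_one]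
          exact le_mul_of_one_le_right (by positivity) hκ
    · simp only [hg, if_false, sum_const_zero]
      positivity
  calc _ ≤ ∑ _W : J → C, (Fintype.card (J → C) : ℝ) * κ ^ Fintype.card J := sum_le_sum fun W _ => h2 W
    _ = _ := by simp

theorem lucky (s : ℕ) (S : Fin s → Fin 9999 → Prop) [∀ a b, Decidable (S a b)]
    (hS : ∑ a, (univ.filter fun b => S a b).card ≤ s) :
    ∑ c : Fin s → Fin 9999, (if s ≤ 2 * (univ.filter fun a => S a (c a)).card then (1 : ℝ) else 0) ≤
      Fintype.card (Fin s → Fin 9999) * (1 / 50) ^ s := by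
  have h1 : ∀ c : Fin s → Fin 9999,
      (if s ≤ 2 * (univ.filter fun a => S a (c a)).card then (1 : ℝ) else 0) ≤
        (∏ a, if S a (c a) then (10000 : ℝ) else 1) * (1 / 100) ^ s := by
    intro c
    rw [prod_ite, prod_const, prod_const_one, mul_one]
    split_ifs with h
    · rw [show (10000 : ℝ) = 100 ^ 2 by norm_num, ← pow_mul, one_div, inv_pow,
        ← div_eq_mul_inv, le_div_iff₀ (by positivity), one_mul]
      exact pow_le_pow_right₀ (by norm_num) h
    · positivity
  refine (sum_le_sum fun c _ => h1 c).trans ?_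
  rw [← sum_mul, ← Fintype.piFinset_univ,
    ← prod_univ_sum (fun _ => univ) fun a b => if S a b then (10000 : ℝ) else 1]
  have h2 : ∀ a, ∑ b, (if S a b then (10000 : ℝ) else 1) ≤
      9999 * 2 ^ (univ.filter fun b => S a b).card := by
    intro a
    have h3 : ∑ b, (if S a b then (10000 : ℝ) else 1) =
        ∑ b : Fin 9999, ((1 : ℝ) + if S a b then 9999 else 0) :=
      sum_congr rfl fun b _ => by split_ifs <;> norm_num
    have h4 : (((univ.filter fun b => S a b).card + 1 : ℕ) : ℝ) ≤
        (2 ^ (univ.filter fun b => S a b).card : ℕ) := by exact_mod_cast Nat.lt_two_pow_self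
    rw [h3, sum_add_distrib, ← sum_filter]
    simp only [sum_const, card_univ, Fintype.card_fin, nsmul_eq_mul]
    push_cast at h4 ⊢
    linarith
  have h5 : ∏ a, ∑ b, (if S a b then (10000 : ℝ) else 1) ≤ 9999 ^ s * 2 ^ s := by
    refine (prod_le_prod (fun a _ => sum_nonneg fun b _ => by split_ifs <;> norm_num)
      fun a _ => h2 a).trans ?_
    rw [prod_mul_distrib, prod_pow_eq_pow_sum]
    simp only [prod_const, card_univ, Fintype.card_fin]
    exact mul_le_mul_of_nonneg_left (pow_le_pow_right₀ (by norm_num) hS) (by positivity)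
  refine (mul_le_mul_of_nonneg_right h5 (by positivity)).trans (le_of_eq ?_)
  simp only [Fintype.card_pi, Fintype.card_fin, prod_const, card_univ]
  push_cast
  rw [mul_assoc, ← mul_pow]
  norm_num

theorem numeric (u η : ℝ) (m t : ℕ) (hu : 0 < u) (hu1 : u ≤ 1 / 10) (hη0 : 0 ≤ η) (hη : η ≤ u / 4)
    (hm : 1700 ≤ u * m) (ht : 7 * m ≤ 8 * t) :
    343 * ((1 + η) ^ m * (1 + u) ^ m) ≤ (1 + 2 * u) ^ t := by
  have h1 : (1 + η) ^ m ≤ Real.exp (u / 4) ^ m :=
    pow_le_pow_left₀ (by positivity) (by linarith [Real.add_one_le_exp (u / 4)]) _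
  have h2 : (1 + u) ^ m ≤ Real.exp u ^ m :=
    pow_le_pow_left₀ (by positivity) (by linarith [Real.add_one_le_exp u]) _
  have h3 : Real.exp (5 * u / 3) ≤ 1 + 2 * u := by
    have h4 := Real.add_one_le_exp (-(5 * u / 3))
    have h5 : Real.exp (5 * u / 3) * Real.exp (-(5 * u / 3)) = 1 := by
      rw [← Real.exp_add]; simp
    have h6 := Real.exp_pos (5 * u / 3)
    have h7 : Real.exp (5 * u / 3) * (1 - 5 * u / 3) ≤ 1 := by nlinarith
    by_contra h8
    push Not at h8
    nlinarith
  have h4 : Real.exp (5 * u / 3) ^ t ≤ (1 + 2 * u) ^ t := pow_le_pow_left₀ (by positivity) h3 _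
  have h5 : (343 : ℝ) ≤ Real.exp (5 * (u * m) / 24) := by
    linarith [Real.add_one_le_exp (5 * (u * m) / 24)]
  have h6 : (7 : ℝ) * m ≤ 8 * t := by exact_mod_cast ht
  calc _ ≤ Real.exp (5 * (u * m) / 24) * (Real.exp (u / 4) ^ m * Real.exp u ^ m) := by gcongr
    _ ≤ Real.exp (5 * u / 3) ^ t := by
      simp only [← Real.exp_nat_mul, ← Real.exp_add]
      exact Real.exp_le_exp.2 (by nlinarith)
    _ ≤ _ := h4

end Pool.Agent.H39.JDP
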