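import Mathlib
import Pool.Agent.H39.JDP

set_option autoImplicit false

namespace Pool.Agent.H39.JDP

open Finset Classical

/-- Real probability of an event. -/
noncomputable def P {Ω : Type} [Fintype Ω] (μ : PMF Ω) (E : Set Ω) : ℝ :=
  ∑ ω, if ω ∈ E then (μ ω).toReal else 0

theorem P_eq {Ω : Type} [Fintype Ω] (μ : PMF Ω) (E : Set Ω) :
    μ.toOuterMeasure E = ENNReal.ofReal (P μ E) := by
  rw [PMF.toOuterMeasure_apply_fintype, P, ENNReal.ofReal_sum_of_nonneg
    fun ω _ => by split_ifs <;> simp]
  refine sum_congr rfl fun ω _ => ?_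
  by_cases h : ω ∈ E
  · simp [h, μ.apply_ne_top]
  · simp [h]

theorem P_nonneg {Ω : Type} [Fintype Ω] (μ : PMF Ω) (E : Set Ω) : 0 ≤ P μ E :=
  sum_nonneg fun ω _ => by split_ifs <;> simp

theorem sum_one {Ω : Type} [Fintype Ω] (μ : PMF Ω) : ∑ ω, (μ ω).toReal = 1 := by
  rw [← ENNReal.toReal_sum fun ω _ => μ.apply_ne_top ω, ← tsum_fintype (L := .unconditional _),
    μ.tsum_coe]
  rfl

theorem group {κ B V : Type} [Fintype κ] [DecidableEq κ] [Fintype B] (Valid : V → Prop)
    (M : (κ → V) → PMF (κ → B)) (c : ℝ) (hc : 0 ≤ c)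
    (hD : ∀ v : κ → V, (∀ i, Valid (v i)) → ∀ i w, Valid w → ∀ S : Set ({k : κ // k ≠ i} → B),
      (M v).toOuterMeasure {ω | (fun k : {k : κ // k ≠ i} => ω k.1) ∈ S} ≤
        ENNReal.ofReal c * (M (Function.update v i w)).toOuterMeasure
          {ω | (fun k : {k : κ // k ≠ i} => ω k.1) ∈ S})
    (E : Set (κ → B)) (I : Finset κ)
    (hE : ∀ i ∈ I, ∀ ω ω' : κ → B, (∀ k ≠ i, ω k = ω' k) → ω ∈ E → ω' ∈ E) :
    ∀ v v' : κ → V, (∀ i, Valid (v i)) → (∀ i, Valid (v' i)) → (∀ k ∉ I, v k = v' k) →
      P (M v) E ≤ c ^ I.card * P (M v') E := by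
  induction I using Finset.induction_on with
  | empty =>
    intro v v' _ _ h
    obtain rfl : v = v' := funext fun k => h k (by simp)
    simp
  | insert i I hi ih =>
    intro v v' h1 h2 h
    have h3 := hD v h1 i (v' i) (h2 i) ((fun (ω : κ → B) (k : {k : κ // k ≠ i}) => ω k.1) '' E)
    have h4 : {ω : κ → B | (fun k : {k : κ // k ≠ i} => ω k.1) ∈
        (fun (ω : κ → B) (k : {k : κ // k ≠ i}) => ω k.1) '' E} = E := by
      ext ω
      refine ⟨?_, fun h => ⟨ω, h, rfl⟩⟩
      rintro ⟨ω', h5, h6⟩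
      exact hE i (by simp) ω' ω (fun k hk => congrFun h6 ⟨k, hk⟩) h5
    rw [h4, P_eq, P_eq, ← ENNReal.ofReal_mul hc,
      ENNReal.ofReal_le_ofReal_iff (mul_nonneg hc (P_nonneg _ _))] at h3
    have h5 := ih (fun j hj => hE j (mem_insert_of_mem hj)) (Function.update v i (v' i)) v'
      (fun k => by
        by_cases hk : k = i
        · subst hk; simpa using h2 k
        · simpa [hk] using h1 k) h2
      (fun k hk => by
        by_cases hk' : k = i
        · subst hk'; simp
        · simpa [hk'] using h k (by simp [hk, hk']))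
    rw [card_insert_of_notMem hi, pow_succ', mul_assoc]
    exact h3.trans (mul_le_mul_of_nonneg_left h5 hc)

theorem lucky' {K : ℕ} (hK : K = 9999) (s : ℕ) (S : Fin s → Fin K → Prop)
    [∀ a b, Decidable (S a b)] (hS : ∑ a, (univ.filter fun b => S a b).card ≤ s) :
    ∑ c : Fin s → Fin K, (if s ≤ 2 * (univ.filter fun a => S a (c a)).card then (1 : ℝ) else 0) ≤
      Fintype.card (Fin s → Fin K) * (1 / 50) ^ s := by
  subst hK
  exact lucky s S hS

section
variable {κ : Type} [Fintype κ] {m s K : ℕ} (e : κ ≃ Fin m × Fin s × Fin K)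

/-- The valuation profiles of the hard instances. -/
noncomputable def val (x : Fin m → Bool) (W : Fin m → Fin s → Fin K) (k : κ)
    (S : Finset (Fin m)) : ℝ :=
  if (x (e k).1 = true ∨ W (e k).1 (e k).2.1 = (e k).2.2) ∧ (e k).1 ∈ S then 1 else 0

/-- At least half of the chosen agents receive the item. -/
def good (ω : κ → Finset (Fin m)) (j : Fin m) (c : Fin s → Fin K) : Prop :=
  s ≤ 2 * (univ.filter fun a => j ∈ ω (e.symm (j, a, c a))).card

theorem feas_sum {ω : κ → Finset (Fin m)} {j : Fin m}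
    (h : (univ.filter fun k => j ∈ ω k).card ≤ s) :
    ∑ a, (univ.filter fun b => j ∈ ω (e.symm (j, a, b))).card ≤ s := by
  refine le_trans ?_ h
  rw [← card_sigma]
  refine card_le_card_of_injOn (fun p => e.symm (j, p.1, p.2)) (fun p hp => by simpa using hp) ?_
  rintro ⟨a, b⟩ - ⟨a', b'⟩ - h
  simpa using h

theorem welfare (x : Fin m → Bool) (W : Fin m → Fin s → Fin K) (ω : κ → Finset (Fin m)) :
    ∑ k, val e x W k (ω k) = ∑ j, ∑ a, ∑ b,
      if (x j = true ∨ W j a = b) ∧ j ∈ ω (e.symm (j, a, b)) then (1 : ℝ) else 0 := by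
  rw [← e.symm.sum_comp, Fintype.sum_prod_type]
  refine sum_congr rfl fun j _ => ?_
  rw [Fintype.sum_prod_type]
  simp [val]

theorem many (hs : 1 ≤ s) (x : Fin m → Bool) (W : Fin m → Fin s → Fin K)
    {ω : κ → Finset (Fin m)} (h1 : ∀ j, (univ.filter fun k => j ∈ ω k).card ≤ s)
    (h2 : ∀ ω' : κ → Finset (Fin m), (∀ j, (univ.filter fun k => j ∈ ω' k).card ≤ s) →
      ∑ k, val e x W k (ω' k) - s * m / 16 ≤ ∑ k, val e x W k (ω k)) :
    7 * m ≤ 8 * (univ.filter fun j => x j = true ∨ good e ω j (W j)).card := by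
  have h3 := h2 (fun k => if W (e k).1 (e k).2.1 = (e k).2.2 then {(e k).1} else ∅) (fun j => by
    refine le_trans (card_le_card_of_injOn (t := univ) (fun k => (e k).2.1) (by simp) ?_) (by simp)
    intro k hk k' hk' h
    simp only [coe_filter, mem_univ, true_and, Set.mem_ofPred_eq] at hk hk' h
    split_ifs at hk hk' with h4 h5 <;> simp only [mem_singleton, notMem_empty] at hk hk'
    refine e.injective (Prod.ext (hk.symm.trans hk') (Prod.ext h ?_))
    rw [← h4, ← h5, h, ← hk, ← hk'])
  rw [welfare, welfare] at h3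
  have h4 : ∀ j a, (∑ b, if (x j = true ∨ W j a = b) ∧ j ∈ (if W j a = b then ({j} : Finset (Fin m))
      else ∅) then (1 : ℝ) else 0) = 1 := by
    intro j a
    rw [sum_eq_single (W j a)]
    · simp
    · intro b _ hb
      simp [hb.symm]
    · simp
  simp only [Equiv.apply_symm_apply, h4] at h3
  have h5 : ∀ j, (∑ a, ∑ b, if (x j = true ∨ W j a = b) ∧ j ∈ ω (e.symm (j, a, b)) then (1 : ℝ)
      else 0) ≤ s / 2 + if x j = true ∨ good e ω j (W j) then (s : ℝ) / 2 else 0 := by
    intro j
    by_cases h : x j = true ∨ good e ω j (W j)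
    · have h6 : ((∑ a, (univ.filter fun b => j ∈ ω (e.symm (j, a, b))).card : ℕ) : ℝ) ≤ s := by
        exact_mod_cast feas_sum e (h1 j)
      rw [if_pos h, add_halves]
      refine le_trans ?_ h6
      push_cast
      refine sum_le_sum fun a _ => ?_
      rw [card_filter]
      push_cast
      exact sum_le_sum fun b _ => by split_ifs <;> simp_all
    · rw [if_neg h, add_zero]
      push Not at h
      have h6 : ((2 * (univ.filter fun a => j ∈ ω (e.symm (j, a, W j a))).card : ℕ) : ℝ) ≤ s := by
        exact_mod_cast (not_le.1 h.2).le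
      rw [card_filter] at h6
      push_cast at h6
      refine le_trans (le_of_eq (sum_congr rfl fun a _ => ?_)) ((le_div_iff₀' two_pos).2 h6)
      rw [sum_eq_single (W j a)]
      · simp
      · intro b _ hb
        simp [hb.symm, h.1]
      · simp
  have h6 := h3.trans (sum_le_sum fun j _ => h5 j)
  rw [sum_add_distrib, ← sum_filter] at h6
  simp only [sum_const, card_univ, Fintype.card_fin, nsmul_eq_mul, mul_one] at h6
  have h7 : (1 : ℝ) ≤ s := by exact_mod_cast hs
  have h8 : (7 : ℝ) * m ≤ 8 * (univ.filter fun j => x j = true ∨ good e ω j (W j)).card := by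
    nlinarith
  exact_mod_cast h8

include e in
theorem core [DecidableEq κ] (hK : K = 9999) (hs : 1 ≤ s) (hm : 6800 * 3 ^ s ≤ m)
    (Valid : (Finset (Fin m) → ℝ) → Prop) (h0 : Valid fun _ => 0)
    (h1 : ∀ j, Valid fun S => if j ∈ S then 1 else 0)
    (M : (κ → Finset (Fin m) → ℝ) → PMF (κ → Finset (Fin m)))
    (hS : ∀ v : κ → Finset (Fin m) → ℝ, (∀ i, Valid (v i)) → ENNReal.ofReal (1 / 2) ≤
      (M v).toOuterMeasure {ω | (∀ j, (univ.filter fun k => j ∈ ω k).card ≤ s) ∧
        ∀ ω' : κ → Finset (Fin m), (∀ j, (univ.filter fun k => j ∈ ω' k).card ≤ s) →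
          ∑ k, v k (ω' k) - s * m / 16 ≤ ∑ k, v k (ω k)})
    (hD : ∀ v : κ → Finset (Fin m) → ℝ, (∀ i, Valid (v i)) → ∀ i w, Valid w →
      ∀ S : Set ({k : κ // k ≠ i} → Finset (Fin m)),
      (M v).toOuterMeasure {ω | (fun k : {k : κ // k ≠ i} => ω k.1) ∈ S} ≤
        ENNReal.ofReal (Real.exp (1 / 9999)) * (M (Function.update v i w)).toOuterMeasure
          {ω | (fun k : {k : κ // k ≠ i} => ω k.1) ∈ S}) : False := by
  have hv : ∀ x W i, Valid (val e x W i) := fun x W i => by
    by_cases h : x (e i).1 = true ∨ W (e i).1 (e i).2.1 = (e i).2.2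
    · have := h1 (e i).1
      convert this using 1
      funext S
      simp [val, h]
    · convert h0 using 1
      funext S
      simp [val, h]
  have : Nonempty (Fin K) := ⟨⟨0, by omega⟩⟩
  set u : ℝ := (1 / 3) ^ s / 4 with hu
  set η : ℝ := (1 / 50) ^ s with hη
  have hu0 : 0 < u := by positivity
  have hu1 : u ≤ 1 / 10 := by
    have : (1 / 3 : ℝ) ^ s ≤ (1 / 3) ^ 1 := pow_le_pow_of_le_one (by norm_num) (by norm_num) hs
    rw [hu]; linarith
  have hη1 : η ≤ u / 4 := by
    have h2 : (3 / 50 : ℝ) ^ s ≤ (3 / 50) ^ 1 := pow_le_pow_of_le_one (by norm_num) (by norm_num) hs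
    have h3 : η = (1 / 3) ^ s * (3 / 50) ^ s := by rw [← mul_pow]; norm_num [hη]
    have h4 : (0 : ℝ) < (1 / 3) ^ s := by positivity
    rw [h3, hu]; nlinarith
  have hum : 1700 ≤ u * m := by
    have h2 : (6800 : ℝ) * 3 ^ s ≤ m := by exact_mod_cast hm
    have h3 : (1 / 3 : ℝ) ^ s * 3 ^ s = 1 := by rw [← mul_pow]; norm_num
    have h4 : (0 : ℝ) < (1 / 3) ^ s := by positivity
    rw [hu]; nlinarith
  let p : (Fin m → Bool) → (Fin m → Fin s → Fin K) → (κ → Finset (Fin m)) → ℝ :=
    fun x W ω => (M (val e x W) ω).toReal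
  have hp0 : ∀ x W ω, 0 ≤ p x W ω := fun _ _ _ => ENNReal.toReal_nonneg
  have hp1 : ∀ x W, ∑ ω, p x W ω = 1 := fun _ _ => sum_one _
  let φ : Prop → Bool → ℝ := fun y b => if y then (if b then 1 / 2 else 1 + 2 * u) else 1
  let U : (Fin m → Bool) → (Fin m → Fin s → Fin K) → (κ → Finset (Fin m)) → ℝ :=
    fun x W ω => ∏ j, φ (good e ω j (W j)) (x j)
  let V : (Fin m → Bool) → (Fin m → Fin s → Fin K) → (κ → Finset (Fin m)) → ℝ :=
    fun x W ω => if ∀ j, (univ.filter fun k => j ∈ ω k).card ≤ s then
      ∏ j, if x j then 1 + (if good e ω j (W j) then 1 else 0) else 1 else 0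
  let T : (Fin m → Bool) → ℝ := fun x => ∏ j, if x j then 1 + 2 * u else 1
  have hφ : ∀ y b, 0 ≤ φ y b := fun y b => by simp only [φ]; split_ifs <;> positivity
  have hU : ∀ W, ∑ x, ∑ ω, p x W ω * U x W ω ≤ 2 ^ m := by
    intro W
    let E : (Fin m → Prop) → Set (κ → Finset (Fin m)) :=
      fun y => {ω | (fun j => good e ω j (W j)) = y}
    have h2 : ∀ x, ∑ ω, p x W ω * U x W ω =
        ∑ y, P (M (val e x W)) (E y) * ∏ j, φ (y j) (x j) := by
      intro x
      simp only [P, sum_mul]
      rw [sum_comm]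
      refine sum_congr rfl fun ω _ => ?_
      rw [sum_eq_single fun j => good e ω j (W j)]
      · simp [E, p, U]
      · intro y _ hy
        simp [E, hy.symm]
      · simp
    have h3 : ∀ x, ∑ y, P (M (val e x W)) (E y) = 1 := by
      intro x
      simp only [P]
      rw [sum_comm, ← hp1 x W]
      refine sum_congr rfl fun ω _ => ?_
      rw [sum_eq_single fun j => good e ω j (W j)]
      · simp [E, p]
      · intro y _ hy
        simp [E, hy.symm]
      · simp
    simp only [h2]
    rw [sum_comm]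
    calc _ ≤ ∑ y, ∑ x, P (M (val e x W)) (E y) := sum_le_sum fun y _ => ?_
      _ = _ := by rw [sum_comm]; simp [h3]
    refine cube (4 * u) _ (fun _ => P_nonneg _ _) (fun j x => ?_) (fun j => φ (y j))
      (fun _ _ => hφ _ _) fun j pl ph h4 h5 => ?_
    · let I : Finset κ := univ.filter fun k => (e k).1 = j ∧ W j (e k).2.1 ≠ (e k).2.2
      have h4 := group Valid M _ (Real.exp_pos _).le hD (E y) I (by
        intro i hi ω ω' h h'
        refine Eq.trans (funext fun j' => ?_) h'
        simp only [good]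
        congr! 4 with a
        rw [h]
        rintro rfl
        simp only [I, mem_filter, Equiv.apply_symm_apply] at hi
        exact hi.2.2 (by rw [hi.2.1]))
        (val e (Function.update x j false) W) (val e (Function.update x j true) W) (hv _ _) (hv _ _)
        (by
          intro k hk
          funext S
          simp only [I, mem_filter, mem_univ, true_and, not_and, not_not] at hk
          by_cases h : (e k).1 = j
          · simp [val, h, hk h]
          · simp [val, h])
      have h5 : I.card ≤ 9999 * s := by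
        refine le_trans (card_le_card_of_injOn (t := univ) (fun k => (e k).2) (by simp) ?_)
          (by simp [mul_comm, hK])
        intro k hk k' hk' h
        simp only [I, coe_filter, mem_univ, true_and, Set.mem_ofPred_eq] at hk hk'
        exact e.injective (Prod.ext (hk.1.trans hk'.1.symm) h)
      have h6 : Real.exp (1 / 9999) ^ I.card ≤ 3 ^ s := by
        refine (pow_le_pow_right₀ (Real.one_le_exp (by norm_num)) h5).trans ?_
        rw [pow_mul, ← Real.exp_nat_mul]
        refine pow_le_pow_left₀ (Real.exp_pos _).le ?_ _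
        norm_num
        exact (Real.exp_one_lt_d9.trans (by norm_num)).le
      have h7 := h4.trans (mul_le_mul_of_nonneg_right h6 (P_nonneg _ _))
      have h8 : 4 * u * 3 ^ s = 1 := by
        rw [hu, mul_div_cancel₀ _ (by norm_num), ← mul_pow]; norm_num
      calc _ ≤ 4 * u * (3 ^ s * _) := mul_le_mul_of_nonneg_left h7 (by positivity)
        _ = _ := by rw [← mul_assoc, h8, one_mul]
    · simp only [φ]
      split_ifs <;> simp_all
      nlinarith
  have hV : ∀ x, ∑ W, ∑ ω, p x W ω * V x W ω ≤
      Fintype.card (Fin m → Fin s → Fin K) * (1 + η) ^ m := by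
    intro x
    have := hidden x (p x) (hp0 x) (hp1 x) (fun W W' h => by
        have : val e x W = val e x W' := by
          funext k S
          cases hx : x (e k).1
          · simp [val, hx, h _ hx]
          · simp [val, hx]
        simp only [p, this])
      (fun ω => ∀ j, (univ.filter fun k => j ∈ ω k).card ≤ s)
      (fun ω j c => 1 + if good e ω j c then 1 else 0) (1 + η)
      (by have : 0 ≤ η := by positivity
          linarith) (fun _ _ _ => by split_ifs <;> norm_num) (fun ω j h => by
        have := lucky' hK s (fun a b => j ∈ ω (e.symm (j, a, b))) (feas_sum e (h j))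
        rw [sum_add_distrib, mul_add]
        simp only [sum_const, card_univ, nsmul_eq_mul]
        refine add_le_add le_rfl ?_
        refine le_trans (le_of_eq (sum_congr rfl fun c _ => ?_)) this
        exact if_congr Iff.rfl rfl rfl)
    simpa only [Fintype.card_fin] using this
  have hT : ∑ x, T x = 2 ^ m * (1 + u) ^ m := by
    simp only [T]
    rw [← Fintype.piFinset_univ,
      ← prod_univ_sum (fun _ => univ) fun (_ : Fin m) (b : Bool) => if b then 1 + 2 * u else (1 : ℝ),
      ← mul_pow]
    simp only [Fintype.univ_bool, mem_singleton, Bool.true_eq_false, not_false_eq_true, sum_insert,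
      if_true, sum_singleton, Bool.false_eq_true, if_false, prod_const, card_univ, Fintype.card_fin]
    congr 1
    ring
  have hA : (0 : ℝ) < (1 + η) ^ m := by positivity
  have hB : (0 : ℝ) < (1 + u) ^ m := by positivity
  have hlow : ∀ x W, (7 / 2 : ℝ) ≤
      ∑ ω, p x W ω * (U x W ω + V x W ω / (1 + η) ^ m + T x / (1 + u) ^ m) := by
    intro x W
    have h2 := hS _ (hv x W)
    rw [P_eq, ENNReal.ofReal_le_ofReal_iff (P_nonneg _ _)] at h2
    refine le_trans (by norm_num) ((mul_le_mul_of_nonneg_right h2 (by norm_num : (0 : ℝ) ≤ 7)).trans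
      (le_trans (le_of_eq (sum_mul _ _ _)) (sum_le_sum fun ω _ => ?_)))
    have hU0 : 0 ≤ U x W ω := prod_nonneg fun j _ => hφ _ _
    have hV0 : 0 ≤ V x W ω := by
      simp only [V]
      split_ifs
      · exact prod_nonneg fun j _ => by split_ifs <;> norm_num
      · exact le_rfl
    have hT0 : 0 ≤ T x := prod_nonneg fun j _ => by split_ifs <;> positivity
    have hV1 := div_nonneg hV0 hA.le
    have hT1 := div_nonneg hT0 hB.le
    split_ifs with h
    · refine mul_le_mul_of_nonneg_left ?_ (hp0 x W ω)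
      have h3 := numeric u η m _ hu0 hu1 (by positivity) hη1 hum (many e hs x W h.1 h.2)
      have h4 : U x W ω * V x W ω * T x =
          (1 + 2 * u) ^ (univ.filter fun j => x j = true ∨ good e ω j (W j)).card := by
        simp only [U, V, T, if_pos h.1]
        rw [← prod_mul_distrib, ← prod_mul_distrib, ← prod_const, prod_filter]
        refine prod_congr rfl fun j _ => ?_
        by_cases h5 : good e ω j (W j) <;> cases x j <;> simp [φ, h5]
        ring
      have h5 : 343 ≤ U x W ω * (V x W ω / (1 + η) ^ m) * (T x / (1 + u) ^ m) := by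
        rw [show U x W ω * (V x W ω / (1 + η) ^ m) * (T x / (1 + u) ^ m) =
          U x W ω * V x W ω * T x / ((1 + η) ^ m * (1 + u) ^ m) by field_simp, h4,
          le_div_iff₀ (by positivity)]
        exact h3
      by_contra h6
      push Not at h6
      have h7 : U x W ω * (V x W ω / (1 + η) ^ m) < 7 * 7 :=
        mul_lt_mul'' (by linarith) (by linarith) hU0 hV1
      have h8 := mul_lt_mul'' h7 (by linarith : T x / (1 + u) ^ m < 7) (mul_nonneg hU0 hV1) hT1
      linarith
    · rw [zero_mul]
      exact mul_nonneg (hp0 x W ω) (by linarith)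
  have h2 := sum_le_sum fun x (_ : x ∈ univ) => sum_le_sum fun W (_ : W ∈ univ) => hlow x W
  simp only [mul_add, sum_add_distrib, ← mul_div_assoc, ← sum_div, ← sum_mul, hp1] at h2
  set C : ℝ := (Fintype.card (Fin m → Fin s → Fin K) : ℝ) with hC
  have hC0 : 0 < C := by rw [hC]; exact_mod_cast Fintype.card_pos
  have h3 : ∑ x, ∑ W, ∑ ω, p x W ω * U x W ω ≤ C * 2 ^ m := by
    rw [sum_comm]
    exact (sum_le_sum fun W _ => hU W).trans (by simp [hC])
  have h4 : (∑ x, ∑ W, ∑ ω, p x W ω * V x W ω) / (1 + η) ^ m ≤ C * 2 ^ m := by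
    rw [div_le_iff₀ hA]
    exact (sum_le_sum fun x _ => hV x).trans (by simp; ring_nf; rfl)
  simp only [sum_const, card_univ, nsmul_eq_mul, mul_one, ← mul_sum, hT, Fintype.card_pi,
    Fintype.card_bool, prod_const, Fintype.card_fin] at h2 hC
  rw [← hC, mul_div_assoc _ _ ((1 + u) ^ m), mul_div_cancel_right₀ _ hB.ne'] at h2
  have h5 : (0 : ℝ) < C * 2 ^ m := by positivity
  push_cast at h2
  nlinarith

end

end Pool.Agent.H39.JDP
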