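import Mathlib

namespace Pool.Agent.H39.KG1

open Set

abbrev Om : Type := (Cardinal.aleph 1).ord.ToType

lemma bdd {S : Set Om} (hS : S.Countable) : ∃ b, ∀ a ∈ S, a < b := by
  have h1 : (⋃ a ∈ S, Iic a).Countable := hS.biUnion fun a _ => by
    rw [← Iio_insert]
    exact ((Cardinal.countable_iff_lt_aleph_one _).2 (Cardinal.mk_Iio_ord_toType a)).insert a
  have h2 : ¬ (univ : Set Om).Countable := by
    rw [Cardinal.countable_iff_lt_aleph_one]
    simp
  by_contra h
  push Not at h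
  refine h2 (h1.mono fun b _ => ?_)
  obtain ⟨a, ha, hb⟩ := h b
  exact mem_biUnion ha hb

instance : Nonempty Om := by
  obtain ⟨b, -⟩ := bdd countable_empty
  exact ⟨b⟩

lemma no_max (a : Om) : ∃ b, a < b := by
  obtain ⟨b, hb⟩ := bdd (countable_singleton a)
  exact ⟨b, hb a rfl⟩

abbrev D : Type := ℕ × Om

inductive Ex
  | inf
  | r (i : ℕ)
  | q (i : ℕ) (a : Om)

inductive X
  | br (f : ℕ → D)
  | pt (s : List D) (e : Ex)

open X Ex PiNat

def W (s : List D) : Set X := fun x => match x with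
  | br f => res f s.length = s
  | pt t _ => s <:+ t

@[simp] lemma br_mem {s f} : br f ∈ W s ↔ res f s.length = s := Iff.rfl
@[simp] lemma pt_mem {s t e} : pt t e ∈ W s ↔ s <:+ t := Iff.rfl

lemma res_suffix (f : ℕ → D) {n m : ℕ} (h : n ≤ m) : res f n <:+ res f m := by
  induction m, h using Nat.le_induction with
  | base => exact List.suffix_refl _
  | succ m _ ih => rw [res_succ]; exact ih.trans (List.suffix_cons _ _)

lemma W_mono {s t : List D} (h : s <:+ t) : W t ⊆ W s := by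
  rintro (f | ⟨u, e⟩) hx
  · rw [br_mem] at hx ⊢
    have h1 : res f s.length <:+ t := hx ▸ res_suffix f h.length_le
    exact (List.suffix_of_suffix_length_le h1 h (by simp)).eq_of_length (by simp)
  · exact h.trans hx

lemma W_comp {s t : List D} {x : X} (hs : x ∈ W s) (ht : x ∈ W t) (h : s.length ≤ t.length) :
    s <:+ t := by
  rcases x with f | ⟨u, e⟩
  · rw [br_mem] at hs ht
    rw [← hs, ← ht]
    exact res_suffix f h
  · exact List.suffix_of_suffix_length_le hs ht h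

lemma W_eq {s t : List D} {x : X} (hs : x ∈ W s) (ht : x ∈ W t) (h : s.length = t.length) :
    s = t := (W_comp hs ht h.le).eq_of_length h

lemma br_res (f : ℕ → D) (n : ℕ) : br f ∈ W (res f n) := by simp

lemma W_nil (x : X) : x ∈ W [] := by rcases x with f | ⟨u, e⟩ <;> simp

lemma W_split {s : List D} {x : X} (hx : x ∈ W s) : (∃ e, x = pt s e) ∨ ∃ d, x ∈ W (d :: s) := by
  rcases x with f | ⟨u, e⟩
  · right
    refine ⟨f s.length, ?_⟩
    rw [br_mem] at hx ⊢
    simp [hx]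
  · rw [pt_mem] at hx
    obtain ⟨l, rfl⟩ := hx
    induction l using List.reverseRecOn with
    | nil => exact Or.inl ⟨e, rfl⟩
    | append_singleton l d _ => exact Or.inr ⟨d, ⟨l, by simp⟩⟩

lemma pt_not_mem (s : List D) (e : Ex) (d : D) : pt s e ∉ W (d :: s) := fun h => by
  have := List.IsSuffix.length_le h
  simp at this

/-- the cell of a child: its wedge together with the point `q`. -/
def In (U : Set X) (s : List D) (i : ℕ) (a : Om) : Prop := W ((i, a) :: s) ⊆ U ∧ pt s (q i a) ∈ U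

def Loc (U : Set X) : X → Prop
  | br f => ∃ n, W (res f n) ⊆ U
  | pt s inf => ∃ n, ∀ i, n ≤ i → ∀ a, In U s i a
  | pt s (r i) => ∃ b, ∀ a, b < a → In U s i a
  | pt s (q i c) => ∃ b, (b < c ∨ IsMin c) ∧ ∀ a, b < a → a < c → In U s i a

lemma In.mono {U V s i a} (h : In U s i a) (hUV : U ⊆ V) : In V s i a := ⟨h.1.trans hUV, hUV h.2⟩

lemma In.inter {U V s i a} (h : In U s i a) (h' : In V s i a) : In (U ∩ V) s i a :=
  ⟨subset_inter h.1 h'.1, h.2, h'.2⟩

lemma Loc.mono {U V : Set X} {x} (h : Loc U x) (hUV : U ⊆ V) : Loc V x := by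
  rcases x with f | ⟨s, _ | i | ⟨i, c⟩⟩
  · obtain ⟨n, hn⟩ := h; exact ⟨n, hn.trans hUV⟩
  · obtain ⟨n, hn⟩ := h; exact ⟨n, fun i hi a => (hn i hi a).mono hUV⟩
  · obtain ⟨n, hn⟩ := h; exact ⟨n, fun a ha => (hn a ha).mono hUV⟩
  · obtain ⟨n, h1, hn⟩ := h; exact ⟨n, h1, fun a ha hb => (hn a ha hb).mono hUV⟩

lemma Loc.inter {U V : Set X} {x} (h : Loc U x) (h' : Loc V x) : Loc (U ∩ V) x := by
  rcases x with f | ⟨s, _ | i | ⟨i, c⟩⟩
  · obtain ⟨n, hn⟩ := h
    obtain ⟨m, hm⟩ := h'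
    exact ⟨max n m, subset_inter ((W_mono (res_suffix f (le_max_left _ _))).trans hn)
      ((W_mono (res_suffix f (le_max_right _ _))).trans hm)⟩
  · obtain ⟨n, hn⟩ := h
    obtain ⟨m, hm⟩ := h'
    exact ⟨max n m, fun i hi a => (hn i (le_of_max_le_left hi) a).inter
      (hm i (le_of_max_le_right hi) a)⟩
  · obtain ⟨n, hn⟩ := h
    obtain ⟨m, hm⟩ := h'
    exact ⟨max n m, fun a ha => (hn a (lt_of_le_of_lt (le_max_left _ _) ha)).inter
      (hm a (lt_of_le_of_lt (le_max_right _ _) ha))⟩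
  · obtain ⟨n, h1, hn⟩ := h
    obtain ⟨m, h2, hm⟩ := h'
    refine ⟨max n m, ?_, fun a ha hb => (hn a (lt_of_le_of_lt (le_max_left _ _) ha) hb).inter
      (hm a (lt_of_le_of_lt (le_max_right _ _) ha) hb)⟩
    rcases h1 with h1 | h1
    · rcases h2 with h2 | h2
      · exact Or.inl (max_lt h1 h2)
      · exact Or.inr h2
    · exact Or.inr h1

lemma q_start (c : Om) : ∃ b, b < c ∨ IsMin c := by
  by_cases h : IsMin c
  · exact ⟨c, Or.inr h⟩
  · obtain ⟨b, hb⟩ := not_isMin_iff.1 h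
    exact ⟨b, Or.inl hb⟩

lemma loc_of_all {U : Set X} {s : List D} (e : Ex) (h : ∀ i a, In U s i a) : Loc U (pt s e) := by
  rcases e with _ | i | ⟨i, c⟩
  · exact ⟨0, fun i _ a => h i a⟩
  · exact ⟨Classical.arbitrary _, fun a _ => h i a⟩
  · obtain ⟨b, hb⟩ := q_start c
    exact ⟨b, hb, fun a _ _ => h i a⟩

/-- all but one cell. -/
lemma loc_of_one {U : Set X} {s : List D} (e : Ex) (d : D) (h : ∀ i a, (i, a) ≠ d → In U s i a) :
    Loc U (pt s e) := by
  rcases e with _ | i | ⟨i, c⟩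
  · exact ⟨d.1 + 1, fun i hi a => h i a (by rintro rfl; simp at hi)⟩
  · exact ⟨d.2, fun a ha => h i a (by rintro rfl; simp at ha)⟩
  · by_cases hd : d.2 < c
    · exact ⟨d.2, Or.inl hd, fun a ha _ => h i a (by rintro rfl; simp at ha)⟩
    · obtain ⟨b, hb⟩ := q_start c
      exact ⟨b, hb, fun a _ ha => h i a (by rintro rfl; exact hd ha)⟩

instance : TopologicalSpace X where
  IsOpen U := ∀ x ∈ U, Loc U x
  isOpen_univ := by
    rintro (f | ⟨s, e⟩) -
    · exact ⟨0, subset_univ _⟩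
    · exact loc_of_all e fun _ _ => ⟨subset_univ _, trivial⟩
  isOpen_inter U V hU hV x hx := (hU x hx.1).inter (hV x hx.2)
  isOpen_sUnion S hS x := fun ⟨U, hU, hx⟩ => (hS U hU x hx).mono (subset_sUnion_of_mem hU)

lemma isOpen_iff {U : Set X} : IsOpen U ↔ ∀ x ∈ U, Loc U x := Iff.rfl

lemma loc_W {s : List D} {x : X} (hx : x ∈ W s) : Loc (W s) x := by
  rcases x with f | ⟨u, e⟩
  · exact ⟨s.length, by rw [br_mem] at hx; rw [hx]⟩
  · exact loc_of_all e fun i a => ⟨W_mono (List.IsSuffix.trans hx (List.suffix_cons _ _)), hx⟩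

lemma loc_compl_W {s : List D} {x : X} (hx : x ∉ W s) : Loc (W s)ᶜ x := by
  rcases x with f | ⟨u, e⟩
  · exact ⟨s.length, fun y hy hs => hx (W_eq hy hs (by simp))⟩
  · by_cases h : ∃ d, d :: u <:+ s
    · obtain ⟨d, hd⟩ := h
      refine loc_of_one e d fun i a hne => ⟨fun y hy hs => ?_, hx⟩
      have h1 := W_comp hy hs (by simpa using hd.length_le)
      have := (List.suffix_of_suffix_length_le h1 hd (by simp)).eq_of_length (by simp)
      exact hne (List.cons.inj this).1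
    · refine loc_of_all e fun i a => ⟨fun y hy hs => ?_, hx⟩
      rcases le_total ((i, a) :: u).length s.length with hl | hl
      · exact h ⟨_, W_comp hy hs hl⟩
      · rcases List.suffix_cons_iff.1 (W_comp hs hy hl) with h1 | h1
        · exact h ⟨(i, a), by rw [h1]⟩
        · exact hx h1

lemma isOpen_W (s : List D) : IsOpen (W s) := fun _ hx => loc_W hx
lemma isOpen_compl_W (s : List D) : IsOpen (W s)ᶜ := fun _ hx => loc_compl_W hx

/-- a set determined at the node `s`. -/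
def Part (s : List D) (Z : Set D) (Y : Set Ex) : Set X :=
  {x | (∃ d ∈ Z, x ∈ W (d :: s)) ∨ ∃ e ∈ Y, x = pt s e}

lemma in_part {s Z Y i a} (h1 : (i, a) ∈ Z) (h2 : q i a ∈ Y) : In (Part s Z Y) s i a :=
  ⟨fun _ hx => Or.inl ⟨_, h1, hx⟩, Or.inr ⟨_, h2, rfl⟩⟩

lemma isOpen_part {s Z Y} (h : ∀ e ∈ Y, Loc (Part s Z Y) (pt s e)) : IsOpen (Part s Z Y) := by
  rintro x (⟨d, hd, hx⟩ | ⟨e, he, rfl⟩)
  · exact (loc_W hx).mono fun y hy => Or.inl ⟨d, hd, hy⟩
  · exact h e he

lemma mem_part_W {s Z Y d x} (hx : x ∈ W (d :: s)) : x ∈ Part s Z Y ↔ d ∈ Z := by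
  constructor
  · rintro (⟨d', hd', hx'⟩ | ⟨e, -, rfl⟩)
    · rw [(List.cons.inj (W_eq hx hx' rfl)).1]; exact hd'
    · exact absurd hx (pt_not_mem _ _ _)
  · exact fun h => Or.inl ⟨d, h, hx⟩

lemma mem_part_pt {s Z Y e} : pt s e ∈ Part s Z Y ↔ e ∈ Y := by
  constructor
  · rintro (⟨d', -, hx'⟩ | ⟨e, he, h⟩)
    · exact absurd hx' (pt_not_mem _ _ _)
    · cases h; exact he
  · exact fun h => Or.inr ⟨e, h, rfl⟩

/-- every compact set misses the wedge of some child of `s`. -/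
lemma compact_miss {K : Set X} (hK : IsCompact K) (s : List D) : ∃ d, K ⊆ (W (d :: s))ᶜ := by
  obtain ⟨n, hn⟩ := hK.elim_directed_cover
    (fun n : ℕ => (W s)ᶜ ∪ Part s univ {e | ∀ i, e = r i → i < n})
    (fun n => (isOpen_compl_W s).union (isOpen_part fun e _ =>
      loc_of_all e fun i a => in_part trivial (by simp)))
    (by
      intro x _
      by_cases hx : x ∈ W s
      · rcases W_split hx with ⟨e, rfl⟩ | ⟨d, hd⟩
        · rcases e with _ | i | ⟨i, c⟩
          · exact mem_iUnion.2 ⟨0, Or.inr (mem_part_pt.2 (by simp))⟩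
          · exact mem_iUnion.2 ⟨i + 1, Or.inr (mem_part_pt.2 (by simp))⟩
          · exact mem_iUnion.2 ⟨0, Or.inr (mem_part_pt.2 (by simp))⟩
        · exact mem_iUnion.2 ⟨0, Or.inr ((mem_part_W hd).2 trivial)⟩
      · exact mem_iUnion.2 ⟨0, Or.inl hx⟩)
    (Monotone.directed_le fun n m hnm => union_subset_union_right _ (by
      rintro x (h | ⟨e, he, rfl⟩)
      · exact Or.inl h
      · exact Or.inr ⟨e, fun i hi => (he i hi).trans_le hnm, rfl⟩))
  obtain ⟨b, hb⟩ := hK.elim_directed_cover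
    (fun b : Om => (W s)ᶜ ∪ Part s {d | d.1 = n → d.2 ≤ b}
      {e | e ≠ r n ∧ ∀ a, e = q n a → a ≤ b})
    (fun b => (isOpen_compl_W s).union (isOpen_part fun e he => by
      rcases e with _ | i | ⟨i, c⟩
      · exact ⟨n + 1, fun i hi a => in_part (fun h => by simp at h; omega)
          ⟨by simp, fun a' h => by cases h; omega⟩⟩
      · have hin : i ≠ n := fun h => he.1 (by rw [h])
        exact ⟨b, fun a _ => in_part (fun h => absurd h hin)
          ⟨by simp, fun a' h => by cases h; exact absurd rfl hin⟩⟩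
      · obtain ⟨b', hb'⟩ := q_start c
        refine ⟨b', hb', fun a _ hac => in_part (fun h => ?_) ⟨by simp, fun a' h => ?_⟩⟩
        · have h : i = n := h
          exact hac.le.trans (he.2 c (by rw [h]))
        · cases h; exact hac.le.trans (he.2 c rfl)))
    (by
      intro x hxK
      by_cases hx : x ∈ W s
      · rcases W_split hx with ⟨e, rfl⟩ | ⟨d, hd⟩
        · rcases e with _ | i | ⟨i, c⟩
          · exact mem_iUnion.2 ⟨Classical.arbitrary _, Or.inr (mem_part_pt.2 (by simp))⟩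
          · have := (hn hxK).resolve_left (not_not.2 hx)
            have h2 := mem_part_pt.1 this i rfl
            exact mem_iUnion.2 ⟨Classical.arbitrary _, Or.inr (mem_part_pt.2
              ⟨fun h => by cases h; omega, by simp⟩)⟩
          · exact mem_iUnion.2 ⟨c, Or.inr (mem_part_pt.2
              ⟨by simp, fun a h => by cases h; exact le_rfl⟩)⟩
        · exact mem_iUnion.2 ⟨d.2, Or.inr ((mem_part_W hd).2 fun _ => le_rfl)⟩
      · exact mem_iUnion.2 ⟨Classical.arbitrary _, Or.inl hx⟩)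
    (Monotone.directed_le fun b c hbc => union_subset_union_right _ (by
      rintro x (⟨d, hd, h⟩ | ⟨e, he, rfl⟩)
      · exact Or.inl ⟨d, fun h' => (hd h').trans hbc, h⟩
      · exact Or.inr ⟨e, ⟨he.1, fun a ha => (he.2 a ha).trans hbc⟩, rfl⟩))
  obtain ⟨c, hc⟩ := no_max b
  refine ⟨(n, c), fun x hxK hx => ?_⟩
  rcases hb hxK with h | h
  · exact h (W_mono (List.suffix_cons _ _) hx)
  · exact absurd ((mem_part_W hx).1 h rfl) (not_le.2 hc)

end Pool.Agent.H39.KG1
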