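import Mathlib
import Pool.Agent.H39.KG1

namespace Pool.Agent.H39.KG1

open Set X Ex PiNat Filter Topology

def ok (m : ℕ) (c : Om) (d : D) : Prop := d.1 < m ∨ d.2 ≤ c

def okE (m : ℕ) (c : Om) : Ex → Prop
  | inf => True
  | r i => i < m
  | q i a => i < m ∨ a ≤ c

def K (m : ℕ) (c : Om) : Set X := fun x => match x with
  | br f => ∀ n, ok m c (f n)
  | pt s e => (∀ d ∈ s, ok m c d) ∧ okE m c e

lemma mem_res {f : ℕ → D} {n : ℕ} {d : D} (h : d ∈ res f n) : ∃ k < n, f k = d := by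
  induction n with
  | zero => simp at h
  | succ n ih =>
    rw [res_succ, List.mem_cons] at h
    rcases h with rfl | h
    · exact ⟨n, Nat.lt_succ_self n, rfl⟩
    · obtain ⟨k, hk, rfl⟩ := ih h
      exact ⟨k, hk.trans (Nat.lt_succ_self n), rfl⟩

lemma res_mem (f : ℕ → D) {k n : ℕ} (h : k < n) : f k ∈ res f n :=
  (res_suffix f (Nat.succ_le_of_lt h)).subset (by simp)

lemma ok_of_mem {m c x s} (hx : x ∈ K m c) (hs : x ∈ W s) : ∀ d ∈ s, ok m c d := by
  rcases x with f | ⟨t, e⟩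
  · intro d hd
    rw [br_mem] at hs
    rw [← hs] at hd
    obtain ⟨k, -, rfl⟩ := mem_res hd
    exact hx k
  · exact fun d hd => hx.1 d (List.IsSuffix.subset hs hd)

def Col (s : List D) (i : ℕ) : Set X := Part s {d | d.1 = i} {e | e = r i ∨ ∃ a, e = q i a}
def Zs (s : List D) (i : ℕ) (c : Om) : Set X :=
  Part s {d | d.1 = i ∧ d.2 ≤ c} {e | ∃ a, a ≤ c ∧ e = q i a}
def Tail (s : List D) (i : ℕ) (c : Om) : Set X :=
  Part s {d | d.1 = i ∧ c < d.2} {e | e = r i ∨ ∃ a, c < a ∧ e = q i a}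
def Far (s : List D) (n : ℕ) : Set X :=
  Part s {d | n ≤ d.1} {e | e = inf ∨ ∃ i a, n ≤ i ∧ e = q i a}

theorem isCompact_K (m : ℕ) (c : Om) : IsCompact (K m c) := by
  rw [isCompact_iff_ultrafilter_le_nhds]
  intro F hF
  have hK : K m c ∈ F := le_principal_iff.1 hF
  have hok : ∀ s, W s ∈ F → ∀ d ∈ s, ok m c d := fun s hs => by
    obtain ⟨x, h1, h2⟩ := F.nonempty_of_mem (inter_mem hK hs)
    exact ok_of_mem h1 h2
  by_cases hA : ∀ s, W s ∈ F → ∃ d, W (d :: s) ∈ F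
  · choose! g hg using hA
    let L : ℕ → List D := fun n => Nat.rec [] (fun _ l => g l :: l) n
    have hL : ∀ n, W (L n) ∈ F := by
      intro n
      induction n with
      | zero => exact univ_mem' W_nil
      | succ n ih => exact hg _ ih
    have hr : ∀ n, res (fun n => g (L n)) n = L n := by
      intro n
      induction n with
      | zero => rfl
      | succ n ih => rw [res_succ, ih]
    refine ⟨br fun n => g (L n), fun n => hok _ (hL (n + 1)) _ List.mem_cons_self, ?_⟩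
    refine le_nhds_iff.2 fun U hx hU => ?_
    obtain ⟨n, hn⟩ := hU _ hx
    rw [hr] at hn
    exact mem_of_superset (hL n) hn
  push Not at hA
  obtain ⟨s, hs, hch⟩ := hA
  by_cases hB : ∃ i, Col s i ∈ F
  · obtain ⟨i, hi⟩ := hB
    have hZ : ¬ i < m → Zs s i c ∈ F := fun him => by
      refine mem_of_superset (inter_mem hK hi) ?_
      rintro x ⟨hx, ⟨d, hd, hxd⟩ | ⟨e, rfl | ⟨a, rfl⟩, rfl⟩⟩
      · have hd : d.1 = i := hd
        exact Or.inl ⟨d, ⟨hd, (ok_of_mem hx hxd d List.mem_cons_self).resolve_left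
          (by rw [hd]; exact him)⟩, hxd⟩
      · exact absurd hx.2 him
      · exact Or.inr ⟨_, ⟨a, hx.2.resolve_left him, rfl⟩, rfl⟩
    by_cases hC : ∃ b, Zs s i b ∈ F
    · obtain ⟨b, hb, hmin⟩ := wellFounded_lt.has_min {b | Zs s i b ∈ F} hC
      refine ⟨pt s (q i b), ⟨hok s hs, ?_⟩, le_nhds_iff.2 fun U hx hU => ?_⟩
      · by_cases him : i < m
        · exact Or.inl him
        · exact Or.inr (not_lt.1 (hmin c (hZ him)))
      · obtain ⟨b', hb', hin⟩ := hU _ hx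
        have key : Zs s i b ⊆ U ∪ (W ((i, b) :: s) ∪ {x | b' < b ∧ x ∈ Zs s i b'}) := by
          rintro x (⟨⟨j, a⟩, ⟨hj, ha⟩, hxd⟩ | ⟨e, ⟨a, ha, rfl⟩, rfl⟩)
          · dsimp only at hj ha
            subst hj
            rcases ha.eq_or_lt with rfl | ha
            · exact Or.inr (Or.inl hxd)
            · by_cases hab : b' < a
              · exact Or.inl ((hin a hab ha).1 hxd)
              · exact Or.inr (Or.inr ⟨hb'.resolve_right (not_isMin_of_lt ha),
                  Or.inl ⟨_, ⟨rfl, not_lt.1 hab⟩, hxd⟩⟩)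
          · rcases ha.eq_or_lt with rfl | ha
            · exact Or.inl hx
            · by_cases hab : b' < a
              · exact Or.inl (hin a hab ha).2
              · exact Or.inr (Or.inr ⟨hb'.resolve_right (not_isMin_of_lt ha),
                  Or.inr ⟨_, ⟨a, not_lt.1 hab, rfl⟩, rfl⟩⟩)
        rcases F.union_mem_iff.1 (mem_of_superset hb key) with h | h
        · exact h
        · rcases F.union_mem_iff.1 h with h | h
          · exact absurd h (hch _)
          · obtain ⟨x, hx, -⟩ := F.nonempty_of_mem h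
            exact absurd hx (hmin b' (mem_of_superset h fun _ h => h.2))
    · push Not at hC
      refine ⟨pt s (r i), ⟨hok s hs, by_contra fun h => hC c (hZ h)⟩,
        le_nhds_iff.2 fun U hx hU => ?_⟩
      obtain ⟨b, hin⟩ := hU _ hx
      have key : Col s i ⊆ U ∪ Zs s i b := by
        rintro x (⟨⟨j, a⟩, hj, hxd⟩ | ⟨e, rfl | ⟨a, rfl⟩, rfl⟩)
        · have hj : j = i := hj
          subst hj
          by_cases hab : b < a
          · exact Or.inl ((hin a hab).1 hxd)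
          · exact Or.inr (Or.inl ⟨_, ⟨rfl, not_lt.1 hab⟩, hxd⟩)
        · exact Or.inl hx
        · by_cases hab : b < a
          · exact Or.inl (hin a hab).2
          · exact Or.inr (Or.inr ⟨_, ⟨a, not_lt.1 hab, rfl⟩, rfl⟩)
      exact (F.union_mem_iff.1 (mem_of_superset hi key)).resolve_right (hC b)
  · push Not at hB
    refine ⟨pt s inf, ⟨hok s hs, trivial⟩, le_nhds_iff.2 fun U hx hU => ?_⟩
    obtain ⟨n, hin⟩ := hU _ hx
    have key : K m c ∩ W s ⊆ U ∪ ⋃ i ∈ Iio (max n m), Col s i := by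
      rintro x ⟨hxK, hxs⟩
      rcases W_split hxs with ⟨_ | i | ⟨i, a⟩, rfl⟩ | ⟨⟨i, a⟩, hd⟩
      · exact Or.inl hx
      · exact Or.inr (mem_biUnion (x := i) (lt_max_of_lt_right hxK.2)
          (Or.inr ⟨_, Or.inl rfl, rfl⟩))
      · by_cases h : n ≤ i
        · exact Or.inl (hin i h a).2
        · exact Or.inr (mem_biUnion (x := i) (lt_max_of_lt_left (not_le.1 h))
            (Or.inr ⟨_, Or.inr ⟨a, rfl⟩, rfl⟩))
      · by_cases h : n ≤ i
        · exact Or.inl ((hin i h a).1 hd)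
        · exact Or.inr (mem_biUnion (x := i) (lt_max_of_lt_left (not_le.1 h))
            (Or.inl ⟨_, rfl, hd⟩))
    rcases F.union_mem_iff.1 (mem_of_superset (inter_mem hK hs) key) with h | h
    · exact h
    · obtain ⟨i, -, hi⟩ := (Ultrafilter.finite_biUnion_mem_iff (finite_Iio _)).1 h
      exact absurd hi (hB i)

lemma finite_exits {m c U} (hU : IsOpen U) (hK : K m c ⊆ U) :
    {p : List D × ℕ | (∀ d ∈ p.1, ok m c d) ∧ ¬ ∀ a, c < a → In U p.1 p.2 a}.Finite := by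
  set P := {p : List D × ℕ | (∀ d ∈ p.1, ok m c d) ∧ ¬ ∀ a, c < a → In U p.1 p.2 a} with hP
  let y : List D × ℕ → X := fun p => pt p.1 (q p.2 c)
  have hinj : Function.Injective y := by
    rintro ⟨s, i⟩ ⟨t, j⟩ h
    simp only [y, pt.injEq, q.injEq] at h
    rw [h.1, h.2.1]
  have hopen : ∀ Q ⊆ P, IsOpen (U \ y '' Q) := by
    intro Q hQ
    have hW : ∀ t, W t ⊆ U → W t ⊆ U \ y '' Q := by
      rintro t ht x hx
      refine ⟨ht hx, ?_⟩
      rintro ⟨p, hp, rfl⟩
      exact (hQ hp).2 fun a _ => ⟨(W_mono (List.IsSuffix.trans hx (List.suffix_cons _ _))).trans ht,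
        ht hx⟩
    have hI : ∀ u j a, In U u j a → (a ≠ c ∨ ∀ a, In U u j a) → In (U \ y '' Q) u j a := by
      intro u j a h h'
      refine ⟨hW _ h.1, h.2, ?_⟩
      rintro ⟨⟨s, i⟩, hp, he⟩
      simp only [y, pt.injEq, q.injEq] at he
      obtain ⟨rfl, rfl, rfl⟩ := he
      rcases h' with h' | h'
      · exact h' rfl
      · exact (hQ hp).2 fun a _ => h' a
    rintro (f | ⟨s, _ | i | ⟨i, b⟩⟩) hx
    · obtain ⟨n, hn⟩ := hU _ hx.1
      exact ⟨n, hW _ hn⟩
    · obtain ⟨n, hn⟩ := hU _ hx.1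
      exact ⟨n, fun i hi a => hI _ _ _ (hn i hi a) (Or.inr (hn i hi))⟩
    · obtain ⟨b, hn⟩ := hU _ hx.1
      exact ⟨max b c, fun a ha => hI _ _ _ (hn a (lt_of_le_of_lt (le_max_left _ _) ha))
        (Or.inl (lt_of_le_of_lt (le_max_right _ _) ha).ne')⟩
    · obtain ⟨b', hb', hn⟩ := hU _ hx.1
      by_cases hcb : c < b
      · exact ⟨max b' c, Or.inl (max_lt (hb'.resolve_right (not_isMin_of_lt hcb)) hcb),
          fun a ha hb => hI _ _ _ (hn a (lt_of_le_of_lt (le_max_left _ _) ha) hb)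
            (Or.inl (lt_of_le_of_lt (le_max_right _ _) ha).ne')⟩
      · exact ⟨b', hb', fun a ha hb => hI _ _ _ (hn a ha hb)
          (Or.inl (hb.trans_le (not_lt.1 hcb)).ne)⟩
  obtain ⟨t, ht⟩ := (isCompact_K m c).elim_finite_subcover (fun p => U \ y '' (P \ {p}))
    (fun p => hopen _ diff_subset) (by
      intro x hx
      by_cases h : x ∈ y '' P
      · obtain ⟨p, -, rfl⟩ := h
        refine mem_iUnion.2 ⟨p, hK hx, ?_⟩
        rintro ⟨p', hp', he⟩
        exact hp'.2 (hinj he)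
      · exact mem_iUnion.2 ⟨([], 0), hK hx, fun h' => h (image_mono diff_subset h')⟩)
  refine t.finite_toSet.subset fun p hp => ?_
  have : y p ∈ K m c := ⟨hp.1, Or.inr le_rfl⟩
  obtain ⟨p', hp', h⟩ := mem_iUnion₂.1 (ht this)
  by_contra hn
  exact h.2 ⟨p, ⟨hp, fun he => hn (by rw [mem_singleton_iff.1 he]; exact hp')⟩, rfl⟩

lemma step {m c U} (hU : IsOpen U) (hK : K m c ⊆ U) : ∃ C : Set Om, C.Countable ∧
    ∀ f, br f ∉ U → ∃ k, m ≤ (f k).1 ∧ c < (f k).2 ∧ ∀ l < k, (f l).2 ∈ C := by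
  classical
  refine ⟨_, ((finite_exits hU hK).biUnion (t := fun p => Prod.snd '' {d | d ∈ p.1})
    fun p _ => (List.finite_toSet p.1).image _).countable, fun f hf => ?_⟩
  have hex : ∃ k, ¬ ok m c (f k) := by
    by_contra h
    push Not at h
    exact hf (hK h)
  have h0 := Nat.find_spec hex
  have h1 : m ≤ (f (Nat.find hex)).1 ∧ c < (f (Nat.find hex)).2 :=
    ⟨not_lt.1 fun h => h0 (Or.inl h), not_le.1 fun h => h0 (Or.inr h)⟩
  refine ⟨Nat.find hex, h1.1, h1.2, fun l hl => ?_⟩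
  refine mem_biUnion (x := (res f (Nat.find hex), (f (Nat.find hex)).1)) ⟨?_, ?_⟩
    ⟨f l, res_mem f hl, rfl⟩
  · intro d hd
    obtain ⟨k, hk, rfl⟩ := mem_res hd
    exact not_not.1 (Nat.find_min hex hk)
  · intro h
    exact hf ((h _ h1.2).1 (br_res f (Nat.find hex + 1)))

theorem select (𝒰 : ℕ → Set (Set X)) (ho : ∀ n, ∀ U ∈ 𝒰 n, IsOpen U)
    (hk : ∀ n, ∀ C : Set X, IsCompact C → C.Nonempty → ∃ U ∈ 𝒰 n, C ⊆ U) :
    ∃ V : ℕ → Set X, (∀ n, V n ∈ 𝒰 n) ∧ ∀ F : Set X, F.Finite → ∃ n, F ⊆ V n := by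
  choose U hU hKU using fun (j n : ℕ) (c : Om) =>
    hk (Nat.pair j n) _ (isCompact_K n c) ⟨pt [] inf, by simp, trivial⟩
  choose C hC hf using fun (j n : ℕ) (c : Om) => step (ho _ _ (hU j n c)) (hKU j n c)
  choose nx hnx using fun (j : ℕ) (c : Om) =>
    bdd ((countable_iUnion fun n => hC j n c).insert c)
  let A : ℕ → Om := fun j => Nat.rec (Classical.arbitrary _) (fun j c => nx j c) j
  have hA : StrictMono A := strictMono_nat_of_lt_succ fun j => hnx j _ _ (mem_insert _ _)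
  refine ⟨fun k => U k.unpair.1 k.unpair.2 (A k.unpair.1), fun k => by
    simpa using hU k.unpair.1 k.unpair.2 (A k.unpair.1), fun F hF => ?_⟩
  have hbad : ∀ x, {j | {n | x ∉ U j n (A j)}.Infinite}.Finite := by
    rintro (f | ⟨s, e⟩)
    · have key : ∀ j, {n | br f ∉ U j n (A j)}.Infinite →
          (∃ k, A j < (f k).2) ∧ ∀ l, (f l).2 < A (j + 1) := by
        intro j hj
        constructor
        · obtain ⟨n, hn⟩ := hj.nonempty
          obtain ⟨k, -, h, -⟩ := hf j n _ f hn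
          exact ⟨k, h⟩
        · intro l
          obtain ⟨M, hM⟩ := ((finite_Iic l).image fun k => (f k).1).bddAbove
          obtain ⟨n, hn, hMn⟩ := hj.exists_gt M
          obtain ⟨k, h1, -, h2⟩ := hf j n _ f hn
          have : l < k := by
            by_contra h
            have := hM ⟨k, not_lt.1 h, rfl⟩
            dsimp only at this
            omega
          exact hnx j _ _ (mem_insert_of_mem _ (mem_iUnion.2 ⟨n, h2 l this⟩))
      refine Set.Subsingleton.finite fun j hj j' hj' => ?_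
      obtain ⟨⟨k, hk⟩, h1⟩ := key j hj
      obtain ⟨⟨k', hk'⟩, h2⟩ := key j' hj'
      have e1 : j < j' + 1 := hA.lt_iff_lt.1 (lt_trans hk (h2 k) : A j < A (j' + 1))
      have e2 : j' < j + 1 := hA.lt_iff_lt.1 (lt_trans hk' (h1 k') : A j' < A (j + 1))
      omega
    · refine finite_empty.subset fun j hj => hj ?_
      obtain ⟨M, hM⟩ := ((List.finite_toSet s).image Prod.fst).bddAbove
      have : ∃ M', ∀ n c, M' < n → okE n c e := by
        rcases e with _ | i | ⟨i, a⟩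
        · exact ⟨0, fun _ _ _ => trivial⟩
        · exact ⟨i, fun _ _ h => h⟩
        · exact ⟨i, fun _ _ h => Or.inl h⟩
      obtain ⟨M', hM'⟩ := this
      refine (finite_Iic (max M M')).subset fun n hn => ?_
      by_contra h
      have h : max M M' < n := not_le.1 h
      exact hn (hKU j n _ ⟨fun d hd => Or.inl ((hM ⟨d, hd, rfl⟩).trans_lt
        (lt_of_le_of_lt (le_max_left _ _) h)), hM' _ _ (lt_of_le_of_lt (le_max_right _ _) h)⟩)
  obtain ⟨j, hj⟩ := (hF.biUnion fun x _ => hbad x).exists_notMem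
  have hfin : (⋃ x ∈ F, {n | x ∉ U j n (A j)}).Finite := hF.biUnion fun x hx => by
    by_contra h
    exact hj (mem_biUnion hx h)
  obtain ⟨n, hn⟩ := hfin.exists_notMem
  refine ⟨Nat.pair j n, fun x hx => ?_⟩
  simp only [Nat.unpair_pair]
  by_contra h
  exact hn (mem_biUnion hx h)

lemma part_disj {s Z Y Z' Y'} (h1 : Disjoint Z Z') (h2 : Disjoint Y Y') :
    Disjoint (Part s Z Y) (Part s Z' Y') := by
  rw [Set.disjoint_left] at *
  rintro x (⟨d, hd, hx⟩ | ⟨e, he, rfl⟩) h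
  · exact h1 hd ((mem_part_W hx).1 h)
  · exact h2 he (mem_part_pt.1 h)

lemma open_Col (s i) : IsOpen (Col s i) := isOpen_part (by
  rintro e (rfl | ⟨a, rfl⟩)
  · exact ⟨Classical.arbitrary _, fun a _ => in_part rfl (Or.inr ⟨a, rfl⟩)⟩
  · obtain ⟨b, hb⟩ := q_start a
    exact ⟨b, hb, fun a _ _ => in_part rfl (Or.inr ⟨a, rfl⟩)⟩)

lemma open_Zs (s i c) : IsOpen (Zs s i c) := isOpen_part (by
  rintro e ⟨a, ha, rfl⟩
  obtain ⟨b, hb⟩ := q_start a
  exact ⟨b, hb, fun a' _ h => in_part ⟨rfl, h.le.trans ha⟩ ⟨a', h.le.trans ha, rfl⟩⟩)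

lemma open_Tail (s i c) : IsOpen (Tail s i c) := isOpen_part (by
  rintro e (rfl | ⟨a, ha, rfl⟩)
  · exact ⟨c, fun a h => in_part ⟨rfl, h⟩ (Or.inr ⟨a, h, rfl⟩)⟩
  · exact ⟨c, Or.inl ha, fun a h _ => in_part ⟨rfl, h⟩ (Or.inr ⟨a, h, rfl⟩)⟩)

lemma open_Far (s n) : IsOpen (Far s n) := isOpen_part (by
  rintro e (rfl | ⟨i, a, hi, rfl⟩)
  · exact ⟨n, fun i h a => in_part h (Or.inr ⟨i, a, h, rfl⟩)⟩
  · obtain ⟨b, hb⟩ := q_start a
    exact ⟨b, hb, fun a' _ _ => in_part hi (Or.inr ⟨i, a', hi, rfl⟩)⟩)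

lemma far_col (s i) : Disjoint (Far s (i + 1)) (Col s i) := part_disj
  (Set.disjoint_left.2 fun d (h1 : i + 1 ≤ d.1) (h2 : d.1 = i) => by omega)
  (Set.disjoint_left.2 (by
    rintro e (rfl | ⟨j, a, hj, rfl⟩) (h | ⟨b, h⟩) <;> cases h
    omega))

lemma col_col (s) {i j} (h : i ≠ j) : Disjoint (Col s i) (Col s j) := part_disj
  (Set.disjoint_left.2 fun d (h1 : d.1 = i) (h2 : d.1 = j) => h (h1.symm.trans h2))
  (Set.disjoint_left.2 (by
    rintro e (rfl | ⟨a, rfl⟩) (h' | ⟨b, h'⟩) <;> cases h' <;> exact h rfl))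

lemma tail_zs (s i c) : Disjoint (Tail s i c) (Zs s i c) := part_disj
  (Set.disjoint_left.2 fun _ h1 h2 => absurd h1.2 (not_lt.2 h2.2))
  (Set.disjoint_left.2 (by
    rintro e (rfl | ⟨a, ha, rfl⟩) ⟨b, hb, h'⟩ <;> cases h'
    exact absurd ha (not_lt.2 hb)))

instance : T2Space X := by
  refine ⟨fun x y hxy => ?_⟩
  by_cases h1 : ∃ s, x ∈ W s ∧ y ∉ W s
  · obtain ⟨s, hx, hy⟩ := h1
    exact ⟨_, _, isOpen_W s, isOpen_compl_W s, hx, hy, disjoint_compl_right⟩
  by_cases h2 : ∃ s, y ∈ W s ∧ x ∉ W s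
  · obtain ⟨s, hy, hx⟩ := h2
    exact ⟨_, _, isOpen_compl_W s, isOpen_W s, hx, hy, disjoint_compl_left⟩
  push Not at h1 h2
  rcases x with f | ⟨s, e⟩ <;> rcases y with g | ⟨t, e'⟩
  · refine absurd (congrArg br (res_injective (funext fun n => ?_))) hxy
    have := h2 _ (br_res g n)
    simpa using this
  · have := List.IsSuffix.length_le (h1 _ (br_res f (t.length + 1)))
    simp at this
  · have := List.IsSuffix.length_le (h2 _ (br_res g (s.length + 1)))
    simp at this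
  obtain rfl : s = t := List.IsSuffix.eq_of_length (h1 s (List.suffix_refl s))
    (le_antisymm (List.IsSuffix.length_le (h1 s (List.suffix_refl s)))
      (List.IsSuffix.length_le (h2 t (List.suffix_refl t))))
  have cr : ∀ i, pt s (r i) ∈ Col s i := fun i => Or.inr ⟨_, Or.inl rfl, rfl⟩
  have cq : ∀ i a, pt s (q i a) ∈ Col s i := fun i a => Or.inr ⟨_, Or.inr ⟨a, rfl⟩, rfl⟩
  have fi : ∀ n, pt s inf ∈ Far s n := fun i => Or.inr ⟨_, Or.inl rfl, rfl⟩
  have tr : ∀ i a, pt s (r i) ∈ Tail s i a := fun i a => Or.inr ⟨_, Or.inl rfl, rfl⟩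
  have tq : ∀ i a b, a < b → pt s (q i b) ∈ Tail s i a :=
    fun i a b h => Or.inr ⟨_, Or.inr ⟨b, h, rfl⟩, rfl⟩
  have zq : ∀ i a, pt s (q i a) ∈ Zs s i a := fun i a => Or.inr ⟨_, ⟨a, le_rfl, rfl⟩, rfl⟩
  rcases e with _ | i | ⟨i, a⟩ <;> rcases e' with _ | j | ⟨j, b⟩
  · exact absurd rfl hxy
  · exact ⟨_, _, open_Far s _, open_Col s j, fi _, cr j, far_col s j⟩
  · exact ⟨_, _, open_Far s _, open_Col s j, fi _, cq j b, far_col s j⟩
  · exact ⟨_, _, open_Col s i, open_Far s _, cr i, fi _, (far_col s i).symm⟩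
  · exact ⟨_, _, open_Col s i, open_Col s j, cr i, cr j, col_col s (by rintro rfl; exact hxy rfl)⟩
  · by_cases hij : i = j
    · subst hij
      exact ⟨_, _, open_Tail s i b, open_Zs s i b, tr i b, zq i b, tail_zs s i b⟩
    · exact ⟨_, _, open_Col s i, open_Col s j, cr i, cq j b, col_col s hij⟩
  · exact ⟨_, _, open_Col s i, open_Far s _, cq i a, fi _, (far_col s i).symm⟩
  · by_cases hij : i = j
    · subst hij
      exact ⟨_, _, open_Zs s i a, open_Tail s i a, zq i a, tr i a, (tail_zs s i a).symm⟩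
    · exact ⟨_, _, open_Col s i, open_Col s j, cq i a, cr j, col_col s hij⟩
  · by_cases hij : i = j
    · subst hij
      rcases lt_trichotomy a b with h | rfl | h
      · exact ⟨_, _, open_Zs s i a, open_Tail s i a, zq i a, tq i a b h, (tail_zs s i a).symm⟩
      · exact absurd rfl hxy
      · exact ⟨_, _, open_Tail s i b, open_Zs s i b, tq i b a h, zq i b, tail_zs s i b⟩
    · exact ⟨_, _, open_Col s i, open_Col s j, cq i a, cq j b, col_col s hij⟩

end Pool.Agent.H39.KG1
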