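import Mathlib

namespace Pool.Agent.H39.KT1

open Set Cardinal

def IsIdeal (I : Set (Set ℕ)) : Prop :=
  (∀ a ∈ I, ∀ b ⊆ a, b ∈ I) ∧ (∀ a ∈ I, ∀ b ∈ I, a ∪ b ∈ I) ∧ (∀ a : Set ℕ, a.Finite → a ∈ I) ∧
    Set.univ ∉ I

def dsum (J0 J1 : Set (Set ℕ)) : Set (Set ℕ) :=
  {A | {n | 2 * n ∈ A} ∈ J0 ∧ {n | 2 * n + 1 ∈ A} ∈ J1}

def KatLE (A J : Set (Set ℕ)) : Prop := ∃ f : ℕ → ℕ, ∀ a ∈ A, f ⁻¹' a ∈ J

def Generates (A : Set (Set ℕ)) : Prop := ∀ T ⊆ A, T.Finite → (⋃₀ T)ᶜ.Infinite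

def NoPseudo (F : Set (Set ℕ)) : Prop := ¬ ∃ Z : Set ℕ, Z.Infinite ∧ ∀ B ∈ F, (Z \ B).Finite

def Tower (F : Set (Set ℕ)) : Prop :=
  (∀ B ∈ F, B.Infinite) ∧ (∀ B ∈ F, ∀ C ∈ F, (B \ C).Finite ∨ (C \ B).Finite) ∧ NoPseudo F

lemma IsIdeal.compl_inf {I : Set (Set ℕ)} (hI : IsIdeal I) {a : Set ℕ} (ha : a ∈ I) :
    aᶜ.Infinite := fun h => hI.2.2.2 (by simpa using hI.2.1 a ha _ (hI.2.2.1 _ h))

lemma IsIdeal.sUnion {I : Set (Set ℕ)} (hI : IsIdeal I) {T : Set (Set ℕ)} (hT : T.Finite) :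
    T ⊆ I → ⋃₀ T ∈ I := by
  induction T, hT using Set.Finite.induction_on with
  | empty => intro _; simpa using hI.2.2.1 ∅ finite_empty
  | insert _ _ ih =>
    intro h
    rw [sUnion_insert]
    exact hI.2.1 _ (h (mem_insert _ _)) _ (ih ((subset_insert _ _).trans h))

lemma IsIdeal.generates {I A : Set (Set ℕ)} (hI : IsIdeal I) (h : A ⊆ I) : Generates A :=
  fun _ hT hf => hI.compl_inf (hI.sUnion hf (hT.trans h))

lemma IsIdeal.inter {J0 J1 : Set (Set ℕ)} (h0 : IsIdeal J0) (h1 : IsIdeal J1) :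
    IsIdeal (J0 ∩ J1) :=
  ⟨fun a ha b hb => ⟨h0.1 a ha.1 b hb, h1.1 a ha.2 b hb⟩,
    fun a ha b hb => ⟨h0.2.1 a ha.1 b hb.1, h1.2.1 a ha.2 b hb.2⟩,
    fun a ha => ⟨h0.2.2.1 a ha, h1.2.2.1 a ha⟩, fun h => h0.2.2.2 h.1⟩

lemma IsIdeal.dsum {J0 J1 : Set (Set ℕ)} (h0 : IsIdeal J0) (h1 : IsIdeal J1) :
    IsIdeal (dsum J0 J1) := by
  refine ⟨fun a ha b hb => ⟨h0.1 _ ha.1 _ fun n hn => hb hn, h1.1 _ ha.2 _ fun n hn => hb hn⟩,
    fun a ha b hb => ⟨h0.2.1 _ ha.1 _ hb.1, h1.2.1 _ ha.2 _ hb.2⟩, fun a ha => ⟨?_, ?_⟩,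
    fun h => h0.2.2.2 (by simpa using h.1)⟩
  · exact h0.2.2.1 _ (ha.preimage (f := fun n => 2 * n) fun x _ y _ h => by
      simp only at h; omega)
  · exact h1.2.2.1 _ (ha.preimage (f := fun n => 2 * n + 1) fun x _ y _ h => by
      simp only at h; omega)

/-- lift of an ideal along a map. -/
def lift (π : ℕ → ℕ) (J : Set (Set ℕ)) : Set (Set ℕ) := {X | ∃ a ∈ J, (X \ π ⁻¹' a).Finite}

lemma IsIdeal.lift {J : Set (Set ℕ)} (hJ : IsIdeal J) {π : ℕ → ℕ} (hπ : Function.Surjective π) :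
    IsIdeal (lift π J) := by
  refine ⟨?_, ?_, ?_, ?_⟩
  · rintro X ⟨a, ha, hf⟩ Y hY
    exact ⟨a, ha, hf.subset (diff_subset_diff_left hY)⟩
  · rintro X ⟨a, ha, hf⟩ Y ⟨b, hb, hg⟩
    refine ⟨a ∪ b, hJ.2.1 _ ha _ hb, (hf.union hg).subset ?_⟩
    rintro k ⟨hk | hk, hn⟩
    · exact Or.inl ⟨hk, fun h => hn (Or.inl h)⟩
    · exact Or.inr ⟨hk, fun h => hn (Or.inr h)⟩
  · exact fun X hX => ⟨∅, hJ.2.2.1 _ finite_empty, hX.subset diff_subset⟩
  · rintro ⟨a, ha, hf⟩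
    refine hJ.compl_inf ha ((hf.image π).subset fun n hn => ?_)
    obtain ⟨k, rfl⟩ := hπ n
    exact ⟨k, ⟨trivial, hn⟩, rfl⟩

def p0 (k : ℕ) : ℕ := (Nat.unpair k).1
def p1 (k : ℕ) : ℕ := (Nat.unpair k).2

lemma p0_surj : Function.Surjective p0 := fun n => ⟨Nat.pair n 0, by simp [p0]⟩
lemma p1_surj : Function.Surjective p1 := fun n => ⟨Nat.pair 0 n, by simp [p1]⟩

lemma kat_dsum {A J : Set (Set ℕ)} (h : KatLE A J) : KatLE A (dsum (lift p0 J) (lift p1 J)) := by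
  obtain ⟨f, hf⟩ := h
  refine ⟨fun k => if k % 2 = 0 then f (p0 (k / 2)) else f (p1 (k / 2)), fun a ha =>
    ⟨⟨_, hf a ha, ?_⟩, ⟨_, hf a ha, ?_⟩⟩⟩
  · refine finite_empty.subset ?_
    rintro n ⟨h1, h2⟩
    have e1 : 2 * n % 2 = 0 := by omega
    have e2 : 2 * n / 2 = n := by omega
    simp only [mem_setOf_eq, mem_preimage, e1, e2, if_true] at h1
    exact h2 h1
  · refine finite_empty.subset ?_
    rintro n ⟨h1, h2⟩
    have e1 : ¬ (2 * n + 1) % 2 = 0 := by omega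
    have e2 : (2 * n + 1) / 2 = n := by omega
    simp only [mem_setOf_eq, mem_preimage, e1, e2, if_false] at h1
    exact h2 h1

lemma pseudo_count (B : ℕ → Set ℕ) (h : ∀ m, (⋂₀ (B '' Iio m)).Infinite) :
    ∃ Z : Set ℕ, Z.Infinite ∧ ∀ n, (Z \ B n).Finite := by
  choose z hz hlt using fun m => (h m).exists_gt m
  refine ⟨range z, ?_, fun n => ((finite_Iic n).image z).subset ?_⟩
  · refine infinite_of_forall_exists_gt fun a => ⟨z a, mem_range_self a, hlt a⟩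
  · rintro _ ⟨⟨m, rfl⟩, hm⟩
    refine ⟨m, ?_, rfl⟩
    by_contra hmn
    exact hm (hz m _ ⟨n, (not_le.1 (show ¬ m ≤ n from hmn) : n < m), rfl⟩)

lemma Tower.nonempty {F : Set (Set ℕ)} (hF : Tower F) : F.Nonempty := by
  by_contra h
  rw [not_nonempty_iff_eq_empty] at h
  exact hF.2.2 ⟨Set.univ, infinite_univ, by simp [h]⟩

lemma Tower.lower {F : Set (Set ℕ)} (hF : Tower F) {T : Set (Set ℕ)} (hT : T.Finite) :
    T ⊆ F → ∃ C ∈ F, (C \ ⋂₀ T).Finite := by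
  induction T, hT using Set.Finite.induction_on with
  | empty =>
    obtain ⟨C, hC⟩ := hF.nonempty
    exact fun _ => ⟨C, hC, by simp⟩
  | @insert B T _ _ ih =>
    intro h
    obtain ⟨C, hC, hf⟩ := ih ((subset_insert _ _).trans h)
    have hB := h (mem_insert _ _)
    rw [sInter_insert]
    rcases hF.2.1 B hB C hC with h1 | h1
    · refine ⟨B, hB, (h1.union hf).subset ?_⟩
      rintro x ⟨hx, hn⟩
      by_cases hxC : x ∈ C
      · exact Or.inr ⟨hxC, fun h => hn ⟨hx, h⟩⟩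
      · exact Or.inl ⟨hx, hxC⟩
    · refine ⟨C, hC, (h1.union hf).subset ?_⟩
      rintro x ⟨hx, hn⟩
      by_cases hxB : x ∈ B
      · exact Or.inr ⟨hx, fun h => hn ⟨hxB, h⟩⟩
      · exact Or.inl ⟨hx, hxB⟩

lemma Tower.sfip {F : Set (Set ℕ)} (hF : Tower F) {T : Set (Set ℕ)} (hTF : T ⊆ F)
    (hT : T.Finite) : (⋂₀ T).Infinite := by
  obtain ⟨C, hC, hf⟩ := hF.lower hT hTF
  intro h
  exact hF.1 C hC ((h.union hf).subset fun x hx => by
    by_cases h' : x ∈ ⋂₀ T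
    · exact Or.inl h'
    · exact Or.inr ⟨hx, h'⟩)

lemma Tower.sigma {F : Set (Set ℕ)} (hF : Tower F) (B : ℕ → Set ℕ) (hB : ∀ n, B n ∈ F) :
    ∃ C ∈ F, ∀ n, (C \ B n).Finite := by
  by_contra hcon
  push Not at hcon
  obtain ⟨Z, hZ, hz⟩ := pseudo_count B fun m =>
    hF.sfip (by rintro _ ⟨n, -, rfl⟩; exact hB n) ((finite_Iio m).image B)
  refine hF.2.2 ⟨Z, hZ, fun C hC => ?_⟩
  obtain ⟨n, hn⟩ := hcon C hC
  have := (hF.2.1 C hC (B n) (hB n)).resolve_left hn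
  refine ((hz n).union this).subset ?_
  rintro x ⟨hx, hxC⟩
  by_cases h' : x ∈ B n
  · exact Or.inr ⟨h', hxC⟩
  · exact Or.inl ⟨hx, h'⟩

lemma Tower.infinite {F : Set (Set ℕ)} (hF : Tower F) : F.Infinite := fun h =>
  hF.2.2 ⟨⋂₀ F, hF.sfip Subset.rfl h, fun B hB => finite_empty.subset fun _ hx => hx.2 (hx.1 B hB)⟩

lemma exists_tower : ∃ F, Tower F := by
  obtain ⟨F, hF⟩ := zorn_subset {F : Set (Set ℕ) | (∀ B ∈ F, B.Infinite) ∧
      ∀ B ∈ F, ∀ C ∈ F, (B \ C).Finite ∨ (C \ B).Finite} (by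
    intro c hc hch
    refine ⟨⋃₀ c, ⟨?_, ?_⟩, fun s hs => subset_sUnion_of_mem hs⟩
    · rintro B ⟨s, hs, hB⟩
      exact (hc hs).1 B hB
    · rintro B ⟨s, hs, hB⟩ C ⟨t, ht, hC⟩
      rcases hch.total hs ht with h | h
      · exact (hc ht).2 B (h hB) C hC
      · exact (hc hs).2 B hB C (h hC))
  refine ⟨F, hF.prop.1, hF.prop.2, ?_⟩
  rintro ⟨Z, hZ, hz⟩
  have hinj := Nat.nth_injective (p := (· ∈ Z)) hZ
  let Z' : Set ℕ := range fun k => Nat.nth (· ∈ Z) (2 * k)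
  have hZ' : Z'.Infinite := infinite_range_of_injective fun x y h => by
    have := hinj h; omega
  have hsub : Z' ⊆ Z := by
    rintro _ ⟨k, rfl⟩
    exact Nat.nth_mem_of_infinite (p := (· ∈ Z)) hZ _
  have hmem : Z' ∈ F := by
    have : insert Z' F ⊆ F := hF.le_of_ge (y := insert Z' F) ⟨?_, ?_⟩ (subset_insert _ _)
    · exact this (mem_insert _ _)
    · rintro B (rfl | hB)
      · exact hZ'
      · exact hF.prop.1 B hB
    · rintro B (rfl | hB) C (rfl | hC)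
      · left; simp
      · left; exact (hz C hC).subset (diff_subset_diff_left hsub)
      · right; exact (hz B hB).subset (diff_subset_diff_left hsub)
      · exact hF.prop.2 B hB C hC
  refine (infinite_range_of_injective (f := fun k => Nat.nth (· ∈ Z) (2 * k + 1))
    fun x y h => by have := hinj h; omega) ((hz Z' hmem).subset ?_)
  rintro _ ⟨k, rfl⟩
  refine ⟨Nat.nth_mem_of_infinite (p := (· ∈ Z)) hZ _, ?_⟩
  rintro ⟨l, hl⟩
  have := hinj hl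
  omega

/-- the test family of a tower. -/
def test (F : Set (Set ℕ)) : Set (Set ℕ) := compl '' F ∪ range Iio

def tideal (F : Set (Set ℕ)) : Set (Set ℕ) := {a | ∃ B ∈ F, (a ∩ B).Finite}

lemma Tower.tideal {F : Set (Set ℕ)} (hF : Tower F) : IsIdeal (tideal F) := by
  refine ⟨?_, ?_, ?_, ?_⟩
  · rintro a ⟨B, hB, hf⟩ b hb
    exact ⟨B, hB, hf.subset (inter_subset_inter_left _ hb)⟩
  · rintro a ⟨B, hB, hf⟩ b ⟨C, hC, hg⟩
    obtain ⟨D, hD, hd⟩ := hF.lower (T := {B, C}) (toFinite _)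
      (by rintro _ (rfl | rfl) <;> assumption)
    refine ⟨D, hD, ((hf.union hg).union hd).subset ?_⟩
    rintro x ⟨hx, hxD⟩
    by_cases h : x ∈ ⋂₀ ({B, C} : Set (Set ℕ))
    · rcases hx with hx | hx
      · exact Or.inl (Or.inl ⟨hx, h B (by simp)⟩)
      · exact Or.inl (Or.inr ⟨hx, h C (by simp)⟩)
    · exact Or.inr ⟨hxD, h⟩
  · obtain ⟨B, hB⟩ := hF.nonempty
    exact fun a ha => ⟨B, hB, ha.subset inter_subset_left⟩
  · rintro ⟨B, hB, hf⟩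
    exact hF.1 B hB (by simpa using hf)

lemma Tower.test_sub {F : Set (Set ℕ)} (hF : Tower F) : test F ⊆ KT1.tideal F := by
  rintro _ (⟨B, hB, rfl⟩ | ⟨m, rfl⟩)
  · exact ⟨B, hB, by simp⟩
  · exact hF.tideal.2.2.1 _ (finite_Iio m)

lemma Tower.not_kat {F J : Set (Set ℕ)} (hF : Tower F) (hJ : IsIdeal J) :
    ¬ KatLE (test F) (lift p0 J ∩ lift p1 J) := by
  rintro ⟨f, hf⟩
  let R : ℕ → Set ℕ := fun n => range fun m => f (Nat.pair n m)
  have hR : ∀ n, (R n).Infinite := by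
    intro n hfin
    obtain ⟨M, hM⟩ := hfin.bddAbove
    obtain ⟨a, ha, hE⟩ := (hf (Iio (M + 1)) (Or.inr ⟨_, rfl⟩)).2
    refine hJ.compl_inf ha ((hE.image p1).subset fun m hm => ⟨Nat.pair n m, ⟨?_, ?_⟩, ?_⟩)
    · exact Nat.lt_succ_of_le (hM ⟨m, rfl⟩)
    · simpa [p1] using hm
    · simp [p1]
  have : ∀ n, ∃ B ∈ F, ¬ (R n \ B).Finite := by
    intro n
    by_contra h
    push Not at h
    exact hF.2.2 ⟨R n, hR n, h⟩
  choose B hB hRB using this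
  obtain ⟨C, hC, hCB⟩ := hF.sigma B hB
  obtain ⟨a, ha, hE⟩ := (hf Cᶜ (Or.inl ⟨C, hC, rfl⟩)).1
  obtain ⟨n, hna, hnE⟩ := ((hJ.compl_inf ha).diff (hE.image p0)).nonempty
  refine hRB n ((hCB n).subset (diff_subset_diff_left ?_))
  rintro _ ⟨m, rfl⟩
  by_contra h
  exact hnE ⟨Nat.pair n m, ⟨h, by simpa [p0] using hna⟩, by simp [p0]⟩

lemma Tower.card_test {F : Set (Set ℕ)} (hF : Tower F) : #(test F) ≤ #F := by
  have h0 : ℵ₀ ≤ #F := infinite_iff.1 hF.infinite.to_subtype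
  refine (mk_union_le _ _).trans ?_
  refine (add_le_add mk_image_le (mk_range_le.trans (by simpa using h0))).trans ?_
  rw [add_eq_self h0]

/-! ### independent functions -/

abbrev D : Type := Σ n : ℕ, ((Fin n → Bool) → ℕ)

instance : Infinite D := Infinite.of_injective (fun n => (⟨n, fun _ => 0⟩ : D))
  fun _ _ h => congrArg Sigma.fst h

noncomputable def e : ℕ ≃ D := (nonempty_equiv_of_countable (α := ℕ) (β := D)).some

noncomputable def ind (x : ℕ → Bool) (k : ℕ) : ℕ := (e k).2 fun i => x i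

lemma indep {Λ : Type*} {r : Λ → ℕ → Bool} (hr : Function.Injective r) {L : Set Λ}
    (hL : L.Finite) (v : Λ → ℕ) : {k | ∀ l ∈ L, ind (r l) k = v l}.Infinite := by
  classical
  have hsep : ∀ p : Λ × Λ, ∃ i, p.1 ≠ p.2 → r p.1 i ≠ r p.2 i := by
    intro p
    by_cases h : p.1 = p.2
    · exact ⟨0, fun h' => absurd h h'⟩
    · obtain ⟨i, hi⟩ := Function.ne_iff.1 (hr.ne h)
      exact ⟨i, fun _ => hi⟩
  choose s hs using hsep
  obtain ⟨N, hN⟩ := ((hL.prod hL).image s).bddAbove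
  let g : ∀ n : ℕ, (Fin n → Bool) → ℕ := fun n t =>
    if h : ∃ l ∈ L, (fun i : Fin n => r l i) = t then v h.choose else 0
  refine (infinite_range_of_injective (f := fun n => e.symm ⟨N + 1 + n, g _⟩) ?_).mono ?_
  · intro x y h
    have := congrArg Sigma.fst (e.symm.injective h)
    simpa using this
  · rintro _ ⟨n, rfl⟩ l hl
    have h : ∃ l' ∈ L, (fun i : Fin (N + 1 + n) => r l' i) = fun i : Fin (N + 1 + n) => r l i :=
      ⟨l, hl, rfl⟩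
    have : h.choose = l := by
      by_contra hne
      have h1 := hN ⟨(h.choose, l), ⟨h.choose_spec.1, hl⟩, rfl⟩
      exact hs (h.choose, l) hne
        (congrFun h.choose_spec.2 ⟨s (h.choose, l), by omega⟩)
    unfold ind
    rw [Equiv.apply_symm_apply]
    simp only [g, dif_pos h, this]

lemma mk_cantor : #(ℕ → Bool) = 𝔠 := by simp
lemma mk_baire : #(ℕ → ℕ) = 𝔠 := by simp

/-- an ideal Katetov-above every small family generating an ideal. -/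
lemma exists_big {κ : Cardinal.{0}} (h0 : ℵ₀ ≤ κ) (hκ : 2 ^ κ ≤ 𝔠) :
    ∃ J, IsIdeal J ∧ ∀ A, Generates A → #A ≤ κ → KatLE A J := by
  let Λ := {A : Set (Set ℕ) // #A ≤ κ ∧ Generates A}
  have hΛ : #Λ ≤ #(ℕ → Bool) := by
    have h1 : #Λ ≤ #{A : Set (Set ℕ) // #A ≤ κ} :=
      mk_le_of_injective (f := fun A => ⟨A.1, A.2.1⟩) fun _ _ h =>
        Subtype.ext (congrArg (fun B : {A : Set (Set ℕ) // #A ≤ κ} => B.1) h)
    refine h1.trans ((mk_bounded_set_le _ _).trans ?_)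
    rw [mk_cantor]
    have : max #(Set ℕ) ℵ₀ = 𝔠 := by simp [aleph0_le_continuum]
    rw [this, ← two_power_aleph0, ← power_mul, aleph0_mul_eq h0]
    exact hκ
  obtain ⟨r⟩ := (Cardinal.le_def _ _).1 hΛ
  refine ⟨{X | ∃ P : Set (Λ × Set ℕ), P.Finite ∧ (∀ p ∈ P, p.2 ∈ p.1.1) ∧
    (X \ ⋃ p ∈ P, ind (r p.1) ⁻¹' p.2).Finite}, ⟨?_, ?_, ?_, ?_⟩, ?_⟩
  · rintro X ⟨P, h1, h2, h3⟩ Y hY
    exact ⟨P, h1, h2, h3.subset (diff_subset_diff_left hY)⟩
  · rintro X ⟨P, h1, h2, h3⟩ Y ⟨Q, g1, g2, g3⟩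
    refine ⟨P ∪ Q, h1.union g1, fun p hp => hp.elim (h2 p) (g2 p), (h3.union g3).subset ?_⟩
    rw [biUnion_union]
    rintro k ⟨hk | hk, hn⟩
    · exact Or.inl ⟨hk, fun h => hn (Or.inl h)⟩
    · exact Or.inr ⟨hk, fun h => hn (Or.inr h)⟩
  · exact fun X hX => ⟨∅, finite_empty, by simp, hX.subset diff_subset⟩
  · rintro ⟨P, h1, h2, h3⟩
    have : ∀ l : Λ, ∃ v, v ∉ ⋃₀ (Prod.snd '' {p ∈ P | p.1 = l}) := fun l =>
      (l.2.2 _ (by rintro _ ⟨p, ⟨hp, rfl⟩, rfl⟩; exact h2 p hp)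
        ((h1.subset (sep_subset _ _)).image _)).nonempty
    choose v hv using this
    refine indep r.injective (h1.image Prod.fst) v (h3.subset fun k hk => ⟨trivial, ?_⟩)
    intro h
    obtain ⟨p, hp, hk'⟩ := mem_iUnion₂.1 h
    refine hv p.1 ⟨p.2, ⟨p, ⟨hp, rfl⟩, rfl⟩, ?_⟩
    rw [← hk p.1 ⟨p, hp, rfl⟩]
    exact hk'
  · intro A hA hc
    refine ⟨ind (r ⟨A, hc, hA⟩), fun a ha => ⟨{(⟨A, hc, hA⟩, a)}, finite_singleton _, ?_, ?_⟩⟩
    · rintro _ rfl; exact ha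
    · simp

/-- if `2 ^ κ > 𝔠` no ideal is Katetov-above all families of size at most `κ`. -/
lemma exists_bad {κ : Cardinal.{0}} (h0 : κ ≤ 𝔠) (hκ : 𝔠 < 2 ^ κ) {J : Set (Set ℕ)}
    (hJ : IsIdeal J) : ∃ A, Generates A ∧ #A ≤ κ ∧ ¬ KatLE A J := by
  by_contra hcon
  push Not at hcon
  obtain ⟨r⟩ := (Cardinal.le_def κ.out (ℕ → Bool)).1 (by rw [mk_out, mk_cantor]; exact h0)
  let A : (κ.out → Bool) → Set (Set ℕ) := fun φ =>
    range fun l => {k | ind (r l) k ≠ (φ l).toNat}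
  have hA : ∀ φ, KatLE (A φ) J := by
    intro φ
    refine hcon _ ?_ (mk_range_le.trans (by simp))
    intro T hT hf
    rw [show A φ = (fun l => {k | ind (r l) k ≠ (φ l).toNat}) '' Set.univ by simp [A]] at hT
    obtain ⟨L, -, hL, rfl⟩ := (exists_subset_image_finite_and (p := fun s => s = T)).1
      ⟨T, hT, hf, rfl⟩
    refine (indep r.injective hL fun l => (φ l).toNat).mono ?_
    rintro k hk ⟨_, ⟨l, hl, rfl⟩, h⟩
    exact h (hk l hl)
  choose g hg using hA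
  have hinj : Function.Injective g := by
    intro φ ψ h
    funext l
    by_contra hne
    have h1 := hg φ _ ⟨l, rfl⟩
    have h2 := hg ψ _ ⟨l, rfl⟩
    rw [← h] at h2
    refine hJ.2.2.2 (hJ.1 _ (hJ.2.1 _ h1 _ h2) _ fun k _ => ?_)
    by_contra hk
    simp only [mem_union, mem_preimage, mem_setOf_eq, not_or, not_not] at hk
    have := hk.1.symm.trans hk.2
    revert this hne
    cases φ l <;> cases ψ l <;> simp
  have := mk_le_of_injective hinj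
  rw [mk_baire] at this
  simp only [mk_pi, mk_fintype, Fintype.card_bool, Nat.cast_ofNat, prod_const, lift_id,
    mk_out] at this
  exact absurd hκ (not_lt.2 (by simpa using this))

lemma noPseudo_of_not_kat {A J : Set (Set ℕ)} (hJ : IsIdeal J) (h : ¬ KatLE A J) :
    NoPseudo (compl '' A) := by
  rintro ⟨Z, hZ, hz⟩
  refine h ⟨Nat.nth (· ∈ Z), fun a ha => hJ.2.2.1 _ ?_⟩
  refine ((hz _ ⟨a, ha, rfl⟩).preimage (Nat.nth_injective (p := (· ∈ Z)) hZ).injOn).subset ?_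
  intro k hk
  exact ⟨Nat.nth_mem_of_infinite (p := (· ∈ Z)) hZ _, fun h => h hk⟩

lemma sfip_of_generates {A : Set (Set ℕ)} (h : Generates A) :
    ∀ T ⊆ compl '' A, T.Finite → (⋂₀ T).Infinite := by
  intro T hT hf
  obtain ⟨L, hLA, hL, rfl⟩ := (exists_subset_image_finite_and (p := fun s => s = T)).1
    ⟨T, hT, hf, rfl⟩
  have := h L hLA hL
  rwa [compl_sUnion] at this

end Pool.Agent.H39.KT1
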