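import Mathlib
import Pool.Agent.H39.KT1

namespace Pool.Agent.H39.KT2

open Set Cardinal

/-- A proper ideal of subsets of `ω` containing all finite sets. -/
def IsIdeal (I : Set (Set ℕ)) : Prop :=
  (∀ a ∈ I, ∀ b ⊆ a, b ∈ I) ∧ (∀ a ∈ I, ∀ b ∈ I, a ∪ b ∈ I) ∧ (∀ a : Set ℕ, a.Finite → a ∈ I) ∧
    Set.univ ∉ I

/-- `J0 ⊕ J1`, moved to `ω` by `(0, n) ↦ 2 n`, `(1, n) ↦ 2 n + 1`. -/
def dsum (J0 J1 : Set (Set ℕ)) : Set (Set ℕ) :=
  {A | {n | 2 * n ∈ A} ∈ J0 ∧ {n | 2 * n + 1 ∈ A} ∈ J1}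

/-- Katetov order. -/
def KatLE (A J : Set (Set ℕ)) : Prop := ∃ f : ℕ → ℕ, ∀ a ∈ A, f ⁻¹' a ∈ J

/-- No finite union of members of `A` is cofinite. -/
def Generates (A : Set (Set ℕ)) : Prop := ∀ T ⊆ A, T.Finite → (⋃₀ T)ᶜ.Infinite

/-- `p_K(I, J)`; the minimum over the empty set is `⊤ = ∞`. -/
noncomputable def pK (I J : Set (Set ℕ)) : WithTop Cardinal.{0} :=
  sInf {c | ∃ A ⊆ I, ¬ KatLE A J ∧ c = ((#A : Cardinal.{0}) : WithTop Cardinal.{0})}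

/-- `p_K(⋆, J)`. -/
noncomputable def pKstar (J : Set (Set ℕ)) : WithTop Cardinal.{0} :=
  sInf {c | ∃ A, Generates A ∧ ¬ KatLE A J ∧ c = ((#A : Cardinal.{0}) : WithTop Cardinal.{0})}

/-- `F` has no infinite pseudo-intersection. -/
def NoPseudo (F : Set (Set ℕ)) : Prop := ¬ ∃ Z : Set ℕ, Z.Infinite ∧ ∀ B ∈ F, (Z \ B).Finite

/-- The pseudo-intersection number `𝔭`. -/
noncomputable def pNum : Cardinal.{0} :=
  sInf {c | ∃ F : Set (Set ℕ), (∀ T ⊆ F, T.Finite → (⋂₀ T).Infinite) ∧ NoPseudo F ∧ c = #F}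

/-- The tower number `𝔱`: least size of a `⊆*`-chain of infinite sets without an infinite
pseudo-intersection. -/
noncomputable def tNum : Cardinal.{0} :=
  sInf {c | ∃ F : Set (Set ℕ), ((∀ B ∈ F, B.Infinite) ∧
    (∀ B ∈ F, ∀ C ∈ F, (B \ C).Finite ∨ (C \ B).Finite) ∧ NoPseudo F) ∧ c = #F}

/-- Statement (ii). -/
def StatementII : Prop :=
  ∀ I J0 J1, IsIdeal I → IsIdeal J0 → IsIdeal J1 → pK I (J0 ∩ J1) = pK I (dsum J0 J1)

/-- Statement (iv). -/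
def StatementIV : Prop :=
  ∀ J0 J1, IsIdeal J0 → IsIdeal J1 → pKstar (J0 ∩ J1) = pKstar (dsum J0 J1)

lemma pKstar_le {A J : Set (Set ℕ)} (h1 : Generates A) (h2 : ¬ KatLE A J) :
    pKstar J ≤ ((#A : Cardinal.{0}) : WithTop Cardinal.{0}) := sInf_le ⟨A, h1, h2, rfl⟩

open Pool.Agent.H39 in
lemma pKstar_eq (h : 𝔠 < 2 ^ pNum) {J : Set (Set ℕ)} (hJ : IsIdeal J) :
    pKstar J = (pNum : WithTop Cardinal.{0}) := by
  have hle : ∀ F : Set (Set ℕ), (∀ T ⊆ F, T.Finite → (⋂₀ T).Infinite) → NoPseudo F →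
      pNum ≤ #F := fun F h1 h2 => csInf_le' ⟨F, h1, h2, rfl⟩
  apply le_antisymm
  · obtain ⟨F, hF⟩ := KT1.exists_tower
    have hc : pNum ≤ 𝔠 := (hle F (fun T hT hf => hF.sfip hT hf) hF.2.2).trans
      ((mk_set_le F).trans (by simp))
    obtain ⟨A, h1, h2, h3⟩ := KT1.exists_bad hc h hJ
    exact (pKstar_le h1 h3).trans (WithTop.coe_le_coe.2 h2)
  · refine le_sInf ?_
    rintro _ ⟨A, h1, h2, rfl⟩
    exact WithTop.coe_le_coe.2 ((hle _ (KT1.sfip_of_generates h1)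
      (KT1.noPseudo_of_not_kat hJ h2)).trans mk_image_le)

open Pool.Agent.H39 in
/-- (ii) is false; (iv) fails if `2 ^ 𝔱 = 𝔠` and holds if `2 ^ 𝔭 > 𝔠`. -/
theorem both :
    ¬ StatementII ∧ (2 ^ tNum ≤ 𝔠 → ¬ StatementIV) ∧ (𝔠 < 2 ^ pNum → StatementIV) := by
  refine ⟨fun h => ?_, fun hc h => ?_, fun hc J0 J1 h0 h1 => ?_⟩
  · obtain ⟨F, hF⟩ := KT1.exists_tower
    have hI := hF.tideal
    have e := h _ _ _ hI (hI.lift KT1.p0_surj) (hI.lift KT1.p1_surj)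
    have h1 : pK (KT1.tideal F) (KT1.lift KT1.p0 (KT1.tideal F) ∩ KT1.lift KT1.p1 (KT1.tideal F))
        ≤ ((#(KT1.test F) : Cardinal.{0}) : WithTop Cardinal.{0}) :=
      sInf_le ⟨_, hF.test_sub, hF.not_kat hI, rfl⟩
    have h2 : ⊤ ≤ pK (KT1.tideal F)
        (dsum (KT1.lift KT1.p0 (KT1.tideal F)) (KT1.lift KT1.p1 (KT1.tideal F))) := by
      refine le_sInf ?_
      rintro _ ⟨A, hA, hn, rfl⟩
      exact absurd (KT1.kat_dsum ⟨id, fun a ha => hA ha⟩) hn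
    rw [← e] at h2
    exact WithTop.not_top_le_coe _ (h2.trans h1)
  · obtain ⟨F0, hF0⟩ := KT1.exists_tower
    have hmem := csInf_mem (s := {c | ∃ F : Set (Set ℕ), ((∀ B ∈ F, B.Infinite) ∧
      (∀ B ∈ F, ∀ C ∈ F, (B \ C).Finite ∨ (C \ B).Finite) ∧ NoPseudo F) ∧ c = #F})
      ⟨_, F0, hF0, rfl⟩
    obtain ⟨F, hF, hcard⟩ := hmem
    have hF : KT1.Tower F := hF
    have hcard : tNum = #F := hcard
    rw [hcard] at hc
    obtain ⟨J, hJ, hbig⟩ := KT1.exists_big (infinite_iff.1 hF.infinite.to_subtype) hc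
    have e := h _ _ (hJ.lift KT1.p0_surj) (hJ.lift KT1.p1_surj)
    have h1 : pKstar (KT1.lift KT1.p0 J ∩ KT1.lift KT1.p1 J)
        ≤ ((#F : Cardinal.{0}) : WithTop Cardinal.{0}) :=
      (pKstar_le (hF.tideal.generates hF.test_sub) (hF.not_kat hJ)).trans
        (WithTop.coe_le_coe.2 hF.card_test)
    have h2 : ((Order.succ #F : Cardinal.{0}) : WithTop Cardinal.{0}) ≤
        pKstar (dsum (KT1.lift KT1.p0 J) (KT1.lift KT1.p1 J)) := by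
      refine le_sInf ?_
      rintro _ ⟨A, hA, hn, rfl⟩
      refine WithTop.coe_le_coe.2 (Order.succ_le_of_lt (not_le.1 fun hle => hn ?_))
      exact KT1.kat_dsum (hbig A hA hle)
    rw [← e] at h2
    exact absurd (WithTop.coe_le_coe.1 (h2.trans h1)) (not_le.2 (Order.lt_succ _))
  · exact (pKstar_eq hc (KT1.IsIdeal.inter h0 h1)).trans
      (pKstar_eq hc (KT1.IsIdeal.dsum h0 h1)).symm

end Pool.Agent.H39.KT2
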