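import Mathlib
import Pool.Agent.H39.NonBorel

set_option autoImplicit false

namespace Pool.Agent.H39.L2Tame

open Set Filter Topology MeasureTheory Pool.Agent.H39.NonBorel

abbrev G : Type := lp (fun _ : ℕ => ℝ) 2

noncomputable def e : List ℕ ≃ ℕ := Denumerable.eqv (List ℕ)

noncomputable def v (g : G) (s : List ℕ) : ℝ := 2 ^ s.length * g (e s)

def Nul (w : List ℕ → ℝ) : Prop := ∀ s, Tendsto (fun m => w (m :: s)) atTop (𝓝 0)

theorem nul_v (g : G) : Nul (v g) := by
  intro s
  have h1 : Summable fun i => ‖g i‖ ^ (2 : ENNReal).toReal :=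
    (lp.memℓp g).summable (by norm_num)
  have h2 := h1.tendsto_cofinite_zero
  have h3 : Tendsto (fun i => g i) cofinite (𝓝 0) := by
    rw [tendsto_zero_iff_norm_tendsto_zero]
    have h4 := (Real.continuous_sqrt.tendsto 0).comp h2
    rw [Real.sqrt_zero] at h4
    refine h4.congr fun i => ?_
    simp [Real.sqrt_sq_eq_abs]
  have h5 : Function.Injective fun m : ℕ => e (m :: s) := fun a b h => by
    simpa using h
  have h6 := (h3.comp h5.tendsto_cofinite).const_mul ((2 : ℝ) ^ (s.length + 1))
  rw [Nat.cofinite_eq_atTop, mul_zero] at h6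
  exact h6

theorem Nul.add {w w' : List ℕ → ℝ} (h : Nul w) (h' : Nul w') : Nul (w + w') := fun s => by
  simpa using (h s).add (h' s)

noncomputable def R (w : List ℕ → ℝ) (s : List ℕ) : ℝ := (round (w s) : ℤ)

theorem Nul.ev {w : List ℕ → ℝ} (h : Nul w) (s : List ℕ) :
    ∀ᶠ m in atTop, R w (m :: s) = 0 := by
  have h1 : Ioo (-(1 / 2) : ℝ) (1 / 2) ∈ 𝓝 (0 : ℝ) := Ioo_mem_nhds (by norm_num) (by norm_num)
  filter_upwards [h s h1] with m hm
  have : round (w (m :: s)) = 0 := round_eq_zero_iff.2 ⟨hm.1.le, hm.2⟩
  simp [R, this]

theorem Nul.sub_R {w : List ℕ → ℝ} (h : Nul w) : Nul (w - R w) := fun s => by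
  refine (h s).congr' ?_
  filter_upwards [h.ev s] with m hm
  simp [hm]

theorem Nul.summable {w : List ℕ → ℝ} (h : Nul w) (s : List ℕ) :
    Summable fun m => R w (m :: s) := by
  refine summable_of_hasFiniteSupport ?_
  have := h.ev s
  rw [← Nat.cofinite_eq_atTop, eventually_cofinite] at this
  exact this

abbrev K := (List ℕ → ℝ) × (List ℕ → ℝ) × ℝ

noncomputable def ψ (T : List ℕ → Bool) (z : List ℕ → ℝ) : K :=
  (fun s => z s - ∑' m, z (m :: s), fun s => if T s = true then 0 else z s, z [])

theorem ψ_add (T : List ℕ → Bool) {z z' : List ℕ → ℝ} (h : ∀ s, Summable fun m => z (m :: s))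
    (h' : ∀ s, Summable fun m => z' (m :: s)) : ψ T (z + z') = ψ T z + ψ T z' := by
  refine Prod.ext (funext fun s => ?_) (Prod.ext (funext fun s => ?_) rfl)
  · simp only [ψ, Pi.add_apply, Prod.fst_add]
    rw [(h s).tsum_add (h' s)]
    ring
  · simp only [ψ, Pi.add_apply, Prod.snd_add, Prod.fst_add]
    split_ifs <;> simp

theorem ψ_zero (T : List ℕ → Bool) : ψ T 0 = 0 := by
  refine Prod.ext (funext fun s => ?_) (Prod.ext (funext fun s => ?_) rfl) <;> simp [ψ]

def D : Set (List ℕ → ℝ) := {d | Nul d ∧ ∀ s, round (d s) = 0}

theorem measurable_rnd : Measurable fun t : ℝ => round t := by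
  simp only [round_eq]
  exact Measurable.floor (by fun_prop)

theorem measurableSet_D : MeasurableSet D := by
  have h1 : D = (⋂ s, {d : List ℕ → ℝ | Tendsto (fun m => d (m :: s)) atTop (𝓝 0)}) ∩
      ⋂ s, (fun d : List ℕ → ℝ => round (d s)) ⁻¹' {0} := by
    ext d
    simp [D, Nul]
  rw [h1]
  refine (MeasurableSet.iInter fun s => ?_).inter (MeasurableSet.iInter fun s => ?_)
  · exact measurableSet_tendsto (𝓝 0) fun m => measurable_pi_apply _
  · exact (measurable_rnd.comp (measurable_pi_apply s)) (measurableSet_singleton _)

instance : StandardBorelSpace D := measurableSet_D.standardBorel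

theorem mem_D {w : List ℕ → ℝ} (h : Nul w) : w - R w ∈ D :=
  ⟨h.sub_R, fun s => by simp [R]⟩

def X : Type := D × (List ℕ → Bool) × K

instance : MeasurableSpace X := inferInstanceAs (MeasurableSpace (D × (List ℕ → Bool) × K))

instance : StandardBorelSpace X :=
  inferInstanceAs (StandardBorelSpace (D × (List ℕ → Bool) × K))

noncomputable def act (g : G) (x : X) : X :=
  (⟨x.1.1 + v g - R (x.1.1 + v g), mem_D (x.1.2.1.add (nul_v g))⟩, x.2.1,
    x.2.2 + ψ x.2.1 (R (x.1.1 + v g)))

theorem v_zero : v 0 = 0 := by
  funext s
  simp [v]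

theorem v_add (g h : G) : v (g + h) = v g + v h := by
  funext s
  simp [v, mul_add]

theorem R_sub (w w' : List ℕ → ℝ) : R (w' - R w) = R w' - R w := by
  funext s
  simp [R]

noncomputable instance : AddAction G X where
  vadd := act
  zero_vadd x := by
    change act 0 x = x
    have h : R x.1.1 = 0 := by
      funext s
      simp [R, x.1.2.2 s]
    refine Prod.ext (Subtype.ext ?_) (Prod.ext rfl ?_)
    · simp [act, v_zero, h]
    · simp [act, v_zero, h, ψ_zero]
  add_vadd g h x := by
    change act (g + h) x = act g (act h x)
    have h1 : x.1.1 + v h - R (x.1.1 + v h) + v g = (x.1.1 + v (g + h)) - R (x.1.1 + v h) := by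
      rw [v_add]; abel
    refine Prod.ext (Subtype.ext ?_) (Prod.ext rfl ?_)
    · simp only [act]
      rw [h1, R_sub]
      abel
    · simp only [act]
      rw [h1, add_assoc, ← ψ_add _ (x.1.2.1.add (nul_v h)).summable]
      · rw [R_sub]
        congr 2
        abel
      · intro s
        rw [R_sub]
        exact ((x.1.2.1.add (nul_v (g + h))).summable s).sub ((x.1.2.1.add (nul_v h)).summable s)

theorem measurable_act [MeasurableSpace G] [BorelSpace G] :
    Measurable fun p : G × X => p.1 +ᵥ p.2 := by
  change Measurable fun p : G × X => act p.1 p.2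
  have hd : Measurable fun p : G × X => p.2.1.1 :=
    measurable_subtype_coe.comp (measurable_fst.comp measurable_snd)
  have hT : Measurable fun p : G × X => p.2.2.1 :=
    measurable_fst.comp (measurable_snd.comp measurable_snd)
  have hk : Measurable fun p : G × X => p.2.2.2 :=
    measurable_snd.comp (measurable_snd.comp measurable_snd)
  have hw : ∀ s, Measurable fun p : G × X => (p.2.1.1 + v p.1) s := by
    intro s
    have h1 : Continuous fun g : G => g (e s) :=
      (continuous_apply (e s)).comp lp.uniformContinuous_coe.continuous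
    exact ((measurable_pi_apply s).comp hd).add
      ((h1.measurable.comp measurable_fst).const_mul _)
  have hR : ∀ s, Measurable fun p : G × X => R (p.2.1.1 + v p.1) s := fun s =>
    (measurable_of_countable (fun z : ℤ => (z : ℝ))).comp (measurable_rnd.comp (hw s))
  refine Measurable.prodMk (Measurable.subtype_mk ?_) (hT.prodMk (hk.add ?_))
  · exact measurable_pi_lambda _ fun s => (hw s).sub (hR s)
  · refine Measurable.prodMk (measurable_pi_lambda _ fun s => ?_)
      (Measurable.prodMk (measurable_pi_lambda _ fun s => ?_) (hR []))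
    · exact (hR s).sub (Measurable.tsum fun m => hR (m :: s))
    · exact Measurable.ite (((measurable_pi_apply s).comp hT) (measurableSet_singleton true))
        measurable_const (hR s)

def zeroD : D := ⟨0, fun _ => tendsto_const_nhds, fun _ => by simp⟩

theorem key (T : List ℕ → Bool) :
    (∃ g : G, g +ᵥ (show X from (zeroD, T, 0)) = (show X from (zeroD, T, (0, 0, 1)))) ↔
      T ∈ IF := by
  classical
  constructor
  · rintro ⟨g, hg⟩
    have h1 : (0 : K) + ψ T (R (zeroD.1 + v g)) = (0, 0, 1) := congrArg (fun x : X => x.2.2) hg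
    set z := R (zeroD.1 + v g) with hz
    rw [zero_add] at h1
    have h2 : ∀ s, z s = ∑' m, z (m :: s) := fun s =>
      sub_eq_zero.1 (congrFun (congrArg Prod.fst h1) s)
    have h3 : ∀ s, z s ≠ 0 → T s = true := by
      intro s hs
      by_contra h
      have := congrFun (congrArg (fun k : K => k.2.1) h1) s
      simp only [ψ, if_neg h] at this
      exact hs this
    have h4 : z [] = 1 := congrArg (fun k : K => k.2.2) h1
    obtain ⟨y, hy⟩ := exists_branch (P := fun s => z s ≠ 0) (by simp [h4]) (by
      intro s hs
      by_contra h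
      push Not at h
      apply hs
      rw [h2]
      simp [h])
    exact ⟨y, fun n => h3 _ (hy n)⟩
  · rintro ⟨y, hy⟩
    let z : List ℕ → ℝ := fun s => if s = res y s.length then 1 else 0
    let f : ℕ → ℝ := fun i => z (e.symm i) / 2 ^ (e.symm i).length
    have hinj : Function.Injective fun n => e (res y n) := fun a b h => by
      have := congrArg List.length (e.injective h)
      simpa using this
    have hf : Memℓp f 2 := by
      refine memℓp_gen ?_
      rw [← hinj.summable_iff]
      · have : ((fun i => ‖f i‖ ^ (2 : ENNReal).toReal) ∘ fun n => e (res y n))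
            = fun n => (1 / 4 : ℝ) ^ n := by
          funext n
          simp only [Function.comp, f, z, Equiv.symm_apply_apply, length_res, if_true]
          simp only [ENNReal.toReal_ofNat, Real.rpow_ofNat, norm_div, norm_one, norm_pow,
            Real.norm_ofNat, div_pow, one_pow]
          rw [← pow_mul, mul_comm, pow_mul]
          norm_num
        rw [this]
        exact summable_geometric_of_lt_one (by norm_num) (by norm_num)
      · intro i hi
        have : z (e.symm i) = 0 := by
          simp only [z]
          rw [if_neg]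
          intro h
          exact hi ⟨_, by simp only; rw [← h]; simp⟩
        simp [f, this]
    let g : G := ⟨f, hf⟩
    have hv : v g = z := by
      funext s
      change 2 ^ s.length * (z (e.symm (e s)) / 2 ^ (e.symm (e s)).length) = z s
      rw [Equiv.symm_apply_apply]
      field_simp
    have hR : R z = z := by
      funext s
      simp only [R, z]
      split_ifs <;> simp
    refine ⟨g, ?_⟩
    change act g _ = _
    refine Prod.ext (Subtype.ext ?_) (Prod.ext rfl ?_)
    · simp [act, zeroD, hv, hR]
    · simp only [act, zeroD, hv, zero_add, hR]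
      refine Prod.ext (funext fun s => ?_) (Prod.ext (funext fun s => ?_) ?_)
      · simp only [ψ, Pi.zero_apply]
        rw [tsum_eq_single (y s.length)]
        · simp [z]
        · intro m hm
          simp [z, hm]
      · simp only [ψ, Pi.zero_apply]
        split_ifs with h
        · rfl
        · simp only [z]
          rw [if_neg]
          intro h'
          exact h (by rw [h']; exact hy _)
      · simp [ψ, z]

theorem not_measurable : ¬ MeasurableSet {p : X × X | ∃ g : G, g +ᵥ p.1 = p.2} := by
  intro h
  have h1 : Measurable fun T : List ℕ → Bool =>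
      ((show X from (zeroD, T, 0)), (show X from (zeroD, T, (0, 0, 1)))) :=
    (measurable_const.prodMk (measurable_id.prodMk measurable_const)).prodMk
      (measurable_const.prodMk (measurable_id.prodMk measurable_const))
  refine not_measurableSet_IF ?_
  convert h1 h using 1
  ext T
  exact (key T).symm

end Pool.Agent.H39.L2Tame
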