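import Mathlib

set_option autoImplicit false

namespace Pool.Agent.H39.LN

open Set Filter Topology MeasureTheory TopologicalSpace

section
variable {X Y : Type} [MetricSpace X] [CompleteSpace X] [SecondCountableTopology X]
  [MeasurableSpace X] [BorelSpace X] [TopologicalSpace Y] [PolishSpace Y] [MeasurableSpace Y]
  [BorelSpace Y] {f : X → Y}

theorem reflect (hf : Continuous f) {C : Set X} (hC : AnalyticSet C) (hi : InjOn f C) :
    ∃ C', MeasurableSet C' ∧ InjOn f C' ∧ C ⊆ C' := by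
  have h1 : ∀ V : Set X, IsOpen V → ∃ D, f '' (C ∩ V) ⊆ D ∧ Disjoint (f '' (C ∩ Vᶜ)) D ∧
      MeasurableSet D := by
    intro V hV
    have h2 : ∀ W : Set X, MeasurableSet W → AnalyticSet (f '' (C ∩ W)) := fun W hW => by
      refine AnalyticSet.image_of_continuous ?_ hf
      rw [inter_eq_iInter]
      exact AnalyticSet.iInter fun b => by cases b; exacts [hW.analyticSet, hC]
    refine (h2 V hV.measurableSet).measurablySeparable (h2 _ hV.measurableSet.compl) ?_
    refine disjoint_left.2 ?_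
    rintro _ ⟨x, hx, rfl⟩ ⟨x', hx', h⟩
    exact hx'.2 (hi hx'.1 hx.1 h ▸ hx.2)
  choose! D h2 h3 h4 using h1
  refine ⟨⋂ V ∈ countableBasis X, {x | x ∈ V ↔ f x ∈ D V}, ?_, fun x hx y hy h => ?_,
    fun x hx => mem_iInter₂.2 fun V hV => ⟨fun h => ?_, fun h => ?_⟩⟩
  · refine MeasurableSet.biInter (countable_countableBasis X) fun V hV => ?_
    have h5 := isOpen_of_mem_countableBasis hV
    exact measurableSet_setOfPred.2 ((measurableSet_setOfPred.1 h5.measurableSet).iff
      (measurableSet_setOfPred.1 (hf.measurable (h4 V h5))))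
  · refine (isBasis_countableBasis X).eq_iff.2 fun V hV => ?_
    exact (mem_iInter₂.1 hx V hV).trans (h ▸ (mem_iInter₂.1 hy V hV).symm)
  · exact h2 V (isOpen_of_mem_countableBasis hV) ⟨x, ⟨hx, h⟩, rfl⟩
  · by_contra h5
    exact disjoint_left.1 (h3 V (isOpen_of_mem_countableBasis hV)) ⟨x, ⟨hx, h5⟩, rfl⟩ h

/-- Countable unions of Borel sets of injectivity. -/
def Sm (f : X → Y) (B : Set X) : Prop :=
  ∃ C : ℕ → Set X, (∀ n, MeasurableSet (C n) ∧ InjOn f (C n)) ∧ B = ⋃ n, C n

omit [MetricSpace X] [CompleteSpace X] [SecondCountableTopology X] [BorelSpace X]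
  [TopologicalSpace Y] [PolishSpace Y] [MeasurableSpace Y] [BorelSpace Y] in
theorem Sm.iUnion {ι : Type} [Countable ι] {B : ι → Set X} (h : ∀ i, Sm f (B i)) :
    Sm f (⋃ i, B i) := by
  choose C h1 h2 using h
  obtain ⟨e, he⟩ := exists_surjective_nat (Option (ι × ℕ))
  refine ⟨fun n => (e n).elim ∅ fun p => C p.1 p.2, fun n => ?_, ?_⟩
  · dsimp only
    cases e n
    · simp
    · exact h1 _ _
  · rw [he.iUnion_comp fun o => o.elim ∅ fun p => C p.1 p.2]
    simp [h2, iUnion_option, iUnion_prod']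

/-- Largeness of the frontier. -/
def Large (f : X → Y) (U : ℕ → Set X) (n : ℕ) : Prop :=
  ∀ B, Sm f B → ∃ y, ∀ k, n ≤ k → k ≤ 2 * n → y ∈ f '' (U k \ B)

theorem step (hf : Continuous f) (n : ℕ) (U : ℕ → Set X) (hU : (∀ k, IsOpen (U k)) ∧ Large f U n) :
    ∃ U' : ℕ → Set X, ((∀ k, IsOpen (U' k)) ∧ Large f U' (n + 1)) ∧ (∀ k ≤ 2 * n, U' k = U k) ∧
      Disjoint (U' (2 * n + 1)) (U' (2 * n + 2)) ∧ ∀ k, k = 2 * n + 1 ∨ k = 2 * n + 2 →
        closure (U' k) ⊆ U n ∧ ∀ x ∈ U' k, ∀ y ∈ U' k, dist x y ≤ 1 / (k + 1) := by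
  let G : Set X → Prop := fun V => closure V ⊆ U n ∧ ∀ x ∈ V, ∀ y ∈ V, dist x y ≤ 1 / (2 * n + 3)
  let P := {p : countableBasis X × countableBasis X // Disjoint p.1.1 p.2.1 ∧ G p.1 ∧ G p.2}
  have := (countable_countableBasis X).to_subtype
  let W : P → ℕ → Set X := fun p =>
    Function.update (Function.update U (2 * n + 1) p.1.1) (2 * n + 2) p.1.2
  have hW0 : ∀ p, ∀ k ≤ 2 * n, W p k = U k := fun p k hk => by
    simp only [W]
    rw [Function.update_of_ne (by omega), Function.update_of_ne (by omega)]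
  have hW1 : ∀ p, W p (2 * n + 1) = p.1.1 := fun p => by simp [W]
  have hW2 : ∀ p, W p (2 * n + 2) = p.1.2 := fun p => by simp [W]
  suffices h : ∃ p, Large f (W p) (n + 1) by
    obtain ⟨p, hp⟩ := h
    refine ⟨W p, ⟨fun k => ?_, hp⟩, hW0 p, by rw [hW1, hW2]; exact p.2.1, ?_⟩
    · simp only [W, Function.update_apply]
      split_ifs
      exacts [isOpen_of_mem_countableBasis p.1.2.2, isOpen_of_mem_countableBasis p.1.1.2, hU.1 k]
    · rintro k (rfl | rfl)
      · rw [hW1]
        refine ⟨p.2.2.1.1, fun x hx y hy => (p.2.2.1.2 x hx y hy).trans ?_⟩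
        push_cast
        exact one_div_le_one_div_of_le (by positivity) (by linarith)
      · rw [hW2]
        refine ⟨p.2.2.2.1, fun x hx y hy => (p.2.2.2.2 x hx y hy).trans (le_of_eq ?_)⟩
        push_cast
        ring
  by_contra h
  simp only [Large, not_exists, not_forall] at h
  choose B h1 h2 using h
  have h3 := Sm.iUnion h1
  set B0 := ⋃ p, B p with hB0
  have h4 : MeasurableSet B0 := by
    obtain ⟨C, h4, h5⟩ := h3
    exact h5 ▸ MeasurableSet.iUnion fun n => (h4 n).1
  let C : Set X := ⋂ k, if n ≤ k ∧ k ≤ 2 * n then f ⁻¹' (f '' (U k \ B0)) else U n \ B0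
  have h5 : ∀ x, x ∈ C ↔ x ∈ U n \ B0 ∧ ∀ k, n ≤ k → k ≤ 2 * n → f x ∈ f '' (U k \ B0) := by
    intro x
    simp only [C, mem_iInter]
    refine ⟨fun h => ⟨by simpa using h (2 * n + 1), fun k h5 h6 => by simpa [h5, h6] using h k⟩,
      fun h k => ?_⟩
    split_ifs with h5
    exacts [h.2 k h5.1 h5.2, h.1]
  have h6 : AnalyticSet C := AnalyticSet.iInter fun k => by
    split_ifs
    · exact (((hU.1 k).measurableSet.diff h4).analyticSet.image_of_continuous hf).preimage hf
    · exact ((hU.1 n).measurableSet.diff h4).analyticSet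
  have h7 : InjOn f C := by
    intro x hx x' hx' h
    by_contra h7
    obtain ⟨hx1, hx2⟩ := (h5 x).1 hx
    obtain ⟨hx3, -⟩ := (h5 x').1 hx'
    have h8 : ∀ z ∈ U n, ∀ O ∈ 𝓝 z, ∃ V : countableBasis X, z ∈ V.1 ∧ V.1 ⊆ O ∧ G V := by
      intro z hz O hO
      obtain ⟨Z, h8, h9, h10⟩ := exists_mem_nhds_isClosed_subset ((hU.1 n).mem_nhds hz)
      obtain ⟨V, h11, h12, h13⟩ := (isBasis_countableBasis X).mem_nhds_iff.1 (inter_mem hO
        (inter_mem h8 (Metric.ball_mem_nhds z (show 0 < 1 / (2 * (n : ℝ) + 3) / 2 by positivity))))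
      refine ⟨⟨V, h11⟩, h12, fun a ha => (h13 ha).1,
        (closure_minimal (fun a ha => (h13 ha).2.1) h9).trans h10, fun a ha b hb => ?_⟩
      have h14 : dist a z < _ := (h13 ha).2.2
      have h15 : dist b z < _ := (h13 hb).2.2
      linarith [dist_triangle_right a b z]
    obtain ⟨O, O', h9, h10, h11⟩ := t2_separation_nhds h7
    obtain ⟨V, h12, h13, h14⟩ := h8 x hx1.1 O h9
    obtain ⟨V', h15, h16, h17⟩ := h8 x' hx3.1 O' h10
    let p : P := ⟨(V, V'), h11.mono h13 h16, h14, h17⟩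
    obtain ⟨k, h18, h19, h20⟩ := h2 p (f x)
    have h21 : B p ⊆ B0 := subset_iUnion B p
    rcases (by omega : k ≤ 2 * n ∨ k = 2 * n + 1 ∨ k = 2 * n + 2) with h22 | rfl | rfl
    · exact h20 (hW0 p k h22 ▸ image_mono (sdiff_subset_sdiff_right h21) (hx2 k (by omega) h22))
    · exact h20 ⟨x, ⟨hW1 p ▸ h12, fun h => hx1.2 (h21 h)⟩, rfl⟩
    · exact h20 ⟨x', ⟨hW2 p ▸ h15, fun h => hx3.2 (h21 h)⟩, h.symm⟩
  obtain ⟨C', h8, h9, h10⟩ := reflect hf h6 h7
  have h11 : Sm f (B0 ∪ C') := by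
    rw [union_eq_iUnion]
    refine Sm.iUnion fun b => ?_
    cases b
    exacts [⟨fun _ => C', fun _ => ⟨h8, h9⟩, (iUnion_const _).symm⟩, h3]
  obtain ⟨y, hy⟩ := hU.2 _ h11
  obtain ⟨x, h12, rfl⟩ := hy n le_rfl (by omega)
  exact h12.2 (Or.inr (h10 ((h5 x).2 ⟨⟨h12.1, fun h => h12.2 (Or.inl h)⟩, fun k h13 h14 =>
    image_mono (sdiff_subset_sdiff_right subset_union_left) (hy k h13 h14)⟩)))

/-- Heap numbering of the binary tree. -/
def node : List Bool → ℕ
  | [] => 0
  | b :: l => 2 * node l + (if b then 2 else 1)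

theorem unc : Uncountable (ℕ → Bool) := ⟨fun _ => by
  obtain ⟨e, he⟩ := exists_surjective_nat (ℕ → Bool)
  obtain ⟨n, hn⟩ := he fun n => !e n n
  simpa using congrFun hn n⟩

theorem ln_cont (hf : Continuous f) (hc : ∀ y, (f ⁻¹' {y}).Countable) : Sm f univ := by
  by_contra h
  have h0 : (∀ _k : ℕ, IsOpen (univ : Set X)) ∧ Large f (fun _ => univ) 0 := by
    refine ⟨fun _ => isOpen_univ, fun B hB => ?_⟩
    obtain ⟨x, hx⟩ := (ne_univ_iff_exists_notMem B).1 fun h' => h (h' ▸ hB)
    exact ⟨f x, fun _ _ _ => ⟨x, ⟨trivial, hx⟩, rfl⟩⟩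
  choose! S h1 h2 h3 h4 using step hf
  let T : ℕ → ℕ → Set X := fun n => n.rec (fun _ => univ) S
  have hT : ∀ n, (∀ k, IsOpen (T n k)) ∧ Large f (T n) n := fun n => by
    induction n with
    | zero => exact h0
    | succ n ih => exact h1 _ _ ih
  have h5 : ∀ n m, n ≤ m → ∀ k ≤ 2 * n, T m k = T n k := by
    intro n m hnm k hk
    induction m, hnm using Nat.le_induction with
    | base => rfl
    | succ m hm ih => exact (h2 m _ (hT m) k (by omega)).trans ih
  let U : ℕ → Set X := fun k => T k k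
  have h6 : ∀ n, ∀ k ≤ 2 * n, T n k = U k := fun n k hk =>
    (h5 n (max n k) (le_max_left _ _) k hk).symm.trans
      (h5 k (max n k) (le_max_right _ _) k (by omega))
  have h7 : ∀ n, ∃ y, ∀ k, n ≤ k → k ≤ 2 * n → y ∈ f '' U k := fun n => by
    obtain ⟨y, hy⟩ := (hT n).2 ∅ ⟨fun _ => ∅, by simp, by simp⟩
    exact ⟨y, fun k a b => by simpa [h6 n k b] using hy k a b⟩
  have h8 : ∀ n k, k = 2 * n + 1 ∨ k = 2 * n + 2 →
      closure (U k) ⊆ U n ∧ ∀ x ∈ U k, ∀ y ∈ U k, dist x y ≤ 1 / (k + 1) := fun n k hk => by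
    rw [← h6 (n + 1) k (by omega)]
    exact h4 n _ (hT n) k hk
  have h9 : ∀ k, 1 ≤ k → ∀ x ∈ U k, ∀ y ∈ U k, dist x y ≤ 1 / (k + 1) := fun k hk =>
    (h8 ((k - 1) / 2) k (by omega)).2
  have h10 : ∀ l : List Bool, l.length ≤ node l := fun l => by
    induction l with
    | nil => simp
    | cons b l ih => simp only [node, List.length_cons]; split_ifs <;> omega
  let A : List Bool → Set X := fun l => U (node l)
  have h11 : (CantorScheme.inducedMap A).1 = univ := by
    refine CantorScheme.ClosureAntitone.map_of_vanishingDiam (fun α => ?_) (fun l b => ?_)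
      fun l => ?_
    · refine tendsto_of_tendsto_of_tendsto_of_le_of_le' tendsto_const_nhds
        (by simpa using ENNReal.tendsto_ofReal tendsto_one_div_add_atTop_nhds_zero_nat)
        (Eventually.of_forall fun _ => zero_le) ?_
      filter_upwards [eventually_ge_atTop 1] with n hn
      have h11 := h10 (PiNat.res α n)
      rw [PiNat.res_length] at h11
      refine Metric.ediam_le fun x hx y hy => ?_
      rw [edist_dist]
      refine ENNReal.ofReal_le_ofReal ((h9 _ (by omega) x hx y hy).trans ?_)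
      rw [one_div]
      gcongr
    · exact (h8 (node l) _ (by simp only [node]; split_ifs <;> simp)).1
    · obtain ⟨y, hy⟩ := h7 (node l)
      obtain ⟨x, hx, -⟩ := hy _ le_rfl (by omega)
      exact ⟨x, hx⟩
  let φ : (ℕ → Bool) → X := fun α => (CantorScheme.inducedMap A).2 ⟨α, h11 ▸ mem_univ α⟩
  have h12 : Function.Injective φ := fun α β h => congrArg Subtype.val
    (CantorScheme.Disjoint.map_injective (A := A) (fun l => by
      have h12 := h3 (node l) _ (hT _)
      change Disjoint (T (node l + 1) _) (T (node l + 1) _) at h12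
      rw [h6 (node l + 1) (2 * node l + 1) (by omega), h6 (node l + 1) (2 * node l + 2) (by omega)]
        at h12
      intro a b hab
      cases a <;> cases b
      exacts [(hab rfl).elim, h12, h12.symm, (hab rfl).elim]) h)
  choose y hy using h7
  have h13 : ∀ α, Tendsto y atTop (𝓝 (f (φ α))) := by
    intro α
    have h13 : ∀ n, ∃ x, f x = y (n + 1) ∧ dist x (φ α) ≤ 1 / (n + 1) := by
      intro n
      have h14 : ∃ j, n + 1 ≤ node (PiNat.res α j) :=
        ⟨n + 1, by simpa using h10 (PiNat.res α (n + 1))⟩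
      obtain ⟨x, h15, h16⟩ := hy (n + 1) _ (Nat.find_spec h14) (by
        obtain h | ⟨j, h⟩ : Nat.find h14 = 0 ∨ ∃ j, Nat.find h14 = j + 1 :=
          (Nat.find h14).eq_zero_or_eq_succ_pred.imp id fun h => ⟨_, h⟩
        · rw [h]; simp [node]
        · have := Nat.find_min h14 (m := j) (by omega)
          rw [h, PiNat.res_succ, node]
          split_ifs <;> omega)
      refine ⟨x, h16, (h9 _ (le_trans (by omega) (Nat.find_spec h14)) x h15 _
        (CantorScheme.map_mem (A := A) ⟨α, h11 ▸ mem_univ α⟩ (Nat.find h14))).trans ?_⟩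
      gcongr
      exact_mod_cast (Nat.le_succ n).trans (Nat.find_spec h14)
    choose x h14 h15 using h13
    rw [← tendsto_add_atTop_iff_nat 1]
    refine ((hf.tendsto _).comp (tendsto_iff_dist_tendsto_zero.2 (squeeze_zero
      (fun _ => dist_nonneg) h15 tendsto_one_div_add_atTop_nhds_zero_nat))).congr h14
  have h14 := (hc (f (φ fun _ => true))).preimage h12
  have := unc
  exact not_countable (countable_univ_iff.1 (h14.mono fun α _ =>
    tendsto_nhds_unique (h13 α) (h13 _)))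

end

theorem refine_top {X Y : Type} [m : MeasurableSpace X] [StandardBorelSpace X] [MeasurableSpace Y]
    [TopologicalSpace Y] [SecondCountableTopology Y] [BorelSpace Y] {f : X → Y}
    (hf : Measurable f) :
    ∃ t : TopologicalSpace X, PolishSpace X ∧ BorelSpace X ∧ Continuous f := by
  obtain ⟨t0, h4, h0⟩ := StandardBorelSpace.polish (α := X)
  obtain ⟨t, h1, h2, h3⟩ := hf.exists_continuous
  exact ⟨t, h3, @BorelSpace.mk X t m
    (h4.measurable_eq.trans (@borel_eq_borel_of_le X t t0 h3 h0 h1).symm), h2⟩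

/-- The Lusin-Novikov theorem. -/
theorem lusin_novikov {X Y : Type} [MeasurableSpace X] [StandardBorelSpace X] [MeasurableSpace Y]
    [StandardBorelSpace Y] {f : X → Y} (hf : Measurable f) (hc : ∀ y, (f ⁻¹' {y}).Countable) :
    ∃ C : ℕ → Set X, (∀ n, MeasurableSet (C n) ∧ InjOn f (C n)) ∧ ⋃ n, C n = univ := by
  obtain ⟨t0, h4, h0⟩ := StandardBorelSpace.polish (α := Y)
  obtain ⟨t, h1, h2, h3⟩ := refine_top hf
  let := upgradeIsCompletelyMetrizable X
  obtain ⟨C, h6, h7⟩ := ln_cont h3 hc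
  exact ⟨C, h6, h7.symm⟩

theorem exists_graphs {X : Type} [MeasurableSpace X] [StandardBorelSpace X] {E : X → X → Prop}
    (h0 : ∀ x, E x x) (hE : MeasurableSet {p : X × X | E p.1 p.2})
    (hc : ∀ x, {y | E x y}.Countable) :
    ∃ g : ℕ → X → X, (∀ n, Measurable (g n)) ∧ ∀ x y, E x y ↔ ∃ n, g n x = y := by
  classical
  have := hE.standardBorel
  obtain ⟨C, h1, h2⟩ := lusin_novikov (f := fun p : {p : X × X | E p.1 p.2} => p.1.1)
    (measurable_fst.comp measurable_subtype_coe) fun x =>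
      (MapsTo.countable_of_injOn (f := fun p : {p : X × X | E p.1 p.2} => p.1.2)
        (t := {y | E x y}) (s := (fun p : {p : X × X | E p.1 p.2} => p.1.1) ⁻¹' {x}) (fun p hp => by
          have h : E p.1.1 p.1.2 := p.2
          exact (show p.1.1 = x from hp) ▸ h)
        (fun p hp q hq h => Subtype.ext (Prod.ext (Eq.trans hp (Eq.symm hq)) h)) (hc x))
  have h3 : ∀ n, ∃ g : X → X, Measurable g ∧ (∀ x, E x (g x)) ∧ ∀ p ∈ C n, g p.1.1 = p.1.2 := by
    intro n
    have := (h1 n).1.standardBorel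
    have h3 : MeasurableEmbedding fun p : C n => p.1.1.1 :=
      (measurable_fst.comp (measurable_subtype_coe.comp measurable_subtype_coe)).measurableEmbedding
        fun p q h => Subtype.ext ((h1 n).2 p.2 q.2 h)
    refine ⟨Function.extend (fun p : C n => p.1.1.1) (fun p => p.1.1.2) id,
      h3.measurable_extend (measurable_snd.comp (measurable_subtype_coe.comp
        measurable_subtype_coe)) measurable_id, fun x => ?_,
      fun p hp => h3.injective.extend_apply _ _ ⟨p, hp⟩⟩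
    by_cases h : ∃ p : C n, p.1.1.1 = x
    · obtain ⟨p, rfl⟩ := h
      rw [h3.injective.extend_apply]
      exact p.1.2
    · rw [Function.extend_apply' _ _ _ h]
      exact h0 x
  choose g h4 h5 h6 using h3
  refine ⟨g, h4, fun x y => ⟨fun h => ?_, fun ⟨n, h⟩ => h ▸ h5 n x⟩⟩
  obtain ⟨n, hn⟩ := mem_iUnion.1 (h2 ▸ mem_univ (⟨(x, y), h⟩ : {p : X × X | E p.1 p.2}))
  exact ⟨n, h6 n _ hn⟩

end Pool.Agent.H39.LN
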