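import Mathlib

set_option autoImplicit false

namespace Pool.Agent.H39.Mcg

open Equiv

/-- The permutation or its inverse. -/
def φ (f : Perm ℕ) (b : Bool) : Perm ℕ := if b then f else f⁻¹

theorem φ_not (f : Perm ℕ) (b : Bool) : φ f (!b) = (φ f b)⁻¹ := by cases b <;> simp [φ]

/-- Evaluation of words. -/
def ev (f : Perm ℕ) (l : List (Perm ℕ × Bool)) : Perm ℕ := (l.map fun p => p.1 * φ f p.2).prod

@[simp] theorem ev_nil (f : Perm ℕ) : ev f [] = 1 := rfl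

theorem ev_cons (f : Perm ℕ) (p : Perm ℕ × Bool) (l : List (Perm ℕ × Bool)) :
    ev f (p :: l) = p.1 * φ f p.2 * ev f l := by simp [ev]

theorem ev_append (f : Perm ℕ) (l l' : List (Perm ℕ × Bool)) :
    ev f (l ++ l') = ev f l * ev f l' := by simp [ev]

/-- Cyclically reduced words. -/
def Red (l : List (Perm ℕ × Bool)) : Prop :=
  ∀ l1 l2 g b t, l = l1 ++ l2 → l2 ++ l1 ≠ (g, b) :: (1, !b) :: t

theorem Red.adj {l l1 l2 t : List (Perm ℕ × Bool)} {p q : Perm ℕ × Bool} (h : Red l)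
    (h1 : l = l1 ++ l2) (h2 : l2 ++ l1 = p :: q :: t) (h3 : q.1 = 1) : q.2 = p.2 := by
  by_contra h4
  refine h l1 l2 p.1 p.2 t h1 ?_
  rw [h2]
  obtain ⟨g, b⟩ := q
  obtain ⟨g', b'⟩ := p
  simp only at h3 h4
  subst h3
  cases b <;> cases b' <;> simp_all

variable {f : Perm ℕ} {l : List (Perm ℕ × Bool)} {x : ℕ}

theorem next_edge (h : Red l) (hx : ev f l x = x) {p : Perm ℕ × Bool} {l2 : List (Perm ℕ × Bool)}
    (h1 : p :: l2 <:+ l) :
    ∃ p' l2', p' :: l2' <:+ l ∧ ev f l2' x = ev f (p :: l2) x ∧ (p.1 = 1 → p.2 = p'.2) := by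
  obtain ⟨l1, rfl⟩ := h1
  rcases List.eq_nil_or_concat' l1 with rfl | ⟨l1, p', rfl⟩
  · rcases List.eq_nil_or_concat' l2 with rfl | ⟨l2, p', rfl⟩
    · exact ⟨p, [], List.suffix_rfl, hx.symm, fun _ => rfl⟩
    · exact ⟨p', [], ⟨p :: l2, rfl⟩, hx.symm, h.adj (l1 := p :: l2) (l2 := [p']) rfl rfl⟩
  · exact ⟨p', p :: l2, ⟨l1, by simp⟩, rfl,
      h.adj (l1 := l1) (l2 := p' :: p :: l2) (by simp) rfl⟩

theorem prev_edge (h : Red l) (hx : ev f l x = x) {p : Perm ℕ × Bool} {l2 : List (Perm ℕ × Bool)}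
    (h1 : p :: l2 <:+ l) :
    ∃ p' l2', p' :: l2' <:+ l ∧ ev f l2 x = ev f (p' :: l2') x ∧ (p'.1 = 1 → p'.2 = p.2) := by
  obtain ⟨l1, rfl⟩ := h1
  rcases l2 with _ | ⟨p', l2⟩
  · rcases l1 with _ | ⟨p', l1⟩
    · exact ⟨p, [], List.suffix_rfl, hx.symm, fun _ => rfl⟩
    · exact ⟨p', l1 ++ [p], List.suffix_rfl, hx.symm,
        h.adj (l1 := p' :: l1) (l2 := [p]) rfl rfl⟩
  · exact ⟨p', l2, ⟨l1 ++ [p], by simp⟩, rfl, h.adj (l1 := l1) (l2 := p :: p' :: l2) rfl rfl⟩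

section
variable {G : Subgroup (Perm ℕ)} {r : ℕ → ℕ} (hG : ∀ g ∈ G, g ≠ 1 → {n | g n = n}.Finite)
  (hr : Function.Injective r) (h1 : ∀ b x, φ f b x ≠ x)
  (h2 : ∀ b x, r (φ f b x) < r x → r ((φ f b)⁻¹ x) < r x → False)
  (h3 : ∀ g ∈ G, ∃ s, ∀ x, s ≤ r x → (∃ b, r (φ f b x) < r x) → ∀ y, r y < r x → g y ≠ x)
include hG hr h1 h2 h3

theorem red_finite (hl : ∀ p ∈ l, p.1 ∈ G) (h0 : l ≠ []) (h : Red l) :
    {n | ev f l n = n}.Finite := by
  choose! s hs using h3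
  obtain ⟨s0, hs0⟩ := ((List.finite_toSet l).image fun p => max (s p.1) (s p.1⁻¹)).bddAbove
  have hB : ({y | r y < s0} ∪ ⋃ p ∈ {p | p ∈ l ∧ p.1 ≠ 1}, {n | p.1 n = n}).Finite :=
    ((Set.finite_Iio s0).preimage hr.injOn).union
      (((List.finite_toSet l).subset fun p hp => hp.1).biUnion fun p hp => hG _ (hl p hp.1) hp.2)
  set B := {y | r y < s0} ∪ ⋃ p ∈ {p | p ∈ l ∧ p.1 ≠ 1}, {n | p.1 n = n} with hBd
  have hfin : (⋃ l2 ∈ {l2 | l2 ∈ l.tails}, ⋃ c ∈ ({1, φ f true, φ f false} : Set (Perm ℕ)),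
      (c * ev f l2) ⁻¹' B).Finite :=
    (List.finite_toSet _).biUnion fun l2 _ => (Set.toFinite _).biUnion fun c _ =>
      hB.preimage (c * ev f l2).injective.injOn
  refine hfin.subset fun x hx => ?_
  have hE : {e : (Perm ℕ × Bool) × List (Perm ℕ × Bool) | e.1 :: e.2 <:+ l}.Finite := by
    refine Set.Finite.of_finite_image (f := fun e => e.1 :: e.2)
      ((List.finite_toSet l.tails).subset ?_) fun e _ e' _ h => Prod.ext (by simpa using (List.cons.inj h).1) (List.cons.inj h).2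
    rintro _ ⟨e, he, rfl⟩
    exact (List.mem_tails _ _).2 he
  obtain ⟨⟨p, l2⟩, h4, h5⟩ := Set.exists_max_image _
    (fun e => max (r (ev f e.2 x)) (r (φ f e.1.2 (ev f e.2 x)))) hE
    (by obtain ⟨p, t, rfl⟩ := List.exists_cons_of_ne_nil h0; exact ⟨(p, t), List.suffix_rfl⟩)
  simp only [Set.mem_ofPred_eq, Prod.forall] at h4 h5
  have hm : ∀ {p : Perm ℕ × Bool} {l2}, p :: l2 <:+ l → p ∈ l := fun h => h.subset (by simp)
  have h6 : l2 ∈ {l2 | l2 ∈ l.tails} := (List.mem_tails _ _).2 ((List.suffix_cons _ _).trans h4)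
  rcases lt_or_gt_of_ne (hr.ne (h1 p.2 (ev f l2 x))) with h7 | h7
  · refine Set.mem_biUnion h6 (Set.mem_biUnion (x := 1) (by simp) ?_)
    rw [max_eq_left h7.le] at h5
    rw [one_mul, Set.mem_preimage]
    set u := ev f l2 x with hu
    by_cases h8 : r u < s0
    · exact Or.inl h8
    obtain ⟨p', l2', h9, h10, h11⟩ := prev_edge h hx h4
    have h12 := h5 _ _ _ h9
    rw [← hu, ev_cons, Perm.mul_apply, Perm.mul_apply] at h10
    have h13 : φ f p'.2 (ev f l2' x) = u := by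
      by_contra h13
      exact hs _ (hl _ (hm h9)) u ((le_max_left _ _).trans ((hs0 ⟨_, hm h9, rfl⟩).trans (not_lt.1 h8)))
        ⟨_, h7⟩ _ (lt_of_le_of_ne ((le_max_right _ _).trans h12) (hr.ne h13)) h10.symm
    rw [h13] at h10
    by_cases h14 : p'.1 = 1
    · refine (h2 _ _ h7 ?_).elim
      rw [← h11 h14]
      have h15 : (φ f p'.2)⁻¹ u = ev f l2' x := by rw [← h13]; simp
      rw [h15]
      refine lt_of_le_of_ne ((le_max_left _ _).trans h12) (hr.ne fun h16 => h1 p'.2 u ?_)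
      rw [← h16, h13, h16]
    · exact Or.inr (Set.mem_biUnion (x := p') ⟨hm h9, h14⟩ h10.symm)
  · refine Set.mem_biUnion h6 (Set.mem_biUnion (x := φ f p.2) (by cases p.2 <;> simp) ?_)
    rw [max_eq_right h7.le] at h5
    rw [Set.mem_preimage, Perm.mul_apply]
    set v := φ f p.2 (ev f l2 x) with hv
    by_cases h8 : r v < s0
    · exact Or.inl h8
    obtain ⟨p', l2', h9, h10, h11⟩ := next_edge h hx h4
    have h12 := h5 _ _ _ h9
    rw [ev_cons, Perm.mul_apply, Perm.mul_apply, ← hv] at h10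
    have h15 : (φ f p.2)⁻¹ v = ev f l2 x := by rw [hv]; simp
    have h13 : p.1 v = v := by
      by_contra h13
      refine hs _ (G.inv_mem (hl _ (hm h4))) v
        ((le_max_right _ _).trans ((hs0 ⟨_, hm h4, rfl⟩).trans (not_lt.1 h8)))
        ⟨!p.2, by rwa [φ_not, h15]⟩ (p.1 v) (lt_of_le_of_ne ?_ (hr.ne h13)) (by simp)
      rw [← h10]
      exact (le_max_left _ _).trans h12
    by_cases h14 : p.1 = 1
    · refine (h2 p.2 v ?_ (by rwa [h15])).elim
      rw [h10, h13, ← h11 h14] at h12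
      exact lt_of_le_of_ne ((le_max_right _ _).trans h12) (hr.ne (h1 _ _))
    · exact Or.inr (Set.mem_biUnion (x := p) ⟨hm h4, h14⟩ h13)

omit hG hr h1 h2 h3 in
theorem good_swap {a b : Perm ℕ} (h : b * a ≠ 1 → {n | (b * a) n = n}.Finite) (h1 : a * b ≠ 1) :
    {n | (a * b) n = n}.Finite := by
  refine ((h fun h2 => h1 (mul_eq_one_comm.1 h2)).preimage b.injective.injOn).subset fun n hn => ?_
  exact congrArg b hn

theorem word_good (n : ℕ) : ∀ l : List (Perm ℕ × Bool), l.length ≤ n → (∀ p ∈ l, p.1 ∈ G) →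
    ∀ g ∈ G, g * ev f l ≠ 1 → {n | (g * ev f l) n = n}.Finite := by
  induction n with
  | zero =>
    intro l hl _ g hg
    rw [List.length_eq_zero_iff.1 (Nat.le_zero.1 hl), ev_nil, mul_one]
    exact hG g hg
  | succ n ih =>
    intro l hl hl' g hg
    rcases l with _ | ⟨p, l⟩
    · rw [ev_nil, mul_one]
      exact hG g hg
    have h4 : g * ev f (p :: l) = ev f ((g * p.1, p.2) :: l) := by simp [ev_cons, mul_assoc]
    have h5 : ∀ q ∈ (g * p.1, p.2) :: l, q.1 ∈ G := by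
      intro q hq
      rcases List.mem_cons.1 hq with rfl | hq
      · exact G.mul_mem hg (hl' _ (by simp))
      · exact hl' _ (List.mem_cons_of_mem _ hq)
    rw [h4]
    by_cases h6 : Red ((g * p.1, p.2) :: l)
    · exact fun _ => red_finite hG hr h1 h2 h3 h5 (by simp) h6
    · simp only [Red, not_forall, not_not] at h6
      obtain ⟨l1, l2, g', b, t, h7, h8⟩ := h6
      have h9 : ∀ q ∈ (g', b) :: (1, !b) :: t, q.1 ∈ G := fun q hq => h5 q (by
        rw [← h8] at hq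
        rw [h7]
        simpa [or_comm] using hq)
      rw [h7, ev_append]
      refine good_swap ?_
      rw [← ev_append, h8, ev_cons, ev_cons, φ_not]
      simp only [one_mul, mul_assoc, mul_inv_cancel_left]
      refine ih t ?_ (fun q hq => h9 q (by simp [hq])) g' (h9 (g', b) (by simp))
      have h10 := congrArg List.length h7
      have h11 := congrArg List.length h8
      simp at h10 h11 hl
      omega

theorem extend : ∃ H : Subgroup (Perm ℕ), G ≤ H ∧ (∀ h ∈ H, h ≠ 1 → {n | h n = n}.Finite) ∧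
    H ≠ G := by
  refine ⟨Subgroup.closure (insert f G), fun g hg => Subgroup.subset_closure (Or.inr hg), ?_, ?_⟩
  · intro h hh
    have : ∃ g ∈ G, ∃ l : List (Perm ℕ × Bool), (∀ p ∈ l, p.1 ∈ G) ∧ h = ev f l * g := by
      have h4 : ∀ a ∈ G, ∀ h : Perm ℕ,
          (∃ g ∈ G, ∃ l : List (Perm ℕ × Bool), (∀ p ∈ l, p.1 ∈ G) ∧ h = ev f l * g) →
          ∃ g ∈ G, ∃ l : List (Perm ℕ × Bool), (∀ p ∈ l, p.1 ∈ G) ∧ a * h = ev f l * g := by
        rintro a ha _ ⟨g, hg, l, hl, rfl⟩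
        rcases l with _ | ⟨p, l⟩
        · exact ⟨a * g, G.mul_mem ha hg, [], by simp, by simp⟩
        · refine ⟨g, hg, (a * p.1, p.2) :: l, ?_, by simp [ev_cons, mul_assoc]⟩
          intro q hq
          rcases List.mem_cons.1 hq with rfl | hq
          · exact G.mul_mem ha (hl _ (by simp))
          · exact hl _ (List.mem_cons_of_mem _ hq)
      have h5 : ∀ (b : Bool) (h : Perm ℕ),
          (∃ g ∈ G, ∃ l : List (Perm ℕ × Bool), (∀ p ∈ l, p.1 ∈ G) ∧ h = ev f l * g) →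
          ∃ g ∈ G, ∃ l : List (Perm ℕ × Bool), (∀ p ∈ l, p.1 ∈ G) ∧ φ f b * h = ev f l * g := by
        rintro b _ ⟨g, hg, l, hl, rfl⟩
        refine ⟨g, hg, (1, b) :: l, ?_, by simp [ev_cons, mul_assoc]⟩
        intro q hq
        rcases List.mem_cons.1 hq with rfl | hq
        · exact G.one_mem
        · exact hl _ hq
      induction hh using Subgroup.closure_induction_left with
      | one => exact ⟨1, G.one_mem, [], by simp, by simp⟩
      | mul_left a ha h _ ih =>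
        rcases ha with rfl | ha
        · exact h5 true h ih
        · exact h4 a ha h ih
      | inv_mul_cancel a ha h _ ih =>
        rcases ha with rfl | ha
        · exact h5 false h ih
        · exact h4 _ (G.inv_mem ha) h ih
    obtain ⟨g, hg, l, hl, rfl⟩ := this
    exact good_swap (word_good hG hr h1 h2 h3 _ l le_rfl hl g hg)
  · intro h
    have h4 : f ∈ G := h ▸ Subgroup.subset_closure (Or.inl rfl)
    have h5 := red_finite (l := [(f⁻¹, true)]) hG hr h1 h2 h3 (by simpa using h4) (by simp) (by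
      intro l1 l2 g b t h6 h7
      have h10 := congrArg List.length h6
      have h11 := congrArg List.length h7
      simp at h10 h11
      omega)
    simp [ev, φ, Set.infinite_univ] at h5

end

theorem exists_seq (P : ℕ → Finset ℕ → ℕ → Prop) (h : ∀ n T, ∃ z, P n T z) :
    ∃ E : ℕ → ℕ, ∀ n, P n ((Finset.range n).image E) (E n) := by
  choose c hc using h
  let T : ℕ → Finset ℕ := fun n => n.rec ∅ fun n T => insert (c n T) T
  refine ⟨fun n => c n (T n), fun n => ?_⟩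
  have : ∀ n, (Finset.range n).image (fun n => c n (T n)) = T n := by
    intro n
    induction n with
    | zero => rfl
    | succ n ih => rw [Finset.range_add_one, Finset.image_insert, ih]
  rw [this]
  exact hc n _

theorem exists_f (Near : ℕ → ℕ → ℕ → Prop)
    (hN : ∀ (T : Finset ℕ) (n : ℕ), ∃ z, z ∉ T ∧ ∀ i ≤ n, ∀ y ∈ T, ¬ Near i y z) :
    ∃ (f : Perm ℕ) (r : ℕ → ℕ), Function.Injective r ∧ (∀ b x, φ f b x ≠ x) ∧
      (∀ b x, r (φ f b x) < r x → r ((φ f b)⁻¹ x) < r x → False) ∧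
      ∀ x, (∃ b, r (φ f b x) < r x) → ∀ y, r y < r x → ∀ i ≤ r x, ¬ Near i y x := by
  obtain ⟨E, hE⟩ := exists_seq (fun n T z => z ∉ T ∧ ((Nat.unpair n).2 = 0 → ∀ y < z, y ∈ T) ∧
      ((Nat.unpair n).2 ≠ 0 → ∀ i ≤ n, ∀ y ∈ T, ¬ Near i y z)) (by
    intro n T
    by_cases h : (Nat.unpair n).2 = 0
    · classical
      have h1 := Infinite.exists_notMem_finset T
      exact ⟨Nat.find h1, Nat.find_spec h1, fun _ y hy => by simpa using Nat.find_min h1 hy,
        fun h' => absurd h h'⟩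
    · obtain ⟨z, h1, h2⟩ := hN T n
      exact ⟨z, h1, fun h' => absurd h' h, fun _ => h2⟩)
  have h1 : Function.Injective E := by
    intro a b hab
    by_contra h
    rcases lt_or_gt_of_ne h with h | h
    · exact (hE b).1 (hab ▸ Finset.mem_image_of_mem _ (Finset.mem_range.2 h))
    · exact (hE a).1 (hab ▸ Finset.mem_image_of_mem _ (Finset.mem_range.2 h))
  have h2 : Function.Surjective E := by
    intro y
    by_contra h
    refine Set.infinite_range_of_injective (f := fun k => E (Nat.pair k 0))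
      (fun a b hab => (Nat.pair_eq_pair.1 (h1 hab)).1) ((Set.finite_Iic y).subset ?_)
    rintro _ ⟨k, rfl⟩
    by_contra h3
    obtain ⟨a, -, ha⟩ := Finset.mem_image.1
      ((hE (Nat.pair k 0)).2.1 (by simp) y (not_le.1 h3))
    exact h ⟨a, ha⟩
  let e := Equiv.ofBijective E ⟨h1, h2⟩
  let ι : ℕ × ℤ ≃ ℕ := ((Equiv.refl ℕ).prodCongr Equiv.intEquivNat).trans Nat.pairEquiv
  let σ : Perm (ℕ × ℤ) := (Equiv.refl ℕ).prodCongr (Equiv.addRight 1)
  have hc : ∀ j : ℤ, (Equiv.intEquivNat j : ℤ) = if 0 ≤ j then 2 * j else -2 * j - 1 := by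
    rintro (j | j)
    · change ((2 * j : ℕ) : ℤ) = _
      simp
    · change ((2 * j + 1 : ℕ) : ℤ) = _
      rw [if_neg (by simp), Int.negSucc_eq]
      push_cast
      ring
  have h3 : ∀ b k j, φ ((ι.trans e).permCongr σ) b (e (ι (k, j))) =
      e (ι (k, if b then j + 1 else j - 1)) := by
    intro b k j
    cases b
    · simp only [φ, Bool.false_eq_true, if_false]
      rw [Perm.inv_eq_iff_eq]
      simp [σ]
    · simp [φ, σ]
  have h4 : ∀ k j j', ι (k, j) < ι (k, j') → Equiv.intEquivNat j < Equiv.intEquivNat j' := by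
    intro k j j' h
    by_contra h5
    rcases (not_lt.1 h5).eq_or_lt with h5 | h5
    · rw [Equiv.intEquivNat.injective h5] at h
      exact lt_irrefl _ h
    · exact lt_asymm h (Nat.pair_lt_pair_right k h5)
  refine ⟨(ι.trans e).permCongr σ, e.symm, e.symm.injective, fun b x => ?_, fun b x => ?_,
    fun x => ?_⟩ <;> obtain ⟨⟨k, j⟩, rfl⟩ := (ι.trans e).surjective x
  · rw [Equiv.trans_apply, h3]
    cases b <;> simp
  · rw [← φ_not, Equiv.trans_apply, h3, h3]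
    simp only [Equiv.symm_apply_apply]
    intro h5 h6
    have h7 := h4 _ _ _ h5
    have h8 := h4 _ _ _ h6
    zify at h7 h8
    rw [hc, hc] at h7 h8
    cases b <;> simp only [Bool.not_false, Bool.not_true, Bool.false_eq_true, if_true, if_false] at h7 h8 <;>
      split_ifs at h7 h8 <;> omega
  · rintro ⟨b, hb⟩ y hy i hi
    rw [Equiv.trans_apply] at hb hy hi ⊢
    rw [h3] at hb
    simp only [Equiv.symm_apply_apply] at hb hy hi
    refine (hE (ι (k, j))).2.2 ?_ i hi y (Finset.mem_image.2 ⟨e.symm y, Finset.mem_range.2 hy,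
      e.apply_symm_apply y⟩)
    have h7 := h4 _ _ _ hb
    simp only [ι, Equiv.trans_apply, Equiv.prodCongr_apply, Prod.map, Nat.pairEquiv_apply,
      Function.uncurry, Nat.unpair_pair]
    omega

theorem oligo {G : Subgroup (Perm ℕ)} (hG : ∀ g ∈ G, g ≠ 1 → {n | g n = n}.Finite)
    (hmax : ∀ H : Subgroup (Perm ℕ), G ≤ H → (∀ h ∈ H, h ≠ 1 → {n | h n = n}.Finite) → H = G)
    (F : Finset ℕ) : ∃ T : Finset ℕ, ∀ z, ∃ h ∈ G, (∀ x ∈ F, h x = x) ∧ ∃ y ∈ T, h y = z := by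
  classical
  by_contra hc
  push Not at hc
  obtain ⟨c, hc1⟩ := exists_surjective_nat (F → ℕ)
  let γ : ℕ → Perm ℕ := fun i =>
    if h : ∃ g ∈ G, ∀ x : F, g⁻¹ x = c i x then h.choose else 1
  obtain ⟨f, r, h1, h2, h3, h4⟩ := exists_f
    (fun i y z => ∃ h ∈ G, (∀ x ∈ F, h x = x) ∧ h (γ i y) = z) (by
      intro T n
      obtain ⟨z, hz⟩ := hc (T ∪ (Finset.range (n + 1) ×ˢ T).image fun p => γ p.1 p.2)
      refine ⟨z, fun h => hz 1 G.one_mem (by simp) z (by simp [h]) rfl, ?_⟩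
      rintro i hi y hy ⟨h, h1, h2, h3⟩
      exact hz h h1 h2 _ (Finset.mem_union_right _ (Finset.mem_image.2
        ⟨(i, y), by simp [hy, hi], rfl⟩)) h3)
  obtain ⟨H, h5, h6, h7⟩ := extend hG h1 h2 h3 (fun g hg => by
    obtain ⟨i, hi⟩ := hc1 fun x => g⁻¹ x
    have h5 : ∃ g ∈ G, ∀ x : F, g⁻¹ x = c i x := ⟨g, hg, fun x => (congrFun hi x).symm⟩
    have h6 : γ i ∈ G ∧ ∀ x : F, (γ i)⁻¹ x = c i x := by
      simp only [γ, dif_pos h5]
      exact h5.choose_spec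
    refine ⟨i, fun x h7 h8 y h9 h10 => h4 x h8 y h9 i h7
      ⟨g * (γ i)⁻¹, G.mul_mem hg (G.inv_mem h6.1), fun x hx => ?_, by simpa using h10⟩⟩
    rw [Perm.mul_apply, h6.2 ⟨x, hx⟩, hi]
    simp)
  exact h7 (hmax H h5 h6)

theorem mem_closure_pi {S : Set (ℕ → ℕ)} {t : ℕ → ℕ} :
    t ∈ closure S ↔ ∀ F : Finset ℕ, ∃ s ∈ S, ∀ x ∈ F, s x = t x := by
  constructor
  · intro h F
    have h1 : IsOpen {s : ℕ → ℕ | ∀ x ∈ F, s x = t x} := by
      simp only [Set.ofPred_forall]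
      exact isOpen_biInter_finset fun x _ =>
        (isOpen_discrete {t x}).preimage (continuous_apply (A := fun _ : ℕ => ℕ) x)
    obtain ⟨s, h2, h3⟩ := mem_closure_iff.1 h _ h1 fun _ _ => rfl
    exact ⟨s, h3, h2⟩
  · intro h
    rw [mem_closure_iff]
    intro U hU ht
    obtain ⟨I, u, h1, h2⟩ := isOpen_pi_iff.1 hU t ht
    obtain ⟨s, h3, h4⟩ := h I
    exact ⟨s, h2 fun x hx => (h4 x hx).symm ▸ (h1 x hx).2, h3⟩

theorem mem_of_gdelta {G : Subgroup (Perm ℕ)}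
    (hG : IsGδ ((fun g : Perm ℕ => (⇑g : ℕ → ℕ)) '' (G : Set (Perm ℕ)))) {k : Perm ℕ}
    (hk : ∀ F : Finset ℕ, ∃ g ∈ G, ∀ x ∈ F, g x = k x) : k ∈ G := by
  set S := (fun g : Perm ℕ => (⇑g : ℕ → ℕ)) '' (G : Set (Perm ℕ)) with hS
  have h0 : ∀ t, t ∈ closure S ↔ ∀ F : Finset ℕ, ∃ g ∈ G, ∀ x ∈ F, g x = t x := fun t => by
    simp [mem_closure_pi, hS]
  have : PolishSpace (closure S) := isClosed_closure.polishSpace
  have : Nonempty (closure S) := ⟨⟨_, subset_closure ⟨1, G.one_mem, rfl⟩⟩⟩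
  have h1 : Dense ((↑) ⁻¹' S : Set (closure S)) := by
    rw [Subtype.dense_iff, Subtype.image_preimage_coe, Set.inter_eq_right.2 subset_closure]
  have h2 : Dense ((fun t : closure S => ⇑k⁻¹ ∘ (t : ℕ → ℕ)) ⁻¹' S) := by
    rw [Subtype.dense_iff]
    intro t ht
    refine mem_closure_pi.2 fun F => ?_
    obtain ⟨g1, h3, h4⟩ := (h0 t).1 ht F
    obtain ⟨g2, h5, h6⟩ := hk (F.image fun x => k⁻¹ (t x))
    refine ⟨_, ⟨⟨⇑(k * g2⁻¹ * g1), (h0 _).2 fun F' => ?_⟩, ⟨g2⁻¹ * g1,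
      G.mul_mem (G.inv_mem h5) h3, by ext x; simp⟩, rfl⟩, fun x hx => ?_⟩
    · obtain ⟨g3, h7, h8⟩ := hk (F'.image fun x => g2⁻¹ (g1 x))
      exact ⟨g3 * g2⁻¹ * g1, G.mul_mem (G.mul_mem h7 (G.inv_mem h5)) h3,
        fun x hx => h8 _ (Finset.mem_image_of_mem _ hx)⟩
    · have h7 := h6 _ (Finset.mem_image_of_mem _ hx)
      simp only [Perm.coe_mul, Function.comp_apply, h4 x hx]
      rw [← Perm.eq_inv_iff_eq, Perm.inv_eq_iff_eq, h7]
      simp
  have h3 : Continuous fun t : closure S => ⇑k⁻¹ ∘ (t : ℕ → ℕ) :=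
    continuous_pi fun x => (continuous_of_discreteTopology (f := ⇑k⁻¹)).comp
      ((continuous_apply x).comp continuous_subtype_val)
  obtain ⟨t, ⟨g1, h4, h5⟩, g2, h6, h7⟩ :=
    (h1.inter_of_Gδ (hG.preimage continuous_subtype_val) (hG.preimage h3) h2).nonempty
  have h8 : k = g1 * g2⁻¹ := by
    rw [eq_mul_inv_iff_mul_eq]
    ext x
    have h9 := congrFun h7 x
    have h10 := congrFun h5 x
    simp only [Function.comp_apply] at h9 h10
    simp [h9, h10]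
  exact h8 ▸ G.mul_mem h4 (G.inv_mem h6)

/-- Many fixed points. -/
def Many (n : ℕ) (k : Perm ℕ) : Prop := ∃ S : Finset ℕ, n ≤ S.card ∧ ∀ x ∈ S, k x = x

section
variable {G : Subgroup (Perm ℕ)}
  (hO : ∀ F : Finset ℕ, ∃ T : Finset ℕ, ∀ z, ∃ h ∈ G, (∀ x ∈ F, h x = x) ∧ ∃ y ∈ T, h y = z)
include hO

theorem step (D : Finset ℕ) (g : Perm ℕ) (u : ℕ) (R : Perm ℕ → ℕ → Prop)
    (hR : ∀ h k : Perm ℕ, ∀ y, (∀ x ∈ D, h x = x) → h u = u → R k (h y) → R (h⁻¹ * k * h) y)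
    (h : ∀ n, ∃ k ∈ G, (∀ x ∈ D, k x = g x) ∧ Many n k ∧ ∃ z, R k z) :
    ∃ y, ∀ n, ∃ k ∈ G, (∀ x ∈ D, k x = g x) ∧ Many n k ∧ R k y := by
  obtain ⟨T, hT⟩ := hO (insert u (D ∪ D.image g))
  by_contra hc
  push Not at hc
  choose N hN using hc
  obtain ⟨k, h1, h2, ⟨S, h3, h4⟩, z, h5⟩ := h (T.sup N)
  obtain ⟨a, h6, h7, y, h8, rfl⟩ := hT z
  refine hN y (a⁻¹ * k * a) (G.mul_mem (G.mul_mem (G.inv_mem h6) h1) h6) (fun x hx => ?_)
    ⟨S.map a⁻¹.toEmbedding, ?_, ?_⟩ (hR a k y (fun x hx => h7 x (by simp [hx])) (h7 u (by simp)) h5)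
  · rw [Perm.mul_apply, Perm.mul_apply, h7 x (by simp [hx]), h2 x hx, Perm.inv_eq_iff_eq,
      h7 _ (Finset.mem_insert_of_mem (Finset.mem_union_right _ (Finset.mem_image_of_mem _ hx)))]
  · rw [Finset.card_map]
    exact (Finset.le_sup h8).trans h3
  · intro x hx
    obtain ⟨x, hx', rfl⟩ := Finset.mem_map.1 hx
    simp [h4 x hx']

omit hO in
/-- Finite conditions that extend to elements with many fixed points. -/
def Good (G : Subgroup (Perm ℕ)) (D : Finset ℕ) (g : Perm ℕ) : Prop :=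
  ∀ n, ∃ k ∈ G, (∀ x ∈ D, k x = g x) ∧ Many n k

omit hO in
theorem good_of {D : Finset ℕ} {g : Perm ℕ} {a b : ℕ}
    (h : ∀ n, ∃ k ∈ G, (∀ x ∈ D, k x = g x) ∧ Many n k ∧ k a = b) :
    ∃ g', Good G (insert a D) g' ∧ (∀ x ∈ D, g' x = g x) ∧ g' a = b := by
  obtain ⟨g', -, h1, -, h2⟩ := h 0
  refine ⟨g', fun n => ?_, h1, h2⟩
  obtain ⟨k, h3, h4, h5, h6⟩ := h n
  refine ⟨k, h3, fun x hx => ?_, h5⟩
  rcases Finset.mem_insert.1 hx with rfl | hx
  · rw [h2, h6]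
  · rw [h1 x hx, h4 x hx]

theorem good_step (u : ℕ) (D : Finset ℕ) (g : Perm ℕ) (h : Good G D g) :
    ∃ D' g', Good G D' g' ∧ D ⊆ D' ∧ (∀ x ∈ D, g' x = g x) ∧ u ∈ D' ∧ (∃ y ∈ D', g' y = u) ∧
      ∃ a ∈ D', a ∉ D ∧ g' a = a := by
  obtain ⟨a, ha⟩ := step hO D g u (fun k z => k z = z ∧ z ∉ D)
    (fun h k y h1 _ h2 => ⟨by simp [h2.1], fun hy => h2.2 ((h1 y hy).symm ▸ hy)⟩) (fun n => by
      obtain ⟨k, h1, h2, S, h3, h4⟩ := h (n + D.card + 1)
      obtain ⟨z, h5, h6⟩ := Finset.exists_mem_notMem_of_card_lt_card (s := D) (t := S) (by omega)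
      exact ⟨k, h1, h2, ⟨S, by omega, h4⟩, z, h4 z h5, h6⟩)
  have ha' : a ∉ D := by obtain ⟨k, -, -, -, -, h⟩ := ha 0; exact h
  obtain ⟨g1, h1, h2, h3⟩ := good_of (a := a) (b := a) fun n => by
    obtain ⟨k, h1, h2, h3, h4, -⟩ := ha n
    exact ⟨k, h1, h2, h3, h4⟩
  obtain ⟨v, hv⟩ := step hO (insert a D) g1 u (fun k z => k u = z)
    (fun h k y _ h1 h2 => by simp [h1, h2]) (fun n => by
      obtain ⟨k, h1, h2, h3⟩ := h1 n
      exact ⟨k, h1, h2, h3, _, rfl⟩)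
  obtain ⟨g2, h4, h5, -⟩ := good_of hv
  obtain ⟨y, hy⟩ := step hO (insert u (insert a D)) g2 u (fun k z => k z = u)
    (fun h k y _ h1 h2 => by simp [h2, Equiv.symm_apply_eq, h1]) (fun n => by
      obtain ⟨k, h1, h2, h3⟩ := h4 n
      exact ⟨k, h1, h2, h3, k⁻¹ u, by simp⟩)
  obtain ⟨g3, h7, h8, h9⟩ := good_of hy
  refine ⟨_, g3, h7, fun x hx => by simp [hx], fun x hx => ?_, by simp, ⟨y, by simp, h9⟩,
    a, by simp, ha', ?_⟩
  · rw [h8 x (by simp [hx]), h5 x (by simp [hx]), h2 x hx]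
  · rw [h8 a (by simp), h5 a (by simp), h3]

theorem good_start : ∃ u g, Good G {u} g ∧ g u ≠ u := by
  obtain ⟨u, hu⟩ := step hO ∅ 1 0 (fun k z => k z ≠ z)
    (fun h k y _ _ h2 => by simpa [Equiv.symm_apply_eq] using h2) (fun n => by
      obtain ⟨T, hT⟩ := hO (Finset.range n)
      obtain ⟨z, hz⟩ := Infinite.exists_notMem_finset T
      obtain ⟨k, h1, h2, y, h3, rfl⟩ := hT z
      exact ⟨k, h1, by simp, ⟨_, (Finset.card_range n).ge, h2⟩, y, fun h => hz (h.symm ▸ h3)⟩)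
  obtain ⟨v, hv⟩ := step hO ∅ 1 u (fun k z => k u = z ∧ z ≠ u)
    (fun h k y _ h1 h2 => ⟨by simp [h1, h2.1], fun h3 => h2.2 (h3 ▸ h1)⟩) (fun n => by
      obtain ⟨k, h1, h2, h3, h4⟩ := hu n
      exact ⟨k, h1, h2, h3, _, rfl, h4⟩)
  obtain ⟨g, h1, -, h2⟩ := good_of (a := u) (b := v) fun n => by
    obtain ⟨k, h1, h2, h3, h4, -⟩ := hv n
    exact ⟨k, h1, h2, h3, h4⟩
  obtain ⟨k, -, -, -, -, h3⟩ := hv 0
  exact ⟨u, g, h1, h2 ▸ h3⟩

theorem exists_limit : ∃ k : Perm ℕ, (∀ F : Finset ℕ, ∃ g ∈ G, ∀ x ∈ F, g x = k x) ∧ k ≠ 1 ∧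
    {n | k n = n}.Infinite := by
  obtain ⟨u, g0, h0, hu⟩ := good_start hO
  choose! Dn gn h1 h2 h3 h4 h5 h6 using good_step hO
  let s : ℕ → Finset ℕ × Perm ℕ := fun n => n.rec ({u}, g0) fun n p => (Dn n p.1 p.2, gn n p.1 p.2)
  have hs : ∀ n, Good G (s n).1 (s n).2 := fun n => by
    induction n with
    | zero => exact h0
    | succ n ih => exact h1 _ _ _ ih
  have hm : Monotone fun n => (s n).1 := monotone_nat_of_le_succ fun n => h2 _ _ _ (hs n)
  have ha : ∀ n m, n ≤ m → ∀ x ∈ (s n).1, (s m).2 x = (s n).2 x := by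
    intro n m hnm x hx
    induction m, hnm using Nat.le_induction with
    | base => rfl
    | succ m hnm ih => exact (h3 _ _ _ (hs m) x (hm hnm hx)).trans ih
  have hx : ∀ x, x ∈ (s (x + 1)).1 := fun x => h4 _ _ _ (hs x)
  let k : ℕ → ℕ := fun x => (s (x + 1)).2 x
  have hk : ∀ n, ∀ x ∈ (s n).1, k x = (s n).2 x := fun n x h =>
    (ha _ _ (le_max_left (x + 1) n) x (hx x)).symm.trans (ha _ _ (le_max_right _ _) x h)
  have hi : Function.Injective k := fun x y h => by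
    rw [hk (max x y + 1) x (hm (Nat.succ_le_succ (le_max_left x y)) (hx x)),
      hk (max x y + 1) y (hm (Nat.succ_le_succ (le_max_right x y)) (hx y))] at h
    exact (s (max x y + 1)).2.injective h
  have hsj : Function.Surjective k := fun y => by
    obtain ⟨x, h7, h8⟩ := h5 y _ _ (hs y)
    exact ⟨x, (hk (y + 1) x h7).trans h8⟩
  refine ⟨Equiv.ofBijective k ⟨hi, hsj⟩, fun F => ?_, fun h => hu ?_, fun h => ?_⟩
  · obtain ⟨g, h7, h8, -⟩ := hs (F.sup id + 1) 0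
    refine ⟨g, h7, fun x hx' => ?_⟩
    have h9 : x ∈ (s (F.sup id + 1)).1 :=
      hm (Nat.succ_le_succ (Finset.le_sup (f := id) hx')) (hx x)
    exact (h8 x h9).trans (hk (F.sup id + 1) x h9).symm
  · exact (hk 0 u (Finset.mem_singleton_self u)).symm.trans (DFunLike.congr_fun h u)
  · obtain ⟨N, hN⟩ := h.bddAbove
    obtain ⟨a, h7, h8, h9⟩ := h6 (N + 1) _ _ (hs (N + 1))
    exact h8 (hm (Nat.succ_le_succ (hN ((hk (N + 2) a h7).trans h9))) (hx a))

end

end Pool.Agent.H39.Mcg
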