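import Mathlib
import Pool.Agent.H39.NonBorel
import Pool.Agent.H39.Ana

set_option autoImplicit false

namespace Pool.Agent.H39.MonoidAct

open Set Filter Topology MeasureTheory Pool.Agent.H39.NonBorel Pool.Agent.H39.Ana

abbrev N := ℕ → ℕ

def M : Type := {p : ℕ × (ℕ → N) // ∀ i, p.1 ≤ i → p.2 i = 0}

instance : TopologicalSpace M :=
  inferInstanceAs (TopologicalSpace {p : ℕ × (ℕ → N) // ∀ i, p.1 ≤ i → p.2 i = 0})

theorem closed_M : IsClosed {p : ℕ × (ℕ → N) | ∀ i, p.1 ≤ i → p.2 i = 0} := by
  rw [ofPred_forall]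
  refine isClosed_iInter fun i => ?_
  have : {p : ℕ × (ℕ → N) | p.1 ≤ i → p.2 i = 0} = {p | i < p.1} ∪ {p | p.2 i = 0} := by
    ext p
    simp only [mem_ofPred_eq, mem_union]
    exact ⟨fun h => (lt_or_ge i p.1).imp id h, fun h h' => h.resolve_left (not_lt.2 h')⟩
  rw [this]
  refine IsClosed.union ?_ (isClosed_eq (by fun_prop) continuous_const)
  exact (isClosed_discrete {n : ℕ | i < n}).preimage continuous_fst

instance : PolishSpace M := closed_M.polishSpace

def cat (n : ℕ) (f g : ℕ → N) : ℕ → N := fun i => if i < n then f i else g (i - n)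

instance : Monoid M where
  mul a b := ⟨(a.1.1 + b.1.1, cat a.1.1 a.1.2 b.1.2), fun i hi => by
    simp only [cat] at hi ⊢
    rw [if_neg (by omega)]
    exact b.2 _ (by omega)⟩
  one := ⟨(0, 0), fun _ _ => rfl⟩
  mul_assoc a b c := by
    refine Subtype.ext (Prod.ext (add_assoc _ _ _) (funext fun i => ?_))
    change cat (a.1.1 + b.1.1) (cat a.1.1 a.1.2 b.1.2) c.1.2 i
      = cat a.1.1 a.1.2 (cat b.1.1 b.1.2 c.1.2) i
    simp only [cat]
    split_ifs <;> first | rfl | omega | (rw [Nat.sub_sub])
  one_mul a := by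
    refine Subtype.ext (Prod.ext (zero_add _) (funext fun i => ?_))
    change cat 0 0 a.1.2 i = a.1.2 i
    simp [cat]
  mul_one a := by
    refine Subtype.ext (Prod.ext (add_zero _) (funext fun i => ?_))
    change cat a.1.1 a.1.2 0 i = a.1.2 i
    simp only [cat]
    split_ifs with h
    · rfl
    · exact (a.2 i (not_lt.1 h)).symm

theorem continuous_cat : Continuous fun p : ℕ × (ℕ → N) × (ℕ → N) => cat p.1 p.2.1 p.2.2 := by
  refine continuous_prod_of_discrete_left.2 fun n => continuous_pi fun i => ?_
  simp only [cat]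
  split_ifs <;> fun_prop

instance : ContinuousMul M where
  continuous_mul := by
    refine Continuous.subtype_mk ?_ _
    have h1 : Continuous fun p : M × M => p.1.1 := continuous_subtype_val.comp continuous_fst
    have h2 : Continuous fun p : M × M => p.2.1 := continuous_subtype_val.comp continuous_snd
    exact (h1.fst.add h2.fst).prodMk
      (continuous_cat.comp (h1.fst.prodMk (h1.snd.prodMk h2.snd)))

def run {Y : Type} (b : N → Y → Y) : ℕ → (ℕ → N) → Y → Y
  | 0, _, y => y
  | n + 1, f, y => b (f 0) (run b n (fun i => f (i + 1)) y)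

theorem run_cat {Y : Type} (b : N → Y → Y) (n m : ℕ) (f g : ℕ → N) (y : Y) :
    run b (n + m) (cat n f g) y = run b n f (run b m g y) := by
  induction n generalizing f with
  | zero =>
    have : cat 0 f g = g := by funext i; simp [cat]
    simp [this, run]
  | succ n ih =>
    rw [show n + 1 + m = (n + m) + 1 by omega]
    simp only [run]
    have h1 : (fun i => cat (n + 1) f g (i + 1)) = cat n (fun i => f (i + 1)) g := by
      funext i
      simp [cat]
    rw [h1, ih]
    simp [cat]

theorem continuous_run {Y : Type} [TopologicalSpace Y] {b : N → Y → Y}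
    (hb : Continuous fun p : N × Y => b p.1 p.2) (n : ℕ) :
    Continuous fun p : (ℕ → N) × Y => run b n p.1 p.2 := by
  induction n with
  | zero => exact continuous_snd
  | succ n ih =>
    simp only [run]
    have h1 : Continuous fun p : (ℕ → N) × Y => ((fun i => p.1 (i + 1)), p.2) := by fun_prop
    exact hb.comp (((continuous_apply 0).comp continuous_fst).prodMk (ih.comp h1))

theorem run_rel {Y : Type} {b : N → Y → Y} {S : Y → Y → Prop} (h0 : ∀ y, S y y)
    (h1 : ∀ x y z, S x y → S y z → S x z) (hb : ∀ z y, S y (b z y)) (n : ℕ) (f : ℕ → N) (y : Y) :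
    S y (run b n f y) := by
  induction n generalizing f with
  | zero => exact h0 y
  | succ n ih => exact h1 _ _ _ (ih _) (hb _ _)

def c (n : ℕ) (w y : N) : N := fun m => if m < n then w m else if m = n then 0 else y (m - n - 1)

open Classical in
noncomputable def B (u w y : N) : N :=
  if h : ∃ i, y i ≠ u i then c (Nat.find h) w y else w

theorem B_diff {u w y : N} {n : ℕ} (h1 : y n ≠ u n) (h2 : ∀ i < n, y i = u i) :
    B u w y = c n w y := by
  classical
  have h : ∃ i, y i ≠ u i := ⟨n, h1⟩
  rw [B, dif_pos h]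
  congr 1
  exact (Nat.find_eq_iff h).2 ⟨h1, fun i hi => not_not.2 (h2 i hi)⟩

theorem B_agree {u w y : N} {j : ℕ} (h2 : ∀ i ≤ j, y i = u i) : B u w y j = w j := by
  classical
  rw [B]
  split_ifs with h
  · have : j < Nat.find h := (Nat.lt_find_iff h j).2 fun i hi => not_not.2 (h2 i hi)
    simp [c, this]
  · rfl

theorem B_congr {u w y u' w' y' : N} {j : ℕ} (hy : ∀ i ≤ j, y i = y' i)
    (hu : ∀ i ≤ j, u i = u' i) (hw : w j = w' j) : B u w y j = B u' w' y' j := by
  classical
  by_cases h : ∀ i ≤ j, y i = u i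
  · rw [B_agree h, B_agree fun i hi => by rw [← hy i hi, ← hu i hi, h i hi], hw]
  · push Not at h
    have h' : ∃ i, y i ≠ u i := h.imp fun _ h => h.2
    have h1 : Nat.find h' ≤ j := by
      obtain ⟨i, hi, hi'⟩ := h
      exact (Nat.find_min' h' hi').trans hi
    have h2 : ∀ i < Nat.find h', y i = u i := fun i hi => not_not.1 (Nat.find_min h' hi)
    rw [B_diff (Nat.find_spec h') h2, B_diff (n := Nat.find h')]
    · simp only [c]
      split_ifs
      · exact hw
      · rfl
      · exact hy _ (by omega)
    · rw [← hy _ h1, ← hu _ h1]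
      exact Nat.find_spec h'
    · intro i hi
      rw [← hy i (by omega), ← hu i (by omega)]
      exact h2 i hi

theorem continuous_B : Continuous fun p : N × N × N => B p.1 p.2.1 p.2.2 := by
  refine continuous_pi fun j => IsLocallyConstant.continuous ?_
  rw [IsLocallyConstant.iff_eventually_eq]
  intro p
  have h1 : ∀ᶠ q in 𝓝 p, ∀ i ∈ Finset.range (j + 1), q.1 i = p.1 i :=
    (eventually_all_finset _).2 fun i _ => ev_eq (f := fun q : N × N × N => q.1 i) (by fun_prop) p
  have h2 : ∀ᶠ q in 𝓝 p, ∀ i ∈ Finset.range (j + 1), q.2.2 i = p.2.2 i :=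
    (eventually_all_finset _).2 fun i _ =>
      ev_eq (f := fun q : N × N × N => q.2.2 i) (by fun_prop) p
  have h3 : ∀ᶠ q in 𝓝 p, q.2.1 j = p.2.1 j :=
    ev_eq (f := fun q : N × N × N => q.2.1 j) (by fun_prop) p
  filter_upwards [h1, h2, h3] with q h1 h2 h3
  exact B_congr (fun i hi => h2 i (Finset.mem_range.2 (by omega)))
    (fun i hi => h1 i (Finset.mem_range.2 (by omega))) h3

def Good (y : N) (k : ℕ) : Prop := (∀ m, k ≤ m → y m ≠ 0) ∧ ∀ m, k = m + 1 → y m = 0

theorem Good.unique {y : N} {k l : ℕ} (hk : Good y k) (hl : Good y l) : k = l := by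
  by_contra h
  rcases lt_or_gt_of_ne h with h | h
  · exact hk.1 (l - 1) (by omega) (hl.2 _ (by omega))
  · exact hl.1 (k - 1) (by omega) (hk.2 _ (by omega))

open Classical in
noncomputable def dec {X : Type} (d : N → X) (x0 : X) (y : N) : X :=
  if h : ∃ k, Good y k then d (fun i => y (i + h.choose)) else x0

theorem dec_good {X : Type} (d : N → X) (x0 : X) {y : N} {k : ℕ} (h : Good y k) :
    dec d x0 y = d (fun i => y (i + k)) := by
  have h' : ∃ k, Good y k := ⟨k, h⟩
  rw [dec, dif_pos h', h'.choose_spec.unique h]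

theorem dec_c {X : Type} (d : N → X) (x0 : X) (n : ℕ) (w y : N) :
    dec d x0 (c n w y) = dec d x0 y := by
  by_cases h : ∃ k, Good y k
  · obtain ⟨k, hk⟩ := h
    have h1 : Good (c n w y) (n + 1 + k) := by
      refine ⟨fun m hm => ?_, fun m hm => ?_⟩
      · simp only [c]
        rw [if_neg (by omega), if_neg (by omega)]
        exact hk.1 _ (by omega)
      · simp only [c]
        rw [if_neg (by omega)]
        split_ifs
        · rfl
        · exact hk.2 _ (by omega)
    rw [dec_good d x0 hk, dec_good d x0 h1]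
    congr 1
    funext i
    simp only [c]
    rw [if_neg (by omega), if_neg (by omega)]
    congr 1
    omega
  · have h1 : ¬ ∃ k, Good (c n w y) k := by
      rintro ⟨k, hk⟩
      have h2 : n < k := by
        by_contra h3
        exact hk.1 n (not_lt.1 h3) (by simp [c])
      refine h ⟨k - n - 1, fun m hm => ?_, fun m hm => ?_⟩
      · have := hk.1 (m + n + 1) (by omega)
        simp only [c] at this
        rw [if_neg (by omega), if_neg (by omega)] at this
        rwa [show m + n + 1 - n - 1 = m by omega] at this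
      · have := hk.2 (m + n + 1) (by omega)
        simp only [c] at this
        rw [if_neg (by omega), if_neg (by omega)] at this
        rwa [show m + n + 1 - n - 1 = m by omega] at this
    rw [dec, dec, dif_neg h, dif_neg h1]

theorem measurable_dec {X : Type} [MeasurableSpace X] {d : N → X} (hd : Measurable d) (x0 : X) :
    Measurable (dec d x0) := by
  intro S hS
  have hG : ∀ k, MeasurableSet {y : N | Good y k} := by
    intro k
    simp only [Good]
    measurability
  have : dec d x0 ⁻¹' S = (⋃ k, {y | Good y k} ∩ (fun y => d (fun i => y (i + k))) ⁻¹' S) ∪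
      ((⋃ k, {y | Good y k})ᶜ ∩ {_y | x0 ∈ S}) := by
    ext y
    simp only [mem_preimage, mem_union, mem_iUnion, mem_inter_iff, mem_ofPred_eq, mem_compl_iff]
    by_cases h : ∃ k, Good y k
    · obtain ⟨k, hk⟩ := h
      refine ⟨fun h => Or.inl ⟨k, hk, by rwa [← dec_good d x0 hk]⟩, ?_⟩
      rintro (⟨l, hl, h⟩ | ⟨h, -⟩)
      · rwa [dec_good d x0 hl]
      · exact absurd ⟨k, hk⟩ h
    · rw [dec, dif_neg h]
      refine ⟨fun h' => Or.inr ⟨h, h'⟩, ?_⟩
      rintro (⟨l, hl, -⟩ | ⟨-, h'⟩)
      · exact absurd ⟨l, hl⟩ h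
      · exact h'
  rw [this]
  refine (MeasurableSet.iUnion fun k => (hG k).inter ?_).union
    ((MeasurableSet.iUnion hG).compl.inter (MeasurableSet.const _))
  exact (hd.comp (measurable_pi_lambda _ fun i => measurable_pi_apply (i + k))) hS

theorem main (X : Type) [TopologicalSpace X] [PolishSpace X] [MeasurableSpace X] [BorelSpace X]
    [Nonempty X] (R : X → X → Prop) (h0 : ∀ x, R x x) (h1 : ∀ x y z, R x y → R y z → R x z)
    (hR : AnalyticSet {p : X × X | R p.1 p.2}) :
    ∃ a : M → N → N, Continuous (fun p : M × N => a p.1 p.2) ∧ (∀ y, a 1 y = y) ∧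
      (∀ g h y, a h (a g y) = a (h * g) y) ∧
      (∃ f : X → N, Measurable f ∧ ∀ x x', R x x' ↔ ∃ g, a g (f x) = f x') ∧
      (∃ f : N → X, Measurable f ∧ ∀ y y', (∃ g, a g y = y') ↔ R (f y) (f y')) := by
  classical
  obtain ⟨i, hi, hi'⟩ := MeasurableSpace.measurable_injection_nat_bool_of_countablySeparated X
  let s : X → N := fun x n => if i x n = true then 1 else 2
  have hs : Measurable s := measurable_pi_lambda _ fun n =>
    (measurable_of_countable fun b : Bool => if b = true then 1 else 2).comp
      ((measurable_pi_apply n).comp hi)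
  have hs' : Function.Injective s := by
    intro x x' h
    refine hi' (funext fun n => ?_)
    have := congrFun h n
    simp only [s] at this
    cases h1 : i x n <;> cases h2 : i x' n <;> simp_all
  have hemb : MeasurableEmbedding s := hs.measurableEmbedding hs'
  let p : N → X := dec hemb.invFun (Classical.arbitrary X)
  have hp : Measurable p := measurable_dec hemb.measurable_invFun _
  have hps : ∀ x, p (s x) = x := by
    intro x
    have : Good (s x) 0 := ⟨fun m _ => by simp only [s]; split_ifs <;> simp, fun m hm => by omega⟩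
    simp only [p]
    rw [dec_good _ _ this]
    exact hemb.leftInverse_invFun x
  have hR' : AnalyticSet {q : N × N | R (p q.1) (p q.2)} :=
    analytic_preimage (f := Prod.map p p) (hp.prodMap hp) hR
  rw [AnalyticSet] at hR'
  rcases hR' with hR' | ⟨F, hF, hR'⟩
  · have : ((0, 0) : N × N) ∈ {q : N × N | R (p q.1) (p q.2)} := h0 _
    rw [hR'] at this
    exact this.elim
  let b : N → N → N := fun z y => B (F z).1 (F z).2 y
  have hb : Continuous fun q : N × N => b q.1 q.2 :=
    continuous_B.comp ((hF.comp continuous_fst).fst.prodMk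
      ((hF.comp continuous_fst).snd.prodMk continuous_snd))
  have hb1 : ∀ z, b z (F z).1 = (F z).2 := fun z => funext fun j => B_agree fun _ _ => rfl
  have hb2 : ∀ z y, R (p y) (p (b z y)) := by
    intro z y
    by_cases h : ∃ i, y i ≠ (F z).1 i
    · have : b z y = c (Nat.find h) (F z).2 y :=
        B_diff (Nat.find_spec h) fun i hi => not_not.1 (Nat.find_min h hi)
      rw [this]
      simp only [p]
      rw [dec_c]
      exact h0 _
    · push Not at h
      have h' : y = (F z).1 := funext h
      rw [h', hb1]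
      have : F z ∈ {q : N × N | R (p q.1) (p q.2)} := hR' ▸ mem_range_self z
      exact this
  have key : ∀ y y', (∃ g : M, run b g.1.1 g.1.2 y = y') ↔ R (p y) (p y') := by
    intro y y'
    constructor
    · rintro ⟨g, rfl⟩
      exact run_rel (S := fun y y' => R (p y) (p y')) (fun _ => h0 _)
        (fun _ _ _ => h1 _ _ _) hb2 _ _ _
    · intro h
      have : (y, y') ∈ range F := hR' ▸ h
      obtain ⟨z, hz⟩ := this
      refine ⟨⟨(1, fun i => if i = 0 then z else 0), fun i hi => if_neg (by omega)⟩, ?_⟩
      have h2 := hb1 z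
      rw [hz] at h2
      simpa [run] using h2
  refine ⟨fun g y => run b g.1.1 g.1.2 y, ?_, fun _ => rfl, fun g h y => ?_,
    ⟨s, hs, fun x x' => ?_⟩, p, hp, key⟩
  · have h2 : Continuous fun q : ℕ × (ℕ → N) × N => run b q.1 q.2.1 q.2.2 :=
      continuous_prod_of_discrete_left.2 fun n => continuous_run hb n
    have h3 : Continuous fun q : M × N => q.1.1 := continuous_subtype_val.comp continuous_fst
    exact h2.comp (h3.fst.prodMk (h3.snd.prodMk continuous_snd))
  · exact (run_cat b _ _ _ _ y).symm
  · rw [key, hps, hps]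

end Pool.Agent.H39.MonoidAct
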