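import Mathlib
import Pool.Agent.H39.LN

set_option autoImplicit false

namespace Pool.Agent.H39.LN

open Set Filter Topology MeasureTheory TopologicalSpace

section
variable {X : Type} [MetricSpace X] [CompleteSpace X] [SecondCountableTopology X]
  {E : X → X → Prop} {R : ℕ → Set (X × X)}

omit [CompleteSpace X] in
theorem cond_unc {U : Set X} (h : ¬U.Countable) :
    ¬(U ∩ {x | ∀ V ∈ 𝓝 x, ¬V.Countable}).Countable := by
  intro h1
  have h2 : ∀ x ∈ {x : X | ∀ V ∈ 𝓝 x, ¬V.Countable}ᶜ, ∃ V ∈ 𝓝 x, V.Countable := fun x hx => by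
    simpa using hx
  choose! V h2 h3 using h2
  obtain ⟨s, h4, h5, h6⟩ := countable_cover_nhdsWithin fun x hx => mem_nhdsWithin_of_mem_nhds (h2 x hx)
  refine h ((h1.union ((h5.biUnion fun x hx => h3 x (h4 hx)).mono h6)).mono fun x hx => ?_)
  by_cases h7 : x ∈ {x : X | ∀ V ∈ 𝓝 x, ¬V.Countable}
  exacts [Or.inl ⟨hx, h7⟩, Or.inr h7]

omit [MetricSpace X] [CompleteSpace X] [SecondCountableTopology X] in
theorem choose_pts {ι : Type} (hE : Equivalence E) (hc : ∀ x, {y | E x y}.Countable)
    {V : ι → Set X} (hV : ∀ i, ¬(V i).Countable) {F : Set ι} (hF : F.Finite) :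
    ∃ p : ι → X, (∀ i, p i ∈ V i) ∧ ∀ i ∈ F, ∀ j ∈ F, E (p i) (p j) → i = j := by
  classical
  induction F, hF using Finite.induction_on with
  | empty =>
    have h : ∀ i, (V i).Nonempty := fun i =>
      nonempty_iff_ne_empty.2 fun h => hV i (h ▸ countable_empty)
    choose p hp using h
    exact ⟨p, hp, by simp⟩
  | @insert a F ha hF ih =>
    obtain ⟨p, h1, h2⟩ := ih
    obtain ⟨z, h3, h4⟩ := not_subset.1 fun h =>
      hV a ((hF.countable.biUnion fun i _ => hc (p i)).mono h)
    simp only [mem_iUnion, not_exists, mem_ofPred_eq] at h4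
    have h5 : ∀ i ∈ F, Function.update p a z i = p i := fun i hi =>
      Function.update_of_ne (fun h : i = a => ha (h ▸ hi)) _ _
    refine ⟨Function.update p a z, fun i => ?_, ?_⟩
    · rw [Function.update_apply]
      split_ifs with h
      exacts [h ▸ h3, h1 i]
    · rintro i (rfl | hi) j (rfl | hj) h
      · rfl
      · rw [h5 j hj, Function.update_self] at h
        exact (h4 j hj (hE.symm h)).elim
      · rw [h5 i hi, Function.update_self] at h
        exact (h4 i hi h).elim
      · rw [h5 i hi, h5 j hj] at h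
        exact h2 i hi j hj h

omit [CompleteSpace X] in
theorem myc_step (hE : Equivalence E) (hc : ∀ x, {y | E x y}.Countable) (hR : ∀ k, IsClosed (R k))
    (hRE : ∀ k, ∀ p ∈ R k, E p.1 p.2) (n : ℕ) (U : List Bool → Set X)
    (hU : ∀ s, IsOpen (U s) ∧ ¬(U s).Countable) :
    ∃ U' : List Bool → Set X, (∀ s, IsOpen (U' s) ∧ ¬(U' s).Countable) ∧
      ∀ s : List Bool, s.length = n + 1 → closure (U' s) ⊆ U s.tail ∧
        (∀ x ∈ U' s, ∀ y ∈ U' s, dist x y ≤ 1 / (n + 1)) ∧ ∀ t : List Bool, t.length = n + 1 →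
          s ≠ t → ∀ k ≤ n, ∀ x ∈ U' s, ∀ y ∈ U' t, (x, y) ∉ R k := by
  have hF := List.finite_length_eq Bool (n + 1)
  obtain ⟨p, h1, h2⟩ := choose_pts hE hc (fun s : List Bool => cond_unc (hU s.tail).2) hF
  have h3 : ∀ᶠ ε : ℝ in 𝓝[>] 0, (0 < ε ∧ ε < 1 / (n + 1) / 2) ∧
      ∀ s ∈ {s : List Bool | s.length = n + 1}, Metric.closedBall (p s) ε ⊆ U s.tail ∧
      ∀ t ∈ {s : List Bool | s.length = n + 1}, ∀ k ∈ Iic n, s ≠ t →
        Metric.closedBall (p s, p t) ε ⊆ (R k)ᶜ := by
    refine Eventually.and (Ioo_mem_nhdsGT (by positivity : (0 : ℝ) < 1 / (n + 1) / 2)) ?_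
    refine (eventually_all_finite hF).2 fun s hs => (eventually_nhdsWithin_of_eventually_nhds
      (eventually_closedBall_subset ((hU _).1.mem_nhds (h1 s).1))).and
      ((eventually_all_finite hF).2 fun t ht => (eventually_all_finite (finite_Iic n)).2
        fun k _ => ?_)
    by_cases h : s = t
    · simp [h]
    · exact (eventually_nhdsWithin_of_eventually_nhds (eventually_closedBall_subset
        ((hR k).isOpen_compl.mem_nhds fun h' => h (h2 s hs t ht (hRE k _ h'))))).mono
          fun _ h _ => h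
  obtain ⟨ε, ⟨h4, h5⟩, h6⟩ := h3.exists
  refine ⟨fun s => Metric.ball (p s) ε, fun s => ⟨Metric.isOpen_ball,
    (h1 s).2 _ (Metric.ball_mem_nhds _ h4)⟩, fun s hs => ⟨Metric.closure_ball_subset_closedBall.trans
      (h6 s hs).1, fun x hx y hy => ?_, fun t ht hst k hk x hx y hy => (h6 s hs).2 t ht k hk hst ?_⟩⟩
  · linarith [dist_triangle_right x y (p s), Metric.mem_ball.1 hx, Metric.mem_ball.1 hy]
  · rw [← closedBall_prod_same]
    exact ⟨Metric.ball_subset_closedBall hx, Metric.ball_subset_closedBall hy⟩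

theorem mycielski [Uncountable X] (hE : Equivalence E) (hc : ∀ x, {y | E x y}.Countable)
    (hR : ∀ k, IsClosed (R k)) (hRE : ∀ x y, E x y ↔ ∃ k, (x, y) ∈ R k) :
    ∃ θ : (ℕ → Bool) → X, Continuous θ ∧ ∀ α β, E (θ α) (θ β) → α = β := by
  choose! S h1 h2 h3 h4 using myc_step hE hc hR fun k p hp => (hRE _ _).2 ⟨k, hp⟩
  let T : ℕ → List Bool → Set X := fun n => n.rec (fun _ => univ) S
  have hT : ∀ n s, IsOpen (T n s) ∧ ¬(T n s).Countable := fun n => by
    induction n with
    | zero => exact fun _ => ⟨isOpen_univ, not_countable_univ⟩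
    | succ n ih => exact h1 _ _ ih
  let A : List Bool → Set X := fun l => T l.length l
  have h5 : CantorScheme.VanishingDiam A := fun α => by
    rw [← tendsto_add_atTop_iff_nat 1]
    refine tendsto_of_tendsto_of_tendsto_of_le_of_le tendsto_const_nhds
      (by simpa using ENNReal.tendsto_ofReal tendsto_one_div_add_atTop_nhds_zero_nat)
      (fun _ => zero_le) fun n => Metric.ediam_le fun x hx y hy => ?_
    simp only [A, PiNat.res_length] at hx hy
    rw [edist_dist, ← one_div]
    exact ENNReal.ofReal_le_ofReal (h3 n _ (hT n) _ (PiNat.res_length _ _) x hx y hy)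
  have h6 : (CantorScheme.inducedMap A).1 = univ :=
    CantorScheme.ClosureAntitone.map_of_vanishingDiam h5
      (fun l b => h2 l.length _ (hT _) (b :: l) rfl) fun l =>
        nonempty_iff_ne_empty.2 fun h => (hT l.length l).2 (by
          rw [show T l.length l = ∅ from h]; exact countable_empty)
  refine ⟨fun α => (CantorScheme.inducedMap A).2 ⟨α, h6 ▸ mem_univ α⟩,
    h5.map_continuous.comp (continuous_id.subtype_mk _), fun α β h => funext fun i => ?_⟩
  obtain ⟨k, hk⟩ := (hRE _ _).1 h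
  by_contra h7
  have h8 := fun γ => CantorScheme.map_mem (A := A) ⟨γ, h6 ▸ mem_univ γ⟩ (max i k + 1)
  simp only [A, PiNat.res_length] at h8
  exact h4 (max i k) _ (hT _) _ (PiNat.res_length _ _) _ (PiNat.res_length _ _)
    (fun h => h7 (PiNat.res_eq_res.1 h (by omega))) k (le_max_right _ _) _ (h8 α) _ (h8 β) hk

end

/-- An uncountable Borel set of pairwise inequivalent points. -/
theorem exists_transv {X : Type} [MeasurableSpace X] [StandardBorelSpace X] [Uncountable X]
    {E : X → X → Prop} (hE : Equivalence E) (hc : ∀ x, {y | E x y}.Countable) {g : ℕ → X → X}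
    (hg : ∀ n, Measurable (g n)) (hgE : ∀ x y, E x y ↔ ∃ n, g n x = y) :
    ∃ θ : (ℕ → ℕ) → X, MeasurableEmbedding θ ∧ ∀ α β, E (θ α) (θ β) → α = β := by
  have hb := measurableEmbedding_embeddingReal X
  obtain ⟨t, h1, h2, h3⟩ := refine_top (f := fun x => (embeddingReal X x,
    fun k => embeddingReal X (g k x))) (hb.measurable.prodMk
      (measurable_pi_lambda _ fun k => hb.measurable.comp (hg k)))
  let := upgradeIsCompletelyMetrizable X
  obtain ⟨θ, h4, h5⟩ := mycielski (R := fun k => {p | embeddingReal X (g k p.1) =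
    embeddingReal X p.2}) hE hc (fun k => isClosed_eq
      (((continuous_apply k).comp h3.snd).comp continuous_fst) (h3.fst.comp continuous_snd))
      fun x y => by simp [hgE, hb.injective.eq_iff]
  have := unc
  have h6 : ¬Countable (ℕ → ℕ) := fun _ => not_countable
    (Function.Injective.countable (f := fun (α : ℕ → Bool) n => (α n).toNat) fun α β h =>
      funext fun n => by
        have := congrFun h n
        revert this
        dsimp only
        cases α n <;> cases β n <;> simp)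
  let e := PolishSpace.measurableEquivOfNotCountable h6 (not_countable (α := ℕ → Bool))
  have : PolishSpace (ℕ → Bool) := {}
  exact ⟨θ ∘ e, (h4.measurableEmbedding fun α β h => h5 α β (h ▸ hE.refl _)).comp
    e.measurableEmbedding, fun α β h => e.injective (h5 _ _ h)⟩

theorem meas_inf {X : Type} [MeasurableSpace X] [StandardBorelSpace X] {g : ℕ → X → X}
    (hg : ∀ n, Measurable (g n)) {S : Set X} (hS : MeasurableSet S) :
    MeasurableSet {x | {y | (∃ n, g n x = y) ∧ y ∈ S}.Infinite} := by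
  have h : ∀ x, {y | (∃ n, g n x = y) ∧ y ∈ S}.Infinite ↔
      ∀ N, ∃ k, g k x ∈ S ∧ ∀ j < N, g j x ≠ g k x := fun x => by
    refine ⟨fun h N => ?_, fun h h' => ?_⟩
    · obtain ⟨_, ⟨⟨k, rfl⟩, h1⟩, h2⟩ := h.exists_notMem_finite
        ((finite_Iio N).image fun j => g j x)
      exact ⟨k, h1, fun j hj h3 => h2 ⟨j, hj, h3⟩⟩
    · have h1 : ∀ y ∈ {y | (∃ n, g n x = y) ∧ y ∈ S}, ∃ n, g n x = y := fun y hy => hy.1
      choose! m hm using h1
      obtain ⟨N, hN⟩ := (h'.image m).bddAbove
      obtain ⟨k, h2, h3⟩ := h (N + 1)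
      exact h3 _ (Nat.lt_succ_of_le (hN ⟨_, ⟨⟨k, rfl⟩, h2⟩, rfl⟩)) (hm _ ⟨⟨k, rfl⟩, h2⟩)
  simp only [h, ofPred_forall, ofPred_exists]
  refine MeasurableSet.iInter fun N => MeasurableSet.iUnion fun k => (hg k hS).inter ?_
  change MeasurableSet {x | ∀ j < N, g j x ≠ g k x}
  simp only [ofPred_forall]
  exact MeasurableSet.iInter fun j => MeasurableSet.iInter fun _ =>
    (measurableSet_eq_fun (hg j) (hg k)).compl

/-- A Borel function with infinite range on each class. -/
theorem exists_rho {X : Type} [MeasurableSpace X] [StandardBorelSpace X]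
    {E : X → X → Prop} (hE : Equivalence E) (hi : ∀ x, {y | E x y}.Infinite) {g : ℕ → X → X}
    (hg : ∀ n, Measurable (g n)) (hgE : ∀ x y, E x y ↔ ∃ n, g n x = y) :
    ∃ ρ : X → ℕ, Measurable ρ ∧ ∀ x N, ∃ y, E x y ∧ N ≤ ρ y := by
  have hb := measurableEmbedding_embeddingReal X
  let b : X → ℝ := fun x => Real.arctan (embeddingReal X x)
  have h1 : Measurable b := Real.continuous_arctan.measurable.comp hb.measurable
  have h2 : Function.Injective b := Real.arctan_injective.comp hb.injective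
  let I : X → Set ℝ := fun x => {r | {y | E x y ∧ y ∈ b ⁻¹' Iio r}.Infinite}
  have h3 : ∀ x, (I x).Nonempty := fun x => ⟨Real.pi / 2,
    (hi x).mono fun y hy => ⟨hy, Real.arctan_lt_pi_div_two _⟩⟩
  have h4 : ∀ x, BddBelow (I x) := fun x => ⟨-(Real.pi / 2), fun r hr => by
    obtain ⟨y, -, hy⟩ := Set.Infinite.nonempty hr
    exact ((Real.neg_pi_div_two_lt_arctan _).trans hy).le⟩
  have h5 : ∀ x a, sInf (I x) < a → a ∈ I x := fun x a h => by
    obtain ⟨r, h5, h6⟩ := (csInf_lt_iff (h4 x) (h3 x)).1 h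
    exact Set.Infinite.mono (fun y hy => ⟨hy.1, lt_trans hy.2 h6⟩) h5
  have h6 : Measurable fun x => sInf (I x) := measurable_of_Iio fun a => by
    have : (fun x => sInf (I x)) ⁻¹' Iio a = ⋃ q : ℚ, ⋃ _ : (q : ℝ) < a, {x | (q : ℝ) ∈ I x} := by
      ext x
      simp only [mem_preimage, mem_Iio, mem_iUnion, mem_ofPred_eq]
      refine ⟨fun h => ?_, fun ⟨q, h6, h7⟩ => (csInf_le (h4 x) h7).trans_lt h6⟩
      obtain ⟨q, h6, h7⟩ := exists_rat_btwn h
      exact ⟨q, h7, h5 x q h6⟩
    rw [this]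
    refine MeasurableSet.iUnion fun q => MeasurableSet.iUnion fun _ => ?_
    simp only [I, hgE]
    exact meas_inf hg (h1 measurableSet_Iio)
  refine ⟨fun x => ⌊|b x - sInf (I x)|⁻¹⌋₊, by fun_prop, fun x N => ?_⟩
  have h7 : (0 : ℝ) < (N + 1 : ℝ)⁻¹ := by positivity
  have h8 : sInf (I x) - (N + 1 : ℝ)⁻¹ / 2 ∉ I x := fun h => by linarith [csInf_le (h4 x) h]
  obtain ⟨y, ⟨h9, h10⟩, h11⟩ := (h5 x (sInf (I x) + (N + 1 : ℝ)⁻¹) (by linarith)).exists_notMem_finite
    ((not_infinite.1 h8).union ((finite_singleton (sInf (I x))).preimage h2.injOn))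
  simp only [mem_union, mem_ofPred_eq, h9, true_and, mem_preimage, mem_Iio, not_or, not_lt,
    mem_singleton_iff] at h10 h11
  have h12 : I y = I x := by
    ext r
    simp only [I, mem_ofPred_eq]
    rw [show {z | E y z ∧ z ∈ b ⁻¹' Iio r} = {z | E x z ∧ z ∈ b ⁻¹' Iio r} from
      Set.ext fun z => and_congr_left' ⟨hE.trans h9, hE.trans (hE.symm h9)⟩]
  refine ⟨y, h9, Nat.le_floor ?_⟩
  rw [h12]
  have h13 : |b y - sInf (I x)| ≤ (N + 1 : ℝ)⁻¹ := abs_le.2 ⟨by linarith [h11.1], by linarith⟩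
  have h14 := inv_anti₀ (abs_pos.2 (sub_ne_zero.2 h11.2)) h13
  rw [inv_inv] at h14
  linarith

/-- A Borel function that is onto the natural numbers on each class. -/
theorem exists_onto {X : Type} [MeasurableSpace X] [StandardBorelSpace X]
    {E : X → X → Prop} (hE : Equivalence E) (hi : ∀ x, {y | E x y}.Infinite) {g : ℕ → X → X}
    (hg : ∀ n, Measurable (g n)) (hgE : ∀ x y, E x y ↔ ∃ n, g n x = y) :
    ∃ c : X → ℕ, Measurable c ∧ ∀ x n, ∃ y, E x y ∧ c y = n := by
  classical
  obtain ⟨ρ, h1, h2⟩ := exists_rho hE hi hg hgE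
  refine ⟨fun x => Nat.count (fun r => ∃ y, E x y ∧ ρ y = r) (ρ x), ?_, fun x n => ?_⟩
  · have h3 : ∀ m, Measurable fun x => Nat.count (fun r => ∃ y, E x y ∧ ρ y = r) m := fun m => by
      induction m with
      | zero => simp
      | succ m ih =>
        simp only [Nat.count_succ]
        refine ih.add (Measurable.ite ?_ measurable_const measurable_const)
        simp only [hgE, exists_exists_eq_and, ofPred_exists]
        exact MeasurableSet.iUnion fun k => (h1.comp (hg k)) (measurableSet_singleton m)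
    exact (measurable_from_prod_countable_left (f := fun p : X × ℕ =>
      Nat.count (fun r => ∃ y, E p.1 y ∧ ρ y = r) p.2) h3).comp (measurable_id.prodMk h1)
  · have h3 : {r | ∃ y, E x y ∧ ρ y = r}.Infinite := infinite_of_not_bddAbove fun ⟨N, hN⟩ => by
      obtain ⟨y, h3, h4⟩ := h2 x (N + 1)
      exact absurd (hN ⟨y, h3, rfl⟩) (by omega)
    obtain ⟨y, h4, h5⟩ := Nat.nth_mem_of_infinite h3 n
    refine ⟨y, h4, ?_⟩
    have h6 : (fun r => ∃ z, E y z ∧ ρ z = r) = fun r => ∃ z, E x z ∧ ρ z = r :=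
      funext fun r => propext (exists_congr fun z =>
        and_congr_left' ⟨hE.trans h4, hE.trans (hE.symm h4)⟩)
    have h7 : ∀ p q : ℕ → Prop, p = q → ∀ m, Nat.count p m = Nat.count q m := by
      rintro _ _ rfl _
      rfl
    exact (h7 _ _ h6 _).trans (h5 ▸ Nat.count_nth_of_infinite h3 n)

end Pool.Agent.H39.LN
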