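import Mathlib

set_option autoImplicit false

namespace Pool.Agent.H39.PM
open Filter Topology

/-- Length space: the distance is the infimum of the lengths of joining paths. -/
def IsLengthSpace (X : Type) [MetricSpace X] : Prop :=
  ∀ x y : X, ∀ ε : ℝ, 0 < ε →
    ∃ γ : Path x y, eVariationOn γ Set.univ ≤ ENNReal.ofReal (dist x y + ε)

/-- Lebesgue covering dimension at most `n`: every finite open cover has a finite open
refinement in which each point lies in at most `n + 1` members. -/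
def CovDimLE (X : Type) [TopologicalSpace X] (n : ℕ) : Prop :=
  ∀ 𝒰 : Finset (Set X), (∀ U ∈ 𝒰, IsOpen U) → (∀ x, ∃ U ∈ 𝒰, x ∈ U) →
    ∃ 𝒱 : Finset (Set X), (∀ V ∈ 𝒱, IsOpen V) ∧ (∀ x, ∃ V ∈ 𝒱, x ∈ V) ∧
      (∀ V ∈ 𝒱, ∃ U ∈ 𝒰, V ⊆ U) ∧ ∀ x, {V | V ∈ 𝒱 ∧ x ∈ V}.ncard ≤ n + 1

/-- `S` is isometric to a linear simplex of dimension at most `d` in a Minkowski space. -/
def IsMinkSimplex (M : Type) [MetricSpace M] (d : ℕ) (S : Set M) : Prop :=
  ∃ (E : Type) (_ : NormedAddCommGroup E) (_ : NormedSpace ℝ E) (_ : FiniteDimensional ℝ E)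
    (k : ℕ) (v : Fin (k + 1) → E) (φ : S → E),
    k ≤ d ∧ AffineIndependent ℝ v ∧ Isometry φ ∧ Set.range φ = convexHull ℝ (Set.range v)

/-- A length space that is a finite union of Minkowski simplices of dimension at most `d`
(every Minkowski `d`-polyhedron is one: take the simplices of its triangulation). -/
def IsMinkPoly (M : Type) [MetricSpace M] (d : ℕ) : Prop :=
  IsLengthSpace M ∧
    ∃ 𝒮 : Finset (Set M), (∀ S ∈ 𝒮, IsMinkSimplex M d S) ∧ ∀ x, ∃ S ∈ 𝒮, x ∈ S

/-- `X` is isometric to the inverse limit of a sequence of such spaces with short bonding maps: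
`x ↦ (π n x)ₙ` is onto the set of threads and the distance is the limit of the distances. -/
def IsProMink (X : Type) [MetricSpace X] (d : ℕ) : Prop :=
  ∃ (M : ℕ → Type) (_ : ∀ n, MetricSpace (M n)) (f : ∀ n, M (n + 1) → M n) (π : ∀ n, X → M n),
    (∀ n, IsMinkPoly (M n) d) ∧ (∀ n, LipschitzWith 1 (f n)) ∧
    (∀ n x, f n (π (n + 1) x) = π n x) ∧
    (∀ z : ∀ n, M n, (∀ n, f n (z (n + 1)) = z n) → ∃ x, ∀ n, π n x = z n) ∧
    ∀ x y, Tendsto (fun n => dist (π n x) (π n y)) atTop (𝓝 (dist x y))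

end Pool.Agent.H39.PM
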