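import Mathlib

set_option autoImplicit false

namespace Pool.Agent.H39.PM
open Set Filter Topology

abbrev P := ℝ × ℝ
def n1 (p q : P) : ℝ := |p.1 - q.1| + |p.2 - q.2|
def K : Set P := Icc 0 1 ×ˢ Icc 0 1

structure Holes where
  q : ℕ → P
  r : ℕ → ℝ
  small : ∀ n, r n ≤ 1 / 100 / 2 ^ n
  ins : ∀ n, r n ≤ (q n).1 ∧ (q n).1 + r n ≤ 1 ∧ r n ≤ (q n).2 ∧ (q n).2 + r n ≤ 1
  disj : ∀ m n, m ≠ n → 0 < r m → 0 < r n → r m + r n ≤ n1 (q m) (q n)
  dense : ∀ p : P, ∀ ε > 0, ∃ z : P, dist z p < ε ∧ (z ∉ K ∨ ∃ n, n1 z (q n) < r n)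

noncomputable def rec' (step : ℕ → (ℕ → ℝ) → ℝ) (n : ℕ) : ℝ :=
  step n (fun m => if m < n then rec' step m else 0)
termination_by n

theorem n1_nonneg (p q : P) : 0 ≤ n1 p q := add_nonneg (abs_nonneg _) (abs_nonneg _)
theorem n1_comm (p q : P) : n1 p q = n1 q p := by
  unfold n1; rw [abs_sub_comm p.1, abs_sub_comm p.2]
theorem n1_tri (p q z : P) : n1 p z ≤ n1 p q + n1 q z := by
  unfold n1
  linarith [abs_sub_le p.1 q.1 z.1, abs_sub_le p.2 q.2 z.2]

theorem exists_holes : Nonempty Holes := by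
  obtain ⟨q, hq⟩ : ∃ q : ℕ → (Ioo (0 : ℝ) 1 ×ˢ Ioo (0 : ℝ) 1 : Set P), DenseRange q := by
    haveI : Nonempty (Ioo (0 : ℝ) 1 ×ˢ Ioo (0 : ℝ) 1 : Set P) :=
      ⟨⟨(1 / 2, 1 / 2), by constructor <;> constructor <;> norm_num⟩⟩
    exact TopologicalSpace.exists_dense_seq _
  have hstep : ∀ (n : ℕ) (s : ℕ → ℝ), ∃ ρ : ℝ, ρ ≤ 1 / 100 / 2 ^ n ∧
      (ρ ≤ (q n).1.1 ∧ (q n).1.1 + ρ ≤ 1 ∧ ρ ≤ (q n).1.2 ∧ (q n).1.2 + ρ ≤ 1) ∧
      (0 < ρ → ∀ m < n, 0 < s m → s m + ρ ≤ n1 (q m) (q n)) ∧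
      (0 < ρ ∨ ∃ m < n, 0 < s m ∧ n1 (q m) (q n) ≤ s m) := by
    intro n s
    obtain ⟨⟨h1, h2⟩, h3, h4⟩ := (q n).2
    by_cases h : ∃ m < n, 0 < s m ∧ n1 (q m) (q n) ≤ s m
    · exact ⟨0, by positivity, ⟨h1.le, by linarith, h3.le, by linarith⟩,
        fun h => absurd h (lt_irrefl _), Or.inr h⟩
    · push Not at h
      have e0 : ∀ a : ℝ, 0 < a → ∀ᶠ ρ in 𝓝[>] (0 : ℝ), ρ ≤ a := fun a ha =>
        mem_nhdsWithin_of_mem_nhds (Iic_mem_nhds ha)
      have e1 : ∀ᶠ ρ in 𝓝[>] (0 : ℝ), ∀ m ∈ Finset.range n, 0 < s m → s m + ρ ≤ n1 (q m) (q n) := by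
        rw [eventually_all_finset]
        intro m hm
        by_cases hs : 0 < s m
        · filter_upwards [e0 _ (sub_pos.2 (h m (Finset.mem_range.1 hm) hs))] with ρ hρ _
          linarith
        · exact Eventually.of_forall fun _ h => absurd h hs
      have e2 : ∀ᶠ ρ in 𝓝[>] (0 : ℝ), 0 < ρ := self_mem_nhdsWithin
      obtain ⟨ρ, a0, a1, a2, a3, a4, a5, a6⟩ := (e2.and ((e0 (1 / 100 / 2 ^ n)
        (by positivity)).and ((e0 _ h1).and ((e0 _ (sub_pos.2 h2)).and ((e0 _ h3).and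
        ((e0 _ (sub_pos.2 h4)).and e1)))))).exists
      exact ⟨ρ, a1, ⟨a2, by linarith, a4, by linarith⟩,
        fun _ m hm => a6 m (Finset.mem_range.2 hm), Or.inl a0⟩
  choose step h1 h2 h3 h4 using hstep
  have hr : ∀ n, rec' step n = step n (fun m => if m < n then rec' step m else 0) :=
    fun n => by rw [rec']
  have hd : ∀ m n, m < n → 0 < rec' step m → 0 < rec' step n →
      rec' step m + rec' step n ≤ n1 (q m) (q n) := by
    intro m n hmn hm hn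
    have := h3 n _ (hr n ▸ hn) m hmn (by simpa [hmn] using hm)
    rw [← hr n] at this
    simpa [hmn] using this
  refine ⟨⟨fun n => q n, rec' step, fun n => hr n ▸ h1 n _, fun n => hr n ▸ h2 n _, ?_, ?_⟩⟩
  · intro m n hmn hm hn
    rcases lt_or_gt_of_ne hmn with h | h
    · exact hd m n h hm hn
    · rw [add_comm, n1_comm]; exact hd n m h hn hm
  · intro p ε hε
    by_cases hp : p ∈ K
    swap
    · exact ⟨p, by simpa using hε, Or.inl hp⟩
    have hcl : p ∈ closure (Ioo (0 : ℝ) 1 ×ˢ Ioo (0 : ℝ) 1 : Set P) := by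
      rw [closure_prod_eq, closure_Ioo (by norm_num)]; exact hp
    obtain ⟨w, hw, hpw⟩ := Metric.mem_closure_iff.1 hcl (ε / 3) (by positivity)
    obtain ⟨n, hn⟩ := Metric.denseRange_iff.1 hq ⟨w, hw⟩ (ε / 3) (by positivity)
    have hn' : dist w (q n).1 < ε / 3 := hn
    have hpn : dist (q n).1 p < 2 * ε / 3 := by
      have := dist_triangle p w (q n).1
      rw [dist_comm]; linarith
    rcases h4 n (fun m => if m < n then rec' step m else 0) with h | ⟨m, hm, h5, h6⟩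
    · refine ⟨q n, by linarith, Or.inr ⟨n, ?_⟩⟩
      rw [← hr n] at h
      simpa [n1] using h
    · simp only [hm, if_true] at h5 h6
      have hc : ContinuousAt (fun t : ℝ => (q n).1 + t • ((q m).1 - (q n).1)) 0 := by fun_prop
      have h7 : ∀ᶠ t in 𝓝 (0 : ℝ), dist ((q n).1 + t • ((q m).1 - (q n).1)) (q n).1 < ε / 3 := by
        have := Metric.tendsto_nhds.1 hc (ε / 3) (by positivity)
        simpa using this
      have e2 : ∀ᶠ ρ in 𝓝[>] (0 : ℝ), 0 < ρ := self_mem_nhdsWithin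
      have e3 : ∀ᶠ ρ in 𝓝[>] (0 : ℝ), ρ ≤ 1 :=
        mem_nhdsWithin_of_mem_nhds (Iic_mem_nhds (show (0 : ℝ) < 1 by norm_num))
      obtain ⟨t, ht0, ht1, ht2⟩ := (e2.and (e3.and (h7.filter_mono nhdsWithin_le_nhds))).exists
      refine ⟨_, (dist_triangle _ (q n).1 p).trans_lt (by linarith), Or.inr ⟨m, ?_⟩⟩
      have h8 : n1 ((q n).1 + t • ((q m).1 - (q n).1)) (q m).1 = (1 - t) * n1 (q m) (q n) := by
        have h9 : (0 : ℝ) ≤ 1 - t := sub_nonneg.2 ht1
        unfold n1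
        rw [mul_add, ← abs_of_nonneg h9, ← abs_mul, ← abs_mul, ← abs_neg ((1 - t) * _),
          ← abs_neg ((1 - t) * ((q m).1.2 - _))]
        congr 2 <;> simp <;> ring
      change n1 _ (q m).1 < rec' step m
      rw [h8]
      have ht0' : 0 < t := ht0
      nlinarith [n1_nonneg (q m).1 (q n).1]

def Holes.X (H : Holes) : Set P := {p | p ∈ K ∧ ∀ n, H.r n ≤ n1 p (H.q n)}

def Holes.swap (H : Holes) : Holes where
  q n := (H.q n).swap
  r := H.r
  small := H.small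
  ins n := ⟨(H.ins n).2.2.1, (H.ins n).2.2.2, (H.ins n).1, (H.ins n).2.1⟩
  disj m n h h1 h2 := by
    have := H.disj m n h h1 h2
    simp only [n1, Prod.fst_swap, Prod.snd_swap] at this ⊢
    linarith
  dense p ε hε := by
    obtain ⟨z, h1, h2⟩ := H.dense p.swap ε hε
    refine ⟨z.swap, by rwa [Prod.dist_eq, max_comm] , ?_⟩
    rcases h2 with h | ⟨n, h⟩
    · exact Or.inl fun h' => h ⟨h'.2, h'.1⟩
    · refine Or.inr ⟨n, ?_⟩
      simp only [n1, Prod.fst_swap, Prod.snd_swap] at h ⊢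
      linarith

theorem Holes.mem_swap (H : Holes) (p : P) : p.swap ∈ H.swap.X ↔ p ∈ H.X := by
  simp only [Holes.X, Holes.swap, K, mem_setOf_eq, mem_prod, n1, Prod.fst_swap, Prod.snd_swap,
    and_comm (a := p.2 ∈ Icc (0 : ℝ) 1), add_comm |p.2 - _|]

def Pth (X : Set P) (p q : P) (L : ℝ) : Prop :=
  0 ≤ L ∧ ∃ γ : ℝ → P, (∀ s t, dist (γ s) (γ t) ≤ |s - t|) ∧ γ 0 = p ∧ γ L = q ∧
    ∀ t ∈ Icc 0 L, γ t ∈ X

theorem Pth.symm {X : Set P} {p q : P} {L : ℝ} (h : Pth X p q L) : Pth X q p L := by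
  obtain ⟨hL, γ, h1, h2, h3, h4⟩ := h
  refine ⟨hL, fun t => γ (L - t), fun s t => (h1 _ _).trans_eq ?_, by simpa using h3,
    by simpa using h2, fun t ht => h4 _ ⟨by linarith [ht.2], by linarith [ht.1]⟩⟩
  rw [abs_sub_comm s t]; congr 1; ring

theorem Pth.trans {X : Set P} {p q z : P} {L L' : ℝ} (h : Pth X p q L) (h' : Pth X q z L') :
    Pth X p z (L + L') := by
  obtain ⟨hL, γ, h1, h2, h3, h4⟩ := h
  obtain ⟨hL', γ', h1', h2', h3', h4'⟩ := h'
  have key : ∀ s t, s ≤ L → ¬ t ≤ L → dist (γ s) (γ' (t - L)) ≤ |s - t| := by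
    intro s t hs ht
    have a := h1 s L
    have b := h1' 0 (t - L)
    rw [h3] at a
    rw [h2'] at b
    rw [abs_of_nonpos (by linarith)] at a b ⊢
    linarith [dist_triangle (γ s) q (γ' (t - L))]
  refine ⟨by linarith, fun t => if t ≤ L then γ t else γ' (t - L), fun s t => ?_, by simp [hL, h2],
    ?_, fun t ht => ?_⟩
  · dsimp only
    split_ifs with hs ht ht
    · exact h1 s t
    · exact key s t hs ht
    · rw [dist_comm, abs_sub_comm]; exact key t s ht hs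
    · exact (h1' _ _).trans_eq (by congr 1; ring)
  · dsimp only
    split_ifs with h
    · have : L' = 0 := by linarith
      rw [← h3', this, add_zero, h3, h2']
    · simpa using h3'
  · dsimp only
    split_ifs with h
    · exact h4 t ⟨ht.1, h⟩
    · exact h4' _ ⟨by linarith, by linarith [ht.2]⟩

theorem Pth.dist_le {X : Set P} {p q : P} {L : ℝ} (h : Pth X p q L) : dist p q ≤ L := by
  obtain ⟨hL, γ, h1, h2, h3, -⟩ := h
  have := h1 0 L
  rwa [h2, h3, zero_sub, abs_neg, abs_of_nonneg hL] at this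

open Classical in
noncomputable def Holes.phi (H : Holes) (y x : ℝ) : ℝ :=
  if h : ∃ n, n1 (x, y) (H.q n) < H.r n then
    (if (H.q h.choose).2 ≤ y then 1 else -1) * (H.r h.choose - n1 (x, y) (H.q h.choose)) else 0

theorem Holes.uniq (H : Holes) {p : P} {m n : ℕ} (hm : n1 p (H.q m) < H.r m)
    (hn : n1 p (H.q n) < H.r n) : m = n := by
  by_contra h
  have := H.disj m n h ((n1_nonneg _ _).trans_lt hm) ((n1_nonneg _ _).trans_lt hn)
  have h2 := n1_tri (H.q m) p (H.q n)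
  rw [n1_comm (H.q m) p] at h2
  linarith

theorem Holes.phi_in (H : Holes) {y x : ℝ} {n : ℕ} (hn : n1 (x, y) (H.q n) < H.r n) :
    H.phi y x = (if (H.q n).2 ≤ y then 1 else -1) * (H.r n - n1 (x, y) (H.q n)) := by
  have h : ∃ n, n1 (x, y) (H.q n) < H.r n := ⟨n, hn⟩
  rw [Holes.phi, dif_pos h, H.uniq h.choose_spec hn]

theorem Holes.phi_out (H : Holes) {y x : ℝ} (h : ∀ n, H.r n ≤ n1 (x, y) (H.q n)) :
    H.phi y x = 0 := by
  rw [Holes.phi, dif_neg]
  push Not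
  exact h

theorem Holes.phi_lip (H : Holes) (y x x' : ℝ) : |H.phi y x - H.phi y x'| ≤ 2 * |x - x'| := by
  have hn1 : ∀ (a b : ℝ) (c : P), n1 (a, y) c ≤ n1 (b, y) c + |a - b| := fun a b c => by
    simp only [n1]; linarith [abs_sub_le a b c.1]
  have hs : ∀ n, |(if (H.q n).2 ≤ y then (1 : ℝ) else -1)| = 1 := fun n => by
    split_ifs <;> simp
  have hsm : ∀ a b : ℝ, (∀ n, n1 (a, y) (H.q n) < H.r n → ¬ n1 (b, y) (H.q n) < H.r n) →
      |H.phi y a| ≤ |a - b| := by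
    intro a b h
    by_cases h1 : ∃ n, n1 (a, y) (H.q n) < H.r n
    · obtain ⟨n, hn⟩ := h1
      rw [H.phi_in hn, abs_mul, hs, one_mul, abs_of_pos (sub_pos.2 hn), abs_sub_comm]
      linarith [hn1 b a (H.q n), not_lt.1 (h n hn)]
    · rw [H.phi_out (by push Not at h1; exact h1)]; simp
  by_cases h : ∃ n, n1 (x, y) (H.q n) < H.r n ∧ n1 (x', y) (H.q n) < H.r n
  · obtain ⟨n, h1, h2⟩ := h
    rw [H.phi_in h1, H.phi_in h2, ← mul_sub, abs_mul, hs, one_mul, abs_le]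
    have a := hn1 x x' (H.q n)
    have b := hn1 x' x (H.q n)
    rw [abs_sub_comm x' x] at b
    constructor <;> linarith [abs_nonneg (x - x')]
  · push Not at h
    have a := hsm x x' (fun n hn => not_lt.2 (h n hn))
    have b := hsm x' x (fun n hn hn' => not_lt.2 (h n hn') hn)
    rw [abs_sub_comm x' x] at b
    linarith [abs_sub (H.phi y x) (H.phi y x')]

theorem Holes.phi_mem (H : Holes) {y x : ℝ} (hx : x ∈ Icc (0 : ℝ) 1) (hy : y ∈ Icc (0 : ℝ) 1) :
    (x, y + H.phi y x) ∈ H.X := by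
  by_cases h1 : ∃ n, n1 (x, y) (H.q n) < H.r n
  · obtain ⟨n, hn⟩ := h1
    have e : n1 (x, y + H.phi y x) (H.q n) = H.r n := by
      rw [H.phi_in hn]
      simp only [n1] at hn ⊢
      split_ifs with h
      · rw [abs_of_nonneg (sub_nonneg.2 h)] at hn ⊢
        rw [abs_of_nonneg (a := y + _ - _) (by linarith)]; ring
      · rw [abs_of_neg (a := y - _) (by linarith)] at hn ⊢
        rw [abs_of_nonpos (a := y + _ - _) (by linarith)]; ring
    obtain ⟨-, -, i1, i2⟩ := H.ins n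
    refine ⟨⟨hx, ?_⟩, fun m => ?_⟩
    · have : |y + H.phi y x - (H.q n).2| ≤ H.r n := by
        rw [← e]; simp only [n1]; linarith [abs_nonneg (x - (H.q n).1)]
      rw [abs_le] at this
      constructor <;> dsimp only <;> linarith
    · by_cases hmn : m = n
      · rw [hmn, e]
      · by_contra h
        have h2 := H.disj m n hmn ((n1_nonneg _ _).trans_lt (not_le.1 h))
          ((n1_nonneg _ _).trans_lt hn)
        have h3 := n1_tri (H.q m) (x, y + H.phi y x) (H.q n)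
        rw [n1_comm (H.q m) (x, _)] at h3
        linarith
  · push Not at h1
    rw [H.phi_out h1, add_zero]
    exact ⟨⟨hx, hy⟩, h1⟩

theorem Holes.hpath (H : Holes) {p : P} (hp : p ∈ H.X) {x : ℝ} (hx : x ∈ Icc (0 : ℝ) 1) :
    Pth H.X p (x, p.2 + H.phi p.2 x) (2 * |x - p.1|) := by
  obtain ⟨σ, hσ, hσ'⟩ : ∃ σ : ℝ, |σ| = 1 ∧ σ * |x - p.1| = x - p.1 := by
    rcases le_total 0 (x - p.1) with h | h
    · exact ⟨1, by simp, by rw [abs_of_nonneg h, one_mul]⟩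
    · exact ⟨-1, by simp, by rw [abs_of_nonpos h]; ring⟩
  refine ⟨by positivity, fun s => (p.1 + σ * (s / 2), p.2 + H.phi p.2 (p.1 + σ * (s / 2))),
    fun s t => ?_, ?_, ?_, fun t ht => H.phi_mem ?_ hp.1.2⟩
  · have e : |p.1 + σ * (s / 2) - (p.1 + σ * (t / 2))| = |s - t| / 2 := by
      rw [show p.1 + σ * (s / 2) - (p.1 + σ * (t / 2)) = σ * ((s - t) / 2) by ring, abs_mul, hσ,
        one_mul, abs_div, abs_two]
    have := H.phi_lip p.2 (p.1 + σ * (s / 2)) (p.1 + σ * (t / 2))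
    rw [Prod.dist_eq, Real.dist_eq, Real.dist_eq, e, add_sub_add_left_eq_sub]
    rw [e] at this
    exact max_le (by linarith [abs_nonneg (s - t)]) (by linarith)
  · simp [H.phi_out (x := p.1) (y := p.2) hp.2]
  · simp [hσ']
  · obtain ⟨⟨a, b⟩, -⟩ := hp.1
    obtain ⟨c, d⟩ := hx
    obtain ⟨e, f⟩ := ht
    rcases (abs_eq zero_le_one).1 hσ with rfl | rfl <;> constructor <;> linarith

theorem Holes.conn (H : Holes) {p z : P} (hp : p ∈ H.X) (hz : z ∈ H.X) :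
    ∃ L ≤ 8 * dist p z, Pth H.X p z L := by
  have h1 := H.hpath hp hz.1.1
  have h2 : (z.1, p.2 + H.phi p.2 z.1) ∈ H.X := H.phi_mem hz.1.1 hp.1.2
  have h3 := H.swap.hpath ((H.mem_swap _).2 h2) hz.1.2
  have h4 : H.swap.phi z.1 z.2 = 0 := H.swap.phi_out ((H.mem_swap z).2 hz).2
  simp only [Prod.swap_prod_mk, h4, add_zero] at h3
  have h5 : Pth H.X (z.1, p.2 + H.phi p.2 z.1) z (2 * |z.2 - (p.2 + H.phi p.2 z.1)|) := by
    obtain ⟨hL, γ, a, b, c, d⟩ := h3
    refine ⟨hL, fun t => (γ t).swap, fun s t => ?_, by simp [b], by simp [c], fun t ht => ?_⟩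
    · have := a s t
      rwa [Prod.dist_eq, max_comm] at this
    · exact (H.mem_swap _).1 (d t ht)
  refine ⟨_, ?_, h1.trans h5⟩
  have h6 := H.phi_lip p.2 z.1 p.1
  rw [H.phi_out (x := p.1) (y := p.2) hp.2, sub_zero] at h6
  have h7 : |z.1 - p.1| ≤ dist p z := by
    rw [dist_comm, Prod.dist_eq]; exact le_max_left _ _
  have h8 : |z.2 - p.2| ≤ dist p z := by
    rw [dist_comm, Prod.dist_eq]; exact le_max_right _ _
  have h9 := abs_sub (z.2 - p.2) (H.phi p.2 z.1)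
  rw [show z.2 - (p.2 + H.phi p.2 z.1) = z.2 - p.2 - H.phi p.2 z.1 by ring]
  linarith

end Pool.Agent.H39.PM
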