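import Mathlib
import Pool.Agent.H39.PM0
import Pool.Agent.H39.PM1

set_option autoImplicit false

namespace Pool.Agent.H39.PM
open Set Filter Topology

@[ext] structure Sp (H : Holes) where
  val : P
  mem : val ∈ H.X

namespace Sp
variable {H : Holes}

noncomputable def d (x y : Sp H) : ℝ := sInf {L | Pth H.X x.val y.val L}

theorem ne (x y : Sp H) : {L | Pth H.X x.val y.val L}.Nonempty := by
  obtain ⟨L, -, h⟩ := H.conn x.mem y.mem
  exact ⟨L, h⟩

theorem d_le {x y : Sp H} {L : ℝ} (h : Pth H.X x.val y.val L) : d x y ≤ L :=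
  csInf_le ⟨0, fun _ h => h.1⟩ h

theorem le_d (x y : Sp H) : dist x.val y.val ≤ d x y :=
  le_csInf (ne x y) fun _ h => h.dist_le

theorem d_le8 (x y : Sp H) : d x y ≤ 8 * dist x.val y.val := by
  obtain ⟨L, h1, h⟩ := H.conn x.mem y.mem
  exact (d_le h).trans h1

noncomputable instance : MetricSpace (Sp H) where
  dist := d
  dist_self x := le_antisymm (by simpa using d_le8 x x) (dist_nonneg.trans (le_d x x))
  dist_comm x y := by
    unfold d
    congr 1
    ext L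
    exact ⟨Pth.symm, Pth.symm⟩
  dist_triangle x y z := by
    have h : ∀ L, Pth H.X x.val y.val L → d x z - L ≤ d y z := fun L hL =>
      le_csInf (ne y z) fun L' hL' => by linarith [d_le (x := x) (y := z) (hL.trans hL')]
    have : d x z - d y z ≤ d x y := le_csInf (ne x y) fun L hL => by linarith [h L hL]
    linarith
  eq_of_dist_eq_zero {x y} h := by
    have := le_d x y
    rw [h] at this
    exact Sp.ext (dist_le_zero.1 this)

theorem le_dist (x y : Sp H) : dist x.val y.val ≤ dist x y := le_d x y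
theorem dist_le8 (x y : Sp H) : dist x y ≤ 8 * dist x.val y.val := d_le8 x y

theorem cont_val : Continuous (val : Sp H → P) :=
  (LipschitzWith.of_dist_le_mul (K := 1) fun x y => by simpa using le_dist x y).continuous

end Sp

theorem K_compact : IsCompact K := isCompact_Icc.prod isCompact_Icc

theorem Holes.X_closed (H : Holes) : IsClosed H.X := by
  have : H.X = K ∩ ⋂ n, {p | H.r n ≤ n1 p (H.q n)} := by
    ext p; simp [Holes.X]
  rw [this]
  refine K_compact.isClosed.inter (isClosed_iInter fun n => isClosed_le continuous_const ?_)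
  unfold n1; fun_prop

theorem Holes.X_compact (H : Holes) : IsCompact H.X :=
  K_compact.of_isClosed_subset H.X_closed fun _ h => h.1

theorem Holes.X_dense (H : Holes) : Dense H.Xᶜ := by
  rw [Metric.dense_iff]
  intro p ε hε
  obtain ⟨z, h1, h2⟩ := H.dense p ε hε
  refine ⟨z, h1, fun hz => ?_⟩
  rcases h2 with h | ⟨n, h⟩
  · exact h hz.1
  · exact not_le.2 h (hz.2 n)

noncomputable def Holes.mk' (H : Holes) (p : H.X) : Sp H := ⟨p.1, p.2⟩

theorem Holes.cont_mk' (H : Holes) : Continuous H.mk' :=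
  (LipschitzWith.of_dist_le_mul (K := 8) fun x y =>
    Sp.dist_le8 (H.mk' x) (H.mk' y)).continuous

instance (H : Holes) : CompactSpace (Sp H) := by
  haveI : CompactSpace H.X := isCompact_iff_compactSpace.1 H.X_compact
  have : range H.mk' = univ := eq_univ_of_forall fun x => ⟨⟨x.val, x.mem⟩, rfl⟩
  exact ⟨this ▸ isCompact_range H.cont_mk'⟩

theorem Holes.length (H : Holes) : IsLengthSpace (Sp H) := by
  intro x y ε hε
  obtain ⟨L, hL, hlt⟩ := exists_lt_of_csInf_lt (Sp.ne x y)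
    (show Sp.d x y < Sp.d x y + ε by linarith)
  obtain ⟨hL0, γ, h1, h2, h3, h4⟩ := hL
  classical
  let f : ℝ → Sp H := fun t => if h : t ∈ Icc 0 L then ⟨γ t, h4 t h⟩ else x
  have hf0 : ∀ s ∈ Icc 0 L, ∀ t ∈ Icc 0 L, s ≤ t → dist (f s) (f t) ≤ t - s := by
    intro s hs t ht hst
    refine Sp.d_le ⟨by linarith, fun u => γ (s + u), fun a b => (h1 _ _).trans_eq ?_, ?_, ?_,
      fun u hu => h4 _ ⟨by linarith [hs.1, hu.1], by linarith [hu.2, ht.2]⟩⟩
    · rw [add_sub_add_left_eq_sub]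
    · simp only [f, dif_pos hs, add_zero]
    · simp only [f, dif_pos ht, add_sub_cancel]
  have hf : LipschitzOnWith 1 f (Icc 0 L) := by
    refine LipschitzOnWith.of_dist_le_mul fun s hs t ht => ?_
    rw [NNReal.coe_one, one_mul, Real.dist_eq]
    rcases le_total s t with h | h
    · exact (hf0 s hs t ht h).trans (by rw [abs_sub_comm]; exact le_abs_self _)
    · rw [dist_comm]; exact (hf0 t ht s hs h).trans (le_abs_self _)
  let g : unitInterval → ℝ := fun t => L * t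
  have hg : MapsTo g univ (Icc 0 L) := fun t _ =>
    ⟨mul_nonneg hL0 t.2.1, mul_le_of_le_one_right hL0 t.2.2⟩
  have hc : Continuous (f ∘ g) :=
    hf.continuousOn.comp_continuous (by fun_prop) fun t => hg (mem_univ t)
  refine ⟨⟨⟨f ∘ g, hc⟩, ?_, ?_⟩, ?_⟩
  · refine Sp.ext ?_
    simp [f, g, hL0, h2]
  · refine Sp.ext ?_
    simp [f, g, hL0, h3]
  · have e1 := hf.comp_eVariationOn_le hg
    have hm : MonotoneOn g univ := fun a _ b _ hab =>
      mul_le_mul_of_nonneg_left (show (a : ℝ) ≤ b from hab) hL0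
    have e2 := hm.eVariationOn_le (mem_univ 0) (mem_univ 1)
    rw [show (univ : Set unitInterval) ∩ Icc 0 1 = univ from
      eq_univ_of_forall fun t => ⟨trivial, t.2.1, t.2.2⟩] at e2
    refine e1.trans ?_
    rw [ENNReal.coe_one, one_mul]
    refine e2.trans (ENNReal.ofReal_le_ofReal ?_)
    simp only [g]
    change _ ≤ Sp.d x y + ε
    simp
    linarith

theorem Holes.bottom (H : Holes) {x : ℝ} (hx : x ∈ Icc (0 : ℝ) 1) : (x, (0 : ℝ)) ∈ H.X := by
  refine ⟨⟨hx, by simp⟩, fun n => ?_⟩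
  have := (H.ins n).2.2.1
  simp only [n1]
  linarith [abs_nonneg (x - (H.q n).1), neg_le_abs (0 - (H.q n).2)]

theorem Holes.not_dim0 (H : Holes) : ¬ CovDimLE (Sp H) 0 := by
  intro h
  classical
  let p : Sp H := ⟨_, H.bottom (x := 0) (by simp)⟩
  let q : Sp H := ⟨_, H.bottom (x := 1) (by simp)⟩
  have hpq : p ≠ q := fun h => by simpa [p, q] using congrArg (fun z : Sp H => z.val.1) h
  obtain ⟨𝒱, h1, h2, h3, h4⟩ := h {{p}ᶜ, {q}ᶜ} (by simp) (fun x => by
    by_cases hx : x = p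
    · exact ⟨{q}ᶜ, by simp, by simp [hx, hpq]⟩
    · exact ⟨{p}ᶜ, by simp, by simp [hx]⟩)
  obtain ⟨V, hV, hp⟩ := h2 p
  haveI : PathConnectedSpace (Sp H) :=
    ⟨⟨p⟩, fun x y => (H.length x y 1 one_pos).elim fun γ _ => ⟨γ⟩⟩
  have hcl : IsClopen V := by
    refine ⟨⟨isOpen_iff_forall_mem_open.2 fun y hy => ?_⟩, h1 V hV⟩
    obtain ⟨W, hW, hyW⟩ := h2 y
    refine ⟨W, fun z hz hzV => ?_, h1 W hW, hyW⟩
    have := (Set.ncard_le_one ((𝒱.finite_toSet).subset fun _ h => h.1)).1 (h4 z) V ⟨hV, hzV⟩ W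
      ⟨hW, hz⟩
    exact hy (this ▸ hyW)
  have hu := hcl.eq_univ ⟨p, hp⟩
  obtain ⟨U, hU, hVU⟩ := h3 V hV
  rw [hu] at hVU
  simp only [Finset.mem_insert, Finset.mem_singleton] at hU
  rcases hU with rfl | rfl
  · exact hVU (mem_univ p) rfl
  · exact hVU (mem_univ q) rfl

theorem Holes.dim1 (H : Holes) : CovDimLE (Sp H) 1 := by
  intro 𝒰 hU1 hU2
  classical
  obtain ⟨η, hη, hL⟩ := lebesgue_number_lemma_of_metric_sUnion (c := (𝒰 : Set (Set (Sp H))))
    isCompact_univ (fun U hU => hU1 U hU) (fun x _ => by simpa using hU2 x)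
  set ε := η / 32 with hε
  have hε0 : 0 < ε := by positivity
  obtain ⟨c, hc⟩ := (dense_iInter_of_isOpen
    (f := fun ij : ℤ × ℤ => (fun c : P => c + (ε * ij.1, ε * ij.2)) ⁻¹' H.Xᶜ)
    (fun ij => H.X_closed.isOpen_compl.preimage (by fun_prop))
    (fun ij => H.X_dense.preimage (isOpenMap_add_right _))).nonempty
  let Φ : Sp H → P := fun x => ((x.val.1 - c.1) / ε, (x.val.2 - c.2) / ε)
  have hΦ : Continuous Φ := by
    have := Sp.cont_val (H := H)
    fun_prop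
  have hZ : IsClosed (range ((↑) : ℤ → ℝ) ×ˢ range ((↑) : ℤ → ℝ)) :=
    Int.isClosedEmbedding_coe_real.isClosed_range.prod
      Int.isClosedEmbedding_coe_real.isClosed_range
  have hdis : Disjoint (range Φ) (range ((↑) : ℤ → ℝ) ×ˢ range ((↑) : ℤ → ℝ)) := by
    rw [disjoint_left]
    rintro _ ⟨x, rfl⟩ ⟨⟨i, hi⟩, j, hj⟩
    refine mem_iInter.1 hc (i, j) ?_
    have : c + (ε * i, ε * j) = x.val := by
      simp only [Φ] at hi hj
      ext
      · simp only [Prod.fst_add, hi]; field_simp; ring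
      · simp only [Prod.snd_add, hj]; field_simp; ring
    change c + (ε * i, ε * j) ∈ H.X
    rw [this]; exact x.mem
  obtain ⟨r, hr, hr'⟩ := Metric.exists_pos_forall_lt_edist (isCompact_range hΦ) hZ hdis
  set δ : ℝ := min r (1 / 2) with hδ
  have hδ0 : 0 < δ := lt_min hr (by norm_num)
  have hδ1 : δ ≤ 1 / 2 := min_le_right _ _
  have hsep : ∀ x, (∀ i : ℤ, δ ≤ |(Φ x).1 - i|) ∨ ∀ j : ℤ, δ ≤ |(Φ x).2 - j| := by
    intro x
    by_contra h
    push Not at h
    obtain ⟨⟨i, hi⟩, j, hj⟩ := h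
    have := hr' (Φ x) ⟨x, rfl⟩ ((i : ℝ), (j : ℝ)) ⟨⟨i, rfl⟩, j, rfl⟩
    rw [edist_nndist, ENNReal.coe_lt_coe, ← NNReal.coe_lt_coe, coe_nndist, Prod.dist_eq] at this
    have h2 : δ ≤ r := min_le_left _ _
    exact absurd (max_lt (hi.trans_le h2) (hj.trans_le h2)) (not_lt.2 this.le)
  let V : ℤ × ℤ → Set (Sp H) := fun ij => Φ ⁻¹' (Ioo (ij.1 - δ) (ij.1 + 1 + δ) ×ˢ
    Ioo (ij.2 - δ) (ij.2 + 1 + δ))
  let F : Sp H → ℤ × ℤ := fun x => (⌊(Φ x).1⌋, ⌊(Φ x).2⌋)
  have hF : ∀ x, x ∈ V (F x) := fun x => ⟨⟨by linarith [Int.floor_le (Φ x).1],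
    by linarith [Int.lt_floor_add_one (Φ x).1]⟩, by linarith [Int.floor_le (Φ x).2],
    by linarith [Int.lt_floor_add_one (Φ x).2]⟩
  have hfin : (range F).Finite := by
    obtain ⟨C, hC⟩ := (isCompact_range hΦ).isBounded.exists_norm_le
    refine ((Set.finite_Icc ⌊-C⌋ ⌊C⌋).prod (Set.finite_Icc ⌊-C⌋ ⌊C⌋)).subset ?_
    rintro _ ⟨x, rfl⟩
    have h := hC _ ⟨x, rfl⟩
    have h1 := abs_le.1 ((norm_fst_le (Φ x)).trans h)
    have h2 := abs_le.1 ((norm_snd_le (Φ x)).trans h)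
    exact ⟨⟨Int.floor_mono h1.1, Int.floor_mono h1.2⟩, Int.floor_mono h2.1, Int.floor_mono h2.2⟩
  have u1 : ∀ (a : ℝ) (i : ℤ), (∀ k : ℤ, δ ≤ |a - k|) → a ∈ Ioo (i - δ) (i + 1 + δ) →
      i = ⌊a⌋ := by
    intro a i h ⟨h1, h2⟩
    symm
    rw [Int.floor_eq_iff]
    constructor
    · by_contra h3
      have := h i
      rw [abs_of_neg (by linarith)] at this
      linarith
    · by_contra h3
      have := h (i + 1)
      push_cast at this
      rw [abs_of_nonneg (by linarith)] at this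
      linarith
  have u2 : ∀ (a : ℝ) (i : ℤ), a ∈ Ioo (i - δ) (i + 1 + δ) →
      i = ⌊a + 1 / 2⌋ ∨ i = ⌊a + 1 / 2⌋ - 1 := by
    intro a i ⟨h1, h2⟩
    have a1 : i ≤ ⌊a + 1 / 2⌋ := Int.le_floor.2 (by linarith)
    have a2 : ⌊a + 1 / 2⌋ < i + 2 := Int.floor_lt.2 (by push_cast; linarith)
    omega
  refine ⟨hfin.toFinset.image V, ?_, fun x => ⟨V (F x), ?_, hF x⟩, ?_, fun x => ?_⟩
  · intro W hW
    obtain ⟨ij, -, rfl⟩ := Finset.mem_image.1 hW
    exact (isOpen_Ioo.prod isOpen_Ioo).preimage hΦ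
  · exact Finset.mem_image_of_mem _ (by simp)
  · intro W hW
    obtain ⟨ij, hij, rfl⟩ := Finset.mem_image.1 hW
    obtain ⟨x, rfl⟩ := hfin.mem_toFinset.1 hij
    obtain ⟨U, hU, hxU⟩ := hL x (mem_univ x)
    refine ⟨U, hU, fun y hy => hxU ?_⟩
    obtain ⟨⟨a1, a2⟩, a3, a4⟩ := hy
    obtain ⟨⟨b1, b2⟩, b3, b4⟩ := hF x
    have k : ∀ s t u : ℝ, |(s - u) / ε - (t - u) / ε| ≤ 2 → dist s t ≤ 2 * ε := by
      intro s t u h
      rw [← sub_div, sub_sub_sub_cancel_right, abs_div, abs_of_pos hε0, div_le_iff₀ hε0] at h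
      exact h
    have : dist y.val x.val ≤ 2 * ε := by
      rw [Prod.dist_eq]
      exact max_le (k _ _ c.1 (abs_le.2 ⟨by linarith, by linarith⟩))
        (k _ _ c.2 (abs_le.2 ⟨by linarith, by linarith⟩))
    rw [Metric.mem_ball]
    linarith [Sp.dist_le8 y x]
  · have key : ∃ s t : ℤ × ℤ, ∀ ij, x ∈ V ij → ij = s ∨ ij = t := by
      rcases hsep x with h | h
      · refine ⟨(⌊(Φ x).1⌋, ⌊(Φ x).2 + 1 / 2⌋), (⌊(Φ x).1⌋, ⌊(Φ x).2 + 1 / 2⌋ - 1),
          fun ij hij => ?_⟩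
        have := u1 _ _ h hij.1
        rcases u2 _ _ hij.2 with h' | h'
        · exact Or.inl (Prod.ext this h')
        · exact Or.inr (Prod.ext this h')
      · refine ⟨(⌊(Φ x).1 + 1 / 2⌋, ⌊(Φ x).2⌋), (⌊(Φ x).1 + 1 / 2⌋ - 1, ⌊(Φ x).2⌋),
          fun ij hij => ?_⟩
        have := u1 _ _ h hij.2
        rcases u2 _ _ hij.1 with h' | h'
        · exact Or.inl (Prod.ext h' this)
        · exact Or.inr (Prod.ext h' this)
    obtain ⟨s, t, hst⟩ := key
    refine (Set.ncard_le_ncard (t := {V s, V t}) ?_ (Set.toFinite _)).trans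
      ((Set.ncard_insert_le _ _).trans (by simp))
    rintro W ⟨hW, hx⟩
    obtain ⟨ij, -, rfl⟩ := Finset.mem_image.1 hW
    rcases hst ij hx with rfl | rfl <;> simp

end Pool.Agent.H39.PM
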