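import Mathlib
import Pool.Agent.H39.PM2

set_option autoImplicit false

namespace Pool.Agent.H39.PM
open Set Filter Topology MeasureTheory
open scoped Pointwise

structure Dir where
  v : P
  lam : P → ℝ
  cont : Continuous lam
  inv : ∀ (p : P) (s : ℝ), lam (p + s • v) = lam p
  le : ∀ p q, |lam p - lam q| ≤ n1 p q
  v1 : v.1 ∈ Icc (0 : ℝ) 1
  v2 : v.2 ∈ Icc (0 : ℝ) 1
  nv : ‖v‖ = 1
  strip : ∀ c r : ℝ, volume (K ∩ {p | |lam p - c| < r}) ≤ ENNReal.ofReal (2 * r)

theorem strip_slope (κ c r : ℝ) :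
    volume (K ∩ {p : P | |p.2 - κ * p.1 - c| < r}) ≤ ENNReal.ofReal (2 * r) := by
  have h := volume_regionBetween_eq_lintegral' (μ := (volume : Measure ℝ))
    (f := fun x => κ * x + c - r) (g := fun x => κ * x + c + r) (s := Icc 0 1)
    (by fun_prop) (by fun_prop) measurableSet_Icc
  have e : ∀ y, ((fun x => κ * x + c + r) - fun x => κ * x + c - r : ℝ → ℝ) y = 2 * r := by
    intro y; simp; ring
  simp only [e] at h
  refine (measure_mono (t := regionBetween (fun x => κ * x + c - r) (fun x => κ * x + c + r)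
    (Icc 0 1)) ?_).trans (le_of_eq ?_)
  · rintro p ⟨hp, h2⟩
    have := abs_lt.1 (show |p.2 - κ * p.1 - c| < r from h2)
    exact ⟨hp.1, by linarith [this.1], by linarith [this.2]⟩
  · rw [Measure.volume_eq_prod, h]; simp

def d1 : Dir where
  v := (1, 0)
  lam p := p.2
  cont := by fun_prop
  inv p s := by simp
  le p q := by unfold n1; linarith [abs_nonneg (p.1 - q.1)]
  v1 := by simp
  v2 := by simp
  nv := by simp [Prod.norm_def]
  strip c r := by simpa using strip_slope 0 c r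

def d2 : Dir where
  v := (0, 1)
  lam p := p.1
  cont := by fun_prop
  inv p s := by simp
  le p q := by unfold n1; linarith [abs_nonneg (p.2 - q.2)]
  v1 := by simp
  v2 := by simp
  nv := by simp [Prod.norm_def]
  strip c r := by
    refine (measure_mono (t := Ioo (c - r) (c + r) ×ˢ Icc (0 : ℝ) 1) ?_).trans (le_of_eq ?_)
    · rintro p ⟨hp, h2⟩
      have := abs_lt.1 (show |p.1 - c| < r from h2)
      exact ⟨⟨by linarith [this.1], by linarith [this.2]⟩, hp.2⟩
    · rw [Measure.volume_eq_prod, Measure.prod_prod]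
      simp only [Real.volume_Ioo, Real.volume_Icc, sub_zero, ENNReal.ofReal_one, mul_one]
      congr 1; ring

def d3 : Dir where
  v := (1, 1)
  lam p := p.2 - p.1
  cont := by fun_prop
  inv p s := by simp
  le p q := by
    unfold n1
    rw [show p.2 - p.1 - (q.2 - q.1) = p.2 - q.2 - (p.1 - q.1) by ring]
    linarith [abs_sub (p.2 - q.2) (p.1 - q.1)]
  v1 := by simp
  v2 := by simp
  nv := by simp [Prod.norm_def]
  strip c r := by simpa using strip_slope 1 c r

def G (H : Holes) (D : Dir) : Set P := {p | ∀ n, H.r n ≤ |D.lam p - D.lam (H.q n)|}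

theorem G_closed (H : Holes) (D : Dir) : IsClosed (G H D) := by
  have : G H D = ⋂ n, {p | H.r n ≤ |D.lam p - D.lam (H.q n)|} := by ext p; simp [G]
  rw [this]
  refine isClosed_iInter fun n => isClosed_le continuous_const ?_
  have := D.cont
  fun_prop

theorem G_X (H : Holes) (D : Dir) {p : P} (h : p ∈ G H D) (hK : p ∈ K) : p ∈ H.X :=
  ⟨hK, fun n => (h n).trans (D.le _ _)⟩

theorem G_add (H : Holes) (D : Dir) {p : P} (h : p ∈ G H D) (s : ℝ) : p + s • D.v ∈ G H D :=
  fun n => by rw [D.inv]; exact h n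

def R0 : Set P := Icc 0 (9 / 10) ×ˢ Icc 0 (9 / 10)

theorem R0_compact : IsCompact R0 := isCompact_Icc.prod isCompact_Icc

theorem vol_G (H : Holes) (D : Dir) : 77 / 100 ≤ volume.real (R0 ∩ G H D) := by
  have h1 : R0 ⊆ (R0 ∩ G H D) ∪ ⋃ n, K ∩ {p | |D.lam p - D.lam (H.q n)| < H.r n} := by
    intro p hp
    by_cases h : p ∈ G H D
    · exact Or.inl ⟨hp, h⟩
    · simp only [G, mem_setOf_eq, not_forall, not_le] at h
      obtain ⟨n, hn⟩ := h
      exact Or.inr (mem_iUnion.2 ⟨n, ⟨⟨hp.1.1, by linarith [hp.1.2]⟩, hp.2.1,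
        by linarith [hp.2.2]⟩, hn⟩)
  have h2 : volume (⋃ n, K ∩ {p | |D.lam p - D.lam (H.q n)| < H.r n}) ≤
      ENNReal.ofReal (4 / 100) := by
    refine (measure_iUnion_le _).trans ?_
    rw [← tsum_geometric_two' (4 / 100 : ℝ), ENNReal.ofReal_tsum_of_nonneg
      (fun n => by positivity) (summable_geometric_two' _)]
    refine ENNReal.tsum_le_tsum fun n => (D.strip _ _).trans (ENNReal.ofReal_le_ofReal ?_)
    have := H.small n
    rw [show (4 / 100 / 2 / 2 ^ n : ℝ) = 2 * (1 / 100 / 2 ^ n) by ring]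
    linarith
  have h3 : volume R0 = ENNReal.ofReal (81 / 100) := by
    rw [R0, Measure.volume_eq_prod, Measure.prod_prod, Real.volume_Icc,
      ← ENNReal.ofReal_mul (by norm_num)]
    norm_num
  have h4 : volume (R0 ∩ G H D) ≠ ⊤ :=
    ((measure_mono inter_subset_left).trans_lt R0_compact.measure_lt_top).ne
  have h5 := (measure_mono h1).trans ((measure_union_le _ _).trans (add_le_add le_rfl h2))
  rw [h3, ← ENNReal.ofReal_toReal h4, ← ENNReal.ofReal_add ENNReal.toReal_nonneg (by norm_num),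
    ENNReal.ofReal_le_ofReal_iff (by positivity)] at h5
  rw [Measure.real]
  linarith

def SS (H : Holes) (D : Dir) (t : ℝ) : Set P := {x | x ∈ G H D ∧ x ∈ K ∧ x + t • D.v ∈ K}

theorem SS_compact (H : Holes) (D : Dir) (t : ℝ) : IsCompact (SS H D t) :=
  K_compact.of_isClosed_subset ((G_closed H D).inter (K_compact.isClosed.inter
    (K_compact.isClosed.preimage (f := fun x => x + t • D.v) (by fun_prop)))) fun _ h => h.2.1

theorem SS_pth (H : Holes) (D : Dir) {t : ℝ} (ht : 0 ≤ t) {x : P} (hx : x ∈ SS H D t) :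
    Pth H.X x (x + t • D.v) t := by
  refine ⟨ht, fun s => x + s • D.v, fun s s' => ?_, by simp, rfl, fun s hs => ?_⟩
  · rw [dist_add_left, dist_eq_norm, ← sub_smul, norm_smul, D.nv, mul_one, Real.norm_eq_abs]
  · refine G_X H D (G_add H D hx.1 s) ?_
    obtain ⟨-, ⟨⟨a1, -⟩, a2, -⟩, ⟨-, a3⟩, -, a4⟩ := hx
    simp only [Prod.fst_add, Prod.snd_add, Prod.smul_fst, Prod.smul_snd, smul_eq_mul] at a3 a4
    obtain ⟨b1, b2⟩ := hs
    have := D.v1.1
    have := D.v2.1
    refine ⟨⟨?_, ?_⟩, ?_, ?_⟩ <;>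
      simp only [Prod.fst_add, Prod.snd_add, Prod.smul_fst, Prod.smul_snd, smul_eq_mul] <;>
      nlinarith

section
variable {M : Type} [MetricSpace M]

noncomputable def aa (H : Holes) (D : Dir) (F : P → M) (t : ℝ) : P → ℝ :=
  (SS H D t).indicator fun x => dist (F x) (F (x + t • D.v))

theorem aa_int (H : Holes) (D : Dir) {F : P → M} (hF : ContinuousOn F H.X) (t : ℝ) :
    Integrable (aa H D F t) := by
  rw [aa, integrable_indicator_iff (SS_compact H D t).isClosed.measurableSet]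
  refine ContinuousOn.integrableOn_compact (SS_compact H D t) ?_
  have h1 : ContinuousOn F (SS H D t) := hF.mono fun x hx => G_X H D hx.1 hx.2.1
  have h2 : ContinuousOn (fun x => F (x + t • D.v)) (SS H D t) :=
    hF.comp (f := fun x => x + t • D.v) (by fun_prop) fun x hx => G_X H D (G_add H D hx.1 t) hx.2.2
  exact continuous_dist.comp_continuousOn (h1.prodMk h2)

theorem aa_nonneg (H : Holes) (D : Dir) (F : P → M) (t : ℝ) (x : P) : 0 ≤ aa H D F t x :=
  indicator_nonneg (fun _ _ => dist_nonneg) x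

theorem lower (H : Holes) (D : Dir) {F : P → M} (hF : ContinuousOn F H.X)
    (h2 : ∀ p ∈ H.X, ∀ q ∈ H.X, dist p q - 1 / 200 ≤ dist (F p) (F q)) (m : ℕ) (t : ℝ)
    (ht : 0 ≤ t) (hm : m * t = 1 / 10) : 19 / 200 * (77 / 100) ≤ m * ∫ x, aa H D F t x := by
  have hc : IsCompact (R0 ∩ G H D) := R0_compact.inter_right (G_closed H D)
  have hK : ∀ x ∈ R0, ∀ s : ℝ, 0 ≤ s → s ≤ 1 / 10 → x + s • D.v ∈ K := by
    rintro x ⟨⟨a1, a2⟩, a3, a4⟩ s b1 b2
    obtain ⟨c1, c2⟩ := D.v1
    obtain ⟨c3, c4⟩ := D.v2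
    refine ⟨⟨?_, ?_⟩, ?_, ?_⟩ <;>
      simp only [Prod.fst_add, Prod.snd_add, Prod.smul_fst, Prod.smul_snd, smul_eq_mul] <;>
      nlinarith
  have key : ∀ x, (R0 ∩ G H D).indicator (fun _ => (19 / 200 : ℝ)) x ≤
      ∑ i ∈ Finset.range m, aa H D F t (x + (i * t) • D.v) := by
    intro x
    by_cases hx : x ∈ R0 ∩ G H D
    swap
    · rw [indicator_of_notMem hx]
      exact Finset.sum_nonneg fun _ _ => aa_nonneg _ _ _ _ _
    rw [indicator_of_mem hx]
    have h3 := dist_le_range_sum_dist (fun i : ℕ => F (x + (i * t) • D.v)) m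
    have h4 := h2 _ (G_X H D (G_add H D hx.2 _) (hK x hx.1 0 le_rfl (by norm_num))) _
      (G_X H D (G_add H D hx.2 _) (hK x hx.1 (1 / 10) (by norm_num) le_rfl))
    rw [dist_add_left, dist_eq_norm, ← sub_smul, norm_smul, D.nv] at h4
    simp only [Nat.cast_zero, zero_mul, hm] at h3
    norm_num at h4 h3 ⊢
    refine le_trans (by linarith) (h3.trans (le_of_eq (Finset.sum_congr rfl fun i hi => ?_)))
    have hi' : ((i : ℝ) + 1) * t ≤ 1 / 10 := by
      rw [← hm]
      exact mul_le_mul_of_nonneg_right (by exact_mod_cast Finset.mem_range.1 hi) ht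
    have e : x + (i * t) • D.v + t • D.v = x + ((i + 1) * t) • D.v := by
      rw [add_assoc, ← add_smul]; congr 2; ring
    rw [aa, indicator_of_mem, e]
    refine ⟨G_add H D hx.2 _, hK x hx.1 _ (by positivity) (by linarith), ?_⟩
    rw [e]
    exact hK x hx.1 _ (by positivity) hi'
  have h5 := integral_mono (μ := volume) ((integrable_indicator_iff hc.isClosed.measurableSet).2
    (integrableOn_const hc.measure_lt_top.ne))
    (integrable_finset_sum _ fun i _ => (aa_int H D hF t).comp_add_right _) key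
  rw [integral_indicator_const _ hc.isClosed.measurableSet,
    integral_finset_sum _ fun i _ => (aa_int H D hF t).comp_add_right _] at h5
  simp only [integral_add_right_eq_self, Finset.sum_const, Finset.card_range, smul_eq_mul,
    nsmul_eq_mul] at h5
  linarith [vol_G H D]

def WW (H : Holes) (F : P → M) (𝒮 : Finset (Set M)) (g : P) : Set P :=
  ⋃ S ∈ 𝒮, {x | x ∈ H.X ∩ F ⁻¹' S ∧ x + g ∉ H.X ∩ F ⁻¹' S}

theorem core (H : Holes) (F : P → M) (𝒮 : Finset (Set M)) (hc : ∀ S ∈ 𝒮, IsClosed S)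
    (h3 : ∀ S ∈ 𝒮, ∀ a ∈ S, ∀ b ∈ S, ∀ c ∈ S, ∀ t : ℝ, dist a b ≤ t → dist b c ≤ t →
      dist a c ≤ t → dist a b + dist b c + dist a c ≤ 2 * t)
    (hcov : ∀ x, ∃ S ∈ 𝒮, x ∈ S)
    (h1 : ∀ p q L, Pth H.X p q L → dist (F p) (F q) ≤ L)
    (h2 : ∀ p ∈ H.X, ∀ q ∈ H.X, dist p q - 1 / 200 ≤ dist (F p) (F q)) : False := by
  have hF : ContinuousOn F H.X :=
    (LipschitzOnWith.of_dist_le_mul (K := 8) fun p hp q hq => by
      obtain ⟨L, a, b⟩ := H.conn hp hq
      exact (h1 _ _ _ b).trans a).continuousOn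
  have hcl : ∀ S ∈ 𝒮, IsClosed (H.X ∩ F ⁻¹' S) := fun S hS =>
    hF.preimage_isClosed_of_isClosed H.X_closed (hc S hS)
  have hWm : ∀ g, MeasurableSet (WW H F 𝒮 g) := fun g =>
    Finset.measurableSet_biUnion _ fun S hS => (hcl S hS).measurableSet.inter
      (((hcl S hS).preimage (f := fun x => x + g) (by fun_prop)).measurableSet.compl)
  have hWf : ∀ g, volume (WW H F 𝒮 g) ≠ ⊤ := fun g =>
    ((measure_mono (t := H.X) (by
      intro x hx
      simp only [WW, mem_iUnion] at hx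
      obtain ⟨S, -, h⟩ := hx
      exact h.1.1)).trans_lt H.X_compact.measure_lt_top).ne
  have hW : Tendsto (fun g => volume (WW H F 𝒮 g)) (𝓝 0) (𝓝 0) := by
    have := tendsto_finset_sum 𝒮 (a := fun _ => 0) fun S hS =>
      tendsto_measure_vadd_sdiff_isCompact_isClosed (μ := (volume : Measure P))
        (H.X_compact.of_isClosed_subset (hcl S hS) inter_subset_left) (hcl S hS)
    rw [Finset.sum_const_zero] at this
    refine tendsto_of_tendsto_of_tendsto_of_le_of_le tendsto_const_nhds this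
      (fun _ => zero_le) fun g => (measure_biUnion_finset_le _ _).trans
        (Finset.sum_le_sum fun S _ => ?_)
    rw [← measure_preimage_add_right volume g (_ \ _)]
    refine measure_mono fun x hx => ⟨⟨x, hx.1, ?_⟩, hx.2⟩
    simp [add_comm]
  have ht : Tendsto (fun m : ℕ => (1 / 10 : ℝ) / m) atTop (𝓝 0) :=
    tendsto_const_div_atTop_nhds_zero_nat _
  have hWv : ∀ v : P, ∀ᶠ m : ℕ in atTop,
      volume.real (WW H F 𝒮 (((1 / 10 : ℝ) / m) • v)) ≤ 1 / 20 := by
    intro v
    have := hW.comp (by simpa using ht.smul_const v :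
      Tendsto (fun m : ℕ => ((1 / 10 : ℝ) / m) • v) atTop (𝓝 0))
    filter_upwards [ENNReal.tendsto_nhds_zero.1 this (ENNReal.ofReal (1 / 20)) (by simp)] with m hm
    exact ENNReal.toReal_le_of_le_ofReal (by norm_num) hm
  obtain ⟨m, w1, w3, hm⟩ := ((hWv d1.v).and ((hWv d3.v).and (eventually_ge_atTop 10))).exists
  set t : ℝ := 1 / 10 / m with htd
  have hm' : (10 : ℝ) ≤ m := by exact_mod_cast hm
  have ht0 : 0 < t := by positivity
  have hmt : m * t = 1 / 10 := by rw [htd]; field_simp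
  have ht1 : t ≤ 1 / 100 := by nlinarith
  let R : Set P := Icc (-t) 1 ×ˢ Icc 0 1
  have hR : IsCompact R := isCompact_Icc.prod isCompact_Icc
  have hRv : volume.real R = 1 + t := by
    rw [Measure.real, Measure.volume_eq_prod, Measure.prod_prod, Real.volume_Icc,
      Real.volume_Icc, ← ENNReal.ofReal_mul (by linarith), ENNReal.toReal_ofReal (by linarith)]
    ring
  have e : ∀ x : P, x + t • d1.v + t • d2.v = x + t • d3.v := fun x => by
    ext <;> simp [d1, d2, d3]
  have hle : ∀ D x, aa H D F t x ≤ t := fun D x =>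
    indicator_apply_le' (fun h => h1 _ _ _ (SS_pth H D ht0.le h)) fun _ => ht0.le
  have key : ∀ x, aa H d1 F t x + aa H d2 F t (x + t • d1.v) + aa H d3 F t x ≤
      R.indicator (fun _ => 2 * t) x + (WW H F 𝒮 (t • d1.v)).indicator (fun _ => t) x +
        (WW H F 𝒮 (t • d3.v)).indicator (fun _ => t) x := by
    intro x
    have n1 : 0 ≤ (WW H F 𝒮 (t • d1.v)).indicator (fun _ => t) x :=
      indicator_nonneg (fun _ _ => ht0.le) x
    have n3 : 0 ≤ (WW H F 𝒮 (t • d3.v)).indicator (fun _ => t) x :=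
      indicator_nonneg (fun _ _ => ht0.le) x
    have l1 := hle d1 x
    have l2 := hle d2 (x + t • d1.v)
    have l3 := hle d3 x
    have hKR : x ∈ K → x ∈ R := fun h => ⟨⟨by linarith [h.1.1], h.1.2⟩, h.2⟩
    by_cases hx : x ∈ R
    swap
    · have z1 : aa H d1 F t x = 0 := indicator_of_notMem (fun h => hx (hKR h.2.1)) _
      have z3 : aa H d3 F t x = 0 := indicator_of_notMem (fun h => hx (hKR h.2.1)) _
      have z2 : aa H d2 F t (x + t • d1.v) = 0 := indicator_of_notMem (fun h => hx (by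
        obtain ⟨⟨a1, a2⟩, a3⟩ := h.2.1
        simp [d1] at a1 a2 a3
        exact ⟨⟨by linarith, by linarith⟩, a3⟩)) _
      rw [indicator_of_notMem hx]; linarith
    rw [indicator_of_mem hx]
    by_cases s1 : x ∈ SS H d1 t
    swap
    · have z1 : aa H d1 F t x = 0 := indicator_of_notMem s1 _
      linarith
    by_cases s2 : x + t • d1.v ∈ SS H d2 t
    swap
    · have z1 : aa H d2 F t _ = 0 := indicator_of_notMem s2 _
      linarith
    by_cases s3 : x ∈ SS H d3 t
    swap
    · have z1 : aa H d3 F t x = 0 := indicator_of_notMem s3 _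
      linarith
    by_cases b1 : x ∈ WW H F 𝒮 (t • d1.v)
    · rw [indicator_of_mem b1]; linarith
    by_cases b3 : x ∈ WW H F 𝒮 (t • d3.v)
    · rw [indicator_of_mem b3]; linarith
    obtain ⟨S, hS, hxS⟩ := hcov (F x)
    have hxX : x ∈ H.X := G_X H _ s1.1 s1.2.1
    have c : ∀ g, x ∉ WW H F 𝒮 g → F (x + g) ∈ S := fun g hg => by
      by_contra h
      exact hg (mem_iUnion₂.2 ⟨S, hS, ⟨hxX, hxS⟩, fun h' => h h'.2⟩)
    rw [aa, indicator_of_mem s1] at l1 ⊢
    rw [aa, indicator_of_mem s2, e] at l2 ⊢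
    rw [aa, indicator_of_mem s3] at l3 ⊢
    linarith [h3 S hS _ hxS _ (c _ b1) _ (c _ b3) t l1 l2 l3]
  have i1 := aa_int H d1 hF t
  have i2 := (aa_int H d2 hF t).comp_add_right (t • d1.v)
  have i3 := aa_int H d3 hF t
  have j1 : Integrable (R.indicator fun _ => 2 * t) :=
    (integrable_indicator_iff hR.isClosed.measurableSet).2 (integrableOn_const hR.measure_lt_top.ne)
  have j2 : ∀ g, Integrable ((WW H F 𝒮 g).indicator fun _ => t) := fun g =>
    (integrable_indicator_iff (hWm g)).2 (integrableOn_const (hWf g))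
  have h5 := integral_mono (μ := volume) ((i1.add i2).add i3) ((j1.add (j2 _)).add (j2 _)) key
  rw [integral_add' (i1.add i2) i3, integral_add' i1 i2, integral_add' (j1.add (j2 _)) (j2 _),
    integral_add' j1 (j2 _), integral_add_right_eq_self,
    integral_indicator_const _ hR.isClosed.measurableSet, integral_indicator_const _ (hWm _),
    integral_indicator_const _ (hWm _), hRv] at h5
  simp only [smul_eq_mul] at h5
  have k1 := lower H d1 hF h2 m t ht0.le hmt
  have k2 := lower H d2 hF h2 m t ht0.le hmt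
  have k3 := lower H d3 hF h2 m t ht0.le hmt
  have h6 := mul_le_mul_of_nonneg_left h5 (show (0 : ℝ) ≤ m by positivity)
  have h7 : ∀ a b : ℝ, m * ((1 + t) * (2 * t) + a * t + b * t) =
      (m * t) * (2 + 2 * t + a + b) := fun a b => by ring
  rw [h7, hmt] at h6
  linarith

theorem simplex_closed {S : Set M} (h : IsMinkSimplex M 1 S) : IsClosed S := by
  obtain ⟨E, _, _, _, k, v, φ, -, -, h1, h2⟩ := h
  have : IsCompact (range φ) := h2 ▸ (Set.finite_range v).isCompact_convexHull ℝ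
  rw [← image_univ, ← h1.isEmbedding.isInducing.isCompact_iff] at this
  exact (isCompact_iff_isCompact_univ.2 this).isClosed

theorem simplex_three {S : Set M} (h : IsMinkSimplex M 1 S) : ∀ a ∈ S, ∀ b ∈ S, ∀ c ∈ S,
    ∀ t : ℝ, dist a b ≤ t → dist b c ≤ t → dist a c ≤ t →
      dist a b + dist b c + dist a c ≤ 2 * t := by
  obtain ⟨E, _, _, _, k, v, φ, hk, -, h1, h2⟩ := h
  have h3 : ∀ a : S, ∃ s : ℝ, φ a = v 0 + s • (v (Fin.last k) - v 0) := by
    intro a
    have h4 : range v ⊆ {v 0, v (Fin.last k)} := by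
      rintro _ ⟨i, rfl⟩
      have : i = 0 ∨ i = Fin.last k := by
        simp only [Fin.ext_iff, Fin.val_zero, Fin.val_last]; omega
      rcases this with h | h <;> simp [h]
    have h5 := convexHull_mono (𝕜 := ℝ) h4 (h2 ▸ mem_range_self a)
    rw [convexHull_pair, segment_eq_image'] at h5
    obtain ⟨s, -, hs⟩ := h5
    exact ⟨s, hs.symm⟩
  choose g hg using h3
  have h6 : ∀ a b : S, dist a.1 b.1 =
      |g a * ‖v (Fin.last k) - v 0‖ - g b * ‖v (Fin.last k) - v 0‖| := by
    intro a b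
    rw [← Subtype.dist_eq, ← h1.dist_eq, hg, hg, dist_add_left, dist_eq_norm, ← sub_smul,
      norm_smul, ← sub_mul, abs_mul, abs_norm, Real.norm_eq_abs]
  intro a ha b hb c hc t
  rw [h6 ⟨a, ha⟩ ⟨b, hb⟩, h6 ⟨b, hb⟩ ⟨c, hc⟩, h6 ⟨a, ha⟩ ⟨c, hc⟩]
  generalize g ⟨a, ha⟩ * _ = x
  generalize g ⟨b, hb⟩ * _ = y
  generalize g ⟨c, hc⟩ * _ = z
  intro e1 e2 e3
  cases abs_cases (x - y) <;> cases abs_cases (y - z) <;> cases abs_cases (x - z) <;> linarith

end

theorem Holes.not_pro (H : Holes) : ¬ IsProMink (Sp H) 1 := by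
  rintro ⟨M, _, f, π, h1, h2, h3, -, h5⟩
  have hmono : ∀ x y, Monotone fun n => dist (π n x) (π n y) := fun x y =>
    monotone_nat_of_le_succ fun n => by
      have := (h2 n).dist_le_mul (π (n + 1) x) (π (n + 1) y)
      rwa [h3, h3, NNReal.coe_one, one_mul] at this
  have hs : ∀ n x y, dist (π n x) (π n y) ≤ dist x y := fun n x y =>
    (hmono x y).ge_of_tendsto (h5 x y) n
  have hc : ∀ n, Continuous (π n) := fun n =>
    (LipschitzWith.of_dist_le_mul (K := 1) fun x y => by simpa using hs n x y).continuous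
  obtain ⟨n, hn⟩ := (isCompact_univ (X := Sp H × Sp H)).elim_directed_cover
    (fun n => {z | dist z.1 z.2 - 1 / 200 < dist (π n z.1) (π n z.2)})
    (fun n => isOpen_lt (by fun_prop) (by have := hc n; fun_prop))
    (fun z _ => mem_iUnion.2 ((h5 z.1 z.2).eventually (lt_mem_nhds (by linarith))).exists)
    (Monotone.directed_le fun a b hab z hz => lt_of_lt_of_le hz (hmono z.1 z.2 hab))
  obtain ⟨-, 𝒮, hS, hcov⟩ := h1 n
  classical
  let x0 : Sp H := ⟨_, H.bottom (x := 0) (by simp)⟩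
  refine core H (fun p => π n (if h : p ∈ H.X then ⟨p, h⟩ else x0)) 𝒮
    (fun S h => simplex_closed (hS S h)) (fun S h => simplex_three (hS S h)) hcov ?_ ?_
  · intro p q L hL
    obtain ⟨h0, γ, -, a, b, c⟩ := id hL
    have hp : p ∈ H.X := a ▸ c 0 ⟨le_rfl, h0⟩
    have hq : q ∈ H.X := b ▸ c L ⟨h0, le_rfl⟩
    simp only [dif_pos hp, dif_pos hq]
    exact (hs _ _ _).trans (Sp.d_le hL)
  · intro p hp q hq
    simp only [dif_pos hp, dif_pos hq]
    have a := hn (mem_univ (⟨p, hp⟩, ⟨q, hq⟩))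
    have b := Sp.le_dist (H := H) ⟨p, hp⟩ ⟨q, hq⟩
    simp only [mem_setOf_eq] at a b
    linarith

end Pool.Agent.H39.PM
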