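import Mathlib

set_option autoImplicit false

namespace Pool.Agent.H39.PP
open Cardinal Set Filter Topology

theorem inj_choice {X I : Type} (hI : #I ≤ 𝔠) (F : I → Set X)
    (hF : ∀ i, 𝔠 ≤ #(F i)) : ∃ x : I → X, Function.Injective x ∧ ∀ i, x i ∈ F i := by
  classical
  obtain ⟨e⟩ : Nonempty (I ↪ (𝔠 : Cardinal).ord.ToType) := by
    rw [← Cardinal.le_def, mk_ord_toType]; exact hI
  let _ : LinearOrder I := LinearOrder.lift' e e.injective
  have wf : WellFounded (fun a b : I => a < b) := (wellFounded_lt.onFun (f := e))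
  have key : ∀ (i : I) (g : ∀ j, j < i → X), ∃ y ∈ F i, ∀ j h, g j h ≠ y := by
    intro i g
    by_contra h
    push Not at h
    have h1 : F i ⊆ range (fun j : Iio i => g j.1 j.2) := fun y hy => by
      obtain ⟨j, hj, rfl⟩ := h y hy
      exact ⟨⟨j, hj⟩, rfl⟩
    have h2 : #(Iio i) ≤ #(Iio (e i)) :=
      mk_le_of_injective (f := fun j => ⟨e j.1, j.2⟩) fun a b h =>
        Subtype.ext (e.injective (congrArg Subtype.val h))
    have h3 := mk_Iio_lt (e i) (by simp)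
    rw [mk_ord_toType] at h3
    exact absurd ((hF i).trans ((mk_le_mk_of_subset h1).trans (mk_range_le.trans h2)))
      h3.not_ge
  choose G hG hG' using key
  let x : I → X := wf.fix G
  have hx : ∀ i, x i = G i (fun j _ => x j) := wf.fix_eq G
  refine ⟨x, fun a b h => ?_, fun i => hx i ▸ hG _ _⟩
  rcases lt_trichotomy a b with hab | hab | hab
  · exact absurd (h.trans (hx b)) (hG' b (fun j _ => x j) a hab)
  · exact hab
  · exact absurd (h.symm.trans (hx a)) (hG' a (fun j _ => x j) b hab)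

theorem wf : WellFounded (WellOrderingRel : Set ℕ → Set ℕ → Prop) := IsWellFounded.wf

def nd : Set ℕ → Prop := wf.fix fun Y ih => ∀ X (h : WellOrderingRel X Y), ih X h →
  (Y \ X).Finite ∨ (Y ∩ X).Finite

theorem nd_iff (Y : Set ℕ) : nd Y ↔ ∀ X, WellOrderingRel X Y → nd X →
    (Y \ X).Finite ∨ (Y ∩ X).Finite := by
  rw [nd, wf.fix_eq]

theorem lam {X Y : Set ℕ} (hX : nd X) (hY : nd Y) (h : (X ∩ Y).Infinite) :
    (X \ Y).Finite ∨ (Y \ X).Finite := by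
  rcases trichotomous_of WellOrderingRel X Y with a | rfl | a
  · exact Or.inr (((nd_iff Y).1 hY X a hX).resolve_right (inter_comm X Y ▸ h))
  · simp
  · exact Or.inl (((nd_iff X).1 hX Y a hY).resolve_right h)

theorem ex_split {Y : Set ℕ} (hY : Y.Infinite) :
    ∃ X, nd X ∧ (Y ∩ X).Infinite ∧ (Y \ X).Infinite := by
  by_contra h
  push Not at h
  let e := hY.natEmbedding
  let X : Set ℕ := range fun n => (e (2 * n) : ℕ)
  have hX : X ⊆ Y := by rintro _ ⟨n, rfl⟩; exact (e _).2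
  have h1 : nd X := (nd_iff X).2 fun Z _ hZ => by
    by_contra hc
    rw [not_or] at hc
    exact hc.1 ((h Z hZ (Infinite.mono (inter_subset_inter_left _ hX) hc.2)).subset
      (diff_subset_diff_left hX))
  refine infinite_of_injective_forall_mem (f := fun n => (e (2 * n + 1) : ℕ)) (s := Y \ X)
    (fun a b hab => by have := e.injective (Subtype.ext hab); omega)
    (fun n => ⟨(e _).2, fun ⟨m, hm⟩ => by have := e.injective (Subtype.ext hm); omega⟩) (h X h1 ?_)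
  rw [inter_eq_self_of_subset_right hX]
  exact infinite_range_of_injective fun a b hab => by
    have := e.injective (Subtype.ext hab); omega

theorem split {Y : Set ℕ} (hY : Y.Infinite) : ∃ X : Bool → Set ℕ,
    (∀ b, nd (X b) ∧ (Y ∩ X b).Infinite) ∧ (X true ∩ X false).Finite := by
  obtain ⟨X0, ⟨a1, a2, a3⟩, hm⟩ := wf.has_min _ (ex_split hY)
  obtain ⟨X1, b1, b2, b3⟩ := ex_split a3
  have c2 : (Y ∩ X1).Infinite := b2.mono (inter_subset_inter_left _ diff_subset)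
  have c : (X1 \ X0).Infinite := b2.mono fun x hx => ⟨hx.2, hx.1.2⟩
  refine ⟨fun b => cond b X1 X0, fun b => by cases b <;> simp [*], ?_⟩
  rcases trichotomous_of WellOrderingRel X0 X1 with a | rfl | a
  · exact ((nd_iff X1).1 b1 X0 a a1).resolve_left c
  · simp at c
  · exact absurd a (hm X1 ⟨b1, c2, b3.mono (diff_subset_diff_left diff_subset)⟩)

instance : (cofinite : Filter ℕ).IsCountablyGenerated := Nat.cofinite_eq_atTop ▸ inferInstance

theorem pint (F : Filter ℕ) [F.NeBot] [F.IsCountablyGenerated] (h : F ≤ cofinite) :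
    ∃ Z : Set ℕ, Z.Infinite ∧ ∀ A ∈ F, (Z \ A).Finite := by
  obtain ⟨u, hu⟩ := F.exists_seq_tendsto
  rw [← Nat.cofinite_eq_atTop] at hu
  refine ⟨range u, fun hf => ?_, fun A hA => ((mem_cofinite.1 (hu hA)).image u).subset ?_⟩
  · obtain ⟨n, hn⟩ := Filter.nonempty_of_mem (mem_map.1 (hu (h hf.compl_mem_cofinite)))
    exact hn (mem_range_self n)
  · rintro _ ⟨⟨n, rfl⟩, hn⟩
    exact ⟨n, hn, rfl⟩

theorem inf_of {p : Ultrafilter ℕ} (hp : (p : Filter ℕ) ≤ cofinite) {A : Set ℕ} (h : A ∈ p) :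
    A.Infinite := fun hf => (Ultrafilter.compl_mem_iff_notMem.1 (hp hf.compl_mem_cofinite)) h
theorem mem_of {F : Filter ℕ} (hp : F ≤ cofinite) {A B : Set ℕ} (h : A ∈ F)
    (h' : (A \ B).Finite) : B ∈ F :=
  mem_of_superset (inter_mem h (hp h'.compl_mem_cofinite)) fun x hx => by
    by_contra hc; exact hx.2 ⟨hx.1, hc⟩
theorem inf_tr {Z A X : Set ℕ} (h : (Z ∩ X).Infinite) (h' : (Z \ A).Finite) : (X ∩ A).Infinite :=
  (h.diff h').mono fun x hx => ⟨hx.1.2, by by_contra hc; exact hx.2 ⟨hx.1.1, hc⟩⟩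

def Good (p : Ultrafilter ℕ) (Y : Set ℕ) : Prop := (p : Filter ℕ) ≤ cofinite ∧ Y ∈ p ∧
  ∀ X, nd X → (X ∩ Y).Infinite → (∀ X', nd X' → X' ∈ p → (X ∩ X').Infinite) → X ∈ p

theorem ex_good {Y : Set ℕ} (hY : Y.Infinite) : ∃ p, Good p Y := by
  obtain ⟨b, hb⟩ := zorn_subset {b : Set (Set ℕ) | (∀ X ∈ b, nd X ∧ (X ∩ Y).Infinite) ∧
      ∀ X ∈ b, ∀ X' ∈ b, (X ∩ X').Infinite} fun c hc hch => ⟨⋃₀ c, ⟨fun X ⟨b, h1, h2⟩ =>
    (hc h1).1 X h2, fun X ⟨b, h1, h2⟩ X' ⟨b', h3, h4⟩ => by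
      rcases hch.total h1 h3 with h | h
      · exact (hc h3).2 X (h h2) X' h4
      · exact (hc h1).2 X h2 X' (h h4)⟩, fun _ => subset_sUnion_of_mem⟩
  have mx : ∀ X, nd X → (X ∩ Y).Infinite → (∀ X' ∈ b, (X ∩ X').Infinite) → X ∈ b :=
    fun X a1 a2 a3 => hb.mem_of_prop_insert ⟨by
      rintro X' (rfl | h)
      · exact ⟨a1, a2⟩
      · exact hb.prop.1 X' h, by
      rintro X1 (rfl | h1) X2 (rfl | h2)
      · simpa using a2.mono inter_subset_left
      · exact a3 _ h2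
      · exact inter_comm _ _ ▸ a3 _ h1
      · exact hb.prop.2 _ h1 _ h2⟩
  have ne : Nonempty b := by
    by_contra hc
    obtain ⟨X, a, -⟩ := split hY
    exact hc ⟨⟨_, mx _ (a true).1 (inter_comm _ _ ▸ (a true).2) fun X' h => absurd ⟨⟨X', h⟩⟩ hc⟩⟩
  have le : ∀ X X' : Set ℕ, (X \ X').Finite → cofinite ⊓ 𝓟 (X ∩ Y) ≤ cofinite ⊓ 𝓟 (X' ∩ Y) :=
    fun X X' h => le_inf inf_le_left (le_principal_iff.2 (mem_of inf_le_left
      (mem_inf_of_right (mem_principal_self _)) (h.subset fun x hx =>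
        ⟨hx.1.1, fun h => hx.2 ⟨h, hx.1.2⟩⟩)))
  have : (⨅ X : b, cofinite ⊓ 𝓟 (X.1 ∩ Y)).NeBot := iInf_neBot_of_directed (fun X X' => by
    rcases lam (hb.prop.1 _ X.2).1 (hb.prop.1 _ X'.2).1 (hb.prop.2 _ X.2 _ X'.2) with h | h
    · exact ⟨X, le_rfl, le _ _ h⟩
    · exact ⟨X', le _ _ h, le_rfl⟩) fun X => cofinite_inf_principal_neBot_iff.2 (hb.prop.1 _ X.2).2
  have h1 : ∀ X : b, (Ultrafilter.of (⨅ X : b, cofinite ⊓ 𝓟 (X.1 ∩ Y)) : Filter ℕ) ≤
    cofinite ⊓ 𝓟 (X.1 ∩ Y) := fun X => (Ultrafilter.of_le _).trans (iInf_le _ X)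
  have h2 := fun X : b => le_principal_iff.1 ((h1 X).trans inf_le_right)
  obtain ⟨X0⟩ := ne
  exact ⟨_, (h1 X0).trans inf_le_left, mem_of_superset (h2 X0) inter_subset_right,
    fun X a1 a2 a3 => mem_of_superset (h2 ⟨X, mx X a1 a2 fun X' h => a3 X' (hb.prop.1 _ h).1
      (mem_of_superset (h2 ⟨X', h⟩) inter_subset_left)⟩) inter_subset_left⟩

theorem low {ι : Type} [Countable ι] {p : Ultrafilter ℕ} {Y : Set ℕ} (h : Good p Y)
    (X : ι → Set ℕ) (hX : ∀ n, nd (X n) ∧ X n ∈ p) :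
    ∃ X', nd X' ∧ X' ∈ p ∧ ∀ n, (X' \ X n).Finite := by
  by_contra hc
  push Not at hc
  have hle : (p : Filter ℕ) ≤ cofinite ⊓ 𝓟 Y ⊓ ⨅ n, 𝓟 (X n) := le_inf (le_inf h.1
    (le_principal_iff.2 h.2.1)) (le_iInf fun n => le_principal_iff.2 (hX n).2)
  have := p.neBot.mono hle
  obtain ⟨Z, a1, a2⟩ := pint (cofinite ⊓ 𝓟 Y ⊓ ⨅ n, 𝓟 (X n)) (inf_le_left.trans inf_le_left)
  obtain ⟨W, b1, b2⟩ := split a1
  have : ∀ b, W b ∈ p := fun b => h.2.2 _ (b1 b).1 (inf_tr (b1 b).2 (a2 _ (mem_inf_of_left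
    (mem_inf_of_right (mem_principal_self _))))) fun X' c1 c2 => by
      obtain ⟨n, hn⟩ := hc X' c1 c2
      exact inf_tr (b1 b).2 (a2 _ (mem_of (inf_le_left.trans inf_le_left) (mem_inf_of_right
        (mem_iInf_of_mem n (mem_principal_self _))) ((lam c1 (hX n).1 (inf_of h.1
          (inter_mem c2 (hX n).2))).resolve_left hn)))
  exact inf_of h.1 (inter_mem (this true) (this false)) b2

def bb (p : Ultrafilter ℕ) : Set (Set ℕ) := {X | nd X ∧ X ∈ p}

theorem sep {ι : Type} [Countable ι] {p : Ultrafilter ℕ} {Y : Set ℕ} (h : Good p Y)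
    (q : ι → Ultrafilter ℕ) (hq : ∀ n, (q n : Filter ℕ) ≤ cofinite) (hne : ∀ n, bb (q n) ≠ bb p) :
    ∃ A ∈ p, ∀ n, A ∉ q n := by
  have : ∀ n : {n // ∃ X, nd X ∧ X ∈ p ∧ X ∉ q n}, ∃ X, nd X ∧ X ∈ p ∧ X ∉ q n := fun n => n.2
  choose X a1 a2 a3 using this
  obtain ⟨X', b1, b2, b3⟩ := low h X fun n => ⟨a1 n, a2 n⟩
  refine ⟨X' ∩ Y, inter_mem b2 h.2.1, fun n hn => ?_⟩
  by_cases hc : ∃ X, nd X ∧ X ∈ p ∧ X ∉ q n
  · exact a3 ⟨n, hc⟩ (mem_of (hq n) (mem_of_superset hn inter_subset_left) (b3 _))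
  push Not at hc
  refine hne n (Subset.antisymm (fun W hW => ⟨hW.1, h.2.2 W hW.1 (inf_of (hq n) (inter_mem hW.2
    (mem_of_superset hn inter_subset_right))) fun W' c1 c2 => inf_of (hq n)
      (inter_mem hW.2 (hc W' c1 c2))⟩) fun W hW => ⟨hW.1, hc W hW.1 hW.2⟩)

theorem cantor {Y : Set ℕ} (hY : Y.Infinite) :
    𝔠 ≤ #{b | ∃ p Y', Y ∈ p ∧ Good p Y' ∧ bb p = b} := by
  have : ∀ Z : {Z : Set ℕ // Z.Infinite}, _ := fun Z => split Z.2
  choose X a1 a2 using this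
  let S : (ℕ → Bool) → ℕ → {Z : Set ℕ // Z.Infinite} := fun f n =>
    Nat.rec ⟨Y, hY⟩ (fun n Z => ⟨Z.1 ∩ X Z (f n), (a1 Z _).2⟩) n
  have hS : ∀ f g n, (∀ j < n, f j = g j) → S f n = S g n := fun f g n => by
    induction n with
    | zero => exact fun _ => rfl
    | succ n ih =>
      intro h
      have := ih fun j hj => h j (by omega)
      simp only [S] at this ⊢
      rw [this, h n (by omega)]
  have : ∀ f, ∃ p Y', Good p Y' ∧ ∀ n, (S f n).1 ∈ p := fun f => by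
    have an : Antitone fun n => cofinite ⊓ 𝓟 (S f n).1 := antitone_nat_of_succ_le fun n =>
      inf_le_inf_left _ (principal_mono.2 inter_subset_left)
    have := iInf_neBot_of_directed an.directed_ge fun n =>
      cofinite_inf_principal_neBot_iff.2 (S f n).2
    obtain ⟨Z, b1, b2⟩ := pint (⨅ n, cofinite ⊓ 𝓟 (S f n).1) ((iInf_le _ 0).trans inf_le_left)
    obtain ⟨p, hp⟩ := ex_good b1
    exact ⟨p, Z, hp, fun n => mem_of hp.1 hp.2.1 (b2 _ (mem_iInf_of_mem n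
      (mem_inf_of_right (mem_principal_self _))))⟩
  choose p Y' b1 b2 using this
  have b3 : ∀ f n, X (S f n) (f n) ∈ bb (p f) := fun f n =>
    ⟨(a1 _ _).1, mem_of_superset (b2 f (n + 1)) inter_subset_right⟩
  refine le_trans (by simp) (mk_le_of_injective (f := fun f : ℕ → Bool =>
    (⟨bb (p f), p f, Y' f, b2 f 0, b1 f, rfl⟩ : {b | ∃ p Y', Y ∈ p ∧ Good p Y' ∧ bb p = b}))
    fun f g h => funext fun n => ?_)
  have e : bb (p f) = bb (p g) := congrArg Subtype.val h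
  induction n using Nat.strong_induction_on with
  | _ n ih =>
    by_contra hc
    have c1 := b3 f n
    have c2 := b3 g n
    rw [← hS f g n ih, ← e] at c2
    have := inf_of (b1 f).1 (inter_mem c1.2 c2.2)
    cases h1 : f n <;> cases h2 : g n <;> simp only [h1, h2, not_true] at hc this
    · exact this (inter_comm _ _ ▸ a2 _)
    · exact this (a2 _)

theorem comb {I : Type} (hI : #I ≤ 𝔠) (M : I → Set ℕ) (hM : ∀ i, (M i).Infinite) :
    ∃ (r : I → Ultrafilter ℕ) (N : Set I → I → Set ℕ),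
      (∀ i, (r i : Filter ℕ) ≤ cofinite ∧ M i ∈ r i) ∧ ∀ d : Set I, d.Countable →
      (∀ i ∈ d, N d i ∈ r i) ∧ ∀ i ∈ d, ∀ j ∈ d, ∀ m, m ∈ N d i → m ∈ N d j → i = j := by
  obtain ⟨b, hb, h⟩ := inj_choice hI _ fun i => cantor (hM i)
  choose r Y a1 a2 a3 using h
  have : ∀ d : Set I, ∃ N : I → Set ℕ, d.Countable →
      (∀ i ∈ d, N i ∈ r i) ∧ ∀ i ∈ d, ∀ j ∈ d, ∀ m, m ∈ N i → m ∈ N j → i = j := fun d => by
    by_cases hd : d.Countable
    swap
    · exact ⟨fun _ => ∅, fun h => absurd h hd⟩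
    have : ∀ i, ∃ A ∈ r i, ∀ j ∈ d, j ≠ i → A ∉ r j := fun i => by
      have := (hd.mono (diff_subset (t := {i}))).to_subtype
      obtain ⟨A, c1, c2⟩ := sep (a2 i) (fun j : (d \ {i} : Set I) => r j) (fun j => (a2 j).1)
        fun j hj => j.2.2 (hb ((a3 _).symm.trans (hj.trans (a3 _))))
      exact ⟨A, c1, fun j c d => c2 ⟨j, c, d⟩⟩
    choose A c1 c2 using this
    obtain ⟨e, he⟩ := Set.countable_iff_exists_injOn.1 hd
    refine ⟨fun i => A i ∩ ⋂ j ∈ d ∩ e ⁻¹' Iio (e i), (A j)ᶜ, fun _ => ⟨fun i hi => inter_mem (c1 i)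
      ((biInter_mem (Finite.of_finite_image ((finite_Iio (e i)).subset ?_)
        (he.mono inter_subset_left))).2 fun j hj => Ultrafilter.compl_mem_iff_notMem.2
          (c2 j i hi fun h => by simp [h] at hj)), fun i hi j hj m d1 d2 => ?_⟩⟩
    · rintro _ ⟨j, hj, rfl⟩; exact hj.2
    rcases lt_trichotomy (e i) (e j) with h | h | h
    · exact absurd d1.1 (mem_iInter₂.1 d2.2 i ⟨hi, h⟩)
    · exact he hi hj h
    · exact absurd d2.1 (mem_iInter₂.1 d1.2 j ⟨hj, h⟩)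
  choose N hN using this
  exact ⟨r, N, fun i => ⟨(a2 i).1, a1 i⟩, hN⟩

end Pool.Agent.H39.PP
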