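import Mathlib
import Pool.Agent.H39.PP1

set_option autoImplicit false

namespace Pool.Agent.H39.PP
open Cardinal Set Filter Topology Classical

abbrev K := ℕ → ZMod 2
abbrev L := ℕ → ℤ
def lead (y : K) (m : ℕ) : Prop := y m ≠ 0 ∧ ∀ j < m, y j = 0
def MM (γ : ℕ → K) : Set ℕ := {m | lead (γ m) m}
abbrev Ga := {γ : ℕ → K // (MM γ).Infinite}

theorem lead.uniq {y : K} {m n : ℕ} (h : lead y m) (h' : lead y n) : m = n := by
  rcases lt_trichotomy m n with a | a | a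
  · exact absurd (h'.2 m a) h.1
  · exact a
  · exact absurd (h.2 n a) h'.1
theorem ex_lead {y : K} (h : y ≠ 0) : ∃ m, lead y m := by
  have h1 : ∃ m, y m ≠ 0 := Function.ne_iff.1 h
  exact ⟨Nat.find h1, Nat.find_spec h1, fun j hj => not_not.1 (Nat.find_min h1 hj)⟩

theorem mk_Ga : #(Ga × Bool) ≤ 𝔠 := by
  have : #Ga ≤ 𝔠 := (mk_subtype_le _).trans (by simp)
  rw [mk_prod, lift_id, lift_id, mk_bool]
  exact (mul_le_mul' this ((nat_lt_continuum 2).le)).trans (by simp)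

theorem ex_r : ∃ (r : Ga × Bool → Ultrafilter ℕ) (N : Set (Ga × Bool) → Ga × Bool → Set ℕ),
    (∀ i, (r i : Filter ℕ) ≤ cofinite ∧ MM i.1.1 ∈ r i) ∧ ∀ d : Set (Ga × Bool), d.Countable →
    (∀ i ∈ d, N d i ∈ r i) ∧ ∀ i ∈ d, ∀ j ∈ d, ∀ m, m ∈ N d i → m ∈ N d j → i = j :=
  comb mk_Ga _ fun i => i.1.2

noncomputable def r := ex_r.choose
noncomputable def N (d : Set Ga) := ex_r.choose_spec.choose (d ×ˢ Set.univ)
theorem r_spec (i : Ga × Bool) : (r i : Filter ℕ) ≤ cofinite ∧ MM i.1.1 ∈ r i :=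
  ex_r.choose_spec.choose_spec.1 i
theorem N_spec {d : Set Ga} (hd : d.Countable) : (∀ i ∈ d ×ˢ Set.univ, N d i ∈ r i) ∧
    ∀ i ∈ d ×ˢ Set.univ, ∀ j ∈ d ×ˢ Set.univ, ∀ m, m ∈ N d i → m ∈ N d j → i = j :=
  ex_r.choose_spec.choose_spec.2 _ (hd.prod countable_univ)

def AA (i : Bool) (d : Set Ga) (m : ℕ) : Prop := ∃ γ, γ ∈ d ∧ m ∈ N d (γ, i) ∧ m ∈ MM γ.1
noncomputable def w (i : Bool) (d : Set Ga) (m : ℕ) : K :=
  if h : AA i d m then h.choose.1 m else 0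
noncomputable def T (i : Bool) (d : Set Ga) : Submodule (ZMod 2) K :=
  Submodule.span _ (w i d '' {m | AA i d m})

theorem mem_T {i : Bool} {d : Set Ga} (hd : d.Countable) {γ : Ga} (h : γ ∈ d) {m : ℕ}
    (h1 : m ∈ N d (γ, i)) (h2 : m ∈ MM γ.1) : γ.1 m ∈ T i d := by
  have h3 : AA i d m := ⟨γ, h, h1, h2⟩
  refine Submodule.subset_span ⟨m, h3, ?_⟩
  have := (N_spec hd).2 (_, i) ⟨h3.choose_spec.1, trivial⟩ (γ, i) ⟨h, trivial⟩ m
    h3.choose_spec.2.1 h1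
  rw [w, dif_pos h3]
  exact congrArg (fun p : Ga × Bool => p.1.1 m) this

theorem ech {i : Bool} {d : Set Ga} {y : K} (h : y ∈ T i d) {m : ℕ} (hm : lead y m) :
    AA i d m := by
  obtain ⟨l, h1, rfl⟩ := (Finsupp.mem_span_image_iff_linearCombination _).1 h
  have hw : ∀ a ∈ l.support, lead (w i d a) a := fun a ha => by
    have h3 : AA i d a := h1 ha
    rw [w, dif_pos h3]; exact h3.choose_spec.2.2
  have ne : l.support.Nonempty := by
    by_contra hc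
    rw [Finset.not_nonempty_iff_eq_empty, Finsupp.support_eq_empty] at hc
    exact hm.1 (by simp [hc])
  have ha := l.support.min'_mem ne
  suffices lead (Finsupp.linearCombination (ZMod 2) (w i d) l) (l.support.min' ne) from
    hm.uniq this ▸ h1 ha
  simp only [lead, Finsupp.linearCombination_apply, Finsupp.sum, Finset.sum_apply, Pi.smul_apply,
    smul_eq_mul]
  refine ⟨?_, fun j hj => Finset.sum_eq_zero fun a h => by
    rw [(hw a h).2 j (hj.trans_le (l.support.min'_le a h)), mul_zero]⟩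
  rw [Finset.sum_eq_single_of_mem _ ha fun a h e => by
    rw [(hw a h).2 _ (lt_of_le_of_ne (l.support.min'_le a h) e.symm), mul_zero]]
  exact mul_ne_zero (Finsupp.mem_support_iff.1 ha) (hw _ ha).1

def pos (f : L) : Prop := ∀ᶠ k in atTop, 0 < f k
theorem pos.add {f g : L} (h : pos f) (h' : pos g) : pos (f + g) :=
  (h.and h').mono fun _ h => add_pos h.1 h.2
theorem pos.not {f : L} (h : pos f) : ¬ (pos (-f) ∨ f = 0) := by
  rintro (h' | rfl)
  · obtain ⟨k, a, b⟩ := (h.and h').exists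
    simp only [Pi.neg_apply] at b; omega
  · obtain ⟨k, a⟩ := h.exists; simp at a
theorem bound (f : ℕ → L) : ∃ b, ∀ n, pos (f n - b) :=
  ⟨fun k => -(1 + ∑ n ∈ Finset.range (k + 1), |f n k|), fun n =>
    (eventually_ge_atTop n).mono fun k hk => by
      have := Finset.single_le_sum (f := fun n => |f n k|) (fun _ _ => abs_nonneg _)
        (Finset.mem_range.2 (show n < k + 1 by omega))
      have := neg_abs_le (f n k)
      simp only [Pi.sub_apply]; omega⟩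

def A0 : AddSubgroup (K × (Set Ga → L)) where
  carrier := {g | ∃ d0 : Set Ga, d0.Countable ∧ ∀ d, d0 ⊆ d → g.2 d = 0}
  zero_mem' := ⟨∅, countable_empty, fun _ _ => rfl⟩
  add_mem' := fun ⟨a, b, c⟩ ⟨a', b', c'⟩ => ⟨a ∪ a', b.union b', fun d h => by
    simp [c d (subset_union_left.trans h), c' d (subset_union_right.trans h)]⟩
  neg_mem' := fun ⟨a, b, c⟩ => ⟨a, b, fun d h => by simp [c d h]⟩

def GG (_ : Bool) : Type := A0
instance (i : Bool) : AddCommGroup (GG i) := inferInstanceAs (AddCommGroup A0)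

def V (i : Bool) (k : ℕ) (F : Finset (Set Ga)) (g : K × (Set Ga → L)) : Prop :=
  (∀ j < k, g.1 j = 0) ∧ ∀ d, pos (g.2 d) ∨ (g.2 d = 0 ∧ (d ∈ F → d.Countable → g.1 ∈ T i d))

theorem V.add {i : Bool} {k : ℕ} {F : Finset (Set Ga)} {g g' : K × (Set Ga → L)} (h : V i k F g)
    (h' : V i k F g') : V i k F (g + g') := by
  refine ⟨fun j hj => by simp [h.1 j hj, h'.1 j hj], fun d => ?_⟩
  rcases h.2 d with a | a <;> rcases h'.2 d with b | b
  · exact Or.inl (a.add b)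
  · exact Or.inl (by simpa [b.1] using a)
  · exact Or.inl (by simpa [a.1] using b)
  · exact Or.inr ⟨by simp [a.1, b.1], fun c e => add_mem (a.2 c e) (b.2 c e)⟩
theorem V_zero (i : Bool) (k : ℕ) (F : Finset (Set Ga)) : V i k F 0 :=
  ⟨fun _ _ => rfl, fun _ => Or.inr ⟨rfl, fun _ _ => zero_mem _⟩⟩
theorem V.mono {i : Bool} {k k' : ℕ} {F F' : Finset (Set Ga)} {g : K × (Set Ga → L)}
    (h : V i k F g) (hk : k' ≤ k) (hF : F' ⊆ F) : V i k' F' g :=
  ⟨fun j hj => h.1 j (hj.trans_le hk), fun d => (h.2 d).imp_right fun a => ⟨a.1, fun c => a.2 (hF c)⟩⟩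

instance (i : Bool) : TopologicalSpace (GG i) where
  IsOpen O := ∀ x ∈ O, ∃ k F, ∀ y : GG i, V i k F (y.1 - x.1) → y ∈ O
  isOpen_univ := fun _ _ => ⟨0, ∅, fun _ _ => trivial⟩
  isOpen_inter := fun s t hs ht g hg => by
    obtain ⟨k, P, h⟩ := hs g hg.1
    obtain ⟨k', P', h'⟩ := ht g hg.2
    exact ⟨max k k', P ∪ P', fun v hv => ⟨h v (hv.mono (le_max_left _ _) Finset.subset_union_left),
      h' v (hv.mono (le_max_right _ _) Finset.subset_union_right)⟩⟩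
  isOpen_sUnion := fun S hS g ⟨t, ht, hg⟩ => by
    obtain ⟨P, k, h⟩ := hS t ht g hg
    exact ⟨P, k, fun v hv => ⟨t, ht, h v hv⟩⟩

theorem V_open (i : Bool) (k : ℕ) (F : Finset (Set Ga)) (z : K × (Set Ga → L)) :
    IsOpen {y : GG i | V i k F (y.1 - z)} := fun x hx => ⟨k, F, fun y hy => by
  have := V.add hy hx
  rwa [sub_add_sub_cancel] at this⟩
theorem mem_nhds' {i : Bool} {x : GG i} {S : Set (GG i)} :
    S ∈ 𝓝 x ↔ ∃ k F, ∀ y : GG i, V i k F (y.1 - x.1) → y ∈ S :=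
  ⟨fun h => by
    obtain ⟨O, h1, h2, h3⟩ := mem_nhds_iff.1 h
    obtain ⟨k, P, h⟩ := h2 x h3
    exact ⟨k, P, fun v hv => h1 (h v hv)⟩, fun ⟨k, F, h⟩ => mem_nhds_iff.2
      ⟨_, h, V_open i k F x.1, by
      show V i k F (x.1 - x.1)
      rw [sub_self]; exact V_zero i k F⟩⟩
theorem V_nhds {i : Bool} (k : ℕ) (F : Finset (Set Ga)) (x : GG i) :
    {y : GG i | V i k F (y.1 - x.1)} ∈ 𝓝 x := mem_nhds'.2 ⟨k, F, fun _ h => h⟩

instance (i : Bool) : ContinuousAdd (GG i) := ⟨continuous_iff_continuousAt.2 fun x S hS => by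
  obtain ⟨k, F, h⟩ := mem_nhds'.1 hS
  refine mem_map.2 (mem_of_superset (prod_mem_nhds (V_nhds k F x.1) (V_nhds k F x.2))
    fun y hy => h _ ?_)
  have := V.add hy.1 hy.2
  rwa [← add_sub_add_comm] at this⟩

theorem cc (i : Bool) (g : ℕ → GG i) : ∃ x : GG i, ∀ U ∈ 𝓝 x, {n | g n ∈ U}.Infinite := by
  have : ∀ j, ∃ c, ∀ᶠ n in (hyperfilter ℕ : Filter ℕ), (g n).1.1 j = c := fun j => by
    obtain ⟨c, hc⟩ := Ultrafilter.eq_pure_of_finite ((hyperfilter ℕ).map fun n => (g n).1.1 j)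
    exact ⟨c, show {c} ∈ (hyperfilter ℕ).map fun n => (g n).1.1 j by rw [hc]; rfl⟩
  choose κ hκ using this
  choose d0 a1 a2 using fun n => (g n).2
  choose b hb using fun d => bound fun n => (g n).1.2 d
  have main : ∀ d1 : Set Ga, d1.Countable → ∃ x : GG i, x.1.1 = κ ∧ ∀ n d,
      pos (((g n).1 - x.1).2 d) ∨ (((g n).1 - x.1).2 d = 0 ∧ d1 ⊆ d) := fun d1 h1 => by
    refine ⟨⟨(κ, fun d => if d1 ∪ ⋃ n, d0 n ⊆ d then 0 else b d), d1 ∪ ⋃ n, d0 n,
      h1.union (countable_iUnion a1), fun d h => if_pos h⟩, rfl, fun n d => ?_⟩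
    by_cases h : d1 ∪ ⋃ n, d0 n ⊆ d
    · exact Or.inr ⟨by simp only [Prod.snd_sub, Pi.sub_apply, if_pos h, sub_zero,
        a2 n d ((subset_iUnion d0 n).trans (subset_union_right.trans h))],
        subset_union_left.trans h⟩
    · exact Or.inl (by simpa only [Prod.snd_sub, Pi.sub_apply, if_neg h] using hb d n)
  by_cases hM : {m | ∃ n, lead ((g n).1.1 - κ) m}.Finite
  · obtain ⟨x, b1, b2⟩ := main ∅ countable_empty
    refine ⟨x, fun U hU => ?_⟩
    obtain ⟨k, F, h⟩ := mem_nhds'.1 hU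
    refine inf_of hyperfilter_le_cofinite (mem_of_superset ((eventually_all_finite hM).2
      fun j _ => hκ j) fun n hn => h _ ?_)
    have e : ((g n).1 - x.1).1 = 0 := by
      by_contra hc
      rw [Prod.fst_sub, b1] at hc
      obtain ⟨m, hm⟩ := ex_lead hc
      exact hm.1 (sub_eq_zero.2 (hn m ⟨n, hm⟩))
    exact ⟨fun j _ => by rw [e]; rfl, fun d => (b2 n d).imp_right fun c =>
      ⟨c.1, fun _ _ => e ▸ zero_mem _⟩⟩
  have : ∀ m, ∃ n, (∃ n, lead ((g n).1.1 - κ) m) → lead ((g n).1.1 - κ) m := fun m => by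
    by_cases h : ∃ n, lead ((g n).1.1 - κ) m
    · exact h.imp fun _ h _ => h
    · exact ⟨0, fun h' => absurd h' h⟩
  choose n hn using this
  let γ : Ga := ⟨fun m => (g (n m)).1.1 - κ, Infinite.mono (fun m hm => hn m hm) hM⟩
  obtain ⟨x, b1, b2⟩ := main {γ} (countable_singleton _)
  refine ⟨x, fun U hU => ?_⟩
  obtain ⟨k, F, h⟩ := mem_nhds'.1 hU
  have c1 : ∀ᶠ m in (r (γ, i) : Filter ℕ), ∀ d ∈ F, d.Countable → γ ∈ d → m ∈ N d (γ, i) :=
    (eventually_all_finset F).2 fun d _ => by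
      by_cases c : d.Countable ∧ γ ∈ d
      · exact mem_of_superset ((N_spec c.1).1 (γ, i) ⟨c.2, trivial⟩) fun m hm _ _ => hm
      · exact Eventually.of_forall fun m a b => absurd ⟨a, b⟩ c
  have c2 : ∀ᶠ m in (r (γ, i) : Filter ℕ), k ≤ m :=
    (r_spec _).1 (Nat.cofinite_eq_atTop ▸ eventually_ge_atTop k)
  refine infinite_of_injOn_mapsTo (f := n) (fun a ha b hb e => ?_) (fun m hm => h _ ?_)
    (inf_of (r_spec _).1 (inter_mem (r_spec (γ, i)).2 (c1.and c2)))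
  · exact lead.uniq (y := (g (n a)).1.1 - κ) ha.1 (e ▸ hb.1)
  · have e : ((g (n m)).1 - x.1).1 = γ.1 m := by rw [Prod.fst_sub, b1]
    exact ⟨fun j hj => e ▸ hm.1.2 j (hj.trans_le hm.2.2), fun d => (b2 _ d).imp_right fun c =>
      ⟨c.1, fun c1 c2 => e ▸ mem_T c2 (c.2 rfl) (hm.2.1 d c1 c2 (c.2 rfl)) hm.1⟩⟩

theorem key (d0 : Set Ga) (hd : d0.Countable) (z : ∀ i, GG i) : ∃ k F, ∀ m, k ≤ m →
    ∀ g : ∀ i, GG i, (∀ i, V i k F ((g i).1 - (z i).1) ∧ lead (g i).1.1 m ∧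
      ∀ d, d0 ⊆ d → pos (-(g i).1.2 d) ∨ (g i).1.2 d = 0) → False := by
  by_cases h : ∃ i j, (z i).1.1 j ≠ 0
  · obtain ⟨i, j, h⟩ := h
    refine ⟨j + 1, ∅, fun m hm g hg => h ?_⟩
    have := (hg i).1.1 j (by omega)
    rwa [Prod.fst_sub, Pi.sub_apply, (hg i).2.1.2 j (by omega), zero_sub, neg_eq_zero] at this
  push Not at h
  choose d1 a1 a2 using fun i => (z i).2
  have hc : (d0 ∪ ⋃ i, d1 i).Countable := hd.union (countable_iUnion a1)
  refine ⟨0, {d0 ∪ ⋃ i, d1 i}, fun m _ g hg => ?_⟩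
  have : ∀ i, AA i (d0 ∪ ⋃ i, d1 i) m := fun i => by
    have e := a2 i (d0 ∪ ⋃ i, d1 i) ((subset_iUnion d1 i).trans subset_union_right)
    have h1 := (hg i).1.2 (d0 ∪ ⋃ i, d1 i)
    rw [Prod.snd_sub, Pi.sub_apply, e, sub_zero, Prod.fst_sub, show (z i).1.1 = 0 from funext (h i),
      sub_zero] at h1
    exact ech ((h1.resolve_left fun c => c.not ((hg i).2.2 _ subset_union_left)).2
      (Finset.mem_singleton_self _) hc) (hg i).2.1
  obtain ⟨γ, b1, b2, -⟩ := this true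
  obtain ⟨γ', b3, b4, -⟩ := this false
  simpa using (N_spec hc).2 (γ, true) ⟨b1, trivial⟩ (γ', false) ⟨b3, trivial⟩ m b2 b4

end Pool.Agent.H39.PP
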