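import Mathlib
import Pool.Agent.H39.PP2

set_option autoImplicit false

namespace Pool.Agent.H39.PP
open Set Filter Topology Classical

abbrev H (i : Bool) := Multiplicative (GG i)

theorem W_open (i : Bool) (m : ℕ) : IsOpen {g : GG i | lead g.1.1 m} := fun x hx =>
  ⟨m + 1, ∅, fun y hy => by
    have : ∀ j ≤ m, y.1.1 j = x.1.1 j := fun j hj => sub_eq_zero.1 (hy.1 j (by omega))
    exact ⟨this m le_rfl ▸ hx.1, fun j hj => this j hj.le ▸ hx.2 j hj⟩⟩

noncomputable def e (i : Bool) (m : ℕ) : GG i :=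
  ⟨(Pi.single m 1, 0), ∅, countable_empty, fun _ _ => rfl⟩
theorem e_lead (i : Bool) (m : ℕ) : lead (e i m).1.1 m :=
  ⟨by simp [e], fun j hj => by simp [e, hj.ne]⟩

section
variable {X : Type} [TopologicalSpace X] (π : ∀ i, X → GG i) (hπ : ∀ i, Continuous (π i))
  (hs : ∀ g : ∀ i, GG i, ∃ x, ∀ i, π i x = g i)
include hπ hs

theorem not_pc [Group X] (hi : ∀ i x, π i x⁻¹ = -π i x) : ∃ U : ℕ → Set X, Antitone U ∧
    (∀ n, IsOpen (U n) ∧ (U n).Nonempty) ∧ ⋂ n, closure (U n)⁻¹ = ∅ := by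
  refine ⟨fun n => ⋃ m ∈ Ici n, ⋂ i, π i ⁻¹' ({g | lead g.1.1 m} ∩ {g | V i 0 ∅ (g.1 - 0)}),
    fun a b h => biUnion_subset_biUnion_left (Ici_subset_Ici.2 h), fun n => ⟨isOpen_biUnion
      fun m _ => isOpen_iInter_of_finite fun i =>
        ((W_open i m).inter (V_open i 0 ∅ 0)).preimage (hπ i), ?_⟩,
    eq_empty_of_forall_notMem fun x hx => ?_⟩
  · obtain ⟨x, hx⟩ := hs fun i => e i n
    refine ⟨x, mem_biUnion (mem_Ici.2 le_rfl) (mem_iInter.2 fun i => ?_)⟩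
    rw [mem_preimage, hx]
    exact ⟨e_lead i n, by simp, fun d => Or.inr ⟨by simp [e], by simp⟩⟩
  obtain ⟨k, F, h⟩ := key ∅ countable_empty fun i => π i x
  obtain ⟨y, a, b⟩ := mem_closure_iff_nhds.1 (mem_iInter.1 hx k) _
    (iInter_mem.2 fun i => (hπ i).continuousAt (V_nhds k F (π i x)))
  obtain ⟨m, hm, c⟩ := mem_iUnion₂.1 (mem_inv.1 b)
  refine h m hm (fun i => π i y) fun i => ?_
  have c1 := mem_iInter.1 c i
  rw [mem_preimage, hi] at c1
  refine ⟨mem_iInter.1 a i, ⟨fun h => c1.1.1 (neg_eq_zero.2 h), fun j hj =>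
    neg_eq_zero.1 (c1.1.2 j hj)⟩, fun d _ => (c1.2.2 d).imp (fun h => ?_) fun h => ?_⟩
  · rw [sub_zero] at h; exact h
  · have := h.1
    rw [sub_zero] at this; exact neg_eq_zero.1 this

theorem not_pra : ¬ ∃ D : Set X, Dense D ∧ ∀ B ⊆ D, B.Infinite →
    ∃ x, ∀ U ∈ 𝓝 x, (U ∩ B).Infinite := by
  rintro ⟨D, hD, h⟩
  have : ∀ m, ∃ y ∈ D, ∀ i, lead (π i y).1.1 m := fun m => by
    obtain ⟨x, hx⟩ := hs fun i => e i m
    obtain ⟨y, a, b⟩ := hD.exists_mem_open (U := ⋂ i, π i ⁻¹' {g | lead g.1.1 m})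
      (isOpen_iInter_of_finite fun i => (W_open i m).preimage (hπ i))
      ⟨x, mem_iInter.2 fun i => by rw [mem_preimage, hx]; exact e_lead i m⟩
    exact ⟨y, a, mem_iInter.1 b⟩
  choose y a b using this
  obtain ⟨x, hx⟩ := h (range y) (range_subset_iff.2 a) (infinite_range_of_injective
    fun m n e => (b m true).uniq (e ▸ b n true))
  choose d a1 a2 using fun p : ℕ × Bool => (π p.2 (y p.1)).2
  obtain ⟨k, F, h⟩ := key (⋃ p, d p) (countable_iUnion a1) fun i => π i x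
  refine hx _ (iInter_mem.2 fun i => (hπ i).continuousAt (V_nhds k F (π i x)))
    (((finite_Iio k).image y).subset ?_)
  rintro _ ⟨c, m, rfl⟩
  refine ⟨m, not_le.1 fun hm => h m hm (fun i => π i (y m)) fun i => ⟨mem_iInter.1 c i, b m i,
    fun d' hd => Or.inr (a2 (m, i) d' ((subset_iUnion d _).trans hd))⟩, rfl⟩
end

theorem cc1 (i : Bool) (B : Set (H i)) (hB : B.Infinite) : ∃ x, ∀ U ∈ 𝓝 x, (U ∩ B).Infinite := by
  obtain ⟨x, hx⟩ := cc i fun n => (hB.natEmbedding B n : H i)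
  exact ⟨x, fun U hU => infinite_of_injOn_mapsTo (f := fun n => (hB.natEmbedding B n : H i))
    (fun _ _ _ _ h => (hB.natEmbedding B).injective (Subtype.ext h))
    (fun n hn => ⟨hn, (hB.natEmbedding B n).2⟩) (hx U hU)⟩

theorem cc2 (i : Bool) (U : ℕ → Set (H i)) (h : Antitone U)
    (h' : ∀ n, IsOpen (U n) ∧ (U n).Nonempty) : (⋂ n, closure (U n)⁻¹).Nonempty := by
  choose g hg using fun n => (h' n).2
  obtain ⟨x, hx⟩ := cc i fun n => ((g n)⁻¹ : H i)
  refine ⟨x, mem_iInter.2 fun n => mem_closure_iff_nhds.2 fun O hO => ?_⟩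
  obtain ⟨m, a, b⟩ := (hx O hO).exists_gt n
  exact ⟨_, a, by simpa using h b.le (hg m)⟩

def pr : ∀ i, H true × H false → GG i
  | true => fun x => x.1
  | false => fun x => x.2
theorem pr_c (i : Bool) : Continuous (pr i) := by
  cases i
  · exact continuous_snd
  · exact continuous_fst
theorem pr_s (g : ∀ i, GG i) : ∃ x, ∀ i, pr i x = g i :=
  ⟨(g true, g false), fun i => by cases i <;> rfl⟩
theorem pr_i (i : Bool) (x : H true × H false) : pr i x⁻¹ = -pr i x := by cases i <;> rfl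

theorem fam (J : Type) [Nontrivial J] : ∃ (c : J → Bool) (π : ∀ i, (∀ j, H (c j)) → GG i),
    (∀ i, Continuous (π i)) ∧ (∀ g : ∀ i, GG i, ∃ x, ∀ i, π i x = g i) ∧
      ∀ i x, π i x⁻¹ = -π i x := by
  obtain ⟨a, b, hab⟩ := exists_pair_ne J
  have : ∀ i : Bool, ∃ j : J, decide (j = a) = i := fun i => by
    cases i
    · exact ⟨b, by simp [hab.symm]⟩
    · exact ⟨a, by simp⟩
  choose s hs using this
  have key : ∀ (i i' : Bool) (h : i' = i), ∃ φ : H i' → GG i, Continuous φ ∧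
      (∀ g : ∀ i, GG i, φ (g i') = g i) ∧ ∀ x, φ x⁻¹ = -φ x := by
    rintro i _ rfl
    exact ⟨fun x => x, continuous_id, fun _ => rfl, fun _ => rfl⟩
  choose φ a1 a2 a3 using fun i => key i _ (hs i)
  exact ⟨fun j => decide (j = a), fun i x => φ i (x (s i)),
    fun i => (a1 i).comp (continuous_apply _), fun g => ⟨fun j => g _, fun i => a2 i g⟩,
    fun i x => a3 i _⟩

end Pool.Agent.H39.PP
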