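import Mathlib

/-! A regular P-space with a point that is remote from a crowded dense subspace. -/

set_option autoImplicit false

namespace Pool.Agent.H39.PSp
open Cardinal Set Filter Topology

abbrev K : Type := (Order.succ 𝔠 : Cardinal.{0}).ord.ToType

theorem mk_K : #K = Order.succ 𝔠 := mk_ord_toType _

theorem mk_Iio_le (a : K) : #(Iio a) ≤ 𝔠 := by
  have h3 := mk_Iio_lt a (by simp)
  rw [mk_K] at h3
  exact Order.lt_succ_iff.1 h3

theorem mk_Iic_le (a : K) : #(Iic a) ≤ 𝔠 := by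
  rw [← Iio_insert]
  exact mk_insert_le.trans ((add_le_add (mk_Iio_le a) (one_le_aleph0.trans aleph0_le_continuum)).trans
    (add_eq_self aleph0_le_continuum).le)

theorem bdd (S : Set K) (h : #S ≤ 𝔠) : ∃ b, ∀ a ∈ S, a < b := by
  by_contra hc
  push Not at hc
  have h1 : (univ : Set K) ⊆ ⋃ a : S, Iic a.1 := fun b _ => by
    obtain ⟨a, h1, h2⟩ := hc b
    exact mem_iUnion.2 ⟨⟨a, h1⟩, h2⟩
  have h2 := (mk_le_mk_of_subset h1).trans (mk_iUnion_le _)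
  rw [mk_univ, mk_K] at h2
  have h3 : ⨆ a : S, #(Iic a.1) ≤ 𝔠 := ciSup_le' fun a => mk_Iic_le _
  exact absurd (h2.trans ((mul_le_mul' h h3).trans (mul_eq_self aleph0_le_continuum).le))
    (Order.lt_succ _).not_ge

theorem bddc {S : Set K} (h : S.Countable) : ∃ b, ∀ a ∈ S, a < b :=
  bdd S ((le_aleph0_iff_set_countable.2 h).trans aleph0_le_continuum)

theorem exists_gt (a : K) : ∃ b, a < b := by
  obtain ⟨b, hb⟩ := bddc (countable_singleton a)
  exact ⟨b, hb a rfl⟩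

theorem club (g : K → K) (a : K) : ∃ c, a < c ∧ ∀ γ < c, g γ < c := by
  have : ∀ x : K, ∃ y, x < y ∧ ∀ γ ≤ x, g γ < y := fun x => by
    obtain ⟨b, hb⟩ := bdd (g '' Iic x) (mk_image_le.trans (mk_Iic_le x))
    obtain ⟨c, hc⟩ := exists_gt x
    exact ⟨max b c, lt_max_of_lt_right hc, fun γ h => lt_max_of_lt_left (hb _ ⟨γ, h, rfl⟩)⟩
  choose f hf hf' using this
  obtain ⟨b, hb⟩ := bddc (countable_range fun n : ℕ => f^[n] a)
  obtain ⟨c, hc, hm⟩ := wellFounded_lt.has_min {b | ∀ n : ℕ, f^[n] a < b}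
    ⟨b, fun n => hb _ ⟨n, rfl⟩⟩
  refine ⟨c, hc 0, fun γ hγ => ?_⟩
  obtain ⟨n, hn⟩ : ∃ n, γ ≤ f^[n] a := by
    by_contra h
    push Not at h
    exact hm γ h hγ
  have := hc (n + 1)
  rw [Function.iterate_succ_apply'] at this
  exact (hf' _ _ hn).trans this

theorem club1 (g : K → K) : ∃ δ, (∀ γ < δ, g γ < δ) ∧
    ∀ S : Set K, S.Countable → S ⊆ Iio δ → ∃ b < δ, ∀ a ∈ S, a ≤ b := by
  let C := {c | ∀ γ < c, g γ < c}
  have h1 : ¬ C.Countable := fun h => by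
    obtain ⟨b, hb⟩ := bddc h
    obtain ⟨c, h1, h2⟩ := club g b
    exact (hb c h2).not_gt h1
  obtain ⟨p, hp, hp'⟩ : ∃ p ⊆ C, #p = ℵ₁ := le_mk_iff_exists_subset.1 (by
    rw [← succ_aleph0, Order.succ_le_iff, ← not_le, le_aleph0_iff_set_countable]; exact h1)
  obtain ⟨b, hb⟩ := bdd p (hp'.le.trans aleph_one_le_continuum)
  obtain ⟨δ, hδ, hm⟩ := wellFounded_lt.has_min {b | ¬ (Iio b ∩ C).Countable} ⟨b, fun h => by
    have := le_aleph0_iff_set_countable.2 (h.mono fun a ha => (⟨hb a ha, hp ha⟩ : a ∈ Iio b ∩ C))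
    rw [hp'] at this
    exact absurd this aleph0_lt_aleph_one.not_ge⟩
  have key : ∀ S : Set K, S.Countable → S ⊆ Iio δ → ∃ c ∈ C, c < δ ∧ ∀ a ∈ S, a < c := by
    intro S hS hS'
    by_contra h
    push Not at h
    refine hδ ((hS.union (hS.biUnion fun a ha => not_not.1 fun h => hm a h (hS' ha))).mono ?_)
    rintro c ⟨h2, h3⟩
    obtain ⟨a, h4, h5⟩ := h c h3 h2
    rcases h5.eq_or_lt with rfl | h5
    · exact Or.inl h4
    · exact Or.inr (mem_biUnion h4 ⟨h5, h3⟩)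
  refine ⟨δ, fun γ hγ => ?_, fun S h h' => ?_⟩
  · obtain ⟨c, h2, h3, h4⟩ := key {γ} (countable_singleton _) (by simpa)
    exact (h2 γ (h4 γ rfl)).trans h3
  · obtain ⟨c, -, h3, h4⟩ := key S h h'
    exact ⟨c, h3, fun a ha => (h4 a ha).le⟩

/-- Countable sets of ordinals. -/
abbrev X : Type := {A : Set K // A.Countable}

/-- Agreement below a level. -/
def Ag (γ : K) (A B : X) : Prop := ∀ a < γ, (a ∈ A.1 ↔ a ∈ B.1)

theorem Ag.rfl {γ : K} {A : X} : Ag γ A A := fun _ _ => Iff.rfl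
theorem Ag.symm {γ : K} {A B : X} (h : Ag γ A B) : Ag γ B A := fun a ha => (h a ha).symm
theorem Ag.trans {γ : K} {A B C : X} (h : Ag γ A B) (h' : Ag γ B C) : Ag γ A C :=
  fun a ha => (h a ha).trans (h' a ha)
theorem Ag.mono {γ γ' : K} {A B : X} (h : Ag γ A B) (h' : γ' ≤ γ) : Ag γ' A B :=
  fun a ha => h a (ha.trans_le h')

/-- Sets with dense interior. -/
def DO (U : Set X) : Prop := ∀ A γ, ∃ B γ', Ag γ A B ∧ ∀ C, Ag γ' B C → C ∈ U

theorem flip (A B : X) (γ : K) : ∃ B' γ', γ ≤ γ' ∧ Ag γ B B' ∧ ∀ C, Ag γ' B' C → C ≠ A := by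
  obtain ⟨γ', h⟩ := exists_gt γ
  refine ⟨⟨{a | (a < γ ∧ a ∈ B.1) ∨ (a = γ ∧ γ ∉ A.1)}, (B.2.insert γ).mono ?_⟩, γ', h.le,
    fun a ha => by simp [ha, ha.ne], fun C hC e => ?_⟩
  · rintro a (h | h)
    · exact Or.inr h.2
    · exact Or.inl h.1
  · have := hC γ h
    simp [e] at this

theorem exists_delta (U : Set X) : ∃ δ : K, DO U →
    (∀ S : Set K, S.Countable → S ⊆ Iio δ → ∃ b < δ, ∀ a ∈ S, a ≤ b) ∧
    ∀ A, ∀ γ < δ, ∃ B, ∃ γ' < δ, Ag γ A B ∧ ∀ C, Ag γ' B C → C ∈ U := by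
  by_cases hU : DO U
  swap
  · obtain ⟨b, -⟩ := bddc countable_empty
    exact ⟨b, fun h => absurd h hU⟩
  choose B G h1 h2 using hU
  have : ∀ γ, ∃ b, ∀ A : X, A.1 ⊆ Iio γ → G A γ < b := fun γ => by
    have h3 : #{A : X | A.1 ⊆ Iio γ} ≤ 𝔠 := by
      refine le_trans (mk_le_of_injective (f := fun A => (⟨A.1.1, A.2,
        le_aleph0_iff_set_countable.2 A.1.2⟩ : {t : Set K // t ⊆ Iio γ ∧ #t ≤ ℵ₀}))
        fun a b h => Subtype.ext (Subtype.ext (Subtype.mk.inj h))) ?_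
      refine (mk_bounded_subset_le _ _).trans ?_
      exact (power_le_power_right (max_le (mk_Iio_le γ) aleph0_le_continuum)).trans
        continuum_power_aleph0.le
    obtain ⟨b, hb⟩ := bdd ((fun A => G A γ) '' _) (mk_image_le.trans h3)
    exact ⟨b, fun A h => hb _ ⟨A, h, rfl⟩⟩
  choose g hg using this
  obtain ⟨δ, h3, h4⟩ := club1 g
  refine ⟨δ, fun _ => ⟨h4, fun A γ hγ => ?_⟩⟩
  let A' : X := ⟨A.1 ∩ Iio γ, A.2.mono inter_subset_left⟩
  exact ⟨B A' γ, G A' γ, (hg γ A' inter_subset_right).trans (h3 γ hγ),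
    Ag.trans (fun a ha => by simp [A', ha]) (h1 A' γ), h2 A' γ⟩

noncomputable def dl (U : Set X) : K := (exists_delta U).choose

/-- The clopen set attached to a set with dense interior. -/
def ph (U : Set X) : Set X := {A | ∃ γ < dl U, ∀ C, Ag γ A C → C ∈ U}

theorem ph_sub {U : Set X} : ph U ⊆ U := fun A ⟨_, _, h⟩ => h A Ag.rfl

theorem ph_ag {U : Set X} {A B : X} (h : A ∈ ph U) (h' : Ag (dl U) A B) : B ∈ ph U :=
  h.imp fun _ h => ⟨h.1, fun C hC => h.2 C ((h'.mono h.1.le).trans hC)⟩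

/-- Gluing. -/
def glue {ι : Type} [Countable ι] (p : ι → X × K) : X :=
  ⟨{a | ∃ i, a < (p i).2 ∧ a ∈ (p i).1.1},
    (countable_iUnion fun i => (p i).1.2).mono fun _ ⟨i, h⟩ => mem_iUnion.2 ⟨i, h.2⟩⟩

theorem glue_ag {ι : Type} [Countable ι] [LinearOrder ι] (p : ι → X × K)
    (h : ∀ i j, i < j → Ag (p i).2 (p i).1 (p j).1) (m : ι) : Ag (p m).2 (p m).1 (glue p) := by
  refine fun a ha => ⟨fun h => ⟨m, ha, h⟩, fun ⟨k, h1, h2⟩ => ?_⟩
  rcases lt_trichotomy k m with hk | rfl | hk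
  · exact (h k m hk a h1).1 h2
  · exact h2
  · exact (h m k hk a ha).2 h2

theorem linked {𝒰 : Set (Set X)} (hc : 𝒰.Countable) (h : ∀ U ∈ 𝒰, DO U) :
    ∃ A, ∀ U ∈ 𝒰, A ∈ ph U := by
  have := hc.to_subtype
  obtain ⟨e, he⟩ := Countable.exists_injective_nat 𝒰
  let f : 𝒰 → K ×ₗ ℕ := fun U => toLex (dl U, e U)
  have hf : f.Injective := fun a b h => he (congrArg (fun x => (ofLex x).2) h)
  let _ : LinearOrder 𝒰 := LinearOrder.lift' f hf
  have wf : WellFounded (fun a b : 𝒰 => f a < f b) := wellFounded_lt.onFun (f := f)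
  have hm : ∀ a b : 𝒰, f a < f b → dl a ≤ dl b := fun a b h => by
    rcases Prod.Lex.toLex_lt_toLex.1 h with h | h
    · exact h.le
    · exact h.1.le
  have key : ∀ (i : 𝒰) (g : ∀ j, f j < f i → X × K), ∃ q : X × K, q.2 < dl i ∧
      (∀ C, Ag q.2 q.1 C → C ∈ i.1) ∧ ∀ j hj, (g j hj).2 < dl i →
        Ag (g j hj).2 (glue fun k : {k // f k < f i} => g k.1 k.2) q.1 := by
    intro i g
    obtain ⟨h1, h2⟩ := (exists_delta i.1).choose_spec (h _ i.2)
    obtain ⟨b, h3, h4⟩ := h1 (range (fun k : {k // f k < f i} => (g k.1 k.2).2) ∩ Iio (dl i))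
      ((countable_range _).mono inter_subset_left) inter_subset_right
    obtain ⟨B, γ, h5, h6, h7⟩ := h2 (glue fun k : {k // f k < f i} => g k.1 k.2) b h3
    exact ⟨(B, γ), h5, h7, fun j hj h8 => h6.mono (h4 _ ⟨⟨⟨j, hj⟩, rfl⟩, h8⟩)⟩
  choose G h1 h2 h3 using key
  let p : 𝒰 → X × K := wf.fix G
  have hp : ∀ i, p i = G i (fun j _ => p j) := wf.fix_eq G
  have h4 : ∀ i, (p i).2 < dl i := fun i => hp i ▸ h1 _ _
  have h5 : ∀ j i, f i < f j → Ag (p i).2 (p i).1 (p j).1 := by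
    intro j
    induction j using wf.induction with
    | _ j ih =>
      intro i hi
      have h6 := h3 j (fun j _ => p j) i hi ((h4 i).trans_le (hm i j hi))
      rw [← hp j] at h6
      exact (glue_ag (fun k : {k // f k < f j} => p k.1) (fun a b hab => ih b.1 b.2 a.1 hab)
        ⟨i, hi⟩).trans h6
  refine ⟨glue p, fun U hU => ⟨_, h4 ⟨U, hU⟩, fun C hC => ?_⟩⟩
  have h6 := h2 ⟨U, hU⟩ (fun j _ => p j) C
  rw [← hp] at h6
  exact h6 ((glue_ag p (fun a b hab => h5 b a hab) _).trans hC)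

/-- The space. -/
abbrev Y : Type := Option X

/-- Open sets. -/
def Op (O : Set (Option X)) : Prop := (∀ A, some A ∈ O → ∃ γ, ∀ B, Ag γ A B → some B ∈ O) ∧
  (none ∈ O → ∃ 𝒰 : Set (Set X), 𝒰.Countable ∧ (∀ U ∈ 𝒰, DO U) ∧
    ∀ A, (∀ U ∈ 𝒰, A ∈ ph U) → some A ∈ O)

theorem op_iInter {ι : Type} [Countable ι] {O : ι → Set (Option X)} (h : ∀ i, Op (O i)) :
    Op (⋂ i, O i) := by
  refine ⟨fun A hA => ?_, fun h0 => ?_⟩
  · choose γ hγ using fun i => (h i).1 A (mem_iInter.1 hA i)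
    obtain ⟨b, hb⟩ := bddc (countable_range γ)
    exact ⟨b, fun B hB => mem_iInter.2 fun i => hγ i B (hB.mono (hb _ ⟨i, rfl⟩).le)⟩
  · choose 𝒰 h1 h2 h3 using fun i => (h i).2 (mem_iInter.1 h0 i)
    refine ⟨⋃ i, 𝒰 i, countable_iUnion h1, fun U hU => ?_, fun A hA => mem_iInter.2 fun i =>
      h3 i A fun U hU => hA U (mem_iUnion.2 ⟨i, hU⟩)⟩
    obtain ⟨i, hi⟩ := mem_iUnion.1 hU
    exact h2 i U hi

instance : TopologicalSpace Y where
  IsOpen := Op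
  isOpen_univ := by simpa using op_iInter (ι := Empty) (O := Empty.elim) fun i => i.elim
  isOpen_inter U V hU hV := by
    have := op_iInter (O := fun b : Bool => cond b U V) fun b => by cases b <;> assumption
    rw [inter_eq_iInter]
    exact this
  isOpen_sUnion S hS := by
    refine ⟨fun A ⟨U, h1, h2⟩ => ?_, fun ⟨U, h1, h2⟩ => ?_⟩
    · obtain ⟨γ, h⟩ := (hS U h1).1 A h2
      exact ⟨γ, fun B hB => ⟨U, h1, h B hB⟩⟩
    · obtain ⟨𝒰, h3, h4, h5⟩ := (hS U h1).2 h2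
      exact ⟨𝒰, h3, h4, fun A hA => ⟨U, h1, h5 A hA⟩⟩

theorem open_iff {O : Set Y} : IsOpen O ↔ Op O := Iff.rfl

theorem DO_ne (A : X) : DO {A}ᶜ := fun B γ => by
  obtain ⟨B', γ', -, h1, h2⟩ := flip A B γ
  exact ⟨B', γ', h1, h2⟩

instance : T1Space Y := ⟨by
  rintro (_ | A)
  · refine ⟨open_iff.2 ⟨fun A _ => ?_, fun h => absurd rfl h⟩⟩
    obtain ⟨b, -⟩ := bddc countable_empty
    exact ⟨b, fun B _ h => by cases h⟩
  · refine ⟨open_iff.2 ⟨fun B h => ?_, fun _ => ⟨{{A}ᶜ}, countable_singleton _,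
      by rintro _ rfl; exact DO_ne A, fun B hB h => ?_⟩⟩⟩
    · have : ∃ a, ¬ (a ∈ B.1 ↔ a ∈ A.1) := by
        by_contra hc
        push Not at hc
        exact h (congrArg some (Subtype.ext (Set.ext hc)))
      obtain ⟨a, ha⟩ := this
      obtain ⟨γ, hγ⟩ := exists_gt a
      refine ⟨γ, fun C hC e => ha ?_⟩
      cases Option.some.inj e
      exact hC a hγ
    · exact ph_sub (hB _ rfl) (Option.some.inj h)⟩

instance : RegularSpace Y := by
  refine RegularSpace.of_exists_mem_nhds_isClosed_subset fun x s hs => ?_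
  obtain ⟨O, h1, h2, h3⟩ := mem_nhds_iff.1 hs
  rcases x with _ | A
  · obtain ⟨𝒰, h4, h5, h6⟩ := (open_iff.1 h2).2 h3
    refine ⟨{y : Option X | ∀ A, y = some A → ∀ U ∈ 𝒰, A ∈ ph U},
      IsOpen.mem_nhds (open_iff.2 ⟨fun A hA => ?_, fun _ => ⟨𝒰, h4, h5, fun A hA B e => ?_⟩⟩)
        (fun A h => by cases h), ⟨open_iff.2 ⟨fun A hA => ?_, fun h => ?_⟩⟩, ?_⟩
    · obtain ⟨b, hb⟩ := bddc (h4.image dl)
      refine ⟨b, fun B hB C e U hU => ?_⟩
      cases Option.some.inj e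
      exact ph_ag (hA A rfl U hU) (hB.mono (hb _ ⟨U, hU, rfl⟩).le)
    · cases Option.some.inj e
      exact hA
    · have : ∃ U ∈ 𝒰, A ∉ ph U := by
        by_contra hc
        push Not at hc
        exact hA fun B e => by cases Option.some.inj e; exact hc
      obtain ⟨U, h7, h8⟩ := this
      exact ⟨dl U, fun B hB h => h8 (ph_ag (h B rfl U h7) hB.symm)⟩
    · exact absurd (fun A h => by cases h) h
    · rintro (_ | A) h
      · exact h1 h3
      · exact h1 (h6 A (h A rfl))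
  · obtain ⟨γ, hγ⟩ := (open_iff.1 h2).1 A h3
    refine ⟨{y : Option X | ∃ B, y = some B ∧ Ag (max γ (dl {A}ᶜ)) A B},
      IsOpen.mem_nhds (open_iff.2 ⟨fun B ⟨C, e, h⟩ => ?_, fun ⟨_, h, _⟩ => by cases h⟩)
        ⟨A, rfl, Ag.rfl⟩, ⟨open_iff.2 ⟨fun B hB => ?_, fun _ => ⟨{{A}ᶜ}, countable_singleton _,
          by rintro _ rfl; exact DO_ne A, fun B hB ⟨C, e, h⟩ => ?_⟩⟩⟩, ?_⟩
    · cases Option.some.inj e
      exact ⟨_, fun D hD => ⟨D, rfl, h.trans hD⟩⟩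
    · refine ⟨max γ (dl {A}ᶜ), fun C hC ⟨D, e, h⟩ => ?_⟩
      cases Option.some.inj e
      exact hB ⟨B, rfl, h.trans hC.symm⟩
    · cases Option.some.inj e
      exact ph_sub (ph_ag (hB _ rfl) (h.symm.mono (le_max_right _ _))) rfl
    · rintro _ ⟨B, rfl, h⟩
      exact h1 (hγ B (h.mono (le_max_left _ _)))

theorem not_closed : ¬ IsClosed ({none}ᶜ : Set Y) := fun h => by
  obtain ⟨𝒰, h1, h2, h3⟩ := (open_iff.1 h.isOpen_compl).2 (by simp)
  obtain ⟨A, hA⟩ := linked h1 h2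
  exact h3 A hA (by simp)

theorem remote {D : Set Y} (hD : D ⊆ {none}ᶜ) [DiscreteTopology D] : none ∉ closure D := by
  have h1 : DO {A | (some A : Y) ∉ D} := fun A γ => by
    by_cases h : ∃ B, Ag γ A B ∧ (some B : Y) ∈ D
    · obtain ⟨B, h1, h2⟩ := h
      obtain ⟨O, h3, h4⟩ := isOpen_induced_iff.1 (isOpen_discrete {(⟨some B, h2⟩ : D)})
      have h5 : ∀ y (h : y ∈ D), y ∈ O ↔ y = some B := fun y h => by
        have := Set.ext_iff.1 h4 ⟨y, h⟩
        simpa [Subtype.ext_iff] using this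
      obtain ⟨γ1, h6⟩ := (open_iff.1 h3).1 B ((h5 _ h2).2 rfl)
      obtain ⟨B', γ', h7, h8, h9⟩ := flip B B (max γ γ1)
      refine ⟨B', γ', h1.trans (h8.mono (le_max_left _ _)), fun C hC h => h9 C hC ?_⟩
      exact Option.some.inj ((h5 _ h).1 (h6 C ((h8.trans (hC.mono h7)).mono (le_max_right _ _))))
    · exact ⟨A, γ, Ag.rfl, fun C hC h' => h ⟨C, hC, h'⟩⟩
  intro h
  obtain ⟨y, h2, h3⟩ := mem_closure_iff.1 h
    {y : Option X | ∀ A, y = some A → A ∈ ph {A | (some A : Y) ∉ D}}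
    (open_iff.2 ⟨fun A hA => ⟨_, fun B hB C e => by
        cases Option.some.inj e
        exact ph_ag (hA A rfl) hB⟩,
      fun _ => ⟨{_}, countable_singleton _, by rintro _ rfl; exact h1, fun A hA B e => by
        cases Option.some.inj e
        exact hA _ rfl⟩⟩) (fun A h => by cases h)
  rcases y with _ | A
  · exact hD h3 rfl
  · exact ph_sub (h2 A rfl) h3

end Pool.Agent.H39.PSp
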