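import Mathlib
import Pool.Agent.H39.Der

set_option autoImplicit false

namespace Pool.Agent.H39.CF

theorem pig (C : Type) [Finite C] : ∃ m : ℕ, ∀ f : ℕ → C, ∃ i j, i < j ∧ j ≤ m ∧ f i = f j := by
  refine ⟨Nat.card C, fun f => ?_⟩
  by_contra h
  push Not at h
  have h1 : Function.Injective fun i : Fin (Nat.card C + 1) => f i := by
    intro i j hij
    by_contra h2
    rcases lt_or_gt_of_ne h2 with h3 | h3
    · exact h i j h3 (Nat.lt_succ_iff.1 j.2) hij
    · exact h j i h3 (Nat.lt_succ_iff.1 i.2) hij.symm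
  have := Nat.card_le_card_of_injective _ h1
  simp at this

/-- Powers of a word. -/
def pw {Y : Type} (X : List Y) (k : ℕ) : List Y := (List.replicate k X).flatten

section
variable {Y : Type}

@[simp] theorem pw_zero (X : List Y) : pw X 0 = [] := rfl

theorem pw_succ (X : List Y) (k : ℕ) : pw X (k + 1) = X ++ pw X k := by
  simp [pw, List.replicate_succ]

theorem pw_add (X : List Y) (j k : ℕ) : pw X (j + k) = pw X j ++ pw X k := by
  rw [pw, List.replicate_add, List.flatten_append]; rfl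

theorem pw_succ' (X : List Y) (k : ℕ) : pw X (k + 1) = pw X k ++ X := by
  rw [pw_add]; simp [pw]

theorem mem_pw {X : List Y} {k : ℕ} {x : Y} (h : x ∈ pw X k) : x ∈ X := by
  induction k with
  | zero => simp at h
  | succ k ih =>
    rw [pw_succ, List.mem_append] at h
    exact h.elim id ih

/-- A family of languages from whose words letters can be peeled off. -/
def Peel {C : Type} (K : C → Set (List Y)) : Prop :=
  ∀ c, ∀ w ∈ K c, w ≠ [] →
    (∃ x w' c', w = x :: w' ∧ w' ∈ K c' ∧ ∀ z ∈ K c', x :: z ∈ K c) ∨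
    (∃ x w' c', w = w' ++ [x] ∧ w' ∈ K c' ∧ ∀ z ∈ K c', z ++ [x] ∈ K c)

/-- Context inclusion. -/
def Conf {C : Type} (K : C → Set (List Y)) (c : C) (l r : List Y) (c' : C) : Prop :=
  ∀ z ∈ K c', l ++ z ++ r ∈ K c

variable {C : Type} {K : C → Set (List Y)}

theorem Conf.trans {c c' c'' : C} {l r l' r' : List Y} (h1 : Conf K c l r c')
    (h2 : Conf K c' l' r' c'') : Conf K c (l ++ l') (r' ++ r) c'' := fun z hz => by
  simpa using h1 _ (h2 z hz)

theorem peel_until (hK : Peel K) (μ : List Y) (n : ℕ) : ∀ (α β : List Y) (c : C),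
    α.length + β.length ≤ n → α ++ μ ++ β ∈ K c →
    ∃ c', (∃ β1 β2, β = β1 ++ β2 ∧ Conf K c α β2 c' ∧ μ ++ β1 ∈ K c') ∨
      (∃ α1 α2, α = α1 ++ α2 ∧ Conf K c α1 β c' ∧ α2 ++ μ ∈ K c') := by
  induction n with
  | zero =>
    intro α β c h1 h2
    obtain rfl : α = [] := List.length_eq_zero_iff.1 (by omega)
    exact ⟨c, Or.inl ⟨β, [], by simp, fun z hz => by simpa using hz, by simpa using h2⟩⟩
  | succ n ih =>
    intro α β c h1 h2
    rcases α with _ | ⟨a, α⟩
    · exact ⟨c, Or.inl ⟨β, [], by simp, fun z hz => by simpa using hz, by simpa using h2⟩⟩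
    rcases List.eq_nil_or_concat β with rfl | ⟨β, b, rfl⟩
    · exact ⟨c, Or.inr ⟨[], a :: α, by simp, fun z hz => by simpa using hz, by simpa using h2⟩⟩
    rw [List.concat_eq_append] at h1 h2 ⊢
    rcases hK c _ h2 (by simp) with ⟨x, w', c', h3, h4, h5⟩ | ⟨x, w', c', h3, h4, h5⟩
    · simp only [List.cons_append, List.cons.injEq] at h3
      obtain ⟨rfl, rfl⟩ := h3
      have h6 : Conf K c [a] [] c' := fun z hz => by simpa using h5 z hz
      obtain ⟨c'', ⟨β1, β2, h7, h8, h9⟩ | ⟨α1, α2, h7, h8, h9⟩⟩ :=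
        ih α (β ++ [b]) c' (by simp at h1 ⊢; omega) h4
      · exact ⟨c'', Or.inl ⟨β1, β2, h7, by simpa using h6.trans h8, h9⟩⟩
      · exact ⟨c'', Or.inr ⟨a :: α1, α2, by simp [h7], by simpa using h6.trans h8, h9⟩⟩
    · rw [← List.append_assoc] at h3
      obtain ⟨rfl, h3⟩ := List.append_inj' h3 rfl
      obtain rfl : b = x := by simpa using h3
      have h6 : Conf K c [] [b] c' := fun z hz => by simpa using h5 z hz
      obtain ⟨c'', ⟨β1, β2, h7, h8, h9⟩ | ⟨α1, α2, h7, h8, h9⟩⟩ :=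
        ih (a :: α) β c' (by simp at h1 ⊢; omega) h4
      · exact ⟨c'', Or.inl ⟨β1, β2 ++ [b], by simp [h7], by simpa using h6.trans h8, h9⟩⟩
      · exact ⟨c'', Or.inr ⟨α1, α2, h7, by simpa using h6.trans h8, h9⟩⟩

theorem peel_right (hK : Peel K) {c0 : C} {P X X' T1 β : List Y}
    (hX : ∀ c c', Conf K c X [] c' → Conf K c X' [] c')
    (ha : ∀ j k, P ++ pw X j ++ X' ++ pw X k ++ T1 ++ β ∉ K c0)
    (hb : ∀ j, P ++ pw X j ++ T1 ++ β ∈ K c0) :
    ∃ c l u j k, (u <:+ P ∨ u <:+ X) ∧ l ++ u = P ++ pw X j ∧ Conf K c0 l β c ∧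
      u ++ pw X k ++ T1 ∈ K c := by
  have key : ∀ (k : ℕ) (c : C) (j : ℕ) (β1 r : List Y), β = β1 ++ r → β1.length ≤ k →
      Conf K c0 (P ++ pw X j) r c → pw X k ++ T1 ++ β1 ∈ K c →
      ∃ c l u j k, (u <:+ P ∨ u <:+ X) ∧ l ++ u = P ++ pw X j ∧ Conf K c0 l β c ∧
        u ++ pw X k ++ T1 ∈ K c := by
    intro k
    induction k with
    | zero =>
      intro c j β1 r h1 h2 h3 h4
      obtain rfl : β1 = [] := List.length_eq_zero_iff.1 (by omega)
      exact ⟨c, P ++ pw X j, [], j, 0, Or.inl List.nil_suffix, by simp, by simpa [h1] using h3,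
        by simpa using h4⟩
    | succ k ih =>
      intro c j β1 r h1 h2 h3 h4
      obtain ⟨c', ⟨β11, β12, h5, h6, h7⟩ | ⟨α1, α2, h5, h6, h7⟩⟩ :=
        peel_until hK (pw X k ++ T1) _ X β1 c le_rfl (by simpa [pw_succ] using h4)
      · by_cases h8 : β12 = []
        · subst h8
          refine absurd ?_ (ha j k)
          simpa [h1, h5] using (h3.trans (hX _ _ h6)) _ h7
        · refine ih c' (j + 1) β11 (β12 ++ r) (by simp [h1, h5]) ?_ ?_ h7
          · have := List.length_pos_iff.2 h8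
            simp [h5] at h2
            omega
          · simpa [pw_succ'] using h3.trans h6
      · exact ⟨c', P ++ pw X j ++ α1, α2, j + 1, k, Or.inr ⟨α1, h5.symm⟩,
          by rw [pw_succ', List.append_assoc, ← h5, List.append_assoc], h1 ▸ h3.trans h6,
          by simpa using h7⟩
  obtain ⟨c', ⟨β1, β2, h5, h6, h7⟩ | ⟨α1, α2, h5, h6, h7⟩⟩ :=
    peel_until hK (pw X β.length ++ T1) _ P β c0 le_rfl (by simpa using hb β.length)
  · exact key _ c' 0 β1 β2 h5 (by simp [h5]) (by simpa using h6) h7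
  · exact ⟨c', α1, α2, 0, _, Or.inl ⟨α1, h5.symm⟩, by simp [h5], h6, by simpa using h7⟩

theorem peel_main [Finite C] (hK : Peel K) (c0 : C) (P X : List Y) :
    ∃ R : ℕ, ∀ X' M Z Q : List Y, (∀ c c', Conf K c X [] c' → Conf K c X' [] c') →
      (∀ j k, P ++ pw X j ++ X' ++ pw X k ++ M ++ pw Z R ++ Q ∉ K c0) →
      (∀ j r, P ++ pw X j ++ M ++ pw Z r ++ Q ∈ K c0 ↔ r = R) → False := by
  have hU : {u : List Y | u <:+ P ∨ u <:+ X}.Finite := by
    refine ((List.finite_toSet P.tails).union (List.finite_toSet X.tails)).subset ?_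
    intro u hu
    simpa using hu
  have := hU.to_subtype
  obtain ⟨R, hR⟩ := pig (C × {u : List Y | u <:+ P ∨ u <:+ X})
  refine ⟨R, fun X' M Z Q hX ha hb => ?_⟩
  have h1 : ∀ r, ∃ c l u j k, (u <:+ P ∨ u <:+ X) ∧ l ++ u = P ++ pw X j ∧
      Conf K c0 l (pw Z (min r R) ++ Q) c ∧ u ++ pw X k ++ (M ++ pw Z (R - min r R)) ∈ K c := by
    intro r
    have h2 : pw Z R = pw Z (R - min r R) ++ pw Z (min r R) := by
      rw [← pw_add]; congr 1; omega
    refine peel_right hK hX (fun j k => ?_) fun j => ?_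
    · simpa [h2] using ha j k
    · simpa [h2] using (hb j R).2 rfl
  choose c l u j k h2 h3 h4 h5 using h1
  obtain ⟨r, r', h6, h7, h8⟩ := hR fun r => (c r, ⟨u r, h2 r⟩)
  simp only [Prod.mk.injEq, Subtype.mk.injEq] at h8
  have h9 := h4 r _ (h8.1 ▸ h5 r')
  have h10 : l r ++ (u r' ++ pw X (k r') ++ (M ++ pw Z (R - min r' R))) ++ (pw Z (min r R) ++ Q) =
      P ++ pw X (j r + k r') ++ M ++ pw Z (R - min r' R + min r R) ++ Q := by
    rw [← h8.2, pw_add, pw_add, ← List.append_assoc P, ← h3 r]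
    simp
  rw [h10, hb] at h9
  omega

end

section
variable {N T : Type} {P : N → List (N ⊕ T) → Prop}

theorem peel_der (hP : ∀ A β, P A β → β.countP Sum.isLeft ≤ 1) (G : List (N ⊕ T) → Prop)
    (hG1 : ∀ A β, P A β → G β) (hG2 : ∀ α β, α <:+: β → G β → G α)
    {α : List (N ⊕ T)} {w : List T} (h : Der P α w) (h0 : α.countP Sum.isLeft ≤ 1) (h1 : G α)
    (h2 : w ≠ []) :
    (∃ x w' α', (α'.countP Sum.isLeft ≤ 1 ∧ G α') ∧ w = x :: w' ∧ Der P α' w' ∧
      ∀ z, Der P α' z → Der P α (x :: z)) ∨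
    (∃ x w' α', (α'.countP Sum.isLeft ≤ 1 ∧ G α') ∧ w = w' ++ [x] ∧ Der P α' w' ∧
      ∀ z, Der P α' z → Der P α (z ++ [x])) := by
  induction h with
  | nil => exact absurd rfl h2
  | @term a α w h _ =>
    exact Or.inl ⟨a, w, α, ⟨by simpa using h0, hG2 _ _ (List.suffix_cons _ _).isInfix h1⟩, rfl, h,
      fun z hz => Der.term a hz⟩
  | @nt A β α u w h3 h4 h5 ih _ =>
    rcases List.eq_nil_or_concat α with rfl | ⟨α, x, rfl⟩
    · obtain rfl := h5.nil_inv
      rw [List.append_nil] at h2 ⊢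
      rcases ih (hP _ _ h3) (hG1 _ _ h3) h2 with ⟨x, w', α', h6, h7, h8, h9⟩ |
        ⟨x, w', α', h6, h7, h8, h9⟩
      · exact Or.inl ⟨x, w', α', h6, h7, h8, fun z hz => der_single.2 ⟨β, h3, h9 z hz⟩⟩
      · exact Or.inr ⟨x, w', α', h6, h7, h8, fun z hz => der_single.2 ⟨β, h3, h9 z hz⟩⟩
    · rw [List.concat_eq_append] at h0 h1 h5 ⊢
      rcases x with x | x
      · simp [List.countP_cons] at h0
      · obtain ⟨w1, w2, rfl, h6, h7⟩ := h5.split
        obtain rfl : w2 = [x] := Der.terms_inv (u := [x]) h7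
        refine Or.inr ⟨x, u ++ w1, Sum.inl A :: α, ⟨by simpa [List.countP_cons] using h0,
          hG2 _ _ (List.prefix_append (Sum.inl A :: α) [Sum.inr x]).isInfix h1⟩, by simp,
          Der.nt A β h3 h4 h6, fun z hz => hz.append (der_terms [x])⟩

theorem exists_peel (hP : ∀ A β, P A β → β.countP Sum.isLeft ≤ 1)
    (hf : {β | ∃ A, P A β}.Finite) (S : N) :
    ∃ (C : Type) (_ : Finite C) (K : C → Set (List T)) (c0 : C),
      Peel K ∧ K c0 = {w | Der P [Sum.inl S] w} := by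
  let G : List (N ⊕ T) → Prop := fun α => ∃ β ∈ insert [Sum.inl S] {β | ∃ A, P A β}, α <:+: β
  have h1 : {α : List (N ⊕ T) | α.countP Sum.isLeft ≤ 1 ∧ G α}.Finite := by
    refine ((hf.insert [Sum.inl S]).biUnion fun β _ => List.finite_toSet β.sublists).subset ?_
    rintro α ⟨-, β, h1, h2⟩
    exact Set.mem_biUnion h1 (List.mem_sublists.2 h2.sublist)
  refine ⟨_, h1.to_subtype, fun α => {w | Der P α.1 w},
    ⟨[Sum.inl S], by simp, _, Or.inl rfl, List.infix_rfl⟩, ?_, rfl⟩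
  rintro ⟨α, h2, h3⟩ w hw h4
  rcases peel_der hP G (fun A β h => ⟨β, Or.inr ⟨A, h⟩, List.infix_rfl⟩)
    (fun α β h ⟨γ, h1, h2⟩ => ⟨γ, h1, h.trans h2⟩) hw h2 h3 h4 with
    ⟨x, w', α', h6, h7, h8, h9⟩ | ⟨x, w', α', h6, h7, h8, h9⟩
  · exact Or.inl ⟨x, w', ⟨α', h6⟩, h7, h8, h9⟩
  · exact Or.inr ⟨x, w', ⟨α', h6⟩, h7, h8, h9⟩

/-- Satisfaction of a sentential form by a word, relative to an invariant. -/
def Sat (Φ : N → List T → Prop) : List (N ⊕ T) → List T → Prop
  | [], w => w = []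
  | Sum.inr a :: α, w => ∃ w', w = a :: w' ∧ Sat Φ α w'
  | Sum.inl A :: α, w => ∃ u w', w = u ++ w' ∧ Φ A u ∧ Sat Φ α w'

theorem Der.sat {Φ : N → List T → Prop} (hΦ : ∀ A β w, P A β → Sat Φ β w → Φ A w)
    {α : List (N ⊕ T)} {w : List T} (h : Der P α w) : Sat Φ α w := by
  induction h with
  | nil => rfl
  | term a _ ih => exact ⟨_, rfl, ih⟩
  | nt A β h _ _ ih1 ih2 => exact ⟨_, _, rfl, hΦ _ _ _ h ih1, ih2⟩

/-- Symbols as a sum type. -/
def symE : Symbol T N ≃ N ⊕ T where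
  toFun
    | .terminal t => Sum.inr t
    | .nonterminal n => Sum.inl n
  invFun
    | .inr t => .terminal t
    | .inl n => .nonterminal n
  left_inv := by rintro (_ | _) <;> rfl
  right_inv := by rintro (_ | _) <;> rfl

theorem language_eq (g : ContextFreeGrammar T) (P : g.NT → List (g.NT ⊕ T) → Prop)
    (hP : ∀ A β, P A β ↔ ⟨A, β.map symE.symm⟩ ∈ g.rules) (w : List T) :
    w ∈ g.language ↔ Der P [Sum.inl g.initial] w := by
  rw [der_iff_steps, ContextFreeGrammar.mem_language_iff]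
  constructor
  · intro h
    have := Relation.ReflTransGen.lift (r := g.Produces) (p := Step P) (List.map symE) (by
      rintro u v ⟨r, h1, h2⟩
      obtain ⟨p, q, rfl, rfl⟩ := h2.exists_parts
      refine ⟨r.input, r.output.map symE, p.map symE, q.map symE, (hP _ _).2 ?_, ?_, by simp⟩
      · simpa using h1
      · simp [symE]) _ _ h
    rw [Function.onFun, List.map_map] at this
    exact this
  · intro h
    have := Relation.ReflTransGen.lift (r := Step P) (p := g.Produces) (List.map symE.symm) (by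
      rintro u v ⟨A, β, x, y, h1, rfl, rfl⟩
      refine ⟨_, (hP _ _).1 h1, ContextFreeRule.rewrites_iff.2
        ⟨x.map symE.symm, y.map symE.symm, ?_, by simp⟩⟩
      simp [symE]) _ _ h
    rw [Function.onFun, List.map_map] at this
    exact this

end

end Pool.Agent.H39.CF
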