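import Mathlib
import Pool.Agent.H39.QS1

namespace Pool.Agent.H39.QS2

open Set Topology Filter Cardinal Ordinal
open Pool.Agent.H39.CC1 (WayBelow)
open Pool.Agent.H39.QS1 (open_iff closed_Iic star)

lemma countable_Iio {α : Ordinal.{0}} (h : α < ω₁) : (Iio α).Countable := by
  have h1 : α.card < ℵ₁ := by
    rw [← Cardinal.lt_ord, ord_aleph]
    exact h
  rw [countable_iff_lt_aleph_one, Cardinal.mk_Iio_ordinal]
  have h2 := Cardinal.lift_lt.{0, 1}.2 h1
  rwa [Cardinal.lift_aleph, Ordinal.lift_one] at h2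

lemma pigeon {X T : Type} [Countable T] (f : X → T) (Q : Ordinal.{0} → X → Prop)
    (hQ : ∀ α β x, α ≤ β → Q β x → Q α x) (h : ∀ α < ω₁, ∃ x, Q α x) :
    ∃ a, ∀ α < ω₁, ∃ x, f x = a ∧ Q α x := by
  by_contra hn
  push Not at hn
  choose g hg hg' using hn
  obtain ⟨x, hx⟩ := h (⨆ a, g a) (Ordinal.iSup_lt_omega_one hg)
  exact hg' (f x) x rfl (hQ _ _ x (Ordinal.le_iSup g (f x)) hx)

/-- Height of a point for the relation `m ≤ m'` with `m'` deeper in the sequence `M`. -/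
def Big {P : Type} [PartialOrder P] (M : ℕ → Set P) (α : Ordinal.{0}) (m : P) : Prop :=
  ∀ β, β < α → ∀ j : ℕ, ∃ k, j ≤ k ∧ ∃ m' ∈ M k, m ≤ m' ∧ Big M β m'
termination_by α

lemma big_mono {P : Type} [PartialOrder P] (M : ℕ → Set P) {α β : Ordinal.{0}} {m : P}
    (h : α ≤ β) (hb : Big M β m) : Big M α m := by
  rw [Big] at hb ⊢
  exact fun γ hγ => hb γ (hγ.trans_le h)

lemma big_exists {P : Type} [PartialOrder P] (M : ℕ → Set P) (hne : ∀ k, (M k).Nonempty)
    (hM : ∀ z : ℕ → P, (∀ n, z n ∈ M n) → ∀ k, ∃ m ∈ M k, {n | m ≤ z n}.Infinite)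
    (α : Ordinal.{0}) : α < ω₁ → ∀ k, ∃ m ∈ M k, Big M α m := by
  induction α using WellFoundedLT.induction with
  | ind α ih =>
  intro hα k
  rcases (Iio α).eq_empty_or_nonempty with h0 | h0
  · obtain ⟨m, hm⟩ := hne k
    refine ⟨m, hm, ?_⟩
    rw [Big]
    intro β hβ
    exact absurd (show β ∈ Iio α from hβ) (by rw [h0]; exact notMem_empty _)
  obtain ⟨g, hg⟩ := (countable_Iio hα).exists_eq_range h0
  have hgl : ∀ n, g n < α := fun n => show g n ∈ Iio α from hg ▸ mem_range_self n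
  have h1 : ∀ n : ℕ, ∃ γ < α, ∀ i ≤ n, g i ≤ γ := by
    intro n
    induction n with
    | zero => exact ⟨g 0, hgl 0, fun i hi => by rw [Nat.le_zero.1 hi]⟩
    | succ n ihn =>
      obtain ⟨γ, h1, h2⟩ := ihn
      refine ⟨max γ (g (n + 1)), max_lt h1 (hgl _), fun i hi => ?_⟩
      rcases Nat.le_succ_iff.1 hi with h | h
      · exact (h2 i h).trans (le_max_left _ _)
      · rw [h]; exact le_max_right _ _
  choose γ hγ hγ' using h1
  have h2 : ∀ n, ∃ m ∈ M n, Big M (γ n) m := fun n => ih (γ n) (hγ n) ((hγ n).trans hα) n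
  choose z hz hz' using h2
  obtain ⟨m, hm, hinf⟩ := hM z hz k
  refine ⟨m, hm, ?_⟩
  rw [Big]
  intro β hβ j
  have : β ∈ range g := hg ▸ (show β ∈ Iio α from hβ)
  obtain ⟨i, rfl⟩ := this
  obtain ⟨n, hn, hlt⟩ := hinf.exists_gt (max i j)
  exact ⟨n, (le_max_right _ _).trans hlt.le, z n, hz n, hn,
    big_mono M (hγ' n i ((le_max_left _ _).trans hlt.le)) (hz' n)⟩

section fusion
variable {P C : Type} [PartialOrder P] (M : ℕ → Set P) (code : ℕ → P → ℕ → C)

def Valid (n : ℕ) (σ : ℕ → ℕ × P) : Prop :=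
  (∀ t ≤ n, t ≤ (σ t).1 ∧ (σ t).2 ∈ M (σ t).1) ∧ ∀ t < n, (σ t).2 ≤ (σ (t + 1)).2

def App (n : ℕ) (σ : ℕ → ℕ × P) : Fin (n + 1) → ℕ × (Fin n → C) :=
  fun t => ((σ t).1, fun i => code (σ t).1 (σ t).2 i)

def Good (n : ℕ) (a : Fin (n + 1) → ℕ × (Fin n → C)) : Prop :=
  ∀ α < ω₁, ∃ σ, App code n σ = a ∧ Valid M n σ ∧ Big M α (σ n).2

lemma good_step [Countable C] (n : ℕ) (a : Fin (n + 1) → ℕ × (Fin n → C))
    (ha : Good M code n a) : ∃ a', Good M code (n + 1) a' ∧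
      ∀ σ, App code (n + 1) σ = a' → App code n σ = a := by
  classical
  obtain ⟨a', ha'⟩ := pigeon (App code (n + 1))
    (fun α σ => App code n σ = a ∧ Valid M (n + 1) σ ∧ Big M α (σ (n + 1)).2)
    (fun α β σ h hσ => ⟨hσ.1, hσ.2.1, big_mono M h hσ.2.2⟩) (by
      intro α hα
      obtain ⟨σ, h1, h2, h3⟩ := ha (Order.succ α) ((isSuccLimit_omega 1).succ_lt hα)
      rw [Big] at h3
      obtain ⟨k, hk, m', hm', hle, hb⟩ := h3 α (Order.lt_succ α) (n + 1)
      have hu : ∀ t ≤ n, Function.update σ (n + 1) (k, m') t = σ t := fun t ht =>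
        Function.update_of_ne (by omega) _ _
      refine ⟨Function.update σ (n + 1) (k, m'), ?_, ⟨?_, ?_⟩, by simpa using hb⟩
      · rw [← h1]
        funext t
        simp only [App, hu t (Nat.lt_succ_iff.1 t.2)]
      · intro t ht
        rcases Nat.le_succ_iff.1 ht with h | h
        · rw [hu t h]; exact h2.1 t h
        · subst h; simpa using ⟨hk, hm'⟩
      · intro t ht
        rw [hu t (Nat.lt_succ_iff.1 ht)]
        rcases Nat.lt_succ_iff_lt_or_eq.1 ht with h | h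
        · rw [hu (t + 1) h]; exact h2.2 t h
        · subst h; simpa using hle)
  refine ⟨a', fun α hα => ?_, fun σ hσ => ?_⟩
  · obtain ⟨σ, h1, -, h2⟩ := ha' α hα
    exact ⟨σ, h1, h2⟩
  · obtain ⟨σ', h1, h2, -⟩ := ha' 0 (omega_pos 1)
    rw [← h2]
    have h3 := hσ.trans h1.symm
    funext t
    have h4 := congrFun h3 t.castSucc
    simp only [App, Prod.mk.injEq, Fin.val_castSucc] at h4 ⊢
    refine ⟨h4.1, ?_⟩
    funext i
    exact congrFun h4.2 i.castSucc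

lemma fusion [Countable C] (h0 : ∀ α < ω₁, ∃ m ∈ M 0, Big M α m) :
    ∃ (k : ℕ → ℕ) (c : ℕ → ℕ → P), (∀ t, t ≤ k t) ∧ (∀ n t, t ≤ n → c n t ∈ M (k t)) ∧
      (∀ n t, t < n → c n t ≤ c n (t + 1)) ∧
      ∀ n n' t i, t ≤ n → i < n → n ≤ n' → code (k t) (c n' t) i = code (k t) (c n t) i := by
  have hg0 : Good M code 0 (fun _ => (0, Fin.elim0)) := by
    intro α hα
    obtain ⟨m, hm, hb⟩ := h0 α hα
    refine ⟨fun _ => (0, m), ?_, ⟨fun t ht => ⟨ht, hm⟩, fun t ht => absurd ht (Nat.not_lt_zero _)⟩,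
      hb⟩
    funext t
    simp only [App, Prod.mk.injEq, true_and]
    funext i
    exact i.elim0
  choose nx hnx hnx' using good_step M code
  let a : (n : ℕ) → {a : Fin (n + 1) → ℕ × (Fin n → C) // Good M code n a} := fun n =>
    Nat.rec ⟨_, hg0⟩ (fun n p => ⟨nx n p.1 p.2, hnx n p.1 p.2⟩) n
  have ha : ∀ n σ, App code (n + 1) σ = (a (n + 1)).1 → App code n σ = (a n).1 :=
    fun n σ h => hnx' n (a n).1 (a n).2 σ h
  have hs : ∀ n, ∃ σ, App code n σ = (a n).1 ∧ Valid M n σ := by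
    intro n
    obtain ⟨σ, h1, h2, -⟩ := (a n).2 0 (omega_pos 1)
    exact ⟨σ, h1, h2⟩
  choose σ hσ hv using hs
  have hall : ∀ n n', n ≤ n' → ∀ τ, App code n' τ = (a n').1 → App code n τ = (a n).1 := by
    intro n n' h
    induction n', h using Nat.le_induction with
    | base => exact fun τ h => h
    | succ m _ ih => exact fun τ h => ih τ (ha m τ h)
  have hag : ∀ n n', n ≤ n' → ∀ t ≤ n, (σ n' t).1 = (σ n t).1 ∧
      ∀ i < n, code (σ n' t).1 (σ n' t).2 i = code (σ n t).1 (σ n t).2 i := by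
    intro n n' h t ht
    have h3 := (hall n n' h _ (hσ n')).trans (hσ n).symm
    have h4 := congrFun h3 ⟨t, Nat.lt_succ_iff.2 ht⟩
    simp only [App, Prod.mk.injEq] at h4
    exact ⟨h4.1, fun i hi => congrFun h4.2 ⟨i, hi⟩⟩
  have hk : ∀ n t, t ≤ n → (σ n t).1 = (σ t t).1 := fun n t h => (hag t n h t le_rfl).1
  refine ⟨fun t => (σ t t).1, fun n t => (σ n t).2, fun t => ((hv t).1 t le_rfl).1,
    fun n t h => ?_, fun n t h => (hv n).2 t h, fun n n' t i ht hi hn => ?_⟩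
  · have := ((hv n).1 t h).2
    rwa [hk n t h] at this
  · have := (hag n n' hn t ht).2 i hi
    rwa [hk n' t (ht.trans hn), hk n t ht] at this

end fusion

variable {P : Type} [PartialOrder P] [TopologicalSpace P] [IsScott P univ]

lemma exists_min {K : Set P} (hK : IsCompact K) {x : P} (hx : x ∈ K) :
    ∃ m, m ≤ x ∧ Minimal (· ∈ K) m := by
  obtain ⟨m, hm, hm'⟩ := zorn_le_nonempty₀ (α := Pᵒᵈ) K (by
    intro c hc hch y hy
    haveI : Nonempty c := ⟨⟨y, hy⟩⟩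
    by_contra hn
    have h1 : K ∩ ⋂ z : c, Iic (OrderDual.ofDual z.1) = ∅ := by
      rw [eq_empty_iff_forall_notMem]
      rintro w ⟨hw, hw'⟩
      exact hn ⟨w, hw, fun z hz => mem_iInter.1 hw' ⟨z, hz⟩⟩
    obtain ⟨z, hz⟩ := hK.elim_directed_family_closed _ (fun z => closed_Iic _) h1 (by
      intro u v
      rcases hch.total u.2 v.2 with h | h
      · exact ⟨v, Iic_subset_Iic.2 h, Subset.rfl⟩
      · exact ⟨u, Subset.rfl, Iic_subset_Iic.2 h⟩)
    have : OrderDual.ofDual z.1 ∈ K ∩ Iic (OrderDual.ofDual z.1) := ⟨hc z.2, le_rfl⟩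
    rw [hz] at this
    exact this) x hx
  exact ⟨m, hm, hm'.1, fun y hy hym => hm'.2 hy hym⟩

omit [PartialOrder P] [IsScott P univ] in
lemma wb_of_compact {K U : Set P} (hK : IsCompact K) (hKU : K ⊆ U) : WayBelow K U := by
  intro S hS hc
  obtain ⟨T, hT, hTf, hKT⟩ := hK.elim_finite_subcover_image (b := S) (c := id) hS
    (fun w hw => by
      obtain ⟨W, hW, hwW⟩ := hc (hKU hw)
      exact mem_biUnion hW hwW)
  refine ⟨T, hT, hTf, ?_⟩
  rw [sUnion_eq_biUnion]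
  exact hKT

/-- Every point has an open neighbourhood on which countably many open sets determine the order. -/
def LocSep (P : Type) [PartialOrder P] [TopologicalSpace P] : Prop :=
  ∀ x : P, ∃ O : Set P, IsOpen O ∧ x ∈ O ∧ ∃ b : ℕ → Set P, (∀ i, IsOpen (b i)) ∧
    ∀ y ∈ O, ∀ z ∈ O, ¬ y ≤ z → ∃ i, y ∈ b i ∧ z ∉ b i

lemma locSep_of_second (h : ∀ x : P, ∃ O : Set P, IsOpen O ∧ x ∈ O ∧ SecondCountableTopology O) :
    LocSep P := by
  intro x
  obtain ⟨O, hO, hx, hs⟩ := h x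
  refine ⟨O, hO, hx, ?_⟩
  obtain ⟨B, hBc, -, hB⟩ := TopologicalSpace.exists_countable_basis O
  obtain ⟨b, hb⟩ := (hBc.insert ∅).exists_eq_range (insert_nonempty _ _)
  refine ⟨fun i => Subtype.val '' b i, fun i => hO.isOpenMap_subtype_val _ ?_,
    fun y hy z hz hyz => ?_⟩
  · have : b i ∈ insert ∅ B := hb ▸ mem_range_self i
    rcases this with h | h
    · rw [h]; exact isOpen_empty
    · exact hB.isOpen h
  · obtain ⟨v, hv, h1, h2⟩ := hB.exists_subset_of_mem_open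
      (show (⟨y, hy⟩ : O) ∈ Subtype.val ⁻¹' (Iic z)ᶜ from hyz)
      ((closed_Iic z).isOpen_compl.preimage continuous_subtype_val)
    have : v ∈ range b := hb ▸ Or.inr hv
    obtain ⟨i, rfl⟩ := this
    refine ⟨i, ⟨_, h1, rfl⟩, ?_⟩
    rintro ⟨w, hw, rfl⟩
    exact h2 hw le_rfl

theorem sober [LocallyCompactSpace P] (hsep : LocSep P)
    (hd : ∀ D : Set P, D.Nonempty → DirectedOn (· ≤ ·) D → ∃ s, IsLUB D s) : QuasiSober P := by
  classical
  refine ⟨fun {A} hA hAc => ?_⟩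
  have hAo := (open_iff Aᶜ).1 hAc.isOpen_compl
  have hAl : IsLowerSet A := isUpperSet_compl.1 hAo.1
  obtain ⟨a0, ha0⟩ := hA.1
  obtain ⟨O, hO, ha0O, b, hbo, hb⟩ := hsep a0
  -- the compact neighbourhoods
  have hstep : ∀ (n : ℕ) (O : Set P), IsOpen O → (A ∩ O).Nonempty → ∃ K, IsCompact K ∧ K ⊆ O ∧
      (A ∩ interior K).Nonempty ∧ ((A ∩ b n).Nonempty → K ⊆ b n) := by
    intro n O hO hAO
    by_cases h : (A ∩ b n).Nonempty
    · obtain ⟨x, hxA, hx⟩ := hA.2 _ _ hO (hbo n) hAO h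
      obtain ⟨K, hK, hKU, hKc⟩ := local_compact_nhds ((hO.inter (hbo n)).mem_nhds hx)
      exact ⟨K, hKc, hKU.trans inter_subset_left, ⟨x, hxA, mem_interior_iff_mem_nhds.2 hK⟩,
        fun _ => hKU.trans inter_subset_right⟩
    · obtain ⟨x, hxA, hx⟩ := hAO
      obtain ⟨K, hK, hKU, hKc⟩ := local_compact_nhds (hO.mem_nhds hx)
      exact ⟨K, hKc, hKU, ⟨x, hxA, mem_interior_iff_mem_nhds.2 hK⟩, fun h' => absurd h' h⟩
  choose! nx hn1 hn2 hn3 hn4 using hstep
  let K : ℕ → Set P := fun n => Nat.rec (nx 0 O) (fun n L => nx n (interior L)) n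
  have hK0 : (A ∩ O).Nonempty := ⟨a0, ha0, ha0O⟩
  have hKi : ∀ n, (A ∩ interior (K n)).Nonempty := by
    intro n
    induction n with
    | zero => exact hn3 0 O hO hK0
    | succ n ih => exact hn3 n _ isOpen_interior ih
  have hKc : ∀ n, IsCompact (K n) := by
    intro n
    cases n with
    | zero => exact hn1 0 O hO hK0
    | succ n => exact hn1 n _ isOpen_interior (hKi n)
  have hKs : ∀ n, K (n + 1) ⊆ interior (K n) := fun n => hn2 n _ isOpen_interior (hKi n)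
  have hKb : ∀ n, (A ∩ b n).Nonempty → K (n + 1) ⊆ b n := fun n => hn4 n _ isOpen_interior (hKi n)
  have hKa : Antitone K := antitone_nat_of_succ_le fun n => (hKs n).trans interior_subset
  have hKO : ∀ n, K n ⊆ O := fun n => (hKa (Nat.zero_le n)).trans (hn2 0 O hO hK0)
  have hCc : ∀ n, IsCompact (K n ∩ A) := fun n => (hKc n).inter_right hAc
  let M : ℕ → Set P := fun n => {m | Minimal (· ∈ K n ∩ A) m}
  have hMne : ∀ k, (M k).Nonempty := by
    intro k
    obtain ⟨x, hxA, hx⟩ := hKi k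
    obtain ⟨m, -, hm⟩ := exists_min (hCc k) ⟨interior_subset hx, hxA⟩
    exact ⟨m, hm⟩
  have hM : ∀ z : ℕ → P, (∀ n, z n ∈ M n) → ∀ k, ∃ m ∈ M k, {n | m ≤ z n}.Infinite := by
    intro z hz k
    obtain ⟨d, hd, hinf⟩ := star isOpen_interior (wb_of_compact (hKc (k + 1)) (hKs k)) univ
      infinite_univ (fun n => z (n + (k + 1))) (fun n => hKa (Nat.le_add_left (k + 1) n) (hz (n + (k + 1))).prop.1)
    obtain ⟨n0, hn0⟩ := hinf.nonempty
    obtain ⟨m, hmd, hm⟩ := exists_min (hCc k) ⟨interior_subset hd, hAl hn0.2 (hz _).1.2⟩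
    refine ⟨m, hm, (hinf.image (f := fun n => n + (k + 1)) ?_).mono ?_⟩
    · exact fun u _ v _ h => by simpa using h
    · rintro _ ⟨n, hn, rfl⟩
      exact hmd.trans hn.2
  have hwit : ∀ k m i, m ∈ M k → m ∈ b i → ∃ J : Finset ℕ, (∀ j ∈ J, m ∉ b j) ∧
      K k ∩ A ⊆ b i ∪ ⋃ j ∈ J, b j := by
    intro k m i hm hi
    have h1 : IsCompact ((K k ∩ A) \ b i) := (hCc k).diff (hbo i)
    obtain ⟨J, hJ⟩ := h1.elim_finite_subcover (fun j : {j // m ∉ b j} => b j) (fun j => hbo _) (by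
      intro y hy
      have hym : ¬ y ≤ m := by
        intro h
        have : y = m := le_antisymm h (hm.2 hy.1 h)
        exact hy.2 (this ▸ hi)
      obtain ⟨j, h1, h2⟩ := hb y (hKO k hy.1.1) m (hKO k hm.prop.1) hym
      exact mem_iUnion.2 ⟨⟨j, h2⟩, h1⟩)
    refine ⟨J.image Subtype.val, ?_, fun y hy => ?_⟩
    · intro j hj
      obtain ⟨j', -, rfl⟩ := Finset.mem_image.1 hj
      exact j'.2
    · by_cases hyi : y ∈ b i
      · exact Or.inl hyi
      · obtain ⟨j, hj, hyj⟩ := mem_iUnion₂.1 (hJ ⟨hy, hyi⟩)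
        exact Or.inr (mem_biUnion (Finset.mem_coe.2 (Finset.mem_image_of_mem _ hj)) hyj)
  choose! wit hw1 hw2 using hwit
  obtain ⟨k, c, hk, hcM, hcle, hcode⟩ := fusion M
    (fun k m i => (decide (m ∈ b i), wit k m i))
    (fun α hα => big_exists M hMne hM α hα 0)
  have hty : ∀ n n' t i, t ≤ n → i < n → n ≤ n' → (c n' t ∈ b i ↔ c n t ∈ b i) := by
    intro n n' t i h1 h2 h3
    have := congrArg Prod.fst (hcode n n' t i h1 h2 h3)
    simpa using this
  have hx : ∀ t, ∃ x ∈ K (k t) ∩ A, ∀ i n, t ≤ n → i < n → (x ∈ b i ↔ c n t ∈ b i) := by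
    intro t
    obtain ⟨x, hxK, hx⟩ := (hCc (k t)).inter_iInter_nonempty
      (fun j : {j // c (t + j + 1) t ∉ b j} => (b j)ᶜ) (fun j => (hbo _).isClosed_compl) (by
        intro u
        obtain ⟨N, hN⟩ := (u.finite_toSet.image (fun j => t + j.1 + 1)).bddAbove
        refine ⟨c (N + t) t, (hcM _ t (by omega)).1, mem_iInter₂.2 fun j hj h => j.2 ?_⟩
        have : t + j.1 + 1 ≤ N := hN ⟨j, hj, rfl⟩
        exact (hty (t + j + 1) (N + t) t j (by omega) (by omega) (by omega)).1 h)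
    have hx1 : ∀ j n, t ≤ n → j < n → x ∈ b j → c n t ∈ b j := by
      intro j n h1 h2 hxj
      have h3 : c (t + j + 1) t ∈ b j := by
        by_contra h
        exact mem_iInter.1 hx ⟨j, h⟩ hxj
      have h4 := (hty (t + j + 1) (n + (t + j + 1)) t j (by omega) (by omega) (by omega)).2 h3
      exact (hty n (n + (t + j + 1)) t j h1 h2 (by omega)).1 h4
    refine ⟨x, hxK, fun i n h1 h2 => ⟨hx1 i n h1 h2, fun h => ?_⟩⟩
    rcases hw2 (k t) (c n t) i (hcM n t h1) h hxK with h' | h'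
    · exact h'
    obtain ⟨j, hj, hxj⟩ := mem_iUnion₂.1 h'
    have h5 := hx1 j (n + j + 1) (by omega) (by omega) hxj
    have h6 : wit (k t) (c (n + j + 1) t) i = wit (k t) (c n t) i :=
      congrArg Prod.snd (hcode n (n + j + 1) t i h1 h2 (by omega))
    exact absurd h5 (hw1 (k t) _ i (hcM _ t (by omega))
      ((hty n (n + j + 1) t i h1 h2 (by omega)).2 h) j (h6 ▸ hj))
  choose x hxK hx using hx
  have hmono : Monotone x := by
    refine monotone_nat_of_le_succ fun t => ?_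
    by_contra h
    obtain ⟨i, h1, h2⟩ := hb (x t) (hKO _ (hxK t).1) _ (hKO _ (hxK (t + 1)).1) h
    have h3 := (hx t i (t + i + 2) (by omega) (by omega)).1 h1
    have h4 := ((open_iff _).1 (hbo i)).1 (hcle (t + i + 2) t (by omega)) h3
    exact h2 ((hx (t + 1) i (t + i + 2) (by omega) (by omega)).2 h4)
  have hdir : DirectedOn (· ≤ ·) (range x) := hmono.directed_le.directedOn_range
  obtain ⟨s, hs⟩ := hd (range x) (range_nonempty x) hdir
  have hsA : s ∈ A := by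
    by_contra h
    obtain ⟨_, ⟨t, rfl⟩, he'⟩ := hAo.2 _ (range_nonempty x) hdir s hs h
    exact he' (hxK t).2
  refine ⟨s, ?_⟩
  rw [isGenericPoint_def, IsScott.closure_singleton]
  refine Subset.antisymm (fun y hy => hAl hy hsA) fun a ha => ?_
  by_contra has
  obtain ⟨a', ha', ha'O, ha's⟩ := hA.2 _ _ hO (closed_Iic s).isOpen_compl hK0 ⟨a, ha, has⟩
  have hsO : s ∈ O := ((open_iff _).1 hO).1 (hs.1 ⟨0, rfl⟩) (hKO _ (hxK 0).1)
  obtain ⟨i, h1, h2⟩ := hb a' ha'O s hsO ha's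
  exact h2 (((open_iff _).1 (hbo i)).1 (hs.1 ⟨i + 1, rfl⟩)
    (hKb i ⟨a', ha', h1⟩ (hKa (hk (i + 1)) (hxK (i + 1)).1)))

end Pool.Agent.H39.QS2
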