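import Mathlib

set_option autoImplicit false

namespace Pool.Agent.H39.QT
open Set Filter Topology Classical

@[ext] structure Z where
  i : ℕ
  n : ℕ∞
  s : ℕ → ℤ
  h : ∀ j : ℕ, n ≤ j → s j = 0

abbrev G := Z →₀ ZMod 2

def br (i : ℕ) (r : ℕ → ℤ) : Z := ⟨i, ⊤, r, fun j h => absurd h (by simp)⟩
def nd (i m : ℕ) (r : ℕ → ℤ) : Z := ⟨i, m, fun j => if j < m then r j else 0, fun j h => by
  have : m ≤ j := by exact_mod_cast h
  simp [not_lt.2 this]⟩

def le (w z : Z) : Prop := w.i = z.i ∧ w.n ≤ z.n ∧ ∀ j : ℕ, j < w.n → w.s j = z.s j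
def Cone (i m : ℕ) (s : ℕ → ℤ) : Set Z := {z | z.i = i ∧ (m : ℕ∞) ≤ z.n ∧ ∀ j < m, z.s j = s j}
def near (z : Z) (m : ℕ) (s : ℕ → ℤ) : Prop := ∀ j : ℕ, j + 1 < m → (j < z.n ∧ s j = z.s j)

theorem le_refl' (z : Z) : le z z := ⟨rfl, le_rfl, fun _ _ => rfl⟩
theorem le.trans {a b c : Z} (h : le a b) (h' : le b c) : le a c :=
  ⟨h.1.trans h'.1, h.2.1.trans h'.2.1, fun j hj => (h.2.2 j hj).trans (h'.2.2 j (hj.trans_le h.2.1))⟩
theorem le.eq {a b : Z} (h : le a b) (h' : b.n ≤ a.n) : a = b := by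
  refine Z.ext h.1 (le_antisymm h.2.1 h') (funext fun j => ?_)
  by_cases hj : (j : ℕ∞) < a.n
  · exact h.2.2 j hj
  · rw [a.h j (not_lt.1 hj), b.h j (h'.trans (not_lt.1 hj))]
theorem eq_br {z : Z} (h : z.n = ⊤) : z = br z.i z.s := Z.ext rfl h rfl
theorem nd_le (i m : ℕ) (r : ℕ → ℤ) : le (nd i m r) (br i r) :=
  ⟨rfl, le_top, fun j hj => by
    have : j < m := by simpa [nd] using hj
    simp [nd, br, this]⟩
theorem eq_nd {z : Z} {i m : ℕ} {r : ℕ → ℤ} (h : le z (br i r)) (hm : z.n = m) : z = nd i m r := by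
  refine Z.ext h.1 hm (funext fun j => ?_)
  by_cases hj : j < m
  · simp only [nd, hj, if_true]; exact h.2.2 j (by rw [hm]; exact_mod_cast hj)
  · simp only [nd, hj, if_false]; exact z.h j (by rw [hm]; exact_mod_cast not_lt.1 hj)

noncomputable def chi (A : Set Z) : G →+ ZMod 2 :=
  Finsupp.liftAddHom fun z => if z ∈ A then AddMonoidHom.id _ else 0

noncomputable abbrev e (z : Z) : G := Finsupp.single z 1

theorem chi_e (A : Set Z) (z : Z) : chi A (e z) = if z ∈ A then 1 else 0 := by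
  simp only [chi, Finsupp.liftAddHom_apply_single]; split_ifs <;> simp
theorem chi_eq (A : Set Z) (g : G) : chi A g = ∑ z ∈ g.support, if z ∈ A then g z else 0 := by
  simp only [chi, Finsupp.liftAddHom_apply, Finsupp.sum]
  exact Finset.sum_congr rfl fun z _ => by split_ifs <;> simp
theorem chi_congr {A B : Set Z} {g : G} (h : ∀ z, g z ≠ 0 → (z ∈ A ↔ z ∈ B)) :
    chi A g = chi B g := by
  rw [chi_eq, chi_eq]
  exact Finset.sum_congr rfl fun z hz => by simp only [h z (Finsupp.mem_support_iff.1 hz)]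
theorem chi_zero {A : Set Z} {g : G} (h : ∀ z ∈ A, g z = 0) : chi A g = 0 := by
  rw [chi_eq]
  exact Finset.sum_eq_zero fun z _ => by split_ifs with hz <;> simp [h z, *]
theorem chi_split (A B : Set Z) (g : G) : chi A g = chi (A \ B) g + chi (A ∩ B) g := by
  simp only [chi_eq, ← Finset.sum_add_distrib]
  exact Finset.sum_congr rfl fun z _ => by by_cases h : z ∈ A <;> by_cases h' : z ∈ B <;> simp [h, h']
theorem two (g : G) : g + g = 0 := by ext z; exact CharTwo.add_self_eq_zero _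
theorem z2 {a : ZMod 2} (h : a ≠ 0) : a = 1 := by revert a; decide
theorem z2' {a : ZMod 2} (h : a + 1 = 0) : a ≠ 0 := by revert a; decide
theorem chi_pair {A : Set Z} {a b : Z} (h : a ∈ A ↔ b ∈ A) : chi A (e a + e b) = 0 := by
  rw [map_add, chi_e, chi_e]; simp only [h]; exact CharTwo.add_self_eq_zero _

noncomputable def col' (i : ℕ) (r : ℕ → ℤ) : ZMod (i + 1) :=
  (Ultrafilter.eq_pure_of_finite ((hyperfilter ℕ).map fun j => (r j : ZMod (i + 1)))).choose
noncomputable def col (i : ℕ) (r : ℕ → ℤ) : ℕ := (col' i r).val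
def good (i : ℕ) (r : ℕ → ℤ) (m : ℕ) : Prop := m % (i + 2) = col i r ∨ m % (i + 2) = col i r + 1
def levOK (k : ℕ) (z : Z) : Prop :=
  (∀ m : ℕ, z.n = m → k ≤ m % (z.i + 2)) ∧ (z.n = ⊤ → k ≤ col z.i z.s)

def H' (z : Z) (g : G) : Prop :=
  (∀ w, le w z → g w = 0) ∧ ∀ m s, near z m s → chi (Cone z.i m s) g = 0
def K (i m : ℕ) (g : G) : Prop :=
  (∀ w : Z, w.i = i → w.n < m → g w = 0) ∧ ∀ m' ≤ m, ∀ s, chi (Cone i m' s) g = 0
def On (i : ℕ) (r : ℕ → ℤ) : Set Z := {w | le w (br i r)}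
def H (i : ℕ) (r : ℕ → ℤ) (g : G) : Prop :=
  (∀ m : ℕ, ¬ good i r m → g (nd i m r) = 0) ∧
    (∀ m s, near (br i r) m s → chi (Cone i m s \ On i r) g = 0) ∧ chi (On i r) g = 0
def W (k : ℕ) (g : G) : Prop := ∀ i, chi (Cone i 0 0) g = 0 ∨
  (k ≤ i ∧ ∃ z : Z, z.i = i ∧ levOK k z ∧ H' z (g + e z))
def B (k : ℕ) (F : Finset (ℕ × (ℕ → ℤ))) (g : G) : Prop :=
  W k g ∧ (∀ i < k, K i k g) ∧ ∀ p ∈ F, H p.1 p.2 g

theorem H'.add {z : Z} {g g' : G} (h : H' z g) (h' : H' z g') : H' z (g + g') :=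
  ⟨fun w hw => by simp [h.1 w hw, h'.1 w hw], fun m s hs => by simp [h.2 m s hs, h'.2 m s hs]⟩
theorem K.add {i m : ℕ} {g g' : G} (h : K i m g) (h' : K i m g') : K i m (g + g') :=
  ⟨fun w a b => by simp [h.1 w a b, h'.1 w a b], fun m a s => by simp [h.2 m a s, h'.2 m a s]⟩
theorem H.add {i : ℕ} {r : ℕ → ℤ} {g g' : G} (h : H i r g) (h' : H i r g') : H i r (g + g') :=
  ⟨fun m a => by simp [h.1 m a, h'.1 m a], fun m s a => by simp [h.2.1 m s a, h'.2.1 m s a],
    by simp [h.2.2, h'.2.2]⟩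
theorem K.mono {i m m' : ℕ} {g : G} (h : K i m g) (hm : m' ≤ m) : K i m' g :=
  ⟨fun w a b => h.1 w a (b.trans_le (by exact_mod_cast hm)), fun m a s => h.2 m (a.trans hm) s⟩
theorem levOK.mono {k k' : ℕ} {z : Z} (h : levOK k z) (hk : k' ≤ k) : levOK k' z :=
  ⟨fun m a => hk.trans (h.1 m a), fun a => hk.trans (h.2 a)⟩
theorem W.mono {k k' : ℕ} {g : G} (h : W k g) (hk : k' ≤ k) : W k' g := fun i =>
  (h i).imp_right fun ⟨a, z, b, c, d⟩ => ⟨hk.trans a, z, b, c.mono hk, d⟩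
theorem B.mono {k k' : ℕ} {F F' : Finset (ℕ × (ℕ → ℤ))} {g : G} (h : B k F g) (hk : k' ≤ k)
    (hF : F' ⊆ F) : B k' F' g :=
  ⟨h.1.mono hk, fun i hi => (h.2.1 i (hi.trans_le hk)).mono hk, fun p hp => h.2.2 p (hF hp)⟩
theorem H'_van {z : Z} {g : G} (h : ∀ w : Z, w.i = z.i → g w = 0) : H' z g :=
  ⟨fun w hw => h w hw.1, fun _ _ _ => chi_zero fun w hw => h w hw.1⟩
theorem K_van {i m : ℕ} {g : G} (h : ∀ w : Z, w.i = i → g w = 0) : K i m g :=
  ⟨fun w hw _ => h w hw, fun _ _ _ => chi_zero fun w hw => h w hw.1⟩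
theorem H_van {i : ℕ} {r : ℕ → ℤ} {g : G} (h : ∀ w : Z, w.i = i → g w = 0) : H i r g :=
  ⟨fun _ _ => h _ rfl, fun _ _ _ => chi_zero fun w hw => h w hw.1.1, chi_zero fun w hw => h w hw.1⟩
theorem B_zero (k : ℕ) (F : Finset (ℕ × (ℕ → ℤ))) : B k F 0 :=
  ⟨fun _ => Or.inl (map_zero _), fun _ _ => K_van fun _ _ => rfl, fun _ _ => H_van fun _ _ => rfl⟩
theorem K.H' {z : Z} {m : ℕ} {g : G} (h : K z.i m g) (hz : z.n < m) : H' z g := by
  refine ⟨fun w hw => h.1 w hw.1 (hw.2.1.trans_lt hz), fun m' s hs => h.2 m' ?_ s⟩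
  by_contra hc
  rcases Nat.eq_zero_or_pos m with rfl | hm
  · simp at hz
  have := (hs (m - 1) (by omega)).1
  have h2 : ((m - 1 : ℕ) : ℕ∞) + 1 ≤ z.n := Order.add_one_le_of_lt this
  rw [← Nat.cast_succ, show (m - 1).succ = m by omega] at h2
  exact absurd hz (not_lt.2 h2)
theorem H'.mono {z z' : Z} {g : G} (h : H' z g) (hz : le z' z) : H' z' g :=
  ⟨fun w hw => h.1 w (hw.trans hz), fun m s hs => hz.1 ▸ h.2 m s fun j hj =>
    ⟨(hs j hj).1.trans_le hz.2.1, (hs j hj).2.trans (hz.2.2 j (hs j hj).1)⟩⟩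
theorem H'.ne {z : Z} {g : G} (h : H' z (g + e z)) : g z ≠ 0 :=
  z2' (by simpa using h.1 z (le_refl' z))

theorem bound (g : G) (k : ℕ) : ∃ m, k ≤ m ∧ (∀ z, g z ≠ 0 → z.i < m ∧ (z.n ≠ ⊤ → z.n < m)) ∧
    ∀ z z', g z ≠ 0 → g z' ≠ 0 → z.s ≠ z'.s → ∃ j < m, z.s j ≠ z'.s j := by
  have h1 : ∀ᶠ m : ℕ in atTop, ∀ z ∈ g.support, z.i < m ∧ (z.n ≠ ⊤ → z.n < m) := by
    rw [eventually_all_finset]
    intro z _
    filter_upwards [eventually_gt_atTop z.i, eventually_gt_atTop z.n.toNat] with m a b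
    refine ⟨a, fun h => ?_⟩
    rw [← ENat.coe_toNat h]; exact_mod_cast b
  have h2 : ∀ᶠ m : ℕ in atTop, ∀ z ∈ g.support, ∀ z' ∈ g.support,
      z.s ≠ z'.s → ∃ j < m, z.s j ≠ z'.s j := by
    simp only [eventually_all_finset]
    intro z _ z' _
    by_cases h : z.s = z'.s
    · exact Eventually.of_forall fun _ h' => absurd h h'
    · obtain ⟨j, hj⟩ := Function.ne_iff.1 h
      filter_upwards [eventually_gt_atTop j] with m a _ using ⟨j, a, hj⟩
  obtain ⟨m, a, b, c⟩ := ((eventually_ge_atTop k).and (h1.and h2)).exists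
  exact ⟨m, a, fun z hz => b z (Finsupp.mem_support_iff.2 hz), fun z z' hz hz' =>
    c z (Finsupp.mem_support_iff.2 hz) z' (Finsupp.mem_support_iff.2 hz')⟩

noncomputable def FF (g : G) : Finset (ℕ × (ℕ → ℤ)) := g.support.image fun z => (z.i, z.s)
theorem mem_FF {g : G} {z : Z} (h : g z ≠ 0) : (z.i, z.s) ∈ FF g :=
  Finset.mem_image_of_mem _ (Finsupp.mem_support_iff.2 h)

theorem slide {i k : ℕ} {r : ℕ → ℤ} {g : G} (hk : k ≤ col i r) (h : H i r g) :
    ∃ z, le z (br i r) ∧ levOK k z ∧ H' z (g + e (br i r) + e z) := by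
  have h1 : chi (On i r) (g + e (br i r)) ≠ 0 := by
    rw [map_add, h.2.2, chi_e, if_pos (show _ ∈ On i r from le_refl' _)]; simp
  have h2 : ∃ n : ℕ∞, ∃ z, le z (br i r) ∧ (g + e (br i r)) z ≠ 0 ∧ z.n = n := by
    by_contra hc
    push Not at hc
    exact h1 (chi_zero fun z hz => by_contra fun h => hc _ z hz h rfl)
  obtain ⟨n, ⟨z, hz, hz', rfl⟩, hmin⟩ := wellFounded_lt.has_min {n | ∃ z, le z (br i r) ∧
    (g + e (br i r)) z ≠ 0 ∧ z.n = n} h2
  have hv : ∀ w, le w (br i r) → w.n ≤ z.n → (g + e (br i r) + e z) w = 0 := by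
    intro w hw hn
    by_cases hwz : w = z
    · rw [hwz, Finsupp.add_apply, z2 hz', Finsupp.single_eq_same]; decide
    · rw [Finsupp.add_apply, Finsupp.single_eq_of_ne hwz, add_zero]
      by_contra hc
      have := not_lt.1 (hmin _ ⟨w, hw, hc, rfl⟩)
      exact hwz (le.eq ⟨hw.1.trans hz.1.symm, hn, fun j hj =>
        (hw.2.2 j hj).trans (hz.2.2 j (hj.trans_le hn)).symm⟩ this)
  refine ⟨z, hz, ⟨fun m hm => ?_, fun hm => ?_⟩, fun w hw => hv w (hw.trans hz) hw.2.1,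
    fun m s hs => ?_⟩
  · have hg : good i r m := by
      by_contra hc
      have := h.1 m hc
      rw [← eq_nd hz hm] at this
      rw [Finsupp.add_apply, this, Finsupp.single_eq_of_ne (fun h => by simp [h, br] at hm)] at hz'
      simp at hz'
    rw [show z.i = i from hz.1]
    rcases hg with a | a <;> omega
  · rw [hz.eq (by simp [hm])]; exact hk
  · have hs' : near (br i r) m s := fun j hj =>
      ⟨by simp [br], (hs j hj).2.trans (hz.2.2 j (hs j hj).1)⟩
    rw [show z.i = i from hz.1, chi_split _ (On i r), map_add, map_add, h.2.1 m s hs', chi_e, chi_e,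
      if_neg (fun h => h.2 (le_refl' _)), if_neg (fun h => h.2 hz)]
    simp only [add_zero, zero_add]
    by_cases hc : ∀ j < m, r j = s j
    · rw [chi_congr (B := On i r), map_add, z2 h1, chi_e, if_pos (show _ ∈ On i r from hz)]
      · decide
      intro w hw
      refine ⟨fun h => h.2, fun h => ⟨?_, h⟩⟩
      have h3 : z.n < w.n := not_le.1 fun hn => hw (hv w h hn)
      have h4 : (m : ℕ∞) ≤ w.n := by
        rcases m with _ | _ | m
        · simp
        · simpa using Order.one_le_iff_pos.2 (zero_le.trans_lt h3)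
        · have := Order.add_one_le_of_lt ((Order.add_one_le_of_lt (hs m (by omega)).1).trans_lt h3)
          exact_mod_cast this
      exact ⟨h.1, h4, fun j hj => (h.2.2 j (lt_of_lt_of_le (by exact_mod_cast hj) h4)).trans (hc j hj)⟩
    · refine chi_zero fun w hw => absurd (fun j hj => ?_) hc
      exact (hw.2.2.2 j (lt_of_lt_of_le (by exact_mod_cast hj) hw.1.2.1)).symm.trans (hw.1.2.2 j hj)

theorem B_open {k : ℕ} {F : Finset (ℕ × (ℕ → ℤ))} {h : G} (hh : B k F h) :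
    ∃ k' F', ∀ g, B k' F' g → B k F (h + g) := by
  obtain ⟨m, hm, h1, -⟩ := bound h k
  refine ⟨m, F ∪ FF h, fun g hg => ⟨fun i => ?_, fun i hi => (hh.2.1 i hi).add
    ((hg.2.1 i (by omega)).mono hm), fun p hp => (hh.2.2 p hp).add (hg.2.2 p (by simp [hp]))⟩⟩
  by_cases hi : i < m
  · have hK := hg.2.1 i hi
    rcases hh.1 i with a | ⟨a, z, rfl, b, c⟩
    · left; rw [map_add, a, hK.2 0 (Nat.zero_le _), add_zero]
    refine Or.inr ⟨a, ?_⟩
    by_cases hz : z.n = ⊤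
    · obtain ⟨z', d1, d2, d3⟩ := slide (b.2 hz) (hg.2.2 _ (Finset.mem_union_right _ (mem_FF c.ne)))
      rw [← eq_br hz] at d1 d3
      refine ⟨z', d1.1, d2, ?_⟩
      have := (c.mono d1).add d3
      rwa [show h + e z + (g + e z + e z') = h + g + e z' + (e z + e z) by abel, two,
        add_zero] at this
    · refine ⟨z, rfl, b, ?_⟩
      rw [add_right_comm]
      exact c.add (hK.H' ((h1 z c.ne).2 hz))
  · have hv : ∀ w : Z, w.i = i → h w = 0 := fun w hw => by_contra fun hc => hi (hw ▸ (h1 w hc).1)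
    rcases hg.1 i with a | ⟨a, z, rfl, b, c⟩
    · left; rw [map_add, a, add_zero]; exact chi_zero fun w hw => hv w hw.1
    · exact Or.inr ⟨hm.trans a, z, rfl, b.mono hm, by rw [add_assoc]; exact (H'_van hv).add c⟩

theorem W_closed (g : G) : ∃ k' F', ∀ k g', B k' F' g' → W (k + 1) (g + g') → W k g := by
  obtain ⟨m, -, h1, h2⟩ := bound g 0
  refine ⟨m, FF g, fun k g' hg hv i => ?_⟩
  by_cases hi : i < m
  swap
  · exact Or.inl (chi_zero fun w hw => by_contra fun hc => hi (hw.1 ▸ (h1 w hc).1))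
  have hK := hg.2.1 i hi
  rcases hv i with a | ⟨a, z, rfl, b, c⟩
  · left; rwa [map_add, hK.2 0 (Nat.zero_le _), add_zero] at a
  refine Or.inr ⟨by omega, ?_⟩
  have ee : g + e z = g + g' + e z + g' := by
    rw [show g + g' + e z + g' = g + e z + (g' + g') by abel, two, add_zero]
  by_cases hz : z.n < m
  · exact ⟨z, rfl, b.mono (by omega), ee ▸ c.add (hK.H' hz)⟩
  have hz' : (m : ℕ∞) ≤ z.n := not_lt.1 hz
  have lt : ∀ j < m, (j : ℕ∞) < z.n := fun j hj => lt_of_lt_of_le (by exact_mod_cast hj) hz'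
  have c1 : ∀ m' ≤ m, ∀ s, near z m' s → chi (Cone z.i m' s) (g + e z) = 0 := fun m' a s hs => by
    rw [ee, map_add, c.2 m' s hs, hK.2 m' a s, add_zero]
  obtain ⟨l, hl, hgl⟩ : ∃ l ∈ Cone z.i m z.s, g l ≠ 0 := by
    by_contra hc
    push Not at hc
    have := c1 m le_rfl z.s fun j hj => ⟨lt j (by omega), rfl⟩
    rw [map_add, chi_zero hc, chi_e, if_pos ⟨rfl, hz', fun _ _ => rfl⟩] at this
    simp at this
  have top : ∀ w ∈ Cone z.i m z.s, g w ≠ 0 → w.n = ⊤ := fun w hw hg =>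
    by_contra fun hc => not_lt.2 hw.2.1 ((h1 w hg).2 hc)
  have uq : ∀ w ∈ Cone z.i m z.s, (g + e l) w = 0 := by
    intro w hw
    by_cases hwl : w = l
    · rw [hwl, Finsupp.add_apply, z2 hgl, Finsupp.single_eq_same]; decide
    · rw [Finsupp.add_apply, Finsupp.single_eq_of_ne hwl, add_zero]
      by_contra hc
      obtain ⟨j, hj, hj'⟩ := h2 w l hc hgl fun h =>
        hwl (Z.ext (hw.1.trans hl.1.symm) ((top w hw hc).trans (top l hl hgl).symm) h)
      exact hj' ((hw.2.2 j hj).trans (hl.2.2 j hj).symm)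
  have hlt := top l hl hgl
  have hH := hg.2.2 _ (mem_FF hgl)
  dsimp only at hH
  have hzl : le z l := by
    by_contra hc
    have h3 : ∃ j : ℕ, j < z.n ∧ z.s j ≠ l.s j := by
      by_contra h4
      push Not at h4
      exact hc ⟨hl.1.symm, by simp [hlt], h4⟩
    have h4 := Nat.find_spec h3
    have h5 : ∀ j < Nat.find h3, z.s j = l.s j := fun j hj => by
      have := Nat.find_min h3 hj
      push Not at this
      exact this (lt_trans (by exact_mod_cast hj) h4.1)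
    have h6 : m ≤ Nat.find h3 := not_lt.1 fun h => h4.2 (hl.2.2 _ h).symm
    have h7 := c.2 (Nat.find h3 + 1) z.s fun j hj =>
      ⟨lt_trans (by exact_mod_cast (by omega : j < Nat.find h3)) h4.1, rfl⟩
    have h8 := hH.2.1 (Nat.find h3 + 1) z.s fun j hj => ⟨by simp [br], h5 j (by omega)⟩
    have h9 : ∀ w ∈ Cone z.i (Nat.find h3 + 1) z.s, w ∉ On l.i l.s := fun w hw hw' =>
      h4.2 ((hw.2.2 _ (by omega)).symm.trans (hw'.2.2 _ (lt_of_lt_of_le
        (by exact_mod_cast Nat.lt_succ_self _) hw.2.1)))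
    replace h8 : chi (Cone z.i (Nat.find h3 + 1) z.s) g' = 0 := by
      rw [← h8]
      exact chi_congr fun w _ => ⟨fun h => ⟨hl.1 ▸ h, h9 w h⟩, fun h => hl.1 ▸ h.1⟩
    rw [map_add, map_add, h8, chi_e, if_pos ⟨rfl, by
      exact_mod_cast Order.add_one_le_of_lt h4.1, fun _ _ => rfl⟩, chi_zero] at h7
    · simp at h7
    intro w hw
    have := uq w ⟨hw.1, le_trans (by exact_mod_cast (by omega : m ≤ Nat.find h3 + 1)) hw.2.1,
      fun j hj => hw.2.2 j (by omega)⟩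
    rwa [Finsupp.add_apply, Finsupp.single_eq_of_ne, add_zero] at this
    rintro rfl
    exact h9 _ hw (show le w (br w.i w.s) from eq_br hlt ▸ le_refl' _)
  refine ⟨l, hl.1, ⟨fun m' h => by simp [hlt] at h, fun _ => ?_⟩, fun w hw => ?_, fun m' s hs => ?_⟩
  · by_cases hzt : z.n = ⊤
    · have := b.2 hzt
      rw [hzl.eq (by simp [hzt])] at this
      omega
    · obtain ⟨n, hn⟩ := ENat.ne_top_iff_exists.1 hzt
      have hzn : z = nd l.i n l.s := eq_nd (eq_br hlt ▸ hzl) hn.symm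
      have h3 : g z = 0 := by_contra fun hc => hz ((h1 z hc).2 hzt)
      have h4 := c.ne
      rw [Finsupp.add_apply, h3, zero_add] at h4
      have h5 : good l.i l.s n := by_contra fun hc => h4 (hzn ▸ hH.1 n hc)
      have h6 := b.1 n hn.symm
      rw [← hl.1] at h6
      rcases h5 with a | a <;> omega
  · by_cases hwm : w.n < m
    · have h3 : le w z := ⟨hw.1.trans hl.1, (hwm.trans_le hz').le, fun j hj =>
        (hw.2.2 j hj).trans (hl.2.2 j (by exact_mod_cast hj.trans hwm))⟩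
      have h4 := c.1 w h3
      have h5 : w ≠ z := fun h => hz (h ▸ hwm)
      have h6 : w ≠ l := fun h => by simp [h, hlt] at hwm
      simpa [Finsupp.single_eq_of_ne h5, Finsupp.single_eq_of_ne h6,
        hK.1 w h3.1 hwm] using h4
    · exact uq w ⟨hw.1.trans hl.1, not_lt.1 hwm, fun j hj => (hw.2.2 j (lt_of_lt_of_le
        (by exact_mod_cast hj) (not_lt.1 hwm))).trans (hl.2.2 j hj)⟩
  · rw [hl.1]
    by_cases hm : m' ≤ m
    · have := c1 m' hm s fun j hj => ⟨lt j (by omega), (hs j hj).2.trans (hl.2.2 j (by omega))⟩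
      rw [map_add, chi_e] at this ⊢
      have h3 : l ∈ Cone z.i m' s ↔ z ∈ Cone z.i m' s :=
        ⟨fun h => ⟨rfl, le_trans (by exact_mod_cast hm) hz', fun j hj =>
          (hl.2.2 j (by omega)).symm.trans (h.2.2 j hj)⟩, fun h => ⟨hl.1, by simp [hlt],
          fun j hj => (hl.2.2 j (by omega)).trans (h.2.2 j hj)⟩⟩
      simpa only [h3] using this
    · exact chi_zero fun w hw => uq w ⟨hw.1, le_trans (by exact_mod_cast (not_le.1 hm).le) hw.2.1,
        fun j hj => (hw.2.2 j (by omega)).trans ((hs j (by omega)).2.trans (hl.2.2 j hj))⟩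

end Pool.Agent.H39.QT
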