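import Mathlib
import Pool.Agent.H39.QT1

set_option autoImplicit false

namespace Pool.Agent.H39.QT
open Set Filter Topology Classical

abbrev GG : Type := G

instance : TopologicalSpace GG where
  IsOpen O := ∀ g ∈ O, ∃ k F, ∀ v : G, B k F v → (g + v : GG) ∈ O
  isOpen_univ := fun _ _ => ⟨0, ∅, fun _ _ => trivial⟩
  isOpen_inter := fun s t hs ht g hg => by
    obtain ⟨k, F, h⟩ := hs g hg.1
    obtain ⟨k', F', h'⟩ := ht g hg.2
    exact ⟨max k k', F ∪ F', fun v hv => ⟨h v (hv.mono (le_max_left _ _) Finset.subset_union_left),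
      h' v (hv.mono (le_max_right _ _) Finset.subset_union_right)⟩⟩
  isOpen_sUnion := fun S hS g ⟨t, ht, hg⟩ => by
    obtain ⟨k, F, h⟩ := hS t ht g hg
    exact ⟨k, F, fun v hv => ⟨t, ht, h v hv⟩⟩

theorem open_iff {O : Set GG} :
    IsOpen O ↔ ∀ g ∈ O, ∃ k F, ∀ v : G, B k F v → (g + v : GG) ∈ O := Iff.rfl

theorem two' (g : GG) : g + g = 0 := two g

theorem cont_add (a : GG) : Continuous fun x : GG => a + x :=
  continuous_def.2 fun O hO => open_iff.2 fun g hg => by
    obtain ⟨k, F, h⟩ := open_iff.1 hO _ hg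
    exact ⟨k, F, fun v hv => by simpa only [mem_preimage, add_assoc] using h v hv⟩

theorem B_isOpen (k : ℕ) (F : Finset (ℕ × (ℕ → ℤ))) : IsOpen {v : GG | B k F v} :=
  open_iff.2 fun _ hg => B_open hg

theorem mem_nhds' {g : GG} {S : Set GG} :
    S ∈ 𝓝 g ↔ ∃ k F, ∀ v : G, B k F v → (g + v : GG) ∈ S := by
  constructor
  · intro h
    obtain ⟨O, h1, h2, h3⟩ := mem_nhds_iff.1 h
    obtain ⟨k, F, h⟩ := open_iff.1 h2 g h3
    exact ⟨k, F, fun v hv => h1 (h v hv)⟩
  · rintro ⟨k, F, h⟩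
    refine mem_nhds_iff.2 ⟨(fun x => g + x) ⁻¹' {v : GG | B k F v}, fun x hx => ?_,
      (B_isOpen k F).preimage (cont_add g), ?_⟩
    · have := h _ hx
      rwa [← add_assoc, two', zero_add] at this
    · change B k F (g + g : GG)
      rw [two']; exact B_zero k F

theorem mem_cl {g : GG} {S : Set GG} :
    g ∈ closure S ↔ ∀ k F, ∃ v : G, B k F v ∧ (g + v : GG) ∈ S := by
  rw [mem_closure_iff_nhds]
  constructor
  · intro h k F
    obtain ⟨x, hx, hxS⟩ := h {x | B k F (g + x : GG)} (mem_nhds'.2 ⟨k, F, fun v hv => by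
      change B k F (g + (g + v) : GG)
      rwa [← add_assoc, two', zero_add]⟩)
    exact ⟨_, hx, by rwa [← add_assoc, two', zero_add]⟩
  · intro h t ht
    obtain ⟨k, F, h1⟩ := mem_nhds'.1 ht
    obtain ⟨v, h2, h3⟩ := h k F
    exact ⟨_, h1 v h2, h3⟩

theorem cl_B (k : ℕ) (F : Finset (ℕ × (ℕ → ℤ))) :
    closure {v : GG | B (k + 1) F v} ⊆ {v : GG | B k F v} := by
  intro g hg
  obtain ⟨k', F', h⟩ := W_closed g
  obtain ⟨v, h1, h2⟩ := mem_cl.1 hg (max k k') (F ∪ F')
  have e : (g : G) = (g + v : GG) + v := by rw [add_assoc, two', add_zero]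
  have h3 := h1.mono (le_max_left _ _) Finset.subset_union_left
  have h4 : B k F (g + v : GG) := B.mono h2 (Nat.le_succ k) subset_rfl
  exact ⟨h k v (h1.mono (le_max_right _ _) Finset.subset_union_right) h2.1,
    fun i hi => e ▸ (h4.2.1 i hi).add (h3.2.1 i hi), fun p hp => e ▸ (h4.2.2 p hp).add (h3.2.2 p hp)⟩

instance : RegularSpace GG := by
  refine RegularSpace.of_exists_mem_nhds_isClosed_subset fun g S hS => ?_
  obtain ⟨k, F, h⟩ := mem_nhds'.1 hS
  refine ⟨(fun x => g + x) ⁻¹' closure {v : GG | B (k + 1) F v}, mem_nhds'.2 ⟨k + 1, F,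
    fun v hv => subset_closure ?_⟩, isClosed_closure.preimage (cont_add g), fun x hx => ?_⟩
  · change B (k + 1) F (g + (g + v) : GG)
    rwa [← add_assoc, two', zero_add]
  · have := h _ (cl_B k F hx)
    rwa [← add_assoc, two', zero_add] at this

theorem sep (g : G) (h : ∀ k F, B k F g) : g = 0 := by
  have h1 : ∀ z : Z, z.n ≠ ⊤ → g z = 0 := fun z hz => by
    refine ((h (z.i + z.n.toNat + 1) ∅).2.1 z.i (by omega)).1 z rfl ?_
    rw [← ENat.coe_toNat hz, ENat.toNat_coe]; exact_mod_cast (by omega)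
  ext z
  by_cases hz : z.n = ⊤
  · have := ((h 0 {(z.i, z.s)}).2.2 _ (Finset.mem_singleton_self _)).2.2
    rw [chi_congr (B := {z}), chi_eq] at this
    · simpa [Finset.sum_ite_eq'] using this
    intro w hw
    have h2 : w.n = ⊤ := by_contra fun hc => hw (h1 w hc)
    refine ⟨fun h => (le.eq h (by simp [h2])).trans (eq_br hz).symm, fun h => ?_⟩
    rw [mem_singleton_iff.1 h]
    exact show le z (br z.i z.s) from eq_br hz ▸ le_refl' _
  · exact h1 z hz

instance : T1Space GG := ⟨fun g => closure_subset_iff_isClosed.1 fun x hx => by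
  have : (x + g : GG) = 0 := sep _ fun k F => by
    obtain ⟨v, h1, h2⟩ := mem_cl.1 hx k F
    rwa [← mem_singleton_iff.1 h2, ← add_assoc, two', zero_add]
  rw [mem_singleton_iff, ← add_zero x, ← two' g, ← add_assoc, this, zero_add]⟩

theorem conv (i : ℕ) (r : ℕ → ℤ) (k : ℕ) (F : Finset (ℕ × (ℕ → ℤ))) :
    ∀ᶠ m in atTop, good i r m → B k F (e (br i r) + e (nd i m r)) := by
  have h1 : ∀ᶠ m in atTop, ∀ p ∈ F, r ≠ p.2 → ∃ j < m, r j ≠ p.2 j := by
    rw [eventually_all_finset]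
    intro p _
    by_cases h : r = p.2
    · exact Eventually.of_forall fun _ h' => absurd h h'
    · obtain ⟨j, hj⟩ := Function.ne_iff.1 h
      filter_upwards [eventually_gt_atTop j] with m a _ using ⟨j, a, hj⟩
  filter_upwards [h1, eventually_ge_atTop k] with m h1 hk hg
  have c1 : ∀ i' m' s, nd i m r ∈ Cone i' m' s → br i r ∈ Cone i' m' s := fun i' m' s h =>
    ⟨h.1, le_top, fun j hj => ((nd_le i m r).2.2 j (lt_of_lt_of_le (by exact_mod_cast hj)
      h.2.1)).symm.trans (h.2.2 j hj)⟩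
  have c2 : ∀ i' m' s, m' ≤ m → br i r ∈ Cone i' m' s → nd i m r ∈ Cone i' m' s :=
    fun i' m' s hm h => ⟨h.1, show (m' : ℕ∞) ≤ m by exact_mod_cast hm, fun j hj =>
      ((nd_le i m r).2.2 j (show (j : ℕ∞) < m by exact_mod_cast hj.trans_le hm)).trans (h.2.2 j hj)⟩
  have v : ∀ w, w ≠ br i r → w ≠ nd i m r → (e (br i r) + e (nd i m r)) w = 0 := fun w a b => by
    simp [Finsupp.single_eq_of_ne a, Finsupp.single_eq_of_ne b]
  refine ⟨fun i' => Or.inl (chi_pair ⟨c2 _ _ _ (Nat.zero_le _), c1 _ _ _⟩), fun i' _ =>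
    ⟨fun w _ hw => v w ?_ ?_, fun m' hm s => chi_pair ⟨c2 _ _ _ (hm.trans hk), c1 _ _ _⟩⟩,
    fun p hp => ?_⟩
  · rintro rfl; simp [br] at hw
  · rintro rfl
    have : m < k := by simpa [nd] using hw
    omega
  by_cases hi : i = p.1
  swap
  · exact H_van fun w hw => v w (by rintro rfl; exact hi hw) (by rintro rfl; exact hi hw)
  by_cases hr : r = p.2
  · rw [← hi, ← hr]
    refine ⟨fun m' hm' => v _ (fun h => by simpa [nd, br] using congrArg Z.n h) fun h => ?_,
      fun m' s _ => chi_pair ⟨fun h => absurd (le_refl' _) h.2, fun h => absurd (nd_le _ _ _) h.2⟩,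
      chi_pair ⟨fun _ => nd_le _ _ _, fun _ => le_refl' _⟩⟩
    have : m' = m := by simpa [nd] using congrArg Z.n h
    exact hm' (this ▸ hg)
  obtain ⟨j, hj, hj'⟩ := h1 p hp hr
  have n1 : br i r ∉ On p.1 p.2 := fun h => hj' (h.2.2 j (by simp [br]))
  have n2 : nd i m r ∉ On p.1 p.2 := fun h => hj' (((nd_le i m r).2.2 j
    (show (j : ℕ∞) < m by exact_mod_cast hj)).symm.trans
      (h.2.2 j (show (j : ℕ∞) < m by exact_mod_cast hj)))
  refine ⟨fun m' _ => v _ (fun h => n1 (h ▸ nd_le _ _ _)) fun h => n2 (h ▸ nd_le _ _ _),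
    fun m' s hs => chi_pair ⟨fun h => ⟨c2 _ _ _ ?_ h.1, n2⟩, fun h => ⟨c1 _ _ _ h.1, n1⟩⟩,
    chi_pair ⟨fun h => absurd h n1, fun h => absurd h n2⟩⟩
  by_contra hc
  exact hj' ((h.1.2.2 j (by omega)).trans (hs j (by omega)).2)

theorem freq (i n m0 : ℕ) (hn : n < i + 2) : ∃ m, m0 ≤ m ∧ m % (i + 2) = n :=
  ⟨n + (i + 2) * m0, by nlinarith, by rw [Nat.add_mul_mod_self_left, Nat.mod_eq_of_lt hn]⟩

theorem col_le (i : ℕ) (r : ℕ → ℤ) : col i r < i + 1 := ZMod.val_lt _

theorem br_cl {i n : ℕ} {r : ℕ → ℤ} {S : Set GG} {m0 : ℕ} (hn : n = col i r ∨ n = col i r + 1)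
    (h : ∀ m, m0 ≤ m → m % (i + 2) = n → (e (nd i m r) : GG) ∈ S) :
    (e (br i r) : GG) ∈ closure S := mem_cl.2 fun k F => by
  obtain ⟨a, ha⟩ := eventually_atTop.1 (conv i r k F)
  obtain ⟨m, h1, h2⟩ := freq i n (max a m0) (by have := col_le i r; omega)
  refine ⟨_, ha m (le_of_max_le_left h1) (by unfold good; omega), ?_⟩
  have := h m (le_of_max_le_right h1) h2
  rwa [← zero_add (e (nd i m r) : GG), ← two' (e (br i r) : GG), add_assoc] at this

instance : TopologicalSpace.SeparableSpace GG := by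
  let φ : ℕ × ℕ × List ℤ → Z := fun p => nd p.1 p.2.1 fun j => p.2.2.getD j 0
  let D : Set GG := range (Finsupp.mapDomain φ : _ → G)
  have hD : ∀ a ∈ D, ∀ b ∈ D, a + b ∈ D := by
    rintro _ ⟨a, rfl⟩ _ ⟨b, rfl⟩
    exact ⟨a + b, Finsupp.mapDomain_add⟩
  have hc : ∀ a ∈ closure D, ∀ b ∈ closure D, a + b ∈ closure D := fun a ha b hb => by
    rw [add_comm]
    refine closure_closure.subset (map_mem_closure (cont_add b) ha fun d hd => ?_)
    rw [add_comm]
    exact map_mem_closure (cont_add d) hb fun d' hd' => hD d hd d' hd'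
  have hn : ∀ i m r, (e (nd i m r) : GG) ∈ D := fun i m r => by
    refine ⟨Finsupp.single (i, m, (List.range m).map r) 1, ?_⟩
    rw [Finsupp.mapDomain_single]
    congr 1
    refine Z.ext rfl rfl (funext fun j => ?_)
    by_cases hj : j < m <;> simp [φ, nd, hj]
  refine ⟨D, countable_range _, fun g => ?_⟩
  refine Finsupp.induction_linear (motive := fun g : G => (g : GG) ∈ closure D) g
    (subset_closure ⟨0, Finsupp.mapDomain_zero⟩) (fun a b x y => hc a x b y) fun z c => ?_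
  by_cases h0 : c = 0
  · rw [h0, Finsupp.single_zero]; exact subset_closure ⟨0, Finsupp.mapDomain_zero⟩
  rw [z2 h0]
  by_cases hz : z.n = ⊤
  · rw [eq_br hz]; exact br_cl (m0 := 0) (Or.inl rfl) fun m _ _ => hn _ _ _
  · obtain ⟨n, h⟩ := ENat.ne_top_iff_exists.1 hz
    rw [eq_nd (z := z) (i := z.i) (r := z.s) ⟨rfl, le_top, fun _ _ => rfl⟩ h.symm]
    exact subset_closure (hn _ _ _)

theorem col_shift (i n m0 : ℕ) (hn : n < i + 1) (s r : ℕ → ℤ) :
    ∃ c : ℤ, col i (fun j => if j < m0 then s j else r j + c) = n := by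
  have sp : ∀ r : ℕ → ℤ, ∀ᶠ j in (hyperfilter ℕ : Filter ℕ), (r j : ZMod (i + 1)) = col' i r := by
    intro r
    have := (Ultrafilter.eq_pure_of_finite
      ((hyperfilter ℕ).map fun j => (r j : ZMod (i + 1)))).choose_spec
    have h2 : ({col' i r} : Set _) ∈ (hyperfilter ℕ).map fun j => (r j : ZMod (i + 1)) := by
      rw [this]; rfl
    exact h2
  refine ⟨n - (col' i r).val, ?_⟩
  have h1 : ∀ᶠ j in (hyperfilter ℕ : Filter ℕ), m0 ≤ j :=
    hyperfilter_le_cofinite (Nat.cofinite_eq_atTop ▸ eventually_ge_atTop m0)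
  obtain ⟨j, a, b, c⟩ := (h1.and ((sp r).and
    (sp fun j => if j < m0 then s j else r j + (n - (col' i r).val)))).exists
  rw [col, ← c, if_neg (not_lt.2 a)]
  push_cast
  rw [b, ZMod.natCast_zmod_val, add_sub_cancel, ZMod.val_cast_of_lt hn]

theorem step {i n : ℕ} (hn : n < i + 1) {f : GG → ℝ} (hf : Continuous f)
    (h : ∃ c < (1 : ℝ), ∃ m0, ∃ s : ℕ → ℤ, ∀ m r, m0 ≤ m → (∀ j < m0, r j = s j) →
      m % (i + 2) = n + 1 → f (e (nd i m r)) ≤ c) :
    ∃ c < (1 : ℝ), ∃ m0, ∃ s : ℕ → ℤ, ∀ m r, m0 ≤ m → (∀ j < m0, r j = s j) →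
      m % (i + 2) = n → f (e (nd i m r)) ≤ c := by
  obtain ⟨c, hc, m0, s, h⟩ := h
  let φ : ℤ → (ℕ → ℤ) → ℕ → ℤ := fun c r j => if j < m0 then s j else r j + c
  let R : ℤ × ℕ → Set (ℕ → ℤ) := fun p => {r | ∀ m, p.2 ≤ m → m % (i + 2) = n →
    f (e (nd i m (φ p.1 r))) ≤ (c + 1) / 2}
  have hcov : ⋃ p, closure (R p) = univ := eq_univ_of_forall fun r => by
    obtain ⟨a, ha⟩ := col_shift i n m0 hn s r
    have h1 : f (e (br i (φ a r))) ≤ c :=
      (isClosed_le hf continuous_const).closure_subset (br_cl (m0 := m0) (n := n + 1)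
        (Or.inr (by rw [← ha])) fun m a b => h m _ a (fun j hj => by simp [φ, hj]) b)
    obtain ⟨k, F, h2⟩ := open_iff.1 (isOpen_lt hf (continuous_const (y := (c + 1) / 2)))
      (e (br i (φ a r))) (show f _ < (c + 1) / 2 by linarith)
    obtain ⟨M, hM⟩ := eventually_atTop.1 (conv i (φ a r) k F)
    refine mem_iUnion.2 ⟨(a, M), subset_closure fun m h3 h4 => ?_⟩
    have := h2 _ (hM m h3 (Or.inl (h4.trans ha.symm)))
    rw [← add_assoc, two', zero_add] at this
    exact le_of_lt this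
  obtain ⟨⟨a, M⟩, x, hx⟩ := nonempty_interior_of_iUnion_of_closed (fun p => isClosed_closure) hcov
  obtain ⟨_, ⟨y, m1, rfl⟩, h1, h2⟩ :=
    (PiNat.isTopologicalBasis_cylinders fun _ => ℤ).exists_subset_of_mem_open hx isOpen_interior
  refine ⟨(c + 1) / 2, by linarith, max m1 (max M m0), φ a y, fun m r h3 h4 h5 => ?_⟩
  have h6 : (fun j => if j < m0 then y j else r j - a) ∈ closure (R (a, M)) :=
    interior_subset (h2 fun j hj => by
      have := h4 j (lt_max_of_lt_left hj)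
      by_cases hj' : j < m0 <;> simp [φ, hj'] at this ⊢
      omega)
  obtain ⟨r', h7, h8⟩ := mem_closure_iff.1 h6 _ (PiNat.isOpen_cylinder _ _ m)
    (PiNat.self_mem_cylinder _ _)
  have h9 : nd i m r = nd i m (φ a r') := Z.ext rfl rfl (funext fun j => by
    by_cases hj : j < m
    · have := h7 j hj
      by_cases hj' : j < m0
      · simpa [nd, hj, φ, hj'] using h4 j (by omega)
      · simp [nd, hj, φ, hj'] at this ⊢; omega
    · simp [nd, hj])
  rw [h9]
  exact h8 m (by omega) h5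

theorem not_cr : ¬ CompletelyRegularSpace GG := by
  intro h
  obtain ⟨f, hf, h0, h1⟩ := h.completely_regular 0 {v : GG | B 1 ∅ v}ᶜ
    (B_isOpen 1 ∅).isClosed_compl (fun h => h (B_zero _ _))
  have hf' : Continuous fun x => (f x : ℝ) := continuous_subtype_val.comp hf
  obtain ⟨k, F, h2⟩ := open_iff.1 (isOpen_lt hf' (continuous_const (y := (1 / 2 : ℝ)))) 0
    (by simp [h0])
  set i := k + F.sup (·.1) + 1 with hi
  have van : ∀ m r i', i' ≠ i → ∀ w : Z, w.i = i' → e (nd i m r) w = 0 := fun m r i' a w b =>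
    Finsupp.single_eq_of_ne (by rintro rfl; exact a b.symm)
  have key : ∀ d ≤ i + 1, ∃ c < (1 : ℝ), ∃ m0, ∃ s : ℕ → ℤ, ∀ m r, m0 ≤ m →
      (∀ j < m0, r j = s j) → m % (i + 2) = i + 1 - d → (f (e (nd i m r)) : ℝ) ≤ c := by
    intro d
    induction d with
    | zero =>
      refine fun _ => ⟨1 / 2, by norm_num, 0, 0, fun m r _ _ hm => ?_⟩
      have := h2 (e (nd i m r)) ⟨fun i' => ?_, fun i' hi' => K_van (van m r i' (by omega)),
        fun p hp => H_van (van m r _ ?_)⟩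
      · rw [zero_add] at this; exact le_of_lt this
      · by_cases h : i' = i
        · refine Or.inr ⟨by omega, nd i m r, h.symm, ⟨fun m' hm' => ?_, fun h => by simp [nd] at h⟩,
            by rw [two]; exact H'_van fun _ _ => rfl⟩
          have : m = m' := by simpa [nd] using hm'
          change k ≤ m' % (i + 2)
          rw [← this]; omega
        · exact Or.inl (chi_zero fun w hw => van m r i' h w hw.1)
      · have := Finset.le_sup (f := (·.1)) hp
        omega
    | succ d ih =>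
      intro hd
      refine step (by omega) hf' ?_
      rw [show i + 1 - (d + 1) + 1 = i + 1 - d by omega]
      exact ih (by omega)
  obtain ⟨c, hc, m0, s, h3⟩ := key (i + 1) le_rfl
  obtain ⟨m, a, b⟩ := freq i 0 m0 (by omega)
  have h4 := h3 m s a (fun _ _ => rfl) (by omega)
  rw [h1 (x := e (nd i m s))] at h4
  · simp at h4; linarith
  rintro ⟨h5, -⟩
  rcases h5 i with h | ⟨-, z, -, h6, h7⟩
  · rw [chi_e, if_pos ⟨rfl, by simp, by simp⟩] at h; simp at h
  · have : z = nd i m s := by_contra fun hc => h7.ne (Finsupp.single_eq_of_ne hc)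
    have := (this ▸ h6).1 m rfl
    change 1 ≤ m % (i + 2) at this
    omega

end Pool.Agent.H39.QT
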