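import Mathlib

set_option autoImplicit false

namespace Pool.Agent.H39.RC
open Set Filter Topology Classical

abbrev Y := ℕ → ℤ

def st : Setoid Y where
  r r r' := ∃ c : ℤ, ∀ᶠ j in atTop, r j = r' j + c
  iseqv := ⟨fun _ => ⟨0, by simp⟩, fun ⟨c, h⟩ => ⟨-c, h.mono fun j h => by omega⟩,
    fun ⟨c, h⟩ ⟨c', h'⟩ => ⟨c + c', (h.and h').mono fun j h => by omega⟩⟩

theorem st_out (r : Y) : ∃ c : ℤ, ∀ᶠ j in atTop, r j = (Quotient.mk st r).out j + c :=
  st.symm (Quotient.mk_out (s := st) r)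

noncomputable def lev (r : Y) : ℕ := (st_out r).choose.toNat

theorem lev_shift (n m0 : ℕ) (s r : Y) :
    ∃ c : ℤ, lev (fun j => if j < m0 then s j else r j + c) = n := by
  refine ⟨n - (st_out r).choose, ?_⟩
  set r' : Y := fun j => if j < m0 then s j else r j + (n - (st_out r).choose) with hr'
  have h0 : ∀ᶠ j in atTop, r' j = r j + (n - (st_out r).choose) :=
    (eventually_ge_atTop m0).mono fun j hj => by simp [hr', not_lt.2 hj]
  have h1 : Quotient.mk st r' = Quotient.mk st r := Quotient.sound ⟨_, h0⟩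
  obtain ⟨j, a, b, c⟩ := (h0.and ((st_out r).choose_spec.and (st_out r').choose_spec)).exists
  have : (Quotient.mk st r').out j = (Quotient.mk st r).out j := by rw [h1]
  unfold lev
  omega

def A (k : ℕ) (x w : Y) : Prop := ∀ j < k, x j = w j
def adj (x w : Y) : Prop := lev w = lev x + 1 ∨ lev x = lev w + 1
def aj (c v : Y) : Prop := v = c ∨ adj c v
noncomputable def dl (x w : Y) : ℕ := if h : ∃ j, x j ≠ w j then Nat.find h else 0

theorem A.mono {k k' : ℕ} {x w : Y} (h : A k x w) (hk : k' ≤ k) : A k' x w :=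
  fun j hj => h j (hj.trans_le hk)
theorem A.symm {k : ℕ} {x w : Y} (h : A k x w) : A k w x := fun j hj => (h j hj).symm
theorem A.trans {k : ℕ} {x w v : Y} (h : A k x w) (h' : A k w v) : A k x v :=
  fun j hj => (h j hj).trans (h' j hj)
theorem A_refl (k : ℕ) (x : Y) : A k x x := fun _ _ => rfl
theorem adj.ne {x w : Y} (h : adj x w) : w ≠ x := by rintro rfl; unfold adj at h; omega
theorem adj.symm {x w : Y} (h : adj x w) : adj w x := Or.symm h
theorem A_iff {k : ℕ} {x w : Y} (h : w ≠ x) : A k x w ↔ k ≤ dl x w := by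
  have h1 : ∃ j, x j ≠ w j := Function.ne_iff.1 h.symm
  rw [dl, dif_pos h1, Nat.le_find_iff]
  simp [A]
theorem ev_sep {x w : Y} (h : w ≠ x) : ∀ᶠ k in atTop, ¬ A k x w :=
  (eventually_gt_atTop (dl x w)).mono fun k hk => by rw [A_iff h]; omega

noncomputable def Kk (c v : Y) : WithTop (ℕ ×ₗ Lex Y) :=
  if v = c then ⊤ else ((toLex (dl c v, toLex v) : ℕ ×ₗ Lex Y) : WithTop _)

theorem Kk_inj {c v v' : Y} (h : Kk c v = Kk c v') : v = v' := by
  unfold Kk at h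
  split_ifs at h with h1 h2 h2
  · rw [h1, h2]
  · simp at h
  · simp at h
  · simpa using (congrArg (fun p => (ofLex p).2) (WithTop.coe_injective h))
theorem Kk_self (c : Y) : Kk c c = ⊤ := if_pos rfl
theorem Kk_lt {k : ℕ} {c v v' : Y} (h : ¬ A k c v') (h' : A k c v) : Kk c v' < Kk c v := by
  have h1 : v' ≠ c := fun e => h (e ▸ A_refl _ _)
  unfold Kk
  rw [if_neg h1]
  split_ifs with h2
  · exact WithTop.coe_lt_top _
  · rw [A_iff h1] at h
    rw [A_iff h2] at h'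
    exact WithTop.coe_lt_coe.2 (Prod.Lex.toLex_lt_toLex.2 (Or.inl (by simp only; omega)))
theorem Kk_coarse {k : ℕ} {c v v' : Y} (h : Kk c v' ≤ Kk c v) (h' : ¬ A k c v) : ¬ A k c v' :=
  fun h2 => not_lt.2 h (Kk_lt h' h2)

@[ext] structure Z where
  a : Y
  b : Y
  h : a = b ∨ lev b = lev a + 1

def S (c : Y) (z : Z) : Prop := z.a = c ∨ z.b = c
def Rel (z z' : Z) : Prop := ∃ c, S c z ∧ S c z'
noncomputable def oth (c : Y) (z : Z) : Y := if z.a = c then z.b else z.a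
noncomputable def ed (c v : Y) : Z :=
  if h : lev v = lev c + 1 then ⟨c, v, Or.inr h⟩
  else if h : lev c = lev v + 1 then ⟨v, c, Or.inr h⟩ else ⟨c, c, Or.inl rfl⟩

theorem Rel.symm {z z' : Z} (h : Rel z z') : Rel z' z := h.imp fun _ h => h.symm
theorem Rel_refl (z : Z) : Rel z z := ⟨z.a, Or.inl rfl, Or.inl rfl⟩
theorem S.aj {c : Y} {z : Z} (h : S c z) : aj c (oth c z) := by
  obtain ⟨a, b, hz⟩ := z
  unfold oth RC.aj adj
  rcases h with rfl | rfl <;> split_ifs <;> simp_all <;> tauto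
theorem S.ed {c : Y} {z : Z} (h : S c z) : ed c (oth c z) = z := by
  obtain ⟨a, b, hz⟩ := z
  rcases hz with rfl | hz
  · obtain rfl : a = c := h.elim id id
    simp [oth, RC.ed]
  · have hne : a ≠ b := by rintro rfl; omega
    rcases h with rfl | rfl
    · simp [oth, RC.ed, hz]
    · simp only [oth, RC.ed, if_neg hne]
      rw [dif_neg (by omega), dif_pos hz]
theorem S_ed (c v : Y) : S c (ed c v) := by unfold ed S; split_ifs <;> simp
theorem aj.oth {c v : Y} (h : aj c v) : oth c (ed c v) = v := by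
  unfold RC.oth ed
  rcases h with rfl | h
  · split_ifs <;> simp_all
  · have := h.ne
    unfold adj at h
    split_ifs <;> simp_all
theorem S.cases {c c' : Y} {z : Z} (h : S c z) (h' : S c' z) : c' = c ∨ c' = oth c z := by
  unfold oth; unfold S at h h'; split_ifs <;> grind
theorem S.oth {c : Y} {z : Z} (_h : S c z) : S (oth c z) z := by
  unfold RC.oth S; split_ifs <;> simp
theorem S.oth_oth {c : Y} {z : Z} (h : S c z) : RC.oth (RC.oth c z) z = c := by
  unfold RC.oth; unfold S at h; split_ifs <;> grind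
theorem S.oth_of {c c' : Y} {z : Z} (h : S c z) (h' : S c' z) (hc : c' ≠ c) : RC.oth c z = c' :=
  ((h.cases h').resolve_left hc).symm
theorem S.eq {c : Y} {z z' : Z} (h : S c z) (h' : S c z') (e : RC.oth c z = RC.oth c z') :
    z = z' := by rw [← h.ed, ← h'.ed, e]
theorem S.lev {c : Y} {z : Z} (h : S c z) : lev c ≤ lev z.b ∧ lev z.b ≤ lev c + 1 := by
  obtain ⟨a, b, hz⟩ := z
  rcases h with rfl | rfl <;> rcases hz with rfl | hz <;> simp_all

def pop (c v v' : Y) : Prop := adj c v' ∧ Kk c v' ≤ Kk c v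
def one (c d v v' : Y) : Prop := adj c v' ∧ ((v' = v ∧ v ≠ d) ∨ (v' = d ∧ Kk c d < Kk c v))
def sm (κ : Y × Y → ℕ) (c d v : Y) : Prop := ∀ v', pop c v v' → (Odd (κ (c, v')) ↔ one c d v v')

theorem sm_uniq {κ : Y × Y → ℕ} {c d v v' : Y} (hv : aj c v) (hv' : aj c v')
    (h : sm κ c d v) (h' : sm κ c d v') : v = v' := by
  wlog hlt : Kk c v < Kk c v' generalizing v v'
  · rcases (not_lt.1 hlt).lt_or_eq with h1 | h1
    · exact (this hv' hv h' h h1).symm
    · exact (Kk_inj h1).symm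
  have h1 : adj c v := hv.resolve_left fun e => by rw [e, Kk_self] at hlt; exact not_top_lt hlt
  have h2 : v ≠ v' := fun e => by rw [e] at hlt; exact lt_irrefl _ hlt
  have := (h v ⟨h1, le_rfl⟩).symm.trans (h' v ⟨h1, hlt.le⟩)
  by_cases hd : v = d
  · subst hd; simp [one, h1, hlt] at this
  · simp [one, h1, hd, h2] at this

theorem sm_ex {κ : Y × Y → ℕ} (hκ : (Function.support κ).Finite) {c d : Y} (hd : aj c d) :
    ∃ v, aj c v ∧ sm κ c d v ∧ (v = c ∨ v = d ∨ κ (c, v) ≠ 0) := by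
  have hf : {v | v = c ∨ (adj c v ∧ Odd (κ (c, v)) ∧ v ≠ d)}.Finite := by
    refine ((hκ.image Prod.snd).insert c).subset ?_
    rintro v (h | ⟨-, h, -⟩)
    · exact Or.inl h
    · exact Or.inr ⟨(c, v), fun e => by simp [e] at h, rfl⟩
  obtain ⟨v, hv, hmin⟩ := Set.exists_min_image _ (Kk c) hf ⟨c, Or.inl rfl⟩
  have hv1 : aj c v := hv.imp_right fun h => h.1
  have hv2 : v = c ∨ v = d ∨ κ (c, v) ≠ 0 :=
    hv.imp_right fun h => Or.inr fun e => by simp [e] at h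
  have key : ∀ v', adj c v' → v' ≠ d → Kk c v' ≤ Kk c v → (Odd (κ (c, v')) ↔ v' = v) :=
    fun v' a b e => ⟨fun h => Kk_inj (le_antisymm e (hmin v' (Or.inr ⟨a, h, b⟩))), fun h => by
      subst h; exact (hv.resolve_left a.ne).2.1⟩
  by_cases h1 : Kk c v < Kk c d ∨ (adj c d ∧ Odd (κ (c, d)))
  · have hvd : v ≠ d := by
      rintro rfl
      rcases h1 with h | h
      · exact lt_irrefl _ h
      · exact (hv.resolve_left h.1.ne).2.2 rfl
    refine ⟨v, hv1, fun v' ⟨a, b⟩ => ?_, hv2⟩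
    by_cases e : v' = d
    · subst e
      have h2 : Kk c v' < Kk c v := lt_of_le_of_ne b fun e => hvd (Kk_inj e).symm
      simp [one, a, h2, (h1.resolve_left (not_lt.2 b)).2]
    · simp [one, a, e, hvd, key v' a e b]
  · push Not at h1
    refine ⟨d, hd, fun v' ⟨a, b⟩ => ?_, Or.inr (Or.inl rfl)⟩
    by_cases e : v' = d
    · subst e; simp [one, h1.2 a]
    · rw [key v' a e (b.trans h1.1)]
      simp only [one, e, false_and, or_self, and_false, iff_false]
      rintro rfl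
      exact e (Kk_inj (le_antisymm b h1.1))

noncomputable def vs (a : Z) (c : Y) (b : Z) : Y := if S c b then oth c b else oth c a
def Pop (a b : Z) (o : Y × Y) : Prop := S o.1 a ∧ pop o.1 (vs a o.1 b) o.2
def One (a b : Z) (o : Y × Y) : Prop := S o.1 a ∧ one o.1 (oth o.1 a) (vs a o.1 b) o.2
def MB (a : Z) (κ : Y × Y → ℕ) (b : Z) : Prop :=
  Rel b a ∧ ∀ c, S c a → sm κ c (oth c a) (vs a c b)
noncomputable def enc (a b : Z) (κ : Y × Y → ℕ) (o : Y × Y) : ℕ :=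
  if Pop a b o then 2 * κ o + (if One a b o then 1 else 0) else κ o
noncomputable def dec (a b : Z) (κ : Y × Y → ℕ) (o : Y × Y) : ℕ :=
  if Pop a b o then κ o / 2 else κ o

theorem vs_aj {a b : Z} {c : Y} (h : S c a) : aj c (vs a c b) := by
  unfold vs; split_ifs with h1
  · exact h1.aj
  · exact h.aj
theorem MB_enc {a b : Z} (h : Rel b a) (κ : Y × Y → ℕ) : MB a (enc a b κ) b :=
  ⟨h, fun c hc v' hv => by
    have h1 : Pop a b (c, v') := ⟨hc, hv⟩
    have h2 : One a b (c, v') ↔ one c (oth c a) (vs a c b) v' := ⟨fun h => h.2, fun h => ⟨hc, h⟩⟩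
    rw [enc, if_pos h1, ← h2, Nat.odd_iff]
    split_ifs with h3 <;> simp [h3] <;> omega⟩
theorem dec_enc (a b : Z) (κ : Y × Y → ℕ) : dec a b (enc a b κ) = κ := by
  ext o; unfold dec enc; split_ifs <;> omega
theorem MB.enc_dec {a b : Z} {κ : Y × Y → ℕ} (h : MB a κ b) : enc a b (dec a b κ) = κ := by
  ext o
  simp only [dec, enc]
  split_ifs with h1 h2
  · have := Nat.odd_iff.1 ((h.2 _ h1.1 _ h1.2).2 h2.2)
    simp only [Prod.mk.eta] at this; omega
  · have : ¬ Odd (κ o) := fun h3 => h2 ⟨h1.1, (h.2 _ h1.1 _ h1.2).1 h3⟩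
    rw [Nat.odd_iff] at this; omega
  · rfl
theorem MB.uniq {a b b' : Z} {κ : Y × Y → ℕ} (h : MB a κ b) (h' : MB a κ b') : b = b' := by
  have e : ∀ c, S c a → vs a c b = vs a c b' := fun c hc =>
    sm_uniq (vs_aj hc) (vs_aj hc) (h.2 c hc) (h'.2 c hc)
  obtain ⟨c, h1, h2⟩ := h.1
  obtain ⟨c', h3, h4⟩ := h'.1
  by_cases h5 : S c b'
  · exact h1.eq h5 (by simpa [vs, h1, h5] using e c h2)
  · have h6 : b = a := h1.eq h2 (by simpa [vs, h1, h5] using e c h2)
    subst h6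
    exact h4.eq h3 (by simpa [vs, h3, h4] using e c' h4)

@[ext] structure G where
  y : Finset Z
  κ : Y × Y → ℕ
  fin : (Function.support κ).Finite
  ind : ∀ z ∈ y, ∀ z' ∈ y, Rel z z' → z = z'

def Rm (a : Z) (u u' : G) : Prop := ∃ b ∈ u.y, Rel b a ∧ (∀ z ∈ u.y, Rel z a → z = b) ∧
  u'.y = u.y.erase b ∧ u'.κ = enc a b u.κ
def Ins (a : Z) (u : G) (b : Z) : Prop :=
  MB a u.κ b ∧ (∀ z ∈ u.y, ¬ Rel z a) ∧ ∀ z ∈ u.y, ¬ Rel z b

theorem Rm.ins {a : Z} {u u' : G} (h : Rm a u u') :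
    ∃ b, Ins a u' b ∧ u.y = insert b u'.y ∧ u.κ = dec a b u'.κ := by
  obtain ⟨b, h1, h2, h3, h4, h5⟩ := h
  refine ⟨b, ⟨h5 ▸ MB_enc h2 _, fun z hz h => ?_, fun z hz h => ?_⟩,
    by rw [h4, Finset.insert_erase h1], by rw [h5, dec_enc]⟩ <;>
    rw [h4, Finset.mem_erase] at hz
  · exact hz.1 (h3 z hz.2 h)
  · exact hz.1 (u.ind z hz.2 b h1 h)
theorem Rm.func {a : Z} {u u1 u2 : G} (h : Rm a u u1) (h' : Rm a u u2) : u1 = u2 := by
  obtain ⟨b, h1, h2, h3, h4, h5⟩ := h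
  obtain ⟨b', h1', h2', -, h4', h5'⟩ := h'
  obtain rfl := h3 b' h1' h2'
  exact G.ext (h4.trans h4'.symm) (h5.trans h5'.symm)
theorem Rm.inj {a : Z} {u u1 u2 : G} (h : Rm a u1 u) (h' : Rm a u2 u) : u1 = u2 := by
  obtain ⟨b, h1, h2, h3⟩ := h.ins
  obtain ⟨b', h1', h2', h3'⟩ := h'.ins
  obtain rfl := h1.1.uniq h1'.1
  exact G.ext (h2.trans h2'.symm) (h3.trans h3'.symm)
theorem Rm.disj {a : Z} {u u1 u2 : G} (h : Rm a u1 u) (h' : Rm a u u2) : False := by
  obtain ⟨b, h1, -⟩ := h.ins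
  obtain ⟨b', h1', h2', -⟩ := h'
  exact h1.2.1 b' h1' h2'
theorem ex_rm {a b : Z} {u : G} (h1 : b ∈ u.y) (h2 : Rel b a) (h3 : ∀ z ∈ u.y, Rel z a → z = b) :
    ∃ u', Rm a u u' ∧ u'.y = u.y.erase b ∧ u'.κ = enc a b u.κ := by
  refine ⟨⟨u.y.erase b, enc a b u.κ, ?_, fun z hz z' hz' => u.ind z (Finset.mem_of_mem_erase hz)
    z' (Finset.mem_of_mem_erase hz')⟩, ⟨b, h1, h2, h3, rfl, rfl⟩, rfl, rfl⟩
  refine (u.fin.union (Set.toFinite {(a.a, vs a a.a b), (a.a, oth a.a a), (a.b, vs a a.b b),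
    (a.b, oth a.b a)})).subset fun o ho => ?_
  by_cases h : One a b o
  · right
    obtain ⟨c, v⟩ := o
    obtain ⟨h4 | h4, -, ⟨h5, -⟩ | ⟨h5, -⟩⟩ := h <;> dsimp only at h4 h5 <;> subst h4 <;> simp [h5]
  · left
    intro h4
    exact ho (by simp [enc, h, h4])
theorem Ins.ex {a b : Z} {u : G} (h : Ins a u b) :
    ∃ u', Rm a u' u ∧ u'.y = insert b u.y ∧ u'.κ = dec a b u.κ := by
  have hb : b ∉ u.y := fun h1 => h.2.2 b h1 (Rel_refl b)
  refine ⟨⟨insert b u.y, dec a b u.κ, u.fin.subset fun o ho h4 => ho (by simp [dec, h4]),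
    fun z hz z' hz' h1 => ?_⟩, ⟨b, Finset.mem_insert_self _ _, h.1.1, fun z hz h1 => ?_,
    (Finset.erase_insert hb).symm, h.1.enc_dec.symm⟩, rfl, rfl⟩
  · rcases Finset.mem_insert.1 hz with e | e <;> rcases Finset.mem_insert.1 hz' with e' | e'
    · rw [e, e']
    · exact absurd (e ▸ h1.symm) (h.2.2 _ e')
    · exact absurd (e' ▸ h1) (h.2.2 _ e)
    · exact u.ind z e z' e' h1
  · exact (Finset.mem_insert.1 hz).resolve_right fun hz => h.2.1 z hz h1

noncomputable def L (a : Z) (u : G) : G :=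
  if h : ∃ u', Rm a u u' then h.choose else if h : ∃ u', Rm a u' u then h.choose else u

theorem Rm.L1 {a : Z} {u u' : G} (h : Rm a u u') : L a u = u' := by
  have h1 : ∃ u', Rm a u u' := ⟨_, h⟩
  rw [L, dif_pos h1]; exact h1.choose_spec.func h
theorem Rm.L2 {a : Z} {u u' : G} (h : Rm a u' u) : L a u = u' := by
  have h1 : ∃ u', Rm a u' u := ⟨_, h⟩
  rw [L, dif_neg (fun ⟨_, h2⟩ => h.disj h2), dif_pos h1]; exact h1.choose_spec.inj h
theorem L_cases (a : Z) (u : G) : Rm a u (L a u) ∨ Rm a (L a u) u ∨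
    (L a u = u ∧ (∀ u', ¬ Rm a u u') ∧ ∀ u', ¬ Rm a u' u) := by
  by_cases h : ∃ u', Rm a u u'
  · obtain ⟨u', h⟩ := h; exact Or.inl (h.L1 ▸ h)
  by_cases h' : ∃ u', Rm a u' u
  · obtain ⟨u', h'⟩ := h'; exact Or.inr (Or.inl (h'.L2 ▸ h'))
  exact Or.inr (Or.inr ⟨by rw [L, dif_neg h, dif_neg h'], not_exists.1 h, not_exists.1 h'⟩)
theorem L_L (a : Z) (u : G) : L a (L a u) = u := by
  rcases L_cases a u with h | h | h
  · exact h.L2
  · exact h.L1
  · rw [h.1, h.1]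

end Pool.Agent.H39.RC
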