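import Mathlib
import Pool.Agent.H39.RC1

set_option autoImplicit false

namespace Pool.Agent.H39.RC
open Set Filter Topology Classical

def near (k : ℕ) (z0 z : Z) : Prop := z = z0 ∨ (z0.a = z0.b ∧ S z0.a z ∧ A k z0.a (oth z0.a z))
def Small (P : Finset Y) (k : ℕ) (o : Y × Y) : Prop := adj o.1 o.2 ∧ (k ≤ lev o.1 ∨
  (A k o.1 o.2 ∧ ∀ p ∈ P, p ≠ o.1 → ∃ m, A m o.1 o.2 ∧ ¬ A m o.1 p))
def C (P : Finset Y) (k : ℕ) (u0 u : G) : Prop := (∀ o, ¬ Small P k o → u.κ o = u0.κ o) ∧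
  (∀ z ∈ u.y, k ≤ lev z.b ∨ ∃ z0 ∈ u0.y, near k z0 z) ∧ ∀ z0 ∈ u0.y, ∃ z ∈ u.y, near k z0 z
def Sep (Q : Finset Y) (k : ℕ) : Prop :=
  (∀ x ∈ Q, ∀ w ∈ Q, w ≠ x → ¬ A k x w) ∧ ∀ x ∈ Q, lev x + 3 ≤ k
def In (Q : Finset Y) (z : Z) : Prop := ∀ c, S c z → c ∈ Q

theorem ev_Sep (Q : Finset Y) : ∀ᶠ k in atTop, Sep Q k := by
  refine Eventually.and ?_ ?_ <;> simp only [eventually_all_finset]
  · intro x _ w _
    by_cases h : w = x
    · exact Eventually.of_forall fun _ h' => absurd h h'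
    · exact (ev_sep h).mono fun _ h _ => h
  · exact fun x _ => eventually_ge_atTop _
theorem near.mono {k k' : ℕ} {z0 z : Z} (h : near k z0 z) (hk : k' ≤ k) : near k' z0 z :=
  h.imp_right fun h => ⟨h.1, h.2.1, h.2.2.mono hk⟩
theorem Small.mono {P P' : Finset Y} {k k' : ℕ} {o : Y × Y} (h : Small P k o) (hP : P' ⊆ P)
    (hk : k' ≤ k) : Small P' k' o :=
  ⟨h.1, h.2.imp hk.trans fun h => ⟨h.1.mono hk, fun p hp => h.2 p (hP hp)⟩⟩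
theorem C.mono {P P' : Finset Y} {k k' : ℕ} {u0 u : G} (h : C P k u0 u) (hP : P' ⊆ P)
    (hk : k' ≤ k) : C P' k' u0 u :=
  ⟨fun o ho => h.1 o fun h' => ho (h'.mono hP hk), fun z hz => (h.2.1 z hz).imp hk.trans
    fun ⟨z0, a, b⟩ => ⟨z0, a, b.mono hk⟩, fun z0 hz => (h.2.2 z0 hz).imp fun _ h =>
    ⟨h.1, h.2.mono hk⟩⟩
theorem C_refl (P : Finset Y) (k : ℕ) (u : G) : C P k u u :=
  ⟨fun _ _ => rfl, fun z hz => Or.inr ⟨z, hz, Or.inl rfl⟩, fun z hz => ⟨z, hz, Or.inl rfl⟩⟩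

theorem near.S {k : ℕ} {z0 z : Z} {c : Y} (h : near k z0 z) (hc : S c z0) : S c z := by
  rcases h with rfl | ⟨h1, h2, -⟩
  · exact hc
  · obtain rfl : z0.a = c := hc.elim id fun h => h1.trans h
    exact h2
theorem near.new {k : ℕ} {z0 z : Z} {c : Y} (h : near k z0 z) (hc : RC.S c z) :
    RC.S c z0 ∨ (z0.a = z0.b ∧ A k z0.a c ∧ adj z0.a c) := by
  rcases h with rfl | ⟨h1, h2, h3⟩
  · exact Or.inl hc
  · by_cases e : c = z0.a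
    · exact Or.inl (Or.inl e.symm)
    · have := h2.oth_of hc e
      exact Or.inr ⟨h1, this ▸ h3, (this ▸ h2.aj).resolve_left e⟩
theorem near.lev {Q : Finset Y} {k k' : ℕ} {z0 z : Z} {c : Y} (h : near k' z0 z) (hs : Sep Q k)
    (hz : In Q z0) (hc : RC.S c z) : lev c + 2 ≤ k := by
  rcases h.new hc with h | ⟨-, -, h⟩
  · have := hs.2 c (hz c h); omega
  · have := hs.2 _ (hz _ (Or.inl rfl)); unfold adj at h; omega
theorem near.S_iff {Q : Finset Y} {k : ℕ} {z0 z : Z} {c : Y} (h : near k z0 z) (hs : Sep Q k)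
    (hz : In Q z0) (hc : c ∈ Q) : RC.S c z ↔ RC.S c z0 :=
  ⟨fun h1 => (h.new h1).resolve_right fun ⟨_, a, b⟩ => hs.1 _ (hz _ (Or.inl rfl)) c hc b.ne a, h.S⟩
theorem rel_iff {Q : Finset Y} {k : ℕ} {z0 z w0 w : Z} (h : near k z0 z) (h' : near k w0 w)
    (hs : Sep Q k) (hz : In Q z0) (hw : In Q w0) : Rel z w ↔ Rel z0 w0 := by
  refine ⟨fun ⟨c, h1, h2⟩ => ?_, fun ⟨c, h1, h2⟩ => ⟨c, h.S h1, h'.S h2⟩⟩
  rcases h.new h1 with a | ⟨-, a, -⟩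
  · exact ⟨c, a, (h'.S_iff hs hw (hz c a)).1 h2⟩
  rcases h'.new h2 with b | ⟨-, b, -⟩
  · exact ⟨c, (h.S_iff hs hz (hw c b)).1 h1, b⟩
  refine ⟨z0.a, Or.inl rfl, Or.inl ?_⟩
  by_contra e
  exact hs.1 _ (hz _ (Or.inl rfl)) _ (hw _ (Or.inl rfl)) e (a.trans b.symm)
theorem not_rel_high {Q : Finset Y} {k : ℕ} {z w0 w : Z} (h : k ≤ lev z.b) (h' : near k w0 w)
    (hs : Sep Q k) (hw : In Q w0) : ¬ Rel z w := fun ⟨c, h1, h2⟩ => by
  have := h'.lev hs hw h2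
  have := h1.lev
  omega

def ap (k : ℕ) (c v0 v : Y) : Prop := v = v0 ∨ (v0 = c ∧ A k c v)

theorem oth_ap {k : ℕ} {z0 z : Z} {c : Y} (h : near k z0 z) (hc : S c z0) :
    ap k c (oth c z0) (oth c z) := by
  rcases h with rfl | ⟨h1, h2, h3⟩
  · exact Or.inl rfl
  · obtain rfl : z0.a = c := hc.elim id fun h => h1.trans h
    exact Or.inr ⟨by simp [oth, h1], h3⟩
theorem ap.facts {k : ℕ} {c v0 v v' : Y} (h : ap k c v0 v) (h' : ¬ A k c v') :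
    (v' = v ↔ v' = v0) ∧ (Kk c v' ≤ Kk c v ↔ Kk c v' ≤ Kk c v0) ∧
      (Kk c v' < Kk c v ↔ Kk c v' < Kk c v0) := by
  rcases h with rfl | ⟨rfl, h⟩
  · simp
  · have a := Kk_lt h' h
    have b := Kk_lt h' (A_refl _ _)
    exact ⟨iff_of_false (fun e => h' (e ▸ h)) fun e => h' (e ▸ A_refl _ _), iff_of_true a.le b.le,
      iff_of_true a b⟩
theorem tr {k : ℕ} {c v0 v d0 d v' : Y} (h : ap k c v0 v) (hd : ap k c d0 d) (h' : ¬ A k c v') :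
    (pop c v v' ↔ pop c v0 v') ∧ (one c d v v' ↔ one c d0 v0 v') := by
  obtain ⟨a1, a2, a3⟩ := h.facts h'
  obtain ⟨b1, -, -⟩ := hd.facts h'
  have e : ∀ d v, one c d v v' ↔ adj c v' ∧ ((v' = v ∧ ¬ v' = d) ∨ (v' = d ∧ Kk c v' < Kk c v)) :=
    fun d v => by unfold one; grind
  exact ⟨by rw [pop, pop, a2], by rw [e, e, a1, b1, a3]⟩
theorem sm_tr {k : ℕ} {κ κ0 : Y × Y → ℕ} {c v d0 d : Y} (hv : ¬ A k c v) (hd : ap k c d0 d)
    (h : ∀ v', ¬ A k c v' → κ (c, v') = κ0 (c, v')) : sm κ c d v ↔ sm κ0 c d0 v :=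
  forall₂_congr fun v' hp => by
    have := Kk_coarse hp.2 hv
    rw [h v' this, (tr (Or.inl rfl) hd this).2]
theorem vs_other {a b : Z} {c c0 : Y} (h1 : S c a) (h2 : S c0 a) (h3 : S c0 b) (h : c0 ≠ c) :
    vs a c b = c0 ∧ oth c a = c0 := by
  refine ⟨?_, h1.oth_of h2 h⟩
  unfold vs; split_ifs with h4
  · exact h4.oth_of h3 h
  · exact h1.oth_of h2 h

section
variable {Q : Finset Y} {k : ℕ} {a0 a : Z} {κ0 κ : Y × Y → ℕ} (hs : Sep Q k) (ha : near k a0 a)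
  (ia : In Q a0) (hκ : ∀ o, ¬ Small Q k o → κ o = κ0 o) (h0 : ∀ o, κ0 o ≠ 0 → o.1 ∈ Q)
include hs hκ in
theorem F2 {c : Y} (hc : c ∈ Q) (v' : Y) (h : ¬ A k c v') : κ (c, v') = κ0 (c, v') :=
  hκ _ fun h1 => h1.2.elim (fun h2 => by have := hs.2 c hc; dsimp only at h2; omega) fun h2 => h h2.1

include hs ha ia h0 in
theorem F3 {c : Y} (h1 : S c a) (h2 : ¬ S c a0) (v' : Y) : κ0 (c, v') = 0 :=
  by_contra fun h => h2 ((ha.S_iff hs ia (h0 _ h)).1 h1)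

include hs ha ia hκ h0 in
theorem PO {P : Finset Y} {k1 : ℕ} (hP : P ⊆ Q) (hk : k1 ≤ k) {b0 b : Z} (hb : near k b0 b)
    (ib : In Q b0) (hr : Rel b0 a0) (o : Y × Y) (ho : ¬ Small P k1 o) :
    enc a b κ o = enc a0 b0 κ0 o ∧ dec a b κ o = dec a0 b0 κ0 o := by
  have e := hκ o fun h => ho (h.mono hP hk)
  obtain ⟨c, v'⟩ := o
  by_cases h1 : adj c v'
  swap
  · have n1 : ¬ Pop a b (c, v') := fun h => h1 h.2.1
    have n2 : ¬ Pop a0 b0 (c, v') := fun h => h1 h.2.1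
    simp [enc, dec, n1, n2, e]
  by_cases h2 : S c a0
  · have h3 : ¬ A k c v' := fun h => ho ⟨h1, Or.inr ⟨h.mono hk, fun p hp e =>
      ⟨k, h, hs.1 c (ia c h2) p (hP hp) e⟩⟩⟩
    have h4 : ap k c (vs a0 c b0) (vs a c b) := by
      unfold vs
      rw [hb.S_iff hs ib (ia c h2)]
      split_ifs with h5
      · exact oth_ap hb h5
      · exact oth_ap ha h2
    obtain ⟨t1, t2⟩ := tr h4 (oth_ap ha h2) h3
    have n1 : Pop a b (c, v') ↔ Pop a0 b0 (c, v') := and_congr (iff_of_true (ha.S h2) h2) t1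
    have n2 : One a b (c, v') ↔ One a0 b0 (c, v') := and_congr (iff_of_true (ha.S h2) h2) t2
    simp only [enc, dec, n1, n2, e, and_self]
  have n2 : ¬ Pop a0 b0 (c, v') := fun h => h2 h.1
  by_cases h3 : S c a
  swap
  · have n1 : ¬ Pop a b (c, v') := fun h => h3 h.1
    simp [enc, dec, n1, n2, e]
  have h4 := F3 hs ha ia h0 h3 h2 v'
  obtain ⟨c0, r1, r2⟩ := hr
  obtain ⟨t1, t2⟩ := vs_other h3 (ha.S r2) (hb.S r1) (fun e => h2 (e ▸ r2))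
  have n1 : ¬ One a b (c, v') := fun h => by simpa [one, t1, t2] using h.2
  simp [enc, dec, n1, n2, e, h4]

include hs ha ia hκ h0 in
theorem M1 (hf : (Function.support κ).Finite) {b0 : Z} (ib : In Q b0) (h : MB a0 κ0 b0) :
    ∃ b, MB a κ b ∧ near k b0 b := by
  obtain ⟨c0, r1, r2⟩ := h.1
  have hq := ia c0 r2
  have h1 := h.2 c0 r2
  rw [vs, if_pos r1] at h1
  have hd := oth_ap ha r2
  obtain ⟨v, v1, v2, v3⟩ : ∃ v, aj c0 v ∧ sm κ c0 (oth c0 a) v ∧ ap k c0 (oth c0 b0) v := by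
    by_cases e : oth c0 b0 = c0
    · obtain ⟨v, v1, v2, -⟩ := sm_ex hf (ha.S r2).aj
      refine ⟨v, v1, v2, Or.inr ⟨e, by_contra fun h2 => h2 ?_⟩⟩
      rw [sm_uniq v1 r1.aj ((sm_tr h2 hd (F2 hs hκ hq)).1 v2) h1, e]
      exact A_refl _ _
    · exact ⟨_, r1.aj, (sm_tr (hs.1 c0 hq _ (ib _ r1.oth) e) hd (F2 hs hκ hq)).2 h1, Or.inl rfl⟩
  refine ⟨ed c0 v, ⟨⟨c0, S_ed _ _, ha.S r2⟩, fun c hc => ?_⟩, ?_⟩
  · by_cases e : c0 = c
    · subst e; rwa [vs, if_pos (S_ed _ _), v1.oth]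
    obtain ⟨t1, t2⟩ := vs_other hc (ha.S r2) (S_ed c0 v) e
    rw [t1, t2]
    by_cases h2 : S c a0
    · have h3 := h.2 c h2
      obtain ⟨t3, t4⟩ := vs_other h2 r2 r1 e
      rw [t3, t4] at h3
      exact (sm_tr (hs.1 c (ia c h2) c0 hq e) (Or.inl rfl) (F2 hs hκ (ia c h2))).2 h3
    · intro v' hv
      have h3 : κ (c, v') = 0 := by
        rw [← F3 hs ha ia h0 hc h2 v']
        refine hκ _ fun h4 => h4.2.elim (fun h5 => ?_) fun h5 => ?_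
        · have := ha.lev hs ia hc; dsimp only at h5; omega
        · obtain ⟨m, h6, h7⟩ := h5.2 c0 hq e
          exact Kk_coarse hv.2 h7 h6
      simp [h3, one]
  · rcases v3 with rfl | ⟨e, v3⟩
    · exact Or.inl r1.ed
    · have h2 : b0.a = c0 ∧ b0.b = c0 := by
        unfold oth at e; unfold S at r1; split_ifs at e <;> grind
      exact Or.inr ⟨h2.1.trans h2.2.symm, h2.1 ▸ S_ed _ _, by rwa [h2.1, v1.oth]⟩

include hs ha ia hκ in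
theorem M2 (hf : (Function.support κ0).Finite) {b : Z} (h : MB a κ b) : ∃ b0, MB a0 κ0 b0 := by
  obtain ⟨c0, r1, r2⟩ : ∃ c0, S c0 a0 ∧ ∀ c, S c a0 → c0 ≠ c → sm κ0 c c0 c0 := by
    rcases ha with rfl | ⟨h1, -⟩
    · obtain ⟨c0, r1, r2⟩ := h.1
      refine ⟨c0, r2, fun c hc e => ?_⟩
      have h3 := h.2 c hc
      obtain ⟨t3, t4⟩ := vs_other hc r2 r1 e
      rw [t3, t4] at h3
      exact (sm_tr (hs.1 c (ia c hc) c0 (ia c0 r2) e) (Or.inl rfl) (F2 hs hκ (ia c hc))).1 h3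
    · exact ⟨a0.a, Or.inl rfl, fun c hc e => absurd (hc.elim id fun h => h1.trans h) e⟩
  obtain ⟨v, v1, v2, -⟩ := sm_ex hf r1.aj
  refine ⟨ed c0 v, ⟨c0, S_ed _ _, r1⟩, fun c hc => ?_⟩
  by_cases e : c0 = c
  · subst e; rwa [vs, if_pos (S_ed _ _), v1.oth]
  obtain ⟨t1, t2⟩ := vs_other hc r1 (S_ed c0 v) e
  rw [t1, t2]
  exact r2 c hc e
end

theorem ex_Q (P : Finset Y) (k : ℕ) (T : Finset Z) (u : G) : ∃ Q k', P ⊆ Q ∧ k ≤ k' ∧ Sep Q k' ∧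
    (∀ z ∈ T, In Q z) ∧ (∀ z ∈ u.y, In Q z) ∧ ∀ o, u.κ o ≠ 0 → o.1 ∈ Q := by
  set Q := P ∪ (T ∪ u.y).biUnion (fun z => {z.a, z.b}) ∪ u.fin.toFinset.image Prod.fst with hQ
  have h1 : ∀ z ∈ T ∪ u.y, In Q z := fun z hz c hc => Finset.mem_union_left _
    (Finset.mem_union_right _ (Finset.mem_biUnion.2 ⟨z, hz, by rcases hc with h | h <;> simp [h]⟩))
  obtain ⟨k', a, b⟩ := ((eventually_ge_atTop k).and (ev_Sep Q)).exists
  exact ⟨Q, k', Finset.subset_union_left.trans Finset.subset_union_left, a, b,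
    fun z hz => h1 z (Finset.mem_union_left _ hz), fun z hz => h1 z (Finset.mem_union_right _ hz),
    fun o ho => Finset.mem_union_right _ (Finset.mem_image_of_mem _ (by simpa using ho))⟩

theorem lemA (a0 : Z) (u0 : G) (P : Finset Y) (k : ℕ) : ∃ P' k', ∀ a u, near k' a0 a →
    C P' k' u0 u → C P k (L a0 u0) (L a u) := by
  obtain ⟨b1, hb1⟩ : ∃ b1, ∀ b0, MB a0 u0.κ b0 → b0 = b1 := by
    by_cases h : ∃ b, MB a0 u0.κ b
    · obtain ⟨b, h⟩ := h; exact ⟨b, fun _ h' => h'.uniq h⟩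
    · exact ⟨a0, fun b h' => absurd ⟨b, h'⟩ h⟩
  obtain ⟨Q, k', hP, hk, hs, i1, iy, h0⟩ := ex_Q P k {a0, b1} u0
  have ia := i1 a0 (by simp)
  have ib := i1 b1 (by simp)
  refine ⟨Q, k', fun a u ha hu => ?_⟩
  have c2 : ∀ z ∈ u.y, ∀ w0 w, near k' w0 w → In Q w0 → Rel z w →
      ∃ z0 ∈ u0.y, near k' z0 z ∧ Rel z0 w0 := fun z hz w0 w hw iw h => by
    obtain ⟨z0, a, b⟩ := (hu.2.1 z hz).resolve_left fun h1 => not_rel_high h1 hw hs iw h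
    exact ⟨z0, a, b, (rel_iff b hw hs (iy _ a) iw).1 h⟩
  have c3 : ∀ z0 ∈ u0.y, ∀ z0' ∈ u0.y, ∀ z, near k' z0 z → near k' z0' z → z0 = z0' :=
    fun z0 a z0' b z c d => u0.ind _ a _ b ((rel_iff c d hs (iy _ a) (iy _ b)).1 (Rel_refl _))
  have c4 : ∀ z0, ∀ z ∈ u.y, ∀ z' ∈ u.y, near k' z0 z → near k' z0 z' → z = z' :=
    fun z0 z a z' b c d => u.ind _ a _ b ⟨z0.a, c.S (Or.inl rfl), d.S (Or.inl rfl)⟩
  rcases L_cases a0 u0 with h | h | ⟨h, n1, n2⟩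
  · obtain ⟨b0, h1, h2, h3, h4, h5⟩ := h
    obtain ⟨b, hb, hbn⟩ := hu.2.2 b0 h1
    obtain ⟨u', e1, e2, e3⟩ := ex_rm hb ((rel_iff hbn ha hs (iy _ h1) ia).2 h2) fun z hz hr => by
      obtain ⟨z0, a, b, c⟩ := c2 z hz _ _ ha ia hr
      exact c4 z0 _ hz _ hb b (h3 z0 a c ▸ hbn)
    rw [e1.L1]
    refine ⟨fun o ho => ?_, fun z hz => ?_, fun z0 hz => ?_⟩
    · rw [e3, h5]; exact (PO hs ha ia hu.1 h0 hP hk hbn (iy _ h1) h2 o ho).1
    · rw [e2, Finset.mem_erase] at hz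
      refine (hu.2.1 z hz.2).imp hk.trans fun ⟨z0, a, b⟩ => ⟨z0, ?_, b.mono hk⟩
      rw [h4, Finset.mem_erase]
      exact ⟨fun e => hz.1 (c4 z0 _ hz.2 _ hb b (e ▸ hbn)), a⟩
    · rw [h4, Finset.mem_erase] at hz
      obtain ⟨z, a, b⟩ := hu.2.2 z0 hz.2
      refine ⟨z, ?_, b.mono hk⟩
      rw [e2, Finset.mem_erase]
      exact ⟨fun e => hz.1 (c3 _ hz.2 _ h1 z b (e ▸ hbn)), a⟩
  · obtain ⟨b0, h1, h2, h3⟩ := h.ins
    obtain rfl := hb1 b0 h1.1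
    obtain ⟨b, hb, hbn⟩ := M1 hs ha ia hu.1 h0 u.fin ib h1.1
    obtain ⟨u', e1, e2, e3⟩ := Ins.ex (a := a) (u := u) (b := b) ⟨hb, fun z hz hr => by
      obtain ⟨z0, a, -, c⟩ := c2 z hz _ _ ha ia hr
      exact h1.2.1 z0 a c, fun z hz hr => by
      obtain ⟨z0, a, -, c⟩ := c2 z hz _ _ hbn ib hr
      exact h1.2.2 z0 a c⟩
    rw [e1.L2]
    refine ⟨fun o ho => ?_, fun z hz => ?_, fun z0 hz => ?_⟩
    · rw [e3, h3]; exact (PO hs ha ia hu.1 h0 hP hk hbn ib h1.1.1 o ho).2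
    · rw [e2, Finset.mem_insert] at hz
      rw [h2]
      rcases hz with rfl | hz
      · exact Or.inr ⟨b0, Finset.mem_insert_self _ _, hbn.mono hk⟩
      · exact (hu.2.1 z hz).imp hk.trans fun ⟨z0, a, b⟩ =>
          ⟨z0, Finset.mem_insert_of_mem a, b.mono hk⟩
    · rw [h2, Finset.mem_insert] at hz
      rw [e2]
      rcases hz with rfl | hz
      · exact ⟨b, Finset.mem_insert_self _ _, hbn.mono hk⟩
      · obtain ⟨z, a, b⟩ := hu.2.2 z0 hz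
        exact ⟨z, Finset.mem_insert_of_mem a, b.mono hk⟩
  · rcases L_cases a u with h' | h' | h'
    · obtain ⟨b, h1, h2, h3, -⟩ := h'
      obtain ⟨b0, a1, a2, a3⟩ := c2 b h1 _ _ ha ia h2
      obtain ⟨u', e, -⟩ := ex_rm a1 a3 fun z0 hz hr => by
        obtain ⟨z, a, b⟩ := hu.2.2 z0 hz
        exact c3 _ hz _ a1 z b (h3 z a ((rel_iff b ha hs (iy _ hz) ia).2 hr) ▸ a2)
      exact absurd e (n1 u')
    · obtain ⟨b, h1, -⟩ := h'.ins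
      obtain ⟨b0, h2⟩ := M2 hs ha ia hu.1 u0.fin h1.1
      obtain rfl := hb1 b0 h2
      obtain ⟨b', hb, hbn⟩ := M1 hs ha ia hu.1 h0 u.fin ib h2
      obtain rfl := hb.uniq h1.1
      obtain ⟨u', e, -⟩ := Ins.ex (a := a0) (u := u0) (b := b0) ⟨h2, fun z0 hz hr => by
        obtain ⟨z, a, b⟩ := hu.2.2 z0 hz
        exact h1.2.1 z a ((rel_iff b ha hs (iy _ hz) ia).2 hr), fun z0 hz hr => by
        obtain ⟨z, a, b⟩ := hu.2.2 z0 hz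
        exact h1.2.2 z a ((rel_iff b hbn hs (iy _ hz) ib).2 hr)⟩
      exact absurd e (n2 u')
    · rw [h, h'.1]; exact hu.mono hP hk

theorem lemB {P Q : Finset Y} {k : ℕ} {a : Z} {u0 u : G} (hs : Sep Q k) (iy : ∀ z ∈ u0.y, In Q z)
    (ha : k + 2 ≤ lev a.b) (hu : C P k u0 u) : C P k u0 (L a u) := by
  have np : ∀ b o, ¬ Small P k o → ¬ Pop a b o := fun b o ho h =>
    ho ⟨h.2.1, Or.inl (by have := h.1.lev; omega)⟩
  rcases L_cases a u with h | h | h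
  · obtain ⟨b, h1, ⟨c, r1, r2⟩, -, h4, h5⟩ := h
    refine ⟨fun o ho => by rw [h5, enc, if_neg (np b o ho), hu.1 o ho], fun z hz => hu.2.1 z
      (Finset.mem_of_mem_erase (h4 ▸ hz)), fun z0 hz => ?_⟩
    obtain ⟨z, a1, a2⟩ := hu.2.2 z0 hz
    refine ⟨z, h4 ▸ Finset.mem_erase.2 ⟨?_, a1⟩, a2⟩
    rintro rfl
    have := a2.lev hs (iy _ hz) r1
    have := r2.lev
    omega
  · obtain ⟨b, ⟨⟨⟨c, r1, r2⟩, -⟩, -⟩, h4, h5⟩ := h.ins
    refine ⟨fun o ho => by rw [h5, dec, if_neg (np b o ho), hu.1 o ho], fun z hz => ?_,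
      fun z0 hz => (hu.2.2 z0 hz).imp fun z h => ⟨h4 ▸ Finset.mem_insert_of_mem h.1, h.2⟩⟩
    rw [h4, Finset.mem_insert] at hz
    rcases hz with rfl | hz
    · have := r1.lev
      have := r2.lev
      exact Or.inl (by omega)
    · exact hu.2.1 z hz
  · rw [h.1]; exact hu

end Pool.Agent.H39.RC
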