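import Mathlib
import Pool.Agent.H39.RC2

set_option autoImplicit false

namespace Pool.Agent.H39.RC
open Set Filter Topology Classical

noncomputable def F (l : List Z) (u : G) : G := l.foldl (fun u a => L a u) u

theorem F_rev (l : List Z) (u : G) : F l.reverse (F l u) = u := by
  induction l generalizing u with
  | nil => rfl
  | cons a l ih =>
    have := ih (L a u)
    simp only [F, List.reverse_cons, List.foldl_append, List.foldl_cons, List.foldl_nil] at this ⊢
    rw [this, L_L]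

theorem F_y (l : List Z) (u : G) (h : l.Nodup) (h' : ∀ z, z ∈ l ↔ z ∈ u.y) : (F l u).y = ∅ := by
  induction l generalizing u with
  | nil => exact Finset.eq_empty_of_forall_notMem fun z hz => by simpa using (h' z).2 hz
  | cons a l ih =>
    have ha := (h' a).1 (by simp)
    obtain ⟨u', e1, e2, -⟩ := ex_rm ha (Rel_refl a) fun z hz hr => u.ind z hz a ha hr
    rw [List.nodup_cons] at h
    refine ih (L a u) h.2 fun z => ?_
    rw [e1.L1, e2, Finset.mem_erase, ← h', List.mem_cons]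
    exact ⟨fun hz => ⟨fun e => h.1 (e ▸ hz), Or.inr hz⟩, fun hz => hz.2.resolve_left hz.1⟩

noncomputable instance : LinearOrder Z :=
  LinearOrder.lift' (fun z => (toLex (toLex z.a, toLex z.b) : Lex Y ×ₗ Lex Y)) fun z z' h => by
    simp only [EmbeddingLike.apply_eq_iff_eq, Prod.mk.injEq] at h
    exact Z.ext h.1 h.2

theorem near.key {k : ℕ} {z0 z : Z} (h : near k z0 z) : A k z0.a z.a := by
  rcases h with rfl | ⟨-, -, h⟩
  · exact A_refl _ _
  · unfold oth at h; split_ifs at h with e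
    · exact e ▸ A_refl _ _
    · exact h
theorem lt_near {k : ℕ} {z0 z w0 w : Z} (h : near k z0 z) (h' : near k w0 w)
    (hs : ¬ A k z0.a w0.a) (hlt : z0 < w0) : z < w := by
  rcases Prod.Lex.toLex_lt_toLex.1 hlt with ⟨i, h1, h2⟩ | ⟨e, -⟩
  · have hi : i < k := by
      by_contra hc
      exact hs fun j hj => h1 j (show j < i by omega)
    refine Prod.Lex.toLex_lt_toLex.2 (Or.inl ⟨i, fun j hj => ?_, ?_⟩)
    · have hj' : j < k := lt_trans hj hi
      exact (h.key j hj').symm.trans ((h1 j hj).trans (h'.key j hj'))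
    · change z.a i < w.a i
      rw [← h.key i hi, ← h'.key i hi]; exact h2
  · exact absurd (fun j _ => congrFun e j) hs

inductive Mt (k : ℕ) : List Z → List Z → Prop
  | nil : Mt k [] []
  | low {a0 a : Z} {l0 l : List Z} : near k a0 a → Mt k l0 l → Mt k (a0 :: l0) (a :: l)
  | high {a : Z} {l0 l : List Z} : k + 2 ≤ lev a.b → Mt k l0 l → Mt k l0 (a :: l)

theorem Mt.mono {k k' : ℕ} {l0 l : List Z} (h : Mt k l0 l) (hk : k' ≤ k) : Mt k' l0 l := by
  induction h with
  | nil => exact .nil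
  | low a _ ih => exact .low (a.mono hk) ih
  | high a _ ih => exact .high (by omega) ih
theorem Mt.append {k : ℕ} {l0 l m0 m : List Z} (h : Mt k l0 l) (h' : Mt k m0 m) :
    Mt k (l0 ++ m0) (l ++ m) := by
  induction h with
  | nil => exact h'
  | low a _ ih => exact .low a ih
  | high a _ ih => exact .high a ih
theorem Mt.reverse {k : ℕ} {l0 l : List Z} (h : Mt k l0 l) : Mt k l0.reverse l.reverse := by
  induction h with
  | nil => exact .nil
  | low a _ ih => simpa using ih.append (.low a .nil)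
  | high a _ ih => simpa using ih.append (.high a .nil)

theorem mt_of (k k' : ℕ) (hk : k + 2 ≤ k') (l : List Z) : ∀ l0 : List Z, l.Pairwise (· < ·) →
    l0.Pairwise (· < ·) → (∀ z ∈ l, k' ≤ lev z.b ∨ ∃ z0 ∈ l0, near k' z0 z) →
    (∀ z0 ∈ l0, ∃ z ∈ l, near k' z0 z) →
    (∀ z0 ∈ l0, ∀ w0 ∈ l0, ∀ z ∈ l, ∀ w ∈ l, near k' z0 z → near k' w0 w → (z < w ↔ z0 < w0)) →
    (∀ z0 ∈ l0, ∀ z, near k' z0 z → ¬ k' ≤ lev z.b) → Mt k l0 l := by
  induction l with
  | nil =>
    intro l0 _ _ _ h3 _ _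
    rcases l0 with _ | ⟨a, t⟩
    · exact .nil
    · simpa using h3 a (by simp)
  | cons z l ih =>
    intro l0 p1 p2 h2 h3 hm hx
    rw [List.pairwise_cons] at p1
    by_cases hz : k' ≤ lev z.b
    · refine .high (by omega) (ih l0 p1.2 p2 (fun w hw => h2 w (by simp [hw])) (fun z0 h => ?_)
        (fun a b c d e f g h => hm a b c d e (by simp [f]) g (by simp [h])) hx)
      obtain ⟨w, a, b⟩ := h3 z0 h
      exact ⟨w, (List.mem_cons.1 a).resolve_left fun e => hx z0 h w b (e ▸ hz), b⟩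
    obtain ⟨z0, a1, a2⟩ := (h2 z (by simp)).resolve_left hz
    rcases l0 with _ | ⟨h0, t⟩
    · simp at a1
    rw [List.pairwise_cons] at p2
    obtain rfl : z0 = h0 := by
      by_contra e
      obtain ⟨w, b1, b2⟩ := h3 h0 (by simp)
      have := (hm h0 (by simp) z0 a1 w b1 z (by simp) b2 a2).2
        (p2.1 z0 ((List.mem_cons.1 a1).resolve_left e))
      rcases List.mem_cons.1 b1 with rfl | b1
      · exact lt_irrefl _ this
      · exact lt_asymm this (p1.1 w b1)
    refine .low (a2.mono (by omega)) (ih t p1.2 p2.2 (fun w hw => ?_) (fun w0 h => ?_)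
      (fun a b c d e f g h => hm a (by simp [b]) c (by simp [d]) e (by simp [f]) g (by simp [h]))
      fun a b => hx a (by simp [b]))
    · refine (h2 w (by simp [hw])).imp_right fun h => ?_
      obtain ⟨w0, b1, b2⟩ := h
      refine ⟨w0, (List.mem_cons.1 b1).resolve_left fun e => ?_, b2⟩
      exact lt_irrefl _ ((hm z0 a1 z0 a1 z (by simp) w (by simp [hw]) a2 (e ▸ b2)).1 (p1.1 w hw))
    · obtain ⟨w, b1, b2⟩ := h3 w0 (by simp [h])
      refine ⟨w, (List.mem_cons.1 b1).resolve_left fun e => ?_, b2⟩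
      exact lt_irrefl _ ((hm z0 a1 w0 (by simp [h]) z (by simp) z (by simp) a2 (e ▸ b2)).2
        (p2.1 w0 h))

noncomputable def ls (g : G) : List Z := g.y.sort
theorem mem_ls {g : G} {z : Z} : z ∈ ls g ↔ z ∈ g.y := Finset.mem_sort _

theorem mt_ls (g0 : G) (k : ℕ) : ∃ P' k', ∀ g, C P' k' g0 g → Mt k (ls g0) (ls g) := by
  obtain ⟨Q, k', -, hk, hs, -, iy, -⟩ := ex_Q ∅ (k + 2) ∅ g0
  refine ⟨Q, k', fun g hg => mt_of k k' hk _ _ (Finset.sortedLT_sort _).pairwise
    (Finset.sortedLT_sort _).pairwise (by simpa only [mem_ls] using hg.2.1)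
    (by simpa only [mem_ls] using hg.2.2) ?_ fun z0 h z hz => ?_⟩
  · simp only [mem_ls]
    have key : ∀ z0 ∈ g0.y, ∀ w0 ∈ g0.y, ∀ z w, near k' z0 z → near k' w0 w → z0 < w0 → z < w :=
      fun z0 a w0 b z w c d e => lt_near c d (hs.1 _ (iy _ a _ (Or.inl rfl)) _
        (iy _ b _ (Or.inl rfl)) fun h => e.ne (g0.ind _ a _ b ⟨_, Or.inl rfl, Or.inl h⟩)) e
    refine fun z0 a w0 b z c w d e f => ⟨fun h => ?_, key _ a _ b _ _ e f⟩
    rcases lt_trichotomy z0 w0 with h1 | rfl | h1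
    · exact h1
    · exact absurd (g.ind _ c _ d ⟨z0.a, e.S (Or.inl rfl), f.S (Or.inl rfl)⟩) h.ne
    · exact absurd (key _ b _ a _ _ f e h1) h.asymm
  · have := hz.lev hs (iy _ (mem_ls.1 h)) (Or.inr rfl)
    omega

theorem fold (l0 : List Z) : ∀ (u0 : G) (P : Finset Y) (k : ℕ), ∃ P' k', ∀ l u, Mt k' l0 l →
    C P' k' u0 u → C P k (F l0 u0) (F l u) := by
  induction l0 with
  | nil =>
    intro u0 P k
    obtain ⟨Q, k', hP, hk, hs, -, iy, -⟩ := ex_Q P k ∅ u0
    refine ⟨Q, k', fun l => ?_⟩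
    induction l with
    | nil => exact fun u _ h => h.mono hP hk
    | cons a l ih =>
      intro u hm h
      cases hm with
      | high a1 a2 => exact ih _ a2 (lemB hs iy a1 h)
  | cons a0 t IH =>
    intro u0 P k
    obtain ⟨P1, k1, h1⟩ := IH (L a0 u0) P k
    obtain ⟨P2, k2, h2⟩ := lemA a0 u0 P1 k1
    obtain ⟨Q, k', hP, hk, hs, -, iy, -⟩ := ex_Q P2 (max k1 k2) ∅ u0
    refine ⟨Q, k', fun l => ?_⟩
    induction l with
    | nil => exact fun u hm => by cases hm
    | cons a l ih =>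
      intro u hm h
      cases hm with
      | low a1 a2 =>
        exact h1 l (L a u) (a2.mono (by omega)) (h2 _ _ (a1.mono (by omega)) (h.mono hP (by omega)))
      | high a1 a2 => exact ih _ a2 (lemB hs iy a1 h)

noncomputable def T (g u : G) : G := ⟨u.y, fun o => Equiv.swap (g.κ o) 0 (u.κ o),
  (g.fin.union u.fin).subset fun o ho => by
    by_contra h
    simp only [mem_union, Function.mem_support, not_or, not_not] at h
    exact ho (by simp [h.1, h.2]), u.ind⟩
noncomputable def M (g u : G) : G := F (ls g) u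
noncomputable def M' (g u : G) : G := F (ls g).reverse u
noncomputable def q (g u : G) : G := T (M g g) (M g u)
noncomputable def p (g u : G) : G := M' g (T (M g g) u)
def e : G := ⟨∅, 0, by simp, by simp⟩

theorem T_T (g u : G) : T g (T g u) = u := G.ext rfl (funext fun _ => Equiv.swap_apply_self _ _ _)
theorem p_q (g u : G) : p g (q g u) = u := by rw [p, q, T_T]; exact F_rev _ _
theorem q_p (g u : G) : q g (p g u) = u := by
  have := F_rev (ls g).reverse (T (M g g) u)
  rw [List.reverse_reverse] at this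
  show T (M g g) (F (ls g) (F (ls g).reverse (T (M g g) u))) = u
  rw [this, T_T]
theorem q_self (g : G) : q g g = e :=
  G.ext (F_y _ _ (Finset.sort_nodup _ _) fun _ => mem_ls) (funext fun _ => Equiv.swap_apply_left _ _)
theorem p_e (g : G) : p g e = g := by rw [← q_self g, p_q]

def JC (f : G → G → G) : Prop := ∀ g0 u0 P k, ∃ P' k', ∀ g u, C P' k' g0 g → C P' k' u0 u →
  C P k (f g0 u0) (f g u)

theorem JC_F (r : List Z → List Z) (hr : ∀ k l0 l, Mt k l0 l → Mt k (r l0) (r l)) :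
    JC fun g u => F (r (ls g)) u := fun g0 u0 P k => by
  obtain ⟨P1, k1, h1⟩ := fold (r (ls g0)) u0 P k
  obtain ⟨P2, k2, h2⟩ := mt_ls g0 k1
  exact ⟨P1 ∪ P2, max k1 k2, fun g u a b => h1 _ _ (hr _ _ _ (h2 g (a.mono
    Finset.subset_union_right (le_max_right _ _)))) (b.mono Finset.subset_union_left
    (le_max_left _ _))⟩
theorem JC_M : JC M := JC_F id fun _ _ _ h => h
theorem JC_M' : JC M' := JC_F List.reverse fun _ _ _ h => h.reverse
theorem JC_T : JC T := fun _ _ P k => ⟨P, k, fun g u a b =>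
  ⟨fun o ho => by simp only [T, a.1 o ho, b.1 o ho], b.2⟩⟩
theorem JC.comp {f f1 f2 : G → G → G} (h : JC f) (h1 : JC f1) (h2 : JC f2) :
    JC fun g u => f (f1 g u) (f2 g u) := fun g0 u0 P k => by
  obtain ⟨P0, k0, a0⟩ := h (f1 g0 u0) (f2 g0 u0) P k
  obtain ⟨P1, k1, a1⟩ := h1 g0 u0 P0 k0
  obtain ⟨P2, k2, a2⟩ := h2 g0 u0 P0 k0
  exact ⟨P1 ∪ P2, max k1 k2, fun g u a b => a0 _ _
    (a1 _ _ (a.mono Finset.subset_union_left (le_max_left _ _))
      (b.mono Finset.subset_union_left (le_max_left _ _)))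
    (a2 _ _ (a.mono Finset.subset_union_right (le_max_right _ _))
      (b.mono Finset.subset_union_right (le_max_right _ _)))⟩
theorem JC_1 : JC fun g _ => g := fun _ _ P k => ⟨P, k, fun _ _ a _ => a⟩
theorem JC_2 : JC fun _ u => u := fun _ _ P k => ⟨P, k, fun _ _ _ a => a⟩
theorem JC_q : JC q := JC_T.comp (JC_M.comp JC_1 JC_1) JC_M
theorem JC_p : JC p := JC_M'.comp JC_1 (JC_T.comp (JC_M.comp JC_1 JC_1) JC_2)

instance : TopologicalSpace G where
  IsOpen O := ∀ g ∈ O, ∃ P k, ∀ u, C P k g u → u ∈ O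
  isOpen_univ := fun _ _ => ⟨∅, 0, fun _ _ => trivial⟩
  isOpen_inter := fun s t hs ht g hg => by
    obtain ⟨P, k, h⟩ := hs g hg.1
    obtain ⟨P', k', h'⟩ := ht g hg.2
    exact ⟨P ∪ P', max k k', fun v hv => ⟨h v (hv.mono Finset.subset_union_left (le_max_left _ _)),
      h' v (hv.mono Finset.subset_union_right (le_max_right _ _))⟩⟩
  isOpen_sUnion := fun S hS g ⟨t, ht, hg⟩ => by
    obtain ⟨P, k, h⟩ := hS t ht g hg
    exact ⟨P, k, fun v hv => ⟨t, ht, h v hv⟩⟩

theorem mem_nhds' {g : G} {S : Set G} : S ∈ 𝓝 g ↔ ∃ P k, ∀ u, C P k g u → u ∈ S := by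
  constructor
  · intro h
    obtain ⟨O, h1, h2, h3⟩ := mem_nhds_iff.1 h
    obtain ⟨P, k, h⟩ := h2 g h3
    exact ⟨P, k, fun v hv => h1 (h v hv)⟩
  · intro h
    refine mem_nhds_iff.2 ⟨{t | ∃ P k, ∀ u, C P k t u → u ∈ S},
      fun t ⟨P, k, h⟩ => h t (C_refl _ _ _), fun t ⟨P, k, h⟩ => ?_, h⟩
    obtain ⟨P1, k1, h1⟩ := JC_p t e P k
    refine ⟨P1, k1, fun t' ht' => ?_⟩
    obtain ⟨P2, k2, h2⟩ := JC_q t' t' P1 k1
    refine ⟨P2, k2, fun u hu => h u ?_⟩
    have := h1 t' _ ht' (q_self t' ▸ h2 t' u (C_refl _ _ _) hu)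
    rwa [p_e, p_q] at this

theorem C_nhds (P : Finset Y) (k : ℕ) (g : G) : {u | C P k g u} ∈ 𝓝 g :=
  mem_nhds'.2 ⟨P, k, fun _ h => h⟩

theorem JC.cont {f : G → G → G} (h : JC f) : Continuous fun x : G × G => f x.1 x.2 :=
  continuous_iff_continuousAt.2 fun x S hS => by
    obtain ⟨P, k, h1⟩ := mem_nhds'.1 hS
    obtain ⟨P', k', h2⟩ := h x.1 x.2 P k
    exact mem_map.2 (mem_of_superset (prod_mem_nhds (C_nhds P' k' x.1) (C_nhds P' k' x.2))
      fun y hy => h1 _ (h2 y.1 y.2 hy.1 hy.2))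

instance : RegularSpace G := by
  refine RegularSpace.of_exists_mem_nhds_isClosed_subset fun x S hS => ?_
  obtain ⟨P, k, h⟩ := mem_nhds'.1 hS
  obtain ⟨P1, k1, h1⟩ := JC_p x e P k
  refine ⟨closure {u | C P1 k1 x u}, mem_of_superset (C_nhds _ _ _) subset_closure,
    isClosed_closure, fun y hy => h y ?_⟩
  obtain ⟨P2, k2, h2⟩ := JC_q y y P1 k1
  obtain ⟨v, a, b⟩ := mem_closure_iff_nhds.1 hy _ (C_nhds P2 k2 y)
  have := h1 v _ b (q_self y ▸ h2 v y a (C_refl _ _ _))
  rwa [p_e, p_q] at this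

theorem ex_ns (o : Y × Y) : ∃ k, ¬ Small ∅ k o := by
  by_cases h : adj o.1 o.2
  · obtain ⟨k, a, b⟩ := ((ev_sep h.ne).and (eventually_gt_atTop (lev o.1))).exists
    exact ⟨k, fun h => h.2.elim (by omega) fun h => a h.1⟩
  · exact ⟨0, fun h' => h h'.1⟩

theorem pre (x : G) : ({x} : Set G) = (fun u => q x u) ⁻¹' {e} := by
  ext u
  refine ⟨fun h => by rw [mem_singleton_iff.1 h]; exact q_self x, fun h => ?_⟩
  rw [mem_singleton_iff, ← p_q x u, show q x u = e from h, p_e]

theorem cont_q (x : G) : Continuous fun u => q x u :=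
  JC_q.cont.comp (Continuous.prodMk_right x)

instance : T1Space G := ⟨fun x => by
  rw [pre]
  refine IsClosed.preimage (cont_q x) (closure_subset_iff_isClosed.1 fun u hu => ?_)
  have h : ∀ k, C ∅ k u e := fun k => by
    obtain ⟨v, a, rfl⟩ := mem_closure_iff_nhds.1 hu _ (C_nhds ∅ k u)
    exact a
  refine G.ext (Finset.eq_empty_of_forall_notMem fun z hz => ?_) (funext fun o => ?_)
  · obtain ⟨w, a, -⟩ := (h 0).2.2 z hz
    simp [e] at a
  · obtain ⟨k, hk⟩ := ex_ns o
    exact ((h k).1 o hk).symm⟩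

theorem gdelta (x : G) : IsGδ ({x} : Set G) := by
  rw [pre]
  refine IsGδ.preimage (cont_q x) ?_
  have : ({e} : Set G) = ⋂ k : ℕ, interior {u | C ∅ k e u} := by
    refine Subset.antisymm (singleton_subset_iff.2 (mem_iInter.2 fun k =>
      mem_interior_iff_mem_nhds.2 (C_nhds _ _ _))) fun u hu => ?_
    have h : ∀ k, C ∅ k e u := fun k =>
      interior_subset (s := {u | C ∅ k e u}) (mem_iInter.1 hu k)
    refine G.ext (Finset.eq_empty_of_forall_notMem fun z hz => ?_) (funext fun o => ?_)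
    · rcases (h (lev z.b + 1)).2.1 z hz with a | ⟨w, a, -⟩
      · omega
      · simp [e] at a
    · obtain ⟨k, hk⟩ := ex_ns o
      exact (h k).1 o hk
  rw [this]
  exact IsGδ.iInter_of_isOpen fun _ => isOpen_interior

end Pool.Agent.H39.RC
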