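import Mathlib
import Pool.Agent.H39.RC3

set_option autoImplicit false

namespace Pool.Agent.H39.RC
open Set Filter Topology Classical

theorem NM (n m0 : ℕ) (s : Y) (R : ℕ → Set Y) (h : ∀ a, A m0 s a → lev a = n → ∃ k, a ∈ R k) :
    ∃ k m1 s1, m0 ≤ m1 ∧ A m0 s s1 ∧ ∀ x, A m1 s1 x → ∀ m, ∃ a ∈ R k, A m x a := by
  let φ : ℤ → Y → Y := fun c r j => if j < m0 then s j else r j + c
  have hφ : ∀ c r, A m0 s (φ c r) := fun c r j hj => by simp [φ, hj]
  have hcov : ⋃ p : ℤ × ℕ, closure {r | φ p.1 r ∈ R p.2} = univ := eq_univ_of_forall fun r => by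
    obtain ⟨c, hc⟩ := lev_shift n m0 s r
    obtain ⟨k, hk⟩ := h _ (hφ c r) hc
    exact mem_iUnion.2 ⟨(c, k), subset_closure hk⟩
  obtain ⟨⟨c, k⟩, x, hx⟩ := nonempty_interior_of_iUnion_of_closed (fun p => isClosed_closure) hcov
  obtain ⟨_, ⟨y, m1, rfl⟩, -, h2⟩ :=
    (PiNat.isTopologicalBasis_cylinders fun _ => ℤ).exists_subset_of_mem_open hx isOpen_interior
  refine ⟨k, max m1 m0, φ c y, by omega, hφ c y, fun x hx m => ?_⟩
  have h6 : (fun j => if j < m0 then y j else x j - c) ∈ closure {r | φ c r ∈ R k} :=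
    interior_subset (h2 fun j hj => by
      have := hx j (lt_max_of_lt_left hj)
      by_cases hj' : j < m0 <;> simp [φ, hj'] at this ⊢
      omega)
  obtain ⟨r', h7, h8⟩ := mem_closure_iff.1 h6 _ (PiNat.isOpen_cylinder _ _ m)
    (PiNat.self_mem_cylinder _ _)
  refine ⟨_, h8, fun j hj => ?_⟩
  have := h7 j hj
  by_cases hj' : j < m0
  · simpa [φ, hj'] using (hx j (by omega)).symm
  · simp [φ, hj'] at this ⊢; omega

def io (z : Z) : G := ⟨{z}, 0, by simp, by simp⟩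
def vx (x : Y) : Z := ⟨x, x, Or.inl rfl⟩

theorem C_near (P : Finset Y) {k : ℕ} {z0 z : Z} (h : near k z0 z) : C P k (io z0) (io z) :=
  ⟨fun _ _ => rfl, fun w hw => Or.inr ⟨z0, Finset.mem_singleton_self _,
    (Finset.mem_singleton.1 hw).symm ▸ h⟩, fun w hw => ⟨z, Finset.mem_singleton_self _,
    (Finset.mem_singleton.1 hw).symm ▸ h⟩⟩
theorem C_high (P : Finset Y) {k : ℕ} {z : Z} (h : k ≤ lev z.b) : C P k e (io z) :=
  ⟨fun _ _ => rfl, fun w hw => Or.inl ((Finset.mem_singleton.1 hw).symm ▸ h),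
    fun w hw => by simp [e] at hw⟩

def QQ (f : G → ℝ) (n : ℕ) (c : ℝ) : Prop := ∀ m0 s, ∃ m1 s1, m0 ≤ m1 ∧ A m0 s s1 ∧
  ∀ x, A m1 s1 x → lev x = n → f (io (vx x)) ≤ c

theorem step {f : G → ℝ} (hf : Continuous f) {n : ℕ} {c c' : ℝ} (h : QQ f (n + 1) c)
    (hc : c < c') : QQ f n c' := fun m0 s => by
  obtain ⟨m1, s1, a1, a2, a3⟩ := h m0 s
  obtain ⟨k, m2, s2, b1, b3, b4⟩ := NM (n + 1) m1 s1
    (fun k => {a | lev a = n + 1 ∧ ∀ z, near k (vx a) z → f (io z) ≤ c'}) fun a ha hl => by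
      obtain ⟨P, k, h⟩ := mem_nhds'.1 ((isOpen_lt hf continuous_const).mem_nhds
        (show io (vx a) ∈ {u | f u < c'} from (a3 a ha hl).trans_lt hc))
      exact ⟨k, hl, fun z hz => le_of_lt (h _ (C_near P hz))⟩
  refine ⟨m2, s2, a1.trans b1, a2.trans (b3.mono a1), fun x hx hl => ?_⟩
  by_contra hlt
  obtain ⟨P, k', h⟩ := mem_nhds'.1 ((isOpen_lt continuous_const hf).mem_nhds
    (show io (vx x) ∈ {u | c' < f u} from not_le.1 hlt))
  obtain ⟨a, ⟨c1, c2⟩, c3⟩ := b4 x hx (max k k')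
  let z : Z := ⟨x, a, Or.inr (by omega)⟩
  have hne : x ≠ a := by rintro rfl; omega
  have t1 := c2 z (Or.inr ⟨rfl, Or.inr rfl, by
    simpa [oth, z, vx, hne] using (c3.mono (le_max_left _ _)).symm⟩)
  exact not_lt.2 t1 (h _ (C_near P (z := z) (Or.inr ⟨rfl, Or.inl rfl, by
    simpa [oth, z, vx] using c3.mono (le_max_right _ _)⟩)))

theorem key {f : G → ℝ} (hf : Continuous f) (h0 : f e ≤ 0) :
    ∃ x, lev x = 0 ∧ f (io (vx x)) ≤ 0 := by
  have q0 : ∀ c : ℝ, 0 < c → ∃ c' < c, QQ f 0 c' := fun c hc => by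
    obtain ⟨P, k, h⟩ := mem_nhds'.1 ((isOpen_lt hf continuous_const).mem_nhds
      (show e ∈ {u | f u < c / 2} from h0.trans_lt (by linarith)))
    have : ∀ d n, k ≤ n + d → ∃ c' < c, QQ f n c' := fun d => by
      induction d with
      | zero => exact fun n hn => ⟨c / 2, by linarith, fun m0 s => ⟨m0, s, le_rfl, A_refl _ _,
          fun x _ hx => le_of_lt (h _ (C_high P (show k ≤ lev x by omega)))⟩⟩
      | succ d ih =>
        intro n hn
        obtain ⟨c1, a, b⟩ := ih (n + 1) (by omega)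
        obtain ⟨c2, a1, a2⟩ := exists_between a
        exact ⟨c2, a2, step hf b a1⟩
    exact this k 0 (by omega)
  by_contra hn
  push Not at hn
  obtain ⟨j, m1, s1, -, -, b⟩ := NM 0 0 0
    (fun j => {a | lev a = 0 ∧ 1 / ((j : ℝ) + 1) < f (io (vx a))}) fun a _ hl =>
      (exists_nat_one_div_lt (hn a hl)).imp fun j hj => ⟨hl, hj⟩
  obtain ⟨c, a1, a2⟩ := q0 _ (Nat.one_div_pos_of_nat (n := j))
  obtain ⟨m2, s2, -, a3, a4⟩ := a2 m1 s1
  obtain ⟨a, ⟨c1, c2⟩, c3⟩ := b s2 a3 m2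
  have := a4 a c3 c1
  linarith

theorem key' {M : Type*} [MetricSpace M] {f : G → M} (hf : Continuous f) :
    ∃ x, lev x = 0 ∧ f (io (vx x)) = f e :=
  (key (hf.dist (continuous_const (y := f e))) (by simp)).imp fun _ h =>
    ⟨h.1, dist_le_zero.1 h.2⟩

theorem not_cr : ¬ CompletelyRegularSpace G := fun h => by
  obtain ⟨f, hf, h0, h1⟩ := h.completely_regular e (interior {u | C ∅ 1 e u})ᶜ
    isOpen_interior.isClosed_compl fun h => h (mem_interior_iff_mem_nhds.2 (C_nhds _ _ _))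
  obtain ⟨x, a, b⟩ := key' hf
  rw [h0, h1 (x := io (vx x))] at b
  · simp at b
  intro hx
  rcases (interior_subset (s := {u | C ∅ 1 e u}) hx).2.1 (vx x) (Finset.mem_singleton_self _)
    with h | ⟨w, h, -⟩
  · change 1 ≤ lev x at h; omega
  · simp [e] at h

theorem not_inj {M : Type*} [TopologicalSpace M] [TopologicalSpace.MetrizableSpace M] {f : G → M}
    (hf : Continuous f) : ¬ Function.Injective f := fun h => by
  letI := TopologicalSpace.metrizableSpaceMetric M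
  obtain ⟨x, -, b⟩ := key' hf
  simpa [io, e] using congrArg G.y (h b)

noncomputable def phi : (G × G) ≃ₜ (G × G) where
  toFun x := (x.1, q x.1 x.2)
  invFun x := (x.1, p x.1 x.2)
  left_inv x := by simp [p_q]
  right_inv x := by simp [q_p]
  continuous_toFun := continuous_fst.prodMk JC_q.cont
  continuous_invFun := continuous_fst.prodMk JC_p.cont

theorem rect : ∃ (φ : (G × G) ≃ₜ (G × G)) (e : G),
    (∀ p : G × G, (φ p).1 = p.1) ∧ ∀ x : G, φ (x, x) = (x, e) :=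
  ⟨phi, e, fun _ => rfl, fun x => congrArg (Prod.mk x) (q_self x)⟩

instance : T3Space G := {}

end Pool.Agent.H39.RC
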