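import Mathlib
import Pool.Agent.H39.Myc

set_option autoImplicit false

namespace Pool.Agent.H39.LN

open Set Filter Topology MeasureTheory TopologicalSpace

section
variable {X : Type} (d : List ℕ → ℕ → X) (x0 : X)

/-- The point coding the node `s` with the value `c`. -/
def pt : List ℕ → X → List ℕ → Bool × X
  | [], c => Function.update (fun _ => (false, x0)) [] (true, c)
  | k :: s, c => Function.update (pt s (d s k)) (k :: s) (true, c)

/-- The point coding a branch. -/
def br (α : ℕ → ℕ) (t : List ℕ) : Bool × X := pt d x0 (PiNat.res α (t.length + 1)) x0 t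

variable {d x0}

@[simp] theorem pt_self (s : List ℕ) (c : X) : pt d x0 s c s = (true, c) := by
  cases s <;> simp [pt]

theorem pt_cons {k : ℕ} {s t : List ℕ} (c : X) (h : t ≠ k :: s) :
    pt d x0 (k :: s) c t = pt d x0 s (d s k) t := by simp [pt, h]

theorem pt_long {s t : List ℕ} (c : X) (h : s.length ≤ t.length) (h' : t ≠ s) :
    pt d x0 s c t = (false, x0) := by
  induction s generalizing c with
  | nil => simp [pt, h']
  | cons k s ih =>
    rw [List.length_cons] at h
    rw [pt_cons c h', ih _ (by omega) fun h1 => by subst h1; omega]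

theorem pt_ne {s t : List ℕ} (c c' : X) (h : t ≠ s) : pt d x0 s c t = pt d x0 s c' t := by
  cases s <;> simp [pt, h]

theorem pt_res (α : ℕ → ℕ) {t : List ℕ} {n : ℕ} (c : X) (h : t.length < n) :
    pt d x0 (PiNat.res α n) c t = br d x0 α t := by
  induction n, h using Nat.le_induction generalizing c with
  | base => exact pt_ne _ _ fun h => by simpa using congrArg List.length h
  | succ n hn ih =>
    rw [PiNat.res_succ, pt_cons c fun h => by
      have := congrArg List.length h
      simp at this
      omega, ih]

theorem br_res (α : ℕ → ℕ) (n : ℕ) :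
    br d x0 α (PiNat.res α n) = (true, d (PiNat.res α n) (α n)) := by
  rw [br, PiNat.res_length, PiNat.res_succ, pt_cons _ fun h => by
    simpa using congrArg List.length h, pt_self]

theorem eq_res {α : ℕ → ℕ} {t : List ℕ} (h : (br d x0 α t).1 = true) :
    t = PiNat.res α t.length := by
  by_contra h1
  rw [br, PiNat.res_succ, pt_cons _ fun h => by simpa using congrArg List.length h,
    pt_long _ (by simp) h1] at h
  simp at h

variable (d x0) in
/-- The space of codes. -/
def Sp (lab : X → Option (List ℕ)) : Set (List ℕ → Bool × X) :=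
  {y | (y []).1 = true ∧ (∀ s k k', (y (k :: s)).1 = true → (y (k' :: s)).1 = true → k = k') ∧
    (∀ s k, (y (k :: s)).1 = true → y s = (true, d s k)) ∧
    (∀ s, (y s).1 = true → lab (y s).2 = some s) ∧ ∀ s, (y s).1 = false → (y s).2 = x0}

variable {lab : X → Option (List ℕ)}

theorem pt_mem (hd : ∀ s k, lab (d s k) = some s) {s : List ℕ} {c : X} (h : lab c = some s) :
    pt d x0 s c ∈ Sp d x0 lab := by
  induction s generalizing c with
  | nil =>
    refine ⟨by simp, by simp [pt], by simp [pt], fun s => ?_, fun s => ?_⟩ <;>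
      cases s <;> simp [pt, h]
  | cons k s ih =>
    obtain ⟨h1, h2, h3, h4, h5⟩ := ih (hd s k)
    have h6 : ∀ k', (pt d x0 (k :: s) c (k' :: s)).1 = true → k' = k := fun k' h6 => by
      by_contra h7
      rw [pt_long c (by simp) (by simpa using h7)] at h6
      simp at h6
    refine ⟨by rwa [pt_cons c (by simp)], fun u a b ha hb => ?_, fun u a ha => ?_, fun u => ?_,
      fun u => ?_⟩
    · by_cases h7 : u = s
      · subst h7
        rw [h6 a ha, h6 b hb]
      · rw [pt_cons c (by simp [h7])] at ha hb
        exact h2 u a b ha hb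
    · by_cases h7 : u = s
      · subst h7
        rw [h6 a ha, pt_cons c (by simp), pt_self]
      · have h8 : u ≠ k :: s := by
          rintro rfl
          rw [pt_long c (by simp) (by simp)] at ha
          simp at ha
        rw [pt_cons c (by simp [h7])] at ha
        rw [pt_cons c h8, h3 u a ha]
    · by_cases h7 : u = k :: s
      · simp [h7, h]
      · rw [pt_cons c h7]
        exact h4 u
    · by_cases h7 : u = k :: s
      · simp [h7]
      · rw [pt_cons c h7]
        exact h5 u

theorem eq_pt {y : List ℕ → Bool × X} (hy : y ∈ Sp d x0 lab) {s : List ℕ} (hs : (y s).1 = true)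
    (t : List ℕ) (ht : t.length ≤ s.length) : y t = pt d x0 s (y s).2 t := by
  obtain ⟨h1, h2, h3, h4, h5⟩ := hy
  induction s generalizing t with
  | nil =>
    rw [List.length_eq_zero_iff.1 (Nat.le_zero.1 ht), pt_self, ← hs]
  | cons k s ih =>
    have h6 := h3 s k hs
    have h7 := ih (by rw [h6])
    rw [h6] at h7
    by_cases h8 : t = k :: s
    · rw [h8, pt_self, ← hs]
    rw [pt_cons _ h8]
    by_cases h9 : t.length ≤ s.length
    · exact h7 t h9
    rw [pt_long _ (by omega) fun h : t = s => h9 (h ▸ le_rfl)]
    have h10 : (y t).1 = false := by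
      by_contra h10
      rw [Bool.not_eq_false] at h10
      obtain ⟨a, u, rfl⟩ := List.exists_cons_of_length_pos (l := t) (by omega)
      simp only [List.length_cons] at ht h9
      have h11 : u = s := by
        by_contra h11
        have := (h3 u a h10).symm.trans ((h7 u (by omega)).trans (pt_long _ (by omega) h11))
        simp at this
      subst h11
      exact h8 (by rw [h2 u a k h10 hs])
    exact Prod.ext h10 (h5 t h10)

/-- Codes that end at the node `s`. -/
def P (s : List ℕ) : Set (List ℕ → Bool × X) := {y | (y s).1 = true ∧ ∀ k, (y (k :: s)).1 = false}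

theorem eq_of_P {y : List ℕ → Bool × X} (hy : y ∈ Sp d x0 lab) {s : List ℕ} (hs : y ∈ P s) :
    y = pt d x0 s (y s).2 := by
  have h : ∀ t : List ℕ, s.length < t.length → (y t).1 = false := fun t => by
    induction t with
    | nil => simp
    | cons a u ih =>
      intro h
      by_contra h1
      rw [Bool.not_eq_false] at h1
      have h2 := hy.2.2.1 u a h1
      by_cases h3 : s.length < u.length
      · simpa [h2] using ih h3
      · by_cases h4 : u = s
        · simpa [h4 ▸ h1] using hs.2 a
        · rw [List.length_cons] at h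
          have := h2.symm.trans ((eq_pt hy hs.1 u (by omega)).trans (pt_long _ (by omega) h4))
          simp at this
  funext t
  by_cases h1 : t.length ≤ s.length
  · exact eq_pt hy hs.1 t h1
  · rw [pt_long _ (not_le.1 h1).le fun h : t = s => h1 (h ▸ le_rfl)]
    exact Prod.ext (h t (by omega)) (hy.2.2.2.2 t (h t (by omega)))

theorem eq_br {y : List ℕ → Bool × X} (hy : y ∈ Sp d x0 lab) (h : ∀ s, y ∉ P s) :
    ∃ α, y = br d x0 α := by
  have h1 : ∀ s, (y s).1 = true → ∃ k, (y (k :: s)).1 = true := fun s hs => by
    simpa [P, hs] using h s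
  choose! ch h1 using h1
  let L : ℕ → List ℕ := fun n => n.rec [] fun _ l => ch l :: l
  have h2 : ∀ n, PiNat.res (fun n => ch (L n)) n = L n ∧ (y (L n)).1 = true := fun n => by
    induction n with
    | zero => exact ⟨rfl, hy.1⟩
    | succ n ih => exact ⟨by rw [PiNat.res_succ, ih.1], h1 _ ih.2⟩
  refine ⟨fun n => ch (L n), funext fun t => ?_⟩
  have h3 := (h2 (t.length + 1)).2
  rw [← (h2 (t.length + 1)).1] at h3
  rw [eq_pt hy h3 t (by simp), pt_res _ _ (by simp)]

theorem pt_P {s t : List ℕ} {c : X} : pt d x0 s c ∈ P t ↔ t = s := by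
  refine ⟨fun h => ?_, fun h => h ▸ ⟨by simp, fun k => by rw [pt_long c (by simp) (by simp)]⟩⟩
  induction s generalizing c with
  | nil =>
    by_contra h1
    simpa [pt, h1] using h.1
  | cons k s ih =>
    by_contra h1
    by_cases h2 : t = s
    · simpa [h2] using h.2 k
    · refine h2 (ih (c := d s k) ⟨pt_cons c h1 ▸ h.1, fun a => ?_⟩)
      rw [← pt_cons c (by simp [h2]), h.2]

theorem br_P (α : ℕ → ℕ) (t : List ℕ) : br d x0 α ∉ P t := fun h => by
  have h1 := h.2 (α t.length)
  rw [eq_res h.1, PiNat.res_length, ← PiNat.res_succ, br_res] at h1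
  simp at h1

theorem br_inj : Function.Injective (br d x0) := fun α β h => funext fun n => by
  have h1 := eq_res (d := d) (x0 := x0) (α := β) (t := PiNat.res α (n + 1)) (by rw [← h, br_res])
  rw [PiNat.res_length] at h1
  exact PiNat.res_eq_res.1 h1 n.lt_succ_self

variable [TopologicalSpace X]

theorem tendsto_br (α : ℕ → ℕ) (c : ℕ → X) :
    Tendsto (fun n => pt d x0 (PiNat.res α n) (c n)) atTop (𝓝 (br d x0 α)) :=
  tendsto_pi_nhds.2 fun t => tendsto_const_nhds.congr'
    ((eventually_gt_atTop t.length).mono fun _ h => (pt_res α _ h).symm)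

theorem cont_pt (s : List ℕ) : Continuous (pt d x0 s) := by
  cases s <;> exact continuous_const.update _ (by fun_prop)

theorem tendsto_pt {s : List ℕ} {k : ℕ → ℕ} (hk : ∀ i, i ≤ k i) {c : X}
    (h : Tendsto (fun i => d s (k i)) atTop (𝓝 c)) (c' : ℕ → X) :
    Tendsto (fun i => pt d x0 (k i :: s) (c' i)) atTop (𝓝 (pt d x0 s c)) := by
  have h1 := ((cont_pt (d := d) (x0 := x0) s).tendsto c).comp h
  refine tendsto_pi_nhds.2 fun t => (tendsto_pi_nhds.1 h1 t).congr'
    ((eventually_gt_atTop t.headI).mono fun i hi => (pt_cons _ ?_).symm)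
  rintro rfl
  exact hi.not_ge (hk i)

theorem cont_br : Continuous (br d x0) := by
  refine continuous_pi fun t => (IsLocallyConstant.iff_eventually_eq _).2 (fun α => ?_)
    |>.continuous
  have h : ∀ᶠ β in 𝓝 α, ∀ i ∈ Iio (t.length + 1), β i = α i :=
    (eventually_all_finite (finite_Iio _)).2 fun i _ =>
      ((continuous_apply i).tendsto α).eventually (p := fun m => m = α i) (by simp)
  exact h.mono fun β h => by rw [br, br, PiNat.res_eq_res.2 fun i hi => h i hi]

theorem clopen_flag (s : List ℕ) (b : Bool) :
    IsClopen {y : List ℕ → Bool × X | (y s).1 = b} :=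
  (isClopen_discrete {b}).preimage (f := fun y : List ℕ → Bool × X => (y s).1) (by fun_prop)

theorem closed_P (s : List ℕ) : IsClosed (P s : Set (List ℕ → Bool × X)) :=
  (clopen_flag s true).1.inter (by
    change IsClosed {y : List ℕ → Bool × X | ∀ k, (y (k :: s)).1 = false}
    simp only [ofPred_forall]
    exact isClosed_iInter fun k => (clopen_flag _ _).1)

theorem closed_Sp [T2Space X] (hl : ∀ o, IsClosed {x | lab x = o}) : IsClosed (Sp d x0 lab) := by
  simp only [Sp, ofPred_and]
  refine (clopen_flag _ _).1.inter (IsClosed.inter ?_ (IsClosed.inter ?_ (IsClosed.inter ?_ ?_)))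
  · simp only [ofPred_forall (p := fun _ : List ℕ => _), ofPred_forall (p := fun _ : ℕ => _)]
    exact isClosed_iInter fun s => isClosed_iInter fun k => isClosed_iInter fun k' =>
      isClosed_imp (clopen_flag _ _).2 (isClosed_imp (clopen_flag _ _).2 isClosed_const)
  · simp only [ofPred_forall (p := fun _ : List ℕ => _), ofPred_forall (p := fun _ : ℕ => _)]
    exact isClosed_iInter fun s => isClosed_iInter fun k =>
      isClosed_imp (clopen_flag _ _).2 (isClosed_eq (by fun_prop) continuous_const)
  · simp only [ofPred_forall (p := fun _ : List ℕ => _)]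
    exact isClosed_iInter fun s => isClosed_imp (clopen_flag _ _).2
      ((hl (some s)).preimage (f := fun y : List ℕ → Bool × X => (y s).2) (by fun_prop))
  · simp only [ofPred_forall (p := fun _ : List ℕ => _)]
    exact isClosed_iInter fun s => isClosed_imp (clopen_flag _ _).2
      (isClosed_eq (by fun_prop) continuous_const)

end

end Pool.Agent.H39.LN
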