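import Mathlib

set_option autoImplicit false

namespace Pool.Agent.H39.Res

open Set Filter Topology TopologicalSpace

theorem exists_fix {K α : Type*} [Inhabited α] (rk : K → ℕ) (Φ : (K → α) → K → α)
    (h : ∀ y y' k, (∀ k', rk k' < rk k → y k' = y' k') → Φ y k = Φ y' k) :
    ∃ y, ∀ k, y k = Φ y k := by
  let Y : ℕ → K → α := fun n => Φ^[n] default
  have hY : ∀ n, Y (n + 1) = Φ (Y n) := fun n => Function.iterate_succ_apply' _ _ _
  have h1 : ∀ r k, rk k = r → ∀ n m, r < n → r < m → Y n k = Y m k := by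
    intro r
    induction r using Nat.strong_induction_on with
    | _ r ih =>
      rintro k rfl n m hn hm
      obtain ⟨n, rfl⟩ := Nat.exists_eq_succ_of_ne_zero (show n ≠ 0 by omega)
      obtain ⟨m, rfl⟩ := Nat.exists_eq_succ_of_ne_zero (show m ≠ 0 by omega)
      rw [hY, hY]
      exact h _ _ _ fun k' hk' => ih _ hk' k' rfl _ _ (by omega) (by omega)
  refine ⟨fun k => Y (rk k + 1) k, fun k => ?_⟩
  simp only [hY (rk k)]
  exact h _ _ _ fun k' hk' => h1 _ k' rfl _ _ hk' (Nat.lt_succ_self _)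

section
variable {K : Type} [DecidableEq K] (rk : K → ℕ) (τ : K → ℕ → ℕ)

def Cof (l : ℕ) (c : Finset K → Prop) : Prop :=
  ∀ a : Finset K, (∀ k ∈ a, rk k ≤ l) → ∃ b, a ⊆ b ∧ (∀ k ∈ b, rk k ≤ l) ∧ c b

noncomputable def wit (l : ℕ) (c : Finset K → Prop) : Finset K :=
  Classical.epsilon fun a => (∀ k ∈ a, rk k ≤ l) ∧ ∀ b, a ⊆ b → (∀ k ∈ b, rk k ≤ l) → ¬ c b

omit [DecidableEq K] in
theorem wit_spec {l : ℕ} {c : Finset K → Prop} (h : ¬ Cof rk l c) :
    (∀ k ∈ wit rk l c, rk k ≤ l) ∧ ∀ b, wit rk l c ⊆ b → (∀ k ∈ b, rk k ≤ l) → ¬ c b := by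
  unfold Cof at h
  push Not at h
  exact Classical.epsilon_spec h

def Serve (C : ℕ → Finset K → Prop) (n l : ℕ) (b : Finset K) : Prop :=
  l ≤ n ∧ (∀ k ∈ b, rk k ≤ l) ∧ ((Cof rk l (C l) ∧ C l b) ∨
    ((∀ l', l ≤ l' → l' ≤ n → ¬ Cof rk l' (C l')) ∧
      ∃ a : Finset K, (∀ k ∈ a, τ k l ≤ n) ∧ b = a ∪ wit rk l (C l)))

theorem serve_congr {C C' : ℕ → Finset K → Prop} {n : ℕ} (h : ∀ l ≤ n, C l = C' l) :
    Serve rk τ C n = Serve rk τ C' n := by
  funext l b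
  unfold Serve
  refine propext (and_congr_right fun hl => ?_)
  rw [h l hl]
  refine and_congr_right fun _ => or_congr_right (and_congr_left fun _ => ?_)
  exact forall_congr' fun l' => forall_congr' fun _ => forall_congr' fun h' => by rw [h l' h']

theorem exists_serve (C : ℕ → Finset K → Prop) {m n : ℕ} (hm : m ≤ n) {a : Finset K}
    (h1 : ∀ k ∈ a, rk k ≤ m) (h2 : ∀ k ∈ a, τ k m ≤ n) :
    ∃ l b, m ≤ l ∧ a ⊆ b ∧ Serve rk τ C n l b := by
  by_cases h : ∃ l, m ≤ l ∧ l ≤ n ∧ Cof rk l (C l)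
  · obtain ⟨l, h3, h4, h5⟩ := h
    obtain ⟨b, h6, h7, h8⟩ := h5 a fun k hk => (h1 k hk).trans h3
    exact ⟨l, b, h3, h6, h4, h7, Or.inl ⟨h5, h8⟩⟩
  · push Not at h
    refine ⟨m, _, le_rfl, Finset.subset_union_left, hm, fun k hk => ?_, Or.inr ⟨h, a, h2, rfl⟩⟩
    rcases Finset.mem_union.1 hk with hk | hk
    exacts [h1 k hk, (wit_spec rk (h m le_rfl hm)).1 k hk]

theorem core (hτ : ∀ f : ℕ → ℕ, ∃ k, rk k = 0 ∧ τ k = f) (C : ℕ → Finset K → Prop) :
    (∃ k0, rk k0 = 0 ∧ ∀ n l b, Serve rk τ C n l b → k0 ∈ b → C l b) ∨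
      ∃ m0, ∀ n l b, Serve rk τ C n l b → m0 ≤ l → ¬ C l b := by
  by_cases h : ∀ m, ∃ l, m ≤ l ∧ Cof rk l (C l)
  · choose nx h1 h2 using h
    obtain ⟨k0, h3, h4⟩ := hτ fun m => max (nx m) ((wit rk m (C m)).sup fun k => τ k m) + 1
    refine Or.inl ⟨k0, h3, ?_⟩
    rintro n l b ⟨-, -, h5 | ⟨h5, a, h6, rfl⟩⟩ hk
    · exact h5.2
    · have h7 := congrFun h4 l
      rcases Finset.mem_union.1 hk with hk | hk
      · have := h6 k0 hk
        exact absurd (h2 l) (h5 _ (h1 l) (by omega))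
      · have := Finset.le_sup (f := fun k => τ k l) hk
        omega
  · push Not at h
    obtain ⟨m0, h⟩ := h
    refine Or.inr ⟨m0, ?_⟩
    rintro n l b ⟨-, h1, h5 | ⟨h5, a, h6, rfl⟩⟩ hl
    · exact absurd h5.1 (h l hl)
    · exact (wit_spec rk (h l hl)).2 _ Finset.subset_union_right h1

end

theorem exists_box {K α : Type*} [TopologicalSpace α] [DiscreteTopology α] {O : Set (K → α)}
    {y : K → α} (h : O ∈ 𝓝 y) : ∃ a : Finset K, ∀ y', (∀ k ∈ a, y' k = y k) → y' ∈ O := by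
  rw [nhds_pi, Filter.mem_pi'] at h
  obtain ⟨a, t, h1, h2⟩ := h
  exact ⟨a, fun y' hy' => h2 fun k hk => by rw [hy' k hk]; exact mem_of_mem_nhds (h1 k)⟩

def Menu : Type := Set (ℕ × Finset (ℕ → ℕ))

instance : TopologicalSpace Menu := ⊥
instance : DiscreteTopology Menu := ⟨rfl⟩
instance : Inhabited Menu := ⟨(∅ : Set _)⟩

def Sel (n : ℕ) (d : Set (ℕ × Finset (ℕ → ℕ))) (p : ℕ × Finset (ℕ → ℕ)) : Prop :=
  (∀ m ≤ n, ∀ a : Finset (ℕ → ℕ), (∀ g ∈ a, g m ≤ n) → ∃ l b, m ≤ l ∧ a ⊆ b ∧ (l, b) ∈ d) → p ∈ d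

abbrev XP := (ℕ → Menu) × ((ℕ → ℕ) → Bool)

def UP (z : ℕ → Menu) (l : ℕ) (b : Finset (ℕ → ℕ)) (y : (ℕ → ℕ) → Bool) : Set XP :=
  {x | (∀ i < l, x.1 i = z i) ∧ (∀ g ∈ b, x.2 g = y g) ∧ ∃ n, Sel n (x.1 n) (l, b)}

def BP : Set (Set XP) := {V | ∃ z l b y, V = UP z l b y}

theorem basis_BP : IsTopologicalBasis BP := by
  have e1 : ∀ (i : ℕ) (S : Set Menu), IsOpen {x : XP | x.1 i ∈ S} := fun i S =>
    (isOpen_discrete S).preimage ((continuous_apply i).comp continuous_fst)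
  refine isTopologicalBasis_of_isOpen_of_nhds ?_ fun x O hx hO => ?_
  · rintro _ ⟨z, l, b, y, rfl⟩
    have : UP z l b y = (⋂ i ∈ Finset.range l, {x : XP | x.1 i ∈ ({z i} : Set Menu)}) ∩
        ((⋂ g ∈ b, {x : XP | x.2 g = y g}) ∩
        ⋃ n, {x : XP | x.1 n ∈ {d : Menu | Sel n d (l, b)}}) := by
      ext x
      simp [UP]
    rw [this]
    refine (isOpen_biInter_finset fun i _ => e1 _ _).inter
      ((isOpen_biInter_finset fun g _ => ?_).inter (isOpen_iUnion fun n => e1 _ _))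
    exact (isOpen_discrete {y g}).preimage (f := fun x : XP => x.2 g) (by fun_prop)
  · obtain ⟨O1, h1, O2, h2, h3⟩ := mem_nhds_prod_iff.1 (hO.mem_nhds hx)
    obtain ⟨a1, h4⟩ := exists_box h1
    obtain ⟨a, h5⟩ := exists_box h2
    obtain ⟨m, hm⟩ : ∃ m, ∀ i ∈ a1, i < m := ⟨a1.sup id + 1, fun i hi =>
      Nat.lt_succ_of_le (Finset.le_sup (f := id) hi)⟩
    obtain ⟨n, h6, h7⟩ : ∃ n, m ≤ n ∧ ∀ g ∈ a, g m ≤ n := ⟨max m (a.sup fun g => g m),
      le_max_left _ _, fun g hg => (Finset.le_sup (f := fun g => g m) hg).trans (le_max_right _ _)⟩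
    obtain ⟨l, b, h8, h9, h10⟩ : ∃ l b, m ≤ l ∧ a ⊆ b ∧ Sel n (x.1 n) (l, b) := by
      by_contra hc
      refine hc ⟨m, a, le_rfl, subset_rfl, fun h8 => ?_⟩
      obtain ⟨l, b, h9, h10, h11⟩ := h8 m h6 a h7
      exact (hc ⟨l, b, h9, h10, fun _ => h11⟩).elim
    refine ⟨_, ⟨x.1, l, b, x.2, rfl⟩, ⟨fun _ _ => rfl, fun _ _ => rfl, n, h10⟩, ?_⟩
    rintro x' ⟨h12, h13, -⟩
    exact h3 ⟨h4 _ fun i hi => h12 i ((hm i hi).trans_le h8), h5 _ fun g hg => h13 g (h9 hg)⟩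

theorem sel_univ (n : ℕ) (p : ℕ × Finset (ℕ → ℕ)) : Sel n univ p := fun _ => trivial

instance : Nontrivial Menu := inferInstanceAs (Nontrivial (Set _))

theorem irres_BP (B0 B1 : Set (Set XP)) (hu : B0 ∪ B1 = BP) (hd : Disjoint B0 B1)
    (h0 : IsTopologicalBasis B0) (h1 : IsTopologicalBasis B1) : False := by
  classical
  let C : (ℕ → Menu) → ℕ → Finset (ℕ → ℕ) → Prop := fun z l b => UP z l b default ∈ B0
  have hU : ∀ z z' l b y y', (∀ i < l, z i = z' i) → (∀ g ∈ b, y g = y' g) →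
      UP z l b y = UP z' l b y' := by
    intro z z' l b y y' h h'
    ext x
    exact and_congr (forall₂_congr fun i hi => by rw [h i hi])
      (and_congr_left' (forall₂_congr fun g hg => by rw [h' g hg]))
  obtain ⟨z, hz⟩ := exists_fix (α := Menu) id
    (fun z n => {p : ℕ × Finset (ℕ → ℕ) | Serve (fun _ => 0) id (C z) n p.1 p.2})
    (fun z z' n h => by
      rw [serve_congr _ _ (C' := C z') fun l hl => funext fun b => by
        simp only [C]
        rw [hU z z' l b _ _ (fun i hi => h i (hi.trans_le hl)) fun _ _ => rfl]])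
  have key : ∀ V ∈ BP, (z, default) ∈ V →
      ∃ n l b, V = UP z l b default ∧ Serve (fun _ => 0) id (C z) n l b := by
    rintro _ ⟨z', l, b, y, rfl⟩ ⟨h2, h3, n, h4⟩
    refine ⟨n, l, b, (hU _ _ _ _ _ _ h2 h3).symm, ?_⟩
    simp only [hz n] at h4
    refine h4 fun m hm a ha => ?_
    exact exists_serve _ id (C z) hm (fun _ _ => Nat.zero_le _) ha
  rcases core (fun _ => 0) id (fun f => ⟨f, rfl, rfl⟩) (C z) with ⟨g, -, h⟩ | ⟨m, h⟩
  · obtain ⟨V, h2, h3, h4⟩ := h1.exists_subset_of_mem_open (a := (z, default))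
      (u := {x : XP | x.2 g = false}) rfl
      ((isOpen_discrete {false}).preimage (f := fun x : XP => x.2 g) (by fun_prop))
    obtain ⟨n, l, b, rfl, h5⟩ := key V (hu ▸ Or.inr h2) h3
    refine disjoint_left.1 hd (h n l b h5 ?_) h2
    by_contra hg
    have := @h4 (z, Function.update default g true) ⟨h3.1, fun g' hg' =>
      Function.update_of_ne (fun h : g' = g => hg (h ▸ hg')) _ _, h3.2.2⟩
    simp at this
  · obtain ⟨V, h2, h3, h4⟩ := h0.exists_subset_of_mem_open (a := (z, default))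
      (u := {x : XP | x.1 m = z m}) rfl
      ((isOpen_discrete {z m}).preimage (f := fun x : XP => x.1 m) (by fun_prop))
    obtain ⟨n, l, b, rfl, h5⟩ := key V (hu ▸ Or.inl h2) h3
    refine h n l b h5 ?_ h2
    by_contra hl
    obtain ⟨d, hd⟩ := exists_ne (z m)
    have := @h4 (fun i => if i < m then z i else if i = m then d else (univ : Set _), default)
      ⟨fun i hi => if_pos (by omega), fun _ _ => rfl, m + 1, by simpa using sel_univ _ _⟩
    exact hd (by simpa using this)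

instance : ParacompactSpace (ℕ → Menu) := by
  let := TopologicalSpace.pseudoMetrizableSpacePseudoMetric (ℕ → Menu)
  infer_instance

theorem no_isol_XP (x : XP) : ¬ IsOpen {x} := by
  classical
  intro h
  obtain ⟨O1, h1, O2, h2, h3⟩ := mem_nhds_prod_iff.1 (h.mem_nhds rfl)
  obtain ⟨a, h4⟩ := exists_box h2
  obtain ⟨g, hg⟩ := Infinite.exists_notMem_finset a
  have : (x.1, Function.update x.2 g (!x.2 g)) = x :=
    h3 ⟨mem_of_mem_nhds h1, h4 _ fun g' hg' =>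
      Function.update_of_ne (fun h : g' = g => hg (h ▸ hg')) _ _⟩
  simpa using congrFun (congrArg Prod.snd this) g

end Pool.Agent.H39.Res
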