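import Mathlib
import Pool.Agent.H39.Res1

set_option autoImplicit false

namespace Pool.Agent.H39.Res

open Set Filter Topology TopologicalSpace Cardinal

abbrev KK := ℕ × (ℕ → ℕ)

theorem mk_KK : #KK = 𝔠 := by simp

theorem exists_e : ∃ e : Finset KK × ℕ × (ℕ ⊕ (ℕ → ℕ)) → (ℕ → ℕ), Function.Injective e := by
  have : #(Finset KK × ℕ × (ℕ ⊕ (ℕ → ℕ))) ≤ #(ℕ → ℕ) := by
    simp [mk_finset_of_infinite]
  obtain ⟨e⟩ := this
  exact ⟨e, e.injective⟩

theorem exists_o : ∃ o : (ℕ → ℕ) → ℕ × Finset KK, Function.Surjective o := by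
  have : #(ℕ × Finset KK) ≤ #(ℕ → ℕ) := by simp [mk_finset_of_infinite]
  obtain ⟨e⟩ := this
  exact ⟨_, Function.invFun_surjective e.injective⟩

noncomputable def ee := exists_e.choose
noncomputable def oo := exists_o.choose

def due (m : ℕ) (a : Finset KK) : ℕ := max m (a.sup fun k => k.2 m)

open Classical in
noncomputable def opt (m : ℕ) (a : Finset KK) (r : ℕ → ℕ) : ℕ × Finset KK :=
  if m ≤ (oo r).1 ∧ (oo r).1 ≤ due m a ∧ a ⊆ (oo r).2 ∧ ∀ k ∈ (oo r).2, k.1 ≤ (oo r).1 then oo r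
  else (m, a)

theorem opt_spec {m : ℕ} {a : Finset KK} (h : ∀ k ∈ a, k.1 ≤ m) (r : ℕ → ℕ) :
    (opt m a r).1 ≤ due m a ∧ a ⊆ (opt m a r).2 ∧ ∀ k ∈ (opt m a r).2, k.1 ≤ (opt m a r).1 := by
  unfold opt
  split_ifs with h'
  · exact h'.2
  · exact ⟨le_max_left _ _, subset_rfl, h⟩

noncomputable def γ (m : ℕ) (a : Finset KK) (i : ℕ) : KK := (due m a + 1, ee (a, m, Sum.inl i))

noncomputable def δ (m : ℕ) (a : Finset KK) (r : ℕ → ℕ) : KK := (due m a + 1, ee (a, m, Sum.inr r))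

def UR (l : ℕ) (b : Finset KK) (s : KK → ℕ) : Set (KK → ℝ) :=
  {x | (∀ k ∈ b, |x k - s k| < 1 / (b.card + 2)) ∧ ∃ m a r, ∃ j : ℕ, (∀ k ∈ a, k.1 ≤ m) ∧
    opt m a r = (l, b) ∧ |x (δ m a r) - j| < 1 ∧ ∀ i < j, |x (γ m a i) - r i| < 1}

def BR : Set (Set (KK → ℝ)) :=
  {V | ∃ l b s, V = UR l b s} ∪ {V | IsOpen V ∧ ∀ y : KK → ℕ, (fun k => (y k : ℝ)) ∉ V}

theorem isOpen_ball' (k : KK) (c r : ℝ) : IsOpen {x : KK → ℝ | |x k - c| < r} :=
  isOpen_lt (by fun_prop) continuous_const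

theorem basis_BR : IsTopologicalBasis BR := by
  classical
  refine isTopologicalBasis_of_isOpen_of_nhds ?_ fun x O hx hO => ?_
  · rintro _ (⟨l, b, s, rfl⟩ | h)
    · have : UR l b s = (⋂ k ∈ b, {x : KK → ℝ | |x k - s k| < 1 / (b.card + 2)}) ∩
          ⋃ m, ⋃ a, ⋃ r, ⋃ j : ℕ, ⋃ (_ : (∀ k ∈ a, k.1 ≤ m) ∧ opt m a r = (l, b)),
          ({x : KK → ℝ | |x (δ m a r) - j| < 1} ∩
          ⋂ i ∈ Finset.range j, {x : KK → ℝ | |x (γ m a i) - r i| < 1}) := by
        ext x
        simp only [UR, mem_ofPred_eq, mem_inter_iff, mem_iInter, mem_iUnion, Finset.mem_range,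
          exists_prop, and_assoc]
      rw [this]
      refine (isOpen_biInter_finset fun k _ => isOpen_ball' _ _ _).inter ?_
      refine isOpen_iUnion fun m => isOpen_iUnion fun a => isOpen_iUnion fun r =>
        isOpen_iUnion fun j => isOpen_iUnion fun _ => (isOpen_ball' _ _ _).inter ?_
      exact isOpen_biInter_finset fun k _ => isOpen_ball' _ _ _
    · exact h.1
  by_cases hy : ∃ y : KK → ℕ, x = fun k => (y k : ℝ)
  · obtain ⟨y, rfl⟩ := hy
    have h1 := hO.mem_nhds hx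
    rw [nhds_pi, Filter.mem_pi'] at h1
    obtain ⟨a0, t, h2, h3⟩ := h1
    have h4 : ∀ᶠ N : ℕ in atTop, ∀ k ∈ a0, Metric.ball (y k : ℝ) (1 / (N + 1)) ⊆ t k := by
      refine (eventually_all_finset a0).2 fun k _ => ?_
      obtain ⟨ε, h5, h6⟩ := Metric.mem_nhds_iff.1 (h2 k)
      filter_upwards [(tendsto_one_div_add_atTop_nhds_zero_nat (𝕜 := ℝ)).eventually
        (gt_mem_nhds h5)] with N hN using (Metric.ball_subset_ball hN.le).trans h6
    obtain ⟨N, h5, h6⟩ := (h4.and (eventually_ge_atTop a0.card)).exists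
    obtain ⟨a, h7, h8⟩ := Infinite.exists_superset_card_eq a0 N h6
    have h9 : ∀ k ∈ a, k.1 ≤ a.sup Prod.fst := fun k hk => Finset.le_sup (f := Prod.fst) hk
    obtain ⟨-, h10, -⟩ := opt_spec h9 fun i => y (γ (a.sup Prod.fst) a i)
    obtain ⟨⟨l, b⟩, hlb⟩ : ∃ p, opt (a.sup Prod.fst) a (fun i => y (γ (a.sup Prod.fst) a i)) = p :=
      ⟨_, rfl⟩
    rw [hlb] at h10
    refine ⟨UR l b y, Or.inl ⟨_, _, y, rfl⟩, ⟨fun k _ => by simp; positivity, _, a,
      fun i => y (γ (a.sup Prod.fst) a i), y (δ _ _ _), h9, hlb,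
      by rw [sub_self, abs_zero]; exact one_pos, by simp⟩, ?_⟩
    rintro x ⟨h11, -⟩
    refine h3 fun k hk => h5 k hk ((h11 k (h10 (h7 hk))).trans_le ?_)
    have : (N : ℝ) ≤ b.card := by exact_mod_cast h8 ▸ Finset.card_le_card h10
    exact one_div_le_one_div_of_le (by positivity) (by linarith)
  · obtain ⟨k, hk⟩ : ∃ k, x k ∉ range (Nat.cast : ℕ → ℝ) := by
      by_contra h
      push Not at h
      choose y h using h
      exact hy ⟨y, funext fun k => (h k).symm⟩
    refine ⟨O ∩ {x | x k ∉ range (Nat.cast : ℕ → ℝ)}, Or.inr ⟨hO.inter ?_,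
      fun y h => h.2 ⟨_, rfl⟩⟩, ⟨hx, hk⟩, inter_subset_left⟩
    exact Nat.isClosedEmbedding_coe_real.isClosed_range.isOpen_compl.preimage
      (f := fun x : KK → ℝ => x k) (continuous_apply k)

theorem nat_close {a b : ℕ} (h : |(a : ℝ) - b| < 1) : a = b := by
  rw [abs_lt] at h
  have h1 : (a : ℝ) < (b + 1 : ℕ) := by push_cast; linarith
  have h2 : (b : ℝ) < (a + 1 : ℕ) := by push_cast; linarith
  have := Nat.cast_lt.1 h1
  have := Nat.cast_lt.1 h2
  omega

theorem irres_BR (B0 B1 : Set (Set (KK → ℝ))) (hu : B0 ∪ B1 = BR) (hd : Disjoint B0 B1)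
    (h0 : IsTopologicalBasis B0) (h1 : IsTopologicalBasis B1) : False := by
  classical
  have he : Function.Injective ee := exists_e.choose_spec
  have ho : Function.Surjective oo := exists_o.choose_spec
  let C : (KK → ℕ) → ℕ → Finset KK → Prop := fun y l b => (∀ k ∈ b, k.1 ≤ l) ∧ UR l b y ∈ B0
  have hU : ∀ l b y y', (∀ k ∈ b, y k = y' k) → UR l b y = UR l b y' := by
    intro l b y y' h
    ext x
    exact and_congr_left' (forall₂_congr fun k hk => by rw [h k hk])
  let R : ((ℕ → Finset KK → Prop)) → ℕ → Finset KK → ℕ → ℕ := fun S m a =>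
    Classical.epsilon fun r => S (opt m a r).1 (opt m a r).2
  let Ψ : (ℕ → ℕ → Finset KK → Prop) → Finset KK × ℕ × (ℕ ⊕ (ℕ → ℕ)) → ℕ := fun S q =>
    q.2.2.elim (R (S (due q.2.1 q.1)) q.2.1 q.1) fun r =>
      sInf {i | r i ≠ R (S (due q.2.1 q.1)) q.2.1 q.1 i} + 1
  obtain ⟨y, hy⟩ := exists_fix Prod.fst
    (fun (y : KK → ℕ) k => if due (Function.invFun ee k.2).2.1 (Function.invFun ee k.2).1 < k.1 then
      Ψ (Serve Prod.fst Prod.snd (C y)) (Function.invFun ee k.2) else 0)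
    (fun y y' k h => by
      split_ifs with hk
      · simp only [Ψ]
        rw [serve_congr _ _ (C' := C y') fun l hl => funext fun b => propext (and_congr_right
          fun hb => by rw [hU l b y y' fun k' hk' => h k' (((hb k' hk').trans hl).trans_lt hk)])]
      · rfl)
  let S := Serve Prod.fst Prod.snd (C y)
  have e1 : ∀ m a i, y (γ m a i) = R (S (due m a)) m a i := fun m a i => by
    rw [hy]
    simp [γ, Function.leftInverse_invFun he _, Ψ, S]
  have e2 : ∀ m a r, y (δ m a r) = sInf {i | r i ≠ R (S (due m a)) m a i} + 1 := fun m a r => by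
    rw [hy]
    simp [δ, Function.leftInverse_invFun he _, Ψ, S]
  have e3 : ∀ m a, (∀ k ∈ a, k.1 ≤ m) → S (due m a) (opt m a (R (S (due m a)) m a)).1
      (opt m a (R (S (due m a)) m a)).2 := by
    intro m a ha
    refine Classical.epsilon_spec (p := fun r => S (due m a) (opt m a r).1 (opt m a r).2) ?_
    obtain ⟨l, b, h2, h3, h4⟩ := exists_serve Prod.fst Prod.snd (C y) (le_max_left _ _) ha
      fun k hk => (Finset.le_sup (f := fun k : KK => k.2 m) hk).trans (le_max_right m _)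
    obtain ⟨r, hr⟩ := ho (l, b)
    refine ⟨r, ?_⟩
    have : opt m a r = (l, b) := by
      unfold opt
      rw [hr, if_pos ⟨h2, h4.1, h3, h4.2.1⟩]
    rw [this]
    exact h4
  have key : ∀ {B : Set (Set (KK → ℝ))}, IsTopologicalBasis B → B ⊆ BR → ∀ k0,
      (∀ m a r, k0 ≠ δ m a r) → ∃ n l b, UR l b y ∈ B ∧ S n l b ∧ k0 ∈ b := by
    intro B hB hB' k0 hk0
    obtain ⟨V, h2, h3, h4⟩ := hB.exists_subset_of_mem_open (a := fun k => (y k : ℝ))
      (by simp) (isOpen_ball' k0 (y k0) 1)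
    rcases hB' h2 with ⟨l, b, s, rfl⟩ | h5
    · obtain ⟨h5, m, a, r, j, h6, h7, h8, h9⟩ := h3
      have h10 : ∀ k ∈ b, s k = y k := fun k hk => (nat_close ((h5 k hk).trans_le (by
        rw [div_le_one (by positivity)]
        linarith [Nat.cast_nonneg (α := ℝ) b.card]))).symm
      have h11 : r = R (S (due m a)) m a := by
        by_contra h
        have h12 := Nat.sInf_mem (Function.ne_iff.1 h)
        refine h12 ((nat_close (h9 _ ?_)).symm.trans (e1 _ _ _))
        rw [← nat_close h8, e2]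
        exact Nat.lt_succ_self _
      have h12 := e3 m a h6
      have h13 := opt_spec h6 r
      rw [← h11, h7] at h12
      rw [h7] at h13
      refine ⟨_, l, b, hU _ _ _ _ h10 ▸ h2, h12, ?_⟩
      by_contra hk
      have := @h4 (fun k => if k = k0 then y k0 + 1 else if k = δ m a r then 0 else y k)
        ⟨fun k hk' => by
          have h14 := (h13.2.2 k hk').trans h13.1
          beta_reduce
          rw [if_neg (fun h : k = k0 => hk (h ▸ hk')), if_neg (by
            rintro rfl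
            simp [δ] at h14)]
          exact h5 k hk', m, a, r, 0, h6, h7, by simp [(hk0 m a r).symm], by simp⟩
      simp at this
    · exact (h5.2 y h3).elim
  rcases core Prod.fst Prod.snd (fun f => ⟨(0, f), rfl, rfl⟩) (C y) with ⟨k0, hk, h⟩ | ⟨m, h⟩
  · obtain ⟨n, l, b, h2, h3, h4⟩ := key h1 (hu ▸ subset_union_right) k0 (by
      rintro m a r rfl
      simp [δ] at hk)
    exact disjoint_left.1 hd (h n l b h3 h4).2 h2
  · obtain ⟨n, l, b, h2, h3, h4⟩ := key h0 (hu ▸ subset_union_left) (m, ee (∅, 0, Sum.inl 0))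
      (fun m' a r h => by simpa using he (congrArg Prod.snd h))
    exact h n l b h3 (h3.2.1 _ h4) ⟨h3.2.1, h2⟩

theorem no_isol_R (x : KK → ℝ) : ¬ IsOpen {x} := by
  intro h
  have := (isOpenMap_eval (X := fun _ : KK => ℝ) default) _ h
  rw [image_singleton] at this
  exact not_isOpen_singleton _ this

instance : SeparableSpace (KK → ℝ) := by
  classical
  obtain ⟨e⟩ : #KK ≤ #ℝ := by simp [mk_real]
  refine DenseRange.separableSpace (f := fun (f : C(ℝ, ℝ)) (k : KK) => f (e k)) ?_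
    (continuous_pi fun k => continuous_eval_const _)
  refine dense_iff_inter_open.2 fun O hO ⟨x, hx⟩ => ?_
  have h1 := hO.mem_nhds hx
  rw [nhds_pi, Filter.mem_pi'] at h1
  obtain ⟨a, t, h2, h3⟩ := h1
  let p := Lagrange.interpolate a e x
  refine ⟨_, h3 fun k hk => ?_, ⟨⟨fun u => p.eval u, p.continuous⟩, rfl⟩⟩
  simp only [ContinuousMap.coe_mk, p]
  rw [Lagrange.eval_interpolate_at_node _ e.injective.injOn hk]
  exact mem_of_mem_nhds (h2 k)

end Pool.Agent.H39.Res
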