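import Mathlib
import Pool.Agent.H39.Res1

set_option autoImplicit false

namespace Pool.Agent.H39.Res

open Set Filter Topology

def A (τ : ℕ → ℕ) (k : ℕ) : Prop := ∃ s ≤ k, τ s + s = k

theorem A_unb (τ : ℕ → ℕ) (j : ℕ) : ∃ k, j < k ∧ A τ k :=
  ⟨τ (j + 1) + (j + 1), by omega, j + 1, by omega, rfl⟩

theorem A_zero (k : ℕ) : A 0 k := ⟨k, le_rfl, by simp⟩

theorem not_A (k : ℕ) : ¬ A (fun _ => k + 1) k := by
  rintro ⟨s, -, h⟩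
  beta_reduce at h
  omega

theorem exists_A {p : ℕ → Prop} (h : {k | p k}.Infinite) : ∃ τ, ∀ k, A τ k ↔ p k := by
  have h1 := fun s => Nat.le_nth (p := p) (n := s) fun h' => absurd h' h
  refine ⟨fun s => Nat.nth p s - s, fun k => ⟨?_, fun hk => ?_⟩⟩
  · rintro ⟨s, -, rfl⟩
    rw [Nat.sub_add_cancel (h1 s)]
    exact Nat.nth_mem_of_infinite h s
  · obtain ⟨s, rfl⟩ : k ∈ range (Nat.nth p) := (Nat.range_nth_of_infinite h).symm ▸ hk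
    exact ⟨s, h1 s, Nat.sub_add_cancel (h1 s)⟩

theorem exists_mu (τ : ℕ → ℕ) (k : ℕ) : ∃ μ, μ ≠ τ ∧ (A τ k ↔ A μ k) := by
  refine ⟨Function.update τ (k + 1) (τ (k + 1) + 1), fun h => by simpa using congrFun h (k + 1),
    exists_congr fun s => and_congr_right fun hs => ?_⟩
  rw [Function.update_of_ne (by omega)]

def UL (π : ℕ → ℕ → ℕ) (j : ℕ) (τ : ℕ → ℕ) : Set (ℕ → ℕ → ℕ) :=
  {ζ | (∀ i < j, ζ i = π i) ∧
    ∀ k, j ≤ k → (∃ i, j ≤ i ∧ i ≤ k ∧ ζ i = τ ∧ A τ i) ∨ (A τ k ↔ ¬ A (ζ k) k)}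

theorem UL_congr {π π' : ℕ → ℕ → ℕ} {j : ℕ} (h : ∀ i < j, π i = π' i) (τ : ℕ → ℕ) :
    UL π j τ = UL π' j τ := by
  ext ζ
  exact and_congr_left' (forall₂_congr fun i hi => by rw [h i hi])

theorem isClosed_UL (π : ℕ → ℕ → ℕ) (j : ℕ) (τ : ℕ → ℕ) : IsClosed (UL π j τ) := by
  have e : UL π j τ = (⋂ i ∈ Finset.range j, {ζ | ζ i = π i}) ∩ ⋂ k, ⋂ (_ : j ≤ k),
      ((⋃ i ∈ (Finset.Icc j k : Set ℕ) ∩ {i | A τ i}, {ζ | ζ i = τ}) ∪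
        (fun ζ (s : Fin (k + 1)) => ζ k s) ⁻¹' {f | A τ k ↔ ¬ ∃ s : Fin (k + 1), f s + s = k}) := by
    ext ζ
    have : ∀ k, A (ζ k) k ↔ ∃ s : Fin (k + 1), ζ k s + s = k := fun k =>
      ⟨fun ⟨s, h1, h2⟩ => ⟨⟨s, by omega⟩, h2⟩, fun ⟨s, h⟩ => ⟨s, by omega, h⟩⟩
    simp only [UL, this, mem_ofPred_eq, mem_inter_iff, mem_iInter, Finset.mem_range, mem_union,
      mem_iUnion, mem_preimage, Finset.coe_Icc, mem_Icc, exists_prop]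
    refine and_congr_right fun _ => forall₂_congr fun k _ => or_congr_left ?_
    exact exists_congr fun i => by tauto
  rw [e]
  refine (isClosed_biInter fun i _ => isClosed_eq (by fun_prop) continuous_const).inter
    (isClosed_iInter fun k => isClosed_iInter fun _ => IsClosed.union ?_ ?_)
  · exact ((Finset.finite_toSet _).inter_of_left _).isClosed_biUnion fun i _ =>
      isClosed_eq (by fun_prop) continuous_const
  · exact (isClosed_discrete _).preimage (by fun_prop)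

theorem of_sub {π π' : ℕ → ℕ → ℕ} {j j' : ℕ} {τ τ' : ℕ → ℕ} (hj : A τ j) (hj' : A τ' j')
    (h : UL π' j' τ' ⊆ UL π j τ) : j ≤ j' ∧ (τ' = τ ∨ ∃ i < j', π' i = τ ∧ A τ i) := by
  obtain ⟨μ, h1, h2⟩ := exists_mu τ (max (j' + 1) j)
  have h3 := @h (fun i => if i < j' then π' i else if i = j' then τ' else μ)
    ⟨fun i hi => if_pos hi, fun k hk => Or.inl ⟨j', le_rfl, hk, by simp, hj'⟩⟩
  rcases h3.2 _ (le_max_right (j' + 1) j) with ⟨i, h4, h5, h6, h7⟩ | h4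
  · beta_reduce at h6
    split_ifs at h6 with h8 h9
    · exact ⟨by omega, Or.inr ⟨i, h8, h6, h7⟩⟩
    · exact ⟨by omega, Or.inl h6⟩
    · exact absurd h6 h1
  · beta_reduce at h4
    rw [if_neg (by omega), if_neg (by omega)] at h4
    tauto

def FL : Set (Set (ℕ → ℕ → ℕ)) := {V | ∃ π j τ, A τ j ∧ V = UL π j τ}

theorem fill_FL : ∀ U ∈ FL, ∀ ζ ∈ U, ∃ W ∈ FL, W ≠ U ∧ ζ ∈ W ∧ W ⊆ U := by
  rintro _ ⟨π, j, τ, hj, rfl⟩ ζ hζ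
  suffices ∃ j' τ', j < j' ∧ A τ' j' ∧ ζ ∈ UL ζ j' τ' ∧ UL ζ j' τ' ⊆ UL π j τ by
    obtain ⟨j', τ', h1, h2, h3, h4⟩ := this
    exact ⟨_, ⟨ζ, j', τ', h2, rfl⟩, fun h => by have := (of_sub h2 hj h.ge).1; omega, h3, h4⟩
  by_cases h : ∃ i, j ≤ i ∧ ζ i = τ ∧ A τ i
  · obtain ⟨i, h1, h2, h3⟩ := h
    obtain ⟨j', τ', h4, h5, h6⟩ : ∃ j' τ', i < j' ∧ A τ' j' ∧ ζ ∈ UL ζ j' τ' := by
      by_cases h : ∃ j', i < j' ∧ A (ζ j') j'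
      · obtain ⟨j', h4, h5⟩ := h
        exact ⟨j', _, h4, h5, fun _ _ => rfl, fun k hk => Or.inl ⟨j', le_rfl, hk, rfl, h5⟩⟩
      · push Not at h
        exact ⟨i + 1, 0, by omega, A_zero _, fun _ _ => rfl,
          fun k hk => Or.inr (iff_of_true (A_zero k) (h k hk))⟩
    refine ⟨j', τ', by omega, h5, h6, fun ζ' h7 =>
      ⟨fun k hk => (h7.1 k (by omega)).trans (hζ.1 k hk), fun k hk => ?_⟩⟩
    by_cases h8 : i ≤ k
    · exact Or.inl ⟨i, h1, h8, (h7.1 i h4).trans h2, h3⟩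
    · rw [h7.1 k (by omega)]
      exact (hζ.2 k hk).imp_left fun ⟨i', a1, a2, a3, a4⟩ =>
        ⟨i', a1, a2, (h7.1 i' (by omega)).trans a3, a4⟩
  · obtain ⟨j', h1, h2⟩ := A_unb τ j
    have h3 : ∀ k, j ≤ k → (A τ k ↔ ¬ A (ζ k) k) := fun k hk =>
      (hζ.2 k hk).resolve_left fun ⟨i, a1, _, a3⟩ => h ⟨i, a1, a3⟩
    refine ⟨j', τ, h1, h2, ⟨fun _ _ => rfl, fun k hk => Or.inr (h3 k (by omega))⟩, fun ζ' h7 =>
      ⟨fun k hk => (h7.1 k (by omega)).trans (hζ.1 k hk), fun k hk => ?_⟩⟩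
    by_cases h8 : j' ≤ k
    · exact (h7.2 k h8).imp_left fun ⟨i, a1, a2⟩ => ⟨i, by omega, a2⟩
    · rw [h7.1 k (by omega)]
      exact Or.inr (h3 k hk)

theorem irres_FL (c : Set (ℕ → ℕ → ℕ) → Prop)
    (h0 : ∀ U ∈ FL, ∀ ζ ∈ U, ∃ W ∈ FL, c W ∧ ζ ∈ W ∧ W ⊆ U)
    (h1 : ∀ U ∈ FL, ∀ ζ ∈ U, ∃ W ∈ FL, ¬ c W ∧ ζ ∈ W ∧ W ⊆ U) : False := by
  classical
  obtain ⟨ζ, hζ⟩ := exists_fix (α := ℕ → ℕ) id
    (fun ζ j => if h : ∃ τ, A τ j ∧ c (UL ζ j τ) then h.choose else fun _ => j + 1)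
    (fun ζ ζ' j h => by simp only [UL_congr (j := j) h])
  have e1 : ∀ j, A (ζ j) j → c (UL ζ j (ζ j)) := fun j hj => by
    by_cases h : ∃ τ, A τ j ∧ c (UL ζ j τ)
    · have := h.choose_spec.2
      rwa [← dif_pos (e := fun _ => fun _ => j + 1) (t := fun h => h.choose) h, ← hζ j] at this
    · rw [hζ j, dif_neg h] at hj
      exact absurd hj (not_A j)
  have e2 : ∀ j, ¬ A (ζ j) j → ∀ τ, A τ j → ¬ c (UL ζ j τ) := fun j hj τ h2 h3 => by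
    have h : ∃ τ, A τ j ∧ c (UL ζ j τ) := ⟨τ, h2, h3⟩
    rw [hζ j, dif_pos h] at hj
    exact hj h.choose_spec.1
  by_cases h : {k | ¬ A (ζ k) k}.Infinite
  · obtain ⟨τ, hτ⟩ := exists_A h
    obtain ⟨j, -, hj⟩ := A_unb τ 0
    obtain ⟨_, ⟨π, j', τ', h2, rfl⟩, h3, h4, h5⟩ := h0 _ ⟨ζ, j, τ, hj, rfl⟩ ζ
      ⟨fun _ _ => rfl, fun k _ => Or.inr (hτ k)⟩
    rw [← UL_congr h4.1] at h3 h5
    rcases (of_sub hj h2 h5).2 with rfl | ⟨i, -, h6, h7⟩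
    · exact e2 j' ((hτ _).1 h2) _ h2 h3
    · exact (hτ i).1 h7 (h6 ▸ h7)
  · obtain ⟨j, hj⟩ := (not_infinite.1 h).bddAbove
    have h6 : ∀ k, j < k → A (ζ k) k := fun k hk => by
      by_contra h'
      exact absurd (hj h') (by omega)
    obtain ⟨_, ⟨π, j', τ', h2, rfl⟩, h3, h4, h5⟩ := h1 _ ⟨ζ, j + 1, _, h6 _ (by omega), rfl⟩ ζ
      ⟨fun _ _ => rfl, fun k hk => Or.inl ⟨j + 1, le_rfl, hk, rfl, h6 _ (by omega)⟩⟩
    rw [← UL_congr h4.1] at h3 h5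
    have h7 := (of_sub (h6 _ (by omega)) h2 h5).1
    rcases h4.2 j' le_rfl with ⟨i, a1, a2, a3, -⟩ | h8
    · obtain rfl : i = j' := by omega
      exact h3 (a3 ▸ e1 i (h6 i h7))
    · exact h8.1 h2 (h6 _ h7)

end Pool.Agent.H39.Res
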