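import Mathlib
import Pool.Agent.H39.Res1

set_option autoImplicit false

namespace Pool.Agent.H39.Res

open Set Filter Topology TopologicalSpace Cardinal

def HH (x : ℕ → WithBot ℝ) : Prop := ∀ n, ∃ i, n ≤ i ∧ x i = ⊥

def LL : Type :=
  {p : Lex (Lex (ℕ → WithBot ℝ) × ℝ) // (ofLex p).2 = 1 ∨ (HH (ofLex (ofLex p).1) ∧ (ofLex p).2 ≤ 0)}

noncomputable instance : LinearOrder LL := Subtype.instLinearOrder _
noncomputable instance : TopologicalSpace LL := Preorder.topology LL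
instance : OrderTopology LL := ⟨rfl⟩

def LL.x (p : LL) : ℕ → WithBot ℝ := ofLex (ofLex p.1).1
def LL.r (p : LL) : ℝ := (ofLex p.1).2
def top (x : ℕ → WithBot ℝ) : LL := ⟨toLex (toLex x, 1), Or.inl rfl⟩
def low (x : ℕ → WithBot ℝ) (h : HH x) (r : ℝ) (hr : r ≤ 0) : LL :=
  ⟨toLex (toLex x, r), Or.inr ⟨h, hr⟩⟩

theorem LL.cases (p : LL) : p.r = 1 ∨ (HH p.x ∧ p.r ≤ 0) := p.2

theorem LL.lt_iff {p q : LL} : p < q ↔
    (∃ i, (∀ j < i, p.x j = q.x j) ∧ p.x i < q.x i) ∨ (p.x = q.x ∧ p.r < q.r) :=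
  Prod.Lex.lt_iff

theorem LL.eq_top {p : LL} (h : p.r = 1) : p = top p.x :=
  Subtype.ext (Prod.ext rfl h)

def Cn (x : ℕ → WithBot ℝ) (j : ℕ) : Set LL := {p | ∀ i < j, p.x i = x i}

theorem Cn_conv {x : ℕ → WithBot ℝ} {j : ℕ} {a b p : LL} (ha : a ∈ Cn x j) (hb : b ∈ Cn x j)
    (h1 : a < p) (h2 : p < b) : p ∈ Cn x j := by
  intro i hi
  induction i using Nat.strong_induction_on with
  | _ i ih =>
    have e : ∀ {a p : LL}, a < p → (∀ k < i, a.x k = p.x k) → a.x i ≤ p.x i := by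
      intro a p h h'
      rcases LL.lt_iff.1 h with ⟨k, h3, h4⟩ | h3
      · rcases lt_trichotomy k i with h5 | rfl | h5
        · exact absurd (h' k h5) h4.ne
        · exact h4.le
        · exact (h3 i h5).le
      · rw [h3.1]
    refine le_antisymm ?_ ?_
    · rw [← hb i hi]
      exact e h2 fun k hk => (ih k hk (by omega)).trans (hb k (by omega)).symm
    · rw [← ha i hi]
      exact e h1 fun k hk => (ha k (by omega)).trans (ih k hk (by omega)).symm

theorem exists_up (p : LL) (j : ℕ) : ∃ b ∈ Cn p.x j, p < b := by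
  obtain ⟨t, ht⟩ := exists_gt (p.x j)
  exact ⟨top (Function.update p.x j t), fun i hi => Function.update_of_ne hi.ne _ _,
    LL.lt_iff.2 (Or.inl ⟨j, fun i hi => (Function.update_of_ne hi.ne _ _).symm,
      ht.trans_eq (Function.update_self j t p.x).symm⟩)⟩

theorem exists_step {x : ℕ → WithBot ℝ} (h : ¬ HH x) : ∃ n, ∀ i, n ≤ i → ∃ t : ℝ, x i = t := by
  unfold HH at h
  push Not at h
  exact h.imp fun n h i hi => (WithBot.ne_bot_iff_exists.1 (h i hi)).imp fun _ h => h.symm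

theorem exists_down (p : LL) (j : ℕ) : ∃ a ∈ Cn p.x j, a < p := by
  by_cases h : HH p.x
  · refine ⟨low p.x h (min p.r 0 - 1) (by linarith [min_le_right p.r 0]), fun _ _ => rfl,
      LL.lt_iff.2 (Or.inr ⟨rfl, ?_⟩)⟩
    change min p.r 0 - 1 < p.r
    linarith [min_le_left p.r 0]
  · obtain ⟨n, hn⟩ := exists_step h
    obtain ⟨t, ht⟩ := hn (max n j) (le_max_left _ _)
    refine ⟨top (Function.update p.x (max n j) ⊥),
      fun i hi => Function.update_of_ne (by omega) _ _,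
      LL.lt_iff.2 (Or.inl ⟨max n j, fun i hi => Function.update_of_ne hi.ne _ _, ?_⟩)⟩
    rw [ht]
    exact (Function.update_self (max n j) ⊥ p.x).trans_lt (WithBot.bot_lt_coe t)

instance : NoMaxOrder LL := ⟨fun p => (exists_up p 0).imp fun _ h => h.2⟩
instance : NoMinOrder LL := ⟨fun p => (exists_down p 0).imp fun _ h => h.2⟩

theorem isOpen_Cn (x : ℕ → WithBot ℝ) (j : ℕ) : IsOpen (Cn x j) := by
  refine isOpen_iff_mem_nhds.2 fun p hp => ?_
  obtain ⟨a, h1, h2⟩ := exists_down p j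
  obtain ⟨b, h3, h4⟩ := exists_up p j
  exact mem_of_superset (Ioo_mem_nhds h2 h4) fun q hq i hi =>
    (Cn_conv h1 h3 hq.1 hq.2 i hi).trans (hp i hi)

theorem exists_dec : ∃ d : ℝ → ℕ → WithBot ℝ, Function.Surjective d := by
  have : #(ℕ → WithBot ℝ) ≤ #ℝ := by
    have : #(WithBot ℝ) = 𝔠 := by
      change #(Option ℝ) = 𝔠
      rw [mk_option, mk_real, add_one_eq aleph0_le_continuum]
    simp [mk_real, this]
  obtain ⟨e⟩ := this
  exact ⟨_, Function.invFun_surjective e.injective⟩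

noncomputable def dec := exists_dec.choose

open Classical in
noncomputable def cut (x : ℕ → WithBot ℝ) : LL := if h : HH x then low x h 0 le_rfl else top x

def UO (x : ℕ → WithBot ℝ) (j : ℕ) (t : ℝ) : Set LL :=
  {p | p ∈ Cn x j ∧ (p.x j = t ∨ (p.x j = ⊥ ∧ cut (dec t) < p))}

def BO : Set (Set LL) := {V | ∃ x j t, V = UO x j t} ∪ {V | IsOpen V ∧ ∀ p ∈ V, p.r ≤ 0}

theorem isOpen_at (x : ℕ → WithBot ℝ) (j : ℕ) (t : WithBot ℝ) :
    IsOpen {p | p ∈ Cn x j ∧ p.x j = t} := by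
  have : {p | p ∈ Cn x j ∧ p.x j = t} = Cn (Function.update x j t) (j + 1) := by
    ext p
    simp only [Cn, mem_ofPred_eq, Nat.forall_lt_succ_right, Function.update_self]
    exact and_congr_left' (forall₂_congr fun i hi => by rw [Function.update_of_ne hi.ne])
  rw [this]
  exact isOpen_Cn _ _

theorem below {p b : LL} (hp : p.r = 1) (h : p < b) : ∃ n, ∀ q ∈ Cn p.x n, q < b := by
  rcases LL.lt_iff.1 h with ⟨k, h1, h2⟩ | ⟨-, h1⟩
  · exact ⟨k + 1, fun q hq => LL.lt_iff.2 (Or.inl ⟨k, fun i hi =>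
      (hq i (by omega)).trans (h1 i hi), (hq k (by omega)).trans_lt h2⟩)⟩
  · rcases b.cases with h2 | h2 <;> linarith [h2]

theorem top_le {x : ℕ → WithBot ℝ} {h : HH x} {q : LL} (hq : low x h 0 le_rfl < q) :
    top x ≤ q := by
  rcases LL.lt_iff.1 hq with h1 | ⟨h1, h2⟩
  · exact (LL.lt_iff.2 (Or.inl h1) : top x < q).le
  · rcases q.cases with h3 | h3
    · rw [LL.eq_top h3, ← h1]
      rfl
    · exact absurd h2 (not_lt.2 h3.2)

theorem low_nhds {p : LL} (hp : p.r ≤ 0) : {q : LL | q.r ≤ 0} ∈ 𝓝 p := by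
  obtain ⟨a, -, h1⟩ := exists_down p 0
  have h2 : HH p.x := (p.cases.resolve_left (by linarith)).1
  refine mem_of_superset (Ioo_mem_nhds (a := low p.x h2 (p.r - 1) (by linarith)) (b := top p.x)
    (LL.lt_iff.2 (Or.inr ⟨rfl, sub_one_lt _⟩))
    (LL.lt_iff.2 (Or.inr ⟨rfl, hp.trans_lt one_pos⟩))) fun q hq => ?_
  rcases q.cases with h3 | h3
  · have h4 : q.x = p.x := funext fun i =>
      Cn_conv (x := p.x) (j := i + 1) (a := low p.x h2 (p.r - 1) (by linarith)) (b := top p.x)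
        (fun _ _ => rfl) (fun _ _ => rfl) hq.1 hq.2 i (by omega)
    have := hq.2
    rw [LL.eq_top h3, h4] at this
    exact absurd this (lt_irrefl _)
  · exact h3.2

theorem basis_BO : IsTopologicalBasis BO := by
  refine isTopologicalBasis_of_isOpen_of_nhds ?_ fun p O hp hO => ?_
  · rintro _ (⟨x, j, t, rfl⟩ | h)
    · have : UO x j t = {p | p ∈ Cn x j ∧ p.x j = t} ∪
          ({p | p ∈ Cn x j ∧ p.x j = ⊥} ∩ Ioi (cut (dec t))) := by
        ext p
        simp only [UO, mem_ofPred_eq, mem_union, mem_inter_iff, mem_Ioi]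
        tauto
      rw [this]
      exact (isOpen_at _ _ _).union ((isOpen_at _ _ _).inter isOpen_Ioi)
    · exact h.1
  rcases p.cases with h1 | h1
  · obtain ⟨a, b, ⟨h2, h3⟩, h4⟩ := mem_nhds_iff_exists_Ioo_subset.1 (hO.mem_nhds hp)
    obtain ⟨n, hn⟩ := below h1 h3
    by_cases h : HH p.x
    · obtain ⟨j, h5, h6⟩ := h n
      obtain ⟨t, ht⟩ := exists_dec.choose_spec p.x
      have h7 : cut (dec t) = low p.x h 0 le_rfl := by
        rw [show dec t = p.x from ht, cut, dif_pos h]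
      refine ⟨_, Or.inl ⟨p.x, j, t, rfl⟩, ⟨fun _ _ => rfl, Or.inr ⟨h6, ?_⟩⟩,
        fun q hq => h4 ⟨?_, hn q fun i hi => hq.1 i (by omega)⟩⟩
      · rw [h7]
        exact LL.lt_iff.2 (Or.inr ⟨rfl, h1 ▸ one_pos⟩)
      · rcases hq.2 with h8 | h8
        · refine h2.trans (LL.lt_iff.2 (Or.inl ⟨j, fun i hi => (hq.1 i hi).symm, ?_⟩))
          rw [h6, h8]
          exact WithBot.bot_lt_coe t
        · rw [h7] at h8
          exact h2.trans_le (LL.eq_top h1 ▸ top_le h8.2)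
    · obtain ⟨m, hm⟩ := exists_step h
      rcases LL.lt_iff.1 h2 with ⟨k, h5, h6⟩ | ⟨h5, h6⟩
      · obtain ⟨t, ht⟩ := hm (max m (max n (k + 1))) (le_max_left _ _)
        refine ⟨_, Or.inl ⟨p.x, _, t, rfl⟩, ⟨fun _ _ => rfl, Or.inl ht⟩, fun q hq =>
          h4 ⟨LL.lt_iff.2 (Or.inl ⟨k, fun i hi => (h5 i hi).trans (hq.1 i (by omega)).symm,
            h6.trans_eq (hq.1 k (by omega)).symm⟩), hn q fun i hi => hq.1 i (by omega)⟩⟩
      · rcases a.cases with h7 | h7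
        · linarith
        · exact absurd (h5 ▸ h7.1) h
  · exact ⟨O ∩ interior {q | q.r ≤ 0}, Or.inr ⟨hO.inter isOpen_interior,
      fun q hq => interior_subset (s := {q : LL | q.r ≤ 0}) hq.2⟩, ⟨hp, mem_interior_iff_mem_nhds.2 (low_nhds h1.2)⟩,
      inter_subset_left⟩

theorem no_isol_LL (p : LL) : ¬ IsOpen {p} := by
  intro h
  obtain ⟨a, b, ⟨h2, h3⟩, h4⟩ := mem_nhds_iff_exists_Ioo_subset.1 (h.mem_nhds rfl)
  rcases p.cases with h1 | h1
  · obtain ⟨n, hn⟩ := below h1 h3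
    obtain ⟨q, h5, h6⟩ := exists_up p n
    exact h6.ne' (h4 ⟨h2.trans h6, hn q h5⟩)
  · obtain ⟨r, h5, h6⟩ : ∃ r < p.r, a.x = p.x → a.r < p.r → a.r < r := by
      by_cases h : a.r < p.r
      · exact (exists_between h).imp fun r h => ⟨h.2, fun _ _ => h.1⟩
      · exact ⟨p.r - 1, sub_one_lt _, fun _ h' => (h h').elim⟩
    have h7 : low p.x h1.1 r (h5.le.trans h1.2) < p := LL.lt_iff.2 (Or.inr ⟨rfl, h5⟩)
    refine h7.ne (h4 ⟨?_, h7.trans h3⟩)
    exact LL.lt_iff.2 ((LL.lt_iff.1 h2).imp_right fun h => ⟨h.1, h6 h.1 h.2⟩)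

theorem UO_congr {x x' : ℕ → WithBot ℝ} {j : ℕ} (h : ∀ i < j, x i = x' i) (t : ℝ) :
    UO x j t = UO x' j t := by
  ext p
  exact and_congr_left' (forall₂_congr fun i hi => by rw [h i hi])

theorem irres_BO (B0 : Set (Set LL)) (hB : B0 ⊆ BO) (h0 : IsTopologicalBasis B0)
    (h1 : IsTopologicalBasis (BO \ B0)) : False := by
  classical
  obtain ⟨x, hx⟩ := exists_fix (α := WithBot ℝ) id
    (fun x j => if h : ∃ t, UO x j t ∈ B0 then (h.choose : ℝ) else ⊥)
    (fun x x' j h => by simp only [UO_congr (j := j) h])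
  have e1 : ∀ j (t : ℝ), x j = t → UO x j t ∈ B0 := fun j t hj => by
    by_cases h : ∃ t, UO x j t ∈ B0
    · rw [hx j, dif_pos h] at hj
      exact WithBot.coe_injective hj ▸ h.choose_spec
    · rw [hx j, dif_neg h] at hj
      exact absurd hj WithBot.bot_ne_coe
  have e2 : ∀ j, x j = ⊥ → ∀ t, UO x j t ∉ B0 := fun j hj t h2 => by
    rw [hx j, dif_pos ⟨t, h2⟩] at hj
    exact WithBot.coe_ne_bot hj
  have key : ∀ V ∈ BO, top x ∈ V → ∃ j t, V = UO x j t := by
    rintro _ (⟨x', j, t, rfl⟩ | h) h2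
    · exact ⟨j, t, (UO_congr h2.1 t).symm⟩
    · exact absurd (h.2 _ h2) (not_le.2 one_pos)
  by_cases h : HH x
  · obtain ⟨V, h2, h3, h4⟩ := h0.exists_subset_of_mem_open (a := top x)
      (u := Ioi (low x h 0 le_rfl)) (LL.lt_iff.2 (Or.inr ⟨rfl, one_pos⟩)) isOpen_Ioi
    obtain ⟨j, t, rfl⟩ := key V (hB h2) h3
    rcases h3.2 with h5 | h5
    · exact lt_irrefl _ (mem_Ioi.1 (@h4 (low x h 0 le_rfl) ⟨fun _ _ => rfl, Or.inl h5⟩))
    · exact e2 j h5.1 t h2
  · obtain ⟨n, hn⟩ := exists_step h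
    obtain ⟨V, h2, h3, h4⟩ := h1.exists_subset_of_mem_open (a := top x) (u := Cn x n)
      (fun _ _ => rfl) (isOpen_Cn x n)
    obtain ⟨j, t, rfl⟩ := key V h2.1 h3
    rcases h3.2 with h5 | h5
    · exact h2.2 (e1 j t h5)
    · have h6 : j < n := by
        by_contra h6
        obtain ⟨t', ht'⟩ := hn j (by omega)
        exact WithBot.coe_ne_bot (ht'.symm.trans h5.1)
      have h7 : (top (Function.update x j t)).x j = t := by simp [top, LL.x]
      have := @h4 (top (Function.update x j t)) ⟨fun i hi => Function.update_of_ne hi.ne _ _,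
        Or.inl h7⟩ j h6
      exact WithBot.coe_ne_bot (h7.symm.trans (this.trans h5.1))

end Pool.Agent.H39.Res
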