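import Pool.Agent.H39.FG4

/-! Spectral gap for an integer matrix action on the 4-torus. -/

namespace Pool.Agent.H39.SG

open Set Filter Topology MeasureTheory UnitAddTorus Matrix
open scoped ENNReal

abbrev d : Type := Fin 2 × Fin 2

abbrev T : Type := UnitAddTorus d

noncomputable def m : Measure T := Measure.pi fun _ => AddCircle.haarAddCircle

instance probm : IsProbabilityMeasure m := by unfold m; infer_instance

instance haarm : m.IsAddHaarMeasure := by unfold m; infer_instance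

noncomputable def act (M : Matrix d d ℤ) : T →+ T where
  toFun x i := ∑ j, M i j • x j
  map_zero' := by ext; simp
  map_add' x y := by ext; simp [Finset.sum_add_distrib]

theorem act_apply (M : Matrix d d ℤ) (x : T) (i : d) : act M x i = ∑ j, M i j • x j := rfl

theorem act_mul (M N : Matrix d d ℤ) (x : T) : act (M * N) x = act M (act N x) := by
  ext i
  simp only [act_apply, Matrix.mul_apply, Finset.sum_smul, Finset.smul_sum, mul_smul]
  exact Finset.sum_comm

theorem act_one (x : T) : act 1 x = x := by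
  ext i
  simp [act_apply, Matrix.one_apply]

theorem act_add (M N : Matrix d d ℤ) (x : T) : act (M + N) x = act M x + act N x := by
  ext i
  simp [act_apply, add_smul, Finset.sum_add_distrib]

theorem act_neg (M : Matrix d d ℤ) (x : T) : act (-M) x = -act M x := by
  ext i
  simp [act_apply]

theorem act_zero (x : T) : act 0 x = 0 := by
  ext i
  simp [act_apply]

theorem cont_act (M : Matrix d d ℤ) : Continuous (act M) :=
  continuous_pi fun i => by simp only [act_apply]; fun_prop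

theorem mF_eq (k : d → ℤ) (x : T) : mFourier k x = AddCircle.toCircle (∑ i, k i • x i) := by
  have : ∀ s : Finset d, (AddCircle.toCircle (∑ i ∈ s, k i • x i) : ℂ) =
      ∏ i ∈ s, fourier (k i) (x i) := fun s => by
    induction s using Finset.induction_on with
    | empty => simp
    | insert a s ha ih =>
      rw [Finset.sum_insert ha, Finset.prod_insert ha, AddCircle.toCircle_add, Circle.coe_mul, ih,
        fourier_apply]
  exact (this Finset.univ).symm

theorem mF_act (k : d → ℤ) (M : Matrix d d ℤ) (x : T) :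
    mFourier k (act M x) = mFourier (k ᵥ* M) x := by
  rw [mF_eq, mF_eq]
  congr 2
  simp only [act_apply, vecMul, dotProduct, Finset.sum_smul, Finset.smul_sum, mul_smul]
  exact Finset.sum_comm

theorem mF_add (k : d → ℤ) (x y : T) : mFourier k (x + y) = mFourier k x * mFourier k y := by
  simp only [mF_eq, Pi.add_apply, smul_add, Finset.sum_add_distrib, AddCircle.toCircle_add,
    Circle.coe_mul]

theorem mF_norm (k : d → ℤ) (x : T) : ‖mFourier k x‖ = 1 := by rw [mF_eq, Circle.norm_coe]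

theorem mF_swap (a b : ℤ) (x : T) :
    mFourier (fun _ => a) (b • x) = mFourier (fun _ => b) (a • x) := by
  simp only [mF_eq, Pi.smul_apply, smul_comm a b]

theorem mp_act {M N : Matrix d d ℤ} (h : M * N = 1) : MeasurePreserving (act M) m m :=
  AddMonoidHom.measurePreserving (cont_act M)
    (fun y => ⟨act N y, by rw [← act_mul, h, act_one]⟩) rfl

noncomputable def co (f : T → ℂ) (k : d → ℤ) : ℂ := ∫ t, mFourier (-k) t * f t ∂m

theorem parseval {f : T → ℂ} (hf : Measurable f) {C : ℝ} (hC : ∀ x, ‖f x‖ ≤ C) :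
    HasSum (fun k => ‖co f k‖ ^ 2) (∫ t, ‖f t‖ ^ 2 ∂m) := by
  have h1 : MemLp f 2 m := MemLp.of_bound hf.aestronglyMeasurable C (Eventually.of_forall hC)
  have h2 := hasSum_sq_mFourierCoeff (h1.toLp f)
  have h3 : ∀ᵐ t ∂m, h1.toLp f t = f t := h1.coeFn_toLp
  convert h2 using 1
  · funext k
    congr 2
    exact integral_congr_ae (h3.mono fun t ht => congrArg (mFourier (-k) t * ·) ht.symm)
  · exact integral_congr_ae (h3.mono fun t ht => congrArg (‖·‖ ^ 2) ht.symm)

theorem co_act {f : T → ℂ} (hf : Measurable f) {M N : Matrix d d ℤ} (h : M * N = 1) (k : d → ℤ) :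
    co (fun x => f (act M x)) (k ᵥ* M) = co f k := by
  unfold co
  conv_rhs => rw [← (mp_act h).map_eq]
  rw [integral_map (f := fun t => mFourier (-k) t * f t) (mp_act h).measurable.aemeasurable
    ((mFourier _).continuous.measurable.mul hf).aestronglyMeasurable]
  simp only [mF_act, neg_vecMul]

theorem co_sub {f g : T → ℂ} (hf : Measurable f) (hg : Measurable g) (h1 : ∀ x, ‖f x‖ = 1)
    (h2 : ∀ x, ‖g x‖ = 1) (k : d → ℤ) : co (fun x => f x - g x) k = co f k - co g k := by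
  have h : ∀ {f : T → ℂ}, Measurable f → (∀ x, ‖f x‖ = 1) →
      Integrable (fun t => mFourier (-k) t * f t) m := fun hf h1 =>
    Integrable.of_bound ((mFourier _).continuous.measurable.mul hf).aestronglyMeasurable 1
      (Eventually.of_forall fun x => by rw [norm_mul, mF_norm, h1, one_mul])
  simp only [co, mul_sub]
  exact integral_sub (h hf h1) (h hg h2)

theorem para {K : Type} {c : K → ℂ} (hc : HasSum (fun k => ‖c k‖ ^ 2) 1) (σ : Fin 4 → K ≃ K)
    {δ : Fin 4 → ℝ} (h : ∀ i, HasSum (fun k => ‖c (σ i k) - c k‖ ^ 2) (δ i))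
    {R S : Fin 4 → Set K} (h1 : ∀ i, ∀ k ∈ R i, σ i k ∈ S i)
    (h2 : ∀ i j k, k ∈ S i → k ∈ S j → i = j)
    (h3 : ∀ k, c k ≠ 0 → (k ∈ R 0 ∧ k ∈ R 1) ∨ (k ∈ R 2 ∧ k ∈ R 3)) : 1 / 6 ≤ ∑ i, δ i := by
  classical
  let w : K → ℝ := fun k => ‖c k‖ ^ 2
  have hw : ∀ k, 0 ≤ w k := fun k => sq_nonneg _
  have h4 : ∀ i, HasSum ((S i).indicator w) (∑' k, (S i).indicator w k) := fun i =>
    (hc.summable.indicator _).hasSum
  have h5 : ∑ i, ∑' k, (S i).indicator w k ≤ 1 := by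
    refine hasSum_le (fun k => ?_) (hasSum_sum fun i _ => h4 i) hc
    by_cases hk : ∃ i, k ∈ S i
    · obtain ⟨i, hi⟩ := hk
      rw [Finset.sum_eq_single i (fun j _ hj => indicator_of_notMem (fun h => hj (h2 _ _ _ h hi)) _)
        (by simp), indicator_of_mem hi]
    · rw [Finset.sum_eq_zero fun j _ => indicator_of_notMem (fun h => hk ⟨j, h⟩) _]
      exact hw k
  have h6 : ∀ i k, 0 ≤ 3 / 2 * (S i).indicator w (σ i k) + 3 * ‖c (σ i k) - c k‖ ^ 2 := fun i k =>
    add_nonneg (mul_nonneg (by norm_num) (indicator_nonneg (fun _ _ => hw _) _)) (by positivity)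
  have h7 : ∀ i, ∀ k ∈ R i,
      w k ≤ 3 / 2 * (S i).indicator w (σ i k) + 3 * ‖c (σ i k) - c k‖ ^ 2 := fun i k hk => by
    rw [indicator_of_mem (h1 i k hk)]
    have h8 : ‖c k‖ ≤ ‖c (σ i k)‖ + ‖c (σ i k) - c k‖ := by
      simpa using norm_sub_le (c (σ i k)) (c (σ i k) - c k)
    have h9 := pow_le_pow_left₀ (norm_nonneg _) h8 2
    simp only [w]
    nlinarith [sq_nonneg (‖c (σ i k)‖ - 2 * ‖c (σ i k) - c k‖)]
  have h8 := hasSum_le (fun k => show 2 * w k ≤ ∑ i, (3 / 2 * (S i).indicator w (σ i k) +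
      3 * ‖c (σ i k) - c k‖ ^ 2) from by
    rw [Fin.sum_univ_four]
    by_cases hk : c k = 0
    · have : w k = 0 := by simp [w, hk]
      linarith [h6 0 k, h6 1 k, h6 2 k, h6 3 k]
    · rcases h3 k hk with h | h
      · linarith [h7 0 k h.1, h7 1 k h.2, h6 2 k, h6 3 k]
      · linarith [h7 2 k h.1, h7 3 k h.2, h6 0 k, h6 1 k]) (hc.mul_left 2)
    (hasSum_sum fun i _ => ((((σ i).hasSum_iff).2 (h4 i)).mul_left (3 / 2)).add ((h i).mul_left 3))
  rw [Finset.sum_add_distrib, ← Finset.mul_sum, ← Finset.mul_sum] at h8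
  linarith

abbrev SL2 : Type := Matrix.SpecialLinearGroup (Fin 2) ℤ

def mat (A : SL2) (n : ℤ) : Matrix d d ℤ := kroneckerMap (· * ·) A.1 !![1, n; 0, 1]

theorem mat_mul (A B : SL2) (n k : ℤ) : mat A n * mat B k = mat (A * B) (n + k) := by
  unfold mat
  rw [← mul_kronecker_mul]
  congr 1
  ext i j
  fin_cases i <;> fin_cases j <;> simp [add_comm]

theorem mat_one : mat 1 0 = 1 := by
  unfold mat
  rw [← one_kronecker_one]
  congr 1
  ext i j
  fin_cases i <;> fin_cases j <;> simp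

theorem mat_inv (A : SL2) (n : ℤ) : mat A n * mat A⁻¹ (-n) = 1 := by
  rw [mat_mul, mul_inv_cancel, add_neg_cancel, mat_one]

theorem mat_inv' (A : SL2) (n : ℤ) : mat A⁻¹ (-n) * mat A n = 1 := by
  rw [mat_mul, inv_mul_cancel, neg_add_cancel, mat_one]

def gen : Fin 4 → SL2 :=
  ![⟨!![1, 3; 0, 1], by decide⟩, ⟨!![1, -3; 0, 1], by decide⟩, ⟨!![1, 0; 3, 1], by decide⟩,
    ⟨!![1, 0; -3, 1], by decide⟩]

def pq (k : d → ℤ) : ℤ × ℤ :=
  if k (0, 0) = 0 ∧ k (1, 0) = 0 then (k (0, 1), k (1, 1)) else (k (0, 0), k (1, 0))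

theorem vm (k : d → ℤ) (A : SL2) (i j : Fin 2) :
    (k ᵥ* mat A 0) (i, j) = k (0, j) * A.1 0 i + k (1, j) * A.1 1 i := by
  fin_cases j <;> simp [vecMul, dotProduct, mat, Fintype.sum_prod_type, Fin.sum_univ_two]

theorem pq_vm (k : d → ℤ) (A : SL2) : pq (k ᵥ* mat A 0) =
    ((pq k).1 * A.1 0 0 + (pq k).2 * A.1 1 0, (pq k).1 * A.1 0 1 + (pq k).2 * A.1 1 1) := by
  have h := A.2
  rw [det_fin_two] at h
  have h2 : (k (0, 0) * A.1 0 0 + k (1, 0) * A.1 1 0 = 0 ∧ k (0, 0) * A.1 0 1 + k (1, 0) * A.1 1 1 = 0)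
      ↔ (k (0, 0) = 0 ∧ k (1, 0) = 0) :=
    ⟨fun ⟨a, b⟩ => ⟨by linear_combination A.1 1 1 * a - A.1 1 0 * b - k (0, 0) * h,
      by linear_combination A.1 0 0 * b - A.1 0 1 * a - k (1, 0) * h⟩, fun ⟨a, b⟩ => by simp [a, b]⟩
  unfold pq
  rw [vm, vm, vm, vm]
  simp only [h2]
  split_ifs <;> rfl

theorem gap {f : T → ℂ} (hf : Measurable f) (h1 : ∀ x, ‖f x‖ = 1) (h2 : ∫ x, f x ∂m = 0) :
    1 / 6 ≤ ∑ i, ∫ x, ‖f (act (mat (gen i) 0) x) - f x‖ ^ 2 ∂m := by
  have hc := parseval hf fun x => (h1 x).le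
  simp only [h1, one_pow, integral_const, probReal_univ, smul_eq_mul, mul_one] at hc
  let σ : Fin 4 → (d → ℤ) ≃ (d → ℤ) := fun i =>
    ⟨(· ᵥ* mat (gen i)⁻¹ (-0)), (· ᵥ* mat (gen i) 0), fun k => by
      simp only [vecMul_vecMul, mat_inv', vecMul_one], fun k => by
      simp only [vecMul_vecMul, mat_inv, vecMul_one]⟩
  have h3 : ∀ i, HasSum (fun k => ‖co f ((σ i).symm k) - co f k‖ ^ 2)
      (∫ x, ‖f (act (mat (gen i) 0) x) - f x‖ ^ 2 ∂m) := fun i => by
    have hg : Measurable fun x => f (act (mat (gen i) 0) x) :=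
      hf.comp (cont_act (mat (gen i) 0)).measurable
    have h4 := parseval (f := fun x => f (act (mat (gen i) 0) x) - f x) (hg.sub hf) (C := 2)
      fun x => (norm_sub_le _ _).trans (by rw [h1, h1]; norm_num)
    refine (((σ i).symm.hasSum_iff).2 h4).congr_fun fun k => ?_
    simp only [Function.comp]
    rw [co_sub hg hf (fun x => h1 _) h1, norm_sub_rev]
    exact congrArg (fun z => ‖z - _‖ ^ 2) (co_act hf (mat_inv (gen i) 0) k).symm
  refine para hc (fun i => (σ i).symm) h3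
    (R := fun i => {k | if i < 2 then
      (0 < (pq k).1 ∧ -(pq k).1 ≤ (pq k).2 ∧ (pq k).2 ≤ (pq k).1) ∨
        ((pq k).1 < 0 ∧ (pq k).1 ≤ (pq k).2 ∧ (pq k).2 ≤ -(pq k).1) else
      (-(pq k).2 < (pq k).1 ∧ (pq k).1 < (pq k).2) ∨ ((pq k).2 < (pq k).1 ∧ (pq k).1 < -(pq k).2)})
    (S := ![{k | (0 < (pq k).1 ∧ (pq k).1 < (pq k).2) ∨ ((pq k).1 < 0 ∧ (pq k).2 < (pq k).1)},
      {k | (0 < (pq k).1 ∧ (pq k).2 < -(pq k).1) ∨ ((pq k).1 < 0 ∧ -(pq k).1 < (pq k).2)},
      {k | (0 < (pq k).2 ∧ (pq k).2 < (pq k).1) ∨ ((pq k).2 < 0 ∧ (pq k).1 < (pq k).2)},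
      {k | (0 < (pq k).2 ∧ (pq k).1 < -(pq k).2) ∨ ((pq k).2 < 0 ∧ -(pq k).2 < (pq k).1)}])
    (fun i k hk => ?_) (fun i j k hi hj => ?_) fun k hk => ?_
  · change k ᵥ* mat (gen i) 0 ∈ _
    have h4 := pq_vm k (gen i)
    generalize k ᵥ* mat (gen i) 0 = l at h4 ⊢
    fin_cases i <;> simp [gen] at hk h4 ⊢ <;> simp only [h4] <;> omega
  · fin_cases i <;> fin_cases j <;> simp at hi hj ⊢ <;> omega
  · have h4 : k ≠ 0 := by
      rintro rfl
      simp [co, mFourier_zero, h2] at hk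
    have h5 : ¬ (k (0, 0) = 0 ∧ k (1, 0) = 0 ∧ k (0, 1) = 0 ∧ k (1, 1) = 0) := fun h => h4 (by
      funext ⟨i, j⟩
      fin_cases i <;> fin_cases j <;> simp [h])
    simp [pq]
    split_ifs <;> simp <;> omega

end Pool.Agent.H39.SG
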