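import Pool.Agent.H39.SG1

/-! An affine action on the 4-torus and a skew product over it. -/

namespace Pool.Agent.H39.SG

open Set Filter Topology MeasureTheory UnitAddTorus Matrix
open scoped ENNReal

theorem ex_theta : ∃ θ : T, ∀ k ≠ 0, mFourier k θ ≠ 1 := by
  obtain ⟨P, h1, h2⟩ := FG.exists_indep
  have : Infinite P := infinite_coe_iff.2 fun h => h1 h.countable
  let r : d → P := fun i => Infinite.natEmbedding P (Fintype.equivFin d i)
  exact ⟨_, h2 d r fun i j h =>
    (Fintype.equivFin d).injective (Fin.ext ((Infinite.natEmbedding P).injective h))⟩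

instance sbT : StandardBorelSpace T := inferInstance

instance sbTT : StandardBorelSpace (T × T) := StandardBorelSpace.prod

noncomputable def θ : T := ex_theta.choose

theorem hθ : ∀ k ≠ 0, mFourier k θ ≠ 1 := ex_theta.choose_spec

abbrev I : Type := SL2 × ℤ × Matrix d d ℤ

instance countM {n : Type} [Finite n] : Countable (Matrix n n ℤ) :=
  inferInstanceAs (Countable (n → n → ℤ))

instance countS : Countable SL2 := Subtype.val_injective.countable

noncomputable def mv (i : I) (x : T) : T := act (mat i.1 i.2.1) x + act i.2.2 θ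

def mul (i j : I) : I := (i.1 * j.1, i.2.1 + j.2.1, mat i.1 i.2.1 * j.2.2 + i.2.2)

def inv (i : I) : I := (i.1⁻¹, -i.2.1, -(mat i.1⁻¹ (-i.2.1) * i.2.2))

theorem mv_mul (i j : I) (x : T) : mv (mul i j) x = mv i (mv j x) := by
  simp only [mv, mul, ← mat_mul, act_mul, act_add, map_add, add_assoc]

theorem mv_inv (i : I) (x : T) : mv (inv i) (mv i x) = x := by
  simp only [mv, inv, map_add, act_neg, ← act_mul, mat_inv', act_one, add_neg_cancel_right]

theorem mv_inv' (i : I) (x : T) : mv i (mv (inv i) x) = x := by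
  simp only [mv, inv, map_add, act_neg, map_neg, ← act_mul, ← Matrix.mul_assoc, mat_inv, act_one,
    Matrix.one_mul, neg_add_cancel_right]

theorem mv_one (x : T) : mv (1, 0, 0) x = x := by simp [mv, mat_one, act_one, act_zero]

theorem mv_rot (x : T) : mv (1, 0, 1) x = x + θ := by simp [mv, mat_one, act_one]

theorem mv_inj (i : I) : Function.Injective (mv i) := Function.LeftInverse.injective (mv_inv i)

theorem cont_mv (i : I) : Continuous (mv i) := (cont_act _).add continuous_const

theorem mp_mv (i : I) : MeasurePreserving (mv i) m m :=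
  (measurePreserving_add_right m _).comp (mp_act (mat_inv _ _))

def X0 : Set T := {x | ∀ i, mv i x = x → i.2.1 = 0}

theorem X0_mv {x : T} (h : x ∈ X0) (i : I) : mv i x ∈ X0 := fun j hj => by
  have := h (mul (inv i) (mul j i)) (by rw [mv_mul, mv_mul, hj, mv_inv])
  simpa [mul, inv] using this

theorem X0_iff (i : I) (x : T) : mv i x ∈ X0 ↔ x ∈ X0 :=
  ⟨fun h => mv_inv i x ▸ X0_mv h (inv i), fun h => X0_mv h i⟩

theorem X0_uniq {x : T} (h : x ∈ X0) {i j : I} (hij : mv i x = mv j x) : i.2.1 = j.2.1 := by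
  have := h (mul (inv i) j) (by rw [mv_mul, ← hij, mv_inv])
  simp only [mul, inv] at this
  omega

theorem meas_X0 : MeasurableSet X0 := by
  simp only [X0, ofPred_forall (β := T) (ι := I)]
  exact MeasurableSet.iInter fun i => MeasurableSet.imp
    (isClosed_eq (cont_mv i) continuous_id).measurableSet (MeasurableSet.const _)

theorem ae_X0 : ∀ᵐ x ∂m, x ∈ X0 := by
  refine ae_all_iff.2 fun i => ?_
  by_cases hi : i.2.1 = 0
  · simp [hi]
  obtain ⟨a, b, hab⟩ : ∃ a b, (mat i.1 i.2.1 - 1) a b ≠ 0 := by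
    by_contra! h
    have h1 : ∀ a b, i.1.1 a b = 0 := fun a b => by simpa [mat, hi] using h (a, 0) (b, 1)
    have h2 := i.1.2
    rw [det_fin_two, h1, h1 0 1] at h2
    simp at h2
  let φ : T →+ UnitAddCircle := (Pi.evalAddMonoidHom _ a).comp (act (mat i.1 i.2.1 - 1))
  have h1 : MeasurePreserving φ m AddCircle.haarAddCircle :=
    AddMonoidHom.measurePreserving ((continuous_apply a).comp (cont_act _)) (fun y =>
      ⟨Pi.single b (DivisibleBy.div y ((mat i.1 i.2.1 - 1) a b)), by
        change act _ _ a = y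
        rw [act_apply, Finset.sum_eq_single b (fun j _ hj => by simp [hj]) (by simp),
          Pi.single_eq_same, DivisibleBy.div_cancel _ hab]⟩) (by simp)
  have h2 : AddCircle.haarAddCircle {-act i.2.2 θ a} = 0 := by
    have h := AddCircle.volume_closedBall (T := 1) (x := -act i.2.2 θ a) 0
    simpa [AddCircle.volume_eq_smul_haarAddCircle] using h
  refine measure_mono_null (fun x hx => ?_)
    ((h1.measure_preimage (measurableSet_singleton _).nullMeasurableSet).trans h2)
  have h3 : mv i x = x := by simpa [hi] using hx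
  change act _ x a = _
  rw [sub_eq_add_neg, act_add, act_neg, act_one]
  have h4 := congrFun h3 a
  simp only [mv, Pi.add_apply, Pi.neg_apply] at h4 ⊢
  rw [add_neg_eq_iff_eq_add, eq_neg_add_iff_add_eq, add_comm, h4]

def F (x x' : T) : Prop := ∃ i, x' = mv i x

noncomputable def gm (i : I) (z : T × T) : T × T :=
  (mv i z.1, z.2 + X0.indicator (fun _ => i.2.1 • θ) z.1)

def F' (z z' : T × T) : Prop := ∃ i, z' = gm i z

theorem gm_mul (i j : I) (z : T × T) : gm (mul i j) z = gm i (gm j z) := by
  refine Prod.ext (mv_mul _ _ _) ?_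
  by_cases h : z.1 ∈ X0 <;> simp [gm, h, X0_iff, mul, add_smul, add_assoc, add_comm (i.2.1 • θ)]

theorem gm_inv (i : I) (z : T × T) : gm (inv i) (gm i z) = z := by
  refine Prod.ext (mv_inv _ _) ?_
  by_cases h : z.1 ∈ X0 <;> simp [gm, h, X0_iff, inv]

theorem gm_one (z : T × T) : gm (1, 0, 0) z = z := by
  by_cases h : z.1 ∈ X0 <;> simp [gm, mv_one, h]

theorem gm_uniq {i j : I} {z : T × T} (h : mv i z.1 = mv j z.1) : gm i z = gm j z := by
  by_cases hz : z.1 ∈ X0
  · simp [gm, h, X0_uniq hz h]
  · simp [gm, h, hz]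

theorem meas_gm (i : I) : Measurable (gm i) :=
  ((cont_mv i).measurable.comp measurable_fst).prodMk
    (measurable_snd.add ((measurable_const.indicator meas_X0).comp measurable_fst))

theorem mp_gm (i : I) : MeasurePreserving (gm i) (m.prod m) (m.prod m) := by
  refine ((mp_mv i).prod (measurePreserving_add_right m (i.2.1 • θ))).congr (meas_gm i) ?_
  filter_upwards [Measure.quasiMeasurePreserving_fst.ae ae_X0] with z hz
  simp [gm, hz, Prod.map]

theorem piece {X J : Type} [MeasurableSpace X] [StandardBorelSpace X] [Countable J] [Nonempty J]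
    {ν : Measure X} [IsProbabilityMeasure ν] {γ : J → X → X}
    (h1 : ∀ j, MeasurePreserving (γ j) ν ν) (h2 : ∀ j, Function.Injective (γ j)) {τ : X → X}
    (h3 : Measurable τ) (h4 : Function.Injective τ) (h5 : ∀ z, ∃ j, τ z = γ j z) :
    MeasurePreserving τ ν ν := by
  obtain ⟨e, he⟩ := exists_surjective_nat J
  let A := disjointed fun n => {z | τ z = γ (e n) z}
  have a1 : ∀ n, MeasurableSet (A n) :=
    MeasurableSet.disjointed fun n => measurableSet_eq_fun h3 (h1 _).measurable
  have a2 : ⋃ n, A n = univ := by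
    rw [iUnion_disjointed, he.iUnion_comp fun j => {z | τ z = γ j z}]
    exact eq_univ_of_forall fun z => mem_iUnion.2 (h5 z)
  have a3 : ∀ n, ∀ z ∈ A n, τ z = γ (e n) z := fun n z hz =>
    disjointed_subset (fun n => {z | τ z = γ (e n) z}) n hz
  have a4 := h3.measurableEmbedding h4
  have a5 : ∀ C, MeasurableSet C → ν (τ '' C) = ν C := fun C hC => by
    have a5 : Pairwise (Function.onFun Disjoint fun n => C ∩ A n) := fun n k h =>
      (disjoint_disjointed _ h).mono inter_subset_right inter_subset_right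
    rw [← inter_univ C, ← a2, inter_iUnion, image_iUnion, measure_iUnion a5 fun n => hC.inter (a1 n),
      measure_iUnion (fun n k h => (disjoint_image_iff h4).2 (a5 h))
        fun n => a4.measurableSet_image' (hC.inter (a1 n))]
    refine tsum_congr fun n => ?_
    rw [← (h1 (e n)).measure_preimage (a4.measurableSet_image' (hC.inter (a1 n))).nullMeasurableSet,
      image_congr fun z hz => a3 n z hz.2, preimage_image_eq _ (h2 _)]
  refine ⟨h3, Measure.ext fun B hB => ?_⟩
  rw [Measure.map_apply h3 hB, ← a5 _ (h3 hB), image_preimage_eq_inter_range]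
  refine measure_inter_conull ((prob_compl_eq_zero_iff a4.measurableSet_range).2 ?_)
  rw [← image_univ, a5 _ MeasurableSet.univ, measure_univ]

theorem erg : Ergodic (· + θ) m := by
  refine ⟨measurePreserving_add_right m θ, ⟨fun s hs h1 => ?_⟩⟩
  have h3 : m.restrict s = m s • m := by
    have : IsFiniteMeasure (m s • m) := m.smul_finite (measure_ne_top _ _)
    refine FG.torus_fin hθ ?_ ((measurePreserving_add_right m θ).smul_measure _) (by simp)
    simpa only [h1] using (measurePreserving_add_right m θ).restrict_preimage hs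
  have h4 := congrArg (· sᶜ) h3
  simp only [Measure.restrict_apply hs.compl, compl_inter_self, measure_empty, Measure.smul_apply,
    smul_eq_mul, zero_eq_mul] at h4
  exact eventuallyConst_set.2 (h4.symm.imp id measure_eq_zero_iff_ae_notMem.1)

theorem erg2 {s : Set (T × T)} (hs : MeasurableSet s) (h : ∀ i z, gm i z ∈ s ↔ z ∈ s) :
    (∀ᵐ z ∂m.prod m, z ∈ s) ∨ ∀ᵐ z ∂m.prod m, z ∉ s := by
  have h0 : ∀ y, MeasurableSet {x | (x, y) ∈ s} := fun y => measurable_prodMk_right hs
  have h1 : ∀ y, (∀ᵐ x ∂m, (x, y) ∈ s) ∨ ∀ᵐ x ∂m, (x, y) ∉ s := fun y =>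
    eventuallyConst_set.1 (erg.toPreErgodic.aeconst_set (h0 y) (by
      ext x
      have := h (1, 0, 1) (x, y)
      simp only [gm, mv_rot, zero_smul, indicator_zero, add_zero] at this
      exact this))
  let B : Set T := {y | ∀ᵐ x ∂m, (x, y) ∈ s}
  have h2 : MeasurableSet B := measurable_measure_prodMk_right hs.compl (measurableSet_singleton 0)
  have h3 : (· + θ) ⁻¹' B = B := by
    ext y
    have h3 : ∀ᵐ x ∂m, (mv (1, 1, 0) x, y + θ) ∈ s ↔ (x, y) ∈ s := ae_X0.mono fun x hx => by
      simpa [gm, hx] using h (1, 1, 0) (x, y)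
    refine Iff.trans ?_ (eventually_congr h3)
    conv_lhs => rw [mem_preimage, mem_ofPred_eq, ← (mp_mv (1, 1, 0)).map_eq]
    exact ae_map_iff (cont_mv _).measurable.aemeasurable (h0 _)
  rw [← Measure.prod_swap]
  rw [ae_map_iff (p := (· ∈ s)) measurable_swap.aemeasurable hs,
    ae_map_iff (p := (· ∉ s)) measurable_swap.aemeasurable hs.compl,
    Measure.ae_prod_iff_ae_ae (p := (Prod.swap · ∈ s)) (measurable_swap hs),
    Measure.ae_prod_iff_ae_ae (p := (Prod.swap · ∉ s)) (measurable_swap hs.compl)]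
  exact (eventuallyConst_set.1 (erg.toPreErgodic.aeconst_set h2 h3)).imp id
    fun h4 => h4.mono fun y hy => (h1 y).resolve_left hy

theorem recur : ∃ k : ℕ → ℤ, (∀ n, k n ≠ 0) ∧ Tendsto (fun n => k n • θ) atTop (𝓝 0) := by
  obtain ⟨a, ψ, h1, h2⟩ := CompactSpace.tendsto_subseq fun n : ℕ => (n : ℤ) • θ
  refine ⟨fun n => ψ (n + 1) - ψ n, fun n => ?_, ?_⟩
  · exact sub_ne_zero.2 (Nat.cast_injective.ne (h1 (Nat.lt_add_one n)).ne')
  · simpa [sub_smul] using ((tendsto_add_atTop_iff_nat 1).2 h2).sub h2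

theorem no_emb {f : T × T → T × ℝ} (hf : Measurable f) (hi : Function.Injective f)
    (h1 : ∀ z z', F' z z' ↔ F (f z).1 (f z').1 ∧ (f z).2 = (f z').2)
    (h2 : ∀ z w, F (f z).1 w → (w, (f z).2) ∈ range f) : False := by
  have he := hf.measurableEmbedding hi
  obtain ⟨r, hr⟩ := exists_eventuallyEq_const_of_forall_separating (l := ae (m.prod m))
    (f := fun z => (f z).2) MeasurableSet fun U hU => erg2 (hf.snd hU) fun i z => by
      change (f _).2 ∈ U ↔ (f _).2 ∈ U
      rw [← ((h1 z _).1 ⟨i, rfl⟩).2]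
  let τ : I → T × T → T × T := fun i z => he.invFun (mv i (f z).1, (f z).2)
  have t1 : ∀ i z, f (τ i z) = (mv i (f z).1, (f z).2) := fun i z => by
    obtain ⟨w, hw⟩ := h2 z _ ⟨i, rfl⟩
    simp only [τ]
    rw [← hw, he.leftInverse_invFun]
  have t2 : ∀ i z, F' z (τ i z) := fun i z => (h1 _ _).2 (by rw [t1]; exact ⟨⟨i, rfl⟩, rfl⟩)
  have t3 : ∀ i, MeasurePreserving (τ i) (m.prod m) (m.prod m) := fun i =>
    piece mp_gm (fun j => Function.LeftInverse.injective (gm_inv j))
      (he.measurable_invFun.comp (((cont_mv i).measurable.comp hf.fst).prodMk hf.snd))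
      (fun z z' h => hi (by
        have h3 := congrArg f h
        rw [t1, t1, Prod.mk.injEq] at h3
        exact Prod.ext (mv_inj i h3.1) h3.2)) (t2 i)
  have t4 : MeasurePreserving (fun z => (f z).1) (m.prod m) m := by
    have := Measure.isProbabilityMeasure_map (μ := m.prod m) hf.fst.aemeasurable
    refine ⟨hf.fst, FG.torus_fin hθ (MeasurePreserving.of_semiconj ⟨hf.fst, rfl⟩ (t3 (1, 0, 1))
      (fun z => by rw [t1, mv_rot]) (by fun_prop)) (measurePreserving_add_right m θ) (by simp)⟩
  obtain ⟨k, k1, k2⟩ := recur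
  let h : ℕ → T → ℂ := fun n x => mFourier (fun _ => k n) (he.invFun (x, r)).2
  have m1 : ∀ n, Measurable (h n) := fun n => (mFourier _).continuous.measurable.comp
    (he.measurable_invFun.comp measurable_prodMk_right).snd
  have m2 : ∀ n z, (f z).2 = r → h n (f z).1 = mFourier (fun _ => k n) z.2 := fun n z hz => by
    simp only [h]
    rw [← hz, he.leftInverse_invFun]
  have m3 : ∀ n, ∫ x, h n x ∂m = 0 := fun n => by
    rw [← t4.map_eq, integral_map hf.fst.aemeasurable (m1 n).aestronglyMeasurable,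
      integral_congr_ae (hr.mono (m2 n)), integral_fun_snd, probReal_univ, one_smul]
    have h3 := integral_add_right_eq_self (μ := m) (mFourier fun _ => k n) θ
    simp only [mF_add, integral_mul_const] at h3
    exact by_contra fun h4 => hθ _ (fun h5 => k1 n (congrFun h5 (0, 0))) ((mul_eq_left₀ h4).1 h3)
  have m4 : ∀ i, Tendsto (fun n => ∫ x, ‖h n (mv i x) - h n x‖ ^ 2 ∂m) atTop (𝓝 0) := fun i => by
    have m4 : ∀ n, Measurable fun x => ‖h n (mv i x) - h n x‖ ^ 2 := fun n =>
      (((m1 n).comp (cont_mv i).measurable).sub (m1 n)).norm.pow_const 2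
    have m5 : ∀ n, ∫ x, ‖h n (mv i x) - h n x‖ ^ 2 ∂m =
        ∫ z, ‖h n (mv i (f z).1) - h n (f z).1‖ ^ 2 ∂m.prod m := fun n => by
      conv_lhs => rw [← t4.map_eq]
      rw [integral_map hf.fst.aemeasurable (m4 n).aestronglyMeasurable]
    simp only [m5]
    rw [← integral_zero (T × T) ℝ (μ := m.prod m)]
    refine tendsto_integral_of_dominated_convergence (fun _ => 2 ^ 2)
      (fun n => ((m4 n).comp hf.fst).aestronglyMeasurable) (integrable_const _)
      (fun n => Eventually.of_forall fun z => ?_) (hr.mono fun z hz => ?_)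
    · rw [norm_pow, norm_norm]
      exact pow_le_pow_left₀ (norm_nonneg _)
        ((norm_sub_le _ _).trans (by rw [mF_norm, mF_norm]; norm_num)) 2
    · obtain ⟨N, hN⟩ : ∃ N : ℤ, (τ i z).2 = z.2 + N • θ := by
        obtain ⟨j, hj⟩ := t2 i z
        by_cases h3 : z.1 ∈ X0
        · exact ⟨j.2.1, by simp [hj, gm, h3]⟩
        · exact ⟨0, by simp [hj, gm, h3]⟩
      have h3 : ∀ n, ‖h n (mv i (f z).1) - h n (f z).1‖ ^ 2 =
          ‖mFourier (fun _ => N) (k n • θ) - 1‖ ^ 2 := fun n => by
        have h3 := m2 n (τ i z) (by rw [t1]; exact hz)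
        rw [t1] at h3
        rw [h3, m2 n z hz, hN, mF_add, mF_swap, ← mul_sub_one, norm_mul, mF_norm, one_mul]
      simp only [h3]
      have h4 := ((((mFourier fun _ : d => N).continuous.tendsto 0).comp k2).sub_const 1).norm.pow 2
      simpa [mF_eq] using h4
  have m5 := ge_of_tendsto' (tendsto_finsetSum Finset.univ fun i _ => m4 (gen i, 0, 0)) fun n => by
    simpa only [mv, act_zero, add_zero] using gap (m1 n) (fun x => mF_norm _ _) (m3 n)
  norm_num at m5

end Pool.Agent.H39.SG
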