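import Mathlib
import Pool.Agent.H39.NonBorel
import Pool.Agent.H39.BaireLoc

set_option autoImplicit false

namespace Pool.Agent.H39.SHM

open Set Filter Topology MeasureTheory Pool.Agent.H39.NonBorel Pool.Agent.H39.BaireLoc

abbrev G := ℕ → ℤ × ℤ

instance : PolishSpace G := PolishSpace.mk

def e (k : ℕ) : G := Pi.single k (1, 0)

def InT (p : ℕ → ℕ) (L : ℕ) (y : G) : Prop :=
  (∀ k < L, |(y k).1| ≤ p k) ∧ ∀ n ≤ L, Odd (p (Encodable.encode (res y n)))

theorem InT.congr {p : ℕ → ℕ} {L : ℕ} {y y' : G} (h : InT p L y) (h' : ∀ i < L, y' i = y i) :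
    InT p L y' :=
  ⟨fun k hk => by rw [h' k hk]; exact h.1 k hk, fun n hn => by
    rw [res_eq_iff.2 fun i hi => h' i (hi.trans_le hn)]; exact h.2 n hn⟩

theorem InT.mono {p : ℕ → ℕ} {L L' : ℕ} {y : G} (h : InT p L y) (h' : L' ≤ L) : InT p L' y :=
  ⟨fun k hk => h.1 k (hk.trans_le h'), fun n hn => h.2 n (hn.trans h')⟩

theorem measurable_InT (L : ℕ) : Measurable fun q : (ℕ → ℕ) × G => InT q.1 L q.2 := by
  have h : IsLocallyConstant fun q : (ℕ → ℕ) × G => InT q.1 L q.2 := by
    rw [IsLocallyConstant.iff_eventually_eq]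
    intro q
    have h1 : ∀ᶠ r in 𝓝 q, ∀ i ∈ Finset.range L, r.2 i = q.2 i :=
      (eventually_all_finset _).2 fun i _ =>
        ev_eq (f := fun r : (ℕ → ℕ) × G => r.2 i) (by fun_prop) q
    have h2 : ∀ᶠ r in 𝓝 q, ∀ i ∈ Finset.range L, r.1 i = q.1 i :=
      (eventually_all_finset _).2 fun i _ =>
        ev_eq (f := fun r : (ℕ → ℕ) × G => r.1 i) (by fun_prop) q
    have h3 : ∀ᶠ r in 𝓝 q, ∀ n ∈ Finset.range (L + 1),
        r.1 (Encodable.encode (res q.2 n)) = q.1 (Encodable.encode (res q.2 n)) :=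
      (eventually_all_finset _).2 fun n _ =>
        ev_eq (f := fun r : (ℕ → ℕ) × G => r.1 (Encodable.encode (res q.2 n))) (by fun_prop) q
    filter_upwards [h1, h2, h3] with r h1 h2 h3
    simp only [Finset.mem_range] at h1 h2 h3
    simp only [InT, eq_iff_iff]
    refine and_congr (forall₂_congr fun k hk => ?_) (forall₂_congr fun n hn => ?_)
    · rw [h1 k hk, h2 k hk]
    · rw [res_eq_iff.2 fun i hi => h1 i (hi.trans_le hn), h3 n (Nat.lt_succ_of_le hn)]
  intro S _
  exact (h S).measurableSet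

def C (p : ℕ → ℕ) : Set G := {y | ∀ L, InT p L y}

def B1 (p : ℕ → ℕ) : Set G :=
  {y | y ∈ C p ∧ ∀ n, ∃ k, n ≤ k ∧ y + e k ∉ C p ∧ y - e k ∉ C p}

def Mn (p : ℕ → ℕ) (y : G) (k : ℕ) : Prop :=
  ∀ c : ℤ × ℤ, InT p (k + 1) (Function.update y k c) → (y k).1 ≤ c.1

def Mx (p : ℕ → ℕ) (y : G) (k : ℕ) : Prop :=
  ∀ b : ℤ, InT p (k + 1) (Function.update y k ((y k).1, b)) → b ≤ (y k).2

def Loc (p : ℕ → ℕ) (y : G) (n l : ℕ) : Prop :=
  ∀ (w : ℕ →₀ ℤ × ℤ) (L : ℕ), l ≤ L → (∀ i < l, w i = y i) → InT p L w →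
    ∀ k, n ≤ k → InT p L (w + e k) ∨ InT p L (w - e k)

def B0 (p : ℕ → ℕ) : Set G :=
  {y | y ∈ C p ∧ (∀ n, ∃ k, n ≤ k ∧ Mn p y k) ∧ (∀ n, ∃ k, n ≤ k ∧ Mx p y k) ∧
    ∃ n l, Loc p y n l}

theorem measurable_C : Measurable fun q : (ℕ → ℕ) × G => q.2 ∈ C q.1 :=
  Measurable.forall measurable_InT

theorem measurableSet_B1 : MeasurableSet {q : (ℕ → ℕ) × G | q.2 ∈ B1 q.1} := by
  rw [measurableSet_setOfPred]
  refine measurable_C.and (Measurable.forall fun n => Measurable.exists fun k =>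
    measurable_const.and (Measurable.and ?_ ?_))
  · exact (measurable_C.comp (measurable_fst.prodMk (measurable_snd.add_const (e k)))).not
  · exact (measurable_C.comp (measurable_fst.prodMk (measurable_snd.sub_const (e k)))).not

theorem measurableSet_B0 : MeasurableSet {q : (ℕ → ℕ) × G | q.2 ∈ B0 q.1} := by
  rw [measurableSet_setOfPred]
  have h0 : ∀ k, Measurable fun q : (ℕ → ℕ) × G => q.2 k := fun k =>
    (measurable_pi_apply k).comp measurable_snd
  refine measurable_C.and (Measurable.and (Measurable.forall fun n => Measurable.exists fun k =>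
    measurable_const.and ?_) (Measurable.and (Measurable.forall fun n =>
    Measurable.exists fun k => measurable_const.and ?_)
    (Measurable.exists fun n => Measurable.exists fun l => ?_)))
  · refine Measurable.forall fun c => Measurable.imp ?_ ?_
    · refine (measurable_InT (k + 1)).comp (measurable_fst.prodMk ?_)
      exact (continuous_snd.update k continuous_const).measurable
    · exact (measurable_of_countable fun a : ℤ × ℤ => a.1 ≤ c.1).comp (h0 k)
  · refine Measurable.forall fun b => Measurable.imp ?_ ?_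
    · refine (measurable_InT (k + 1)).comp (measurable_fst.prodMk ?_)
      refine (continuous_snd.update k ?_).measurable
      fun_prop
    · exact (measurable_of_countable fun a : ℤ × ℤ => b ≤ a.2).comp (h0 k)
  · refine Measurable.forall fun w => Measurable.forall fun L => measurable_const.imp
      (Measurable.imp ?_ (Measurable.imp ?_ (Measurable.forall fun k =>
        measurable_const.imp (Measurable.or ?_ ?_))))
    · exact Measurable.forall fun i => measurable_const.imp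
        ((measurable_of_countable fun a : ℤ × ℤ => w i = a).comp (h0 i))
    · exact (measurable_InT L).comp (measurable_fst.prodMk measurable_const)
    · exact (measurable_InT L).comp (measurable_fst.prodMk measurable_const)
    · exact (measurable_InT L).comp (measurable_fst.prodMk measurable_const)

theorem Loc.flip {p : ℕ → ℕ} {y y' : G} {n l : ℕ} (h : Loc p y n l) (h1 : y' ∈ C p)
    (h2 : ∀ i < l, y' i = y i) {k : ℕ} (hk : n ≤ k) : y' + e k ∈ C p ∨ y' - e k ∈ C p := by
  classical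
  by_contra h3
  simp only [C, mem_ofPred_eq, not_or, not_forall] at h3
  obtain ⟨⟨L1, hL1⟩, L2, hL2⟩ := h3
  obtain ⟨L, h4, h5, h6⟩ : ∃ L, l ≤ L ∧ L1 ≤ L ∧ L2 ≤ L :=
    ⟨l + L1 + L2, by omega, by omega, by omega⟩
  let w : ℕ →₀ ℤ × ℤ := Finsupp.onFinset (Finset.range L) (fun i => if i < L then y' i else 0)
    fun i hi => by
      by_contra h7
      exact hi (if_neg (by simpa using h7))
  have hw : ∀ i < L, w i = y' i := fun i hi => if_pos hi
  rcases h w L h4 (fun i hi => (hw i (hi.trans_le h4)).trans (h2 i hi)) ((h1 L).congr hw) k hk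
    with h7 | h7
  · exact hL1 ((h7.congr fun i hi => by simp [hw i hi]).mono h5)
  · exact hL2 ((h7.congr fun i hi => by simp [hw i hi]).mono h6)

def gp (p : ℕ → ℕ) : G := fun k => ((p k : ℤ) * (2 * p k + 2), 0)

theorem decode {p p' : ℕ → ℕ} {y y' : G} (h : y ∈ C p) (h' : y' ∈ C p')
    (hd : ∀ k, |((y + gp p) k).1 - ((y' + gp p') k).1| ≤ 1) : p = p' := by
  funext k
  have h1 := abs_le.1 ((h (k + 1)).1 k (Nat.lt_succ_self k))
  have h2 := abs_le.1 ((h' (k + 1)).1 k (Nat.lt_succ_self k))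
  have h3 := abs_le.1 (hd k)
  simp only [gp, Pi.add_apply, Prod.fst_add] at h3
  have h4 : (0 : ℤ) ≤ p k := by positivity
  have h5 : (0 : ℤ) ≤ p' k := by positivity
  by_contra h6
  rcases lt_or_gt_of_ne h6 with h7 | h7
  · have : (p k : ℤ) + 1 ≤ p' k := by exact_mod_cast h7
    nlinarith
  · have : (p' k : ℤ) + 1 ≤ p k := by exact_mod_cast h7
    nlinarith

def A (B : (ℕ → ℕ) → Set G) : Set G :=
  (fun q : (ℕ → ℕ) × G => q.2 + gp q.1) '' {q | q.2 ∈ B q.1}

theorem measurableSet_A {B : (ℕ → ℕ) → Set G} (hB : ∀ p, B p ⊆ C p)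
    (hm : MeasurableSet {q : (ℕ → ℕ) × G | q.2 ∈ B q.1}) : MeasurableSet (A B) := by
  refine hm.image_of_measurable_injOn (measurable_snd.add ?_) ?_
  · refine measurable_pi_lambda _ fun k => ?_
    exact (measurable_of_countable fun c : ℕ => (((c : ℤ) * (2 * c + 2), 0) : ℤ × ℤ)).comp
      ((measurable_pi_apply k).comp measurable_fst)
  · rintro ⟨p, y⟩ h1 ⟨p', y'⟩ h2 h3
    simp only at h3
    have h4 : p = p' := decode (hB _ h1) (hB _ h2) fun k => by rw [h3]; simp
    subst h4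
    rw [add_right_cancel h3]

theorem meagre_of {D S : Set G}
    (h : ∀ x ∈ D, x ∈ S → ∀ l, ∃ x' ∈ D, ∃ l', (∀ i < l, x' i = x i) ∧
      ∀ x'' ∈ D, x'' ∈ S → ¬ ∀ i < l', x'' i = x' i) :
    IsMeagre {x : D | (x : G) ∈ S} := by
  let O : Set D := {x | ∃ l', ∀ x'' ∈ D, x'' ∈ S → ¬ ∀ i < l', x'' i = (x : G) i}
  have h1 : IsOpen O := by
    rw [isOpen_iff_mem_nhds]
    rintro x ⟨l', hl⟩
    have := ((isOpen_cyl (x : G) l').preimage
      (continuous_subtype_val (p := fun x => x ∈ D))).mem_nhds (x := x) fun _ _ => rfl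
    filter_upwards [this] with z hz
    exact ⟨l', fun x'' h1 h2 h3 => hl x'' h1 h2 fun i hi => (h3 i hi).trans (hz i hi)⟩
  have h2 : Dense O := by
    rw [dense_iff_inter_open]
    rintro U hU ⟨x0, hx0⟩
    obtain ⟨V, hV, rfl⟩ := isOpen_induced_iff.1 hU
    obtain ⟨l, hl⟩ := exists_cyl (hV.mem_nhds hx0)
    by_cases h3 : ∃ x ∈ D, x ∈ S ∧ ∀ i < l, x i = (x0 : G) i
    · obtain ⟨x, h4, h5, h6⟩ := h3
      obtain ⟨x', h7, l', h8, h9⟩ := h x h4 h5 l
      exact ⟨⟨x', h7⟩, hl _ fun i hi => (h8 i hi).trans (h6 i hi), l', h9⟩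
    · exact ⟨x0, hx0, l, fun x h4 h5 h6 => h3 ⟨x, h4, h5, h6⟩⟩
  filter_upwards [residual_of_dense_open h1 h2] with x ⟨l', hl⟩ hx
  exact hl x x.2 hx fun _ _ => rfl

theorem meagre_A {B : (ℕ → ℕ) → Set G} (hB : ∀ p, B p ⊆ C p) {D : Set G}
    (hD : ∀ x ∈ D, ∀ k, (x k).1 = 0 ∨ (x k).1 = 1)
    (h : ∀ p h, IsMeagre {x : D | (x : G) - h ∈ B p}) (g : G) :
    IsMeagre {x : D | (x : G) ∈ (fun b => b + g) '' A B} := by
  rcases {x : D | (x : G) ∈ (fun b => b + g) '' A B}.eq_empty_or_nonempty with h1 | h1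
  · rw [h1]; exact IsMeagre.empty
  obtain ⟨x0, _, ⟨⟨p, y⟩, h2, rfl⟩, h3⟩ := h1
  refine (h p (gp p + g)).mono ?_
  rintro x ⟨_, ⟨⟨p', y'⟩, h4, rfl⟩, h5⟩
  simp only at h3 h5
  have h6 : p = p' := decode (hB _ h2) (hB _ h4) fun k => by
    have h7 : y + gp p = x0 - g := by rw [← h3]; simp
    have h8 : y' + gp p' = x - g := by rw [← h5]; simp
    rw [h7, h8]
    simp only [Pi.sub_apply, Prod.fst_sub, sub_sub_sub_cancel_right]
    rcases hD _ x0.2 k with h | h <;> rcases hD _ x.2 k with h' | h' <;> simp [h, h']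
  subst h6
  have : (x : G) - (gp p + g) = y' := by rw [← h5]; abel
  simp only [mem_ofPred_eq, this]
  exact h4

def D1 : Set G := {x | ∀ k, ((x k).1 = 0 ∨ (x k).1 = 1) ∧ (x k).2 = 0}

def D0 : Set G := {x | ∀ k, ((x k).1 = 0 ∨ (x k).1 = 1) ∧ 0 ≤ (x k).2 ∧
  (x k).2 ≤ ∑ j ∈ Finset.range (k + 1), (1 - (x j).1)}

theorem compact_box (f : ℕ → ℤ) : IsCompact {x : G | ∀ k, x k ∈ Icc ((0, 0) : ℤ × ℤ) (1, f k)} := by
  have := isCompact_univ_pi (s := fun k => Icc ((0, 0) : ℤ × ℤ) (1, f k))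
    fun k => (finite_Icc _ _).isCompact
  convert this using 1
  ext x
  simp only [mem_ofPred_eq, Set.mem_pi, mem_univ, true_imp_iff]

theorem compact_D1 : IsCompact D1 := by
  convert compact_box fun _ => 0 using 1
  ext x
  simp only [D1, mem_ofPred_eq, mem_Icc, Prod.le_def]
  refine forall_congr' fun k => ?_
  omega

theorem compact_D0 : IsCompact D0 := by
  refine (compact_box fun k => k + 1).of_isClosed_subset ?_ fun x hx k => ?_
  · rw [D0, ofPred_forall]
    refine isClosed_iInter fun k => ?_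
    have h1 : IsClosed {x : G | (x k).1 = 0} := isClosed_eq (by fun_prop) (by fun_prop)
    have h2 : IsClosed {x : G | (x k).1 = 1} := isClosed_eq (by fun_prop) (by fun_prop)
    have h3 : IsClosed {x : G | 0 ≤ (x k).2} := isClosed_le (by fun_prop) (by fun_prop)
    have h4 : IsClosed {x : G | (x k).2 ≤ ∑ j ∈ Finset.range (k + 1), (1 - (x j).1)} :=
      isClosed_le (by fun_prop) (by fun_prop)
    exact (h1.union h2).inter (h3.inter h4)
  · have h1 : ∑ j ∈ Finset.range (k + 1), (1 - (x j).1) ≤ ∑ j ∈ Finset.range (k + 1), (1 : ℤ) :=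
      Finset.sum_le_sum fun j _ => by have := (hx j).1; omega
    simp only [Finset.sum_const, Finset.card_range, nsmul_eq_mul, mul_one] at h1
    have := hx k
    simp only [mem_Icc, Prod.le_def]
    push_cast at h1
    omega

theorem not_C {p : ℕ → ℕ} {h x' : G} (h1 : x' - h ∉ C p) :
    ∃ l', ∀ x'' : G, x'' - h ∈ C p → ¬ ∀ i < l', x'' i = x' i := by
  simp only [C, mem_ofPred_eq, not_forall] at h1
  obtain ⟨L, hL⟩ := h1
  exact ⟨L, fun x'' h2 h3 => hL ((h2 L).congr fun i hi => by simp [h3 i hi])⟩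

theorem small1 (p : ℕ → ℕ) (h : G) : IsMeagre {x : D1 | (x : G) - h ∈ B1 p} := by
  refine meagre_of (S := {x | x - h ∈ B1 p}) fun x hx hxS l => ?_
  obtain ⟨k, hk, h1, h2⟩ := hxS.2 l
  have h3 : ∀ i < l, e k i = 0 := fun i hi => Pi.single_eq_of_ne (by omega) _
  rcases (hx k).1 with h4 | h4
  · obtain ⟨l', hl⟩ := not_C (p := p) (h := h) (x' := x + e k) (by rwa [add_sub_right_comm])
    refine ⟨x + e k, fun i => ?_, l', fun i hi => by simp [h3 i hi],
      fun x'' _ h5 => hl x'' h5.1⟩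
    by_cases h5 : i = k
    · subst h5; simp [e, h4, (hx i).2]
    · simpa [e, h5] using hx i
  · obtain ⟨l', hl⟩ := not_C (p := p) (h := h) (x' := x - e k) (by rwa [sub_right_comm])
    refine ⟨x - e k, fun i => ?_, l', fun i hi => by simp [h3 i hi],
      fun x'' _ h5 => hl x'' h5.1⟩
    by_cases h5 : i = k
    · subst h5; simp [e, h4, (hx i).2]
    · simpa [e, h5] using hx i

theorem sum_nonneg' {x : G} (hx : ∀ k, (x k).1 = 0 ∨ (x k).1 = 1) (k : ℕ) :
    0 ≤ ∑ j ∈ Finset.range k, (1 - (x j).1) :=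
  Finset.sum_nonneg fun j _ => by have := hx j; omega

theorem mem_D0_cut {x : G} (hx : x ∈ D0) (k : ℕ) {a : ℤ} (ha : a = 0 ∨ a = 1) :
    (fun i => if i < k then x i else if i = k then (a, 0) else 0) ∈ D0 := by
  have h1 : ∀ i, ((fun i => if i < k then x i else if i = k then (a, 0) else 0) i).1 = 0 ∨
      ((fun i => if i < k then x i else if i = k then (a, 0) else 0) i).1 = 1 := by
    intro i
    simp only
    split_ifs
    · exact (hx i).1
    · exact ha
    · exact Or.inl rfl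
  intro i
  refine ⟨h1 i, ?_⟩
  by_cases h2 : i < k
  · simp only [if_pos h2]
    refine ⟨(hx i).2.1, (hx i).2.2.trans (le_of_eq (Finset.sum_congr rfl fun j hj => ?_))⟩
    rw [if_pos (by have := Finset.mem_range.1 hj; omega)]
  · have h3 : ((fun i => if i < k then x i else if i = k then (a, 0) else 0) i).2 = 0 := by
      simp only [if_neg h2]
      split_ifs <;> rfl
    rw [h3]
    exact ⟨le_rfl, sum_nonneg' h1 _⟩

theorem Mn.le {p : ℕ → ℕ} {y z : G} {k : ℕ} (h : Mn p y k) (hz : z ∈ C p)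
    (h1 : ∀ i < k, z i = y i) : (y k).1 ≤ (z k).1 := by
  refine h (z k) ((hz (k + 1)).congr fun i hi => ?_)
  by_cases h2 : i = k
  · subst h2; simp
  · rw [Function.update_of_ne h2, h1 i (by omega)]

theorem Mx.le {p : ℕ → ℕ} {y z : G} {k : ℕ} (h : Mx p y k) (hz : z ∈ C p)
    (h1 : ∀ i < k, z i = y i) (h2 : (z k).1 = (y k).1) : (z k).2 ≤ (y k).2 := by
  refine h (z k).2 ((hz (k + 1)).congr fun i hi => ?_)
  by_cases h3 : i = k
  · subst h3; simp [← h2]
  · rw [Function.update_of_ne h3, h1 i (by omega)]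

theorem small0 (p : ℕ → ℕ) (h : G) : IsMeagre {x : D0 | (x : G) - h ∈ B0 p} := by
  refine meagre_of (S := {x | x - h ∈ B0 p}) fun x hx hxS l => ?_
  obtain ⟨-, h1, -, n, l0, h2⟩ := hxS
  obtain ⟨k, hk, h3⟩ := h1 (l + n + l0)
  by_cases h4 : ∃ x' ∈ D0, (∀ i < k, x' i = x i) ∧ x' - h ∉ C p
  · obtain ⟨x', h5, h6, h7⟩ := h4
    obtain ⟨l', hl⟩ := not_C h7
    exact ⟨x', h5, l', fun i hi => h6 i (by omega), fun x'' _ h8 => hl x'' h8.1⟩
  push Not at h4
  have h5 : (x k).1 = 0 := by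
    have h6 := h3.le (h4 _ (mem_D0_cut hx k (Or.inl rfl)) fun i hi => if_pos hi)
      fun i hi => by simp [hi]
    have h7 := (hx k).1
    simp only [Pi.sub_apply, Prod.fst_sub, lt_irrefl, if_false, if_true] at h6
    omega
  refine ⟨_, mem_D0_cut hx k (Or.inr rfl), k + 1, fun i hi => if_pos (by omega),
    fun z hz hzS h6 => ?_⟩
  have h7 : ∀ i < k, z i = x i := fun i hi => (h6 i (by omega)).trans (if_pos hi)
  have h8 : z k = (1, 0) := by simpa using h6 k (Nat.lt_succ_self k)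
  obtain ⟨j, hj, h9⟩ := hzS.2.2.1 (k + 1)
  let v : G := fun i => if i = k then 0 else if i < j then z i else
    if i = j then ((z j).1, (z j).2 + 1) else 0
  have hv1 : ∀ i, (v i).1 = 0 ∨ (v i).1 = 1 := by
    intro i
    simp only [v]
    split_ifs
    · exact Or.inl rfl
    · exact (hz i).1
    · exact (hz j).1
    · exact Or.inl rfl
  have hv2 : ∀ i ≤ j, (v i).1 = (z i).1 - (e k i).1 := by
    intro i hi
    by_cases h10 : i = k
    · subst h10; simp [v, e, h8]
    · by_cases h11 : i < j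
      · simp [v, e, h10, h11]
      · have : i = j := by omega
        subst this
        simp [v, e, h10]
  have hv3 : ∀ i ≤ j, ∑ m ∈ Finset.range (i + 1), (1 - (v m).1) =
      ∑ m ∈ Finset.range (i + 1), (1 - (z m).1) + if k ≤ i then 1 else 0 := by
    intro i hi
    have : (if k ≤ i then (1 : ℤ) else 0) = ∑ m ∈ Finset.range (i + 1), (e k m).1 := by
      simp only [e, Pi.single_apply, apply_ite Prod.fst, Prod.fst_zero, Finset.sum_ite_eq',
        Finset.mem_range, Nat.lt_succ_iff]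
    rw [this, ← Finset.sum_add_distrib]
    refine Finset.sum_congr rfl fun m hm => ?_
    rw [hv2 m (by have := Finset.mem_range.1 hm; omega)]
    ring
  have hv : v ∈ D0 := by
    intro i
    refine ⟨hv1 i, ?_⟩
    by_cases h10 : i = k
    · have : (v i).2 = 0 := by simp [v, h10]
      rw [this]
      exact ⟨le_rfl, sum_nonneg' hv1 _⟩
    by_cases h11 : i < j
    · have : (v i).2 = (z i).2 := by simp [v, h10, h11]
      rw [this, hv3 i h11.le]
      have := (hz i).2
      split_ifs <;> omega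
    by_cases h12 : i = j
    · subst h12
      have : (v i).2 = (z i).2 + 1 := by simp [v, h10]
      rw [this, hv3 i le_rfl, if_pos (by omega)]
      have := (hz i).2
      omega
    · have : (v i).2 = 0 := by simp [v, h10, h11, h12]
      rw [this]
      exact ⟨le_rfl, sum_nonneg' hv1 _⟩
  have hv4 : ∀ i < k, v i = x i := fun i hi => by
    simp only [v]
    rw [if_neg (by omega), if_pos (by omega), h7 i hi]
  rcases h2.flip (h4 v hv hv4) (fun i hi => by simp [hv4 i (by omega)]) (k := k) (by omega)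
    with h10 | h10
  · have h11 := h9.le h10 (fun i hi => ?_) ?_
    · have h12 : j ≠ k := by omega
      simp [v, e, h12] at h11
    · by_cases h12 : i = k
      · subst h12
        simp only [v, e, h8, Pi.add_apply, Pi.sub_apply, if_true, Pi.single_eq_same]
        abel
      · simp [v, e, h12, hi]
    · have h12 : j ≠ k := by omega
      simp [v, e, h12]
  · have h11 := h3.le h10 fun i hi => by
      have : i ≠ k := by omega
      simp [e, hv4 i hi, this]
    simp [v, e, h5] at h11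

theorem exists_code {K : Set G} (hK : IsCompact K) :
    ∃ p, C p = K ∧ ∀ L w, InT p L w → ∃ y ∈ K, ∀ i < L, y i = w i := by
  classical
  have h1 : ∀ k, ∃ m : ℕ, ∀ y ∈ K, |(y k).1| ≤ m := by
    intro k
    obtain ⟨m, hm⟩ := hK.bddAbove_image (f := fun y : G => |(y k).1|) (by fun_prop)
    exact ⟨m.toNat, fun y hy => (hm ⟨y, hy, rfl⟩).trans (Int.self_le_toNat m)⟩
  choose m hm using h1
  let p : ℕ → ℕ := fun k => 2 * m k +
    if ∃ y ∈ K, ∃ n, Encodable.encode (res y n) = k then 1 else 0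
  have h2 : ∀ L w, InT p L w → ∃ y ∈ K, ∀ i < L, y i = w i := by
    intro L w hw
    have h3 := hw.2 L le_rfl
    simp only [p] at h3
    split_ifs at h3 with h4
    · obtain ⟨y, hy, n, hn⟩ := h4
      have h5 := Encodable.encode_injective hn
      have h6 : n = L := by simpa using congrArg List.length h5
      subst h6
      exact ⟨y, hy, res_eq_iff.1 h5⟩
    · exact absurd h3 (Nat.not_odd_iff_even.2 (even_two_mul _))
  refine ⟨p, Subset.antisymm (fun w hw => ?_) fun y hy L => ⟨fun k _ => ?_, fun n _ => ?_⟩, h2⟩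
  · choose y hy hy' using fun L => h2 L w (hw L)
    exact hK.isClosed.mem_of_tendsto (tendsto_of_res fun L => res_eq_iff.2 (hy' L))
      (Eventually.of_forall hy)
  · refine (hm k y hy).trans ?_
    simp only [p]
    push_cast
    split_ifs <;> omega
  · simp only [p]
    rw [if_pos ⟨y, hy, n, rfl⟩]
    exact odd_two_mul_add_one _

theorem residual_io {K : Set G} {P : G → ℕ → Prop}
    (h1 : ∀ y y' k, (∀ i < k + 1, y' i = y i) → P y k → P y' k)
    (h2 : ∀ y ∈ K, ∀ k, ∃ y' ∈ K, (∀ i < k, y' i = y i) ∧ P y' k) :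
    {y : K | ∀ n, ∃ k, n ≤ k ∧ P y k} ∈ residual K := by
  rw [ofPred_forall]
  refine countable_iInter_mem.2 fun n => residual_of_dense_open ?_ ?_
  · rw [isOpen_iff_mem_nhds]
    rintro y ⟨k, hk, hy⟩
    have := ((isOpen_cyl (y : G) (k + 1)).preimage
      (continuous_subtype_val (p := fun x => x ∈ K))).mem_nhds (x := y) fun _ _ => rfl
    filter_upwards [this] with z hz
    exact ⟨k, hk, h1 _ _ k hz hy⟩
  · rw [dense_iff_inter_open]
    rintro U hU ⟨y, hy⟩
    obtain ⟨V, hV, rfl⟩ := isOpen_induced_iff.1 hU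
    obtain ⟨l, hl⟩ := exists_cyl (hV.mem_nhds hy)
    obtain ⟨y', h3, h4, h5⟩ := h2 y y.2 (l + n)
    exact ⟨⟨y', h3⟩, hl _ fun i hi => h4 i (by omega), l + n, by omega, h5⟩

theorem update_congr {y y' : G} {k : ℕ} (h : ∀ i < k + 1, y' i = y i) (c : ℤ × ℤ) :
    ∀ i < k + 1, Function.update y k c i = Function.update y' k c i := by
  intro i hi
  by_cases h1 : i = k
  · subst h1; simp
  · rw [Function.update_of_ne h1, Function.update_of_ne h1, h i hi]

theorem not_meagre {K : Set G} (hK : IsCompact K) (hne : K.Nonempty) :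
    ∃ p, ¬ IsMeagre {y : K | (y : G) ∈ B0 p ∪ B1 p} := by
  obtain ⟨p, hp, hp'⟩ := exists_code hK
  refine ⟨p, fun hm => ?_⟩
  have : CompactSpace K := isCompact_iff_compactSpace.1 hK
  have := hne.to_subtype
  have hcl : ∀ (y : G) k, IsCompact {z | z ∈ K ∧ ∀ i < k, z i = y i} := by
    intro y k
    refine hK.inter_right (t := {z | ∀ i < k, z i = y i}) ?_
    rw [ofPred_forall]
    refine isClosed_iInter fun i => ?_
    rw [ofPred_forall]
    exact isClosed_iInter fun _ => isClosed_eq (continuous_apply i) continuous_const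
  have h1 := residual_io (K := K) (P := Mn p)
    (fun y y' k h hy c hc => by
      rw [h k (Nat.lt_succ_self k)]; exact hy c (hc.congr (update_congr h c)))
    (fun y hy k => by
      obtain ⟨z, hz, hz'⟩ := (hcl y k).exists_isMinOn ⟨y, hy, fun _ _ => rfl⟩
        (f := fun z : G => (z k).1) (by fun_prop)
      refine ⟨z, hz.1, hz.2, fun c hc => ?_⟩
      obtain ⟨w, hw, hw'⟩ := hp' _ _ hc
      have h3 : (z k).1 ≤ (w k).1 := hz' ⟨hw, fun i hi => by
        rw [hw' i (by omega), Function.update_of_ne (by omega), hz.2 i hi]⟩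
      rwa [hw' k (Nat.lt_succ_self k), Function.update_self] at h3)
  have h2 := residual_io (K := K) (P := Mx p)
    (fun y y' k h hy c hc => by
      rw [h k (Nat.lt_succ_self k)] at hc ⊢; exact hy c (hc.congr (update_congr h _)))
    (fun y hy k => by
      obtain ⟨z, hz, hz'⟩ := (hcl y k).exists_isMaxOn ⟨y, hy, fun _ _ => rfl⟩
        (f := fun z : G => (z k).2) (by fun_prop)
      refine ⟨z, hz.1, hz.2, fun c hc => ?_⟩
      obtain ⟨w, hw, hw'⟩ := hp' _ _ hc
      have h3 : (w k).2 ≤ (z k).2 := hz' ⟨hw, fun i hi => by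
        rw [hw' i (by omega), Function.update_of_ne (by omega), hz.2 i hi]⟩
      rwa [hw' k (Nat.lt_succ_self k), Function.update_self] at h3)
  have h3 := inter_mem (inter_mem h1 h2) hm
  obtain ⟨t, ht, ht1, ht2⟩ := mem_residual.1 h3
  let F : ℕ → Set K := fun n => {y | ∀ k, n ≤ k → (y : G) + e k ∈ K ∨ (y : G) - e k ∈ K}
  have hF : ∀ n, IsClosed (F n) := by
    intro n
    simp only [F]
    rw [ofPred_forall]
    refine isClosed_iInter fun k => ?_
    rw [ofPred_forall]
    refine isClosed_iInter fun _ => IsClosed.union ?_ ?_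
    · exact hK.isClosed.preimage (continuous_subtype_val.add continuous_const)
    · exact hK.isClosed.preimage (continuous_subtype_val.sub continuous_const)
  have h4 := ht1.dense_iUnion_interior_of_closed ht2 hF fun y hy => by
    by_contra h5
    refine (ht hy).2 (Or.inr ⟨hp ▸ y.2, fun n => ?_⟩)
    have h6 : y ∉ F n := fun h => h5 (mem_iUnion.2 ⟨n, h⟩)
    simp only [F, mem_ofPred_eq, not_forall, not_or] at h6
    obtain ⟨k, hk, h7⟩ := h6
    exact ⟨k, hk, by rwa [hp]⟩
  obtain ⟨y, hy1, hy2⟩ := ht2.inter_open_nonempty _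
    (isOpen_iUnion fun _ => isOpen_interior) h4.nonempty
  obtain ⟨n, hn⟩ := mem_iUnion.1 hy1
  obtain ⟨V, hV, hV'⟩ := (mem_nhds_subtype _ _ _).1 (mem_interior_iff_mem_nhds.1 hn)
  obtain ⟨l, hl⟩ := exists_cyl hV
  refine (ht hy2).2 (Or.inl ⟨hp ▸ y.2, (ht hy2).1.1, (ht hy2).1.2, n, l, ?_⟩)
  intro w L hL hw hw' k hk
  obtain ⟨z, hz, hz'⟩ := hp' _ _ hw'
  have h5 : (⟨z, hz⟩ : K) ∈ F n := hV' (hl z fun i hi => (hz' i (by omega)).trans (hw i hi))
  have h6 : z + e k ∈ C p ∨ z - e k ∈ C p := by rw [hp]; exact h5 k hk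
  exact h6.imp (fun h => (h L).congr fun i hi => by simp [hz' i hi])
    fun h => (h L).congr fun i hi => by simp [hz' i hi]

end Pool.Agent.H39.SHM
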