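import Mathlib

set_option autoImplicit false

namespace Pool.Agent.H39.SL
open Set Filter Topology Classical

structure NB (α : Type) where
  N : ℕ → α → α → Prop
  refl : ∀ n p, N n p p
  mono : ∀ {n m p q}, N n p q → m ≤ n → N m p q
  op : ∀ n p q, N n p q → ∃ m, ∀ r, N m q r → N n p r

def NB.top {α : Type} (B : NB α) : TopologicalSpace α where
  IsOpen O := ∀ p ∈ O, ∃ n, ∀ q, B.N n p q → q ∈ O
  isOpen_univ := fun _ _ => ⟨0, fun _ _ => trivial⟩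
  isOpen_inter := fun _ _ hs ht g hg => by
    obtain ⟨k, h⟩ := hs g hg.1
    obtain ⟨k', h'⟩ := ht g hg.2
    exact ⟨max k k', fun v hv => ⟨h v (B.mono hv (le_max_left _ _)),
      h' v (B.mono hv (le_max_right _ _))⟩⟩
  isOpen_sUnion := fun S hS g ⟨t, ht, hg⟩ => by
    obtain ⟨k, h⟩ := hS t ht g hg
    exact ⟨k, fun v hv => ⟨t, ht, h v hv⟩⟩

theorem NB.basis {α : Type} (B : NB α) (p : α) :
    (@nhds α B.top p).HasBasis (fun _ => True) fun n => {q | B.N n p q} := by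
  letI := B.top
  refine ⟨fun S => ⟨fun h => ?_, fun ⟨n, _, h⟩ => mem_nhds_iff.2 ⟨_, h, B.op n p, B.refl n p⟩⟩⟩
  obtain ⟨O, h1, h2, h3⟩ := mem_nhds_iff.1 h
  obtain ⟨k, h⟩ := h2 p h3
  exact ⟨k, trivial, fun v hv => h1 (h v hv)⟩

theorem fin_dir {α ι : Type} {r : α → α → Prop} {D : Set α} (hD : DirectedOn r D)
    (ne : D.Nonempty) (A : ι → α → Prop) (hA : ∀ i a b, r a b → A i a → A i b)
    (h : ∀ i, ∃ s ∈ D, A i s) (F : Finset ι) : ∃ s ∈ D, ∀ i ∈ F, A i s := by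
  induction F using Finset.induction_on with
  | empty => exact ne.imp fun _ h => ⟨h, by simp⟩
  | insert i F _ ih =>
    obtain ⟨s, a, b⟩ := ih
    obtain ⟨t, c, d⟩ := h i
    obtain ⟨u, e, f, g⟩ := hD s a t c
    exact ⟨u, e, fun j hj => (Finset.mem_insert.1 hj).elim (fun h => h ▸ hA _ _ _ g d)
      fun h => hA _ _ _ f (b j h)⟩

@[ext] structure P where
  x : Set ℕ
  y : Set ℕ
  b : Prop
  h : b → y = univ ∧ xᶜ.Finite

instance : SemilatticeInf P where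
  le p q := p.x ⊆ q.x ∧ p.y ⊆ q.y ∧ (p.b → q.b)
  le_refl _ := ⟨le_rfl, le_rfl, id⟩
  le_trans _ _ _ a b := ⟨a.1.trans b.1, a.2.1.trans b.2.1, fun h => b.2.2 (a.2.2 h)⟩
  le_antisymm _ _ a b := P.ext (a.1.antisymm b.1) (a.2.1.antisymm b.2.1) (propext ⟨a.2.2, b.2.2⟩)
  inf p q := ⟨p.x ∩ q.x, p.y ∩ q.y, p.b ∧ q.b, fun h => ⟨by simp [(p.h h.1).1, (q.h h.2).1],
    compl_inter _ _ ▸ (p.h h.1).2.union (q.h h.2).2⟩⟩
  inf_le_left _ _ := ⟨inter_subset_left, inter_subset_left, And.left⟩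
  inf_le_right _ _ := ⟨inter_subset_right, inter_subset_right, And.right⟩
  le_inf _ _ _ a b := ⟨subset_inter a.1 b.1, subset_inter a.2.1 b.2.1, fun h => ⟨a.2.2 h, b.2.2 h⟩⟩

def tp : P := ⟨univ, univ, True, by simp⟩
def M (n : ℕ) (p q : P) : Prop := ∀ i < n, (i ∈ p.x ↔ i ∈ q.x) ∧ (i ∈ p.y ↔ i ∈ q.y)
def W (p : P) : Prop := ¬ p.b ∧ p.y = univ ∧ p.xᶜ.Finite
def tight (p q : P) : Prop := ∀ i, (∀ k ≤ i, k ∈ q.y) → (i ∈ p.x ↔ i ∈ q.x)
def RY (p q : P) : Prop := (p.b → q.b) ∧ (W p → ¬ q.b ∧ (q.y = univ → q.xᶜ.Finite))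
def RX (p q : P) : Prop := (p.b → q = p) ∧ (W p → ¬ q.b ∧ tight p q)

theorem M.trans {n : ℕ} {p q r : P} (h : M n p q) (h' : M n q r) : M n p r :=
  fun i hi => ⟨(h i hi).1.trans (h' i hi).1, (h i hi).2.trans (h' i hi).2⟩
theorem M.symm {n : ℕ} {p q : P} (h : M n p q) : M n q p :=
  fun i hi => ⟨(h i hi).1.symm, (h i hi).2.symm⟩
theorem M.mono {n m : ℕ} {p q : P} (h : M n p q) (hm : m ≤ n) : M m p q :=
  fun i hi => h i (hi.trans_le hm)
theorem M.inf {n : ℕ} {p q p' q' : P} (h : M n p q) (h' : M n p' q') : M n (p ⊓ p') (q ⊓ q') :=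
  fun i hi => ⟨and_congr (h i hi).1 (h' i hi).1, and_congr (h i hi).2 (h' i hi).2⟩
theorem ex_M {p q : P} (h : ¬ (p.x = q.x ∧ p.y = q.y)) : ∃ n, ¬ M n p q := by
  by_contra hc
  push Not at hc
  exact h ⟨Set.ext fun i => (hc (i + 1) i (by omega)).1, Set.ext fun i => (hc (i + 1) i (by omega)).2⟩
theorem tight.eq {p q : P} (h : tight p q) (e : q.y = univ) : p.x = q.x :=
  Set.ext fun i => h i fun _ _ => e ▸ trivial
theorem nb {k : ℕ} {p : P} (h : k ∉ p.y) : ¬ p.b := fun e => h ((p.h e).1 ▸ trivial)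
theorem W_inf {p q : P} (h : W (p ⊓ q)) : (p.b ∨ W p) ∧ (q.b ∨ W q) := by
  have a : p.y = univ ∧ q.y = univ := univ_subset_iff.1 (h.2.1 ▸ inter_subset_left) |> fun a =>
    ⟨a, univ_subset_iff.1 (h.2.1 ▸ inter_subset_right)⟩
  exact ⟨or_iff_not_imp_left.2 fun e => ⟨e, a.1, h.2.2.subset (compl_subset_compl.2 inter_subset_left)⟩,
    or_iff_not_imp_left.2 fun e => ⟨e, a.2, h.2.2.subset (compl_subset_compl.2 inter_subset_right)⟩⟩
theorem RX.RY {p q : P} (h : RX p q) : RY p q :=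
  ⟨fun e => h.1 e ▸ e, fun e => ⟨(h.2 e).1, fun a => (h.2 e).2.eq a ▸ e.2.2⟩⟩
theorem sep {p q : P} (h : p ≠ q) : ∃ n, ∀ r, M n p r ∧ RY p r → ¬ (M n q r ∧ RY q r) := by
  by_cases e : p.x = q.x ∧ p.y = q.y
  · refine ⟨0, fun r a b => h (P.ext e.1 e.2 (propext ⟨fun c => by_contra fun d => ?_,
      fun c => by_contra fun d => ?_⟩))⟩
    · exact (b.2.2 ⟨d, e.2 ▸ (p.h c).1, e.1 ▸ (p.h c).2⟩).1 (a.2.1 c)
    · exact (a.2.2 ⟨d, e.2 ▸ (q.h c).1, e.1 ▸ (q.h c).2⟩).1 (b.2.1 c)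
  · exact (ex_M e).imp fun n hn r a b => hn (a.1.trans b.1.symm)

def BY : NB P where
  N n p q := M n p q ∧ RY p q
  refl _ _ := ⟨fun _ _ => ⟨Iff.rfl, Iff.rfl⟩, id, fun h => ⟨h.1, fun _ => h.2.2⟩⟩
  mono h hm := ⟨h.1.mono hm, h.2⟩
  op n p q h := by
    by_cases e : q.y = univ
    · exact ⟨n, fun r a => ⟨h.1.trans a.1, fun c => a.2.1 (h.2.1 c), fun c =>
        a.2.2 ⟨(h.2.2 c).1, e, (h.2.2 c).2 e⟩⟩⟩
    obtain ⟨k, hk⟩ := (ne_univ_iff_exists_notMem _).1 e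
    refine ⟨max n (k + 1), fun r a => ?_⟩
    have : k ∉ r.y := fun c => hk ((a.1 k (by omega)).2.2 c)
    exact ⟨h.1.trans (a.1.mono (le_max_left _ _)), fun c => absurd (h.2.1 c) (nb hk),
      fun _ => ⟨nb this, fun c => absurd (c ▸ trivial) this⟩⟩

def X : Type := {p : P // p ≠ tp}
noncomputable instance : SemilatticeInf X := Subtype.semilatticeInf fun p q a _ e => a
  (le_antisymm (show p ≤ tp from ⟨subset_univ _, subset_univ _, fun _ => trivial⟩)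
    (e ▸ inf_le_left))

def BX : NB X where
  N n p q := M n p.1 q.1 ∧ RX p.1 q.1
  refl _ _ := ⟨fun _ _ => ⟨Iff.rfl, Iff.rfl⟩, fun _ => rfl, fun h => ⟨h.1, fun _ _ => Iff.rfl⟩⟩
  mono h hm := ⟨h.1.mono hm, h.2⟩
  op n p q h := by
    by_cases e : q.1.y = univ
    · refine ⟨n, fun r a => ⟨h.1.trans a.1, fun c => (a.2.1 (h.2.1 c ▸ c)).trans (h.2.1 c),
        fun c => ?_⟩⟩
      have e1 := (h.2.2 c).2.eq e
      have := a.2.2 ⟨(h.2.2 c).1, e, e1 ▸ c.2.2⟩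
      exact ⟨this.1, fun i hi => e1 ▸ this.2 i hi⟩
    obtain ⟨k, hk⟩ := (ne_univ_iff_exists_notMem _).1 e
    refine ⟨max n (k + 1), fun r a => ?_⟩
    have : k ∉ r.1.y := fun c => hk ((a.1 k (by omega)).2.2 c)
    refine ⟨h.1.trans (a.1.mono (le_max_left _ _)), fun c => absurd (h.2.1 c ▸ c) (nb hk),
      fun c => ⟨nb this, fun i hi => ?_⟩⟩
    have hi' : i < k := not_le.1 fun d => this (hi k d)
    exact ((h.2.2 c).2 i fun j hj => (a.1 j (by omega)).2.2 (hi j hj)).trans (a.1 i (by omega)).1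

instance : TopologicalSpace P := BY.top
instance : TopologicalSpace X := BX.top

instance : T2Space P := t2_iff_nhds.2 fun {p q} h => by
  by_contra hc
  obtain ⟨n, hn⟩ := sep hc
  obtain ⟨r, a, b⟩ := h.nonempty_of_mem (inter_mem_inf ((BY.basis p).mem_of_mem (i := n) trivial)
    ((BY.basis q).mem_of_mem (i := n) trivial))
  exact hn r a b

theorem cont_val : Continuous (fun p : X => p.1) := continuous_iff_continuousAt.2 fun p =>
  ((BX.basis p).tendsto_iff (BY.basis p.1)).2 fun n _ => ⟨n, trivial, fun _ h => ⟨h.1, h.2.RY⟩⟩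

instance : T2Space X := T2Space.of_injective_continuous Subtype.val_injective cont_val

instance : ContinuousInf P := ⟨continuous_iff_continuousAt.2 fun p =>
  (((BY.basis p.1).prod_nhds (BY.basis p.2)).tendsto_iff (BY.basis _)).2 fun n _ =>
    ⟨(n, n), ⟨trivial, trivial⟩, fun q ⟨a, b⟩ => ⟨a.1.inf b.1, fun c => ⟨a.2.1 c.1, b.2.1 c.2⟩,
      fun c => by
        have key : ∀ p q : P, RY p q → p.b ∨ W p → q.y = univ → q.xᶜ.Finite := fun p q h d =>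
          d.elim (fun d _ => (q.h (h.1 d)).2) fun d => (h.2 d).2
        obtain ⟨c1, c2⟩ := W_inf c
        refine ⟨fun d => c.1 ⟨c1.resolve_right fun e => (a.2.2 e).1 d.1,
          c2.resolve_right fun e => (b.2.2 e).1 d.2⟩, fun d => ?_⟩
        exact compl_inter q.1.x q.2.x ▸ (key _ _ a.2 c1 (univ_subset_iff.1
          (d ▸ inter_subset_left))).union (key _ _ b.2 c2 (univ_subset_iff.1
            (d ▸ inter_subset_right)))⟩⟩⟩

instance : ContinuousInf X := ⟨continuous_iff_continuousAt.2 fun p =>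
  (((BX.basis p.1).prod_nhds (BX.basis p.2)).tendsto_iff (BX.basis _)).2 fun n _ =>
    ⟨(n, n), ⟨trivial, trivial⟩, fun q ⟨a, b⟩ => ⟨a.1.inf b.1,
      fun c => congrArg₂ (· ⊓ ·) (a.2.1 c.1) (b.2.1 c.2), fun c => by
        have key : ∀ p q : P, RX p q → p.b ∨ W p → tight p q := fun p q h d =>
          d.elim (fun d _ _ => h.1 d ▸ Iff.rfl) fun d => (h.2 d).2
        obtain ⟨c1, c2⟩ := W_inf c
        exact ⟨fun d => c.1 ⟨c1.resolve_right fun e => (a.2.2 e).1 d.1,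
          c2.resolve_right fun e => (b.2.2 e).1 d.2⟩, fun i hi => and_congr
            (key _ _ a.2 c1 i fun k hk => (hi k hk).1) (key _ _ b.2 c2 i fun k hk => (hi k hk).2)⟩⟩⟩⟩

theorem closed_N (n : ℕ) (p : X) : IsClosed {q | BX.N n p q} := ⟨fun q hq => by
  by_cases h : M n p.1 q.1
  swap
  · exact ⟨n, fun r a b => h (b.1.trans a.1.symm)⟩
  by_cases h1 : p.1.b
  · have : q.1 ≠ p.1 := fun e => hq (Subtype.ext e ▸ BX.refl n p)
    obtain ⟨m, hm⟩ := sep this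
    exact ⟨m, fun r a b => hm r.1 ⟨a.1, a.2.RY⟩ (b.2.1 h1 ▸ BY.refl m p.1)⟩
  by_cases h2 : q.1.b
  · exact ⟨0, fun r a b => hq (Subtype.ext (a.2.1 h2) ▸ b)⟩
  have : W p.1 ∧ ¬ tight p.1 q.1 := by
    by_contra hc
    exact hq ⟨h, fun c => absurd c h1, fun c => ⟨h2, by_contra fun d => hc ⟨c, d⟩⟩⟩
  obtain ⟨i, hi⟩ := not_forall.1 this.2
  obtain ⟨c, d⟩ := Classical.not_imp.1 hi
  exact ⟨i + 1, fun r a b => d (((b.2.2 this.1).2 i fun k hk => (a.1 k (by omega)).2.1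
    (c k hk)).trans (a.1 i (by omega)).1.symm)⟩⟩

instance : RegularSpace X := RegularSpace.of_hasBasis BX.basis fun p n _ => closed_N n p

theorem not_closed : ¬ IsClosed (range fun p : X => p.1) := fun h => by
  have : tp ∈ closure (range fun p : X => p.1) := (mem_closure_iff_nhds_basis (BY.basis tp)).2
    fun n _ => ⟨⟨{n}ᶜ, univ, True, by simp⟩, ⟨⟨_, fun e => by simpa [tp] using congrArg P.x e⟩, rfl⟩,
      fun i hi => by simp [tp, hi.ne], id, fun c => absurd trivial c.1⟩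
  obtain ⟨p, hp⟩ := h.closure_subset this
  exact p.2 hp

def lo (x y : Set ℕ) : X := ⟨⟨x, y, False, False.elim⟩, fun e => (congrArg P.b e).mpr trivial⟩

theorem s_inf (S : Set X) (ne : S.Nonempty) (hS : ∀ a ∈ S, ∀ b ∈ S, a ⊓ b ∈ S) :
    ∃ m, IsGLB S m ∧ m ∈ closure {z | ∃ a ∈ S, a ≤ z} := by
  let m := lo (⋂ s ∈ S, s.1.x) (⋂ s ∈ S, s.1.y)
  have lb : ∀ s ∈ S, m ≤ s := fun s hs =>
    ⟨biInter_subset_of_mem hs, biInter_subset_of_mem hs, False.elim⟩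
  have ap : ∀ n, ∃ s ∈ S, M n m.1 s.1 := fun n => by
    obtain ⟨s, a, b⟩ := fin_dir (r := (· ≥ ·)) (fun a c b d => ⟨_, hS a c b d, inf_le_left,
      inf_le_right⟩) ne (fun (i : ℕ × Bool) s => if i.2 then i.1 ∈ s.1.x → i.1 ∈ m.1.x else
        i.1 ∈ s.1.y → i.1 ∈ m.1.y) (fun i a b c => by
          split_ifs
          · exact fun d e => d (c.1 e)
          · exact fun d e => d (c.2.1 e)) (fun i => by
          obtain ⟨s, hs⟩ := ne
          by_contra hc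
          push Not at hc
          split_ifs at hc <;> push Not at hc <;>
            exact (hc s hs).2 (mem_iInter₂.2 fun t ht => (hc t ht).1))
      (Finset.range n ×ˢ Finset.univ)
    exact ⟨s, a, fun i hi => ⟨⟨fun c => (lb s a).1 c, b (i, true) (by simpa using hi)⟩,
      fun c => (lb s a).2.1 c, b (i, false) (by simpa using hi)⟩⟩
  by_cases h : W m.1
  · obtain ⟨n, hn⟩ := h.2.2.bddAbove
    obtain ⟨s, a, b⟩ := ap (n + 1)
    have e : s.1.x ⊆ m.1.x := fun i hi => by_contra fun c =>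
      c ((b i (Nat.lt_succ_of_le (hn c))).1.2 hi)
    obtain ⟨t, c, d⟩ : ∃ t ∈ S, ∀ u ∈ S, t.1.b → u.1.b := by
      by_cases hc : ∀ u ∈ S, u.1.b
      · exact ⟨s, a, fun u hu _ => hc u hu⟩
      · push Not at hc
        exact hc.imp fun t ht => ⟨ht.1, fun _ _ c => absurd c ht.2⟩
    exact ⟨s ⊓ t, IsLeast.isGLB ⟨hS s a t c, fun u hu => ⟨inter_subset_left.trans (e.trans
      (lb u hu).1), (subset_univ _).trans (h.2.1 ▸ (lb u hu).2.1), fun f => d u hu f.2⟩⟩,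
      subset_closure ⟨_, hS s a t c, le_rfl⟩⟩
  refine ⟨m, ⟨lb, fun q hq => ?_⟩, (mem_closure_iff_nhds_basis (BX.basis m)).2 fun n _ => ?_⟩
  · have a : q.1.x ⊆ m.1.x := subset_iInter₂ fun s hs => (hq hs).1
    have b : q.1.y ⊆ m.1.y := subset_iInter₂ fun s hs => (hq hs).2.1
    exact ⟨a, b, fun c => h ⟨id, univ_subset_iff.1 ((q.1.h c).1 ▸ b),
      (q.1.h c).2.subset (compl_subset_compl.2 a)⟩⟩
  · obtain ⟨s, a, b⟩ := ap n
    exact ⟨s, ⟨s, a, le_rfl⟩, b, False.elim, fun c => absurd c h⟩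

theorem s_sup (C : Set X) (ne : C.Nonempty) (hC : IsChain (· ≤ ·) C) :
    ∃ m, IsLUB C m ∧ m ∈ closure {z | ∃ a ∈ C, z ≤ a} := by
  by_cases h : ∃ c ∈ C, c.1.b
  · obtain ⟨c, ⟨a, b⟩, d⟩ := (InvImage.wf (fun c : X => c.1.xᶜ.ncard) wellFounded_lt).has_min
      {c ∈ C | c.1.b} h
    refine ⟨c, IsGreatest.isLUB ⟨a, fun u hu => (hC.total hu a).elim id fun e => ?_⟩,
      subset_closure ⟨c, a, le_rfl⟩⟩
    exact ⟨compl_subset_compl.1 (eq_of_subset_of_ncard_le (compl_subset_compl.2 e.1)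
      (not_lt.1 (d u ⟨hu, e.2.2 b⟩)) (c.1.h b).2).ge, (c.1.h b).1 ▸ subset_univ _, fun _ => b⟩
  push Not at h
  let m := lo (⋃ s ∈ C, s.1.x) (⋃ s ∈ C, s.1.y)
  have ub : ∀ s ∈ C, s ≤ m := fun s hs =>
    ⟨subset_biUnion_of_mem (u := fun s : X => s.1.x) hs,
      subset_biUnion_of_mem (u := fun s : X => s.1.y) hs, h s hs⟩
  refine ⟨m, ⟨ub, fun q hq => ⟨iUnion₂_subset fun s hs => (hq hs).1,
    iUnion₂_subset fun s hs => (hq hs).2.1, False.elim⟩⟩,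
    (mem_closure_iff_nhds_basis (BX.basis m)).2 fun n _ => ?_⟩
  obtain ⟨s, a, b⟩ := fin_dir hC.directedOn ne (fun (i : ℕ × Bool) s =>
    if i.2 then i.1 ∈ m.1.x → i.1 ∈ s.1.x else i.1 ∈ m.1.y → i.1 ∈ s.1.y) (fun i a b c => by
      split_ifs
      · exact fun d e => c.1 (d e)
      · exact fun d e => c.2.1 (d e)) (fun i => by
      obtain ⟨s, hs⟩ := ne
      by_contra hc
      push Not at hc
      split_ifs at hc <;> push Not at hc <;>
        exact (mem_iUnion₂.1 (hc s hs).1).elim fun t ht => ht.elim fun a b => (hc t a).2 b)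
    (Finset.range n ×ˢ Finset.univ)
  have e : M n m.1 s.1 := fun i hi => ⟨⟨b (i, true) (by simpa using hi), fun c => (ub s a).1 c⟩,
    b (i, false) (by simpa using hi), fun c => (ub s a).2.1 c⟩
  exact ⟨lo s.1.x (s.1.y \ {n}), ⟨s, a, le_rfl, diff_subset, False.elim⟩, fun i hi =>
    ⟨(e i hi).1, (e i hi).2.trans ⟨fun c => ⟨c, hi.ne⟩, And.left⟩⟩, False.elim,
    fun _ => ⟨id, fun i hi => (e i (not_le.1 fun c => (hi n c).2 rfl)).1⟩⟩

end Pool.Agent.H39.SL
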