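import Mathlib
import Pool.Agent.H39.SL1

set_option autoImplicit false

namespace Pool.Agent.H39.SL.AH
open Set Filter Topology Classical

def Z : Type := {f : ℕ → ℕ∞ // (∀ i j, j ≤ i → f i = ⊤ → f j = ⊤) ∧ ∃ i, f i ≠ ⊤}

noncomputable instance : SemilatticeSup Z := Subtype.semilatticeSup fun p q a b => ⟨fun i j h e =>
  sup_eq_top_iff' e |>.elim (fun c => by simp [a.1 i j h c]) fun c => by simp [b.1 i j h c], by
    obtain ⟨i, hi⟩ := a.2
    obtain ⟨j, hj⟩ := b.2
    exact ⟨max i j, fun e => (sup_eq_top_iff' e).elim (fun c => hi (a.1 _ _ (le_max_left _ _) c))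
      fun c => hj (b.1 _ _ (le_max_right _ _) c)⟩⟩
where sup_eq_top_iff' {p q : ℕ → ℕ∞} {i : ℕ} (e : (p ⊔ q) i = ⊤) : p i = ⊤ ∨ q i = ⊤ :=
  max_eq_top.1 e

theorem sup_ap (p q : Z) (i : ℕ) : (p ⊔ q).1 i = max (p.1 i) (q.1 i) := rfl

def B : NB Z where
  N n p q := (∀ i, q.1 i = ⊤ → p.1 i = ⊤) ∧ (∀ i < n, p.1 i ≠ ⊤ → q.1 i = p.1 i) ∧
    ∀ j, p.1 j = ⊤ → p.1 (j + 1) ≠ ⊤ → (n : ℕ∞) ≤ q.1 j
  refl _ _ := ⟨fun _ => id, fun _ _ _ => rfl, fun _ h _ => le_top.trans h.ge⟩
  mono h hm := ⟨h.1, fun i hi => h.2.1 i (hi.trans_le hm), fun j a b =>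
    (Nat.cast_le.2 hm).trans (h.2.2 j a b)⟩
  op n p q h := by
    obtain ⟨k, hk⟩ := p.2.2
    refine ⟨max n k, fun r a => ⟨fun i c => h.1 i (a.1 i c), fun i hi c => (a.2.1 i (by omega)
      (h.2.1 i hi c ▸ c)).trans (h.2.1 i hi c), fun j c d => ?_⟩⟩
    by_cases e : q.1 j = ⊤
    · exact (Nat.cast_le.2 (le_max_left _ _)).trans (a.2.2 j e fun f => d (h.1 _ f))
    · have : j < k := not_le.1 fun f => hk (p.2.1 _ _ f c)
      rw [a.2.1 j (by omega) e]; exact h.2.2 j c d

instance : TopologicalSpace Z := B.top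

theorem sep1 {p q : Z} {i : ℕ} (a : p.1 i = ⊤) (b : q.1 i ≠ ⊤) :
    ∃ n, ∀ r, B.N n p r → ¬ B.N n q r := by
  have h1 := Nat.find_spec p.2.2
  obtain ⟨j, hj⟩ : ∃ j, Nat.find p.2.2 = j + 1 :=
    Nat.exists_eq_succ_of_ne_zero fun e => h1 (p.2.1 i _ (e ▸ Nat.zero_le _) a)
  have h2 : i ≤ j := Nat.lt_succ_iff.1 (not_le.1 fun e => h1 (p.2.1 i _ (hj ▸ e) a))
  have h3 : q.1 j ≠ ⊤ := fun e => b (q.2.1 j i h2 e)
  obtain ⟨c, hc⟩ := ENat.ne_top_iff_exists.1 h3
  refine ⟨max (j + 1) (c + 1), fun r d e => ?_⟩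
  have := d.2.2 j (not_not.1 (Nat.find_min p.2.2 (by omega))) (hj ▸ h1)
  rw [e.2.1 j (by omega) h3, ← hc, Nat.cast_le] at this
  omega

instance : T2Space Z := t2_iff_nhds.2 fun {p q} h => by
  have key : ∀ n, ∃ r, B.N n p r ∧ B.N n q r := fun n =>
    h.nonempty_of_mem (inter_mem_inf ((B.basis p).mem_of_mem (i := n) trivial)
      ((B.basis q).mem_of_mem (i := n) trivial))
  refine Subtype.ext (funext fun i => ?_)
  by_cases a : p.1 i = ⊤ <;> by_cases b : q.1 i = ⊤
  · rw [a, b]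
  · obtain ⟨n, hn⟩ := sep1 a b
    obtain ⟨r, c, d⟩ := key n
    exact absurd d (hn r c)
  · obtain ⟨n, hn⟩ := sep1 b a
    obtain ⟨r, c, d⟩ := key n
    exact absurd c (hn r d)
  · obtain ⟨r, c, d⟩ := key (i + 1)
    exact (c.2.1 i (by omega) a).symm.trans (d.2.1 i (by omega) b)

instance : ContinuousSup Z := ⟨continuous_iff_continuousAt.2 fun p =>
  (((B.basis p.1).prod_nhds (B.basis p.2)).tendsto_iff (B.basis _)).2 fun n _ =>
    ⟨(n, n), ⟨trivial, trivial⟩, fun q ⟨a, b⟩ => ⟨fun i c => max_eq_top.2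
      ((max_eq_top.1 c).imp (a.1 i) (b.1 i)), fun i hi c => by
        rw [sup_ap, sup_ap, a.2.1 i hi fun e => c (max_eq_top.2 (Or.inl e)),
          b.2.1 i hi fun e => c (max_eq_top.2 (Or.inr e))], fun j c d => le_max_iff.2
      ((max_eq_top.1 c).imp (fun e => a.2.2 j e fun f => d (max_eq_top.2 (Or.inl f)))
        fun e => b.2.2 j e fun f => d (max_eq_top.2 (Or.inr f)))⟩⟩⟩

noncomputable def c (m : ℕ) : Z := ⟨fun i => if i ≤ m then ⊤ else 0,
  fun i j h e => by
    by_cases a : i ≤ m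
    · simp [h.trans a]
    · simp [a] at e, m + 1, by simp⟩
noncomputable def fin (f : ℕ → ℕ∞) (h : ∀ i, f i ≠ ⊤) : Z :=
  ⟨f, fun i _ _ e => absurd e (h i), 0, h 0⟩
noncomputable def u (m n : ℕ) : Z := fin (fun i => if i = m then n else 0) fun i => by
  split_ifs <;> simp

theorem u_c (m : ℕ) : Tendsto (u m) atTop (𝓝 (c m)) := (B.basis _).tendsto_right_iff.2 fun n _ =>
  (eventually_ge_atTop n).mono fun k hk => ⟨fun i e => by
    simp only [u, fin] at e; split_ifs at e <;> simp at e, fun i _ e => by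
    have : ¬ i ≤ m := fun a => e (if_pos a)
    simp [u, fin, c, this, show i ≠ m by omega], fun j a b => by
    have h1 : j ≤ m := by_contra fun e => by simp [c, e] at a
    have h2 : ¬ j + 1 ≤ m := fun e => b (if_pos e)
    simp [u, fin, show j = m by omega, hk]⟩

theorem absH {Y : Type*} [TopologicalSpace Y] [Mul Y] [ContinuousMul Y] [T2Space Y] (h : Z → Y)
    (hc : Continuous h) (hm : ∀ a b, h (a ⊔ b) = h a * h b) : IsClosed (range h) := by
  refine isClosed_of_closure_subset fun y hy => ?_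
  have : (comap h (𝓝 y)).NeBot := comap_neBot fun t ht => by
    obtain ⟨_, a, x, rfl⟩ := mem_closure_iff_nhds.1 hy t ht
    exact ⟨x, a⟩
  let U := Ultrafilter.of (comap h (𝓝 y))
  have hU : Tendsto h U (𝓝 y) := tendsto_iff_comap.2 (Ultrafilter.of_le _)
  let I : ℕ → Prop := fun i => ∀ n : ℕ, ∀ᶠ x : Z in U, (n : ℕ∞) ≤ x.1 i
  have mul : ∀ a, Tendsto (fun x => h (a ⊔ x)) U (𝓝 (h a * y)) := fun a => by
    simp only [hm]; exact hU.const_mul _
  by_cases hI : ∀ r, ∃ m, r ≤ m ∧ I m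
  · refine ⟨fin 0 (by simp), eq_of_nhds_neBot (inf_neBot_iff.2 fun s hs t ht => ?_)⟩
    obtain ⟨r, -, hr⟩ := (B.basis _).mem_iff.1 (hc.continuousAt hs)
    obtain ⟨m, a, b⟩ := hI r
    have e1 : ∀ n, h (u m n) * y = y := fun n => tendsto_nhds_unique (mul _) (hU.congr'
      ((b n).mono fun x hx => congrArg h (sup_eq_right.2 fun i => by
        simp only [u, fin]; split_ifs with e
        · exact e ▸ hx
        · exact zero_le).symm))
    have e2 : h (c m) * y = y := tendsto_nhds_unique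
      (((hc.tendsto _).comp (u_c m)).mul_const y) (by simp only [Function.comp, e1]; simp)
    obtain ⟨x, hx⟩ := ((e2 ▸ mul (c m)).eventually (interior_mem_nhds.2 ht)).exists
    obtain ⟨n, -, hn⟩ := (B.basis (c m ⊔ x)).mem_iff.1
      ((isOpen_interior.preimage hc).mem_nhds hx)
    have tp : ∀ i, (c m ⊔ x).1 i ≠ ⊤ → m < i := fun i e => not_le.1 fun f =>
      e (max_eq_top.2 (Or.inl (if_pos f)))
    refine ⟨h (fin (fun i => if i < r then 0 else if (c m ⊔ x).1 i = ⊤ then n else (c m ⊔ x).1 i)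
      fun i => by split_ifs <;> simp [*]), hr ⟨fun i e => ?_, fun i hi _ => if_pos hi,
        fun j e => by simp [fin] at e⟩, interior_subset (hn ⟨fun i e => ?_, fun i _ e => ?_,
          fun j e f => ?_⟩)⟩
    · simp only [fin] at e; split_ifs at e <;> simp_all
    · simp only [fin] at e; split_ifs at e <;> simp_all
    · have := tp i e
      simp only [fin]; rw [if_neg (by omega), if_neg e]
    · have := tp _ f
      simp only [fin]; rw [if_neg (by omega), if_pos e]
  push Not at hI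
  have : ∀ i, ∃ a : ℕ∞, a ≠ ⊤ ∧ (¬ I i → ∀ᶠ x : Z in U, x.1 i = a) := fun i => by
    by_cases e : I i
    · exact ⟨0, by simp, fun f => absurd e f⟩
    obtain ⟨n, hn⟩ := not_forall.1 e
    obtain ⟨a, a1, a2⟩ := (Ultrafilter.finite_biUnion_mem_iff (f := U) (is := Iio n)
      (s := fun a : ℕ => {x : Z | x.1 i = a}) (finite_Iio n)).1 (mem_of_superset
        (Ultrafilter.eventually_not.2 hn) fun x hx => by
          obtain ⟨a, ha⟩ := ENat.ne_top_iff_exists.1 (not_le.1 hx).ne_top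
          exact mem_biUnion (x := a) (by simpa [← ha] using hx) ha.symm)
    exact ⟨a, by simp, fun _ => a2⟩
  choose g g1 g2 using this
  have k1 := Nat.find_spec hI
  set k := Nat.find hI
  let p : Z := ⟨fun i => if i < k then ⊤ else g i, fun i j a e => if_pos (a.trans_lt
    (by_contra fun f => g1 i ((if_neg f).symm.trans e))), k, by simp [g1]⟩
  have tp : ∀ i, p.1 i ≠ ⊤ → k ≤ i := fun i e => not_lt.1 fun f => e (if_pos f)
  refine ⟨p, tendsto_nhds_unique ((hc.tendsto p).mono_left ((B.basis p).ge_iff.2 fun n _ => ?_)) hU⟩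
  refine Eventually.and ((g2 k (k1 k le_rfl)).mono fun x hx i e => if_pos (not_le.1 fun f => g1 k
    (hx.symm.trans (x.2.1 i k f e)))) (Eventually.and ((eventually_all_finite (finite_Iio n)).2
      fun i _ => ?_) ?_)
  · by_cases e : k ≤ i
    · exact (g2 i (k1 i e)).mono fun x hx _ => hx.trans (if_neg (not_lt.2 e)).symm
    · exact Eventually.of_forall fun x f => absurd (tp i f) e
  · by_cases e : ∃ j, k = j + 1
    · obtain ⟨j, hj⟩ := e
      have := Nat.find_min hI (show j < k by omega)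
      push Not at this
      obtain ⟨m, a, b⟩ := this
      obtain rfl : m = j := by_contra fun f => k1 m (by omega) b
      refine (b n).mono fun x hx i c d => ?_
      have := tp _ d
      have : i < k := by_contra fun f => g1 i ((if_neg f).symm.trans c)
      rwa [show i = m by omega]
    · refine Eventually.of_forall fun x i c d => absurd ⟨i, ?_⟩ e
      have := tp _ d
      have : i < k := by_contra fun f => g1 i ((if_neg f).symm.trans c)
      omega

theorem chain : IsChain (· ≤ ·) (range c) := (Monotone.isChain_range fun a b h i => by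
  simp only [c]; split_ifs <;> first | omega | simp)
theorem no_ub (z : Z) : z ∉ upperBounds (range c) := fun h => by
  obtain ⟨i, hi⟩ := z.2.2
  exact hi (top_le_iff.1 (by simpa [c] using h (mem_range_self i) i))

end Pool.Agent.H39.SL.AH
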