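import Mathlib

set_option autoImplicit false

namespace Pool.Agent.H39.SelfLimit

open Set Filter Topology

theorem kernel_fin {V α : Type} [LinearOrder α] (E : V → V → Prop) (P : V → Prop) (f : V → α)
    (hE : ∀ a b, E a b → f a < f b) (F : Finset V) :
    ∃ S : Set V, S ⊆ F ∧ ∀ b ∈ F, (b ∈ S ↔ P b ∧ ∀ a, E a b → a ∉ S) := by
  classical
  induction F using Finset.induction_on_max_value f with
  | empty => exact ⟨∅, by simp, by simp⟩
  | insert a s ha hmax ih =>
    obtain ⟨S, hS, h⟩ := ih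
    have haS : a ∉ S := fun h => ha (hS h)
    have hna : ∀ b ∈ insert a s, ¬ E a b := by
      intro b hb hab
      rcases Finset.mem_insert.1 hb with rfl | hb
      · exact lt_irrefl _ (hE _ _ hab)
      · exact absurd (hE _ _ hab) (not_lt.2 (hmax b hb))
    by_cases hP : P a ∧ ∀ c, E c a → c ∉ S
    · refine ⟨insert a S, ?_, ?_⟩
      · rw [Finset.coe_insert]
        exact insert_subset_insert hS
      · intro b hb
        have key : (∀ c, E c b → c ∉ insert a S) ↔ ∀ c, E c b → c ∉ S := by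
          refine ⟨fun h c hc hcS => h c hc (mem_insert_of_mem _ hcS), fun h c hc hcS => ?_⟩
          rcases hcS with rfl | hcS
          · exact hna b hb hc
          · exact h c hc hcS
        rw [key]
        rcases Finset.mem_insert.1 hb with rfl | hb'
        · exact ⟨fun _ => hP, fun _ => mem_insert _ _⟩
        · rw [← h b hb']
          refine ⟨fun h => ?_, mem_insert_of_mem _⟩
          rcases h with rfl | h
          · exact absurd hb' ha
          · exact h
    · refine ⟨S, hS.trans (by simp), ?_⟩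
      intro b hb
      rcases Finset.mem_insert.1 hb with rfl | hb'
      · exact ⟨fun h => absurd h haS, fun h => absurd h hP⟩
      · exact h b hb'

theorem kernel {V α : Type} [LinearOrder α] (E : V → V → Prop) (P : V → Prop) (f : V → α)
    (hE : ∀ a b, E a b → f a < f b) (hfin : ∀ b, {a | E a b}.Finite) :
    ∃ S : Set V, ∀ b, (b ∈ S ↔ P b ∧ ∀ a, E a b → a ∉ S) := by
  classical
  choose T hT hT' using kernel_fin E P f hE
  let W : Ultrafilter (Finset V) := Ultrafilter.of atTop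
  have hW : (W : Filter (Finset V)) ≤ atTop := Ultrafilter.of_le _
  refine ⟨{b | ∀ᶠ F in (W : Filter (Finset V)), b ∈ T F}, fun b => ?_⟩
  have hb : ∀ᶠ F in (W : Filter (Finset V)), b ∈ F := by
    refine hW ?_
    filter_upwards [eventually_ge_atTop ({b} : Finset V)] with F hF
    exact hF (Finset.mem_singleton_self b)
  have h1 : (∀ᶠ F in (W : Filter (Finset V)), b ∈ T F) ↔ ∀ᶠ F in (W : Filter (Finset V)), (P b ∧ ∀ a ∈ {a | E a b}, a ∉ T F) := by
    refine eventually_congr ?_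
    filter_upwards [hb] with F hF
    exact hT' F b hF
  rw [mem_ofPred_eq, h1, eventually_and, eventually_const, eventually_all_finite (hfin b)]
  refine and_congr_right fun _ => forall_congr' fun a => forall_congr' fun _ => ?_
  exact Ultrafilter.eventually_not

def agree (k : ℕ) (u v : ℕ → Bool) : Prop := ∀ i < k, u i = v i

theorem agree.mono {j k : ℕ} {u v : ℕ → Bool} (h : agree k u v) (hjk : j ≤ k) : agree j u v :=
  fun i hi => h i (hi.trans_le hjk)

theorem tendsto_iff {x : ℕ → ℕ → Bool} {F : Filter ℕ} {l : ℕ → Bool} :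
    Tendsto x F (𝓝 l) ↔ ∀ k, ∀ᶠ n in F, agree k (x n) l := by
  rw [tendsto_pi_nhds]
  simp only [nhds_discrete, tendsto_pure]
  refine ⟨fun h k => ?_, fun h i => ?_⟩
  · have : ∀ᶠ n in F, ∀ i ∈ Finset.range k, x n i = l i :=
      (eventually_all_finset _).2 fun i _ => h i
    filter_upwards [this] with n hn i hi
    exact hn i (Finset.mem_range.2 hi)
  · filter_upwards [h (i + 1)] with n hn
    exact hn i (Nat.lt_succ_self i)

def acc (x : ℕ → ℕ → Bool) (B : Set ℕ) : Set (ℕ → Bool) :=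
  {l | ∀ k, {n | n ∈ B ∧ agree k (x n) l}.Infinite}

theorem far_finite (x : ℕ → ℕ → Bool) (B : Set ℕ) (k : ℕ) :
    {n | n ∈ B ∧ ∀ l ∈ acc x B, ¬ agree k (x n) l}.Finite := by
  by_contra hinf
  set B' := {n | n ∈ B ∧ ∀ l ∈ acc x B, ¬ agree k (x n) l} with hB'
  have hne : (cofinite ⊓ 𝓟 B').NeBot := cofinite_inf_principal_neBot_iff.2 hinf
  let W : Ultrafilter ℕ := Ultrafilter.of (cofinite ⊓ 𝓟 B')
  have hW : (W : Filter ℕ) ≤ cofinite ⊓ 𝓟 B' := Ultrafilter.of_le _
  obtain ⟨l, -, hl⟩ := isCompact_univ.ultrafilter_le_nhds (W.map x) (by simp)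
  have hl' : ∀ k, ∀ᶠ n in (W : Filter ℕ), agree k (x n) l := tendsto_iff.1 hl
  have hB : ∀ᶠ n in (W : Filter ℕ), n ∈ B' := le_principal_iff.1 (hW.trans inf_le_right)
  have hacc : l ∈ acc x B := by
    intro m hm
    have h1 : ∀ᶠ n in (W : Filter ℕ), n ∉ {n | n ∈ B ∧ agree m (x n) l} :=
      (hW.trans inf_le_left) hm.compl_mem_cofinite
    obtain ⟨n, h2, h3, h4⟩ := (h1.and (hB.and (hl' m))).exists
    exact h2 ⟨h3.1, h4⟩
  obtain ⟨n, h3, h4⟩ := (hB.and (hl' k)).exists
  exact h3.2 l hacc h4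

noncomputable def rate (x : ℕ → ℕ → Bool) (B : Set ℕ) (k : ℕ) : ℕ :=
  sSup {n | n ∈ B ∧ ∀ l ∈ acc x B, ¬ agree k (x n) l}

def small (x : ℕ → ℕ → Bool) (g : ℕ → ℕ) (A : ℕ → Bool) (B : Set ℕ) : Prop :=
  ∃ j, ∀ᶠ k in (hyperfilter ℕ : Filter ℕ), ∀ n ∈ B, agree j (x n) A → g k < n → agree k (x n) A

theorem hyper_ge (j : ℕ) : ∀ᶠ k in (hyperfilter ℕ : Filter ℕ), j ≤ k := by
  have : (hyperfilter ℕ : Filter ℕ) ≤ atTop := by
    rw [← Nat.cofinite_eq_atTop]
    exact hyperfilter_le_cofinite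
  exact this (eventually_ge_atTop j)

theorem sep_finite {T : Set (ℕ → Bool)} (hT : T.Finite) (A : ℕ → Bool) :
    ∃ j, ∀ l ∈ T, agree j l A → l = A := by
  have : ∀ᶠ j in atTop, ∀ l ∈ T, agree j l A → l = A := by
    rw [eventually_all_finite hT]
    intro l _
    by_cases h : l = A
    · exact Eventually.of_forall fun _ _ => h
    · obtain ⟨i, hi⟩ := Function.ne_iff.1 h
      filter_upwards [eventually_gt_atTop i] with j hj hag
      exact absurd (hag i hj) hi
  exact this.exists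

theorem small_of_not_acc (x : ℕ → ℕ → Bool) (g : ℕ → ℕ) {A : ℕ → Bool} {B : Set ℕ}
    (h : A ∉ acc x B) : small x g A B := by
  simp only [acc, mem_ofPred_eq, not_forall, not_infinite] at h
  obtain ⟨j, hj⟩ := h
  obtain ⟨j', hj'⟩ := sep_finite (hj.image x) A
  refine ⟨max j j', Eventually.of_forall fun k n hn hag _ => ?_⟩
  rw [hj' (x n) ⟨n, ⟨hn, hag.mono (le_max_left _ _)⟩, rfl⟩ (hag.mono (le_max_right _ _))]
  exact fun _ _ => rfl

theorem rate_lt (x : ℕ → ℕ → Bool) (g : ℕ → ℕ) {A : ℕ → Bool} {B : Set ℕ}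
    (hB : (acc x B).Finite) (h : ¬ small x g A B) :
    ∀ᶠ k in (hyperfilter ℕ : Filter ℕ), g k < rate x B k := by
  obtain ⟨j, hj⟩ := sep_finite hB A
  have h1 := Ultrafilter.eventually_not.2 (fun h' => h ⟨j, h'⟩)
  filter_upwards [h1, hyper_ge j] with k hk hjk
  push Not at hk
  obtain ⟨n, hnB, hnj, hgn, hnk⟩ := hk
  refine hgn.trans_le (le_csSup (far_finite x B k).bddAbove ⟨hnB, fun l hl hag => hnk ?_⟩)
  have : l = A := hj l hl fun i hi => (hag i (hi.trans_le hjk)).symm.trans (hnj i hi)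
  rwa [this] at hag

theorem exists_slow (x : ℕ → ℕ → Bool) (hx : ∀ k u N, ∃ n, N < n ∧ agree k (x n) u)
    (g : ℕ → ℕ) (A : ℕ → Bool) :
    ∃ B : Set ℕ, ¬ small x g A B ∧ Tendsto x (atTop ⊓ 𝓟 B) (𝓝 A) := by
  choose n hn1 hn2 using fun k => hx (k + 1) (Function.update A k (!A k)) (g (k + 1))
  have h1 : ∀ k, agree k (x (n k)) A := by
    intro k i hi
    rw [hn2 k i (hi.trans (Nat.lt_succ_self k)), Function.update_of_ne hi.ne]
  have h2 : ∀ k, ¬ agree (k + 1) (x (n k)) A := by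
    intro k h
    have h3 := hn2 k k (Nat.lt_succ_self k)
    rw [h k (Nat.lt_succ_self k), Function.update_self] at h3
    simp at h3
  refine ⟨range n, ?_, ?_⟩
  · rintro ⟨j, hj⟩
    obtain ⟨k, hk1, hk2⟩ := (hj.and (hyper_ge (j + 1))).exists
    obtain ⟨k, rfl⟩ : ∃ k', k = k' + 1 := ⟨k - 1, by omega⟩
    exact h2 k (hk1 (n k) ⟨k, rfl⟩ ((h1 k).mono (by omega)) (hn1 k))
  · rw [tendsto_iff]
    intro j
    rw [eventually_inf_principal, ← Nat.cofinite_eq_atTop, eventually_cofinite]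
    refine ((finite_lt_nat j).image n).subset ?_
    intro m hm
    simp only [mem_ofPred_eq, Classical.not_imp] at hm
    obtain ⟨⟨k, rfl⟩, hk⟩ := hm
    refine ⟨k, ?_, rfl⟩
    by_contra hkj
    exact hk ((h1 k).mono (not_lt.1 hkj))

theorem acc_mono (x : ℕ → ℕ → Bool) {B C : Set ℕ} (h : B ⊆ C) : acc x B ⊆ acc x C :=
  fun _ hl k => (hl k).mono fun _ hn => ⟨h hn.1, hn.2⟩

theorem acc_union (x : ℕ → ℕ → Bool) (B C : Set ℕ) : acc x (B ∪ C) ⊆ acc x B ∪ acc x C := by
  intro l hl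
  by_contra h
  simp only [acc, mem_union, mem_ofPred_eq, not_or, not_forall, not_infinite] at h
  obtain ⟨⟨j, hj⟩, ⟨j', hj'⟩⟩ := h
  refine hl (max j j') ((hj.union hj').subset ?_)
  rintro n ⟨hn | hn, hag⟩
  · exact Or.inl ⟨hn, hag.mono (le_max_left _ _)⟩
  · exact Or.inr ⟨hn, hag.mono (le_max_right _ _)⟩

theorem acc_of_tendsto {x : ℕ → ℕ → Bool} {B : Set ℕ} {A : ℕ → Bool}
    (h : Tendsto x (atTop ⊓ 𝓟 B) (𝓝 A)) : acc x B ⊆ {A} := by
  intro l hl
  funext i
  have h1 := tendsto_iff.1 h (i + 1)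
  rw [eventually_inf_principal, ← Nat.cofinite_eq_atTop, eventually_cofinite] at h1
  obtain ⟨n, hn1, hn2⟩ := ((hl (i + 1)).sdiff h1).nonempty
  simp only [mem_ofPred_eq, Classical.not_imp, not_and, not_not] at hn2
  exact (hn1.2 i (Nat.lt_succ_self i)).symm.trans (hn2 hn1.1 i (Nat.lt_succ_self i))

theorem exists_seq : ∃ x : ℕ → ℕ → Bool, ∀ k u N, ∃ n, N < n ∧ agree k (x n) u := by
  refine ⟨fun n => TopologicalSpace.denseSeq (ℕ → Bool) (Nat.unpair n).1, fun k u N => ?_⟩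
  have ho : IsOpen {v : ℕ → Bool | agree k v u} := by
    have : {v : ℕ → Bool | agree k v u} = ⋂ i ∈ Finset.range k, {v | v i = u i} := by
      ext v
      simp [agree]
    rw [this]
    exact isOpen_biInter_finset fun i _ =>
      (isOpen_discrete ({u i} : Set Bool)).preimage
        (show Continuous fun v : ℕ → Bool => v i by fun_prop)
  obtain ⟨a, ha⟩ := (TopologicalSpace.denseRange_denseSeq (ℕ → Bool)).exists_mem_open ho
    ⟨u, fun _ _ => rfl⟩
  refine ⟨Nat.pair a (N + 1), Nat.lt_of_succ_le (Nat.right_le_pair _ _), ?_⟩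
  simpa using ha

theorem main : ∃ I : Set (Set ℕ),
      (∀ A B : Set ℕ, A ∈ I → B ⊆ A → B ∈ I) ∧
      (∀ A B : Set ℕ, A ∈ I → B ∈ I → A ∪ B ∈ I) ∧
      (∀ A : Set ℕ, A.Finite → A ∈ I) ∧
      (Set.univ : Set ℕ) ∉ I ∧
      ∃ x : ℕ → (ℕ → Bool),
        {ℓ : ℕ → Bool | ∃ A : Set ℕ, A ∉ I ∧
            Filter.Tendsto x (Filter.atTop ⊓ Filter.principal A) (nhds ℓ)}
          = {f : ℕ → Bool | {n : ℕ | f n = true} ∈ I} := by
  classical
  obtain ⟨x, hx⟩ := exists_seq
  let st : (ℕ → Bool) → Set ℕ := fun f => {n | f n = true}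
  obtain ⟨S, hS⟩ := kernel (α := Germ (hyperfilter ℕ : Filter ℕ) ℕ)
    (fun A B => (acc x (st B)).Finite ∧ ¬ small x (rate x (st A)) A (st B))
    (fun B => (acc x (st B)).Finite) (fun A => (rate x (st A) : ℕ → ℕ))
    (fun A B h => Germ.coe_lt.2 (rate_lt x _ h.1 h.2))
    (fun B => by
      by_cases hB : (acc x (st B)).Finite
      · refine hB.subset fun A hA => ?_
        by_contra h
        exact hA.2 (small_of_not_acc x _ h)
      · refine finite_empty.subset fun A hA => hB hA.1)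
  refine ⟨{B | (acc x B).Finite ∧ ∀ A ∈ S, small x (rate x (st A)) A B}, ?_, ?_, ?_, ?_, x, ?_⟩
  · rintro B C ⟨h1, h2⟩ hCB
    refine ⟨h1.subset (acc_mono x hCB), fun A hA => ?_⟩
    obtain ⟨j, hj⟩ := h2 A hA
    exact ⟨j, hj.mono fun k hk n hn => hk n (hCB hn)⟩
  · rintro B C ⟨h1, h2⟩ ⟨h3, h4⟩
    refine ⟨(h1.union h3).subset (acc_union x B C), fun A hA => ?_⟩
    obtain ⟨j, hj⟩ := h2 A hA
    obtain ⟨j', hj'⟩ := h4 A hA
    refine ⟨max j j', ?_⟩
    filter_upwards [hj, hj'] with k hk hk' n hn hag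
    rcases hn with hn | hn
    · exact hk n hn (hag.mono (le_max_left _ _))
    · exact hk' n hn (hag.mono (le_max_right _ _))
  · intro B hB
    have h0 : ∀ A, A ∉ acc x B := fun A hA => hA 0 (hB.subset fun _ hn => hn.1)
    exact ⟨finite_empty.subset fun A hA => h0 A hA, fun A _ => small_of_not_acc x _ (h0 A)⟩
  · rintro ⟨h, -⟩
    refine infinite_univ (h.subset fun l _ k => ?_)
    refine infinite_of_forall_exists_gt fun N => ?_
    obtain ⟨n, hn1, hn2⟩ := hx k l N
    exact ⟨n, ⟨mem_univ _, hn2⟩, hn1⟩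
  · ext A
    have hA : A ∈ S ↔ (acc x (st A)).Finite ∧ ∀ C ∈ S, small x (rate x (st C)) C (st A) := by
      rw [hS A]
      refine and_congr_right fun hfin => forall_congr' fun C => ?_
      refine ⟨fun h hC => ?_, fun h h' hC => h'.2 (h hC)⟩
      by_contra h'
      exact h ⟨hfin, h'⟩ hC
    simp only [mem_ofPred_eq]
    refine Iff.trans ?_ hA
    constructor
    · rintro ⟨B, hB, hT⟩
      by_contra hAS
      refine hB ⟨(finite_singleton A).subset (acc_of_tendsto hT), fun C hC => ?_⟩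
      refine small_of_not_acc x _ fun h => hAS ?_
      rwa [← mem_singleton_iff.1 (acc_of_tendsto hT h)]
    · intro hAS
      obtain ⟨B, hB, hT⟩ := exists_slow x hx (rate x (st A)) A
      exact ⟨B, fun h => hB (h.2 A hAS), hT⟩

end Pool.Agent.H39.SelfLimit
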