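import Pool.Agent.H39.Aff3

/-! Two-component affine systems with a square root exactly over trees with a branch. -/

namespace Pool.Agent.H39.Aff

open Set Filter Topology MeasureTheory Pool.Agent.H39.NonBorel Pool.Agent.H39.FG
open scoped ENNReal

section
variable {S : Type} [Countable S] {p : S → Option S} {d : S → ℕ}

theorem zero_of_ae {γ : S →₀ ℤ} {c : ℂ} (h : ∀ᵐ x ∂hm S, ch γ x = c) : γ = 0 := by
  by_contra hne
  have h1 := int_ch hne
  rw [integral_congr_ae h] at h1
  obtain ⟨x, hx⟩ := h.exists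
  have := norm_ch γ x
  simp only [integral_const, probReal_univ, one_smul] at h1
  rw [hx, h1] at this
  simp at this

theorem Dp.eig (h : Dp p d) {α : K S} (hα : Ind α) {g : K S → K S} (hg : Measurable g)
    (he : ∀ᵐ x ∂hm S, g (aff p α x) = aff p α (g x)) {ζ : S →₀ ℤ} (hζ : nil p ζ = 0) :
    ∃ c : ℂ, ‖c‖ = 1 ∧ ∀ᵐ x ∂hm S, ch ζ (g x) = c * ch ζ x := by
  obtain ⟨η, -, h1, h2⟩ := h.rig hα (F := fun x => ch ζ (g x)) ((ch ζ).continuous.measurable.comp hg)
    (fun x => norm_ch _ _) (γ := 0) (c := ch ζ α) (norm_ch _ _) (by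
      filter_upwards [he] with x hx
      rw [hx, ch_aff, hζ, add_zero, ch_zero]
      ring)
  rwa [hα.eq h1] at h2

theorem Dp.no_root (h : Dp p d) {α : K S} (hα : Ind α) {s t : S} (hs : p s = some t)
    (ht : p t = none) {g : K S → K S} (hg : Measure.QuasiMeasurePreserving g (hm S) (hm S))
    (he : ∀ᵐ x ∂hm S, g (g x) = aff p α x) : False := by
  have he' : ∀ᵐ x ∂hm S, g (aff p α x) = aff p α (g x) := by
    filter_upwards [he, hg.ae he] with x a b
    rw [← a, b]
  have n1 : nil p (Finsupp.single s 1) = Finsupp.single t 1 := by rw [nil_single, hs]; rfl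
  obtain ⟨c0, a0, b0⟩ := h.eig hα hg.measurable he' (ζ := Finsupp.single t 1)
    (by rw [nil_single, ht]; rfl)
  obtain ⟨η, h1, -, c1, a1, b1⟩ := h.rig hα (F := fun x => ch (Finsupp.single s 1) (g x))
    ((ch _).continuous.measurable.comp hg.measurable) (fun x => norm_ch _ _)
    (γ := Finsupp.single t 1) (c := c0 * ch (Finsupp.single s 1) α)
    (by rw [norm_mul, a0, norm_ch, one_mul]) (by
      filter_upwards [he', b0] with x hx h2
      rw [hx, ch_aff, n1, ch_add, h2]
      ring)
  obtain ⟨ζ, rfl⟩ : ∃ ζ, η = Finsupp.single s 1 + ζ := ⟨η - Finsupp.single s 1, by abel⟩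
  rw [map_add, n1, add_eq_left] at h1
  obtain ⟨c2, a2, b2⟩ := h.eig hα hg.measurable he' h1
  have h3 : ζ + ζ - Finsupp.single t 1 = 0 := by
    refine zero_of_ae (c := ch (Finsupp.single s 1) α / (c1 * c1 * c2)) ?_
    filter_upwards [he, b1, hg.ae b1, b2] with x e1 e2 e3 e4
    rw [e1, ch_aff, n1, ch_add, ch_add, e2, e4, ch_add] at e3
    have f1 : c1 * c1 * c2 ≠ 0 := by
      rw [← norm_ne_zero_iff, norm_mul, norm_mul, a1, a2]; simp
    have f2 : ch (Finsupp.single s 1) x ≠ 0 := by rw [← norm_ne_zero_iff, norm_ch]; simp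
    rw [eq_div_iff f1, sub_eq_add_neg, ch_add, ch_add]
    refine mul_left_cancel₀ f2 ?_
    linear_combination (-ch (-Finsupp.single t 1) x) * e3 +
      (ch (Finsupp.single s 1) x * ch (Finsupp.single s 1) α) * ch_neg_mul (Finsupp.single t 1) x
  have h4 := congrArg (fun z => z t) h3
  simp only [Finsupp.coe_sub, Finsupp.coe_add, Pi.sub_apply, Pi.add_apply, Finsupp.single_eq_same,
    Finsupp.coe_zero, Pi.zero_apply] at h4
  omega

noncomputable def autOf (h : Dp p d) (α : K S) : Aut (hm S) :=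
  ⟨(h.homeo α).toEquiv, h.mp α,
    MeasurePreserving.symm (h.homeo α).toMeasurableEquiv (h.mp α)⟩

end

noncomputable def kap : Measure Bool := (2⁻¹ : ℝ≥0∞) • (Measure.dirac false + Measure.dirac true)

instance : IsProbabilityMeasure kap := ⟨by simp [kap, ENNReal.inv_two_add_inv_two]⟩

theorem kap_not : MeasurePreserving not kap kap :=
  ⟨Measurable.of_discrete, by
    simp [kap, Measure.map_smul, Measure.map_add _ _ Measurable.of_discrete, add_comm]⟩

section
variable {Y : Type} [MeasurableSpace Y] {ν : Measure Y} [IsProbabilityMeasure ν]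

theorem ae_false {P : Bool × Y → Prop} (h : ∀ᵐ x ∂kap.prod ν, P x) : ∀ᵐ y ∂ν, P (false, y) :=
  ae_iff_of_countable.1 (Measure.ae_ae_of_ae_prod h) false (by simp [kap])

theorem skew {σ : Bool → Bool} (hσ : MeasurePreserving σ kap kap) {g : Bool → Y → Y}
    (hg : ∀ b, MeasurePreserving (g b) ν ν) :
    MeasurePreserving (fun q : Bool × Y => (σ q.1, g q.1 q.2)) (kap.prod ν) (kap.prod ν) :=
  hσ.skew_product (measurable_from_prod_countable_right fun b => (hg b).measurable)
    (Eventually.of_forall fun b => (hg b).map_eq)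

def glue {σ : Bool → Bool} (hσ : MeasurePreserving σ kap kap) (hσ' : Function.Involutive σ)
    (f : Bool → Aut ν) : Aut (kap.prod ν) :=
  ⟨Equiv.prodShear hσ'.toPerm fun b => (f b).1, skew hσ fun b => (f b).2.1,
    skew hσ (g := fun b => (f (σ b)).1.symm) fun b => (f (σ b)).2.2⟩

end

noncomputable def two (α : K S0) (τ : List ℕ → Bool) : Aut (kap.prod (hm S0)) :=
  glue (MeasurePreserving.id kap) (fun _ => rfl) fun b => autOf (dp_par τ) (bif b then alt α else α)

theorem two_apply (α : K S0) (τ : List ℕ → Bool) (b : Bool) (y : K S0) :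
    (two α τ).1 (b, y) = (b, aff (par τ) (bif b then alt α else α) y) := rfl

theorem cont_two (α : K S0) :
    Continuous fun q : (List ℕ → Bool) × (Bool × K S0) => (two α q.1).1 q.2 := by
  have h1 : Continuous fun q : Bool × ((List ℕ → Bool) × K S0) =>
      aff (par q.2.1) (bif q.1 then alt α else α) q.2.2 :=
    continuous_prod_of_discrete_left.2 fun b => cont_aff (bif b then alt α else α)
  have h2 : Continuous fun q : (List ℕ → Bool) × (Bool × K S0) => (q.2.1, q.1, q.2.2) := by fun_prop
  exact (continuous_fst.comp continuous_snd).prodMk (h1.comp h2)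

theorem root_of_branch {τ : List ℕ → Bool} (h : τ ∈ IF') (α : K S0) :
    ∃ R : Aut (kap.prod (hm S0)), ∀ x, R.1 (R.1 x) = (two α τ).1 x := by
  obtain ⟨q, d, β, h2, h3⟩ := conj_of_branch h α
  refine ⟨glue kap_not Bool.not_not fun b =>
    bif b then autOf (dp_par τ) α * (autOf h2 β)⁻¹ else autOf h2 β, ?_⟩
  rintro ⟨_ | _, y⟩
  · change (false, aff (par τ) α ((h2.homeo β).symm (h2.homeo β y))) = _
    rw [Homeomorph.symm_apply_apply]; rfl
  · change (true, aff q β (aff (par τ) α ((h2.homeo β).symm y))) = _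
    rw [h3, ← h2.homeo_apply, Homeomorph.apply_symm_apply]; rfl

theorem branch_of_root {τ : List ℕ → Bool} {α : K S0} (hα : Ind α) {R : Bool × K S0 → Bool × K S0}
    (hR : Measure.QuasiMeasurePreserving R (kap.prod (hm S0)) (kap.prod (hm S0)))
    (he : ∀ᵐ x ∂kap.prod (hm S0), R (R x) = (two α τ).1 x) : τ ∈ IF' := by
  have h1 : ∀ᵐ x ∂kap.prod (hm S0), R ((two α τ).1 x) = (two α τ).1 (R x) := by
    filter_upwards [he, hR.ae he] with x a b
    rw [← a, b]
  have m1 : Measurable fun y => R (false, y) := hR.measurable.comp measurable_prodMk_left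
  have h2 := ae_false h1
  obtain ⟨b, hb⟩ := ((dp_par τ).ergodic hα).ae_eq_const_of_ae_eq_comp_ae
    (g := fun y => (R (false, y)).1) m1.fst.aestronglyMeasurable (by
      filter_upwards [h2] with y hy
      have := congrArg Prod.fst hy
      exact this)
  cases b with
  | true =>
    refine branch_of_conj hα m1.snd ?_
    filter_upwards [h2, hb] with y a b
    have := congrArg Prod.snd a
    rw [show R (false, y) = (true, (R (false, y)).2) from Prod.ext b rfl] at this
    exact this
  | false =>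
    refine ((dp_par τ).no_root hα (s := .inr 1) (t := .inr 0) rfl rfl
      (g := fun y => (R (false, y)).2) ⟨m1.snd, ?_⟩ ?_).elim
    · refine Measure.AbsolutelyContinuous.mk fun N hN h0 => ?_
      rw [Measure.map_apply m1.snd hN]
      exact measure_eq_zero_iff_ae_notMem.2 (ae_false (hR.ae (Measure.quasiMeasurePreserving_snd.ae
        (measure_eq_zero_iff_ae_notMem.1 h0))))
    · filter_upwards [ae_false he, hb] with y a b
      rw [show R (false, y) = (false, (R (false, y)).2) from Prod.ext b rfl] at a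
      exact congrArg Prod.snd a

theorem exists_code {B : Set (ℕ → ℕ)} (hB : AnalyticSet B) :
    ∃ τ : (ℕ → ℕ) → List ℕ → Bool, Continuous τ ∧ ∀ y, y ∈ B ↔ τ y ∈ IF' := by
  classical
  rw [AnalyticSet] at hB
  obtain rfl | ⟨g, hg, rfl⟩ := hB
  · exact ⟨fun _ _ => false, continuous_const, fun y => ⟨fun h => h.elim, fun ⟨z, hz⟩ => by
      simpa using hz 0⟩⟩
  refine ⟨fun y t => decide (∃ z, res z t.length = t ∧ ∀ i < t.length, g z i = y i),
    continuous_pi fun t => IsLocallyConstant.continuous ?_, fun y => ⟨?_, ?_⟩⟩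
  · refine (IsLocallyConstant.iff_eventually_eq _).2 fun y => ?_
    have : ∀ᶠ y' in 𝓝 y, ∀ i ∈ Finset.range t.length, y' i = y i :=
      (eventually_all_finset _).2 fun i _ => ev_eq (continuous_apply i) y
    filter_upwards [this] with y' h
    refine decide_eq_decide.2 (exists_congr fun z => and_congr_right fun _ => ?_)
    exact forall₂_congr fun i hi => by rw [h i (Finset.mem_range.2 hi)]
  · rintro ⟨z, rfl⟩
    exact ⟨z, fun n => decide_eq_true ⟨z, by rw [length_res], fun _ _ => rfl⟩⟩
  · rintro ⟨z, hz⟩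
    choose w h2 h3 using fun n => of_decide_eq_true (hz n)
    simp only [length_res, res_eq_iff] at h2 h3
    have h6 : ∀ (g : ℕ → ℕ → ℕ) (v : ℕ → ℕ), (∀ n, ∀ i < n + 1, g n i = v i) →
        Tendsto g atTop (𝓝 v) := fun g v hg =>
      tendsto_pi_nhds.2 fun i => tendsto_const_nhds.congr' <|
        (eventually_ge_atTop i).mono fun n hn => (hg n i (Nat.lt_succ_of_le hn)).symm
    exact ⟨z, tendsto_nhds_unique ((hg.tendsto _).comp (h6 w _ h2)) (h6 _ _ h3)⟩

end Pool.Agent.H39.Aff
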