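import Pool.Agent.H39.Sq1

/-! Codes of measure preserving maps of the unit interval. -/

namespace Pool.Agent.H39.Aff

open Set Filter Topology MeasureTheory Pool.Agent.H39.FG unitInterval
open scoped ENNReal

def iv (p : ℚ × ℚ) : Set I := {x : I | ((p.1 : ℚ) : ℝ) ≤ (x : ℝ) ∧ (x : ℝ) ≤ ((p.2 : ℚ) : ℝ)}

theorem meas_iv (p : ℚ × ℚ) : MeasurableSet (iv p) :=
  measurable_subtype_coe (measurableSet_Icc (a := (p.1 : ℝ)) (b := (p.2 : ℝ)))

noncomputable def code (T : I → I) (p : (ℚ × ℚ) × (ℚ × ℚ)) : ℝ :=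
  (volume (T ⁻¹' iv p.1 ∩ iv p.2)).toReal

theorem ext_iv {ρ ρ' : Measure I} [IsFiniteMeasure ρ] (h : ∀ p, ρ (iv p) = ρ' (iv p)) : ρ = ρ' := by
  have e : ∀ q : ℚ, (Subtype.val : I → ℝ) ⁻¹' Iic (q : ℝ) = iv (0, q) := fun q => by
    ext x; simp [iv, x.2.1]
  refine (MeasurableEmbedding.subtype_coe measurableSet_Icc).map_injective ?_
  refine ext_of_generate_finite _ Real.borel_eq_generateFrom_Iic_rat Real.isPiSystem_Iic_rat ?_ ?_
  · intro s hs
    obtain ⟨q, hq⟩ := mem_iUnion.1 hs
    rw [mem_singleton_iff.1 hq, Measure.map_apply measurable_subtype_coe measurableSet_Iic,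
      Measure.map_apply measurable_subtype_coe measurableSet_Iic, e, h]
  · have : iv (0, 1) = univ := by ext x; simp [iv, x.2.1, x.2.2]
    rw [Measure.map_apply measurable_subtype_coe .univ, Measure.map_apply measurable_subtype_coe .univ,
      preimage_univ, ← this, h]

theorem code_congr {T U : I → I} (h : T =ᵐ[volume] U) : code T = code U := funext fun _ =>
  congrArg ENNReal.toReal (measure_congr ((h.preimage _).inter .rfl))

theorem ae_of_code {T U : I → I} (hT : Measurable T) (hU : Measurable U) (h : code T = code U) :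
    T =ᵐ[volume] U := by
  have h1 : ∀ p, volume.restrict (T ⁻¹' iv p) = volume.restrict (U ⁻¹' iv p) := fun p =>
    ext_iv fun q => by
      rw [Measure.restrict_apply (meas_iv q), Measure.restrict_apply (meas_iv q), inter_comm,
        inter_comm (iv q)]
      exact (ENNReal.toReal_eq_toReal_iff' (measure_ne_top _ _) (measure_ne_top _ _)).1
        (congrFun h (p, q))
  have h2 : ∀ p, ∀ᵐ x : I, (T x ∈ iv p ↔ U x ∈ iv p) := fun p => by
    have a := ae_restrict_mem (μ := volume) (hT (meas_iv p))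
    have b := ae_restrict_mem (μ := volume) (hU (meas_iv p))
    rw [h1, ae_restrict_iff' (hU (meas_iv p))] at a
    rw [← h1, ae_restrict_iff' (hT (meas_iv p))] at b
    filter_upwards [a, b] with x a b using ⟨b, a⟩
  filter_upwards [ae_all_iff.2 h2] with x hx
  refine Subtype.ext (le_antisymm (not_lt.1 fun hc => ?_) (not_lt.1 fun hc => ?_))
  · obtain ⟨q, a, b⟩ := exists_rat_btwn hc
    exact ((hx (0, q)).2 ⟨by simpa using (U x).2.1, a.le⟩).2.not_gt b
  · obtain ⟨q, a, b⟩ := exists_rat_btwn hc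
    exact ((hx (0, q)).1 ⟨by simpa using (T x).2.1, a.le⟩).2.not_gt b

/-- a universal measurable family of maps -/
theorem exists_univ : ∃ Φ : (ℕ → ℕ) → I → I, Measurable (Function.uncurry Φ) ∧
    ∀ f : I → I, Measurable f → ∃ z, Φ z =ᵐ[volume] f := by
  let g := TopologicalSpace.denseSeq C(I, ℝ)
  refine ⟨fun z x => projIcc 0 1 zero_le_one (limsup (fun n => g (z n) x) atTop), ?_, fun f hf => ?_⟩
  · refine continuous_projIcc.measurable.comp (Measurable.limsup fun n => ?_)
    have h1 : Measurable fun q : ℕ × I => g q.1 q.2 :=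
      measurable_from_prod_countable_right fun k => (g k).continuous.measurable
    exact h1.comp (f := fun q : (ℕ → ℕ) × I => (q.1 n, q.2)) (by fun_prop)
  have h1 : MemLp (fun x => (f x : ℝ)) 1 volume :=
    MemLp.of_bound (measurable_subtype_coe.comp hf).aestronglyMeasurable 1
      (Eventually.of_forall fun x => by rw [Real.norm_of_nonneg (f x).2.1]; exact (f x).2.2)
  have h2 := (ContinuousMap.toLp_denseRange ℝ (volume : Measure I) ℝ (p := 1) (by simp)).comp
    (TopologicalSpace.denseRange_denseSeq C(I, ℝ)) (ContinuousLinearMap.continuous _)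
  obtain ⟨u, h3, h4⟩ := mem_closure_iff_seq_limit.1 (h2 (h1.toLp _))
  choose k hk using h3
  obtain ⟨ns, -, h5⟩ := (tendstoInMeasure_of_tendsto_Lp h4).exists_seq_tendsto_ae
  refine ⟨fun n => k (ns n), ?_⟩
  filter_upwards [h5, h1.coeFn_toLp, ae_all_iff.2 fun n =>
    ContinuousMap.coeFn_toLp (p := 1) (𝕜 := ℝ) (volume : Measure I) (g (k n))] with x a b c
  have : ∀ n, u n x = g (k n) x := fun n => by rw [← hk n]; exact c n
  simp only [this, b] at a
  rw [a.limsup_eq, projIcc_val]

theorem analytic_sq : AnalyticSet {c | ∃ S : I ≃ᵐ I, MeasurePreserving S volume volume ∧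
    c = code (S.trans S)} := by
  obtain ⟨Φ, h1, h2⟩ := exists_univ
  have m0 : ∀ z, Measurable (Φ z) := fun z => h1.comp measurable_prodMk_left
  have m1 : ∀ {Z : Type} [MeasurableSpace Z] {A : Set (Z × I)}, MeasurableSet A →
      Measurable fun z => volume {x | (z, x) ∈ A} := fun hA => measurable_measure_prodMk_left hA
  have m2 : MeasurableSet {z | MeasurePreserving (Φ z) volume volume} := by
    have : {z | MeasurePreserving (Φ z) volume volume} =
        ⋂ p, {z | volume {x | (z, x) ∈ Function.uncurry Φ ⁻¹' iv p} = volume (iv p)} := by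
      ext z
      simp only [mem_ofPred_eq, mem_iInter]
      exact ⟨fun h p => h.measure_preimage (meas_iv p).nullMeasurableSet, fun h =>
        ⟨m0 z, ext_iv fun p => (Measure.map_apply (m0 z) (meas_iv p)).trans (h p)⟩⟩
    rw [this]
    exact .iInter fun p => m1 (h1 (meas_iv p)) (measurableSet_singleton _)
  have m3 : Measurable fun q : ((ℕ → ℕ) × (ℕ → ℕ)) × I => Φ q.1.2 (Φ q.1.1 q.2) :=
    h1.comp (measurable_fst.snd.prodMk (h1.comp (measurable_fst.fst.prodMk measurable_snd)))
  have m4 : MeasurableSet {q : (ℕ → ℕ) × (ℕ → ℕ) | ∀ᵐ x : I, Φ q.2 (Φ q.1 x) = x} :=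
    m1 (measurableSet_eq_fun m3 measurable_snd).compl (measurableSet_singleton 0)
  have m5 : MeasurableSet {q : (ℕ → ℕ) × (ℕ → ℕ) | AeIso volume volume (Φ q.1) (Φ q.2)} := by
    convert ((measurable_fst m2).inter (measurable_snd m2)).inter (m4.inter (measurable_swap m4))
    ext q
    exact ⟨fun h => ⟨⟨h.1, h.2⟩, h.3, h.4⟩, fun h => ⟨h.1.1, h.1.2, h.2.1, h.2.2⟩⟩
  have m6 : Measurable fun q : (ℕ → ℕ) × (ℕ → ℕ) => code (Φ q.1 ∘ Φ q.1) :=
    measurable_pi_lambda _ fun p => (m1 (((m3.comp ((measurable_fst.fst.prodMk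
      measurable_fst.fst).prodMk measurable_snd)) (meas_iv p.1)).inter
        (measurable_snd (meas_iv p.2)))).ennreal_toReal
  have e : ∀ {f g : I → I}, MeasurePreserving f volume volume → f =ᵐ[volume] g →
      code (f ∘ f) = code (g ∘ g) := fun hf h => code_congr (by
    filter_upwards [h, hf.quasiMeasurePreserving.ae h] with x a b
    rw [Function.comp_apply, b, a]; rfl)
  convert m5.analyticSet_image m6
  ext c
  constructor
  · rintro ⟨S, hS, rfl⟩
    obtain ⟨z, hz⟩ := h2 S S.measurable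
    obtain ⟨w, hw⟩ := h2 S.symm S.symm.measurable
    refine ⟨(z, w), ⟨hS.congr (m0 z) hz.symm, (hS.symm S).congr (m0 w) hw.symm, ?_, ?_⟩,
      (e hS hz.symm).symm⟩
    · filter_upwards [hz, hS.quasiMeasurePreserving.ae hw] with x a b
      rw [a, b, S.symm_apply_apply]
    · filter_upwards [hw, (hS.symm S).quasiMeasurePreserving.ae hz] with x a b
      rw [a, b, S.apply_symm_apply]
  · rintro ⟨q, hq, rfl⟩
    obtain ⟨T, hT⟩ := genuine hq
    exact ⟨⟨T.1, T.2.1.measurable, T.2.2.measurable⟩, T.2.1, (e T.2.1 hT).symm⟩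

theorem reduction {B : Set (ℕ → ℕ)} (hB : AnalyticSet B) :
    ∃ f : (ℕ → ℕ) → (ℚ × ℚ) × (ℚ × ℚ) → ℝ, Continuous f ∧
      (∀ y, ∃ T : I ≃ᵐ I, MeasurePreserving T volume volume ∧ f y = code T) ∧
      ∀ y, (y ∈ B ↔ ∃ S : I ≃ᵐ I, MeasurePreserving S volume volume ∧ f y = code (S.trans S)) := by
  have : Nontrivial (K S0) := by
    obtain ⟨g, hg⟩ := exists_ne (γ := Finsupp.single (Sum.inr 0 : S0) 1) (by simp)
    exact ⟨g, 0, fun e => hg (by rw [e, ch_apply, pr_single]; simp)⟩
  have : (𝓝[≠] (0 : K S0)).NeBot := ConnectedSpace.neBot_nhdsWithin_compl_of_nontrivial_of_t1space _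
  obtain ⟨φ, ψ, h⟩ := iso_any (volume : Measure I) (kap.prod (hm S0))
  choose L hL using h.lift
  obtain ⟨α, hα⟩ := exists_ind S0
  obtain ⟨τ, h1, h2⟩ := exists_code hB
  refine ⟨fun y => code (L (two α (τ y))).1, Continuous.comp (g := fun r => code (L (two α r)).1)
    (continuous_pi fun p => continuous_iff_continuousAt.2 fun r => ?_) h1, fun y =>
      ⟨⟨(L _).1, (L _).2.1.measurable, (L _).2.2.measurable⟩, (L _).2.1, rfl⟩, fun y =>
      (h2 y).trans ⟨fun h3 => ?_, ?_⟩⟩
  · let g : C((List ℕ → Bool) × (Bool × K S0), Bool × K S0) := ⟨_, cont_two α⟩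
    have hA := h.m2.measurable (meas_iv p.1)
    have := instInnerRegularCompactLTTopOfIsCompletelyPseudoMetrizableSpace (kap.prod (hm S0))
    have t1 := tendsto_measure_symmDiff_preimage_nhds_zero (g.curry.continuous.tendsto r)
      (Eventually.of_forall fun r => (two α r).2.1) (two α r).2.1
      hA.nullMeasurableSet (measure_ne_top _ _)
    refine tendsto_iff_dist_tendsto_zero.2 (squeeze_zero (fun _ => dist_nonneg) (fun r' => ?_)
      ((ENNReal.tendsto_toReal ENNReal.zero_ne_top).comp t1))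
    have n : ∀ r, NullMeasurableSet ((L (two α r)).1 ⁻¹' iv p.1 ∩ iv p.2) volume := fun r =>
      (((L _).2.1.measurable (meas_iv _)).inter (meas_iv _)).nullMeasurableSet
    refine (abs_measureReal_sub_le_measureReal_symmDiff (n r') (n r)).trans
      (ENNReal.toReal_mono (measure_ne_top _ _) ?_)
    beta_reduce
    rw [← h.m1.measure_preimage (((g.curry r').continuous.measurable hA).symmDiff
      ((g.curry r).continuous.measurable hA)).nullMeasurableSet, preimage_symmDiff,
      ← inter_symmDiff_distrib_right]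
    exact (measure_mono inter_subset_left).trans (measure_congr
      ((h.pre (L _).2.1 (hL (two α r')) _).symmDiff (h.pre (L _).2.1 (hL (two α r)) _))).le
  · obtain ⟨R, hR⟩ := root_of_branch h3 α
    refine ⟨⟨(L R).1, (L _).2.1.measurable, (L _).2.2.measurable⟩, (L _).2.1, code_congr ?_⟩
    filter_upwards [hL R, (L R).2.1.quasiMeasurePreserving.ae (hL R), hL (two α (τ y)),
      (L (two α (τ y))).2.1.quasiMeasurePreserving.ae h.e1,
      ((L R).2.1.comp (L R).2.1).quasiMeasurePreserving.ae h.e1] with x a1 a2 a3 a4 a5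
    rw [a1, hR, ← a3] at a2
    exact a4.symm.trans ((congrArg ψ a2.symm).trans a5)
  · rintro ⟨S, hS, h3⟩
    have h4 := ae_of_code (L _).2.1.measurable (S.trans S).measurable h3
    refine branch_of_root hα (h.m1.comp (hS.comp h.m2)).quasiMeasurePreserving ?_
    filter_upwards [h.e2, h.m2.quasiMeasurePreserving.ae (hL (two α (τ y))),
      h.m2.quasiMeasurePreserving.ae h4, (hS.comp h.m2).quasiMeasurePreserving.ae h.e1]
      with x a1 a2 a3 a4
    simp only [Function.comp] at a4 ⊢
    rw [a4, ← a1, ← a2, a3, a1]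
    rfl

end Pool.Agent.H39.Aff
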