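import Mathlib

/-! Linearity testing on the Cantor group and a lemma on measurable strict orders. -/

namespace Pool.Agent.H39.Th

open Set Filter Topology MeasureTheory
open scoped ENNReal

abbrev G : Type := ℕ → ZMod 2

noncomputable def μ : Measure G := Measure.addHaarMeasure ⊤

instance haarμ : μ.IsAddHaarMeasure := by unfold μ; infer_instance

instance probμ : IsProbabilityMeasure μ :=
  ⟨by simpa [μ] using Measure.addHaarMeasure_self (K₀ := (⊤ : TopologicalSpace.PositiveCompacts G))⟩

instance nullμ : NullSingletonClass μ := ⟨fun x => by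
  have h : ∀ y : G, μ {y} = μ {x} := fun y => by
    rw [← measure_preimage_add μ (y - x) {y}]
    congr 1; ext z
    simp only [mem_preimage, mem_singleton_iff]
    constructor
    · intro h; rw [← add_right_inj (y - x), h, sub_add_cancel]
    · rintro rfl; exact sub_add_cancel _ _
  have hi : Function.Injective fun n : ℕ => (Pi.single n 1 : G) := fun a b hab => by
    by_contra hne
    have := congrFun hab a
    simp [hne] at this
  have h2 : μ (⋃ n : ℕ, {(Pi.single n 1 : G)}) = ∑' _ : ℕ, μ {x} := by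
    rw [measure_iUnion (fun a b hab => disjoint_singleton.2 (hi.ne hab))
      fun _ => measurableSet_singleton _]
    simp only [h]
  by_contra hne
  rw [ENNReal.tsum_const_eq_top_of_ne_zero hne] at h2
  exact measure_ne_top _ _ h2⟩

/-- the all-ones sequence -/
def one : G := fun _ => 1

/-- the left shift -/
def L (x : G) : G := fun n => x (n + 1)

theorem mp_L : MeasurePreserving L μ μ :=
  AddMonoidHom.measurePreserving (f := ⟨⟨L, rfl⟩, fun _ _ => rfl⟩)
    (continuous_pi fun n => continuous_apply (n + 1))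
    (fun y => ⟨fun n => Nat.casesOn n 0 y, rfl⟩) rfl

theorem mp_add : MeasurePreserving (fun a : G × G => a.1 + a.2) (μ.prod μ) μ :=
  (measurePreserving_snd (μ := μ) (ν := μ)).comp (measurePreserving_prod_add μ μ)

theorem add_self (x : G) : x + x = 0 := funext fun n => by
  change x n + x n = 0
  generalize x n = a
  revert a; decide

/-- disagreement between `g` and its translate -/
noncomputable def dis (g : G → ZMod 2) (a : G) : ℝ := μ.real {y | g (a + y) ≠ g y}

theorem meas_ne {Y : Type} [MeasurableSpace Y] {f g : Y → ZMod 2} (hf : Measurable f)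
    (hg : Measurable g) : MeasurableSet {y | f y ≠ g y} :=
  (measurableSet_eq_fun hf hg).compl

theorem gap {g : G → ZMod 2} (hg : Measurable g) {B : Set (G × G)}
    (hB : (μ.prod μ).real B ≤ 1 / 100) (h : ∀ x y, (x, y) ∉ B → g (x + y) = g x + g y) (a : G) :
    dis g a ≤ 1 / 10 ∨ 9 / 10 ≤ dis g a := by
  set A := {y | g (a + y) ≠ g y}
  have hA : MeasurableSet A := meas_ne (hg.comp (measurable_const_add a)) hg
  have m1 : MeasurePreserving (Prod.map id (a + ·)) (μ.prod μ) (μ.prod μ) :=
    (MeasurePreserving.id μ).prod (measurePreserving_add_left μ a)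
  have m2 : MeasurePreserving (Prod.map (a + ·) id) (μ.prod μ) (μ.prod μ) :=
    (measurePreserving_add_left μ a).prod (MeasurePreserving.id μ)
  have hsub : A ×ˢ Aᶜ ⊆ Prod.map id (a + ·) ⁻¹' B ∪ Prod.map (a + ·) id ⁻¹' B := by
    rintro ⟨y, z⟩ ⟨hy, hz⟩
    by_contra hn
    rw [mem_union, not_or] at hn
    have h1 := h y (a + z) hn.1
    have h2 := h (a + y) z hn.2
    rw [show y + (a + z) = a + y + z by abel, h2] at h1
    have h3 : g (a + z) = g z := not_not.1 hz
    rw [h3] at h1
    exact hy (add_right_cancel h1)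
  have h3 : dis g a * (1 - dis g a) ≤ 1 / 100 + 1 / 100 := by
    have e : (μ.prod μ).real (A ×ˢ Aᶜ) = dis g a * (1 - dis g a) := by
      rw [measureReal_prod_prod, probReal_compl_eq_one_sub hA]; rfl
    rw [← e]
    refine (measureReal_mono hsub).trans ((measureReal_union_le _ _).trans (add_le_add ?_ ?_))
    · exact (ENNReal.toReal_mono (measure_ne_top _ _) (m1.measure_preimage_le B)).trans hB
    · exact (ENNReal.toReal_mono (measure_ne_top _ _) (m2.measure_preimage_le B)).trans hB
  by_contra hn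
  push Not at hn
  nlinarith [hn.1, hn.2]

theorem marg {B : Set (G × G)} (hB : (μ.prod μ).real B ≤ 1 / 100) {A : Set G}
    (h : ∀ x ∈ A, ∀ y, (x, y) ∈ B) : μ.real A ≤ 1 / 100 := by
  have : (μ.prod μ).real (A ×ˢ univ) ≤ 1 / 100 :=
    (measureReal_mono fun p hp => h p.1 hp.1 p.2).trans hB
  simpa [measureReal_prod_prod] using this

theorem dis_step {g g' : G → ZMod 2} (hg' : Measurable g')
    (h : μ.real {x | g' (L x) ≠ g x} ≤ 1 / 100) (a : G) :
    dis g a ≤ dis g' (L a) + 2 / 100 := by
  have e : dis g' (L a) = μ.real (L ⁻¹' {y | g' (L a + y) ≠ g' y}) :=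
    (mp_L.measureReal_preimage (meas_ne (hg'.comp (measurable_const_add _)) hg').nullMeasurableSet).symm
  have hsub : {y | g (a + y) ≠ g y} ⊆ L ⁻¹' {y | g' (L a + y) ≠ g' y} ∪
      ({x | g' (L x) ≠ g x} ∪ (a + ·) ⁻¹' {x | g' (L x) ≠ g x}) := by
    intro y hy
    by_contra hn
    simp only [mem_union, mem_preimage, mem_ofPred_eq, not_or, not_not] at hn
    exact hy (hn.2.2.symm.trans (hn.1.trans hn.2.1))
  refine (measureReal_mono hsub).trans ((measureReal_union_le _ _).trans ?_)
  rw [e]
  refine add_le_add le_rfl ((measureReal_union_le _ _).trans ?_)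
  have : μ.real ((a + ·) ⁻¹' {x | g' (L x) ≠ g x}) = μ.real {x | g' (L x) ≠ g x} := by
    simp only [Measure.real, measure_preimage_add]
  linarith

theorem dis_tendsto {g : G → ZMod 2} (hg : Measurable g) :
    Tendsto (dis g) (𝓝 0) (𝓝 0) := by
  have hs : MeasurableSet {y | g y = 1} := hg (measurableSet_singleton 1)
  let f : C(G, C(G, G)) := ContinuousMap.curry ⟨fun p : G × G => p.1 + p.2, by fun_prop⟩
  have h := tendsto_measure_symmDiff_preimage_nhds_zero (μ := μ) (ν := μ) (f.continuous.tendsto 0)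
    (.of_forall fun a => measurePreserving_add_left μ a) (measurePreserving_add_left μ 0)
    hs.nullMeasurableSet (measure_ne_top _ _)
  have h2 := (ENNReal.tendsto_toReal ENNReal.zero_ne_top).comp h
  refine h2.congr fun a => ?_
  change (μ _).toReal = (μ _).toReal
  congr 2
  ext y
  change (g (a + y) = 1 ∧ ¬ g (0 + y) = 1) ∨ (g (0 + y) = 1 ∧ ¬ g (a + y) = 1) ↔ g (a + y) ≠ g y
  rw [zero_add]
  generalize g (a + y) = s
  generalize g y = t
  revert s t; decide

theorem blr (g : ℕ → G → ZMod 2) (hg : ∀ k, Measurable (g k))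
    (h : ∀ k, ∃ B : Set (G × G), (μ.prod μ).real B ≤ 1 / 100 ∧ ∀ x y, (x, y) ∉ B →
      g (k + 1) (x + y) = g (k + 1) x + g (k + 1) y ∧ g (k + 1) (x + one) = g (k + 1) x + 1 ∧
        g (k + 1) (L x) = g k x) : False := by
  choose B hB h using h
  have h1 : ∀ m k (a : G), (∀ n, m ≤ n → a n = 0) → dis (g (k + 1)) a ≤ 1 / 10 := by
    intro m
    induction m with
    | zero =>
      intro k a ha
      obtain rfl : a = 0 := funext fun n => ha n (Nat.zero_le n)
      simp [dis]
    | succ m ih =>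
      intro k a ha
      have h2 := ih (k + 1) (L a) fun n hn => ha _ (Nat.succ_le_succ hn)
      have h3 := dis_step (g := g (k + 1)) (hg (k + 2))
        (marg (hB (k + 1)) fun x hx y => by_contra fun hn => hx (h _ x y hn).2.2) a
      rcases gap (hg (k + 1)) (hB k) (fun x y hn => (h k x y hn).1) a with h4 | h4
      · exact h4
      · linarith
  have h2 : 99 / 100 ≤ dis (g 1) one := by
    have hA : MeasurableSet {y | g 1 (one + y) ≠ g 1 y} :=
      meas_ne ((hg 1).comp (measurable_const_add _)) (hg 1)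
    have h3 : μ.real {y | g 1 (one + y) ≠ g 1 y}ᶜ ≤ 1 / 100 :=
      marg (hB 0) fun x hx y => by_contra fun hn => by
        have h4 : g 1 (x + one) = g 1 x + 1 := (h 0 x y hn).2.1
        have h5 : g 1 (one + x) = g 1 x := not_not.1 hx
        rw [add_comm x, h5] at h4
        revert h4
        generalize g 1 x = s
        revert s; decide
    rw [probReal_compl_eq_one_sub hA] at h3
    unfold dis
    linarith
  let b : ℕ → G := fun m n => if m ≤ n then 1 else 0
  have hb : Tendsto b atTop (𝓝 0) := tendsto_pi_nhds.2 fun n =>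
    tendsto_const_nhds.congr' (by
      filter_upwards [eventually_gt_atTop n] with m hm
      simp [b, hm.not_ge])
  obtain ⟨m, hm⟩ := (((dis_tendsto (hg 1)).comp hb).eventually
    (gt_mem_nhds (show (0 : ℝ) < 1 / 10 by norm_num))).exists
  have h3 := h1 m 0 (one + b m) fun n hn => by
    change (1 : ZMod 2) + (if m ≤ n then 1 else 0) = 0
    rw [if_pos hn]; decide
  have hsub : {y | g 1 (one + y) ≠ g 1 y} ⊆ (b m + ·) ⁻¹' {y | g 1 (one + b m + y) ≠ g 1 y} ∪
      {y | g 1 (b m + y) ≠ g 1 y} := by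
    intro y hy
    by_contra hn
    simp only [mem_union, mem_preimage, mem_ofPred_eq, not_or, not_not] at hn
    rw [add_assoc, ← add_assoc (b m), add_self, zero_add] at hn
    exact hy (hn.1.trans hn.2)
  have h4 := (measureReal_mono (μ := μ) hsub).trans (measureReal_union_le _ _)
  have h5 : μ.real ((b m + ·) ⁻¹' {y | g 1 (one + b m + y) ≠ g 1 y}) = dis (g 1) (one + b m) := by
    simp only [dis, Measure.real, measure_preimage_add]
  rw [h5] at h4
  change dis (g 1) one ≤ _ + dis (g 1) (b m) at h4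
  change dis (g 1) (b m) < _ at hm
  rw [zero_add] at h3
  linarith

theorem small_init {Ω : Type} [MeasurableSpace Ω] (m : Measure Ω) [IsProbabilityMeasure m]
    {lt dj : Ω → Ω → Prop} {Γ : Set Ω} (hlt : MeasurableSet {p : Ω × Ω | lt p.1 p.2})
    (hΓ : ∀ᵐ a ∂m, a ∈ Γ) (hdj : ∀ r, ∀ᵐ a ∂m, dj a r)
    (hasym : ∀ a ∈ Γ, ∀ b ∈ Γ, dj a b → lt a b → ¬ lt b a)
    (htr : ∀ a ∈ Γ, ∀ b ∈ Γ, ∀ r ∈ Γ, dj a b → dj b r → dj a r → lt a b → lt b r → lt a r)
    {ε : ℝ≥0∞} (hε : 0 < ε) : ∃ r ∈ Γ, m {a | lt a r} < ε := by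
  by_contra hno
  push Not at hno
  set q := ⨅ r ∈ Γ, m {a | lt a r}
  have hq : ∀ r ∈ Γ, q ≤ m {a | lt a r} := fun r hr => iInf₂_le r hr
  have hq0 : q ≠ 0 := (hε.trans_le (le_iInf₂ hno)).ne'
  obtain ⟨r0, hr0⟩ := hΓ.exists
  have hq1 : q ≠ ∞ := ((hq r0 hr0).trans_lt (measure_lt_top _ _)).ne
  obtain ⟨r, hr, hlt2⟩ : ∃ r ∈ Γ, m {a | lt a r} < q + q := by
    have : q < q + q := ENNReal.lt_add_right hq1 hq0
    obtain ⟨r, hr⟩ := iInf_lt_iff.1 this
    obtain ⟨hr', h⟩ := iInf_lt_iff.1 hr
    exact ⟨r, hr', h⟩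
  set B := {a | lt a r}
  have hB : MeasurableSet B := measurable_prodMk_right hlt
  set S : Set (Ω × Ω) := B ×ˢ B ∩ Prod.swap ⁻¹' {p : Ω × Ω | lt p.1 p.2}
  have hS : MeasurableSet S := (hB.prod hB).inter (measurable_swap hlt)
  have h1 : q * m B ≤ m.prod m S := by
    rw [Measure.prod_apply hS, ← setLIntegral_const, ← lintegral_indicator hB]
    refine lintegral_mono_ae ?_
    filter_upwards [hΓ, hdj r] with a ha har
    by_cases haB : a ∈ B
    · rw [indicator_of_mem haB]
      refine (hq a ha).trans (measure_mono_ae ?_)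
      filter_upwards [hΓ, hdj r, hdj a] with b hb hbr hba hlt
      exact ⟨⟨haB, htr b hb a ha r hr hba har hbr hlt haB⟩, hlt⟩
    · rw [indicator_of_notMem haB]; exact zero_le
  have h2 : m.prod m (Prod.swap ⁻¹' S) = m.prod m S :=
    Measure.measurePreserving_swap.measure_preimage hS.nullMeasurableSet
  have h3 : m.prod m (S ∩ Prod.swap ⁻¹' S) = 0 := by
    rw [Measure.measure_prod_null (hS.inter (measurable_swap hS))]
    filter_upwards [hΓ] with a ha
    refine measure_eq_zero_iff_ae_notMem.2 ?_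
    filter_upwards [hΓ, hdj a] with b hb hba h
    exact hasym b hb a ha hba h.1.2 h.2.2
  have h4 := measure_union_add_inter (μ := m.prod m) S (measurable_swap hS)
  rw [h3, add_zero, h2] at h4
  have h5 : m.prod m (S ∪ Prod.swap ⁻¹' S) ≤ m B * m B := by
    rw [← Measure.prod_prod]
    exact measure_mono (union_subset (fun p hp => hp.1) fun p hp => ⟨hp.1.2, hp.1.1⟩)
  have h6 : (q + q) * m B ≤ m B * m B := by
    rw [add_mul]
    exact (add_le_add h1 h1).trans (h4 ▸ h5)
  have hB0 : m B ≠ 0 := fun h => hq0 (le_zero_iff.1 (h ▸ hq r hr))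
  exact hlt2.not_ge ((ENNReal.mul_le_mul_iff_left hB0 (measure_ne_top _ _)).1 h6)

end Pool.Agent.H39.Th
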