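import Pool.Agent.H39.Th1
import Pool.Agent.H39.FG4

/-! A structure on a probability space with no measurable local repair. -/

namespace Pool.Agent.H39.Th

open Set Filter Topology MeasureTheory Function Pool.Agent.H39.FG
open scoped ENNReal

def RelAt (u : Fin 5 → G) (n : ℕ) : Prop :=
  u 2 n = u 0 n + u 1 n ∧ u 3 n = u 0 n + 1 ∧ u 4 n = u 0 (n + 1)

def Ok0 (k : ℕ) (u : Fin 5 → G) : Prop := ∀ j < k, RelAt u j

def Lt0 (u u' : Fin 5 → G) : Prop := ∃ n, ¬ RelAt u n ∧ ∀ j ≤ n, RelAt u' j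

open Classical in
noncomputable def Ul (u : Fin 5 → G) : Ultrafilter ℕ :=
  if h : ∃ n, ¬ RelAt u n then pure (Nat.find h) else hyperfilter ℕ

def Dg0 (x : G) (k : ℕ) (u : Fin 5 → G) : Prop := ∀ᶠ n in Ul u, x (n - k) = 1

open Classical in
noncomputable def ind (p : Prop) : ZMod 2 := if p then 1 else 0

theorem Lt0.asymm {u v : Fin 5 → G} (h : Lt0 u v) : ¬ Lt0 v u := by
  rintro ⟨m, hm, hm'⟩
  obtain ⟨n, hn, hn'⟩ := h
  rcases le_total n m with h | h
  · exact hn (hm' n h)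
  · exact hm (hn' m h)

theorem Lt0.trans {u v w : Fin 5 → G} (h : Lt0 u v) (h' : Lt0 v w) : Lt0 u w := by
  obtain ⟨n, hn, hn'⟩ := h
  obtain ⟨m, hm, hm'⟩ := h'
  refine ⟨n, hn, fun j hj => hm' j (hj.trans ?_)⟩
  by_contra hlt
  exact hm (hn' m (not_le.1 hlt).le)

theorem key {u r : Fin 5 → G} {k : ℕ} (h1 : Ok0 (k + 1) r) (h2 : ¬ Lt0 u r) :
    ∀ᶠ n in Ul r, RelAt u (n - (k + 1)) ∧ n - (k + 1) + 1 = n - k := by
  classical
  unfold Ul
  split_ifs with h
  · have h3 : k + 1 ≤ Nat.find h := by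
      by_contra hlt
      exact Nat.find_spec h (h1 _ (not_le.1 hlt))
    change RelAt u (Nat.find h - (k + 1)) ∧ Nat.find h - (k + 1) + 1 = Nat.find h - k
    refine ⟨by_contra fun hn => h2 ⟨_, hn, fun j hj => ?_⟩, by omega⟩
    exact not_not.1 (Nat.find_min h (by omega))
  · push Not at h
    have h3 : ∀ᶠ n in hyperfilter ℕ, k + 1 ≤ n :=
      Nat.hyperfilter_le_atTop (eventually_ge_atTop (k + 1))
    filter_upwards [h3] with n hn
    exact ⟨by_contra fun hn => h2 ⟨_, hn, fun j _ => h j⟩, by omega⟩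

theorem ev_ind (x : G) (k : ℕ) (r : Fin 5 → G) : ∀ᶠ n in Ul r, x (n - k) = ind (Dg0 x k r) := by
  unfold ind
  split_ifs with h
  · exact h
  · filter_upwards [Ultrafilter.eventually_not.2 h] with n hn
    revert hn
    generalize x (n - k) = s
    revert s; decide

theorem key2 {u r : Fin 5 → G} {k : ℕ} (h1 : Ok0 (k + 1) r) (h2 : ¬ Lt0 u r) :
    ind (Dg0 (u 2) (k + 1) r) = ind (Dg0 (u 0) (k + 1) r) + ind (Dg0 (u 1) (k + 1) r) ∧
    ind (Dg0 (u 3) (k + 1) r) = ind (Dg0 (u 0) (k + 1) r) + 1 ∧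
    ind (Dg0 (u 4) (k + 1) r) = ind (Dg0 (u 0) k r) := by
  obtain ⟨n, ⟨⟨a, b, c⟩, d⟩, h, e⟩ := ((key h1 h2).and
    ((eventually_all.2 fun i => ev_ind (u i) (k + 1) r).and (ev_ind (u 0) k r))).exists
  rw [← h 0, ← h 1, ← h 2, ← h 3, ← h 4, ← e, ← d]
  exact ⟨a, b, c⟩

inductive Sy | bit | succ | fst | ok | lt | dg

instance finSy : Finite Sy :=
  Finite.of_surjective (![.bit, .succ, .fst, .ok, .lt, .dg] : Fin 6 → Sy) fun p => by
    cases p
    exacts [⟨0, rfl⟩, ⟨1, rfl⟩, ⟨2, rfl⟩, ⟨3, rfl⟩, ⟨4, rfl⟩, ⟨5, rfl⟩]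

abbrev ar : Sy → ℕ
  | .bit => 2 | .succ => 2 | .fst => 2 | .ok => 6 | .lt => 5 + 5 | .dg => 7

def pr {X : Type} (D : X → G) (κ : X → ℕ) : (p : Sy) → (Fin (ar p) → X) → Prop
  | .bit => fun s : Fin 2 → X => D (s 0) (κ (s 1)) = 1
  | .succ => fun s : Fin 2 → X => κ (s 1) = κ (s 0) + 1
  | .fst => fun s : Fin 2 → X => κ (s 0) = 0
  | .ok => fun s : Fin 6 → X => Ok0 (κ (s 0)) fun i => D (s i.succ)
  | .lt => fun s : Fin (5 + 5) → X =>
      Lt0 (fun i => D (s (Fin.castAdd 5 i))) fun i => D (s (Fin.natAdd 5 i))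
  | .dg => fun s : Fin 7 → X => Dg0 (D (s 0)) (κ (s 1)) fun i => D (s i.succ.succ)

def pts (a : G × G) : Fin 5 → G := ![a.1, a.2, a.1 + a.2, a.1 + one, L a.1]

theorem pts_rel (a : G × G) (n : ℕ) : RelAt (pts a) n := ⟨rfl, rfl, rfl⟩

theorem mp_pts (i : Fin 5) : MeasurePreserving (fun a => pts a i) (μ.prod μ) μ := by
  fin_cases i
  · exact measurePreserving_fst
  · exact measurePreserving_snd
  · exact mp_add
  · exact (measurePreserving_add_right μ one).comp measurePreserving_fst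
  · exact mp_L.comp measurePreserving_fst

theorem ae_L (b : G) : ∀ᵐ x ∂μ, L x ≠ x + b := by
  have : {x | L x = x + b}.Finite := by
    refine Set.Finite.of_finite_image (f := fun x => x 0) (toFinite _) fun x hx y hy h => ?_
    funext n
    induction n with
    | zero => exact h
    | succ n ih =>
      have h1 : x (n + 1) = x n + b n := congrFun hx n
      have h2 : y (n + 1) = y n + b n := congrFun hy n
      rw [h1, h2, ih]
  exact measure_eq_zero_iff_ae_notMem.1 (this.measure_zero μ)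

theorem ae_ne {X : Type} [MeasurableSpace X] (ν : Measure X) [NullSingletonClass ν] (b : X) :
    ∀ᵐ x ∂ν, x ≠ b :=
  measure_eq_zero_iff_ae_notMem.1 (measure_singleton b)

theorem one_ne : one ≠ 0 := fun h => absurd (congrFun h 0) (by decide)

theorem ae_inj : ∀ᵐ a ∂μ.prod μ, Injective (pts a) := by
  have hm : MeasurableSet {a | Injective (pts a)} := by
    have : {a | Injective (pts a)} = ⋂ i, ⋂ j, {a | pts a i = pts a j}ᶜ ∪ {_a | i = j} := by
      ext a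
      simp only [Injective, mem_ofPred_eq, mem_iInter, mem_union, mem_compl_iff, imp_iff_not_or]
    rw [this]
    exact MeasurableSet.iInter fun i => MeasurableSet.iInter fun j =>
      (measurableSet_eq_fun (mp_pts i).measurable (mp_pts j).measurable).compl.union
        (MeasurableSet.const _)
  rw [Measure.ae_prod_iff_ae_ae hm]
  filter_upwards [ae_ne μ 0, ae_L 0, ae_L one] with x h1 h2 h3
  filter_upwards [ae_ne μ x, ae_ne μ 0, ae_ne μ (x + one), ae_ne μ (L x), ae_ne μ one,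
    ae_ne μ (L x - x)] with y h4 h5 h6 h7 h8 h9
  rw [add_zero] at h2
  have h10 : x + y ≠ L x := fun h => h9 (by rw [← h]; abel)
  have h11 := one_ne
  intro i j h
  fin_cases i <;> fin_cases j <;> simp_all [pts, eq_comm]

theorem zm {a b : ZMod 2} (h : a = 1 ↔ b = 1) : a = b := by
  revert h a b; decide

theorem core {X : Type} [MeasurableSpace X] (ν : Measure X) [NullSingletonClass ν]
    {π : G → X} {D : X → G} (hi : AeIso μ ν π D)
    {κ : X → ℕ} (hκ : ∀ k, ν {w | κ w = k} ≠ 0) (Q : (p : Sy) → (Fin (ar p) → X) → Prop)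
    (hlt : MeasurableSet {s | Q .lt s}) (hdg : MeasurableSet {s | Q .dg s})
    (tr : ∀ F : Set X, F.Finite → ∃ φ : X → X, ∀ p s, Injective s → (∀ i, s i ∈ F) →
      (Q p s ↔ pr D κ p (φ ∘ s)))
    (hae : ∀ᵐ x ∂ν, ∀ᵐ w ∂ν, (Q .bit ![x, w] ↔ D x (κ w) = 1) ∧
      (Q .succ ![x, w] ↔ κ w = κ x + 1) ∧ (Q .fst ![x, w] ↔ κ x = 0)) : False := by
  set Y := {x | ∀ᵐ w ∂ν, (Q .bit ![x, w] ↔ D x (κ w) = 1) ∧
      (Q .succ ![x, w] ↔ κ w = κ x + 1) ∧ (Q .fst ![x, w] ↔ κ x = 0)}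
  let ω : G × G → Fin 5 → X := fun a i => π (pts a i)
  have mω : ∀ i, MeasurePreserving (fun a => ω a i) (μ.prod μ) ν := fun i => hi.m1.comp (mp_pts i)
  let Γ := {a | (∀ i, D (ω a i) = pts a i) ∧ Injective (pts a) ∧ ∀ i, ω a i ∈ Y}
  have hΓ : ∀ᵐ a ∂μ.prod μ, a ∈ Γ :=
    (eventually_all.2 fun i => (mp_pts i).quasiMeasurePreserving.ae hi.e1).and
      (ae_inj.and (eventually_all.2 fun i => (mω i).quasiMeasurePreserving.ae hae))
  have hinj : ∀ a ∈ Γ, Injective (ω a) := fun a ha i j h =>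
    ha.2.1 (by rw [← ha.1, ← ha.1, h])
  have hav : ∀ b : X, ∀ᵐ a ∂μ.prod μ, ∀ i, ω a i ≠ b := fun b =>
    eventually_all.2 fun i => (mω i).quasiMeasurePreserving.ae (ae_ne ν b)
  let dj : G × G → G × G → Prop := fun a r => ∀ j i, ω a i ≠ ω r j
  have hdj : ∀ r, ∀ᵐ a ∂μ.prod μ, dj a r := fun r => eventually_all.2 fun j => hav _
  let lt : G × G → G × G → Prop := fun a r => Q .lt (Fin.append (ω a) (ω r))
  have hltm : MeasurableSet {p : (G × G) × (G × G) | lt p.1 p.2} := by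
    have : Measurable fun p : (G × G) × (G × G) => Fin.append (ω p.1) (ω p.2) := by
      refine measurable_pi_lambda _ (Fin.addCases (fun i => ?_) fun i => ?_)
      · simp only [Fin.append_left]; exact (mω i).measurable.comp measurable_fst
      · simp only [Fin.append_right]; exact (mω i).measurable.comp measurable_snd
    exact this hlt
  have ltr : ∀ {F : Set X} {φ : X → X}, (∀ p s, Injective s → (∀ i, s i ∈ F) →
      (Q p s ↔ pr D κ p (φ ∘ s))) → ∀ a ∈ Γ, ∀ b ∈ Γ, (∀ j i, ω a i ≠ ω b j) → (∀ i, ω a i ∈ F) →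
      (∀ i, ω b i ∈ F) → (lt a b ↔ Lt0 (fun i => D (φ (ω a i))) fun i => D (φ (ω b i))) := by
    intro F φ hφ a ha b hb hab h1 h2
    refine (hφ .lt _ (Fin.append_injective_iff.2 ⟨hinj a ha, hinj b hb, fun i j => hab j i⟩)
      (Fin.addCases (fun i => ?_) fun i => ?_)).trans ?_
    · simp only [pr, comp, Fin.append_left, Fin.append_right]
    · rw [Fin.append_left]; exact h1 i
    · rw [Fin.append_right]; exact h2 i
  obtain ⟨r, hr, hsm⟩ := small_init (μ.prod μ) (lt := lt) hltm hΓ hdj (by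
    intro a ha b hb hab h1 h2
    obtain ⟨φ, hφ⟩ := tr (range (ω a) ∪ range (ω b)) (toFinite _)
    exact ((ltr hφ a ha b hb hab (by simp) (by simp)).1 h1).asymm
      ((ltr hφ b hb a ha (fun j i => (hab i j).symm) (by simp) (by simp)).1 h2)) (by
    intro a ha b hb r hr hab hbr har h1 h2
    obtain ⟨φ, hφ⟩ := tr (range (ω a) ∪ range (ω b) ∪ range (ω r)) (toFinite _)
    exact (ltr hφ a ha r hr har (by simp) (by simp)).2
      (((ltr hφ a ha b hb hab (by simp) (by simp)).1 h1).trans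
        ((ltr hφ b hb r hr hbr (by simp) (by simp)).1 h2)))
    (ε := ENNReal.ofReal (1 / 100)) (by simp)
  let Y' := {w | w ∈ Y ∧ ∀ i, w ≠ ω r i ∧ (Q .bit ![ω r i, w] ↔ D (ω r i) (κ w) = 1)}
  have hY' : ∀ᵐ w ∂ν, w ∈ Y' := hae.and (eventually_all.2 fun i =>
    (ae_ne ν _).and ((mem_ofPred_eq ▸ hr.2.2 i :
      ∀ᵐ w ∂ν, _ ∧ _).mono fun w h => h.1))
  have pick : ∀ {P : X → Prop}, (∀ᵐ w ∂ν, P w) → ∀ k, ∃ w, κ w = k ∧ P w := fun h k =>
    by_contra fun hn => hκ k (measure_eq_zero_iff_ae_notMem.2 (h.mono fun w hw hk => hn ⟨w, hk, hw⟩))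
  have step : ∀ k (w : {w // κ w = k ∧ w ∈ Y'}), ∃ w' : {w // κ w = k + 1 ∧ w ∈ Y'},
      Q .succ ![w.1, w'.1] ∧ (k = 0 → Q .fst ![w.1, w'.1]) := by
    intro k w
    obtain ⟨w', h1, h2, h3⟩ := pick (hY'.and (mem_ofPred_eq ▸ w.2.2.1 : ∀ᵐ w ∂ν, _ ∧ _)) (k + 1)
    exact ⟨⟨w', h1, h2⟩, h3.2.1.2 (by rw [h1, w.2.1]), fun h => h3.2.2.2 (w.2.1.trans h)⟩
  choose nx hnx using step
  obtain ⟨w0, hw0⟩ := pick hY' 0
  let W : ∀ k, {w // κ w = k ∧ w ∈ Y'} := fun k => Nat.rec ⟨w0, hw0⟩ nx k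
  let w : ℕ → X := fun k => (W k).1
  have hw1 : ∀ k, κ (w k) = k := fun k => (W k).2.1
  have hw2 : ∀ k i, w k ≠ ω r i := fun k i => ((W k).2.2.2 i).1
  have hw3 : ∀ k i, Q .bit ![ω r i, w k] ↔ pts r i k = 1 := fun k i => by
    rw [((W k).2.2.2 i).2, hw1, hr.1]
  have hw4 : ∀ k, Q .succ ![w k, w (k + 1)] := fun k => (hnx k (W k)).1
  have hw5 : Q .fst ![w 0, w 1] := (hnx 0 (W 0)).2 rfl
  have hw6 : ∀ k, Injective ![w k, w (k + 1)] := fun k => by
    have : w k ≠ w (k + 1) := fun h => by have := hw1 k; rw [h, hw1 (k + 1)] at this; omega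
    simpa using this
  have hw7 : ∀ k, Injective (Fin.cons (w k) (ω r) : Fin 6 → X) := fun k =>
    Fin.cons_injective_iff.2 ⟨fun ⟨i, h⟩ => hw2 k i h.symm, hinj r hr⟩
  have hok : ∀ k, Q .ok (Fin.cons (w k) (ω r)) := by
    intro k
    induction k with
    | zero =>
      obtain ⟨φ, hφ⟩ := tr ({w 0, w 1} ∪ range (ω r)) (toFinite _)
      have h1 : κ (φ (w 0)) = 0 := (hφ .fst _ (hw6 0) (by simp [Fin.forall_fin_two])).1 hw5
      refine (hφ .ok _ (hw7 0) (Fin.cases (by simp) (by simp))).2 fun j hj => ?_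
      exact absurd (h1 ▸ hj : j < 0) (Nat.not_lt_zero j)
    | succ k ih =>
      obtain ⟨φ, hφ⟩ := tr ({w k, w (k + 1)} ∪ range (ω r)) (toFinite _)
      have h1 : κ (φ (w (k + 1))) = κ (φ (w k)) + 1 :=
        (hφ .succ _ (hw6 k) (by simp [Fin.forall_fin_two])).1 (hw4 k)
      have h2 : Ok0 (κ (φ (w k))) fun i => D (φ (ω r i)) :=
        (hφ .ok _ (hw7 k) (Fin.cases (by simp) (by simp))).1 ih
      have h3 : ∀ i, D (φ (ω r i)) (κ (φ (w k))) = 1 ↔ Q .bit ![ω r i, w k] := fun i =>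
        (hφ .bit ![ω r i, w k] (by simpa using (hw2 k i).symm) (by simp [Fin.forall_fin_two])).symm
      have h4 : D (φ (ω r 0)) (κ (φ (w (k + 1)))) = 1 ↔ Q .bit ![ω r 0, w (k + 1)] :=
        (hφ .bit ![ω r 0, w (k + 1)] (by simpa using (hw2 (k + 1) 0).symm)
          (by simp [Fin.forall_fin_two])).symm
      have h5 : ∀ i, D (φ (ω r i)) (κ (φ (w k))) = pts r i k := fun i =>
        zm ((h3 i).trans (hw3 k i))
      have h6 : D (φ (ω r 0)) (κ (φ (w k)) + 1) = pts r 0 (k + 1) :=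
        h1 ▸ zm (h4.trans (hw3 (k + 1) 0))
      refine (hφ .ok _ (hw7 (k + 1)) (Fin.cases (by simp) (by simp))).2 fun j hj => ?_
      change j < κ (φ (w (k + 1))) at hj
      change RelAt (fun i => D (φ (ω r i))) j
      rcases Nat.lt_succ_iff_lt_or_eq.1 (h1 ▸ hj) with h | rfl
      · exact h2 j h
      · simp only [RelAt, h5, h6]
        exact pts_rel r k
  refine blr (fun k x => ind (Q .dg (Fin.cons (π x) (Fin.cons (w k) (ω r))))) (fun k => ?_) fun k => ?_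
  · have : Measurable fun x => (Fin.cons (π x) (Fin.cons (w k) (ω r)) : Fin 7 → X) :=
      measurable_pi_lambda _ (Fin.cases hi.m1.measurable fun _ => measurable_const)
    exact Measurable.ite (this hdg) measurable_const measurable_const
  refine ⟨{a | lt a r} ∪ {a | ¬ (a ∈ Γ ∧ dj a r ∧ (∀ i, ω a i ≠ w k) ∧ ∀ i, ω a i ≠ w (k + 1))},
    ?_, fun x y hn => ?_⟩
  · have h0 : μ.prod μ {a | ¬ (a ∈ Γ ∧ dj a r ∧ (∀ i, ω a i ≠ w k) ∧ ∀ i, ω a i ≠ w (k + 1))} = 0 :=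
      hΓ.and ((hdj r).and ((hav _).and (hav _)))
    refine ENNReal.toReal_le_of_le_ofReal (by norm_num) ((measure_union_le _ _).trans ?_)
    rw [h0, add_zero]
    exact hsm.le
  rw [mem_union, not_or] at hn
  obtain ⟨ha, h1, h2, h3⟩ := not_not.1 hn.2
  obtain ⟨φ, hφ⟩ := tr ({w k, w (k + 1)} ∪ range (ω r) ∪ range (ω (x, y))) (toFinite _)
  have h4 : κ (φ (w (k + 1))) = κ (φ (w k)) + 1 :=
    (hφ .succ _ (hw6 k) (by simp [Fin.forall_fin_two])).1 (hw4 k)
  have h5 : Ok0 (κ (φ (w (k + 1)))) fun i => D (φ (ω r i)) :=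
    (hφ .ok _ (hw7 (k + 1)) (Fin.cases (by simp) (by simp))).1 (hok (k + 1))
  have h6 := key2 (h4 ▸ h5) ((ltr hφ _ ha r hr h1 (by simp) (by simp)).not.1 hn.1)
  have h7 : ∀ i l, l = k ∨ l = k + 1 → (Q .dg (Fin.cons (ω (x, y) i) (Fin.cons (w l) (ω r))) ↔
      Dg0 (D (φ (ω (x, y) i))) (κ (φ (w l))) fun j => D (φ (ω r j))) := by
    intro i l hl
    refine hφ .dg _ (Fin.cons_injective_iff.2 ⟨?_, hw7 l⟩)
      (Fin.cases (by simp) (Fin.cases (by rcases hl with rfl | rfl <;> simp) (by simp)))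
    rintro ⟨j, hj⟩
    induction j using Fin.cases with
    | zero =>
      rcases hl with rfl | rfl
      exacts [h2 i hj.symm, h3 i hj.symm]
    | succ j => exact h1 j i hj.symm
  rw [← h4] at h6
  simp only [← h7 _ _ (Or.inl rfl), ← h7 _ _ (Or.inr rfl)] at h6
  exact h6

end Pool.Agent.H39.Th
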