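import Mathlib
import Pool.Agent.H39.NonBorel
import Pool.Agent.H39.BaireLoc

set_option autoImplicit false

namespace Pool.Agent.H39.Thread

open Set Filter Topology MeasureTheory Pool.Agent.H39.NonBorel Pool.Agent.H39.BaireLoc

abbrev X := ℕ → ℕ
abbrev Th := ℕ × X

def Pre (p : Th) (a : X) : Prop := ∀ i < p.1, a i = p.2 i

def app (p : Th) (d k : ℕ) : Th := (p.1 + 1 + k, Function.update p.2 p.1 d)

theorem Pre.of_app {p : Th} {d k : ℕ} {a : X} (h : Pre (app p d k) a) : Pre p a ∧ a p.1 = d :=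
  ⟨fun i hi => (h i (by simp only [app]; omega)).trans (Function.update_of_ne hi.ne _ _),
    (h p.1 (by simp only [app]; omega)).trans (Function.update_self _ _ _)⟩

theorem Pre.app {p : Th} {a : X} (h : Pre p a) : Pre (app p (a p.1) 0) a := by
  intro i hi
  rcases (Nat.lt_succ_iff.1 hi).eq_or_lt with rfl | hi
  · simp [Thread.app]
  · exact (h i hi).trans (Function.update_of_ne hi.ne _ _).symm

def spawn (p : Th) (w : List ℕ) : Th :=
  (max p.1 w.length, fun i => if i < p.1 then p.2 i else w.getD i 0)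

theorem Pre.of_spawn {p : Th} {w : List ℕ} {a : X} (h : Pre (spawn p w) a) : Pre p a :=
  fun i hi => (h i (lt_max_of_lt_left hi)).trans (if_pos hi)

theorem Pre.agree {p : Th} {a a' : X} {K : ℕ} (h : Pre p a)
    (h' : Pre (spawn p ((List.range K).map a)) a') : ∀ i < K, a' i = a i := by
  intro i hi
  rw [h' i (lt_max_of_lt_right (by simpa using hi))]
  simp only [spawn]
  split_ifs with h1
  · exact (h i h1).symm
  · simp [hi]

structure St where
  cur : Th
  tau : Th
  bak : Th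

def step (s : St) (m c k : ℕ) : St :=
  if m % 4 = 0 then ⟨app s.cur (m / 4) 0, s.tau, s.bak⟩
  else if m % 4 = 1 then ⟨app s.cur (m / 4).unpair.1 0,
    spawn s.cur (Denumerable.ofNat (List ℕ) (m / 4).unpair.2), s.cur⟩
  else if m % 4 = 2 then ⟨app s.tau c k, s.tau, s.cur⟩
  else ⟨app s.bak c k, s.tau, s.bak⟩

def st (b : X) : ℕ → St
  | 0 => ⟨(1, 0), (1, 0), (1, 0)⟩
  | j + 1 => step (st b j) (b j) (Encodable.encode (res b j)) j

theorem st_congr {b b' : X} {j : ℕ} (h : ∀ i < j, b i = b' i) : st b j = st b' j := by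
  induction j with
  | zero => rfl
  | succ j ih =>
    rw [st, st, ih fun i hi => h i (by omega), h j (by omega),
      res_eq_iff.2 fun i hi => h i (by omega)]

theorem st_E {b : X} {j : ℕ} (h : b j % 4 = 0) :
    st b (j + 1) = ⟨app (st b j).cur (b j / 4) 0, (st b j).tau, (st b j).bak⟩ := if_pos h

theorem st_S {b : X} {j : ℕ} (h : b j % 4 = 1) :
    st b (j + 1) = ⟨app (st b j).cur (b j / 4).unpair.1 0, spawn (st b j).cur
      (Denumerable.ofNat (List ℕ) (b j / 4).unpair.2), (st b j).cur⟩ :=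
  (if_neg (by omega)).trans (if_pos h)

theorem st_J {b : X} {j : ℕ} (h : b j % 4 = 2) :
    st b (j + 1) = ⟨app (st b j).tau (Encodable.encode (res b j)) j, (st b j).tau,
      (st b j).cur⟩ :=
  (if_neg (by omega)).trans ((if_neg (by omega)).trans (if_pos h))

theorem st_R {b : X} {j : ℕ} (h : b j % 4 = 3) :
    st b (j + 1) = ⟨app (st b j).bak (Encodable.encode (res b j)) j, (st b j).tau,
      (st b j).bak⟩ :=
  (if_neg (by omega)).trans ((if_neg (by omega)).trans (if_neg (by omega)))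

theorem cases4 (m : ℕ) : m % 4 = 0 ∨ m % 4 = 1 ∨ m % 4 = 2 ∨ m % 4 = 3 := by omega

theorem le_cur (b : X) (j : ℕ) : j ≤ (st b j).cur.1 := by
  induction j with
  | zero => exact Nat.zero_le _
  | succ j ih =>
    rcases cases4 (b j) with h | h | h | h
    · rw [st_E h]; simp only [app]; omega
    · rw [st_S h]; simp only [app]; omega
    · rw [st_J h]; simp only [app]; omega
    · rw [st_R h]; simp only [app]; omega

def Rec (v : ℕ) (b : X) (j : ℕ) : Prop :=
  ∃ k b', j ≤ k ∧ (∀ i < j, b' i = b i) ∧ v = Encodable.encode (res b' k)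

theorem Rec.congr {v j j' : ℕ} {b b' : X} (h : Rec v b j) (hj : j' ≤ j)
    (h' : ∀ i < j', b i = b' i) : Rec v b' j' := by
  obtain ⟨k, c, h1, h2, h3⟩ := h
  exact ⟨k, c, hj.trans h1, fun i hi => (h2 i (by omega)).trans (h' i hi), h3⟩

theorem not_rec (v : ℕ) (b : X) : ∀ᶠ j in atTop, ¬ Rec v b j := by
  filter_upwards [eventually_gt_atTop (Denumerable.ofNat (List ℕ) v).length] with j hj
  rintro ⟨k, c, h1, -, rfl⟩
  simp at hj
  omega

theorem not_rec' (a b : X) (n : ℕ) : ∀ᶠ j in atTop, ∀ i < n, ¬ Rec (a i) b j := by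
  simpa using (eventually_all_finset (Finset.range n)).2 fun i _ => not_rec (a i) b

theorem Rec.eq {v j : ℕ} {b b' : X} (h : Rec v b j) (h' : Rec v b' j) : ∀ i < j, b i = b' i := by
  obtain ⟨k, c, h1, h2, rfl⟩ := h
  obtain ⟨k', c', h3, h4, h5⟩ := h'
  have h6 := Encodable.encode_injective h5
  obtain rfl : k = k' := by simpa using congrArg List.length h6
  intro i hi
  rw [← h2 i hi, ← h4 i hi, res_eq_iff.1 h6 i (by omega)]

def Live (a b : X) (j : ℕ) : Prop :=
  Pre (st b j).cur a ∨ (Pre (st b j).tau a ∧ Rec (a (st b j).tau.1) b j) ∨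
    (Pre (st b j).bak a ∧ Rec (a (st b j).bak.1) b j)

theorem Live.back {a b : X} {j : ℕ} (h : Live a b (j + 1)) : Live a b j := by
  have h1 : ∀ {v}, Rec v b (j + 1) → Rec v b j := fun h => h.congr (by omega) fun _ _ => rfl
  have h2 : Rec (Encodable.encode (res b j)) b j := ⟨j, b, le_rfl, fun _ _ => rfl, rfl⟩
  unfold Live at h
  rcases cases4 (b j) with h3 | h3 | h3 | h3
  · rw [st_E h3] at h
    exact h.imp (fun h => h.of_app.1) (Or.imp (And.imp_right h1) (And.imp_right h1))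
  · rw [st_S h3] at h
    rcases h with h | h | h
    exacts [Or.inl h.of_app.1, Or.inl h.1.of_spawn, Or.inl h.1]
  · rw [st_J h3] at h
    rcases h with h | h | h
    exacts [Or.inr (Or.inl ⟨h.of_app.1, h.of_app.2 ▸ h2⟩), Or.inr (Or.inl ⟨h.1, h1 h.2⟩),
      Or.inl h.1]
  · rw [st_R h3] at h
    rcases h with h | h | h
    exacts [Or.inr (Or.inr ⟨h.of_app.1, h.of_app.2 ▸ h2⟩), Or.inr (Or.inl ⟨h.1, h1 h.2⟩),
      Or.inr (Or.inr ⟨h.1, h1 h.2⟩)]

theorem Live.mono {a b : X} {j j' : ℕ} (hj : j' ≤ j) (h : Live a b j) : Live a b j' := by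
  induction j, hj using Nat.le_induction with
  | base => exact h
  | succ j _ ih => exact ih h.back

theorem Live.congr {a b b' : X} {j : ℕ} (h : Live a b j) (h' : ∀ i < j, b i = b' i) :
    Live a b' j := by
  unfold Live at h ⊢
  rw [← st_congr h']
  exact h.imp_right (Or.imp (And.imp_right fun h => h.congr le_rfl h')
    (And.imp_right fun h => h.congr le_rfl h'))

theorem near (x : X) (n : ℕ) : ∀ᶠ y in 𝓝 x, ∀ i < n, y i = x i :=
  (isOpen_cyl x n).mem_nhds fun _ _ => rfl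

theorem isClosed_live (j : ℕ) : IsClosed {z : X × X | Live z.1 z.2 j} := by
  rw [← isOpen_compl_iff, isOpen_iff_mem_nhds]
  rintro ⟨a, b⟩ h
  filter_upwards [prod_mem_nhds
    (near a ((st b j).cur.1 + (st b j).tau.1 + (st b j).bak.1 + 1)) (near b j)] with z hz h1
  refine h ?_
  have h2 : ∀ i < (st b j).cur.1 + (st b j).tau.1 + (st b j).bak.1 + 1, z.1 i = a i := hz.1
  change Live a b j
  rcases Live.congr (b' := b) h1 hz.2 with h3 | h3 | h3
  · exact Or.inl fun i hi => (h2 i (by omega)).symm.trans (h3 i hi)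
  · exact Or.inr (Or.inl ⟨fun i hi => (h2 i (by omega)).symm.trans (h3.1 i hi),
      h2 (st b j).tau.1 (by omega) ▸ h3.2⟩)
  · exact Or.inr (Or.inr ⟨fun i hi => (h2 i (by omega)).symm.trans (h3.1 i hi),
      h2 (st b j).bak.1 (by omega) ▸ h3.2⟩)

def G : Set (X × X) := {z | z.2 0 ≠ 0 ∧ ∀ j, Live z.1 z.2 j}

theorem isClosed_ne : IsClosed {b : X | b 0 ≠ 0} :=
  (isClosed_discrete {v : ℕ | v ≠ 0}).preimage (continuous_apply (A := fun _ => ℕ) 0)

theorem isClosed_G : IsClosed G := by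
  refine (isClosed_ne.preimage continuous_snd).inter ?_
  change IsClosed {z : X × X | ∀ j, Live z.1 z.2 j}
  rw [ofPred_forall]
  exact isClosed_iInter isClosed_live

theorem G_zero {a b : X} (h : (a, b) ∈ G) : a 0 = 0 := by
  rcases h.2 0 with h | h | h
  exacts [h 0 one_pos, h.1 0 one_pos, h.1 0 one_pos]

theorem ev_const {α : Type} {u : ℕ → α} (h : ∀ᶠ j in atTop, u (j + 1) = u j) :
    ∃ c, ∀ᶠ j in atTop, u j = c := by
  obtain ⟨N, hN⟩ := eventually_atTop.1 h
  refine ⟨u N, (eventually_ge_atTop N).mono fun j hj => ?_⟩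
  induction j, hj using Nat.le_induction with
  | base => rfl
  | succ j hj ih => rw [hN j hj, ih]

theorem G_unique {a a' b : X} (h : (a, b) ∈ G) (h' : (a', b) ∈ G) : a = a' := by
  have key : ∀ P : ℕ → Prop, (∃ᶠ j in atTop, P j) →
      (∀ a, (∀ j, Live a b j) → ∀ᶠ j in atTop, P j → Pre (st b j).cur a) → a = a' := by
    intro P h1 h2
    funext n
    obtain ⟨j, h3, h4, h5, h6⟩ := (h1.and_eventually ((h2 a h.2).and ((h2 a' h'.2).and
      (eventually_gt_atTop n)))).exists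
    have h7 := h6.trans_le (le_cur b j)
    exact (h4 h3 n h7).trans (h5 h3 n h7).symm
  by_cases h1 : ∃ᶠ j in atTop, b j % 4 = 1
  · refine key _ h1 fun a ha => Eventually.of_forall fun j hj => ?_
    have h2 := ha (j + 1)
    rw [Live, st_S hj] at h2
    rcases h2 with h | h | h
    exacts [h.of_app.1, h.1.of_spawn, h.1]
  obtain ⟨τ, hτ⟩ := ev_const (u := fun j => (st b j).tau) ((not_frequently.1 h1).mono fun j hj => by
    rcases cases4 (b j) with h | h | h | h
    exacts [by simp only [st_E h], absurd h hj, by simp only [st_J h], by simp only [st_R h]])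
  by_cases h2 : ∃ᶠ j in atTop, b j % 4 = 2
  · refine key _ h2 fun a ha => ?_
    filter_upwards [hτ, not_rec (a τ.1) b] with j h3 h4 hj
    have h5 := ha (j + 1)
    rw [Live, st_J hj, h3] at h5
    rcases h5 with h | h | h
    · exact absurd ⟨j, b, le_rfl, fun _ _ => rfl, h.of_app.2⟩ h4
    · exact absurd (h.2.congr (by omega) fun _ _ => rfl) h4
    · exact h.1
  obtain ⟨β, hβ⟩ := ev_const (u := fun j => (st b j).bak)
    (((not_frequently.1 h1).and (not_frequently.1 h2)).mono fun j hj => by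
    rcases cases4 (b j) with h | h | h | h
    exacts [by simp only [st_E h], absurd h hj.1, absurd h hj.2, by simp only [st_R h]])
  refine key (fun _ => True) (Frequently.of_forall fun _ => trivial) fun a ha => ?_
  filter_upwards [hτ, hβ, not_rec (a τ.1) b, not_rec (a β.1) b] with j h3 h4 h5 h6 _
  have h7 := ha j
  rw [Live, h3, h4] at h7
  exact h7.resolve_right (not_or.2 ⟨fun h => h5 h.2, fun h => h6 h.2⟩)

theorem Live.key {a b : X} {j n : ℕ} (h : Live a b j) (hn : n < j)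
    (h' : ∀ i < n, ¬ Rec (a i) b j) :
    a n ≤ (st b j).cur.2 n + (st b j).tau.2 n + (st b j).bak.2 n ∨ Rec (a n) b j := by
  have h1 : ∀ p : Th, Pre p a ∧ Rec (a p.1) b j → a n = p.2 n ∨ Rec (a n) b j := by
    rintro p ⟨h1, h2⟩
    rcases lt_trichotomy n p.1 with h3 | rfl | h3
    exacts [Or.inl (h1 n h3), Or.inr h2, absurd h2 (h' _ h3)]
  rcases h with h | h | h
  · have := h n (hn.trans_le (le_cur b j))
    omega
  · exact (h1 _ h).imp_left (by omega)
  · exact (h1 _ h).imp_left (by omega)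

theorem isClosed_common :
    IsClosed {z : X × X | z.1 = z.2 ∨ ∃ a, (a, z.1) ∈ G ∧ (a, z.2) ∈ G} := by
  refine isClosed_of_closure_subset ?_
  rintro ⟨x, y⟩ hz
  refine or_iff_not_imp_left.2 fun hxy => ?_
  obtain ⟨i0, hi0⟩ := Function.ne_iff.1 hxy
  have h1 : ∀ j, ∃ a, x 0 ≠ 0 ∧ y 0 ≠ 0 ∧ Live a x j ∧ Live a y j := by
    intro j
    obtain ⟨⟨x', y'⟩, ⟨h1, h2⟩, h3 | ⟨a, h3, h4⟩⟩ := mem_closure_iff_nhds.1 hz _
      (prod_mem_nhds (near x (j + i0 + 1)) (near y (j + i0 + 1)))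
    · exact absurd ((h1 i0 (by omega)).symm.trans ((congrFun h3 i0).trans (h2 i0 (by omega)))) hi0
    · exact ⟨a, h1 0 (by omega) ▸ h3.1, h2 0 (by omega) ▸ h4.1,
        (h3.2 j).congr fun i hi => h1 i (by omega), (h4.2 j).congr fun i hi => h2 i (by omega)⟩
  choose u h2 h3 h4 h5 using h1
  have h6 : ∀ n, ∃ B, ∀ᶠ j in atTop, ∀ i < n, u j i ≤ B := by
    intro n
    induction n with
    | zero => exact ⟨0, Eventually.of_forall fun _ i hi => by omega⟩
    | succ n ih =>
      obtain ⟨B, hB⟩ := ih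
      obtain ⟨k, h6, h7, h8, h9⟩ := ((not_rec' id x (B + 1)).and ((not_rec' id y (B + 1)).and
        ((eventually_gt_atTop n).and (eventually_gt_atTop i0)))).exists
      refine ⟨B + ((st x k).cur.2 n + (st x k).tau.2 n + (st x k).bak.2 n) +
        ((st y k).cur.2 n + (st y k).tau.2 n + (st y k).bak.2 n), ?_⟩
      filter_upwards [hB, eventually_ge_atTop k] with j h10 h11 i hi
      rcases (Nat.lt_succ_iff.1 hi).eq_or_lt with rfl | hi
      · rcases ((h4 j).mono h11).key h8 fun i hi => h6 _ (Nat.lt_succ_of_le (h10 i hi))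
          with h12 | h12
        · omega
        rcases ((h5 j).mono h11).key h8 fun i hi => h7 _ (Nat.lt_succ_of_le (h10 i hi))
          with h13 | h13
        · omega
        exact absurd (h12.eq h13 i0 h9) hi0
      · have := h10 i hi
        omega
  have h7 : ∀ n, ∃ v, ∀ᶠ j in (hyperfilter ℕ : Filter ℕ), u j n = v := by
    intro n
    obtain ⟨B, hB⟩ := h6 (n + 1)
    obtain ⟨v, -, hv⟩ := (Ultrafilter.eventually_exists_mem_iff (f := hyperfilter ℕ)
      (P := fun v j => u j n = v) (finite_Iic B)).1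
      ((hB.filter_mono Nat.hyperfilter_le_atTop).mono fun j hj => ⟨_, hj n (by omega), rfl⟩)
    exact ⟨v, hv⟩
  choose a ha using h7
  have h8 : Tendsto u (hyperfilter ℕ) (𝓝 a) :=
    tendsto_pi_nhds.2 fun n => tendsto_const_nhds.congr' ((ha n).mono fun _ h => h.symm)
  have h9 : ∀ x, (∀ j, Live (u j) x j) → ∀ j, Live a x j := fun x hx j =>
    (isClosed_live j).mem_of_tendsto (h8.prodMk_nhds (tendsto_const_nhds (x := x)))
      (((eventually_ge_atTop j).filter_mono Nat.hyperfilter_le_atTop).mono fun k hk =>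
        (hx k).mono hk)
  exact ⟨a, ⟨h2 0, h9 x h4⟩, h3 0, h9 y h5⟩

theorem exists_g : ∃ g : X → X, Measurable g ∧ (∀ a, a 0 = 0 → g a = a) ∧
    (∀ z ∈ G, g z.2 = z.1) ∧ IsClosed {z : X × X | g z.1 = g z.2} := by
  have := isClosed_G.polishSpace
  have h1 : Function.Injective fun z : G => z.1.2 := fun z z' h =>
    Subtype.ext (Prod.ext (G_unique z.2 (show (z'.1.1, z.1.2) ∈ G from
      (show z.1.2 = z'.1.2 from h) ▸ z'.2)) h)
  have h2 : ∀ z ∈ G, Function.extend (fun z : G => z.1.2) (fun z => z.1.1) id z.2 = z.1 :=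
    fun z hz => h1.extend_apply _ _ ⟨z, hz⟩
  have h3 : ∀ x, (¬ ∃ a, (a, x) ∈ G) →
      Function.extend (fun z : G => z.1.2) (fun z => z.1.1) id x = x := fun x hx =>
    Function.extend_apply' _ _ _ fun ⟨z, hz⟩ => hx ⟨z.1.1, hz ▸ z.2⟩
  have h4 : ∀ a : X, a 0 = 0 → Function.extend (fun z : G => z.1.2) (fun z => z.1.1) id a = a :=
    fun a ha => h3 a fun ⟨_, h⟩ => h.1 ha
  refine ⟨_, (Continuous.measurableEmbedding (by fun_prop) h1).measurable_extend
    (by fun_prop) measurable_id, h4, h2, ?_⟩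
  convert (isClosed_G.union (isClosed_G.preimage continuous_swap)).union isClosed_common using 1
  ext ⟨x, y⟩
  simp only [mem_ofPred_eq, mem_union, mem_preimage, Prod.swap_prod_mk]
  constructor
  · intro h
    by_cases hx : ∃ a, (a, x) ∈ G <;> by_cases hy : ∃ a, (a, y) ∈ G
    · obtain ⟨a, ha⟩ := hx
      obtain ⟨a', ha'⟩ := hy
      rw [h2 _ ha, h2 _ ha'] at h
      exact Or.inr (Or.inr ⟨a, ha, (show a = a' from h) ▸ ha'⟩)
    · obtain ⟨a, ha⟩ := hx
      rw [h2 _ ha, h3 _ hy] at h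
      exact Or.inl (Or.inr ((show a = y from h) ▸ ha))
    · obtain ⟨a, ha⟩ := hy
      rw [h2 _ ha, h3 _ hx] at h
      exact Or.inl (Or.inl ((show x = a from h) ▸ ha))
    · rw [h3 _ hx, h3 _ hy] at h
      exact Or.inr (Or.inl h)
  · rintro ((h | h) | rfl | ⟨a, h, h'⟩)
    · rw [h2 _ h, h4 _ (G_zero h)]
    · rw [h2 _ h, h4 _ (G_zero h)]
    · rfl
    · rw [h2 _ h, h2 _ h']

/-- Keep `b` below `j`, play the move `m` at time `j`, then copy `a` on the current thread. -/
def follow (b : X) (j m : ℕ) (a : X) : X := fun i =>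
  if i < j then b i else if i = j then m
  else 4 * a ((st (Function.update b j m) (j + 1)).cur.1 + (i - (j + 1)))

theorem follow_lt {b a : X} {j m i : ℕ} (h : i < j) : follow b j m a i = b i := if_pos h

theorem follow_self {b a : X} {j m : ℕ} : follow b j m a j = m :=
  (if_neg (lt_irrefl _)).trans (if_pos rfl)

theorem follow_gt {b a : X} {j m i : ℕ} (h : j < i) : follow b j m a i =
    4 * a ((st (Function.update b j m) (j + 1)).cur.1 + (i - (j + 1))) :=
  (if_neg (by omega)).trans (if_neg (by omega))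

/-- The state reached by playing `m` at time `j`. -/
def nx (b : X) (j m : ℕ) : St := step (st b j) m (Encodable.encode (res b j)) j

theorem st_nx {b b' : X} {j : ℕ} (h : ∀ i < j, b' i = b i) : st b' (j + 1) = nx b j (b' j) := by
  rw [st, st_congr h, res_eq_iff.2 h, nx]

theorem st_follow {b a : X} {j m : ℕ} (h : Pre (nx b j m).cur a) (r : ℕ) :
    Pre (st (follow b j m a) (j + 1 + r)).cur a ∧
      (st (follow b j m a) (j + 1 + r)).cur.1 = (nx b j m).cur.1 + r ∧
      (st (follow b j m a) (j + 1 + r)).tau = (nx b j m).tau ∧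
      (st (follow b j m a) (j + 1 + r)).bak = (nx b j m).bak := by
  induction r with
  | zero =>
    rw [add_zero, st_nx fun i hi => follow_lt hi, follow_self]
    exact ⟨h, rfl, rfl, rfl⟩
  | succ r ih =>
    have h1 : follow b j m a (j + 1 + r) = 4 * a (st (follow b j m a) (j + 1 + r)).cur.1 := by
      rw [follow_gt (by omega), ih.2.1, st_nx (b := b) fun i hi => Function.update_of_ne hi.ne _ _,
        Function.update_self, Nat.add_sub_cancel_left]
    rw [← add_assoc, st_E (by omega), h1, Nat.mul_div_cancel_left _ (by norm_num)]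
    exact ⟨ih.1.app, by simp only [app]; omega, ih.2.2⟩

theorem follow_mem {b a : X} {j m : ℕ} (h : Pre (nx b j m).cur a) (h0 : follow b j m a 0 ≠ 0) :
    (a, follow b j m a) ∈ G :=
  ⟨h0, fun k => Live.mono (show k ≤ j + 1 + k by omega) (Or.inl (st_follow h k).1)⟩

theorem bct {Y : Set (X × X)} (hY : IsClosed Y) (hne : Y.Nonempty) {Φ : ℕ → Set (X × X)}
    (hΦ : ∀ m, IsClosed (Φ m)) (h : ∀ z ∈ Y, ∃ m, z ∈ Φ m) :
    ∃ m, ∃ z ∈ Y, ∃ k, ∀ w ∈ Y, (∀ i < k, w.1 i = z.1 i) → (∀ i < k, w.2 i = z.2 i) → w ∈ Φ m := by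
  have := hY.completeSpace_coe
  have := hne.to_subtype
  obtain ⟨m, z, hz⟩ := nonempty_interior_of_iUnion_of_closed
    (f := fun m => ((↑) : Y → X × X) ⁻¹' Φ m) (fun m => (hΦ m).preimage continuous_subtype_val)
    (eq_univ_of_forall fun z => mem_iUnion.2 (h z.1 z.2))
  rw [mem_interior_iff_mem_nhds, mem_nhds_subtype] at hz
  obtain ⟨U, h1, h2⟩ := hz
  obtain ⟨V, h3, W, h4, h5⟩ := mem_nhds_prod_iff.1 h1
  obtain ⟨k, h6⟩ := exists_cyl h3
  obtain ⟨l, h7⟩ := exists_cyl h4
  exact ⟨m, z.1, z.2, k + l, fun w hw h8 h9 => h2 (a := ⟨w, hw⟩)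
    (h5 ⟨h6 _ fun i hi => h8 i (by omega), h7 _ fun i hi => h9 i (by omega)⟩)⟩

theorem pibase {a b : X} (h : (a, b) ∈ G) (k : ℕ) : ∃ j b', k ≤ j ∧ (∀ i < k, b' i = b i) ∧
    (∀ i, b' i % 4 = 1 → b' i = b i) ∧ ∀ a', Pre (st b' j).cur a' → ∀ i < k, a' i = a i := by
  obtain ⟨j, h1, h2⟩ := ((not_rec' a b k).and (eventually_ge_atTop k)).exists
  have h3 : ∀ m, m % 4 ≠ 1 → ∀ p : Th, Pre p a ∧ Rec (a p.1) b j →
      (∀ a', Pre (nx b j m).cur a' → Pre p a') → ∃ j b', k ≤ j ∧ (∀ i < k, b' i = b i) ∧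
      (∀ i, b' i % 4 = 1 → b' i = b i) ∧ ∀ a', Pre (st b' j).cur a' → ∀ i < k, a' i = a i := by
    intro m hm p hp h3
    refine ⟨j + 1, Function.update b j m, by omega,
      fun i hi => Function.update_of_ne (by omega) _ _, fun i hi => ?_, fun a' ha' i hi => ?_⟩
    · refine Function.update_of_ne ?_ _ _
      rintro rfl
      rw [Function.update_self] at hi
      exact hm hi
    · rw [st_nx (b := b) fun i hi => Function.update_of_ne hi.ne _ _, Function.update_self] at ha'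
      have h4 : i < p.1 := hi.trans_le (not_lt.1 fun h4 => h1 _ h4 hp.2)
      exact (h3 a' ha' i h4).trans (hp.1 i h4).symm
  rcases h.2 j with h4 | h4 | h4
  · have h5 := le_cur b j
    exact ⟨j, b, h2, fun _ _ => rfl, fun _ _ => rfl, fun a' ha' i hi =>
      (ha' i (by omega)).trans (h4 i (by simp only at h5 ⊢; omega)).symm⟩
  · exact h3 2 (by norm_num) _ h4 fun a' ha' => ha'.of_app.1
  · exact h3 3 (by norm_num) _ h4 fun a' ha' => ha'.of_app.1

def mvS (d : ℕ) (w : List ℕ) : ℕ := 4 * Nat.pair d (Encodable.encode w) + 1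

theorem nx_S (b : X) (j d : ℕ) (w : List ℕ) :
    nx b j (mvS d w) = ⟨app (st b j).cur d 0, spawn (st b j).cur w, (st b j).cur⟩ := by
  have h1 : mvS d w / 4 = Nat.pair d (Encodable.encode w) := by unfold mvS; omega
  rw [nx, step, if_neg (by unfold mvS; omega), if_pos (by unfold mvS; omega), h1]
  simp

theorem tau_const {b : X} {j : ℕ} (h : ∀ i, 1 ≤ i → b i % 4 ≠ 1) (hj : 1 ≤ j) :
    (st b j).tau = (st b 1).tau := by
  induction j, hj using Nat.le_induction with
  | base => rfl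
  | succ j hj ih =>
    rcases cases4 (b j) with h1 | h1 | h1 | h1
    exacts [by rw [st_E h1, ih], absurd h1 (h j hj), by rw [st_J h1, ih], by rw [st_R h1, ih]]

theorem lim_eq {Z : Type} [TopologicalSpace Z] [T2Space Z] {φ : X → Z} (hφ : Continuous φ)
    {b : X} {c : Z}
    (h : ∀ r, ∃ b', (∀ i < r, b' i = b i) ∧ φ b' = c) : φ b = c := by
  have h1 : b ∈ closure {b | φ b = c} := mem_closure_iff_nhds.2 fun U hU => by
    obtain ⟨r, hr⟩ := exists_cyl hU
    obtain ⟨b', h1, h2⟩ := h r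
    exact ⟨b', hr _ h1, h2⟩
  exact (isClosed_eq hφ continuous_const).closure_subset h1

section
variable {f : X → ℕ → X} (hf : Continuous f) (H : ∀ z ∈ G, range (f z.1) = range (f z.2))
include hf H

theorem step1 (n : ℕ) (a0 : X) (h0 : a0 0 = 0) (K : ℕ) : ∃ a1 : X, (∀ i < K, a1 i = a0 i) ∧
    ∃ k, ∀ a, (∀ i < k, a i = a1 i) → f a n = f a1 n := by
  have hc : ∀ m, Continuous fun x => f x m := fun m => (continuous_apply m).comp hf
  have hcl : IsClosed {a : X | ∀ i < K, a i = a0 i} := by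
    simp only [ofPred_forall]
    exact isClosed_iInter fun i => isClosed_iInter fun _ =>
      isClosed_eq (continuous_apply i) continuous_const
  obtain ⟨m, z, hz, k, h1⟩ := bct (Y := G ∩ Prod.fst ⁻¹' {a | ∀ i < K, a i = a0 i})
    (isClosed_G.inter (hcl.preimage continuous_fst))
    ⟨(a0, follow 0 0 (mvS (a0 1) []) a0), follow_mem (by
      rw [nx_S]
      exact Pre.app (p := (1, 0)) fun i hi => by rw [Nat.lt_one_iff.1 hi]; exact h0)
      (by rw [follow_self]; unfold mvS; omega), fun _ _ => rfl⟩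
    (Φ := fun m => {z | f z.1 n = f z.2 m})
    (fun m => isClosed_eq ((hc n).comp continuous_fst) ((hc m).comp continuous_snd))
    fun z hz => (show f z.1 n ∈ range (f z.2) from H z hz.1 ▸ mem_range_self n).imp
      fun _ h => h.symm
  obtain ⟨j, b, h2, h3, -, h4⟩ := pibase (a := z.1) (b := z.2) hz.1 (k + K + 1)
  have h5 : ∀ a b', Pre (st b j).cur a → (∀ i < j, b' i = b i) → (a, b') ∈ G →
      f a n = f b' m := fun a b' h5 h6 h7 =>
    h1 (a, b') ⟨h7, fun i hi => (h4 a h5 i (by omega)).trans (hz.2 i hi)⟩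
      (fun i hi => h4 a h5 i (by omega))
      fun i hi => (h6 i (by omega)).trans (h3 i (by omega))
  have h6 : b 0 ≠ 0 := h3 0 (by omega) ▸ hz.1.1
  refine ⟨(st b j).cur.2, fun i hi => (h4 _ (fun _ _ => rfl) i (by omega)).trans (hz.2 i hi),
    (st b j).cur.1, fun a ha => funext fun t =>
      lim_eq ((continuous_apply t).comp (hc n)) fun L => ?_⟩
  have h7 : Pre (nx b j (mvS ((st b j).cur.2 (st b j).cur.1) ((List.range L).map a))).cur
      (st b j).cur.2 := by
    rw [nx_S]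
    exact Pre.app fun _ _ => rfl
  set b1 := follow b j (mvS ((st b j).cur.2 (st b j).cur.1) ((List.range L).map a)) (st b j).cur.2
  have h8 : b1 0 ≠ 0 := by rwa [show b1 0 = b 0 from follow_lt (by omega)]
  obtain ⟨r, hr⟩ := exists_cyl (ev_eq ((continuous_apply t).comp (hc m)) b1)
  have h9 : Pre (spawn (st b j).cur ((List.range L).map a)) (nx b1 (j + 1 + r) 2).cur.2 := by
    have h9 : Pre (nx b1 (j + 1 + r) 2).cur (nx b1 (j + 1 + r) 2).cur.2 := fun _ _ => rfl
    have h10 : (st b1 (j + 1 + r)).tau = spawn (st b j).cur ((List.range L).map a) :=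
      (st_follow h7 r).2.2.1.trans (by rw [nx_S])
    exact h10 ▸ h9.of_app.1
  refine ⟨_, Pre.agree ha h9, ?_⟩
  have h10 := h5 _ (follow b1 (j + 1 + r) 2 (nx b1 (j + 1 + r) 2).cur.2) h9.of_spawn
    (fun i hi => (follow_lt (by omega)).trans (follow_lt hi))
    (follow_mem (fun _ _ => rfl) (by rwa [follow_lt (by omega)]))
  have h11 := h5 _ b1 (fun _ _ => rfl) (fun i hi => follow_lt hi) (follow_mem h7 h8)
  simp only [Function.comp, h10, h11]
  exact hr _ fun i hi => follow_lt (by omega)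

theorem step2 {n K : ℕ} {a0 c : X} (h0 : a0 0 = 0) (hK : ∀ a, (∀ i < K, a i = a0 i) → f a n = c)
    (a1 : X) (h1 : a1 0 = 0) (L : ℕ) : ∃ a2 : X, (∀ i < L, a2 i = a1 i) ∧
      ∃ m k, ∀ a, (∀ i < k, a i = a2 i) → f a m = c := by
  have hc : ∀ m, Continuous fun x => f x m := fun m => (continuous_apply m).comp hf
  have hcl : ∀ (K : ℕ) (a0 : X), IsClosed {a : X | ∀ i < K, a i = a0 i} := fun K a0 => by
    simp only [ofPred_forall]
    exact isClosed_iInter fun i => isClosed_iInter fun _ =>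
      isClosed_eq (continuous_apply i) continuous_const
  set m0 := mvS (a0 1) ((List.range L).map a1) with hm0
  have hcl2 : IsClosed {b : X | b 0 = m0 ∧ ∀ i, 1 ≤ i → b i % 4 ≠ 1} := by
    refine (isClosed_eq (continuous_apply 0) continuous_const).inter ?_
    change IsClosed {b : X | ∀ i, 1 ≤ i → b i % 4 ≠ 1}
    simp only [ofPred_forall]
    exact isClosed_iInter fun i => isClosed_iInter fun _ =>
      (isClosed_discrete {v : ℕ | v % 4 ≠ 1}).preimage (continuous_apply (A := fun _ => ℕ) i)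
  have hP : ∀ a : X, a 0 = 0 → Pre (1, 0) a := fun a ha i hi => by
    rw [Nat.lt_one_iff.1 hi]; exact ha
  have hfol : ∀ (b a : X) (j m : ℕ), 1 ≤ j → m % 4 ≠ 1 → (b 0 = m0 ∧ ∀ i, 1 ≤ i → b i % 4 ≠ 1) →
      follow b j m a 0 = m0 ∧ ∀ i, 1 ≤ i → follow b j m a i % 4 ≠ 1 := by
    intro b a j m h2 h3 h4
    refine ⟨(follow_lt h2).trans h4.1, fun i hi => ?_⟩
    rcases lt_trichotomy i j with h5 | rfl | h5
    · rw [follow_lt h5]; exact h4.2 i hi
    · rwa [follow_self]
    · rw [follow_gt h5]; omega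
  have hm : m0 ≠ 0 := by rw [hm0]; unfold mvS; omega
  obtain ⟨m, z, hz, k, h2⟩ := bct (Y := G ∩ {a | ∀ i < K, a i = a0 i} ×ˢ
      {b : X | b 0 = m0 ∧ ∀ i, 1 ≤ i → b i % 4 ≠ 1})
    (isClosed_G.inter ((hcl K a0).prod hcl2))
    ⟨(a0, follow 0 0 m0 a0), follow_mem (by rw [nx_S]; exact (hP a0 h0).app)
      (by rwa [follow_self]), fun _ _ => rfl,
      follow_self (b := 0) (a := a0) (j := 0) (m := m0), fun i hi => by
        simp only [follow_gt hi]; omega⟩
    (Φ := fun m => {z | f z.2 m = c})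
    (fun m => isClosed_eq ((hc m).comp continuous_snd) continuous_const)
    fun z hz => show c ∈ range (f z.2) from H z hz.1 ▸ ⟨n, hK _ hz.2.1⟩
  obtain ⟨j, b, h3, h4, h5, h6⟩ := pibase (a := z.1) (b := z.2) hz.1 (k + K + 1)
  have h7 : b 0 = m0 ∧ ∀ i, 1 ≤ i → b i % 4 ≠ 1 :=
    ⟨(h4 0 (by omega)).trans hz.2.2.1, fun i hi h => hz.2.2.2 i hi (h5 i h ▸ h)⟩
  have h8 : (st b j).tau = spawn (1, 0) ((List.range L).map a1) := by
    rw [tau_const h7.2 (by omega), st_nx (b := b) fun _ _ => rfl, h7.1, nx_S]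
    rfl
  have h9 : ∀ a, Pre (nx b j 2).cur a → c ∈ range (f a) := by
    intro a ha
    have h9 := hfol b a j 2 (by omega) (by norm_num) h7
    rw [H (a, _) (follow_mem ha (h9.1 ▸ hm))]
    refine ⟨m, lim_eq (hc m) fun r => ?_⟩
    set b1 := follow b j 2 a
    have h10 : Pre (st b j).cur (nx b1 (j + 1 + r) 3).cur.2 := by
      have h10 : Pre (nx b1 (j + 1 + r) 3).cur (nx b1 (j + 1 + r) 3).cur.2 := fun _ _ => rfl
      have h11 : (st b1 (j + 1 + r)).bak = (st b j).cur := (st_follow ha r).2.2.2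
      exact h11 ▸ h10.of_app.1
    have h11 := hfol b1 (nx b1 (j + 1 + r) 3).cur.2 (j + 1 + r) 3 (by omega) (by norm_num) h9
    refine ⟨_, fun i hi => follow_lt (by omega), h2 (_, _) ⟨follow_mem (fun _ _ => rfl)
      (h11.1 ▸ hm), fun i hi => (h6 _ h10 i (by omega)).trans (hz.2.1 i hi), h11⟩
      (fun i hi => h6 _ h10 i (by omega)) fun i hi => ?_⟩
    exact (follow_lt (by omega)).trans ((follow_lt (by omega)).trans (h4 i (by omega)))
  obtain ⟨m', z', hz', k', h10⟩ := bct (Y := {a | Pre (nx b j 2).cur a} ×ˢ {0})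
    ((hcl _ _).prod isClosed_singleton) ⟨(_, 0), fun _ _ => rfl, rfl⟩
    (Φ := fun m => {z | f z.1 m = c})
    (fun m => isClosed_eq ((hc m).comp continuous_fst) continuous_const) fun z hz => h9 _ hz.1
  refine ⟨z'.1, (hP a1 h1).agree (h8 ▸ (Pre.of_app hz'.1).1), m', k' + (nx b j 2).cur.1,
    fun a ha => h10 (a, 0) ⟨fun i hi => (ha i (by omega)).trans (hz'.1 i hi), rfl⟩
      (fun i hi => ha i (by omega)) fun i _ => (congrFun hz'.2 i).symm⟩

theorem collapse : ∃ a a' : X, a 0 = 0 ∧ a' 0 = 0 ∧ a ≠ a' ∧ range (f a) = range (f a') := by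
  have hop : ∀ P : X → X → Prop, (∀ a a' a'', P a a' → P a a'' → P a' a'') →
      IsOpen {a : X | a 0 ≠ 0 ∨ ∃ k, ∀ a', (∀ i < k, a' i = a i) → P a a'} := by
    intro P hP
    rw [isOpen_iff_mem_nhds]
    rintro a (h | ⟨k, h⟩)
    · filter_upwards [near a 1] with a' h'
      exact Or.inl (h' 0 one_pos ▸ h)
    · filter_upwards [near a k] with a' h'
      exact Or.inr ⟨k, fun a'' h'' => hP a _ _ (h a' h')
        (h a'' fun i hi => (h'' i hi).trans (h' i hi))⟩
  let D : ℕ → Set X := fun n => {a | a 0 ≠ 0 ∨ ∃ k, ∀ a', (∀ i < k, a' i = a i) → f a' n = f a n}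
  let O : ℕ × List ℕ → Set X := fun p => {a | (p.2.getD 0 0 = 0 ∧ ∀ a' : X,
    (∀ i < p.2.length, a' i = p.2.getD i 0) → f a' p.1 = f (fun i => p.2.getD i 0) p.1) →
    ∃ m, a 0 ≠ 0 ∨ ∃ k, ∀ a', (∀ i < k, a' i = a i) → f a' m = f (fun i => p.2.getD i 0) p.1}
  have h1 : Dense ((⋂ n, D n) ∩ ⋂ p, O p) := by
    rw [show (⋂ n, D n) ∩ ⋂ p, O p = _ from (iInter_sum (s := Sum.elim D O)).symm]
    refine dense_iInter_of_isOpen ?_ ?_
    · rintro (n | p)
      · exact hop (fun a a' => f a' n = f a n) fun _ _ _ h h' => h'.trans h.symm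
      · simp only [Sum.elim_inr, O, ofPred_forall, ofPred_exists]
        exact isOpen_iInter_of_finite fun _ => isOpen_iUnion fun m =>
          hop (fun _ a' => f a' m = _) fun _ _ _ _ h => h
    · rintro (n | p) <;> refine dense_of_cyl fun a K => ?_ <;> by_cases h : a 0 = 0
      · obtain ⟨a1, h1, h2⟩ := step1 hf H n a h K
        exact ⟨a1, Or.inr h2, h1⟩
      · exact ⟨a, Or.inl h, fun _ _ => rfl⟩
      · by_cases hp : p.2.getD 0 0 = 0 ∧ ∀ a' : X, (∀ i < p.2.length, a' i = p.2.getD i 0) →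
            f a' p.1 = f (fun i => p.2.getD i 0) p.1
        · obtain ⟨a2, h1, m, h2⟩ := step2 hf H (a0 := fun i => p.2.getD i 0) hp.1 hp.2 a h K
          exact ⟨a2, fun _ => ⟨m, Or.inr h2⟩, h1⟩
        · exact ⟨a, fun h => absurd h hp, fun _ _ => rfl⟩
      · exact ⟨a, fun _ => ⟨0, Or.inl h⟩, fun _ _ => rfl⟩
  have h2 : ∀ a ∈ (⋂ n, D n) ∩ ⋂ p, O p, ∀ a' ∈ (⋂ n, D n) ∩ ⋂ p, O p, a 0 = 0 → a' 0 = 0 →
      range (f a) ⊆ range (f a') := by
    rintro a ha a' ha' h h' _ ⟨n, rfl⟩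
    obtain ⟨k, hk⟩ := (mem_iInter.1 ha.1 n).resolve_left (not_not.2 h)
    have h2 : ∀ i < k + 1, ((List.range (k + 1)).map a).getD i 0 = a i := fun i hi => by simp [hi]
    have h3 := hk (fun i => ((List.range (k + 1)).map a).getD i 0) fun i hi => h2 i (by omega)
    obtain ⟨m, hm⟩ := mem_iInter.1 ha'.2 (n, (List.range (k + 1)).map a)
      ⟨(h2 0 (by omega)).trans h, fun a'' h4 => (hk a'' fun i hi =>
        (h4 i (by simp; omega)).trans (h2 i (by omega))).trans h3.symm⟩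
    obtain ⟨k', hk'⟩ := hm.resolve_left (not_not.2 h')
    exact ⟨m, (hk' a' fun _ _ => rfl).trans h3⟩
  obtain ⟨a, h3, h4⟩ := h1.exists_mem_open (isOpen_cyl (fun i => 0) 2) ⟨_, fun _ _ => rfl⟩
  obtain ⟨a', h5, h6⟩ := h1.exists_mem_open (isOpen_cyl (fun i => i) 2) ⟨_, fun _ _ => rfl⟩
  refine ⟨a, a', h4 0 two_pos, h6 0 two_pos, fun h => ?_,
    (h2 a h3 a' h5 (h4 0 two_pos) (h6 0 two_pos)).antisymm
      (h2 a' h5 a h3 (h6 0 two_pos) (h4 0 two_pos))⟩
  have h7 := (h4 1 one_lt_two).symm.trans ((congrFun h 1).trans (h6 1 one_lt_two))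
  simp at h7

end

end Pool.Agent.H39.Thread
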