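import Mathlib

set_option autoImplicit false

namespace H39.Tidy

variable {L X : Type} [Group L] [MulAction L X]

def St (g : L) (x0 : X) (a b : ℤ) : Subgroup L where
  carrier := {σ | ∀ i, a ≤ i → i ≤ b → σ • g ^ i • x0 = g ^ i • x0}
  one_mem' := fun _ _ _ => one_smul _ _
  mul_mem' := fun {σ τ} h h' i h1 h2 => by rw [mul_smul, h' i h1 h2, h i h1 h2]
  inv_mem' := fun {σ} h i h1 h2 => by rw [inv_smul_eq_iff, h i h1 h2]

variable {g : L} {x0 : X}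

theorem St_mono {a b a' b' : ℤ} {σ : L} (h : σ ∈ St g x0 a b) (h1 : a ≤ a') (h2 : b' ≤ b) :
    σ ∈ St g x0 a' b' := fun i i1 i2 => h i (by omega) (by omega)

theorem St_conj {a b : ℤ} {σ : L} (h : σ ∈ St g x0 a b) (k : ℤ) :
    g ^ k * σ * g ^ (-k) ∈ St g x0 (a + k) (b + k) := by
  intro i i1 i2
  have := h (i - k) (by omega) (by omega)
  rw [mul_smul, mul_smul, ← mul_smul (g ^ (-k)), ← zpow_add, show -k + i = i - k by ring, this,
    ← mul_smul, ← zpow_add, show k + (i - k) = i by ring]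

theorem tidy (hf : ∀ a b : X, {y | ∃ σ : L, σ • a = a ∧ σ • b = y}.Finite) (g : L) (x0 : X) :
    ∃ n : ℕ, ∀ (a b : ℕ), ∀ u ∈ St g x0 0 n, ∃ u1 ∈ St g x0 0 n, ∃ u2 ∈ St g x0 0 n,
      g ^ a * u * g ^ b = u1 * g ^ (a + b) * u2 := by
  let O : ℕ → Set X := fun j => {y | ∃ σ ∈ St g x0 0 j, σ • g ^ (-1 : ℤ) • x0 = y}
  have Of : ∀ j, (O j).Finite := fun j => (hf (g ^ (0 : ℤ) • x0) (g ^ (-1 : ℤ) • x0)).subset (by
    rintro y ⟨σ, h1, h2⟩; exact ⟨σ, h1 0 le_rfl (by omega), h2⟩)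
  have Oa : ∀ i j, i ≤ j → O j ⊆ O i := by
    rintro i j h y ⟨σ, h1, h2⟩; exact ⟨σ, St_mono h1 le_rfl (by omega), h2⟩
  obtain ⟨n, hn⟩ := exists_minimalFor_of_wellFoundedLT (fun _ : ℕ => True)
    (fun j => (O j).ncard) ⟨0, trivial⟩
  have Oe : ∀ j, n ≤ j → O j = O n := fun j h =>
    Set.eq_of_subset_of_ncard_le (Oa n j h)
      (hn.2 trivial (Set.ncard_le_ncard (Oa n j h) (Of n))) (Of n)
  have step : ∀ (a : ℤ) (j m : ℕ), n ≤ j → j ≤ m → ∀ σ ∈ St g x0 a (a + j),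
      ∃ p ∈ St g x0 a (a + m), ∃ q ∈ St g x0 (a - 1) (a + j), σ = p * q := by
    intro a j m h1 h2 σ hσ
    have hτ : g ^ (-a) * σ * g ^ (- -a) ∈ St g x0 0 j := St_mono (St_conj hσ (-a)) (by omega) (by omega)
    have : (g ^ (-a) * σ * g ^ (- -a)) • g ^ (-1 : ℤ) • x0 ∈ O m := by
      rw [Oe m (by omega), ← Oe j h1]; exact ⟨_, hτ, rfl⟩
    obtain ⟨p, p1, p2⟩ := this
    have hq : p⁻¹ * (g ^ (-a) * σ * g ^ (- -a)) ∈ St g x0 (-1) j := by
      intro i i1 i2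
      by_cases hi : i = -1
      · subst hi; rw [mul_smul, inv_smul_eq_iff, p2]
      · exact (St g x0 0 j).mul_mem ((St g x0 0 j).inv_mem (St_mono p1 le_rfl (by omega))) hτ i
          (by omega) i2
    refine ⟨_, St_mono (St_conj p1 a) (by omega) (by omega), _,
      St_mono (St_conj hq a) (by omega) (by omega), ?_⟩
    simp only [zpow_neg, neg_neg]; group
  have iter : ∀ (r m : ℕ), n ≤ m → ∀ σ ∈ St g x0 0 n,
      ∃ p ∈ St g x0 0 m, ∃ q ∈ St g x0 (-r) n, σ = p * q := by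
    intro r m hm σ hσ
    induction r with
    | zero => exact ⟨1, one_mem _, σ, by simpa using hσ, by simp⟩
    | succ r ih =>
      obtain ⟨p, p1, q, q1, rfl⟩ := ih
      obtain ⟨p', p2, q', q2, rfl⟩ := step (-r) (n + r) (m + r) (by omega) (by omega) q
        (St_mono q1 le_rfl (by push_cast; omega))
      exact ⟨p * p', mul_mem p1 (St_mono p2 (by omega) (by push_cast; omega)), q',
        St_mono q2 (by push_cast; omega) (by push_cast; omega), by group⟩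
  refine ⟨n, fun a b u hu => ?_⟩
  obtain ⟨p, p1, q, q1, e⟩ := iter a (n + b) (by omega) u⁻¹ (inv_mem hu)
  refine ⟨_, St_mono (St_conj (inv_mem q1) a) (by omega) (by omega), _,
    St_mono (St_conj (inv_mem p1) (-b)) (by omega) (by push_cast; omega), ?_⟩
  have : u = q⁻¹ * p⁻¹ := by rw [← mul_inv_rev, ← e, inv_inv]
  rw [this]
  simp only [zpow_neg, neg_neg, zpow_natCast, pow_add]; group

theorem fix_of_torsion {n : ℕ} (ht : ∀ (a b : ℕ), ∀ u ∈ St g x0 0 n, ∃ u1 ∈ St g x0 0 n,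
      ∃ u2 ∈ St g x0 0 n, g ^ a * u * g ^ b = u1 * g ^ (a + b) * u2) {k N : ℕ} {u : L}
    (hu : u ∈ St g x0 0 n) (h : (g ^ k * u) ^ N = 1) : g ^ (k * N) • x0 = x0 := by
  have key : ∀ M : ℕ, ∃ u1 ∈ St g x0 0 n, ∃ u2 ∈ St g x0 0 n,
      (g ^ k * u) ^ M = u1 * g ^ (k * M) * u2 := by
    intro M
    induction M with
    | zero => exact ⟨1, one_mem _, 1, one_mem _, by simp⟩
    | succ M ih =>
      obtain ⟨u1, h1, u2, h2, e⟩ := ih
      obtain ⟨v1, k1, v2, k2, e'⟩ := ht (k * M) k u2 h2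
      refine ⟨u1 * v1, mul_mem h1 k1, v2 * u, mul_mem k2 hu, ?_⟩
      rw [pow_succ, e, Nat.mul_succ]
      calc u1 * g ^ (k * M) * u2 * (g ^ k * u) = u1 * (g ^ (k * M) * u2 * g ^ k) * u := by group
        _ = _ := by rw [e']; group
  obtain ⟨u1, h1, u2, h2, e⟩ := key N
  have : g ^ (k * N) = u1⁻¹ * u2⁻¹ := by
    rw [h] at e
    calc g ^ (k * N) = u1⁻¹ * (u1 * g ^ (k * N) * u2) * u2⁻¹ := by group
      _ = _ := by rw [← e]; group
  have h3 := (mul_mem (inv_mem h1) (inv_mem h2)) 0 le_rfl (by omega)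
  rw [this]; simpa using h3

end H39.Tidy
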