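import Mathlib
import Pool.Agent.H39.NonBorel

set_option autoImplicit false

namespace Pool.Agent.H39.UltraRamsey

open Set Filter Topology MeasureTheory Pool.Agent.H39.NonBorel

def nth : List ℕ → ℕ → ℕ
  | [], _ => 0
  | a :: l, i => if i = l.length then a else nth l i

theorem nth_res (y : ℕ → ℕ) {n i : ℕ} (h : i < n) : nth (res y n) i = y i := by
  induction n with
  | zero => omega
  | succ n ih =>
    simp only [res_succ, nth, length_res]
    split_ifs with h1
    · rw [h1]
    · exact ih (by omega)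

theorem trunc_res (y : ℕ → ℕ) {n k : ℕ} (h : k ≤ n) : res (nth (res y n)) k = res y k :=
  res_eq_iff.2 fun _ hi => nth_res y (hi.trans_le h)

theorem exists_branch' {Q : List ℕ → ℕ → Prop} (h : ∀ s, ∃ m, Q s m) :
    ∃ y : ℕ → ℕ, ∀ n, Q (res y n) (y n) := by
  choose nx hnx using h
  let t : ℕ → List ℕ := fun n => Nat.rec [] (fun _ s => nx s :: s) n
  have h1 : ∀ n, res (fun n => nx (t n)) n = t n := by
    intro n
    induction n with
    | zero => rfl
    | succ n ih => rw [res_succ, ih]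
  exact ⟨fun n => nx (t n), fun n => by rw [h1]; exact hnx _⟩

def Forces (U : Ultrafilter ℕ) (s : List ℕ) (Q : (ℕ → ℕ) → Prop) : Prop :=
  ∃ S : List ℕ → Set ℕ, (∀ l, S l ∈ U) ∧
    ∀ y : ℕ → ℕ, res y s.length = s → (∀ n, s.length ≤ n → y n ∈ S (res y n)) → Q y

theorem Forces.mono {U : Ultrafilter ℕ} {s : List ℕ} {Q Q' : (ℕ → ℕ) → Prop} (h : Forces U s Q)
    (h' : ∀ y, Q y → Q' y) : Forces U s Q' := by
  obtain ⟨S, h1, h2⟩ := h
  exact ⟨S, h1, fun y h3 h4 => h' y (h2 y h3 h4)⟩

theorem Forces.glue {U : Ultrafilter ℕ} {s : List ℕ} {Q : (ℕ → ℕ) → Prop}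
    (h : {a | Forces U (a :: s) Q} ∈ U) : Forces U s Q := by
  classical
  have h1 : ∀ a, ∃ S : List ℕ → Set ℕ, (∀ l, S l ∈ U) ∧ (Forces U (a :: s) Q →
      ∀ y : ℕ → ℕ, res y (s.length + 1) = a :: s →
        (∀ n, s.length + 1 ≤ n → y n ∈ S (res y n)) → Q y) := by
    intro a
    by_cases h2 : Forces U (a :: s) Q
    · obtain ⟨S, h3, h4⟩ := h2
      exact ⟨S, h3, fun _ => h4⟩
    · exact ⟨fun _ => univ, fun _ => univ_mem, fun h => absurd h h2⟩
  choose S h2 h3 using h1
  refine ⟨fun l => if l.length = s.length then {a | Forces U (a :: s) Q}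
    else S (nth l s.length) l, fun l => ?_, fun y h4 h5 => ?_⟩
  · dsimp only
    split_ifs
    · exact h
    · exact h2 _ _
  · have h6 := h5 s.length le_rfl
    simp only [length_res, if_true] at h6
    refine h3 (y s.length) h6 y (by rw [res_succ, h4]) fun n hn => ?_
    have h7 := h5 n (by omega)
    simp only [length_res] at h7
    rwa [if_neg (by omega), nth_res y (by omega)] at h7

theorem Forces.not_glue {U : Ultrafilter ℕ} {s : List ℕ} {Q : (ℕ → ℕ) → Prop}
    (h : ¬ Forces U s Q) : {a | ¬ Forces U (a :: s) Q} ∈ U :=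
  Ultrafilter.compl_mem_iff_notMem.2 fun h' => h (Forces.glue h')

section
variable (U : Ultrafilter ℕ) (f : (ℕ → ℕ) → (ℕ → ℕ))

def Acc' (s t : List ℕ) : Prop := Forces U s fun y => ∀ z, res z t.length = t → f z ≠ y

def Hit (t : List ℕ) (k : ℕ) (y : ℕ → ℕ) : Prop :=
  ∃ n, k ≤ n ∧ ∃ m, ¬ Acc' U f (res y n) (m :: t)

theorem acc_of_not_hit (s t : List ℕ) (h : ¬ Forces U s (Hit U f t s.length)) : Acc' U f s t := by
  classical
  let bad : List ℕ → Prop := fun l => ¬ Forces U l (Hit U f t l.length)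
  have h1 : ∀ l, bad l → ∀ m, Acc' U f l (m :: t) := by
    intro l hl m
    by_contra h2
    exact hl ⟨fun _ => univ, fun _ => univ_mem, fun y hy _ => ⟨_, le_rfl, m, by rwa [hy]⟩⟩
  have h2 : ∀ l, {a | bad l → bad (a :: l)} ∈ U := by
    intro l
    by_cases h3 : bad l
    · filter_upwards [Forces.not_glue h3] with a ha _ h4
      exact ha (h4.mono fun y ⟨n, hn, h5⟩ => ⟨n, (Nat.le_succ _).trans hn, h5⟩)
    · exact univ_mem' fun a h => absurd h h3
  have h3 : ∀ l m, ∃ S : List ℕ → Set ℕ, (∀ l, S l ∈ U) ∧ (bad l →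
      ∀ y : ℕ → ℕ, res y l.length = l → (∀ n, l.length ≤ n → y n ∈ S (res y n)) →
        ∀ z, res z (t.length + 1) = m :: t → f z ≠ y) := by
    intro l m
    by_cases h4 : bad l
    · obtain ⟨S, h5, h6⟩ := h1 l h4 m
      exact ⟨S, h5, fun _ => h6⟩
    · exact ⟨fun _ => univ, fun _ => univ_mem, fun h => absurd h h4⟩
  choose T hT hT' using h3
  refine ⟨fun l => {a | bad l → bad (a :: l)} ∩
    ⋂ m ∈ Finset.range (l.length + 1), T (res (nth l) (s.length + m)) m l, fun l => ?_,
    fun y h4 h5 z hz => ?_⟩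
  · exact inter_mem (h2 l) ((biInter_finset_mem _).2 fun m _ => hT _ _ _)
  · have h6 : ∀ n, s.length ≤ n → bad (res y n) := by
      intro n hn
      induction n, hn using Nat.le_induction with
      | base => rw [h4]; exact h
      | succ n hn ih => exact (h5 n hn).1 ih
    refine hT' (res y (s.length + z t.length)) (z t.length) (h6 _ (by omega)) y (by simp)
      (fun n hn => ?_) z (by rw [res_succ, hz])
    rw [length_res] at hn
    have h7 := mem_iInter₂.1 (h5 n (by omega)).2 (z t.length) (by simp; omega)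
    rwa [trunc_res y hn] at h7

theorem hit_of_not_acc (s t : List ℕ) (h : ¬ Acc' U f s t) :
    Forces U s (Hit U f t (s.length + 1)) := by
  refine Forces.glue ?_
  filter_upwards [Forces.not_glue h] with a ha
  by_contra h1
  exact ha (acc_of_not_hit U f (a :: s) t h1)

open Classical in
noncomputable def st : List ℕ → ℕ × List ℕ
  | [] => (0, [])
  | a :: l => if h : ∃ m, ¬ Acc' U f (a :: l) (m :: (st l).2) then
      (l.length + 1, h.choose :: (st l).2) else st l

theorem forces_range (hf : Continuous f) (h : ¬ Acc' U f [] []) :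
    Forces U [] fun y => y ∈ range f := by
  classical
  have h1 : ∀ s t, ∃ S : List ℕ → Set ℕ, (∀ l, S l ∈ U) ∧ (¬ Acc' U f s t →
      ∀ y : ℕ → ℕ, res y s.length = s → (∀ n, s.length ≤ n → y n ∈ S (res y n)) →
        Hit U f t (s.length + 1) y) := by
    intro s t
    by_cases h4 : Acc' U f s t
    · exact ⟨fun _ => univ, fun _ => univ_mem, fun h => absurd h4 h⟩
    · obtain ⟨S, h5, h6⟩ := hit_of_not_acc U f s t h4
      exact ⟨S, h5, fun _ => h6⟩
  choose R hR hR' using h1
  refine ⟨fun l => R (res (nth l) (st U f l).1) (st U f l).2 l, fun l => hR _ _ _,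
    fun y _ hy => ?_⟩
  obtain ⟨z, hz⟩ := exists_branch
    (P := fun t => ∃ n, t.length ≤ n ∧ st U f (res y n) = (n, t) ∧ ¬ Acc' U f (res y n) t)
    ⟨0, le_rfl, rfl, h⟩ (by
      rintro t ⟨n, h1, h2, h3⟩
      have h4 : ∀ j, n ≤ j → (∀ i, n < i → i ≤ j → ¬ ∃ m, ¬ Acc' U f (res y i) (m :: t)) →
          st U f (res y j) = (n, t) := by
        intro j hj
        induction j, hj using Nat.le_induction with
        | base => exact fun _ => h2
        | succ j hj ih =>
          intro h5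
          have h6 := ih fun i hi hi' => h5 i hi (by omega)
          rw [res_succ, st, dif_neg, h6]
          rw [h6]
          exact h5 (j + 1) (by omega) le_rfl
      have h5 : ∃ i, n < i ∧ ∃ m, ¬ Acc' U f (res y i) (m :: t) := by
        by_contra h6
        have h7 := hR' (res y n) t h3 y (by simp) fun j hj => by
          rw [length_res] at hj
          have h8 := hy j (Nat.zero_le _)
          simp only [h4 j hj fun i hi _ h9 => h6 ⟨i, hi, h9⟩] at h8
          rwa [trunc_res y hj] at h8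
        obtain ⟨i, hi, h8⟩ := h7
        rw [length_res] at hi
        exact h6 ⟨i, hi, h8⟩
      obtain ⟨j, hj⟩ : ∃ j, Nat.find h5 = j + 1 :=
        ⟨Nat.find h5 - 1, by have := (Nat.find_spec h5).1; omega⟩
      have h6 := Nat.find_spec h5
      rw [hj] at h6
      have h7 := h4 j (by omega) fun i hi hi' h8 => Nat.find_min h5 (by omega) ⟨hi, h8⟩
      have h8 : ∃ m, ¬ Acc' U f (y j :: res y j) (m :: (st U f (res y j)).2) := by
        rw [h7]; exact h6.2
      refine ⟨h8.choose, j + 1, by simp; omega, ?_, ?_⟩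
      · rw [res_succ, st, dif_pos h8]
        simp [h7]
      · have := h8.choose_spec
        simp only [h7] at this ⊢
        exact this)
  have h2 : ∀ i, ∃ w, res w i = res z i ∧ res (f w) i = res y i := by
    intro i
    obtain ⟨n, h3, -, h4⟩ := hz i
    by_contra h5
    refine h4 ⟨fun _ => univ, fun _ => univ_mem, fun y' h6 _ w hw h7 => h5 ⟨w, ?_, ?_⟩⟩
    · simpa using hw
    · rw [length_res] at h3 h6
      rw [h7]
      exact res_eq_iff.2 fun k hk => res_eq_iff.1 h6 k (by omega)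
  choose w hw hw' using h2
  exact ⟨z, tendsto_nhds_unique ((hf.tendsto z).comp (tendsto_of_res hw))
    (tendsto_of_res (y := fun i => f (w i)) hw')⟩

end

theorem ultraRamsey (U : Ultrafilter ℕ) {P : Set (ℕ → ℕ)} (hP : AnalyticSet P) :
    ∃ S : List ℕ → Set ℕ, (∀ l, S l ∈ U) ∧
      ((∀ y : ℕ → ℕ, (∀ n, y n ∈ S (res y n)) → y ∈ P) ∨
        (∀ y : ℕ → ℕ, (∀ n, y n ∈ S (res y n)) → y ∉ P)) := by
  rw [AnalyticSet] at hP
  rcases hP with rfl | ⟨f, hf, rfl⟩
  · exact ⟨fun _ => univ, fun _ => univ_mem, Or.inr fun _ _ h => h⟩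
  by_cases h : Acc' U f [] []
  · obtain ⟨S, h1, h2⟩ := h
    exact ⟨S, h1, Or.inr fun y hy ⟨z, hz⟩ => h2 y rfl (fun n _ => hy n) z rfl hz⟩
  · obtain ⟨S, h1, h2⟩ := forces_range U f hf h
    exact ⟨S, h1, Or.inl fun y hy => h2 y rfl fun n _ => hy n⟩

end Pool.Agent.H39.UltraRamsey
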