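import Pool.Agent.H39.CL

/-! Clean ultrafilters on a binary tree. -/

set_option autoImplicit false

namespace Pool.Agent.H39.WD
open Cardinal Set Filter Topology

theorem mk_free : 2 ^ 𝔠 ≤ #{V : Ultrafilter ℕ | (V : Filter ℕ) ≤ atTop} := by
  obtain ⟨d, hd⟩ := CL.exists_d
  have h1 : ∀ x : ℝ → Bool, (atTop ⊓ comap d (𝓝 x)).NeBot := fun x => by
    rw [inf_neBot_iff]
    intro s hs t ht
    obtain ⟨m, hm⟩ := mem_atTop_sets.1 hs
    obtain ⟨O, hO, h⟩ := mem_comap.1 ht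
    rw [nhds_pi, Filter.mem_pi'] at hO
    obtain ⟨a, u, h1, h2⟩ := hO
    obtain ⟨n, h3, h4⟩ := hd x a m
    exact ⟨n, hm n h3, h (h2 fun k hk => by rw [h4 k hk]; exact mem_of_mem_nhds (h1 k))⟩
  have h2 : ∀ x, Tendsto d (Ultrafilter.of (atTop ⊓ comap d (𝓝 x))) (𝓝 x) := fun x =>
    tendsto_iff_comap.2 ((Ultrafilter.of_le _).trans inf_le_right)
  have := mk_le_of_injective (f := fun x : ℝ → Bool => (⟨Ultrafilter.of (atTop ⊓ comap d (𝓝 x)),
    (Ultrafilter.of_le _).trans inf_le_left⟩ : {V : Ultrafilter ℕ | (V : Filter ℕ) ≤ atTop}))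
    fun a b h => tendsto_nhds_unique (h2 a) (by rw [Subtype.mk.inj h]; exact h2 b)
  refine le_trans (le_of_eq ?_) this
  simp [mk_real]

theorem mk_ultra (α : Type) [Countable α] : #(Ultrafilter α) ≤ 2 ^ 𝔠 := by
  refine (mk_le_of_injective (f := fun u : Ultrafilter α => {s | s ∈ u})
    fun a b h => Ultrafilter.ext fun s => Set.ext_iff.1 h s).trans ?_
  rw [mk_set, mk_set]
  exact power_le_power_left two_ne_zero (power_le_power_left two_ne_zero mk_le_aleph0)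

theorem mem_bind {α β : Type} {V : Ultrafilter α} {y : α → Ultrafilter β} {s : Set β} :
    s ∈ V.bind y ↔ {m | s ∈ y m} ∈ V := Iff.rfl

theorem disj {S : Set (Ultrafilter ℕ)} (hS : S.Infinite) :
    ∃ (p : ℕ → Ultrafilter ℕ) (J : ℕ → Set ℕ), (∀ n, p n ∈ S ∧ J n ∈ p n) ∧
      ∀ n m, n ≠ m → Disjoint (J n) (J m) := by
  have := hS.to_subtype
  obtain ⟨U, h1, h2, h3⟩ := exists_seq_infinite_isOpen_pairwise_disjoint S
  choose p hp using fun n => (h1 n).nonempty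
  have : ∀ n, ∃ K ∈ (p n).1, ∀ m, m ≠ n → K ∉ (p m).1 := fun n => by
    obtain ⟨O, h4, h5⟩ := isOpen_induced_iff.1 (h2 n)
    obtain ⟨_, ⟨s, rfl⟩, h6, h7⟩ := ultrafilterBasis_is_basis.exists_subset_of_mem_open
      (show (p n).1 ∈ O from (h5 ▸ hp n : p n ∈ Subtype.val ⁻¹' O)) h4
    exact ⟨s, h6, fun m hm h => disjoint_left.1 (h3 hm) (hp m) (h5 ▸ h7 h)⟩
  choose K h4 h5 using this
  refine ⟨fun n => p n, fun n => K n ∩ ⋂ m ∈ Iio n, (K m)ᶜ, fun n => ⟨(p n).2, inter_mem (h4 n)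
    ((biInter_mem (finite_Iio n)).2 fun m hm =>
      Ultrafilter.compl_mem_iff_notMem.2 (h5 m n (ne_of_gt hm)))⟩, fun n m h => ?_⟩
  rcases lt_or_gt_of_ne h with h | h
  · exact disjoint_left.2 fun a h6 h7 => mem_iInter₂.1 h7.2 n h h6.1
  · exact disjoint_left.2 fun a h6 h7 => mem_iInter₂.1 h6.2 m h h7.1

/-- Nodes. -/
abbrev I : Type := ℕ × Finset ℕ
abbrev T : Type := ℕ → Bool

def ad (s : I) : T := fun i => decide (i ∈ s.2)
def Ag (n : ℕ) (t t' : T) : Prop := ∀ i < n, t i = t' i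

theorem Ag.symm {n : ℕ} {a b : T} (h : Ag n a b) : Ag n b a := fun i hi => (h i hi).symm
theorem Ag.trans {n : ℕ} {a b c : T} (h : Ag n a b) (h' : Ag n b c) : Ag n a c :=
  fun i hi => (h i hi).trans (h' i hi)
theorem Ag.mono {n m : ℕ} {a b : T} (h : Ag n a b) (h' : m ≤ n) : Ag m a b :=
  fun i hi => h i (hi.trans_le h')

def cone (n : ℕ) (t : T) : Set I := {s | n ≤ s.1 ∧ Ag n t (ad s)}
def up (s : I) : Set I := cone s.1 (ad s)
def br (t : T) : Set I := {s | Ag s.1 t (ad s)}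
def Clean (A : Set I) : Prop := ∀ s ∈ A, (A ∩ up s).Finite
noncomputable def ind (t : T) (s : I) : ℕ := sInf {i | t i ≠ ad s i}
def At (x : Ultrafilter I) (t : T) : Prop := ∀ n, cone n t ∈ x

theorem cone_mono {n m : ℕ} {t t' : T} (h : m ≤ n) (h' : Ag m t' t) : cone n t ⊆ cone m t' :=
  fun _ hs => ⟨h.trans hs.1, h'.trans (hs.2.mono h)⟩

theorem up_self (s : I) : s ∈ up s := ⟨le_rfl, fun _ _ => rfl⟩

theorem up_trans {a b : I} (h : b ∈ up a) : up b ⊆ up a := cone_mono h.1 h.2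

theorem ind_spec {t : T} {s : I} (h : s ∉ br t) :
    ind t s < s.1 ∧ t (ind t s) ≠ ad s (ind t s) ∧ Ag (ind t s) t (ad s) := by
  have : ∃ i < s.1, t i ≠ ad s i := by
    by_contra hc
    push Not at hc
    exact h hc
  obtain ⟨i, h1, h2⟩ := this
  refine ⟨(Nat.sInf_le h2).trans_lt h1, Nat.sInf_mem (s := {i | t i ≠ ad s i}) ⟨i, h2⟩,
    fun j hj => not_not.1 (Nat.notMem_of_lt_sInf hj)⟩

theorem le_ind {t : T} {s : I} (h : s ∉ br t) {n : ℕ} : n ≤ ind t s ↔ s ∈ cone n t := by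
  obtain ⟨h1, h2, h3⟩ := ind_spec h
  refine ⟨fun hn => ⟨hn.trans h1.le, h3.mono hn⟩, fun hn => ?_⟩
  by_contra hc
  exact h2 (hn.2 _ (not_le.1 hc))

theorem ind_up {t : T} {s s' : I} (h : s ∉ br t) (h' : s' ∈ up s) :
    s' ∉ br t ∧ ind t s' = ind t s := by
  obtain ⟨h1, h2, h3⟩ := ind_spec h
  have h4 : s' ∉ br t := fun hb => h2 ((hb _ (h1.trans_le h'.1)).trans (h'.2 _ h1).symm)
  refine ⟨h4, le_antisymm (Nat.sInf_le ?_) ((le_ind h4).2 ⟨h1.le.trans h'.1,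
    h3.trans (h'.2.mono h1.le)⟩)⟩
  show t _ ≠ _
  rw [← h'.2 _ h1]
  exact h2

theorem At.unique {x : Ultrafilter I} {t t' : T} (h : At x t) (h' : At x t') : t = t' := by
  funext i
  obtain ⟨s, h1, h2⟩ := x.nonempty_of_mem (inter_mem (h (i + 1)) (h' (i + 1)))
  exact (h1.2 i (by omega)).trans (h2.2 i (by omega)).symm

theorem At.inf {x : Ultrafilter I} {t : T} (h : At x t) {A : Set I} (hA : A ∈ x) : A.Infinite := by
  intro hf
  obtain ⟨n, hn⟩ := (hf.image Prod.fst).bddAbove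
  obtain ⟨s, h1, h2⟩ := x.nonempty_of_mem (inter_mem hA (h (n + 1)))
  have := hn ⟨s, h1, rfl⟩
  have := h2.1
  omega

theorem At.off {x : Ultrafilter I} {t : T} (h : At x t) {A : Set I} (hA : A ∈ x) (hc : Clean A)
    (t' : T) : (br t')ᶜ ∈ x := by
  rw [Ultrafilter.compl_mem_iff_notMem]
  intro hb
  obtain ⟨s, h1, h2⟩ := x.nonempty_of_mem (inter_mem hA hb)
  refine h.inf (inter_mem hA (mem_of_superset (inter_mem hb (h s.1)) fun s' hs => ?_)) (hc s h1)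
  exact ⟨hs.2.1, h2.symm.trans (hs.1.mono hs.2.1)⟩

theorem Clean.mono {A B : Set I} (h : Clean A) (hB : B ⊆ A) : Clean B :=
  fun s hs => (h s (hB hs)).subset (inter_subset_inter_left _ hB)

theorem clean_one (s : I) : Clean {s} := fun _ _ => (finite_singleton s).inter_of_left _

/-- Thinned sequences. -/
def Good (t : T) (y : ℕ → Ultrafilter I) : Prop := (∀ n, ∀ᶠ m in atTop, cone n t ∈ y m) ∧
  ∃ J : ℕ → Set ℕ, (∀ n m, n ≠ m → Disjoint (J n) (J m)) ∧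
    ∀ m, ∃ A ∈ y m, Clean A ∧ ∀ s ∈ A, s ∉ br t ∧ ind t s ∈ J m

theorem Good.at {t : T} {y : ℕ → Ultrafilter I} (h : Good t y) {V : Ultrafilter ℕ}
    (hV : (V : Filter ℕ) ≤ atTop) : At (V.bind y) t := fun n => hV (h.1 n)

theorem Good.clean {t : T} {y : ℕ → Ultrafilter I} (h : Good t y) (V : Ultrafilter ℕ) :
    ∃ A ∈ V.bind y, Clean A := by
  obtain ⟨-, J, h1, h2⟩ := h
  choose A h3 h4 h5 using h2
  refine ⟨⋃ m, A m, mem_bind.2 (univ_mem' fun m => mem_of_superset (h3 m) (subset_iUnion _ m)),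
    fun s hs => ?_⟩
  obtain ⟨m, hm⟩ := mem_iUnion.1 hs
  refine (h4 m s hm).subset fun s' ⟨h6, h7⟩ => ⟨?_, h7⟩
  obtain ⟨k, hk⟩ := mem_iUnion.1 h6
  by_cases e : k = m
  · exact e ▸ hk
  · refine (disjoint_left.1 (h1 k m e) (h5 k s' hk).2 ?_).elim
    rw [(ind_up (h5 m s hm).1 h7).2]
    exact (h5 m s hm).2

theorem Good.inj {t : T} {y : ℕ → Ultrafilter I} (h : Good t y) :
    Function.Injective fun V : Ultrafilter ℕ => (V.bind y).map (ind t) := by
  obtain ⟨-, J, h1, h2⟩ := h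
  choose A h3 h4 h5 using h2
  have key : ∀ (V : Ultrafilter ℕ) (S : Set ℕ), (⋃ m ∈ S, J m) ∈ (V.bind y).map (ind t) ↔ S ∈ V := by
    intro V S
    rw [Ultrafilter.mem_map, mem_bind]
    have : {m | ind t ⁻¹' (⋃ m ∈ S, J m) ∈ y m} = S := by
      ext m
      refine ⟨fun h => ?_, fun h => mem_of_superset (h3 m) fun s hs =>
        mem_biUnion h (h5 m s hs).2⟩
      obtain ⟨s, h6, h7⟩ := (y m).nonempty_of_mem (inter_mem h (h3 m))
      obtain ⟨k, h8, h9⟩ := mem_iUnion₂.1 h6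
      by_contra hm
      exact disjoint_left.1 (h1 k m fun e => hm (e ▸ h8)) h9 (h5 m s h7).2
    rw [this]
  intro V W h
  refine Ultrafilter.ext fun S => ?_
  rw [← key V, ← key W]
  exact iff_of_eq (congrArg (fun u : Ultrafilter ℕ => (⋃ m ∈ S, J m) ∈ u) h)

theorem exists_F : ∃ F : Set (Ultrafilter I), (∀ x ∈ F, (∃ t, At x t) ∧ ∃ A ∈ x, Clean A) ∧
    (∀ x ∈ F, ∀ x' ∈ F, ∀ t, At x t → At x' t → x.map (ind t) = x'.map (ind t) → x = x') ∧
    ∀ t y, Good t y → ∃ V : Ultrafilter ℕ, (V : Filter ℕ) ≤ atTop ∧ V.bind y ∈ F := by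
  have hc : ℵ₀ ≤ (2 : Cardinal.{0}) ^ 𝔠 := aleph0_le_continuum.trans (cantor _).le
  have h0 : #(Ultrafilter ℕ) = 2 ^ 𝔠 := le_antisymm (mk_ultra ℕ) (mk_free.trans (mk_set_le _))
  have hT : #T ≤ 2 ^ 𝔠 := by simpa using (cantor 𝔠).le
  have h1 : #(T × Ultrafilter ℕ) = 2 ^ 𝔠 := by
    refine le_antisymm ?_ (h0.ge.trans (mk_le_of_injective (Prod.mk_right_injective default)))
    rw [mk_prod, lift_id, lift_id, h0]
    exact (mul_le_mul' hT le_rfl).trans (mul_eq_self hc).le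
  have : Infinite (T × Ultrafilter ℕ) := infinite_iff.2 (h1 ▸ hc)
  obtain ⟨c, h2, h3⟩ := CL.inj_choice (X := T × Ultrafilter ℕ)
    (I := {q : T × (ℕ → Ultrafilter I) // Good q.1 q.2}) (by
      rw [h1]
      refine (mk_subtype_le _).trans ?_
      rw [mk_prod, lift_id, lift_id]
      refine (mul_le_mul' hT ?_).trans (mul_eq_self hc).le
      rw [← power_def, mk_nat]
      refine (power_le_power_right (mk_ultra I)).trans ?_
      rw [← power_mul, continuum_mul_aleph0])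
    (fun q => (fun V : Ultrafilter ℕ => (q.1.1, (V.bind q.1.2).map (ind q.1.1))) ''
      {V | (V : Filter ℕ) ≤ atTop}) (fun q => by
      refine le_antisymm (mk_set_le _) ?_
      rw [mk_image_eq fun a b h => q.2.inj (congrArg Prod.snd h), h1]
      exact mk_free)
  choose V h4 h5 using h3
  refine ⟨range fun q => (V q).bind q.1.2, ?_, ?_, fun t y h => ⟨V ⟨(t, y), h⟩, h4 _, _, rfl⟩⟩
  · rintro _ ⟨q, rfl⟩
    exact ⟨⟨_, q.2.at (h4 q)⟩, q.2.clean _⟩
  · rintro _ ⟨q, rfl⟩ _ ⟨q', rfl⟩ t h h' e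
    have e1 := h.unique (q.2.at (h4 q))
    have e2 := h'.unique (q'.2.at (h4 q'))
    have : q = q' := h2 (by rw [← h5, ← h5, ← e1, ← e2]; exact Prod.ext rfl e)
    rw [this]

def FF : Set (Ultrafilter I) := exists_F.choose

theorem FF_at {x : Ultrafilter I} (h : x ∈ FF) : ∃ t, At x t := (exists_F.choose_spec.1 x h).1
theorem FF_clean {x : Ultrafilter I} (h : x ∈ FF) : ∃ A ∈ x, Clean A :=
  (exists_F.choose_spec.1 x h).2

/-- A limit of the sequence lies in the chosen set. -/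
def Lim (y : ℕ → Ultrafilter I) : Prop :=
  ∃ V : Ultrafilter ℕ, (V : Filter ℕ) ≤ atTop ∧ V.bind y ∈ FF

theorem Lim.sub {y : ℕ → Ultrafilter I} {ψ : ℕ → ℕ} (hψ : Tendsto ψ atTop atTop)
    (h : Lim (y ∘ ψ)) : Lim y := by
  obtain ⟨V, h1, h2⟩ := h
  exact ⟨V.map ψ, (map_mono h1).trans hψ, h2⟩

theorem lim_of {t : T} {y : ℕ → Ultrafilter I} (h1 : ∀ m, ∃ A ∈ y m, Clean A)
    (h2 : ∀ m, (br t)ᶜ ∈ y m) (h3 : ∀ n, ∀ᶠ m in atTop, cone n t ∈ y m)
    (h4 : (range fun m => (y m).map (ind t)).Infinite) : Lim y := by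
  obtain ⟨p, J, h5, h6⟩ := disj h4
  choose ψ hψ using fun n => (h5 n).1
  have h7 : ψ.Injective := fun a b h => by
    by_contra hc
    have e : p a = p b := by rw [← hψ, ← hψ, h]
    obtain ⟨i, h8, h9⟩ := (p a).nonempty_of_mem (inter_mem (h5 a).2 (e ▸ (h5 b).2))
    exact disjoint_left.1 (h6 a b hc) h8 h9
  refine Lim.sub h7.nat_tendsto_atTop (exists_F.choose_spec.2.2 t _
    ⟨fun n => h7.nat_tendsto_atTop.eventually (h3 n), J, h6, fun m => ?_⟩)
  obtain ⟨A, h8, h9⟩ := h1 (ψ m)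
  have h10 := (h5 m).2
  rw [← hψ] at h10
  exact ⟨A ∩ ((br t)ᶜ ∩ ind t ⁻¹' J m), inter_mem h8 (inter_mem (h2 _) h10),
    h9.mono inter_subset_left, fun s hs => hs.2⟩

theorem lim_pure {t : T} {s : ℕ → I} (h1 : ∀ m, s m ∉ br t) (h2 : ∀ m, s m ∈ cone m t) :
    Lim fun m => pure (s m) := by
  refine lim_of (t := t) (fun m => ⟨{s m}, rfl, clean_one _⟩) h1
    (fun n => (eventually_ge_atTop n).mono fun m hm => cone_mono hm (fun _ _ => rfl) (h2 m)) ?_
  intro hf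
  have : (range fun m => ind t (s m)).Finite :=
    (hf.preimage Ultrafilter.pure_injective.injOn).subset (by rintro _ ⟨m, rfl⟩; exact ⟨m, rfl⟩)
  obtain ⟨n, hn⟩ := this.bddAbove
  have h3 := hn ⟨n + 1, rfl⟩
  have := (le_ind (h1 (n + 1))).2 (h2 (n + 1))
  beta_reduce at h3
  omega

theorem lim_const {x : Ultrafilter I} (hx : x ∈ FF) {y : ℕ → Ultrafilter I}
    (h : ∃ᶠ m in atTop, y m = x) : Lim y := by
  obtain ⟨ψ, h1, h2⟩ := extraction_of_frequently_atTop h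
  refine Lim.sub h1.tendsto_atTop ⟨hyperfilter ℕ, Nat.hyperfilter_le_atTop, ?_⟩
  have : (hyperfilter ℕ).bind (y ∘ ψ) = x := Ultrafilter.ext fun s => by
    rw [mem_bind]
    by_cases hs : s ∈ x
    · exact iff_of_true (univ_mem' fun m => show s ∈ y (ψ m) from (h2 m).symm ▸ hs) hs
    · simp [h2, hs]
  rwa [this]

theorem lim_FF {y : ℕ → Ultrafilter I} (hy : ∀ m, y m ∈ FF) : Lim y := by
  choose τ hτ using fun m => FF_at (hy m)
  obtain ⟨t, ψ, h1, h2⟩ := CompactSpace.tendsto_subseq τ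
  refine Lim.sub h1.tendsto_atTop ?_
  have h3 : ∀ n, ∀ᶠ m in atTop, cone n t ∈ (y ∘ ψ) m := fun n => by
    have : ∀ᶠ m in atTop, ∀ i ∈ Iio n, τ (ψ m) i = t i := (eventually_all_finite (finite_Iio n)).2
      fun i _ => by simpa using tendsto_pi_nhds.1 h2 i
    exact this.mono fun m hm => mem_of_superset (hτ (ψ m) n)
      (cone_mono le_rfl fun i hi => (hm i hi).symm)
  have h4 : ∀ m, (br t)ᶜ ∈ (y ∘ ψ) m := fun m => by
    obtain ⟨A, h5, h6⟩ := FF_clean (hy (ψ m))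
    exact (hτ _).off h5 h6 t
  by_cases hf : (range fun m => ((y ∘ ψ) m).map (ind t)).Finite
  swap
  · exact lim_of (fun m => FF_clean (hy _)) h4 h3 hf
  obtain ⟨p, hp⟩ : ∃ p, ∃ᶠ m in atTop, ((y ∘ ψ) m).map (ind t) = p := by
    by_contra hc
    push Not at hc
    obtain ⟨m, hm⟩ := ((eventually_all_finite hf).2 fun p _ => hc p).exists
    exact hm _ ⟨m, rfl⟩ rfl
  have h5 : ∀ m, ((y ∘ ψ) m).map (ind t) = p → At ((y ∘ ψ) m) t := fun m hm n => by
    obtain ⟨k, h6, h7⟩ := (hp.and_eventually (h3 n)).exists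
    have h8 : Ici n ∈ p := by
      rw [← h6, Ultrafilter.mem_map]
      exact mem_of_superset (inter_mem h7 (h4 k)) fun s hs =>
        show n ≤ ind t s from (le_ind hs.2).2 hs.1
    rw [← hm, Ultrafilter.mem_map] at h8
    exact mem_of_superset (inter_mem h8 (h4 m)) fun s hs => (le_ind hs.2).1 hs.1
  obtain ⟨k, hk⟩ := hp.exists
  exact lim_const (hy (ψ k)) (hp.mono fun m hm => exists_F.choose_spec.2.1 _ (hy _) _ (hy _) t
    (h5 m hm) (h5 k hk) (hm.trans hk.symm))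

theorem child (s : I) (b : Bool) : ∃ s' ∈ up s, s'.1 = s.1 + 1 ∧ ad s' s.1 = b := by
  cases b
  · exact ⟨(s.1 + 1, s.2.erase s.1), ⟨by simp, fun i hi => by simp [ad, hi.ne]⟩, rfl, by simp [ad]⟩
  · exact ⟨(s.1 + 1, insert s.1 s.2), ⟨by simp, fun i hi => by simp [ad, hi.ne]⟩, rfl, by simp [ad]⟩

theorem avoid (s : I) (A : Set I) : ∃ s' ∈ up s, s.1 < s'.1 ∧ (Clean A → Disjoint (up s') A) := by
  by_cases h : Clean A ∧ (up s ∩ A).Nonempty
  · obtain ⟨hc, a, h1, h2⟩ := h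
    obtain ⟨n, hn⟩ := ((hc a h2).image Prod.fst).bddAbove
    have h3 : a.1 ≤ n := hn ⟨a, ⟨h2, up_self a⟩, rfl⟩
    have h4 : (n + 1, a.2) ∈ up a := ⟨by simp; omega, fun _ _ => rfl⟩
    refine ⟨(n + 1, a.2), up_trans h1 h4, by have := h1.1; simp; omega,
      fun _ => disjoint_left.2 fun b h5 h6 => ?_⟩
    have := hn ⟨b, ⟨h6, up_trans h4 h5⟩, rfl⟩
    have := h5.1
    simp at this
    omega
  · obtain ⟨s', h1, h2, -⟩ := child s true
    exact ⟨s', h1, by omega, fun hc => disjoint_left.2 fun b h3 h4 => h ⟨hc, b, up_trans h1 h3, h4⟩⟩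

theorem cand (s : I) {E : Set (Set I)} (hE : E.Countable) :
    ∃ z ∈ FF, up s ∈ z ∧ ∀ A ∈ E, Clean A → A ∉ z := by
  obtain ⟨A, hA⟩ := countable_iff_exists_subset_range.1 hE
  choose g h1 h2 h3 using avoid
  let σ : ℕ → I := fun k => Nat.rec s (fun k a => g a (A k)) k
  have h4 : ∀ k l, k ≤ l → σ l ∈ up (σ k) := fun k l h => by
    induction l, h using Nat.le_induction with
    | base => exact up_self _
    | succ l _ ih => exact up_trans ih (h1 _ _)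
  have h5 : ∀ k, k ≤ (σ k).1 := fun k => by
    induction k with
    | zero => omega
    | succ k ih => exact ih.trans_lt (h2 (σ k) (A k))
  let t : T := fun i => ad (σ (i + 1)) i
  have h6 : ∀ k, Ag (σ k).1 t (ad (σ k)) := fun k i hi => by
    rcases le_total k (i + 1) with h | h
    · exact ((h4 _ _ h).2 i hi).symm
    · exact (h4 _ _ h).2 i (h5 (i + 1))
  choose c h7 h8 h9 using fun k => child (σ k) (!t (σ k).1)
  obtain ⟨V, h10, h11⟩ := lim_pure (t := t) (s := c)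
    (fun k h => by have := h (σ k).1 (by rw [h8]; omega); simp [h9] at this)
    (fun k => cone_mono (h5 k) ((h6 k).mono (h5 k)) (h7 k))
  have h12 : ∀ k, up (σ k) ∈ V.bind fun m => pure (c m) := fun k =>
    mem_bind.2 (h10 ((eventually_ge_atTop k).mono fun m hm => up_trans (h4 k m hm) (h7 m)))
  refine ⟨_, h11, h12 0, fun B hB hc h => ?_⟩
  obtain ⟨k, rfl⟩ := hA hB
  obtain ⟨a, h13, h14⟩ := Ultrafilter.nonempty_of_mem (inter_mem (h12 (k + 1)) h)
  exact disjoint_left.1 (h3 (σ k) (A k) hc) h13 h14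

end Pool.Agent.H39.WD
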