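import Pool.Agent.H39.WD1

/-! A free-sequence lemma and the embedding into a Cantor cube. -/

set_option autoImplicit false

namespace Pool.Agent.H39.WD
open Set Filter Topology

theorem root {Z α : Type} (c : Set Z) (Pos N : Z → Set α) (hN : ∀ z, (N z).Finite)
    (h : ∀ E : Set α, E.Countable → ∃ z ∈ c, Disjoint (Pos z) E) :
    ∃ R : Set α, R.Countable ∧ ∀ Φ : Set α, Φ.Finite → Disjoint Φ R → ∀ E : Set α, E.Countable →
      ∃ z ∈ c, Disjoint (Pos z) E ∧ Disjoint (N z) Φ := by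
  by_contra hc
  push Not at hc
  choose! Φ h1 h2 E h3 h4 using hc
  let R : ℕ → Set α := fun j => Nat.rec ∅ (fun _ r => r ∪ Φ r) j
  have h5 : ∀ j, (R j).Countable := fun j => by
    induction j with
    | zero => exact countable_empty
    | succ j ih => exact ih.union (h1 _ ih).countable
  have h6 : Monotone R := monotone_nat_of_le_succ fun j => subset_union_left
  obtain ⟨z, h7, h8⟩ := h (⋃ j, E (R j)) (countable_iUnion fun j => h3 _ (h5 j))
  choose e h9 h10 using fun j => not_disjoint_iff.1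
    (h4 _ (h5 j) z h7 (h8.mono_right (subset_iUnion (fun j => E (R j)) j)))
  have h11 : ∀ i j, i < j → e i ≠ e j := fun i j hij h =>
    disjoint_left.1 (h2 _ (h5 j)) (h10 j) (h ▸ h6 hij (Or.inr (h10 i)))
  exact infinite_of_injective_forall_mem (f := e) (fun i j h => by
    rcases lt_trichotomy i j with h' | h' | h'
    · exact absurd h (h11 i j h')
    · exact h'
    · exact absurd h.symm (h11 j i h')) h9 (hN z)

theorem free {Z α S : Type} [Countable S] (c : S → Set Z) (Pos : Z → Set α)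
    (P N : ℕ → Z → Set α) (hP : ∀ n z, (P n z).Finite) (hN : ∀ n z, (N n z).Finite)
    (hPP : ∀ n z, P n z ⊆ Pos z)
    (h : ∀ s, ∀ E : Set α, E.Countable → ∃ z ∈ c s, Disjoint (Pos z) E) (nx : ℕ → S → Z → S)
    (s0 : S) : ∃ (s : ℕ → S) (z : ℕ → Z), (∀ n, z n ∈ c (s n) ∧ s (n + 1) = nx n (s n) (z n)) ∧
      ∀ i n, i ≠ n → Disjoint (P i (z i)) (N n (z n)) := by
  choose R h1 h2 using fun s n => root (c s) Pos (N n) (hN n) (h s)
  let RR := ⋃ s, ⋃ n, R s n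
  have h3 : RR.Countable := countable_iUnion fun s => countable_iUnion (h1 s)
  let St := {q : S × Set α × Set α //
    q.2.1.Finite ∧ Disjoint q.2.1 RR ∧ q.2.2.Countable ∧ RR ⊆ q.2.2}
  choose g h4 h5 h6 using fun n (q : St) => h2 q.1.1 n q.1.2.1 q.2.1
    (q.2.2.1.mono_right (subset_iUnion₂ (s := R) q.1.1 n)) q.1.2.2 q.2.2.2.1
  let q : ℕ → St := fun n => Nat.rec ⟨(s0, ∅, RR), finite_empty, by simp, h3, subset_rfl⟩
    (fun n q => ⟨(nx n q.1.1 (g n q), q.1.2.1 ∪ P n (g n q), q.1.2.2 ∪ N n (g n q)),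
      q.2.1.union (hP _ _), disjoint_union_left.2 ⟨q.2.2.1, (h5 n q).mono (hPP _ _) q.2.2.2.2⟩,
      q.2.2.2.1.union (hN _ _).countable, q.2.2.2.2.trans subset_union_left⟩) n
  have h7 : Monotone fun n => (q n).1.2.1 := monotone_nat_of_le_succ fun j => subset_union_left
  have h8 : Monotone fun n => (q n).1.2.2 := monotone_nat_of_le_succ fun j => subset_union_left
  refine ⟨fun n => (q n).1.1, fun n => g n (q n), fun n => ⟨h4 n _, rfl⟩, fun i n hin => ?_⟩
  rcases lt_or_gt_of_ne hin with h | h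
  · exact (h6 n (q n)).symm.mono_left (subset_union_right.trans (h7 h : (q (i + 1)).1.2.1 ⊆ _))
  · exact (h5 i (q i)).mono (hPP _ _) (subset_union_right.trans (h8 h : (q (n + 1)).1.2.2 ⊆ _))

abbrev J : Type := Set I ⊕ ℝ
abbrev C : Type := J → Bool

open Classical in
/-- The map to the cube. -/
noncomputable def ph (u : Ultrafilter I) : C
  | .inl A => decide (Clean A ∧ A ∈ u)
  | .inr _ => true

theorem ph_inl {u : Ultrafilter I} {A : Set I} : ph u (.inl A) = true ↔ Clean A ∧ A ∈ u := by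
  simp [ph]

theorem ph_tendsto (V : Ultrafilter ℕ) (y : ℕ → Ultrafilter I) :
    Tendsto (fun m => ph (y m)) V (𝓝 (ph (V.bind y))) := by
  refine tendsto_pi_nhds.2 fun j => ?_
  rw [nhds_discrete, tendsto_pure]
  rcases j with A | r
  · by_cases h : A ∈ V.bind y
    · exact mem_of_superset (mem_bind.1 h) fun m hm => by
        have : A ∈ y m := hm
        simp [ph, this, h]
    · exact mem_of_superset (Ultrafilter.compl_mem_iff_notMem.2 (mt mem_bind.2 h)) fun m hm => by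
        have : A ∉ y m := hm
        simp [ph, this, h]
  · exact Eventually.of_forall fun _ => rfl

def Sg : Set C := {k | {j | k j = true}.Countable ∧ ∀ s, k (.inl {s}) = false}

/-- The image space. -/
def YY : Set C := {k | (∃ s, k = ph (pure s)) ∨ (∃ x ∈ FF, k = ph x) ∨ k ∈ Sg}

def X1 : Set YY := {y | ∀ s, y.1 (.inl {s}) = false}
def X2 : Set YY := {y | ∀ r, y.1 (.inr r) = true}

theorem cont (j : J) : Continuous fun y : YY => y.1 j :=
  (continuous_apply j).comp continuous_subtype_val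

theorem closed1 : IsClosed X1 := by
  rw [X1, ofPred_forall]
  exact isClosed_iInter fun s => isClosed_eq (cont _) continuous_const

theorem closed2 : IsClosed X2 := by
  rw [X2, ofPred_forall]
  exact isClosed_iInter fun s => isClosed_eq (cont _) continuous_const

theorem ph_one {x : Ultrafilter I} (hx : x ∈ FF) (s : I) : ph x (.inl {s}) = false := by
  obtain ⟨t, ht⟩ := FF_at hx
  exact Bool.eq_false_iff.2 fun h => ht.inf (ph_inl.1 h).2 (finite_singleton s)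

theorem cover (y : YY) : y ∈ X1 ∨ y ∈ X2 := by
  obtain ⟨k, ⟨s, rfl⟩ | ⟨x, h, rfl⟩ | h⟩ := y
  · exact Or.inr fun _ => rfl
  · exact Or.inr fun _ => rfl
  · exact Or.inl h.2

theorem mem2 {y : YY} (h : y ∈ X2) : (∃ s, y.1 = ph (pure s)) ∨ ∃ x ∈ FF, y.1 = ph x := by
  rcases y.2 with h1 | h1 | h1
  · exact Or.inl h1
  · exact Or.inr h1
  · exact absurd ((h1.1.preimage Sum.inr_injective).mono fun r _ => h r) (not_countable_univ (α := ℝ))

theorem mem1 {y : YY} (h : y ∈ X1) : (∃ x ∈ FF, y.1 = ph x) ∨ y.1 ∈ Sg := by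
  rcases y.2 with ⟨s, h1⟩ | h1 | h1
  · have := h s
    rw [h1, ph_inl.2 ⟨clean_one s, rfl⟩] at this
    cases this
  · exact Or.inl h1
  · exact Or.inr h1

/-- Clustering inside a closed piece. -/
def Cl (xs : ℕ → YY) : Prop := ∃ a, MapClusterPt a atTop xs

theorem Cl.sub {xs : ℕ → YY} {p : ℕ → Prop} (hp : ∃ᶠ n in atTop, p n)
    (h : ∀ ψ : ℕ → ℕ, StrictMono ψ → (∀ n, p (ψ n)) → Cl (xs ∘ ψ)) : Cl xs := by
  obtain ⟨ψ, h1, h2⟩ := extraction_of_frequently_atTop hp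
  obtain ⟨a, ha⟩ := h ψ h1 h2
  exact ⟨a, ha.of_comp h1.tendsto_atTop⟩

theorem Lim.cl {y : ℕ → Ultrafilter I} (h : Lim y) {xs : ℕ → YY} (hx : ∀ n, (xs n).1 = ph (y n)) :
    Cl xs := by
  obtain ⟨V, h1, h2⟩ := h
  refine ⟨⟨_, Or.inr (Or.inl ⟨_, h2, rfl⟩)⟩, mapClusterPt_iff_ultrafilter.2 ⟨V, h1, ?_⟩⟩
  rw [tendsto_subtype_rng]
  simp only [hx]
  exact ph_tendsto V y

theorem cl_FF {xs : ℕ → YY} (h : ∃ᶠ n in atTop, ∃ x ∈ FF, (xs n).1 = ph x) : Cl xs := by
  refine Cl.sub h fun ψ _ h => ?_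
  choose y h1 h2 using h
  exact (lim_FF h1).cl h2

theorem cl_X1 {xs : ℕ → YY} (h : ∀ n, xs n ∈ X1) : Cl xs := by
  rcases frequently_or_distrib.1 (Frequently.of_forall (f := atTop) fun n => mem1 (h n)) with h | h
  · exact cl_FF h
  refine Cl.sub h fun ψ _ h => ?_
  let V := hyperfilter ℕ
  obtain ⟨k, -, hk⟩ := isCompact_univ.ultrafilter_le_nhds (V.map fun n => (xs (ψ n)).1) (by simp)
  have h1 : ∀ j, ∃ n, (xs (ψ n)).1 j = k j := fun j => by
    have := tendsto_pi_nhds.1 (hk : Tendsto (fun n => (xs (ψ n)).1) V (𝓝 k)) j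
    rw [nhds_discrete, tendsto_pure] at this
    exact this.exists
  refine ⟨⟨k, Or.inr (Or.inr ⟨(countable_iUnion fun n => (h n).1).mono fun j hj => ?_,
    fun s => ?_⟩)⟩, mapClusterPt_iff_ultrafilter.2
      ⟨V, Nat.hyperfilter_le_atTop, tendsto_subtype_rng.2 hk⟩⟩
  · obtain ⟨n, hn⟩ := h1 j
    exact mem_iUnion.2 ⟨n, hn.trans hj⟩
  · obtain ⟨n, hn⟩ := h1 (.inl {s})
    rw [← hn, (h n).2]

/-- Members of the covers of the second piece. -/
def Sm (n : ℕ) (A : Set I) : Prop := Clean A ∧ ((∃ s, A = {s}) ∨ ∃ t, A ⊆ cone n t)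

theorem cover2 (n : ℕ) {y : YY} (h : y ∈ X2) : ∃ A, Sm n A ∧ y.1 (.inl A) = true := by
  rcases mem2 h with ⟨s, h⟩ | ⟨x, h1, h⟩
  · exact ⟨{s}, ⟨clean_one s, Or.inl ⟨s, rfl⟩⟩, h ▸ ph_inl.2 ⟨clean_one s, rfl⟩⟩
  · obtain ⟨t, ht⟩ := FF_at h1
    obtain ⟨A, h2, h3⟩ := FF_clean h1
    have := h3.mono (inter_subset_left (t := cone n t))
    exact ⟨_, ⟨this, Or.inr ⟨t, inter_subset_right⟩⟩, h ▸ ph_inl.2 ⟨this, inter_mem h2 (ht n)⟩⟩

theorem cl_X2 {y : YY} (hy : y ∈ X2) {xs : ℕ → YY} (h : ∀ n, xs n ∈ X2)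
    (h' : ∀ n, ∃ A, Sm n A ∧ y.1 (.inl A) = true ∧ (xs n).1 (.inl A) = true) : Cl xs := by
  rcases frequently_or_distrib.1 (Frequently.of_forall (f := atTop) fun n => mem2 (h n)) with h | h
  swap
  · exact cl_FF h
  choose A h1 h2 h3 using h'
  rcases mem2 hy with ⟨s, hs⟩ | ⟨x, hx, hs⟩
  · suffices H : ∃ᶠ n in atTop, xs n = y from ⟨y, mapClusterPt_iff_frequently.2 fun U hU =>
      H.mono fun n hn => hn ▸ mem_of_mem_nhds hU⟩
    refine (h.and_eventually (eventually_gt_atTop s.1)).mono ?_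
    rintro n ⟨⟨s', h4⟩, h5⟩
    have h6 : s ∈ A n := (ph_inl.1 (hs ▸ h2 n)).2
    have h7 : s' ∈ A n := (ph_inl.1 (h4 ▸ h3 n)).2
    rcases (h1 n).2 with ⟨a, ha⟩ | ⟨t, ht⟩
    · rw [ha] at h6 h7
      exact Subtype.ext (by rw [h4, hs, h6, h7])
    · have := (ht h6).1
      omega
  · obtain ⟨t, ht⟩ := FF_at hx
    refine Cl.sub h fun ψ hψ h => ?_
    choose s h4 using h
    have h5 : ∀ n, A n ∈ x := fun n => (ph_inl.1 (hs ▸ h2 n)).2
    have h6 : ∀ n, s n ∈ A (ψ n) := fun n => (ph_inl.1 (h4 n ▸ h3 (ψ n))).2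
    refine (lim_pure (t := t) (fun n hb => ?_) fun n => ?_).cl h4
    · exact ht.inf (inter_mem (h5 (ψ n)) (mem_of_superset (ht (s n).1)
        (cone_mono le_rfl hb.symm))) ((h1 _).1 _ (h6 n))
    · rcases (h1 (ψ n)).2 with ⟨a, ha⟩ | ⟨t', h7⟩
      · exact absurd (ha ▸ finite_singleton a) (ht.inf (h5 (ψ n)))
      · obtain ⟨a, h8, h9⟩ := x.nonempty_of_mem (inter_mem (h5 (ψ n)) (ht (ψ n)))
        exact cone_mono (hψ.id_le n) ((h9.2.trans (h7 h8).2.symm).mono (hψ.id_le n)) (h7 (h6 n))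

theorem no_cl {s : ℕ → I} (h1 : ∀ n, s (n + 1) ∈ up (s n)) (h2 : ∀ n, (s n).1 < (s (n + 1)).1)
    {xs : ℕ → YY} (hx : ∀ n, (xs n).1 = ph (pure (s n))) : ¬ Cl xs := by
  rintro ⟨y, hy⟩
  have h3 : y ∈ X2 := closed2.mem_of_mapClusterPt hy
    (Eventually.of_forall fun n r => by rw [hx]; rfl)
  obtain ⟨A, h4, h5⟩ := cover2 0 h3
  have h6 := hy.frequently (p := fun y : YY => y.1 (.inl A) = true)
    (((isOpen_discrete {true}).preimage (cont _)).mem_nhds h5)
  have h7 : ∀ k l, k ≤ l → s l ∈ up (s k) := fun k l h => by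
    induction l, h using Nat.le_induction with
    | base => exact up_self _
    | succ l _ ih => exact up_trans ih (h1 _)
  have h8 : ∀ n, (xs n).1 (.inl A) = true → s n ∈ A := fun n h => (ph_inl.1 (hx n ▸ h)).2
  obtain ⟨k, hk⟩ := h6.exists
  obtain ⟨b, hb⟩ := ((h4.1 _ (h8 k hk)).image Prod.fst).bddAbove
  obtain ⟨n, h9, h10, h11⟩ :=
    (h6.and_eventually ((eventually_ge_atTop k).and (eventually_gt_atTop b))).exists
  have := hb ⟨s n, ⟨h8 n h9, h7 k n h10⟩, rfl⟩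
  have := (strictMono_nat_of_lt_succ h2).id_le n
  simp only [id] at this
  omega

theorem bad (H : ℕ → Set (Set YY)) (h1 : ∀ n, ∀ G ∈ H n, IsOpen G) (h2 : ∀ n y, ∃ G ∈ H n, y ∈ G) :
    ∃ (p : YY) (xs : ℕ → YY), (∀ n, ∃ G ∈ H n, p ∈ G ∧ xs n ∈ G) ∧ ¬ Cl xs := by
  classical
  have : ∀ n (z : FF), ∃ G ∈ H n, ∃ b : Finset J,
      ∀ y : YY, (∀ j ∈ b, y.1 j = ph z.1 j) → y ∈ G := fun n z => by
    obtain ⟨G, h3, h4⟩ := h2 n ⟨ph z.1, Or.inr (Or.inl ⟨_, z.2, rfl⟩)⟩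
    obtain ⟨O, h5, rfl⟩ := isOpen_induced_iff.1 (h1 n G h3)
    have h6 := h5.mem_nhds h4
    rw [nhds_pi, Filter.mem_pi'] at h6
    obtain ⟨a, t, h7, h8⟩ := h6
    exact ⟨_, h3, a, fun y hy => h8 fun k hk => by rw [hy k hk]; exact mem_of_mem_nhds (h7 k)⟩
  choose G h3 b h4 using this
  have : ∀ n (s : I) (z : FF), ∃ s', up s ∈ z.1 → s' ∈ up s ∧ s.1 < s'.1 ∧
      ∀ j ∈ b n z, ph (pure s') j = ph z.1 j := fun n s z => by
    by_cases h : up s ∈ z.1
    · obtain ⟨t, ht⟩ := FF_at z.2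
      have h5 := ph_tendsto
      have h6 : ∀ᶠ s' in (z.1 : Filter I), ∀ j ∈ b n z, ph (pure s') j = ph z.1 j := by
        rw [eventually_all_finset]
        rintro (A | r) -
        · by_cases h : A ∈ z.1
          · exact mem_of_superset h fun m hm => by simp [ph, hm, h]
          · exact mem_of_superset (Ultrafilter.compl_mem_iff_notMem.2 h) fun m hm => by
              have : m ∉ A := hm
              simp [ph, this, h]
        · exact Eventually.of_forall fun _ => rfl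
      obtain ⟨s', h7, h8, h9⟩ := z.1.nonempty_of_mem (inter_mem h (inter_mem (ht (s.1 + 1)) h6))
      exact ⟨s', fun _ => ⟨h7, h8.1, h9⟩⟩
    · exact ⟨s, fun h' => absurd h' h⟩
  choose nx h5 using this
  have hf : ∀ n (z : FF) (c : Bool), {A | Sum.inl A ∈ b n z ∧ ph z.1 (.inl A) = c}.Finite :=
    fun n z c => ((b n z).finite_toSet.preimage Sum.inl_injective.injOn).subset fun A h => h.1
  obtain ⟨s, z, h6, h7⟩ := free (fun s => {z : FF | up s ∈ z.1})
    (fun z => {A | ph z.1 (.inl A) = true})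
    (fun n z => {A | Sum.inl A ∈ b n z ∧ ph z.1 (.inl A) = true})
    (fun n z => {A | Sum.inl A ∈ b n z ∧ ph z.1 (.inl A) = false})
    (fun n z => hf n z _) (fun n z => hf n z _) (fun n z A h => h.2)
    (fun s E hE => by
      obtain ⟨z, h1, h2, h3⟩ := cand s hE
      exact ⟨⟨z, h1⟩, h2, disjoint_left.2 fun A h h' => h3 A h' (ph_inl.1 h).1 (ph_inl.1 h).2⟩)
    nx default
  have h8 : ∀ n, _ := fun n => h5 n (s n) (z n) (h6 n).1
  simp only [← (h6 _).2] at h8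
  let k : C := fun j => decide (∃ n, j ∈ b n (z n) ∧ ph (z n).1 j = true)
  refine ⟨⟨k, Or.inr (Or.inr ⟨(countable_iUnion fun n => (b n (z n)).countable_toSet).mono
      fun j hj => ?_, fun a => ?_⟩)⟩, fun n => ⟨ph (pure (s (n + 1))), Or.inl ⟨_, rfl⟩⟩,
    fun n => ⟨_, h3 n (z n), h4 _ _ _ fun j hj => ?_, h4 _ _ _ (h8 n).2.2⟩,
    no_cl (s := fun n => s (n + 1)) (fun n => (h8 _).1) (fun n => (h8 _).2.1) fun _ => rfl⟩
  · obtain ⟨n, hn⟩ := of_decide_eq_true hj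
    exact mem_iUnion.2 ⟨n, hn.1⟩
  · simp [k, ph_one (z _).2]
  · cases h : ph (z n).1 j
    · refine decide_eq_false fun ⟨i, h9, h10⟩ => ?_
      rcases j with A | r
      · by_cases e : i = n
        · rw [e, h] at h10; cases h10
        · exact disjoint_left.1 (h7 i n e) ⟨h9, h10⟩ ⟨hj, h⟩
      · cases h
    · exact decide_eq_true ⟨n, hj, h⟩

end Pool.Agent.H39.WD
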