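import Mathlib
import Pool.Agent.H39.NonBorel
import Pool.Agent.H39.UltraRamsey

set_option autoImplicit false

namespace Pool.Agent.H39.Z0Mad

open Set Filter Topology MeasureTheory Pool.Agent.H39.NonBorel Pool.Agent.H39.UltraRamsey

noncomputable def ind (A : Set ℕ) (a : ℕ) : ℝ := A.indicator 1 a

theorem ind_nonneg (A : Set ℕ) (a : ℕ) : 0 ≤ ind A a :=
  indicator_nonneg (fun _ _ => zero_le_one) _

theorem ind_le_one (A : Set ℕ) (a : ℕ) : ind A a ≤ 1 := by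
  unfold ind
  by_cases h : a ∈ A <;> simp [h]

noncomputable def μ (n : ℕ) (A : Set ℕ) : ℝ :=
  (∑ a ∈ Finset.Ico (2 ^ n) (2 ^ (n + 1)), ind A a) / 2 ^ n

theorem μ_nonneg (n : ℕ) (A : Set ℕ) : 0 ≤ μ n A :=
  div_nonneg (Finset.sum_nonneg fun a _ => ind_nonneg A a) (by positivity)

theorem μ_mono' {n : ℕ} {A B : Set ℕ} (h : ∀ a, 2 ^ n ≤ a → a < 2 ^ (n + 1) → a ∈ A → a ∈ B) :
    μ n A ≤ μ n B := by
  refine div_le_div_of_nonneg_right (Finset.sum_le_sum fun a ha => ?_) (by positivity)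
  rw [Finset.mem_Ico] at ha
  by_cases h1 : a ∈ A
  · simp [ind, h1, h a ha.1 ha.2 h1]
  · simpa [ind, h1] using ind_nonneg B a

theorem μ_mono {n : ℕ} {A B : Set ℕ} (h : A ⊆ B) : μ n A ≤ μ n B := μ_mono' fun _ _ _ h' => h h'

theorem μ_union_diff (n : ℕ) (A B : Set ℕ) : μ n (A ∪ B) = μ n A + μ n (B \ A) := by
  simp only [μ]
  rw [← add_div, ← Finset.sum_add_distrib]
  congr 1
  refine Finset.sum_congr rfl fun a _ => ?_
  by_cases h1 : a ∈ A <;> by_cases h2 : a ∈ B <;> simp [ind, h1, h2]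

theorem μ_union_le (n : ℕ) (A B : Set ℕ) : μ n (A ∪ B) ≤ μ n A + μ n B := by
  rw [μ_union_diff]
  linarith [μ_mono (n := n) (sdiff_subset (s := B) (t := A))]

theorem μ_le_one (n : ℕ) (A : Set ℕ) : μ n A ≤ 1 := by
  rw [μ, div_le_one (by positivity)]
  refine (Finset.sum_le_sum fun a _ => ind_le_one A a).trans ?_
  simp only [Finset.sum_const, Nat.card_Ico, nsmul_eq_mul, mul_one]
  rw [pow_succ, show 2 ^ n * 2 - 2 ^ n = 2 ^ n by omega]
  simp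

theorem μ_empty (n : ℕ) : μ n ∅ = 0 := by simp [μ, ind]

def Null (l : Filter ℕ) (A : Set ℕ) : Prop := Tendsto (fun n => μ n A) l (𝓝 0)

theorem Null.mono {l : Filter ℕ} {A B : Set ℕ} (h : Null l A) (h' : B ⊆ A) : Null l B :=
  squeeze_zero (fun _ => μ_nonneg _ _) (fun _ => μ_mono h') h

theorem Null.union {l : Filter ℕ} {A B : Set ℕ} (h : Null l A) (h' : Null l B) :
    Null l (A ∪ B) :=
  squeeze_zero (fun _ => μ_nonneg _ _) (fun _ => μ_union_le _ _ _) (by simpa using h.add h')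

theorem null_sUnion {l : Filter ℕ} {F : Set (Set ℕ)} (hF : F.Finite) (h : ∀ A ∈ F, Null l A) :
    Null l (⋃₀ F) := by
  induction F, hF using Set.Finite.induction_on with
  | empty => simpa [Null, μ_empty] using tendsto_const_nhds
  | insert _ _ ih =>
    rw [sUnion_insert]
    exact (h _ (mem_insert _ _)).union (ih fun A hA => h A (mem_insert_of_mem _ hA))

theorem null_iff {l : Filter ℕ} {A : Set ℕ} : Null l A ↔ ∀ δ > 0, ∀ᶠ n in l, μ n A < δ := by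
  rw [Null, Metric.tendsto_nhds]
  simp only [Real.dist_eq, sub_zero, abs_of_nonneg (μ_nonneg _ _)]

theorem ncard_eq (A : Set ℕ) (n : ℕ) :
    ((A ∩ Iio n).ncard : ℝ) = ∑ a ∈ Finset.range n, ind A a := by
  classical
  have : A ∩ Iio n = ↑((Finset.range n).filter (· ∈ A)) := by
    ext a
    simp [and_comm]
  rw [this, ncard_coe_finset, Finset.card_filter]
  push_cast
  refine Finset.sum_congr rfl fun a _ => ?_
  by_cases h : a ∈ A <;> simp [ind, h]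

theorem z0_iff (A : Set ℕ) :
    Tendsto (fun n : ℕ => ((A ∩ Iio n).ncard : ℝ) / n) atTop (𝓝 0) ↔ Null atTop A := by
  simp only [ncard_eq]
  have hsplit : ∀ n, ∑ a ∈ Finset.range (2 ^ (n + 1)), ind A a =
      ∑ a ∈ Finset.range (2 ^ n), ind A a + μ n A * 2 ^ n := by
    intro n
    rw [μ, div_mul_cancel₀ _ (by positivity), Finset.sum_range_add_sum_Ico]
    exact Nat.pow_le_pow_right (by norm_num) (Nat.le_succ n)
  have hnn : ∀ n, 0 ≤ ∑ a ∈ Finset.range n, ind A a :=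
    fun n => Finset.sum_nonneg fun a _ => ind_nonneg A a
  constructor
  · intro h
    have h1 : Tendsto (fun n : ℕ => 2 ^ (n + 1)) atTop atTop :=
      (tendsto_pow_atTop_atTop_of_one_lt (by norm_num)).comp (tendsto_add_atTop_nat 1)
    have h2 := (h.comp h1).const_mul 2
    rw [mul_zero] at h2
    refine squeeze_zero (fun _ => μ_nonneg _ _) (fun n => ?_) h2
    simp only [Function.comp, hsplit]
    push_cast
    rw [← mul_div_assoc, le_div_iff₀ (by positivity), pow_succ]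
    nlinarith [hnn (2 ^ n)]
  · intro h
    rw [Metric.tendsto_atTop]
    intro ε hε
    obtain ⟨j0, hj0⟩ := eventually_atTop.1 (null_iff.1 h (ε / 4) (by positivity))
    have h1 : ∀ n, j0 ≤ n → ∑ a ∈ Finset.range (2 ^ n), ind A a ≤ 2 ^ j0 + ε / 4 * 2 ^ n := by
      intro n hn
      induction n, hn using Nat.le_induction with
      | base =>
        refine (Finset.sum_le_sum fun a _ => ind_le_one A a).trans ?_
        simp only [Finset.sum_const, Finset.card_range, nsmul_eq_mul, mul_one]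
        push_cast
        have : 0 ≤ ε / 4 * 2 ^ j0 := by positivity
        linarith
      | succ n hn ih =>
        rw [hsplit, pow_succ]
        have := mul_le_mul_of_nonneg_right (hj0 n hn).le (show (0 : ℝ) ≤ 2 ^ n by positivity)
        linarith
    obtain ⟨N0, hN0⟩ := exists_nat_gt (2 ^ j0 / (ε / 2))
    refine ⟨max N0 (2 ^ j0), fun N hN => ?_⟩
    have hN1 : 2 ^ j0 ≤ N := (le_max_right _ _).trans hN
    have hN2 : 0 < N := lt_of_lt_of_le (by positivity) hN1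
    have hN3 : (0 : ℝ) < N := by exact_mod_cast hN2
    have h2 : j0 ≤ Nat.log 2 N := Nat.le_log_of_pow_le (by norm_num) hN1
    have h3 : N ≤ 2 ^ (Nat.log 2 N + 1) := (Nat.lt_pow_succ_log_self (by norm_num) N).le
    have h4 : (2 : ℝ) ^ Nat.log 2 N ≤ N := by exact_mod_cast Nat.pow_log_le_self 2 hN2.ne'
    have h5 : ∑ a ∈ Finset.range N, ind A a ≤
        ∑ a ∈ Finset.range (2 ^ (Nat.log 2 N + 1)), ind A a :=
      Finset.sum_le_sum_of_subset_of_nonneg (Finset.range_mono h3) fun a _ _ => ind_nonneg A a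
    have h6 := h1 (Nat.log 2 N + 1) (by omega)
    rw [Real.dist_eq, sub_zero, abs_of_nonneg (div_nonneg (hnn N) hN3.le), div_lt_iff₀ hN3]
    rw [div_lt_iff₀ (by positivity)] at hN0
    have h7 : (N0 : ℝ) ≤ N := by exact_mod_cast (le_max_left _ _).trans hN
    have h8 : (2 : ℝ) ^ (Nat.log 2 N + 1) ≤ 2 * N := by rw [pow_succ]; linarith
    have h9 := mul_le_mul_of_nonneg_left h8 (show 0 ≤ ε / 4 by positivity)
    have h10 := mul_le_mul_of_nonneg_right h7 (show 0 ≤ ε / 2 by positivity)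
    linarith

theorem freq_iff {Y : Set ℕ} {p : ℕ → Prop} :
    (∃ᶠ n in atTop ⊓ 𝓟 Y, p n) ↔ {n | n ∈ Y ∧ p n}.Infinite := by
  rw [frequently_inf_principal, Nat.frequently_atTop_iff_infinite]

theorem extract {P : ℕ → ℕ → Prop} (h : ∀ k, {n | P k n}.Infinite) :
    ∃ φ : ℕ → ℕ, StrictMono φ ∧ ∀ k, P k (φ k) :=
  extraction_forall_of_frequently fun k => Nat.frequently_atTop_iff_infinite.2 (h k)

theorem ev_range {φ : ℕ → ℕ} {p : ℕ → Prop} (h : ∀ᶠ k in atTop, p (φ k)) :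
    ∀ᶠ n in atTop ⊓ 𝓟 (range φ), p n := by
  rw [eventually_inf_principal, ← Nat.cofinite_eq_atTop, eventually_cofinite] at *
  refine (h.image φ).subset ?_
  intro n hn
  simp only [mem_ofPred_eq, Classical.not_imp] at hn
  obtain ⟨⟨k, rfl⟩, hk⟩ := hn
  exact ⟨k, hk, rfl⟩

section
variable {𝒜 : Set (Set ℕ)}

theorem null_of_cover (had : ∀ A ∈ 𝒜, ∀ B ∈ 𝒜, A ≠ B → Null atTop (A ∩ B)) {l : Filter ℕ}
    (hl : l ≤ atTop) {C : Set (Set ℕ)} (hC : C ⊆ 𝒜)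
    (h : ∀ δ > 0, ∃ F ⊆ C, F.Finite ∧ ∀ᶠ n in l, μ n (⋃₀ F)ᶜ ≤ δ) {A : Set ℕ} (hA : A ∈ 𝒜)
    (hA' : A ∉ C) : Null l A := by
  rw [null_iff]
  intro δ hδ
  obtain ⟨F, h1, h2, h3⟩ := h (δ / 2) (by positivity)
  have h4 : Null atTop (⋃₀ ((fun B => A ∩ B) '' F)) := null_sUnion (h2.image _) (by
    rintro _ ⟨B, hB, rfl⟩
    exact had A hA B (hC (h1 hB)) fun h => hA' (h ▸ h1 hB))
  filter_upwards [h3, hl (null_iff.1 h4 (δ / 2) (by positivity))] with n h5 h6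
  have h7 : μ n A ≤ μ n (⋃₀ ((fun B => A ∩ B) '' F) ∪ (⋃₀ F)ᶜ) := by
    refine μ_mono fun a ha => ?_
    by_cases h8 : a ∈ ⋃₀ F
    · obtain ⟨B, hB, haB⟩ := h8
      exact Or.inl ⟨_, ⟨B, hB, rfl⟩, ha, haB⟩
    · exact Or.inr h8
  have h8 : μ n (⋃₀ ((fun B => A ∩ B) '' F)) < δ / 2 := h6
  linarith [μ_union_le n (⋃₀ ((fun B => A ∩ B) '' F)) (⋃₀ F)ᶜ]

theorem greedy {δ : ℝ} (hδ : 0 < δ) (c : {c : Set ℕ × Set (Set ℕ) //
      c.1.Infinite ∧ c.2.Finite ∧ c.2 ⊆ 𝒜}) :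
    ∃ c' : {c : Set ℕ × Set (Set ℕ) // c.1.Infinite ∧ c.2.Finite ∧ c.2 ⊆ 𝒜},
      c'.1.1 ⊆ c.1.1 ∧ c.1.2 ⊆ c'.1.2 ∧
      ∀ A ∈ 𝒜, ∀ᶠ n in atTop ⊓ 𝓟 c'.1.1, μ n (A \ ⋃₀ c'.1.2) < δ := by
  by_contra h
  push Not at h
  have h1 : ∀ k : ℕ, ∃ c' : {c : Set ℕ × Set (Set ℕ) // c.1.Infinite ∧ c.2.Finite ∧ c.2 ⊆ 𝒜},
      c'.1.1 ⊆ c.1.1 ∧ c.1.2 ⊆ c'.1.2 ∧ ∀ n ∈ c'.1.1, k * δ ≤ μ n (⋃₀ c'.1.2) := by
    intro k
    induction k with
    | zero => exact ⟨c, Subset.rfl, Subset.rfl, fun n _ => by simpa using μ_nonneg _ _⟩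
    | succ k ih =>
      obtain ⟨c', h2, h3, h4⟩ := ih
      obtain ⟨A, hA, h5⟩ := h c' h2 h3
      refine ⟨⟨(_, insert A c'.1.2), freq_iff.1 h5, c'.2.2.1.insert A,
        insert_subset hA c'.2.2.2⟩, fun n hn => h2 hn.1, h3.trans (subset_insert _ _),
        fun n hn => ?_⟩
      simp only [sUnion_insert]
      rw [union_comm, μ_union_diff]
      push_cast
      linarith [h4 n hn.1, hn.2]
  obtain ⟨k, hk⟩ := exists_nat_gt (1 / δ)
  obtain ⟨c', -, -, h2⟩ := h1 k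
  obtain ⟨n, hn⟩ := c'.2.1.nonempty
  rw [div_lt_iff₀ hδ] at hk
  linarith [h2 n hn, μ_le_one n (⋃₀ c'.1.2)]

theorem tall (hmax : ∀ X, ¬ Null atTop X → ∃ A ∈ 𝒜, ¬ Null atTop (X ∩ A)) {X : Set ℕ}
    (hX : X.Infinite) : ∃ Y ⊆ X, Y.Infinite ∧ ∃ C ⊆ 𝒜, C.Countable ∧
      ∀ δ > 0, ∃ F ⊆ C, F.Finite ∧ ∀ᶠ n in atTop ⊓ 𝓟 Y, μ n (⋃₀ F)ᶜ ≤ δ := by
  choose nx h1 h2 h3 using fun (k : ℕ) => greedy (𝒜 := 𝒜) (δ := 1 / (k + 1)) (by positivity)
  let c : ℕ → {c : Set ℕ × Set (Set ℕ) // c.1.Infinite ∧ c.2.Finite ∧ c.2 ⊆ 𝒜} := fun k =>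
    Nat.rec ⟨(X, ∅), hX, finite_empty, empty_subset _⟩ (fun k c => nx k c) k
  have hc : ∀ k, c (k + 1) = nx k (c k) := fun _ => rfl
  have hY : Antitone fun k => (c k).1.1 := antitone_nat_of_succ_le fun k => h1 k (c k)
  have hF : Monotone fun k => (c k).1.2 := monotone_nat_of_le_succ fun k => h2 k (c k)
  obtain ⟨φ, hφ, hφ'⟩ := extract (P := fun k n => n ∈ (c k).1.1) fun k => (c k).2.1
  refine ⟨range φ, ?_, infinite_range_of_injective hφ.injective, ⋃ k, (c k).1.2,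
    iUnion_subset fun k => (c k).2.2.2, countable_iUnion fun k => (c k).2.2.1.countable,
    fun δ0 hδ0 => ?_⟩
  · rintro _ ⟨k, rfl⟩
    exact hY (Nat.zero_le k) (hφ' k)
  by_contra h4
  push Not at h4
  obtain ⟨m, hm, hm'⟩ := extract (P := fun k n => n ∈ range φ ∧ δ0 < μ n (⋃₀ (c k).1.2)ᶜ)
    fun k => freq_iff.1 (h4 _ (subset_iUnion (fun k => (c k).1.2) k) (c k).2.2.1)
  let Z : Set ℕ := {a | ∃ k, 2 ^ m k ≤ a ∧ a < 2 ^ (m k + 1) ∧ a ∉ ⋃₀ (c k).1.2}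
  have hZ : ¬ Null atTop Z := by
    intro h5
    obtain ⟨k, hk⟩ := (hm.tendsto_atTop.eventually (null_iff.1 h5 δ0 hδ0)).exists
    have : μ (m k) (⋃₀ (c k).1.2)ᶜ ≤ μ (m k) Z := μ_mono' fun a h6 h7 h8 => ⟨k, h6, h7, h8⟩
    linarith [(hm' k).2]
  obtain ⟨A, hA, h5⟩ := hmax Z hZ
  refine h5 (null_iff.2 fun δ hδ => ?_)
  obtain ⟨j, hj⟩ := exists_nat_one_div_lt hδ
  have h6 := h3 j (c j) A hA
  rw [← hc, eventually_inf_principal] at h6
  filter_upwards [h6, eventually_ge_atTop (m (j + 1)), eventually_ge_atTop (φ (j + 1))]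
    with n h7 h8 h9
  have h10 : ∀ a k, 2 ^ n ≤ a → a < 2 ^ (n + 1) → 2 ^ m k ≤ a → a < 2 ^ (m k + 1) → m k = n := by
    intro a k h11 h12 h13 h14
    have h15 := (Nat.pow_lt_pow_iff_right (by norm_num : 1 < 2)).1 (h11.trans_lt h14)
    have h16 := (Nat.pow_lt_pow_iff_right (by norm_num : 1 < 2)).1 (h13.trans_lt h12)
    omega
  by_cases h11 : ∃ k, m k = n
  · obtain ⟨k, rfl⟩ := h11
    obtain ⟨i, hi⟩ := (hm' k).1
    have h12 : j + 1 ≤ i := hφ.le_iff_le.1 (hi ▸ h9)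
    refine lt_of_le_of_lt (μ_mono' fun a h13 h14 h15 => ?_)
      ((h7 (hi ▸ hY h12 (hφ' i))).trans hj)
    obtain ⟨⟨k', h16, h17, h18⟩, h19⟩ := h15
    have h20 : k' = k := hm.injective (h10 a k' h13 h14 h16 h17)
    subst h20
    exact ⟨h19, fun h => h18 (sUnion_mono (hF (hm.le_iff_le.1 h8)) h)⟩
  · refine lt_of_le_of_lt (μ_mono' (B := ∅) fun a h13 h14 h15 => ?_) (by rwa [μ_empty])
    obtain ⟨⟨k', h16, h17, -⟩, -⟩ := h15
    exact h11 ⟨k', h10 a k' h13 h14 h16 h17⟩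

def Sm (𝒜 : Set (Set ℕ)) (ε : ℝ) (Y : Set ℕ) : Prop :=
  ∃ F ⊆ 𝒜, F.Finite ∧ ∃ ε' < ε, ∀ᶠ n in atTop ⊓ 𝓟 Y, μ n (⋃₀ F)ᶜ ≤ ε'

theorem Sm.mono {ε : ℝ} {Y Y' : Set ℕ} (h : Sm 𝒜 ε Y) (h' : Y' ⊆ Y) : Sm 𝒜 ε Y' := by
  obtain ⟨F, h1, h2, ε', h3, h4⟩ := h
  exact ⟨F, h1, h2, ε', h3, h4.filter_mono (inf_le_inf_left _ (principal_mono.2 h'))⟩

theorem Sm.union {ε : ℝ} {Y Y' : Set ℕ} (h : Sm 𝒜 ε Y) (h' : Sm 𝒜 ε Y') : Sm 𝒜 ε (Y ∪ Y') := by
  obtain ⟨F, h1, h2, ε', h3, h4⟩ := h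
  obtain ⟨G, h5, h6, ε'', h7, h8⟩ := h'
  refine ⟨F ∪ G, union_subset h1 h5, h2.union h6, max ε' ε'', max_lt h3 h7, ?_⟩
  rw [eventually_inf_principal] at *
  filter_upwards [h4, h8] with n h9 h10 hn
  rcases hn with hn | hn
  · exact ((μ_mono (compl_subset_compl.2 (sUnion_mono subset_union_left))).trans (h9 hn)).trans
      (le_max_left _ _)
  · exact ((μ_mono (compl_subset_compl.2 (sUnion_mono subset_union_right))).trans (h10 hn)).trans
      (le_max_right _ _)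

theorem pseudo {ε : ℝ} {U : Ultrafilter ℕ} (hU : ∀ X ∈ U, ¬ Sm 𝒜 ε X) {S : List ℕ → Set ℕ}
    (hS : ∀ l, S l ∈ U) {C : Set (Set ℕ)} (hC : C ⊆ 𝒜) (hC' : C.Countable) :
    ∃ Z : Set ℕ, Z.Infinite ∧ (∀ l, ∀ᶠ n in atTop ⊓ 𝓟 Z, n ∈ S l) ∧
      ∀ F ⊆ C, F.Finite → ∀ ε' < ε, ∀ᶠ n in atTop ⊓ 𝓟 Z, ε' < μ n (⋃₀ F)ᶜ := by
  obtain ⟨G, hG⟩ := (countable_ofPred_finite_subset hC').exists_eq_range
    ⟨∅, finite_empty, empty_subset _⟩
  have hG' : ∀ j, (G j).Finite ∧ G j ⊆ C := fun j => by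
    have : G j ∈ {t | t.Finite ∧ t ⊆ C} := hG ▸ mem_range_self j
    exact this
  obtain ⟨e, he⟩ := exists_surjective_nat (List ℕ)
  obtain ⟨φ, hφ, hφ'⟩ := extract (P := fun k n => n ∈ (⋂ j ∈ Finset.range (k + 1), S (e j)) ∧
      ε - 1 / (k + 1) < μ n (⋃₀ ⋃ j < k + 1, G j)ᶜ) fun k => by
    rw [← freq_iff]
    by_contra h
    refine hU _ ((biInter_finset_mem (Finset.range (k + 1))).2 fun j _ => hS (e j))
      ⟨⋃ j < k + 1, G j, iUnion₂_subset fun j _ => (hG' j).2.trans hC,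
        (finite_lt_nat _).biUnion fun j _ => (hG' j).1, ε - 1 / (k + 1),
        sub_lt_self _ (by positivity), ?_⟩
    simpa only [not_frequently, not_lt] using h
  refine ⟨range φ, infinite_range_of_injective hφ.injective, fun l => ev_range ?_,
    fun F h1 h2 ε' h3 => ev_range ?_⟩
  · obtain ⟨j, rfl⟩ := he l
    filter_upwards [eventually_ge_atTop j] with k hk
    exact mem_iInter₂.1 (hφ' k).1 j (Finset.mem_range.2 (by omega))
  · have : F ∈ range G := hG ▸ ⟨h2, h1⟩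
    obtain ⟨j, rfl⟩ := this
    filter_upwards [eventually_ge_atTop j,
      tendsto_one_div_add_atTop_nhds_zero_nat.eventually (gt_mem_nhds (sub_pos.2 h3))]
      with k hk h4
    refine lt_of_lt_of_le (lt_trans (by linarith) (hφ' k).2)
      (μ_mono (compl_subset_compl.2 (sUnion_mono ?_)))
    exact subset_iUnion₂ (s := fun j (_ : j < k + 1) => G j) j (by omega)

theorem exists_in {Z T : Set ℕ} (hZ : Z.Infinite) (h : ∀ᶠ n in atTop ⊓ 𝓟 Z, n ∈ T) (N : ℕ) :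
    ∃ n ∈ Z, n ∈ T ∧ N < n := by
  rw [eventually_inf_principal] at h
  obtain ⟨n, h1, h2, h3⟩ := ((Nat.frequently_atTop_iff_infinite.2 hZ).and_eventually
    (h.and (eventually_gt_atTop N))).exists
  exact ⟨n, h1, h2 h1, h3⟩

theorem selective (had : ∀ A ∈ 𝒜, ∀ B ∈ 𝒜, A ≠ B → Null atTop (A ∩ B))
    (hmax : ∀ X, ¬ Null atTop X → ∃ A ∈ 𝒜, ¬ Null atTop (X ∩ A))
    {ε : ℝ} {U : Ultrafilter ℕ} (hU : ∀ X ∈ U, ¬ Sm 𝒜 ε X) {S : List ℕ → Set ℕ}
    (hS : ∀ l, S l ∈ U) : ∃ y : ℕ → ℕ, (∀ n, y n ∈ S (res y n)) ∧ ¬ Sm 𝒜 ε (range y) := by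
  have h1 : ∀ C : {C : Set (Set ℕ) // C ⊆ 𝒜 ∧ C.Countable}, ∃ Z : Set ℕ,
      ∃ C' : {C : Set (Set ℕ) // C ⊆ 𝒜 ∧ C.Countable}, C.1 ⊆ C'.1 ∧ Z.Infinite ∧
      (∀ l, ∀ᶠ n in atTop ⊓ 𝓟 Z, n ∈ S l) ∧
      (∀ F ⊆ C.1, F.Finite → ∀ ε' < ε, ∀ᶠ n in atTop ⊓ 𝓟 Z, ε' < μ n (⋃₀ F)ᶜ) ∧
      ∀ A ∈ 𝒜, A ∉ C'.1 → Null (atTop ⊓ 𝓟 Z) A := by
    rintro ⟨C, hC, hC'⟩
    obtain ⟨Z0, h1, h2, h3⟩ := pseudo hU hS hC hC'
    obtain ⟨Z, h4, h5, C', h6, h7, h8⟩ := tall hmax h1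
    have h9 : (atTop ⊓ 𝓟 Z : Filter ℕ) ≤ atTop ⊓ 𝓟 Z0 := inf_le_inf_left _ (principal_mono.2 h4)
    exact ⟨Z, ⟨C ∪ C', union_subset hC h6, hC'.union h7⟩, subset_union_left, h5,
      fun l => h9 (h2 l), fun F h10 h11 ε' h12 => h9 (h3 F h10 h11 ε' h12),
      fun A hA hA' => null_of_cover had inf_le_left h6 h8 hA fun h => hA' (Or.inr h)⟩
  choose Z nx h2 h3 h4 h5 h6 using h1
  let C : ℕ → {C : Set (Set ℕ) // C ⊆ 𝒜 ∧ C.Countable} := fun k =>
    Nat.rec ⟨∅, empty_subset _, countable_empty⟩ (fun _ c => nx c) k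
  have hC : Monotone fun k => (C k).1 := monotone_nat_of_le_succ fun k => h2 (C k)
  obtain ⟨y, hy⟩ := exists_branch'
    (Q := fun s m => m ∈ Z (C s.length.unpair.1) ∧ m ∈ S s ∧ s.length < m)
    fun s => exists_in (h3 _) (h4 _ s) _
  refine ⟨y, fun n => (hy n).2.1, ?_⟩
  rintro ⟨F, h7, h8, ε', h9, h10⟩
  obtain ⟨i, hi⟩ : ∃ i, ∀ A ∈ F, A ∈ (C i).1 ∨ A ∉ (C (i + 1)).1 := by
    refine Eventually.exists (f := atTop) ((eventually_all_finite h8).2 fun A _ => ?_)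
    by_cases h11 : ∃ k, A ∈ (C k).1
    · obtain ⟨k, hk⟩ := h11
      filter_upwards [eventually_ge_atTop k] with i hi
      exact Or.inl (hC hi hk)
    · exact Eventually.of_forall fun i => Or.inr fun h => h11 ⟨i + 1, h⟩
  have h11 := h5 (C i) (F ∩ (C i).1) inter_subset_right (h8.inter_of_left _) ((ε + ε') / 2)
    (by linarith)
  have h12 := null_iff.1 (null_sUnion (h8.subset (sdiff_subset (t := (C i).1))) fun A hA =>
    h6 (C i) A (h7 hA.1) ((hi A hA.1).resolve_left hA.2)) ((ε - ε') / 2) (by linarith)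
  rw [eventually_inf_principal] at h10 h11 h12
  obtain ⟨N, hN⟩ := eventually_atTop.1 (h10.and (h11.and h12))
  have h13 := hy (Nat.pair i N)
  simp only [length_res, Nat.unpair_pair] at h13
  obtain ⟨h14, h15, h16⟩ := hN _ ((Nat.right_le_pair i N).trans h13.2.2.le)
  have h17 : μ (y (Nat.pair i N)) (⋃₀ (F ∩ (C i).1))ᶜ ≤
      μ (y (Nat.pair i N)) ((⋃₀ F)ᶜ ∪ ⋃₀ (F \ (C i).1)) := by
    refine μ_mono fun a ha => ?_
    by_cases h18 : a ∈ ⋃₀ F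
    · obtain ⟨B, hB, haB⟩ := h18
      exact Or.inr ⟨B, ⟨hB, fun h => ha ⟨B, ⟨hB, h⟩, haB⟩⟩, haB⟩
    · exact Or.inl h18
  linarith [μ_union_le (y (Nat.pair i N)) (⋃₀ F)ᶜ (⋃₀ (F \ (C i).1)), h14 ⟨_, rfl⟩, h15 h13.1,
    h16 h13.1]

theorem analytic_Sm (hne : 𝒜.Nonempty)
    (han : AnalyticSet {f : ℕ → Bool | {n | f n = true} ∈ 𝒜}) (ε : ℝ) :
    AnalyticSet {y : ℕ → ℕ | Sm 𝒜 ε (range y)} := by
  classical
  have hset : ∀ A : Set ℕ, {n | decide (n ∈ A) = true} = A := fun A => by ext n; simp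
  rw [AnalyticSet] at han
  rcases han with h | ⟨g, hg, h⟩
  · obtain ⟨A, hA⟩ := hne
    have : (fun n => decide (n ∈ A)) ∈ {f : ℕ → Bool | {n | f n = true} ∈ 𝒜} := by
      simpa only [mem_ofPred_eq, hset] using hA
    rw [h] at this
    exact this.elim
  have h1 : ∀ w, {n | g w n = true} ∈ 𝒜 := fun w => by
    have : g w ∈ {f : ℕ → Bool | {n | f n = true} ∈ 𝒜} := h ▸ mem_range_self w
    exact this
  have h2 : ∀ A ∈ 𝒜, ∃ w, {n | g w n = true} = A := fun A hA => by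
    have : (fun n => decide (n ∈ A)) ∈ range g := by
      rw [h]; simpa only [mem_ofPred_eq, hset] using hA
    obtain ⟨w, hw⟩ := this
    exact ⟨w, by rw [hw, hset]⟩
  let V : ℕ → (ℕ → ℕ → ℕ) → Set ℕ := fun r w => {a | ∀ i < r, g (w i) a = false}
  have hV : ∀ r w, V r w = (⋃₀ ((fun i => {n | g (w i) n = true}) '' {i | i < r}))ᶜ := by
    intro r w
    ext a
    simp [V]
  have h3 : {y : ℕ → ℕ | Sm 𝒜 ε (range y)} = ⋃ (r : ℕ) (j : ℕ) (N : ℕ), Prod.fst ''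
      {q : (ℕ → ℕ) × (ℕ → ℕ → ℕ) | ∀ k, N ≤ q.1 k → μ (q.1 k) (V r q.2) ≤ ε - 1 / (j + 1)} := by
    ext y
    simp only [mem_iUnion, mem_ofPred_eq]
    constructor
    · rintro ⟨F, h4, h5, ε', h6, h7⟩
      obtain ⟨r, w, hw⟩ : ∃ (r : ℕ) (w : ℕ → ℕ → ℕ),
          (fun i => {n | g (w i) n = true}) '' {i | i < r} = F := by
        obtain ⟨r, f, hf, -⟩ := h5.fin_param |>.imp fun r h => h.imp fun f h => And.symm h
        choose w hw using fun i : Fin r => h2 (f i) (h4 (hf ▸ mem_range_self i))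
        refine ⟨r, fun i => if h : i < r then w ⟨i, h⟩ else 0, ?_⟩
        rw [← hf]
        ext A
        constructor
        · rintro ⟨i, hi, rfl⟩
          exact ⟨⟨i, hi⟩, by simp only [dif_pos (show i < r from hi), hw]⟩
        · rintro ⟨i, rfl⟩
          exact ⟨i, i.2, by simp only [dif_pos i.2, hw]⟩
      obtain ⟨j, hj⟩ := exists_nat_one_div_lt (sub_pos.2 h6)
      rw [eventually_inf_principal] at h7
      obtain ⟨N, hN⟩ := eventually_atTop.1 h7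
      refine ⟨r, j, N, (y, w), fun k hk => ?_, rfl⟩
      rw [hV, hw]
      linarith [hN _ hk ⟨k, rfl⟩]
    · rintro ⟨r, j, N, ⟨y', w⟩, h4, rfl⟩
      refine ⟨(fun i => {n | g (w i) n = true}) '' {i | i < r}, ?_, (finite_lt_nat r).image _,
        ε - 1 / (j + 1), sub_lt_self _ (by positivity), ?_⟩
      · rintro _ ⟨i, -, rfl⟩
        exact h1 _
      · rw [eventually_inf_principal]
        filter_upwards [eventually_ge_atTop N] with n hn
        rintro ⟨k, rfl⟩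
        rw [← hV]
        exact h4 k hn
  rw [h3]
  refine AnalyticSet.iUnion fun r => AnalyticSet.iUnion fun j => AnalyticSet.iUnion fun N => ?_
  refine (MeasurableSet.analyticSet ?_).image_of_continuous continuous_fst
  have h4 : ∀ a, MeasurableSet {w : ℕ → ℕ → ℕ | a ∈ V r w} := by
    intro a
    rw [measurableSet_setOfPred]
    refine Measurable.forall fun i => measurable_const.imp ?_
    exact (measurable_of_countable fun b : Bool => b = false).comp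
      ((measurable_pi_apply a).comp (hg.measurable.comp (measurable_pi_apply i)))
  have h5 : Measurable fun q : ℕ × (ℕ → ℕ → ℕ) => μ q.1 (V r q.2) := by
    refine measurable_from_prod_countable_right fun n => ?_
    have h6 : ∀ a, Measurable fun w : ℕ → ℕ → ℕ => ind (V r w) a := fun a =>
      (measurable_const (a := (1 : ℝ))).indicator (h4 a)
    simp only [μ]
    exact (Finset.measurable_sum _ fun a _ => h6 a).div_const _
  rw [measurableSet_setOfPred]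
  refine Measurable.forall fun k => Measurable.imp ?_ ?_
  · exact (measurable_of_countable fun n : ℕ => N ≤ n).comp
      ((measurable_pi_apply k).comp measurable_fst)
  · have h6 : Measurable fun q : (ℕ → ℕ) × (ℕ → ℕ → ℕ) => (q.1 k, q.2) := by fun_prop
    have h7 : Measurable fun q : (ℕ → ℕ) × (ℕ → ℕ → ℕ) => μ (q.1 k) (V r q.2) := h5.comp h6
    exact measurableSet_setOfPred.1 (measurableSet_le h7 measurable_const)

theorem main (hunc : ¬ 𝒜.Countable)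
    (han : AnalyticSet {f : ℕ → Bool | {n | f n = true} ∈ 𝒜})
    (hpos : ∀ A ∈ 𝒜, ¬ Null atTop A)
    (had : ∀ A ∈ 𝒜, ∀ B ∈ 𝒜, A ≠ B → Null atTop (A ∩ B))
    (hmax : ∀ X, ¬ Null atTop X → ∃ A ∈ 𝒜, ¬ Null atTop (X ∩ A)) : False := by
  obtain ⟨ε, hε, h1⟩ : ∃ ε > 0, ¬ Sm 𝒜 ε univ := by
    by_contra h
    push Not at h
    choose F h1 h2 e h3 h4 using fun j : ℕ => h (1 / (j + 1)) (by positivity)
    refine hunc ((countable_iUnion fun j => (h2 j).countable).mono fun A hA => ?_)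
    by_contra h5
    refine hpos A hA (null_of_cover had le_rfl (iUnion_subset h1) (fun δ hδ => ?_) hA h5)
    obtain ⟨j, hj⟩ := exists_nat_one_div_lt hδ
    refine ⟨F j, subset_iUnion F j, h2 j, ?_⟩
    have := h4 j
    rw [principal_univ, inf_top_eq] at this
    filter_upwards [this] with n hn
    linarith [h3 j]
  let 𝓕 : Filter ℕ := Filter.comk (Sm 𝒜 ε)
    ⟨∅, empty_subset _, finite_empty, 0, hε, by simp⟩ (fun _ h _ h' => h.mono h')
    fun _ h _ h' => h.union h'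
  have hne : 𝓕.NeBot := ⟨fun h => h1 (by
    have : (∅ : Set ℕ) ∈ 𝓕 := h ▸ mem_bot
    have h2 : Sm 𝒜 ε ∅ᶜ := this
    rwa [compl_empty] at h2)⟩
  let U := Ultrafilter.of 𝓕
  have hU : ∀ X ∈ U, ¬ Sm 𝒜 ε X := fun X hX h =>
    Ultrafilter.compl_notMem_iff.2 hX (Ultrafilter.of_le 𝓕
      (show Sm 𝒜 ε Xᶜᶜ by rwa [compl_compl]))
  obtain ⟨S, hS, h2 | h2⟩ := ultraRamsey U
    (analytic_Sm (nonempty_iff_ne_empty.2 fun h => hunc (by rw [h]; exact countable_empty)) han ε)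
  · obtain ⟨y, h3, h4⟩ := selective had hmax hU hS
    exact h4 (h2 y h3)
  · obtain ⟨Z, h3, h4, -⟩ := pseudo hU hS (empty_subset _) countable_empty
    obtain ⟨Y, h5, h6, C, h7, -, h8⟩ := tall hmax h3
    obtain ⟨y, hy⟩ := exists_branch' (Q := fun s m => m ∈ Y ∧ m ∈ S s ∧ 0 < m)
      fun s => exists_in h6 ((h4 s).filter_mono (inf_le_inf_left _ (principal_mono.2 h5))) _
    obtain ⟨F, h9, h10, h11⟩ := h8 (ε / 2) (by positivity)
    refine h2 y (fun n => (hy n).2.1) (Sm.mono ⟨F, h9.trans h7, h10, ε / 2, by linarith, h11⟩ ?_)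
    rintro _ ⟨n, rfl⟩
    exact (hy n).1

end

end Pool.Agent.H39.Z0Mad
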